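import Pool.Agent.P.MP_9c97e9_nt.KT.IfL

/-! The decomposition group is the image of the local Galois group. -/

namespace Pool.Agent.P.MP_9c97e9_nt.KT

open scoped NNReal
open MP_8b7eba_nt.R2
open Filter Topology

namespace TDEC

theorem lc {k : Type} [Field k] (x : AlgebraicClosure k) :
    IsLocallyConstant fun g : Gal k => g x := by
  refine (IsLocallyConstant.iff_eventually_eq _).2 fun g => ?_
  have h : IsOpen ((fun h : Gal k => g⁻¹ * h) ⁻¹'
      (MulAction.stabilizer (Gal k) x : Set (Gal k))) :=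
    (stabilizer_isOpen_of_isIntegral (K := k) x).preimage (continuous_const_mul _)
  filter_upwards [h.mem_nhds (x := g) (by simp)] with h hh
  have e : g⁻¹ (h x) = x := hh
  conv_rhs => rw [← e]
  simp

/-- the restrictions of the local automorphisms -/
def res (K : Type) [Field K] [CharZero K] : Subgroup GQ where
  carrier := {g | ∃ σ : Gal K, ∀ x, emb ℚ K (g x) = σ (emb ℚ K x)}
  one_mem' := ⟨1, fun _ => rfl⟩
  mul_mem' := by
    rintro g h ⟨σ, hσ⟩ ⟨τ, hτ⟩
    exact ⟨σ * τ, fun x => by rw [AlgEquiv.mul_apply, AlgEquiv.mul_apply, hσ, hτ]⟩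
  inv_mem' := by
    rintro g ⟨σ, hσ⟩
    refine ⟨σ⁻¹, fun x => σ.injective ?_⟩
    rw [← hσ]
    simp

theorem closed_res (K : Type) [Field K] [CharZero K] : IsClosed (res K : Set GQ) := by
  have h : IsClosed {q : GQ × Gal K | ∀ x, emb ℚ K (q.1 x) = q.2 (emb ℚ K x)} := by
    rw [Set.ofPred_forall]
    refine isClosed_iInter fun x => ?_
    have h1 : IsLocallyConstant fun q : GQ × Gal K => q.1 x :=
      (lc x).comp_continuous continuous_fst
    have h2 : IsLocallyConstant fun q : GQ × Gal K => q.2 (emb ℚ K x) :=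
      (lc (emb ℚ K x)).comp_continuous continuous_snd
    simpa using (h1.comp₂ h2 fun a b => emb ℚ K a = b).isClosed_fiber True
  have e : (res K : Set GQ) =
      Prod.fst '' {q : GQ × Gal K | ∀ x, emb ℚ K (q.1 x) = q.2 (emb ℚ K x)} := by
    ext g
    exact ⟨fun ⟨σ, h⟩ => ⟨(g, σ), h, rfl⟩, fun ⟨q, h, e⟩ => e ▸ ⟨q.2, h⟩⟩
  rw [e]
  exact isClosedMap_fst_of_compactSpace _ h

end TDEC

open TDEC in
theorem t_DEC : DEC := by
  intro p _ w hw g hg
  refine (a_GAL (res ℚ_[p]) (closed_res _)).1 g fun x hx => ?_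
  obtain ⟨y, hy⟩ := of_fixed (k := ℚ_[p]) (x := emb ℚ ℚ_[p] x) fun σ => by
    obtain ⟨τ, hτ⟩ := exists_restrict (k := ℚ) σ
    rw [← hτ, hx τ ⟨σ, hτ⟩]
  have hv : ∀ z, (w.v z : ℝ) = ‖(emb ℚ ℚ_[p] z : PadicAlgCl p)‖ := fun z => by
    rw [hw]
    rfl
  have key : ∀ ε : ℝ, 0 < ε → (w.v (g x - x) : ℝ) < ε := by
    intro ε hε
    obtain ⟨q, hq⟩ := Padic.rat_dense (p := p) y hε
    have h1 : (w.v (x - algebraMap ℚ Om q) : ℝ) < ε := by
      rw [hv, map_sub, ← hy, emb_alg, ← map_sub]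
      exact (PadicAlgCl.norm_extends p _).trans_lt (by simpa using hq)
    have h2 : w.v (g x - algebraMap ℚ Om q) = w.v (x - algebraMap ℚ Om q) := by
      rw [← Pl.mem_D.1 hg (x - algebraMap ℚ Om q), map_sub g, AlgEquiv.commutes]
    have h3 := w.v.map_sub (g x - algebraMap ℚ Om q) (x - algebraMap ℚ Om q)
    rw [h2, max_self, sub_sub_sub_cancel_right] at h3
    exact lt_of_le_of_lt (NNReal.coe_le_coe.2 h3) h1
  have h0 : w.v (g x - x) = 0 := by
    by_contra h
    exact lt_irrefl _ (key _ (NNReal.coe_pos.2 (pos_iff_ne_zero.2 h)))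
  exact sub_eq_zero.1 ((Valuation.zero_iff _).1 h0)

end Pool.Agent.P.MP_9c97e9_nt.KT
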