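import Pool.Agent.P.MP_9c97e9_nt.KT.IfL

/-! A torsion cocycle which comes from a local point comes from an algebraic point. -/

namespace Pool.Agent.P.MP_9c97e9_nt.KT

open MP_8b7eba_nt.R2 Classical

namespace TLAL

variable {K : Type} [Field K] [CharZero K] {W : WeierstrassCurve ℤ} {e₁ e₂ e₃ : ℚ}

/-- rational points over the algebraic closure -/
def Rt (R : Pt W (AlgebraicClosure K)) : Prop := ∀ σ : Gal K, pm W σ R = R

/-- algebraic points -/
def Al (R : Pt W (AlgebraicClosure K)) : Prop := R ∈ (pm W (emb ℚ K)).range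

theorem al_of_is (h : Split W e₁ e₂ e₃) {R : Pt W (AlgebraicClosure K)} {x η : Om}
    (hR : Is R (emb ℚ K x) (emb ℚ K η)) : Al R := by
  have hO := h.map (am ℚ)
  have hE := hO.map (emb ℚ K)
  obtain ⟨P, hP⟩ := hO.exists_is (x := x) (η := η) ((emb ℚ K).injective (by
    simpa [map_ofNat] using hR.eq hE))
  exact ⟨P, (hP.map _).unique hE hR⟩

theorem al_two (h : Split W e₁ e₂ e₃) {T : Pt W (AlgebraicClosure K)} (hT : T + T = 0) :
    Al T := by
  have hE := (h.map (am ℚ)).map (emb ℚ K)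
  rcases two_torsion hE hT with rfl | h1 | h1 | h1
  · exact zero_mem _
  all_goals
    rw [← map_zero (emb ℚ K)] at h1
    exact al_of_is h h1

theorem al_half (h : Split W e₁ e₂ e₃) {Q : Pt W (AlgebraicClosure K)} (hQ : Al (Q + Q)) :
    Al Q := by
  obtain ⟨P, hP⟩ := hQ
  obtain ⟨P', rfl⟩ := exists_half (h.map (am ℚ)) P
  have h1 : Al (Q - pm W (emb ℚ K) P') :=
    al_two h (by rw [sub_add_sub_comm, ← map_add, hP, sub_self])
  have h2 : Q = Q - pm W (emb ℚ K) P' + pm W (emb ℚ K) P' := (sub_add_cancel _ _).symm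
  rw [h2]
  exact add_mem h1 ⟨P', rfl⟩

theorem al_pow (h : Split W e₁ e₂ e₃) (i : ℕ) {Q : Pt W (AlgebraicClosure K)}
    (hQ : Al (W := W) (K := K) (2 ^ i • Q)) : Al Q := by
  induction i generalizing Q with
  | zero => simpa using hQ
  | succ i ih => exact al_half h (ih (by rwa [← two_nsmul, ← mul_nsmul', ← pow_succ]))

omit [CharZero K] in
theorem rt_am (P : Pt W K) : Rt (pm W (am K) P) := fun σ => by
  rw [pm_pm]
  congr 2
  exact RingHom.ext σ.commutes

omit [CharZero K] in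
/-- a point all of whose descent invariants are squares has a rational half -/
theorem rt_half {a b e : K} (h : Split W a b e) {D : Pt W K} (h0 : D + D ≠ 0)
    (s1 : IsSquare (dl a b e D)) (s2 : IsSquare (dl b a e D)) :
    ∃ H, Rt H ∧ H + H = pm W (am K) D := by
  have h' := h.map (am K)
  obtain ⟨H, hH⟩ := exists_half h' (pm W (am K) D)
  obtain ⟨x, η, hD⟩ := (zero_or_is D).resolve_left fun e => h0 (by rw [e, add_zero])
  have hη := (hD.two_ne h).1 h0
  have hD' : Is (H + H) (am K x) (am K η) := hH ▸ hD.map _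
  refine ⟨H, fun σ => ?_, hH⟩
  have h4 : pm W σ H - H + (pm W σ H - H) = 0 := by
    rw [sub_add_sub_comm, ← map_add, hH, rt_am, sub_self]
  have key : ∀ {a b e : K}, Split W a b e → IsSquare (dl a b e D) →
      sg (am K a) (pm W σ H - H) = sg (am K a) (0 : Pt W (AlgebraicClosure K)) :=
    fun {a b e} hs s => by
      have hs' := hs.map (am K)
      have hx : x - a ≠ 0 := fun e0 => hη (by simpa [e0] using hD.eq hs)
      rw [hD.dl_ne hx] at s
      obtain ⟨y, hy⟩ := s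
      have h5 := UU_add hs' h4 hD'.ne_zero
      rw [add_sub_cancel, UU_gal] at h5
      have h6 := UU_sq hs' hD'
      generalize UU _ _ _ H = u at h5 h6
      have h7 : u ^ 2 = am K y ^ 2 := by rw [← h6, ← map_sub, hy, map_mul, sq]
      have h8 : u ≠ 0 := fun e0 => hx ((am K).injective (by simpa [e0] using h6))
      have h9 : σ u = u := by
        rcases sq_eq_sq_iff_eq_or_eq_neg.1 h7 with e | e <;> simp [e]
      rw [h9] at h5
      refine sg_cast hs'.two (mul_right_cancel₀ h8 ?_)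
      rw [sg_zero]
      push_cast
      linear_combination -h5
  exact sub_eq_zero.1 (sg_inj h' h4 (add_zero _) (key h s1) (key h.swap s2))

theorem step (h : Split W e₁ e₂ e₃) (hA : Apx K) {R : Pt W (AlgebraicClosure K)} (hR : Rt R) :
    ∃ R₁ R₂ : Pt W (AlgebraicClosure K), Al R₁ ∧ Rt R₂ ∧ R = R₁ + (R₂ + R₂) := by
  have rz : Rt (0 : Pt W (AlgebraicClosure K)) := fun σ => map_zero _
  by_cases h0 : R + R = 0
  · exact ⟨R, 0, al_two h h0, rz, by simp⟩
  have hK := h.map (algebraMap ℚ K)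
  have hb := hK.map (am K)
  obtain ⟨x, η, hx⟩ := (zero_or_is R).resolve_left fun e => h0 (by rw [e, add_zero])
  have hf : ∀ σ : Gal K, σ x = x ∧ σ η = η := fun σ => by
    have := hx.map (K := AlgebraicClosure K) σ
    rw [hR σ] at this
    exact this.inj hx
  obtain ⟨x, rfl⟩ := of_fixed fun σ => (hf σ).1
  obtain ⟨η, rfl⟩ := of_fixed fun σ => (hf σ).2
  have hη : η ≠ 0 := fun e => (hx.two_ne hb).1 h0 (by simp [e])
  have he : η ^ 2 = 4 * ((x - algebraMap ℚ K e₁) * (x - algebraMap ℚ K e₂) *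
      (x - algebraMap ℚ K e₃)) := (am K).injective (by simpa [map_ofNat] using hx.eq hb)
  obtain ⟨R, hR0⟩ := hK.exists_is he
  obtain rfl := (hR0.map (am K)).unique hb hx
  simp only [eq_ratCast] at he hK
  have n1 : x - e₁ ≠ 0 := fun e => hη (by simpa [e] using he)
  have n2 : x - e₂ ≠ 0 := fun e => hη (by simpa [e] using he)
  have n3 : x - e₃ ≠ 0 := fun e => hη (by simpa [e] using he)
  obtain ⟨q, hq⟩ := hA x {e₁, e₂, e₃} (by
    simp only [Finset.mem_insert, Finset.mem_singleton, forall_eq_or_imp, forall_eq]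
    exact ⟨sub_ne_zero.1 n1, sub_ne_zero.1 n2, sub_ne_zero.1 n3⟩)
  simp only [Finset.mem_insert, Finset.mem_singleton, forall_eq_or_imp, forall_eq] at hq
  obtain ⟨⟨q1, s₁, t1⟩, ⟨q2, s₂, t2⟩, -, s₃, t3⟩ := hq
  have hS : (4 * (s₁ * s₂ * s₃) / η) ^ 2 = 4 * (((q : K) - e₁) * (q - e₂) * (q - e₃)) := by
    rw [div_pow, div_eq_iff (pow_ne_zero 2 hη), he]
    linear_combination (-16 * (s₂ * s₂) * (s₃ * s₃)) * t1 -
      16 * ((q - e₁) * (x - e₁)) * (s₃ * s₃) * t2 -
      16 * ((q - e₁) * (x - e₁)) * ((q - e₂) * (x - e₂)) * t3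
  generalize 4 * (s₁ * s₂ * s₃) / η = ζ at hS
  obtain ⟨S, hS0⟩ := hK.exists_is hS
  have aS : Al (pm W (am K) S) := by
    obtain ⟨γ, hγ⟩ := IsAlgClosed.exists_pow_nat_eq
      (am ℚ (4 * ((q - e₁) * (q - e₂) * (q - e₃)))) two_pos
    have h1 := congrArg (emb ℚ K) hγ
    rw [map_pow, emb_alg] at h1
    have h2 : am K ζ ^ 2 = emb ℚ K γ ^ 2 := by
      rw [h1, ← map_pow, hS]
      simp
    have h3 : am K (q : K) = emb ℚ K (am ℚ q) := by simp
    have h4 := hS0.map (am K)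
    rw [h3] at h4
    rcases sq_eq_sq_iff_eq_or_eq_neg.1 h2 with e | e
    · exact al_of_is h (e ▸ h4)
    · rw [e, ← map_neg] at h4
      exact al_of_is h h4
  have eR : pm W (am K) R = pm W (am K) S + pm W (am K) (R + -S) := by
    rw [← map_add]
    congr 1
    abel
  by_cases hD : R + -S + (R + -S) = 0
  · refine ⟨pm W (am K) R, 0, ?_, rz, by simp⟩
    rw [eR]
    exact add_mem aS (al_two h (by rw [← map_add, hD, map_zero]))
  have key : ∀ {a b e : K} {s : K}, Split W a b e → x - a ≠ 0 → (q : K) - a ≠ 0 →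
      ((q : K) - a) * (x - a) = s * s → IsSquare (dl a b e (R + -S)) := fun {a b e s} hs n m t => by
    obtain ⟨y, hy⟩ := dl_add hs R (-S)
    rw [dl_neg, hR0.dl_ne n, hS0.dl_ne m, mul_comm (x - a), t] at hy
    have hs0 : s ≠ 0 := fun e0 => mul_ne_zero m n (by simp [t, e0])
    exact ⟨y / s, by field_simp; linear_combination hy⟩
  obtain ⟨H, h1, h2⟩ := rt_half hK hD
    (key hK n1 (sub_ne_zero.2 (Rat.cast_injective.ne q1)) t1)
    (key hK.swap n2 (sub_ne_zero.2 (Rat.cast_injective.ne q2)) t2)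
  exact ⟨_, H, aS, h1, by rw [h2, eR]⟩

theorem iter (h : Split W e₁ e₂ e₃) (hA : Apx K) (i : ℕ) {R : Pt W (AlgebraicClosure K)}
    (hR : Rt R) :
    ∃ R₁ R₂ : Pt W (AlgebraicClosure K), Al R₁ ∧ Rt R₂ ∧ R = R₁ + 2 ^ i • R₂ := by
  induction i with
  | zero => exact ⟨0, R, zero_mem _, hR, by simp⟩
  | succ i ih =>
    obtain ⟨R₁, R₂, a1, r2, rfl⟩ := ih
    obtain ⟨S₁, S₂, b1, s2, rfl⟩ := step h hA r2
    refine ⟨R₁ + 2 ^ i • S₁, S₂, add_mem a1 (nsmul_mem b1 _), s2, ?_⟩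
    rw [nsmul_add, ← two_nsmul, ← mul_nsmul', ← pow_succ, add_assoc]

end TLAL

open TLAL in
theorem t_LAL : LAL := by
  intro n hn K _ _ hA c i hc ⟨P, hP⟩
  have h := split_tw hn ℚ
  have r : Rt (W := tw n) (K := K) (2 ^ i • P) := fun σ => by
    obtain ⟨τ, hτ⟩ := exists_restrict (k := ℚ) σ
    rw [map_nsmul, ← sub_eq_zero, ← nsmul_sub, ← hP σ τ hτ, ← map_nsmul, hc, map_zero]
  obtain ⟨R₁, R₂, a1, r2, e⟩ := iter h hA i r
  obtain ⟨Q, hQ⟩ := al_pow h i (Q := P - R₂) (by rwa [nsmul_sub, e, add_sub_cancel_right])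
  refine ⟨Q, fun σ τ hτ => pm_injective (emb ℚ K) ?_⟩
  rw [hP σ τ hτ, map_sub, pm_compat hτ, hQ, map_sub, r2 σ]
  abel

end Pool.Agent.P.MP_9c97e9_nt.KT
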