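import Pool.Agent.P.MP_9c97e9_nt.KT.IfL

/-! Proof of LAP: approximation modulo squares. -/

namespace Pool.Agent.P.MP_9c97e9_nt.KT

open Filter Topology

namespace TLAP

theorem sq_one_add {p : ℕ} [Fact p.Prime] {z : ℚ_[p]} (h : ‖z‖ < ‖(4 : ℚ_[p])‖) :
    IsSquare (1 + z) := by
  obtain ⟨z, rfl⟩ : ∃ w : ℤ_[p], w = z := ⟨⟨z, h.le.trans (4 : ℤ_[p]).2⟩, rfl⟩
  have e1 : ∀ w : ℤ_[p], (Polynomial.X ^ 2 - Polynomial.C (1 + z) : Polynomial ℤ_[p]).aeval w =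
      w ^ 2 - (1 + z) := fun w => by
    rw [map_sub, map_pow, Polynomial.aeval_X, Polynomial.aeval_C]
    rfl
  have e2 : (Polynomial.X ^ 2 - Polynomial.C (1 + z) : Polynomial ℤ_[p]).derivative.aeval
      (1 : ℤ_[p]) = 2 := by
    rw [Polynomial.derivative_sub, Polynomial.derivative_C, Polynomial.derivative_X_sq, sub_zero,
      map_mul, Polynomial.aeval_X, Polynomial.aeval_C, mul_one]
    rfl
  obtain ⟨w, hw, -⟩ := hensels_lemma (F := (Polynomial.X ^ 2 - Polynomial.C (1 + z) :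
      Polynomial ℤ_[p])) (a := 1) (by
    rw [e1, e2, ← norm_pow, show (2 : ℤ_[p]) ^ 2 = 4 by norm_num,
      show (1 : ℤ_[p]) ^ 2 - (1 + z) = -z by ring, norm_neg]
    exact h)
  refine ⟨w, ?_⟩
  have : w ^ 2 - (1 + z) = 0 := (e1 w).symm.trans hw
  exact congrArg Subtype.val (show 1 + z = w * w by linear_combination -this)

theorem apx_of (K : Type) [NormedField K] [CharZero K] (hd : DenseRange ((↑) : ℚ → K))
    (r : ℝ) (hr : 0 < r) (hs : ∀ z : K, ‖z‖ < r → IsSquare (1 + z)) : Apx K := by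
  intro x s hx
  have hev : ∀ᶠ y in 𝓝 x, ∀ e ∈ s, y ≠ (e : K) ∧ ‖y - x‖ < r * ‖x - e‖ := by
    rw [eventually_all_finset]
    intro e he
    have h0 : 0 < r * ‖x - (e : K)‖ := mul_pos hr (norm_pos_iff.2 (sub_ne_zero.2 (hx e he)))
    refine (eventually_ne_nhds (hx e he)).and ?_
    filter_upwards [Metric.ball_mem_nhds x h0] with y hy
    rwa [mem_ball_iff_norm] at hy
  obtain ⟨q, hq⟩ := hd.mem_nhds hev
  refine ⟨q, fun e he => ?_⟩
  obtain ⟨h1, h2⟩ := hq e he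
  refine ⟨fun h => h1 (by rw [h]), ?_⟩
  have hb : x - (e : K) ≠ 0 := sub_ne_zero.2 (hx e he)
  obtain ⟨w, hw⟩ := hs (((q : K) - x) / (x - e))
    (by rwa [norm_div, div_lt_iff₀ (norm_pos_iff.2 hb)])
  refine ⟨w * (x - e), ?_⟩
  have e1 : ((q : K) - e) * (x - e) = (1 + ((q : K) - x) / (x - e)) * ((x - e) * (x - e)) := by
    field_simp
    ring
  rw [e1, hw]
  ring

end TLAP

theorem t_LAP : LAP := by
  refine ⟨TLAP.apx_of ℝ Rat.denseRange_cast 1 one_pos fun z hz => ?_, fun p _ =>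
    TLAP.apx_of ℚ_[p] (Padic.denseRange_ratCast p) ‖(4 : ℚ_[p])‖
      (norm_pos_iff.2 (by norm_num)) fun z hz => TLAP.sq_one_add hz⟩
  rw [Real.norm_eq_abs, abs_lt] at hz
  exact ⟨√(1 + z), (Real.mul_self_sqrt (by linarith [hz.1])).symm⟩

end Pool.Agent.P.MP_9c97e9_nt.KT
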