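import Pool.Agent.P.MP_9c97e9_nt.KT.Top
import Pool.Agent.P.MP_9c97e9_nt.All.Conv
import Pool.Agent.P.MP_8b7eba_nt.R2.TSHA

/-! The converse theorem for the short Weierstrass model. -/

namespace Pool.Agent.P.MP_9c97e9_nt.KT

open MP_8b7eba_nt

namespace Conv

open Classical in
theorem sha_inj {W W' : WeierstrassCurve ℤ}
    (ι : ∀ (F : Type) [Field F] [CharZero F], Pt W F →+ Pt W' F)
    (hb : Function.Bijective (ι Qb))
    (nat : ∀ {F K : Type} [Field F] [CharZero F] [Field K] [CharZero K] (f : F →+* K)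
      (P : Pt W F), pm W' f (ι F P) = ι K (pm W f P)) :
    ∃ φ : Sha W →+ Sha W', Function.Injective φ := by
  have loc : ∀ {K : Type} [Field K] [CharZero K] {c : Gal ℚ → Pt W Qb}, LocTriv W K c →
      LocTriv W' K fun g => ι Qb (c g) := fun {K} _ _ c ⟨P, hP⟩ =>
    ⟨ι _ P, fun σ τ h => by rw [nat, hP σ τ h, map_sub, nat]⟩
  let Φ : shaCocycles W →+ shaCocycles W' :=
    (((ι Qb).compLeft (Gal ℚ)).comp (shaCocycles W).subtype).codRestrict _ fun c =>
      ⟨c.2.1.comp (ι Qb), fun σ τ => by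
        change ι Qb (c.1 (σ * τ)) = ι Qb (c.1 σ) + pm _ _ (ι Qb (c.1 τ))
        rw [c.2.2.1, map_add, nat], loc c.2.2.2.1, fun p _ => loc (c.2.2.2.2 p)⟩
  have key : (coboundaries W).addSubgroupOf (shaCocycles W) =
      ((coboundaries W').addSubgroupOf (shaCocycles W')).comap Φ := by
    ext c
    refine ⟨fun ⟨P, hP⟩ => ⟨ι Qb P, funext fun g => ?_⟩, fun ⟨R, hR⟩ => ?_⟩
    · change pm _ _ (ι Qb P) - ι Qb P = ι Qb (c.1 g)
      rw [nat, ← map_sub]
      exact congrArg _ (congrFun hP g)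
    · obtain ⟨P, rfl⟩ := hb.2 R
      refine ⟨P, funext fun g => hb.1 ?_⟩
      change ι Qb (pm _ _ P - P) = ι Qb (c.1 g)
      rw [map_sub, ← nat]
      exact congrFun hR g
  refine ⟨QuotientAddGroup.map _ _ Φ key.le, (injective_iff_map_eq_zero _).2 fun x hx => ?_⟩
  obtain ⟨c, rfl⟩ := QuotientAddGroup.mk_surjective x
  exact (QuotientAddGroup.eq_zero_iff c).2 (key.ge ((QuotientAddGroup.eq_zero_iff (Φ c)).1 hx))

theorem split {n : ℕ} (h4 : n % 4 = 3) (F : Type) [Field F] [CharZero F] :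
    Split ⟨0, 0, 0, -12987 * (n : ℤ) ^ 2, 263466 * (n : ℤ) ^ 3⟩ ((6 : F) ^ 2 * 0 + 21 * n)
      ((6 : F) ^ 2 * (9 * n / 4) + 21 * n) ((6 : F) ^ 2 * (-4 * n) + 21 * n) := by
  have h0 : (n : F) ≠ 0 := by exact_mod_cast (show n ≠ 0 by omega)
  exact ⟨two_ne_zero, fun e => h0 (by linear_combination -e / 81),
    fun e => h0 (by linear_combination e / 144), fun e => h0 (by linear_combination e / 225),
    by push_cast; ring, by push_cast; ring, by push_cast; ring⟩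

open Classical in
theorem tw_sha {n : ℕ} (h4 : n % 4 = 3) :
    ∃ φ : Sha (tw n) →+ Sha ⟨0, 0, 0, -12987 * (n : ℤ) ^ 2, 263466 * (n : ℤ) ^ 3⟩,
      Function.Injective φ := by
  choose ι hb hι using fun (F : Type) [Field F] [CharZero F] =>
    R2.TSHA.exists_iso (split_tw h4 F) (split h4 F) (by norm_num)
  refine sha_inj ι (hb Qb) fun {F K} _ _ _ _ f P => ?_
  rcases zero_or_is P with rfl | ⟨x, η, hP⟩
  · simp
  refine ((hι F _ _ _ hP).map f).unique (split h4 K) ?_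
  simpa [map_ofNat] using hι K _ _ _ (hP.map f)

theorem fin_prim {A B : Type} [AddCommGroup A] [AddCommGroup B] (φ : A →+ B)
    (h : Function.Injective φ) (hB : Finite (AddCommGroup.primaryComponent B 2)) :
    Finite (AddCommGroup.primaryComponent A 2) := by
  refine Finite.of_injective (β := AddCommGroup.primaryComponent B 2)
    (fun x => ⟨φ x.1, ?_⟩) fun x y e => Subtype.ext (h (congrArg Subtype.val e))
  obtain ⟨k, hk⟩ := x.2
  exact ⟨k, by rw [← map_nsmul, hk, map_zero]⟩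

theorem uniq {W : WeierstrassCurve ℤ} {L L' : ℂ → ℂ} (h : IsL W L) (h' : IsL W L') :
    L = L' := by
  refine AnalyticOnNhd.eq_of_eventuallyEq (h.1.differentiableOn.analyticOnNhd isOpen_univ)
    (h'.1.differentiableOn.analyticOnNhd isOpen_univ) (z₀ := 2) ?_
  filter_upwards [(isOpen_lt continuous_const Complex.continuous_re).mem_nhds
    (show (3 : ℝ) / 2 < (2 : ℂ).re by norm_num)] with s hs using (h.2 s hs).unique (h'.2 s hs)

end Conv

open Conv Classical in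
theorem conv_of (H : MAIN) {n : ℕ} (hn : Squarefree n) (h4 : n % 4 = 3) (h15 : n.Coprime 15)
    (hs : Finite (AddCommGroup.primaryComponent
      (Sha ⟨0, 0, 0, -12987 * (n : ℤ) ^ 2, 263466 * (n : ℤ) ^ 3⟩) 2))
    (h : {q : ℚ × ℚ | q.2 ^ 2 =
      q.1 ^ 3 + -12987 * (n : ℚ) ^ 2 * q.1 + 263466 * (n : ℚ) ^ 3}.Finite)
    {f : ℂ → ℂ} (hf : BSD15.IsL (-12987 * (n : ℤ) ^ 2) (263466 * (n : ℤ) ^ 3) f) : f 1 ≠ 0 := by
  obtain ⟨-, -, L', hL, m, -, e1, e2, -⟩ := H n hn h4 h15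
  obtain ⟨φ, hφ⟩ := tw_sha h4
  have hodd : Odd n := Nat.odd_iff.2 (by omega)
  obtain ⟨τ, hτ, hG⟩ := BSD15.exists_gauss (n := n) (by omega) hodd hn
  obtain ⟨L, h1, h2, -⟩ := Mod.exists_L (χ := Mod.chi n) hτ (Mod.norm_chi _) hG
  have := Mod.isL_twist (D := -n) (by omega) h1 (by simpa using h2)
  rw [neg_sq, show -263466 * (-n : ℤ) ^ 3 = 263466 * n ^ 3 by ring] at this
  obtain rfl := uniq hL (All.l_isL h4 h1 h2)
  rw [Mod.isL_unique hf this]
  exact mul_ne_zero (fun e => e2.2 ⟨All.conv_fin h4 h, fin_prim φ hφ hs⟩ (e1.1 e))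
    (Mod.bad_one_ne _)

end Pool.Agent.P.MP_9c97e9_nt.KT
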