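import Pool.Agent.P.MP_9c97e9_nt.KT.Top

/-! Modular symbols and finite sums for the proof of ANA. -/

namespace Pool.Agent.P.MP_9c97e9_nt.KT

open MP_8b7eba_nt MP_8b7eba_nt.R2 MP_8b7eba_nt.Mod
open Finset

namespace TANA

section sums

variable {R : Type} [AddCommMonoid R]

theorem sum_split (F : ℕ → R) (M p : ℕ) :
    ∑ ν ∈ range (M * p), F ν = ∑ a ∈ range M, ∑ j ∈ range p, F (a + j * M) := by
  rw [sum_comm]
  induction p with
  | zero => simp
  | succ p ih =>
    rw [Nat.mul_succ, sum_range_add, ih, sum_range_succ]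
    simp only [add_comm, mul_comm]

theorem sum_dvd (F : ℕ → R) (M : ℕ) {p : ℕ} (hp : 0 < p) :
    ∑ ν ∈ range (M * p), (if p ∣ ν then F ν else 0) = ∑ a ∈ range M, F (p * a) := by
  rw [← sum_filter]
  refine (sum_nbij (fun a => p * a) (fun a ha => ?_) (fun a _ b _ h => ?_) ?_ fun _ _ => rfl).symm
  · simp only [mem_filter, mem_range] at ha ⊢
    exact ⟨by nlinarith, dvd_mul_right _ _⟩
  · exact Nat.eq_of_mul_eq_mul_left hp h
  · intro b hb
    simp only [coe_filter, mem_range, Set.mem_ofPred_eq] at hb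
    obtain ⟨h1, a, rfl⟩ := hb
    exact ⟨a, by simp only [coe_range, Set.mem_Iio]; nlinarith, rfl⟩

omit [AddCommMonoid R] in
theorem per_mod {g : ℕ → R} {M : ℕ} (h : ∀ a, g (a + M) = g a) (a : ℕ) : g (a % M) = g a := by
  have : ∀ t b, g (b + M * t) = g b := fun t b => by
    induction t with
    | zero => rfl
    | succ t ih => rw [Nat.mul_succ, ← add_assoc, h, ih]
  rw [← this (a / M), Nat.mod_add_div]

theorem sum_mul_cop {g : ℕ → R} {M u : ℕ} (h : ∀ a, g (a + M) = g a) (hu : u.Coprime M) :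
    ∑ a ∈ range M, g (u * a) = ∑ a ∈ range M, g a := by
  rcases M.eq_zero_or_pos with rfl | hM
  · simp
  have hm : ∀ a ∈ range M, u * a % M ∈ range M := fun a _ => mem_range.2 (Nat.mod_lt _ hM)
  have hi : ∀ a ∈ range M, ∀ b ∈ range M, u * a % M = u * b % M → a = b := fun a ha b hb e =>
    Nat.ModEq.eq_of_lt_of_lt (Nat.ModEq.cancel_left_of_coprime hu.symm e) (mem_range.1 ha)
      (mem_range.1 hb)
  refine sum_bij (fun a _ => u * a % M) hm (fun a ha b hb => hi a ha b hb) (fun b hb => ?_)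
    fun a _ => (per_mod h _).symm
  obtain ⟨a, ha, e⟩ := surj_on_of_inj_on_of_card_le (fun a _ => u * a % M) hm
    (fun a b ha hb => hi a ha b hb) le_rfl b hb
  exact ⟨a, ha, e.symm⟩

theorem sum_sym {g : ℕ → R} {M : ℕ} (h4 : 4 ∣ M) (h : ∀ a b, a % 2 = 1 → a + b = M → g a = g b) :
    ∑ a ∈ range M, (if a % 4 = 3 then g a else 0) = ∑ a ∈ range M, if a % 4 = 1 then g a else 0 := by
  rw [← sum_filter, ← sum_filter]
  refine sum_nbij' (fun a => M - a) (fun a => M - a) ?_ ?_ ?_ ?_ ?_ <;> intro a ha <;>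
    simp only [mem_filter, mem_range] at ha ⊢
  · omega
  · omega
  · omega
  · omega
  · exact h _ _ (by omega) (by omega)

end sums

theorem nM_mul {k : ℤ} (hk : k ≠ 0) (a c : ℤ) : nM (k * a) (k * c) = nM a c :=
  (coeff_eq (by rw [← lv_eq, lv_mul hk, lv_eq])).2

theorem nM_even {a M : ℕ} (h0 : M ≠ 0) (hM : M.Coprime 15) : 2 ∣ nM a M := by
  obtain ⟨g, a', M', hg, hc, rfl, rfl⟩ := Nat.exists_coprime' (Nat.gcd_pos_of_pos_right a
    (Nat.pos_of_ne_zero h0))
  obtain ⟨u, v, h⟩ := BSD15.ms_decomp ((a' : ℤ), (M' : ℤ)) (Nat.isCoprime_iff_coprime.2 hc)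
    (Nat.isCoprime_iff_coprime.2 (Nat.Coprime.coprime_mul_right hM))
  have h1 := h _ BSD15.euler_isMS
  rw [BSD15.euler_msA, BSD15.euler_msB] at h1
  simp only [lv_eq, show nP 0 1 = 1 by decide +kernel, show nM 0 1 = 0 by decide +kernel] at h1
  have h2 : nM a' M' = 2 * v := (coeff_eq (c := 1 - 4 * u) (by rw [h1]; push_cast; ring)).2
  push_cast
  rw [mul_comm _ (g : ℤ), mul_comm _ (g : ℤ), nM_mul (by exact_mod_cast hg.ne'), h2]
  exact dvd_mul_right _ _

/-- half the imaginary part of the modular symbol -/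
def vv (a M : ℕ) : ℤ := nM a M / 2

theorem two_vv {a M : ℕ} (h0 : M ≠ 0) (hM : M.Coprime 15) : 2 * vv a M = nM a M :=
  Int.mul_ediv_cancel' (nM_even h0 hM)

theorem vv_add (a M t : ℕ) : vv (a + t * M) M = vv a M := by
  simp only [vv, Nat.cast_add, Nat.cast_mul, (nP_add_mul a M t).2]

theorem vv_mul {k : ℕ} (hk : k ≠ 0) (a M : ℕ) : vv (k * a) (k * M) = vv a M := by
  simp only [vv, Nat.cast_mul, nM_mul (k := k) (by exact_mod_cast hk)]

theorem vv_neg {a b M t : ℕ} (h0 : M ≠ 0) (hM : M.Coprime 15) (h : a + b = t * M) :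
    vv a M = -vv b M := by
  have e : (a : ℤ) = -b + t * M := by rw [← Nat.cast_mul, ← h]; push_cast; ring
  have h1 := two_vv (a := a) h0 hM
  rw [e, (nP_add_mul _ _ _).2, (nP_neg _ _).2, ← two_vv h0 hM] at h1
  omega

theorem vv_hecke1 {p M : ℕ} (hp : p.Prime) (h15 : ¬ p ∣ 15) (h0 : M ≠ 0) (hM : M.Coprime 15)
    (a : ℕ) : ∑ j ∈ range p, vv (a + j * M) (M * p) + vv (p * a) M = an p * vv a M := by
  have hq : (M : ℚ) ≠ 0 := by exact_mod_cast h0
  have hq' : (p : ℚ) ≠ 0 := by exact_mod_cast hp.ne_zero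
  have hz : (M : ℤ) ≠ 0 := by exact_mod_cast h0
  have h1 : M * p ≠ 0 := mul_ne_zero h0 hp.ne_zero
  have h2 : (M * p).Coprime 15 := Nat.Coprime.mul_left hM ((Nat.Prime.coprime_iff_not_dvd hp).2 h15)
  have h := hecke_lam hp (a / M)
  have e1 : ∀ j : ℕ, lam ((a / M + j) / p) = lv ((a + j * M : ℕ) : ℤ) ((M * p : ℕ) : ℤ) := fun j => by
    rw [lv_of_ne _ (by exact_mod_cast h1)]
    congr 1
    push_cast
    field_simp
  have e2 : lam (p * (a / M)) = lv ((p * a : ℕ) : ℤ) M := by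
    rw [lv_of_ne _ hz]
    congr 1
    push_cast
    ring
  have e3 : lam (a / M) = lv a M := by rw [lv_of_ne _ hz]; rfl
  simp only [if_neg h15, e1, e2, e3, lv_eq, ← two_vv h1 h2, ← two_vv h0 hM] at h
  have := (coeff_eq (a := ∑ j ∈ range p, nP ((a + j * M : ℕ) : ℤ) ((M * p : ℕ) : ℤ) +
    nP ((p * a : ℕ) : ℤ) M) (b := 2 * (∑ j ∈ range p, vv (a + j * M) (M * p) + vv (p * a) M))
    (c := an p * nP a M) (d := 2 * (an p * vv a M)) (by
      simp only [sum_add_distrib, ← sum_mul] at h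
      push_cast at h ⊢
      rw [← mul_sum] at h
      linear_combination h)).2
  omega

theorem vv_hecke {p M u : ℕ} (hp : p.Prime) (h15 : ¬ p ∣ 15) (h0 : M ≠ 0) (hM : M.Coprime 15)
    (hu : u.Coprime p) (a : ℕ) :
    ∑ j ∈ range p, vv (u * (a + j * M)) (M * p) = an p * vv (u * a) M - vv (u * (p * a)) M := by
  have h := sum_mul_cop (g := fun j => vv (u * a + j * M) (M * p)) (fun j => by
    rw [← vv_add (u * a + j * M) (M * p) 1]
    congr 1
    ring) hu
  rw [← vv_hecke1 hp h15 h0 hM, ← h, mul_left_comm p, add_sub_cancel_right]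
  exact sum_congr rfl fun j _ => by rw [mul_add, mul_assoc]

/-- the Hecke relation for weighted sums -/
theorem push {R : Type} [CommRing R] {f : ℕ → R} {p M u : ℕ} (hp : p.Prime) (h15 : ¬ p ∣ 15)
    (h0 : M ≠ 0) (hM : M.Coprime 15) (hu : u.Coprime p) (hf : ∀ a, f (a + M) = f a) :
    ∑ ν ∈ range (M * p), f ν * vv (u * ν) (M * p) =
      an p * ∑ a ∈ range M, f a * vv (u * a) M - ∑ a ∈ range M, f a * vv (u * (p * a)) M := by
  rw [sum_split, mul_sum, ← sum_sub_distrib]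
  refine sum_congr rfl fun a _ => ?_
  have e : ∀ j, f (a + j * M) = f a := fun j => by
    rw [← per_mod hf, Nat.add_mul_mod_self_right, per_mod hf]
  simp only [e, ← mul_sum]
  rw [← Int.cast_sum, vv_hecke hp h15 h0 hM hu]
  push_cast
  ring

theorem an_two : an 2 = -1 := an_small.2.2.1

theorem cop_lev {d : ℕ} (hd : d.Coprime 15) (m : ℕ) : (d * 2 ^ m).Coprime 15 :=
  Nat.Coprime.mul_left hd (Nat.Coprime.pow_left _ (by norm_num))

/-- the base case: an odd number -/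
theorem base (m : ℕ) : Odd (∑ ν ∈ range (2 ^ (m + 2)),
    (if ν % 4 = 1 then 1 else 0 : ℤ) * (vv ν (2 ^ (m + 2)) + vv (2 * ν) (2 ^ (m + 2)))) := by
  induction m with
  | zero => decide +kernel
  | succ m ih =>
    have hf : ∀ a, (if (a + 2 ^ (m + 2)) % 4 = 1 then 1 else 0 : ℤ) = if a % 4 = 1 then 1 else 0 :=
      fun a => by rw [pow_add, show (a + 2 ^ m * 2 ^ 2) % 4 = a % 4 by omega]
    have h1 := push (R := ℤ) (u := 1) (f := fun a => if a % 4 = 1 then 1 else 0) Nat.prime_two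
      (by norm_num) (pow_ne_zero _ two_ne_zero)
      (Nat.Coprime.pow_left (m + 2) (by norm_num)) (by norm_num) hf
    have h2 : ∑ ν ∈ range (2 ^ (m + 2) * 2), (if ν % 4 = 1 then 1 else 0 : ℤ) *
        vv (2 * ν) (2 ^ (m + 2) * 2) = 2 * ∑ ν ∈ range (2 ^ (m + 2)),
          (if ν % 4 = 1 then 1 else 0 : ℤ) * vv ν (2 ^ (m + 2)) := by
      rw [sum_split, mul_sum]
      refine sum_congr rfl fun a _ => ?_
      simp only [mul_comm (2 ^ (m + 2)) 2, vv_mul two_ne_zero, vv_add, sum_range_succ,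
        sum_range_zero, zero_mul, add_zero, one_mul, hf]
      ring
    simp only [one_mul, Int.cast_id, an_two] at h1
    simp only [mul_add, sum_add_distrib] at ih ⊢
    rw [show 2 ^ (m + 1 + 2) = 2 ^ (m + 2) * 2 from pow_succ _ _, h1, h2]
    obtain ⟨c, hc⟩ := ih
    generalize ∑ ν ∈ range (2 ^ (m + 2)), (if ν % 4 = 1 then 1 else 0 : ℤ) * vv ν (2 ^ (m + 2)) = x
      at hc ⊢
    exact ⟨x - c - 1, by linear_combination (-1 : ℤ) * hc⟩

/-- the twisted sums -/
def AA (n m : ℕ) : ℤ := ∑ ν ∈ range (n * 2 ^ m), jacobiSym ν n * vv ν (n * 2 ^ m)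

theorem jac_add (n t a : ℕ) : jacobiSym ((a + n * t : ℕ) : ℤ) n = jacobiSym a n := by
  rw [jacobiSym.mod_left, jacobiSym.mod_left a]
  push_cast
  rw [Int.add_mul_emod_self_left]

section

variable {n : ℕ} (hs : Squarefree n) (h4 : n % 4 = 3) (hc : n.Coprime 15)
include hs h4 hc

theorem AA_zero : AA n 0 = BSD15.lam n := by
  have h2 : n.Coprime 2 := (Nat.coprime_two_right).2 (Nat.odd_iff.2 (by omega))
  have h := BSD15.lam_spec (by omega) ⟨hs, Nat.Coprime.mul_right h2 hc⟩ _ BSD15.euler_isMS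
  rw [if_neg (by omega), BSD15.euler_msB] at h
  simp only [lv_eq, ← two_vv hs.ne_zero hc] at h
  have := (coeff_eq (a := ∑ a ∈ range n, jacobiSym a n * nP a n) (b := 2 * AA n 0) (c := 0)
    (d := 2 * BSD15.lam n) (by
      simp only [AA, pow_zero, mul_one]
      push_cast at h ⊢
      rw [mul_sum, sum_mul, sum_mul, sum_mul, ← sum_add_distrib]
      rw [show ∀ x y : ℂ, 0 * x + y = y from fun x y => by ring,
        show 2 * (BSD15.lam n : ℂ) * om * Complex.I = BSD15.lam n * (2 * om * Complex.I) by ring, ← h]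
      exact sum_congr rfl fun a _ => by ring)).2
  omega

omit h4 in
theorem AA_succ (m : ℕ) : AA n (m + 1) =
    -AA n m - ∑ a ∈ range (n * 2 ^ m), jacobiSym a n * vv (2 * a) (n * 2 ^ m) := by
  have h1 := push (R := ℤ) (u := 1) (f := fun a => jacobiSym a n) Nat.prime_two (by norm_num)
    (mul_ne_zero hs.ne_zero (pow_ne_zero m two_ne_zero)) (cop_lev hc m) (by norm_num)
    (jac_add n (2 ^ m))
  simp only [one_mul, Int.cast_id, an_two] at h1
  rw [AA, pow_succ, ← mul_assoc, h1, AA, neg_one_mul]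

theorem AA_one : AA n 1 = -(1 + jacobiSym 2 n) * AA n 0 := by
  have h2 : Nat.Coprime 2 n := (Nat.coprime_two_left).2 (Nat.odd_iff.2 (by omega))
  have h := sum_mul_cop (g := fun a => jacobiSym a n * vv a n) (M := n) (fun a => by
    rw [← jac_add n 1 a, ← vv_add a n 1, mul_one, one_mul]) h2
  have h3 : jacobiSym 2 n ^ 2 = 1 := jacobiSym.sq_one (by simpa [Int.gcd] using h2)
  rw [AA_succ hs hc]
  simp only [AA, pow_zero, mul_one, Nat.cast_mul, jacobiSym.mul_left, mul_assoc, ← mul_sum,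
    Nat.cast_ofNat] at h ⊢
  linear_combination (-jacobiSym 2 n) * h + (∑ a ∈ range n, jacobiSym a n * vv (2 * a) n) * h3

omit hs h4 hc in
theorem dbl (f : ℕ → ℤ) (M : ℕ) (hf : ∀ a, f (a + M) = f a) :
    ∑ a ∈ range (M * 2), f a * vv (2 * a) (M * 2) = 2 * ∑ a ∈ range M, f a * vv a M := by
  rw [sum_split, mul_sum]
  refine sum_congr rfl fun a _ => ?_
  simp only [mul_comm M 2, vv_mul two_ne_zero, vv_add, sum_range_succ, sum_range_zero, zero_mul,
    add_zero, one_mul, hf]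
  ring

omit h4 in
theorem AA_two (m : ℕ) : AA n (m + 2) = -AA n (m + 1) - 2 * AA n m := by
  rw [AA_succ hs hc, pow_succ, ← mul_assoc, dbl _ _ (jac_add n (2 ^ m))]
  rfl

omit hs h4 hc in
theorem odd_sum (m : ℕ) : ∑ ν ∈ range (n * 2 ^ (m + 1)),
    (if Odd ν then jacobiSym ν n else 0) * vv ν (n * 2 ^ (m + 1)) =
      AA n (m + 1) - jacobiSym 2 n * AA n m := by
  have h := sum_dvd (fun ν => jacobiSym ν n * vv ν (n * 2 ^ m * 2)) (n * 2 ^ m) two_pos
  simp only [mul_comm (n * 2 ^ m) 2, vv_mul two_ne_zero, Nat.cast_mul, jacobiSym.mul_left,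
    mul_assoc, ← mul_sum, Nat.cast_ofNat] at h
  rw [AA, AA, ← h, show n * 2 ^ (m + 1) = 2 * (n * 2 ^ m) by ring, ← sum_sub_distrib]
  refine sum_congr rfl fun a _ => ?_
  by_cases ha : Odd a
  · rw [if_pos ha, if_neg ha.not_two_dvd_nat, sub_zero]
  · rw [if_neg ha, if_pos (even_iff_two_dvd.1 (Nat.not_odd_iff_even.1 ha)), zero_mul, sub_self]

theorem total {α : ℚ_[2]} (hα : α ^ 2 + α + 2 = 0) (m : ℕ) :
    α * AA n (m + 1) - 2 * AA n m = α ^ (m + 1) * (α - jacobiSym 2 n) * BSD15.lam n := by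
  induction m with
  | zero =>
    rw [zero_add, AA_one hs h4 hc, AA_zero hs h4 hc]
    push_cast
    linear_combination (-(BSD15.lam n : ℚ_[2])) * hα
  | succ m ih =>
    rw [AA_two hs hc]
    push_cast
    linear_combination α * ih - (AA n (m + 1) : ℚ_[2]) * hα

end

end TANA

end Pool.Agent.P.MP_9c97e9_nt.KT
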