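import Pool.Agent.P.MP_9c97e9_nt.KT.Top

/-! Proof of BAS. -/

namespace Pool.Agent.P.MP_9c97e9_nt.KT

open MP_8b7eba_nt.R2 Polynomial

namespace TBAS

theorem root : ∃ a : ℚ_[2], ‖a‖ = 1 ∧ a ^ 2 + a + 2 = 0 := by
  have h3 : ‖(3 : ℤ_[2])‖ = 1 := by
    refine le_antisymm (PadicInt.norm_le_one _) (not_lt.1 fun h => ?_)
    exact absurd ((PadicInt.norm_int_lt_one_iff_dvd 3).1 (by exact_mod_cast h)) (by decide)
  have h4 : ‖(4 : ℤ_[2])‖ < 1 := by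
    exact_mod_cast (PadicInt.norm_int_lt_one_iff_dvd (p := 2) 4).2 (by decide)
  have e1 : (X ^ 2 + X + 2 : ℤ[X]).derivative.aeval (1 : ℤ_[2]) = 3 := by
    simp [map_ofNat]
    norm_num
  have e2 : ∀ z : ℤ_[2], (X ^ 2 + X + 2 : ℤ[X]).aeval z = z ^ 2 + z + 2 := fun z => by
    simp [map_ofNat]
  obtain ⟨z, h1, h2, -⟩ := hensels_lemma (F := (X ^ 2 + X + 2 : ℤ[X])) (a := (1 : ℤ_[2])) (by
    rw [e1, e2, h3, show (1 : ℤ_[2]) ^ 2 + 1 + 2 = 4 by norm_num]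
    simpa using h4)
  rw [e1, h3] at h2
  rw [e2] at h1
  refine ⟨z, ?_, by exact_mod_cast congrArg ((↑) : ℤ_[2] → ℚ_[2]) h1⟩
  have := IsUltrametricDist.norm_add_eq_max_of_norm_ne_norm (x := z - 1) (y := 1)
    (by rw [norm_one]; exact h2.ne)
  rwa [sub_add_cancel, norm_one, max_eq_right h2.le] at this

theorem cyx (M : ℕ) (h : M ≠ 0) : ∃ χ, IsCy M χ := by
  have : NeZero M := ⟨h⟩
  obtain ⟨μ, hμ⟩ := HasEnoughRootsOfUnity.exists_primitiveRoot Om M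
  refine ⟨hμ.autToPow ℚ, fun g z hz => ?_⟩
  obtain ⟨i, -, rfl⟩ := hμ.eq_pow_of_pow_eq_one hz
  rw [map_pow, ← hμ.autToPow_spec ℚ g, ← pow_mul, ← pow_mul, mul_comm]

theorem dat (n : ℕ) (sq : Squarefree n) (n4 : n % 4 = 3) (cop : n.Coprime 15) :
    ∃ D : Dat, D.n = n := by
  obtain ⟨dl, hdl⟩ := exists_root (-n : Om) two_ne_zero
  obtain ⟨p, hp, hd⟩ := Nat.exists_prime_and_dvd (n := n) (by omega)
  obtain ⟨w, rfl⟩ := a_PL.1 p hp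
  have h2 : w.p ≠ 2 := fun e => by
    have : 2 ∣ n := e ▸ hd
    clear hd e
    omega
  obtain ⟨t, ht, hβ⟩ := Pl.exists_gen a_TAME a_RES h2
  obtain ⟨m, hm⟩ := id hd
  have h4 : ¬ (w.p : ℤ) ∣ -m := fun h => hp.one_lt.ne' (Nat.isUnit_iff.1 (sq w.p
    ((mul_dvd_mul_left _ (Int.natCast_dvd_natCast.1 (dvd_neg.1 h))).trans hm.symm.dvd)))
  have h5 := Pl.gen_move a_TAME a_RES h2 ht hβ (δ := dl) (m := -m)
    (by rw [hdl, hm]; push_cast; ring) h4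
  obtain ⟨φ, hφ⟩ := Pl.exists_frob a_FROB w2
  obtain ⟨s, hs, hc⟩ := a_EC2 w2 rfl (cyc φ)⁻¹
  have u5 : IsUnit (5 : ℤ_[2]) := by
    refine PadicInt.isUnit_iff.2 (le_antisymm (PadicInt.norm_le_one _) (not_lt.1 fun h => ?_))
    exact absurd ((PadicInt.norm_int_lt_one_iff_dvd 5).1 (by exact_mod_cast h)) (by decide)
  obtain ⟨g, hg, hg5⟩ := a_EC2 w2 rfl u5.unit
  have h6 := hφ.mul (Pl.isFrob_zero.2 hs)
  rw [add_zero] at h6
  exact ⟨⟨n, dl, t, w, φ * s, g, sq, n4, cop, hdl, hd, ht, h5, h6,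
    by rw [a_EC.2.1, hc, mul_inv_cancel], hg, by rw [hg5, IsUnit.unit_spec]⟩, rfl⟩

end TBAS

theorem t_BAS : BAS :=
  ⟨Classical.epsilon_spec TBAS.root, fun M h => Classical.epsilon_spec (TBAS.cyx M h),
    fun x => (PadicComplex.norm_extends 2 (emb ℚ ℚ_[2] x)).symm, TBAS.dat⟩

end Pool.Agent.P.MP_9c97e9_nt.KT
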