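import Pool.Agent.P.MP_9c97e9_nt.KT.TANAB

/-! Proof of ANA. -/

namespace Pool.Agent.P.MP_9c97e9_nt.KT

open MP_8b7eba_nt MP_8b7eba_nt.R2 MP_8b7eba_nt.Mod
open Finset Filter

namespace TANA

/-- twice the modular symbol -/
noncomputable def tt (n k ν : ℕ) : ℚ_[2] :=
  jacobiSym ν n * (vv ν (n * 2 ^ (k + 2)) - al0⁻¹ * vv (2 * ν) (n * 2 ^ (k + 2)))

theorem mes_sum (n k : ℕ) (φ : ℕ → ℚ_[2]) : ∑ j ∈ range (2 ^ k), mes n k j * φ j =
    ∑ ν ∈ oddR n k, msy n k ν * φ (lz k ν) := by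
  rw [← sum_fiberwise_of_maps_to (s := oddR n k) (g := lz k) (t := range (2 ^ k))
    fun ν _ => mem_range.2 (lz_lt k ν)]
  refine sum_congr rfl fun j _ => ?_
  rw [mes, sum_mul]
  exact sum_congr rfl fun ν h => by rw [(mem_filter.1 h).2]

section

variable {n : ℕ} (hs : Squarefree n) (h4 : n % 4 = 3) (hc : n.Coprime 15)
include hs hc

theorem msy_eq (k ν : ℕ) : msy n k ν = tt n k ν / 2 := by
  have h1 := mul_ne_zero hs.ne_zero (pow_ne_zero (k + 2) two_ne_zero)
  rw [msy, tt, ← two_vv h1 (cop_lev hc _), ← two_vv h1 (cop_lev hc _)]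
  push_cast
  ring

include h4

theorem half (k : ℕ) (φ : ℕ → ℚ_[2]) : ∑ ν ∈ oddR n k, msy n k ν * φ (lz k ν) =
    ∑ ν ∈ range (n * 2 ^ (k + 2)), if ν % 4 = 1 then tt n k ν * φ (lz k ν) else 0 := by
  have h1 := mul_ne_zero hs.ne_zero (pow_ne_zero (k + 2) two_ne_zero)
  have h2 := cop_lev hc (k + 2)
  have h := sum_sym (g := fun ν => tt n k ν * φ (lz k ν)) (M := n * 2 ^ (k + 2))
    ⟨n * 2 ^ k, by ring⟩ fun a b ha h => by
      have e : jacobiSym a n = -jacobiSym b n := by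
        rw [show (a : ℤ) = -b + n * 2 ^ (k + 2) by exact_mod_cast by omega, jacobiSym.mod_left,
          Int.add_mul_emod_self_left, ← jacobiSym.mod_left,
          jacobiSym.neg _ (Nat.odd_iff.2 (by omega)), ZMod.χ₄_nat_three_mod_four h4, neg_one_mul]
      simp only [tt, e, lz_neg k ha h, vv_neg (a := a) (b := b) (t := 1) h1 h2 (by omega),
        vv_neg (a := 2 * a) (b := 2 * b) (t := 2) h1 h2 (by omega)]
      push_cast
      ring
  have e : ∑ ν ∈ oddR n k, msy n k ν * φ (lz k ν) = ∑ ν ∈ range (n * 2 ^ (k + 2)),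
      ((if ν % 4 = 3 then tt n k ν * φ (lz k ν) else 0) +
        if ν % 4 = 1 then tt n k ν * φ (lz k ν) else 0) / 2 := by
    rw [oddR, sum_filter]
    refine sum_congr rfl fun ν _ => ?_
    simp only [msy_eq hs hc, Nat.odd_iff]
    split_ifs <;> first | omega | ring
  rw [e, ← sum_div, sum_add_distrib, h]
  ring

end

theorem int_le (a : ℤ) : ‖(a : ℚ_[2])‖ ≤ 1 := Padic.norm_int_le_one a

theorem sub_max (x y : ℚ_[2]) : ‖x - y‖ ≤ max ‖x‖ ‖y‖ := by
  rw [sub_eq_add_neg, ← norm_neg y]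
  exact IsUltrametricDist.norm_add_le_max _ _

theorem tt_le (h : ‖al0‖ = 1) (n k ν : ℕ) : ‖tt n k ν‖ ≤ 1 := by
  rw [tt, norm_mul]
  refine mul_le_one₀ (int_le _) (norm_nonneg _) ?_
  refine (sub_max _ _).trans (max_le (int_le _) ?_)
  rw [norm_mul, norm_inv, h, inv_one, one_mul]
  exact int_le _

theorem two_lt : ‖(2 : ℚ_[2])‖ < 1 := Padic.norm_p_lt_one (p := 2)

theorem small {x y : ℚ_[2]} (hx : ‖x‖ < 1) (hy : ‖y‖ ≤ 1) : ‖x * y‖ < 1 := by
  rw [norm_mul]
  exact mul_lt_one_of_nonneg_of_lt_one_left (norm_nonneg _) hx hy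

theorem tt_near (h : ‖al0‖ = 1) (h' : al0 ^ 2 + al0 + 2 = 0) (n k ν : ℕ) :
    ‖tt n k ν - (((if ν.Coprime n then 1 else 0 : ℤ) * (vv ν (n * 2 ^ (k + 2)) +
      vv (2 * ν) (n * 2 ^ (k + 2))) : ℤ) : ℚ_[2])‖ < 1 := by
  have h0 : al0 ≠ 0 := by rintro e; simp [e] at h
  have e : al0⁻¹ = -1 - 2 * al0⁻¹ ^ 2 := by
    field_simp
    linear_combination h'
  have hb : ∀ a : ℤ, ‖al0⁻¹ ^ 2 * a‖ ≤ 1 := fun a => by
    rw [norm_mul, norm_pow, norm_inv, h, inv_one, one_pow, one_mul]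
    exact int_le _
  rw [tt, e]
  split_ifs with hc
  · rcases jacobiSym.eq_one_or_neg_one (a := ν) (b := n) (by simpa [Int.gcd] using hc) with e | e
    · rw [e]
      convert small two_lt (hb (vv (2 * ν) (n * 2 ^ (k + 2)))) using 2
      push_cast
      ring
    · rw [e]
      convert small two_lt ((sub_max _ _).trans (max_le
        (int_le (-(vv ν (n * 2 ^ (k + 2)) + vv (2 * ν) (n * 2 ^ (k + 2)))))
        (hb (vv (2 * ν) (n * 2 ^ (k + 2)))))) using 2
      push_cast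
      ring
  · rcases n.eq_zero_or_pos with rfl | hn
    · simp [vv, nM, MP_8b7eba_nt.Mod.nv]
    · have : NeZero n := ⟨hn.ne'⟩
      rw [jacobiSym.eq_zero_iff_not_coprime.2 (by simpa [Int.gcd] using hc)]
      simp

end TANA

open TANA in
theorem t_ANA (hBAS : BAS) : ANA := by
  intro D
  obtain ⟨⟨h1, h2⟩, -⟩ := hBAS
  refine ⟨fun k j => ?_, (eventually_ge_atTop (2 * D.sg)).mono fun k hk => ?_, fun k => ?_⟩
  · have e : mes D.n k j = ∑ ν ∈ oddR D.n k, msy D.n k ν * if lz k ν = j then 1 else 0 := by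
      simp only [mes, sum_filter, mul_ite, mul_one, mul_zero]
    rw [e, half D.sq D.n4 D.cop k fun i => if i = j then 1 else 0]
    refine IsUltrametricDist.norm_sum_le_of_forall_le_of_nonneg zero_le_one fun ν _ => ?_
    split_ifs <;> simp [tt_le h1]
  · rw [mes_sum D.n k fun j => j.choose (2 * D.sg),
      half D.sq D.n4 D.cop k fun j => j.choose (2 * D.sg)]
    obtain ⟨c, hc⟩ := odd_coeff (k := k) D.sq (Nat.odd_iff.2 (by have := D.n4; omega)) D.cop hk
    have hc' := congrArg (Int.cast : ℤ → ℚ_[2]) hc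
    rw [Int.cast_sum] at hc'
    have h3 : ‖(∑ ν ∈ range (D.n * 2 ^ (k + 2)), if ν % 4 = 1 then
        tt D.n k ν * ((lz k ν).choose (2 * D.sg) : ℕ) else 0) - ((2 * c + 1 : ℤ) : ℚ_[2])‖ < 1 := by
      rw [← hc', ← sum_sub_distrib]
      refine TAFX.sum_lt fun ν _ => ?_
      by_cases h : ν % 4 = 1
      · simp only [h, true_and, if_true]
        rw [Int.cast_mul _ (_ : ℤ), Int.cast_natCast (Nat.choose _ _), show TANA.sg D.n = D.sg from rfl,
          ← sub_mul]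
        exact small (tt_near h1 h2 _ _ _) (IsUltrametricDist.norm_natCast_le_one ℚ_[2] _)
      · simp [h]
    have h4 : ‖((2 * c + 1 : ℤ) : ℚ_[2]) - 1‖ < 1 := by
      push_cast
      rw [add_sub_cancel_right]
      exact small two_lt (int_le c)
    have h5 := (IsUltrametricDist.norm_add_le_max _ _).trans_lt (max_lt h3 h4)
    rw [sub_add_sub_cancel] at h5
    rw [← norm_one (α := ℚ_[2])] at h5 ⊢
    exact Padic.norm_eq_of_norm_sub_lt_right h5
  · have h0 : al0 ≠ 0 := by rintro e; simp [e] at h1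
    have e1 := mes_sum D.n k fun _ => 1
    simp only [mul_one, msy_eq D.sq D.cop] at e1
    have a1 := congrArg (Int.cast : ℤ → ℚ_[2]) (odd_sum (n := D.n) (k + 1))
    have a2 := dbl (fun ν => if Odd ν then jacobiSym ν D.n else 0) (D.n * 2 ^ (k + 1)) fun a => by
      have : Odd (a + D.n * 2 ^ (k + 1)) ↔ Odd a := by
        rw [Nat.odd_iff, Nat.odd_iff, pow_succ, ← mul_assoc]; omega
      simp only [this, jac_add]
    rw [odd_sum, mul_assoc, ← pow_succ] at a2
    have a3 := congrArg (Int.cast : ℤ → ℚ_[2]) a2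
    have e2 : ∑ ν ∈ oddR D.n k, tt D.n k ν / 2 = ((AA D.n (k + 2) - jacobiSym 2 D.n * AA D.n (k + 1) :
        ℤ) - al0⁻¹ * ((2 * (AA D.n (k + 1) - jacobiSym 2 D.n * AA D.n k) : ℤ) : ℚ_[2])) / 2 := by
      rw [← a1, ← a3, Int.cast_sum, Int.cast_sum, mul_sum, ← sum_sub_distrib, sum_div, oddR,
        sum_filter]
      refine sum_congr rfl fun ν _ => ?_
      rw [tt]
      split_ifs <;> push_cast <;> ring
    have b1 := total D.sq D.n4 D.cop h2 k
    have b2 := total D.sq D.n4 D.cop h2 (k + 1)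
    have e3 : ∑ j ∈ range (2 ^ k), mes D.n k j =
        al0 ^ (k + 2) * ((1 - jacobiSym 2 D.n / al0) ^ 2 * BSD15.lam D.n / 2) := by
      rw [e1, e2]
      push_cast
      field_simp
      linear_combination al0 * b2 - al0 * (jacobiSym 2 D.n : ℚ_[2]) * b1
    rw [e3, norm_mul, norm_pow, h1, one_pow, one_mul]

end Pool.Agent.P.MP_9c97e9_nt.KT
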