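import Pool.Agent.P.MP_9c97e9_nt.KT.BasK

/-! The linear forms at three and five. -/

namespace Pool.Agent.P.MP_9c97e9_nt.KT

open scoped NNReal Matrix
open MP_8b7eba_nt.R2
open Filter Topology BK

namespace TBADP

theorem norm_odd {a : ℕ} (ha : Odd a) : ‖(a : ℚ_[2])‖ = 1 :=
  Padic.norm_natCast_eq_one_iff.2 (Nat.coprime_two_left.2 ha)

theorem pow_sub {m : ℚ_[2]} {a : ℕ} (hm : ‖m‖ = 1) (ha : Odd a) : ‖m ^ a - 1‖ = ‖m - 1‖ := by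
  have h1 : ‖∑ i ∈ Finset.range a, (m ^ i - 1)‖ ≤ 2⁻¹ :=
    IsUltrametricDist.norm_sum_le_of_forall_le_of_nonneg (by norm_num) fun i _ =>
      TIW0.unit_sub (by rw [norm_pow, hm, one_pow])
  rw [Finset.sum_sub_distrib, Finset.sum_const, Finset.card_range, nsmul_one] at h1
  have h2 := Padic.norm_eq_of_norm_sub_lt_right (h1.trans_lt (by rw [norm_odd ha]; norm_num))
  rw [← geom_sum_mul, norm_mul, h2, norm_odd ha, one_mul]

theorem key {l m x y : ℚ_[2]} {a : ℕ} (ha : Odd a) (h1 : ‖l‖ = 1) (h2 : 4⁻¹ ≤ ‖l - 1‖)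
    (hx : x ≠ 0) (h3 : ‖y - x‖ ≤ 8⁻¹ * ‖x‖) (h4 : l * x = m ^ a * y) : ‖m - 1‖ = ‖l - 1‖ := by
  have h0 := norm_pos_iff.2 hx
  have h5 : ‖y‖ = ‖x‖ := Padic.norm_eq_of_norm_sub_lt_right (by linarith)
  have h6 := congrArg norm h4
  rw [norm_mul, norm_mul, h5, h1] at h6
  have h7 : ‖m ^ a‖ = 1 := (mul_right_cancel₀ h0.ne' h6).symm
  have h8 : ‖m‖ = 1 := (pow_eq_one_iff_of_nonneg (norm_nonneg _) ha.pos.ne').1 (by
    rw [← norm_pow, h7])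
  have h9 : ‖m ^ a - 1 - (l - 1)‖ * ‖x‖ = ‖y - x‖ := by
    rw [← norm_mul, show (m ^ a - 1 - (l - 1)) * x = -(m ^ a * (y - x)) by
      linear_combination -h4, norm_neg, norm_mul, h7, one_mul]
  rw [← pow_sub h8 ha]
  refine Padic.norm_eq_of_norm_sub_lt_right (lt_of_mul_lt_mul_right ?_ h0.le)
  rw [h9]
  nlinarith

/-- the determinant as a linear form -/
noncomputable def dl (e : V2) : V2 →ₗ[ℚ_[2]] ℚ_[2] :=
  e 0 • LinearMap.proj 1 - e 1 • LinearMap.proj 0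

theorem dl_eq (e v : V2) : dl e v = dt e v := rfl

theorem dl_smul (e : V2) (s : ℚ_[2]) : dl e (s • e) = 0 := by
  simp only [dl_eq, dt, Pi.smul_apply, smul_eq_mul]; ring

theorem ex_smul {e x : V2} (he : ‖e‖ = 1) (h : dl e x = 0) : ∃ m : ℚ_[2], x = m • e := by
  have hl : e 0 * x 1 - e 1 * x 0 = 0 := h
  by_cases h0 : e 0 = 0
  · have h1 : e 1 ≠ 0 := fun h1 => by
      have : e = 0 := funext (Fin.forall_fin_two.2 ⟨h0, h1⟩)
      rw [this, norm_zero] at he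
      exact zero_ne_one he
    refine ⟨x 1 / e 1, funext (Fin.forall_fin_two.2 ⟨?_, ?_⟩)⟩
    · rw [h0, zero_mul, zero_sub, neg_eq_zero, mul_eq_zero] at hl
      rw [hl.resolve_left h1, Pi.smul_apply, h0, smul_zero]
    · rw [Pi.smul_apply, smul_eq_mul, div_mul_cancel₀ _ h1]
  · refine ⟨x 0 / e 0, funext (Fin.forall_fin_two.2 ⟨?_, ?_⟩)⟩
    · rw [Pi.smul_apply, smul_eq_mul, div_mul_cancel₀ _ h0]
    · rw [Pi.smul_apply, smul_eq_mul]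
      field_simp
      linear_combination hl

variable {D : Dat} {w : Pl} {g t φ : GQ} {e : V2} {c : GQ → V2}

theorem rdI (hw : w.p ∣ 15) (hg : g ∈ w.I) : D.rd g = T2.rho g :=
  SelA.rd_fix _ (((t_F2X D).2.2.2.2.2.2 w hw).1 g hg)

theorem fwd (hw : w.p ∣ 15) (ht : t ∈ w.I) (hβ : ∀ β : Om, β ^ 2 = w.p → t β = -β) (he : ‖e‖ = 1)
    (h1 : ∀ v, ∃ s : ℚ_[2], T2.rho t *ᵥ v - v = s • e) (h2 : ∃ i j, ‖(T2.rho t - 1) i j‖ = 4⁻¹)
    (hc : D.XC c) (hl : dl e (c t) = 0) : ∃ v, ∀ g ∈ w.I, c g = D.rd g *ᵥ v - v := by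
  obtain ⟨i, j, hij⟩ := h2
  obtain ⟨s, hs⟩ := h1 (Pi.single j 1)
  have hs0 : s ≠ 0 := by
    rintro rfl
    have h3 := congrFun hs i
    rw [zero_smul, Pi.sub_apply, Matrix.mulVec_single_one, Pi.zero_apply] at h3
    have h4 : (T2.rho t - 1) i j = 0 := by
      rw [Pi.single_apply] at h3
      rw [Matrix.sub_apply, Matrix.one_apply]
      exact h3
    rw [h4, norm_zero] at hij
    norm_num at hij
  obtain ⟨m, hm⟩ := ex_smul he hl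
  have hr := rep D ⊤
  have hle : w.I ⊓ ⊤ ≤ KI := inf_le_left.trans (I_le (TIW.ne2 hw))
  have hz := (pz_const (rep D _) (hc.uc.mono hle)
    fun g hg g' hg' => hc.co g (hle hg) g' (hle hg')).1
  have hz2 := hz.sub hr (pz_cob hr (fun _ => le_top) ((m / s) • Pi.single j 1))
  have hcs : ∀ g, (ul fun k => c (cs g k)) = c g := fun g => ul_eq tendsto_const_nhds
  have h5 := a_PTAME V2 ⊤ (T2.rq D.dl) (fun _ => w) (cs t) (fun _ => w.p) _ isOpen_univ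
    ⟨⊤, hr, fun _ => le_top⟩ (.of_forall fun _ => ⟨TIW.ne2 hw, by
      rw [inf_top_eq]
      exact (a_RES w w.D w.loc_D).2.2.2.2.1, ⟨ht, trivial⟩, hβ⟩) hz2 (by
      rw [Pi.sub_apply, hcs, rS_cs, show T2.rq D.dl t _ = D.rd t *ᵥ _ from rfl, rdI hw ht,
        Matrix.mulVec_smul, ← smul_sub, hs, smul_smul, div_mul_cancel₀ _ hs0, hm, sub_self])
  refine ⟨(m / s) • Pi.single j 1, fun g hg => ?_⟩
  have h6 := h5 (cs g) (.of_forall fun _ => ⟨hg, trivial⟩)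
  rwa [Pi.sub_apply, hcs, rS_cs, sub_eq_zero] at h6

theorem frob (hw : w.p ≠ 2) (ht : t ∈ w.I) (hβ : ∀ β : Om, β ^ 2 = w.p → t β = -β)
    (hφ : w.IsFrob 1 φ) {L : GQ → ℚ_[2]} (hu : Uc w.I L)
    (ha : ∀ g ∈ w.I, ∀ h ∈ w.I, L (g * h) = L g + L h) : L (φ * t * φ⁻¹) = w.p * L t := by
  have h1 : L 1 = 0 := by simpa using ha 1 (one_mem _) 1 (one_mem _)
  have h2 : ∀ g ∈ w.I, ∀ m : ℕ, L (g ^ m) = m * L g := fun g hg m => by
    induction m with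
    | zero => simpa using h1
    | succ m ih => rw [pow_succ, ha _ (pow_mem hg m) g hg, ih]; push_cast; ring
  have h3 : φ * t * φ⁻¹ ∈ w.I := (show φ • w = w from hφ.1) ▸ conj_I φ ht
  have h4 := mul_mem h3 (inv_mem (pow_mem ht w.p))
  have h5 := ha _ h4 _ (pow_mem ht w.p)
  rw [inv_mul_cancel_right, h2 t ht] at h5
  rw [h5, add_eq_right, ← norm_le_zero_iff]
  refine le_of_forall_pos_le_add fun ε hε => ?_
  obtain ⟨N, hN, h6⟩ := hu ε hε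
  obtain ⟨r, hr, h7⟩ := (a_TAME2 w w.D w.p t hw w.loc_D (by
    rw [inf_eq_left.2 w.I_le_D]; exact (a_RES w w.D w.loc_D).2.2.2.2.1) ⟨ht, w.I_le_D ht⟩ hβ N
    hN).2 1 φ hφ (map_natCast φ _) fun g hg => mul_mem (mul_mem hφ.1 hg) (inv_mem hφ.1)
  rw [pow_one] at h7
  have h8 := h6 1 (one_mem _) _ (pow_mem h4 r) h7
  rwa [one_mul, h1, sub_zero, h2 _ h4, norm_mul, norm_odd hr, one_mul, ← zero_add ε] at h8

theorem not_KP (hw : w.p = 3 ∨ w.p = 5) (hφ : w.IsFrob 1 φ) : φ ∉ KP 1 := fun h => by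
  have h1 := (a_LG.1.dvd 1 _).1 (mem_KP.1 h)
  rw [a_EC.2.2.2.2.2.1 w 1 φ (by omega) hφ, pow_one] at h1
  have h2 : ∀ k : ℤ, (2 : ℤ_[2]) ^ (1 + 2) ∣ k → (8 : ℤ) ∣ k := fun k e => by
    simpa using (PadicInt.pow_p_dvd_int_iff (p := 2) 3 k).1 e
  rcases h1 with h1 | h1
  · have := h2 (w.p - 1) (by exact_mod_cast h1)
    omega
  · have := h2 (w.p + 1) (by exact_mod_cast h1)
    omega

theorem main (hLAYK : LAYK) (hCJ : CJ) (D : Dat) (w : Pl) (hp : w.p = 3 ∨ w.p = 5) {la : ℚ_[2]}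
    (hla : la = if (w.p = 3 ∧ D.n % 3 = 1) ∨ (w.p = 5 ∧ (D.n % 5 = 1 ∨ D.n % 5 = 4)) then
      (w.p : ℚ_[2]) else -w.p) (n1 : ‖la‖ = 1) (n2 : 4⁻¹ ≤ ‖la - 1‖) :
    ∃ (l : (GQ → V2) →ₗ[ℚ_[2]] ℚ_[2]) (μ : ℚ_[2]),
      (∀ c ∈ D.XX, (l c = 0 ↔ c ∈ D.Bad w.p) ∧ l (D.Th c) = μ * l c) ∧ ‖μ‖ = ‖la - 1‖ := by
  have hw : w.p ∣ 15 := by rcases hp with h | h <;> rw [h] <;> norm_num
  have hw2 := TIW.ne2 hw
  obtain ⟨t, ht, hβ⟩ := Pl.exists_gen a_TAME a_RES hw2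
  obtain ⟨e, he, -, -, h1, h2, -⟩ := a_UNIP w2 T2 w hw
  obtain ⟨φ, hφ⟩ := w.exists_frob a_FROB
  have h3 : ∀ g ∈ w.I, ∀ v, dl e (D.rd g *ᵥ v - v) = 0 := fun g hg v => by
    obtain ⟨s, hs⟩ := (h1 g hg).2 v
    rw [rdI hw hg, hs, dl_smul]
  obtain ⟨l, hl⟩ : ∃ l : (GQ → V2) →ₗ[ℚ_[2]] ℚ_[2], ∀ c, l c = dl e (c t) :=
    ⟨dl e ∘ₗ LinearMap.proj t, fun _ => rfl⟩
  have h4 : ∀ c ∈ D.XX, l c = 0 ↔ c ∈ D.Bad w.p := fun c hc => by
    refine ⟨fun h w' hw' => ?_, fun h => ?_⟩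
    · obtain ⟨v, hv⟩ := fwd hw ht hβ he (h1 t ht).2 (h2 t ht hβ).1 hc (hl c ▸ h)
      obtain ⟨u, hu, rfl⟩ := hLAYK.2.1 w w' (hw.trans (by norm_num)) hw'
      exact ⟨_, fun g hg => TIW.conj_cob (rep D KI) hc.co hu (I_le (w := w') hw2 hg)
        (hv _ (conj_I u hg))⟩
    · obtain ⟨v, hv⟩ := h w rfl
      rw [hl, hv t ht, h3 t ht]
  have h5 := (hCJ D).2
  by_cases h0 : ∀ c ∈ D.XX, l c = 0
  · exact ⟨l, la - 1, fun c hc => ⟨h4 c hc, by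
      rw [h0 c hc, mul_zero, Th_apply, h0 _ (sub_mem ((h5 c hc).1 _) hc)]⟩, rfl⟩
  push Not at h0
  obtain ⟨c, hc, h0⟩ := h0
  obtain ⟨m, hm⟩ : ∃ m, ∀ x ∈ D.XX, l (D.cj D.gm x) = m * l x := by
    refine ⟨l (D.cj D.gm c) / l c, fun x hx => ?_⟩
    have h6 := sub_mem hx (D.XX.smul_mem (l x / l c) hc)
    have h7 := (h4 _ ((h5 _ h6).1 D.gm)).2 ((h5 _ h6).2.1 D.gm _ hw2 ((h4 _ h6).1 (by
      rw [map_sub, map_smul, smul_eq_mul, div_mul_cancel₀ _ h0, sub_self])))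
    rw [map_sub, map_smul, map_sub, map_smul, smul_eq_mul, sub_eq_zero] at h7
    rw [h7]
    ring
  have h6 : ∀ x ∈ D.XX, ∀ a : ℕ, l (D.cj (D.gm ^ a) x) = m ^ a * l x := fun x hx a => by
    induction a with
    | zero => rw [pow_zero, pow_zero, (h5 x hx).2.2.2.1 1 (one_mem _), one_mul]
    | succ a ih => rw [pow_succ, (h5 x hx).2.2.1, hm _ ((h5 x hx).1 _), ih]; ring
  have h7 : l (D.cj φ c) = la * l c := by
    have k1 := frob hw2 ht hβ hφ (L := fun g => dl e (c g)) ((hc.uc.mono (I_le hw2)).map _)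
      fun g hg h hh => by
        have := h3 g hg (c h)
        rw [map_sub, sub_eq_zero] at this
        rw [hc.co g (I_le hw2 hg) h (I_le hw2 hh), map_add, this]
    have k2 := T2.dt_rd D.dl φ e (D.rd φ⁻¹ *ᵥ c (φ * t * φ⁻¹))
    have k3 := ((t_F2X D).2.2.2.2.2.2 w hw).2 e φ he (fun g hg => (h1 g hg).1) hφ
    have k4 : cq φ = w.p := by rw [cq, a_EC.2.2.2.2.2.1 w 1 φ hw2 hφ, pow_one]; rfl
    have k5 : (w.p : ℚ_[2]) ≠ 0 := Nat.cast_ne_zero.2 w.prime.ne_zero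
    rw [← hla] at k3
    change dt (D.rd φ *ᵥ _) (D.rd φ *ᵥ _) = _ at k2
    rw [k3, ← rd_mulVec, mul_inv_cancel, rd_one, Matrix.one_mulVec, k4,
      show ∀ x, dt (la • e) x = la * dl e x from fun x => by
        simp only [dl_eq, dt, Pi.smul_apply, smul_eq_mul]; ring, k1, mul_left_comm] at k2
    rw [hl, hl, D.cj_pos _ _ (I_le hw2 ht), map_add, map_smul, h3 t ht, smul_zero, add_zero]
    exact (mul_left_cancel₀ k5 k2).symm
  refine ⟨l, m - 1, fun x hx => ⟨h4 x hx, by rw [Th_apply, map_sub, hm x hx]; ring⟩, ?_⟩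
  obtain ⟨k, hk⟩ := (h5 c hc).2.2.2.2 (8⁻¹ * ‖l c‖) (by have := norm_pos_iff.2 h0; positivity)
  have h8 := dec (la_gm D) (k + 1) φ
  refine key (a := (Ps (k + 1) φ).val) (y := l (D.cj (φ * (D.gm ^ (Ps (k + 1) φ).val)⁻¹) c))
    (Nat.not_even_iff_odd.1 fun ev => not_KP hp hφ ?_) n1 n2 h0 ?_ ?_
  · have := mul_mem (KP_le (Nat.le_add_left 1 k) h8)
      ((pow_mem_KP (k := 1) (la_gm D)).2 (by simpa using ev.two_dvd))
    rwa [inv_mul_cancel_right] at this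
  · rw [← map_sub, hl, dl_eq]
    refine (dt_norm _ _).trans ?_
    rw [he, one_mul]
    exact hk _ (KP_le k.le_succ h8) t
  · rw [← h7, ← h6 _ ((h5 c hc).1 _), ← (h5 c hc).2.2.1, inv_mul_cancel_right]

end TBADP

theorem t_BADP (hLAYK : LAYK) (hCJ : CJ) : BADP := fun D p hp => by
  obtain ⟨w, rfl⟩ := a_PL.1 p (by rcases hp with rfl | rfl <;> norm_num)
  have h2 : ‖(2 : ℚ_[2])‖ = 2⁻¹ := by simpa using Padic.norm_p (p := 2)
  have h3 : ‖(3 : ℚ_[2])‖ = 1 := by simpa using TBADP.norm_odd (a := 3) (by decide)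
  have h5 : ‖(5 : ℚ_[2])‖ = 1 := by simpa using TBADP.norm_odd (a := 5) (by decide)
  have h4 : ‖(4 : ℚ_[2])‖ = 4⁻¹ := by
    rw [show (4 : ℚ_[2]) = 2 * 2 by norm_num, norm_mul, h2]; norm_num
  have h6 : ‖(6 : ℚ_[2])‖ = 2⁻¹ := by
    rw [show (6 : ℚ_[2]) = 2 * 3 by norm_num, norm_mul, h2, h3, mul_one]
  obtain ⟨la, hla⟩ : ∃ la, la = if (w.p = 3 ∧ D.n % 3 = 1) ∨
      (w.p = 5 ∧ (D.n % 5 = 1 ∨ D.n % 5 = 4)) then (w.p : ℚ_[2]) else -w.p := ⟨_, rfl⟩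
  have k : ‖la‖ = 1 ∧ ‖la - 1‖ = if (w.p = 3 ∧ D.n % 3 = 1) ∨
      (w.p = 5 ∧ ¬ (D.n % 5 = 1 ∨ D.n % 5 = 4)) then 2⁻¹ else 4⁻¹ := by
    rw [hla]
    rcases hp with h | h <;> rw [h] <;>
      simp only [true_and, false_and, or_false, false_or, Nat.reduceEqDiff, Nat.cast_ofNat, ite_not]
    · split_ifs
      · exact ⟨h3, by rw [← h2]; norm_num⟩
      · exact ⟨by rw [norm_neg, h3], by rw [← h4, ← norm_neg]; norm_num⟩
    · split_ifs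
      · exact ⟨h5, by rw [← h4]; norm_num⟩
      · exact ⟨by rw [norm_neg, h5], by rw [← h6, ← norm_neg]; norm_num⟩
  obtain ⟨l, μ, a, b⟩ := TBADP.main hLAYK hCJ D w hp hla k.1 (by
    rw [k.2]; split_ifs <;> norm_num)
  exact ⟨l, μ, a, b.trans k.2⟩

end Pool.Agent.P.MP_9c97e9_nt.KT
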