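import Pool.Agent.P.MP_9c97e9_nt.KT.IfJ
import Pool.Agent.P.MP_9c97e9_nt.KT.TBAS

namespace Pool.Agent.P.MP_9c97e9_nt.KT

open MP_8b7eba_nt.R2
open Filter Topology Finset

namespace TERLA

theorem msy_le (n k ν : ℕ) : ‖msy n k ν‖ ≤ 4 := by
  have h1 : ‖al0⁻¹‖ = 1 := by rw [norm_inv, t_BAS.1.1, inv_one]
  have h2 : ‖(4 : ℚ_[2])‖ = 4⁻¹ := by
    have h : ‖(2 : ℚ_[2])‖ = 2⁻¹ := by simpa using Padic.norm_p (p := 2)
    rw [show (4 : ℚ_[2]) = 2 * 2 by norm_num, norm_mul, h]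
    norm_num
  have h3 : ∀ z : ℤ, ‖(z : ℚ_[2])‖ ≤ 1 := fun z => Padic.norm_int_le_one z
  rw [msy, norm_div, h2, div_inv_eq_mul, norm_mul]
  have h4 : ∀ a b : ℤ, ‖(a : ℚ_[2]) - al0⁻¹ * b‖ ≤ 1 := fun a b => by
    rw [sub_eq_add_neg]
    refine (IsUltrametricDist.norm_add_le_max _ _).trans (max_le (h3 a) ?_)
    rw [norm_neg, norm_mul, h1, one_mul]
    exact h3 b
  have h5 := mul_le_one₀ (h3 (jacobiSym ν n)) (norm_nonneg _)
    (h4 (MP_8b7eba_nt.Mod.nM ν (n * 2 ^ (k + 2) : ℕ))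
      (MP_8b7eba_nt.Mod.nM (2 * ν : ℕ) (n * 2 ^ (k + 2) : ℕ)))
  linarith

theorem lz_five (k : ℕ) : ((lz k 5 : ℕ) : ZMod (2 ^ k)) = 1 := by
  have hu : IsUnit ((5 : ℕ) : ℤ_[2]) :=
    PadicInt.isUnit_iff.2 (PadicInt.norm_natCast_eq_one_iff.2 (by norm_num))
  have h : lg (un ((5 : ℕ) : ℤ_[2])) = 1 := a_LG.1.five _ (by rw [un, dif_pos hu]; simp)
  rw [lz, ZMod.natCast_zmod_val, h, map_one]

theorem dvd_of {k a b : ℕ} (h : (a : ZMod (2 ^ k)) = b) : (2 : ℤ_[2]) ^ k ∣ (b : ℤ_[2]) - a := by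
  obtain ⟨c, hc⟩ := ((ZMod.natCast_eq_natCast_iff _ _ _).1 h).dvd
  refine ⟨c, ?_⟩
  exact_mod_cast congrArg (Int.cast : ℤ → ℤ_[2]) hc

variable {A : Type} [NormedCommRing A] [NormedAlgebra ℚ_[2] A] [IsUltrametricDist A]
  {ψ : ℤ_[2] → A}

theorem geo (h : IsPsi ψ) : Tendsto (fun k => ∑ j ∈ range (2 ^ k), ψ (-j)) atTop (𝓝 0) := by
  obtain ⟨K, hK⟩ := h.near (show (0 : ℝ) < 2⁻¹ by norm_num)
  have h1 : ‖(1 : A)‖ ≤ 1 := h.zero ▸ h.le 0
  have h2 : ‖(2 : A)‖ ≤ 2⁻¹ := by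
    have e : (2 : A) = (2 : ℚ_[2]) • (1 : A) := by rw [two_smul]; norm_num
    have h3 : ‖(2 : ℚ_[2])‖ = 2⁻¹ := by simpa using Padic.norm_p (p := 2)
    rw [e, norm_smul, h3]
    linarith
  have key : ∀ m, ‖∑ j ∈ range (2 ^ (K + m)), ψ (-j)‖ ≤ (2⁻¹) ^ m := by
    intro m
    induction m with
    | zero =>
      exact IsUltrametricDist.norm_sum_le_of_forall_le_of_nonneg (by norm_num) fun j _ => by
        simpa using h.le _
    | succ m ih =>
      have e : ∑ j ∈ range (2 ^ (K + (m + 1))), ψ (-j) =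
          (∑ j ∈ range (2 ^ (K + m)), ψ (-j)) * (1 + ψ (-2 ^ (K + m))) := by
        rw [← add_assoc, pow_succ, mul_two, sum_range_add, mul_add, mul_one, sum_mul]
        congr 1
        refine sum_congr rfl fun j _ => ?_
        rw [← h.add]
        congr 1
        push_cast
        ring
      have h4 : ‖1 + ψ (-2 ^ (K + m))‖ ≤ 2⁻¹ := by
        have h5 := hK (-2 ^ (K + m)) 0 (by rw [sub_zero, dvd_neg]; exact pow_dvd_pow _ (by omega))
        rw [h.zero] at h5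
        rw [show 1 + ψ (-2 ^ (K + m)) = 2 + (ψ (-2 ^ (K + m)) - 1) by ring]
        exact (IsUltrametricDist.norm_add_le_max _ _).trans (max_le h2 h5)
      rw [e, pow_succ]
      exact (norm_mul_le _ _).trans (mul_le_mul ih h4 (norm_nonneg _) (by positivity))
  rw [← tendsto_add_atTop_iff_nat K]
  refine squeeze_zero_norm (a := fun m => (2⁻¹ : ℝ) ^ m) (fun m => by rw [add_comm m K]; exact key m) ?_
  exact tendsto_pow_atTop_nhds_zero_of_lt_one (by norm_num) (by norm_num)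

omit [NormedAlgebra ℚ_[2] A] in
theorem fib (hC : CYB) (k : ℕ) (F : ℕ → A) :
    ‖∑ δ, F (lu k δ)‖ ≤ ‖∑ j ∈ range (2 ^ k), F j‖ := by
  obtain ⟨-, h1, h2, h3, -⟩ := hC.2.2 k
  set q := un ((5 : ℕ) : ZMod (2 ^ (k + 2)))
  have hq : ∀ j : ℕ, ∀ δ, (lu k (δ * q ^ j) : ZMod (2 ^ k)) = lu k δ + j := by
    intro j δ
    induction j with
    | zero => simp
    | succ j ih =>
      rw [pow_succ q, ← mul_assoc, h2, ih, h3 5 (by decide), lz_five]
      push_cast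
      ring
  have hc : ∀ δ, ∀ j < 2 ^ k, lu k δ = j ↔ (lu k δ : ZMod (2 ^ k)) = j := fun δ j hj =>
    ⟨fun e => by rw [e], fun e => by
      have := (ZMod.natCast_eq_natCast_iff' _ _ _).1 e
      rwa [Nat.mod_eq_of_lt (h1 δ).1, Nat.mod_eq_of_lt hj] at this⟩
  have e : ∑ δ, F (lu k δ) = (univ.filter fun δ => lu k δ = 0).card • ∑ j ∈ range (2 ^ k), F j := by
    rw [← sum_fiberwise_of_maps_to (s := univ) (g := lu k) (t := range (2 ^ k))
      fun δ _ => mem_range.2 (h1 δ).1, smul_sum]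
    refine sum_congr rfl fun j hj => ?_
    rw [sum_congr rfl (g := fun _ => F j) fun δ hδ => by rw [(mem_filter.1 hδ).2], sum_const]
    congr 1
    symm
    refine card_equiv (Equiv.mulRight (q ^ j)) fun δ => ?_
    simp only [mem_filter, mem_univ, true_and, Equiv.coe_mulRight]
    rw [hc _ 0 (by positivity), hc _ j (mem_range.1 hj), hq]
    simp
  rw [e]
  exact IsUltrametricDist.norm_nsmul_le _ _

end TERLA

open TERLA

theorem t_ERLA (hC : CYB) : ERLA := by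
  intro n u
  refine ⟨msy_le n, fun A _ _ _ _ ψ h => ⟨?_, ?_⟩⟩
  · refine squeeze_zero_norm (fun k => fib hC k fun j => ψ (-j)) ?_
    exact (tendsto_zero_iff_norm_tendsto_zero.1 (geo h)).mono_left UF_le
  have hs : ∀ k, ∑ j ∈ range (2 ^ k), mes n k j • ψ j = ∑ ν ∈ oddR n k, msy n k ν • ψ (lz k ν) := by
    intro k
    rw [← sum_fiberwise_of_maps_to (s := oddR n k) (g := lz k) (t := range (2 ^ k))
      fun ν _ => mem_range.2 (ZMod.val_lt _)]
    refine sum_congr rfl fun j _ => ?_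
    rw [mes, sum_smul]
    exact sum_congr rfl fun ν h => by rw [(mem_filter.1 h).2]
  have h1 : Tendsto (fun k => ∑ j ∈ range (2 ^ k), mes n k j • ψ j) UF (𝓝 (thA (mes n) ψ)) := by
    refine tendsto_ul (B := 4) (Eventually.of_forall fun k => ?_)
    rw [hs]
    refine IsUltrametricDist.norm_sum_le_of_forall_le_of_nonneg (by norm_num) fun ν _ => ?_
    rw [norm_smul]
    nlinarith [msy_le n k ν, h.le (lz k ν), norm_nonneg (ψ (lz k ν)), norm_nonneg (msy n k ν)]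
  have h2 := ((h.cont.tendsto _).comp (tendsto_ul_int fun k => -(lu k (u k) : ℤ_[2]))).mul h1
  refine ⟨_, h2.congr_dist ?_⟩
  refine Metric.tendsto_nhds.2 fun ε hε => ?_
  obtain ⟨K, hK⟩ := h.near (show 0 < ε / 8 by positivity)
  filter_upwards [ev_ge K] with k hk
  obtain ⟨-, -, h3, h4, -⟩ := hC.2.2 k
  rw [dist_zero_right, Real.norm_of_nonneg dist_nonneg, dist_eq_norm, hs, mul_sum, ← sum_sub_distrib]
  refine lt_of_le_of_lt (b := ε / 2) (IsUltrametricDist.norm_sum_le_of_forall_le_of_nonneg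
    (by positivity) fun ν hν => ?_) (by linarith)
  have h5 := h3 (u k * (un (ν : ZMod (2 ^ (k + 2))))⁻¹) (un (ν : ZMod (2 ^ (k + 2))))
  rw [inv_mul_cancel_right, h4 ν (mem_filter.1 hν).2, ← Nat.cast_add] at h5
  have h6 := hK (-(lu k (u k) : ℤ_[2]) + lz k ν) (-lu k (u k * (un (ν : ZMod (2 ^ (k + 2))))⁻¹))
    ((pow_dvd_pow _ hk).trans (by
      have := dvd_of h5
      push_cast at this
      convert this using 1
      ring))
  rw [Function.comp_apply, mul_smul_comm, ← h.add, ← smul_sub, norm_smul]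
  nlinarith [msy_le n k ν, norm_nonneg (msy n k ν), norm_nonneg (ψ (-(lu k (u k) : ℤ_[2]) + lz k ν) -
    ψ (-lu k (u k * (un (ν : ZMod (2 ^ (k + 2))))⁻¹)))]

end Pool.Agent.P.MP_9c97e9_nt.KT
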