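import Pool.Agent.P.MP_9c97e9_nt.KT.BasK

/-! Invariant cocycles extend. -/

namespace Pool.Agent.P.MP_9c97e9_nt.KT

open scoped NNReal Matrix
open MP_8b7eba_nt.R2
open Filter Topology Polynomial Module

namespace TEXT

section

variable {G A : Type} [Group G] [AddCommGroup A] [DistribMulAction G A]

/-- the values at the powers of the generator -/
def y (γ : G) (v : A) : ℕ → A
  | 0 => 0
  | a + 1 => v + γ • y γ v a

theorem y_add (γ : G) (v : A) (a b : ℕ) : y γ v (a + b) = y γ v a + γ ^ a • y γ v b := by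
  induction a with
  | zero => simp [y]
  | succ a ih => rw [Nat.add_right_comm, y, y, ih, smul_add, pow_succ', mul_smul, add_assoc]

theorem y_tor (γ : G) {v : A} {r : ℕ} (h : r • v = 0) (a : ℕ) : r • y γ v a = 0 := by
  induction a with
  | zero => simp [y]
  | succ a ih => rw [y, smul_add, h, smul_comm, ih, smul_zero, add_zero]

theorem ext (K N N' : Subgroup G) (hK : K.Normal) (hN : N.Normal) (hN' : N'.Normal) (γ : G)
    (c : G → A) (v : A) (q r : ℕ) (le : N' ≤ N)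
    (co : ∀ g ∈ K, ∀ h ∈ K, c (g * h) = c g + g • c h)
    (sm : ∀ g ∈ K, ∀ n ∈ K, n ∈ N → c (g * n) = c g) (tv : r • v = 0) (tc : ∀ g, r • c g = 0)
    (tN : ∀ n ∈ N, ∀ P : A, r • P = 0 → n • P = P)
    (cj : ∀ g ∈ K, c (γ * g * γ⁻¹) = γ • c g + v - (γ * g * γ⁻¹) • v)
    (h1 : ∃ n ∈ N, γ ^ q * n ∈ K) (h2 : ∀ g, ∃ h ∈ K, ∃ a : ℕ, ∃ n ∈ N', g = h * γ ^ a * n)
    (h3 : ∀ d : ℕ, ∀ n ∈ N', γ ^ d * n ∈ K → r * q ∣ d) :
    ∃ c' : G → A, (∀ g h, c' (g * h) = c' g + g • c' h) ∧ (∀ n ∈ N', c' n = 0) ∧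
      (∀ g ∈ K, c' g = c g) ∧ c' γ = v ∧ ∀ g, r • c' g = 0 := by
  have c1 : c 1 = 0 := by simpa using co 1 (one_mem _) 1 (one_mem _)
  have it : ∀ a : ℕ, ∀ g ∈ K, c (γ ^ a * g * (γ ^ a)⁻¹) =
      γ ^ a • c g + y γ v a - (γ ^ a * g * (γ ^ a)⁻¹) • y γ v a := fun a g hg => by
    induction a with
    | zero => simp [y]
    | succ a ih =>
      rw [show γ ^ (a + 1) * g * (γ ^ (a + 1))⁻¹ = γ * (γ ^ a * g * (γ ^ a)⁻¹) * γ⁻¹ by group,
        cj _ (hK.conj_mem g hg _), ih, y, pow_succ']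
      simp only [mul_smul, smul_add, smul_sub, inv_smul_smul]
      abel
  have ind : ∀ g, ∀ n ∈ N, ∀ n' ∈ N, g * n ∈ K → g * n' ∈ K → c (g * n') = c (g * n) :=
    fun g n hn n' hn' k k' => by
      have e : g * n' = g * n * (n⁻¹ * n') := by group
      rw [e, sm _ k _ ((K.mul_mem_cancel_left k).1 (e ▸ k')) (mul_mem (inv_mem hn) hn')]
  obtain ⟨n1, m1, k1⟩ := h1
  have u1 : γ • (c (γ ^ q * n1) - y γ v q) = c (γ ^ q * n1) - y γ v q := by
    have e : γ * (γ ^ q * n1) * γ⁻¹ = γ ^ q * (γ * n1 * γ⁻¹) := by group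
    have a1 := cj _ k1
    have a2 := y_add γ v q 1
    rw [e, ind _ n1 m1 _ (hN.conj_mem _ m1 γ) k1 (e ▸ hK.conj_mem _ k1 γ), mul_smul,
      tN _ (hN.conj_mem _ m1 γ) v tv] at a1
    simp only [y, smul_zero, add_zero] at a2
    rw [smul_sub, eq_sub_of_add_eq' a2, sub_eq_sub_iff_add_eq_add]
    nth_rewrite 2 [a1]
    abel
  have u2 : ∀ a : ℕ, γ ^ a • (c (γ ^ q * n1) - y γ v q) = c (γ ^ q * n1) - y γ v q := fun a => by
    induction a with
    | zero => simp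
    | succ a ih => rw [pow_succ, mul_smul, u1, ih]
  have u3 : ∀ e : ℕ, ∃ n ∈ N, γ ^ (e * q) * n ∈ K ∧
      c (γ ^ (e * q) * n) = y γ v (e * q) + e • (c (γ ^ q * n1) - y γ v q) := fun e => by
    induction e with
    | zero => exact ⟨1, one_mem _, by simp, by simp [c1, y]⟩
    | succ e ih =>
      obtain ⟨n, m, k, h⟩ := ih
      have e1 : γ ^ ((e + 1) * q) * ((γ ^ (e * q))⁻¹ * n1 * γ ^ (e * q) * n) =
          γ ^ q * n1 * (γ ^ (e * q) * n) := by
        rw [Nat.succ_mul, add_comm, pow_add]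
        simp only [mul_assoc, mul_inv_cancel_left]
      refine ⟨_, mul_mem (hN.conj_mem' _ m1 _) m, e1 ▸ mul_mem k1 k, ?_⟩
      rw [e1, co _ k1 _ k, mul_smul, tN _ m1 _ (tc _), h, smul_add, smul_comm, u2, Nat.succ_mul,
        add_comm (e * q), y_add, succ_nsmul]
      abel
  have u4 : ∀ d : ℕ, ∀ n ∈ N', γ ^ d * n ∈ K → c (γ ^ d * n) = y γ v d := fun d n m k => by
    obtain ⟨e, rfl⟩ := h3 d n m k
    obtain ⟨n', m', k', h⟩ := u3 (e * r)
    rw [show r * q * e = e * r * q by ring] at k ⊢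
    rw [ind _ n' m' n (le m) k' k, h, mul_smul, smul_sub r, tc, y_tor γ tv, sub_self, smul_zero,
      add_zero]
  have u5 : ∀ h ∈ K, ∀ h' ∈ K, ∀ a d : ℕ, ∀ n ∈ N', ∀ n' ∈ N',
      h * γ ^ a * n = h' * γ ^ (a + d) * n' →
      c h + h • y γ v a = c h' + h' • y γ v (a + d) := fun h k h' k' a d n m n' m' e => by
    have e1 : h = h' * (γ ^ a * (γ ^ d * (n' * n⁻¹)) * (γ ^ a)⁻¹) := by
      rw [eq_mul_inv_of_mul_eq (eq_mul_inv_of_mul_eq e), pow_add]
      simp only [mul_assoc]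
    have k2 := (K.mul_mem_cancel_left k').1 (e1 ▸ k)
    have k3 : γ ^ d * (n' * n⁻¹) ∈ K := by simpa [mul_assoc] using hK.conj_mem' _ k2 (γ ^ a)
    rw [e1, co _ k' _ k2, it _ _ k3, u4 _ _ (mul_mem m' (inv_mem m)) k3, y_add, mul_smul h']
    simp only [smul_add, smul_sub]
    abel
  choose h k a n m e using h2
  have key : ∀ h' ∈ K, ∀ b : ℕ, ∀ n' ∈ N', ∀ g, g = h' * γ ^ b * n' →
      c (h g) + h g • y γ v (a g) = c h' + h' • y γ v b := fun h' k' b n' m' g e' => by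
    rcases le_total (a g) b with l | l <;> obtain ⟨d, hd⟩ := Nat.exists_eq_add_of_le l
    · rw [hd] at e' ⊢
      exact u5 _ (k g) _ k' _ _ _ (m g) _ m' ((e g).symm.trans e')
    · have := e g
      rw [hd] at this ⊢
      exact (u5 _ k' _ (k g) _ _ _ m' _ (m g) (e'.symm.trans this)).symm
  have tor : ∀ g, r • (c (h g) + h g • y γ v (a g)) = 0 := fun g => by
    rw [smul_add, tc, smul_comm, y_tor γ tv, smul_zero, add_zero]
  refine ⟨fun g => c (h g) + h g • y γ v (a g), fun g g' => ?_, fun n' m' => ?_, fun g hg => ?_, ?_,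
    tor⟩
  · have k2 := hK.conj_mem _ (k g') (γ ^ a g)
    have e1 : ∀ P : A, r • P = 0 → g • P = h g • γ ^ a g • P := fun P hP => by
      conv_lhs => rw [e g, mul_smul, mul_smul, tN _ (le (m g)) P hP]
    beta_reduce
    rw [key _ (mul_mem (k g) k2) (a g + a g') _
      (mul_mem (hN'.conj_mem' _ (m g) (h g' * γ ^ a g')) (m g')) _ (by
        conv_lhs => rw [e g, e g']
        rw [pow_add]
        simp only [mul_assoc, mul_inv_rev, inv_mul_cancel_left, mul_inv_cancel_left]),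
      e1 _ (tor g'), co _ (k g) _ k2, it _ _ (k g'), y_add]
    simp only [mul_smul, smul_add, smul_sub, inv_smul_smul]
    abel
  · simpa [c1, y] using key 1 (one_mem _) 0 n' m' n' (by simp)
  · simpa [y] using key g hg 0 1 (one_mem _) g (by simp)
  · simpa [c1, y] using key 1 (one_mem _) 1 1 (one_mem _) γ (by simp)

end

/-- the twisted action -/
@[reducible] noncomputable def act (D : Dat) : DistribMulAction GQ EO where
  smul g P := tac D.dl g P
  one_smul := tac_one _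
  mul_smul := BK.tac_mul' D
  smul_zero _ := map_zero _
  smul_add _ := map_add _

theorem triv (D : Dat) (i : ℕ) :
    ∃ N, ON N ∧ ∀ n ∈ N, ∀ P : EO, 2 ^ i • P = 0 → tac D.dl n P = P := by
  obtain ⟨N, h1, h2⟩ := (BK.rep D ⊤).sm (2 ^ i)⁻¹ (by positivity)
  refine ⟨N, h1, fun n hn P hP => ?_⟩
  obtain ⟨v, rfl⟩ := T2.surj P i hP
  rw [← map_nsmul, T2.ker, ← Nat.cast_smul_eq_nsmul ℚ_[2], norm_smul, Nat.cast_pow, Nat.cast_ofNat,
    TTATE.n2] at hP
  rw [BK.tac_pt, ← sub_eq_zero, ← map_sub, T2.ker]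
  exact (h2 n trivial hn v).trans hP

end TEXT

open TEXT BK in
theorem t_EXT : EXT := by
  intro D c v i hc hv cj
  obtain ⟨j, hj⟩ := hc.tor
  obtain ⟨N1, o1, s1⟩ := hc.sm
  obtain ⟨N2, o2, s2⟩ := triv D (i + j)
  have o := o1.inf o2
  obtain ⟨m, hm⟩ := small o
  have o' := o.inf (on_KP (i + j + m))
  obtain ⟨c', a1, a2, a3, a4, a5⟩ := @ext GQ EO _ _ (act D) KI _ _ normal_KI o.1 o'.1 D.gm c v
    (2 ^ m) (2 ^ (i + j)) inf_le_left hc.co (fun g hg n hn h => s1 g hg n hn h.1)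
    (by rw [add_comm, pow_add, mul_smul, hv, smul_zero])
    (fun g => by rw [pow_add, mul_smul, hj, smul_zero]) (fun n hn => s2 n hn.2) cj
    (by
      obtain ⟨s, h1, h2⟩ := hm _ ((pow_mem_KP (la_gm D)).2 dvd_rfl)
      exact ⟨s⁻¹, inv_mem h1.2, h2⟩)
    (fun g => by
      have h0 := dec (la_gm D) (i + j + m) g
      obtain ⟨s, h1, h2⟩ := hm _ (KP_le (Nat.le_add_left m _) h0)
      refine ⟨_, h2, (Ps (i + j + m) g).val, _,
        o'.1.conj_mem' s ⟨h1.2, ?_⟩ (D.gm ^ (Ps (i + j + m) g).val), by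
        simp only [mul_assoc, inv_mul_cancel_left, mul_inv_cancel_left, inv_mul_cancel, mul_one]⟩
      exact (KP _).inv_mem_iff.1 (((KP _).mul_mem_cancel_left h0).1 (KI_le _ h2)))
    (fun d n hn h => by
      rw [← pow_add, ← pow_mem_KP (la_gm D)]
      exact ((KP _).mul_mem_cancel_right hn.2).1 (KI_le _ h))
  refine ⟨c', ⟨⟨_, o', fun g _ n _ hn => ?_⟩, fun g _ h _ => a1 g h, fun g hg => absurd trivial hg,
    ⟨_, a5⟩, (a3 _ (z_mem D)).trans hc.nz, fun g hg => a3 g hg.2 ▸ hc.ord g hg,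
    fun w hw g hg => ?_, fun s => ?_⟩, a3, a4⟩
  · rw [a1, a2 n hn]
    exact (congrArg _ (map_zero (tac D.dl g))).trans (add_zero _)
  · have := I_le (odd hw) hg.1
    rw [a3 g this, hc.unr w hw g ⟨hg.1, this⟩]
  · exact (hc.re s).imp fun _ e => (a3 _ (ts_mem s)).trans e

end Pool.Agent.P.MP_9c97e9_nt.KT
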