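import Pool.Agent.P.MP_9c97e9_nt.KT.IfL

/-! The abstract count. -/

namespace Pool.Agent.P.MP_9c97e9_nt.KT

namespace TLABS

/-- doubling -/
def dbl (G : Type) [AddCommGroup G] : G →+ G := nsmulAddMonoidHom 2

lemma dbl_apply {G : Type} [AddCommGroup G] (g : G) : dbl G g = 2 • g := rfl

lemma index_dbl (G : Type) [AddCommGroup G] [Finite G] :
    (dbl G).range.index = Nat.card (dbl G).ker := by
  have h1 := (dbl G).ker.card_mul_index
  have h2 := (dbl G).range.card_mul_index
  rw [AddSubgroup.index_ker] at h1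
  have h3 : 0 < Nat.card (dbl G).range := Nat.card_pos
  rw [← h2, mul_comm] at h1
  exact (Nat.eq_of_mul_eq_mul_left h3 h1).symm

lemma surj {G Q : Type} [AddCommGroup G] [AddCommGroup Q] [Finite G] [Finite Q] (φ : G →+ Q)
    (h2 : ∀ q : Q, ∃ k : ℕ, 2 ^ k • q = 0) (hh : ∀ g q, φ g = 2 • q → ∃ g', g = 2 • g')
    (hc : (dbl Q).range.index ≤ Nat.card (dbl G).ker) : Function.Surjective φ := by
  let ψ : G →+ Q ⧸ (dbl Q).range := (QuotientAddGroup.mk' _).comp φ
  have k1 : ψ.ker ≤ (dbl G).range := fun g hg => by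
    have : φ g ∈ (dbl Q).range := (QuotientAddGroup.eq_zero_iff _).1 hg
    obtain ⟨q, hq⟩ := this
    obtain ⟨g', e⟩ := hh g q hq.symm
    exact ⟨g', e.symm⟩
  have k2 := AddSubgroup.index_antitone k1
  rw [AddSubgroup.index_ker, index_dbl] at k2
  have k3 : ψ.range = ⊤ := AddSubgroup.eq_top_of_le_card _ (hc.trans k2)
  have k4 : ∀ q, ∃ g q', q = φ g + 2 • q' := fun q => by
    obtain ⟨g, hg⟩ := (AddMonoidHom.range_eq_top.1 k3) (QuotientAddGroup.mk q)
    obtain ⟨q', hq⟩ := QuotientAddGroup.eq.1 (show (φ g : Q ⧸ (dbl Q).range) = q from hg)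
    exact ⟨g, q', by rw [← dbl_apply, hq]; abel⟩
  have k5 : ∀ k : ℕ, ∀ q, ∃ g q', q = φ g + 2 ^ k • q' := fun k => by
    induction k with
    | zero => exact fun q => ⟨0, q, by simp⟩
    | succ k ih =>
      intro q
      obtain ⟨g, q', e⟩ := ih q
      obtain ⟨g', q'', e'⟩ := k4 q'
      refine ⟨g + 2 ^ k • g', q'', ?_⟩
      rw [e, e', map_add, map_nsmul, smul_add, smul_smul, pow_succ, add_assoc]
  choose k hk using h2
  obtain ⟨K, hK⟩ := (Set.finite_range k).bddAbove
  intro q
  obtain ⟨g, q', e⟩ := k5 K q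
  obtain ⟨j, hj⟩ := Nat.exists_eq_add_of_le' (hK ⟨q', rfl⟩)
  refine ⟨g, ?_⟩
  rw [e, hj, pow_add, mul_smul, hk, smul_zero, add_zero]

lemma red (a : ℤ) : ∃ (e : Bool) (c : ℤ), a = (if e then 1 else 0) + 2 * c := by
  rcases Int.emod_two_eq_zero_or_one a with h | h
  · exact ⟨false, a / 2, by simp; omega⟩
  · exact ⟨true, a / 2, by simp; omega⟩

lemma index_le {ι : Type} [Fintype ι] (Q : ι → Type) [∀ i, AddCommGroup (Q i)]
    (h : ∀ i, ∃ y y' : Q i, ∀ x, ∃ a b : ℤ, x = a • y + b • y') :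
    (dbl (∀ i, Q i)).range.index ≤ 4 ^ Fintype.card ι := by
  classical
  choose y y' h using h
  let f : (ι → Bool × Bool) → (∀ i, Q i) ⧸ (dbl (∀ i, Q i)).range := fun e =>
    QuotientAddGroup.mk fun i => (if (e i).1 then 1 else 0 : ℤ) • y i +
      (if (e i).2 then 1 else 0 : ℤ) • y' i
  have hf : Function.Surjective f := fun q => by
    obtain ⟨x, rfl⟩ := QuotientAddGroup.mk_surjective q
    choose a b hab using fun i => h i (x i)
    choose e c he using fun i => red (a i)
    choose e' c' he' using fun i => red (b i)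
    refine ⟨fun i => (e i, e' i), QuotientAddGroup.eq.2 ⟨fun i => c i • y i + c' i • y' i, ?_⟩⟩
    funext i
    simp only [dbl_apply, Pi.smul_apply, Pi.add_apply, Pi.neg_apply]
    rw [hab i, he i, he' i]
    module
  have := Nat.card_le_card_of_surjective f hf
  simpa [AddSubgroup.index_eq_card] using this

end TLABS

open TLABS in
theorem t_LABS : LABS := by
  intro X _ ι _ G r L Z N hL hN hr h2 hh hs
  let Q : ι → Type := fun i => Z i ⧸ (L i).addSubgroupOf (Z i)
  have hc : ∀ i, Nat.card (Q i) = N i := fun i => (hL i).2.1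
  have : ∀ i, Finite (Q i) := fun i => Nat.finite_of_card_ne_zero (by rw [hc]; exact hN i)
  let φ : G →+ ∀ i, Q i := AddMonoidHom.pi fun i => (QuotientAddGroup.mk' _).comp
    (((r i).comp G.subtype).codRestrict (Z i) fun g => hr i g g.2)
  have hφ : ∀ g i, φ g i = QuotientAddGroup.mk ⟨r i g, hr i g g.2⟩ := fun _ _ => rfl
  have hk : {g | g ∈ G ∧ ∀ i, r i g ∈ L i} = Subtype.val '' (φ.ker : Set G) := by
    have h0 : ∀ g : G, g ∈ φ.ker ↔ ∀ i, r i g ∈ L i := fun g =>
      funext_iff.trans (forall_congr' fun i => (QuotientAddGroup.eq_zero_iff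
        (N := (L i).addSubgroupOf (Z i)) ⟨r i g, hr i g g.2⟩).trans AddSubgroup.mem_addSubgroupOf)
    ext g
    exact ⟨fun h => ⟨⟨g, h.1⟩, (h0 _).2 h.2, rfl⟩, fun ⟨x, h1, h2⟩ => h2 ▸ ⟨x.2, (h0 _).1 h1⟩⟩
  refine ⟨⟨fun h => h.subset fun _ k => k.1, fun h => ?_⟩, fun h => ?_⟩
  · rw [hk] at h
    have : Finite φ.ker := (h.of_finite_image Subtype.val_injective.injOn).to_subtype
    have : Finite (G ⧸ φ.ker) :=
      Finite.of_equiv _ (QuotientAddGroup.quotientKerEquivRange φ).toEquiv.symm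
    exact Set.finite_coe_iff.1 (Finite.of_addSubgroup_quotient (G := G) φ.ker)
  · have : Finite G := h.to_subtype
    have hsj : Function.Surjective φ := by
      refine surj φ (fun q => ?_) (fun g q e => ?_) ((index_le Q fun i => ?_).trans ?_)
      · choose z hz using fun i => QuotientAddGroup.mk_surjective (q i)
        choose k hk using fun i => h2 i (z i) (z i).2
        obtain ⟨K, hK⟩ := (Set.finite_range k).bddAbove
        refine ⟨K, funext fun i => ?_⟩
        obtain ⟨j, hj⟩ := Nat.exists_eq_add_of_le' (hK ⟨i, rfl⟩)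
        have : 2 ^ k i • z i = 0 := Subtype.ext (hk i)
        rw [Pi.smul_apply, ← hz, ← QuotientAddGroup.mk_nsmul, hj, pow_add, mul_smul, this,
          smul_zero]
        rfl
      · choose z hz using fun i => QuotientAddGroup.mk_surjective (q i)
        obtain ⟨g', h1, h3⟩ := hh g g.2 fun i => ⟨z i, (z i).2, by
          have h4 := congrFun e i
          rw [hφ, Pi.smul_apply, ← hz, ← QuotientAddGroup.mk_nsmul, eq_comm,
            QuotientAddGroup.eq, AddSubgroup.mem_addSubgroupOf] at h4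
          simpa [neg_add_eq_sub] using h4⟩
        exact ⟨⟨g', h1⟩, Subtype.ext h3⟩
      · obtain ⟨-, -, y, hy, y', hy', h3⟩ := hL i
        refine ⟨QuotientAddGroup.mk ⟨y, hy⟩, QuotientAddGroup.mk ⟨y', hy'⟩, fun x => ?_⟩
        obtain ⟨x, rfl⟩ := QuotientAddGroup.mk_surjective x
        obtain ⟨a, b, h4⟩ := h3 x x.2
        refine ⟨a, b, ?_⟩
        rw [← QuotientAddGroup.mk_zsmul, ← QuotientAddGroup.mk_zsmul, ← QuotientAddGroup.mk_add,
          eq_comm, QuotientAddGroup.eq, AddSubgroup.mem_addSubgroupOf]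
        rw [neg_add_eq_sub]
        simpa [sub_sub] using h4
      · obtain ⟨s, h1, h3⟩ := hs
        refine h1.trans ?_
        rw [← Nat.card_eq_finsetCard]
        exact Nat.card_le_card_of_injective
          (fun g : s => (⟨⟨g, (h3 g g.2).1⟩, Subtype.ext (h3 g g.2).2⟩ : (dbl G).ker))
          fun a b e => Subtype.ext (congrArg (fun x : (dbl G).ker => x.1.1) e)
    have h1 := φ.ker.card_mul_index
    rw [AddSubgroup.index_ker, AddMonoidHom.range_eq_top.2 hsj, AddSubgroup.card_top,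
      Nat.card_pi] at h1
    rw [hk, Set.ncard_image_of_injective _ Subtype.val_injective, ← Nat.card_coe_set_eq,
      ← Nat.card_coe_set_eq, ← Finset.prod_congr rfl fun i _ => hc i]
    exact h1.symm

end Pool.Agent.P.MP_9c97e9_nt.KT
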