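import Pool.Agent.P.MP_9c97e9_nt.KT.BasK

/-! Proof of LAYK. -/

namespace Pool.Agent.P.MP_9c97e9_nt.KT

open MP_8b7eba_nt.R2 BK

namespace TLAYK

variable {w : Pl} {k n : ℕ} {g : GQ}

/-- the image of the decomposition group is generated by `2 ^ k` -/
def Im (w : Pl) (k : ℕ) : Prop := w.D ≤ KP k ∧ ∃ φ ∈ w.D, ∃ u : ℤ_[2]ˣ, la φ = u * 2 ^ k

theorem Im.appr (h : Im w k) (n : ℕ) (hg : g ∈ KP k) : ∃ d ∈ w.D, g * d⁻¹ ∈ KP n := by
  obtain ⟨-, φ, hφ, u, hu⟩ := h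
  obtain ⟨c, hc⟩ := mem_KP.1 hg
  refine ⟨_, pow_mem hφ (PadicInt.appr (c * ((u⁻¹ : ℤ_[2]ˣ) : ℤ_[2])) n), mem_KP.2 ?_⟩
  have e := Ideal.mem_span_singleton.1 (PadicInt.appr_spec n (c * ((u⁻¹ : ℤ_[2]ˣ) : ℤ_[2])))
  rw [la_mul, la_inv, la_pow, hu, hc]
  refine (e.mul_left (u * 2 ^ k)).trans (Dvd.intro 1 ?_)
  have := u.mul_inv
  linear_combination 2 ^ k * c * this

theorem Im.rel (h : Im w k) (hk : k ≤ n) : (KP n).relIndex w.D * (KP k).index = (KP n).index := by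
  have := (on_KP n).1
  have e : KP n ⊔ w.D = KP k := le_antisymm (sup_le (KP_le hk) h.1) fun g hg => by
    obtain ⟨d, h1, h2⟩ := h.appr n hg
    simpa using Subgroup.mul_mem_sup h2 h1
  rw [← Subgroup.relIndex_sup_left, e, Subgroup.relIndex_mul_index (KP_le hk)]

theorem Im.not_le (h : Im w k) (hk : k ≤ n) : ¬ w.D ⊓ KP n ≤ KP (n + 1) := fun hle => by
  obtain ⟨-, φ, hφ, u, hu⟩ := h
  have e : la (φ ^ 2 ^ (n - k)) = u * 2 ^ n := by
    rw [la_pow, hu, ← Nat.sub_add_cancel hk, Nat.add_sub_cancel]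
    push_cast
    ring
  have h2 := mem_KP.1 (hle (x := φ ^ 2 ^ (n - k))
    ⟨pow_mem hφ _, mem_KP.2 (e ▸ Dvd.intro_left _ rfl)⟩)
  rw [e, pow_succ', mul_dvd_mul_iff_right (pow_ne_zero n two_ne_zero)] at h2
  exact PadicInt.prime_p.not_isUnit (isUnit_of_dvd_unit h2 u.isUnit)

theorem Im.lim (h : Im w k) (hg : g ∈ KP k) : ∃ u ∈ KI, u • w = g • w := by
  have hc : ∀ n, IsClosed ((w.D : Set GQ) ∩ (fun d => g * d⁻¹) ⁻¹' (KP n)) := fun n =>
    w.closed_D.inter ((closed_of_open (on_KP n).2).preimage (by fun_prop))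
  obtain ⟨d, hd⟩ := IsCompact.nonempty_iInter_of_sequence_nonempty_isCompact_isClosed
    (fun n => (w.D : Set GQ) ∩ (fun d => g * d⁻¹) ⁻¹' (KP n))
    (fun n d hd => ⟨hd.1, KP_le n.le_succ hd.2⟩) (fun n => h.appr n hg) (hc 0).isCompact hc
  rw [Set.mem_iInter] at hd
  exact ⟨g * d⁻¹, Subgroup.mem_iInf.2 fun n => (hd n).2,
    by rw [mul_smul, show d⁻¹ • w = w from inv_mem (hd 0).1]⟩

theorem im_two (h : w.p = 2) : Im w 0 := by
  obtain ⟨σ, rfl⟩ := a_PL.2.1 w2 w h.symm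
  obtain ⟨γ, h1, -, h2⟩ := exists_gen
  exact ⟨KP_zero ▸ le_top, _, (conj_I σ h1).1, 1, by simp [la_conj, h2]⟩

/-- the valuation of the logarithm -/
noncomputable def vv (p : ℕ) : ℕ := (lg (un (p : ℤ_[2]))).valuation

theorem frob (h : w.p ≠ 2) : ∃ φ ∈ w.D, (cyc φ : ℤ_[2]) = w.p ∧ la φ = lg (un (w.p : ℤ_[2])) ∧
    la φ ≠ 0 ∧ ∀ k, φ ∈ KP k → w.D ≤ KP k := by
  obtain ⟨f, φ, -, -, hφ, hf, -, hd⟩ := a_FROB w w.D w.loc_D
  obtain rfl := hf rfl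
  have h1 := a_EC.2.2.2.2.2.1 w 1 φ h hφ
  rw [pow_one] at h1
  have h2 : ∀ k, φ ∈ KP k → w.D ≤ KP k := fun k hk g hg => by
    obtain ⟨m, i, hi, n, hn, rfl⟩ := hd _ (on_KP k) g hg
    exact mul_mem (mul_mem (pow_mem hk m) (KI_le k (I_le h hi.1))) hn.1
  refine ⟨φ, hφ.1, h1, ?_, fun e => ?_, h2⟩
  · rw [← h1, un, dif_pos (cyc φ).isUnit, IsUnit.unit_of_val_units, la]
  · obtain ⟨g, hg, h3⟩ := a_LG.2.2.2.2 w w.D w.loc_D
    exact h3 (mem_KI.1 (Subgroup.mem_iInf.2 fun k => h2 k (KI_le k (mem_KI.2 e)) hg))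

theorem im_odd (h : w.p ≠ 2) : Im w (vv w.p) := by
  obtain ⟨φ, h1, -, h2, h3, h4⟩ := frob h
  have h5 := PadicInt.unitCoeff_spec h3
  rw [vv, ← h2]
  exact ⟨h4 _ (mem_KP.2 (Dvd.intro_left _ h5.symm)), φ, h1, _, h5⟩

theorem vv_zero {p : ℕ} (h : p = 3 ∨ p = 5) : vv p = 0 := by
  obtain ⟨w, rfl⟩ := a_PL.1 p (by rcases h with rfl | rfl <;> norm_num)
  obtain ⟨φ, -, h1, h2, h3, -⟩ := frob (w := w) (by omega)
  rw [vv, ← h2]
  by_contra h0
  have h4 := Ideal.mem_span_singleton.1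
    ((PadicInt.mem_span_pow_iff_le_valuation _ h3 1).2 (Nat.one_le_iff_ne_zero.2 h0))
  have h5 := (a_LG.1.dvd 1 _).1 h4
  rw [h1] at h5
  have h6 : (2 ^ 3 : ℤ) ∣ (w.p : ℤ) - 1 ∨ (2 ^ 3 : ℤ) ∣ (w.p : ℤ) + 1 := by
    refine h5.imp (fun e => ?_) fun e => ?_
    · exact (PadicInt.pow_p_dvd_int_iff (p := 2) 3 ((w.p : ℤ) - 1)).1 (by exact_mod_cast e)
    · exact (PadicInt.pow_p_dvd_int_iff (p := 2) 3 ((w.p : ℤ) + 1)).1 (by exact_mod_cast e)
  omega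

theorem dvd30 (h : w.p ∣ 30) : w.p = 2 ∨ w.p = 3 ∨ w.p = 5 :=
  (w.prime.dvd_mul.1 (show w.p ∣ 2 * 15 from h)).imp
    (Nat.prime_dvd_prime_iff_eq w.prime Nat.prime_two).1 (TLAY.dvd15 w.prime)

theorem im_zero (h : w.p ∣ 30) : Im w 0 := by
  rcases dvd30 h with h | h
  · exact im_two h
  · exact vv_zero h ▸ im_odd (by omega)

theorem count (P : Finset ℕ) (k : ℕ → ℕ) (hp : ∀ p ∈ P, p.Prime ∧ k p ≤ n)
    (h : ∀ w : Pl, w.p ∈ P → Im w (k w.p)) :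
    nOrb (KP n) {w | w.p ∈ P} = ∑ p ∈ P, 2 ^ k p := by
  classical
  have hU := (on_KP n).2
  obtain ⟨R, h1, h2, h3, h4, h5⟩ := TLAY.orb a_CA hU P
  rw [← h5, ← h4, Finset.card_eq_sum_card_fiberwise (f := Pl.p) (t := P) h3]
  refine Finset.sum_congr rfl fun p hP => ?_
  obtain ⟨w₀, rfl⟩ := a_PL.1 p (hp p hP).1
  choose! s hs using fun w : Pl => a_PL.2.1 w w₀
  have h6 := ((a_ORB _ hU).2.2 w₀ (R.filter fun w => w.p = w₀.p) s
    (fun w hw u hu m => h1 w (Finset.mem_filter.1 hw).1 u hu (Finset.mem_filter.1 m).1)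
    (fun w => ⟨fun a e => (h2 w).1 (fun u hu m => a u hu (Finset.mem_filter.2 ⟨m, e⟩)) (e ▸ hP),
      fun a u _ m => a (Finset.mem_filter.1 m).2⟩)
    fun w hw => hs w (Finset.mem_filter.1 hw).2).1
  have h7 := congrArg (· * (KP (k w₀.p)).index) h6
  simp only [Finset.sum_mul] at h7
  rw [Finset.sum_congr rfl fun w hw => by
    have e := (Finset.mem_filter.1 hw).2
    rw [← e, (h w (e ▸ hP)).rel (e ▸ (hp _ hP).2)], Finset.sum_const, smul_eq_mul, index_KP,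
    index_KP, mul_comm] at h7
  exact Nat.eq_of_mul_eq_mul_left (Nat.two_pow_pos _) h7

end TLAYK

open TLAYK in
theorem t_LAYK : LAYK := by
  refine ⟨fun k => ?_, fun w w' h e => ?_, fun D k hk => ?_⟩
  · have h1 := count (n := k) {2} (fun _ => 0) (by simp [Nat.prime_two])
      fun w hw => im_two (Finset.mem_singleton.1 hw)
    obtain ⟨R, -, h2, -, -, h5⟩ := TLAY.orb a_CA (on_KP k).2 {2}
    exact ⟨by simpa using h1, R, R.finite_toSet, by simpa using h5.trans h1, by simpa using h2⟩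
  · obtain ⟨σ, rfl⟩ := a_PL.2.1 w' w e
    exact (im_zero (w := w') h).lim (KP_zero ▸ Subgroup.mem_top σ)
  have n0 : D.n ≠ 0 := by have := D.n4; omega
  have odd : ∀ p, p ∣ D.n → p ≠ 2 := fun p h e => by
    have := D.n4
    subst e
    omega
  have h35 : ∀ p ∈ ({3, 5} : Finset ℕ), p = 3 ∨ p = 5 := fun p hp => by simpa using hp
  refine ⟨?_, fun w hw => ?_⟩
  · have h1 := count (n := k) ({3, 5} ∪ D.n.primeFactors) vv (fun p hp => ?_) fun w hw => ?_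
    · rw [Finset.sum_union (Finset.disjoint_left.2 fun p hp h => ?_),
        Finset.sum_congr (g := fun _ => 1) rfl fun p hp => by rw [vv_zero (h35 p hp), pow_zero]]
        at h1
      · refine Eq.trans (congrArg _ (Set.ext fun w => ?_)) h1
        simp only [Set.mem_ofPred_eq, w.prime.dvd_mul, Finset.mem_union, Nat.mem_primeFactors]
        refine or_congr ⟨fun h => by simpa using TLAY.dvd15 w.prime h, fun h => ?_⟩
          ⟨fun h => ⟨w.prime, h, n0⟩, fun h => h.2.1⟩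
        rcases h35 _ h with h | h <;> rw [h] <;> norm_num
      · have h2 := Nat.eq_one_of_dvd_coprimes D.cop (Nat.dvd_of_mem_primeFactors h)
        rcases h35 p hp with rfl | rfl <;> simp at h2
    · rcases Finset.mem_union.1 hp with h | h
      · rw [vv_zero (h35 p h)]
        rcases h35 p h with rfl | rfl <;> norm_num
      · exact ⟨Nat.prime_of_mem_primeFactors h, hk p h⟩
    · rcases Finset.mem_union.1 hw with h | h
      · exact im_odd (by have := h35 _ h; omega)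
      · exact im_odd (odd _ (Nat.dvd_of_mem_primeFactors h))
  · obtain ⟨v, h1, h2⟩ : ∃ v ≤ k, Im w v := by
      rcases w.prime.dvd_mul.1 hw with h | h
      · exact ⟨0, k.zero_le, im_zero h⟩
      · exact ⟨_, hk _ (Nat.mem_primeFactors.2 ⟨w.prime, h, n0⟩), im_odd (odd _ h)⟩
    exact ⟨h2.not_le h1, fun u hu => h2.lim (KP_le h1 hu)⟩

end Pool.Agent.P.MP_9c97e9_nt.KT
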