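import Pool.Agent.P.MP_9c97e9_nt.KT.BasL

/-! Ordinary cocycles at two modulo the Kummer image form a cyclic group. -/

namespace Pool.Agent.P.MP_9c97e9_nt.KT

open scoped NNReal Matrix
open MP_8b7eba_nt.R2
open Filter Topology Polynomial

namespace TLO3

variable {D : Dat}

/-- characters which give coboundaries in the first line -/
def Gd (D : Dat) (χ : GQ → ZMod 2) : Prop := ∃ P, ∀ g ∈ w2.D, D.cb P g = s2 (χ g) 0

theorem s2_smul (k a b : ZMod 2) : s2 (k * a) (k * b) = k.val • s2 a b := by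
  rcases LA.cases k with rfl | rfl
  · simp [s2_zero]
  · rw [LC.v1]; simp

theorem Gd.comb {χ ψ φ : GQ → ZMod 2} (h : Gd D χ) (h' : Gd D ψ) (a b : ZMod 2)
    (e : ∀ g ∈ w2.D, φ g = a * χ g + b * ψ g) : Gd D φ := by
  obtain ⟨P, hP⟩ := h
  obtain ⟨Q, hQ⟩ := h'
  refine ⟨a.val • P + b.val • Q, fun g hg => ?_⟩
  rw [D.cb_add, D.cb_nsmul, D.cb_nsmul, hP g hg, hQ g hg, ← s2_smul, ← s2_smul, ← s2_add, e g hg]
  simp

theorem gd_n (D : Dat) : Gd D (qz D.n) :=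
  ⟨_, fun g _ => by simpa using D.cb_four 1 0 g⟩

theorem gd_neg (hLK5 : LK5) (D : Dat) : Gd D (qz (-1)) := by
  have h4 := D.n4
  have h0 : (D.n : ℤ) ≠ 0 := by have := D.n_pos; omega
  have k : ∀ x y : ZMod 2, x + y = 0 → x = y := by decide
  by_cases h : D.n % 8 = 7
  · refine (gd_n D).comb (hLK5 D) 1 0 fun g hg => ?_
    have := qz_D_two (w := w2) (m := -1 * D.n) a_CA rfl (by omega) hg
    rw [qz_mul (by norm_num) h0] at this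
    simpa using k _ _ this
  · refine (gd_n D).comb (hLK5 D) 1 1 fun g hg => ?_
    have := qz_D_two (w := w2) (m := -1 * (D.n * 5)) a_CA rfl (by omega) hg
    rw [qz_mul (by norm_num) (by omega), qz_mul h0 (by norm_num)] at this
    simpa using k _ _ this

theorem gd_ch (hLQ2 : LQ2) (hLK5 : LK5) (D : Dat) {χ : GQ → ZMod 2} (h : IsCh w2.D χ) :
    ∃ b : ZMod 2, ∃ P, ∀ g ∈ w2.D, s2 (χ g) 0 = D.cb P g + s2 (b * qz 2 g) 0 := by
  obtain ⟨a, b, c, e⟩ := hLQ2 w2 χ rfl h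
  obtain ⟨P, hP⟩ := (gd_neg hLK5 D).comb (hLK5 D) a c
    (φ := fun g => a * qz (-1) g + c * qz 5 g) fun _ _ => rfl
  refine ⟨b, P, fun g hg => ?_⟩
  rw [hP g hg, ← s2_add, e g hg]
  congr 1
  ring

theorem nu_norm (D : Dat) : (D.nu : ℚ_[2]) ≠ 0 ∧ ‖((2 * D.nu : ℚ_[2]))⁻¹‖ = 2 * D.nu := by
  have h2 : ‖(2 : ℚ_[2])‖ = 2⁻¹ := by simpa using Padic.norm_p (p := 2)
  unfold Dat.nu
  split_ifs
  · refine ⟨by norm_num, ?_⟩
    rw [show (2 * ((4 : ℕ) : ℚ_[2])) = 2 ^ 3 by norm_num, norm_inv, norm_pow, h2]; norm_num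
  · refine ⟨by norm_num, ?_⟩
    rw [show (2 * ((2 : ℕ) : ℚ_[2])) = 2 ^ 2 by norm_num, norm_inv, norm_pow, h2]; norm_num

/-- the coboundary of a point in the second line -/
theorem ex_v (hLS2 : LS2) (D : Dat) : ∃ (v : EO) (a b : GQ → ZMod 2), IsCh w2.D a ∧ IsCh w2.D b ∧
    b D.f2 = 1 ∧ ∀ g ∈ w2.D, D.cb v g = s2 (a g) (b g) := by
  obtain ⟨n0, nn⟩ := nu_norm D
  set y : ℚ_[2] := (2 * D.nu)⁻¹ with hy
  have h2 : 2 • pF y = pF (D.nu : ℚ_[2])⁻¹ := by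
    rw [← map_nsmul, hy, nsmul_eq_mul]; congr 1; push_cast; field_simp
  obtain ⟨a, b, ha, hb, e⟩ := ZH_two (rs_cb_B (D := D) (H := w2.D) (tp_pF y)).1 fun g hg => by
    rw [rs_of_mem hg, ← D.cb_nsmul, h2, Dat.cb, (hLS2 D g hg).2.2.2.2.2.2.2, sub_self]
  have e' : ∀ g ∈ w2.D, D.cb (pF y) g = s2 (a g) (b g) := fun g hg => by
    rw [← e g hg, rs_of_mem hg]
  refine ⟨pF y, a, b, ha, hb, (LA.cases _).resolve_left fun h0 => ?_, e'⟩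
  obtain ⟨-, q1, -, -, q2, -, q3, -⟩ := hLS2 D D.f2 D.fr.1
  have m := (s2_mem (a := a D.f2)).2 h0
  rw [← e' _ D.fr.1, Dat.cb, q1, show pF (D.rd D.f2 1 1 * y) + pE (D.rd D.f2 0 1 * y) - pF y =
    pE (D.rd D.f2 0 1 * y) + pF (D.rd D.f2 1 1 * y - y) by rw [map_sub]; abel, pEF_mem] at m
  rw [q3, LC.v1, Nat.cast_one, mul_one] at q2
  have m2 : ‖-((D.rd D.f2 1 1 - (1 + D.nu)) * y)‖ ≤ 1 := by
    rw [norm_neg, norm_mul, nn]
    have : (0 : ℝ) < 2 * D.nu := by rw [← nn]; exact norm_pos_iff.2 (by simp [hy, n0])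
    exact (mul_le_mul_of_nonneg_right q2 this.le).trans (by rw [inv_mul_cancel₀ this.ne'])
  have m3 := (Padic.nonarchimedean _ _).trans (max_le m m2)
  rw [show D.rd D.f2 1 1 * y - y + -((D.rd D.f2 1 1 - (1 + D.nu)) * y) = 1 / 2 by
    rw [hy]; field_simp; ring, LC.half] at m3
  norm_num at m3

/-- the half of a coboundary -/
theorem half {c : GQ → EO} (hc : c ∈ D.LH w2.D) :
    ∃ P, rs w2.D (D.cb P) ∈ D.LH w2.D ∧ c = 2 • rs w2.D (D.cb P) := by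
  obtain ⟨h, P, hP⟩ := hc
  obtain ⟨Q, rfl⟩ := exists_two P
  obtain ⟨i, hi⟩ := h.2.2.2
  have m : rs w2.D (D.cb Q) ∈ D.LH w2.D := rs_cb_L ⟨i + 1, fun g hg => by
    rw [pow_succ, mul_smul, ← D.cb_nsmul 2, ← hP g hg, hi]⟩
  exact ⟨Q, m, ZH_ext h (nsmul_mem m.1 2) fun g hg => by
    rw [Pi.smul_apply, rs_of_mem hg, hP g hg, D.cb_nsmul]⟩

theorem two_tors (hLS2 : LS2) (hLQ2 : LQ2) (hLK5 : LK5) {x : GQ → EO} (hx : x ∈ D.ZE w2.I)
    (h2 : 2 • x ∈ D.LH w2.D) :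
    ∃ b : ZMod 2, ∃ P, ∀ g ∈ w2.D, x g = D.cb P g + s2 (b * qz 2 g) 0 := by
  obtain ⟨P, m, e⟩ := half h2
  obtain ⟨a, b, ha, hb, q⟩ := ZH_two (sub_mem hx.1 m.1) fun g _ => by
    rw [← Pi.smul_apply, smul_sub, ← e, sub_self, Pi.zero_apply]
  have q' : ∀ g ∈ w2.D, x g - D.cb P g = s2 (a g) (b g) := fun g hg => by
    rw [← q g hg, Pi.sub_apply, rs_of_mem hg]
  obtain ⟨v, a', b', ha', hb', f, r⟩ := ex_v hLS2 D
  have ch : ∀ {a a' : GQ → ZMod 2}, IsCh w2.D a → IsCh w2.D a' →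
      IsCh w2.D fun g => a g + b D.f2 * a' g := fun h h' =>
    ⟨h.1.comp₂ h'.1 fun s t => s + b D.f2 * t, fun g hg k hk => by
      simp only [h.2 g hg k hk, h'.2 g hg k hk]; ring⟩
  have z := ch_unr a_FROB (ch hb hb') (fun g hg => by
    have h1 : b g = 0 := s2_mem.1 (q' g hg.1 ▸ sub_mem (hx.2 g hg) (D.cb_EG2 hg P))
    have h3 : b' g = 0 := s2_mem.1 (r g hg.1 ▸ D.cb_EG2 hg v)
    simp [h1, h3]) D.fr (by simp only [f, mul_one, CharTwo.add_self_eq_zero])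
  obtain ⟨β, Q, hQ⟩ := gd_ch hLQ2 hLK5 D (ch ha ha')
  refine ⟨β, P + Q + (b D.f2).val • v, fun g hg => ?_⟩
  have k : ∀ x y : ZMod 2, x + y = 0 → x = y := by decide
  have k' : ∀ x y : ZMod 2, x = x + y + y := by decide
  have := q' g hg
  rw [k _ _ (z g hg), k' (a g) (b D.f2 * a' g), ← zero_add (b D.f2 * b' g), s2_add, hQ g hg,
    s2_smul, ← r g hg, ← D.cb_nsmul] at this
  rw [D.cb_add, D.cb_add, sub_eq_iff_eq_add.1 this]
  abel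

end TLO3

open TLO3 in
theorem t_LO3 (hLCY : LCY) (hLS2 : LS2) (hLQ2 : LQ2) (hLO1 : LO1) (hLK5 : LK5) (hLYY : LYY) :
    LO3 := by
  intro D
  obtain ⟨y, hy, y2, yn⟩ := hLYY D
  obtain ⟨o1, o2, o3⟩ := hLO1 D
  have hs : rs w2.D (fun g => s2 (qz 2 g) 0) ∈ D.ZH w2.D :=
    rs_s2 (b := fun _ => 0) (isCh_qz 2) ⟨Sm.const 0, by simp⟩
  obtain ⟨j, j1, j2⟩ : ∃ j : ℕ, D.nu = 2 ^ (j + 1) ∧ D.nu / 2 = 2 ^ j := by
    unfold Dat.nu
    split_ifs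
    exacts [⟨1, rfl, rfl⟩, ⟨0, rfl, rfl⟩]
  rw [j1]
  refine (hLCY _ _ _).2 (rs w2.D fun g => s2 (qz 2 g) 0) y j o2 (fun x hx => ?_)
    ⟨hy.1, fun g _ => hy.2 g trivial⟩ (fun x hx h2 => ?_) (fun x hx h => ?_) ?_ ?_
  · obtain ⟨i, hi⟩ := hx.1.2.2.2
    exact ⟨i, by rw [show 2 ^ i • x = 0 from funext hi]; exact zero_mem _⟩
  · obtain ⟨b, P, e⟩ := two_tors hLS2 hLQ2 hLK5 hx h2
    rcases LA.cases b with rfl | rfl
    · exact Or.inl ⟨hx.1, P, fun g hg => by simpa [s2_zero] using e g hg⟩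
    · exact Or.inr ⟨sub_mem hx.1 hs, P, fun g hg => by
        rw [Pi.sub_apply, rs_of_mem hg, e g hg, one_mul, add_sub_cancel_right]⟩
  · obtain ⟨P, m, e⟩ := half h
    obtain ⟨z, hz, hb⟩ := o1 _ (add_mem hx (o2 m))
    have e' : y - 2 • z = 2 • (x + rs w2.D (D.cb P) - z) := by
      rw [smul_sub, smul_add, ← e]; abel
    obtain ⟨z', hz', q⟩ := o3 _ (sub_mem hy (nsmul_mem hz 2)) (e' ▸ nsmul_mem hb 2)
    exact yn _ (add_mem hz hz') (by rw [smul_add, ← q]; abel)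
  · rw [ZH_ext (nsmul_mem hy.1 (2 ^ j)) hs fun g hg => by
      rw [Pi.smul_apply, rs_of_mem hg, ← j2, y2 g hg], sub_self]
    exact zero_mem _
  · rw [ZH_ext (nsmul_mem hs 2) (zero_mem _) fun g hg => by
      rw [Pi.smul_apply, rs_of_mem hg, two_s2, Pi.zero_apply]]
    exact zero_mem _

end Pool.Agent.P.MP_9c97e9_nt.KT
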