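import Pool.Agent.P.MP_9c97e9_nt.KT.BasL

/-! A local point at two whose Kummer class is the character of five. -/

namespace Pool.Agent.P.MP_9c97e9_nt.KT

open MP_8b7eba_nt.R2

namespace TLK5

theorem uu_tac {δ : Om} (g : GQ) (Q : EO) {a b c : Om} (ha : g a = a) (hb : g b = b)
    (hc : g c = c) : UU a b c (tac δ g Q) = sd δ g * g (UU a b c Q) := by
  have h1 : UU a b c (ac g Q) = g (UU a b c Q) := by
    have := UU_map (e₁ := a) (e₂ := b) (e₃ := c) (g : Om →+* Om) Q
    simpa [ha, hb, hc, ac] using this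
  rw [tac_apply, ← h1]
  rcases sd_cases δ g with e | e <;> rw [e]
  · simp
  rcases zero_or_is (ac g Q) with h | ⟨x, η, h⟩
  · rw [h]; simp; rfl
  · rw [neg_one_zsmul, h.neg.UU_eq, h.UU_eq]; simp [div_neg]

theorem act (D : Dat) (g : GQ) {P T : EO} {a b c : Om} (s : Split W15 a b c) (ha : g a = a)
    (hb : g b = b) (hc : g c = c) (hT : T + T = 0) (hP : P + P ≠ 0)
    (e : tac D.dl g P = P + T) :
    g (2 * D.dl * UU a b c P) = sg a T * (2 * D.dl * UU a b c P) := by
  have h := uu_tac (δ := D.dl) g P ha hb hc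
  rw [e, UU_add s hT hP] at h
  rw [map_mul, map_mul, map_ofNat, sd_apply D.dl_fix g]
  linear_combination -2 * D.dl * h

end TLK5

open TLK5 in
theorem t_LK5 : LK5 := by
  intro D
  have n4 := D.n4
  have n0 : (D.n : Om) ≠ 0 := Nat.cast_ne_zero.2 D.n_pos.ne'
  have hd := D.hdl
  have d0 : D.dl ≠ 0 := fun e => n0 (by rw [e] at hd; linear_combination hd)
  have sq := (a_SQ2 w2).2.2.2.2.1 rfl
  obtain ⟨y, hy, ey⟩ := (sq (5 - 36 * D.n) (Int.odd_iff.2 (by omega))).1.2 (by omega)
  obtain ⟨z, hz, ez⟩ := (sq (25 + 320 * D.n) (Int.odd_iff.2 (by omega))).1.2 (by omega)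
  push_cast at ey ez
  obtain ⟨R, h⟩ := split15.exists_is (x := 5 / (4 * D.dl ^ 2)) (η := y * z / (4 * D.dl ^ 3)) (by
    rw [div_pow, mul_pow, ← ey, ← ez, show (D.n : Om) = -D.dl ^ 2 by rw [hd, neg_neg]]
    field_simp
    ring)
  have fR : ∀ g ∈ w2.D, tac D.dl g R = R := fun g hg => by
    have h1 := is_ac g h
    simp only [map_div₀, map_mul, map_pow, map_ofNat, hy g hg, hz g hg,
      sd_apply D.dl_fix g] at h1
    rw [tac_apply]
    rcases sd_cases D.dl g with e | e <;> rw [e] at h1 ⊢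
    · exact Is.unique split15 (by simpa using h1) h
    · refine Is.unique split15 ?_ h
      have h2 := h1.neg
      rw [neg_one_zsmul]
      convert h2 using 1
      · push_cast; ring
      · push_cast; ring
  obtain ⟨P, rfl⟩ := exists_half split15 R
  refine ⟨P, fun g hg => ?_⟩
  have hT : D.cb P g + D.cb P g = 0 := by
    rw [← D.cb_add, Dat.cb, fR g hg, sub_self]
  have e : tac D.dl g P = P + D.cb P g := by rw [Dat.cb]; abel
  have u0 := UU_sq split15 h
  have u9 := UU_sq split15.swap h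
  have a0 := act D g split15 (map_zero g) (by simp [map_ofNat]) (map_ofNat g 16) hT h.ne_zero e
  have a9 := act D g split15.swap (by simp [map_ofNat]) (map_zero g) (map_ofNat g 16) hT h.ne_zero e
  generalize UU (0 : Om) (-9) 16 P = U at u0 a0
  generalize UU (-9 : Om) 0 16 P = V at u9 a9
  have b0 : (2 * D.dl * U) ^ 2 = ((5 : ℤ) : Om) := by
    rw [mul_pow, ← u0]; push_cast; field_simp; ring
  have b9 : (2 * D.dl * V) ^ 2 = y ^ 2 := by
    rw [mul_pow, ← u9, ← ey, show (D.n : Om) = -D.dl ^ 2 by rw [hd, neg_neg]]; field_simp; ring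
  have y0 : y ≠ 0 := fun e0 => Int.cast_ne_zero (α := Om).2
    (show (5 - 36 * D.n : ℤ) ≠ 0 by omega) (by push_cast; rw [ey, e0]; ring)
  have c9 : sg (-9 : Om) (D.cb P g) = 1 := by
    have k : g (2 * D.dl * V) = 2 * D.dl * V := by
      rcases sq_eq_sq_iff_eq_or_eq_neg.1 b9 with e1 | e1 <;> rw [e1]
      · exact hy g hg
      · rw [map_neg, hy g hg]
    have v0 : 2 * D.dl * V ≠ 0 := fun e0 => y0 (by
      rw [e0] at b9; exact pow_eq_zero_iff two_ne_zero |>.1 (by rw [← b9]; ring))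
    rw [k] at a9
    have := mul_right_cancel₀ v0 (a9.symm.trans (one_mul _).symm)
    exact_mod_cast this
  have u5 : 2 * D.dl * U ≠ 0 := LA.ne b0 (by norm_num)
  by_cases k : D.cb P g = 0
  · rw [k, sg_zero] at a0
    rw [k, (qz_eq_zero b0).2 (by simpa using a0), s2_zero]
  · have k9 : Is (D.cb P g) (-9) 0 := by_contra fun e1 => by simp [sg, k, e1] at c9
    rw [k9.sg_ne (e₂ := 0) (by norm_num)] at a0
    rw [(qz_eq_one b0).2 (fun e1 => u5 (by
      rw [e1] at a0; push_cast at a0; linear_combination a0 / 2))]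
    refine k9.unique split15 ?_
    simpa [s2, LC.v1, pE_eq] using T2.t0

end Pool.Agent.P.MP_9c97e9_nt.KT
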