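import Pool.Agent.P.MP_9c97e9_nt.KT.IfK

/-! Norms from the complex points lie in the connected component. -/

namespace Pool.Agent.P.MP_9c97e9_nt.KT

open scoped NNReal Matrix
open MP_8b7eba_nt.R2
open Filter Topology Polynomial

namespace TRE

theorem core {e : Om} (he : e = 0 ∨ e = -9) {T Q : EO} (hT : Is T e 0) (h : ac tau Q + Q = T) :
    False := by
  rcases zero_or_is Q with rfl | ⟨x, η, hQ⟩
  · rw [map_zero, add_zero] at h
    exact hT.ne_zero h.symm
  have h1 := hQ.eq split15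
  have hte : tau e = e := by rcases he with rfl | rfl <;> simp [map_ofNat]
  by_cases hx : e = x
  · subst hx
    have h2 : η = 0 := by
      refine pow_eq_zero_iff two_ne_zero |>.1 ?_
      rw [h1]
      rcases he with rfl | rfl <;> ring
    subst h2
    rw [hQ.unique split15 hT, add_eq_right] at h
    exact (is_ac tau hT).ne_zero h
  have hx' : e - x ≠ 0 := sub_ne_zero.2 hx
  obtain ⟨m, hm⟩ : ∃ m, m * (e - x) = η := ⟨η / (e - x), div_mul_cancel₀ _ hx'⟩
  have h2 := hT.add_ne split15 hQ.neg hx (m := m) (x₃ := m ^ 2 / 4 + 7 - e - x)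
    (by rw [hm]; ring) (by ring)
  rw [← sub_eq_add_neg, ← eq_sub_of_add_eq h] at h2
  obtain ⟨h3, h4⟩ := (is_ac tau hQ).inj h2
  rw [← h3, ← hm, map_mul, map_sub, hte] at h4
  have h5 : tau m = m := by
    have : e - tau x ≠ 0 := by
      rw [← hte, ← map_sub]
      exact (_root_.map_ne_zero _).2 hx'
    exact mul_right_cancel₀ this (by rw [h4]; ring)
  have hc := a_TAU.1
  have k1 := hc m
  rw [h5] at k1
  have k2 : (io m).im = 0 := Complex.conj_eq_iff_im.1 k1.symm
  rcases he with rfl | rfl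
  · have h6 : x * tau x = -144 :=
      mul_right_cancel₀ hx' (by rw [h3]; linear_combination (-1 / 4 : Om) * (m * (0 - x) + η) * hm
        - (1 / 4 : Om) * h1)
    have h7 := congrArg (fun z => (io z).re) h6
    simp only [map_mul, hc, map_neg, map_ofNat, Complex.mul_re, Complex.conj_re, Complex.conj_im,
      Complex.neg_re, Complex.re_ofNat] at h7
    nlinarith [sq_nonneg (io x).re, sq_nonneg (io x).im]
  · have h6 : (x + 9) * (tau x + 9) = 225 :=
      mul_right_cancel₀ hx' (by rw [h3]; linear_combination (-1 / 4 : Om) * (m * (-9 - x) + η) * hm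
        - (1 / 4 : Om) * h1)
    have h7 := congrArg (fun z => (io z).re) h6
    have h8 := congrArg (fun z => (io z).re) (show m * m = 4 * (x + tau x) - 64 by
      rw [h3]; ring)
    simp only [map_mul, map_add, map_sub, hc, map_ofNat, Complex.mul_re, Complex.conj_re,
      Complex.conj_im, Complex.add_re, Complex.add_im, Complex.sub_re, Complex.re_ofNat,
      Complex.im_ofNat, k2] at h7 h8
    nlinarith [sq_nonneg (io m).re, sq_nonneg (io x).im]

theorem half (a : ℚ_[2]) (h : ‖a‖ ≤ 2) : ‖a‖ ≤ 1 ∨ ‖a - 2⁻¹‖ ≤ 1 := by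
  have h2 : ‖(2 : ℚ_[2])‖ = 2⁻¹ := by simpa using Padic.norm_p (p := 2)
  have h1 : ‖2 * a‖ ≤ 1 := by rw [norm_mul, h2]; linarith
  obtain ⟨n, hn, h3⟩ := PadicInt.exists_mem_range (⟨2 * a, h1⟩ : ℤ_[2])
  rw [PadicInt.maximalIdeal_eq_span_p, Ideal.mem_span_singleton] at h3
  obtain ⟨c, hc⟩ := h3
  have h4 : 2 * a - n = 2 * (c : ℚ_[2]) := by
    have := congrArg (fun z : ℤ_[2] => (z : ℚ_[2])) hc
    simp only [PadicInt.coe_mul, PadicInt.coe_natCast] at this
    exact_mod_cast this
  interval_cases n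
  · exact .inl (by rw [show a = c by linear_combination (2⁻¹ : ℚ_[2]) * h4]; exact c.2)
  · exact .inr (by rw [show a - 2⁻¹ = c by linear_combination (2⁻¹ : ℚ_[2]) * h4]; exact c.2)

end TRE

theorem t_RE : RE := by
  intro D s P v hv h
  by_contra h0
  have g0 := (TRE.half _ ((norm_le_pi_norm v 0).trans hv)).resolve_left h0
  obtain ⟨e, he, hT⟩ : ∃ e : Om, (e = 0 ∨ e = -9) ∧ Is (T2.pt v) e 0 := by
    rcases TRE.half _ ((norm_le_pi_norm v 1).trans hv) with g1 | g1
    · have : T2.pt (v - ![2⁻¹, 0]) = 0 :=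
        (T2.ker _).2 ((pi_norm_le_iff_of_nonneg zero_le_one).2 fun i => by
          fin_cases i <;> simpa)
      rw [map_sub, sub_eq_zero] at this
      exact ⟨-9, .inr rfl, this ▸ T2.t0⟩
    · have : T2.pt (v - (![2⁻¹, 0] + ![0, 2⁻¹])) = 0 :=
        (T2.ker _).2 ((pi_norm_le_iff_of_nonneg zero_le_one).2 fun i => by
          fin_cases i <;> simpa)
      rw [map_sub, sub_eq_zero, map_add] at this
      refine ⟨0, .inl rfl, this ▸ ?_⟩
      simpa using T2.t0.add_ne split15 T2.t1 (by norm_num) (m := 0) (x₃ := 0) (by ring) (by ring)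
  have hn : (0 : ℤ) < D.n := by have := D.n4; omega
  have hs : sd D.dl (ts s) = -1 := by
    rw [sd_eq_qz (m := -D.n) (by rw [D.hdl]; simp), ts, qz_conj]
    have h1 : qz (-D.n) tau ≠ 0 := fun k => by
      have := (qz_tau a_TAU (by omega)).1 k
      omega
    generalize qz (-D.n) tau = c at h1
    revert c
    decide
  refine TRE.core he hT (Q := -ac s⁻¹ P) ?_
  rw [← ac_two s⁻¹ (P := T2.pt v) (by
    rw [two_nsmul]; exact hT.add_eq_zero split15 (by simpa using hT)), h, tac_apply, hs, map_sub,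
    map_zsmul, ← ac_mul, map_neg, ← ac_mul, show s⁻¹ * ts s = tau * s⁻¹ by unfold ts; group]
  simp [sub_eq_add_neg]

end Pool.Agent.P.MP_9c97e9_nt.KT
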