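import Pool.Agent.P.MP_9c97e9_nt.KT.BasL

/-! Proof of LYY. -/

namespace Pool.Agent.P.MP_9c97e9_nt.KT

open MP_8b7eba_nt.R2

namespace TLYY

theorem ec_ne (a : ℚ_[2]) : ec a ≠ 0 := fun h => by
  have := a_EC.1.add a (-a)
  rw [add_neg_cancel, h, zero_mul, (a_EC.1.eq_one 0).2 (by simp)] at this
  exact one_ne_zero this

theorem ec_inj {a b : ℚ_[2]} (h : ec a = ec b) : ‖a - b‖ ≤ 1 := by
  have := a_EC.1.add (a - b) b
  rw [sub_add_cancel, h] at this
  exact (a_EC.1.eq_one _).1 (mul_right_cancel₀ (ec_ne b) (by rw [← this, one_mul]))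

theorem ec_pow (a : ℚ_[2]) (m : ℕ) : ec (m * a) = ec a ^ m := by
  induction m with
  | zero => simpa using (a_EC.1.eq_one 0).2 (by simp)
  | succ m ih => rw [Nat.cast_succ, add_mul, one_mul, a_EC.1.add, ih, pow_succ]

theorem mul_le {a b : ℚ_[2]} {s t : ℝ} (ha : ‖a‖ ≤ s) (hb : ‖b‖ ≤ t) : ‖a * b‖ ≤ s * t :=
  (norm_mul _ _).trans_le (mul_le_mul ha hb (norm_nonneg _) ((norm_nonneg _).trans ha))

theorem val_mul (a b : ZMod 2) : ((a * b).val : ℚ_[2]) = a.val * b.val := by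
  rcases LA.cases a with rfl | rfl <;> simp [LC.v1]

/-- the Kummer cocycle of a root of two -/
theorem kum (j : ℕ) : ∃ x : GQ → ℚ_[2], Sm w2.D x ∧ (∀ g, ‖x g‖ ≤ 2 ^ (j + 1)) ∧
    (∀ g h, ‖x (g * h) - x g - cq g * x h‖ ≤ 1) ∧
    ∀ g, ‖2 ^ j * x g - (qz 2 g).val / 2‖ ≤ 1 := by
  obtain ⟨b, hb⟩ := exists_root (2 : Om) (n := 2 ^ (j + 1)) (by positivity)
  have b0 : b ≠ 0 := fun e => by simp [e] at hb
  have : ∀ c : Om, ∃ x : ℚ_[2], c ^ 2 ^ (j + 1) = 2 → ‖x‖ ≤ 2 ^ (j + 1) ∧ c = ec x * b := by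
    intro c
    by_cases hc : c ^ 2 ^ (j + 1) = 2
    · obtain ⟨m, hm⟩ := a_EC.1.surj (j + 1) (c / b) (by rw [div_pow, hc, hb]; norm_num)
      refine ⟨m / 2 ^ (j + 1), fun _ => ⟨?_, by rw [← hm, div_mul_cancel₀ _ b0]⟩⟩
      rw [norm_div, norm_pow, SelA.two, inv_pow, div_inv_eq_mul]
      exact mul_le_of_le_one_left (by positivity) (Padic.norm_int_le_one m)
    · exact ⟨0, fun e => absurd e hc⟩
  choose X hX using this
  have h1 : ∀ g : GQ, ‖X (g b)‖ ≤ 2 ^ (j + 1) ∧ g b = ec (X (g b)) * b := fun g =>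
    hX _ (by rw [← map_pow, hb, map_ofNat])
  refine ⟨fun g => X (g b), (sm_apply b).comp X, fun g => (h1 g).1, fun g h => ?_, fun g => ?_⟩
  · rw [sub_sub]
    refine ec_inj (mul_right_cancel₀ b0 ?_)
    rw [← (h1 _).2, a_EC.1.add, mul_right_comm, ← (h1 _).2, cq, ← a_EC.1.gal, ← map_mul,
      mul_comm b, ← (h1 _).2]
    rfl
  · obtain ⟨s, hs⟩ := LC.ex (a := 2 ^ (j + 1) * X (g b)) (by
      rw [norm_mul, norm_pow, SelA.two, inv_pow, inv_mul_le_iff₀ (by positivity), mul_one]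
      exact (h1 g).1)
    have h2 := ec_half a_EC hs
    rw [show 2 ^ (j + 1) * X (g b) / 2 = ((2 ^ j : ℕ) : ℚ_[2]) * X (g b) by push_cast; ring,
      ec_pow] at h2
    have h3 : g (b ^ 2 ^ j) = (-1) ^ s.val * b ^ 2 ^ j := by
      rw [map_pow, (h1 g).2, mul_pow, h2]
    have h4 : (b ^ 2 ^ j) ^ 2 = ((2 : ℤ) : Om) := by rw [← pow_mul, ← pow_succ, hb]; simp
    have h5 : qz 2 g = s := by
      rcases LA.cases s with rfl | rfl
      · exact (qz_eq_zero h4).2 (by simpa using h3)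
      · refine (qz_eq_one h4).2 fun e => pow_ne_zero (2 ^ j) b0 ?_
        rw [e, LC.v1] at h3
        linear_combination h3 / 2
    rw [h5, show 2 ^ j * X (g b) - s.val / 2 = (2 ^ (j + 1) * X (g b) - s.val) / 2 by ring, LC.half]
    linarith

end TLYY

open TLYY in
theorem t_LYY (hLS2 : LS2) : LYY := by
  intro D
  obtain ⟨j, hj⟩ : ∃ j, D.nu = 2 ^ (j + 1) := by
    unfold Dat.nu
    split_ifs
    exacts [⟨1, rfl⟩, ⟨0, rfl⟩]
  obtain ⟨x, x1, x2, x3, x4⟩ := kum (j + 1)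
  have n2 : ∀ i : ℕ, ‖(2 : ℚ_[2]) ^ i‖ ≤ (2 ^ i)⁻¹ := fun i => by rw [norm_pow, SelA.two, inv_pow]
  have a1 : ∀ g, ‖D.rd g 0 0‖ ≤ 1 := fun g => SelA.rd_le T2 _ g 0 0
  have key : ∀ g ∈ w2.D, ∀ h, ‖x g + D.rd g 0 0 * x h - x (g * h) -
      (qz 5 g * qz 2 h).val / 2‖ ≤ 1 := by
    intro g hg h
    obtain ⟨-, -, e1, -, e2, -⟩ := hLS2 D g hg
    rw [hj] at e2
    push_cast at e2
    have e3 : ‖(D.rd g 0 0 + 1) / 2‖ ≤ 1 := by
      obtain ⟨s, hs⟩ := LC.ex (a1 g)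
      rcases LA.cases s with rfl | rfl
      · have h1 := mul_le hs (SelA.rd_le T2 D.dl g 1 1)
        have h2 : ‖cq g‖ = 1 := PadicInt.norm_units (cyc g)
        rw [ZMod.val_zero, Nat.cast_zero, sub_zero] at h1
        exact absurd (h2.symm.trans_le (e1 ▸ h1)) (by norm_num)
      · rw [LC.v1, Nat.cast_one] at hs
        rw [show (D.rd g 0 0 + 1) / 2 = (D.rd g 0 0 - 1) / 2 + 1 by ring]
        exact SelA.add (by rw [LC.half]; linarith) norm_one.le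
    have q1 : ∀ s : ZMod 2, ‖(s.val : ℚ_[2])‖ ≤ 1 := fun s =>
      IsUltrametricDist.norm_natCast_le_one _ _
    have k1 := mul_le (mul_le (a1 g) e2) (x2 h)
    have k2 := mul_le (mul_le (a1 g) (q1 (qz 5 g))) (x4 h)
    have k3 := mul_le (mul_le e3 (q1 (qz 5 g))) (q1 (qz 2 h))
    rw [one_mul, ← pow_succ', inv_mul_cancel₀ (by positivity)] at k1
    simp only [mul_one] at k2 k3
    have k4 := SelA.add (SelA.add (x3 g h) k1) (SelA.add k2 k3)
    rw [← norm_neg, val_mul]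
    refine le_of_eq_of_le (congrArg _ ?_) k4
    rw [← e1]
    ring
  refine ⟨rs w2.D fun g => pE (2 * x g), ⟨rs_mem (x1.comp fun a => pE (2 * a))
    (fun g hg h _ => ?_) ⟨j + 1, fun g _ => ?_⟩, fun g _ => ?_⟩, fun g hg => ?_, fun z hz e => ?_⟩
  · rw [(hLS2 D g hg).1, ← map_add]
    refine pE_congr ?_
    rw [← norm_neg, show -(2 * x (g * h) - (2 * x g + D.rd g 0 0 * (2 * x h))) =
      2 * (x g + D.rd g 0 0 * x h - x (g * h) - (qz 5 g * qz 2 h).val / 2) +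
        (qz 5 g * qz 2 h).val by ring]
    refine SelA.add ((mul_le SelA.two.le (key g hg h)).trans (by norm_num))
      (IsUltrametricDist.norm_natCast_le_one _ _)
  · rw [← map_nsmul, pE_eq_zero, nsmul_eq_mul, ← mul_assoc, Nat.cast_pow, Nat.cast_ofNat,
      ← pow_succ]
    exact (mul_le (n2 _) (x2 g)).trans (inv_mul_cancel₀ (by positivity)).le
  · by_cases hg : g ∈ w2.D
    · rw [rs_of_mem hg]; exact pE_mem _
    · rw [rs_of_not hg]; exact zero_mem _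
  · rw [rs_of_mem hg, hj, pow_succ, Nat.mul_div_cancel _ two_pos, ← map_nsmul, s2_eq,
      ZMod.val_zero, Nat.cast_zero, zero_div, map_zero, add_zero, nsmul_eq_mul, ← mul_assoc,
      Nat.cast_pow, Nat.cast_ofNat, ← pow_succ]
    exact pE_congr (x4 g)
  have : ∀ P : EO, ∃ a : ZMod 2, 2 • P = 0 → P ∈ EG w2 → P = s2 a 0 := fun P => by
    by_cases e : 2 • P = 0
    · obtain ⟨a, b, rfl⟩ := exists_s2 e
      exact ⟨a, fun _ h => by rw [s2_mem.1 h]⟩
    · exact ⟨0, fun e' => absurd e' e⟩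
  choose q hq using this
  have h1 : ∀ g ∈ w2.D, z g = pE (x g) + s2 (q (z g - pE (x g))) 0 := fun g hg => by
    rw [← hq _ ?_ (sub_mem (hz.2 g trivial) (pE_mem _)), add_sub_cancel]
    have := congrFun e g
    rw [rs_of_mem hg, Pi.smul_apply] at this
    rw [smul_sub, ← this, ← map_nsmul, nsmul_eq_mul, Nat.cast_ofNat, sub_self]
  have h2 : Bd w2.D (fun g h => qz 5 g * qz 2 h) fun g => q (z g - pE (x g)) := by
    refine ⟨hz.1.1.comp₂ x1 fun P a => q (P - pE a), fun g hg h hh => (s2_inj (b := 0)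
      (b' := 0 + 0 + 0) ?_).1⟩
    have h3 := hz.1.2.1 g hg h hh
    rw [h1 _ (mul_mem hg hh), h1 g hg, h1 h hh] at h3
    rw [map_add, (hLS2 D g hg).1, D.tac_two g (two_s2 _ _)] at h3
    have h4 := pE_congr (key g hg h)
    rw [map_sub, map_add] at h4
    rw [s2_add, s2_add, s2_eq (qz 5 g * qz 2 h), ← h4, ZMod.val_zero, Nat.cast_zero, zero_div,
      map_zero, add_zero, eq_sub_of_add_eq' h3]
    abel
  have h3 := (triv_qz_iff a_CA w2.closed_D (by norm_num) (by norm_num)).1 h2.triv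
  exact (a_NU2 w2 5 1 rfl rfl odd_one).2 (by simpa using h3.symm (by norm_num) (fix_int 2))

end Pool.Agent.P.MP_9c97e9_nt.KT
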