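import Pool.Agent.P.MP_9c97e9_nt.KT.BasK

/-! The obstruction to lifting vanishes in the next layer. -/

namespace Pool.Agent.P.MP_9c97e9_nt.KT

open scoped NNReal Matrix
open MP_8b7eba_nt.R2
open Filter Topology Polynomial Module

namespace TOB1

open TOBS (add_le n2)

/-- the parity of a coordinate -/
noncomputable def En (m : ℕ) (e : Fin 2) (v : V2) : ZMod 2 := TIW0.rz (v e / 2 ^ m)

variable {m : ℕ} {e : Fin 2} {v v' : V2}

theorem nb (h : ‖v‖ ≤ (2 ^ m)⁻¹) : ‖v e / 2 ^ m‖ ≤ 1 := by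
  rw [norm_div, n2, div_le_one (by positivity)]
  exact (norm_le_pi_norm _ e).trans h

theorem En_add (h : ‖v‖ ≤ (2 ^ m)⁻¹) (h' : ‖v'‖ ≤ (2 ^ m)⁻¹) :
    En m e (v + v') = En m e v + En m e v' := by
  rw [En, Pi.add_apply, add_div, TIW0.rz_add (nb h) (nb h'), En, En]

theorem En_sub (h : ‖v‖ ≤ (2 ^ m)⁻¹) (h' : ‖v'‖ ≤ (2 ^ m)⁻¹) :
    En m e (v - v') = En m e v - En m e v' := by
  rw [En, Pi.sub_apply, sub_div, TIW0.rz_sub (nb h) (nb h'), En, En]

theorem En_zero (h : ‖v‖ ≤ (2 ^ m)⁻¹) : En m e v = 0 ↔ ‖v e‖ ≤ (2 ^ (m + 1))⁻¹ := by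
  rw [En, TIW0.rz_eq_zero (nb h), norm_div, n2, div_le_iff₀ (by positivity), pow_succ', mul_inv]

theorem half (m : ℕ) : ((2 : ℝ) ^ (m + 1))⁻¹ ≤ (2 ^ m)⁻¹ :=
  inv_anti₀ (by positivity) (pow_le_pow_right₀ one_le_two m.le_succ)

theorem En_small (h : ‖v‖ ≤ (2 ^ (m + 1))⁻¹) : En m e v = 0 :=
  (En_zero (h.trans (half m))).2 ((norm_le_pi_norm _ e).trans h)

theorem En_eq (h' : ‖v'‖ ≤ (2 ^ m)⁻¹) (h : ‖v - v'‖ ≤ (2 ^ (m + 1))⁻¹) : En m e v = En m e v' := by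
  rw [← sub_add_cancel v v', En_add (h.trans (half m)) h', En_small h, zero_add]

theorem rd_half (D : Dat) (g : GQ) (h : ‖v‖ ≤ (2 ^ m)⁻¹) :
    ‖D.rd g *ᵥ v - v‖ ≤ (2 ^ (m + 1))⁻¹ := (BK.rd_sub D g v).trans (by
  rw [pow_succ', mul_inv]
  exact mul_le_mul_of_nonneg_left h (by norm_num))

theorem En_rd (D : Dat) (g : GQ) (h : ‖v‖ ≤ (2 ^ m)⁻¹) : En m e (D.rd g *ᵥ v) = En m e v :=
  En_eq h (rd_half D g h)

theorem dbl (D : Dat) (g : GQ) (h : ‖v‖ ≤ (2 ^ m)⁻¹) :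
    ‖v + D.rd g *ᵥ v‖ ≤ (2 ^ (m + 1))⁻¹ := by
  rw [show v + D.rd g *ᵥ v = (2 : ℚ_[2]) • v + (D.rd g *ᵥ v - v) by rw [two_smul]; abel]
  refine add_le ?_ (rd_half D g h)
  rw [norm_smul, TIW0.norm_two, pow_succ', mul_inv]
  exact mul_le_mul_of_nonneg_left h (by norm_num)

theorem re_of (D : Dat) (g : GQ) (h : ‖v + D.rd g *ᵥ v‖ ≤ (2 ^ (m + 1))⁻¹)
    (h' : ‖v' - v‖ ≤ (2 ^ m)⁻¹) : ‖v' + D.rd g *ᵥ v'‖ ≤ (2 ^ (m + 1))⁻¹ := by
  have := add_le h (dbl D g h')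
  rw [Matrix.mulVec_sub] at this
  exact (congrArg norm (by abel)).trans_le this

end TOB1

open TOB1 in
open TOBS (add_le n2 exists_rep) in
theorem t_OB1 (hGTK : GTK) : OB1 := by
  classical
  intro D k i c hn hc
  have hr := BK.rep D ⊤
  have e1 : ((2 : ℝ) ^ i)⁻¹ ≤ 1 := inv_le_one_of_one_le₀ (one_le_pow₀ one_le_two)
  obtain ⟨s, s1, s2, s3⟩ := exists_rep (ε := (2 ^ i)⁻¹) (by positivity)
  obtain ⟨⟨c1, c2, c3, c5⟩, c6, c7, c8⟩ := hc
  have k1 : Sm (KP k) fun g => s (c g) := c1.comp s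
  have k2 : ∀ g, ‖s (c g)‖ ≤ 1 := fun g => by simpa using add_le ((s1 (c g)).trans e1) (c2 g)
  have k0 : s (c 1) = 0 := (s2 _ _ (by
    simpa [BK.rd_one] using c3 1 (one_mem _) 1 (one_mem _))).trans s3
  have hI : ∀ w : Pl, ¬ w.p ∣ 30 * D.n → ∀ j ∈ w.I, j ∈ KI := fun w hw j hj =>
    BK.I_le (BK.odd hw) hj
  have k5 : ∀ w : Pl, ¬ w.p ∣ 30 * D.n → ∀ j ∈ w.I, s (c j) = 0 ∧ ∀ g ∈ KP k,
      s (c (g * j)) = s (c g) ∧ s (c (j * g)) = s (c g) := fun w hw j hj =>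
    have h := c5 w hw j hj
    have hj' := BK.KI_le k (hI w hw j hj)
    ⟨(s2 _ _ (by simpa using h)).trans s3, fun g hg => ⟨s2 _ _ (by
      simpa only [sub_add_cancel] using add_le (c3 g hg j hj') (BK.rd_le D g h)), s2 _ _ (by
      have := add_le (c3 j hj' g hg) h
      rw [BK.rd_unr hw hj, Matrix.one_mulVec] at this
      exact (congrArg norm (by abel)).trans_le this)⟩⟩
  have k3 := fun v => s1 (c v)
  generalize hk : (fun g => s (c g)) = kk at k1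
  simp only [congrFun hk] at k0 k2 k3 k5
  obtain ⟨o, ho⟩ : ∃ o : GQ → GQ → V2, ∀ g h, o g h = kk (g * h) - kk g - D.rd g *ᵥ kk h :=
    ⟨_, fun _ _ => rfl⟩
  have k4 : ∀ g ∈ KP k, ∀ h ∈ KP k, ‖o g h‖ ≤ (2 ^ i)⁻¹ := fun g hg h hh => by
    have := add_le (add_le (add_le (c3 g hg h hh) (k3 (g * h))) ((norm_sub_rev _ _).trans_le (k3 g)))
      (BK.rd_le D g ((norm_sub_rev _ _).trans_le (k3 h)))
    rw [Matrix.mulVec_sub] at this
    exact (congrArg norm (by rw [ho]; abel)).trans_le this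
  have z : ∀ e, En i e 0 = 0 := fun e => En_small (by simp)
  have main := fun e => hGTK D k (fun g h => En i e (o g h)) hn (co2_sgn.2 ⟨by
      obtain ⟨N, hN, a⟩ := k1.left
      obtain ⟨N', hN', a'⟩ := hr.sm (2 ^ (i + 1))⁻¹ (by positivity)
      obtain ⟨N'', hN'', a''⟩ := k1.mul2
      refine ⟨_, (hN.inf hN').inf hN'', fun g hg h hh j hj m => ?_⟩
      obtain ⟨p, q⟩ := a'' g hg h hh j hj m.2
      beta_reduce at p q ⊢
      refine ⟨En_eq (k4 g hg h hh) ?_, by rw [ho, ho, q, (a h hh j hj m.1.1).1]⟩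
      rw [ho, ho, p, (a g hg j hj m.1.1).1, sub_sub_sub_cancel_left, BK.rd_mulVec,
        ← Matrix.mulVec_sub]
      exact BK.rd_le D g ((norm_sub_rev _ _).trans_le ((a' j trivial m.1.2 _).trans
        (mul_le_of_le_one_right (by positivity) (k2 h)))), fun g hg h hh l hl => by
      rw [← En_rd D g (k4 h hh l hl),
        ← En_add (BK.rd_le D g (k4 h hh l hl)) (k4 g hg _ (mul_mem hh hl)),
        ← En_add (k4 _ (mul_mem hg hh) l hl) (k4 g hg h hh)]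
      simp only [ho, Matrix.mulVec_sub, mul_assoc, BK.rd_mulVec]
      congr 1
      abel⟩)
    (fun w hw j hj g hg => by
      obtain ⟨p, q⟩ := k5 w hw j hj
      rw [ho, ho, p, (q g hg).1, (q g hg).2, BK.rd_unr hw hj]
      simpa using z e)
    (fun t g hg h hh => by
      rcases BK.zp_cases hg with rfl | rfl
      · rw [ho, one_mul, k0, BK.rd_one]
        simpa using z e
      rcases BK.zp_cases hh with rfl | rfl
      · rw [ho, mul_one, k0]
        simpa using z e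
      · refine En_small ?_
        rw [ho, BK.ts_ts, k0, zero_sub, ← neg_add', norm_neg]
        exact re_of D _ (c8 t) (k3 _))
  choose θ b1 b2 using main
  obtain ⟨β, hβ⟩ : ∃ β : GQ → V2, ∀ g e, β g e = 2 ^ i * ((θ e g).val : ℕ) :=
    ⟨_, fun _ _ => rfl⟩
  have β1 : ∀ g, ‖β g‖ ≤ (2 ^ i)⁻¹ := fun g =>
    (pi_norm_le_iff_of_nonneg (by positivity)).2 fun e => by
      rw [hβ, norm_mul, n2]
      exact mul_le_of_le_one_right (by positivity) (TIW0.norm_val _)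
  have β2 : ∀ g e, En i e (β g) = θ e g := fun g e => by
    rw [En, hβ, mul_div_cancel_left₀ _ (by simp), TIW0.rz_val]
  have le : KP (k + 1) ≤ KP k := BK.KP_le k.le_succ
  have d : ∀ g, ‖kk g + β g - c g‖ ≤ (2 ^ i)⁻¹ := fun g =>
    (congrArg norm (add_sub_right_comm _ _ _)).trans_le (add_le (k3 g) (β1 g))
  have zp : D.Zp (k + 1) (i + 1) fun g => kk g + β g := by
    refine ⟨(k1.mono le).comp₂ (Sm.pi fun e => ((b1 e).1.comp fun x : ZMod 2 =>
      (2 : ℚ_[2]) ^ i * (x.val : ℕ)).congr fun g _ => hβ g e) (· + ·),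
      fun g => add_le (k2 g) ((β1 g).trans e1), fun g hg h hh => ?_, fun w hw j hj => ?_⟩
    · have a1 := add_le (k4 g (le hg) h (le hh)) (β1 (g * h))
      have a2 := TIW0.le_sub a1 (β1 g)
      have a3 := BK.rd_le D g (β1 h)
      rw [show kk (g * h) + β (g * h) - (kk g + β g) - D.rd g *ᵥ (kk h + β h) =
        o g h + β (g * h) - β g - D.rd g *ᵥ β h by rw [ho, Matrix.mulVec_add]; abel]
      refine (pi_norm_le_iff_of_nonneg (by positivity)).2 fun e =>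
        (En_zero (TIW0.le_sub a2 a3)).1 ?_
      rw [En_sub a2 a3, En_sub a1 (β1 g), En_add (k4 g (le hg) h (le hh)) (β1 _),
        En_rd D g (β1 h), β2, β2, β2, (b1 e).2 g hg h hh]
      beta_reduce
      generalize En i e (o g h) = x
      generalize θ e g = y
      generalize θ e h = y'
      revert x y y'
      decide
    · rw [(k5 w hw j hj).1, show β j = 0 from funext fun e => by rw [hβ, b2 e w hw j hj]; simp]
      simp
  refine ⟨fun g => kk g + β g, zp, ⟨⟨zp.sm, zp.int, fun g hg h hh => (zp.co g hg h hh).trans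
    (half i), fun w hw g hg => (zp.unr w hw g hg).trans (half i)⟩, ?_, fun g hg => ?_,
    fun t => re_of D _ (c8 t) (d _)⟩, d⟩
  · simpa using add_le (d D.z) c6
  · simpa using add_le ((norm_le_pi_norm _ 1).trans (d g)) (c7 g ⟨hg.1, le hg.2⟩)

end Pool.Agent.P.MP_9c97e9_nt.KT
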