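import Pool.Agent.P.MP_9c97e9_nt.KT.BasK

/-! The quadratic characters at the top of the tower. -/

namespace Pool.Agent.P.MP_9c97e9_nt.KT

open scoped NNReal Matrix
open MP_8b7eba_nt.R2
open BK TIW0

namespace TZI

variable {D : Dat} {i : Fin 2} {χ χ' : GQ → ZMod 2} {w : Pl}

theorem ext (h1 : IsCh KI χ) : ∃ m₀, ∀ m, m₀ ≤ m → ∃ χ' : GQ → ZMod 2, IsCh (KP m) χ' ∧
    (∀ g, g ∉ KP m → χ' g = 0) ∧ (∀ g ∈ KI, χ' g = χ g) ∧
    ((∀ g ∈ w2.I, χ g = 0) → ∀ g ∈ w2.I, χ' g = 0) := by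
  obtain ⟨N, hN, h5⟩ := h1.1
  obtain ⟨m₀, hm⟩ := small hN
  refine ⟨m₀, fun m hmm => ?_⟩
  choose! t ht h0 using fun g (hg : g ∈ KP m) => hm g (KP_le hmm hg)
  have key : ∀ g ∈ KP m, ∀ s ∈ N, g * s⁻¹ ∈ KI →
      cut (KP m) (fun g => χ (g * (t g)⁻¹)) g = χ (g * s⁻¹) := fun g hg s hs h => by
    have e : g * (t g)⁻¹ = g * s⁻¹ * (s * (t g)⁻¹) := by group
    rw [cut_pos hg, e, h5 _ h _ (KI.mul_mem_cancel_left h |>.1 (e ▸ h0 g hg))
      (mul_mem hs (inv_mem (ht g hg).2))]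
  have hz : ∀ g ∈ KI, g ∈ N → χ g = 0 := fun g hg m => by
    simpa [h1.one] using h5 1 (one_mem _) g hg m
  have add : ∀ g ∈ KP m, ∀ k ∈ KP m,
      cut (KP m) (fun g => χ (g * (t g)⁻¹)) (g * k) =
        χ (g * (t g)⁻¹) + χ (k * (t k)⁻¹) := fun g hg k hk => by
    have e : g * k * (t g * t k)⁻¹ = g * (t g)⁻¹ * (t g * (k * (t k)⁻¹) * (t g)⁻¹) := by group
    have e' : t g * (k * (t k)⁻¹) * (t g)⁻¹ =
      k * (t k)⁻¹ * ((k * (t k)⁻¹)⁻¹ * t g * (k * (t k)⁻¹) * (t g)⁻¹) := by group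
    have m1 := (conj_KI (s := t g)).2 (h0 k hk)
    rw [key _ (mul_mem hg hk) _ (mul_mem (ht g hg).2 (ht k hk).2) (e ▸ mul_mem (h0 g hg) m1), e,
      h1.2 _ (h0 g hg) _ m1, e', h5 _ (h0 k hk) _
        (KI.mul_mem_cancel_left (h0 k hk) |>.1 (e' ▸ m1))
        (mul_mem (hN.1.conj_mem' _ (ht g hg).2 _) (inv_mem (ht g hg).2))]
  refine ⟨cut (KP m) fun g => χ (g * (t g)⁻¹), ⟨⟨N, hN, fun g hg k hk m => ?_⟩,
    fun g hg k hk => ?_⟩, fun g => cut_neg, fun g hg => ?_, fun h g hg => ?_⟩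
  · rw [add g hg k hk, cut_pos hg, hz _ (h0 k hk) (mul_mem m (inv_mem (ht k hk).2)), add_zero]
  · rw [add g hg k hk, cut_pos hg, cut_pos hk]
  · rw [key g (KI_le m hg) 1 (one_mem _) (by simpa using hg), inv_one, mul_one]
  · by_cases hg' : g ∈ KP m
    · rw [cut_pos hg']
      exact h _ (mul_mem hg (inv_mem (ht g hg').1))
    · exact cut_neg hg'

theorem two (h : D.Cq KI i χ) :
    ∃ m₀, ∀ m, m₀ ≤ m → ∃ χ', D.Cq (KP m) i χ' ∧ ∀ g ∈ KI, χ' g = χ g := by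
  obtain ⟨m₀, hm⟩ := ext h.ch
  refine ⟨m₀, fun m hmm => ?_⟩
  obtain ⟨χ', h1, h2, h3, h4⟩ := hm m hmm
  exact ⟨χ', ⟨h1, h2, (h3 _ (z_mem D)).trans h.nz,
    fun w hw g hg => (h3 _ (I_le (odd hw) hg)).trans (h.unr w hw g hg),
    fun e s => (h3 _ (ts_mem s)).trans (h.re e s), fun e => h4 (h.ord e)⟩, h3⟩

theorem ch_sub {H : Subgroup GQ} (h : IsCh H χ) (h' : IsCh H χ') : IsCh H fun g => χ g - χ' g :=
  ⟨h.1.comp₂ h'.1 fun a b => a - b, fun g hg k hk => by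
    beta_reduce
    rw [h.2 g hg k hk, h'.2 g hg k hk]
    ring⟩

theorem cq_sub (h : D.Cq KI i χ) (h' : D.Cq KI i χ') : D.Cq KI i fun g => χ g - χ' g :=
  ⟨ch_sub h.ch h'.ch, fun g hg => by simp [h.off g hg, h'.off g hg], by simp [h.nz, h'.nz],
    fun w hw g hg => by simp [h.unr w hw g hg, h'.unr w hw g hg],
    fun e s => by simp [h.re e s, h'.re e s], fun e g hg => by simp [h.ord e g hg, h'.ord e g hg]⟩

theorem zero (hCH : CH) (h : D.Cq KI i χ) (h0 : ∀ w : Pl, w.p ≠ 2 → ∀ j ∈ w.I, χ j = 0) (g : GQ) :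
    χ g = 0 := by
  by_cases hg : g ∈ KI
  swap
  · exact h.off g hg
  obtain ⟨m, hm⟩ := two h
  obtain ⟨χ', h1, h2⟩ := hm m le_rfl
  have h3 := (hCH m).2.2.2 χ' ⟨h1.ch, fun w hw j hj => (h2 j (I_le hw hj)).trans (h0 w hw j hj)⟩
  rw [← h2 g hg]
  have : i = 0 ∨ i = 1 := by omega
  rcases this with e | e
  · exact h3.2 (h1.re e) g (KI_le _ hg)
  · exact h3.1 (fun j hj => h1.ord e j hj.1) g (KI_le _ hg)

end TZI

open TZI in
theorem t_ZI (hLAYK : LAYK) (hCH : CH) : ZI := by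
  classical
  intro D i
  refine ⟨?_, fun χ h => two h⟩
  obtain ⟨k, hk⟩ := exists_big D
  obtain ⟨hc, hK⟩ := hLAYK.2.2 D k (hk k le_rfl)
  choose! t ht hq _ hχ using fun (w : Pl) (hw : w.p ≠ 2) => exists_t hw
  have inv : ∀ χ : GQ → ZMod 2, IsCh KI χ → ∀ w : Pl, w.p ∣ 15 * D.n → ∀ u ∈ KP k,
      χ (t (u • w)) = χ (t w) := fun χ h w hw u hu => by
    obtain ⟨u', hu', e⟩ := (hK w (dvd30.2 (Or.inr hw))).2 u hu
    have o := odd' hw
    have h1 := hχ (u' • w) o χ (h.mono (I_le o)) _ (conj_I u' (ht w o))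
    rw [ch_conj h hu' (I_le o (ht w o)), qz_conj, Pl.smul_p, hq w o, mul_one, e] at h1
    exact h1.symm
  have oz : D.wz.p ∣ 15 * D.n := D.zp.mul_left 15
  have hz : ∀ χ : GQ → ZMod 2, D.Cq KI i χ → χ (t D.wz) = 0 := fun χ h => by
    have h1 := hχ D.wz (odd' oz) χ (h.ch.mono (I_le (odd' oz))) _ D.zI
    rw [h.nz, (qz_z D).2.2, mul_one] at h1
    exact h1.symm
  rw [nOrb] at hc
  set O := (fun w => MulAction.orbit (KP k) w) '' {w : Pl | w.p ∣ 15 * D.n} with hO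
  have hf : O.Finite := Set.finite_of_ncard_ne_zero (by omega)
  have mz : MulAction.orbit (KP k) D.wz ∈ O := ⟨D.wz, oz, rfl⟩
  set O' := O \ {MulAction.orbit (KP k) D.wz} with hO'
  have hc' : O'.ncard = 1 + D.sg := by
    rw [hO', Set.ncard_sdiff_singleton_of_mem mz, hc]
    omega
  have hf' : Finite O' := (hf.subset Set.sdiff_subset).to_subtype
  choose r hr hr' using fun o : O' => o.2.1
  have bij : Set.BijOn (fun (χ : GQ → ZMod 2) (o : O') => χ (t (r o))) {χ | D.Cq KI i χ}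
      Set.univ := by
    refine ⟨fun _ _ => trivial, fun χ h χ' h' e => ?_, fun f _ => ?_⟩
    · have h1 := cq_sub h h'
      refine funext fun g => sub_eq_zero.1 (zero hCH h1 (fun w hw j hj => ?_) g)
      by_cases h2 : w.p ∣ 30 * D.n
      swap
      · exact h1.unr w h2 j hj
      have h3 := (dvd30.1 h2).resolve_left hw
      rw [hχ w hw _ (h1.ch.mono (I_le hw)) j hj]
      refine mul_eq_zero_of_left ?_ _
      by_cases h4 : MulAction.orbit (KP k) w = MulAction.orbit (KP k) D.wz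
      · obtain ⟨u, hu, rfl⟩ := TZONE.orb_eq.1 h4
        exact (inv _ h1.ch _ oz u hu).trans (hz _ h1)
      · have m : MulAction.orbit (KP k) w ∈ O' := ⟨⟨w, h3, rfl⟩, h4⟩
        obtain ⟨u, hu, e'⟩ := TZONE.orb_eq.1 (hr' ⟨_, m⟩)
        have h5 := inv _ h1.ch w h3 u hu
        rw [e'] at h5
        exact h5.symm.trans (sub_eq_zero.2 (congrFun e ⟨_, m⟩))
    · let c : Pl → ZMod 2 := fun w =>
        if h : MulAction.orbit (KP k) w ∈ O' then f ⟨_, h⟩ else 0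
      have c0 : ∀ w : Pl, ¬ w.p ∣ 15 * D.n → c w = 0 := fun w hw => dif_neg fun ⟨⟨w', h1, h2⟩, _⟩ => by
        obtain ⟨u, -, rfl⟩ := TZONE.orb_eq.1 h2
        exact hw h1
      obtain ⟨χ₀, h0, h1⟩ := (hCH k).1 c (15 * D.n) (fun u hu w => by
          have e : MulAction.orbit (KP k) (u • w) = MulAction.orbit (KP k) w :=
            TZONE.orb_eq.2 ⟨u, hu, rfl⟩
          simp only [c, e])
        fun w hw => c0 w fun h => absurd (Nat.le_of_dvd (by have := n_ne D; omega) h) (by omega)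
      obtain ⟨χ₁, h2, h3, h4⟩ : ∃ χ₁, Ch0 k χ₁ ∧ (i = 0 → ∀ s, χ₁ (ts s) = χ₀ (ts s)) ∧
          (i = 1 → ∀ j ∈ w2.I ⊓ KP k, χ₁ j = χ₀ j) := by
        have : i = 0 ∨ i = 1 := by omega
        rcases this with e | e
        · obtain ⟨χ₁, a, b⟩ := (hCH k).2.2.1 (fun s => χ₀ (ts s)) fun u hu s => by
            beta_reduce
            rw [ts_mul, ch_conj h0 hu (KI_le k (ts_mem s))]
          exact ⟨χ₁, a, fun _ => b, fun e' => absurd (e.symm.trans e') (by decide)⟩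
        · obtain ⟨χ₁, a, b⟩ := (hCH k).2.1 χ₀ (h0.mono inf_le_right)
          exact ⟨χ₁, a, fun e' => absurd (e.symm.trans e') (by decide), fun _ => b⟩
      have h5 := (ch_sub h0 h2.1).mono (KI_le k)
      have h6 : ∀ w : Pl, w.p ≠ 2 → ∀ j ∈ w.I,
          cut KI (fun g => χ₀ g - χ₁ g) j = c w * qz w.p j := fun w hw j hj => by
        rw [cut_pos (I_le hw hj), h1 w hw j hj, h2.2 w hw j hj, sub_zero]
      refine ⟨cut KI fun g => χ₀ g - χ₁ g, ⟨⟨h5.1.congr fun g hg => cut_pos hg,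
        fun g hg s hs => ?_⟩, fun g => cut_neg, ?_, fun w hw g hg => ?_, fun e s => ?_,
        fun e g hg => ?_⟩, funext fun o => ?_⟩
      · rw [cut_pos hg, cut_pos hs, cut_pos (mul_mem hg hs)]
        exact h5.2 g hg s hs
      · rw [h6 _ (odd' oz) _ D.zI, show c D.wz = 0 from dif_neg fun h => h.2 rfl, zero_mul]
      · rw [h6 _ (odd hw) _ hg, c0 w fun h => hw (dvd30.2 (Or.inr h)), zero_mul]
      · rw [cut_pos (ts_mem s), h3 e s, sub_self]
      · by_cases hg' : g ∈ KI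
        · rw [cut_pos hg', h4 e g ⟨hg, KI_le k hg'⟩, sub_self]
        · exact cut_neg hg'
      · have o1 := odd' (hr o)
        beta_reduce
        rw [h6 _ o1 _ (ht _ o1), hq _ o1, mul_one]
        have e : MulAction.orbit (KP k) (r o) = o := hr' o
        simp only [c, e, o.2, dif_pos, Subtype.coe_eta]
  rw [← bij.injOn.ncard_image, bij.image_eq, Set.ncard_univ, Nat.card_fun, Nat.card_zmod,
    Nat.card_coe_set_eq, hc']

end Pool.Agent.P.MP_9c97e9_nt.KT
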