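import Pool.Agent.P.MP_9c97e9_nt.KT.DefsG

/-! The cocycle of a family of symbols depends only on the formal sum. -/

namespace Pool.Agent.P.MP_9c97e9_nt.KT

namespace TGEN

noncomputable section

variable {G Ω : Type} [Group G] [Field Ω] [MulSemiringAction G Ω] {C : Cx G Ω}

theorem N_ne (hC : C.Ok) : C.N ≠ 0 := fun h => hC.ne (Nat.eq_zero_of_zero_dvd (h ▸ hC.dvd))

theorem cy_one (hC : C.Ok) : C.cy 1 = 1 := by
  have h := hC.mul 1 C.H.one_mem 1 C.H.one_mem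
  rw [one_mul] at h
  exact mul_left_cancel (a := C.cy 1) (by rw [← h, mul_one])

theorem cy_inv (hC : C.Ok) {g : G} (hg : g ∈ C.H) : C.cy g⁻¹ = (C.cy g)⁻¹ := by
  have h := hC.mul g hg g⁻¹ (C.H.inv_mem hg)
  rw [mul_inv_cancel, cy_one hC] at h
  exact (inv_eq_of_mul_eq_one_right h.symm).symm

theorem red_eq {N M : ℕ} (hd : N ∣ M) (hM : M ≠ 0) (d : (ZMod M)ˣ) :
    red N d = ZMod.castHom hd (ZMod N) (d : ZMod M) := by
  have : NeZero M := ⟨hM⟩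
  rw [red, ZMod.castHom_apply, ZMod.natCast_val]

theorem red_mul {N M : ℕ} (hd : N ∣ M) (hM : M ≠ 0) (d e : (ZMod M)ˣ) :
    red N (d * e) = red N d * red N e := by
  rw [red_eq hd hM, red_eq hd hM, red_eq hd hM, Units.val_mul, map_mul]

theorem red_one {N M : ℕ} (hd : N ∣ M) (hM : M ≠ 0) : red N (1 : (ZMod M)ˣ) = 1 := by
  rw [red_eq hd hM, Units.val_one, map_one]

theorem red_cy_mul (hC : C.Ok) {g h : G} (hg : g ∈ C.H) (hh : h ∈ C.H) :
    red C.N (C.cy (g * h)) = red C.N (C.cy g) * red C.N (C.cy h) := by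
  rw [hC.mul g hg h hh, red_mul hC.dvd hC.ne]

variable (C) in
/-- the power of the root of unity -/
def zp (a : ZMod C.N) : Ω := C.ze ^ a.val

theorem zp_nat (hC : C.Ok) (k : ℕ) : zp C (k : ZMod C.N) = C.ze ^ k := by
  rw [zp, ZMod.val_natCast]
  conv_rhs => rw [← Nat.mod_add_div k C.N, pow_add, pow_mul, hC.prim.pow_eq_one, one_pow, mul_one]

theorem zp_add (hC : C.Ok) (a b : ZMod C.N) : zp C (a + b) = zp C a * zp C b := by
  have : NeZero C.N := ⟨N_ne hC⟩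
  rw [zp.eq_1 C a, zp.eq_1 C b, ← pow_add, ← zp_nat hC, Nat.cast_add, ZMod.natCast_zmod_val,
    ZMod.natCast_zmod_val]

omit [MulSemiringAction G Ω] in
theorem zp_zero : zp C 0 = 1 := by rw [zp, ZMod.val_zero, pow_zero]

theorem zp_inj (hC : C.Ok) {a b : ZMod C.N} (h : zp C a = zp C b) : a = b := by
  have : NeZero C.N := ⟨N_ne hC⟩
  exact ZMod.val_injective _ (hC.prim.pow_inj (ZMod.val_lt a) (ZMod.val_lt b) h)

theorem smul_zp (hC : C.Ok) {g : G} (hg : g ∈ C.H) (a : ZMod C.N) :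
    g • zp C a = zp C (red C.N (C.cy g) * a) := by
  have : NeZero C.N := ⟨N_ne hC⟩
  rw [zp.eq_1 C a, smul_pow', hC.gal g hg, ← pow_mul, ← zp_nat hC, Nat.cast_mul,
    ZMod.natCast_zmod_val, red]

theorem dlo_spec (hC : C.Ok) {x : Ω} (hx : x ^ C.N = 1) : zp C (dlo C.ze C.N x) = x := by
  have : NeZero C.N := ⟨N_ne hC⟩
  obtain ⟨k, -, hk⟩ := hC.prim.eq_pow_of_pow_eq_one hx
  exact Classical.epsilon_spec (p := fun a : ZMod C.N => C.ze ^ a.val = x)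
    ⟨(k : ZMod C.N), (zp_nat hC k).trans hk⟩

theorem zp_pow (hC : C.Ok) (a : ZMod C.N) : zp C a ^ C.N = 1 := by
  rw [zp, ← pow_mul, mul_comm, pow_mul, hC.prim.pow_eq_one, one_pow]

theorem dlo_zp (hC : C.Ok) (a : ZMod C.N) : dlo C.ze C.N (zp C a) = a :=
  zp_inj hC (dlo_spec hC (zp_pow hC a))

theorem dlo_one (hC : C.Ok) : dlo C.ze C.N (1 : Ω) = 0 := by
  rw [← zp_zero (C := C), dlo_zp hC]

theorem dlo_mul (hC : C.Ok) {x y : Ω} (hx : x ^ C.N = 1) (hy : y ^ C.N = 1) :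
    dlo C.ze C.N (x * y) = dlo C.ze C.N x + dlo C.ze C.N y := by
  apply zp_inj hC
  rw [zp_add hC, dlo_spec hC hx, dlo_spec hC hy, dlo_spec hC (by rw [mul_pow, hx, hy, one_mul])]

theorem rtN_spec {N : ℕ} {u : Ω} (h : ∃ r, r ^ N = u) : rtN N u ^ N = u :=
  Classical.epsilon_spec (p := fun r : Ω => r ^ N = u) h

variable {I : Type} {F : Fam C I}

variable (F) in
/-- an equivariant system of roots on the support -/
def Rt (ρ : I → Ω) : Prop :=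
  (∀ i, F.m i ≠ 0 → ρ i ≠ 0) ∧
    ∀ g ∈ C.H, ∀ i, F.m i ≠ 0 → ρ (F.act g i) ^ C.N = g • ρ i ^ C.N

theorem rt_r (hF : F.Ok) : Rt F F.r := ⟨fun i h => (hF.ne i h).1, fun g hg i h => (hF.eq g hg i h).1⟩

theorem rt_r' (hF : F.Ok) : Rt F F.r' :=
  ⟨fun i h => (hF.ne i h).2, fun g hg i h => (hF.eq g hg i h).2⟩

theorem Rt.rtN (hC : C.Ok) {ρ : I → Ω} (h : Rt F ρ) : Rt F fun i => rtN C.N (ρ i ^ C.N) := by
  refine ⟨fun i hi h0 => ?_, fun g hg i hi => ?_⟩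
  · have := rtN_spec (N := C.N) ⟨ρ i, rfl⟩
    rw [show KT.rtN C.N (ρ i ^ C.N) = 0 from h0, zero_pow (N_ne hC)] at this
    exact pow_ne_zero _ (h.1 i hi) this.symm
  · rw [rtN_spec ⟨_, rfl⟩, rtN_spec ⟨_, rfl⟩, h.2 g hg i hi]

theorem act_inv (hF : F.Ok) {g : G} (hg : g ∈ C.H) (i : I) : F.act g (F.act g⁻¹ i) = i := by
  rw [← hF.mul g hg _ (C.H.inv_mem hg), mul_inv_cancel, hF.one]

theorem inv_act (hF : F.Ok) {g : G} (hg : g ∈ C.H) (i : I) : F.act g⁻¹ (F.act g i) = i := by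
  rw [← hF.mul _ (C.H.inv_mem hg) g hg, inv_mul_cancel, hF.one]

theorem act_mul_inv (hF : F.Ok) {g h : G} (hg : g ∈ C.H) (hh : h ∈ C.H) (i : I) :
    F.act (g * h)⁻¹ i = F.act h⁻¹ (F.act g⁻¹ i) := by
  rw [mul_inv_rev, hF.mul _ (C.H.inv_mem hh) _ (C.H.inv_mem hg)]

theorem m_act (hF : F.Ok) {g : G} (hg : g ∈ C.H) {i : I} (hi : F.m i ≠ 0) :
    F.m (F.act g⁻¹ i) ≠ 0 := by rwa [hF.inv _ (C.H.inv_mem hg)]

theorem kc_spec (hC : C.Ok) (hF : F.Ok) {ρ : I → Ω} (h : Rt F ρ) {g : G} (hg : g ∈ C.H) {i : I}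
    (hi : F.m i ≠ 0) : zp C (F.kc ρ g i) = g • ρ (F.act g⁻¹ i) / ρ i := by
  refine dlo_spec hC ?_
  rw [div_pow, ← smul_pow', ← h.2 g hg _ (m_act hF hg hi), act_inv hF hg,
    div_self (pow_ne_zero _ (h.1 i hi))]

theorem smul_ne {g : G} {x : Ω} (hx : x ≠ 0) : g • x ≠ 0 := fun h =>
  hx (by rw [← inv_smul_smul g x, h, smul_zero])

theorem kc_mul (hC : C.Ok) (hF : F.Ok) {ρ : I → Ω} (hρ : Rt F ρ) {g h : G} (hg : g ∈ C.H)
    (hh : h ∈ C.H) {i : I} (hi : F.m i ≠ 0) :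
    F.kc ρ (g * h) i = F.kc ρ g i + red C.N (C.cy g) * F.kc ρ h (F.act g⁻¹ i) := by
  apply zp_inj hC
  have h1 := smul_ne (g := g) (hρ.1 _ (m_act hF hg hi))
  have h2 := hρ.1 _ hi
  rw [zp_add hC, ← smul_zp hC hg, kc_spec hC hF hρ (C.H.mul_mem hg hh) hi, kc_spec hC hF hρ hg hi,
    kc_spec hC hF hρ hh (m_act hF hg hi), act_mul_inv hF hg hh, smul_div₀', mul_smul]
  field_simp

theorem kc_fix (hC : C.Ok) {ρ : I → Ω} (hρ : Rt F ρ) {n : G} {i : I} (hi : F.m i ≠ 0)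
    (h1 : F.act n⁻¹ i = i) (h2 : n • ρ i = ρ i) : F.kc ρ n i = 0 := by
  rw [Fam.kc, h1, h2, div_self (hρ.1 i hi), dlo_one hC]

theorem kc_chg (hC : C.Ok) (hF : F.Ok) {ρ σ : I → Ω} (hρ : Rt F ρ) (hσ : Rt F σ)
    (h : ∀ i, σ i ^ C.N = ρ i ^ C.N) {g : G} (hg : g ∈ C.H) {i : I} (hi : F.m i ≠ 0) :
    F.kc σ g i = F.kc ρ g i + red C.N (C.cy g) *
      dlo C.ze C.N (σ (F.act g⁻¹ i) / ρ (F.act g⁻¹ i)) - dlo C.ze C.N (σ i / ρ i) := by
  have he : ∀ j, F.m j ≠ 0 → zp C (dlo C.ze C.N (σ j / ρ j)) = σ j / ρ j := fun j hj =>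
    dlo_spec hC (by rw [div_pow, h, div_self (pow_ne_zero _ (hρ.1 j hj))])
  rw [eq_sub_iff_add_eq]
  apply zp_inj hC
  have h1 := smul_ne (g := g) (hρ.1 _ (m_act hF hg hi))
  have h2 := hρ.1 _ hi
  have h3 := hσ.1 _ hi
  rw [zp_add hC, zp_add hC, ← smul_zp hC hg, kc_spec hC hF hρ hg hi, kc_spec hC hF hσ hg hi,
    he _ hi, he _ (m_act hF hg hi), smul_div₀']
  field_simp

theorem sum_act (hF : F.Ok) {X : Type} [AddCommMonoid X] {g : G} (hg : g ∈ C.H) (Φ : I → ℤ → X) :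
    (F.m.sum fun i c => Φ (F.act g i) c) = F.m.sum Φ := by
  refine Finset.sum_nbij' (F.act g) (F.act g⁻¹) (fun i hi => ?_) (fun i hi => ?_)
    (fun i _ => inv_act hF hg i) (fun i _ => act_inv hF hg i) fun i _ => by rw [hF.inv g hg]
  · rw [Finsupp.mem_support_iff] at hi ⊢
    rwa [hF.inv g hg]
  · rw [Finsupp.mem_support_iff] at hi ⊢
    exact m_act hF hg hi

open Classical in
variable (F) in
/-- the weighted sum over the family -/
def L (φ : I → ZMod C.N) : C.A := fun d =>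
  F.m.sum fun i c => if F.dt i = d then c * red C.N d⁻¹ * φ i else 0

omit [Field Ω] [MulSemiringAction G Ω] in
theorem L_congr {φ ψ : I → ZMod C.N} (h : ∀ i, F.m i ≠ 0 → φ i = ψ i) : L F φ = L F ψ := by
  funext d
  exact Finset.sum_congr rfl fun i hi => by simp only [h i (Finsupp.mem_support_iff.1 hi)]

omit [Field Ω] [MulSemiringAction G Ω] in
theorem L_add (φ ψ : I → ZMod C.N) : L F φ + L F ψ = L F fun i => φ i + ψ i := by
  funext d
  rw [Pi.add_apply, L, L, L, Finsupp.sum, Finsupp.sum, Finsupp.sum, ← Finset.sum_add_distrib]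
  refine Finset.sum_congr rfl fun i _ => ?_
  split_ifs <;> ring

omit [Field Ω] [MulSemiringAction G Ω] in
theorem L_sub (φ ψ : I → ZMod C.N) : L F φ - L F ψ = L F fun i => φ i - ψ i := by
  rw [sub_eq_iff_eq_add, L_add]
  exact L_congr fun i _ => by ring

omit [Field Ω] [MulSemiringAction G Ω] in
theorem L_zero : L F (fun _ => 0) = 0 := by
  funext d
  simp [L]

theorem f_eq (g h : G) : F.f g h =
    L F fun i => F.kc F.r g i * (red C.N (C.cy g) * F.kc F.r' h (F.act g⁻¹ i)) := by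
  funext d
  refine Finset.sum_congr rfl fun i _ => ?_
  dsimp only
  split_ifs <;> ring

theorem ac_L (hC : C.Ok) (hF : F.Ok) {g : G} (hg : g ∈ C.H) (φ : I → ZMod C.N) :
    C.ac g (L F φ) = L F fun i => red C.N (C.cy g) ^ 2 * φ (F.act g⁻¹ i) := by
  funext d
  rw [Cx.ac, L, L, ← sum_act hF (C.H.inv_mem hg), Finsupp.sum, Finsupp.sum, Finset.mul_sum]
  refine Finset.sum_congr rfl fun i _ => ?_
  rw [hF.det _ (C.H.inv_mem hg), cy_inv hC hg, mul_inv_rev, inv_inv, red_mul hC.dvd hC.ne]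
  simp only [mul_left_inj]
  split_ifs <;> ring

theorem exists_fix (hC : C.Ok) (hF : F.Ok) {ρ σ : I → Ω} (hρ : Rt F ρ) (hσ : Rt F σ) :
    ∃ S : Finset Ω, ∀ n ∈ C.H, (∀ s ∈ S, n • s = s) → ∀ g ∈ C.H, C.cy (g * n) = C.cy g ∧
      ∀ i, F.m i ≠ 0 → F.act (g * n)⁻¹ i = F.act g⁻¹ i ∧ F.kc ρ (g * n) i = F.kc ρ g i ∧
        F.kc σ (g * n) i = F.kc σ g i := by
  classical
  obtain ⟨S, hS⟩ := hF.sm
  obtain ⟨T, hT⟩ := hC.sm
  refine ⟨S ∪ T ∪ (F.m.support.image ρ ∪ F.m.support.image σ), fun n hn h g hg =>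
    ⟨hT g hg n hn fun s hs => h s (by simp [hs]), fun i hi => ?_⟩⟩
  have hj := m_act hF hg hi
  have h1 : F.act n⁻¹ (F.act g⁻¹ i) = F.act g⁻¹ i :=
    hS _ (C.H.inv_mem hn) (fun s hs => inv_smul_eq_iff.2 (h s (by simp [hs])).symm) _ hj
  have hj' := Finsupp.mem_support_iff.2 hj
  refine ⟨by rw [act_mul_inv hF hg hn, h1], ?_, ?_⟩
  · rw [kc_mul hC hF hρ hg hn hi, kc_fix hC hρ hj h1 (h _ ?_), mul_zero, add_zero]
    exact Finset.mem_union_right _ (Finset.mem_union_left _ (Finset.mem_image_of_mem _ hj'))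
  · rw [kc_mul hC hF hσ hg hn hi, kc_fix hC hσ hj h1 (h _ ?_), mul_zero, add_zero]
    exact Finset.mem_union_right _ (Finset.mem_union_right _ (Finset.mem_image_of_mem _ hj'))

theorem co (hC : C.Ok) (hF : F.Ok) : C.Co F.f := by
  refine ⟨?_, ?_, fun g hg h hh l hl => ?_⟩
  · obtain ⟨S, hS⟩ := exists_fix hC hF (rt_r hF) (rt_r' hF)
    refine ⟨S, fun g hg h hh n hn hf => ⟨?_, ?_⟩⟩
    · obtain ⟨h1, h2⟩ := hS n hn hf g hg
      rw [f_eq, f_eq]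
      exact L_congr fun i hi => by rw [h1, (h2 i hi).1, (h2 i hi).2.1]
    · rw [f_eq, f_eq]
      exact L_congr fun i hi => by rw [((hS n hn hf h hh).2 _ (m_act hF hg hi)).2.2]
  · rw [f_eq, ← L_zero (F := F)]
    exact L_congr fun i hi => by
      rw [kc_fix hC (rt_r hF) hi (by rw [inv_one, hF.one]) (one_smul _ _), zero_mul]
  · rw [f_eq, f_eq, f_eq, f_eq, ac_L hC hF hg, L_add, L_add]
    refine L_congr fun i hi => ?_
    rw [kc_mul hC hF (rt_r hF) hg hh hi, kc_mul hC hF (rt_r' hF) hh hl (m_act hF hg hi),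
      act_mul_inv hF hg hh, red_cy_mul hC hg hh]
    ring

theorem inv_im (hF : F.Ok) : C.Inv F.im := by
  classical
  refine ⟨fun g hg x => ?_, fun x hx => ?_⟩
  · simp only [Fam.im, Finsupp.mapDomain, Finsupp.sum_apply, Finsupp.single_apply]
    rw [← sum_act hF hg]
    refine Finset.sum_congr rfl fun i hi => ?_
    have hi' := Finsupp.mem_support_iff.1 hi
    simp only [(hF.eq g hg i hi').1, (hF.eq g hg i hi').2, hF.det g hg, Cx.can, Prod.ext_iff,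
      smul_left_cancel_iff, mul_left_inj]
  · obtain ⟨i, hi, rfl⟩ := Finset.mem_image.1
      (Finsupp.mapDomain_support (Finsupp.mem_support_iff.2 hx))
    have hi' := hF.ne i (Finsupp.mem_support_iff.1 hi)
    exact ⟨⟨pow_ne_zero _ hi'.1, _, rfl⟩, pow_ne_zero _ hi'.2, _, rfl⟩

theorem can_f (hF : F.Ok) {g h : G} (hg : g ∈ C.H) (hh : h ∈ C.H) : (C.can F.im).f g h =
    L F fun i => F.kc (fun j => rtN C.N (F.r j ^ C.N)) g i *
      (red C.N (C.cy g) * F.kc (fun j => rtN C.N (F.r' j ^ C.N)) h (F.act g⁻¹ i)) := by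
  classical
  rw [f_eq]
  funext d
  refine (Finsupp.sum_mapDomain_index (fun x => by simp) fun x a b => ?_).trans
    (Finset.sum_congr rfl fun i hi => ?_)
  · split_ifs
    · push_cast
      ring
    · simp
  · have hi' := Finsupp.mem_support_iff.1 hi
    have h1 := hF.eq _ (C.H.inv_mem hg) i hi'
    have h2 := hF.eq _ (C.H.inv_mem hh) _ (m_act hF hg hi')
    simp only [Fam.kc, Cx.can, h1.1, h1.2, h2.2]

theorem eqv (hC : C.Ok) (hF : F.Ok) : C.Eqv F.f (C.can F.im).f := by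
  have h1 := rt_r hF
  have h2 := rt_r' hF
  have h3 := h1.rtN hC
  have h4 := h2.rtN hC
  refine ⟨fun g => L F fun i => F.kc F.r g i * (red C.N (C.cy g) *
    dlo C.ze C.N (rtN C.N (F.r' (F.act g⁻¹ i) ^ C.N) / F.r' (F.act g⁻¹ i))) -
    dlo C.ze C.N (rtN C.N (F.r i ^ C.N) / F.r i) * F.kc (fun j => rtN C.N (F.r' j ^ C.N)) g i,
    ?_, fun g hg h hh => ?_⟩
  · obtain ⟨S, hS⟩ := exists_fix hC hF h1 h4
    refine ⟨S, fun g hg n hn hf => L_congr fun i hi => ?_⟩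
    obtain ⟨h5, h6⟩ := hS n hn hf g hg
    rw [h5, (h6 i hi).1, (h6 i hi).2.1, (h6 i hi).2.2]
  · rw [f_eq, can_f hF hg hh, Cx.d1, ac_L hC hF hg, L_sub, L_sub, L_add]
    refine L_congr fun i hi => ?_
    rw [kc_mul hC hF h1 hg hh hi, kc_mul hC hF h4 hg hh hi, act_mul_inv hF hg hh,
      red_cy_mul hC hg hh, kc_chg hC hF h1 h3 (fun j => rtN_spec ⟨_, rfl⟩) hg hi,
      kc_chg hC hF h2 h4 (fun j => rtN_spec ⟨_, rfl⟩) hh (m_act hF hg hi)]
    ring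

theorem can_ok (hC : C.Ok) (E : Sy Ω C.M) (hE : C.Inv E) : (C.can E).Ok ∧ (C.can E).im = E := by
  classical
  refine ⟨⟨fun i => ?_, fun g hg h hh i => ?_, hE.1, fun _ _ _ => rfl, fun i hi => ?_,
    fun g hg i hi => ?_, ?_⟩, ?_⟩
  · simp [Cx.can, cy_one hC]
  · simp only [Cx.can, mul_smul, hC.mul g hg h hh, mul_assoc, mul_comm (C.cy g)]
  · obtain ⟨⟨a1, a2⟩, a3, a4⟩ := hE.2 i hi
    refine ⟨fun h => a1 ?_, fun h => a3 ?_⟩
    · rw [← rtN_spec a2, show rtN C.N i.1 = 0 from h, zero_pow (N_ne hC)]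
    · rw [← rtN_spec a4, show rtN C.N i.2.1 = 0 from h, zero_pow (N_ne hC)]
  · obtain ⟨⟨-, a2⟩, -, a4⟩ := hE.2 i hi
    obtain ⟨⟨-, b2⟩, -, b4⟩ := hE.2 ((C.can E).act g i) (by rw [hE.1 g hg]; exact hi)
    exact ⟨(rtN_spec b2).trans (congrArg (g • ·) (rtN_spec a2).symm),
      (rtN_spec b4).trans (congrArg (g • ·) (rtN_spec a4).symm)⟩
  · obtain ⟨T, hT⟩ := hC.sm
    refine ⟨T ∪ (E.support.image (·.1) ∪ E.support.image (·.2.1)), fun n hn h i hi => ?_⟩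
    have hi' : i ∈ E.support := Finsupp.mem_support_iff.2 hi
    have h1 := hT 1 C.H.one_mem n hn fun s hs => h s (by simp [hs])
    rw [one_mul, cy_one hC] at h1
    have h2 := h _ (Finset.mem_union_right _
      (Finset.mem_union_left _ (Finset.mem_image_of_mem _ hi')))
    have h3 := h _ (Finset.mem_union_right _
      (Finset.mem_union_right _ (Finset.mem_image_of_mem _ hi')))
    simp only [Cx.can, h1, h2, h3, mul_one]
  · refine (Finsupp.mapDomain_congr (g := id) fun i hi => ?_).trans Finsupp.mapDomain_id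
    obtain ⟨⟨-, a2⟩, -, a4⟩ := hE.2 i (Finsupp.mem_support_iff.1 hi)
    exact Prod.ext (rtN_spec a2) (Prod.ext (rtN_spec a4) rfl)

end

end TGEN

theorem t_GEN : GEN := fun _ _ _ _ _ _ hC =>
  ⟨TGEN.can_ok hC, fun _ _ hF => ⟨TGEN.co hC hF, TGEN.inv_im hF, TGEN.eqv hC hF⟩⟩

end Pool.Agent.P.MP_9c97e9_nt.KT
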