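import Pool.Agent.P.MP_9c97e9_nt.KT.IfEB
import Pool.Agent.P.MP_9c97e9_nt.KT.TBAS
import Pool.Agent.P.MP_9c97e9_nt.KT.TGEN

/-! Proof of CORE. -/

namespace Pool.Agent.P.MP_9c97e9_nt.KT

open scoped NNReal
open MP_8b7eba_nt.R2
open MP_8b7eba_nt.Mod (an)
open Finset

namespace TCORE

theorem ec_nat (x : ℚ_[2]) (n : ℕ) : ec (n * x) = ec x ^ n := by
  induction n with
  | zero => simpa using (a_EC.1.eq_one 0).2 (by simp)
  | succ n ih => rw [Nat.cast_succ, add_mul, one_mul, a_EC.1.add, ih, pow_succ]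

theorem ec_congr {x y : ℚ_[2]} (h : ‖x - y‖ ≤ 1) : ec x = ec y := by
  rw [← sub_add_cancel x y, a_EC.1.add, (a_EC.1.eq_one _).2 h, one_mul]

theorem pow_sub {x y : ℂ_[2]} (hx : ‖x‖ ≤ 1) (hy : ‖y‖ ≤ 1) (n : ℕ) :
    ‖x ^ n - y ^ n‖ ≤ ‖x - y‖ := by
  induction n with
  | zero => simp
  | succ n ih =>
    rw [show x ^ (n + 1) - y ^ (n + 1) = x * (x ^ n - y ^ n) + y ^ n * (x - y) by ring]
    refine (IsUltrametricDist.norm_add_le_max _ _).trans (max_le ?_ ?_) <;> rw [norm_mul]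
    · exact (mul_le_of_le_one_left (norm_nonneg _) hx).trans ih
    · exact mul_le_of_le_one_left (norm_nonneg _)
        (by rw [norm_pow]; exact pow_le_one₀ (norm_nonneg _) hy)

theorem trq_rat (hTQX : TQX) {S : Subgroup GQ} (hS : w2.Loc S) (r : ℚ) :
    trq S (r / S.relIndex w2.D : ℚ) = r := by
  have h0 := hS.relIndex_ne le_rfl
  obtain ⟨-, h1, -, -, h2, -⟩ := (hTQX.2.2.2.2 S hS).2 1 fix_one
  have h3 : trq S 1 = S.relIndex w2.D := (algebraMap ℚ_[2] ℂ_[2]).injective (by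
    simp only [map_one] at h1
    rw [h1, csum_const h0, nsmul_one, map_natCast, map_natCast])
  rw [← mul_one ((r / S.relIndex w2.D : ℚ) : Om), h2, h3, Rat.cast_div, Rat.cast_natCast,
    div_mul_cancel₀ _ (Nat.cast_ne_zero.2 h0)]

theorem coeff0 (M : ℕ) (i : IT) : PowerSeries.coeff 0 (EPr M i) = JPr M i := by
  have h : ∀ a B, PowerSeries.constantCoeff (eis M a B) = 0 := fun a B => by
    rw [← PowerSeries.coeff_zero_eq_constantCoeff_apply, eis, PowerSeries.coeff_mk]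
    simp
  simp [EPr, JPr, EE, h]

theorem Iv_gd (hCX : CX) {M : ℕ} (h1 : 1 < M) (h2 : M.Coprime 15) (δ : (ZMod M)ˣ) (X : ℕ)
    (t : Om) : Iv X (gd M δ) t =
      (16 : ℚ) * (SSd M δ * ∑ m ∈ Icc 1 (X / M), (an m : Om) * (t ^ M) ^ m / m) := by
  have h0 : 0 < M := by omega
  have : (M : Om) ≠ 0 := Nat.cast_ne_zero.2 h0.ne'
  simp only [Iv, hCX M δ _ h1 h2, ite_mul, zero_mul, ite_div, zero_div, mul_sum, ← sum_filter]
  refine (sum_bij (fun m _ => M * m) (fun m hm => ?_) (fun m _ m' _ e => ?_) (fun m hm => ?_)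
    fun m hm => ?_).symm
  · rw [mem_Icc, Nat.le_div_iff_mul_le h0] at hm
    exact mem_filter.2 ⟨mem_Icc.2 ⟨Nat.mul_pos h0 hm.1, mul_comm m M ▸ hm.2⟩, dvd_mul_right _ _⟩
  · exact Nat.eq_of_mul_eq_mul_left h0 e
  · obtain ⟨h3, c, rfl⟩ := mem_filter.1 hm
    rw [mem_Icc] at h3
    exact ⟨c, mem_Icc.2 ⟨Nat.pos_of_mul_pos_left h3.1, (Nat.le_div_iff_mul_le h0).2
      (mul_comm M c ▸ h3.2)⟩, rfl⟩
  · rw [Nat.mul_div_cancel_left _ h0, pow_mul, Nat.cast_mul, Rat.cast_ofNat]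
    field_simp

theorem fin {k K : ℕ} {a : ℤ} {u y s : ℚ_[2]} (hu : ‖u‖ ≤ (2 ^ k)⁻¹) (hy : ‖y‖ ≤ (2 ^ K)⁻¹)
    (hs : ‖s‖ ≤ (2 ^ (K + k))⁻¹) : ‖a * (u * y + s) / 2 ^ (K + k)‖ ≤ 1 := by
  have h2 : ‖(2 : ℚ_[2]) ^ (K + k)‖ = (2 ^ (K + k))⁻¹ := by
    rw [norm_pow, ← inv_pow]
    congr 1
    simpa using Padic.norm_p (p := 2)
  rw [norm_div, h2, div_le_one (by positivity), norm_mul]
  refine (mul_le_of_le_one_left (norm_nonneg _) (Padic.norm_int_le_one a)).trans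
    ((IsUltrametricDist.norm_add_le_max _ _).trans (max_le ?_ hs))
  rw [norm_mul, pow_add, mul_inv, mul_comm]
  gcongr

end TCORE

open TCORE in
theorem t_CORE (hTQX : TQX) (hORBS : ORBS) (hFAMT : FAMT) (hAH1 : AH1) (hTCX : TCX) (hZMX : ZMX)
    (hLAMF : LAMF) (hCORA : CORA) (hCX : CX) : CORE := by
  classical
  intro H k K n M κ T U hC T0 T1 hT hU
  refine (forall_and (p := fun _ => (CO H k M).Inv (EU M U))).1 (fun δ => ?_) |>.imp
    (fun h => h 1) id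
  have n0 : 0 < n := hC.odd.pos
  have kK := hC.le
  have e2 : M = 2 ^ k * (2 ^ (K - k) * n) := by
    rw [← mul_assoc, ← pow_add, Nat.add_sub_cancel' (by omega), hC.eq]
  have M1 : 1 < M := hC.eq ▸ (Nat.one_lt_two_pow (by omega)).trans_le (Nat.le_mul_of_pos_right _ n0)
  have M0 : M ≠ 0 := by omega
  have Mc : M.Coprime 15 := hC.eq ▸ Nat.Coprime.mul_left (Nat.Coprime.pow_left _ (by norm_num)) hC.cop
  have hH := hC.lh.1
  have hk : LH H k := ⟨hH, fun g hg => ((hZMX.2.2.1 k).2 g).1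
    (((hZMX.1 (2 ^ k) (by positivity)).2.2.2.2.1 _ g (by positivity)).1 (e2 ▸ hC.cy g hg)).1⟩
  obtain ⟨Y₀, η, hη, hY⟩ := hLAMF.2.1 ‖T‖ (2 ^ (K + k))⁻¹ T1 (by positivity)
  obtain ⟨X, t, S, a, hX, ft, nt, dt, hS, -, hA, eu, ev, eI, hd, -, hi⟩ :=
    hCORA H k K n M κ T U hC T0 T1 hT hU (Y₀ * M) η hη
  set c : ℚ := 15 * κ * (δ : ZMod M).val / 2 ^ (K + k) with hc
  obtain ⟨r, hr⟩ := Padic.rat_dense 2 (c * LNm S t : ℚ_[2]) one_pos
  have fI : ∀ i : Ix M, Fix S (Iv X (EPr M i) t) := fun i g hg => by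
    obtain ⟨h1, h2⟩ := (hA.st i g).1 hg
    have := eI g h1 i
    simp only [h2] at this
    exact this.symm
  have key := hFAMT H k M hk M0 ⟨_, e2⟩ hC.cy (Ix M) a _ (fun i => uX U i) (fun i => vX U i)
    (fun i => c * Iv X (EPr M i) t - (JPr M i * r / S.relIndex w2.D : ℚ)) (fun i => dI M i)
    (fun _ => 1) hA eu ev (fun g hg i => by
      have := eI g hg i
      simp only [map_sub, map_mul, map_ratCast, (hd g hg i).2] at this ⊢
      rw [this]) (fun g hg i => ⟨(hd g hg i).1, rfl⟩) fun i => ⟨(hi i i.2).1, (hi i i.2).2.1⟩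
  rw [sum_coe_sort (Ix M) fun i => Finsupp.single (uX U i, vX U i, dI M i) (1 : ℤ)] at key
  refine ⟨key.1, (key.2 δ fun i e => ?_).trans ?_⟩
  · rw [(hi i i.2).2.2.2, e, (((hTQX.2.2.2.2 S hS).2 _ ((fix_rat c).mul (fI i))).2.2.1 _
      (fix_rat _)).2, ((hTQX.2.2.2.2 S hS).2 _ (fI i)).2.2.2.2.1, trq_rat hTQX hS]
    refine ec_congr ?_
    rw [show ∀ x y : ℚ_[2], x - y = -(y - x) from fun x y => (neg_sub _ _).symm, norm_neg]
    refine le_of_eq_of_le ?_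
      (mul_le_one₀ (Padic.norm_int_le_one (p := 2) (JPr M i)) (norm_nonneg _) hr.le)
    rw [← norm_mul, hc]
    congr 1
    push_cast
    ring
  have s1 : ∀ {A : Type} [AddCommMonoid A] (f : IT → A),
      ∑ j ∈ univ.filter fun j : Ix M => dI M j.1 = δ, f j.1 =
      ∑ j ∈ Ix M with dI M j = δ, f j := fun f => by
    rw [sum_filter, sum_filter, sum_coe_sort (Ix M) fun j => if dI M j = δ then f j else 0]
  have g1 : gd M δ = ∑ j ∈ Ix M with dI M j = δ, EPr M j := by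
    unfold gd EPr
    congr
  have s2 : ∑ j ∈ univ.filter fun j : Ix M => dI M j.1 = δ, Iv X (EPr M j.1) t = Iv X (gd M δ) t := by
    rw [s1 fun j => Iv X (EPr M j) t, g1]
    simp only [Iv, map_sum, sum_mul, sum_div]
    exact sum_comm
  have s3 : ∑ j ∈ univ.filter fun j : Ix M => dI M j.1 = δ, (JPr M j.1 : Om) = 0 := by
    have := hCX M δ 0 M1 Mc
    rw [g1, map_sum] at this
    rw [s1 fun j => (JPr M j : Om)]
    simpa [coeff0, MP_8b7eba_nt.Mod.an_zero] using this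
  have fS : Fix H (SSd M δ) := fun g hg => ((hZMX.1 M M0).2.2.2.2.2.1 δ).2 g (hC.cy g hg)
  have fL : Fix H (SSd M δ * ∑ m ∈ Icc 1 (X / M), (an m : Om) * (t ^ M) ^ m / m) :=
    fS.mul (Fix.sum fun m _ => ((fix_int _).mul (ft.pow m)).div (fix_nat m))
  have fG : Fix H (Iv X (gd M δ) t) := Iv_gd hCX M1 Mc δ X t ▸ (fix_rat _).mul fL
  have y1 : ‖trq H (Iv X (gd M δ) t)‖ ≤ (2 ^ K)⁻¹ := by
    obtain ⟨-, ⟨R, hR⟩, h⟩ := hORBS H hH _ a _ hA
    rw [← s2, sum_filter, (h R hR _ fun g hg i => ?_).2.2.2.2.1]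
    · refine IsUltrametricDist.norm_sum_le_of_forall_le_of_nonneg (by positivity) fun i _ => ?_
      split_ifs
      exacts [(hi i i.2).2.2.1, by simp [(hTQX.2.2.2.2 S hS).1]]
    · simp only [(hd g hg i).1]
      split_ifs
      exacts [eI g hg i, (map_zero _).symm]
  have p1 : ‖T ^ M‖ ≤ ‖T‖ := by
    rw [norm_pow]
    exact pow_le_of_le_one (norm_nonneg _) T1.le M0
  have y2 : ‖trq H (Iv X (gd M δ) t) - 16 * trc H (i2 (SSd M δ) * lamf (T ^ M))‖ ≤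
      (2 ^ (K + k))⁻¹ := by
    obtain ⟨-, c1, -, c2, -⟩ := hTCX H hH
    rw [Iv_gd hCX M1 Mc, ((hTQX.2.2.2.2 H hH).2 _ fL).2.2.2.2.1, Rat.cast_ofNat, ← mul_sub,
      norm_mul]
    refine (mul_le_of_le_one_left (norm_nonneg _) (by simpa using Padic.norm_int_le_one (p := 2) 16)).trans
      (((c2 _ (((c2 _ (c1 _ fS).1).2.2.1 _ (hLAMF.1 H hH _ hT (p1.trans_lt T1))).2.2.1)).1 _ fL).trans ?_)
    rw [map_mul, ← mul_sub, norm_mul]
    refine (mul_le_of_le_one_left (norm_nonneg _) ?_).trans (hY _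
      ((Nat.le_div_iff_mul_le (by omega)).2 hX) _ _ p1 ?_ ?_)
    · rw [← t_BAS.2.2.1]
      exact_mod_cast ((hZMX.1 M M0).2.2.2.2.2.1 δ).1
    · rwa [map_pow, norm_pow, nt, ← norm_pow]
    · rw [map_pow]
      exact (pow_sub (nt ▸ T1.le) T1.le M).trans dt
  have y3 : ‖(((red (2 ^ k) δ⁻¹).val * (δ : ZMod M).val - 1 : ℤ) : ℚ_[2])‖ ≤ (2 ^ k)⁻¹ := by
    have h1 := TGEN.red_mul ⟨_, e2⟩ M0 δ⁻¹ δ
    rw [inv_mul_cancel, TGEN.red_one ⟨_, e2⟩ M0] at h1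
    have := (Padic.norm_int_le_pow_iff_dvd (p := 2) ((red (2 ^ k) δ⁻¹).val * (δ : ZMod M).val - 1)
      k).2 (by
        rw [← Nat.cast_pow, ← ZMod.intCast_zmod_eq_zero_iff_dvd]
        push_cast
        rw [ZMod.natCast_zmod_val, h1, red.eq_1 _ δ, sub_self])
    simpa using this
  simp only [Int.cast_one, one_mul, sum_sub_distrib, ← mul_sum, Rat.cast_div, Rat.cast_mul,
    Rat.cast_intCast, ← sum_div, ← sum_mul, s2, s3, zero_mul, zero_div, sub_zero]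
  rw [((hTQX.2.2.2.2 H hH).2 _ fG).2.2.2.2.1, ← ec_nat]
  refine ec_congr ?_
  convert fin (a := 15 * κ) y3 y1 y2 using 2
  rw [hc]
  push_cast
  ring

end Pool.Agent.P.MP_9c97e9_nt.KT
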