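import Pool.Agent.P.MP_9c97e9_nt.KT.IfEB
import Pool.Agent.P.MP_9c97e9_nt.KT.TBAS

/-! The sum of the traces. -/

namespace Pool.Agent.P.MP_9c97e9_nt.KT

open MP_8b7eba_nt.R2
open Finset

namespace TFINX

theorem mu_eq (c : ℚ_[2]) (K : ℕ) (x ζ : Om) (g : GQ) :
    i2 (g x) * muP (algebraMap ℚ_[2] ℂ_[2] c) K (i2 (g ζ)) = ∑ j ∈ range K,
      algebraMap ℚ_[2] ℂ_[2] ((1 - c) * (c / 2) ^ j) * i2 (g (x * (ζ ^ 2 ^ j - 1))) := by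
  rw [muP, mul_sum, mul_sum]
  refine sum_congr rfl fun j _ => ?_
  simp only [map_mul, map_sub, map_pow, map_one, map_div₀, map_ofNat]
  ring

theorem tr_mu (hTQX : TQX) (hTCX : TCX) {H : Subgroup GQ} (hH : w2.Loc H) (c : ℚ_[2]) (K : ℕ)
    {x ζ : Om} (hx : Fix H x) (hζ : Fix H ζ) :
    i2 x * muP (algebraMap ℚ_[2] ℂ_[2] c) K (i2 ζ) ∈ ClF H ∧
      algebraMap ℚ_[2] ℂ_[2] (trc H (i2 x * muP (algebraMap ℚ_[2] ℂ_[2] c) K (i2 ζ))) =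
        csum w2.D H fun g => i2 (g x) * muP (algebraMap ℚ_[2] ℂ_[2] c) K (i2 (g ζ)) := by
  obtain ⟨-, h1, h2, h3, h4⟩ := hTCX H hH
  have hr := hH.relIndex_ne le_rfl
  have hf : ∀ j, Fix H (x * (ζ ^ 2 ^ j - 1)) := fun j => hx.mul ((hζ.pow _).sub fix_one)
  have e := mu_eq c K x ζ 1
  simp only [AlgEquiv.one_apply] at e
  obtain ⟨h5, h6⟩ := h4 _ (range K) (fun j => algebraMap ℚ_[2] ℂ_[2] ((1 - c) * (c / 2) ^ j) *
    i2 (x * (ζ ^ 2 ^ j - 1))) fun j _ => ((h3 _ (h2 _)).2.2.1 _ (h1 _ (hf j)).1).2.2.1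
  simp only [mu_eq]
  rw [e, h6, map_sum, csum_sum hr]
  refine ⟨h5, sum_congr rfl fun j _ => ?_⟩
  rw [(h3 _ (h1 _ (hf j)).1).2.2.2.1, (h1 _ (hf j)).2, map_mul,
    ((hTQX.2.2.2.2 H hH).2 _ (hf j)).2.1]
  exact map_csum hr ((AddMonoidHom.mulLeft _).comp i2.toAddMonoidHom) _

end TFINX

open TFINX in
theorem t_FINX (hTQX : TQX) (hTCX : TCX) (hZMX : ZMX) : FINX := by
  intro D k W H ζ a b ε hH hcy hdl hζ ha hb h1 h2
  have hM : 2 ^ (k + 2) * D.n ≠ 0 := mul_ne_zero (by positivity) D.sq.ne_zero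
  have : NeZero (2 ^ (k + 2) * D.n) := ⟨hM⟩
  have hS := (hZMX.1 _ hM).2.2.2.2.2.1
  have hf : ∀ δ, Fix H (SSd (2 ^ (k + 2) * D.n) δ) := fun δ g hg => (hS δ).2 g (hcy g hg)
  have hX : D.XW k W = ∑ δ, (D.cW k W δ : Om) * SSd _ δ := finsum_eq_sum_of_fintype _
  have hXf : Fix H (D.XW k W) := hX ▸ Fix.sum fun δ _ => (fix_int _).mul (hf δ)
  have hXn : ‖i2 (D.XW k W)‖ ≤ 1 := by
    rw [← t_BAS.2.2.1, hX]
    exact_mod_cast w2.v.map_sum_le fun δ _ => by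
      rw [map_mul]
      exact mul_le_one' (w2.v_int_le _) (hS δ).1
  obtain ⟨k1, k2⟩ := tr_mu hTQX hTCX hH (jacobiSym 2 D.n * al0) (k + 2) (hXf.mul hdl) hζ
  obtain ⟨-, t1, t2, t3, t4⟩ := hTCX H hH
  have m1 := fun δ => ((t3 _ (t1 _ (hf δ)).1).2.2.1 a ha).2.2.1
  have m2 := fun δ => ((t3 _ (t1 _ (hf δ)).1).2.2.1 b hb).2.2.1
  have m3 := fun δ => (t3 _ (m1 δ)).2.2.1 _ (m2 δ)
  obtain ⟨k3, k4⟩ := t4 _ univ (fun δ => algebraMap ℚ_[2] ℂ_[2] (D.cW k W δ) *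
    (i2 (SSd _ δ) * a - i2 (SSd _ δ) * b)) fun δ _ => ((t3 _ (t2 _)).2.2.1 _ (m3 δ).2.1).2.2.1
  have e : ∑ δ, algebraMap ℚ_[2] ℂ_[2] (D.cW k W δ) * (i2 (SSd _ δ) * a - i2 (SSd _ δ) * b) =
      i2 (D.XW k W) * (a - b) := by
    rw [hX, map_sum, sum_mul]
    refine sum_congr rfl fun δ _ => ?_
    rw [map_mul, map_intCast, map_intCast]
    ring
  rw [e] at k3 k4
  have k5 := (t3 _ k1).2.2.1 _ k1
  have k6 := (t3 _ k3).2.2.1 _ k5.1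
  rw [finsum_eq_sum_of_fintype, Dat.al, ← k2, two_mul, ← map_add, ← map_sub, norm_algebraMap',
    ← k5.2.2.2.1, sum_congr rfl fun δ _ => by
      rw [← (m3 δ).2.2.2.2, ← (t3 _ (m3 δ).2.1).2.2.2.1], ← k4, ← k6.2.2.2.2]
  refine (t3 _ k6.2.1).2.1.trans ?_
  rw [← Dat.al, map_mul, show ∀ X d m : ℂ_[2], X * (a - b) - (X * d * m + X * d * m) =
    X * ((a - d * m) + -(b + d * m)) from fun X d m => by ring, norm_mul]
  refine (mul_le_of_le_one_left (norm_nonneg _) hXn).trans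
    ((IsUltrametricDist.norm_add_le_max _ _).trans (max_le h1 ?_))
  rwa [norm_neg]

end Pool.Agent.P.MP_9c97e9_nt.KT
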