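import Pool.Agent.P.MP_9c97e9_nt.KT.TANAA

/-! The 2-adic L-function modulo two. -/

namespace Pool.Agent.P.MP_9c97e9_nt.KT

open MP_8b7eba_nt MP_8b7eba_nt.R2 MP_8b7eba_nt.Mod
open Finset Polynomial

namespace TANA

theorem un_val {m : ℕ} (hm : Odd m) : (un (m : ℤ_[2]) : ℤ_[2]) = m := by
  have : IsUnit (m : ℤ_[2]) := by
    rw [PadicInt.isUnit_iff]
    exact PadicInt.norm_natCast_eq_one_iff.2 (Nat.coprime_two_left.2 hm)
  rw [un, dif_pos this, IsUnit.unit_spec]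

theorem un_mul {a b : ℕ} (ha : Odd a) (hb : Odd b) :
    un ((a * b : ℕ) : ℤ_[2]) = un (a : ℤ_[2]) * un (b : ℤ_[2]) :=
  Units.ext (by rw [Units.val_mul, un_val (ha.mul hb), un_val ha, un_val hb, Nat.cast_mul])

theorem mod_zero (k : ℕ) (x : ℤ_[2]) : PadicInt.toZModPow k x = 0 ↔ 2 ^ k ∣ x := by
  rw [← RingHom.mem_ker, PadicInt.ker_toZModPow, Ideal.mem_span_singleton, Nat.cast_ofNat]

theorem lz_lt (k m : ℕ) : lz k m < 2 ^ k := ZMod.val_lt _

theorem dvd_lz (k m : ℕ) : 2 ^ k ∣ lg (un (m : ℤ_[2])) - lz k m := by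
  rw [← mod_zero, map_sub, map_natCast, lz, ZMod.natCast_zmod_val, sub_self]

theorem lz_mul (k : ℕ) {a b : ℕ} (ha : Odd a) (hb : Odd b) :
    lz k (a * b) = (lz k a + lz k b) % 2 ^ k := by
  simp only [lz, un_mul ha hb, a_LG.1.mul, map_add, ZMod.val_add]

theorem lz_eq (k : ℕ) {a b : ℕ} (ha : Odd a) (hb : Odd b)
    (h : 2 ^ (k + 2) ∣ (a : ℤ_[2]) - b ∨ 2 ^ (k + 2) ∣ (a : ℤ_[2]) + b) : lz k a = lz k b := by
  have e : un (a : ℤ_[2]) = un (a : ℤ_[2]) * (un (b : ℤ_[2]))⁻¹ * un (b : ℤ_[2]) := by simp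
  have h1 : 2 ^ k ∣ lg (un (a : ℤ_[2]) * (un (b : ℤ_[2]))⁻¹) := by
    rw [a_LG.1.dvd, Units.val_mul, un_val ha]
    have e1 : (b : ℤ_[2]) * ((un (b : ℤ_[2]))⁻¹ : ℤ_[2]ˣ) = 1 := by
      rw [← un_val hb, un_val hb, ← Units.mul_inv (un (b : ℤ_[2])), un_val hb]
    refine h.imp (fun h => ?_) fun h => ?_
    · rw [← e1, ← sub_mul]; exact h.mul_right _
    · rw [← e1, ← add_mul]; exact h.mul_right _
  rw [lz, lz, e, a_LG.1.mul, map_add, (mod_zero _ _).2 h1, zero_add]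

theorem lz_add (k t : ℕ) {a : ℕ} (ha : Odd a) : lz k (a + t * 2 ^ (k + 2)) = lz k a :=
  lz_eq k (ha.add_even ⟨t * 2 ^ (k + 1), by ring⟩) ha (.inl ⟨t, by push_cast; ring⟩)

theorem lz_neg (k : ℕ) {a b t : ℕ} (ha : a % 2 = 1) (h : a + b = t * 2 ^ (k + 2)) :
    lz k a = lz k b := by
  have : a + b = 2 * (t * 2 ^ (k + 1)) := by rw [h]; ring
  exact lz_eq k (Nat.odd_iff.2 ha) (Nat.odd_iff.2 (by omega))
    (.inr ⟨t, by rw [← Nat.cast_add, h]; push_cast; ring⟩)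

theorem lg_ne {p : ℕ} (hp : Odd p) (h1 : 1 < p) : lg (un (p : ℤ_[2])) ≠ 0 := fun h => by
  have h2 := (a_LG.1.dvd p (un (p : ℤ_[2]))).1 (h ▸ dvd_zero _)
  rw [un_val hp] at h2
  have h3 : p + 1 < 2 ^ (p + 2) := by
    have := Nat.lt_two_pow_self (n := p + 2)
    omega
  have h4 : (2 ^ (p + 2) : ℤ) ∣ (p : ℤ) - 1 ∨ (2 ^ (p + 2) : ℤ) ∣ (p : ℤ) + 1 := by
    refine h2.imp (fun h => ?_) fun h => ?_
    · exact (PadicInt.pow_p_dvd_int_iff (p := 2) (p + 2) ((p : ℤ) - 1)).1 (by exact_mod_cast h)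
    · exact (PadicInt.pow_p_dvd_int_iff (p := 2) (p + 2) ((p : ℤ) + 1)).1 (by exact_mod_cast h)
  have h5 : (p : ℤ) + 1 < 2 ^ (p + 2) := by exact_mod_cast h3
  rcases h4 with h | h <;> have := Int.le_of_dvd (by omega) h <;> omega

theorem lz_val {p k : ℕ} (hp : Odd p) (h1 : 1 < p) (hk : (lg (un (p : ℤ_[2]))).valuation < k) :
    ∃ b, lz k p = 2 ^ (lg (un (p : ℤ_[2]))).valuation * (2 * b + 1) := by
  have key : ∀ j ≤ k, 2 ^ j ∣ lz k p ↔ j ≤ (lg (un (p : ℤ_[2]))).valuation := fun j hj => by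
    rw [← PadicInt.mem_span_pow_iff_le_valuation _ (lg_ne hp h1), Ideal.mem_span_singleton,
      Nat.cast_ofNat, dvd_iff_dvd_of_dvd_sub ((pow_dvd_pow 2 hj).trans (dvd_lz k p))]
    exact_mod_cast (PadicInt.pow_p_dvd_int_iff (p := 2) j (lz k p)).symm
  obtain ⟨c, hc⟩ := (key _ hk.le).2 le_rfl
  rcases Nat.even_or_odd' c with ⟨b, rfl | rfl⟩
  · exact absurd ((key _ hk).1 ⟨b, by rw [hc, pow_succ]; ring⟩) (by omega)
  · exact ⟨b, hc⟩

/-- truncated polynomials modulo two -/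
abbrev RR (k : ℕ) : Type := AdjoinRoot (X ^ 2 ^ k : (ZMod 2)[X])

/-- the group like elements -/
noncomputable def ss (k ν : ℕ) : RR k := AdjoinRoot.mk _ ((X + 1) ^ lz k ν)

theorem two_RR (k : ℕ) : (2 : RR k) = 0 := by
  rw [← map_ofNat (algebraMap (ZMod 2) (RR k)), show (OfNat.ofNat 2 : ZMod 2) = 0 from rfl, map_zero]

theorem frob (j : ℕ) : (X + 1 : (ZMod 2)[X]) ^ 2 ^ j = X ^ 2 ^ j + 1 := by
  rw [add_pow_char_pow, one_pow]

theorem gen_pow (k : ℕ) : (AdjoinRoot.mk _ (X + 1) : RR k) ^ 2 ^ k = 1 := by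
  rw [← map_pow, frob, map_add, AdjoinRoot.mk_self, zero_add, map_one]

theorem ss_mul (k : ℕ) {a b : ℕ} (ha : Odd a) (hb : Odd b) : ss k (a * b) = ss k a * ss k b := by
  simp only [ss, map_pow, lz_mul k ha hb, ← pow_add, ← pow_eq_pow_mod _ (gen_pow k)]

/-- the weights -/
noncomputable def WW (k M ν : ℕ) : RR k := vv ν M + vv (2 * ν) M

/-- the terms -/
noncomputable def GG (k d ν : ℕ) : RR k :=
  if ν.Coprime d then ss k ν * WW k (d * 2 ^ (k + 2)) ν else 0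

/-- the half sums -/
noncomputable def HH (k c d : ℕ) : RR k :=
  ∑ ν ∈ range (d * 2 ^ (k + 2)), if ν % 4 = c then GG k d ν else 0

theorem HH_sym (k : ℕ) {d : ℕ} (h0 : d ≠ 0) (hd : d.Coprime 15) : HH k 3 d = HH k 1 d := by
  refine sum_sym ⟨d * 2 ^ k, by ring⟩ fun a b ha h => ?_
  have h1 := mul_ne_zero h0 (pow_ne_zero (k + 2) two_ne_zero)
  have h2 := cop_lev hd (k + 2)
  have e1 : a.Coprime d ↔ b.Coprime d := by
    rw [← Nat.isCoprime_iff_coprime, ← Nat.isCoprime_iff_coprime,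
      show (a : ℤ) = -b + d * 2 ^ (k + 2) by exact_mod_cast by omega,
      IsCoprime.add_mul_left_left_iff, IsCoprime.neg_left_iff]
  have e2 : WW k (d * 2 ^ (k + 2)) a = WW k (d * 2 ^ (k + 2)) b := by
    rw [WW, WW, vv_neg (b := b) (t := 1) h1 h2 (by omega),
      vv_neg (a := 2 * a) (b := 2 * b) (t := 2) h1 h2 (by omega)]
    push_cast
    linear_combination (-(vv b _ + vv (2 * b) _ : RR k)) * two_RR k
  simp only [GG, e1, e2, ss, lz_neg k ha h]

theorem HH_step (k : ℕ) {d p : ℕ} (h0 : d ≠ 0) (hd : d.Coprime 15) (hp : p.Prime) (h2 : Odd p)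
    (h15 : ¬ p ∣ 15) (hpd : ¬ p ∣ d) :
    ss k p * HH k 1 (p * d) = (1 + ss k p) ^ 2 * HH k 1 d := by
  have h1 := mul_ne_zero h0 (pow_ne_zero (k + 2) two_ne_zero)
  have h3 := cop_lev hd (k + 2)
  have hc : p.Coprime d := (Nat.Prime.coprime_iff_not_dvd hp).2 hpd
  have hc2 : p.Coprime 2 := Nat.coprime_two_right.2 h2
  have hp4 : p % 4 = 1 ∨ p % 4 = 3 := by have := Nat.odd_iff.1 h2; omega
  have hH : HH k (p % 4) d = HH k 1 d := by
    rcases hp4 with h | h <;> rw [h]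
    exact HH_sym k h0 hd
  have hm : ∀ a, (a + d * 2 ^ (k + 2)) % 4 = a % 4 := fun a => by
    rw [pow_add, ← mul_assoc]; omega
  have hs : ∀ a, Odd a → ss k (a + d * 2 ^ (k + 2)) = ss k a := fun a ha => by
    rw [ss, ss, lz_add k d ha]
  have od : ∀ {a c}, a % 4 = c → c = 1 ∨ c = 3 → Odd a := fun h h' => Nat.odd_iff.2 (by omega)
  set f : ℕ → RR k := fun ν => if ν % 4 = 1 ∧ ν.Coprime d then ss k ν else 0 with hf
  have fper : ∀ a, f (a + d * 2 ^ (k + 2)) = f a := fun a => by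
    simp only [hf, hm, Nat.coprime_add_mul_left_left]
    split_ifs with h
    exacts [hs a (od h.1 (.inl rfl)), rfl]
  have e0 : ∑ a ∈ range (d * 2 ^ (k + 2)), f a * WW k (d * 2 ^ (k + 2)) a = HH k 1 d :=
    sum_congr rfl fun a _ => by
      simp only [hf, GG]
      by_cases h : a % 4 = 1 <;> by_cases h' : a.Coprime d <;> simp [h, h']
  have e1 : ∑ a ∈ range (d * 2 ^ (k + 2) * p), f a * WW k (d * 2 ^ (k + 2) * p) a =
      -∑ a ∈ range (d * 2 ^ (k + 2)), f a * WW k (d * 2 ^ (k + 2)) (p * a) := by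
    have a1 := push (u := 1) hp h15 h1 h3 (Nat.coprime_one_left p) fper
    have a2 := push (u := 2) hp h15 h1 h3 hc2.symm fper
    obtain ⟨r, hr⟩ := even_an hp h15 (by rintro rfl; exact absurd h2 (by decide))
    have a3 : (an p : RR k) = 0 := by rw [hr, ← two_mul]; push_cast; rw [two_RR, zero_mul]
    simp only [one_mul, a3, zero_mul, zero_sub] at a1 a2
    simp only [WW, mul_add, sum_add_distrib, a1, a2, neg_add]
  have e2 : ss k p * ∑ a ∈ range (d * 2 ^ (k + 2)), f a * WW k (d * 2 ^ (k + 2)) (p * a) =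
      HH k 1 d := by
    rw [← hH, HH, ← sum_mul_cop (u := p) (g := fun ν => if ν % 4 = p % 4 then GG k d ν else 0)
      (fun a => ?_) (Nat.Coprime.mul_right hc (hc2.pow_right _)), mul_sum]
    · refine sum_congr rfl fun a _ => ?_
      have e : p * a % 4 = p % 4 ↔ a % 4 = 1 := by
        rw [Nat.mul_mod]
        have := Nat.mod_lt a (by norm_num : 0 < 4)
        generalize a % 4 = r at this ⊢
        rcases hp4 with h | h <;> rw [h] <;> interval_cases r <;> simp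
      simp only [hf, GG, e, Nat.coprime_mul_iff_left, eq_true hc, true_and]
      by_cases h : a % 4 = 1 <;> by_cases h' : a.Coprime d <;> simp [h, h']
      rw [ss_mul k h2 (od h (.inl rfl)), mul_assoc]
    · simp only [hm, GG, Nat.coprime_add_mul_left_left]
      split_ifs with h h'
      · rw [hs a (od h hp4), WW, WW, mul_add 2 a, vv_add, ← vv_add a _ 1, one_mul]
      · rfl
      · rfl
  have e3 : ∑ a ∈ range (d * 2 ^ (k + 2) * p),
      (if p ∣ a then f a * WW k (d * 2 ^ (k + 2) * p) a else 0) = ss k p * HH k 1 d := by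
    rw [sum_dvd _ _ hp.pos, ← hH, HH, mul_sum]
    refine sum_congr rfl fun a _ => ?_
    have e : p * a % 4 = 1 ↔ a % 4 = p % 4 := by
      rw [Nat.mul_mod]
      have := Nat.mod_lt a (by norm_num : 0 < 4)
      generalize a % 4 = r at this ⊢
      rcases hp4 with h | h <;> rw [h] <;> interval_cases r <;> simp
    simp only [hf, GG, e, Nat.coprime_mul_iff_left, eq_true hc, true_and, WW, mul_comm _ p,
      mul_left_comm 2 p, vv_mul hp.ne_zero]
    by_cases h : a % 4 = p % 4 <;> by_cases h' : a.Coprime d <;> simp [h, h']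
    rw [ss_mul k h2 (od h hp4), mul_assoc]
  have e4 : HH k 1 (p * d) = ∑ a ∈ range (d * 2 ^ (k + 2) * p), f a * WW k (d * 2 ^ (k + 2) * p) a -
      ∑ a ∈ range (d * 2 ^ (k + 2) * p),
        (if p ∣ a then f a * WW k (d * 2 ^ (k + 2) * p) a else 0) := by
    rw [← sum_sub_distrib, HH]
    simp only [GG, show p * d * 2 ^ (k + 2) = d * 2 ^ (k + 2) * p by ring]
    refine sum_congr rfl fun a _ => ?_
    have e : a.Coprime p ↔ ¬ p ∣ a := by rw [Nat.coprime_comm, hp.coprime_iff_not_dvd]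
    simp only [hf, Nat.coprime_mul_iff_right, e]
    by_cases h : a % 4 = 1 <;> by_cases h' : a.Coprime d <;> by_cases h'' : p ∣ a <;>
      simp [h, h', h'']
  rw [e4, e1, e3, mul_sub, mul_neg, e2]
  linear_combination (-(1 + ss k p + ss k p ^ 2) * HH k 1 d) * two_RR k

/-- the expected order of vanishing -/
noncomputable def sg (d : ℕ) : ℕ := ∑ p ∈ d.primeFactors, 2 ^ (lg (un (p : ℤ_[2]))).valuation

theorem one_add (y : (ZMod 2)[X]) (hy : y.coeff 0 = 0) (b : ℕ) :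
    ∃ u : (ZMod 2)[X], u.coeff 0 = 1 ∧ 1 + (y + 1) ^ (2 * b + 1) = y * u := by
  have h2 : (2 : (ZMod 2)[X]) = 0 := CharTwo.two_eq_zero
  induction b with
  | zero => exact ⟨1, by simp, by linear_combination h2⟩
  | succ b ih =>
    obtain ⟨u, h0, h⟩ := ih
    refine ⟨u + y * (y * u + 1), by simp [h0, hy], ?_⟩
    rw [show 2 * (b + 1) + 1 = 2 * b + 1 + 2 by ring, pow_add, eq_sub_of_add_eq' h]
    linear_combination (y ^ 2 * u - y - y ^ 2) * h2

theorem HH_eq (k d : ℕ) : Squarefree d → Odd d → d.Coprime 15 → sg d ≤ k →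
    ∃ u : (ZMod 2)[X], u.coeff 0 = 1 ∧ HH k 1 d = AdjoinRoot.mk _ (X ^ (2 * sg d) * u) := by
  induction d using induction_on_primes with
  | zero => exact fun h => absurd h not_squarefree_zero
  | one =>
    intro _ _ _ _
    refine ⟨∑ ν ∈ range (2 ^ (k + 2)), C (((if ν % 4 = 1 then 1 else 0 : ℤ) *
      (vv ν (2 ^ (k + 2)) + vv (2 * ν) (2 ^ (k + 2))) : ℤ) : ZMod 2) * (X + 1) ^ lz k ν, ?_, ?_⟩
    · simp only [finsetSum_coeff, coeff_C_mul, coeff_X_add_one_pow, Nat.choose_zero_right,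
        Nat.cast_one, mul_one]
      rw [← Int.cast_sum]
      exact (ZMod.intCast_eq_one_iff_odd).2 (base k)
    · simp only [sg, Nat.primeFactors_one, sum_empty, mul_zero, pow_zero, one_mul, map_sum, HH, GG,
        Nat.coprime_one_right_eq_true, if_true, map_mul, map_intCast]
      refine sum_congr rfl fun a _ => ?_
      split_ifs <;> simp [ss, WW, mul_comm]
  | prime_mul p d hp ih =>
    intro hs ho hc hk
    obtain ⟨hpd, -, hd⟩ := Nat.squarefree_mul_iff.1 hs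
    have hpd' := (hp.coprime_iff_not_dvd).1 hpd
    have e : sg (p * d) = 2 ^ (lg (un (p : ℤ_[2]))).valuation + sg d := by
      rw [sg, hpd.primeFactors_mul, hp.primeFactors, sum_union, sum_singleton, sg]
      simp [hpd']
    have h2 := Nat.Odd.of_mul_left ho
    obtain ⟨u, u0, hu⟩ := ih hd (Nat.Odd.of_mul_right ho) (Nat.Coprime.coprime_mul_left hc)
      ((Nat.le_add_left _ _).trans (e ▸ hk))
    obtain ⟨b, hb⟩ := lz_val (k := k) h2 hp.one_lt (by
      have := Nat.lt_two_pow_self (n := (lg (un (p : ℤ_[2]))).valuation)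
      omega)
    obtain ⟨u', u1, hu'⟩ := one_add (X ^ 2 ^ (lg (un (p : ℤ_[2]))).valuation)
      (by rw [coeff_X_pow, if_neg (by positivity)]) b
    have h := HH_step k hd.ne_zero (Nat.Coprime.coprime_mul_left hc) hp h2
      ((hp.coprime_iff_not_dvd).1 (Nat.Coprime.coprime_mul_right hc)) hpd'
    have hi : AdjoinRoot.mk _ ((X + 1) ^ (lz k p * (2 ^ k - 1))) * ss k p = 1 := by
      rw [ss, ← map_mul, ← pow_add, ← Nat.mul_succ, Nat.succ_eq_add_one,
        Nat.sub_add_cancel Nat.one_le_two_pow, map_pow, mul_comm, pow_mul, gen_pow, one_pow]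
    have h1 : 1 + ss k p = AdjoinRoot.mk _ (X ^ 2 ^ (lg (un (p : ℤ_[2]))).valuation * u') := by
      rw [← hu', ss, hb, pow_mul, frob, map_add, map_one]
    refine ⟨(X + 1) ^ (lz k p * (2 ^ k - 1)) * u' ^ 2 * u, ?_, ?_⟩
    · simp [coeff_zero_eq_eval_zero] at u0 u1 ⊢
      simp [u0, u1]
    · rw [← one_mul (HH k 1 (p * d)), ← hi, mul_assoc, h, h1, hu, e, ← map_pow, ← map_mul, ← map_mul]
      exact congrArg _ (by ring)

theorem odd_coeff {k d : ℕ} (hs : Squarefree d) (ho : Odd d) (hc : d.Coprime 15)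
    (hk : 2 * sg d ≤ k) : Odd (∑ ν ∈ range (d * 2 ^ (k + 2)),
      (if ν % 4 = 1 ∧ ν.Coprime d then 1 else 0 : ℤ) * (vv ν (d * 2 ^ (k + 2)) +
        vv (2 * ν) (d * 2 ^ (k + 2))) * (lz k ν).choose (2 * sg d)) := by
  obtain ⟨u, u0, hu⟩ := HH_eq k d hs ho hc (by omega)
  have e : HH k 1 d = AdjoinRoot.mk _ (∑ ν ∈ range (d * 2 ^ (k + 2)),
      C (((if ν % 4 = 1 ∧ ν.Coprime d then 1 else 0 : ℤ) * (vv ν (d * 2 ^ (k + 2)) +
        vv (2 * ν) (d * 2 ^ (k + 2))) : ℤ) : ZMod 2) * (X + 1) ^ lz k ν) := by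
    simp only [map_sum, HH, GG, map_mul, map_intCast]
    refine sum_congr rfl fun a _ => ?_
    by_cases h : a % 4 = 1 <;> by_cases h' : a.Coprime d <;> simp [h, h', ss, WW, mul_comm]
  rw [e, AdjoinRoot.mk_eq_mk, X_pow_dvd_iff] at hu
  have h1 := hu (2 * sg d) (lt_of_le_of_lt hk Nat.lt_two_pow_self)
  rw [coeff_sub, coeff_X_pow_mul', if_pos le_rfl, Nat.sub_self, u0, sub_eq_zero] at h1
  simp only [finsetSum_coeff, coeff_C_mul, coeff_X_add_one_pow] at h1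
  rw [← ZMod.intCast_eq_one_iff_odd, ← h1]
  push_cast
  rfl

end TANA

end Pool.Agent.P.MP_9c97e9_nt.KT
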