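import Pool.Agent.P.MP_9c97e9_nt.KT.IfJ
import Pool.Agent.P.MP_9c97e9_nt.KT.TBAS
import Pool.Agent.P.MP_9c97e9_nt.KT.TANAB

/-! Proof of CYB. -/

namespace Pool.Agent.P.MP_9c97e9_nt.KT

open MP_8b7eba_nt.R2 Polynomial

namespace TCYB

theorem prim {M : ℕ} (h : M ≠ 0) : ∃ z : Om, IsPrimitiveRoot z M := by
  have : NeZero M := ⟨h⟩
  exact HasEnoughRootsOfUnity.exists_primitiveRoot Om M

theorem cy_eq {M : ℕ} (h : M ≠ 0) {z : Om} (hz : IsPrimitiveRoot z M) {g : GQ} {m : ℕ}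
    (e : g z = z ^ m) : (cy M g : ZMod M) = m := by
  have : NeZero M := ⟨h⟩
  rw [t_BAS.2.1 M h g z hz.pow_eq_one, (hz.isOfFinOrder h).pow_eq_pow_iff_modEq,
    ← hz.eq_orderOf, ← ZMod.natCast_eq_natCast_iff, ZMod.natCast_zmod_val] at e
  exact e

theorem un_eq {R : Type} [Monoid R] (u : Rˣ) : un (u : R) = u := by
  rw [un, dif_pos u.isUnit, IsUnit.unit_of_val_units]

theorem surj {M : ℕ} (h : M ≠ 0) : Function.Surjective (cy M) := fun δ => by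
  have : NeZero M := ⟨h⟩
  obtain ⟨z, hz⟩ := prim h
  have h1 := hz.pow_of_coprime _ (ZMod.val_coe_unit_coprime δ)
  have h2 : minpoly ℚ (z ^ (δ : ZMod M).val) = minpoly ℚ z := by
    convert (cyclotomic_eq_minpoly_rat h1 (Nat.pos_of_ne_zero h)).symm.trans
      (cyclotomic_eq_minpoly_rat hz (Nat.pos_of_ne_zero h)) <;> exact Subsingleton.elim _ _
  obtain ⟨g, hg⟩ := (Normal.minpoly_eq_iff_mem_orbit Om).1 h2
  exact ⟨g, Units.ext ((cy_eq h hz hg).trans (ZMod.natCast_zmod_val _))⟩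

theorem on {M : ℕ} (h : M ≠ 0) : ON (cy M).ker := by
  obtain ⟨z, hz⟩ := prim h
  refine ⟨inferInstance, ?_⟩
  have : (cy M).ker = MulAction.stabilizer GQ z := by
    ext g
    rw [MonoidHom.mem_ker, MulAction.mem_stabilizer_iff]
    refine ⟨fun e => ?_, fun e => Units.ext ?_⟩
    · have h1 := t_BAS.2.1 M h g z hz.pow_eq_one
      rw [e, Units.val_one, ZMod.val_one_eq_one_mod, hz.eq_orderOf, pow_mod_orderOf,
        pow_one] at h1
      exact h1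
    · simpa using cy_eq h hz (g := g) (m := 1) (by simpa using e)
  rw [this]
  exact isOpen_stab z

theorem comp {M N : ℕ} (h : M ≠ 0) (hd : M ∣ N) (hN : N ≠ 0) (g : GQ) :
    ZMod.unitsMap hd (cy N g) = cy M g := by
  have : NeZero N := ⟨hN⟩
  obtain ⟨z, hz⟩ := prim h
  refine Units.ext ?_
  rw [cy_eq h hz (t_BAS.2.1 N hN g z ((hz.pow_eq_one_iff_dvd N).2 hd)), ZMod.unitsMap_val,
    ZMod.natCast_val]

theorem frob {M : ℕ} (h : M ≠ 0) {w : Pl} (hw : ¬ w.p ∣ M) {f : ℕ} {φ : GQ} (hφ : w.IsFrob f φ) :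
    (cy M φ : ZMod M) = (w.p ^ f : ℕ) := by
  obtain ⟨z, hz⟩ := prim h
  have h2 := hz.pow_eq_one
  exact cy_eq h hz (Pl.root_eq hw (by rw [← map_pow, h2, map_one])
    (by rw [pow_right_comm, h2, one_pow]) (hφ.2 _ (Pl.v_root h h2).le))

theorem key {M j : ℕ} (h : M ≠ 0) (hd : 2 ^ j ∣ M) (g : GQ) :
    2 ^ j ∣ (cyc g : ℤ_[2]) - ((cy M g : ZMod M).val : ℕ) := by
  obtain ⟨z, hz⟩ := prim (M := 2 ^ j) (by positivity)
  exact a_EC.2.2.2.1 g j _ z hz (t_BAS.2.1 M h g z ((hz.pow_eq_one_iff_dvd M).2 hd))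

theorem lg_congr (k : ℕ) {u v : ℤ_[2]ˣ} (h : 2 ^ (k + 2) ∣ (u : ℤ_[2]) - v) :
    PadicInt.toZModPow k (lg u) = PadicInt.toZModPow k (lg v) := by
  have h1 : 2 ^ k ∣ lg (u * v⁻¹) := by
    rw [a_LG.1.dvd, Units.val_mul, ← Units.mul_inv v, ← sub_mul]
    exact .inl (h.mul_right _)
  rw [← inv_mul_cancel_right u v, a_LG.1.mul, map_add, (TANA.mod_zero _ _).2 h1, zero_add]

theorem odd {k : ℕ} (δ : (ZMod (2 ^ (k + 2)))ˣ) : Odd (δ : ZMod (2 ^ (k + 2))).val :=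
  Nat.coprime_two_right.1 ((ZMod.val_coe_unit_coprime δ).coprime_dvd_right
    (dvd_pow_self 2 (by omega)))

theorem dvd_of {j a b : ℕ} (h : (a : ZMod (2 ^ j)) = b) : 2 ^ j ∣ (a : ℤ_[2]) - b := by
  have := map_dvd (Int.castRingHom ℤ_[2]) ((ZMod.natCast_eq_natCast_iff _ _ _).1 h.symm).dvd
  simpa using this

theorem lu_cy (k : ℕ) (g : GQ) : lu k (cy _ g) = (Ps k g).val := by
  rw [lu, lz, Ps, lg_congr k (u := cyc g)]
  rw [TANA.un_val (odd _)]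
  exact key (by positivity) dvd_rfl g

end TCYB

open TCYB in
theorem t_CYB : CYB := by
  refine ⟨fun M h => ⟨surj h, on h, fun N hd hN => comp h hd hN, fun w hw => ⟨fun g hg =>
    Units.ext (by simpa using frob h hw (Pl.isFrob_zero.2 hg)), fun φ hφ => ?_⟩⟩,
    fun w φ hw hφ => ?_, fun k => ⟨lu_cy k, fun δ => ⟨TANA.lz_lt _ _, ?_⟩, fun δ η => ?_,
      fun ν hν => ?_, fun j => ⟨fun σ => ?_, fun σ σ' e => ?_⟩, fun M W h hd h1 h2 =>
        ⟨h1, fun σ σ' e => h2 σ σ' ?_⟩⟩⟩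
  · have h1 := frob h hw hφ
    rw [pow_one] at h1
    exact ⟨by rw [← h1, un_eq], h1⟩
  · have ho : Odd w.p := w.prime.odd_of_ne_two hw
    have h1 := a_EC.2.2.2.2.2.1 w 1 φ hw hφ
    rw [pow_one] at h1
    have h2 : cyc φ = un (w.p : ℤ_[2]) := by rw [← h1, un_eq]
    refine ⟨by rw [la, h2]; exact TANA.lg_ne ho w.prime.one_lt, fun k hk => ?_⟩
    have h3 : (w.p : ZMod (2 ^ (k + 2))) = (1 : ℕ) := (ZMod.natCast_eq_natCast_iff _ _ _).2 hk
    have h4 : 2 ^ k ∣ la φ := by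
      rw [la, a_LG.1.dvd, h1]
      exact .inl (by simpa using dvd_of h3)
    refine ⟨h4, (TANA.mod_zero _ _).2 h4, Units.ext ?_⟩
    rw [frob (by positivity) (fun e => hw ((Nat.prime_dvd_prime_iff_eq w.prime Nat.prime_two).1
      (w.prime.dvd_of_dvd_pow e))) hφ, pow_one, h3, Nat.cast_one, Units.val_one]
  · refine TANA.lz_eq k (odd _) (odd _) (.inr ?_)
    have := dvd_of (j := k + 2) (b := 0) (a := ((-δ : (ZMod (2 ^ (k + 2)))ˣ) :
      ZMod (2 ^ (k + 2))).val + (δ : ZMod (2 ^ (k + 2))).val) (by simp)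
    simpa using this
  · rw [lu, lu, lu, TANA.lz_eq k (odd _) ((odd δ).mul (odd η)) (.inl (dvd_of (by simp))),
      TANA.lz_mul k (odd δ) (odd η), ZMod.natCast_mod, Nat.cast_add]
  · have hu : IsUnit (ν : ZMod (2 ^ (k + 2))) :=
      (ZMod.isUnit_iff_coprime _ _).2 ((Nat.coprime_two_right.2 hν).pow_right _)
    refine TANA.lz_eq k (odd _) hν (.inl (dvd_of ?_))
    rw [ZMod.natCast_zmod_val, un, dif_pos hu, IsUnit.unit_spec]
  · unfold ind
    split_ifs <;> simp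
  · unfold ind
    rw [← lu_cy, ← lu_cy, e]
  · have h3 := key h hd σ
    have h4 := key h hd σ'
    rw [e] at h3
    simpa using dvd_sub h3 h4

end Pool.Agent.P.MP_9c97e9_nt.KT
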