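import Pool.Agent.P.MP_9c97e9_nt.KT.IfX
import Pool.Agent.P.MP_9c97e9_nt.KT.TCYB

/-! Gauss sums. -/

namespace Pool.Agent.P.MP_9c97e9_nt.KT

open MP_8b7eba_nt.R2 Finset Complex
open scoped Real

namespace TGSX

theorem io_zM (h : EV2) (n : ℕ) (a : ℕ) : io (zM n a) = cexp (2 * π * I * (a / n)) := by
  obtain ⟨⟨f, hf⟩, -⟩ := h
  rw [zM, (hf _).2.1]
  exact congrArg (fun x : ℂ => cexp (2 * π * I * (x / n))) (Int.cast_natCast a)

theorem io_pow (h : EV2) (n a m : ℕ) : io (zM n a ^ m) = cexp (2 * π * I * (a * m / n)) := by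
  rw [map_pow, io_zM h, ← Complex.exp_nat_mul]
  congr 1
  ring

theorem gs (h : EV2) (D : Dat) :
    ∃ s : ℤˣ, ∑ a ∈ range D.n, (jacobiSym a D.n : Om) * zM D.n a = (s : ℤ) * D.dl := by
  have h1 : (∑ a ∈ range D.n, (jacobiSym a D.n : Om) * zM D.n a) ^ 2 = D.dl ^ 2 := by
    apply io.injective
    rw [D.hdl, map_pow, map_sum]
    simp only [map_mul, map_intCast, io_zM h]
    rw [All.l_gauss D.sq D.n4, mul_pow, I_sq, ← ofReal_pow, Real.sq_sqrt (Nat.cast_nonneg _)]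
    simp
  rcases sq_eq_sq_iff_eq_or_eq_neg.1 h1 with e | e
  · exact ⟨1, by simpa using e⟩
  · exact ⟨-1, by simpa using e⟩

theorem key (hB : BAS) (h : EV2) (D : Dat) {M : ℕ} (g : GQ) (hM : M ≠ 0) (hd : D.n ∣ M) :
    sd D.dl g = jacobiSym (cy M g : ZMod M).val D.n := by
  have h4 := D.n4
  have hn : (D.n : ℂ) ≠ 0 := Nat.cast_ne_zero.2 (by omega)
  obtain ⟨τ, -, hτ⟩ := MP_8b7eba_nt.BSD15.exists_gauss (n := D.n) (by omega)
    (Nat.odd_iff.2 (by omega)) D.sq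
  obtain ⟨s, hs⟩ := gs h D
  have h1 : ∀ a : ℕ, zM D.n a ^ M = 1 := fun a => by
    obtain ⟨c, rfl⟩ := hd
    apply io.injective
    rw [io_pow h, map_one, ← exp_nat_mul_two_pi_mul_I (a * c)]
    congr 1
    push_cast
    field_simp
  have h2 : g (∑ a ∈ range D.n, (jacobiSym a D.n : Om) * zM D.n a) =
      (jacobiSym (cy M g : ZMod M).val D.n : Om) *
        ∑ a ∈ range D.n, (jacobiSym a D.n : Om) * zM D.n a := by
    apply io.injective
    have h3 := hτ 1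
    simp only [Nat.cast_one, mul_one, jacobiSym.one_left, Int.cast_one, one_mul] at h3
    simp only [map_sum, map_mul, map_intCast, hB.2.1 M hM g _ (h1 _), io_pow h, io_zM h, hτ, h3]
  have h5 : D.dl ≠ 0 := fun e => by
    have := D.hdl
    rw [e, zero_pow two_ne_zero, eq_comm, neg_eq_zero, Nat.cast_eq_zero] at this
    omega
  rw [hs, map_mul, map_intCast, sd_apply (δ := D.dl) (by rw [D.hdl]; exact (fix_nat _).neg),
    mul_left_comm] at h2
  exact_mod_cast mul_right_cancel₀ (mul_ne_zero (Int.cast_ne_zero.2 s.ne_zero) h5) h2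

end TGSX

theorem t_GSX (hBAS : BAS) (hEV2 : EV2) : GSX := by
  refine fun D => ⟨TGSX.gs hEV2 D, fun M g => TGSX.key hBAS hEV2 D g, fun f φ hφ => ?_⟩
  have h4 := D.n4
  have h0 : D.n ≠ 0 := by omega
  rw [TGSX.key hBAS hEV2 D φ h0 dvd_rfl, TCYB.frob h0 (show ¬ 2 ∣ D.n by omega) hφ,
    ZMod.val_natCast, Int.natCast_mod, ← jacobiSym.mod_left, ← jacobiSym.pow_left]
  rfl

end Pool.Agent.P.MP_9c97e9_nt.KT
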