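import Pool.Agent.P.MP_9c97e9_nt.KT.TNLP
import Pool.Agent.P.MP_9c97e9_nt.KT.TBAS

/-! The sum over all lifts. -/

namespace Pool.Agent.P.MP_9c97e9_nt.KT

open MP_8b7eba_nt.R2

namespace TNA

open TNLP

/-- a row vector times a matrix -/
def vm {R : Type} [CommRing R] (a b c d : R) (v : R × R) : R × R :=
  (v.1 * a + v.2 * c, v.1 * b + v.2 * d)

theorem mv_inj {R : Type} [CommRing R] {a b c d : R} (h : IsUnit (a * d - b * c)) :
    Function.Injective (vm a b c d) := fun v w e => by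
  have h1 := congrArg Prod.fst e
  have h2 := congrArg Prod.snd e
  simp only [vm] at h1 h2
  exact Prod.ext (h.mul_left_cancel (by linear_combination d * h1 - c * h2))
    (h.mul_left_cancel (by linear_combination a * h2 - b * h1))

theorem dv_self {M : ℕ} (v w : VZ M) : dv M v w = v.1 * w.2 - v.2 * w.1 := ZMod.cast_id _ _

theorem un_eq {R : Type} [Monoid R] (u : Rˣ) : un (u : R) = u := by
  rw [un, dif_pos u.isUnit, IsUnit.unit_of_val_units]

theorem comp {M N : ℕ} (h : M ≠ 0) (hd : M ∣ N) (hN : N ≠ 0) (g : GQ) :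
    ZMod.unitsMap hd (cy N g) = cy M g := by
  have : NeZero N := ⟨hN⟩
  have : NeZero M := ⟨h⟩
  obtain ⟨z, hz⟩ := HasEnoughRootsOfUnity.exists_primitiveRoot Om M
  have e := (t_BAS.2.1 N hN g z ((hz.pow_eq_one_iff_dvd N).2 hd)).symm
  rw [t_BAS.2.1 M h g z hz.pow_eq_one, (hz.isOfFinOrder h).pow_eq_pow_iff_modEq,
    ← hz.eq_orderOf, ← ZMod.natCast_eq_natCast_iff, ZMod.natCast_val, ZMod.natCast_val,
    ZMod.cast_id] at e
  exact Units.ext e

theorem un_mul {R : Type} [Monoid R] {a : R} (h : IsUnit a) (u : Rˣ) : un (a * u) = un a * u := by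
  obtain ⟨v, rfl⟩ := h
  rw [← Units.val_mul, un_eq, un_eq]

variable {M p : ℕ}

/-- the reduction of a vector -/
def rd (M : ℕ) {M' : ℕ} (v : VZ M') : VZ M := (ZMod.cast v.1, ZMod.cast v.2)

theorem dv_rd (v w : VZ (M * p)) : dv M v w = dv M (rd M v) (rd M w) := by
  rw [dv_self]
  simp only [dv, rd, c1, map_sub, map_mul]

theorem rd_mv (a b c d : ZMod (M * p)) (v : VZ (M * p)) : rd M (vm a b c d v) =
    vm (ZMod.cast a) (ZMod.cast b) (ZMod.cast c) (ZMod.cast d) (rd M v) := by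
  simp only [rd, vm, c1, map_add, map_mul]

variable [NeZero (M * p)]

open Classical in
/-- the fibres of the reduction -/
noncomputable def fb (p : ℕ) [NeZero (M * p)] (y : VZ M) : Finset (VZ (M * p)) :=
  Finset.univ.filter fun v => rd M v = y

theorem fb_mv {a b c d : ZMod (M * p)} (h : IsUnit (a * d - b * c)) (y : VZ M) :
    (fb p (vm (ZMod.cast a) (ZMod.cast b) (ZMod.cast c) (ZMod.cast d) y)).val =
      (fb p y).val.map (vm a b c d) := by
  have h1 := h.map (ZMod.castHom (Nat.dvd_mul_right M p) (ZMod M))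
  rw [map_sub, map_mul, map_mul] at h1
  refine congrArg Finset.val (?_ : _ = (fb p y).map ⟨_, mv_inj h⟩)
  ext w
  obtain ⟨v, rfl⟩ := Finite.injective_iff_surjective.1 (mv_inj h) w
  refine Iff.trans ?_ (Finset.mem_map' _).symm
  simp only [fb, Finset.mem_filter, Finset.mem_univ, true_and, rd_mv]
  exact (mv_inj h1).eq_iff

theorem prod_ug (hUT : UT) (hUD : UD) (b : ZMod 15) (y : VZ M) {z : ℂ} (hz : 0 < z.im) :
    ∏ v ∈ fb p y, ug (M * p) b v z = ug M (p * b) y z := by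
  classical
  have hM : M ≠ 0 := left_ne_zero_of_mul (NeZero.ne (M * p))
  have hp : p ≠ 0 := right_ne_zero_of_mul (NeZero.ne (M * p))
  have : NeZero M := ⟨hM⟩
  have e1 : fb p y = (Finset.univ.filter fun x : ZMod (M * p) => ZMod.cast x = y.1) ×ˢ
      (Finset.univ.filter fun x : ZMod (M * p) => ZMod.cast x = y.2) := by
    ext v
    simp [fb, rd, Prod.ext_iff]
  rw [e1, Finset.prod_product, prod_fib y.1 _ fun x => by simp,
    per hUT hM (β := p * b.val) (n₁ := y.1.val) (n₂ := y.2.val) (by simp) (by simp) (by simp) hz]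
  have h0 : (M : ℚ) ≠ 0 := Nat.cast_ne_zero.2 hM
  have h1 : (p : ℚ) ≠ 0 := Nat.cast_ne_zero.2 hp
  have e := (hUD p b.val (y.1.val / (M * p)) (y.2.val / (M * p)) z hp hz).1
  convert e using 2 with i hi
  · rw [prod_fib y.2 _ fun x => by simp]
    refine Finset.prod_congr rfl fun j _ => ?_
    rw [per hUT (NeZero.ne _) (β := b.val) (n₁ := (y.1.val + M * i : ℕ))
      (n₂ := (y.2.val + M * j : ℕ)) (by simp) (Int.cast_natCast _) (Int.cast_natCast _) hz]
    congr 1 <;> push_cast <;> field_simp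
  · push_cast
    field_simp
  · push_cast
    field_simp

open Classical in
theorem sum_sub {A X : Type} [Fintype A] [AddCommMonoid X] [NeZero M] (F : A → VZ M → VZ M → X) :
    ∑ j : A × {q : VZ M × VZ M // IsUnit (dv M q.1 q.2)}, F j.1 j.2.1.1 j.2.1.2 =
      ∑ b, ∑ y, ∑ y', if IsUnit (dv M y y') then F b y y' else 0 := by
  rw [Fintype.sum_prod_type]
  refine Finset.sum_congr rfl fun b _ => ?_
  rw [← Fintype.sum_prod_type', ← Finset.sum_filter]
  exact (Finset.sum_subtype _ (by simp) fun q : VZ M × VZ M => F b q.1 q.2).symm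

open Classical in
theorem sum_fb {X : Type} [AddCommMonoid X] [NeZero M] (F : VZ (M * p) → VZ (M * p) → ZMod M → X) :
    (∑ y, ∑ y', if IsUnit (dv M y y') then ∑ v ∈ fb p y, ∑ v' ∈ fb p y', F v v' (dv M y y') else 0) =
      ∑ v, ∑ v', if IsUnit (dv M v v') ∧ True then F v v' (dv M v v') else 0 := by
  rw [← Finset.sum_fiberwise Finset.univ (rd M (M' := M * p))]
  refine Finset.sum_congr rfl fun y _ => ?_
  rw [Finset.sum_comm, ← Finset.sum_fiberwise Finset.univ (rd M (M' := M * p))]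
  refine Finset.sum_congr rfl fun y' _ => ?_
  refine Eq.trans ?_ Finset.sum_comm
  refine Eq.trans ?_ (Finset.sum_congr rfl fun v hv => Finset.sum_congr rfl fun v' hv' => by
    rw [dv_rd, (Finset.mem_filter.1 hv).2, (Finset.mem_filter.1 hv').2]).symm
  by_cases h : IsUnit (dv M y y')
  · simp only [h, true_and, if_true]
    rfl
  · simp [h]

end TNA

open TNA TNLP in
theorem t_NA (hFB : FB) (hBIM : BIM) (hCOK : COK) (hUT : UT) (hUD : UD) (hEXA : EXA)
    (hEINV : EINV) (hUNITS : UNITS) : NA := by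
  classical
  rintro k M _ p i ⟨hM, hk, h15⟩ hp hp15 rfl
  have : NeZero M := ⟨hM⟩
  obtain ⟨hU, hG⟩ := hEXA _ (NeZero.ne (M * p)) (Nat.Coprime.mul_left h15 hp15)
  obtain ⟨u2, hu2⟩ : IsUnit (2 : ZMod 15) := by decide
  have hR : ∀ (b : (ZMod 15)ˣ) (v : VZ (M * p)), Uz (M * p) b v ≠ 0 ∧
      ∃ r, r ^ 2 ^ k = Uz (M * p) b v := fun b v => by
    obtain ⟨r, -, hr⟩ := hUNITS.2.1 _ (hU b v).2 (2 ^ k) (by positivity)
    exact ⟨ne_zero hFB (hU b v).2, r, hr⟩
  have hP : ∀ (b : (ZMod 15)ˣ) (y : VZ M), ∏ v ∈ fb p y, Uz (M * p) b v = Uz M (p * b) y :=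
    fun b y => prod_eq hFB _ (fun v _ => (hU b v).1)
      (by simpa using ((hEXA M hM h15).1 (ZMod.unitOfCoprime p hp15 * b) y).1)
      fun z hz => prod_ug hUT hUD b y hz
  have key := (hBIM AL LL (CL k M) (hCOK.2.2.1 k M hM hk).1
    ((ZMod 15)ˣ × {q : VZ M × VZ M // IsUnit (dv M q.1 q.2)}) (VZ (M * p))
    (fun j => fb p j.2.1.1) (fun j => fb p j.2.1.2) (fun j => Uz (M * p) j.1)
    (fun j => Uz (M * p) (u2 * j.1 : (ZMod 15)ˣ)) (fun j => un (dv M j.2.1.1 j.2.1.2))
    (fun j => ⟨fun v _ => hR _ v, fun v _ => hR _ v⟩) fun g hg => ?_).2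
  · rw [sum_sub (fun (b : (ZMod 15)ˣ) y y' => ∑ v ∈ fb p y, ∑ v' ∈ fb p y', Finsupp.single
        (Uz (M * p) b v, Uz (M * p) (u2 * b : (ZMod 15)ˣ) v', un (dv M y y')) (1 : ℤ)),
      sum_sub (fun (b : (ZMod 15)ˣ) y y' => Finsupp.single (∏ v ∈ fb p y, Uz (M * p) b v,
        ∏ v ∈ fb p y', Uz (M * p) (u2 * b : (ZMod 15)ˣ) v, un (dv M y y')) (1 : ℤ))] at key
    have e1 : ES0 M (M * p) (fun _ _ => True) = ∑ b : (ZMod 15)ˣ, ∑ y, ∑ y',
        if IsUnit (dv M y y') then ∑ v ∈ fb p y, ∑ v' ∈ fb p y', Finsupp.single (Uz (M * p) b v,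
          Uz (M * p) (u2 * b : (ZMod 15)ˣ) v', un (dv M y y')) (1 : ℤ) else 0 := by
      refine Finset.sum_congr rfl fun b _ => ?_
      rw [Units.val_mul, hu2, sum_fb fun v v' d =>
        Finsupp.single (Uz (M * p) b v, Uz (M * p) (2 * b) v', un d) (1 : ℤ)]
      congr!
    have e2 : E0 M = ∑ b : (ZMod 15)ˣ, ∑ y, ∑ y', if IsUnit (dv M y y') then
        Finsupp.single (∏ v ∈ fb p y, Uz (M * p) b v, ∏ v ∈ fb p y',
          Uz (M * p) (u2 * b : (ZMod 15)ˣ) v, un (dv M y y')) (1 : ℤ) else 0 := by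
      rw [hEINV.1 M, ES0, ← Equiv.sum_comp (Equiv.mulLeft (ZMod.unitOfCoprime p hp15))]
      simp only [hP]
      simp only [and_true, Equiv.coe_mulLeft, Units.val_mul, ZMod.coe_unitOfCoprime, hu2,
        mul_left_comm (2 : ZMod 15)]
    rw [e1, e2]
    exact key
  · obtain ⟨β, a, b, c, d, h1, h2⟩ := hG g hg
    have h3 : IsUnit (a * d - b * c) := h1 ▸ Units.isUnit _
    have h4 : (ZMod.cast a * ZMod.cast d - ZMod.cast b * ZMod.cast c : ZMod M) = cy M (cg g) := by
      rw [← comp hM (Nat.dvd_mul_right M p) (NeZero.ne _), ZMod.unitsMap_val, ← h1]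
      simp only [c1, map_sub, map_mul]
    have h5 : ∀ y y' : VZ M, dv M (vm (ZMod.cast a) (ZMod.cast b) (ZMod.cast c) (ZMod.cast d) y)
        (vm (ZMod.cast a) (ZMod.cast b) (ZMod.cast c) (ZMod.cast d) y') =
        dv M y y' * cy M (cg g) := fun y y' => by
      rw [dv_self, dv_self, ← h4]
      simp only [vm]
      ring
    have h6 := mv_inj (h4 ▸ Units.isUnit (cy M (cg g)))
    let f : (ZMod 15)ˣ × {q : VZ M × VZ M // IsUnit (dv M q.1 q.2)} →
        (ZMod 15)ˣ × {q : VZ M × VZ M // IsUnit (dv M q.1 q.2)} := fun j =>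
      (j.1 * β, ⟨(_, _), (h5 j.2.1.1 j.2.1.2).symm ▸ j.2.2.mul (Units.isUnit _)⟩)
    have hf : Function.Injective f := fun j j' e => by
      have e1 := congrArg Prod.fst e
      have e2 := congrArg (fun j => j.2.1.1) e
      have e3 := congrArg (fun j => j.2.1.2) e
      exact Prod.ext (mul_right_cancel e1) (Subtype.ext (Prod.ext (h6 e2) (h6 e3)))
    refine ⟨Equiv.ofBijective f (Finite.injective_iff_bijective.1 hf), fun j => ⟨?_, ?_, ?_⟩⟩
    · exact (congrArg un (h5 _ _)).trans (un_mul j.2.2 _)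
    · refine (congrArg (Multiset.map _) (fb_mv h3 _)).trans ?_
      rw [Multiset.map_map]
      exact Multiset.map_congr rfl fun v _ => (h2 j.1 v).symm
    · refine (congrArg (Multiset.map _) (fb_mv h3 _)).trans ?_
      rw [Multiset.map_map]
      refine Multiset.map_congr rfl fun v _ => (Eq.trans (h2 (u2 * j.1) v) ?_).symm
      rw [← Units.val_mul, mul_assoc]
      rfl

end Pool.Agent.P.MP_9c97e9_nt.KT
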