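import Pool.Agent.P.MP_9c97e9_nt.KT.IfU

/-! The formal norm relation. -/

namespace Pool.Agent.P.MP_9c97e9_nt.KT

open scoped NNReal Matrix
open MP_8b7eba_nt.R2
open MP_8b7eba_nt.R1 (IntR IntM)
open Finset

namespace TNF

theorem un_val {R : Type} [Monoid R] {a : R} (h : IsUnit a) : (un a : R) = a := by
  rw [un, dif_pos h, IsUnit.unit_spec]

open Classical in
/-- one term of the sum -/
noncomputable def tm (M M' : ℕ) (b : (ZMod 15)ˣ) (v v' : VZ M') : Sy LL M :=
  if IsUnit (dv M v v') then Finsupp.single (Uz M' b v, Uz M' (2 * b) v', un (dv M v v')) 1 else 0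

open Classical in
theorem ES0_eq (M M' : ℕ) [NeZero M'] (P : VZ M' → VZ M' → Prop) :
    ES0 M M' P = ∑ b, ∑ v, ∑ v', if P v v' then tm M M' b v v' else 0 := by
  refine sum_congr rfl fun b _ => sum_congr rfl fun v _ => sum_congr rfl fun v' _ => ?_
  by_cases h : P v v' <;> simp [tm, h]

theorem lb_sum {M M' : ℕ} (φ : (ZMod M')ˣ → (ZMod M)ˣ) {I : Type} (s : Finset I)
    (f : I → Sy LL M') : lb φ (∑ i ∈ s, f i) = ∑ i ∈ s, lb φ (f i) :=
  map_sum (Finsupp.mapDomain.addMonoidHom _) f s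

theorem unit_iff (M : ℕ) {M' : ℕ} [NeZero M'] (x : ZMod M') :
    IsUnit (ZMod.cast x : ZMod M) ↔ x.val.Coprime M := by
  rw [ZMod.cast_eq_val, ZMod.isUnit_iff_coprime]

theorem zero_iff (p : ℕ) {M' : ℕ} [NeZero M'] (x : ZMod M') :
    (ZMod.cast x : ZMod p) = 0 ↔ p ∣ x.val := by
  rw [ZMod.cast_eq_val, ZMod.natCast_eq_zero_iff]

open Classical in
theorem lb_tm {M M' : ℕ} [NeZero M'] (hd : M ∣ M') (b : (ZMod 15)ˣ) (v v' : VZ M') :
    lb (ZMod.unitsMap hd) (tm M' M' b v v') =
      if IsUnit (dv M' v v') then tm M M' b v v' else 0 := by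
  by_cases h : IsUnit (dv M' v v')
  · have h' : IsUnit (dv M v v') :=
      (unit_iff M _).2 (((unit_iff M' _).1 h).coprime_dvd_right hd)
    rw [if_pos h, tm, tm, if_pos h, if_pos h', lb, Finsupp.mapDomain_single]
    congr 3
    ext
    rw [ZMod.unitsMap_val, un_val h, un_val h', dv, dv, ZMod.cast_id]
  · rw [if_neg h, tm, if_neg h, lb, Finsupp.mapDomain_zero]

theorem sum_card {I X : Type} [AddCommGroup X] {s : Finset I} {P : I → Prop}
    {d d' : DecidablePred P} {c : X} {n : ℤ} (h : ((@filter _ P d' s).card : ℤ) = n) :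
    (∑ x ∈ s, @ite _ (P x) (d x) c 0) = n • c := by
  rw [← h, natCast_zsmul, ← sum_const, sum_filter]
  exact sum_congr rfl fun x _ => by congr

variable {M p : ℕ} [NeZero M] [NeZero (M * p)]

/-- multiplication by `p` -/
def up (p : ℕ) (y : ZMod M) : ZMod (M * p) := (p * y.val : ℕ)

theorem up_val (y : ZMod M) : (up p y).val = p * y.val := by
  have hp : 0 < p := Nat.pos_of_ne_zero (right_ne_zero_of_mul (NeZero.ne (M * p)))
  rw [up, ZMod.val_natCast, Nat.mod_eq_of_lt]
  rw [mul_comm M]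
  exact Nat.mul_lt_mul_of_pos_left (ZMod.val_lt y) hp

open Classical in
theorem sum_up {X : Type} [AddCommMonoid X] (f : VZ (M * p) → X) :
    (∑ v : VZ (M * p), if (ZMod.cast v.1 : ZMod p) = 0 ∧ (ZMod.cast v.2 : ZMod p) = 0 then f v
      else 0) = ∑ y : VZ M, f (up p y.1, up p y.2) := by
  have hp : 0 < p := Nat.pos_of_ne_zero (right_ne_zero_of_mul (NeZero.ne (M * p)))
  have hi : ∀ y y' : ZMod M, up p y = up p y' → y = y' := fun y y' h => by
    have h1 := congrArg ZMod.val h
    rw [up_val, up_val] at h1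
    exact ZMod.val_injective M (Nat.eq_of_mul_eq_mul_left hp h1)
  have hs : ∀ x : ZMod (M * p), (ZMod.cast x : ZMod p) = 0 → ∃ y, up p y = x := fun x h => by
    obtain ⟨c, hc⟩ := (zero_iff p x).1 h
    have h1 : c < M := by
      have := ZMod.val_lt x
      rw [hc, mul_comm M] at this
      exact Nat.lt_of_mul_lt_mul_left this
    refine ⟨c, ZMod.val_injective _ ?_⟩
    rw [up_val, ZMod.val_natCast, Nat.mod_eq_of_lt h1, hc]
  symm
  refine sum_of_injOn (fun y : VZ M => (up p y.1, up p y.2)) (fun y _ y' _ h => ?_)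
    (fun _ _ => mem_univ _) (fun v _ hv => if_neg fun h => hv ?_) fun y _ => (if_pos ?_).symm
  · exact Prod.ext (hi _ _ (congrArg Prod.fst h)) (hi _ _ (congrArg Prod.snd h))
  · obtain ⟨a, ha⟩ := hs _ h.1
    obtain ⟨b, hb⟩ := hs _ h.2
    exact ⟨(a, b), mem_coe.2 (mem_univ _), Prod.ext ha hb⟩
  · simp only [zero_iff, up_val]
    exact ⟨dvd_mul_right _ _, dvd_mul_right _ _⟩

theorem Uz_up (b : ZMod 15) (y : VZ M) : Uz (M * p) b (up p y.1, up p y.2) = Uz M b y := by
  have hp : (p : ℚ) ≠ 0 := Nat.cast_ne_zero.2 (right_ne_zero_of_mul (NeZero.ne (M * p)))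
  have h : ∀ a : ℕ, ((p * a : ℕ) : ℚ) / (M * p : ℕ) = a / M := fun a => by
    push_cast
    rw [mul_comm (M : ℚ), mul_div_mul_left _ _ hp]
  rw [Uz, Uz, ug, ug, up_val, up_val, h, h]

omit [NeZero (M * p)] in
theorem dv_up (y y' : VZ M) : dv M ((up p y.1, up p y.2) : VZ (M * p)) (up p y'.1, up p y'.2) =
    dv M y y' * p ^ 2 := by
  have h : ∀ a : ZMod M, ZMod.castHom (dvd_mul_right M p) (ZMod M) (up p a) = p * a := fun a => by
    rw [up, map_natCast, Nat.cast_mul, ZMod.natCast_zmod_val]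
  rw [dv, dv, ZMod.cast_id, ← ZMod.castHom_apply (h := dvd_mul_right M p), map_sub, map_mul,
    map_mul, h, h, h, h]
  ring

theorem tm_up (hp : IsUnit (p : ZMod M)) (b : (ZMod 15)ˣ) (y y' : VZ M) :
    tm M (M * p) b (up p y.1, up p y.2) (up p y'.1, up p y'.2) =
      lb (· * un (p : ZMod M) ^ 2) (tm M M b y y') := by
  rw [tm, tm, dv_up, Uz_up, Uz_up]
  by_cases h : IsUnit (dv M y y')
  · rw [if_pos h, if_pos (h.mul (hp.pow 2)), lb, Finsupp.mapDomain_single]
    congr 3
    ext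
    rw [un_val (h.mul (hp.pow 2)), Units.val_mul, Units.val_pow_eq_pow_val, un_val h, un_val hp]
  · rw [if_neg h, if_neg fun h' => h (isUnit_of_mul_isUnit_left h'), lb, Finsupp.mapDomain_zero]

end TNF

open TNF in
theorem t_NF (hEINV : EINV) (hLNX : LNX) : NF := by
  classical
  intro M M' p _ hd _ hp h15 hM
  subst hM
  have : NeZero M := ⟨left_ne_zero_of_mul (NeZero.ne (M * p))⟩
  rw [hEINV.1 (M * p), hEINV.1 M]
  simp only [ES0_eq, if_true, lb_sum, lb_tm]
  split_ifs with hpM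
  · refine sum_congr rfl fun b _ => sum_congr rfl fun v _ => sum_congr rfl fun v' _ => ?_
    split_ifs with h
    · rfl
    · rw [tm, if_neg]
      intro h'
      have h1 := (unit_iff M _).1 h'
      exact h ((unit_iff _ _).2 (h1.mul_right (h1.coprime_dvd_right hpM)))
  · have hu := ZMod.isUnit_prime_of_not_dvd hp hpM
    simp only [← tm_up hu]
    rw [sum_comm (s := IntR p), ← sum_sub_distrib, smul_sum, ← sum_add_distrib]
    refine sum_congr rfl fun b _ => ?_
    rw [← sum_up fun v => ∑ y' : VZ M, tm M (M * p) b v (up p y'.1, up p y'.2),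
      sum_comm (s := IntR p), ← sum_sub_distrib, smul_sum, ← sum_add_distrib]
    refine sum_congr rfl fun v _ => ?_
    rw [← sum_up fun v' => tm M (M * p) b v v', ite_sum_zero, sum_comm (s := IntR p),
      ← sum_sub_distrib, smul_sum, ← sum_add_distrib]
    refine sum_congr rfl fun v' _ => ?_
    have h1 := (hLNX (M * p) p hp h15 (dvd_mul_left p M)).2 v v'
    rw [sum_card (d := fun _ => Classical.propDecidable _) h1, ← ite_and, add_smul, Nat.cast_ite, ite_smul, ite_smul,
      smul_ite, Nat.cast_zero, zero_smul, smul_zero, one_smul]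
    simp only [and_assoc]
    rw [← sub_sub, sub_add_cancel]
    by_cases h2 : dv p v v' = 0
    · rw [if_pos h2, sub_self, if_neg]
      intro h3
      exact (hp.coprime_iff_not_dvd.1 (((unit_iff _ _).1 h3).coprime_mul_left_right.symm))
        ((zero_iff _ _).1 h2)
    · rw [if_neg h2, sub_zero]
      split_ifs with h3
      · rfl
      · rw [tm, if_neg]
        intro h'
        exact h3 ((unit_iff _ _).2 (((unit_iff M _).1 h').mul_right
          (hp.coprime_iff_not_dvd.2 fun h4 => h2 ((zero_iff _ _).2 h4)).symm))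

end Pool.Agent.P.MP_9c97e9_nt.KT
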