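import Pool.Agent.P.MP_9c97e9_nt.KT.IfU
import Pool.Agent.P.MP_9c97e9_nt.KT.TBAS

/-! The sum over the lines. -/

namespace Pool.Agent.P.MP_9c97e9_nt.KT

open MP_8b7eba_nt.R2
open MP_8b7eba_nt.R1 (IntR IntM Int_mem)
open Finset
open scoped Classical

namespace TNL

variable {R : Type} [CommRing R]

/-- the determinant -/
def D (y y' : R × R) : R := y.1 * y'.2 - y.2 * y'.1

theorem ex {a b c d : R} (h : IsUnit (a * d - b * c)) : ∃ e : R × R ≃ R × R,
    (∀ v, e v = (v.1 * a + v.2 * c, v.1 * b + v.2 * d)) ∧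
      ∀ v v', D (e v) (e v') = D v v' * (a * d - b * c) := by
  obtain ⟨u, hu⟩ := h.exists_right_inv
  refine ⟨⟨fun v => (v.1 * a + v.2 * c, v.1 * b + v.2 * d),
    fun w => (u * (w.1 * d - w.2 * c), u * (w.2 * a - w.1 * b)), fun v => ?_, fun v => ?_⟩,
    fun _ => rfl, fun v v' => ?_⟩
  · ext <;> simp only
    · linear_combination v.1 * hu
    · linear_combination v.2 * hu
  · ext <;> simp only
    · linear_combination v.1 * hu
    · linear_combination v.2 * hu
  · simp only [D, Equiv.coe_fn_mk]; ring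

theorem un_val {a : R} (h : IsUnit a) : (un a : R) = a := by
  rw [un, dif_pos h, h.unit_spec]

theorem un_eq (u : Rˣ) : un (u : R) = u := Units.ext (un_val u.isUnit)

theorem comp {M N : ℕ} (h : M ≠ 0) (hd : M ∣ N) (hN : N ≠ 0) (g : GQ) :
    ZMod.castHom hd (ZMod M) (cy N g : ZMod N) = cy M g := by
  have : NeZero N := ⟨hN⟩
  have : NeZero M := ⟨h⟩
  obtain ⟨z, hz⟩ := HasEnoughRootsOfUnity.exists_primitiveRoot Om M
  have e := t_BAS.2.1 N hN g z ((hz.pow_eq_one_iff_dvd N).2 hd)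
  rw [t_BAS.2.1 M h g z hz.pow_eq_one, (hz.isOfFinOrder h).pow_eq_pow_iff_modEq,
    ← hz.eq_orderOf, ← ZMod.natCast_eq_natCast_iff, ZMod.natCast_zmod_val] at e
  rw [e, ZMod.castHom_apply, ZMod.natCast_val]

theorem un_mul {a b : R} (h : IsUnit a) (h' : IsUnit b) : un (a * b) = un a * un b :=
  Units.ext (by rw [Units.val_mul, un_val h, un_val h', un_val (h.mul h')])

theorem sub {Y X : Type} [Fintype Y] [AddCommMonoid X] (Q : Y × Y → Prop) [Fintype {q // Q q}]
    (F : Y × Y → X) :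
    ∑ q : {q // Q q}, F q = ∑ y, ∑ y', if Q (y, y') then F (y, y') else 0 := by
  rw [← sum_subtype (univ.filter Q) (by simp) F, sum_filter, Fintype.sum_prod_type]

/-- the fibres -/
noncomputable def Bf {V Y : Type} [Fintype V] (r : V → Y) (P : V → Prop) (y : Y) : Finset V :=
  univ.filter fun v => P v ∧ r v = y

theorem mem_Bf {V Y : Type} [Fintype V] {r : V → Y} {P : V → Prop} {y : Y} {v : V} :
    v ∈ Bf r P y ↔ P v ∧ r v = y := by simp [Bf]

theorem fib {V Y X : Type} [Fintype V] [Fintype Y] [AddCommMonoid X] (r : V → Y) (P : V → Prop)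
    (Q : Y × Y → Prop) [Fintype {q // Q q}] (F : V → V → Y × Y → X) :
    ∑ q : {q // Q q}, ∑ v ∈ Bf r P q.1.1, ∑ v' ∈ Bf r P q.1.2, F v v' q =
    ∑ v, ∑ v', if Q (r v, r v') ∧ P v ∧ P v' then F v v' (r v, r v') else 0 := by
  rw [← sum_subtype (univ.filter Q) (by simp) fun q => ∑ v ∈ Bf r P q.1,
      ∑ v' ∈ Bf r P q.2, F v v' q]
  calc _ = ∑ q, ∑ v, ∑ v', if (r v, r v') = q then
        (if Q (r v, r v') ∧ P v ∧ P v' then F v v' (r v, r v') else 0) else 0 := by
        simp only [Bf, sum_filter]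
        refine sum_congr rfl fun q _ => ?_
        rw [ite_sum_zero]
        refine sum_congr rfl fun v _ => ?_
        rw [ite_sum_zero, ite_sum_zero]
        refine sum_congr rfl fun v' _ => ?_
        obtain ⟨y, y'⟩ := q
        by_cases h1 : r v = y <;> by_cases h2 : r v' = y' <;> simp [h1, h2, ← ite_and]
    _ = _ := by
        rw [sum_comm]
        refine sum_congr rfl fun v _ => ?_
        rw [sum_comm]
        simp

theorem dv_self {M : ℕ} (v v' : VZ M) : dv M v v' = D v v' := ZMod.cast_id _ _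

/-- the unit two -/
def u2 : (ZMod 15)ˣ := ZMod.unitOfCoprime 2 (by norm_num)

theorem u2_mul (b : (ZMod 15)ˣ) : ((u2 * b : (ZMod 15)ˣ) : ZMod 15) = 2 * b := rfl

end TNL

open TNL

theorem t_NL (hBIM : BIM) (hCOK : COK) (hEXA : EXA) (hEINV : EINV) (hLNX : LNX) (hNLP : NLP) (hUNITS : UNITS) : NL := by
  intro k M M' p _ ⟨M0, hk, hM⟩ hp hn hM'
  have : NeZero M := ⟨M0⟩
  have hd : M ∣ M' := ⟨p, hM'⟩
  have p15 : ¬ p ∣ 15 := fun h => hn (h.mul_right _)
  have pc : p.Coprime 15 := (Nat.Prime.coprime_iff_not_dvd hp).2 p15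
  have pu : IsUnit (p : ZMod M) := (ZMod.isUnit_iff_coprime p M).2
    ((Nat.Prime.coprime_iff_not_dvd hp).2 fun h => hn (h.mul_left _))
  obtain ⟨x1, x2⟩ := hEXA M' (NeZero.ne M') (hM' ▸ Nat.Coprime.mul_left hM pc)
  let c := ZMod.castHom hd (ZMod M)
  let r : VZ M' → VZ M := fun v => (c v.1, c v.2)
  have hr : ∀ v v', dv M v v' = D (r v) (r v') := fun v v' => by
    simp only [D, r, ← map_mul, ← map_sub]; rfl
  have hu : ∀ (b : (ZMod 15)ˣ) v, Uz M' b v ≠ 0 ∧ ∃ s, s ^ 2 ^ k = Uz M' b v := fun b v => by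
    obtain ⟨s, -, hs⟩ := hUNITS.2.1 _ (x1 b v).2 (2 ^ k) (by positivity)
    refine ⟨fun h => ?_, s, hs⟩
    obtain ⟨G, h1, h2, h3⟩ := (x1 b v).2
    rw [h, lf, dif_pos h1.2, eq_comm, Subtype.ext_iff] at h3
    have h4 : (fun τ : UpperHalfPlane => G τ) ∈ OH :=
      UpperHalfPlane.mdifferentiable_iff.2 (h1.1.congr fun z hz => by
        simp [UpperHalfPlane.ofComplex_apply_of_im_pos hz])
    have h5 : algebraMap OH MF ⟨_, h4⟩ = algebraMap OH MF 0 := by
      rw [map_zero]; exact (dif_pos h4).symm.trans h3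
    exact h2 _ UpperHalfPlane.I.im_pos
      (congrFun (congrArg Subtype.val (IsFractionRing.injective OH MF h5)) UpperHalfPlane.I)
  have key := (hBIM AL LL (CL k M) (hCOK.2.2.1 k M M0 hk).1
    (IntR p × (ZMod 15)ˣ × {q : VZ M × VZ M // IsUnit (D q.1 q.2)}) (VZ M')
    (fun j => Bf r (Ln p j.1) j.2.2.1.1)
    (fun j => Bf r (Ln p j.1) j.2.2.1.2)
    (fun j => Uz M' j.2.1) (fun j => Uz M' (2 * j.2.1)) (fun j => un (D j.2.2.1.1 j.2.2.1.2))
    (fun j => ⟨fun v _ => hu _ v, fun v _ => hu (u2 * j.2.1) v⟩) fun g hg => ?_).2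
  · unfold fE
    convert key using 3
    · rw [Fintype.sum_prod_type, ← sum_coe_sort]
      refine sum_congr rfl fun t _ => ?_
      rw [Fintype.sum_prod_type, ES0]
      refine sum_congr rfl fun b _ => ?_
      refine Eq.trans ?_ (fib r (Ln p t) (fun q => IsUnit (D q.1 q.2)) fun v v' q =>
        Finsupp.single (Uz M' b v, Uz M' (2 * b) v', un (D q.1 q.2)) (1 : ℤ)).symm
      refine sum_congr rfl fun v _ => sum_congr rfl fun v' _ => ?_
      rw [← hr]
      congr
    rw [Fintype.sum_prod_type, hEINV.1 M, lb, Cor, Finsupp.mapDomain_finsetSum, ← sum_coe_sort]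
    refine sum_congr rfl fun t _ => ?_
    have ht := ((Int_mem hp.pos).1 t.2).1
    have e1 : (t.1.1 : ZMod M) * t.1.2.2 - 15 * t.1.2.1 * 0 = p := by
      rw [mul_zero, sub_zero, ← Nat.cast_mul, ht]
    obtain ⟨e, he, hD⟩ := ex (e1 ▸ pu)
    let δ := ZMod.unitOfCoprime t.1.2.2 (Nat.Coprime.coprime_dvd_left (Dvd.intro_left _ ht) pc)
    have hP : ∀ (b : (ZMod 15)ˣ) x, ∏ v ∈ Bf r (Ln p t) (e x), Uz M' b v =
        pb (IntM t) (Uz M (δ * b) x) := fun b x =>
      hNLP M M' p hM hp hn hM' t t.2 b x _ fun v => by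
        rw [mem_Bf, he, mul_zero, add_zero, Prod.ext_iff]
        rfl
    rw [Fintype.sum_prod_type, ES0, ← Equiv.sum_comp (Equiv.mulLeft δ), Finsupp.mapDomain_finsetSum,
      Finsupp.mapDomain_finsetSum]
    refine sum_congr rfl fun b _ => ?_
    refine Eq.trans ?_ (sub (fun q => IsUnit (D q.1 q.2)) fun q => Finsupp.single
      (∏ v ∈ Bf r (Ln p t) q.1, Uz M' b v, ∏ v ∈ Bf r (Ln p t) q.2, Uz M' (2 * b) v,
        un (D q.1 q.2)) (1 : ℤ)).symm
    rw [Finsupp.mapDomain_finsetSum, Finsupp.mapDomain_finsetSum]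
    refine Eq.trans (sum_congr rfl fun x _ => ?_) (e.sum_comp _)
    rw [Finsupp.mapDomain_finsetSum, Finsupp.mapDomain_finsetSum]
    refine Eq.trans (sum_congr rfl fun x' _ => ?_) (e.sum_comp _)
    simp only [dv_self, and_true, hD, e1, IsUnit.mul_iff, pu]
    split_ifs with h
    · rw [Finsupp.mapDomain_single, Finsupp.mapDomain_single, hP, ← u2_mul b, hP, un_mul h pu,
        u2_mul, Equiv.coe_mulLeft, Units.val_mul, mul_left_comm]
    · simp
  obtain ⟨β, a, b, c', d, h1, h2⟩ := x2 g hg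
  have h3 : IsUnit (a * d - b * c') := h1 ▸ Units.isUnit _
  have h4 : c a * c d - c b * c c' = cy M (cg g) := by
    rw [← map_mul, ← map_mul, ← map_sub, h1, comp M0 hd (NeZero.ne M')]
  obtain ⟨π, hπ⟩ := (hLNX M' p hp p15 (Dvd.intro_left _ hM'.symm)).1 a b c' d h3
  obtain ⟨e', he', -⟩ := ex h3
  obtain ⟨e, he, hD⟩ := ex (h4 ▸ Units.isUnit _ : IsUnit (c a * c d - c b * c c'))
  have h5 : ∀ v, r (e' v) = e (r v) := fun v => by simp only [r, he, he', map_add, map_mul]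
  have h6 : ∀ (t : IntR p) (y : VZ M) (f : (ZMod 15)ˣ),
      (Bf r (Ln p (π t)) (e y)).val.map (Uz M' (f * β)) =
      (Bf r (Ln p t) y).val.map fun v => g • Uz M' f v := fun t y f => by
    rw [show Bf r (Ln p (π t)) (e y) = (Bf r (Ln p t) y).map e'.toEmbedding from ?_, map_val,
      Multiset.map_map]
    · exact Multiset.map_congr rfl fun v _ => by
        rw [RingAut.smul_def, h2, ← he']; rfl
    · ext v
      obtain ⟨v, rfl⟩ := e'.surjective v
      rw [mem_map_equiv, e'.symm_apply_apply, mem_Bf, mem_Bf, h5, e.injective.eq_iff, he', hπ]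
  refine ⟨π.prodCongr ((Equiv.mulRight β).prodCongr ((e.prodCongr e).subtypeEquiv fun q => ?_)),
    fun j => ⟨?_, h6 _ _ _, ?_⟩⟩
  · simp [hD, h4]
  · change un (D (e _) (e _)) = _
    rw [hD, h4, un_mul j.2.2.2 (Units.isUnit _), un_eq]
  · have := h6 j.1 j.2.2.1.2 (u2 * j.2.1)
    rw [u2_mul, mul_assoc] at this
    exact this

end Pool.Agent.P.MP_9c97e9_nt.KT
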