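import Pool.Agent.P.MP_9c97e9_nt.KT.TZTK

/-! Proof of NREL. -/

namespace Pool.Agent.P.MP_9c97e9_nt.KT

open scoped Matrix
open MP_8b7eba_nt.R2
open MP_9c97e9_nt (ap)

namespace TNREL

open TZTK

/-- the cuspidal projector -/
noncomputable def PP (l : ℕ) {k : ℕ} (ψ : AL → ZMod (2 ^ k)) (γ : AL) : ZMod (2 ^ k) :=
  (HC l).T1 ψ γ - (l + 1) * ψ γ

variable {l k M M' p : ℕ}

theorem T1_apply {ι X : Type} [AddCommMonoid X] (ψ : AL → ι → X) (γ : AL) (d : ι) :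
    (HC l).T1 ψ γ d = (HC l).T1 (fun x => ψ x d) γ := Finset.sum_apply _ _ _

theorem T1_congr (hR : (HC l).Ok (CL k M) geo) (hN : (CL k M).Nm geo) {X : Type} [AddCommMonoid X]
    {ψ ψ' : AL → X} (h : ∀ x ∈ geo, ψ x = ψ' x) {γ : AL} (hγ : γ ∈ geo) :
    (HC l).T1 ψ γ = (HC l).T1 ψ' γ :=
  Finset.sum_congr rfl fun t _ => h _ ((geo.mul_mem_cancel_right (geo.inv_mem hγ)).1
    (hR.mem γ (hN.le hγ) t))

theorem PP_congr (hR : (HC l).Ok (CL k M) geo) (hN : (CL k M).Nm geo)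
    {ψ ψ' : AL → ZMod (2 ^ k)} (h : ∀ x ∈ geo, ψ x = ψ' x) {γ : AL} (hγ : γ ∈ geo) :
    PP l ψ γ = PP l ψ' γ := by
  rw [PP, PP, T1_congr hR hN h hγ, h γ hγ]

theorem PP_lin (a : ZMod (2 ^ k)) (ψ ψ' : AL → ZMod (2 ^ k)) (γ : AL) :
    PP l (fun x => ψ x + a * ψ' x) γ = PP l ψ γ + a * PP l ψ' γ := by
  simp only [PP, Crs.T1, Finset.sum_add_distrib, ← Finset.mul_sum]
  ring

theorem PP_sum {ι : Type} (s : Finset ι) (ψ : ι → AL → ZMod (2 ^ k)) (γ : AL) :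
    PP l (fun x => ∑ i ∈ s, ψ i x) γ = ∑ i ∈ s, PP l (ψ i) γ := by
  simp only [PP, Crs.T1, Finset.sum_sub_distrib, Finset.mul_sum]
  rw [Finset.sum_comm]

theorem sh_apply {ι X : Type} [Add X] {ψ : AL → ι → X} (h : SH1 LL geo ψ) (d : ι) :
    SH1 LL geo fun x => ψ x d := by
  obtain ⟨⟨S, h1⟩, h2⟩ := h
  exact ⟨⟨S, fun g hg n hn e => congrFun (h1 g hg n hn e) d⟩,
    fun g hg h hh => congrFun (h2 g hg h hh) d⟩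

theorem zk {b : AL → (CL k M).A} {z : GQ → (ZMod M)ˣ → V2} (hZ : ZK l k M b z) {g γ : AL}
    (hg : g ∈ GG) (hγ : γ ∈ geo) (d : (ZMod M)ˣ) :
    PP l (fun x => (CL k M).kk (fE k (E0 M)) b g x d) γ = pu k (z (cg g) d) γ := by
  rw [← hZ.eq g hg γ hγ d, T1_apply, PP]

theorem add_le {u v : V2} {r : ℝ} (hu : ‖u‖ ≤ r) (hv : ‖v‖ ≤ r) : ‖u + v‖ ≤ r :=
  (IsUltrametricDist.norm_add_le_max _ _).trans (max_le hu hv)

theorem pu_sum (hZQ : ZQ) {ι : Type} (s : Finset ι) (v : ι → V2) (hv : ∀ i, ‖v i‖ ≤ 1) (g : AL) :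
    ‖∑ i ∈ s, v i‖ ≤ 1 ∧ pu k (∑ i ∈ s, v i) g = ∑ i ∈ s, pu k (v i) g := by
  classical
  have z4 := (hZQ k).2.2.2.1
  induction s using Finset.induction_on with
  | empty =>
    have := ((z4 0 (by simp)).2.2.2.2.1 0 (by simp) g).2
    rw [sub_self, sub_self] at this
    simpa using this
  | insert i s hi ih =>
    rw [Finset.sum_insert hi, Finset.sum_insert hi, ((z4 _ (hv i)).2.2.2.2.1 _ ih.1 g).1, ih.2]
    exact ⟨add_le (hv i) ih.1, rfl⟩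

/-- the coboundary term -/
theorem cob (hLING : LING) (hKCR : KCR) (hCOK : COK) (hZQ : ZQ) (hCUSP : CUSP) (hl : l.Prime)
    (h15 : ¬ l ∣ 15) (hM : Lv0 k M) {m : AL → (CL k M).A} (hm : SH1 LL geo m) :
    ∃ v : (ZMod M)ˣ → V2, (∀ d, ‖v d‖ ≤ 1) ∧ ∀ g ∈ GG, ∀ γ ∈ geo, ∀ ε,
      PP l (fun x => (CL k M).kk 0 m g x ε) γ =
        pu k (v ε) γ - pu k (T2.rho (cg g) *ᵥ v (ε * (cy M (cg g))⁻¹)) γ := by
  obtain ⟨hC, hN, -, hR⟩ := hCOK.2.2.1 k M hM.1 hM.2.1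
  replace hR := hR l hl.ne_zero ((Nat.Prime.coprime_iff_not_dvd hl).2 h15)
  choose v h1 h2 using fun d => ((hCUSP l hl h15 k).1 _ (sh_apply hm d)).1
  refine ⟨v, h1, fun g hg γ hγ ε => ?_⟩
  have h3 := congrFun (((hKCR AL LL (CL k M) geo _ (HC l) hC hN hR).2 _ _
    ((hLING AL LL (CL k M) hC).2.2.2.2.1 geo m hN hm)).2 g hg γ hγ) ε
  have h4 := h2 ε γ hγ
  have h5 := h2 (ε * (cy M (cg g))⁻¹) _ (hN.nm g hg γ hγ)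
  rw [PP, ← T1_apply, ← h3, (((hZQ k).2.2.2.1 _ (h1 _)).2.2.2.2.2 g hg γ hγ).1, ← h4, ← h5,
    ← (hZQ k).2.2.1 M _ hM.1 hM.2.1]
  simp only [Cx.kk, Cx.ac, Crs.T2, Pi.add_apply, Pi.sub_apply, Pi.zero_apply, Finset.sum_const_zero,
    T1_apply]
  ring

/-- the upper level -/
theorem up (hLING : LING) (hCOK : COK) (hZQ : ZQ) (hLAB : LAB) (hM : Lv0 k M) (hd : M ∣ M')
    (h0 : M' ≠ 0) {b : AL → (CL k M').A} {z : GQ → (ZMod M')ˣ → V2} (hZ : ZK l k M' b z) :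
    ∃ B, (CL k M).Sp geo (fun g h => pz M (M' := M') (fE k (E0 M') g h)) B ∧
      ∀ g ∈ GG, ∀ γ ∈ geo, ∀ ε, ‖pz M (z (cg g)) ε‖ ≤ 1 ∧
        PP l (fun x => (CL k M).kk (fun g h => pz M (M' := M') (fE k (E0 M') g h)) B g x ε) γ =
          pu k (pz M (z (cg g)) ε) γ := by
  classical
  have : NeZero M' := ⟨h0⟩
  obtain ⟨hC, hN, -⟩ := hCOK.2.2.1 k M hM.1 hM.2.1
  obtain ⟨⟨φ, e1, e2⟩, -⟩ := (hLAB k M hM.1 hM.2.1).2 M' hd h0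
  obtain ⟨h1, h2⟩ := ((hLING AL LL (CL k M) hC).2.2.2.2.2.2 (CL k M') rfl φ
    fun g _ => e2 g).2 geo _ b hN.le hZ.sp
  simp only [e1] at h1 h2
  refine ⟨_, h1, fun g hg γ hγ ε => ?_⟩
  have h3 := pu_sum (k := k) hZQ Finset.univ (fun δ : (ZMod M')ˣ =>
    if (ZMod.cast (δ : ZMod M') : ZMod M) = ε then z (cg g) δ else 0) (fun δ => by
      split_ifs
      · exact hZ.int _ _
      · simp) γ
  simp only [h2 g hg]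
  simp only [pz, finsum_eq_sum_of_fintype]
  refine ⟨h3.1, ?_⟩
  rw [h3.2, PP_sum]
  refine Finset.sum_congr rfl fun δ _ => ?_
  split_ifs
  · exact zk hZ hg hγ δ
  · have := (pu_sum (k := k) hZQ (∅ : Finset ℕ) (fun _ => 0) (by simp) γ).2
    rw [Finset.sum_empty, Finset.sum_empty] at this
    simp [this, PP, Crs.T1]

theorem red_inv (hZQ : ZQ) (hM : Lv0 k M) (hp : p.Prime) (h : ¬ p ∣ M) (h2 : p ≠ 2) :
    ‖(p : ℚ_[2])⁻¹‖ ≤ 1 ∧ red (2 ^ k) (un (p : ZMod M))⁻¹ = zq k (p : ℚ_[2])⁻¹ ∧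
      p * zq k (p : ℚ_[2])⁻¹ = 1 := by
  have n1 : ‖(p : ℚ_[2])‖ = 1 :=
    Padic.norm_natCast_eq_one_iff.2 ((Nat.coprime_primes Nat.prime_two hp).2 h2.symm)
  have n2 : ‖(p : ℚ_[2])⁻¹‖ ≤ 1 := by rw [norm_inv, n1, inv_one]
  have hu : IsUnit (p : ZMod M) :=
    (ZMod.isUnit_iff_coprime p M).2 ((Nat.Prime.coprime_iff_not_dvd hp).2 h)
  have e1 : red (2 ^ k) (un (p : ZMod M)) = p := by
    rw [TGEN.red_eq hM.2.1 hM.1, un, dif_pos hu, IsUnit.unit_spec, map_natCast]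
  have e2 := TGEN.red_mul hM.2.1 hM.1 (un (p : ZMod M)) (un (p : ZMod M))⁻¹
  rw [mul_inv_cancel, TGEN.red_one hM.2.1 hM.1, e1] at e2
  have e3 := ((hZQ k).1 _ _ n1.le n2).2.1
  have e4 := (hZQ k).2.1 p
  have e5 := (hZQ k).2.1 1
  rw [Int.cast_natCast, Int.cast_natCast] at e4
  rw [Int.cast_one, Int.cast_one] at e5
  rw [mul_inv_cancel₀ (by exact_mod_cast hp.ne_zero), e4, e5] at e3
  refine ⟨n2, ?_, e3.symm⟩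
  linear_combination red (2 ^ k) (un (p : ZMod M))⁻¹ * e3 - zq k (p : ℚ_[2])⁻¹ * e2

theorem gen (hLING : LING) (hKCR : KCR) {G Ω T : Type} [Group G] [Field Ω] [MulSemiringAction G Ω]
    [Fintype T] {C : Cx G Ω} {K : Subgroup G} {R : Crs G T} (hC : C.Ok) (hN : C.Nm K)
    (hR : R.Ok C K) {f : G → G → C.A} {b : G → C.A} (hS : C.Sp K f b) (φ φ' : C.A →+ C.A)
    (e : ∀ g F, φ (C.ac g F) = C.ac g (φ F)) (e' : ∀ g F, φ' (C.ac g F) = C.ac g (φ' F)) (n : ℤ) :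
    ∃ F B, C.Sp K F B ∧ (∀ g h, F g h = f g h - φ (R.T2 f g h) + n • φ' (f g h)) ∧
      ∀ g ∈ C.H, ∀ x ∈ K, C.kk F B g x =
        C.kk f b g x - φ (R.T1 (C.kk f b g) x) + n • φ' (C.kk f b g x) := by
  obtain ⟨-, -, -, l4, -, -, l7⟩ := hLING G Ω C hC
  obtain ⟨s1, k1⟩ := (hKCR G Ω C K T R hC hN hR).2 _ _ hS
  obtain ⟨s2, k2⟩ := (l7 C rfl φ fun g _ => e g).2 K _ _ hN.le s1
  obtain ⟨s3, k3⟩ := (l7 C rfl φ' fun g _ => e' g).2 K _ _ hN.le hS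
  obtain ⟨s4, k4, -⟩ := l4 _ _ _ s2 (-1)
  obtain ⟨s5, k5, -⟩ := l4 _ _ _ s3 n
  obtain ⟨s6, k6⟩ := (l4 _ _ _ hS 0).2.2 _ _ s4
  obtain ⟨s7, k7⟩ := (l4 _ _ _ s6 0).2.2 _ _ s5
  refine ⟨_, _, s7, fun g h => ?_, fun g hg x hx => ?_⟩
  · simp only [Pi.add_apply, Pi.smul_apply, neg_one_zsmul, sub_eq_add_neg, Pi.neg_apply]
  · rw [k7, k6, k5, k4, k2 g hg, k3 g hg, k1 g hg x hx, neg_one_zsmul, sub_eq_add_neg]

theorem lowA (hLING : LING) (hKCR : KCR) (hCOK : COK) (hLAB : LAB) (hM : Lv0 k M) (hp : p.Prime)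
    (p15 : ¬ p ∣ 15) {f : AL → AL → (CL k M).A} {b : AL → (CL k M).A} (hS : (CL k M).Sp geo f b)
    (c c' : (ZMod M)ˣ) : ∃ F B, (CL k M).Sp geo F B ∧ (∀ g h, F g h = f g h -
      tlU k c ((HC p).T2 f g h) + (p : ℤ) • tlU k c' (f g h)) ∧ ∀ g ∈ GG, ∀ x ∈ geo, ∀ ε,
      (CL k M).kk F B g x ε = ((CL k M).kk f b g x ε + -red (2 ^ k) c⁻¹ *
        (HC p).T1 (fun y => (CL k M).kk f b g y (ε * c⁻¹)) x) +
        p * red (2 ^ k) c'⁻¹ * (CL k M).kk f b g x (ε * c'⁻¹) := by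
  obtain ⟨hC, hN, -, hR⟩ := hCOK.2.2.1 k M hM.1 hM.2.1
  have hp' := hR p hp.ne_zero ((Nat.Prime.coprime_iff_not_dvd hp).2 p15)
  obtain ⟨⟨φ, e1, e2⟩, -⟩ := (hLAB k M hM.1 hM.2.1).1 c
  obtain ⟨⟨φ', e3, e4⟩, -⟩ := (hLAB k M hM.1 hM.2.1).1 c'
  obtain ⟨F, B, s, h1, h2⟩ := gen hLING hKCR hC hN hp' hS φ φ' e2 e4 p
  simp only [e1, e3] at h1 h2
  refine ⟨F, B, s, h1, fun g hg x hx ε => (congrFun (h2 g hg x hx) ε).trans ?_⟩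
  simp only [Pi.add_apply, Pi.sub_apply, Pi.smul_apply, tlU, T1_apply]
  simp only [zsmul_eq_mul]
  push_cast
  ring

/-- the lower level -/
theorem low (hCOK : COK) (hZQ : ZQ) (hCUSP : CUSP) (hl : l.Prime) (h15 : ¬ l ∣ 15)
    (hM : Lv0 k M) (hp : p.Prime) (p15 : ¬ p ∣ 15) (h : ¬ p ∣ M) (h2 : p ≠ 2)
    {κ : AL → (ZMod M)ˣ → ZMod (2 ^ k)} {z : (ZMod M)ˣ → V2} (hκ : SH1 LL geo κ)
    (hz : ∀ d, ‖z d‖ ≤ 1) (e : ∀ x ∈ geo, ∀ d, PP l (fun y => κ y d) x = pu k (z d) x) {γ : AL}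
    (hγ : γ ∈ geo) (ε : (ZMod M)ˣ) : ‖eu p (ap W15 p) z ε‖ ≤ 1 ∧
      PP l (fun x => (κ x ε + -red (2 ^ k) (un (p : ZMod M))⁻¹ *
        (HC p).T1 (fun y => κ y (ε * (un (p : ZMod M))⁻¹)) x) +
        (p : ZMod (2 ^ k)) * red (2 ^ k) (un (p : ZMod M) ^ 2)⁻¹ * κ x (ε * (un (p : ZMod M) ^ 2)⁻¹)) γ =
      pu k (eu p (ap W15 p) z ε) γ := by
  obtain ⟨hC, hN, -, hR⟩ := hCOK.2.2.1 k M hM.1 hM.2.1
  have hp' := hR p hp.ne_zero ((Nat.Prime.coprime_iff_not_dvd hp).2 p15)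
  obtain ⟨n1, r1, r2⟩ := red_inv hZQ hM hp h h2
  obtain ⟨z1, z2, -, z4, -⟩ := hZQ k
  have n2 : ‖((ap W15 p : ℤ) : ℚ_[2])‖ ≤ 1 := Padic.norm_int_le_one _
  have n3 : ‖((ap W15 p : ℤ) : ℚ_[2]) / p‖ ≤ 1 := by
    rw [div_eq_mul_inv, norm_mul]
    exact mul_le_one₀ n2 (norm_nonneg _) n1
  have n4 : ∀ (a : ℚ_[2]) d, ‖a‖ ≤ 1 → ‖a • z d‖ ≤ 1 := fun a d ha => by
    rw [norm_smul]
    exact mul_le_one₀ ha (norm_nonneg _) (hz _)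
  have n5 := sub_le (hz ε) (n4 _ (ε * (un (p : ZMod M))⁻¹) n3)
  rw [eu, if_neg h]
  refine ⟨add_le n5 (n4 _ _ n1), ?_⟩
  have a2 : ∀ d, PP l ((HC p).T1 fun y => κ y d) γ = ap W15 p * pu k (z d) γ := fun d => by
    rw [PP, ((hCUSP l hl h15 k).1 _ (sh_apply hκ d)).2 p hp p15 γ hγ,
      ← (hCUSP p hp p15 k).2 h2 _ (hz _) γ hγ, ← T1_congr hp' hN (fun x hx => e x hx d) hγ]
    simp only [PP, Crs.T1, Finset.sum_sub_distrib, Finset.mul_sum]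
  rw [PP_lin, PP_lin, a2, e γ hγ, e γ hγ,
    ((z4 _ n5).2.2.2.2.1 _ (n4 _ _ n1) γ).1, ((z4 _ (hz _)).2.2.2.2.1 _ (n4 _ _ n3) γ).2,
    (z4 _ (hz _)).2.2.2.1 _ n3, (z4 _ (hz _)).2.2.2.1 _ n1, div_eq_mul_inv,
    (z1 _ _ n2 n1).2.1, z2, ← inv_pow, sq (un (p : ZMod M))⁻¹, TGEN.red_mul hM.2.1 hM.1, r1]
  linear_combination zq k (p : ℚ_[2])⁻¹ *
    pu k (z (ε * ((un (p : ZMod M))⁻¹ * (un (p : ZMod M))⁻¹))) γ * r2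

end TNREL

open TZTK TNREL in
theorem t_NREL (hLING : LING) (hKC : KCU) (hKCR : KCR) (hCOK : COK) (hZQ : ZQ) (hCUSP : CUSP)
    (hLAB : LAB) (hSECX : SECX) (hNE : NE) : NREL := by
  intro l k M M' p b z b' z' hl h15 hM h2 hp p15 e hZ hZ'
  obtain ⟨hC, hN, -, hR⟩ := hCOK.2.2.1 k M hM.1 hM.2.1
  replace hR := hR l hl.ne_zero ((Nat.Prime.coprime_iff_not_dvd hl).2 h15)
  obtain ⟨B', s1, k1⟩ := up hLING hCOK hZQ hLAB hM ⟨p, e⟩ (e ▸ mul_ne_zero hM.1 hp.ne_zero) hZ'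
  have hE := hNE k M M' p hM hp p15 e
  obtain ⟨F, B, s2, hF, k2⟩ : ∃ F B, (CL k M).Sp geo F B ∧
      (CL k M).Eqv (fun g h => pz M (M' := M') (fE k (E0 M') g h)) F ∧
      ∀ g ∈ GG, ∀ γ ∈ geo, ∀ ε, ‖eu p (ap W15 p) (z (cg g)) ε‖ ≤ 1 ∧
        PP l (fun x => (CL k M).kk F B g x ε) γ = pu k (eu p (ap W15 p) (z (cg g)) ε) γ := by
    by_cases h : p ∣ M
    · simp only [if_pos h] at hE
      refine ⟨_, b, hZ.sp, hE, fun g hg γ hγ ε => ?_⟩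
      rw [eu, if_pos h]
      exact ⟨hZ.int _ _, zk hZ hg hγ ε⟩
    · simp only [if_neg h] at hE
      obtain ⟨F, B, s, f, k0⟩ := lowA hLING hKCR hCOK hLAB hM hp p15 hZ.sp (un (p : ZMod M))
        (un (p : ZMod M) ^ 2)
      refine ⟨F, B, s, (funext₂ f).symm ▸ hE, fun g hg γ hγ ε => ?_⟩
      rw [PP_congr hR hN (fun x hx => k0 g hg x hx ε) hγ]
      exact low hCOK hZQ hCUSP hl h15 hM hp p15 h (fun e => h (e ▸ h2))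
        ((hKC AL LL (CL k M) geo _ b hC hN hZ.sp).1 g hg) (hZ.int _)
        (fun x hx => zk hZ hg hx) hγ ε
  obtain ⟨m, hm, k3⟩ := (hKC AL LL (CL k M) geo _ _ hC hN s1).2.2.2.2.2 _ _ s2 hF
  obtain ⟨v, hv, k4⟩ := cob hLING hKCR hCOK hZQ hCUSP hl h15 hM hm
  refine ⟨-v, fun d => by rw [Pi.neg_apply, norm_neg]; exact hv d, fun σ ε => ?_⟩
  obtain ⟨τ, x, y, h1, h3, h4⟩ := hSECX.2
  obtain ⟨s, hs⟩ := hSECX.1 τ x y ⊤ h1 h3 h4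
  obtain ⟨g, hg, rfl⟩ : ∃ g ∈ GG, cg g = σ := ⟨_, hs.mem σ trivial⟩
  have z4 := (hZQ k).2.2.2.1
  have n1 := (k1 g hg 1 geo.one_mem ε).1
  have n2 := (k2 g hg 1 geo.one_mem ε).1
  have n3 := rho_le (cg g) (hv (ε * (cy M (cg g))⁻¹))
  have n4 := sub_le (hv ε) n3
  rw [Pi.neg_apply, Pi.neg_apply, Matrix.mulVec_neg, neg_sub_neg]
  refine (z4 _ (sub_le (sub_le n1 n2) n4)).2.1 fun γ hγ => ?_
  have a1 := PP_congr (l := l) hR hN (ψ' := fun x => (CL k M).kk F B g x ε +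
    1 * (CL k M).kk 0 m g x ε)
    (fun x hx => (congrFun (k3 g hg x hx) ε).trans (by rw [one_mul, Pi.add_apply])) hγ
  rw [(k1 g hg γ hγ ε).2, PP_lin, (k2 g hg γ hγ ε).2, k4 g hg γ hγ] at a1
  rw [((z4 _ (sub_le n1 n2)).2.2.2.2.1 _ n4 γ).2, ((z4 _ n1).2.2.2.2.1 _ n2 γ).2,
    ((z4 _ (hv ε)).2.2.2.2.1 _ n3 γ).2, a1]
  ring

end Pool.Agent.P.MP_9c97e9_nt.KT
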