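import Pool.Agent.P.MP_9c97e9_nt.KT.IfEB
import Pool.Agent.P.MP_9c97e9_nt.KT.TCYB

/-! The parameters of the local points. -/

namespace Pool.Agent.P.MP_9c97e9_nt.KT

open scoped NNReal Matrix
open MP_8b7eba_nt.R2
open MP_8b7eba_nt.Mod (xx yy an)
open MP_8b7eba_nt.R1 (Zb QE zs exists_xx)
open PowerSeries

namespace TPNA

theorem lt_one {K : ℕ} (hK : K ≠ 0) {ζ : Om} (h : ζ ^ 2 ^ K = 1) : ‖i2 ζ - 1‖ < 1 := by
  have h1 := Pl.v_add_pow (w := w2) (x := ζ) (y := -1) (Pl.v_root (by positivity) h).le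
    (by simp) K
  have h2 : w2.v (2 : Om) = 2⁻¹ := by exact_mod_cast (w2.vp : w2.v (2 : ℕ) = ((2 : ℕ) : ℝ≥0)⁻¹)
  rw [show w2.p = 2 from rfl, h, (Nat.even_pow.2 ⟨even_two, hK⟩).neg_one_pow, one_add_one_eq_two,
    ← sub_eq_add_neg, Nat.cast_ofNat] at h1
  have h3 := w2.v.map_add_le h1 h2.le
  rw [sub_add_cancel, map_pow] at h3
  have h4 : w2.v (ζ - 1) < 1 :=
    (pow_lt_one_iff_of_nonneg zero_le (by positivity)).1 (h3.trans_lt (by norm_num))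
  rw [← map_one i2, ← map_sub, ← t_BAS.2.2.1]
  exact_mod_cast h4

theorem v2a (hE : EV2) {w : ℕ} (hw : w ≠ 0) {G : ℂ → ℂ} {t v : ℂ_[2]} (ht : ‖t‖ < 1)
    (h : V2a 1 G (t ^ w) v) : V2a w G t v := by
  obtain ⟨N, A, h1, h2⟩ := h
  exact ⟨w * N, expand w hw A, h1.expand_one hw, by
    rw [((hE.2 t ht).2.2.2 A).2.2.2.1, pow_mul, h2]⟩

theorem big (hE : EV2) {q : ℂ_[2]} {x : Om} (h0 : q ≠ 0) (hq : ‖q‖ < 1) (h : V2a 1 xx q (i2 x)) :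
    1 < w2.v x := by
  obtain ⟨A, hA, hx⟩ := exists_xx
  obtain ⟨f, hf⟩ := hE.1
  have h1 := (hE.2 q hq).2.2.2 (zs A)
  have h2 := h1.2.2.2.2.2 1 2 xx _ one_ne_zero h0 h hx
  have h3 := h1.2.2.1 0 (by simp)
  have h4 : ev2 (zs A) 0 = 1 := by
    rw [ev2, tsum_eq_single 0 fun k hk => by rw [zero_pow hk, mul_zero], pow_zero, mul_one,
      coeff_map, coeff_zero_eq_constantCoeff_apply, hA, map_one, ← (hf 1).1, map_one, map_one]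
  rw [h4, sub_zero, ← h2] at h3
  have h5 := IsUltrametricDist.norm_add_le_max (i2 x * q ^ 2) (-(i2 x * q ^ 2 - 1))
  rw [norm_neg, neg_sub, add_sub_cancel, norm_one, le_max_iff, norm_mul, norm_pow,
    ← t_BAS.2.2.1] at h5
  have h6 := h5.resolve_right (h3.trans_lt hq).not_ge
  by_contra h7
  have h8 : (w2.v x : ℝ) ≤ 1 := by exact_mod_cast not_lt.1 h7
  exact (mul_lt_one_of_nonneg_of_lt_one_right h8 (by positivity)
    (pow_lt_one₀ (norm_nonneg q) hq two_ne_zero)).not_ge h6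

theorem rel (H : Subgroup GQ) {M : ℕ} (hM : M ≠ 0) : (H ⊓ (cy M).ker).relIndex H ≤ M := by
  have := NeZero.mk hM
  rw [Subgroup.inf_relIndex_left, Subgroup.relIndex_ker]
  exact (Nat.card_le_card_of_injective (fun x : H.map (cy M) => (x.1 : ZMod M))
    fun a b e => Subtype.ext (Units.ext e)).trans_eq (Nat.card_zmod M)

end TPNA

open TPNA in
theorem t_PNA (hZMX : ZMX) (hTCX : TCX) (hAPX : APX) (hEV2 : EV2) (hPTS : PTS) (hGSX : GSX) :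
    PNA := by
  intro D l k ε hl hln hε
  have hn := D.sq.ne_zero
  have n4 := D.n4
  have hnl := mul_ne_zero hn hl.ne_zero
  have hK : 2 ^ (k + 2) ≠ 0 := by positivity
  have hM := mul_ne_zero hK hn
  have hMl := mul_ne_zero hM hl.ne_zero
  have hodd : Odd l := hl.odd_of_ne_two fun e => hln (e ▸ Dvd.dvd.mul_right (by norm_num) _)
  obtain ⟨hζ, hζ'⟩ := hZMX.2.2.1 (k + 2)
  obtain ⟨x, y, q, h1, h2⟩ := hPTS D (k + 2) _ ε (by omega) hζ hε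
  choose t ht using fun s => hAPX.2.2 (q s) _ hMl
  have L0 := (hZMX.2.2.2 k).1.1.inf (TCYB.on hnl).2
  have c1 : ∀ g ∈ HC2 k ⊓ (cy (D.n * l)).ker, cy D.n g = 1 ∧ cy l g = 1 := fun g hg =>
    ((hZMX.1 _ hn).2.2.2.2.1 l g hl.ne_zero).1 hg.2
  have c2 : ∀ g ∈ HC2 k ⊓ (cy (D.n * l)).ker, g D.dl = D.dl := fun g hg => by
    rw [← sd_eq_one, (hGSX D).2.1 D.n g hn dvd_rfl, (c1 g hg).1, Units.val_one,
      ZMod.val_one_eq_one_mod, Nat.mod_eq_of_lt (by omega), Nat.cast_one, jacobiSym.one_left]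
  have q0 : ∀ s, s = 1 ∨ s = -1 → q s ≠ 0 ∧ ‖q s‖ < 1 := fun s hs => by
    rw [← norm_ne_zero_iff, (h2 s hs).2.2.1]
    refine ⟨norm_ne_zero_iff.2 fun e => hζ.ne_one (Nat.one_lt_two_pow (by omega)) ?_,
      lt_one (by omega) hζ.pow_eq_one⟩
    exact i2.injective ((sub_eq_zero.1 e).trans (map_one i2).symm)
  have t0 : ∀ s, s = 1 ∨ s = -1 → t s ≠ 0 ∧ ‖t s‖ < 1 := fun s hs =>
    ⟨fun e => (q0 s hs).1 (by rw [← ht, e, zero_pow hMl]), by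
      have := (q0 s hs).2
      rwa [← ht, norm_pow, pow_lt_one_iff_of_nonneg (norm_nonneg _) hMl] at this⟩
  have q1 : ∀ s, s = 1 ∨ s = -1 →
      (t s ^ (2 ^ (k + 2) * D.n)) ^ l ∈ ClF (HC2 k ⊓ (cy (D.n * l)).ker) := fun s hs => by
    rw [← pow_mul, ht]
    refine Metric.mem_closure_iff.2 fun η hη => ?_
    obtain ⟨q₁, a1, a2⟩ := (h2 s hs).2.2.2.2.2 _ (half_pos hη)
    refine ⟨_, ⟨q₁, fun σ hσ => a2 σ hσ.1.1 ((hζ' σ).1 hσ.1.2) (c2 σ hσ), rfl⟩, ?_⟩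
    rw [dist_comm, dist_eq_norm]
    exact a1.trans_lt (half_lt_self hη)
  obtain ⟨H1, L1, l1, r1, m1⟩ := hAPX.2.1 _ l _ L0 hodd (pow_ne_zero _ (t0 1 (.inl rfl)).1)
    (q1 1 (.inl rfl))
  obtain ⟨H2, L2, l2, r2, m2⟩ := hAPX.2.1 H1 l _ L1 hodd (pow_ne_zero _ (t0 (-1) (.inr rfl)).1)
    (((hTCX _ L0).2.2.2.1 _ (q1 (-1) (.inr rfl))).2.2.2.2.2 H1 l1)
  have l3 := l2.trans l1
  refine ⟨H2, x, y, t, ⟨L2, l3.trans inf_le_left, fun g hg => c2 g (l3 hg),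
    fun σ hσ => h1 σ hσ.1 ((hζ' σ).1 hσ.2),
    fun s hs => big hEV2 (q0 s hs).1 (q0 s hs).2 (h2 s hs).1⟩, ?_,
    fun g hg => ⟨((hZMX.1 _ hK).2.2.2.2.1 D.n g hn).2 ?_ (l3 hg).1.2 (c1 g (l3 hg)).1,
      (c1 g (l3 hg)).2⟩, fun s hs => ⟨(t0 s hs).1, (t0 s hs).2, ?_,
      v2a hEV2 hMl (t0 s hs).2 (ht s ▸ (h2 s hs).1),
      v2a hEV2 hMl (t0 s hs).2 (ht s ▸ (h2 s hs).2.1), ht s ▸ (h2 s hs).2.2.2.1⟩⟩
  · rw [← Subgroup.relIndex_mul_relIndex _ _ _ l3 inf_le_left,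
      ← Subgroup.relIndex_mul_relIndex _ _ _ l2 l1]
    exact (Nat.mul_le_mul (Nat.mul_le_mul r2 r1) (rel _ hnl)).trans_eq (by ring)
  · exact Nat.Coprime.pow_left _ (Nat.coprime_two_left.2 (Nat.odd_iff.2 (by omega)))
  · rcases hs with rfl | rfl
    exacts [((hTCX _ L1).2.2.2.1 _ m1).2.2.2.2.2 H2 l2, m2]

end Pool.Agent.P.MP_9c97e9_nt.KT
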