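import Pool.Agent.P.MP_9c97e9_nt.KT.IfEB

/-! The Kummer cocycle of the local points. -/

namespace Pool.Agent.P.MP_9c97e9_nt.KT

open scoped NNReal Matrix
open MP_8b7eba_nt.R2
open MP_9c97e9_nt (Is)

namespace TPNB

theorem move {σ : GQ} {P Q : EO} {x y x' y' : Om} (h : Is P (4 * x) (8 * y))
    (h' : Is Q (4 * x') (8 * y')) (e : σ x = x' ∧ σ y = y') : ac σ P = Q := by
  have := is_ac σ h
  rw [map_mul, map_mul, map_ofNat, map_ofNat, e.1, e.2] at this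
  exact Is.unique split15 this h'

end TPNB

theorem t_PNB (hPRX : PRX) (hYEX : YEX) : PNB := by
  intro D k H x y τ τ' s s' hP ha ha' hs hs'
  obtain ⟨R, r1, r2⟩ := (hPRX k).sec τ H s _ _ hs ha
  obtain ⟨R', r1', r2'⟩ := (hPRX k).sec τ' H s' _ _ hs' ha'
  obtain ⟨Y, R₀, y1, y2, y3⟩ := hYEX D k (2 ^ k • R' - 2 ^ k • R)
    (by
      rw [sub_eq_add_neg]
      exact (a_E1G w2).2.2.1 _ _ ((TE1G.e1_iff r1').2 (hP.big 1 (.inl rfl)))
        ((a_E1G w2).2.1 _ ((TE1G.e1_iff r1).2 (hP.big (-1) (.inr rfl)))))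
    fun σ h1 h2 => by
      have e := hP.eqv σ ⟨h1, h2⟩
      rw [tac_apply, map_sub]
      rcases sd_cases D.dl σ with a | a <;> rw [a] at e ⊢
      · rw [TPNB.move r1' r1' (by simpa using e 1), TPNB.move r1 r1 (by simpa using e (-1)),
          one_smul]
      · rw [TPNB.move r1' r1 (by simpa using e 1), TPNB.move r1 r1' (by simpa using e (-1)),
          neg_one_zsmul, neg_sub]
  have t0 : 2 ^ k • (R' - R - R₀) = 0 := by rw [smul_sub, smul_sub, y2, sub_self]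
  obtain ⟨w, hw⟩ := T2.surj _ k t0
  have n : ‖(2 ^ k : ℚ_[2])‖ = (2 ^ k)⁻¹ := by rw [norm_pow, SelA.two, inv_pow]
  have h0 : (2 ^ k : ℚ_[2]) ≠ 0 := pow_ne_zero k two_ne_zero
  refine ⟨Y, (2 ^ k : ℚ_[2]) • w, y1, ?_, fun h hh => ?_⟩
  · rw [norm_smul, n, inv_mul_le_one₀ (by positivity)]
    exact T2.pt_pow.1 (hw ▸ t0)
  · have a : ∀ Q, tac D.dl h Q = ac h Q := fun Q => by
      rw [tac_apply, sd_eq_one.2 (hP.dl h hh), one_smul]
    have b := (T2.ker ((2 ^ k : ℚ_[2])⁻¹ • (uN k (s' h) - uN k (s h) - Y h 1 -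
        T2.bd D.dl ((2 ^ k : ℚ_[2]) • w) h))).1 (by
      rw [smul_sub, smul_sub, smul_sub, map_sub, map_sub, map_sub, r2 h hh, r2' h hh,
        y3 h (hP.le hh).1 (hP.le hh).2, Tate.bd, Matrix.mulVec_smul, ← smul_sub, inv_smul_smul₀ h0,
        map_sub, ← T2.tgal, hw, a, a, map_sub, map_sub]
      abel)
    rwa [norm_smul, norm_inv, n, inv_inv, ← le_div_iff₀' (by positivity), one_div] at b

end Pool.Agent.P.MP_9c97e9_nt.KT
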