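import Pool.Agent.P.MP_9c97e9_nt.KT.IfEB
import Pool.Agent.P.MP_9c97e9_nt.KT.TBAS

/-! The values of the units are limits of finite products. -/

namespace Pool.Agent.P.MP_9c97e9_nt.KT

open scoped NNReal
open MP_8b7eba_nt.R2
open MP_8b7eba_nt.R1 (Zb QE ze)
open Finset PowerSeries

namespace TPRD

variable {η : ℝ} {x y z x' y' : ℂ_[2]}

theorem n1 (h : ‖x - 1‖ < 1) : ‖x‖ = 1 := by
  have := IsUltrametricDist.norm_add_eq_max_of_norm_ne_norm (x := x - 1) (y := 1)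
    (by rw [norm_one]; exact h.ne)
  rwa [sub_add_cancel, norm_one, max_eq_right h.le] at this

theorem pmul (hη : η < 1) (h : ‖x - 1‖ ≤ η) (h' : ‖y - 1‖ ≤ η) : ‖x * y - 1‖ ≤ η := by
  rw [show x * y - 1 = x * (y - 1) + (x - 1) by ring]
  refine (IsUltrametricDist.norm_add_le_max _ _).trans (max_le ?_ h)
  rwa [norm_mul, n1 (h.trans_lt hη), one_mul]

theorem pinv (hη : η < 1) (h : ‖x - 1‖ ≤ η) : ‖x⁻¹ - 1‖ ≤ η := by
  have h1 := n1 (h.trans_lt hη)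
  have h0 : x ≠ 0 := norm_ne_zero_iff.1 (by rw [h1]; exact one_ne_zero)
  rwa [show x⁻¹ - 1 = -(x - 1) / x by field_simp; ring, norm_div, norm_neg, h1, div_one]

theorem ppow (hη : η < 1) (h : ‖x - 1‖ ≤ η) (n : ℕ) : ‖x ^ n - 1‖ ≤ η := by
  induction n with
  | zero => simpa using (norm_nonneg _).trans h
  | succ n ih => rw [pow_succ]; exact pmul hη ih h

/-- multiplicatively close elements -/
def cl (η : ℝ) (x y : ℂ_[2]) : Prop := ‖x / y - 1‖ ≤ η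

theorem cl.ne (hη : η < 1) (h : cl η x y) : y ≠ 0 := by
  rintro rfl
  have := n1 (lt_of_le_of_lt h hη)
  simp at this

theorem cl_refl (h0 : 0 ≤ η) (h : x ≠ 0) : cl η x x := by simpa [cl, div_self h] using h0

theorem cl.mul (hη : η < 1) (h : cl η x y) (h' : cl η x' y') : cl η (x * x') (y * y') := by
  rw [cl, mul_div_mul_comm]; exact pmul hη h h'

theorem cl.div (hη : η < 1) (h : cl η x y) (h' : cl η x' y') : cl η (x / x') (y / y') := by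
  rw [cl, div_div_div_comm, div_eq_mul_inv]; exact pmul hη h (pinv hη h')

theorem cl.symm (hη : η < 1) (h : cl η x y) : cl η y x := by
  rw [cl, ← inv_div]; exact pinv hη h

theorem cl.trans (hη : η < 1) (h : cl η x y) (h' : cl η y z) : cl η x z := by
  rw [cl, ← div_mul_div_cancel₀ (h.ne hη)]; exact pmul hη h h'

theorem cl.zpow (hη : η < 1) (h : cl η x y) (n : ℤ) : cl η (x ^ n) (y ^ n) := by
  rw [cl, ← div_zpow]
  obtain ⟨m, rfl | rfl⟩ := n.eq_nat_or_neg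
  · rw [zpow_natCast]; exact ppow hη h m
  · rw [zpow_neg, zpow_natCast]; exact pinv hη (ppow hη h m)

theorem cl_prod (h0 : 0 ≤ η) (hη : η < 1) (s : Finset ℕ) (f g : ℕ → ℂ_[2])
    (h : ∀ i ∈ s, cl η (f i) (g i)) : cl η (∏ i ∈ s, f i) (∏ i ∈ s, g i) := by
  induction s using Finset.induction_on with
  | empty => simpa using cl_refl h0 one_ne_zero
  | insert a s ha ih =>
    rw [prod_insert ha, prod_insert ha]
    exact (h a (mem_insert_self _ _)).mul hη (ih fun i hi => h i (mem_insert_of_mem hi))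

theorem nf {ζ T : ℂ_[2]} {c : ℕ} (hζ : ‖ζ‖ = 1) (hT : ‖T‖ < 1) (hc : c ≠ 0) :
    ‖1 - ζ * T ^ c‖ = 1 := by
  apply n1
  rw [sub_sub_cancel_left, norm_neg, norm_mul, hζ, one_mul, norm_pow]
  exact pow_lt_one₀ (norm_nonneg _) hT hc

theorem cf {ζ T t : ℂ_[2]} {c : ℕ} (hη : η < 1) (hζ : ‖ζ‖ = 1) (hT : ‖T‖ < 1) (hc : c ≠ 0)
    (h : cl η t T) : cl η (1 - ζ * t ^ c) (1 - ζ * T ^ c) := by
  have h1 := nf hζ hT hc
  have h0 : 1 - ζ * T ^ c ≠ 0 := norm_ne_zero_iff.1 (by rw [h1]; exact one_ne_zero)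
  have h2 := h.ne hη
  have h3 := ppow hη h c
  rw [cl, show (1 - ζ * t ^ c) / (1 - ζ * T ^ c) - 1 =
    -(ζ * T ^ c * ((t / T) ^ c - 1)) / (1 - ζ * T ^ c) by rw [div_pow]; field_simp; ring,
    norm_div, h1, div_one, norm_neg, norm_mul, norm_mul, hζ, one_mul, norm_pow]
  exact (mul_le_of_le_one_left (norm_nonneg _) (pow_le_one₀ (norm_nonneg _) hT.le)).trans h3

/-- the partial products at a 2-adic point -/
noncomputable def pC (M : ℕ) (a B : ℤ) (L : ℕ) (T : ℂ_[2]) : ℂ_[2] :=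
  ∏ c ∈ range L, (if (15 * M : ℤ) ∣ c - B then 1 - i2 (zM M a) * T ^ c else 1) *
    if (15 * M : ℤ) ∣ c + B then 1 - i2 (zM M (-a)) * T ^ c else 1

theorem i2_pO (M : ℕ) (a B : ℤ) (L : ℕ) (t : Om) : i2 (pO M a B L t) = pC M a B L (i2 t) := by
  simp only [pO, pC, map_prod, map_mul, apply_ite i2, map_sub, map_one, map_pow]

variable {M : ℕ} {B : ℤ} {T : ℂ_[2]}

theorem c0 (hB : ¬ (15 * M : ℤ) ∣ B) {c : ℕ} :
    ((15 * M : ℤ) ∣ c - B → c ≠ 0) ∧ ((15 * M : ℤ) ∣ c + B → c ≠ 0) := by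
  constructor <;> rintro h rfl <;> exact hB (by simpa using h)

theorem norm_pC (hz : ∀ a, ‖i2 (zM M a)‖ = 1) (hB : ¬ (15 * M : ℤ) ∣ B) (hT : ‖T‖ < 1) (a : ℤ)
    (L : ℕ) : ‖pC M a B L T‖ = 1 := by
  rw [pC, norm_prod]
  refine prod_eq_one fun c _ => ?_
  have k {a b : ℝ} (h : a = 1) (h' : b = 1) : a * b = 1 := by rw [h, h', one_mul]
  rw [norm_mul]
  refine k ?_ ?_ <;> split_ifs with h
  exacts [nf (hz _) hT ((c0 hB).1 h), norm_one, nf (hz _) hT ((c0 hB).2 h), norm_one]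

theorem cl_pC (h0 : 0 ≤ η) (hη : η < 1) (hz : ∀ a, ‖i2 (zM M a)‖ = 1) (hB : ¬ (15 * M : ℤ) ∣ B)
    (hT : ‖T‖ < 1) (h : cl η x T) (a : ℤ) (L : ℕ) : cl η (pC M a B L x) (pC M a B L T) := by
  refine cl_prod h0 hη _ _ _ fun c _ => cl.mul hη ?_ ?_ <;> split_ifs with h'
  exacts [cf hη (hz _) hT ((c0 hB).1 h') h, cl_refl h0 one_ne_zero,
    cf hη (hz _) hT ((c0 hB).2 h') h, cl_refl h0 one_ne_zero]

theorem ev_pS (φ : Zb⟦X⟧ →+* ℂ_[2]) (hX : φ X = T) (hC : ∀ a, φ (C a) = i2 (zo a)) (a : ℤ)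
    (L : ℕ) : φ (pS M a B L) = pC M a B L T := by
  simp only [pS, pC, map_prod, map_mul, apply_ite φ, map_sub, map_one, map_pow, hX, hC, zM]

theorem nd {b i s : ℤ} (hM : M.Coprime 15) (hb : IsCoprime b 15) (hs : IsCoprime s 15) :
    ¬ (15 * M : ℤ) ∣ 15 * i + s * M * b := fun h => by
  have h1 : (15 : ℤ) ∣ s * M * b :=
    (dvd_add_right (dvd_mul_right _ _)).1 ((dvd_mul_right _ _).trans h)
  have h2 : IsCoprime (s * M * b) 15 :=
    (hs.mul_left (by exact_mod_cast Nat.isCoprime_iff_coprime.2 hM)).mul_left hb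
  have := h2.symm.isUnit_of_dvd h1
  rw [Int.isUnit_iff] at this
  omega

end TPRD

open TPRD in
theorem t_PRD (hUQ : UQ) (hEV2 : EV2) (hZMX : ZMX) : PRD := by
  intro M b i₁ i₂ hM hc hb
  obtain ⟨-, -, N, e, A, hQ, hd, hX⟩ := hUQ M b i₁ i₂ hM hc hb
  refine ⟨e - N, hd, fun T u h0 hT hV η hη hη1 => ?_⟩
  obtain ⟨⟨φ, hφ⟩, eX, eC, hA⟩ := hEV2.2 T hT
  have hv := (hA A).2.2.2.2.2 M N _ _ hM h0 hV hQ
  have hz : ∀ a, ‖i2 (zM M a)‖ = 1 := fun a => by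
    rw [← t_BAS.2.2.1, ((hZMX.1 M hM).2.1 a).2, NNReal.coe_one]
  have b1 : ¬ (15 * M : ℤ) ∣ 15 * i₁ + M * b := by
    simpa using nd (i := i₁) hc hb isCoprime_one_left
  have b2 : ¬ (15 * M : ℤ) ∣ 15 * i₁ - M * b := by
    simpa [← sub_eq_add_neg] using nd (i := i₁) hc hb isCoprime_one_left.neg_left
  have c4 : IsCoprime (4 : ℤ) 15 := ⟨4, -1, by norm_num⟩
  have b3 := nd (i := i₁) hc hb c4
  have b4 : ¬ (15 * M : ℤ) ∣ 15 * i₁ - 4 * M * b := by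
    simpa [← sub_eq_add_neg] using nd (i := i₁) hc hb c4.neg_left
  have p0 : 0 < ‖T‖ := norm_pos_iff.2 h0
  have η0 : (0 : ℝ) < η := hη
  have η1 : (η : ℝ) < 1 := hη1
  obtain ⟨n, hn⟩ := exists_pow_lt_of_lt_one η0 hT
  refine ⟨n + e, fun L hL t ht => ?_⟩
  have ct : cl η (i2 t) T := by
    rw [cl, show i2 t / T - 1 = (i2 t - T) / T by field_simp, norm_div, div_le_iff₀ p0]
    exact ht
  set c : ℂ_[2] := (-1) ^ (JJ M b i₁).natAbs * i2 (zM M (i₂ * JJ M b i₁)) with hcc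
  have nc : ‖c‖ = 1 := by rw [hcc, norm_mul, hz, norm_pow, norm_neg, norm_one, one_pow, one_mul]
  have nz : ∀ {y : ℂ_[2]}, ‖y‖ = 1 → y ≠ 0 := fun h =>
    norm_ne_zero_iff.1 (by rw [h]; exact one_ne_zero)
  have q1 := norm_pC hz b1 hT i₂ L
  have q2 := norm_pC hz b2 hT i₂ L
  have q3 := norm_pC hz b3 hT i₂ L
  have q4 := norm_pC hz b4 hT i₂ L
  obtain ⟨R, hR⟩ := hX L
  have hR' := congrArg φ hR
  have eX' : φ X = T := by rw [hφ, eX]
  have eC' : ∀ a, φ (C a) = i2 (zo a) := fun a => by rw [hφ, eC]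
  simp only [map_sub, map_mul, map_pow, map_neg, map_one, ev_pS φ eX' eC', eX', eC'] at hR'
  rw [hφ A, ← hv, ← zM, ← hcc] at hR'
  have k1 : cl η (i2 u) (c * T ^ ((e : ℤ) - N) *
      (pC M i₂ (15 * i₁ + M * b) L T * pC M i₂ (15 * i₁ - M * b) L T) /
      (pC M i₂ (15 * i₁ + 4 * M * b) L T * pC M i₂ (15 * i₁ - 4 * M * b) L T)) := by
    have := nz q1
    have := nz q2
    have := nz q3
    have := nz q4
    have := nz nc
    rw [cl, zpow_sub₀ h0, zpow_natCast, zpow_natCast, show ∀ a₁ a₂ a₃ a₄ : ℂ_[2], a₁ ≠ 0 → a₂ ≠ 0 →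
      a₃ ≠ 0 → a₄ ≠ 0 → i2 u / (c * (T ^ e / T ^ N) * (a₁ * a₂) / (a₃ * a₄)) - 1 =
      (i2 u * T ^ N * (a₃ * a₄) - c * T ^ e * (a₁ * a₂)) / (c * T ^ e * (a₁ * a₂)) from
        fun _ _ _ _ _ _ _ _ => by field_simp, hR', norm_div] <;> try assumption
    simp only [norm_mul, norm_pow, q1, q2, nc, one_mul, mul_one]
    rw [div_le_iff₀ (pow_pos p0 _), hφ]
    calc ‖T‖ ^ L * ‖ev2 R T‖ ≤ ‖T‖ ^ L := mul_le_of_le_one_right (by positivity) (hA R).1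
      _ ≤ ‖T‖ ^ (n + e) := pow_le_pow_of_le_one p0.le hT.le hL
      _ ≤ _ := by rw [pow_add]; gcongr
  have k2 := (((cl_refl η0.le (nz nc)).mul η1 (ct.zpow η1 ((e : ℤ) - N))).mul η1
    ((cl_pC η0.le η1 hz b1 hT ct i₂ L).mul η1 (cl_pC η0.le η1 hz b2 hT ct i₂ L))).div η1
    ((cl_pC η0.le η1 hz b3 hT ct i₂ L).mul η1 (cl_pC η0.le η1 hz b4 hT ct i₂ L))
  have k3 := k1.trans η1 (k2.symm η1)
  rw [← NNReal.coe_le_coe, t_BAS.2.2.1]
  simpa only [cl, piO, map_sub, map_div₀, map_mul, map_pow, map_neg, map_one, map_zpow₀,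
    i2_pO] using k3

end Pool.Agent.P.MP_9c97e9_nt.KT
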