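import Pool.Agent.P.MP_9c97e9_nt.KT.IfP

/-! The local points. -/

namespace Pool.Agent.P.MP_9c97e9_nt.KT

open MP_8b7eba_nt.R2
open MP_8b7eba_nt.Mod (an)
open Polynomial Finset

namespace TPTS

theorem PAl.mul {F G : Om[X]} (hF : PAl F) (hG : PAl G) : PAl (F * G) := fun m => by
  rw [coeff_mul]
  exact w2.v.map_sum_le fun i _ => by rw [map_mul]; exact mul_le_one' (hF _) (hG _)

theorem PAl.add {F G : Om[X]} (hF : PAl F) (hG : PAl G) : PAl (F + G) := fun m => by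
  rw [coeff_add]
  exact w2.v.map_add_le (hF m) (hG m)

theorem PAl.sub {F G : Om[X]} (hF : PAl F) (hG : PAl G) : PAl (F - G) := fun m => by
  rw [coeff_sub]
  exact w2.v.map_sub_le (hF m) (hG m)

theorem vint (m : ℤ) : w2.v (m : Om) ≤ 1 := a_PL.2.2.2.1 w2 _ (isIntegral_algebraMap (x := m))

theorem PAl.C {a : Om} (h : w2.v a ≤ 1) : PAl (C a) := fun m => by
  rw [coeff_C]
  split_ifs
  · exact h
  · simp

theorem PAl.pow {F : Om[X]} (hF : PAl F) (m : ℕ) : PAl (F ^ m) := by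
  induction m with
  | zero => simpa using PAl.C (a := 1) (by simp)
  | succ m ih => rw [pow_succ]; exact PAl.mul ih hF

theorem PAl.der {F : Om[X]} (hF : PAl F) : PAl (derivative F) := fun m => by
  rw [coeff_derivative, map_mul]
  exact mul_le_one' (hF _) (by simpa using vint (m + 1))

theorem PAl.sum {ι : Type} (s : Finset ι) {F : ι → Om[X]} (h : ∀ i ∈ s, PAl (F i)) :
    PAl (∑ i ∈ s, F i) := fun m => by
  rw [finsetSum_coeff]
  exact w2.v.map_sum_le fun i hi => h i hi m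

theorem der_lT (T : ℕ) {G : Om[X]} (hG : PAl G) : PAl (derivative ((lT T).comp G)) := by
  rw [lT, Polynomial.sum_comp, derivative_sum]
  refine PAl.sum _ fun m _ => ?_
  rw [monomial_comp, derivative_C_mul, derivative_pow, mul_assoc, ← mul_assoc, ← C_mul]
  refine PAl.mul (PAl.C ?_) (PAl.mul (PAl.pow hG _) (PAl.der hG))
  rcases Nat.eq_zero_or_pos m with rfl | h
  · simp
  · rw [div_mul_cancel₀ _ (by exact_mod_cast h.ne')]
    exact vint _

theorem lT0 (T : ℕ) : (lT T).coeff 0 = 0 := by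
  simp [lT, coeff_monomial]

theorem lT1 {T : ℕ} (h : 2 ≤ T) : (lT T).coeff 1 = 1 := by
  simp [lT, coeff_monomial, MP_8b7eba_nt.Mod.an_one, show 1 < T from h]

theorem lT_map (T : ℕ) (σ : GQ) : (lT T).map (σ : Om →+* Om) = lT T := by
  simp [lT, Polynomial.map_sum]

theorem l1_map {a : Om} (J : ℕ) {σ : GQ} (h : σ a = a) : (l1 a J).map (σ : Om →+* Om) = l1 a J := by
  simp [l1, Polynomial.map_sum, h, map_ofNat]

theorem ev_le (hBAS : BAS) {G : Om[X]} (hG : PAl G) {x : Om} (hx : ‖i2 x‖ ≤ 1) :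
    ‖i2 (G.eval x)‖ ≤ 1 := by
  rw [eval_eq_sum_range, map_sum]
  refine IsUltrametricDist.norm_sum_le_of_forall_le_of_nonneg zero_le_one fun i _ => ?_
  rw [map_mul, map_pow, norm_mul, norm_pow, ← hBAS.2.2.1]
  exact mul_le_one₀ (by exact_mod_cast hG i) (by positivity) (pow_le_one₀ (norm_nonneg _) hx)

theorem ev_norm (hBAS : BAS) {G : Om[X]} (hG : PAl G) (h0 : G.coeff 0 = 0) {x : Om}
    (hx : ‖i2 x‖ < 1) : ‖i2 (G.eval x)‖ ≤ ‖i2 x‖ ∧
      (w2.v (G.coeff 1) = 1 → ‖i2 (G.eval x)‖ = ‖i2 x‖) := by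
  have h1 : PAl G.divX := fun m => by rw [coeff_divX]; exact hG _
  have h2 : PAl G.divX.divX := fun m => by rw [coeff_divX]; exact h1 _
  have e1 : G.eval x = x * G.divX.eval x := by
    conv_lhs => rw [← X_mul_divX_add G, h0]
    simp
  have e2 : G.divX.eval x = G.coeff 1 + x * G.divX.divX.eval x := by
    conv_lhs => rw [← X_mul_divX_add G.divX, coeff_divX]
    simp [add_comm]
  rw [e1, map_mul, norm_mul]
  refine ⟨mul_le_of_le_one_right (norm_nonneg _) (ev_le hBAS h1 hx.le), fun h => ?_⟩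
  have h3 : ‖i2 (G.coeff 1)‖ = 1 := by rw [← hBAS.2.2.1, h, NNReal.coe_one]
  have h4 : ‖i2 (x * G.divX.divX.eval x)‖ < 1 := by
    rw [map_mul, norm_mul]
    exact mul_lt_one_of_nonneg_of_lt_one_left (norm_nonneg _) hx (ev_le hBAS h2 hx.le)
  rw [e2, map_add, IsUltrametricDist.norm_add_eq_max_of_norm_ne_norm (by rw [h3]; exact h4.ne'),
    h3, max_eq_left h4.le, mul_one]

theorem root {K : ℕ} (hK : 2 ≤ K) {z : ℂ_[2]} (h : IsPrimitiveRoot z (2 ^ K)) :
    0 < ‖z - 1‖ ∧ ‖z - 1‖ < 1 := by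
  refine ⟨norm_pos_iff.2 (sub_ne_zero.2 (h.ne_one (Nat.one_lt_two_pow (by omega)))), ?_⟩
  have h2 : ‖(2 : ℂ_[2])‖ < 1 := by
    rw [show (2 : ℂ_[2]) = algebraMap ℚ_[2] ℂ_[2] 2 from (map_ofNat _ 2).symm, norm_algebraMap']
    simpa using Padic.norm_p_lt_one (p := 2)
  have key : ∀ (j : ℕ) (y : ℂ_[2]), y ^ 2 ^ j = 1 → ‖y - 1‖ < 1 := by
    intro j
    induction j with
    | zero => intro y hy; simp_all
    | succ j ih =>
      intro y hy
      have h3 := ih (y ^ 2) (by rw [← pow_mul, ← pow_succ', hy])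
      by_contra h4
      push Not at h4
      have h5 : ‖y + 1‖ = ‖y - 1‖ := by
        rw [show y + 1 = y - 1 + 2 by ring, IsUltrametricDist.norm_add_eq_max_of_norm_ne_norm
          (h2.trans_le h4).ne', max_eq_left (h2.le.trans h4)]
      rw [show y ^ 2 - 1 = (y + 1) * (y - 1) by ring, norm_mul, h5] at h3
      nlinarith
  exact key K z h.pow_eq_one

end TPTS

open TPTS in
theorem t_PTS (hBAS : BAS) (hF2X : F2X) (hGSX : GSX) (hALO : ALO) (hFINV : FINV) (hHTL : HTL)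
    (hHON : HON) (hTAIL : TAIL) (hPRM : PRM) : PTS := by
  intro D K ζ ε hK hζ hε
  obtain ⟨a, ha1, ha2, ha3, ha4⟩ := hALO
  have hodd : Odd D.n := Nat.odd_iff.2 (by have := D.n4; omega)
  have he : jacobiSym 2 D.n = 1 ∨ jacobiSym 2 D.n = -1 :=
    jacobiSym.eq_one_or_neg_one (by exact_mod_cast hodd.coprime_two_left)
  have hsd : ∀ σ : GQ, σ D.dl = sd D.dl σ * D.dl := fun σ => by
    have h1 : σ D.dl ^ 2 = D.dl ^ 2 := by rw [← map_pow, D.hdl, map_neg, map_natCast]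
    unfold sd
    split_ifs with h
    · simp [h]
    · simpa [h] using sq_eq_sq_iff_eq_or_eq_neg.1 h1
  have hf : D.f2 D.dl = jacobiSym 2 D.n * D.dl := by
    rw [hsd, (hGSX D).2.2 1 _ D.fr, pow_one]
  have hv : w2.v D.dl = 1 := by
    have h1 : w2.v (D.n : Om) = 1 := by
      obtain ⟨m, hm⟩ := hodd
      have h2 : w2.v ((2 : Om) * m) < w2.v 1 := by
        rw [map_mul, map_one]
        refine mul_lt_one_of_lt_of_le ?_ (by simpa using vint m)
        have := w2.vp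
        rw [show ((w2.p : ℕ) : Om) = 2 from rfl] at this
        rw [this]
        exact inv_lt_one_of_one_lt₀ (by exact_mod_cast w2.prime.one_lt)
      rw [hm, Nat.cast_add, Nat.cast_mul, Nat.cast_ofNat, Nat.cast_one,
        w2.v.map_add_eq_of_lt_right h2, map_one]
    have h2 : w2.v D.dl ^ 2 = 1 := by rw [← map_pow, D.hdl, Valuation.map_neg, h1]
    exact (pow_eq_one_iff_of_nonneg zero_le two_ne_zero).1 h2
  obtain ⟨r0, r1⟩ := root hK (hζ.map_of_injective i2.injective)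
  have hx0 : i2 (ζ - 1) = i2 ζ - 1 := by simp
  set r := ‖i2 ζ - 1‖ with hr
  obtain ⟨⟨c, hc, hc'⟩, hT⟩ := hTAIL r r0 r1
  obtain ⟨T₀, hT₀⟩ := hT ε hε
  obtain ⟨T₁, hT₁⟩ := exists_pow_lt_of_lt_one (div_pos hε hc) r1
  set T := T₀ + T₁ + 2 with hTT
  set J := 2 * T + 1 + K
  set α : Om := jacobiSym 2 D.n * a
  have hl := fun s : ℤ => hHTL D.f2 T J a (s * D.dl) _ D.fr.1 ha1 ha2 (ha4 _ D.fr.1)
    (by rw [map_mul, hv, mul_one]; exact vint s) he (by rw [map_mul, hf, map_intCast]; ring)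
    (by omega)
  have hI := (hFINV (lT T) (lT0 T) (lT1 (by omega)))
  have hΛ : ∀ s : ℤ, (C (s * D.dl) * l1 α J).coeff 0 = 0 := fun s => by
    rw [coeff_C_mul, (hl s).2.2.1, mul_zero]
  choose G hG hU using fun s : ℤ => hI.2 T _ (hΛ s)
  have hGm : ∀ σ ∈ w2.D, ∀ s : ℤ, (G s).map (σ : Om →+* Om) = G (sd D.dl σ * s) := by
    intro σ hσ s
    refine hU _ _ ⟨degree_map_le.trans_lt (hG s).1, by rw [coeff_map, (hG s).2.1, map_zero], ?_⟩
    have h1 := Polynomial.map_dvd (σ : Om →+* Om) (hG s).2.2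
    rw [Polynomial.map_pow, map_X, Polynomial.map_sub, map_comp, lT_map, Polynomial.map_mul,
      l1_map J (by simp [α, ha4 σ hσ]), map_C] at h1
    convert h1 using 4
    simp only [RingHom.coe_coe, map_mul, map_intCast, Int.cast_mul]
    rw [hsd σ]
    ring
  have hGI : ∀ s m, Fix w2.I ((G s).coeff m) := fun s m σ hσ => by
    have h1 := hGm σ hσ.1 s
    rw [show sd D.dl σ = 1 from if_pos ((hF2X D).2.2.2.2.2.1 σ hσ), one_mul] at h1
    simpa using congrArg (coeff · m) h1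
  have hΛ1 : ∀ s : ℤ, (C (s * D.dl) * l1 α J).coeff 1 = s * D.dl := fun s => by
    rw [coeff_C_mul, (hl s).2.2.2.1, mul_one]
  have hGA : ∀ s, PAl (G s) := fun s => hHON D.f2 T _ _ D.fr (hl s).1
    (by rw [hΛ1, map_mul, hv, mul_one]; exact vint s) (hGI s) (hG s).1 (hG s).2.1 (hG s).2.2
  have hG1 : ∀ s, (G s).coeff 1 = s * D.dl := fun s => by
    have h1 := hI.1 1 (G s) 0 (hG s).2.1 rfl (by simpa using X_dvd_iff.2 (hG s).2.1)
    have h2 := (pow_dvd_pow X (show 1 + 1 ≤ T by omega)).trans (hG s).2.2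
    have h3 := X_pow_dvd_iff.1 (h2.sub h1) 1 (by omega)
    simp only [coeff_sub, hΛ1, comp_zero, coeff_C, sub_zero] at h3
    simp only [one_ne_zero, if_false] at h3
    linear_combination h3
  have hq := fun s => ev_norm hBAS (hGA s) (hG s).2.1 (x := ζ - 1) (hx0 ▸ r1)
  rw [hx0] at hq
  have hσq : ∀ σ ∈ w2.D, σ ζ = ζ → ∀ s, σ ((G s).eval (ζ - 1)) = (G (sd D.dl σ * s)).eval (ζ - 1) := by
    intro σ hσ h s
    rw [← hGm σ hσ, eval_map, show ζ - 1 = (σ : Om →+* Om) (ζ - 1) by simp [h], eval₂_hom]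
    simp [h]
  obtain ⟨x, y, hxy, hP⟩ := hPRM T
  have hn : ∀ s : ℤ, s = 1 ∨ s = -1 → ‖i2 ((G s).eval (ζ - 1))‖ = r := fun s hs =>
    (hq s).2 (by rcases hs with rfl | rfl <;> simp [hG1, hv])
  have hQ := fun (s : ℤ) (hs : s = 1 ∨ s = -1) => hP ((G s).eval (ζ - 1))
    (fun h => by have := hn s hs; rw [h, map_zero, norm_zero] at this; exact r0.ne this)
    ((hq s).1.trans_lt r1)
  choose! q hq1 hq2 hq3 hq4 hq5 using hQ
  refine ⟨fun s => x ((G s).eval (ζ - 1)), fun s => y ((G s).eval (ζ - 1)), q, fun σ hσ h s => ?_,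
    fun s hs => ⟨hq1 s hs, hq2 s hs, ?_, ?_, hq4 s hs, fun ε' hε' => ?_⟩⟩
  · simpa only [hσq σ hσ h] using hxy σ hσ _ ((hq s).1.trans_lt r1)
  · have h1 := hq3 s hs
    rw [hn s hs] at h1
    have h2 : r ^ (T + 1) < r := pow_lt_self_of_lt_one₀ r0 r1 (by omega)
    rw [← sub_add_cancel (q s) (i2 ((G s).eval (ζ - 1))),
      IsUltrametricDist.norm_add_eq_max_of_norm_ne_norm (by rw [hn s hs]; exact (h1.trans_lt h2).ne),
      hn s hs, max_eq_right (h1.trans h2.le)]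
  · have h1 := hq3 s hs
    rw [hn s hs] at h1
    have h2 : r ^ (T + 1) ≤ r ^ T₁ := pow_le_pow_of_le_one r0.le r1.le (by omega)
    have h3 : ‖q s‖ ≤ r := by
      rw [← sub_add_cancel (q s) (i2 ((G s).eval (ζ - 1)))]
      exact (IsUltrametricDist.norm_add_le_max _ _).trans (max_le (h1.trans
        (pow_le_of_le_one r0.le r1.le (by omega))) (hn s hs).le)
    have h4 := hc' _ _ h3 (hn s hs).le
    have h5 : c * ‖q s - i2 ((G s).eval (ζ - 1))‖ ≤ ε := by
      rw [← le_div_iff₀' hc]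
      exact h1.trans (h2.trans hT₁.le)
    have h6 := (hT₀ T (by omega) _ (hn s hs).le).1
    have h7 := (hT₀ T (by omega) (ζ - 1) (hx0 ▸ le_rfl)).2 _ (hG s).2.2 (by
      rw [derivative_sub, derivative_C_mul]
      exact PAl.sub (der_lT T (hGA s)) (PAl.mul (PAl.C
        (by rw [map_mul, hv, mul_one]; exact vint s)) (hl s).2.1))
    have h8 := (hl s).2.2.2.2 K ζ (by omega) hζ.pow_eq_one
    rw [eval_sub, eval_comp, eval_mul, eval_C, map_sub, map_mul, h8, ha3, map_mul,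
      map_intCast] at h7
    have h9 : D.al = jacobiSym 2 D.n * algebraMap ℚ_[2] ℂ_[2] al0 := by
      rw [Dat.al, map_mul, map_intCast]
    rw [h9, ← sub_add_sub_cancel _ (lamf (i2 ((G s).eval (ζ - 1)))),
      ← sub_add_sub_cancel (lamf (i2 _)) (i2 ((lT T).eval ((G s).eval (ζ - 1))))]
    exact (IsUltrametricDist.norm_add_le_max _ _).trans (max_le (h4.trans h5)
      ((IsUltrametricDist.norm_add_le_max _ _).trans (max_le h6 h7)))
  · obtain ⟨q₁, h1, h2⟩ := hq5 s hs ε' hε'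
    refine ⟨q₁, h1, fun σ hσ h h' => h2 σ ?_⟩
    rw [hσq σ hσ h, show sd D.dl σ = 1 from if_pos h', one_mul]

end Pool.Agent.P.MP_9c97e9_nt.KT
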