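import Pool.Agent.P.MP_9c97e9_nt.KT.IfEB

/-! The invariant on the small group. -/

namespace Pool.Agent.P.MP_9c97e9_nt.KT

open scoped NNReal Matrix
open MP_8b7eba_nt.R2

namespace TRVH

theorem ec_zero : ec 0 = 1 := (a_EC.1.eq_one 0).2 (by simp)

theorem ec_ne (x : ℚ_[2]) : ec x ≠ 0 :=
  left_ne_zero_of_mul_eq_one (by rw [← a_EC.1.add, add_neg_cancel, ec_zero])

theorem ec_sub (x y : ℚ_[2]) : ec (x - y) = ec x / ec y := by
  rw [eq_div_iff (ec_ne y), ← a_EC.1.add, sub_add_cancel]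

theorem ec_int (m : ℤ) (x : ℚ_[2]) : ec (m * x) = ec x ^ m := by
  induction m using Int.induction_on with
  | zero => simpa using ec_zero
  | succ m ih => rw [zpow_add_one₀ (ec_ne x), ← ih, ← a_EC.1.add]; push_cast; ring_nf
  | pred m ih => rw [zpow_sub_one₀ (ec_ne x), ← ih, ← div_eq_mul_inv, ← ec_sub]; push_cast; ring_nf

theorem ec_sum {ι : Type} (s : Finset ι) (f : ι → ℚ_[2]) : ec (∑ i ∈ s, f i) = ∏ i ∈ s, ec (f i) := by
  induction s using Finset.cons_induction with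
  | empty => simpa using ec_zero
  | cons i s hi ih => rw [Finset.sum_cons, Finset.prod_cons, a_EC.1.add, ih]

theorem zc_mono {δ : Om} {H H' : Subgroup GQ} {k : ℕ} {c : GQ → V2} (h : T2.Zc δ H k c)
    (h' : H' ≤ H) : T2.Zc δ H' k c :=
  ⟨h.sm.imp fun _ e => ⟨e.1, fun g hg n hn => e.2 g (h' hg) n (h' hn)⟩, fun g hg => h.int g (h' hg),
    fun g hg l hl => h.co g (h' hg) l (h' hl)⟩

theorem bd_zero (δ : Om) (g : GQ) : T2.bd δ 0 g = 0 := by simp [Tate.bd]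

end TRVH

open TRVH in
theorem t_RVH (hRESX : RESX) (hRVX : RVX) (hZMX : ZMX) (hCUPB : CUPB) (hTWE : TWE) (hWCP : WCP)
    (hZTW : ZTW) : RVH := by
  intro D l k zt m H τ τ' s s' z Y v W r r' hzt hm hz hY hH hle hdl hcy hs hs' hv hYv hr hr'
  have fx : Fix ⊤ (D.dl ^ 2) := by rw [D.hdl]; exact (fix_nat _).neg
  have hn : D.n ≠ 0 := fun e => by have := D.n4; omega
  have hM : 2 ^ (k + 2) * D.n ≠ 0 := mul_ne_zero (by positivity) hn
  have : NeZero (2 ^ (k + 2) * D.n) := ⟨hM⟩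
  have L2 : LH (HC2 k) k := (hRVX _ _ (hZMX.2.2.2 k).1).1 k (by omega)
  have LHk : LH H k := (hRVX _ _ L2).2.1 H hH hle
  obtain ⟨t1, t2⟩ := hTWE D l k zt m hzt hm
  have hYc : D.ZC k Y := ⟨hY.int, hY.sm.imp fun N e => ⟨e.1, fun g hg n hn h η => by
    rw [e.2 g hg n hn h, sub_self, norm_zero]; positivity⟩, hY.co⟩
  obtain ⟨w1, w2', w3⟩ := hWCP D k _ Y z W t1 hYc hz
  have hZ := fun δ => hZTW l k _ zt H τ τ' s s' D.dl δ hzt LHk hM
    ((pow_dvd_pow 2 (by omega)).mul_right _) hcy hdl hs hs' (hr δ).1 (hr' δ).1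
  obtain ⟨c1, c2⟩ := hCUPB D.dl H k fx LHk
  have y1 := zc_mono w2' hle
  have a1 := (c2 _ Finset.univ (fun δ => 2 * D.cW k W δ) (fun δ g => zt g δ) _
    (fun δ _ => (hZ δ).1) y1).1
  have hmW : ‖∑ ε, (W ε : ℚ_[2]) • m ε‖ ≤ 1 :=
    IsUltrametricDist.norm_sum_le_of_forall_le_of_nonneg zero_le_one fun ε _ => by
      rw [norm_smul]
      exact mul_le_one₀ (Padic.norm_int_le_one _) (norm_nonneg _) (hm ε)
  obtain ⟨-, -, e1⟩ := (c1 _ _ a1 y1).2 (fun g => ∑ ε, (W ε : ℚ_[2]) • D.xG k zt m g ε)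
    (fun g => Y g 1) _ 0 hmW (by simp) (fun g hg => by
      rw [t2 W g (hle hg), finsum_eq_sum_of_fintype]; simp)
    (fun g _ => by rw [bd_zero]; simp)
  obtain ⟨-, u1, e2⟩ := (c1 _ _ a1 y1).2 _ (fun h => uN k (s' h) - uN k (s h)) 0 v (by simp) hv
    (fun g _ => by rw [bd_zero, sub_self]; simp) hYv
  rw [w3, rv, ← hRESX _ H _ L2.1 hH hle
    ((hRVX _ _ L2).2.2.1 _ ((hCUPB D.dl _ k fx L2).1 _ _ w1 w2').1).1]
  change rv H k _ = _
  rw [e1, ← e2, (c2 _ Finset.univ (fun δ => 2 * D.cW k W δ) (fun δ g => zt g δ) _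
    (fun δ _ => (hZ δ).1) u1).2, finsum_eq_sum_of_fintype, ec_sum]
  refine Finset.prod_congr rfl fun δ _ => ?_
  rw [(hZ δ).2, (hr δ).2, (hr' δ).2, ← ec_sub, ← ec_int]
  push_cast
  rfl

end Pool.Agent.P.MP_9c97e9_nt.KT
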