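import Pool.Agent.P.MP_9c97e9_nt.KT.IfEB

/-! The action on the indices. -/

namespace Pool.Agent.P.MP_9c97e9_nt.KT

open MP_8b7eba_nt.R2

namespace TSHX

variable {M : ℕ} {i i' i'' : IT} {j j' : ℤ}

/-- the shift relation -/
def R (M : ℕ) (j : ℤ) (i i' : IT) : Prop :=
  i'.1 = i.1 ∧ i'.2.1.1 = i.2.1.1 ∧ i'.2.2.1 = i.2.2.1 ∧
    (M : ℤ) ∣ i'.2.1.2 - (i.2.1.2 + 15 * i.2.1.1 * j) ∧
    (M : ℤ) ∣ i'.2.2.2 - (i.2.2.2 + 15 * i.2.2.1 * j)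

theorem mem : i ∈ Ix M ↔ (i.1 < 15 ∧ (i.2.1.1 < M ∧ i.2.1.2 < M) ∧ i.2.2.1 < M ∧ i.2.2.2 < M) ∧
    i.1.Coprime 15 ∧ IsCoprime ((i.2.1.1 : ℤ) * i.2.2.2 - i.2.1.2 * i.2.2.1) M := by
  simp only [Ix, Finset.mem_filter, Finset.mem_product, Finset.mem_range]

theorem R.det (h : R M j i i') : (M : ℤ) ∣ ((i'.2.1.1 : ℤ) * i'.2.2.2 - i'.2.1.2 * i'.2.2.1) -
    ((i.2.1.1 : ℤ) * i.2.2.2 - i.2.1.2 * i.2.2.1) := by
  obtain ⟨-, h2, h3, ⟨a, h4⟩, b, h5⟩ := h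
  rw [h2, h3]
  exact ⟨i.2.1.1 * b - a * i.2.2.1, by linear_combination (i.2.1.1 : ℤ) * h5 - (i.2.2.1 : ℤ) * h4⟩

theorem R.dI (h : R M j i i') : dI M i' = dI M i := by
  have := (ZMod.intCast_eq_intCast_iff_dvd_sub _ _ M).2 h.det
  push_cast at this
  rw [KT.dI, KT.dI, this]

theorem md (hM : M ≠ 0) (x : ℤ) : ∃ a : ℕ, a < M ∧ (M : ℤ) ∣ a - x := by
  have h1 := Int.emod_nonneg x (show (M : ℤ) ≠ 0 by exact_mod_cast hM)
  have h2 := Int.emod_lt_of_pos x (show (0 : ℤ) < M by omega)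
  refine ⟨(x % M).toNat, by omega, -(x / M), ?_⟩
  rw [Int.toNat_of_nonneg h1]
  linear_combination Int.emod_add_mul_ediv x M

theorem ex (hM : M ≠ 0) (j : ℤ) (i : Ix M) : ∃ i' : Ix M, R M j i i' := by
  obtain ⟨⟨h1, ⟨h2, -⟩, h3, -⟩, h4, h5⟩ := mem.1 i.2
  obtain ⟨a, ha, ha'⟩ := md hM (i.1.2.1.2 + 15 * i.1.2.1.1 * j)
  obtain ⟨b, hb, hb'⟩ := md hM (i.1.2.2.2 + 15 * i.1.2.2.1 * j)
  have r : R M j i (i.1.1, (i.1.2.1.1, a), i.1.2.2.1, b) := ⟨rfl, rfl, rfl, ha', hb'⟩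
  refine ⟨⟨(i.1.1, (i.1.2.1.1, a), i.1.2.2.1, b), mem.2 ⟨⟨h1, ⟨h2, ha⟩, h3, hb⟩, h4, ?_⟩⟩, r⟩
  obtain ⟨c, hc⟩ := r.det
  rw [sub_eq_iff_eq_add'.1 hc]
  exact h5.add_mul_left_left c

theorem eq_of {a b : ℕ} (ha : a < M) (hb : b < M) (h : (M : ℤ) ∣ a - b) : a = b := by
  have := Int.eq_zero_of_abs_lt_dvd h (by rw [abs_lt]; omega)
  omega

theorem uniq {i' i'' : Ix M} (h : R M j i i') (h' : R M j' i i'') (e : (M : ℤ) ∣ j - j') :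
    i' = i'' := by
  obtain ⟨⟨-, ⟨-, a1⟩, -, a2⟩, -⟩ := mem.1 i'.2
  obtain ⟨⟨-, ⟨-, b1⟩, -, b2⟩, -⟩ := mem.1 i''.2
  obtain ⟨h1, h2, h3, h4, h5⟩ := h
  obtain ⟨g1, g2, g3, g4, g5⟩ := h'
  refine Subtype.ext (Prod.ext (h1.trans g1.symm) (Prod.ext (Prod.ext (h2.trans g2.symm)
    (eq_of a1 b1 ?_)) (Prod.ext (h3.trans g3.symm) (eq_of a2 b2 ?_))))
  · exact ((h4.sub g4).add (e.mul_left (15 * i.2.1.1))).trans (dvd_of_eq (by ring))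
  · exact ((h5.sub g5).add (e.mul_left (15 * i.2.2.1))).trans (dvd_of_eq (by ring))

theorem R.trans (h : R M j i i') (h' : R M j' i' i'') : R M (j + j') i i'' := by
  obtain ⟨h1, h2, h3, h4, h5⟩ := h
  obtain ⟨g1, g2, g3, g4, g5⟩ := h'
  rw [h2] at g4
  rw [h3] at g5
  refine ⟨g1.trans h1, g2.trans h2, g3.trans h3, ?_, ?_⟩
  · exact (h4.add g4).trans (dvd_of_eq (by ring))
  · exact (h5.add g5).trans (dvd_of_eq (by ring))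

theorem refl (M : ℕ) (i : IT) : R M 0 i i := ⟨rfl, rfl, rfl, by simp, by simp⟩

theorem R.fix (h15 : M.Coprime 15) (hi : i ∈ Ix M) (h : R M j i i) : (M : ℤ) ∣ j := by
  obtain ⟨-, -, -, h4, h5⟩ := h
  have h1 : IsCoprime (M : ℤ) (15 * ((i.2.1.1 : ℤ) * i.2.2.2 - i.2.1.2 * i.2.2.1)) :=
    (Nat.isCoprime_iff_coprime.2 h15).mul_right (mem.1 hi).2.2.symm
  refine h1.dvd_of_dvd_mul_left ?_
  exact ((h5.mul_left i.2.1.2).sub (h4.mul_left i.2.2.2)).trans (dvd_of_eq (by ring))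

end TSHX

open TSHX in
theorem t_SHX (hZMX : ZMX) : SHX := by
  intro M hM h15
  have : NeZero M := ⟨hM⟩
  obtain ⟨hp, hz, -, hcy, -⟩ := hZMX.1 M hM
  refine ⟨fun i hi => ?_, fun H t hH ht hf => ?_⟩
  · obtain ⟨-, h1, h2⟩ := mem.1 hi
    have h3 : IsCoprime (i.1 : ℤ) 15 := Nat.isCoprime_iff_coprime.2 h1
    refine ⟨h3, IsCoprime.mul_left (by decide +kernel) h3, ?_⟩
    have h4 : IsUnit ((i.2.1.1 : ZMod M) * i.2.2.2 - i.2.1.2 * i.2.2.1) := by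
      have := (ZMod.coe_int_isUnit_iff_isCoprime _ M).2 h2.symm
      push_cast at this
      exact this
    rw [← ZMod.intCast_eq_intCast_iff_dvd_sub, dI, un, dif_pos h4]
    simp
  have h0 : zM M 1 ≠ 0 := hp.ne_zero hM
  have hd : ∀ a b : ℤ, zM M a * t = zM M b * t ↔ (M : ℤ) ∣ a - b := fun a b => by
    rw [mul_left_inj' ht, (hz a).1, (hz b).1, ← hp.zpow_eq_one_iff_dvd, zpow_sub₀ h0,
      div_eq_one_iff_eq (zpow_ne_zero _ h0)]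
  have e0 : zM M 0 * t = t := by rw [(hz 0).1, zpow_zero, one_mul]
  have hj : ∀ σ : GQ, ∃ j : ℤ, σ ∈ H → σ t = zM M j * t := fun σ => by
    by_cases h : σ ∈ H
    · obtain ⟨c, -, hc⟩ := hp.eq_pow_of_pow_eq_one (ξ := σ t / t) (by
        rw [div_pow, ← map_pow, hf σ h, div_self (pow_ne_zero _ ht)])
      exact ⟨c, fun _ => by rw [(hz c).1, zpow_natCast, hc, div_mul_cancel₀ _ ht]⟩
    · exact ⟨0, fun h' => absurd h' h⟩
  choose j hj using hj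
  choose sh hsh using ex hM
  refine ⟨j, fun σ => sh (j σ), ⟨fun i => ?_, fun g hg h hh i => ?_, ?_, fun i g => ?_⟩,
    fun σ hσ => ⟨hj σ hσ, fun i => ?_⟩⟩
  · exact uniq (hsh _ i) (refl M i) ((hd _ _).1 (by rw [← hj 1 H.one_mem, e0]; rfl))
  · refine uniq (hsh _ i) ((hsh _ i).trans (hsh _ _)) ((hd _ _).1 ?_)
    rw [← hj _ (H.mul_mem hg hh), AlgEquiv.mul_apply, hj h hh, map_mul, hj g hg, (hz (j h)).1,
      map_zpow₀, (hcy g).1 (hH g hg), (hz (j g)).1, (hz (j h + j g)).1, zpow_add₀ h0, mul_assoc]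
  · obtain ⟨N, hN, hN'⟩ := exists_ON_fix {t}
    refine ⟨N, hN, fun g hg n hn hnN => funext fun i => uniq (hsh _ i) (hsh _ i) ((hd _ _).1 ?_)⟩
    rw [← hj _ (H.mul_mem hg hn), ← hj g hg, AlgEquiv.mul_apply, hN' t (by simp) n hnN]
  · refine and_congr_right fun hg => ?_
    change g t = t ↔ _
    rw [hj g hg]
    conv_lhs => rhs; rw [← e0]
    rw [hd]
    refine ⟨fun h => uniq (hsh _ i) (refl M i) h, fun h => ?_⟩
    have := hsh (j g) i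
    rw [show sh (j g) i = i from h] at this
    simpa using this.fix h15 i.2
  · obtain ⟨h1, h2, h3, h4, h5⟩ := hsh (j σ) i
    exact ⟨h1, h2, h3, h4, h5, (hsh (j σ) i).dI⟩

end Pool.Agent.P.MP_9c97e9_nt.KT
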