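import Pool.Agent.P.MP_9c97e9_nt.KT.IfP
import Pool.Agent.P.MP_9c97e9_nt.KT.TCYB

/-! The trace computation. -/

namespace Pool.Agent.P.MP_9c97e9_nt.KT

open MP_8b7eba_nt.R2
open MP_8b7eba_nt.Mod (nM)
open Finset

namespace TTEL

theorem cls {K : ℕ} (u ε : (ZMod (2 ^ K))ˣ) {ν : ℕ} (hν : Odd ν) :
    (2 ^ K : ℤ) ∣ ν - ((u * ε⁻¹ : (ZMod (2 ^ K))ˣ) : ZMod (2 ^ K)).val ↔
      ε = u * (un (ν : ZMod (2 ^ K)))⁻¹ := by
  have hu : IsUnit (ν : ZMod (2 ^ K)) :=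
    (ZMod.isUnit_iff_coprime _ _).2 (Nat.Coprime.pow_right _ hν.coprime_two_right)
  have h1 : ((un (ν : ZMod (2 ^ K)) : (ZMod (2 ^ K))ˣ) : ZMod (2 ^ K)) = ν := by
    simp [un, hu]
  have h2 : (2 ^ K : ℤ) = ((2 ^ K : ℕ) : ℤ) := by simp
  rw [h2, ← ZMod.intCast_zmod_eq_zero_iff_dvd]
  simp only [Int.cast_sub, Int.cast_natCast, ZMod.natCast_zmod_val]
  generalize un (ν : ZMod (2 ^ K)) = v at h1 ⊢
  rw [sub_eq_zero, ← h1, Units.val_inj]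
  constructor
  · rintro rfl
    simp
  · rintro rfl
    simp

theorem main (h2 : TEL2) (K : ℕ) (hK : 1 ≤ K) {ζ : Om} (hζ : IsPrimitiveRoot ζ (2 ^ K)) (a : ℚ_[2])
    (c : ℤ) (W : (ZMod (2 ^ K))ˣ → ℤ) (R : Finset ℕ) (co : ℕ → ℤ) (x : (ZMod (2 ^ K))ˣ → ℕ) :
    ∑ η : (ZMod (2 ^ K))ˣ, i2 (c * ∑ ε, W ε * ∑ ν ∈ R, co ν *
      (ζ ^ (η : ZMod (2 ^ K)).val) ^ (ν * x ε)) *
        muP (algebraMap ℚ_[2] ℂ_[2] a) K (i2 (ζ ^ (η : ZMod (2 ^ K)).val)) =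
      algebraMap ℚ_[2] ℂ_[2] (2 ^ K * (c * (1 - a) * ∑ ε, W ε * ∑ ν ∈ R, co ν *
        ∑ j ∈ range K, (a / 2) ^ j * (tq K (ν * x ε + 2 ^ j) - tq K (ν * x ε)))) := by
  have hz : IsPrimitiveRoot (i2 ζ) (2 ^ K) := hζ.map_of_injective i2.injective
  have h8 : ∀ ε ν j, ∑ η : (ZMod (2 ^ K))ˣ, (i2 ζ ^ (η : ZMod (2 ^ K)).val) ^ (ν * x ε) *
      ((i2 ζ ^ (η : ZMod (2 ^ K)).val) ^ 2 ^ j - 1) = algebraMap ℚ_[2] ℂ_[2]
        (2 ^ K * (tq K (ν * x ε + 2 ^ j) - tq K (ν * x ε))) := by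
    intro ε ν j
    have a1 := h2.2 K (ν * x ε + 2 ^ j) _ hK hz
    have a2 := h2.2 K (ν * x ε) _ hK hz
    simp only [Nat.cast_add, Nat.cast_mul, Nat.cast_pow, Nat.cast_ofNat] at a1 a2
    rw [mul_sub, map_sub, ← a1, ← a2, ← sum_sub_distrib]
    exact sum_congr rfl fun η _ => by rw [pow_add, mul_sub, mul_one]
  have h9 : ∀ z : ℂ_[2], (c * ∑ ε, W ε * ∑ ν ∈ R, co ν * z ^ (ν * x ε)) *
      muP (algebraMap ℚ_[2] ℂ_[2] a) K z = ∑ ε, ∑ ν ∈ R, ∑ j ∈ range K,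
        algebraMap ℚ_[2] ℂ_[2] (c * (1 - a) * W ε * co ν * (a / 2) ^ j) *
          (z ^ (ν * x ε) * (z ^ 2 ^ j - 1)) := by
    intro z
    simp only [mul_sum, sum_mul]
    simp only [muP, mul_sum, map_mul, map_intCast, map_sub, map_one, map_pow, map_div₀, map_ofNat]
    refine sum_congr rfl fun _ _ => sum_congr rfl fun _ _ => sum_congr rfl fun _ _ => ?_
    ring
  simp only [map_mul i2, map_sum i2, map_pow i2, map_intCast i2, h9]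
  rw [sum_comm]
  simp only [mul_sum, map_sum]
  refine sum_congr rfl fun ε _ => ?_
  rw [sum_comm]
  refine sum_congr rfl fun ν _ => ?_
  rw [sum_comm]
  refine sum_congr rfl fun j _ => ?_
  rw [← mul_sum, h8, ← map_mul]
  congr 1
  ring

end TTEL

open TTEL in
theorem t_TEL (hBAS : BAS) (h1 : TEL1) (h2 : TEL2) (h4 : TEL4) : TEL := by
  intro D
  obtain ⟨⟨ha, hb⟩, -⟩ := hBAS
  have hodd : Odd D.n := Nat.odd_iff.2 (by have := D.n4; omega)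
  have hn0 : D.n ≠ 0 := by have := D.n4; omega
  have he : jacobiSym 2 D.n = 1 ∨ jacobiSym 2 D.n = -1 :=
    jacobiSym.eq_one_or_neg_one (by
      have : Nat.Coprime 2 D.n := hodd.coprime_two_left
      exact_mod_cast this)
  set e := jacobiSym 2 D.n with hee
  have hne : ‖(e : ℚ_[2]) * al0‖ = 1 := by
    rcases he with h | h <;> simp [h, ha]
  have h21 : ‖(2 : ℚ_[2])‖ < 1 := by simpa using Padic.norm_p_lt_one (p := 2)
  have h2a : ‖(2 : ℚ_[2]) - e * al0‖ = 1 := by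
    rw [sub_eq_add_neg, IsUltrametricDist.norm_add_eq_max_of_norm_ne_norm
      (by rw [norm_neg, hne]; exact h21.ne), norm_neg, hne, max_eq_right h21.le]
  have h1a : (1 : ℚ_[2]) - e * al0 ≠ 0 := by
    intro h
    rcases he with h' | h' <;> rw [h'] at h
    · have : al0 = 1 := by simpa using (sub_eq_zero.1 h).symm
      rw [this] at hb
      norm_num at hb
    · have : al0 = -1 := by
        have h3 : (1 : ℚ_[2]) + al0 = 0 := by simpa using h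
        linear_combination h3
      rw [this] at hb
      norm_num at hb
  refine ⟨4 * D.n * (1 - e * al0), 1, by simp [hn0, h1a], fun k ζ hζ => ?_⟩
  obtain ⟨κ, s, hs⟩ := h1 D k ζ hζ
  have hint : ∀ m : ℤ, ‖(m : ℚ_[2])‖ ≤ 1 := Padic.norm_int_le_one
  refine ⟨-κ⁻¹, (s : ℤ), -((s : ℤ) * D.n * (1 - e * al0) *
    (e ^ k * YY D.n 0 0 * (e + 3) / (2 - e * al0))), ?_, ?_, fun W H hH hH' => ?_⟩
  · rcases Int.units_eq_one_or s with rfl | rfl <;> simp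
  · have h3 : ‖(1 : ℚ_[2]) - e * al0‖ ≤ 1 := by
      rw [sub_eq_add_neg]
      exact (IsUltrametricDist.norm_add_le_max _ _).trans (by simp [hne, -norm_mul])
    have h5 := hint ((s : ℤ) * D.n * (e ^ k * YY D.n 0 0 * (e + 3)))
    have h6 : (s : ℤ) * D.n * (1 - e * al0) * (e ^ k * YY D.n 0 0 * (e + 3) / (2 - e * al0)) =
        (((s : ℤ) * D.n * (e ^ k * YY D.n 0 0 * (e + 3)) : ℤ) : ℚ_[2]) * (1 - e * al0) /
          (2 - e * al0) := by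
      push_cast
      ring
    rw [norm_neg, h6, norm_div, h2a, div_one, norm_mul]
    exact mul_le_one₀ h5 (norm_nonneg _) h3
  have hH2 : ∀ g ∈ H, cy (2 ^ (k + 2)) g = 1 := fun g hg => by
    rw [← TCYB.comp (by positivity) (Nat.dvd_mul_right _ D.n) (by positivity), hH' g hg, map_one]
  let x : (ZMod (2 ^ (k + 2)))ˣ → ℕ := fun ε =>
    ((κ * ε : (ZMod (2 ^ (k + 2)))ˣ) : ZMod (2 ^ (k + 2))).val
  let co : ℕ → ℤ := fun ν => jacobiSym ν D.n * nM ν (D.n * 2 ^ (k + 2) : ℕ)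
  let Φ : Om → ℂ_[2] := fun z => i2 (((s : ℤ) * D.n : ℤ) * ∑ ε, W ε *
    ∑ ν ∈ range (D.n * 2 ^ (k + 2)), co ν * z ^ (ν * x ε)) * muP D.al (k + 2) (i2 z)
  have h7 : (fun g : GQ => i2 (g (D.XW k W * D.dl)) * muP D.al (k + 2) (i2 (g ζ))) =
      fun g : GQ => Φ (g ζ) := by
    funext g
    simp only [Φ, hs, map_mul, map_sum, map_pow, map_intCast, map_natCast, co, x, Int.cast_mul,
      Int.cast_natCast]
  rw [h7, h2.1 _ ζ H Φ hζ hH hH2, mul_assoc, map_mul, map_natCast]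
  congr 1
  have h9 : ∀ ε : (ZMod (2 ^ (k + 2)))ˣ, (2 ^ (k + 2) : ℤ) ∣
      x ε * ((-κ⁻¹ * ε⁻¹ : (ZMod (2 ^ (k + 2)))ˣ) : ZMod (2 ^ (k + 2))).val + 1 := by
    intro ε
    have h2 : (2 ^ (k + 2) : ℤ) = ((2 ^ (k + 2) : ℕ) : ℤ) := by simp
    rw [h2, ← ZMod.intCast_zmod_eq_zero_iff_dvd]
    simp only [x, Int.cast_add, Int.cast_mul, Int.cast_natCast, ZMod.natCast_zmod_val, Int.cast_one]
    rw [← Units.val_mul, show κ * ε * (-κ⁻¹ * ε⁻¹) = -1 by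
      rw [neg_mul, mul_neg, mul_mul_mul_comm]; simp]
    simp
  have h10 : ∑ ν ∈ oddR D.n k, msy D.n k ν * W (-κ⁻¹ * (un (ν : ZMod (2 ^ (k + 2))))⁻¹) =
      ∑ ε, W ε * ∑ ν ∈ (oddR D.n k).filter (fun ν : ℕ => (2 ^ (k + 2) : ℤ) ∣
        ν - ((-κ⁻¹ * ε⁻¹ : (ZMod (2 ^ (k + 2)))ˣ) : ZMod (2 ^ (k + 2))).val), msy D.n k ν := by
    simp only [sum_filter, mul_sum]
    rw [sum_comm]
    refine sum_congr rfl fun ν hν => ?_
    simp only [cls _ _ (mem_filter.1 hν).2, mul_ite, mul_zero, sum_ite_eq', mem_univ, if_true]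
    exact mul_comm _ _
  refine (main h2 _ (by omega) hζ (e * al0) _ W _ co x).trans ?_
  congr 2
  simp only [co, hee, h4 D.n k _ _ hodd D.cop (h9 _)]
  rw [h10]
  simp only [mul_sub, sum_sub_distrib, ← sum_mul, mul_left_comm _ (4 : ℚ_[2]), ← mul_sum]
  push_cast
  ring

end Pool.Agent.P.MP_9c97e9_nt.KT
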