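import Pool.Agent.P.MP_9c97e9_nt.KT.IfP
import Pool.Agent.P.MP_8b7eba_nt.BSD15.Jac

/-! The additive twists in terms of Gauss sums. -/

namespace Pool.Agent.P.MP_9c97e9_nt.KT

open MP_8b7eba_nt.R2
open MP_8b7eba_nt.Mod (nM qq)
open MP_8b7eba_nt.R1 (ze)
open Finset
open scoped Real

namespace TTEL1

theorem sum_units {n : ℕ} [NeZero n] (F : ℕ → Om) (hF : ∀ a, ¬ a.Coprime n → F a = 0) :
    ∑ d : (ZMod n)ˣ, F (d : ZMod n).val = ∑ a ∈ range n, F a := by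
  classical
  symm
  rw [← Finset.sum_filter_of_ne (p := fun a => a.Coprime n)
    fun a _ h => by_contra fun h' => h (hF a h')]
  refine Finset.sum_bij' (fun a ha => ZMod.unitOfCoprime a (mem_filter.1 ha).2)
    (fun d _ => (d : ZMod n).val) (fun _ _ => mem_univ _)
    (fun d _ => mem_filter.2 ⟨mem_range.2 (ZMod.val_lt _), ZMod.val_coe_unit_coprime d⟩)
    (fun a ha => ?_) (fun d _ => Units.ext (by simp)) fun a ha => ?_
  all_goals
    rw [ZMod.coe_unitOfCoprime, ZMod.val_natCast_of_lt (mem_range.1 (mem_filter.1 ha).1)]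

theorem pow_mod {a : Om} {Q x y : ℕ} (ha : a ^ Q = 1) (h : x ≡ y [MOD Q]) : a ^ x = a ^ y := by
  rw [pow_eq_pow_mod x ha, pow_eq_pow_mod y ha, h]

theorem val_map {M Q : ℕ} [NeZero M] [NeZero Q] (h : Q ∣ M) (δ : (ZMod M)ˣ) :
    (δ : ZMod M).val ≡ (ZMod.unitsMap h δ : ZMod Q).val [MOD Q] := by
  rw [← ZMod.natCast_eq_natCast_iff, ZMod.natCast_zmod_val, ZMod.unitsMap_val, ZMod.natCast_val]

theorem split {Q n : ℕ} [NeZero Q] [NeZero n] [NeZero (Q * n)] (h : Q.Coprime n)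
    (F : (ZMod Q)ˣ → Om) (G : (ZMod n)ˣ → Om) :
    ∑ δ : (ZMod (Q * n))ˣ, F (ZMod.unitsMap (Nat.dvd_mul_right _ _) δ) *
      G (ZMod.unitsMap (Nat.dvd_mul_left _ _) δ) = (∑ ε, F ε) * ∑ d, G d := by
  rw [Finset.sum_mul_sum, ← Fintype.sum_prod_type']
  refine Fintype.sum_equiv ((Units.mapEquiv (ZMod.chineseRemainder h).toMulEquiv).trans
    MulEquiv.prodUnits).toEquiv _ _ fun δ => ?_
  congr 2
  · ext
    simp [MulEquiv.prodUnits, ZMod.unitsMap_val, ZMod.chineseRemainder]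
  · ext
    simp [MulEquiv.prodUnits, ZMod.unitsMap_val, ZMod.chineseRemainder]

variable (hEV2 : EV2)
include hEV2

theorem io_zM (M : ℕ) (x : ℕ) : io (zM M x) = Complex.exp (2 * π * Complex.I * (x / M)) := by
  obtain ⟨f, hf⟩ := hEV2.1
  rw [zM, (hf _).2.1]
  simp [ze, qq]

theorem zM_pow (M x : ℕ) : zM M x = zM M (1 : ℕ) ^ x := by
  apply io.injective
  rw [map_pow, io_zM hEV2, io_zM hEV2, ← Complex.exp_nat_mul]
  congr 1
  push_cast
  ring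

theorem zM_prim {M : ℕ} (hM : M ≠ 0) : IsPrimitiveRoot (zM M (1 : ℕ)) M := by
  refine IsPrimitiveRoot.of_map_of_injective (f := io) ?_ io.injective
  rw [io_zM hEV2]
  simpa [div_eq_mul_inv] using Complex.isPrimitiveRoot_exp M hM

theorem zM_mul {Q n : ℕ} (hQ : Q ≠ 0) : zM (Q * n) (1 : ℕ) ^ Q = zM n (1 : ℕ) := by
  apply io.injective
  rw [map_pow, io_zM hEV2, io_zM hEV2, ← Complex.exp_nat_mul]
  congr 1
  have : (Q : ℂ) ≠ 0 := by exact_mod_cast hQ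
  push_cast
  field_simp

theorem gauss (D : Dat) (m : ℕ) :
    ∑ a ∈ range D.n, (jacobiSym a D.n : Om) * zM D.n (1 : ℕ) ^ (m * a) =
      jacobiSym m D.n * ∑ a ∈ range D.n, (jacobiSym a D.n : Om) * zM D.n a := by
  have h4 := D.n4
  obtain ⟨τ, -, hτ⟩ := MP_8b7eba_nt.BSD15.exists_gauss (n := D.n) (by omega)
    (Nat.odd_iff.2 (by omega)) D.sq
  have h1 := hτ 1
  apply io.injective
  simp only [map_sum, map_mul, map_intCast, ← zM_pow hEV2, io_zM hEV2]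
  simp only [Nat.cast_one, mul_one, jacobiSym.one_left, Int.cast_one, one_mul] at h1
  rw [h1, ← hτ m]
  refine Finset.sum_congr rfl fun a _ => ?_
  rw [Nat.cast_mul, mul_comm (m : ℂ)]

theorem main (hGSX : GSX) (D : Dat) {Q : ℕ} [NeZero Q] {ζ : Om} (hζ : IsPrimitiveRoot ζ Q)
    (h15 : Nat.Coprime 15 Q) (hQn : Q.Coprime D.n) (hQ1 : 1 < Q) :
    ∃ (κ : (ZMod Q)ˣ) (s : ℤˣ), ∀ W : (ZMod Q)ˣ → ℤ,
      (∑ᶠ δ : (ZMod (Q * D.n))ˣ, (jacobiSym (δ : ZMod (Q * D.n)).val D.n *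
        W (ZMod.unitsMap (Nat.dvd_mul_right _ _) δ) : ℤ) * SSd _ δ) * D.dl =
      (s : ℤ) * D.n * ∑ ε, W ε * ∑ ν ∈ range (D.n * Q),
        (jacobiSym ν D.n * nM ν (D.n * Q : ℕ) : ℤ) *
          ζ ^ (ν * ((κ * ε : (ZMod Q)ˣ) : ZMod Q).val) := by
  obtain ⟨s₀, hs₀⟩ := (hGSX D).1
  have h4 := D.n4
  have hG := gauss hEV2 D
  generalize ∑ a ∈ range D.n, (jacobiSym a D.n : Om) * zM D.n a = G at hs₀ hG
  have : NeZero D.n := ⟨by omega⟩
  have : NeZero (Q * D.n) := ⟨mul_ne_zero (NeZero.ne _) (NeZero.ne _)⟩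
  obtain ⟨n', -, hn'⟩ := Nat.exists_mul_mod_eq_one_of_coprime hQn.symm hQ1
  obtain ⟨m', -, hm'⟩ := Nat.exists_mul_mod_eq_one_of_coprime hQn (by omega : 1 < D.n)
  have e1 : D.n * n' ≡ 1 [MOD Q] := by rw [Nat.ModEq, hn', Nat.mod_eq_of_lt hQ1]
  have e2 : Q * m' ≡ 1 [MOD D.n] := by rw [Nat.ModEq, hm', Nat.mod_eq_of_lt (by omega)]
  have e3 : D.n * n' + Q * m' ≡ 1 [MOD Q * D.n] := by
    refine (Nat.modEq_and_modEq_iff_modEq_mul hQn).1 ⟨?_, ?_⟩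
    · simpa using e1.add ((Nat.modEq_zero_iff_dvd.2 (dvd_mul_right Q m')))
    · simpa using ((Nat.modEq_zero_iff_dvd.2 (dvd_mul_right D.n n'))).add e2
  have hz := zM_prim hEV2 (NeZero.ne (Q * D.n))
  obtain ⟨j, -, hj, hj'⟩ := hζ.isPrimitiveRoot_iff.1
    (hz.pow (NeZero.pos _) (mul_comm Q D.n))
  have hc : (15 * j * n').Coprime Q := (h15.mul_left hj).mul_left
    (Nat.Coprime.coprime_mul_left (Nat.coprime_of_mul_modEq_one 1 (by simpa using e1)))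
  have hc' : (15 * m').Coprime D.n := D.cop.symm.mul_left
    (Nat.Coprime.coprime_mul_left (Nat.coprime_of_mul_modEq_one 1 (by simpa using e2)))
  obtain ⟨s₁, hs₁⟩ : ∃ s₁ : ℤˣ, jacobiSym (15 * m' : ℕ) D.n = s₁ := by
    rcases jacobiSym.eq_one_or_neg_one (a := (15 * m' : ℕ)) (b := D.n)
      (by rwa [Int.gcd_natCast_natCast]) with h | h
    exacts [⟨1, h⟩, ⟨-1, h⟩]
  refine ⟨ZMod.unitOfCoprime _ hc, -(s₀ * s₁), fun W => ?_⟩
  have hzn := (zM_prim hEV2 (NeZero.ne D.n)).pow_eq_one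
  have key : ∀ ν : ℕ, ∑ δ : (ZMod (Q * D.n))ˣ, ((jacobiSym (δ : ZMod (Q * D.n)).val D.n *
      W (ZMod.unitsMap (Nat.dvd_mul_right _ _) δ) : ℤ) : Om) *
        zM (Q * D.n) (15 * ν * (δ : ZMod (Q * D.n)).val) =
      (∑ ε, W ε * ζ ^ (ν * ((ZMod.unitOfCoprime _ hc * ε : (ZMod Q)ˣ) : ZMod Q).val)) *
        (jacobiSym ν D.n * (s₁ : ℤ) * G) := by
    intro ν
    have g := hG (15 * m' * ν)
    rw [Nat.cast_mul (15 * m'), jacobiSym.mul_left, hs₁, Int.cast_mul, mul_comm ((s₁ : ℤ) : Om)] at g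
    rw [← g, ← sum_units (fun a => (jacobiSym a D.n : Om) * zM D.n (1 : ℕ) ^ (15 * m' * ν * a))
      (fun a ha => by
        rw [jacobiSym.eq_zero_iff_not_coprime.2 (by rwa [Int.gcd_natCast_natCast])]; simp),
      ← split hQn]
    refine Finset.sum_congr rfl fun δ _ => ?_
    have v1 := val_map (Nat.dvd_mul_right Q D.n) δ
    have v2 := val_map (Nat.dvd_mul_left D.n Q) δ
    have v3 : ((ZMod.unitOfCoprime _ hc * ZMod.unitsMap (Nat.dvd_mul_right Q D.n) δ :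
        (ZMod Q)ˣ) : ZMod Q).val ≡ 15 * j * n' * (δ : ZMod (Q * D.n)).val [MOD Q] := by
      rw [Units.val_mul, ZMod.val_mul, ZMod.coe_unitOfCoprime, ZMod.val_natCast]
      exact (Nat.mod_modEq _ _).trans ((Nat.mod_modEq _ _).mul v1.symm)
    rw [pow_mod hζ.pow_eq_one (v3.mul_left ν), ← pow_mod hzn (v2.mul_left _),
      ← jacobiSym.mod_left' (a₁ := ((δ : ZMod (Q * D.n)).val : ℤ))
        (Int.natCast_modEq_iff.2 v2)]
    generalize (δ : ZMod (Q * D.n)).val = x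
    have := zM_pow hEV2 (Q * D.n) (15 * ν * x)
    push_cast at this ⊢
    rw [this, ← Nat.cast_one, ← zM_mul hEV2 (n := D.n) (NeZero.ne Q), ← pow_mul,
      ← pow_mod hz.pow_eq_one ((e3.mul_right (15 * ν * x)).trans (by rw [one_mul])),
      show ν * (15 * j * n' * x) = j * (n' * (15 * ν * x)) by ring, pow_mul ζ j, hj', ← pow_mul]
    ring
  rw [finsum_eq_sum_of_fintype]
  simp only [SSd, Finset.mul_sum, ← mul_assoc]
  rw [Finset.sum_comm]
  simp only [← Finset.sum_mul, key]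
  rw [mul_comm D.n Q, Finset.sum_comm, Finset.sum_mul]
  refine Finset.sum_congr rfl fun ν _ => ?_
  rw [Finset.sum_mul, Finset.sum_mul, Finset.sum_mul]
  refine Finset.sum_congr rfl fun ε _ => ?_
  rw [hs₀]
  generalize ζ ^ (ν * _) = y
  push_cast
  linear_combination (W ε * y * jacobiSym ν D.n * (s₁ : ℤ) * (s₀ : ℤ) * nM ν (Q * D.n) : Om) * D.hdl

end TTEL1

theorem t_TEL1 (hGSX : GSX) (hEV2 : EV2) : TEL1 := fun D k _ hζ =>
  TTEL1.main hEV2 hGSX D hζ (Nat.Coprime.pow_right _ (by norm_num))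
    (Nat.Coprime.pow_left _ (Nat.coprime_two_left.2 (Nat.odd_iff.2 (by have := D.n4; omega))))
    (Nat.one_lt_two_pow (by omega))

end Pool.Agent.P.MP_9c97e9_nt.KT
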