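import Pool.Agent.P.MP_9c97e9_nt.KT.IfP
import Pool.Agent.P.MP_9c97e9_nt.KT.TANAA

/-! The Hecke relations at two for the sums `YY`. -/

namespace Pool.Agent.P.MP_9c97e9_nt.KT

open MP_8b7eba_nt MP_8b7eba_nt.R2 MP_8b7eba_nt.Mod
open Finset

namespace TTEL3

open TANA

/-- the weight -/
def gw (n i : ℕ) (c : ℤ) (a : ℕ) : ℤ := if (2 ^ i : ℤ) ∣ a - c then jacobiSym a n else 0

theorem gw_add (n i : ℕ) (c : ℤ) (a : ℕ) : gw n i c (a + n * 2 ^ i) = gw n i c a := by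
  rw [gw, gw, jac_add]
  refine if_congr ?_ rfl rfl
  push_cast
  rw [show (a : ℤ) + n * 2 ^ i - c = a - c + n * 2 ^ i by ring]
  exact dvd_add_left (dvd_mul_left _ _)

theorem ind_add {i : ℕ} {x m : ℤ} (hm : Odd m) (y : ℤ) :
    ((if (2 ^ (i + 1) : ℤ) ∣ x then y else 0) + if (2 ^ (i + 1) : ℤ) ∣ x + m * 2 ^ i then y else 0) =
      if (2 ^ i : ℤ) ∣ x then y else 0 := by
  have h0 : (2 ^ i : ℤ) ≠ 0 := pow_ne_zero _ two_ne_zero
  by_cases h : (2 ^ i : ℤ) ∣ x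
  · obtain ⟨t, rfl⟩ := h
    rw [show 2 ^ i * t + m * 2 ^ i = 2 ^ i * (t + m) by ring, pow_succ, if_pos (dvd_mul_right _ t)]
    simp only [mul_dvd_mul_iff_left h0]
    obtain ⟨s, rfl⟩ := hm
    split_ifs <;> omega
  · have h1 : (2 ^ i : ℤ) ∣ 2 ^ (i + 1) := pow_dvd_pow _ (Nat.le_succ i)
    rw [if_neg h, if_neg fun e => h (h1.trans e),
      if_neg fun e => h ((dvd_add_left (dvd_mul_left _ _)).1 (h1.trans e)), add_zero]

section

variable {n : ℕ} (ho : Odd n) (hc : n.Coprime 15)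
include ho hc

theorem YY_eq (i : ℕ) (c : ℤ) :
    YY n i c = 2 * ∑ a ∈ range (n * 2 ^ i), gw n i c a * vv a (n * 2 ^ i) := by
  rw [YY, mul_sum]
  refine sum_congr rfl fun a _ => ?_
  rw [gw, ← two_vv (mul_ne_zero ho.pos.ne' (pow_ne_zero i two_ne_zero)) (cop_lev hc i)]
  split_ifs <;> ring

theorem YY_pair (i : ℕ) (c : ℤ) : YY n (i + 1) c + YY n (i + 1) (c + 2 ^ i) =
    -YY n i c - 2 * ∑ a ∈ range (n * 2 ^ i), gw n i c a * vv (2 * a) (n * 2 ^ i) := by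
  have h1 := push (R := ℤ) (u := 1) (f := gw n i c) Nat.prime_two (by norm_num)
    (mul_ne_zero ho.pos.ne' (pow_ne_zero i two_ne_zero)) (cop_lev hc i) (by norm_num)
    (gw_add n i c)
  simp only [one_mul, Int.cast_id, an_two] at h1
  have h2 : ∀ a, gw n (i + 1) c a + gw n (i + 1) (c + 2 ^ i) a = gw n i c a := fun a => by
    rw [gw, gw, gw, show (a : ℤ) - (c + 2 ^ i) = a - c + -1 * 2 ^ i by ring, ind_add odd_neg_one]
  rw [YY_eq ho hc, YY_eq ho hc, YY_eq ho hc, ← mul_add, ← sum_add_distrib]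
  simp only [← add_mul, h2]
  rw [pow_succ, ← mul_assoc, h1]
  ring

theorem YY_two (i : ℕ) (c : ℤ) : YY n (i + 2) c + YY n (i + 2) (c + 2 ^ (i + 1)) =
    -YY n (i + 1) c - YY n i c := by
  rw [YY_pair ho hc, YY_eq ho hc i, pow_succ, ← mul_assoc, sum_split]
  congr 2
  refine sum_congr rfl fun a _ => ?_
  simp only [mul_comm (n * 2 ^ i) 2, vv_mul two_ne_zero, vv_add, sum_range_succ, sum_range_zero,
    zero_mul, add_zero, zero_add, one_mul, ← add_mul]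
  rw [gw, gw, gw, jac_add, ← ind_add (i := i) (x := a - c) (m := n) (by exact_mod_cast ho)]
  push_cast
  rw [show (a : ℤ) + n * 2 ^ i - c = a - c + n * 2 ^ i by ring]

omit ho hc in
theorem YY_dbl (i : ℕ) (c : ℤ) : YY n (i + 1) (2 * c) = jacobiSym 2 n * YY n i c := by
  have h := sum_dvd (fun ν => if (2 ^ (i + 1) : ℤ) ∣ ν - 2 * c then
    jacobiSym ν n * nM ν (n * 2 ^ (i + 1) : ℕ) else 0) (n * 2 ^ i) two_pos
  rw [YY, YY, mul_sum, show n * 2 ^ (i + 1) = n * 2 ^ i * 2 by ring] at *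
  refine Eq.trans (sum_congr rfl fun a _ => ?_) (h.trans (sum_congr rfl fun a _ => ?_))
  · by_cases h2 : 2 ∣ a
    · rw [if_pos h2]
    · rw [if_neg h2, if_neg fun e => h2 ?_]
      have := (dvd_pow_self (2 : ℤ) (Nat.succ_ne_zero i)).trans e
      omega
  · push_cast
    rw [← mul_sub, pow_succ', mul_comm (n * 2 ^ i : ℤ) 2, nM_mul two_ne_zero, jacobiSym.mul_left]
    simp only [mul_dvd_mul_iff_left (two_ne_zero (α := ℤ))]
    split_ifs <;> ring

theorem YY_one : YY n 1 1 = -(1 + 2 * jacobiSym 2 n) * YY n 0 0 := by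
  have h2 : Nat.Coprime 2 n := (Nat.coprime_two_left).2 ho
  have h := sum_mul_cop (g := fun a => jacobiSym a n * vv a n) (M := n) (fun a => by
    rw [← jac_add n 1 a, ← vv_add a n 1, mul_one, one_mul]) h2
  have h3 : jacobiSym 2 n ^ 2 = 1 := jacobiSym.sq_one (by simpa [Int.gcd] using h2)
  have h4 := YY_pair ho hc 0 0
  have h5 := YY_dbl (n := n) 0 0
  have h6 := YY_eq ho hc 0 0
  simp only [gw, pow_zero, mul_one, one_dvd, if_true, zero_add, mul_zero, Nat.cast_mul,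
    jacobiSym.mul_left, mul_assoc, ← mul_sum, Nat.cast_ofNat] at h h4 h5 h6
  linear_combination h4 - h5 - 2 * jacobiSym 2 n * h + jacobiSym 2 n * h6 +
    2 * (∑ a ∈ range n, jacobiSym a n * vv (2 * a) n) * h3

end

end TTEL3

theorem t_TEL3 : TEL3 := fun n ho hc =>
  ⟨fun i c m => sum_congr rfl fun a _ => if_congr (by
      rw [← sub_sub]
      exact dvd_sub_left (dvd_mul_right _ _)) rfl rfl,
    TTEL3.YY_two ho hc, TTEL3.YY_dbl, TTEL3.YY_one ho hc⟩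

end Pool.Agent.P.MP_9c97e9_nt.KT
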