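import Pool.Agent.P.MP_9c97e9_nt.KT.IfP
import Pool.Agent.P.MP_9c97e9_nt.KT.TANAA

/-! The telescoping sum. -/

namespace Pool.Agent.P.MP_9c97e9_nt.KT

open MP_8b7eba_nt.R2
open MP_8b7eba_nt.Mod (nM nP_add_mul)
open Finset

namespace TTEL4

theorem ind_split (i : ℕ) (d m a : ℤ) (hm : Odd m) :
    ((if (2 ^ (i + 1) : ℤ) ∣ d then a else 0) + if (2 ^ (i + 1) : ℤ) ∣ d + m * 2 ^ i then a else 0) =
      if (2 ^ i : ℤ) ∣ d then a else 0 := by
  have h2 : (2 ^ i : ℤ) ≠ 0 := by positivity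
  by_cases h : (2 ^ i : ℤ) ∣ d
  · obtain ⟨t, rfl⟩ := h
    have e1 : (2 ^ (i + 1) : ℤ) ∣ 2 ^ i * t ↔ 2 ∣ t := by
      rw [pow_succ, mul_dvd_mul_iff_left h2]
    have e2 : (2 ^ (i + 1) : ℤ) ∣ 2 ^ i * t + m * 2 ^ i ↔ 2 ∣ t + m := by
      rw [pow_succ, show 2 ^ i * t + m * 2 ^ i = 2 ^ i * (t + m) by ring, mul_dvd_mul_iff_left h2]
    obtain ⟨s, rfl⟩ := hm
    rw [if_pos (dvd_mul_right _ _)]
    simp only [e1, e2]
    by_cases ht : 2 ∣ t
    · rw [if_pos ht, if_neg (by omega), add_zero]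
    · rw [if_neg ht, if_pos (by omega), zero_add]
  · have h1 : (2 ^ i : ℤ) ∣ 2 ^ (i + 1) := pow_dvd_pow _ (Nat.le_succ i)
    rw [if_neg h, if_neg fun h' => h (h1.trans h'), if_neg fun h' => h ?_, add_zero]
    exact (dvd_add_left (dvd_mul_left _ _)).1 (h1.trans h')

theorem dvd_shift {i K : ℕ} (hi : i ≤ K) {x c : ℤ} (h : (2 ^ K : ℤ) ∣ x * c + 1)
    (ν y : ℤ) : (2 ^ i : ℤ) ∣ ν * x + y ↔ (2 ^ i : ℤ) ∣ ν - y * c := by
  have h1 : (2 ^ i : ℤ) ∣ x * c + 1 := (pow_dvd_pow _ hi).trans h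
  constructor
  · intro h2
    have : ν - y * c = ν * (x * c + 1) - (ν * x + y) * c := by ring
    rw [this]
    exact dvd_sub (h1.mul_left _) (h2.mul_right _)
  · intro h2
    have : ν * x + y = x * (ν - y * c) + y * (x * c + 1) := by ring
    rw [this]
    exact dvd_add (h2.mul_left _) (h1.mul_left _)

theorem sum_tq (hT : TEL3) {n : ℕ} (hn : Odd n) (h15 : n.Coprime 15) (k : ℕ) {x c : ℤ}
    (h : (2 ^ (k + 2) : ℤ) ∣ x * c + 1) (y : ℤ) :
    ∑ ν ∈ range (n * 2 ^ (k + 2)), ((jacobiSym ν n * nM ν (n * 2 ^ (k + 2) : ℕ) : ℤ) : ℚ_[2]) *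
      tq (k + 2) (ν * x + y) =
      YY n (k + 2) (y * c) + (YY n (k + 1) (y * c) + YY n k (y * c)) / 2 := by
  have h2 := (hT n hn h15).2.1 k (y * c)
  have h3 : ((YY n (k + 2) (y * c) + YY n (k + 2) (y * c + 2 ^ (k + 1)) : ℤ) : ℚ_[2]) =
      ((-YY n (k + 1) (y * c) - YY n k (y * c) : ℤ) : ℚ_[2]) := by rw [h2]
  have h4 : ∑ ν ∈ range (n * 2 ^ (k + 2)),
      ((jacobiSym ν n * nM ν (n * 2 ^ (k + 2) : ℕ) : ℤ) : ℚ_[2]) * tq (k + 2) (ν * x + y) =
      YY n (k + 2) (y * c) -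
        ((YY n (k + 2) (y * c) + YY n (k + 2) (y * c + 2 ^ (k + 1)) : ℤ) : ℚ_[2]) / 2 := by
    unfold YY
    rw [← sum_add_distrib, Int.cast_sum, Int.cast_sum, sum_div, ← sum_sub_distrib]
    refine sum_congr rfl fun ν _ => ?_
    rw [show (ν : ℤ) - (y * c + 2 ^ (k + 1)) = ν - y * c + (-1) * 2 ^ (k + 1) by ring,
      ind_split (k + 1) _ (-1) _ (by decide)]
    unfold tq
    simp only [dvd_shift le_rfl h, show k + 2 - 1 = k + 1 from rfl,
      dvd_shift (Nat.le_succ (k + 1)) h]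
    split_ifs <;> push_cast <;> ring
  rw [h4, h3]
  push_cast
  ring

theorem sum_msy {n : ℕ} (hn : Odd n) (k : ℕ) {c : ℤ} (hc : Odd c) :
    4 * ∑ ν ∈ (oddR n k).filter (fun ν : ℕ => (2 ^ (k + 2) : ℤ) ∣ ν - c), msy n k ν =
      YY n (k + 2) c - al0⁻¹ * YY n (k + 1) c := by
  have e1 : (oddR n k).filter (fun ν : ℕ => (2 ^ (k + 2) : ℤ) ∣ ν - c) =
      (range (n * 2 ^ (k + 2))).filter (fun ν : ℕ => (2 ^ (k + 2) : ℤ) ∣ ν - c) := by
    unfold oddR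
    rw [filter_filter]
    refine filter_congr fun ν _ => ⟨fun h => h.2, fun h => ⟨?_, h⟩⟩
    have h2 : (2 : ℤ) ∣ ν - c := (dvd_pow_self 2 (by omega)).trans h
    obtain ⟨s, rfl⟩ := hc
    rw [Nat.odd_iff]
    omega
  have e2 : ∑ ν ∈ range (n * 2 ^ (k + 2)), (if (2 ^ (k + 2) : ℤ) ∣ ν - c then
      jacobiSym ν n * nM (2 * ν : ℕ) (n * 2 ^ (k + 2) : ℕ) else 0) = YY n (k + 1) c := by
    have e3 : ∀ ν : ℕ, nM (2 * ν : ℕ) (n * 2 ^ (k + 2) : ℕ) = nM ν (n * 2 ^ (k + 1) : ℕ) := by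
      intro ν
      rw [← TANA.nM_mul (k := 2) (by norm_num) ν]
      congr 1
      push_cast
      ring
    simp only [e3]
    rw [show n * 2 ^ (k + 2) = n * 2 ^ (k + 1) + n * 2 ^ (k + 1) by ring, sum_range_add,
      ← sum_add_distrib]
    unfold YY
    refine sum_congr rfl fun ν _ => ?_
    have e4 : jacobiSym ((n * 2 ^ (k + 1) + ν : ℕ) : ℤ) n = jacobiSym ν n := by
      apply jacobiSym.mod_left'
      push_cast
      rw [add_comm, Int.add_mul_emod_self_left]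
    have e5 : nM ((n * 2 ^ (k + 1) + ν : ℕ) : ℤ) (n * 2 ^ (k + 1) : ℕ) =
        nM ν (n * 2 ^ (k + 1) : ℕ) := by
      rw [← (nP_add_mul ν (n * 2 ^ (k + 1) : ℕ) 1).2]
      congr 1
      push_cast
      ring
    rw [e4, e5, show ((n * 2 ^ (k + 1) + ν : ℕ) : ℤ) - c = ν - c + n * 2 ^ (k + 1) by
      push_cast; ring]
    exact ind_split (k + 1) _ n _ (by exact_mod_cast hn)
  rw [e1, sum_filter, ← e2]
  unfold YY msy
  rw [Int.cast_sum, Int.cast_sum, mul_sum, mul_sum, ← sum_sub_distrib]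
  refine sum_congr rfl fun ν _ => ?_
  split_ifs <;> push_cast <;> ring

/-- the partial sums -/
noncomputable def PS (n : ℕ) (c : ℤ) (i m : ℕ) : ℚ_[2] :=
  ∑ j ∈ range m, (jacobiSym 2 n * al0 / 2) ^ j * YY n i (2 ^ j * c)

theorem P_succ (hT : TEL3) {n : ℕ} (hn : Odd n) (h15 : n.Coprime 15)
    (he : (jacobiSym 2 n : ℚ_[2]) ^ 2 = 1) (c : ℤ) (i m : ℕ) :
    PS n c (i + 1) (m + 1) = YY n (i + 1) c + al0 / 2 * PS n c i m := by
  unfold PS
  rw [sum_range_succ', mul_sum, add_comm]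
  congr 1
  · simp
  · refine sum_congr rfl fun j _ => ?_
    rw [show (2 : ℤ) ^ (j + 1) * c = 2 * (2 ^ j * c) by ring, (hT n hn h15).2.2.1]
    push_cast
    linear_combination ((jacobiSym 2 n * al0 / 2) ^ j * al0 / 2 * YY n i (2 ^ j * c)) * he

theorem P_sum (hB : BAS) (hT : TEL3) {n : ℕ} (hn : Odd n) (h15 : n.Coprime 15)
    (he : (jacobiSym 2 n : ℚ_[2]) ^ 2 = 1) (c : ℤ) (k : ℕ) :
    PS n c (k + 2) (k + 2) + (PS n c (k + 1) (k + 2) + PS n c k (k + 2)) / 2 =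
      YY n (k + 2) c - al0⁻¹ * YY n (k + 1) c +
        (al0 / 2) ^ k * ((1 + al0 / 2 + jacobiSym 2 n * al0 / 2) / 2 * YY n 0 0) := by
  have ha := hB.1.2
  have h0 : al0 ≠ 0 := by
    intro h
    rw [h] at ha
    norm_num at ha
  have hi : al0⁻¹ = -(1 + al0) / 2 := by
    field_simp
    linear_combination ha
  have hz : ∀ d, YY n 0 d = YY n 0 0 := fun d => by
    simpa using (hT n hn h15).1 0 0 d
  induction k with
  | zero =>
    have p0 : PS n c 0 0 = 0 := by simp [PS]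
    have p1 : PS n c 0 1 = YY n 0 0 := by simp [PS, hz c]
    have p2 : PS n c 0 2 = YY n 0 0 + jacobiSym 2 n * al0 / 2 * YY n 0 0 := by
      simp [PS, sum_range_succ, hz c, hz (2 * c)]
    have q1 : PS n c 2 2 = _ := P_succ hT hn h15 he c 1 1
    have q2 : PS n c 1 1 = _ := P_succ hT hn h15 he c 0 0
    have q3 : PS n c 1 2 = _ := P_succ hT hn h15 he c 0 1
    simp only [zero_add] at q1 q2 q3 ⊢
    rw [q1, q2, q3, p0, p1, p2, hi]
    ring
  | succ k ih =>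
    rw [show k + 1 + 2 = k + 2 + 1 from rfl, P_succ hT hn h15 he c (k + 2) (k + 2),
      P_succ hT hn h15 he c (k + 1) (k + 2), P_succ hT hn h15 he c k (k + 2)]
    rw [hi] at ih ⊢
    linear_combination (al0 / 2) * ih + (YY n (k + 1) c / 4 : ℚ_[2]) * ha

end TTEL4

open TTEL4 in
theorem t_TEL4 (hBAS : BAS) (hTEL3 : TEL3) : TEL4 := by
  intro n k x c hn h15 h
  have ha := hBAS.1.2
  have hc : Odd c := by
    have h2 : (2 : ℤ) ∣ x * c + 1 := (dvd_pow_self 2 (by omega)).trans h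
    rcases Int.even_or_odd c with ⟨s, rfl⟩ | h3
    · exfalso
      rw [mul_add] at h2
      omega
    · exact h3
  have he0 : jacobiSym 2 n = 1 ∨ jacobiSym 2 n = -1 := by
    apply jacobiSym.eq_one_or_neg_one
    have : Nat.Coprime 2 n := (Nat.coprime_two_left).2 hn
    exact this
  have he : (jacobiSym 2 n : ℚ_[2]) ^ 2 = 1 := by
    rcases he0 with e | e <;> rw [e] <;> norm_num
  have hz : ∀ i, (YY n i 0 : ℚ_[2]) = (jacobiSym 2 n : ℚ_[2]) ^ i * YY n 0 0 := by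
    intro i
    induction i with
    | zero => simp
    | succ i ih =>
      have := (hTEL3 n hn h15).2.2.1 i 0
      rw [mul_zero] at this
      rw [this]
      push_cast
      rw [ih]
      ring
  have e1 : ∑ ν ∈ range (n * 2 ^ (k + 2)),
      ((jacobiSym ν n * nM ν (n * 2 ^ (k + 2) : ℕ) : ℤ) : ℚ_[2]) *
        ∑ j ∈ range (k + 2), (jacobiSym 2 n * al0 / 2) ^ j *
          (tq (k + 2) (ν * x + 2 ^ j) - tq (k + 2) (ν * x)) =
      PS n c (k + 2) (k + 2) + (PS n c (k + 1) (k + 2) + PS n c k (k + 2)) / 2 -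
        (∑ j ∈ range (k + 2), (jacobiSym 2 n * al0 / 2) ^ j) *
          (YY n (k + 2) 0 + (YY n (k + 1) 0 + YY n k 0) / 2) := by
    simp only [mul_sum]
    rw [sum_comm]
    unfold PS
    rw [← sum_add_distrib, sum_div, ← sum_add_distrib, sum_mul, ← sum_sub_distrib]
    refine sum_congr rfl fun j _ => ?_
    have t1 := sum_tq hTEL3 hn h15 k h (2 ^ j)
    have t2 := sum_tq hTEL3 hn h15 k h 0
    simp only [add_zero, zero_mul] at t2
    have t3 : ∀ ν : ℕ, ((jacobiSym ν n * nM ν (n * 2 ^ (k + 2) : ℕ) : ℤ) : ℚ_[2]) *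
        ((jacobiSym 2 n * al0 / 2) ^ j * (tq (k + 2) (ν * x + 2 ^ j) - tq (k + 2) (ν * x))) =
        (jacobiSym 2 n * al0 / 2) ^ j *
          (((jacobiSym ν n * nM ν (n * 2 ^ (k + 2) : ℕ) : ℤ) : ℚ_[2]) * tq (k + 2) (ν * x + 2 ^ j) -
          ((jacobiSym ν n * nM ν (n * 2 ^ (k + 2) : ℕ) : ℤ) : ℚ_[2]) * tq (k + 2) (ν * x)) :=
      fun ν => by ring
    simp only [t3]
    rw [← mul_sum, sum_sub_distrib, t1, t2]
    ring
  rw [e1, P_sum hBAS hTEL3 hn h15 he, sum_msy hn k hc, hz (k + 2), hz (k + 1), hz k]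
  have hd : (2 - jacobiSym 2 n * al0 : ℚ_[2]) ≠ 0 := by
    intro h0
    rcases he0 with e | e <;> rw [e] at h0 <;> push_cast at h0
    · have : al0 = 2 := by linear_combination -h0
      rw [this] at ha
      norm_num at ha
    · have : al0 = -2 := by linear_combination h0
      rw [this] at ha
      norm_num at ha
  have hg := mul_neg_geom_sum (jacobiSym 2 n * al0 / 2 : ℚ_[2]) (k + 2)
  set S := ∑ j ∈ range (k + 2), (jacobiSym 2 n * al0 / 2 : ℚ_[2]) ^ j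
  have hk : ((jacobiSym 2 n : ℚ_[2]) ^ k) ^ 2 = 1 := by
    rw [← pow_mul, mul_comm, pow_mul, he, one_pow]
  rw [show (jacobiSym 2 n * al0 / 2 : ℚ_[2]) ^ (k + 2) =
    (jacobiSym 2 n : ℚ_[2]) ^ k * (al0 / 2) ^ k * (jacobiSym 2 n * al0 / 2) ^ 2 by ring] at hg
  rw [pow_add _ k 2, pow_succ _ k]
  generalize (jacobiSym 2 n : ℚ_[2]) ^ k = E at hk hg ⊢
  generalize (al0 / 2) ^ k = g at hg ⊢
  generalize (YY n 0 0 : ℚ_[2]) = Z
  rw [add_sub_assoc, sub_eq_add_neg _ (_ / _), add_right_inj, ← neg_div, eq_div_iff hd]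
  rcases he0 with e | e <;> rw [e] at hg ⊢ <;> push_cast at hg ⊢
  · linear_combination (g * Z / 2) * ha + g * Z * al0 ^ 2 * hk - 4 * E * Z * hg
  · linear_combination (g * Z / 2) * ha + g * Z * al0 ^ 2 / 2 * hk - 2 * E * Z * hg

end Pool.Agent.P.MP_9c97e9_nt.KT
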