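import Pool.Agent.P.MP_9c97e9_nt.KT.Top

/-! Proof of F2X. -/

namespace Pool.Agent.P.MP_9c97e9_nt.KT

open scoped Matrix
open MP_8b7eba_nt.R2

namespace TF2X

theorem frob_iff {w : Pl} {δ : Om} {m : ℤ} {φ : GQ} (hδ : δ ^ 2 = m) (hI : ∀ g ∈ w.I, g δ = δ)
    (hφ : w.IsFrob 1 φ) : φ δ = δ ↔ Sq w.D m := by
  rw [← hδ, sq_iff (by rw [hδ]; exact fix_int m)]
  exact ⟨(a_SQ2 w).2.2.1 w.D φ δ w.loc_D hφ.1 hφ fun g hg => hI g hg.1, fun h => h φ hφ.1⟩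

theorem n2 : ‖(2 : ℚ_[2])‖ = 2⁻¹ := by simpa using TTATE.n2 1

theorem ul {x y : ℚ_[2]} {c : ℝ} (hx : ‖x‖ ≤ c) (hy : ‖y‖ ≤ c) : ‖x + y‖ ≤ c :=
  (Padic.nonarchimedean _ _).trans (max_le hx hy)

theorem mul_le {x y : ℚ_[2]} {a b : ℝ} (hx : ‖x‖ ≤ a) (hy : ‖y‖ ≤ b) : ‖x * y‖ ≤ a * b :=
  norm_mul_le_of_le hx hy

theorem four {w : Pl} (T : Tate w) (g : GQ) :
    ‖T.rho g 0 1‖ ≤ 4⁻¹ ∧ ‖T.rho g 1 0‖ ≤ 4⁻¹ ∧ ‖T.rho g 1 1 - 1‖ ≤ 4⁻¹ :=
  ⟨by simpa using T.four g 0 1, by simpa using T.four g 1 0, by simpa using T.four g 1 1⟩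

/-- the unit root is five modulo eight -/
theorem unit_root {w : Pl} (hw : w.p = 2) (T : Tate w) {φ : GQ} (hφ : w.IsFrob 1 φ)
    (h1 : T.rho φ 0 0 * T.rho φ 1 1 = 1) : ‖T.rho φ 1 1 - 1‖ = 4⁻¹ := by
  refine le_antisymm (four T φ).2.2 (not_lt.1 fun h => ?_)
  have h8 : ‖T.rho φ 1 1 - 1‖ ≤ 8⁻¹ := by
    exact ((Padic.norm_le_pow_iff_norm_lt_pow_add_one _ (-3)).2
      (h.trans_eq (by norm_num))).trans_eq (by norm_num)
  have h0 : ‖T.rho φ 0 0 - 1‖ ≤ 8⁻¹ := by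
    rw [show T.rho φ 0 0 - 1 = -T.rho φ 0 0 * (T.rho φ 1 1 - 1) by linear_combination h1]
    exact (mul_le ((norm_neg _).trans_le (T.int φ 0 0)) h8).trans_eq (one_mul _)
  obtain ⟨i, hi⟩ := exists_root (-1) two_ne_zero
  obtain ⟨-, C, -, hC, -, t3, -⟩ := TTATE.pts hi
  have c4 : 2 ^ 2 • C = 0 := by
    rw [pow_two, mul_smul, two_nsmul]
    exact not_not.1 fun e => (t3.two_ne split15).1 e rfl
  obtain ⟨v, rfl⟩ := T.surj C 2 c4
  obtain ⟨u, rfl⟩ : ∃ u : V2, v = u + u := ⟨(2⁻¹ : ℚ_[2]) • v, by rw [← add_smul]; norm_num⟩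
  have hu : ‖u‖ ≤ 8 := by
    rw [← map_nsmul, T.ker, ← two_nsmul, smul_smul, ← Nat.cast_smul_eq_nsmul ℚ_[2], norm_smul,
      show ((2 ^ 2 * 2 : ℕ) : ℚ_[2]) = 2 ^ 3 by norm_num, TTATE.n2] at c4
    linarith
  have u0 := (norm_le_pi_norm u 0).trans hu
  have u1 := (norm_le_pi_norm u 1).trans hu
  rw [map_add] at hC
  have e1 : ‖(T.rho φ *ᵥ u - u) 1‖ ≤ 1 := by
    rw [show (T.rho φ *ᵥ u - u) 1 = (T.rho φ 1 1 - 1) * u 1 by
      simp [T.up φ hφ.1, sub_mul]]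
    exact (mul_le h8 u1).trans (by norm_num)
  have e0 : ‖(T.rho φ *ᵥ u - u) 0‖ ≤ 2 := by
    rw [show (T.rho φ *ᵥ u - u) 0 = (T.rho φ 0 0 - 1) * u 0 + T.rho φ 0 1 * u 1 by
      simp; ring]
    exact ul ((mul_le h0 u0).trans (by norm_num)) ((mul_le (four T φ).1 u1).trans (by norm_num))
  have sp := split15.swap
  have hU : UU (-9) 0 16 (T.pt u) ^ 2 = ((45 : ℤ) : Om) := by
    rw [← UU_sq sp hC]
    norm_num
  have hg : φ (UU (-9) 0 16 (T.pt u)) = UU (-9) 0 16 (ac φ (T.pt u)) := by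
    have := UU_map (W := W15) (e₁ := -9) (e₂ := 0) (e₃ := 16) (φ : Om →+* Om) (T.pt u)
    simp only [map_neg, map_ofNat, map_zero] at this
    exact this.symm
  have hf : φ (UU (-9) 0 16 (T.pt u)) = UU (-9) 0 16 (T.pt u) := by
    rw [hg, T.gal]
    rcases TTATE.half e0 with k | k
    · rw [sub_eq_zero.1 ((map_sub ..).symm.trans ((T.ker _).2
        ((pi_norm_le_iff_of_nonneg zero_le_one).2 (Fin.forall_fin_two.2 ⟨k, e1⟩))))]
    · have : T.pt (T.rho φ *ᵥ u - u - ![2⁻¹, 0]) = 0 := (T.ker _).2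
        ((pi_norm_le_iff_of_nonneg zero_le_one).2 (Fin.forall_fin_two.2
          ⟨k, (congrArg norm (sub_zero _)).trans_le e1⟩))
      rw [map_sub, map_sub, sub_sub, sub_eq_zero] at this
      rw [this]
      exact (UU_add_aux sp T.t0 hC.ne_zero).1
  have := ((a_SQ2 w).2.2.2.2.1 hw 45 (by decide)).1.1
    ((frob_iff hU (fun g hg => Pl.I_fix_two hw hU (by decide) hg) hφ).1 hf)
  omega

/-- eigenvalues are one modulo four -/
theorem eig {w : Pl} (T : Tate w) (g : GQ) {e : V2} {c l : ℚ_[2]} (he : ‖e‖ = 1)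
    (h1 : ‖e - ![c, 1]‖ < 1) (h : T.rho g *ᵥ e = l • e) : ‖l - 1‖ ≠ 2⁻¹ := by
  have a1 := (norm_le_pi_norm _ 1).trans_lt h1
  have a2 := IsUltrametricDist.norm_add_eq_max_of_norm_ne_norm (x := e 1 - 1) (y := 1)
    (by rw [norm_one]; exact a1.ne)
  rw [sub_add_cancel, norm_one, max_eq_right (show ‖e 1 - 1‖ ≤ 1 from a1.le)] at a2
  have e1 : (l - 1) * e 1 = T.rho g 1 0 * e 0 + (T.rho g 1 1 - 1) * e 1 := by
    have := congrFun h 1
    simp [Matrix.mulVec, dotProduct] at this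
    linear_combination -this
  have := ul (mul_le (four T g).2.1 ((norm_le_pi_norm e 0).trans he.le))
    (mul_le (four T g).2.2 a2.le)
  rw [← e1, norm_mul, a2] at this
  intro k
  rw [k] at this
  norm_num at this

end TF2X

open TF2X in
theorem t_F2X : F2X := by
  intro D
  have n4 := D.n4
  have cop := D.cop
  have hdl : D.dl ^ 2 = ((-D.n : ℤ) : Om) := by rw [D.hdl]; push_cast; rfl
  have d0 : -D.dl ≠ D.dl := fun h => by
    have h1 : D.dl = 0 := by linear_combination (-1 / 2 : Om) * h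
    have h2 := D.hdl
    rw [h1, zero_pow two_ne_zero, eq_comm, neg_eq_zero, Nat.cast_eq_zero] at h2
    omega
  have hI : ∀ g ∈ w2.I, g D.dl = D.dl := fun g hg => Pl.I_fix_two rfl hdl (by omega) hg
  have up := T2.up D.f2 D.fr.1
  have h1 : T2.rho D.f2 0 0 * T2.rho D.f2 1 1 = 1 := by
    have := T2.det D.f2
    rw [Matrix.det_fin_two, up, cq, D.fc] at this
    simpa using this
  have h2 := unit_root rfl T2 D.fr h1
  have h3 := (frob_iff hdl hI D.fr).trans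
    ((a_SQ2 w2).2.2.2.2.1 rfl (-D.n) (Int.odd_iff.2 (by omega))).1
  have hp := D.wz.prime
  have p30 : ¬ D.wz.p ∣ 30 := fun h => by
    have : (2 * 15).Coprime D.n :=
      Nat.Coprime.mul_left (Nat.coprime_two_left.2 (Nat.odd_iff.2 (by omega))) cop.symm
    exact hp.one_lt.ne' (Nat.eq_one_of_dvd_coprimes this h D.zp)
  refine ⟨?_, ?_, by simp [Dat.rd, Tate.rd, up], ?_,
    a_EC.2.2.2.2.2.2.1 _ (fun e => p30 (by rw [e]; decide)) _ D.zI, hI, fun w hw => ?_⟩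
  · split_ifs with h
    · simpa [Dat.rd, Tate.rd, sd, h3.2 (by omega)] using h2
    · have : D.f2 D.dl ≠ D.dl := fun e => by have := h3.1 e; omega
      rw [show D.rd D.f2 1 1 - 1 = -((T2.rho D.f2 1 1 - 1) + 2) by
        simp [Dat.rd, Tate.rd, sd, this]; ring, norm_neg,
        IsUltrametricDist.norm_add_eq_max_of_norm_ne_norm (by rw [h2, n2]; norm_num), h2, n2]
      norm_num
  · rcases sd_cases D.dl D.f2 with h | h <;> simp [Dat.rd, Tate.rd, h, h1]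
  · simp [Dat.rd, Tate.rd, sd, D.zd, d0, (a_TR _ T2 _ p30).1 _ D.zI]
  have w2' : w.p ≠ 2 := fun e => by rw [e] at hw; omega
  have nd : ¬ (w.p : ℤ) ∣ -D.n := fun h => w.prime.one_lt.ne'
    (Nat.eq_one_of_dvd_coprimes cop (Int.natCast_dvd_natCast.1 (dvd_neg.1 h)) hw)
  have hI' : ∀ g ∈ w.I, g D.dl = D.dl := fun g hg => Pl.I_fix a_TAME a_RES w2' hdl nd hg
  refine ⟨hI', fun e φ _ he hφ => ?_⟩
  obtain ⟨t, ht, hβ⟩ := Pl.exists_gen a_TAME a_RES w2'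
  obtain ⟨e0, k0, k3, k5, -, k1, k2⟩ := a_UNIP _ T2 w hw
  obtain ⟨s, rfl⟩ := (k1 t ht hβ).2 e (he t ht)
  have h4 := (frob_iff hdl hI' hφ).trans ((a_SQ2 w).2.2.2.2.2 w2' _ nd).1
  have h5 : ∀ l : ℚ_[2], T2.rho φ *ᵥ e0 = l • e0 →
      D.rd φ *ᵥ s • e0 = (sd D.dl φ * l : ℚ_[2]) • s • e0 := fun l h => by
    rw [Dat.rd, Tate.rd, Matrix.smul_mulVec, Matrix.mulVec_smul, h, smul_comm s, mul_smul]
  rcases (Nat.Prime.dvd_mul w.prime).1 (show w.p ∣ 3 * 5 from hw) with h | h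
  · have h := (Nat.prime_dvd_prime_iff_eq w.prime Nat.prime_three).1 h
    rw [h5 _ ((k2 φ hφ).resolve_left fun k => eig T2 φ k0 (k3 h) k (by rw [h, ← n2]; norm_num))]
    rw [h] at h4 nd ⊢
    by_cases q : D.n % 3 = 1
    · rw [jacobiSym.mod_left' (a₂ := 2) (by omega)] at h4
      simp [q, sd, h4, show jacobiSym 2 3 = -1 by norm_num]
    · rw [jacobiSym.mod_left' (a₂ := 1) (by omega)] at h4
      simp [q, sd, h4]
  · have h := (Nat.prime_dvd_prime_iff_eq w.prime Nat.prime_five).1 h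
    rw [h5 _ ((k2 φ hφ).resolve_right fun k => eig T2 φ k0 (k5 h) k (by
      rw [h, show -((5 : ℕ) : ℚ_[2]) - 1 = (2 : ℚ_[2]) ^ 2 * (-2) + 2 by norm_num,
        IsUltrametricDist.norm_add_eq_max_of_norm_ne_norm (by
          rw [norm_mul, norm_neg, TTATE.n2, n2]; norm_num), norm_mul, norm_neg, TTATE.n2, n2]
      norm_num))]
    rw [h] at h4 nd ⊢
    have j : ∀ a : ℤ, -(D.n : ℤ) % 5 = a % 5 → jacobiSym (-D.n) 5 = jacobiSym a 5 := fun a k =>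
      jacobiSym.mod_left' k
    by_cases q : D.n % 5 = 1 ∨ D.n % 5 = 4
    · have : jacobiSym (-D.n) 5 = 1 := by
        rcases q with q | q
        · rw [j 4 (by omega)]; norm_num
        · rw [j 1 (by omega)]; norm_num
      simp [q, sd, h4, this]
    · have : jacobiSym (-D.n) 5 = -1 := by
        rcases (by omega : D.n % 5 = 2 ∨ D.n % 5 = 3) with q | q
        · rw [j 3 (by omega)]; norm_num
        · rw [j 2 (by omega)]; norm_num
      simp [q, sd, h4, this]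

end Pool.Agent.P.MP_9c97e9_nt.KT
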