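import Pool.Agent.P.MP_9c97e9_nt.KT.IfU
import Pool.Agent.P.MP_9c97e9_nt.KT.TBAS
import Pool.Agent.P.MP_9c97e9_nt.KT.TF2X

/-! Proof of TWA. -/

namespace Pool.Agent.P.MP_9c97e9_nt.KT

open scoped NNReal Matrix
open MP_8b7eba_nt.R2

namespace TTWA

theorem prim {M : ℕ} (h : M ≠ 0) : ∃ z : Om, IsPrimitiveRoot z M := by
  have : NeZero M := ⟨h⟩
  exact HasEnoughRootsOfUnity.exists_primitiveRoot Om M

theorem cy_eq {M : ℕ} (h : M ≠ 0) {z : Om} (hz : IsPrimitiveRoot z M) {g : GQ} {m : ℕ}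
    (e : g z = z ^ m) : (cy M g : ZMod M) = m := by
  have : NeZero M := ⟨h⟩
  rw [t_BAS.2.1 M h g z hz.pow_eq_one, (hz.isOfFinOrder h).pow_eq_pow_iff_modEq,
    ← hz.eq_orderOf, ← ZMod.natCast_eq_natCast_iff, ZMod.natCast_zmod_val] at e
  exact e

theorem on {M : ℕ} (h : M ≠ 0) : ON (cy M).ker := by
  obtain ⟨z, hz⟩ := prim h
  refine ⟨inferInstance, ?_⟩
  have : (cy M).ker = MulAction.stabilizer GQ z := by
    ext g
    rw [MonoidHom.mem_ker, MulAction.mem_stabilizer_iff]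
    refine ⟨fun e => ?_, fun e => Units.ext ?_⟩
    · have h1 := t_BAS.2.1 M h g z hz.pow_eq_one
      rw [e, Units.val_one, ZMod.val_one_eq_one_mod, hz.eq_orderOf, pow_mod_orderOf,
        pow_one] at h1
      exact h1
    · simpa using cy_eq h hz (g := g) (m := 1) (by simpa using e)
  rw [this]
  exact isOpen_stab z

theorem comp {M N : ℕ} (h : M ≠ 0) (hd : M ∣ N) (hN : N ≠ 0) (g : GQ) :
    ZMod.unitsMap hd (cy N g) = cy M g := by
  have : NeZero N := ⟨hN⟩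
  obtain ⟨z, hz⟩ := prim h
  refine Units.ext ?_
  rw [cy_eq h hz (t_BAS.2.1 N hN g z ((hz.pow_eq_one_iff_dvd N).2 hd)), ZMod.unitsMap_val,
    ZMod.natCast_val]

theorem frob {M : ℕ} (h : M ≠ 0) {w : Pl} (hw : ¬ w.p ∣ M) {f : ℕ} {φ : GQ} (hφ : w.IsFrob f φ) :
    (cy M φ : ZMod M) = (w.p ^ f : ℕ) := by
  obtain ⟨z, hz⟩ := prim h
  have h2 := hz.pow_eq_one
  exact cy_eq h hz (Pl.root_eq hw (by rw [← map_pow, h2, map_one])
    (by rw [pow_right_comm, h2, one_pow]) (hφ.2 _ (Pl.v_root h h2).le))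

theorem rd_mulVec (D : Dat) (g h : GQ) (v : V2) : D.rd (g * h) *ᵥ v = D.rd g *ᵥ D.rd h *ᵥ v := by
  have : Fix ⊤ (D.dl ^ 2) := D.hdl ▸ (fix_nat D.n).neg
  rw [Matrix.mulVec_mulVec, Dat.rd, T2.rd_mul this, Dat.rd, Dat.rd]

theorem rd_le (D : Dat) {r : ℝ} (g : GQ) {v : V2} (hv : ‖v‖ ≤ r) : ‖D.rd g *ᵥ v‖ ≤ r :=
  LC.rd T2 D.dl g hv

variable {M l : ℕ} {r : ℝ}

theorem chi_mul (a b : ZMod (M * l)) :
    jacobiSym (a * b).val l = jacobiSym a.val l * jacobiSym b.val l := by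
  rw [← jacobiSym.mul_left, ZMod.val_mul]
  refine jacobiSym.mod_left' ?_
  push_cast
  exact Int.emod_emod_of_dvd _ (Dvd.intro_left _ rfl)

open Classical in
theorem psh_eq [NeZero (M * l)] {X : Type} [AddCommMonoid X] (f : (ZMod (M * l))ˣ → X)
    (ε : (ZMod M)ˣ) : psh M l f ε =
      ∑ δ, if ZMod.unitsMap (Nat.dvd_mul_right M l) δ = ε then f δ else 0 := by
  rw [psh, finsum_eq_sum_of_fintype]

theorem psh_le (h : M * l ≠ 0) {f : (ZMod (M * l))ˣ → V2} (hf : ∀ δ, ‖f δ‖ ≤ r) (ε : (ZMod M)ˣ) :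
    ‖psh M l f ε‖ ≤ r := by
  have := NeZero.mk h
  have h0 : 0 ≤ r := (norm_nonneg _).trans (hf 1)
  rw [psh_eq]
  refine IsUltrametricDist.norm_sum_le_of_forall_le_of_nonneg h0 fun δ _ => ?_
  split_ifs
  exacts [hf δ, by simpa using h0]

theorem psh_sub (h : M * l ≠ 0) {X : Type} [AddCommGroup X] (f f' : (ZMod (M * l))ˣ → X)
    (ε : (ZMod M)ˣ) : psh M l (fun δ => f δ - f' δ) ε = psh M l f ε - psh M l f' ε := by
  have := NeZero.mk h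
  simp only [psh_eq, ← Finset.sum_sub_distrib]
  exact Finset.sum_congr rfl fun δ _ => by split_ifs <;> simp

theorem psh_mulVec (h : M * l ≠ 0) (A : Mt) (f : (ZMod (M * l))ˣ → V2) (ε : (ZMod M)ˣ) :
    psh M l (fun δ => A *ᵥ f δ) ε = A *ᵥ psh M l f ε := by
  have := NeZero.mk h
  simp only [psh_eq, Matrix.mulVec_sum]
  exact Finset.sum_congr rfl fun δ _ => by split_ifs <;> simp

theorem psh_shift (h : M * l ≠ 0) {X : Type} [AddCommMonoid X] (f : (ZMod (M * l))ˣ → X)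
    (c : (ZMod (M * l))ˣ) (ε : (ZMod M)ˣ) : psh M l (fun δ => f (δ * c)) ε =
      psh M l f (ε * ZMod.unitsMap (Nat.dvd_mul_right M l) c) := by
  have := NeZero.mk h
  simp only [psh_eq]
  exact Fintype.sum_equiv (Equiv.mulRight c) _ _ fun δ => by simp

theorem smul_le (a : ℤ) {v : V2} (h : ‖v‖ ≤ r) : ‖(a : ℚ_[2]) • v‖ ≤ r := by
  rw [norm_smul]
  exact (mul_le_of_le_one_left (norm_nonneg _) (Padic.norm_int_le_one a)).trans h

theorem add_le {v w : V2} (h : ‖v‖ ≤ r) (h' : ‖w‖ ≤ r) : ‖v + w‖ ≤ r :=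
  (IsUltrametricDist.norm_add_le_max v w).trans (max_le h h')

theorem sub_le {v w : V2} (h : ‖v‖ ≤ r) (h' : ‖w‖ ≤ r) : ‖v - w‖ ≤ r := by
  rw [sub_eq_add_neg]
  exact add_le h (by rwa [norm_neg])

theorem mv_le {A : Mt} (hA : ∀ i j, ‖A i j‖ ≤ r) {v : V2} (h : ‖v‖ ≤ 1) : ‖A *ᵥ v‖ ≤ r := by
  have h0 : 0 ≤ r := (norm_nonneg _).trans (hA 0 0)
  refine (pi_norm_le_iff_of_nonneg h0).2 fun i => ?_
  rw [Matrix.mulVec, dotProduct]
  refine IsUltrametricDist.norm_sum_le_of_forall_le_of_nonneg h0 fun j _ => ?_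
  rw [norm_mul]
  exact (mul_le_of_le_one_right (norm_nonneg _) ((norm_le_pi_norm v j).trans h)).trans (hA i j)

theorem rn_congr (hZQ : ZQ) {k : ℕ} {v w : V2} (hv : ‖v‖ ≤ 1) (hw : ‖w‖ ≤ 1)
    (h : ‖v - w‖ ≤ (2 ^ k)⁻¹) : rn k v = rn k w := funext fun i => by
  rw [rn, rn, ((hZQ k).1 _ _ ((norm_le_pi_norm v i).trans hv)
    ((norm_le_pi_norm w i).trans hw)).2.2.2 ((norm_le_pi_norm (v - w) i).trans h)]

theorem t0_co (hGSX : GSX) (D : Dat) (hM : M ≠ 0) {x : GQ → (ZMod (M * D.n))ˣ → V2}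
    (hx : ∀ g h d, ‖x (g * h) d - x g d - T2.rho g *ᵥ x h (d * (cy _ g)⁻¹)‖ ≤ r) (g h : GQ)
    (ε : (ZMod M)ˣ) : ‖D.t0 M x (g * h) ε - D.t0 M x g ε -
      D.rd g *ᵥ D.t0 M x h (ε * (cy M g)⁻¹)‖ ≤ r := by
  have h0 : M * D.n ≠ 0 := mul_ne_zero hM D.sq.ne_zero
  unfold Dat.t0
  rw [← comp hM (Nat.dvd_mul_right M D.n) h0, ← map_inv, ← psh_shift h0, ← psh_mulVec h0,
    ← psh_sub h0, ← psh_sub h0]
  refine psh_le h0 (fun δ => ?_) ε
  convert smul_le (jacobiSym (δ : ZMod (M * D.n)).val D.n) (hx g h δ) using 2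
  rw [smul_sub, smul_sub, Dat.rd, Tate.rd, (hGSX D).2.1 _ g h0 (Nat.dvd_mul_left _ _),
    Matrix.smul_mulVec, Matrix.mulVec_smul, smul_smul, ← Int.cast_mul, ← chi_mul, ← Units.val_mul,
    mul_comm δ, mul_inv_cancel_left]

end TTWA

open TTWA in
theorem t_TWA (hZQ : ZQ) (hGSX : GSX) : TWA := by
  refine ⟨fun k v => ?_, fun D l k M x hL hx => ?_⟩
  · have h1 : ∀ i, ‖rn k v i‖ ≤ 1 := fun i => IsUltrametricDist.norm_natCast_le_one _ _
    refine ⟨(pi_norm_le_iff_of_nonneg zero_le_one).2 h1, fun hv =>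
      (pi_norm_le_iff_of_nonneg (by positivity)).2 fun i =>
        ((hZQ k).1 _ _ (h1 i) ((norm_le_pi_norm v i).trans hv)).2.2.1 ?_⟩
    have := (hZQ k).2.1 (zq k (v i)).val
    rwa [Int.cast_natCast, Int.cast_natCast, ZMod.natCast_zmod_val] at this
  have h0 : M * D.n ≠ 0 := mul_ne_zero hL.1 D.sq.ne_zero
  have h1 : ∀ g ε, ‖D.t0 M x g ε‖ ≤ 1 := fun g ε =>
    psh_le h0 (fun δ => smul_le _ (hx.int g δ)) ε
  have two : ∀ {r : ℝ} {v : V2}, ‖v‖ ≤ r → ‖(2 : ℚ_[2]) • v‖ ≤ r := fun h => by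
    simpa using smul_le 2 h
  have h2 : ∀ g ε, ‖D.nr (D.t0 M x) g ε‖ ≤ 1 := fun g ε =>
    add_le (two (h1 _ _)) (sub_le (rd_le D g (h1 _ _)) (h1 _ _))
  refine ⟨fun g ε => ⟨h1 g ε, h2 g ε⟩, ?_, fun g h δ => ?_, fun δ => ?_⟩
  · obtain ⟨N1, a1, b1⟩ := hx.sm
    obtain ⟨N2, a2, b2⟩ := T2.sm (2 ^ k)⁻¹ (by positivity)
    obtain ⟨N3, a3, b3⟩ := exists_ON_fix {D.dl}
    refine ⟨_, (a1.inf a2).inf (a3.inf (on hL.1)), fun g hg n hn m => funext fun ε =>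
      rn_congr hZQ (h2 _ _) (h2 _ _) ?_⟩
    have e1 : D.t0 M x (g * n) = D.t0 M x g := by rw [Dat.t0, b1 g hg n hn m.1.1, Dat.t0]
    have e2 : cy M (g * n) = cy M g := by rw [map_mul, show cy M n = 1 from m.2.2, mul_one]
    have e3 : D.rd n = T2.rho n := by
      rw [Dat.rd, Tate.rd, sd, if_pos (b3 _ (Finset.mem_singleton_self _) n m.2.1), Int.cast_one,
        one_smul]
    rw [Dat.nr, Dat.nr, e1, e2, rd_mulVec, e3, add_sub_add_left_eq_sub, sub_sub_sub_cancel_right,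
      ← Matrix.mulVec_sub]
    refine rd_le D g ?_
    simpa [Matrix.sub_mulVec] using mv_le (b2 n m.1.2) (h1 D.z (ε * (cy M g)⁻¹))
  · convert two (t0_co hGSX D hL.1 hx.co g h δ) using 2
    simp only [Dat.nr, rd_mulVec, Matrix.mulVec_add, Matrix.mulVec_sub, Matrix.mulVec_smul,
      map_mul, mul_inv_rev, mul_assoc, mul_comm (cy M h)⁻¹, smul_sub]
    abel
  · have e : cy M D.z = 1 := Units.ext (by
      simpa using frob hL.1 (fun h => D.wz.prime.one_lt.ne'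
        (Nat.eq_one_of_dvd_coprimes hL.2.2 h (D.zp.mul_left _))) (Pl.isFrob_zero.2 D.zI))
    rw [Dat.nr, (t_F2X D).2.2.2.1, Matrix.neg_mulVec, Matrix.one_mulVec, e, inv_one, mul_one,
      two_smul]
    abel

end Pool.Agent.P.MP_9c97e9_nt.KT
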