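import Pool.Agent.P.MP_9c97e9_nt.KT.IfU
import Pool.Agent.P.MP_9c97e9_nt.KT.TBAS
import Pool.Agent.P.MP_9c97e9_nt.KT.TF2X

/-! The norm relations of the twisted cocycles. -/

namespace Pool.Agent.P.MP_9c97e9_nt.KT

open scoped Matrix
open MP_8b7eba_nt.R2

namespace TTWB

theorem cy_eq {M : ℕ} (h : M ≠ 0) {g : GQ} {m : ℕ} (e : ∀ z : Om, z ^ M = 1 → g z = z ^ m) :
    (cy M g : ZMod M) = m := by
  have : NeZero M := ⟨h⟩
  obtain ⟨z, hz⟩ := HasEnoughRootsOfUnity.exists_primitiveRoot Om M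
  have e := e z hz.pow_eq_one
  rw [t_BAS.2.1 M h g z hz.pow_eq_one, (hz.isOfFinOrder h).pow_eq_pow_iff_modEq,
    ← hz.eq_orderOf, ← ZMod.natCast_eq_natCast_iff, ZMod.natCast_zmod_val] at e
  exact e

theorem comp {M N : ℕ} (h : M ≠ 0) (hd : M ∣ N) (hN : N ≠ 0) (g : GQ) :
    ZMod.unitsMap hd (cy N g) = cy M g := by
  have : NeZero N := ⟨hN⟩
  refine Units.ext ?_
  rw [cy_eq h fun z hz => t_BAS.2.1 N hN g z (by obtain ⟨c, rfl⟩ := hd; rw [pow_mul, hz, one_pow]), ZMod.unitsMap_val,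
    ZMod.natCast_val]

theorem cy_I {M : ℕ} (h : M ≠ 0) {w : Pl} (hw : ¬ w.p ∣ M) {g : GQ} (hg : g ∈ w.I) :
    cy M g = 1 :=
  Units.ext (by
    simpa using cy_eq h (g := g) (m := 1) fun z hz => (Pl.root_eq hw
      (by rw [← map_pow, hz, map_one]) hz (hg.2 _ (Pl.v_root h hz).le)).trans (pow_one z).symm)

section

variable {A B C : Type} [Fintype B] [Fintype C]

open Classical in
/-- weighted sums over fibres -/
noncomputable def wf (π : B → A) (χ : B → ℚ_[2]) (f : B → V2) (a : A) : V2 :=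
  ∑ b, if π b = a then χ b • f b else 0

variable (π : B → A) (χ : B → ℚ_[2]) (f f' : B → V2) (a : A)

theorem tw_add : wf π χ (fun b => f b + f' b) a = wf π χ f a + wf π χ f' a := by
  simp only [wf, ← Finset.sum_add_distrib]
  exact Finset.sum_congr rfl fun b _ => by split_ifs <;> simp

theorem tw_sub : wf π χ (fun b => f b - f' b) a = wf π χ f a - wf π χ f' a := by
  simp only [wf, ← Finset.sum_sub_distrib]
  exact Finset.sum_congr rfl fun b _ => by split_ifs <;> simp [smul_sub]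

theorem tw_smul (c : ℚ_[2]) : wf π χ (fun b => c • f b) a = c • wf π χ f a := by
  simp only [wf, Finset.smul_sum]
  exact Finset.sum_congr rfl fun b _ => by split_ifs <;> simp [smul_comm c]

theorem tw_mv (R : Mt) : wf π χ (fun b => R *ᵥ f b) a = R *ᵥ wf π χ f a := by
  simp only [wf, Matrix.mulVec_sum]
  exact Finset.sum_congr rfl fun b _ => by split_ifs <;> simp [Matrix.mulVec_smul]

theorem tw_le {ε : ℝ} (h0 : 0 ≤ ε) (h1 : ∀ b, ‖χ b‖ ≤ 1) (h2 : ∀ b, ‖f b‖ ≤ ε) :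
    ‖wf π χ f a‖ ≤ ε :=
  IsUltrametricDist.norm_sum_le_of_forall_le_of_nonneg h0 fun b _ => by
    split_ifs
    · rw [norm_smul]
      exact (mul_le_of_le_one_left (norm_nonneg _) (h1 b)).trans (h2 b)
    · simpa using h0

theorem tw_tw (π' : C → B) (χ' : C → ℚ_[2]) (f : C → V2) :
    wf π χ (wf π' χ' f) a = wf (fun c => π (π' c)) (fun c => χ (π' c) * χ' c) f a := by
  classical
  have : ∀ b, (if π b = a then χ b • wf π' χ' f b else 0) =
      ∑ c, if π' c = b then (if π b = a then (χ b * χ' c) • f c else 0) else 0 := fun b => by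
    split_ifs
    · rw [wf, Finset.smul_sum]
      exact Finset.sum_congr rfl fun c _ => by split_ifs <;> simp [mul_smul]
    · simp
  rw [wf, wf]
  refine (Finset.sum_congr rfl fun b _ => ?_).trans ((Finset.sum_congr rfl fun b _ => this b).trans
    (Finset.sum_comm.trans (Finset.sum_congr rfl fun c _ => ?_)))
  · congr
  · rw [Finset.sum_ite_eq, if_pos (Finset.mem_univ _)]

end

theorem tw_sh {A B : Type} [Fintype B] [Group A] [Group B] (π : B →* A) {χ : B → ℚ_[2]}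
    (h : ∀ b c, χ (b * c) = χ b * χ c) (f : B → V2) (c : B) (a : A) :
    wf π χ (fun b => f (b * c⁻¹)) a = χ c • wf π χ f (a * (π c)⁻¹) := by
  rw [wf, wf, ← Equiv.sum_comp (Equiv.mulRight c), Finset.smul_sum]
  refine Finset.sum_congr rfl fun b _ => ?_
  have e : π b = a * (π c)⁻¹ ↔ π (b * c) = a := by rw [map_mul, eq_mul_inv_iff_mul_eq]
  rw [Equiv.coe_mulRight]
  by_cases k : π (b * c) = a
  · rw [if_pos k, if_pos (e.2 k), mul_inv_cancel_right, h, mul_comm, mul_smul]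
  · rw [if_neg k, if_neg (mt e.1 k), smul_zero]

theorem psh_eq (M l : ℕ) [NeZero (M * l)] (χ : (ZMod (M * l))ˣ → ℚ_[2])
    (f : (ZMod (M * l))ˣ → V2) :
    (psh M l fun d => χ d • f d) = wf (ZMod.unitsMap (Nat.dvd_mul_right M l)) χ f := by
  ext1 ε
  rw [psh, wf, finsum_eq_sum_of_fintype]
  congr! 2

theorem psh_one (M l : ℕ) [NeZero (M * l)] (f : (ZMod (M * l))ˣ → V2) :
    psh M l f = wf (ZMod.unitsMap (Nat.dvd_mul_right M l)) (fun _ => 1) f := by
  simpa using psh_eq M l (fun _ => 1) f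

theorem pz_eq {M L : ℕ} [NeZero L] (h : M ∣ L) (f : (ZMod L)ˣ → V2) :
    pz M f = wf (ZMod.unitsMap h) (fun _ => 1) f := by
  ext1 ε
  rw [pz, wf, finsum_eq_sum_of_fintype]
  refine Finset.sum_congr rfl fun d _ => ?_
  simp only [Units.ext_iff, ZMod.unitsMap_val, one_smul]

/-- the quadratic character -/
noncomputable def ch (n : ℕ) {L : ℕ} (d : (ZMod L)ˣ) : ℚ_[2] := jacobiSym (d : ZMod L).val n

theorem ch_eq {n L : ℕ} [NeZero L] (h : n ∣ L) {d : (ZMod L)ˣ} {a : ℕ} (e : (d : ZMod L) = a) :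
    ch n d = jacobiSym a n := by
  rw [ch, e, ZMod.val_natCast, jacobiSym.mod_left, jacobiSym.mod_left a]
  norm_cast
  rw [Nat.mod_mod_of_dvd _ h]

theorem ch_mul {n L : ℕ} [NeZero L] (h : n ∣ L) (d e : (ZMod L)ˣ) :
    ch n (d * e) = ch n d * ch n e := by
  rw [ch_eq h (a := (d : ZMod L).val * (e : ZMod L).val) (by simp), ch, ch, Nat.cast_mul,
    jacobiSym.mul_left, Int.cast_mul]

theorem ch_map {n L L' : ℕ} [NeZero L] [NeZero L'] (h : n ∣ L) (h' : L ∣ L') (d : (ZMod L')ˣ) :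
    ch n (ZMod.unitsMap h' d) = ch n d :=
  ch_eq h (by rw [ZMod.unitsMap_val, ZMod.natCast_val])

theorem un_val {p L : ℕ} (h : p.Coprime L) : (un (p : ZMod L) : ZMod L) = p := by
  rw [un, dif_pos ((ZMod.isUnit_iff_coprime p L).2 h), IsUnit.unit_spec]

theorem tw_eu {n M p : ℕ} [NeZero (M * n)] (hp : p.Prime) (h : p ∣ M ∨ ¬ p ∣ M * n) (a : ℤ)
    (f : (ZMod (M * n))ˣ → V2) (ε : (ZMod M)ˣ) :
    wf (ZMod.unitsMap (Nat.dvd_mul_right M n)) (ch n) (eu p a f) ε =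
      eu p (jacobiSym p n * a : ℤ) (wf (ZMod.unitsMap (Nat.dvd_mul_right M n)) (ch n) f) ε := by
  unfold eu
  rcases h with h | h
  · simp only [if_pos h, if_pos (h.mul_right n)]
  have h1 := hp.coprime_iff_not_dvd.2 h
  have h2 : ZMod.unitsMap (Nat.dvd_mul_right M n) (un (p : ZMod (M * n))) = un (p : ZMod M) :=
    Units.ext (by rw [ZMod.unitsMap_val, un_val h1, un_val (Nat.Coprime.coprime_mul_right_right h1),
      ZMod.cast_natCast (Nat.dvd_mul_right M n)])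
  have h3 := ch_eq (Nat.dvd_mul_left n M) (un_val h1)
  have h4 : ch n (un (p : ZMod (M * n)) ^ 2) = 1 := by
    rw [sq, ch_mul (Nat.dvd_mul_left n M), h3, ← Int.cast_mul, ← sq,
      jacobiSym.sq_one (by simpa using Nat.Coprime.coprime_mul_left_right h1), Int.cast_one]
  simp only [if_neg h, if_neg fun e : p ∣ M => h (e.mul_right n), tw_add, tw_sub, tw_smul, inv_pow,
    tw_sh _ (ch_mul (Nat.dvd_mul_left n M)), map_pow, h2, h3, h4, one_smul, smul_smul]
  congr 3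
  push_cast
  ring

end TTWB

open TTWB in
theorem t_TWB (hGSX : GSX) : TWB := by
  rintro D k M p x x' ⟨hM, h2, hc⟩ hp hp' ⟨m, -, hm⟩ g ε
  have hn : D.n ≠ 0 := by have := D.n4; omega
  have : NeZero (M * D.n) := ⟨mul_ne_zero hM hn⟩
  have : NeZero (M * p) := ⟨mul_ne_zero hM hp.ne_zero⟩
  have : NeZero (M * p * D.n) := ⟨mul_ne_zero (NeZero.ne _) hn⟩
  have hd : M * D.n ∣ M * p * D.n := mul_dvd_mul_right (Nat.dvd_mul_right M p) _
  have hz : cy M D.z = 1 := cy_I hM (fun e => D.wz.prime.ne_one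
    (Nat.eq_one_of_dvd_coprimes hc e (D.zp.mul_left _))) D.zI
  have t0 : ∀ (L : ℕ) [NeZero (L * D.n)] (y : GQ → (ZMod (L * D.n))ˣ → V2) (g : GQ),
      D.t0 L y g = wf (ZMod.unitsMap (Nat.dvd_mul_right L D.n)) (ch D.n) (y g) :=
    fun L _ y g => psh_eq L D.n (ch D.n) (y g)
  obtain ⟨u, hu⟩ : ∃ u, u = wf (ZMod.unitsMap (Nat.dvd_mul_right M D.n)) (ch D.n) m := ⟨_, rfl⟩
  have key : ∀ g ε, ‖psh M p (D.t0 (M * p) x' g) ε - eu p (jacobiSym p D.n * ap W15 p : ℤ)
      (D.t0 M x g) ε - (D.rd g *ᵥ u (ε * (cy M g)⁻¹) - u ε)‖ ≤ (2 ^ k)⁻¹ := fun g ε => by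
    have h := tw_le (ZMod.unitsMap (Nat.dvd_mul_right M D.n)) (ch D.n) _ ε (by positivity)
      (fun _ => Padic.norm_int_le_one _) (hm g)
    rw [tw_sub, tw_sub, tw_sub, tw_mv, tw_sh _ (ch_mul (Nat.dvd_mul_left _ _)), tw_eu hp
      (hp'.imp (fun e => e ▸ (dvd_pow_self 2 (by omega)).trans h2) fun e e' => e (by
        rw [mul_assoc, mul_comm D.n]; exact e'.mul_left _)), comp hM _ (NeZero.ne _), ← hu,
      pz_eq hd, tw_tw, ch, ← (hGSX D).2.1 _ g (NeZero.ne _) (Nat.dvd_mul_left _ _),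
      Matrix.mulVec_smul, ← Matrix.smul_mulVec] at h
    rw [t0, t0, psh_one, tw_tw]
    convert h using 5
    · simp only [← MonoidHom.comp_apply, ZMod.unitsMap_comp]
    · simp only [one_mul, mul_one, ch_map (Nat.dvd_mul_left _ _)]
    · rfl
  have e1 : psh M p (D.nr (D.t0 (M * p) x') g) ε =
      D.nr (fun g => psh M p (D.t0 (M * p) x' g)) g ε := by
    unfold Dat.nr
    simp only [psh_one, tw_add, tw_sub, tw_smul, tw_mv,
      tw_sh _ (χ := fun _ => 1) fun _ _ => (mul_one _).symm, one_smul,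
      comp hM _ (NeZero.ne (M * p))]
  have k1 := key g ε
  have k2 := (T2.rd_norm D.dl g _).1.trans (key D.z (ε * (cy M g)⁻¹))
  have k3 := key D.z ε
  have k4 := SelA.add (SelA.add k1 k1) ((SelA.add k2 ((norm_neg _).trans_le k3)))
  rw [e1]
  refine (congrArg norm ?_).trans_le k4
  rw [(t_F2X D).2.2.2.1, hz]
  unfold Dat.nr eu Dat.rd
  split_ifs <;> simp only [inv_one, mul_one, Matrix.neg_mulVec, Matrix.one_mulVec,
    Matrix.mulVec_sub, Matrix.mulVec_add, Matrix.mulVec_smul, Matrix.mulVec_neg,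
    mul_right_comm ε (cy M g)⁻¹] <;> module

end Pool.Agent.P.MP_9c97e9_nt.KT
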