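import Pool.Agent.P.MP_9c97e9_nt.KT.IfU

/-! Distribution relations of the modular units. -/

namespace Pool.Agent.P.MP_9c97e9_nt.KT

open MP_29cb78_nt.E (ee th0)
open MP_29cb78_nt.E.Th Finset Filter

namespace TUD

lemma one_sub {l : ℕ} (hl : l ≠ 0) {c : ℂ} (hc : IsPrimitiveRoot (ee c) l) (y : ℂ) :
    ∏ j ∈ range l, (1 - ee (y + j * c)) = 1 - ee (l * y) := by
  have e := congrArg (Polynomial.eval 1)
    (X_pow_sub_C_eq_prod hc (Nat.pos_of_ne_zero hl) (ee_nat_mul l y).symm)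
  simp only [Polynomial.eval_sub, Polynomial.eval_pow, Polynomial.eval_X, Polynomial.eval_C,
    Polynomial.eval_prod, one_pow] at e
  rw [e]
  exact prod_congr rfl fun j _ => by rw [ee_add, ee_nat_mul, mul_comm]

lemma prim {l : ℕ} (hl : l ≠ 0) : IsPrimitiveRoot (ee (1 / l)) l := by
  convert Complex.isPrimitiveRoot_exp l hl using 1
  rw [ee]
  congr 1
  ring

lemma prim' {l : ℕ} (hl : l ≠ 0) : IsPrimitiveRoot (ee (-(1 / l))) l := by
  rw [eq_inv_of_mul_eq_one_left (ee_neg_mul (1 / l))]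
  exact (prim hl).inv

lemma GA {l : ℕ} (hl : l ≠ 0) {c τ : ℂ} (hc : IsPrimitiveRoot (ee c) l) (h : 0 < τ.im) (y : ℂ) :
    ∏ j ∈ range l, G τ (y + j * c) = G (l * τ) (l * y) := by
  simp only [G]
  rw [← Multipliable.tprod_finsetProd fun j _ => mult h _]
  refine tprod_congr fun n => ?_
  rw [show n * (l * τ) + l * y = l * (n * τ + y) by ring, ← one_sub hl hc]
  simp only [add_assoc]

lemma im_mul {l : ℕ} (hl : l ≠ 0) {τ : ℂ} (h : 0 < τ.im) : 0 < (l * τ).im := by
  have : (0 : ℝ) < l := by positivity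
  simpa using mul_pos this h

lemma thA {l : ℕ} (hl : l ≠ 0) {τ : ℂ} (h : 0 < τ.im) (x : ℂ) :
    ∏ j ∈ range l, th0 (x + j / l) τ = th0 (l * x) (l * τ) := by
  rw [th0_eq (im_mul hl h), ← mul_sub, ← GA hl (prim hl) h, ← GA hl (prim' hl) h,
    ← prod_mul_distrib]
  refine prod_congr rfl fun j _ => ?_
  rw [th0_eq h]
  congr 2 <;> ring

lemma GB {l : ℕ} (hl : l ≠ 0) {τ : ℂ} (h : 0 < τ.im) (y : ℂ) :
    ∏ j ∈ range l, G (l * τ) (y + j * τ) = G τ y := by
  have h1 := (hasProd_prod fun j (_ : j ∈ range l) =>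
    (mult (im_mul hl h) (y + j * τ)).hasProd).tendsto_prod_nat
  have h2 := (mult h y).hasProd.tendsto_prod_nat.comp
    (tendsto_id.atTop_mul_const' (Nat.pos_of_ne_zero hl))
  refine tendsto_nhds_unique h1 (h2.congr fun N => ?_)
  show ∏ m ∈ range (N * l), _ = _
  induction N with
  | zero => simp
  | succ N ih =>
    rw [add_mul, one_mul, prod_range_add, ih, prod_range_succ]
    congr 1
    refine prod_congr rfl fun j _ => ?_
    push_cast
    congr 2
    ring

lemma thB {l : ℕ} (hl : l ≠ 0) {τ : ℂ} (h : 0 < τ.im) (x : ℂ) :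
    ∏ j ∈ range l, th0 (x + j * τ) (l * τ) = th0 x τ := by
  rw [th0_eq h, ← GB hl h x, ← GB hl h (τ - x), ← prod_range_reflect (fun j => G (l * τ) (τ - x + j * τ)),
    ← prod_mul_distrib]
  refine prod_congr rfl fun j hj => ?_
  rw [th0_eq (im_mul hl h)]
  have : j ≤ l - 1 := by
    have := mem_range.1 hj
    omega
  rw [Nat.cast_sub this, Nat.cast_sub (Nat.pos_of_ne_zero hl)]
  congr 2
  push_cast
  ring

lemma thC (x τ : ℂ) (k : ℤ) : th0 x (τ + k) = th0 x τ := by
  unfold th0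
  refine tprod_congr fun n => ?_
  rw [← ee_add_int (x + n * τ) (n * k), ← ee_add_int ((n + 1) * τ - x) ((n + 1) * k)]
  push_cast
  congr 3 <;> ring

lemma two (l : ℕ) (b : ℤ) (r₁ r₂ : ℚ) (z : ℂ) (hl : l ≠ 0) (hz : 0 < z.im) :
    ∏ j ∈ range l, uf b r₁ (r₂ + j / l) z = uf b r₁ (l * r₂) (l * z) := by
  have h15 : 0 < (15 * z).im := by simpa using hz
  have key : ∀ y : ℂ, ∏ j ∈ range l, th0 (15 * r₁ * z + (r₂ + j / l : ℚ) + y * z) (15 * z) =
      th0 (15 * r₁ * (l * z) + (l * r₂ : ℚ) + y * (l * z)) (15 * (l * z)) := fun y => by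
    have e := thA hl h15 (15 * r₁ * z + r₂ + y * z)
    push_cast
    convert e using 2
    · congr 1
      ring
    · ring
    · ring
  simp only [uf, prod_div_distrib, prod_mul_distrib, prod_const, card_range, sub_eq_add_neg,
    ← neg_mul, key, ← ee_nat_mul]
  congr 3
  ring

lemma three (l : ℕ) (b : ℤ) (r₁ r₂ : ℚ) (z : ℂ) (hl : l ≠ 0) (hz : 0 < z.im) (i : ℤ) :
    ∏ j ∈ range l, uf b (r₁ + j / l) (r₂ + 15 * i * j / l) z =
      uf (l * b) (l * r₁) (r₂ - 15 * i * r₁) ((z + i) / l) := by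
  have l0 : (l : ℂ) ≠ 0 := Nat.cast_ne_zero.2 hl
  have h15 : 0 < (15 * ((z + i) / l)).im := by
    have : (0 : ℝ) < l := by positivity
    rw [← Complex.ofReal_natCast]
    simpa [Complex.div_ofReal_im] using div_pos hz this
  have key : ∀ (y : ℤ) (u v : ℂ), u = y * z → v = l * y * ((z + i) / l) → ∏ j ∈ range l,
      th0 (15 * (r₁ + j / l : ℚ) * z + (r₂ + 15 * i * j / l : ℚ) + u) (15 * z) =
      th0 (15 * (l * r₁ : ℚ) * ((z + i) / l) + (r₂ - 15 * i * r₁ : ℚ) + v)
        (15 * ((z + i) / l)) := by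
    rintro y _ _ rfl rfl
    have e := thB hl h15 (15 * r₁ * z + r₂ + y * z)
    rw [← th0_int h15 _ (y * i)] at e
    push_cast at e ⊢
    convert e using 2
    · rw [← thC _ _ (15 * i)]
      congr 1
      · field_simp
        ring
      · push_cast
        field_simp
    · field_simp
      ring
  simp only [uf, prod_div_distrib, prod_mul_distrib, prod_const, card_range, ← ee_nat_mul]
  simp only [sub_eq_add_neg (_ + _ : ℂ)]
  rw [key b _ _ rfl rfl, key (-b) _ (-((l * b : ℤ) * ((z + i) / l))) (by push_cast; ring)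
    (by push_cast; ring), key (4 * b) _ (4 * (l * b : ℤ) * ((z + i) / l)) (by push_cast; ring)
    (by push_cast; ring), key (-(4 * b)) _ (-(4 * (l * b : ℤ) * ((z + i) / l)))
    (by push_cast; ring) (by push_cast; ring), ← ee_add_int _ (-(l * b ^ 2 * i))]
  push_cast
  congr 3
  field_simp
  ring

end TUD

theorem t_UD : UD := by
  intro l b r₁ r₂ z hl hz
  refine ⟨?_, TUD.two l b r₁ r₂ z hl hz, TUD.three l b r₁ r₂ z hl hz⟩
  have e := TUD.three l b r₁ (l * r₂) (l * z) hl (TUD.im_mul hl hz) 0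
  simp only [Int.cast_zero, mul_zero, zero_mul, zero_div, add_zero, sub_zero] at e
  rw [mul_div_cancel_left₀ _ (Nat.cast_ne_zero.2 hl)] at e
  rw [← e]
  exact prod_congr rfl fun i _ => TUD.two l b _ r₂ z hl hz

end Pool.Agent.P.MP_9c97e9_nt.KT
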