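import Pool.Agent.P.MP_9c97e9_nt.KT.IfU

/-! Proof of UHM. -/

namespace Pool.Agent.P.MP_9c97e9_nt.KT

open MP_8b7eba_nt.Mod MP_29cb78_nt.E MP_29cb78_nt.E.Th Filter Topology Asymptotics Real

namespace TUHM

/-- the product as a function of two variables -/
noncomputable def PP (p : ℂ × ℂ) : ℂ := ∏' n : ℕ, (1 + -(p.1 ^ n * p.2))

theorem G_eq (τ x : ℂ) : G τ x = PP (ee τ, ee x) := by
  simp only [G, PP, ee_add, ee_nat_mul, sub_eq_add_neg]

theorem op : IsOpen {p : ℂ × ℂ | ‖p.1‖ < 1} := isOpen_lt (by fun_prop) continuous_const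

theorem loc : HasProdLocallyUniformlyOn (fun (n : ℕ) (p : ℂ × ℂ) => 1 + -(p.1 ^ n * p.2)) PP
    {p | ‖p.1‖ < 1} := by
  apply hasProdLocallyUniformlyOn_of_forall_compact op
  intro K hs hK
  obtain ⟨C, hC⟩ := hK.exists_bound_of_continuousOn continuous_snd.continuousOn
  obtain ⟨a, ha, h⟩ := hK.exists_forall_le' (f := fun p => -‖p.1‖) (by fun_prop) (a := -1)
    fun p hp => neg_lt_neg (hs hp)
  refine ((summable_geometric_of_lt_one (le_max_right (-a) 0)
    (max_lt (by linarith) one_pos)).mul_right C).hasProdUniformlyOn_nat_one_add hK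
    (.of_forall fun n x hx => ?_) fun _ => by fun_prop
  rw [norm_neg, norm_mul, norm_pow]
  exact mul_le_mul (pow_le_pow_left₀ (norm_nonneg _) (le_max_of_le_left (by linarith [h x hx])) _)
    (hC x hx) (norm_nonneg _) (by positivity)

theorem P_cont : ContinuousOn PP {p | ‖p.1‖ < 1} :=
  loc.tendstoLocallyUniformlyOn_finsetRange.continuousOn (.of_forall fun _ => by fun_prop)

theorem P_zero (u : ℂ) : PP (0, u) = 1 - u := by
  rw [PP, tprod_eq_mulSingle 0 fun n hn => by simp [hn]]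
  simp [sub_eq_add_neg]

theorem im15 {z : ℂ} (hz : 0 < z.im) : 0 < (15 * z).im := by simpa using hz

theorem G_hol {x : ℂ → ℂ} (hx : Differentiable ℂ x) : Hol fun z => G (15 * z) (x z) := by
  have h1 := (loc.comp (t := UH) (fun z => (ee (15 * z), ee (x z)))
    (fun z hz => norm_ee_lt (im15 hz))
    (Differentiable.continuous (𝕜 := ℂ) (by fun_prop)).continuousOn
      ).tendstoLocallyUniformlyOn_finsetRange
  simp only [G_eq]
  exact h1.differentiableOn (.of_forall fun s => by fun_prop) isOpen_UH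

theorem th_hol {x : ℂ → ℂ} (hx : Differentiable ℂ x) : Hol fun z => th0 (x z) (15 * z) :=
  ((G_hol hx).mul (G_hol (x := fun z => 15 * z - x z) (by fun_prop))).congr fun _ hz =>
    th0_eq (im15 hz) _

theorem th_ne {c : ℤ} {r₁ : ℚ} (r₂ : ℚ) (hc : IsCoprime c 15) (hr : r₁.den.Coprime 15) {z w : ℂ}
    (hz : 0 < z.im) (hw : w = 15 * r₁ * z + r₂ + c * z) : th0 w (15 * z) ≠ 0 := by
  rw [Ne, th0_eq_zero (im15 hz), hw]
  rintro ⟨j, k, e⟩
  have h1 := congrArg Complex.im e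
  simp at h1
  have h2 : (15 * r₁ + c : ℝ) = 15 * k := mul_right_cancel₀ hz.ne' (by linear_combination h1)
  have h3 : (15 * r₁ + c : ℚ) = 15 * k := by exact_mod_cast h2
  have h4 : (c * r₁.den : ℤ) = 15 * (k * r₁.den - r₁.num) := by
    have := r₁.mul_den_eq_num
    exact_mod_cast (by linear_combination r₁.den * h3 - 15 * this :
      (c * r₁.den : ℚ) = 15 * (k * r₁.den - r₁.num))
  have h5 := (hc.mul_left (Nat.isCoprime_iff_coprime.2 hr)).symm.isUnit_of_dvd ⟨_, h4⟩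
  exact absurd (Int.isUnit_iff.1 h5) (by decide)

/-- exact exponential growth -/
def TH (f : ℂ → ℂ) : Prop := ∃ t : ℝ, f =Θ[atI] ex t

theorem TH.mul {f g : ℂ → ℂ} (hf : TH f) (hg : TH g) : TH fun z => f z * g z := by
  obtain ⟨s, hs⟩ := hf
  obtain ⟨t, ht⟩ := hg
  exact ⟨s + t, (hs.mul ht).trans_eventuallyEq (.of_forall fun z => (ex_add s t z).symm)⟩

theorem TH.div {f g : ℂ → ℂ} (hf : TH f) (hg : TH g) : TH fun z => f z / g z := by
  obtain ⟨s, hs⟩ := hf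
  obtain ⟨t, ht⟩ := hg
  exact ⟨s + -t, (hs.div ht).trans_eventuallyEq (.of_forall fun z => by
    rw [ex_add, ex_neg]; exact div_eq_mul_inv _ _)⟩

theorem TH.congr {f g : ℂ → ℂ} (hf : TH f) (h : ∀ z : ℂ, 0 < z.im → g z = f z) : TH g := by
  obtain ⟨s, hs⟩ := hf
  exact ⟨s, EventuallyEq.trans_isTheta ((ev_im 0).mono h) hs⟩

theorem norm_ee' (x y : ℝ) (z : ℂ) : ‖ee (x * z + y)‖ = ex x z := by
  rw [ee, Complex.norm_exp, ex]
  simp
  ring

theorem TH_ee (x y : ℝ) : TH fun z => ee (x * z + y) :=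
  ⟨x, isTheta_norm_left.1 (by simp only [norm_ee']; exact isTheta_rfl)⟩

theorem TH_lim {f : ℂ → ℂ} {c : ℂ} (hc : c ≠ 0) (h : Tendsto f atI (𝓝 c)) : TH f :=
  ⟨0, (((isEquivalent_const_iff_tendsto hc).2 h).isTheta.trans
    (isTheta_const_const hc (one_ne_zero' ℝ))).trans_eventuallyEq
      (.of_forall fun z => (ex_zero z).symm)⟩

theorem ee_lim {x : ℝ} (hx : 0 < x) (y : ℝ) : Tendsto (fun z => ee (x * z + y)) atI (𝓝 0) := by
  rw [tendsto_zero_iff_norm_tendsto_zero]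
  simp only [norm_ee']
  exact tendsto_ex hx

theorem G_lim {x : ℂ → ℂ} {u : ℂ} (h : Tendsto (fun z => ee (x z)) atI (𝓝 u)) :
    Tendsto (fun z => G z (x z)) atI (𝓝 (1 - u)) := by
  have h1 : Tendsto ee atI (𝓝 0) := by simpa using ee_lim one_pos 0
  simp only [G_eq, ← P_zero]
  exact (P_cont.continuousAt (op.mem_nhds (by simp))).tendsto.comp (h1.prodMk_nhds h)

theorem TH_base {α β : ℝ} (h0 : 0 ≤ α) (h1 : α < 1) (h : α = 0 → ee β ≠ 1) :
    TH fun z => th0 (α * z + β) z := by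
  have h2 := TH_lim (by simp) (G_lim (ee_lim (sub_pos.2 h1) (-β)))
  have h3 : TH fun z => G z (α * z + β) := by
    rcases h0.eq_or_lt with e | e
    · refine TH_lim (sub_ne_zero.2 (h e.symm).symm) (G_lim ?_)
      simp [← e]
    · exact TH_lim (by simp) (G_lim (ee_lim e β))
  refine (h3.mul h2).congr fun z hz => ?_
  rw [th0_eq hz]
  congr 2
  push_cast
  ring

theorem TH_shift (α β : ℝ) : (TH fun z => th0 (α * z + β) z) ↔
    TH fun z => th0 ((α + 1 : ℝ) * z + β) z := by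
  have h1 := TH_ee (-α) (1 / 2 - β)
  have e : ∀ z : ℂ, 0 < z.im → th0 ((α + 1 : ℝ) * z + β) z =
      ee ((-α : ℝ) * z + (1 / 2 - β : ℝ)) * th0 (α * z + β) z := fun z hz => by
    rw [show ((α + 1 : ℝ) * z + β : ℂ) = α * z + β + z by push_cast; ring, th0_tau hz,
      show ((-α : ℝ) * z + (1 / 2 - β : ℝ) : ℂ) = 1 / 2 + -(α * z + β) by push_cast; ring,
      ee_add, ee_half, neg_one_mul]
  refine ⟨fun h => (h1.mul h).congr e, fun h => (h.div h1).congr fun z hz => ?_⟩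
  rw [e z hz, mul_div_cancel_left₀ _ (ee_ne _)]

theorem TH_th {α β : ℝ} {τ : ℂ} (hτ : 0 < τ.im) {x : ℂ → ℂ} (hx : ∀ z, x z = α * z + β)
    (h : th0 (x τ) τ ≠ 0) : TH fun z => th0 (x z) z := by
  have k : ∀ n : ℤ, TH fun z => th0 ((Int.fract α + n : ℝ) * z + β) z := by
    intro n
    induction n using Int.induction_on with
    | zero =>
      simp only [Int.cast_zero, add_zero]
      refine TH_base (Int.fract_nonneg _) (Int.fract_lt_one _) fun e e' => h ?_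
      obtain ⟨j, hj⟩ := ee_eq_one.1 e'
      refine (th0_eq_zero hτ).2 ⟨j, ⌊α⌋, ?_⟩
      rw [hx, hj, add_comm, ← Complex.ofReal_intCast ⌊α⌋, ← sub_eq_zero.1 e]
    | succ n ih => simpa only [Int.cast_add, Int.cast_one, add_assoc] using (TH_shift _ _).1 ih
    | pred n ih =>
      refine (TH_shift _ _).2 ?_
      simpa only [Int.cast_sub, Int.cast_one, add_assoc, sub_add_cancel] using ih
  simpa only [hx, Int.fract_add_floor] using k ⌊α⌋

theorem TH_uF (s₁ s₂ r₁ r₂ : ℝ) {τ : ℂ} (hτ : 0 < τ.im) (h : uF s₁ s₂ r₁ r₂ τ ≠ 0) :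
    TH (uF s₁ s₂ r₁ r₂) := by
  simp only [uF, ne_eq, div_eq_zero_iff, mul_eq_zero, not_or] at h
  obtain ⟨⟨-, h1, h2⟩, h3, h4⟩ := h
  have k0 : TH fun z => ee (-15 * s₁ * (s₁ * z + s₂)) :=
    (TH_ee (-15 * s₁ ^ 2) (-15 * s₁ * s₂)).congr fun z _ => congrArg ee (by push_cast; ring)
  have k1 := TH_th (α := r₁ + s₁) (β := r₂ + s₂) (x := fun z => r₁ * z + r₂ + (s₁ * z + s₂)) hτ
    (fun z => by push_cast; ring) h1
  have k2 := TH_th (α := r₁ - s₁) (β := r₂ - s₂) (x := fun z => r₁ * z + r₂ - (s₁ * z + s₂)) hτ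
    (fun z => by push_cast; ring) h2
  have k3 := TH_th (α := r₁ + 4 * s₁) (β := r₂ + 4 * s₂)
    (x := fun z => r₁ * z + r₂ + 4 * (s₁ * z + s₂)) hτ (fun z => by push_cast; ring) h3
  have k4 := TH_th (α := r₁ - 4 * s₁) (β := r₂ - 4 * s₂)
    (x := fun z => r₁ * z + r₂ - 4 * (s₁ * z + s₂)) hτ (fun z => by push_cast; ring) h4
  exact (k0.mul (k1.mul k2)).div (k3.mul k4)

end TUHM

open TUHM M2

theorem t_UHM (hUT : UT) : UHM := by
  intro b r₁ r₂ hb hr
  have h4 : IsCoprime (4 * b) 15 := IsCoprime.mul_left ⟨4, -1, by norm_num⟩ hb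
  have n3 : ∀ z : ℂ, 0 < z.im → th0 (15 * r₁ * z + r₂ + 4 * b * z) (15 * z) *
      th0 (15 * r₁ * z + r₂ - 4 * b * z) (15 * z) ≠ 0 := fun z hz =>
    mul_ne_zero (th_ne r₂ h4 hr hz (by push_cast; ring))
      (th_ne r₂ h4.neg_left hr hz (by push_cast; ring))
  have hn : ∀ z : ℂ, 0 < z.im → uf b r₁ r₂ z ≠ 0 := fun z hz =>
    div_ne_zero (mul_ne_zero (ee_ne _) (mul_ne_zero (th_ne r₂ hb hr hz rfl)
      (th_ne r₂ hb.neg_left hr hz (by push_cast; ring)))) (n3 z hz)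
  refine ⟨DifferentiableOn.fun_div (DifferentiableOn.fun_mul (by fun_prop)
    ((th_hol (by fun_prop)).fun_mul (th_hol (by fun_prop))))
    ((th_hol (by fun_prop)).fun_mul (th_hol (by fun_prop))) n3, hn, fun g hg => ?_⟩
  have hd : 0 < (M2.mk 15 0 0 1).det := by decide
  obtain ⟨h, A, B, C, hh, hA, hC, -, -, e⟩ :=
    exists_upper (g := ⟨15, 0, 0, 1⟩ * g) (by rw [det_mul, hg]; decide)
  have hu : 0 < (M2.mk A B 0 C).det := by simp [det]; positivity
  have k : ∀ z : ℂ, 0 < z.im → uf b r₁ r₂ (g.act z) =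
      uF (b / 15 * h.a : ℝ) (b / 15 * h.b : ℝ) (r₁ * h.a + r₂ * h.c : ℝ) (r₁ * h.b + r₂ * h.d : ℝ)
        ((M2.mk A B 0 C).act z) := fun z hz => by
    have e1 : 15 * g.act z = h.act ((M2.mk A B 0 C).act z) := by
      rw [← act_mul (by omega) hu hz, ← e, act_mul hd.ne' (by omega) hz]
      simp [act, mob]
    rw [hUT.1, e1, hUT.2.1 _ _ _ _ _ _ hh (im_act_pos hu hz)]
    simp
  have hI : 0 < Complex.I.im := by simp
  obtain ⟨t, ht⟩ := TH_uF _ _ _ _ (im_act_pos hu hI)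
    (k _ hI ▸ hn _ (im_act_pos (by omega) hI))
  refine ⟨t * (A / C), (ht.1.comp_tendsto (tendsto_upper hA hC)).congr'
    ((ev_im 0).mono fun z hz => (k z hz).symm) (.of_forall fun z => ?_)⟩
  simp only [Function.comp, ex, im_upper]
  congr 1
  ring

end Pool.Agent.P.MP_9c97e9_nt.KT
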