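import Pool.Agent.P.MP_9c97e9_nt.KT.IfU

/-! Periodicity and expansions of the units. -/

namespace Pool.Agent.P.MP_9c97e9_nt.KT

open MP_29cb78_nt.E (ee th0)
open MP_29cb78_nt.E.Th (ee_add_int)

namespace TUQ

lemma ee_eq {x y : ℂ} (k : ℤ) (h : x = y + k) : ee x = ee y := by rw [h, ee_add_int]

lemma th_eq {x y τ τ' : ℂ} (k m : ℤ) (h : x = y + k) (h' : τ = τ' + m) : th0 x τ = th0 y τ' := by
  refine tprod_congr fun n => ?_
  rw [ee_eq (y := y + n * τ') (k + n * m) (by rw [h, h']; push_cast; ring),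
    ee_eq (x := (n + 1) * τ - x) (y := (n + 1) * τ' - y) ((n + 1) * m - k)
      (by rw [h, h']; push_cast; ring)]

end TUQ

open TUQ

theorem t_UQ (hUT : UT) (hUQ0 : UQ0) : UQ := by
  intro M b i₁ i₂ hM h15 hb
  have h0 : (M : ℂ) ≠ 0 := Nat.cast_ne_zero.2 hM
  refine ⟨fun z => ?_, fun m => funext fun z => ?_, ?_⟩
  · unfold uf
    congr 2
    · exact ee_eq (-b ^ 2) (by push_cast; ring)
    · congr 1
      · exact th_eq b 15 (by push_cast; ring) (by push_cast; ring)
      · exact th_eq (-b) 15 (by push_cast; ring) (by push_cast; ring)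
    · exact th_eq (4 * b) 15 (by push_cast; ring) (by push_cast; ring)
    · exact th_eq (-4 * b) 15 (by push_cast; ring) (by push_cast; ring)
  · unfold uf
    congr 2
    · congr 1 <;> exact th_eq m 0 (by push_cast; field_simp; ring) (by simp)
    all_goals exact th_eq m 0 (by push_cast; field_simp; ring) (by simp)
  · obtain ⟨E, h1, h2⟩ := hUQ0 M b i₁ hM h15 hb
    have e : (E.toNat : ℤ) - (-E).toNat = E := by omega
    obtain ⟨A, h3, h4⟩ := h2 i₂ _ _ e
    exact ⟨_, _, A, h3, by rwa [e], h4⟩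

end Pool.Agent.P.MP_9c97e9_nt.KT
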