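import Pool.Agent.P.MP_9c97e9_nt.KT.IfU

/-! Proof of UQ0. -/

namespace Pool.Agent.P.MP_9c97e9_nt.KT

open MP_8b7eba_nt.R1 (Zb QE ze)
open MP_8b7eba_nt.Mod (qq)
open MP_29cb78_nt.E (ee th0)
open PowerSeries

namespace TUQ0

lemma nd {M : ℕ} {b : ℤ} (hM : M.Coprime 15) (hb : IsCoprime b 15) (i c : ℤ)
    (hc : IsCoprime c 15) : ¬ (15 * M : ℤ) ∣ 15 * i + c * M * b := fun h => by
  have h1 : (15 : ℤ) ∣ c * M * b := (dvd_add_right (dvd_mul_right _ _)).1 ((dvd_mul_right _ _).trans h)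
  have h2 : IsCoprime (c * M * b) 15 :=
    (hc.mul_left (by exact_mod_cast Nat.isCoprime_iff_coprime.2 hM)).mul_left hb
  have := h2.isUnit_of_dvd' h1 dvd_rfl
  rw [Int.isUnit_iff] at this
  omega

lemma inv {M : ℕ} {a B : ℤ} {P : Zb⟦X⟧} (hB : ¬ (15 * M : ℤ) ∣ B)
    (h : ∀ T, X ^ T ∣ P - pS M a B T) : ∃ Q, P * Q = 1 := by
  have h1 := h 1
  rw [pow_one, X_dvd_iff, map_sub, sub_eq_zero, pS] at h1
  refine IsUnit.exists_right_inv (isUnit_iff_constantCoeff.2 ?_)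
  simp [h1, hB]

lemma cst (M : ℕ) (a J : ℤ) :
    (((-1) ^ J.natAbs * ze M (a * J) : Zb) : ℂ) = (-ee (a / M)) ^ J := by
  have h1 : ((-1 : ℂ)) ^ J.natAbs = (-1) ^ J := by
    rcases Int.even_or_odd J with h | h
    · rw [h.neg_one_zpow, (Int.natAbs_even.2 h).neg_one_pow]
    · rw [h.neg_one_zpow, (Int.natAbs_odd.2 h).neg_one_pow]
  rw [neg_eq_neg_one_mul (ee _), mul_zpow, ← h1, ee, ← Complex.exp_int_mul]
  push_cast
  rw [MP_8b7eba_nt.R1.coe_ze, qq]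
  congr 2
  push_cast
  ring

end TUQ0

open TUQ0 in
theorem t_UQ0 (hQEP : QEP) (hTQ : TQ) : UQ0 := by
  intro M b i hM hc hb
  have c4 : IsCoprime (4 : ℤ) 15 := ⟨4, -1, by norm_num⟩
  have n1 : ¬ (15 * M : ℤ) ∣ 15 * i + M * b := by simpa using nd hc hb i 1 isCoprime_one_left
  have n2 : ¬ (15 * M : ℤ) ∣ 15 * i - M * b := by
    simpa [sub_eq_add_neg] using nd hc hb i (-1) isCoprime_one_left.neg_left
  have n3 := nd hc hb i 4 c4
  have n4 : ¬ (15 * M : ℤ) ∣ 15 * i - 4 * M * b := by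
    simpa [sub_eq_add_neg] using nd hc hb i (-4) c4.neg_left
  obtain ⟨E1, ⟨d1, e1⟩, h1⟩ := hTQ M _ hM n1
  obtain ⟨E2, ⟨d2, e2⟩, h2⟩ := hTQ M _ hM n2
  obtain ⟨E3, ⟨d3, e3⟩, h3⟩ := hTQ M _ hM n3
  obtain ⟨E4, ⟨d4, e4⟩, h4⟩ := hTQ M _ hM n4
  have hJ : JJ M b i = (15 * i + 4 * M * b) / (15 * M) + (15 * i - 4 * M * b) / (15 * M) -
    (15 * i + M * b) / (15 * M) - (15 * i - M * b) / (15 * M) := rfl
  generalize (15 * i + M * b) / (15 * M : ℤ) = J1 at *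
  generalize (15 * i - M * b) / (15 * M : ℤ) = J2 at *
  generalize (15 * i + 4 * M * b) / (15 * M : ℤ) = J3 at *
  generalize (15 * i - 4 * M * b) / (15 * M : ℤ) = J4 at *
  refine ⟨-M * b ^ 2 + E1 + E2 - E3 - E4,
    ⟨-b ^ 2 + d1 + d2 - d3 - d4 - b * J1 + b * J2 + 4 * b * J3 - 4 * b * J4, ?_⟩,
    fun a N e he => ?_⟩
  · rw [hJ]
    linear_combination e1 + e2 - e3 - e4
  obtain ⟨P1, G1, q1, s1, g1⟩ := h1 a
  obtain ⟨P2, G2, q2, s2, g2⟩ := h2 a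
  obtain ⟨P3, G3, q3, s3, g3⟩ := h3 a
  obtain ⟨P4, G4, q4, s4, g4⟩ := h4 a
  obtain ⟨Q3, u3⟩ := inv n3 s3
  obtain ⟨Q4, u4⟩ := inv n4 s4
  have hp := Nat.pos_of_ne_zero hM
  have hM' : (M : ℂ) ≠ 0 := Nat.cast_ne_zero.2 hM
  have q := ((((q1.mul hp q2).mul hp ((hQEP M hM).2 P3 Q3 G3 q3 u3 fun z hz => (g3 z hz).1)).mul hp
    ((hQEP M hM).2 P4 Q4 G4 q4 u4 fun z hz => (g4 z hz).1)).smul
    ((-1) ^ (JJ M b i).natAbs * ze M (a * JJ M b i))).shift e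
  refine ⟨X ^ e * (C ((-1) ^ (JJ M b i).natAbs * ze M (a * JJ M b i)) * (P1 * P2 * Q3 * Q4)),
    fun z hz => ?_, fun T => ?_⟩
  · have hq := q z hz
    obtain ⟨z1, y1⟩ := g1 z hz
    obtain ⟨z2, y2⟩ := g2 z hz
    obtain ⟨z3, y3⟩ := g3 z hz
    obtain ⟨z4, y4⟩ := g4 z hz
    have ht : ee (z / M) ≠ 0 := Complex.exp_ne_zero _
    have hs : -ee (a / M) ≠ 0 := neg_ne_zero.2 (Complex.exp_ne_zero _)
    have hb : ee (-b ^ 2 * z) = ee (z / M) ^ (-M * b ^ 2 : ℤ) := by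
      rw [ee, ee, ← Complex.exp_int_mul]
      congr 1
      push_cast
      field_simp
    have a1 : (15 * (i / M : ℚ) * z + (a / M : ℚ) + b * z : ℂ) =
        (((15 * i + M * b : ℤ) : ℂ) * z + a) / M := by push_cast; field_simp; ring
    have a2 : (15 * (i / M : ℚ) * z + (a / M : ℚ) - b * z : ℂ) =
        (((15 * i - M * b : ℤ) : ℂ) * z + a) / M := by push_cast; field_simp; ring
    have a3 : (15 * (i / M : ℚ) * z + (a / M : ℚ) + 4 * b * z : ℂ) =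
        (((15 * i + 4 * M * b : ℤ) : ℂ) * z + a) / M := by push_cast; field_simp; ring
    have a4 : (15 * (i / M : ℚ) * z + (a / M : ℚ) - 4 * b * z : ℂ) =
        (((15 * i - 4 * M * b : ℤ) : ℂ) * z + a) / M := by push_cast; field_simp; ring
    have hE : qq (z / M) ^ (0 + 0 + 0 + 0 + e) =
        ee (z / M) ^ (-M * b ^ 2 + E1 + E2 - E3 - E4 : ℤ) * qq (z / M) ^ N := by
      change ee (z / M) ^ _ = _ * ee (z / M) ^ N
      rw [← he, ← zpow_natCast, ← zpow_natCast, ← zpow_add₀ ht]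
      congr 1
      push_cast
      ring
    rw [hE, ← mul_assoc _ _ (qq (z / M) ^ N)] at hq
    suffices uf b (i / M) (a / M) z = (((-1) ^ (JJ M b i).natAbs * ze M (a * JJ M b i) : Zb) : ℂ) *
        (G1 z * G2 z * (G3 z)⁻¹ * (G4 z)⁻¹) * ee (z / M) ^ (-M * b ^ 2 + E1 + E2 - E3 - E4 : ℤ) by
      rw [this]
      exact hq
    rw [uf, a1, a2, a3, a4, (eq_div_iff (zpow_ne_zero _ hs)).2 y1,
      (eq_div_iff (zpow_ne_zero _ hs)).2 y2, (eq_div_iff (zpow_ne_zero _ hs)).2 y3,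
      (eq_div_iff (zpow_ne_zero _ hs)).2 y4, hb, TUQ0.cst, hJ]
    simp only [zpow_add₀ ht, zpow_sub₀ ht, zpow_add₀ hs, zpow_sub₀ hs]
    field_simp
  · rw [← Ideal.mem_span_singleton, ← Ideal.Quotient.mk_eq_mk_iff_sub_mem]
    have r : ∀ {P S : Zb⟦X⟧}, X ^ T ∣ P - S → Ideal.Quotient.mk (Ideal.span {X ^ T}) S =
        Ideal.Quotient.mk (Ideal.span {X ^ T}) P := fun h =>
      ((Ideal.Quotient.mk_eq_mk_iff_sub_mem _ _).2 (Ideal.mem_span_singleton.2 h)).symm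
    rw [map_mul, map_mul _ (pS _ _ _ _), r (s3 T), r (s4 T), map_mul _ _ (pS _ _ _ _ * _),
      map_mul _ (pS _ _ _ _), r (s1 T), r (s2 T), ← map_mul, ← map_mul, ← map_mul, ← map_mul]
    congr 1
    linear_combination (X ^ e * C ((-1) ^ (JJ M b i).natAbs * ze M (a * JJ M b i)) * P1 * P2) *
      (P4 * Q4 * u3 + u4)

end Pool.Agent.P.MP_9c97e9_nt.KT
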