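import Pool.Agent.P.MP_9c97e9_nt.KT.IfU

/-! Expansions of the units at infinity. -/

namespace Pool.Agent.P.MP_9c97e9_nt.KT

open MP_8b7eba_nt.R2
open MP_8b7eba_nt.R1 (Zb QE ze ze_add ze_pow ze_pow_self)
open PowerSeries Finset

namespace TUQF

theorem ze_congr {M : ℕ} (hM : M ≠ 0) {a a' : ℤ} (h : (a : ZMod M) = a') : ze M a = ze M a' := by
  obtain ⟨c, hc⟩ := (ZMod.intCast_eq_intCast_iff_dvd_sub _ _ _).1 h
  rw [eq_add_of_sub_eq hc, ze_add, ← ze_pow, ze_pow_self hM, one_mul]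

theorem map_pS (f : Zb →+* Zb) {M : ℕ} {a a' : ℤ} (h : f (ze M a) = ze M a')
    (h' : f (ze M (-a)) = ze M (-a')) (B : ℤ) (T : ℕ) : map f (pS M a B T) = pS M a' B T := by
  simp only [pS, map_prod, map_mul, apply_ite (map f), map_sub, map_one, map_C, map_pow, map_X,
    h, h']

theorem unit_pS {M : ℕ} (a : ℤ) {B : ℤ} (h : ¬ (15 : ℤ) ∣ B) (T : ℕ) : IsUnit (pS M a B T) := by
  rw [isUnit_iff_constantCoeff, pS, map_prod]
  refine IsUnit.of_mul_eq_one 1 ((mul_one _).trans (prod_eq_one fun c _ => ?_))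
  rcases Nat.eq_zero_or_pos c with rfl | hc
  · rw [if_neg fun e => h (by simpa using (dvd_mul_right _ _).trans e),
      if_neg fun e => h (by simpa using (dvd_mul_right _ _).trans e), mul_one, map_one]
  · split_ifs <;> simp [hc.ne']

end TUQF

open TUQF in
theorem t_UQF (hQSUB : QSUB) (hUT : UT) (hUQ0 : UQ0) : UQF := by
  intro M hM h15
  have : NeZero M := ⟨hM⟩
  have hb : ∀ b : (ZMod 15)ˣ, IsCoprime ((b : ZMod 15).val : ℤ) 15 := fun b =>
    Nat.isCoprime_iff_coprime.2 (ZMod.val_coe_unit_coprime b)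
  choose E _ hE using fun (b : (ZMod 15)ˣ) (i : ZMod M) => hUQ0 M _ i.val hM h15 (hb b)
  obtain ⟨N, hN⟩ : ∃ N : ℕ, ∀ b i, ((E b i + N).toNat : ℤ) - N = E b i := by
    refine ⟨univ.sup fun p : (ZMod 15)ˣ × ZMod M => (-E p.1 p.2).toNat, fun b i => ?_⟩
    have : (-E b i).toNat ≤ _ :=
      le_sup (f := fun p : (ZMod 15)ˣ × ZMod M => (-E p.1 p.2).toNat) (mem_univ (b, i))
    omega
  choose A hA hA' using fun b (v : VZ M) => hE b v.1 v.2.val N _ (hN b v.1)
  refine ⟨N, A, fun b v => by simpa only [Int.cast_natCast, ug] using hA b v, fun σ b v => ?_⟩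
  obtain ⟨f, -, h1, h2⟩ := hQSUB.2.2 σ
  have h3 : ∀ j : ℤ, f (ze M (v.2.val * j)) = ze M ((v.2 * cy M σ).val * j) := fun j =>
    (h2 M _ hM).trans (ze_congr hM (by push_cast; simp only [ZMod.natCast_zmod_val]; ring))
  have h4 := map_pS f (by simpa only [mul_one] using h3 1) (by simpa only [mul_neg_one] using h3 (-1))
  have h5 : ¬ (15 : ℤ) ∣ 4 * M * (b : ZMod 15).val := fun e => by
    have := (((show IsCoprime (4 : ℤ) 15 by norm_num).mul_left
      (Nat.isCoprime_iff_coprime.2 h15)).mul_left (hb b)).isUnit_of_dvd' e dvd_rfl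
    rw [Int.isUnit_iff] at this
    omega
  rw [h1]
  ext k
  have h6 := map_dvd (map f) (hA' b v (k + 1))
  simp only [map_sub, map_mul, map_pow, map_X, map_C, map_neg, map_one, h3, h4] at h6
  have h7 := hA' b (v.1, v.2 * cy M σ) (k + 1)
  simp only [map_mul, map_pow, map_neg, map_one] at h7
  have h8 := dvd_sub h7 h6
  rw [sub_sub_sub_cancel_right, ← sub_mul, ((unit_pS _ (fun e => h5 ((dvd_add_right
    (dvd_mul_right _ _)).1 e)) _).mul (unit_pS _ (fun e => h5 ((dvd_sub_right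
      (dvd_mul_right _ _)).1 e)) _)).dvd_mul_right] at h8
  exact congrArg _ (sub_eq_zero.1 ((map_sub _ _ _).symm.trans
    (X_pow_dvd_iff.1 h8 k k.lt_succ_self)))

end Pool.Agent.P.MP_9c97e9_nt.KT
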