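import Pool.Agent.P.MP_9c97e9_nt.KT.IfU

/-! The 2-adic values of the units and of their Hecke translates. -/

namespace Pool.Agent.P.MP_9c97e9_nt.KT

open scoped NNReal Matrix
open MP_8b7eba_nt.R2
open MP_8b7eba_nt.Mod (M2 G0 UH xx yy nP nM an)
open MP_8b7eba_nt.R1 (IntR IntM Zb QE ze Int_mem Int_det Int_exists ze_zero ze_mul_neg ze_pow)
open PowerSeries

namespace TVALX

noncomputable section

variable {M l N : ℕ}

theorem cop (b : (ZMod 15)ˣ) : IsCoprime ((b : ZMod 15).val : ℤ) 15 :=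
  Nat.isCoprime_iff_coprime.2 (ZMod.val_coe_unit_coprime b)

theorem norm (hUT : UT) (hM : M ≠ 0) {b : ℤ} (hb : IsCoprime b 15) (i₁ i₂ : ℤ) :
    ∃ (β : (ZMod 15)ˣ) (v : VZ M), ∀ z : ℂ, 0 < z.im → uf b (i₁ / M) (i₂ / M) z = ug M β v z := by
  have := NeZero.mk hM
  have h0 : (M : ℚ) ≠ 0 := Nat.cast_ne_zero.2 hM
  have key : ∀ i : ℤ, (i / M : ℚ) = ((i : ZMod M).val : ℚ) / M + (i / M : ℤ) := fun i => by
    have h1 : (((i : ZMod M).val : ℤ) : ℚ) + (i / M : ℤ) * M = i := by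
      rw [ZMod.val_intCast]
      exact_mod_cast Int.emod_add_ediv_mul i M
    rw [Int.cast_natCast] at h1
    rw [div_add' _ _ _ h0, h1]
  refine ⟨ZMod.unitOfIsCoprime (m := 15) b hb, (i₁, i₂), fun z hz => ?_⟩
  refine Eq.trans ?_ ((hUT.2.2 _ _ _ z hz).1 (i₁ / M) (i₂ / M) (b / 15))
  rw [← key, ← key, ZMod.coe_unitOfIsCoprime, ZMod.val_intCast]
  congr 1
  exact (Int.emod_add_mul_ediv b 15).symm

theorem ug_act (hUT : UT) (hM : M ≠ 0) {γ : M2} (hγ : G0 γ) (b : (ZMod 15)ˣ) (v : VZ M) :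
    ∃ (β : (ZMod 15)ˣ) (v' : VZ M), ∀ z : ℂ, 0 < z.im → ug M b v (γ.act z) = ug M β v' z := by
  obtain ⟨c, hc⟩ := hγ.2
  have h1 : IsCoprime γ.a 15 := ⟨γ.d, -(γ.b * c), by
    have := hγ.1
    rw [M2.det, hc] at this
    linear_combination this⟩
  obtain ⟨β, v', h⟩ := norm hUT hM ((cop b).mul_left h1) (v.1.val * γ.a + v.2.val * c)
    (15 * v.1.val * γ.b + v.2.val * γ.d)
  refine ⟨β, v', fun z hz => ?_⟩
  rw [← h z hz, ug, (hUT.2.2 _ _ _ z hz).2 γ hγ, hc]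
  congr 1 <;> push_cast <;> ring

theorem red (hUT : UT) (hM : M ≠ 0) {m : ℕ} (hm : 0 < m) (h15 : m.Coprime 15) {B : M2}
    (hB : B.det = m) (hc : 15 ∣ B.c) (b : (ZMod 15)ˣ) (v : VZ M) :
    ∃ (β : (ZMod 15)ˣ) (v' : VZ M), ∃ t ∈ IntR m, ∀ z : ℂ, 0 < z.im →
      ug M b v (B.act z) = ug M β v' ((IntM t).act z) := by
  obtain ⟨t, ht, γ, hγ, rfl⟩ := Int_exists hm h15 hB hc
  obtain ⟨β, v', h⟩ := ug_act hUT hM hγ b v
  have hd : 0 < (IntM t).det := by rw [Int_det hm ht]; omega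
  exact ⟨β, v', t, ht, fun z hz => by
    rw [M2.act_mul hγ.det_pos.ne' hd hz, h _ (M2.im_act_pos hd hz)]⟩

/-- the series of the translates -/
def Sr (M N K d e : ℕ) (he : e ≠ 0) (j : ℤ) (A : Zb⟦X⟧) : Zb⟦X⟧ :=
  X ^ K * (C (ze (d * M) (-(N * j))) * expand e he (rescale (ze (d * M) j) A))

theorem qe_Sr (hQ : QSUB) (hM : M ≠ 0) (hl : l ≠ 0) {a d e : ℕ} (he : e ≠ 0) (ha : a ≠ 0)
    (hd : d ≠ 0) (h1 : a * l = e * d) (h2 : e ≤ l ^ 2) (j : ℤ) {A : Zb⟦X⟧} {G : ℂ → ℂ}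
    (h : QE M N A G) : QE (M * l) (l ^ 2 * N) (Sr M N (l ^ 2 * N - e * N) d e he j A)
      fun z => G ((M2.mk a j 0 d).act z) := by
  have := (hQ.1 M N a d e (M * l) j A G he hM ha hd (mul_ne_zero hM hl)
    (by rw [← mul_assoc e, ← h1]; ring) h).shift (l ^ 2 * N - e * N)
  rw [Nat.add_sub_cancel' (Nat.mul_le_mul_right N h2)] at this
  exact this.congr fun z _ => by simp [M2.act, MP_8b7eba_nt.Mod.mob]

theorem map_Sr (f : Zb →+* Zb) {K d e : ℕ} (he : e ≠ 0) (c : ℤ)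
    (hf : ∀ a, f (ze (d * M) a) = ze (d * M) (a * c)) (j : ℤ) (A : Zb⟦X⟧) :
    map f (Sr M N K d e he j A) = Sr M N K d e he (j * c) (map f A) := by
  rw [Sr, Sr, map_mul, map_mul, map_pow, map_X, map_C, map_expand, ← rescale_map, hf, hf, neg_mul,
    mul_assoc]

theorem val_Sr (hE : EV2) {t v : ℂ_[2]} (h0 : t ≠ 0) (ht : ‖t‖ < 1) {K d e : ℕ} (he : e ≠ 0) {j : ℤ}
    {A : Zb⟦X⟧} (h : v * t ^ (e * N + K) = ev2 (Sr M N K d e he j A) t) :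
    v * (i2 (zo (ze (d * M) j)) * t ^ e) ^ N = ev2 A (i2 (zo (ze (d * M) j)) * t ^ e) := by
  obtain ⟨⟨φ, hφ⟩, h1, h2, h3⟩ := hE.2 t ht
  obtain ⟨f, hf⟩ := hE.1
  have h4 : i2 (zo (ze (d * M) j)) ^ N * i2 (zo (ze (d * M) (-(N * j)))) = 1 := by
    rw [← (hf _).1, ← (hf _).1, ← map_pow, ← map_pow, ← map_mul, ← map_mul, ze_pow, ze_mul_neg,
      map_one, map_one]
  rw [← hφ, Sr, map_mul, map_mul, map_pow, hφ, hφ, hφ, h1, h2, (h3 _).2.2.2.1,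
    ((hE.2 _ (by rw [norm_pow]; exact pow_lt_one₀ (norm_nonneg _) ht he)).2.2.2 A).2.2.2.2.1,
    pow_add, ← mul_assoc, mul_comm] at h
  have h5 := mul_left_cancel₀ (pow_ne_zero K h0) h
  rw [mul_pow, ← pow_mul, mul_left_comm, h5, ← mul_assoc, h4, one_mul]

/-- the exponents -/
def ex (l : ℕ) (s : ℕ × ℕ × ℕ) : ℕ := s.1 * (l / s.2.2)

theorem ex_spec (hl : l ≠ 0) {s : ℕ × ℕ × ℕ} (hs : s ∈ IntR 1 ∪ IntR l) :
    ex l s ≠ 0 ∧ s.1 ≠ 0 ∧ s.2.2 ≠ 0 ∧ s.1 * l = ex l s * s.2.2 ∧ ex l s ≤ l ^ 2 := by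
  have h1 : s.1 * s.2.2 ∣ l := by
    rcases Finset.mem_union.1 hs with h | h
    · rw [((Int_mem one_pos).1 h).1]
      exact one_dvd l
    · rw [((Int_mem (Nat.pos_of_ne_zero hl)).1 h).1]
  have h2 := (Dvd.intro _ rfl).trans h1
  have h3 := (Dvd.intro_left _ rfl).trans h1
  have h4 := ne_zero_of_dvd_ne_zero hl h2
  have h5 := ne_zero_of_dvd_ne_zero hl h3
  refine ⟨mul_ne_zero h4 (Nat.div_pos (Nat.le_of_dvd (Nat.pos_of_ne_zero hl) h3)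
    (Nat.pos_of_ne_zero h5)).ne', h4, h5, by rw [ex, mul_assoc, Nat.div_mul_cancel h3], ?_⟩
  rw [pow_two]
  exact Nat.mul_le_mul (Nat.le_of_dvd (Nat.pos_of_ne_zero hl) h2) (Nat.div_le_self _ _)

theorem level (hl : l ≠ 0) (h15 : l.Coprime 15) {s : ℕ × ℕ × ℕ} (hs : s ∈ IntR 1 ∪ IntR l) :
    ∃ m, 0 < m ∧ m.Coprime 15 ∧ s ∈ IntR m ∧ IntR m ⊆ IntR 1 ∪ IntR l := by
  rcases Finset.mem_union.1 hs with h | h
  · exact ⟨1, one_pos, by norm_num, h, Finset.subset_union_left⟩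
  · exact ⟨l, Nat.pos_of_ne_zero hl, h15, h, Finset.subset_union_right⟩

theorem family (hQ : QSUB) (hUT : UT) (hUHM : UHM) (hM : M ≠ 0) (hM15 : M.Coprime 15) (hl : l ≠ 0)
    (h15 : l.Coprime 15) {A : (ZMod 15)ˣ → VZ M → Zb⟦X⟧} (hA : ∀ b v, QE M N (A b v) (ug M b v))
    (hC : ∀ σ b v, Cj σ (A b v) (A b (v.1, v.2 * cy M σ))) :
    QF (M * l) (l ^ 2 * N) (I := ((ZMod 15)ˣ × VZ M) × ↥(IntR 1 ∪ IntR l))
      (fun i z => ug M i.1.1 i.1.2 ((IntM i.2).act z)) fun i =>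
        Sr M N (l ^ 2 * N - ex l i.2 * N) i.2.1.2.2 (ex l i.2) (ex_spec hl i.2.2).1 i.2.1.2.1
          (A i.1.1 i.1.2) := by
  have := NeZero.mk hM
  have hU := fun (b : (ZMod 15)ˣ) (v : VZ M) => hUHM _ (v.1.val / M) (v.2.val / M) (cop b) (by
    have h1 := Rat.den_dvd v.1.val M
    rw [Rat.divInt_eq_div, Int.cast_natCast, Int.cast_natCast, Int.natCast_dvd_natCast] at h1
    exact hM15.of_dvd_left h1)
  have hd : ∀ s : ↥(IntR 1 ∪ IntR l), 0 < (IntM s).det := fun s => by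
    obtain ⟨m, h1, -, h2, -⟩ := level hl h15 s.2
    rw [Int_det h1 h2]
    omega
  have hq : ∀ (b : (ZMod 15)ˣ) (v : VZ M) (s : ↥(IntR 1 ∪ IntR l)) (j : ℤ), QE (M * l) (l ^ 2 * N)
      (Sr M N (l ^ 2 * N - ex l s * N) s.1.2.2 (ex l s) (ex_spec hl s.2).1 j (A b v))
      fun z => ug M b v ((M2.mk s.1.1 j 0 s.1.2.2).act z) := fun b v s j =>
    have h := ex_spec hl s.2
    qe_Sr hQ hM hl h.1 h.2.1 h.2.2.1 h.2.2.2.1 h.2.2.2.2 j (hA b v)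
  refine ⟨mul_ne_zero hM hl, inferInstance, fun i => MP_8b7eba_nt.Mod.diff_act (hd _) (hU _ _).1,
    fun i => hQ.2.1 _ _ (hd _) (hU _ _).2.2, fun i => hq _ _ _ _, fun γ hγ ⟨⟨b, v⟩, s⟩ => ?_,
    fun σ ⟨⟨b, v⟩, s⟩ => ?_⟩
  · obtain ⟨m, h1, h2, h3, h4⟩ := level hl h15 s.2
    obtain ⟨β, v', t, ht, h⟩ := red hUT hM h1 h2 (B := IntM s * γ)
      (by rw [M2.det_mul, Int_det h1 h3, hγ.1, mul_one]) (by simpa [IntM] using hγ.2.mul_left _) b v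
    exact ⟨((β, v'), ⟨t, h4 ht⟩), fun z hz => by
      have := h z hz
      rwa [M2.act_mul (hd s).ne' hγ.det_pos hz] at this⟩
  · obtain ⟨m, h1, h2, h3, h4⟩ := level hl h15 s.2
    obtain ⟨f, -, f2, f3⟩ := hQ.2.2 σ
    have h5 := fun a => f3 (s.1.2.2 * M) a (mul_ne_zero (ex_spec hl s.2).2.2.1 hM)
    obtain ⟨β, v', t, ht, h⟩ := red hUT hM h1 h2 (B := M2.mk s.1.1
      (s.1.2.1 * (cy (s.1.2.2 * M) σ : ZMod (s.1.2.2 * M)).val) 0 s.1.2.2)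
      (by simpa [IntM, M2.det] using Int_det h1 h3) (dvd_zero _) b (v.1, v.2 * cy M σ)
    refine ⟨((β, v'), ⟨t, h4 ht⟩), (f2 _ _).2 ?_⟩
    rw [map_Sr f _ _ h5, ← (f2 _ _).1 (hC σ b v)]
    exact (hq β v' ⟨t, h4 ht⟩ _).unique (Nat.pos_of_ne_zero (mul_ne_zero hM hl))
      ((hq b _ s _).congr fun z hz => (h z hz).symm)

end

end TVALX

open TVALX in
theorem t_VALX (hFB : FB) (hTR : TR) (hCONJ : CONJ) (hEV2 : EV2) (hQSUB : QSUB) (hUT : UT)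
    (hUHM : UHM) (hUQF : UQF) (hEXA : EXA) : VALX := by
  intro M l t x y hM hM15 hl hl15 h0 ht hx hy
  have h15 : l.Coprime 15 := (Nat.Prime.coprime_iff_not_dvd hl).2 hl15
  obtain ⟨N, A, hA, hC⟩ := hUQF M hM hM15
  obtain ⟨τ, hτ, hv⟩ := hCONJ _ _ _ _ _ (family hQSUB hUT hUHM hM hM15 hl.ne_zero h15 hA hC)
    t x y h0 ht hx hy
  refine ⟨τ, hτ, fun b i₁ i₂ hb => ?_⟩
  obtain ⟨β, v, e⟩ := norm hUT hM hb i₁ i₂
  have hL := ((hEXA M hM hM15).1 β v).1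
  have e1 : lf (uf b (i₁ / M) (i₂ / M)) = lf (ug M β v) :=
    (hFB.2.2.2.2.2.1 _ _ (hFB.2.2.2.2.1 _ _ hL e) hL).2.2.2.2.2.2.2 e
  have key : ∀ s (hs : s ∈ IntR 1 ∪ IntR l), V2a M (uf b (i₁ / M) (i₂ / M))
      (i2 (zo (ze (s.2.2 * M) s.2.1)) * t ^ ex l s)
      (i2 (ev τ (lf fun z => ug M β v ((IntM s).act z)))) := fun s hs =>
    ⟨N, A β v, (hA β v).congr e, val_Sr hEV2 h0 ht (ex_spec hl.ne_zero hs).1 (by
      have := hv ((β, v), ⟨s, hs⟩)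
      rwa [Nat.add_sub_cancel' (Nat.mul_le_mul_right N (ex_spec hl.ne_zero hs).2.2.2.2)])⟩
  have z1 : zo 1 = 1 := by
    obtain ⟨f, hf⟩ := hEV2.1
    rw [← (hf 1).1, map_one]
  rw [e1]
  refine ⟨?_, fun s hs => ?_⟩
  · simpa [z1, ex, IntM, M2.act, MP_8b7eba_nt.Mod.mob] using
      key (1, 0, 1) (Finset.mem_union_left _ ((Int_mem one_pos).2 (by simp)))
  · have h1 := key s (Finset.mem_union_right _ hs)
    have h2 := Int_det hl.pos hs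
    obtain ⟨h3, h4⟩ := (Int_mem hl.pos).1 hs
    rw [((hTR.1 (IntM s) ⟨by rw [h2]; exact_mod_cast hl.pos,
      by rw [h2]; exact Nat.isCoprime_iff_coprime.2 h15, dvd_zero _⟩).2.2.2 _ hL).2]
    have h5 : ex l s = s.1 ^ 2 := by
      rw [ex, ← h3, Nat.mul_div_cancel _ (by omega), pow_two]
    have h6 : ze (s.2.2 * M) s.2.1 = ze (M * l) s.2.1 := by
      rcases hl.eq_one_or_self_of_dvd _ (Dvd.intro_left _ h3) with h | h
      · rw [show s.2.1 = 0 by omega, Nat.cast_zero, ze_zero, ze_zero]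
      · rw [h, mul_comm]
    rwa [h5, h6] at h1

end Pool.Agent.P.MP_9c97e9_nt.KT
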