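import Pool.Agent.P.MP_9c97e9_nt.KT.IfX
import Pool.Agent.P.MP_9c97e9_nt.KT.TCYB

/-! Kummer cocycles of local points. -/

namespace Pool.Agent.P.MP_9c97e9_nt.KT

open scoped NNReal Matrix
open MP_8b7eba_nt.R2

namespace TYEX

theorem surj (k : ℕ) (η : (ZMod (2 ^ (k + 2)))ˣ) : ∃ g ∈ w2.D, cy (2 ^ (k + 2)) g = η := by
  obtain ⟨g, hg, e⟩ := a_EC2 w2 rfl (un ((η : ZMod (2 ^ (k + 2))).val : ℤ_[2]))
  obtain ⟨z, hz⟩ := TCYB.prim (M := 2 ^ (k + 2)) (by positivity)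
  refine ⟨g, hg.1, Units.ext ((TCYB.cy_eq (by positivity) hz (a_EC.2.2.1 g _ _ z hz.pow_eq_one
    (by rw [e, TANA.un_val (TCYB.odd η), sub_self]; exact dvd_zero _))).trans
    (ZMod.natCast_zmod_val _))⟩

theorem e1_tac (δ : Om) {g : GQ} (hg : g ∈ w2.D) {P : EO} (h : E1 w2 P) : E1 w2 (tac δ g P) := by
  have h1 := ((a_E1G w2).2.2.2.1 g P).2 h
  rw [show g • w2 = w2 from hg] at h1
  rw [tac_apply]
  rcases sd_cases δ g with e | e <;> rw [e]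
  · rwa [one_smul]
  · rw [neg_one_zsmul]; exact (a_E1G w2).2.1 _ h1

theorem halve (k : ℕ) {P : EO} (h : E1 w2 P) : ∃ R, E1 w2 R ∧ 2 ^ k • R = P := by
  induction k with
  | zero => exact ⟨P, h, by simp⟩
  | succ k ih =>
    obtain ⟨R, h1, h2⟩ := ih
    obtain ⟨Q, h3, h4⟩ := (a_E1G w2).2.2.2.2.1 R h1
    exact ⟨Q, h3, by rw [pow_succ, mul_smul, h4, h2]⟩

theorem sect (k : ℕ) (Q : EO) : ∃ v : V2, ‖v‖ ≤ 2 ^ k ∧ ‖v 1‖ ≤ 1 ∧
    (2 ^ k • Q = 0 → E1 w2 Q → T2.pt v = Q) := by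
  by_cases h : 2 ^ k • Q = 0 ∧ E1 w2 Q
  · obtain ⟨v, rfl⟩ := T2.surj Q k h.1
    exact ⟨v, T2.pt_pow.1 h.1, (T2.e1 v).1 h.2, fun _ _ => rfl⟩
  · exact ⟨0, by simp, by simp, fun a b => absurd ⟨a, b⟩ h⟩

theorem n2 (k : ℕ) : ‖(2 ^ k : ℚ_[2])‖ = (2 ^ k)⁻¹ := by rw [norm_pow, SelA.two, inv_pow]

end TYEX

open TYEX in
theorem t_YEX : YEX := by
  intro D k P hP hf
  have fx : Fix ⊤ (D.dl ^ 2) := by rw [D.hdl]; exact (fix_nat _).neg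
  choose γ h1 h2 using surj k
  obtain ⟨R, r1, r2⟩ := halve k hP
  choose s s1 s2 s3 using sect k
  have p : ∀ g ∈ w2.D, tac D.dl g P = tac D.dl (γ (cy _ g)) P := fun g hg => by
    rw [← mul_inv_cancel_left (γ (cy _ g)) g, tac_mul fx, hf _ (mul_mem (inv_mem (h1 _)) hg)
      (by rw [map_mul, map_inv, h2, inv_mul_cancel]), mul_inv_cancel_left]
  obtain ⟨c, hc⟩ : ∃ c : GQ → (ZMod (2 ^ (k + 2)))ˣ → EO, c = fun g η =>
    tac D.dl g (tac D.dl (γ (η * (cy _ g)⁻¹)) R) - tac D.dl (γ η) R := ⟨_, rfl⟩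
  have e : ∀ g ∈ w2.D, ∀ η, T2.pt (s (c g η)) = c g η := fun g hg η => by
    simp only [hc]
    refine s3 _ ?_ ?_
    · rw [smul_sub, ← map_nsmul, ← map_nsmul, ← map_nsmul, r2, ← tac_mul fx,
        p _ (mul_mem hg (h1 _)), map_mul, h2, mul_comm η, mul_inv_cancel_left, sub_self]
    · rw [sub_eq_add_neg]
      exact (a_E1G w2).2.2.1 _ _ (e1_tac _ hg (e1_tac _ (h1 _) r1))
        ((a_E1G w2).2.1 _ (e1_tac _ (h1 _) r1))
  have n : ∀ {v : V2}, ‖v‖ ≤ 1 → ‖(2 ^ k : ℚ_[2]) • v‖ ≤ (2 ^ k)⁻¹ := fun h => by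
    rw [norm_smul, n2]; exact mul_le_of_le_one_right (by positivity) h
  refine ⟨fun g η => (2 ^ k : ℚ_[2]) • s (c g η), tac D.dl (γ 1) R, ⟨fun g η => ?_, fun g η => ?_,
    Sm.pi fun η => Sm.comp (c := fun g => c g η) ?_ fun Q => (2 ^ k : ℚ_[2]) • s Q,
    fun g hg h hh η => ?_⟩, by rw [← map_nsmul, r2, hf _ (h1 1) (h2 1)], fun h hh a => ?_⟩
  · rw [norm_smul, n2, inv_mul_le_one₀ (by positivity)]; exact s1 _
  · rw [Pi.smul_apply, norm_smul, n2]; exact mul_le_of_le_one_right (by positivity) (s2 _)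
  · have a : Sm w2.D (cy (2 ^ (k + 2))) := ⟨_, TCYB.on (M := 2 ^ (k + 2)) (by positivity),
      fun g _ m _ hm => by rw [map_mul, MonoidHom.mem_ker.1 hm, mul_one]⟩
    have b : Sm w2.D fun g η => tac D.dl g (tac D.dl (γ η) R) :=
      Sm.pi fun η => (sm_sd D.dl).comp₂ (sm_ac _) fun s Q => s • Q
    rw [hc]
    exact b.comp₂ a fun F u => F (η * u⁻¹) - tac D.dl (γ η) R
  · rw [Matrix.mulVec_smul, ← smul_sub, ← smul_sub, sub_sub]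
    refine n (T2.pt_eq.1 ?_)
    rw [map_add, Dat.rd, ← T2.tgal, e _ (mul_mem hg hh), e g hg, e h hh, hc]
    simp only [map_sub, tac_mul fx, map_mul, mul_inv_rev, mul_assoc, mul_comm (cy _ h)⁻¹]
    abel
  · rw [inv_smul_smul₀ (pow_ne_zero k two_ne_zero), e h hh, hc]
    simp only [a, inv_one, mul_one]

end Pool.Agent.P.MP_9c97e9_nt.KT
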