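import Pool.Agent.P.MP_9c97e9_nt.KT.IfU
import Pool.Agent.P.MP_9c97e9_nt.KT.TGEN

/-! Existence of the zeta cocycle. -/

namespace Pool.Agent.P.MP_9c97e9_nt.KT

open MP_8b7eba_nt.R2

namespace TZEX

/-- the defining property of a value -/
def Pd (l k M : ℕ) (κ : AL → (CL k M).A) (d : (ZMod M)ˣ) (v : V2) : Prop :=
  ‖v‖ ≤ 1 ∧ ∀ γ ∈ geo, (HC l).T1 κ γ d - (l + 1) * κ γ d = pu k v γ

theorem Pd_congr {l k M : ℕ} (hR : (HC l).Ok (CL k M) geo) (hN : (CL k M).Nm geo)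
    {κ κ' : AL → (CL k M).A} (h : ∀ γ ∈ geo, κ γ = κ' γ) (d : (ZMod M)ˣ) :
    Pd l k M κ d = Pd l k M κ' d := by
  have e : ∀ γ ∈ geo, (HC l).T1 κ γ = (HC l).T1 κ' γ := fun γ hγ =>
    Finset.sum_congr rfl fun t _ => h _ (by
      simpa using geo.mul_mem (hR.mem γ (hN.le hγ) t) hγ)
  funext v
  refine propext (and_congr_right fun _ => forall₂_congr fun γ hγ => ?_)
  rw [e γ hγ, h γ hγ]

theorem Pd_ex (hC : CUSP) {l k M : ℕ} (hl : l.Prime) (h15 : ¬ l ∣ 15)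
    {κ : AL → (CL k M).A} (h : SH1 LL geo κ) (d : (ZMod M)ˣ) : ∃ v, Pd l k M κ d v := by
  obtain ⟨⟨S, hS⟩, h2⟩ := h
  obtain ⟨v, hv, e⟩ := ((hC l hl h15 k).1 (fun γ => κ γ d)
    ⟨⟨S, fun g hg n hn hs => congrFun (hS g hg n hn hs) d⟩,
      fun g hg g' hg' => congrFun (h2 g hg g' hg') d⟩).1
  refine ⟨v, hv, fun γ hγ => ?_⟩
  rw [← e γ hγ]
  congr 1
  exact Finset.sum_apply _ _ _

end TZEX

open TZEX in
theorem t_ZEX (hSECX : SECX) (hTRIV : TRIV) (hKC : KCU) (hCOK : COK) (hCUSP : CUSP)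
    (hEINV : EINV) : ZEX := by
  intro l k M hl h15 hL
  obtain ⟨hM, hk, hM15⟩ := id hL
  obtain ⟨hcm, hgeo, hctx, -⟩ := hCOK
  obtain ⟨hOk, hNm, -, hHC⟩ := hctx k M hM hk
  have hR := hHC l hl.ne_zero ((Nat.Prime.coprime_iff_not_dvd hl).2 h15)
  obtain ⟨hI, hU⟩ := (hEINV.2 k M hL).1
  obtain ⟨b, hb, hbe⟩ := hTRIV k M (E0 M) hM hk hI hU
  have hG := t_GEN AL LL (CL k M) hOk
  have hSp : (CL k M).Sp geo (fE k (E0 M)) b := ⟨(hG.2 _ _ (hG.1 _ hI).1).1, hb, hbe⟩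
  obtain ⟨K1, -, K3, ⟨S, K4⟩, -⟩ := hKC AL LL (CL k M) geo _ b hOk hNm hSp
  obtain ⟨τ, x, y, hA, hx, hy⟩ := hSECX.2
  obtain ⟨s, hs⟩ := hSECX.1 τ x y ⊤ hA hx hy
  have hm := fun σ => hs.mem σ (Subgroup.mem_top σ)
  have sp : ∀ σ d, Pd l k M ((CL k M).kk (fE k (E0 M)) b (s σ)) d
      (Classical.epsilon (Pd l k M ((CL k M).kk (fE k (E0 M)) b (s σ)) d)) := fun σ d =>
    Classical.epsilon_spec (Pd_ex hCUSP hl h15 (K1 _ (hm σ).1) d)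
  refine ⟨b, fun σ d => Classical.epsilon (Pd l k M ((CL k M).kk (fE k (E0 M)) b (s σ)) d),
    hSp, fun σ d => (sp σ d).1, ?_, fun g hg γ hγ d => ?_⟩
  · obtain ⟨N, hN, e⟩ := hs.sm S
    refine ⟨N, hN, fun σ hσ n hn hnN => funext fun d => ?_⟩
    refine congrArg Classical.epsilon (Pd_congr hR hNm (fun γ hγ => ?_) d)
    rw [hs.mul σ hσ n hn]
    exact K4 _ (hm σ).1 _ (hm n).1 (e n hn hnN) γ hγ
  · have hs1 := hm (cg g)
    have h1 : g * (s (cg g))⁻¹ ∈ GG := GG.mul_mem hg (GG.inv_mem hs1.1)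
    have h2 : g * (s (cg g))⁻¹ ∈ geo := by
      refine (hgeo _).2 ⟨h1, ?_⟩
      have := hcm _ h1 _ hs1.1
      rw [inv_mul_cancel_right, hs1.2] at this
      exact right_eq_mul.1 this
    have h3 : Pd l k M ((CL k M).kk (fE k (E0 M)) b g) d =
        Pd l k M ((CL k M).kk (fE k (E0 M)) b (s (cg g))) d := Pd_congr hR hNm (fun γ' hγ' => by
      rw [← K3 _ hs1.1 γ' hγ' _ h2, inv_mul_cancel_right]) d
    exact ((congrFun h3 _).mpr (sp (cg g) d)).2 γ hγ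

end Pool.Agent.P.MP_9c97e9_nt.KT
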