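import Pool.Agent.P.MP_9c97e9_nt.KT.DefsG

/-! The two notions of local constancy agree for the algebraic numbers. -/

namespace Pool.Agent.P.MP_9c97e9_nt.KT

open MP_8b7eba_nt.R2

namespace TSMQ

theorem fin_orbit (H : Subgroup GQ) : FO Om H := fun a => by
  have hi : IsIntegral ℚ a := Algebra.IsIntegral.isIntegral a
  refine ((minpoly ℚ a).rootSet_finite Om).subset ?_
  rintro _ ⟨g, -, rfl⟩
  rw [Polynomial.mem_rootSet]
  refine ⟨minpoly.ne_zero hi, ?_⟩
  rw [AlgEquiv.smul_def, Polynomial.aeval_algHom_apply, minpoly.aeval, map_zero]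

theorem exists_fin {N : Subgroup GQ} (h : ON N) :
    ∃ S : Finset Om, ∀ n : GQ, (∀ s ∈ S, n • s = s) → n ∈ N := by
  classical
  obtain ⟨E, hE, e⟩ := (krullTopology_mem_nhds_one_iff ℚ Om N).1 (h.2.mem_nhds N.one_mem)
  obtain ⟨S, hS⟩ := Module.Finite.fg_top (R := ℚ) (M := E)
  refine ⟨S.image (↑), fun n hn => e ?_⟩
  rw [SetLike.mem_coe, IntermediateField.mem_fixingSubgroup_iff]
  intro x hx
  have : (⟨x, hx⟩ : E) ∈ Submodule.span ℚ (S : Set E) := hS ▸ Submodule.mem_top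
  refine Submodule.span_induction (p := fun (y : E) _ => n (y : Om) = y) (fun y hy => ?_) (by simp)
    (fun y z _ _ a b => ?_) (fun q y _ a => ?_) this
  · exact hn _ (Finset.mem_image_of_mem _ hy)
  · simp [a, b]
  · rw [IntermediateField.coe_smul, map_rat_smul, a]

end TSMQ

open TSMQ in
theorem t_SMQ : SMQ := by
  refine fun X H => ⟨fin_orbit H, fun c => ⟨fun ⟨S, h⟩ => ?_, fun ⟨N, hN, h⟩ => ?_⟩,
    fun f => ⟨fun ⟨S, h⟩ => ?_, fun ⟨N, hN, h⟩ => ?_⟩⟩
  · obtain ⟨N, hN, e⟩ := exists_ON_fix S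
    exact ⟨N, hN, fun g hg n hn m => h g hg n hn fun s hs => e s hs n m⟩
  · obtain ⟨S, e⟩ := exists_fin hN
    exact ⟨S, fun g hg n hn m => h g hg n hn (e n m)⟩
  · obtain ⟨N, hN, e⟩ := exists_ON_fix S
    exact ⟨N, hN, fun g hg k hk n hn m => h g hg k hk n hn fun s hs => e s hs n m⟩
  · obtain ⟨S, e⟩ := exists_fin hN
    exact ⟨S, fun g hg k hk n hn m => h g hg k hk n hn (e n m)⟩

end Pool.Agent.P.MP_9c97e9_nt.KT
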