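import Pool.Agent.P.MP_9c97e9_nt.KT.IfU
import Pool.Agent.P.MP_9c97e9_nt.KT.TGEN
import Pool.Agent.P.MP_9c97e9_nt.KT.TSMQ

/-! Proof of ZTK. -/

namespace Pool.Agent.P.MP_9c97e9_nt.KT

open scoped Matrix
open MP_8b7eba_nt.R2

namespace TZTK

theorem rho_le (g : GQ) {v : V2} {r : ℝ} (hv : ‖v‖ ≤ r) : ‖T2.rho g *ᵥ v‖ ≤ r :=
  (LC.mv_le (T2.int g) v).trans (by rwa [one_mul])

theorem sub_le {u v : V2} {r : ℝ} (hu : ‖u‖ ≤ r) (hv : ‖v‖ ≤ r) : ‖u - v‖ ≤ r := by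
  rw [sub_eq_add_neg]
  exact (IsUltrametricDist.norm_add_le_max _ _).trans (max_le hu (by rwa [norm_neg]))

variable {τ τ' : ℂ} {H : Subgroup GQ} {s s' : GQ → AL} {k M : ℕ}

theorem sec_one (hs : Sec τ H s) : s 1 = 1 := by
  have := hs.mul 1 H.one_mem 1 H.one_mem
  rw [one_mul] at this
  exact mul_left_cancel (a := s 1) (by rw [← this, mul_one])

/-- locally constant functions pull back along a section -/
theorem sm_sec (hs : Sec τ H s) {X : Type} {β : AL → X} (h : Sm1 LL GG β) :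
    Sm1 Om H fun g => β (s g) := by
  obtain ⟨S, hS⟩ := h
  obtain ⟨N, hN, e⟩ := hs.sm S
  refine ((t_SMQ X H).2.1 _).2 ⟨N, hN, fun g hg n hn hnN => ?_⟩
  simp only [hs.mul g hg n hn]
  exact hS _ (hs.mem g hg).1 _ (hs.mem n hn).1 (e n hn hnN)

theorem ac_sec (hs : Sec τ H s) {g : GQ} (hg : g ∈ H) (F : (CL k M).A) :
    (CL k M).ac (s g) F = (CO H k M).ac g F := by
  funext d
  simp only [Cx.ac, (hs.mem g hg).2]

theorem eqv_sec (hs : Sec τ H s) {f f' : AL → AL → (CL k M).A} (h : (CL k M).Eqv f f') :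
    (CO H k M).Eqv (fun g h => f (s g) (s h)) fun g h => f' (s g) (s h) := by
  obtain ⟨β, h1, h2⟩ := h
  refine ⟨fun g => β (s g), sm_sec hs h1, fun g hg h hh => ?_⟩
  rw [h2 _ (hs.mem g hg).1 _ (hs.mem h hh).1, Cx.d1, Cx.d1, ac_sec hs hg, hs.mul g hg h hh]

theorem gam_mem (hCOK : COK) (hs : Sec τ H s) (hs' : Sec τ' H s') {g : GQ} (hg : g ∈ H) :
    s' g * (s g)⁻¹ ∈ geo := by
  have h1 := GG.mul_mem (hs'.mem g hg).1 (GG.inv_mem (hs.mem g hg).1)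
  refine (hCOK.2.1 _).2 ⟨h1, ?_⟩
  have := hCOK.1 _ h1 _ (hs.mem g hg).1
  rw [inv_mul_cancel_right, (hs'.mem g hg).2, (hs.mem g hg).2] at this
  exact (mul_eq_right.1 this.symm)

/-- comparison of two sections -/
theorem two_sec (hL : LING) (hKC : KCU) (hCOK : COK) (hM : M ≠ 0) (hk : 2 ^ k ∣ M)
    (hs : Sec τ H s) (hs' : Sec τ' H s') {f : AL → AL → (CL k M).A} {b : AL → (CL k M).A}
    (hS : (CL k M).Sp geo f b) :
    (CO H k M).Eqv (fun g h => f (s' g) (s' h) - f (s g) (s h)) fun g h =>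
      (CL k M).kk f b (s g) (s g * (s' h * (s h)⁻¹) * (s g)⁻¹) := by
  classical
  obtain ⟨hC, hN, -⟩ := hCOK.2.2.1 k M hM hk
  have hg' := fun g (hg : g ∈ H) => gam_mem hCOK hs hs' hg
  refine ⟨fun g => b (s' g * (s g)⁻¹) - f (s' g * (s g)⁻¹) (s g), ?_, fun g hg h hh => ?_⟩
  · obtain ⟨S₁, h1⟩ := hS.sm
    obtain ⟨S₂, h2⟩ := hS.co.sm
    obtain ⟨S, hS1, hS2⟩ := (hL _ _ _ hC).2.2.2.2.2.1 (S₁ ∪ S₂)
    obtain ⟨N, hN1, e⟩ := hs.sm S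
    obtain ⟨N', hN2, e'⟩ := hs'.sm S
    refine ((t_SMQ _ H).2.1 _).2 ⟨N ⊓ N', hN1.inf hN2, fun g hg n hn hnN => ?_⟩
    have m1 := (hs.mem g hg).1
    have e1 : s' (g * n) * (s (g * n))⁻¹ =
        s' g * (s g)⁻¹ * ((s g)⁻¹⁻¹ * (s' n * (s n)⁻¹) * (s g)⁻¹) := by
      rw [hs.mul g hg n hn, hs'.mul g hg n hn]; group
    have m2 := hN.nm _ (GG.inv_mem m1) _ (hg' n hn)
    have f1 : ∀ x ∈ S, ((s g)⁻¹⁻¹ * (s' n * (s n)⁻¹) * (s g)⁻¹) • x = x := fun x hx => by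
      have h3 := hS2 _ (GG.inv_mem m1) x hx
      have h4 : (s n)⁻¹ • (s g)⁻¹ • x = (s g)⁻¹ • x := inv_smul_eq_iff.2 (e n hn hnN.1 _ h3).symm
      have h5 : s' n • (s g)⁻¹ • x = (s g)⁻¹ • x := e' n hn hnN.2 _ h3
      rw [mul_smul, mul_smul, mul_smul, h4, h5, inv_smul_smul]
    have u1 := fun x (hx : x ∈ S₁) => hS1 (Finset.mem_union_left _ hx)
    have u2 := fun x (hx : x ∈ S₂) => hS1 (Finset.mem_union_right _ hx)
    simp only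
    rw [e1, h1 _ (hg' g hg) _ m2 fun x hx => f1 x (u1 x hx),
      (h2 _ (hN.le (hg' g hg)) _ (hs.mem _ (H.mul_mem hg hn)).1 _ (hN.le m2)
        fun x hx => f1 x (u2 x hx)).1, hs.mul g hg n hn,
      (h2 _ (hN.le (hg' g hg)) _ m1 _ (hs.mem n hn).1 fun x hx => e n hn hnN.1 x (u2 x hx)).2]
  · have := (hKC AL LL (CL k M) geo f b hC hN hS).2.2.2.2.1 _ (hs.mem g hg).1 _ (hs.mem h hh).1 _
      (hg' g hg) _ (hg' h hh)
    simp only [inv_mul_cancel_right] at this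
    have e1 : s' (g * h) * (s (g * h))⁻¹ =
        s' g * (s g)⁻¹ * (s g * (s' h * (s h)⁻¹) * (s g)⁻¹) := by
      rw [hs.mul g hg h hh, hs'.mul g hg h hh]; group
    simp only [Cx.d1, this, e1]
    simp only [hs.mul g hg h hh, ac_sec hs hg]
    exact add_sub_cancel_left _ _

/-- the cuspidal cocycle -/
theorem cusp (hLING : LING) (hKCR : KCR) (hTRF : TRF) (hCOK : COK) (hEINV : EINV) {l : ℕ}
    {b : AL → (CL k M).A} {z : GQ → (ZMod M)ˣ → V2} (hl : l.Prime) (h15 : ¬ l ∣ 15) (hM : Lv0 k M)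
    (hZ : ZK l k M b z) : ∃ fP bP, (CL k M).Sp geo fP bP ∧ (CL k M).Eqv (fE k (Ep l M)) fP ∧
      ∀ g ∈ GG, ∀ γ ∈ geo, ∀ d, (CL k M).kk fP bP g γ d = pu k (z (cg g) d) γ := by
  have c15 : l.Coprime 15 := (Nat.Prime.coprime_iff_not_dvd hl).2 h15
  obtain ⟨hC, hN, -, hR⟩ := hCOK.2.2.1 k M hM.1 hM.2.1
  replace hR := hR l hl.ne_zero c15
  obtain ⟨l1, l2, l3, l4, -⟩ := hLING AL LL (CL k M) hC
  obtain ⟨s1, s2⟩ := (hKCR AL LL (CL k M) geo _ (HC l) hC hN hR).2 _ _ hZ.sp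
  obtain ⟨s3, s4, -⟩ := l4 _ _ _ hZ.sp (-(l + 1))
  obtain ⟨hS, s5⟩ := (l4 _ _ _ s1 0).2.2 _ _ s3
  refine ⟨_, _, hS, ?_, fun g hg γ hγ d => ?_⟩
  · have e : Ep l M = (HC l).cor (E0 M) + (-(l + 1) : ℤ) • E0 M := by
      rw [hCOK.2.2.2.1, Ep, neg_smul, sub_eq_add_neg, ← natCast_zsmul]
      push_cast
      rfl
    have e1 := (l1 ((HC l).cor (E0 M)) ((-(l + 1) : ℤ) • E0 M) 0).1
    rw [(l1 _ 0 _).2.1, ← e] at e1
    rw [fE, e1]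
    exact (l3 _ _ (hTRF AL LL (CL k M) geo _ (HC l) hC hN hR _ (hEINV.2 k M hM).1.1).2).2.2.2 _ _
      (l2 _)
  · rw [s5, s2 g hg γ hγ, s4, ← hZ.eq g hg γ hγ d]
    simp only [Pi.add_apply, Pi.smul_apply]
    simp only [zsmul_eq_mul]
    push_cast
    ring

end TZTK

open TZTK in
theorem t_ZTK (hSECX : SECX) (hLING : LING) (hKC : KCU) (hKCR : KCR) (hTRF : TRF) (hCOK : COK)
    (hZQ : ZQ) (hEVAL : EVAL) (hEINV : EINV) : ZTK := by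
  intro l k M b z hl h15 hM hZ
  obtain ⟨hC, hN, hO, -⟩ := hCOK.2.2.1 k M hM.1 hM.2.1
  have iP := (hEINV.2 k M hM).2 l hl.ne_zero ((Nat.Prime.coprime_iff_not_dvd hl).2 h15)
  obtain ⟨fP, bP, hS, hE, hk⟩ := cusp hLING hKCR hTRF hCOK hEINV hl h15 hM hZ
  obtain ⟨z1, z2, z3, z4, -⟩ := hZQ k
  refine ⟨hZ.int, hZ.sm, fun g h d => ?_, fun H τ τ' s s' hs hs' => ?_⟩
  · obtain ⟨τ, x, y, h1, h2, h3⟩ := hSECX.2
    obtain ⟨s, hs⟩ := hSECX.1 τ x y ⊤ h1 h2 h3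
    have m := fun g => hs.mem g (Subgroup.mem_top g)
    have n1 := sub_le (hZ.int (g * h) d) (hZ.int g d)
    have n2 := rho_le g (hZ.int h (d * (cy M g)⁻¹))
    refine (z4 _ (sub_le n1 n2)).2.1 fun γ hγ => ?_
    have := congrFun ((hKC AL LL (CL k M) geo fP bP hC hN hS).2.1 _ (m g).1 _ (m h).1 γ hγ) d
    rw [← hs.mul g trivial h trivial, Pi.add_apply, hk _ (m _).1 γ hγ, hk _ (m _).1 γ hγ, Cx.ac,
      hk _ (m _).1 _ (hN.nm _ (m g).1 γ hγ)] at this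
    have h5 := ((z4 _ (hZ.int h (d * (cy M g)⁻¹))).2.2.2.2.2 _ (m g).1 γ hγ).1
    simp only [(m _).2] at this h5
    rw [((z4 _ n1).2.2.2.2.1 _ n2 γ).2, ((z4 _ (hZ.int _ _)).2.2.2.2.1 _ (hZ.int _ _) γ).2, this,
      h5, z3 M g hM.1 hM.2.1]
    ring
  · obtain ⟨v1, v2⟩ := hEVAL k M _ hM.1 hM.2.1 iP τ H s hs
    obtain ⟨-, v3⟩ := hEVAL k M _ hM.1 hM.2.1 iP τ' H s' hs'
    obtain ⟨-, -, o3, -⟩ := hLING _ _ _ (hO H)
    have a1 := (o3 _ _ v2).2.2.1 _ (eqv_sec hs hE)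
    have a2 := (o3 _ _ v3).2.2.1 _ (eqv_sec hs' hE)
    have a3 := (o3 _ _ a2).2.2.2 _ _ ((o3 _ _ a1).2.1 (-1))
    rw [neg_one_zsmul, neg_one_zsmul, ← sub_eq_add_neg, ← sub_eq_add_neg] at a3
    obtain ⟨β, b1, b2⟩ := (o3 _ _ a3).2.2.1 _ (two_sec hLING hKC hCOK hM.1 hM.2.1 hs hs' hS)
    refine ⟨v1, β, b1, fun g hg h hh => ?_⟩
    rw [← b2 g hg h hh]
    congr 1
    funext d
    have m1 := hs.mem g hg
    have m2 := gam_mem hCOK hs hs' hh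
    have m3 := hN.nm _ (GG.inv_mem m1.1) _ m2
    rw [inv_inv] at m3
    simp only
    rw [hk _ m1.1 _ m3, ((z4 _ (hZ.int _ _)).2.2.2.2.2 _ m1.1 _ m2).2 _ (hs.mem h hh).1, m1.2]
    simp only [inv_mul_cancel_right]

end Pool.Agent.P.MP_9c97e9_nt.KT
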