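import Pool.Agent.P.MP_9c97e9_nt.KT.BasC

/-! The part of the first constant term. -/

namespace Pool.Agent.P.MP_9c97e9_nt.KT

open PowerSeries Finset Cx

namespace TCXC1

/-- the sum over one residue class -/
theorem single {N : ℕ} (hN : 0 < N) (c : ℤ) (g : ℤ → ℂ)
    (hg : ∀ x : ℤ, (N : ℤ) ∣ c - x → g x = g c) :
    (∑ B ∈ range N, if (N : ℤ) ∣ c - B then g B else 0) = g c := by
  have h0 : (N : ℤ) ≠ 0 := by exact_mod_cast hN.ne'
  have h1 := Int.emod_nonneg c h0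
  have h2 := Int.emod_lt_of_pos c (by exact_mod_cast hN : (0 : ℤ) < N)
  have h3 : ((c % N).toNat : ℤ) = c % N := Int.toNat_of_nonneg h1
  have h4 : (N : ℤ) ∣ c - ((c % N).toNat : ℤ) := by
    rw [h3]
    exact Int.dvd_self_sub_emod
  rw [sum_eq_single (c % N).toNat]
  · rw [if_pos h4, hg _ h4]
  · intro B hB hne
    rw [if_neg]
    intro h
    apply hne
    have h5 : (B : ℤ) % N = c % N := (Int.modEq_iff_dvd.2 h : (B : ℤ) ≡ c [ZMOD N])
    rw [Int.emod_eq_of_lt (by omega) (by exact_mod_cast mem_range.1 hB)] at h5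
    omega
  · intro h
    exact (h (mem_range.2 (by omega))).elim

theorem inner (hCXCH : CXCH) {M : ℕ} (hM : 0 < M) (D k : ℤ) (B : ℕ) (q : ℤ × ℤ) (w : ℂ) :
    (∑ B₂ ∈ range (15 * M), ∑ a₁ ∈ range M, ∑ a₂ ∈ range M,
      if B.Coprime 15 ∧ 15 ∣ (B₂ : ℤ) - k * B ∧ (M : ℤ) ∣ B * a₂ - B₂ * a₁ - D then
        w * (if (15 * M : ℤ) ∣ q.1 - B₂ then -(q.1.sign : ℂ) * zc M (a₂ * q.2) else 0) else 0) =
    ∑ ν ∈ range M, M * (zc M (ν * D) *
      if B.Coprime 15 ∧ 15 ∣ q.1 - k * B ∧ (M : ℤ) ∣ ν * q.1 ∧ (M : ℤ) ∣ q.2 - ν * B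
      then -(q.1.sign : ℂ) * w else 0) := by
  let G : ℤ → ℂ := fun x => ∑ ν ∈ range M, M * (zc M (ν * D) *
      if B.Coprime 15 ∧ 15 ∣ x - k * B ∧ (M : ℤ) ∣ ν * x ∧ (M : ℤ) ∣ q.2 - ν * B
      then -(q.1.sign : ℂ) * w else 0)
  have h1 := single (N := 15 * M) (by omega) q.1 G (fun x hx => by
    refine sum_congr rfl fun ν _ => ?_
    congr 2
    push_cast at hx
    have ha : (15 : ℤ) ∣ q.1 - x := (dvd_mul_right _ _).trans hx
    have hb : (M : ℤ) ∣ ν * (q.1 - x) := ((dvd_mul_left _ _).trans hx).mul_left _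
    refine if_congr (and_congr_right fun _ => and_congr ?_ (and_congr ?_ Iff.rfl)) rfl rfl
    · rw [show q.1 - k * B = x - k * B + (q.1 - x) by ring, dvd_add_left ha]
    · rw [show ν * q.1 = ν * x + ν * (q.1 - x) by ring, dvd_add_left hb])
  refine Eq.trans (sum_congr rfl fun B₂ _ => ?_) h1
  push_cast
  by_cases h2 : (15 * M : ℤ) ∣ q.1 - B₂
  · simp only [if_pos h2, G]
    by_cases h3 : B.Coprime 15 ∧ 15 ∣ (B₂ : ℤ) - k * B
    · have h4 := hCXCH M B B₂ D 0 q.2 hM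
      simp only [mul_zero, zero_add] at h4
      simp only [eq_true h3.1, eq_true h3.2, true_and]
      calc _ = -(q.1.sign : ℂ) * w * ∑ a₁ ∈ range M, ∑ a₂ ∈ range M,
            if (M : ℤ) ∣ B * a₂ - B₂ * a₁ - D then zc M (a₂ * q.2) else 0 := by
            simp only [mul_sum]
            refine sum_congr rfl fun a₁ _ => sum_congr rfl fun a₂ _ => ?_
            split_ifs <;> ring
        _ = _ := by
            rw [h4]
            simp only [mul_sum]
            refine sum_congr rfl fun ν _ => ?_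
            split_ifs <;> ring
    · simp only [← and_assoc, h3, false_and, if_false, mul_zero, sum_const_zero]
  · simp only [if_neg h2, mul_zero, ite_self, sum_const_zero]

end TCXC1

open TCXC1 in
theorem t_CXC1 (hCXCH : CXCH) : CXC1 := by
  intro M D k hM
  have e : ∀ ν : ℕ, (M : ℂ) * (zc M (ν * D) * En1 M ν k) = ∑ B ∈ range (15 * M),
      ∑ q ∈ (M : ℤ).divisorsAntidiag, M * (zc M (ν * D) *
        if B.Coprime 15 ∧ 15 ∣ q.1 - k * B ∧ (M : ℤ) ∣ ν * q.1 ∧ (M : ℤ) ∣ q.2 - ν * B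
        then -(q.1.sign : ℂ) * sw M B else 0) := by
    intro ν
    simp only [En1, Rat.cast_sum, mul_sum]
    refine sum_congr rfl fun B _ => sum_congr rfl fun q _ => ?_
    split_ifs <;> simp
  rw [mul_sum, sum_congr rfl fun ν _ => e ν, sum_comm, tri]
  refine sum_congr rfl fun B _ => ?_
  rw [sum_comm (t := (M : ℤ).divisorsAntidiag),
    ← sum_congr rfl fun q _ => inner hCXCH hM D k B q (sw M B),
    sum_comm (s := (M : ℤ).divisorsAntidiag)]
  refine sum_congr rfl fun B₂ _ => ?_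
  rw [sum_comm (s := (M : ℤ).divisorsAntidiag)]
  refine sum_congr rfl fun a₁ _ => ?_
  rw [sum_comm (s := (M : ℤ).divisorsAntidiag)]
  refine sum_congr rfl fun a₂ _ => ?_
  simp only [eS, coeff_mk, mul_sum]
  split_ifs <;> simp

end Pool.Agent.P.MP_9c97e9_nt.KT
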