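import Pool.Agent.P.MP_9c97e9_nt.KT.BasC

/-! The part of the second constant term. -/

namespace Pool.Agent.P.MP_9c97e9_nt.KT

open PowerSeries Finset Cx

namespace TCXC2

theorem pick {N : ℕ} (hN : 0 < N) (x : ℤ) (c : ℂ) :
    (∑ B ∈ range N, if (N : ℤ) ∣ x - B then c else 0) = c := by
  have h0 : (0 : ℤ) < N := by exact_mod_cast hN
  have h1 := Int.emod_nonneg x h0.ne'
  have h2 := Int.emod_lt_of_pos x h0
  rw [sum_eq_single_of_mem (x % N).toNat (mem_range.2 (by omega)) fun B hB e => if_neg fun k => e ?_,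
    if_pos]
  · rw [Int.toNat_of_nonneg h1]
    exact Int.dvd_self_sub_emod
  · have := mem_range.1 hB
    rw [← (Int.modEq_iff_dvd.2 k :), Int.emod_eq_of_lt (by omega) (by omega), Int.toNat_natCast]

theorem cond {M B₁ : ℕ} {x y B₂ ν k : ℤ} (h : (15 * M : ℤ) ∣ x - B₁) :
    ((B₁.Coprime 15 ∧ 15 ∣ B₂ - k * B₁) ∧ (M : ℤ) ∣ y + ν * B₂ ∧ (M : ℤ) ∣ 0 - ν * B₁) ↔
      Int.gcd x 15 = 1 ∧ 15 ∣ B₂ - k * x ∧ (M : ℤ) ∣ y + ν * B₂ ∧ (M : ℤ) ∣ ν * x := by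
  obtain ⟨t, ht⟩ := h
  obtain rfl : x = B₁ + 15 * (M * t) := by linear_combination ht
  rw [and_assoc, Int.gcd_add_mul_left_left, zero_sub, dvd_neg,
    show B₂ - k * (B₁ + 15 * (M * t)) = B₂ - k * B₁ + 15 * (-k * M * t) by ring,
    show ν * (B₁ + 15 * (M * t)) = ν * B₁ + M * (ν * 15 * t) by ring,
    dvd_add_left (dvd_mul_right _ _), dvd_add_left (dvd_mul_right _ _)]
  rfl

theorem term (hC : CXCH) {M : ℕ} (hM : 0 < M) (D k : ℤ) (B₁ B₂ : ℕ) :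
    (∑ a₁ ∈ range M, ∑ a₂ ∈ range M,
      if B₁.Coprime 15 ∧ 15 ∣ B₂ - k * B₁ ∧ (M : ℤ) ∣ B₁ * a₂ - B₂ * a₁ - D then
        coeff M (eS M a₁ B₁) * (sw M B₂ : ℂ) else 0) =
    ∑ p ∈ (M : ℤ).divisorsAntidiag, ∑ ν ∈ range M, if (15 * M : ℤ) ∣ p.1 - B₁ then
      M * (zc M (ν * D) * ((if Int.gcd p.1 15 = 1 ∧ 15 ∣ B₂ - k * p.1 ∧ (M : ℤ) ∣ p.2 + ν * B₂ ∧
        (M : ℤ) ∣ ν * p.1 then -(p.1.sign : ℚ) * sw M B₂ else 0 : ℚ) : ℂ)) else 0 := by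
  trans ∑ a₁ ∈ range M, ∑ a₂ ∈ range M, ∑ p ∈ (M : ℤ).divisorsAntidiag,
    (if (15 * M : ℤ) ∣ p.1 - B₁ ∧ B₁.Coprime 15 ∧ 15 ∣ B₂ - k * B₁ then
      -(p.1.sign : ℂ) * sw M B₂ else 0) *
      if (M : ℤ) ∣ B₁ * a₂ - B₂ * a₁ - D then zc M (a₁ * p.2 + a₂ * 0) else 0
  · refine sum_congr rfl fun a₁ _ => sum_congr rfl fun a₂ _ => ?_
    rw [eS, coeff_mk, sum_mul, ← sum_const_zero (s := (M : ℤ).divisorsAntidiag), ← sum_ite_irrel]
    refine sum_congr rfl fun p _ => ?_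
    rw [mul_zero, add_zero, sum_const_zero]
    split_ifs <;> first | ring1 | (exfalso; tauto)
  rw [sum_congr rfl fun _ _ => sum_comm, sum_comm]
  refine sum_congr rfl fun p _ => ?_
  simp only [← mul_sum]
  rw [hC M B₁ B₂ D p.2 0 hM, mul_sum, mul_sum]
  refine sum_congr rfl fun ν _ => ?_
  by_cases h1 : (15 * M : ℤ) ∣ p.1 - B₁
  · rw [if_pos h1, ← if_congr (cond h1) rfl rfl]
    split_ifs <;> first | (push_cast; ring1) | (exfalso; tauto)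
  · rw [if_neg h1, if_neg fun e => h1 e.1, zero_mul]

end TCXC2

theorem t_CXC2 (hCXCH : CXCH) : CXC2 := by
  intro M D k hM
  have h := TCXC2.pick (N := 15 * M) (by omega)
  simp only [Nat.cast_mul, Nat.cast_ofNat] at h
  simp only [tri, TCXC2.term hCXCH hM, En2, Rat.cast_sum, mul_sum]
  rw [sum_comm, sum_comm (s := range M)]
  refine sum_congr rfl fun B _ => ?_
  rw [sum_comm, sum_comm (s := range M)]
  refine sum_congr rfl fun p _ => ?_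
  rw [sum_comm]
  exact sum_congr rfl fun ν _ => h _ _

end Pool.Agent.P.MP_9c97e9_nt.KT
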