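import Pool.Agent.P.MP_9c97e9_nt.KT.BasC

/-! Orthogonality of the additive characters. -/

namespace Pool.Agent.P.MP_9c97e9_nt.KT

open Finset Cx

namespace TCXCH

theorem orth {M : ℕ} (hM : 0 < M) (x : ℤ) :
    ∑ n ∈ range M, zc M (n * x) = if (M : ℤ) ∣ x then (M : ℂ) else 0 := by
  have h : ∀ n : ℕ, zc M (n * x) = zc M x ^ n := fun n => by rw [mul_comm, zc_pow]
  simp only [h]
  split_ifs with hx
  · simp [(zc_eq_one hM).2 hx]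
  · rw [geom_sum_eq (fun e => hx ((zc_eq_one hM).1 e)), ← zc_pow,
      (zc_eq_one hM).2 (dvd_mul_left _ _), sub_self, zero_div]

end TCXCH

open TCXCH in
theorem t_CXCH : CXCH := by
  intro M B₁ B₂ D i₁ i₂ hM
  have h0 : (M : ℂ) ≠ 0 := by exact_mod_cast hM.ne'
  apply mul_left_cancel₀ h0
  have e1 : ∀ a₁ a₂ : ℕ, (M : ℂ) *
      (if (M : ℤ) ∣ B₁ * a₂ - B₂ * a₁ - D then zc M (a₁ * i₁ + a₂ * i₂) else 0) =
      ∑ ν ∈ range M, zc M (ν * D) * (zc M (a₁ * (i₁ + ν * B₂)) * zc M (a₂ * (i₂ - ν * B₁))) := by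
    intro a₁ a₂
    have h1 := orth hM (-(B₁ * a₂ - B₂ * a₁ - D))
    simp only [dvd_neg] at h1
    rw [mul_ite, mul_zero, ← ite_zero_mul, ← h1, sum_mul]
    refine sum_congr rfl fun ν _ => ?_
    rw [← zc_add, ← zc_add, ← zc_add]
    congr 1
    ring
  have e2 : ∀ ν : ℕ, (M : ℂ) * (M * if (M : ℤ) ∣ i₁ + ν * B₂ ∧ (M : ℤ) ∣ i₂ - ν * B₁ then
      zc M (ν * D) else 0) = ∑ a₁ ∈ range M, ∑ a₂ ∈ range M,
        zc M (ν * D) * (zc M (a₁ * (i₁ + ν * B₂)) * zc M (a₂ * (i₂ - ν * B₁))) := by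
    intro ν
    simp only [← mul_sum]
    rw [← sum_mul, orth hM, orth hM]
    by_cases h1 : (M : ℤ) ∣ i₁ + ν * B₂ <;> by_cases h2 : (M : ℤ) ∣ i₂ - ν * B₁ <;> simp [h1, h2]
    ring
  rw [mul_sum, mul_sum, mul_sum, sum_congr rfl fun ν _ => e2 ν, sum_comm]
  refine sum_congr rfl fun a₁ _ => ?_
  rw [mul_sum, sum_comm]
  exact sum_congr rfl fun a₂ _ => e1 a₁ a₂

end Pool.Agent.P.MP_9c97e9_nt.KT
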