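import Pool.Agent.P.MP_9c97e9_nt.KT.TCXRE

/-! The main part of the coefficient. -/

namespace Pool.Agent.P.MP_9c97e9_nt.KT

open PowerSeries Finset Cx TCXRE

namespace TCXCM

theorem tri_sum {ι : Type} (s : Finset ι) (M : ℕ) (D k : ℤ) (f : ι → ℤ → ℤ → ℤ → ℤ → ℂ) :
    (tri M D k fun B₁ B₂ a₁ a₂ => ∑ x ∈ s, f x B₁ B₂ a₁ a₂) = ∑ x ∈ s, tri M D k (f x) := by
  simp only [tri_eq]
  exact sum_comm

theorem one (h : CXCH) {M : ℕ} (hM : 0 < M) (D k i₁ i₂ : ℤ) (w : ℤ → ℤ → ℂ) :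
    (tri M D k fun B₁ B₂ a₁ a₂ => w B₁ B₂ * zc M (a₁ * i₁ + a₂ * i₂)) =
      M * ∑ ν ∈ range M, zc M (ν * D) * ∑ B₁ ∈ range (15 * M), ∑ B₂ ∈ range (15 * M),
        if B₁.Coprime 15 ∧ 15 ∣ B₂ - k * B₁ ∧ (M : ℤ) ∣ i₁ + ν * B₂ ∧ (M : ℤ) ∣ i₂ - ν * B₁
        then w B₁ B₂ else 0 := by
  simp only [mul_sum]
  rw [sum_comm, tri]
  refine sum_congr rfl fun B₁ _ => ?_
  rw [sum_comm (s := range M) (t := range (15 * M))]
  refine sum_congr rfl fun B₂ _ => ?_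
  by_cases hc : B₁.Coprime 15 ∧ 15 ∣ B₂ - k * B₁
  · have := congrArg (w B₁ B₂ * ·) (h M B₁ B₂ D i₁ i₂ hM)
    simp only [mul_sum, mul_ite, mul_zero] at this
    simp only [hc.2, eq_true hc.1, true_and, this, mul_ite, mul_zero]
    exact sum_congr rfl fun ν _ => if_congr Iff.rfl (by ring) rfl
  · simp only [← and_assoc (a := B₁.Coprime 15), hc, false_and, if_false, mul_zero, sum_const_zero]

theorem pick {N : ℕ} (hN : 0 < N) (c : ℤ) (F : ℕ → ℂ) :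
    (∑ B ∈ range N, if (N : ℤ) ∣ c - B then F B else 0) = F (rd N c) := by
  rw [sum_eq_single_of_mem (rd N c) (mem_range.2 (rd_lt hN c)), if_pos]
  · obtain ⟨u, hu⟩ := rd_spec hN c
    exact ⟨-u, by linear_combination -hu⟩
  · exact fun B hB h => if_neg fun hd => h (rd_eq (mem_range.1 hB) hd).symm

theorem cop_rd {M : ℕ} (hM : 0 < M) (c : ℤ) : (rd (15 * M) c).Coprime 15 ↔ Int.gcd c 15 = 1 := by
  obtain ⟨u, hu⟩ := rd_spec (N := 15 * M) (by omega) c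
  rw [← Nat.isCoprime_iff_coprime, hu, Nat.cast_mul, mul_assoc, IsCoprime.add_mul_left_left_iff,
    Int.isCoprime_iff_gcd_eq_one]
  rfl

theorem dvd_rd {M : ℕ} (hM : 0 < M) (c : ℤ) {d : ℤ} (hd : d ∣ 15 * M) (x y : ℤ) :
    d ∣ x + y * rd (15 * M) c ↔ d ∣ x + y * c := by
  obtain ⟨u, hu⟩ := rd_spec (N := 15 * M) (by omega) c
  rw [hu, mul_add, ← add_assoc, dvd_add_left]
  push_cast
  exact (hd.mul_right _).mul_left _

theorem dvd_rd₁ {M : ℕ} (hM : 0 < M) (c : ℤ) {d : ℤ} (hd : d ∣ 15 * M) (x y : ℤ) :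
    d ∣ x - y * rd (15 * M) c ↔ d ∣ x - y * c := by
  simpa only [neg_mul, ← sub_eq_add_neg] using dvd_rd hM c hd x (-y)

theorem dvd_rd₂ {M : ℕ} (hM : 0 < M) (c : ℤ) {d : ℤ} (hd : d ∣ 15 * M) (x : ℤ) :
    d ∣ rd (15 * M) c - x ↔ d ∣ c - x := by
  simpa only [one_mul, neg_add_eq_sub] using dvd_rd hM c hd (-x) 1

end TCXCM

open TCXCM in
theorem t_CXCM (hCXCH : CXCH) : CXCM := by
  intro M D k hM
  have e : ∀ B₁ B₂ a₁ a₂ : ℤ, coeff M (eS M a₁ B₁ * eS M a₂ B₂) = ∑ m ∈ antidiagonal M,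
      ∑ p ∈ (m.1 : ℤ).divisorsAntidiag, ∑ q ∈ (m.2 : ℤ).divisorsAntidiag,
        (if ((15 * M : ℕ) : ℤ) ∣ p.1 - B₁ then if ((15 * M : ℕ) : ℤ) ∣ q.1 - B₂ then
          (p.1.sign * q.1.sign : ℂ) else 0 else 0) * zc M (a₁ * p.2 + a₂ * q.2) := by
    intro B₁ B₂ a₁ a₂
    simp only [coeff_mul, eS, coeff_mk, sum_mul_sum, zc_add, Nat.cast_mul, Nat.cast_ofNat]
    refine sum_congr rfl fun m _ => sum_congr rfl fun p _ => sum_congr rfl fun q _ => ?_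
    split_ifs <;> ring
  simp only [e, tri_sum, one hCXCH hM, Mn, Int.cast_sum, mul_sum]
  rw [sum_comm (s := range M)]
  refine sum_congr rfl fun m _ => ?_
  rw [sum_comm (s := range M)]
  refine sum_congr rfl fun p _ => ?_
  rw [sum_comm (s := range M)]
  refine sum_congr rfl fun q _ => sum_congr rfl fun ν _ => ?_
  simp only [← mul_sum]
  congr 2
  have sw : ∀ (P Q R : Prop) [Decidable P] [Decidable Q] [Decidable R] (x : ℂ),
      (if P then if Q then if R then x else 0 else 0 else 0) =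
        if Q then if R then if P then x else 0 else 0 else 0 := by
    intros; split_ifs <;> rfl
  rw [sum_congr rfl fun B₁ _ => sum_congr rfl fun B₂ _ => sw _ _ _ _]
  simp only [sum_ite_irrel, sum_const_zero]
  rw [pick (by omega), pick (by omega)]
  simp only [cop_rd hM, dvd_rd hM _ (dvd_mul_left _ _), dvd_rd₁ hM _ (dvd_mul_left _ _),
    dvd_rd₁ hM _ (dvd_mul_right _ _), dvd_rd₂ hM _ (dvd_mul_right _ _)]
  split_ifs <;> simp

end Pool.Agent.P.MP_9c97e9_nt.KT
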