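import Pool.Agent.P.MP_9c97e9_nt.KT.BasC

/-! The crossing term as a sum over the group. -/

namespace Pool.Agent.P.MP_9c97e9_nt.KT

open MP_8b7eba_nt.BSD15 (crossSum cross side dt Gam)
open Finset Cx

namespace TCXCR

/-- pairs of factorisations -/
abbrev Q := (ℤ × ℤ) × ℤ × ℤ

/-- the pairs of factorisations with total `N` -/
def T (N : ℕ) : Finset Q :=
  (antidiagonal N).biUnion fun m => (m.1 : ℤ).divisorsAntidiag ×ˢ (m.2 : ℤ).divisorsAntidiag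

theorem mem_T {N : ℕ} {x : Q} :
    x ∈ T N ↔ 0 < x.1.1 * x.1.2 ∧ 0 < x.2.1 * x.2.2 ∧ x.1.1 * x.1.2 + x.2.1 * x.2.2 = N := by
  simp only [T, mem_biUnion, HasAntidiagonal.mem_antidiagonal, mem_product, Int.mem_divisorsAntidiag]
  constructor
  · rintro ⟨m, hm, ⟨h1, h2⟩, h3, h4⟩
    rw [h1, h3, ← hm]
    refine ⟨by omega, by omega, by push_cast; rfl⟩
  · rintro ⟨h1, h2, h3⟩
    refine ⟨((x.1.1 * x.1.2).toNat, (x.2.1 * x.2.2).toNat), ?_, ⟨?_, ?_⟩, ?_, ?_⟩ <;>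
      dsimp only <;> omega

theorem sum_T (N : ℕ) (f : ℤ × ℤ → ℤ × ℤ → ℤ) :
    ∑ x ∈ T N, f x.1 x.2 = ∑ m ∈ antidiagonal N, ∑ p ∈ (m.1 : ℤ).divisorsAntidiag,
      ∑ q ∈ (m.2 : ℤ).divisorsAntidiag, f p q := by
  rw [T, sum_biUnion]
  · exact sum_congr rfl fun m _ => sum_product' _ _ f
  · intro m _ m' _ h
    refine disjoint_left.2 fun x h1 h2 => h ?_
    simp only [mem_product, Int.mem_divisorsAntidiag] at h1 h2
    refine Prod.ext ?_ ?_
    · exact_mod_cast h1.1.1.symm.trans h2.1.1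
    · exact_mod_cast h1.2.1.symm.trans h2.2.1

/-- the quadruple of a matrix -/
def ph (N n k : ℤ) (γ : Gam) : Q :=
  ((γ.d, N * (γ.a + γ.b * k) - n * (γ.c + γ.d * k)), γ.c + γ.d * k, n * γ.d - N * γ.b)

/-- the weight of a quadruple -/
def wt (x : Q) : ℤ :=
  if 0 < x.1.1 * x.1.2 ∧ 0 < x.2.1 * x.2.2 then x.1.1.sign * x.2.1.sign else 0

theorem ph_inj {N : ℤ} (hN : N ≠ 0) (n k : ℤ) : Function.Injective (ph N n k) := by
  intro γ γ' h
  simp only [ph, Prod.mk.injEq] at h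
  obtain ⟨⟨h1, h2⟩, h3, h4⟩ := h
  have hb : γ.b = γ'.b := mul_left_cancel₀ hN (by rw [h1] at h4; linarith)
  have hc : γ.c = γ'.c := by rw [h1] at h3; linarith
  have ha : γ.a = γ'.a := by
    rw [h3, hb] at h2
    have h5 : γ.a + γ'.b * k = γ'.a + γ'.b * k := mul_left_cancel₀ hN (by linarith)
    linarith
  exact Gam.ext ha hb hc h1

theorem range_ph {N : ℤ} (hN : N ≠ 0) (n k : ℤ) (x : Q) :
    x ∈ Set.range (ph N n k) ↔ x.1.1 * x.1.2 + x.2.1 * x.2.2 = N ∧ Int.gcd x.1.1 15 = 1 ∧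
      15 ∣ x.2.1 - k * x.1.1 ∧ N ∣ x.1.2 + n * x.2.1 ∧ N ∣ x.2.2 - n * x.1.1 := by
  constructor
  · rintro ⟨γ, rfl⟩
    obtain ⟨c, hc⟩ := γ.dvd_c
    have hd := γ.det_eq
    simp only [ph]
    refine ⟨by linear_combination N * hd, ?_, ⟨c, by linear_combination hc⟩,
      ⟨γ.a + γ.b * k, by ring⟩, ⟨-γ.b, by ring⟩⟩
    exact Int.isCoprime_iff_gcd_eq_one.1 ⟨γ.a, -(γ.b * c), by linear_combination hd + γ.b * hc⟩
  · obtain ⟨⟨c₁, i₁⟩, c₂, i₂⟩ := x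
    rintro ⟨h1, -, h2, ⟨P, hP⟩, ⟨b, hb⟩⟩
    simp only at h1 h2 hP hb
    have hd : (P + b * k) * c₁ - -b * (c₂ - k * c₁) = 1 :=
      mul_left_cancel₀ hN (by linear_combination h1 - c₁ * hP - c₂ * hb)
    refine ⟨⟨P + b * k, -b, c₂ - k * c₁, c₁, hd, h2⟩, ?_⟩
    simp only [ph, Prod.mk.injEq, true_and]
    refine ⟨by linear_combination -hP, by ring, by linear_combination -hb⟩

theorem cross_eq {g M : ℤ} (hg : 0 < g) (hM : 0 < M) (ν k : ℤ) (γ : Gam) :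
    cross (ν, M) (1, 0) (γ.act (1, k)) (γ.act (0, 1)) = wt (ph (g * M) (g * ν) k γ) := by
  have hd := γ.det_eq
  have hN := mul_pos hg hM
  have hs : ∀ x : ℤ, (g * x).sign = x.sign := fun x => by
    rw [Int.sign_mul, Int.sign_eq_one_of_pos hg, one_mul]
  have h0 : dt (γ.act (1, k)) (γ.act (0, 1)) = 1 := by
    simp only [dt, Gam.act]
    linear_combination hd
  have h1 : (dt (ν, M) (γ.act (1, k))).sign = -(ph (g * M) (g * ν) k γ).1.2.sign := by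
    rw [← Int.sign_neg, ← hs]
    congr 1
    simp only [dt, Gam.act, ph]
    ring
  have h2 : (dt (ν, M) (γ.act (0, 1))).sign = (ph (g * M) (g * ν) k γ).2.2.sign := by
    rw [← hs]
    congr 1
    simp only [dt, Gam.act, ph]
    ring
  have h3 : dt (1, 0) (γ.act (1, k)) = (ph (g * M) (g * ν) k γ).2.1 := by
    simp only [dt, Gam.act, ph]
    ring
  have h4 : dt (1, 0) (γ.act (0, 1)) = (ph (g * M) (g * ν) k γ).1.1 := by
    simp only [dt, Gam.act, ph]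
    ring
  have h5 := ((range_ph hN.ne' (g * ν) k _).1 ⟨γ, rfl⟩).1
  unfold cross side wt
  rw [h0, h1, h2, h3, h4]
  generalize ph (g * M) (g * ν) k γ = x at h5
  obtain ⟨⟨c₁, i₁⟩, c₂, i₂⟩ := x
  simp only [Int.sign_one, mul_one] at h5 ⊢
  refine if_congr ?_ (mul_comm _ _) rfl
  have h6 : -i₁.sign * i₂.sign * (c₂.sign * c₁.sign) = -((c₁ * i₁) * (c₂ * i₂)).sign := by
    simp only [Int.sign_mul]
    ring
  rw [h6, neg_inj, Int.sign_eq_one_iff_pos, mul_pos_iff]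
  constructor
  · rintro (h | h)
    · exact h
    · linarith [h.1, h.2]
  · exact Or.inl

end TCXCR

open TCXCR in
theorem t_CXCR : CXCR := by
  intro g M ν k hg hM
  have hg' : (0 : ℤ) < g := by exact_mod_cast hg
  have hM' : (0 : ℤ) < M := by exact_mod_cast hM
  have hN := (mul_pos hg' hM').ne'
  unfold crossSum Mn
  simp only [cross_eq hg' hM']
  rw [← sum_T, ← finsum_mem_range (ph_inj hN _ k),
    finsum_mem_eq_sum_of_inter_support_eq (t := (T (g * M)).filter fun x =>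
      Int.gcd x.1.1 15 = 1 ∧ 15 ∣ x.2.1 - k * x.1.1 ∧ ((g * M : ℕ) : ℤ) ∣ x.1.2 + g * ν * x.2.1 ∧
        ((g * M : ℕ) : ℤ) ∣ x.2.2 - g * ν * x.1.1), sum_filter]
  · refine sum_congr rfl fun x hx => if_congr Iff.rfl ?_ rfl
    rw [mem_T] at hx
    rw [wt, if_pos ⟨hx.1, hx.2.1⟩]
  · ext x
    simp only [Set.mem_inter_iff, range_ph hN, coe_filter, Set.mem_ofPred_eq, mem_T,
      Function.mem_support, Nat.cast_mul]
    constructor
    · rintro ⟨⟨h1, h2⟩, h3⟩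
      have h4 : 0 < x.1.1 * x.1.2 ∧ 0 < x.2.1 * x.2.2 := by
        by_contra h5
        exact h3 (if_neg h5)
      exact ⟨⟨⟨h4.1, h4.2, h1⟩, h2⟩, h3⟩
    · rintro ⟨⟨⟨-, -, h1⟩, h2⟩, h3⟩
      exact ⟨⟨h1, h2⟩, h3⟩

end Pool.Agent.P.MP_9c97e9_nt.KT
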