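import Pool.Agent.P.MP_9c97e9_nt.KT.TCXE1

/-! The second end term. -/

namespace Pool.Agent.P.MP_9c97e9_nt.KT

open MP_8b7eba_nt.BSD15 (saw saw_neg endT equiv_iff Gam dt)
open Finset Cx

open TCXE1 in
theorem t_CXE2 (hCXSD : CXSD) : CXE2 := by
  intro g M ν k hg hM h15 hν hk
  have c15 : IsCoprime (M : ℤ) 15 := Nat.isCoprime_iff_coprime.2 h15
  obtain ⟨γ, hγ⟩ := (equiv_iff (x := (ν, M)) (y := (0, 1)) hν isCoprime_one_right).2
    (Int.isCoprime_iff_gcd_eq_one.1 c15)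
  have e1 : γ.a * 0 + γ.b * 1 = ν := congrArg Prod.fst hγ
  have e2 : γ.c * 0 + γ.d * 1 = M := congrArg Prod.snd hγ
  have e3 : ν * (γ.c + γ.d * k) - M * (γ.a + γ.b * k) = -1 := by
    linear_combination -γ.det_eq - (γ.c + γ.d * k) * e1 + (γ.a + γ.b * k) * e2
  obtain ⟨t, ht⟩ := γ.dvd_c
  rw [val h15 hν hγ, show dt (ν, M) (γ.act (1, k)) = -1 by simpa [dt, Gam.act] using e3]
  simp only [Gam.act, mul_one, Int.cast_neg, Int.cast_one, div_neg, div_one, neg_div, saw_neg]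
  rw [mul_neg, ← neg_mul]
  refine two hCXSD hg hM (γ.c + γ.d * k) _
    (fun B p h => ⟨hν.symm.dvd_of_dvd_mul_left ?_, ?_⟩) fun B s hs => ?_
  · exact (dvd1 hg).1 (by rw [← mul_assoc]; exact h.2.2.2)
  · have := (Int.natCast_dvd_natCast.2 (dvd_mul_right g M)).trans h.2.2.1
    rwa [mul_assoc, dvd_add_left (dvd_mul_right _ _)] at this
  · rw [show s * g + g * ν * B = g * (s + ν * B) by ring, dvd1 hg, mul_assoc, dvd1 hg]
    constructor
    · rintro ⟨-, ⟨u, hu⟩, ⟨v, hv⟩, -⟩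
      refine c15.symm.mul_dvd ⟨u - s * t, ?_⟩
        (hν.symm.dvd_of_dvd_mul_left ⟨v - s * (γ.a + γ.b * k), ?_⟩)
      · linear_combination hu - s * k * e2 - s * ht
      · linear_combination hv - s * e3
    · rintro ⟨u, hu⟩
      refine ⟨Int.isCoprime_iff_gcd_eq_one.1 ?_, ⟨s * t + M * u, ?_⟩,
        ⟨s * (γ.a + γ.b * k) + ν * 15 * u, ?_⟩, ν * s, by ring⟩
      · exact IsCoprime.mul_left ⟨s, 0, by linear_combination hs⟩ c15
      · linear_combination hu + s * k * e2 + s * ht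
      · linear_combination s * e3 + ν * hu

end Pool.Agent.P.MP_9c97e9_nt.KT
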