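import Pool.Agent.P.MP_9c97e9_nt.KT.BasC

/-! The values of the Eisenstein series at the cusps. -/

namespace Pool.Agent.P.MP_9c97e9_nt.KT

open MP_8b7eba_nt.Mod (M2 atI)
open MP_8b7eba_nt.BSD15 (saw)
open Filter Topology Cx

theorem t_CXEC (hCXEM : CXEM) (hCXEL : CXEL) : CXEC := by
  intro g hg x₁ x₂ hx
  have h1 : (M2.mk (15 * g.a) (15 * g.b) g.c g.d).det = 15 := by
    unfold M2.det at hg ⊢
    linear_combination 15 * hg
  obtain ⟨h, A, B, C, hh, hA, hC, e1, e2, e⟩ :=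
    MP_8b7eba_nt.Mod.exists_upper (g := ⟨15 * g.a, 15 * g.b, g.c, g.d⟩) (by omega)
  have h2 : IsCoprime g.a g.c := ⟨g.d, -g.b, by unfold M2.det at hg; linear_combination hg⟩
  rw [show Int.gcd (15 * g.a) g.c = Int.gcd 15 g.c from
    Int.gcd_mul_left_left_of_gcd_eq_one (Int.isCoprime_iff_gcd_eq_one.1 h2)] at e1
  rw [h1] at e2
  have hu : 0 < (M2.mk A B 0 C).det := by simp [M2.det]; positivity
  obtain ⟨L, l1, l2⟩ := hCXEL _ _ (hx.act hh)
  refine ⟨L / C, ((l1.comp (MP_8b7eba_nt.Mod.tendsto_upper (B := B) hA hC)).div_const _).congr' ?_,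
    fun y hy h0 => ?_⟩
  · filter_upwards [MP_8b7eba_nt.Mod.ev_im 0] with z hz
    have e3 : 15 * g.act z = h.act ((M2.mk A B 0 C).act z) := by
      rw [← M2.act_mul (by omega) hu hz, ← e]
      simp only [M2.act_eq, M2.j]
      push_cast
      ring
    have e4 : g.j z = h.j ((M2.mk A B 0 C).act z) * C := by
      have := M2.j_mul h hu.ne' hz
      rw [← e] at this
      simpa [M2.j] using this
    rw [e3, e4, hCXEM h hh _ _ _ (M2.im_act_pos hu hz) hx,
      mul_div_mul_left _ _ (M2.j_ne (by omega) (M2.im_act_pos hu hz))]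
    rfl
  · have a1 : (15 * g.a : ℚ) = h.a * A := by
      exact_mod_cast (congrArg M2.a e).trans (by simp)
    have a2 : (g.c : ℚ) = h.c * A := by
      exact_mod_cast (congrArg M2.c e).trans (by simp)
    have a3 : (Int.gcd 15 g.c : ℚ) = A := by exact_mod_cast e1.symm
    have a4 : (A : ℚ) ≠ 0 := by exact_mod_cast hA.ne'
    have a5 : y = x₁ * h.a + x₂ * h.c := by
      rw [hy, a3, a1, a2]
      field_simp
    have a6 : (A : ℂ) * C = 15 := by exact_mod_cast e2
    have a7 : (C : ℂ) ≠ 0 := by exact_mod_cast hC.ne'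
    rw [a3, l2 (a5 ▸ h0), ← a5, div_eq_iff a7]
    push_cast
    linear_combination (-(saw y : ℂ) / 15) * a6

end Pool.Agent.P.MP_9c97e9_nt.KT
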