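import Pool.Agent.P.MP_9c97e9_nt.KT.BasC

namespace Pool.Agent.P.MP_9c97e9_nt.KT

open MP_8b7eba_nt.Mod (atI ev_im)
open MP_8b7eba_nt.BSD15 (saw)
open MP_29cb78_nt.E (ee th0)
open Filter Topology Cx

theorem t_CXEL (hCXZS : CXZS) (hCXEP : CXEP) (hCXLL : CXLL) : CXEL := by
  intro x₁ x₂ h
  set f := Int.fract x₁ with hf
  have hn : NZ f x₂ := by simpa only [NZ, hf, Int.fract_fract] using h
  have e : ∀ τ : ℂ, 0 < τ.im → Ew x₁ x₂ τ =
      -1 / 2 - lG τ (f * τ + x₂) + lG τ ((1 - f : ℚ) * τ + (-x₂ : ℚ)) + f := fun τ hτ => by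
    have h1 := hCXEP f x₂ τ ⌊x₁⌋ 0 hτ hn
    rw [hf, Int.fract_add_floor, Int.cast_zero, add_zero, ← hf] at h1
    rw [h1, Ew, hCXZS τ _ hτ (hn.th0_ne hτ)]
    congr 3
    push_cast
    ring
  have h2 := hCXLL.2 (1 - f) (-x₂) (sub_pos.2 (Int.fract_lt_one _))
  by_cases h0 : f = 0
  · refine ⟨_, Tendsto.congr' ?_ (((tendsto_const_nhds (x := -1 / 2 - ee x₂ / (1 - ee x₂))).sub
      (hCXLL.2 1 x₂ one_pos)).add h2), fun k => absurd h0 k⟩
    filter_upwards [ev_im 0] with τ hτ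
    rw [e τ hτ, h0, Rat.cast_zero, zero_mul, zero_add, hCXLL.1 τ x₂ hτ, Rat.cast_one, one_mul]
    ring
  · refine ⟨_, Tendsto.congr' ?_ ((((tendsto_const_nhds (x := -1 / 2)).sub (hCXLL.2 f x₂
      (lt_of_le_of_ne (Int.fract_nonneg _) (Ne.symm h0)))).add h2).add_const (f : ℂ)), fun _ => ?_⟩
    · filter_upwards [ev_im 0] with τ hτ
      exact (e τ hτ).symm
    · rw [saw, ← hf, if_neg h0]
      push_cast
      ring

end Pool.Agent.P.MP_9c97e9_nt.KT
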