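import Pool.Agent.P.MP_9c97e9_nt.KT.BasC

/-! Periodicity of the Eisenstein series in the division point. -/

namespace Pool.Agent.P.MP_9c97e9_nt.KT

open MP_29cb78_nt.E (ee th0)
open MP_29cb78_nt.E.Th
open Cx
open scoped Real

namespace TCXEP

theorem ld_add (f : ℂ → ℂ) (w c : ℂ) : logDeriv f (w + c) = logDeriv (fun u => f (u + c)) w := by
  rw [logDeriv_apply, logDeriv_apply, deriv_comp_add_const]

theorem zz_int {τ : ℂ} (h : 0 < τ.im) (w : ℂ) (n : ℤ) : ZZ (w + n) τ = ZZ w τ := by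
  rw [ZZ, ZZ, ld_add, ← logDeriv_const_mul (f := fun u => vth u τ) w _ (ee_ne (-n / 2))]
  congr 2
  funext u
  rw [vth, vth, th0_int h, ← mul_assoc, ← ee_add]
  congr 2
  ring

theorem zz_tau {τ w : ℂ} (h : 0 < τ.im) (h0 : th0 w τ ≠ 0) : ZZ (w + τ) τ = ZZ w τ - 1 := by
  have e : (fun u => vth (u + τ) τ) = fun u => -ee (-τ / 2) * (ee (-u) * vth u τ) := by
    funext u
    rw [vth, vth, th0_tau h, show -(u + τ) / 2 = -τ / 2 + -u / 2 by ring, ee_add]
    ring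
  have d := (ee_hasDerivAt (-w)).comp w (hasDerivAt_neg w)
  have h2 : (2 * π * Complex.I : ℂ) ≠ 0 := by simp [Real.pi_ne_zero]
  rw [ZZ, ZZ, ld_add, e, logDeriv_const_mul _ _ (neg_ne_zero.2 (ee_ne _)),
    logDeriv_mul (f := fun u => ee (-u)) (g := fun u => vth u τ) w (ee_ne _) (vth_ne h0)
      d.differentiableAt (vth_diff h w),
    logDeriv_apply, show deriv (fun u => ee (-u)) w = _ from d.deriv]
  have := ee_ne (-w)
  field_simp
  ring

theorem ew_one {x₁ x₂ : ℚ} {τ : ℂ} (h : 0 < τ.im) (hx : NZ x₁ x₂) :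
    Ew (x₁ + 1) x₂ τ = Ew x₁ x₂ τ := by
  rw [Ew, Ew, ← sub_add_cancel (ZZ (x₁ * τ + x₂) τ) 1, ← zz_tau h (hx.th0_ne h)]
  push_cast
  rw [add_mul, one_mul, add_right_comm]
  ring

end TCXEP

open TCXEP

theorem t_CXEP : CXEP := by
  intro x₁ x₂ τ m n h hx
  have e : Ew (x₁ + m) (x₂ + n) τ = Ew (x₁ + m) x₂ τ := by
    rw [Ew, Ew, ← zz_int h (_ + (x₂ : ℂ)) n]
    push_cast
    rw [add_assoc]
  have k : ∀ m : ℤ, Ew (x₁ + (m + 1 : ℤ)) x₂ τ = Ew (x₁ + m) x₂ τ := fun m => by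
    rw [Int.cast_add, Int.cast_one, ← add_assoc, ew_one h (by simpa using hx.add_int m 0)]
  rw [e]
  clear e
  induction m using Int.induction_on with
  | zero => simp
  | succ i ih => rw [k, ih]
  | pred i ih => rw [← k, sub_add_cancel, ih]

end Pool.Agent.P.MP_9c97e9_nt.KT
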