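import Pool.Agent.P.MP_9c97e9_nt.KT.BasC

/-! The expansion at infinity of the Eisenstein series of weight one. -/

namespace Pool.Agent.P.MP_9c97e9_nt.KT

open MP_8b7eba_nt.Mod (qq qq_add qq_nat_mul norm_qq_lt)
open MP_8b7eba_nt.BSD15 (saw jac_saw_of)
open MP_29cb78_nt.E (ee th0)
open PowerSeries Finset Cx

namespace TCXEX

theorem lG_eq (M : ℕ) (hM : 0 < M) (a : ℤ) (B : ℕ) (z w : ℂ) (hw : w = a / M + B * (z / M)) :
    lG (15 * z) w = ∑' n : ℕ, zc M a * qq (z / M) ^ (B + 15 * M * n) /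
      (1 - zc M a * qq (z / M) ^ (B + 15 * M * n)) := by
  have h : (M : ℂ) ≠ 0 := by exact_mod_cast hM.ne'
  refine tsum_congr fun n => ?_
  have e : ee (n * (15 * z) + w) = zc M a * qq (z / M) ^ (B + 15 * M * n) := by
    rw [← qq_eq_ee, zc, ← qq_nat_mul, ← qq_add, hw]
    congr 1
    push_cast
    field_simp
    ring
  rw [e]

theorem coeff_eS (M : ℕ) (a : ℤ) (B B' m : ℕ) (h : B + B' = 15 * M) :
    coeff m (eS M a B) =
      -(∑ c ∈ m.divisors, if ((15 * M : ℕ) : ℤ) ∣ c - B then zc M a ^ (m / c) else 0) +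
        ∑ c ∈ m.divisors, if ((15 * M : ℕ) : ℤ) ∣ c - B' then zc M (-a) ^ (m / c) else 0 := by
  rw [eS, coeff_mk, sum_divisorsAntidiag, ← sum_neg_distrib, ← sum_add_distrib]
  refine sum_congr rfl fun c hc => ?_
  have h0 : (0 : ℤ) < c := by exact_mod_cast Nat.pos_of_mem_divisors hc
  have h1 : (B : ℤ) + B' = 15 * M := by exact_mod_cast h
  have e : (15 * M : ℤ) ∣ -c - B ↔ (15 * M : ℤ) ∣ c - B' := by
    rw [← dvd_neg, show -(-(c : ℤ) - B) = c - B' + 15 * M by linear_combination h1,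
      dvd_add_left dvd_rfl]
  simp only [Int.sign_neg, Int.sign_eq_one_of_pos h0, e, mul_neg, ← neg_mul a, zc_pow]
  push_cast
  split_ifs <;> simp

theorem core (hCXZS : CXZS) (hCXLA : CXLA) (M : ℕ) (a : ℤ) (B : ℕ) (z : ℂ) (hM : 0 < M)
    (h0 : 0 < B) (h1 : B < 15 * M) (hz : 0 < z.im) :
    HasSum (fun n => coeff n (eC M a B) * qq (z / M) ^ n)
      (Ew ((B : ℤ) / (15 * M)) (a / M) (15 * z)) := by
  have h : (M : ℂ) ≠ 0 := by exact_mod_cast hM.ne'
  have hq : (0 : ℚ) < M := by exact_mod_cast hM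
  obtain ⟨B', hB'⟩ : ∃ B', B + B' = 15 * M := ⟨15 * M - B, by omega⟩
  have hτ : 0 < (15 * z).im := by simpa using hz
  have ht : ‖qq (z / M)‖ < 1 := norm_qq_lt (by
    rw [Complex.div_natCast_im]
    positivity)
  have nz : NZ ((B : ℤ) / (15 * M)) (a / M) := nz_of_not_dvd hM (fun hd => by
    have := Int.le_of_dvd (by exact_mod_cast h0) hd
    omega) _
  have s1 := hCXLA _ (zc M a) (15 * M) B ht (norm_zc M a).le h0 h1.le
  have s2 := hCXLA _ (zc M (-a)) (15 * M) B' ht (norm_zc M _).le (by omega) (by omega)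
  have s0 : HasSum (fun n => coeff n (C (sw M B : ℂ)) * qq (z / M) ^ n) (sw M B : ℂ) := by
    have := hasSum_single (f := fun n => coeff n (C (sw M B : ℂ)) * qq (z / M) ^ n) 0
      fun n hn => by simp [coeff_C, hn]
    simpa using this
  have e : (B' : ℂ) = 15 * M - B := by
    rw [eq_sub_iff_add_eq']
    exact_mod_cast hB'
  have hs : (sw M B : ℂ) = B / (15 * M) - 1 / 2 := by
    have b0 : (0 : ℚ) < B := by exact_mod_cast h0
    have b1 : (B : ℚ) < 15 * M := by exact_mod_cast h1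
    rw [sw, jac_saw_of (by positivity) (by rw [div_lt_one (by positivity)]; exact b1),
      if_neg (by positivity)]
    push_cast
    rfl
  rw [Ew, hCXZS _ _ hτ (nz.th0_ne hτ), lG_eq M hM a B z _ (by push_cast; field_simp; ring),
    lG_eq M hM (-a) B' z _ (by rw [e]; push_cast; field_simp; ring)]
  have s := s0.add (s1.neg.add s2)
  have e1 : ∀ n, coeff n (eC M a B) * qq (z / M) ^ n = _ := fun n => by
    rw [eC, map_add, coeff_eS M a B B' n hB', add_mul, add_mul, neg_mul]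
  simp only [e1]
  refine (congrArg (fun x => HasSum _ x) ?_).mp s
  rw [hs]
  push_cast
  ring

end TCXEX

theorem t_CXEX (hCXZS : CXZS) (hCXEP : CXEP) (hCXLA : CXLA) : CXEX := by
  intro M a B z hM hB hz
  have hN : (0 : ℤ) < 15 * M := by positivity
  have hq : (M : ℚ) ≠ 0 := by exact_mod_cast hM.ne'
  obtain ⟨B0, h0⟩ := Int.eq_ofNat_of_zero_le (Int.emod_nonneg B hN.ne')
  have h1 := Int.emod_lt_of_pos B hN
  have h2 := Int.emod_add_mul_ediv B (15 * M)
  rw [h0] at h1 h2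
  have h3 : ¬ (15 * M : ℤ) ∣ B0 := fun hd => hB (h2 ▸ hd.add (dvd_mul_right _ _))
  have h4 : 0 < B0 := Nat.pos_of_ne_zero fun c => h3 (by simp [c])
  have s := TCXEX.core hCXZS hCXLA M a B0 z hM h4 (by exact_mod_cast h1) hz
  rw [← hCXEP _ _ _ (B / (15 * M)) 0 (by simpa using hz) (nz_of_not_dvd hM h3 _),
    eC_congr hM (a' := a) (B' := B) (by simp) ⟨-(B / (15 * M)), by linear_combination h2⟩] at s
  have e : ((B0 : ℤ) : ℚ) / (15 * M) + (B / (15 * M) : ℤ) = B / (15 * M) := by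
    have h5 : ((B0 : ℤ) : ℚ) + 15 * M * (B / (15 * M) : ℤ) = B := by exact_mod_cast h2
    field_simp
    linear_combination h5
  rwa [e, Int.cast_zero, add_zero] at s

end Pool.Agent.P.MP_9c97e9_nt.KT
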