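import Pool.Agent.P.MP_9c97e9_nt.KT.BasC

/-! The forms of the units at the cusps other than infinity. -/

namespace Pool.Agent.P.MP_9c97e9_nt.KT

open MP_8b7eba_nt.Mod (M2 atI)
open MP_8b7eba_nt.BSD15 (saw saw_add_int)
open Filter Topology Cx

namespace TCXFC

theorem gcd_cases {c : ℤ} (h : ¬ 15 ∣ c) :
    Int.gcd 15 c = 1 ∨ Int.gcd 15 c = 3 ∨ Int.gcd 15 c = 5 := by
  have h1 : Int.gcd 15 c ∣ 15 := by exact_mod_cast Int.gcd_dvd_left 15 c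
  have h2 : Int.gcd 15 c ≠ 15 := fun e => h (by
    have := Int.gcd_dvd_right 15 c
    rw [e] at this
    exact_mod_cast this)
  have h3 := Nat.le_of_dvd (by norm_num) h1
  generalize Int.gcd 15 c = A at h1 h2 h3
  interval_cases A <;> simp_all

/-- one term -/
theorem term (hCXEC : CXEC) {M : ℕ} (hM : 0 < M) (hc : M.Coprime 15) {g : M2} (hg : g.det = 1)
    {b β : ℤ} (hb : IsCoprime b 15) (hβ : IsCoprime β 15) (i₁ i₂ B : ℤ)
    (hB : B = 15 * i₁ + β * M * b) :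
    ∃ L, Tendsto (fun z => Ew ((B : ℚ) / (15 * M)) (i₂ / M) (15 * g.act z) / g.j z) atI (𝓝 L) ∧
      (¬ (M : ℤ) ∣ i₁ * (15 * g.a) + i₂ * g.c → L = (Int.gcd 15 g.c / 15 *
        saw (((i₁ * (15 * g.a) + i₂ * g.c : ℤ) : ℚ) / (Int.gcd 15 g.c * M) +
          β * b * g.a / Int.gcd 15 g.c) : ℚ)) := by
  obtain ⟨L, h1, h2⟩ := hCXEC g hg ((B : ℚ) / (15 * M)) (i₂ / M)
    (nz_of_not_dvd hM (not_dvd_of_cop (hB ▸ cop_B hc hb hβ i₁)) _)
  refine ⟨L, h1, fun hd => h2 _ ?_ ?_⟩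
  · have h0 : (M : ℚ) ≠ 0 := by exact_mod_cast hM.ne'
    have hA : (Int.gcd 15 g.c : ℚ) ≠ 0 := by
      exact_mod_cast (Int.gcd_pos_of_ne_zero_left g.c (by norm_num : (15 : ℤ) ≠ 0)).ne'
    rw [hB]
    push_cast
    field_simp
    ring
  · have h0 : (M : ℚ) ≠ 0 := by exact_mod_cast hM.ne'
    have hA' : 0 < Int.gcd 15 g.c :=
      Int.gcd_pos_of_ne_zero_left g.c (by norm_num : (15 : ℤ) ≠ 0)
    have hA : (Int.gcd 15 g.c : ℚ) ≠ 0 := by exact_mod_cast hA'.ne'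
    have h3 := fract_div_ne (N := Int.gcd 15 g.c * M) (Nat.mul_pos hA' hM)
      (B := i₁ * (15 * g.a) + i₂ * g.c + M * (β * b * g.a)) (fun h => hd (by
        have h4 : (M : ℤ) ∣ i₁ * (15 * g.a) + i₂ * g.c + M * (β * b * g.a) :=
          (Dvd.intro_left (Int.gcd 15 g.c : ℤ) (by push_cast; rfl)).trans h
        exact (dvd_add_left (dvd_mul_right _ _)).1 h4))
    convert h3 using 2
    push_cast
    field_simp

end TCXFC

open TCXFC in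
theorem t_CXFC (hCXEC : CXEC) : CXFC := by
  intro M hM hc g hg h15 b i₁ i₂ hb
  obtain ⟨L₁, t₁, e₁⟩ := term hCXEC hM hc hg hb (β := 1) isCoprime_one_left i₁ i₂
    (15 * i₁ + M * b) (by ring)
  obtain ⟨L₂, t₂, e₂⟩ := term hCXEC hM hc hg hb (β := -1) isCoprime_one_left.neg_left i₁ i₂
    (15 * i₁ - M * b) (by ring)
  obtain ⟨L₃, t₃, e₃⟩ := term hCXEC hM hc hg hb (β := 4) ⟨4, -1, by norm_num⟩ i₁ i₂
    (15 * i₁ + 4 * M * b) (by ring)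
  obtain ⟨L₄, t₄, e₄⟩ := term hCXEC hM hc hg hb (β := -4) ⟨-4, -1, by norm_num⟩ i₁ i₂
    (15 * i₁ - 4 * M * b) (by ring)
  refine ⟨L₁ + L₂ - L₃ - L₄, ?_, fun hL => ?_⟩
  · refine (((t₁.add t₂).sub t₃).sub t₄).congr fun z => ?_
    simp only [Fc]
    ring
  · by_contra hd
    apply hL
    rw [e₁ hd, e₂ hd, e₃ hd, e₄ hd]
    generalize ((i₁ * (15 * g.a) + i₂ * g.c : ℤ) : ℚ) = N
    have key : ∀ (x y : ℚ) (k : ℤ), y = x + k → saw y = saw x := fun x y k h => by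
      rw [h, saw_add_int]
    rcases gcd_cases h15 with h | h | h <;> rw [h]
    · rw [key (N / ((1 : ℕ) * M) + ((4 : ℤ) : ℚ) * b * g.a / (1 : ℕ)) (3 * b * g.a)
          (x := N / ((1 : ℕ) * M) + ((1 : ℤ) : ℚ) * b * g.a / (1 : ℕ)) (by push_cast; ring),
        key (N / ((1 : ℕ) * M) + ((-4 : ℤ) : ℚ) * b * g.a / (1 : ℕ)) (-3 * b * g.a)
          (x := N / ((1 : ℕ) * M) + ((-1 : ℤ) : ℚ) * b * g.a / (1 : ℕ)) (by push_cast; ring)]
      ring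
    · rw [key (N / ((3 : ℕ) * M) + ((4 : ℤ) : ℚ) * b * g.a / (3 : ℕ)) (b * g.a)
          (x := N / ((3 : ℕ) * M) + ((1 : ℤ) : ℚ) * b * g.a / (3 : ℕ)) (by push_cast; ring),
        key (N / ((3 : ℕ) * M) + ((-4 : ℤ) : ℚ) * b * g.a / (3 : ℕ)) (-b * g.a)
          (x := N / ((3 : ℕ) * M) + ((-1 : ℤ) : ℚ) * b * g.a / (3 : ℕ)) (by push_cast; ring)]
      ring
    · rw [key (N / ((5 : ℕ) * M) + ((4 : ℤ) : ℚ) * b * g.a / (5 : ℕ)) (b * g.a)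
          (x := N / ((5 : ℕ) * M) + ((-1 : ℤ) : ℚ) * b * g.a / (5 : ℕ)) (by push_cast; ring),
        key (N / ((5 : ℕ) * M) + ((-4 : ℤ) : ℚ) * b * g.a / (5 : ℕ)) (-b * g.a)
          (x := N / ((5 : ℕ) * M) + ((1 : ℤ) : ℚ) * b * g.a / (5 : ℕ)) (by push_cast; ring)]
      ring

end Pool.Agent.P.MP_9c97e9_nt.KT
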