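import Pool.Agent.P.MP_9c97e9_nt.KT.BasC

/-! Proof of CXFI. -/

namespace Pool.Agent.P.MP_9c97e9_nt.KT

open MP_8b7eba_nt
open MP_8b7eba_nt.Mod (M2 G0 UH an qq atI sl Inv)
open Filter Topology Complex

namespace TCXFI

variable {M : ℕ} {G : ℂ → ℂ} {c : ℕ → ℂ}

theorem norm_le {z w : ℂ} (h : z.im ≤ w.im) : ‖qq (w / M)‖ ≤ ‖qq (z / M)‖ := by
  rw [Mod.norm_qq, Mod.norm_qq, Mod.ex, Mod.ex, div_natCast_im, div_natCast_im, Real.exp_le_exp]
  have h1 : z.im / M ≤ w.im / M := by gcongr
  nlinarith [Real.pi_pos]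

theorem hol (h : ∀ z : ℂ, 0 < z.im → HasSum (fun n => c n * qq (z / M) ^ n) (G z)) :
    DifferentiableOn ℂ G UH := fun z hz => by
  have hz' : 0 < z.im := hz
  have h0 : 0 < (z / 2).im := by simpa using hz'
  have hU : IsOpen {w : ℂ | (z / 2).im < w.im} := isOpen_lt continuous_const continuous_im
  have h1 := differentiableOn_tsum_of_summable_norm (F := fun n w => c n * qq (w / M) ^ n)
    (h _ h0).summable.norm (fun n => by unfold qq; fun_prop) hU fun n w hw => by
      simp only [norm_mul, norm_pow]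
      have := norm_le (M := M) (le_of_lt hw)
      gcongr
  exact ((h1.congr fun w hw => (h w (h0.trans hw)).tsum_eq.symm).differentiableAt
    (hU.mem_nhds (by simpa using hz'))).differentiableWithinAt

theorem lim (hM : 0 < M) (h : ∀ z : ℂ, 0 < z.im → HasSum (fun n => c n * qq (z / M) ^ n) (G z)) :
    Tendsto G atI (𝓝 (c 0)) := by
  have w0 : (0 : ℝ) < M := Nat.cast_pos.2 hM
  have h1 : Tendsto (fun z : ℂ => qq (z / M)) atI (𝓝 0) := by
    refine Mod.tendsto_qq.comp (tendsto_comap_iff.2 ?_)
    exact (Mod.tendsto_im.atTop_div_const w0).congr fun z => (div_natCast_im z M).symm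
  have h3 := tendsto_tsum_of_dominated_convergence (𝓕 := atI)
    (f := fun z k => c k * qq (z / M) ^ k) (g := fun k => c k * 0 ^ k)
    (h I (by simp)).summable.norm (fun k => (h1.pow k).const_mul _)
    ((Mod.ev_im I.im).mono fun z hz k => by
      simp only [norm_mul, norm_pow]
      have := norm_le (M := M) hz.le
      gcongr)
  rw [tsum_eq_single 0 fun k hk => by simp [hk], pow_zero, mul_one] at h3
  refine h3.congr' ?_
  filter_upwards [Mod.ev_im 0] with z hz using (h z hz).tsum_eq

end TCXFI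

theorem t_CXFI : CXFI := by
  intro M G c hM h hI hd h0
  have hG := TCXFI.hol h
  obtain ⟨k, hk⟩ := Mod.eq_mul_ff hG hI fun g hg => by
    refine Mod.decay_zero (by exact_mod_cast Mod.wd_pos g)
      (fun z hz => by exact_mod_cast Mod.sl_add_wd hI hg hz) (Mod.diff_sl hG (by omega)) ?_
    by_cases hc : 15 ∣ g.c
    · refine (h0 ▸ TCXFI.lim hM h).congr' ?_
      filter_upwards [Mod.ev_im 0] with z hz using ((hI g ⟨hg, hc⟩).sl_eq hg hz).symm
    · exact hd g hg hc
  have key : ∀ j, c j = if M ∣ j then k * an (j / M) else 0 := fun j =>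
    sub_eq_zero.1 (R1.QE_unique hM (c := fun j => c j - if M ∣ j then k * an (j / M) else 0)
      (fun z hz => by
        have h1 : HasSum (fun n => (if M ∣ n then k * an (n / M) else 0) * qq (z / M) ^ n)
            (G z) := by
          rw [← (mul_right_injective₀ hM.ne').hasSum_iff fun n hn => by
            rw [if_neg fun ⟨m, e⟩ => hn ⟨m, e.symm⟩, zero_mul], hk z hz]
          refine ((Mod.hasSum_ff hz).mul_left k).congr_fun fun n => ?_
          simp only [Function.comp, dvd_mul_right, if_true, Nat.mul_div_cancel_left n hM, pow_mul,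
            R1.QE_pow hM.ne', Nat.cast_one, div_one, mul_assoc]
        simpa [sub_mul] using (h z hz).sub h1) j)
  intro j
  rw [key j, key M, if_pos dvd_rfl, Nat.div_self hM, Mod.an_one, Int.cast_one, mul_one]

end Pool.Agent.P.MP_9c97e9_nt.KT
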