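import Pool.Agent.P.MP_9c97e9_nt.KT.BasC

/-! Periodicity and transformation of the forms of the units. -/

namespace Pool.Agent.P.MP_9c97e9_nt.KT

open MP_8b7eba_nt.Mod (M2)
open Cx

namespace TCXFM

variable {M : ℕ}

theorem per (hP : CXEP) (hM : 0 < M) {B B' a a' : ℤ} {τ : ℂ} (hτ : 0 < τ.im) (hB : IsCoprime B 15)
    (h1 : (15 * M : ℤ) ∣ B' - B) (h2 : (M : ℤ) ∣ a' - a) :
    Ew (B / (15 * M)) (a / M) τ = Ew (B' / (15 * M)) (a' / M) τ := by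
  obtain ⟨m, hm⟩ := h1
  obtain ⟨n, hn⟩ := h2
  have h0 : (M : ℚ) ≠ 0 := by exact_mod_cast hM.ne'
  rw [← hP _ _ τ m n hτ (nz_of_not_dvd hM (not_dvd_of_cop hB) _),
    show B' = B + 15 * M * m by linear_combination hm, show a' = a + M * n by linear_combination hn]
  congr 1 <;> push_cast <;> field_simp

theorem act (hP : CXEP) (hE : CXEM) (hM : 0 < M) {γ : M2} {c : ℤ} (hγ : γ.det = 1)
    (hc : γ.c = 15 * c) {z : ℂ} (hz : 0 < z.im) {B B' a a' : ℤ} (hB : IsCoprime B 15)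
    (h1 : B' = B * γ.a + 15 * (a * c)) (h2 : (M : ℤ) ∣ a' - (B * γ.b + a * γ.d)) :
    Ew (B / (15 * M)) (a / M) (15 * γ.act z) = γ.j z * Ew (B' / (15 * M)) (a' / M) (15 * z) := by
  have h0 : (M : ℚ) ≠ 0 := by exact_mod_cast hM.ne'
  have hd : γ.a * γ.d - γ.b * (15 * c) = 1 := by rw [← hc]; exact hγ
  have hz' : 0 < (15 * z).im := by simpa using hz
  have hj : (M2.mk γ.a (15 * γ.b) c γ.d).j (15 * z) = γ.j z := by
    simp only [M2.j, hc]
    push_cast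
    ring
  have ha : 15 * γ.act z = (M2.mk γ.a (15 * γ.b) c γ.d).act (15 * z) := by
    rw [M2.act_eq, M2.act_eq, hj]
    push_cast
    ring
  have hB' : IsCoprime B' 15 := h1 ▸ (hB.mul_left
    ⟨γ.d, -(γ.b * c), by linear_combination hd⟩).add_mul_left_left _
  rw [ha, hE _ (by simp only [M2.det]; linear_combination hd) _ _ _ hz'
    (nz_of_not_dvd hM (not_dvd_of_cop hB) _), hj,
    ← per hP hM hz' hB' (B' := B') (by simp) h2, h1]
  congr 2 <;> push_cast <;> field_simp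

end TCXFM

theorem t_CXFM (hCXEP : CXEP) (hCXEM : CXEM) : CXFM := by
  intro M hM h15 b i₁ i₂ z hb hz
  have c : ∀ β : ℤ, IsCoprime β 15 → ∀ B, B = 15 * i₁ + β * M * b → IsCoprime B 15 :=
    fun β h B e => e ▸ cop_B h15 hb h i₁
  have c1 := c 1 isCoprime_one_left (15 * i₁ + M * b) (by ring)
  have c2 := c (-1) isCoprime_one_left.neg_left (15 * i₁ - M * b) (by ring)
  have c3 := c 4 ⟨4, -1, by norm_num⟩ (15 * i₁ + 4 * M * b) rfl
  have c4 := c (-4) ⟨-4, -1, by norm_num⟩ (15 * i₁ - 4 * M * b) (by ring)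
  refine ⟨fun b' i₁' i₂' h0 h1 h2 => ?_, fun γ c hγ hc => ?_⟩
  · have hz' : 0 < (15 * z).im := by simpa using hz
    obtain ⟨k, hk⟩ := h0.dvd
    obtain ⟨l, hl⟩ := h1.dvd
    rw [Fc, Fc, TCXFM.per hCXEP hM hz' c1 (B' := 15 * i₁' + M * b')
        ⟨l + k, by linear_combination 15 * hl + M * hk⟩ h2.dvd,
      TCXFM.per hCXEP hM hz' c2 (B' := 15 * i₁' - M * b')
        ⟨l - k, by linear_combination 15 * hl - M * hk⟩ h2.dvd,
      TCXFM.per hCXEP hM hz' c3 (B' := 15 * i₁' + 4 * M * b')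
        ⟨l + 4 * k, by linear_combination 15 * hl + 4 * M * hk⟩ h2.dvd,
      TCXFM.per hCXEP hM hz' c4 (B' := 15 * i₁' - 4 * M * b')
        ⟨l - 4 * k, by linear_combination 15 * hl - 4 * M * hk⟩ h2.dvd]
  · have k := fun B B' hB => TCXFM.act hCXEP hCXEM hM hγ hc hz (B := B) (B' := B') (a := i₂)
      (a' := i₁ * (15 * γ.b) + i₂ * γ.d) hB
    rw [Fc, Fc,
      k _ (15 * (i₁ * γ.a + i₂ * c) + M * (b * γ.a)) c1 (by ring) ⟨-(b * γ.b), by ring⟩,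
      k _ (15 * (i₁ * γ.a + i₂ * c) - M * (b * γ.a)) c2 (by ring) ⟨b * γ.b, by ring⟩,
      k _ (15 * (i₁ * γ.a + i₂ * c) + 4 * M * (b * γ.a)) c3 (by ring) ⟨-(4 * b * γ.b), by ring⟩,
      k _ (15 * (i₁ * γ.a + i₂ * c) - 4 * M * (b * γ.a)) c4 (by ring) ⟨4 * b * γ.b, by ring⟩]
    ring

end Pool.Agent.P.MP_9c97e9_nt.KT
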