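import Pool.Agent.P.MP_9c97e9_nt.KT.BasC

namespace Pool.Agent.P.MP_9c97e9_nt.KT

open PowerSeries Finset Cx

namespace TCXG0

/-- the constant term of the series of a unit -/
noncomputable def J (M : ℕ) (b i : ℤ) : ℂ :=
  (sw M (15 * i + M * b) : ℂ) + sw M (15 * i - M * b) - sw M (15 * i + 4 * M * b) -
    sw M (15 * i - 4 * M * b)

theorem cc (M : ℕ) (b i₁ i₂ : ℤ) : constantCoeff (eE M b i₁ i₂) = J M b i₁ := by
  simp only [eE, ← coeff_zero_eq_constantCoeff_apply, map_sub, map_add, coeff_zero_eC, J]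

theorem J_congr {M : ℕ} (hM : 0 < M) {b b' i i' : ℤ} (hb : b ≡ b' [ZMOD 15])
    (hi : i ≡ i' [ZMOD M]) : J M b i = J M b' i' := by
  obtain ⟨k, hk⟩ := hb.symm.dvd
  obtain ⟨l, hl⟩ := hi.symm.dvd
  unfold J
  rw [sw_congr hM (B := 15 * i + M * b) (B' := 15 * i' + M * b')
      ⟨l + k, by linear_combination 15 * hl + M * hk⟩,
    sw_congr hM (B := 15 * i - M * b) (B' := 15 * i' - M * b')
      ⟨l - k, by linear_combination 15 * hl - M * hk⟩,
    sw_congr hM (B := 15 * i + 4 * M * b) (B' := 15 * i' + 4 * M * b')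
      ⟨l + 4 * k, by linear_combination 15 * hl + 4 * M * hk⟩,
    sw_congr hM (B := 15 * i - 4 * M * b) (B' := 15 * i' - 4 * M * b')
      ⟨l - 4 * k, by linear_combination 15 * hl - 4 * M * hk⟩]

theorem J_four {M : ℕ} (hM : 0 < M) (b i : ℤ) : J M (2 * (b * 2)) i = -J M b i := by
  unfold J
  rw [sw_congr hM (B := 15 * i + 4 * M * (2 * (b * 2))) (B' := 15 * i + M * b) ⟨b, by ring⟩,
    sw_congr hM (B := 15 * i - 4 * M * (2 * (b * 2))) (B' := 15 * i - M * b) ⟨-b, by ring⟩,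
    show (M : ℤ) * (2 * (b * 2)) = 4 * M * b by ring]
  ring

end TCXG0

open TCXG0 in
theorem t_CXG0 (hCXIP : CXIP) : CXG0 := by
  intro M δ hM _
  obtain ⟨h1, h2⟩ := hCXIP M δ (fun b i₁ _ j₁ _ => J M b i₁ * J M (2 * b) j₁) hM
    fun b b' i₁ i₁' _ _ j₁ j₁' _ _ _ k1 k2 _ k3 _ => by
      beta_reduce
      rw [J_congr hM k1 k2, J_congr hM (k1.mul_left 2) k3]
  have h3 := h1 2 ⟨1, 0, 0, 1⟩ ⟨8, -1, by norm_num⟩ rfl
  simp only [mul_one, mul_zero, add_zero, J_four hM, sI, mul_neg, sum_neg_distrib] at h2 h3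
  simp only [coeff_zero_eq_constantCoeff_apply, gC, sI, map_sum, map_mul, cc]
  simp only [mul_comm _ (2 : ℤ), mul_comm (J M (2 * _) _)] at h3
  rw [h2] at h3
  linear_combination -h3 / 2

end Pool.Agent.P.MP_9c97e9_nt.KT
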