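import Pool.Agent.P.MP_9c97e9_nt.KT.BasC

/-! Vanishing of the form of weight two at the cusps other than infinity. -/

namespace Pool.Agent.P.MP_9c97e9_nt.KT

open MP_8b7eba_nt.Mod (M2 atI sl)
open Finset Filter Topology Cx

namespace TCXGC

theorem no {M : ℕ} (h1 : 1 < M) (hM : M.Coprime 15) {g : M2} (hg : g.det = 1) {i₁ i₂ j₁ j₂ : ℤ}
    (hD : IsCoprime (i₁ * j₂ - i₂ * j₁) (M : ℤ)) (hu : (M : ℤ) ∣ i₁ * (15 * g.a) + i₂ * g.c)
    (hv : (M : ℤ) ∣ j₁ * (15 * g.a) + j₂ * g.c) : False := by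
  have h2 : (M : ℤ) ∣ 15 * (i₁ * j₂ - i₂ * j₁) := by
    have h3 := (hu.mul_left (g.d * j₂ + 15 * g.b * j₁)).sub (hv.mul_left (g.d * i₂ + 15 * g.b * i₁))
    rw [M2.det] at hg
    refine (dvd_iff_dvd_of_dvd_sub ?_).1 h3
    exact Dvd.intro 0 (by linear_combination (-15 * (i₁ * j₂ - i₂ * j₁)) * hg)
  have h4 : IsCoprime (M : ℤ) 15 := Nat.isCoprime_iff_coprime.2 hM
  have h5 := (h4.mul_right hD.symm).isUnit_of_dvd' dvd_rfl h2
  rw [Int.isUnit_iff] at h5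
  omega

end TCXGC

theorem t_CXGC (hCXFC : CXFC) : CXGC := by
  classical
  intro M δ h1 hM g hg hc
  have e : sl (Gc M δ) g = fun z => ∑ i ∈ (Ix M).filter fun i => dI M i = δ,
      Fc M i.1 i.2.1.1 i.2.1.2 (g.act z) / g.j z *
        (Fc M (2 * i.1) i.2.2.1 i.2.2.2 (g.act z) / g.j z) := by
    funext z
    rw [sl, hg, Gc, sI, Int.cast_one, one_mul, sum_div]
    refine sum_congr (by congr) fun i _ => ?_
    rw [div_mul_div_comm, sq]
  rw [e, ← sum_const_zero (s := (Ix M).filter fun i => dI M i = δ)]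
  refine tendsto_finsetSum _ fun i hi => ?_
  obtain ⟨-, hb, hD⟩ := mem_filter.1 (mem_filter.1 hi).1
  have hb' : IsCoprime (i.1 : ℤ) 15 := Nat.isCoprime_iff_coprime.2 hb
  have h2 : IsCoprime (2 : ℤ) 15 := Int.isCoprime_iff_gcd_eq_one.2 (by norm_num)
  obtain ⟨L, hL, hL'⟩ := hCXFC M (by omega) hM g hg hc i.1 i.2.1.1 i.2.1.2 hb'
  obtain ⟨K, hK, hK'⟩ := hCXFC M (by omega) hM g hg hc (2 * i.1) i.2.2.1 i.2.2.2 (h2.mul_left hb')
  have h0 : L * K = 0 := by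
    by_contra h
    exact TCXGC.no h1 hM hg hD (hL' (left_ne_zero_of_mul h)) (hK' (right_ne_zero_of_mul h))
  exact h0 ▸ hL.mul hK

end Pool.Agent.P.MP_9c97e9_nt.KT
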