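import Pool.Agent.P.MP_9c97e9_nt.KT.BasC

/-! The expansion of the form of weight two. -/

namespace Pool.Agent.P.MP_9c97e9_nt.KT

open MP_8b7eba_nt.Mod (qq)
open PowerSeries Finset Cx

namespace TCXGE

/-- the series has the given sum -/
def H (t : ℂ) (A : ℂ⟦X⟧) (f : ℂ) : Prop := HasSum (fun n => coeff n A * t ^ n) f

variable {t f g : ℂ} {A B : ℂ⟦X⟧}

theorem H.add (h : H t A f) (h' : H t B g) : H t (A + B) (f + g) := by
  simpa [H, add_mul] using HasSum.add h h'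

theorem H.sub (h : H t A f) (h' : H t B g) : H t (A - B) (f - g) := by
  simpa [H, sub_mul] using HasSum.sub h h'

theorem H.mul (h : H t A f) (h' : H t B g) : H t (A * B) (f * g) := by
  have h1 := (HasSum.summable h).norm
  have h2 := (HasSum.summable h').norm
  have h3 := (summable_norm_sum_mul_antidiagonal_of_summable_norm h1 h2).of_norm.hasSum
  rw [← tsum_mul_tsum_eq_tsum_sum_antidiagonal_of_summable_norm h1 h2, HasSum.tsum_eq h,
    HasSum.tsum_eq h'] at h3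
  refine h3.congr_fun fun n => ?_
  rw [coeff_mul, sum_mul]
  refine sum_congr rfl fun p hp => ?_
  rw [← mem_antidiagonal.1 hp, pow_add]
  ring

theorem H.sum {ι : Type} (s : Finset ι) {T : ι → ℂ⟦X⟧} {F : ι → ℂ} (h : ∀ i ∈ s, H t (T i) (F i)) :
    H t (∑ i ∈ s, T i) (∑ i ∈ s, F i) := by
  simpa [H, sum_mul] using hasSum_sum h

theorem fc (hE : CXEX) {M : ℕ} (hM : 0 < M) (hc : M.Coprime 15) {z : ℂ} (hz : 0 < z.im) {b : ℤ}
    (hb : IsCoprime b 15) (i₁ i₂ : ℤ) : H (qq (z / M)) (eE M b i₁ i₂) (Fc M b i₁ i₂ z) := by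
  have key : ∀ β B : ℤ, IsCoprime β 15 → B = 15 * i₁ + β * M * b →
      H (qq (z / M)) (eC M i₂ B) (Ew (B / (15 * M)) (i₂ / M) (15 * z)) := fun β B hβ e =>
    hE M i₂ B z hM (not_dvd_of_cop (e ▸ cop_B hc hb hβ i₁)) hz
  exact (((key 1 _ isCoprime_one_left (by ring)).add
    (key (-1) _ isCoprime_one_left.neg_left (by ring))).sub
    (key 4 _ ⟨4, -1, by norm_num⟩ rfl)).sub (key (-4) _ ⟨-4, -1, by norm_num⟩ (by ring))

end TCXGE

open TCXGE in
theorem t_CXGE (hCXEX : CXEX) : CXGE := by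
  intro M δ z hM hc hz
  refine H.sum _ fun i hi => ?_
  have hb : IsCoprime (i.1 : ℤ) 15 := Nat.isCoprime_iff_coprime.2 ((mem_sI hM).1 hi).2.1
  exact (fc hCXEX hM hc hz hb _ _).mul
    (fc hCXEX hM hc hz (IsCoprime.mul_left ⟨8, -1, by norm_num⟩ hb) _ _)

end Pool.Agent.P.MP_9c97e9_nt.KT
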