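import Pool.Agent.P.MP_9c97e9_nt.KT.BasC

/-! Invariance of the form of weight two. -/

namespace Pool.Agent.P.MP_9c97e9_nt.KT

open MP_8b7eba_nt.Mod (M2 G0)
open Cx

theorem t_CXGI (hCXFM : CXFM) (hCXIP : CXIP) : CXGI := by
  intro M δ hM h15 γ ⟨h1, c, hc⟩ z hz
  have h2 : IsCoprime (2 : ℤ) 15 := ⟨8, -1, by norm_num⟩
  have hd : γ.a * γ.d - γ.b * (15 * c) = 1 := hc ▸ h1
  have hP : Per M fun b i₁ i₂ j₁ j₂ => Fc M b i₁ i₂ z * Fc M (2 * b) j₁ j₂ z := by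
    intro b b' i₁ i₁' i₂ i₂' j₁ j₁' j₂ j₂' hb e e1 e2 e3 e4
    beta_reduce
    rw [(hCXFM M hM h15 b i₁ i₂ z hb hz).1 _ _ _ e e1 e2,
      (hCXFM M hM h15 _ j₁ j₂ z (h2.mul_left hb) hz).1 _ _ _ (e.mul_left 2) e3 e4]
  rw [Gc, Gc, ← (hCXIP M δ _ hM hP).1 γ.a ⟨γ.a, 15 * γ.b, c, γ.d⟩
    ⟨γ.d, -(γ.b * c), by linear_combination hd⟩ (by rw [M2.det]; linear_combination hd),
    sI_congr hM (Ψ := fun b i₁ i₂ j₁ j₂ => γ.j z ^ 2 *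
      (Fc M (b * γ.a) (i₁ * γ.a + i₂ * c) (i₁ * (15 * γ.b) + i₂ * γ.d) z *
        Fc M (2 * (b * γ.a)) (j₁ * γ.a + j₂ * c) (j₁ * (15 * γ.b) + j₂ * γ.d) z))
    fun b i₁ i₂ j₁ j₂ hb _ => by
      rw [(hCXFM M hM h15 b i₁ i₂ z hb hz).2 γ c h1 hc,
        (hCXFM M hM h15 _ j₁ j₂ z (h2.mul_left hb) hz).2 γ c h1 hc, mul_assoc 2]
      ring, sI, sI, Finset.mul_sum]

end Pool.Agent.P.MP_9c97e9_nt.KT
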