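import Pool.Agent.P.MP_9c97e9_nt.KT.BasC

/-! Lambert series as power series. -/

namespace Pool.Agent.P.MP_9c97e9_nt.KT

open Finset

namespace TCXLA

theorem fib {N B : ℕ} (h0 : 0 < B) (h1 : B ≤ N) (t u : ℂ) (m : ℕ) :
    ∑ p ∈ (range (m + 1) ×ˢ range (m + 1)).filter (fun p => (B + N * p.1) * (p.2 + 1) = m),
      (u * t ^ (B + N * p.1)) ^ (p.2 + 1) =
    (∑ c ∈ m.divisors, if (N : ℤ) ∣ c - B then u ^ (m / c) else 0) * t ^ m := by
  rw [← sum_filter, sum_mul]
  refine sum_bij (fun p _ => B + N * p.1) (fun p hp => ?_) (fun p hp q hq e => ?_)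
    (fun c hc => ?_) fun p hp => ?_
  · have := (mem_filter.1 hp).2
    refine mem_filter.2 ⟨Nat.mem_divisors.2 ⟨⟨_, this.symm⟩, ?_⟩, p.1, by push_cast; ring⟩
    rw [← this]
    positivity
  · have a := (mem_filter.1 hp).2
    have b := (mem_filter.1 hq).2
    rw [← e, ← a] at b
    exact Prod.ext (Nat.eq_of_mul_eq_mul_left (by omega) (Nat.add_left_cancel e))
      (Nat.succ_injective (Nat.eq_of_mul_eq_mul_left (by positivity) b.symm))
  · obtain ⟨hc, k, hk⟩ := mem_filter.1 hc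
    obtain ⟨⟨d, rfl⟩, hm⟩ := Nat.mem_divisors.1 hc
    have c0 : 0 < c := Nat.pos_of_ne_zero (left_ne_zero_of_mul hm)
    obtain ⟨d, rfl⟩ := Nat.exists_eq_succ_of_ne_zero (right_ne_zero_of_mul hm)
    have k0 : 0 ≤ k := by
      by_contra h
      nlinarith
    lift k to ℕ using k0
    obtain rfl : c = B + N * k := by zify; linarith
    refine ⟨(k, d), mem_filter.2 ⟨mem_product.2 ⟨mem_range.2 ?_, mem_range.2 ?_⟩, rfl⟩, rfl⟩
    · have : k ≤ N * k := Nat.le_mul_of_pos_left _ (by omega)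
      have : B + N * k ≤ (B + N * k) * d.succ := Nat.le_mul_of_pos_right _ d.succ_pos
      omega
    · have : d.succ ≤ (B + N * k) * d.succ := Nat.le_mul_of_pos_left _ c0
      omega
  · rw [← (mem_filter.1 hp).2, Nat.mul_div_cancel_left _ (by positivity), mul_pow, ← pow_mul]

end TCXLA

theorem t_CXLA : CXLA := by
  intro t u N B ht hu h0 h1
  have hb : ∀ n i : ℕ, ‖(u * t ^ (B + N * n)) ^ (i + 1)‖ ≤ ‖t‖ ^ (n + 1) * ‖t‖ ^ i := fun n i => by
    rw [mul_pow, ← pow_mul, norm_mul, norm_pow, norm_pow, ← pow_add]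
    refine (mul_le_of_le_one_left (by positivity) (pow_le_one₀ (norm_nonneg _) hu)).trans
      (pow_le_pow_of_le_one (norm_nonneg _) ht.le ?_)
    have : n ≤ N * n := Nat.le_mul_of_pos_left _ (by omega)
    nlinarith [Nat.zero_le (N * n * i)]
  have g := summable_geometric_of_lt_one (norm_nonneg t) ht
  have hs : Summable fun p : ℕ × ℕ => (u * t ^ (B + N * p.1)) ^ (p.2 + 1) :=
    .of_norm_bounded (((summable_nat_add_iff 1).2 g).mul_of_nonneg g (fun _ => by positivity)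
      fun _ => by positivity) fun p => hb p.1 p.2
  have e : ∑' p : ℕ × ℕ, (u * t ^ (B + N * p.1)) ^ (p.2 + 1) =
      ∑' n : ℕ, u * t ^ (B + N * n) / (1 - u * t ^ (B + N * n)) := by
    rw [hs.tsum_prod]
    refine tsum_congr fun n => ?_
    have := hb n 0
    rw [zero_add, pow_one, pow_zero, mul_one] at this
    simp only [pow_succ' (u * _)]
    rw [tsum_mul_left, tsum_geometric_of_norm_lt_one
      (this.trans_lt (pow_lt_one₀ (norm_nonneg _) ht n.succ_ne_zero)), div_eq_mul_inv]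
  rw [← e]
  refine ((Equiv.sigmaFiberEquiv fun p : ℕ × ℕ => (B + N * p.1) * (p.2 + 1)).hasSum_iff.2
    hs.hasSum).sigma fun m => ?_
  rw [← TCXLA.fib h0 h1]
  have k : ∀ p : ℕ × ℕ, p ∈ (range (m + 1) ×ˢ range (m + 1)).filter
      (fun p => (B + N * p.1) * (p.2 + 1) = m) ↔ (B + N * p.1) * (p.2 + 1) = m := fun p => by
    simp only [mem_filter, mem_product, mem_range, and_iff_right_iff_imp]
    rintro rfl
    have : p.1 ≤ N * p.1 := Nat.le_mul_of_pos_left _ (by omega)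
    constructor <;> nlinarith [Nat.zero_le (N * p.1 * p.2), Nat.zero_le (B * p.2)]
  exact (Equiv.subtypeEquivRight k).hasSum_iff.1
    (Finset.hasSum _ fun p : ℕ × ℕ => (u * t ^ (B + N * p.1)) ^ (p.2 + 1))

end Pool.Agent.P.MP_9c97e9_nt.KT
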