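import Pool.Agent.P.MP_9c97e9_nt.KT.BasC

/-! The first term and the limit of the Lambert series. -/

namespace Pool.Agent.P.MP_9c97e9_nt.KT

open MP_8b7eba_nt.Mod (qq atI ex)
open MP_29cb78_nt.E (ee th0)
open MP_29cb78_nt.E.Th
open Finset Filter Topology Cx

namespace TCXLL

theorem bd {u : ℂ} (h : ‖u‖ ≤ 1 / 2) : ‖u / (1 - u)‖ ≤ 2 * ‖u‖ := by
  have h1 : 1 / 2 ≤ ‖1 - u‖ := by
    have := norm_sub_norm_le (1 : ℂ) u
    rw [norm_one] at this
    linarith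
  rw [norm_div, div_le_iff₀ (by linarith)]
  nlinarith [norm_nonneg u]

theorem summ2 {τ : ℂ} (h : 0 < τ.im) (w : ℂ) :
    Summable fun n : ℕ => ee (n * τ + w) / (1 - ee (n * τ + w)) := by
  have h1 : Summable fun n : ℕ => ‖ee (n * τ + w)‖ := by simpa using summ h w
  refine Summable.of_norm_bounded_eventually_nat (h1.mul_left 2) ?_
  filter_upwards [h1.tendsto_atTop_zero.eventually (ge_mem_nhds one_half_pos)]
    with n hn using bd hn

theorem nrm (x y : ℚ) (τ : ℂ) : ‖ee (x * τ + y)‖ = ex x τ := by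
  rw [← qq_eq_ee, MP_8b7eba_nt.Mod.norm_qq, ex, ex]
  simp
  ring

theorem bd2 {τ w : ℂ} (h : ‖ee τ‖ ≤ 1 / 2) (hw : ‖ee w‖ ≤ 1 / 2) : ‖lG τ w‖ ≤ 4 * ‖ee w‖ := by
  have h1 : HasSum (fun n : ℕ => 2 * ‖ee w‖ * (1 / 2) ^ n) (2 * ‖ee w‖ * 2) :=
    hasSum_geometric_two.mul_left _
  refine (tsum_of_norm_bounded h1 fun n => ?_).trans_eq (by ring)
  have h2 : ‖ee (n * τ + w)‖ ≤ (1 / 2) ^ n * ‖ee w‖ := by
    rw [ee_add, ee_nat_mul, norm_mul, norm_pow]
    gcongr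
  have h3 : ((1 / 2 : ℝ)) ^ n ≤ 1 := pow_le_one₀ (by norm_num) (by norm_num)
  refine (bd (h2.trans ?_)).trans (by linarith)
  nlinarith [norm_nonneg (ee w)]

end TCXLL

open TCXLL in
theorem t_CXLL : CXLL := by
  refine ⟨fun τ w h => ?_, fun x y hx => ?_⟩
  · rw [lG, (summ2 h w).tsum_eq_zero_add, lG]
    congr 1
    · simp
    · refine tsum_congr fun n => ?_
      rw [show ((n + 1 : ℕ) : ℂ) * τ + w = n * τ + (τ + w) by push_cast; ring]
  · have h1 : Tendsto (ex x) atI (𝓝 0) := MP_8b7eba_nt.Mod.tendsto_ex (by exact_mod_cast hx)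
    have h2 : Tendsto (fun τ => ‖ee τ‖) atI (𝓝 0) :=
      tendsto_zero_iff_norm_tendsto_zero.1 MP_8b7eba_nt.Mod.tendsto_qq
    refine squeeze_zero_norm' (a := fun τ => 4 * ex x τ) ?_ (by simpa using h1.const_mul 4)
    filter_upwards [h1.eventually (ge_mem_nhds one_half_pos),
      h2.eventually (ge_mem_nhds one_half_pos)] with τ h3 h4
    rw [← nrm x y] at h3 ⊢
    exact bd2 h4 h3

end Pool.Agent.P.MP_9c97e9_nt.KT
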