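import Pool.Agent.P.MP_9c97e9_nt.KT.BasC

/-! The modular symbol is determined by three values. -/

namespace Pool.Agent.P.MP_9c97e9_nt.KT

open MP_8b7eba_nt.Mod (nM nP lv lv_eq lv_G0 lv_neg_neg coeff_eq)
open MP_8b7eba_nt.BSD15
open Cx

namespace TCXMS

theorem one (k : ℤ) (hk : Int.gcd k 15 = 1) :
    IsMS fun x => ((MP_8b7eba_nt.BSD15.II x (1, 0) (1, k) (0, 1) : ℚ) : ℂ) := by
  have p : Prim (1, k) := isCoprime_one_left
  have h : PairlamFam (Finset.univ : Finset Unit) (fun _ => 1) (fun _ => (1, k))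
      (fun _ => (0, 1)) :=
    ⟨fun _ _ _ => ⟨p, pairlam_prim (by decide), by simp [MP_8b7eba_nt.BSD15.dt]⟩,
      fun x₁ x₂ x₃ h₁ h₂ h₃ => by
        rw [pairlam_dfct h₁ h₂ h₃ p (pairlam_prim (x := (0, 1)) (by decide))
          (hk.trans (by decide))]
        simp⟩
  simpa using h.isMS

theorem ms_psi : IsMS fun x => ((psi x : ℚ) : ℂ) := by
  have a := one 2 (by decide)
  have b := one (-2) (by decide)
  have c := one 7 (by decide)
  have d := one (-7) (by decide)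
  refine ⟨fun x hx => ?_, fun g x y hx hy => ?_⟩ <;> simp only [psi] <;> push_cast
  · linear_combination a.neg x hx + b.neg x hx - c.neg x hx - d.neg x hx
  · linear_combination a.inv g x y hx hy + b.inv g x y hx hy - c.inv g x y hx hy -
      d.inv g x y hx hy

theorem ms_lv : IsMS fun x => lv x.1 x.2 := by
  refine ⟨fun x _ => lv_neg_neg _ _, fun g x y hx hy => ?_⟩
  have k : ∀ x, Prim x → lv (g.act x).1 (g.act x).2 = lv x.1 x.2 + lv g.a g.c := fun x hx =>
    lv_G0 (γ := ⟨g.a, g.b, g.c, g.d⟩) ⟨g.det_eq, g.dvd_c⟩ hx.ne_zero_or_ne_zero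
  rw [k x hx, k y hy]
  ring

end TCXMS

open TCXMS in
theorem t_CXMS : CXMS := by
  intro h1 h2 h3 a c hac hc
  obtain ⟨u, v, h⟩ := ms_decomp (a, c) hac hc
  have e1 := h _ ms_psi
  have e2 := h _ ms_lv
  simp only [msA, msB, h1, h2, h3] at e1
  simp only [msA, msB, lv_eq, show nM 0 1 = 0 by decide +kernel, show nM 1 2 = 0 by decide +kernel,
    show nM (-1) 4 = -2 by decide +kernel] at e2
  have e3 := (coeff_eq (a := nP a c) (b := nM a c) (d := 2 * v)
    (c := nP 0 1 + u * (nP 1 2 - nP 0 1) + v * (nP 0 1 - nP (-1) 4))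
    (by rw [e2]; push_cast; ring)).2
  rw [e3]
  have : ((psi (a, c) : ℚ) : ℂ) = ((2 * ((2 * v : ℤ) : ℚ) : ℚ) : ℂ) := by
    rw [e1]; push_cast; ring
  exact_mod_cast this

end Pool.Agent.P.MP_9c97e9_nt.KT
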