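import Pool.Agent.P.MP_9c97e9_nt.KT.BasC

/-! The distribution relation of the sawtooth function. -/

namespace Pool.Agent.P.MP_9c97e9_nt.KT

open MP_8b7eba_nt.BSD15 (saw saw_add_int jac_saw_of)
open Finset

namespace TCXSD

theorem sum_cls (f : ℕ → ℚ) {N c : ℕ} (hc : c < N) (g : ℕ) :
    (∑ B ∈ range (g * N), if (N : ℤ) ∣ B - c then f B else 0) = ∑ j ∈ range g, f (j * N + c) := by
  induction g with
  | zero => simp
  | succ g ih =>
    rw [add_mul, one_mul, sum_range_add, ih, sum_range_succ, add_right_inj, sum_eq_single c, if_pos]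
    · exact ⟨g, by push_cast; ring⟩
    · intro x hx hne
      refine if_neg fun h => hne ?_
      have h1 : (N : ℤ) ∣ x - c := by
        have := h.sub (dvd_mul_left (N : ℤ) g)
        push_cast at this
        rwa [show (g : ℤ) * N + x - c - g * N = x - c by ring] at this
      have := Int.eq_zero_of_abs_lt_dvd h1 (by rw [mem_range] at hx; rw [abs_lt]; omega)
      omega
    · exact fun h => absurd (mem_range.2 hc) h

theorem sum_id (g : ℕ) : ∑ j ∈ range g, (j : ℚ) = g * (g - 1) / 2 := by
  induction g with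
  | zero => simp
  | succ g ih =>
    rw [sum_range_succ, ih]
    push_cast
    ring

theorem main {g N c : ℕ} (hg : 0 < g) (hc : c < N) :
    ∑ j ∈ range g, saw (((j * N + c : ℕ) : ℚ) / (g * N)) = saw ((c : ℚ) / N) := by
  have hN : (0 : ℚ) < N := by exact_mod_cast (by omega : 0 < N)
  have hg' : (0 : ℚ) < g := by exact_mod_cast hg
  have h1 : ∀ j ∈ range g, saw (((j * N + c : ℕ) : ℚ) / (g * N)) = (j / g + (c / (g * N) - 1 / 2)) +
      if j = 0 then (if c = 0 then 1 / 2 else 0) else 0 := fun j hj => by
    have h2 : j * N + c < g * N := by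
      have := Nat.mul_le_mul_right N (mem_range.1 hj)
      rw [Nat.succ_mul] at this
      omega
    rw [jac_saw_of (by positivity) ((div_lt_one (by positivity)).2 (by exact_mod_cast h2)),
      ← ite_and]
    by_cases h3 : j = 0 ∧ c = 0
    · simp [h3.1, h3.2]
    · rw [if_neg h3, if_neg (div_ne_zero (Nat.cast_ne_zero.2 fun h => h3 (by
        constructor
        · by_contra h4
          have := Nat.mul_pos (Nat.pos_of_ne_zero h4) (show 0 < N by omega)
          omega
        · omega)) (by positivity))]
      push_cast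
      field_simp
      ring
  rw [sum_congr rfl h1, sum_add_distrib, sum_add_distrib, sum_ite_eq', if_pos (mem_range.2 hg),
    ← sum_div, sum_id, sum_const, card_range, nsmul_eq_mul,
    jac_saw_of (by positivity) ((div_lt_one hN).2 (by exact_mod_cast hc))]
  by_cases h : c = 0
  · simp only [h, if_true, Nat.cast_zero, zero_div]
    field_simp
    ring
  · rw [if_neg h, if_neg (div_ne_zero (Nat.cast_ne_zero.2 h) hN.ne')]
    field_simp
    ring

end TCXSD

theorem t_CXSD : CXSD := by
  intro g N c hg hN
  have hN' : (0 : ℤ) < N := by exact_mod_cast hN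
  obtain ⟨r, hr⟩ := Int.eq_ofNat_of_zero_le (Int.emod_nonneg c hN'.ne')
  have h1 : r < N := by
    have := Int.emod_lt_of_pos c hN'
    omega
  have h2 : c = r + N * (c / N) := by rw [← hr, Int.emod_add_mul_ediv]
  have h3 : (c : ℚ) / N = (r : ℚ) / N + (c / N : ℤ) := by
    have : (N : ℚ) ≠ 0 := by exact_mod_cast hN.ne'
    rw [div_add' _ _ _ this, mul_comm]
    congr 1
    exact_mod_cast h2
  rw [h3, saw_add_int, ← TCXSD.main hg h1,
    ← TCXSD.sum_cls (fun B => saw ((B : ℚ) / (g * N))) h1 g]
  refine sum_congr rfl fun B _ => if_congr ?_ rfl rfl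
  rw [h2, ← sub_sub]
  exact dvd_sub_left (dvd_mul_right _ _)

end Pool.Agent.P.MP_9c97e9_nt.KT
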