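import Pool.Agent.P.MP_9c97e9_nt.KT.BasC

/-! The series over the complex numbers. -/

namespace Pool.Agent.P.MP_9c97e9_nt.KT

open MP_8b7eba_nt.R2 (io)
open MP_8b7eba_nt.BSD15 (saw)
open PowerSeries Finset Cx

namespace TCXTR

theorem io_zM (h : EV2) (M : ℕ) (a : ℤ) : io (zM M a) = zc M a := by
  obtain ⟨f, hf⟩ := h.1
  exact (hf _).2.1

theorem map_eis (h : EV2) (M : ℕ) (a B : ℤ) : PowerSeries.map io (eis M a B) = eS M a B := by
  ext m
  simp only [coeff_map, eis, eS, coeff_mk, map_sum, sum_divisorsAntidiag]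
  refine sum_congr rfl fun c hc => ?_
  have e : (15 * M : ℤ) ∣ -c - B ↔ (15 * M : ℤ) ∣ c + B := by rw [← neg_add', dvd_neg]
  simp only [map_sub, apply_ite io, io_zM h, map_zero, e, Int.sign_neg,
    Int.sign_natCast_of_ne_zero (Nat.pos_of_mem_divisors hc).ne', neg_mul, mul_neg]
  split_ifs <;> push_cast <;> ring

theorem sw_eq {M : ℕ} (hM : 0 < M) {B : ℤ} (h : IsCoprime B 15) :
    sw M B = B / (15 * M) - (B / (15 * M) : ℤ) - 1 / 2 := by
  have h1 := fract_div_ne (N := 15 * M) (by omega) (B := B) (by simpa using not_dvd_of_cop h)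
  have h2 := Rat.floor_intCast_div_natCast B (15 * M)
  push_cast at h1 h2
  rw [sw, saw, if_neg h1, Int.fract, h2]

theorem map_EE (h : EV2) {M : ℕ} (hM : 0 < M) (h15 : M.Coprime 15) {b : ℤ} (hb : IsCoprime b 15)
    (i₁ i₂ : ℤ) : PowerSeries.map io (EE M b i₁ i₂) = eE M b i₁ i₂ := by
  have c1 : IsCoprime (1 : ℤ) 15 := isCoprime_one_left
  have c4 : IsCoprime (4 : ℤ) 15 := ⟨4, -1, by norm_num⟩
  have e1 := sw_eq hM (cop_B h15 hb c1 i₁)
  have e2 := sw_eq hM (cop_B h15 hb c1.neg_left i₁)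
  have e3 := sw_eq hM (cop_B h15 hb c4 i₁)
  have e4 := sw_eq hM (cop_B h15 hb c4.neg_left i₁)
  simp only [one_mul, neg_mul, ← sub_eq_add_neg] at e1 e2 e4
  have e : (JJ M b i₁ : ℚ) = sw M (15 * i₁ + M * b) + sw M (15 * i₁ - M * b) -
      sw M (15 * i₁ + 4 * M * b) - sw M (15 * i₁ - 4 * M * b) := by
    rw [e1, e2, e3, e4, JJ]
    push_cast
    ring
  have e' := congrArg (fun x : ℚ => (C (x : ℂ) : ℂ⟦X⟧)) e
  simp only [Rat.cast_intCast, Rat.cast_add, Rat.cast_sub, map_add, map_sub] at e'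
  simp only [EE, eE, eC, map_add, map_sub, map_eis h, map_C, map_intCast io, e']
  ring

end TCXTR

open TCXTR in
theorem t_CXTR (hEV2 : EV2) : CXTR := by
  intro M δ hM h15
  constructor
  · have c2 : IsCoprime (2 : ℤ) 15 := ⟨8, -1, by norm_num⟩
    rw [gC, ← sI_congr hM (Φ := fun b i₁ i₂ j₁ j₂ =>
      PowerSeries.map io (EE M b i₁ i₂ * EE M (2 * b) j₁ j₂)) fun b i₁ i₂ j₁ j₂ hb _ => by
        rw [map_mul, map_EE hEV2 hM h15 hb, map_EE hEV2 hM h15 (c2.mul_left hb)]]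
    exact map_sum _ _ _
  · simp only [SSd, map_sum, map_mul, io_zM hEV2, map_intCast]
    exact sum_congr rfl fun ν _ => by rw [mul_left_comm, mul_assoc]

end Pool.Agent.P.MP_9c97e9_nt.KT
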