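import Pool.Agent.P.MP_9c97e9_nt.KT.BasC

/-! The logarithmic derivative of the theta function. -/

namespace Pool.Agent.P.MP_9c97e9_nt.KT

open MP_29cb78_nt.E MP_29cb78_nt.E.Th Filter Topology Set Cx
open scoped Real

namespace TCXZS

theorem fac (a w : ℂ) : logDeriv (fun z => 1 + -ee (a + z)) w =
    -(2 * π * Complex.I) * (ee (a + w) / (1 - ee (a + w))) := by
  have := (((ee_hasDerivAt (a + w)).comp_const_add a w).neg).const_add 1
  rw [logDeriv_apply, show deriv (fun z => 1 + -ee (a + z)) w = _ from this.deriv]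
  ring

theorem lg {τ w : ℂ} (h : 0 < τ.im) (hw : G τ w ≠ 0) :
    logDeriv (G τ) w = -(2 * π * Complex.I) * lG τ w := by
  have h1 : HasProdLocallyUniformlyOn (fun (n : ℕ) z => 1 + -ee (n * τ + z))
      (fun z => ∏' n : ℕ, (1 + -ee (n * τ + z))) univ := by
    apply hasProdLocallyUniformlyOn_of_forall_compact isOpen_univ
    intro K _ hK
    obtain ⟨C, hC⟩ := hK.exists_bound_of_continuousOn ee_diff.continuous.continuousOn
    refine ((summable_geometric_of_lt_one (norm_nonneg _) (norm_ee_lt h)).mul_right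
      C).hasProdUniformlyOn_nat_one_add hK (.of_forall fun n x hx => ?_) fun _ => ?_
    · rw [norm_neg, ee_add, ee_nat_mul, norm_mul, norm_pow]
      exact mul_le_mul_of_nonneg_left (hC x hx) (by positivity)
    · exact (Differentiable.continuous (𝕜 := ℂ) (by fun_prop)).continuousOn
  have h2 : Summable fun n : ℕ => ‖ee (n * τ + w)‖ := by simpa using summ h w
  have h3 : Summable fun n : ℕ => ee (n * τ + w) / (1 - ee (n * τ + w)) := by
    simp only [div_eq_mul_inv]
    exact h2.mul_tendsto_const ((h2.of_norm.tendsto_cofinite_zero.const_sub 1).inv₀ (by simp))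
  have e : G τ = fun z => ∏' n : ℕ, (1 + -ee (n * τ + z)) := by
    ext z
    simp only [G, sub_eq_add_neg]
  rw [e] at hw ⊢
  rw [logDeriv_tprod_eq_tsum isOpen_univ (mem_univ w) (f := fun (n : ℕ) z => 1 + -ee (n * τ + z))
    (fun n k => hw (tprod_of_exists_eq_zero ⟨n, k⟩)) (fun n => by fun_prop)
    (by simpa only [fac] using h3.mul_left _) ⟨_, h1⟩ hw]
  simp only [fac]
  rw [tsum_mul_left, lG]

end TCXZS

theorem t_CXZS : CXZS := by
  intro τ w h hw
  have d := G_diff h
  have hI : (2 * π * Complex.I : ℂ) ≠ 0 := by simp [Real.pi_ne_zero]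
  have e : (fun u => vth u τ) = fun u => ee (-u / 2) * (G τ u * G τ (τ - u)) := by
    ext u
    rw [vth, th0_eq h]
  rw [th0_eq h] at hw
  have h1 : logDeriv (fun u => ee (-u / 2)) w = -(2 * π * Complex.I) / 2 := by
    have := (ee_hasDerivAt (-w / 2)).comp w ((hasDerivAt_neg w).div_const 2)
    have k := ee_ne (-w / 2)
    rw [logDeriv_apply, show deriv (fun u => ee (-u / 2)) w = _ from this.deriv, div_eq_iff k]
    ring
  have h2 : logDeriv (fun u => G τ (τ - u)) w = -logDeriv (G τ) (τ - w) := by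
    rw [logDeriv_apply, logDeriv_apply, deriv_comp_const_sub, neg_div]
  rw [ZZ, e, logDeriv_mul (f := fun u => ee (-u / 2)) (g := fun u => G τ u * G τ (τ - u)) w
    (ee_ne _) hw (by fun_prop) (by fun_prop),
    logDeriv_mul (g := fun u => G τ (τ - u)) w (left_ne_zero_of_mul hw) (right_ne_zero_of_mul hw)
      (by fun_prop) (by fun_prop),
    h1, h2, TCXZS.lg h (left_ne_zero_of_mul hw), TCXZS.lg h (right_ne_zero_of_mul hw)]
  field_simp
  ring

end Pool.Agent.P.MP_9c97e9_nt.KT
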