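import Pool.Agent.P.MP_9c97e9_nt.KT.IfX
import Pool.Agent.P.MP_9c97e9_nt.KT.TBAS
import Pool.Agent.P.MP_8b7eba_nt.R1.QE

/-! Proof of EV2: the 2-adic evaluation of integral series. -/

namespace Pool.Agent.P.MP_9c97e9_nt.KT

open MP_8b7eba_nt.R2
open MP_8b7eba_nt.R1 (Zb QE)
open PowerSeries Finset

namespace TEV2

theorem io_zo (a : Zb) : io (zo a) = a :=
  Classical.epsilon_spec (p := fun x => io x = a)
    (a_TAU.2.2.2.1 _ ((show IsIntegral ℤ (a : ℂ) from a.2).tower_top (A := ℚ)).isAlgebraic)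

/-- algebraic integers as algebraic numbers -/
noncomputable def fz : Zb →+* Om where
  toFun := zo
  map_one' := io.injective (by rw [io_zo, map_one]; rfl)
  map_mul' a b := io.injective (by rw [map_mul, io_zo, io_zo, io_zo]; rfl)
  map_zero' := io.injective (by rw [io_zo, map_zero]; rfl)
  map_add' a b := io.injective (by rw [map_add, io_zo, io_zo, io_zo]; rfl)

theorem norm_le (a : Zb) : ‖i2 (zo a)‖ ≤ 1 := by
  have h : IsIntegral ℤ (zo a) :=
    (isIntegral_algHom_iff io.toIntAlgHom io.injective).1 (by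
      change IsIntegral ℤ (io (zo a))
      rw [io_zo]
      exact a.2)
  rw [← t_BAS.2.2.1]
  exact_mod_cast a_PL.2.2.2.1 w2 _ h

variable {R K : Type} [CommRing R] [NormedField K] [CompleteSpace K] [IsUltrametricDist K]
  {ψ : R →+* K} {t t' : K}

theorem term_le (h : ∀ a, ‖ψ a‖ ≤ 1) (a : R) (x : K) : ‖ψ a * x‖ ≤ ‖x‖ := by
  rw [norm_mul]
  exact mul_le_of_le_one_left (norm_nonneg _) (h a)

theorem summ (h : ∀ a, ‖ψ a‖ ≤ 1) (ht : ‖t‖ < 1) (A : R⟦X⟧) :
    Summable fun k => ‖ψ (coeff k A) * t ^ k‖ :=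
  Summable.of_nonneg_of_le (fun _ => norm_nonneg _)
    (fun k => (term_le h _ _).trans_eq (norm_pow _ _))
    (summable_geometric_of_lt_one (norm_nonneg _) ht)

theorem ev_C (a : R) (t : K) : ∑' k, ψ (coeff k (C a)) * t ^ k = ψ a := by
  rw [tsum_eq_single 0 fun k hk => by simp [coeff_C, hk]]
  simp

theorem ev_X (t : K) : ∑' k, ψ (coeff k (X : R⟦X⟧)) * t ^ k = t := by
  rw [tsum_eq_single 1 fun k hk => by simp [coeff_X, hk]]
  simp

/-- the evaluation as a ring homomorphism -/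
noncomputable def evH (h : ∀ a, ‖ψ a‖ ≤ 1) (ht : ‖t‖ < 1) : R⟦X⟧ →+* K where
  toFun A := ∑' k, ψ (coeff k A) * t ^ k
  map_one' := by rw [← map_one C, ev_C, map_one]
  map_zero' := by simp
  map_add' A B := by
    rw [← (summ h ht A).of_norm.tsum_add (summ h ht B).of_norm]
    simp only [map_add, add_mul]
  map_mul' A B := by
    rw [tsum_mul_tsum_eq_tsum_sum_antidiagonal_of_summable_norm (summ h ht A) (summ h ht B)]
    refine tsum_congr fun n => ?_
    rw [coeff_mul, map_sum, sum_mul]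
    refine sum_congr rfl fun p hp => ?_
    rw [← mem_antidiagonal.1 hp, pow_add, map_mul]
    ring

theorem pow_sub (ht : ‖t‖ ≤ 1) (ht' : ‖t'‖ ≤ 1) (k : ℕ) : ‖t ^ k - t' ^ k‖ ≤ ‖t - t'‖ := by
  induction k with
  | zero => simp
  | succ k ih =>
    rw [show t ^ (k + 1) - t' ^ (k + 1) = t * (t ^ k - t' ^ k) + t' ^ k * (t - t') by ring]
    refine (IsUltrametricDist.norm_add_le_max _ _).trans (max_le ?_ ?_)
    · rw [norm_mul]
      exact (mul_le_of_le_one_left (norm_nonneg _) ht).trans ih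
    · rw [norm_mul, norm_pow]
      exact mul_le_of_le_one_left (norm_nonneg _) (pow_le_one₀ (norm_nonneg _) ht')

theorem ev_expand {e : ℕ} (he : e ≠ 0) (A : R⟦X⟧) (t : K) :
    ∑' k, ψ (coeff k (expand e he A)) * t ^ k = ∑' k, ψ (coeff k A) * (t ^ e) ^ k := by
  rw [← (mul_right_injective₀ he).tsum_eq]
  · simp only [coeff_expand_mul, pow_mul]
  · intro n hn
    by_contra h
    rw [Function.mem_support, coeff_expand_of_not_dvd _ _ _ fun ⟨m, e⟩ => h ⟨m, e.symm⟩] at hn
    simp at hn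

end TEV2

open TEV2 in
theorem t_EV2 : EV2 := by
  refine ⟨⟨fz, fun a => ⟨rfl, io_zo a, norm_le a⟩⟩, fun t ht => ?_⟩
  have h : ∀ a, ‖i2.comp fz a‖ ≤ 1 := norm_le
  have e1 : ∀ A, evH h ht A = ev2 A t := fun _ => rfl
  have e2 : ev2 X t = t := ev_X (ψ := i2.comp fz) t
  refine ⟨⟨_, e1⟩, e2, fun a => ev_C (ψ := i2.comp fz) a t, fun A =>
    ⟨?_, (summ h ht A).of_norm.hasSum, fun t' ht' => ?_,
      fun e he => ev_expand (ψ := i2.comp fz) he A t, fun a => tsum_congr fun k => ?_,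
      fun w N G v hw t0 ⟨N', A', h1, h2⟩ h3 => ?_⟩⟩
  · exact IsUltrametricDist.norm_tsum_le_of_forall_le_of_nonneg zero_le_one fun k =>
      (term_le h _ _).trans (by rw [norm_pow]; exact pow_le_one₀ (norm_nonneg _) ht.le)
  · have := (summ h ht A).of_norm.tsum_sub (summ h ht' A).of_norm
    refine (congrArg norm this).symm.trans_le
      (IsUltrametricDist.norm_tsum_le_of_forall_le_of_nonneg (norm_nonneg _) fun k => ?_)
    rw [← mul_sub]
    exact (term_le h _ _).trans (pow_sub ht.le ht'.le k)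
  · change i2.comp fz _ * _ = i2.comp fz _ * (i2.comp fz _ * _) ^ k
    rw [coeff_rescale, map_mul, map_pow, mul_pow]
    ring
  · have h4 := h3.shift N'
    rw [add_comm] at h4
    have h5 := congrArg (evH h ht) (QE.unique (Nat.pos_of_ne_zero hw) h4 (h1.shift N))
    rw [map_mul, map_mul, map_pow, map_pow, e1, e1, e1, e2, ← h2] at h5
    exact mul_left_cancel₀ (pow_ne_zero N' t0) (by linear_combination -h5)

end Pool.Agent.P.MP_9c97e9_nt.KT
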