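import Pool.Agent.P.MP_9c97e9_nt.KT.IfU

/-! The transformation law of the odd theta function. -/

namespace Pool.Agent.P.MP_9c97e9_nt.KT

open MP_8b7eba_nt.Mod (M2 mS mT)
open MP_29cb78_nt.E (ee th0)
open MP_29cb78_nt.E.Th
open Filter Topology

namespace TTHX

theorem vdiff {τ : ℂ} (h : 0 < τ.im) : Differentiable ℂ fun w => vth w τ := by
  have h1 := th0_diff h
  unfold vth
  fun_prop

theorem v_one {τ : ℂ} (h : 0 < τ.im) (w : ℂ) : vth (w + 1) τ = -vth w τ := by
  have h1 := th0_int h w 1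
  rw [Int.cast_one] at h1
  rw [vth, vth, h1, show -(w + 1) / 2 = -w / 2 + -(1 / 2) by ring, ee_add, ee_neg_half]
  ring

theorem v_tau {τ : ℂ} (h : 0 < τ.im) (w : ℂ) :
    vth (w + τ) τ = -ee (-w - τ / 2) * vth w τ := by
  rw [vth, vth, th0_tau h, show -(w + τ) / 2 = -w / 2 + -(τ / 2) by ring,
    show -w - τ / 2 = -w + -(τ / 2) by ring, ee_add, ee_add]
  ring

theorem v_zero {τ : ℂ} (h : 0 < τ.im) {w : ℂ} : vth w τ = 0 ↔ ∃ j k : ℤ, w = j + k * τ := by
  rw [vth, mul_eq_zero, th0_eq_zero h, or_iff_right (ee_ne _)]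

theorem shift {g A : ℂ → ℂ} (hg : Differentiable ℂ g) (hA : Differentiable ℂ A)
    (h0 : ∀ z, A z ≠ 0) {m : ℂ} (h : ∀ z, g (z + m) = A z * g z) :
    Function.Periodic (fun z => g z = 0 ∧ deriv g z ≠ 0) m := by
  intro z
  have h2 : HasDerivAt (fun z => g (z + m)) (deriv g (z + m)) z :=
    HasDerivAt.comp_add_const z m (hg _).hasDerivAt
  have h4 := (hA z).hasDerivAt.mul (hg z).hasDerivAt
  rw [funext h] at h2
  have h5 := h2.unique h4
  have h6 := h0 z
  apply propext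
  beta_reduce
  rw [h, mul_eq_zero, or_iff_right h6]
  refine and_congr_right fun h7 => ?_
  rw [h5, h7, mul_zero, zero_add, mul_ne_zero_iff, and_iff_right h6]

theorem v_simple {τ : ℂ} (h : 0 < τ.im) {w : ℂ} (hw : vth w τ = 0) :
    deriv (fun w => vth w τ) w ≠ 0 := by
  obtain ⟨j, k, rfl⟩ := (v_zero h).1 hw
  have p1 := shift (vdiff h) (A := fun _ => -1) (by fun_prop) (by simp) (m := 1)
    fun z => by rw [v_one h]; ring
  have p2 := shift (vdiff h) (A := fun w => -ee (-w - τ / 2)) (by fun_prop)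
    (fun z => neg_ne_zero.2 (ee_ne _)) (m := τ) (v_tau h)
  have h1 := p2.int_mul k j
  have h2 := p1.int_mul j 0
  rw [zero_add, mul_one] at h2
  beta_reduce at h1 h2
  have h3 : th0 0 τ = 0 := (th0_eq_zero h).2 ⟨0, 0, by simp⟩
  have h4 : DifferentiableAt ℂ (fun w : ℂ => ee (-w / 2)) 0 := by fun_prop
  have h5 := h4.hasDerivAt.mul (th0_hasDerivAt h)
  refine (h1.mpr (h2.mpr ⟨(v_zero h).2 ⟨0, 0, by simp⟩, ?_⟩)).2
  have h6 : deriv (fun w => vth w τ) 0 = _ := h5.deriv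
  rw [h6, h3, mul_zero, zero_add]
  refine mul_ne_zero (ee_ne _) (mul_ne_zero ?_ (pow_ne_zero _ (G_ne h h)))
  simp [Real.pi_ne_zero]

theorem ev_ne {g : ℂ → ℂ} (hg : Differentiable ℂ g) (h1 : ∀ z, g z = 0 → deriv g z ≠ 0) (z : ℂ) :
    ∀ᶠ w in 𝓝[≠] z, g w ≠ 0 := by
  by_cases hz : g z = 0
  · exact (hg z).hasDerivAt.eventually_ne (h1 z hz)
  · exact (hg.continuous.continuousAt.eventually_ne hz).filter_mono nhdsWithin_le_nhds

theorem quot {f g : ℂ → ℂ} (hf : Differentiable ℂ f) (hg : Differentiable ℂ g)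
    (h0 : ∀ z, g z = 0 → f z = 0) (h1 : ∀ z, g z = 0 → deriv g z ≠ 0) :
    ∃ u : ℂ → ℂ, Differentiable ℂ u ∧ ∀ z, f z = u z * g z := by
  classical
  refine ⟨fun z => if g z = 0 then deriv f z / deriv g z else f z / g z, fun z => ?_, fun z => ?_⟩
  · by_cases hz : g z = 0
    · have d : ∀ g : ℂ → ℂ, Differentiable ℂ g → DifferentiableAt ℂ (dslope g z) z := fun g hg =>
        ((Complex.differentiableOn_dslope univ_mem).2 hg.differentiableOn).differentiableAt
          univ_mem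
      refine ((d _ hf).div (d _ hg) (by simpa using h1 z hz)).congr_of_eventuallyEq ?_
      have h2 := eventually_nhdsWithin_iff.1 (ev_ne hg h1 z)
      filter_upwards [h2] with w hw
      by_cases hwz : w = z
      · simp [hwz, hz]
      · have h3 : w - z ≠ 0 := sub_ne_zero.2 hwz
        rw [if_neg (hw hwz), Pi.div_apply, dslope_of_ne _ hwz, dslope_of_ne _ hwz, slope_def_field,
          slope_def_field, h0 z hz, hz, sub_zero, sub_zero, div_div_div_cancel_right₀ h3]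
    · refine ((hf z).div (hg z) hz).congr_of_eventuallyEq ?_
      filter_upwards [hg.continuous.continuousAt.eventually_ne hz] with w hw
      rw [if_neg hw, Pi.div_apply]
  · beta_reduce
    by_cases hz : g z = 0
    · rw [h0 z hz, hz, mul_zero]
    · rw [if_neg hz, div_mul_cancel₀ _ hz]

theorem per {f g u A : ℂ → ℂ} (hg : Differentiable ℂ g) (h1 : ∀ z, g z = 0 → deriv g z ≠ 0)
    (hu : Differentiable ℂ u) (e : ∀ z, f z = u z * g z) (h0 : ∀ z, A z ≠ 0) {m : ℂ}
    (e1 : ∀ z, f (z + m) = A z * f z) (e2 : ∀ z, g (z + m) = A z * g z) :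
    Function.Periodic u m := by
  intro z
  have c1 : Continuous fun z => u (z + m) := hu.continuous.comp (by fun_prop)
  refine tendsto_nhds_unique_of_eventuallyEq (l := 𝓝[≠] z)
    ((c1.tendsto z).mono_left nhdsWithin_le_nhds)
    ((hu.continuous.tendsto z).mono_left nhdsWithin_le_nhds) ?_
  filter_upwards [ev_ne hg h1 z] with w hw
  have h3 := e1 w
  rw [e, e, e2] at h3
  apply mul_right_cancel₀ (mul_ne_zero (h0 w) hw)
  linear_combination h3

theorem liou {τ : ℂ} (h : 0 < τ.im) {u : ℂ → ℂ} (hu : Differentiable ℂ u)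
    (p1 : Function.Periodic u 1) (p2 : Function.Periodic u τ) (z : ℂ) : u z = u 0 := by
  refine hu.apply_eq_apply_of_bounded ?_ z 0
  have hc : Continuous fun p : ℝ × ℝ => u (p.1 + p.2 * τ) := hu.continuous.comp (by fun_prop)
  refine (((isCompact_Icc (a := (0 : ℝ)) (b := 1)).prod
    (isCompact_Icc (a := (0 : ℝ)) (b := 1))).image hc).isBounded.subset ?_
  rintro _ ⟨w, rfl⟩
  obtain ⟨x, y, rfl⟩ : ∃ x y : ℝ, w = x + y * τ := by
    refine ⟨w.re - w.im / τ.im * τ.re, w.im / τ.im, Complex.ext ?_ ?_⟩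
    · simp only [Complex.add_re, Complex.ofReal_re, Complex.re_ofReal_mul]; ring
    · simp only [Complex.add_im, Complex.ofReal_im, Complex.im_ofReal_mul]; field_simp; ring
  refine ⟨(Int.fract x, Int.fract y), ⟨⟨Int.fract_nonneg _, (Int.fract_lt_one _).le⟩,
    Int.fract_nonneg _, (Int.fract_lt_one _).le⟩, ?_⟩
  beta_reduce
  rw [← p1.int_mul ⌊x⌋, ← p2.int_mul ⌊y⌋]
  congr 1
  simp only [Int.fract]
  push_cast
  ring

/-- the law for one matrix -/
def P (g : M2) : Prop := ∀ τ : ℂ, 0 < τ.im → ∃ c : ℂ, c ≠ 0 ∧ ∀ w,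
  vth (w / g.j τ) (g.act τ) = c * ee (g.c * w ^ 2 / (2 * g.j τ)) * vth w τ

theorem P_T (n : ℤ) : P (mT n) := by
  intro τ _
  refine ⟨1, one_ne_zero, fun w => ?_⟩
  rw [MP_8b7eba_nt.Mod.j_mT, MP_8b7eba_nt.Mod.act_mT, div_one, show (mT n).c = 0 from rfl,
    Int.cast_zero, zero_mul, zero_div, ee_zero, one_mul, one_mul, vth, vth, th0, th0]
  congr 2
  funext k
  rw [← ee_add_int (w + k * τ) (k * n), ← ee_add_int ((k + 1) * τ - w) ((k + 1) * n)]
  push_cast
  congr 3 <;> ring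

theorem P_S : P mS := by
  intro τ h
  have h0 : τ ≠ 0 := fun e => by simp [e] at h
  have h' : 0 < (mS.act τ).im := M2.im_act_pos one_pos h
  have e1 : mS.act τ = -1 / τ := by simp [mS, M2.act_eq, M2.j]
  have e2 : mS.j τ = τ := by simp [mS, M2.j]
  rw [e1] at h' ⊢
  rw [e2, show mS.c = 1 from rfl, Int.cast_one]
  have d1 := vdiff h'
  have d2 : Differentiable ℂ fun w => vth (w / τ) (-1 / τ) * ee (-(w ^ 2 / (2 * τ))) :=
    (d1.comp (f := fun w => w / τ) (by fun_prop)).mul (by fun_prop)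
  have s1 : ∀ z, vth z τ = 0 → deriv (fun w => vth w τ) z ≠ 0 := fun z => v_simple h
  obtain ⟨u, hu, e⟩ := quot d2 (vdiff h) (fun z hz => by
    obtain ⟨j, k, rfl⟩ := (v_zero h).1 hz
    rw [(v_zero h').2 ⟨k, -j, by push_cast; field_simp; ring⟩, zero_mul]) s1
  have p1 := per (vdiff h) s1 hu e (A := fun _ => -1) (by simp) (m := 1) (fun z => by
    have h1 := v_tau h' ((z + 1) / τ)
    rw [show (z + 1) / τ + -1 / τ = z / τ by ring] at h1
    rw [h1, show -((z + 1) ^ 2 / (2 * τ)) =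
      (-((z + 1) / τ) - -1 / τ / 2) + -(z ^ 2 / (2 * τ)) by field_simp; ring, ee_add]
    ring) fun z => by rw [v_one h]; ring
  have p2 := per (vdiff h) s1 hu e (A := fun w => -ee (-w - τ / 2))
    (fun z => neg_ne_zero.2 (ee_ne _)) (m := τ) (fun z => by
    rw [show (z + τ) / τ = z / τ + 1 by field_simp, v_one h', show -((z + τ) ^ 2 / (2 * τ)) =
      (-z - τ / 2) + -(z ^ 2 / (2 * τ)) by field_simp; ring, ee_add]
    ring) (v_tau h)
  refine ⟨u 0, fun hc => ?_, fun w => ?_⟩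
  · have h1 := e (τ / 2)
    rw [liou h hu p1 p2, hc, zero_mul, mul_eq_zero, or_iff_left (ee_ne _), v_zero h'] at h1
    obtain ⟨j, k, h1⟩ := h1
    rw [show τ / 2 / τ = 1 / 2 by field_simp] at h1
    have h2 := congrArg Complex.im h1
    rw [Complex.add_im, Complex.intCast_im, zero_add, ← Complex.ofReal_intCast,
      Complex.im_ofReal_mul] at h2
    have h3 : (k : ℝ) = 0 := by
      have h4 : (1 / 2 : ℂ).im = 0 := by simp
      rw [h4] at h2
      exact (mul_eq_zero.1 h2.symm).resolve_right h'.ne'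
    rw [Int.cast_eq_zero.1 h3, Int.cast_zero, zero_mul, add_zero] at h1
    have h5 : ((1 : ℤ) : ℂ) = ((2 * j : ℤ) : ℂ) := by push_cast; linear_combination 2 * h1
    have h6 := Int.cast_injective h5
    omega
  · have h1 := e w
    rw [liou h hu p1 p2] at h1
    rw [one_mul]
    linear_combination ee (w ^ 2 / (2 * τ)) * h1 -
      vth (w / τ) (-1 / τ) * ee_neg_mul (w ^ 2 / (2 * τ))

theorem P_mul {g h : M2} (hg : g.det = 1) (hh : h.det = 1) (p : P g) (q : P h) : P (g * h) := by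
  intro τ hτ
  have h1 : 0 < (h.act τ).im := M2.im_act_pos (by omega) hτ
  obtain ⟨c, hc, e⟩ := p _ h1
  obtain ⟨d, hd, f⟩ := q _ hτ
  have j1 := M2.j_ne (g := h) (by omega) hτ
  have j2 := M2.j_ne (g := g) (by omega) h1
  have j3 := M2.j_mul g (h := h) (by omega) hτ
  refine ⟨c * d, mul_ne_zero hc hd, fun w => ?_⟩
  have k : ((g * h).c : ℂ) * h.j τ = g.c + h.c * (g.j (h.act τ) * h.j τ) := by
    have h2 : ((h.det : ℤ) : ℂ) = 1 := by rw [hh, Int.cast_one]
    rw [← j3]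
    simp only [M2.j, M2.det, M2.mul_c, M2.mul_d] at h2 ⊢
    push_cast at h2 ⊢
    linear_combination g.c * h2
  rw [M2.act_mul (by omega) (by omega) hτ, j3, div_mul_eq_div_div_swap, e, f,
    show (g * h).c * w ^ 2 / (2 * (g.j (h.act τ) * h.j τ)) = g.c * (w / h.j τ) ^ 2 /
      (2 * g.j (h.act τ)) + h.c * w ^ 2 / (2 * h.j τ) by
        field_simp; linear_combination w ^ 2 * k, ee_add]
  ring

end TTHX

open TTHX in
theorem t_THX : THX := by
  refine MP_8b7eba_nt.Mod.sl2_ind (P := P) ?_ (fun g hg p => P_mul hg rfl p P_S) fun g hg =>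
    ⟨fun p => P_mul hg (MP_8b7eba_nt.Mod.det_mT 1) p (P_T 1), fun p => ?_⟩
  · exact P_T 0
  · have h := P_mul (by simp [M2.det_mul, hg]) (MP_8b7eba_nt.Mod.det_mT (-1)) p (P_T (-1))
    rwa [show g * mT 1 * mT (-1) = g by ext <;> simp [mT]] at h

end Pool.Agent.P.MP_9c97e9_nt.KT
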