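import Pool.Agent.P.MP_9c97e9_nt.KT.TCX
import Pool.Agent.P.MP_9c97e9_nt.KT.TCXC1
import Pool.Agent.P.MP_9c97e9_nt.KT.TCXC2
import Pool.Agent.P.MP_9c97e9_nt.KT.TCXCH
import Pool.Agent.P.MP_9c97e9_nt.KT.TCXCM
import Pool.Agent.P.MP_9c97e9_nt.KT.TCXCR
import Pool.Agent.P.MP_9c97e9_nt.KT.TCXE2
import Pool.Agent.P.MP_9c97e9_nt.KT.TCXEC
import Pool.Agent.P.MP_9c97e9_nt.KT.TCXEL
import Pool.Agent.P.MP_9c97e9_nt.KT.TCXEM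
import Pool.Agent.P.MP_9c97e9_nt.KT.TCXEP
import Pool.Agent.P.MP_9c97e9_nt.KT.TCXEX
import Pool.Agent.P.MP_9c97e9_nt.KT.TCXFC
import Pool.Agent.P.MP_9c97e9_nt.KT.TCXFI
import Pool.Agent.P.MP_9c97e9_nt.KT.TCXFM
import Pool.Agent.P.MP_9c97e9_nt.KT.TCXG0
import Pool.Agent.P.MP_9c97e9_nt.KT.TCXGC
import Pool.Agent.P.MP_9c97e9_nt.KT.TCXGE
import Pool.Agent.P.MP_9c97e9_nt.KT.TCXGI
import Pool.Agent.P.MP_9c97e9_nt.KT.TCXIP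
import Pool.Agent.P.MP_9c97e9_nt.KT.TCXLA
import Pool.Agent.P.MP_9c97e9_nt.KT.TCXLL
import Pool.Agent.P.MP_9c97e9_nt.KT.TCXMS
import Pool.Agent.P.MP_9c97e9_nt.KT.TCXSD
import Pool.Agent.P.MP_9c97e9_nt.KT.TCXTR
import Pool.Agent.P.MP_9c97e9_nt.KT.TCXZS
import Pool.Agent.P.MP_9c97e9_nt.KT.TTHX
import Pool.Agent.P.MP_9c97e9_nt.KT.TEV2

/-! The products of Eisenstein series are multiples of the cusp form. -/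

namespace Pool.Agent.P.MP_9c97e9_nt.KT

theorem a_CX : CX :=
  t_CX (t_CXTR t_EV2) (t_CXGE (t_CXEX t_CXZS t_CXEP t_CXLA))
    (t_CXGI (t_CXFM t_CXEP (t_CXEM t_THX)) t_CXIP)
    (t_CXGC (t_CXFC (t_CXEC (t_CXEM t_THX) (t_CXEL t_CXZS t_CXEP t_CXLL)))) (t_CXG0 t_CXIP) t_CXFI
    t_CXRE (t_CXCM t_CXCH) (t_CXC1 t_CXCH) (t_CXC2 t_CXCH) t_CXCR (t_CXE1 t_CXSD) (t_CXE2 t_CXSD)
    t_CXMS

end Pool.Agent.P.MP_9c97e9_nt.KT
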