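import Pool.Agent.P.MP_9c97e9_nt.KT.IfP

/-! The unit root is algebraic. -/

namespace Pool.Agent.P.MP_9c97e9_nt.KT

open scoped NNReal
open MP_8b7eba_nt.R2

theorem t_ALO (hBAS : BAS) : ALO := by
  obtain ⟨⟨h1, h2⟩, -, h3, -⟩ := hBAS
  obtain ⟨a, ha, e⟩ : ∃ a : Om, a ^ 2 + a + 2 = 0 ∧ i2 a = algebraMap ℚ_[2] ℂ_[2] al0 := by
    obtain ⟨s, hs⟩ := exists_root (-7 : Om) (n := 2) two_ne_zero
    have h4 := congrArg (algebraMap ℚ_[2] ℂ_[2]) h2
    have h5 := congrArg i2 hs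
    simp only [map_add, map_pow, map_ofNat, map_zero, map_neg] at h4 h5
    rcases sq_eq_sq_iff_eq_or_eq_neg.1 (show i2 s ^ 2 = (2 * algebraMap ℚ_[2] ℂ_[2] al0 + 1) ^ 2 by
      linear_combination h5 - 4 * h4) with e | e
    · exact ⟨(s - 1) / 2, by linear_combination hs / 4, by
        rw [map_div₀, map_sub, e, map_one, map_ofNat]; ring⟩
    · exact ⟨(-s - 1) / 2, by linear_combination hs / 4, by
        rw [map_div₀, map_sub, map_neg, e, map_one, map_ofNat]; ring⟩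
  have hv : w2.v a = 1 := NNReal.coe_injective (by
    rw [h3, e, norm_algebraMap', h1, NNReal.coe_one])
  refine ⟨a, ha, hv, e, fun σ hσ => ?_⟩
  have h4 := congrArg σ ha
  simp only [map_add, map_pow, map_ofNat, map_zero] at h4
  refine (mul_eq_zero.1 (show (σ a - a) * (σ a + a + 1) = 0 by
    linear_combination h4 - ha)).elim sub_eq_zero.1 fun h5 => ?_
  have h6 := congrArg w2.v (show σ a * a = (2 : ℕ) by push_cast; linear_combination a * h5 - ha)
  rw [map_mul, Pl.mem_D.1 hσ, hv, one_mul, show w2.v (2 : ℕ) = _ from w2.vp] at h6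
  norm_num [w2] at h6

end Pool.Agent.P.MP_9c97e9_nt.KT
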