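import Pool.Agent.P.MP_9c97e9_nt.KT.IfP

/-! Proof of FINV. -/

namespace Pool.Agent.P.MP_9c97e9_nt.KT

open MP_8b7eba_nt.R2 Polynomial

namespace TFINV

variable {R : Type*} [CommRing R]

theorem shape {L : R[X]} (h0 : L.coeff 0 = 0) (h1 : L.coeff 1 = 1) :
    ∃ V : R[X], L = X + X ^ 2 * V := by
  have h : X ^ 2 ∣ L - X := X_pow_dvd_iff.2 fun d hd => by
    interval_cases d
    · rw [coeff_sub, h0, coeff_X_zero, sub_zero]
    · rw [coeff_sub, h1, coeff_X_one, sub_self]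
  obtain ⟨V, hV⟩ := h
  exact ⟨V, by rw [← hV]; ring⟩

theorem step (V : R[X]) (r : ℕ) (G G' : R[X]) (h : G.coeff 0 = 0) (h' : G'.coeff 0 = 0)
    (hr : X ^ r ∣ G - G') :
    X ^ (r + 1) ∣ (X + X ^ 2 * V).comp G - (X + X ^ 2 * V).comp G' - (G - G') := by
  have h1 : G - G' ∣ V.comp G - V.comp G' := by
    have := sub_dvd_eval_sub G G' (V.map C)
    rwa [eval_map, eval_map] at this
  have h2 := X_dvd_iff.2 h
  have h3 := X_dvd_iff.2 h'
  have e : (X + X ^ 2 * V).comp G - (X + X ^ 2 * V).comp G' - (G - G') =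
      (G - G') * (G + G') * V.comp G + (V.comp G - V.comp G') * G' * G' := by
    simp only [add_comp, mul_comp, pow_comp, X_comp]
    ring
  rw [e, pow_succ]
  exact dvd_add ((mul_dvd_mul hr (dvd_add h2 h3)).mul_right _)
    ((mul_dvd_mul (hr.trans h1) h3).mul_right _)

theorem ex (V : R[X]) (T : ℕ) (Λ : R[X]) (hΛ : Λ.coeff 0 = 0) :
    ∃ G : R[X], G.degree < T ∧ G.coeff 0 = 0 ∧ X ^ T ∣ (X + X ^ 2 * V).comp G - Λ := by
  induction T with
  | zero => exact ⟨0, by rw [degree_zero]; exact WithBot.bot_lt_coe _, rfl, by simp⟩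
  | succ T ih =>
    obtain ⟨G, h1, h2, h3⟩ := ih
    set F := (X + X ^ 2 * V).comp G - Λ with hF
    have h4 : F.coeff 0 = 0 := by
      have h5 := X_dvd_iff.2 h2
      rw [← X_dvd_iff, hF]
      simp only [add_comp, mul_comp, pow_comp, X_comp]
      exact dvd_sub (dvd_add h5 ((dvd_pow h5 two_ne_zero).mul_right _)) (X_dvd_iff.2 hΛ)
    have h5 : (G - monomial T (F.coeff T)).coeff 0 = 0 := by
      rw [coeff_sub, h2, coeff_monomial, zero_sub, neg_eq_zero]
      split_ifs with h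
      · rw [h, h4]
      · rfl
    have h6 : X ^ (T + 1) ∣ F - monomial T (F.coeff T) := X_pow_dvd_iff.2 fun d hd => by
      rw [coeff_sub, coeff_monomial]
      split_ifs with h
      · rw [h, sub_self]
      · rw [X_pow_dvd_iff.1 h3 d (by omega), sub_zero]
    have h7 := step V T _ G h5 h2 (by
      rw [sub_sub_cancel_left, dvd_neg, ← C_mul_X_pow_eq_monomial]
      exact dvd_mul_left _ _)
    refine ⟨G - monomial T (F.coeff T), (degree_sub_le _ _).trans_lt (max_lt
      (h1.trans (by exact_mod_cast T.lt_succ_self))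
      ((degree_monomial_le _ _).trans_lt (by exact_mod_cast T.lt_succ_self))), h5, ?_⟩
    convert dvd_add h6 h7 using 1
    rw [hF]
    ring

theorem uniq (V : R[X]) (T : ℕ) (Λ G G' : R[X]) (h1 : G.degree < T) (h2 : G.coeff 0 = 0)
    (h3 : X ^ T ∣ (X + X ^ 2 * V).comp G - Λ) (h1' : G'.degree < T) (h2' : G'.coeff 0 = 0)
    (h3' : X ^ T ∣ (X + X ^ 2 * V).comp G' - Λ) : G = G' := by
  have k : ∀ r ≤ T, X ^ r ∣ G - G' := by
    intro r
    induction r with
    | zero => simp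
    | succ r ih =>
      intro hr
      convert dvd_sub ((pow_dvd_pow _ hr).trans (dvd_sub h3 h3'))
        (step V r G G' h2 h2' (ih (by omega))) using 1
      ring
  ext d
  rcases lt_or_ge d T with h | h
  · rw [← sub_eq_zero, ← coeff_sub]
    exact X_pow_dvd_iff.1 (k T le_rfl) d h
  · rw [coeff_eq_zero_of_degree_lt (h1.trans_le (by exact_mod_cast h)),
      coeff_eq_zero_of_degree_lt (h1'.trans_le (by exact_mod_cast h))]

end TFINV

open TFINV

theorem t_FINV : FINV := by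
  intro L h0 h1
  obtain ⟨V, rfl⟩ := shape h0 h1
  refine ⟨step V, fun T Λ hΛ => ?_⟩
  obtain ⟨G, h2, h3, h4⟩ := ex V T Λ hΛ
  exact ⟨G, ⟨h2, h3, h4⟩, fun G' h => uniq V T Λ G' G h.1 h.2.1 h.2.2 h2 h3 h4⟩

end Pool.Agent.P.MP_9c97e9_nt.KT
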