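import Pool.Agent.P.MP_9c97e9_nt.KT.IfP

/-! The theorem of Honda. -/

namespace Pool.Agent.P.MP_9c97e9_nt.KT

open scoped NNReal
open MP_8b7eba_nt.R2
open MP_8b7eba_nt.Mod (an an_one)
open Polynomial Finset

namespace THON

lemma ph_sub (σ : GQ) (F G : Om[X]) : phF σ (F - G) = phF σ F - phF σ G := by
  simp [phF, Polynomial.map_sub]

lemma ph_dvd (σ : GQ) {r : ℕ} {c : Om} {F : Om[X]} (h : X ^ (r + 1) ∣ F - C c * X ^ r) :
    X ^ (r + 1) ∣ phF σ F - C (2 ^ r * σ c) * X ^ r := by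
  obtain ⟨R, hR⟩ := h
  obtain ⟨S, hS⟩ := sub_dvd_pow_sub_pow (X + 2 : Om[X]) 2 r
  have e : ((1 + X) ^ 2 - 1 : Om[X]) = X * (X + 2) := by ring
  refine ⟨(X + 2) ^ (r + 1) * phF σ R + C (σ c) * S, ?_⟩
  rw [sub_eq_iff_eq_add.1 hR]
  simp only [phF, e, Polynomial.map_add, Polynomial.map_mul, Polynomial.map_pow, map_X, map_C,
    add_comp, mul_comp, pow_comp, X_comp, C_comp, mul_pow, map_mul, map_pow, map_ofNat,
    RingHom.coe_coe]
  linear_combination C (σ c) * X ^ r * hS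

lemma coeff_eq {r : ℕ} {c : Om} {F : Om[X]} (h : X ^ (r + 1) ∣ F - C c * X ^ r) :
    F.coeff r = c := by
  simpa [sub_eq_zero] using X_pow_dvd_iff.1 h r r.lt_succ_self

lemma lT_coeff {T m : ℕ} (h : m < T) : (lT T).coeff m = (an m : Om) / m := by
  simp [lT, coeff_monomial, h]

end THON

open THON

theorem t_HON (hFINV : FINV) (hHTB : HTB) : HON := by
  intro σ T Λ G hσ hΛ h1 hI hd h0 hT r
  induction r using Nat.strong_induction_on with
  | _ r ih =>
  rcases Nat.eq_zero_or_pos r with rfl | hr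
  · simp [h0]
  rcases le_or_gt T r with h | h
  · rw [coeff_eq_zero_of_degree_lt (hd.trans_le (by exact_mod_cast h))]
    simp
  set G' : Om[X] := ∑ i ∈ range r, monomial i (G.coeff i) with hG'
  have e : ∀ i, G'.coeff i = if i < r then G.coeff i else 0 := fun i => by
    simp [hG', coeff_monomial]
  have l0 : (lT T).coeff 0 = 0 := by rw [lT_coeff (by omega)]; simp
  have l1 : (lT T).coeff 1 = 1 := by rw [lT_coeff (by omega)]; simp [an_one]
  have g0 : G'.coeff 0 = 0 := by rw [e, if_pos hr, h0]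
  have d1 := (hFINV _ l0 l1).1 r G G' h0 g0
    (X_pow_dvd_iff.2 fun i hi => by rw [coeff_sub, e, if_pos hi, sub_self])
  have d2 : X ^ (r + 1) ∣ G - G' - C (G.coeff r) * X ^ r := X_pow_dvd_iff.2 fun i hi => by
    rw [coeff_sub, coeff_sub, e, coeff_C_mul_X_pow]
    split_ifs with a b b
    · omega
    · simp
    · simp [b]
    · omega
  have d3 : X ^ (r + 1) ∣ Λ - (lT T).comp G' - C (G.coeff r) * X ^ r := by
    convert (d1.add d2).sub ((pow_dvd_pow X h).trans hT) using 1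
    ring
  rcases eq_or_lt_of_le (show 1 ≤ r from hr) with rfl | hr'
  · have := coeff_eq d3
    rw [hG', sum_range_one, h0, monomial_zero_right, comp_zero, ← coeff_zero_eq_eval_zero, l0, map_zero,
      sub_zero] at this
    rwa [← this]
  have k1 := hΛ r h
  have k2 := hHTB σ T G' hσ (fun i => by
    rw [e]
    split_ifs with a
    exacts [ih i a, by simp]) (fun i => by
    rw [e]
    split_ifs
    exacts [hI i, fun g _ => map_zero g]) g0 r h
  have k3 := (w2.v.map_sub _ _).trans (max_le k1 k2)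
  have e1 := coeff_eq d3
  have e2 := coeff_eq (ph_dvd σ d3)
  have e3 := coeff_eq (ph_dvd σ (ph_dvd σ d3))
  simp only [ph_sub, coeff_sub] at e1 e2 e3
  obtain ⟨s, rfl⟩ : ∃ s, r = s + 2 := ⟨r - 2, by omega⟩
  generalize G.coeff (s + 2) = c at *
  have e4 : (ThH σ Λ).coeff (s + 2) - (ThH σ ((lT T).comp G')).coeff (s + 2) =
      c + 2 * (2 ^ s * σ c + 2 ^ (2 * s + 2) * σ (σ c)) := by
    simp only [ThH, coeff_add, coeff_C_mul]
    rw [map_mul, map_pow, map_ofNat] at e3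
    linear_combination e1 + 2⁻¹ * e2 + 2⁻¹ * e3
  rw [e4] at k3
  by_contra hc
  have v2 : w2.v 2 = 2⁻¹ := Pl.v_two' rfl
  have v3 : ∀ (n : ℕ) (x : Om), w2.v (2 ^ n * σ x) ≤ w2.v x := fun n x => by
    rw [map_mul, map_pow, v2, Pl.mem_D.1 hσ.1]
    exact mul_le_of_le_one_left' (pow_le_one' (by norm_num) _)
  have v4 := (w2.v.map_add _ _).trans
    (max_le (v3 s c) ((v3 (2 * s + 2) (σ c)).trans_eq (Pl.mem_D.1 hσ.1 c)))
  rw [w2.v.map_add_eq_of_lt_left] at k3
  · exact hc k3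
  · rw [map_mul, v2]
    refine (mul_le_mul_right v4 _).trans_lt (mul_lt_of_lt_one_left ?_ (by norm_num))
    exact zero_lt_one.trans (not_le.1 hc)

end Pool.Agent.P.MP_9c97e9_nt.KT
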