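import Pool.Agent.P.MP_9c97e9_nt.KT.IfP

/-! The logarithm is of Honda type. -/

namespace Pool.Agent.P.MP_9c97e9_nt.KT

open scoped NNReal Matrix
open MP_8b7eba_nt.R2
open MP_8b7eba_nt.Mod (an)
open Polynomial Finset

namespace THTB

section ring

variable {R : Type} [CommRing R]

/-- the elements on which `φ` is the square modulo two -/
def sqS (φ : R →+* R) : Subring R where
  carrier := {x | 2 ∣ φ x - x ^ 2}
  one_mem' := by simp
  zero_mem' := by simp
  add_mem' := by
    rintro x y ⟨a, ha⟩ ⟨b, hb⟩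
    exact ⟨a + b - x * y, by rw [map_add]; linear_combination ha + hb⟩
  mul_mem' := by
    rintro x y ⟨a, ha⟩ ⟨b, hb⟩
    exact ⟨φ x * b + y ^ 2 * a, by rw [map_mul]; linear_combination φ x * hb + y ^ 2 * ha⟩
  neg_mem' := by
    rintro x ⟨a, ha⟩
    exact ⟨-a - x ^ 2, by rw [map_neg]; linear_combination -ha⟩

theorem four {φ : R →+* R} {x : R} (h : 2 ∣ φ x - x ^ 2) : 2 ∣ φ (φ x) - x ^ 4 := by
  obtain ⟨u, hu⟩ := h
  have h1 : φ x = x ^ 2 + 2 * u := by linear_combination hu
  refine ⟨2 * x ^ 2 * u + 2 * u ^ 2 + φ u, ?_⟩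
  conv_lhs => rw [h1, map_add, map_mul, map_pow, map_ofNat, h1]
  ring

theorem pow_dvd (hu : ∀ k : ℕ, Odd k → IsUnit (k : R)) {a b : R} (h : 2 ∣ a - b) {m : ℕ}
    (hm : m ≠ 0) : (2 * m : R) ∣ a ^ m - b ^ m := by
  obtain ⟨j, k, hk, rfl⟩ := Nat.exists_eq_two_pow_mul_odd hm
  have h1 := dvd_sub_pow_of_dvd_sub (p := 2) (a := a) (b := b) (by exact_mod_cast h) j
  have h2 := h1.trans (sub_dvd_pow_sub_pow _ _ k)
  rw [← pow_mul, ← pow_mul] at h2
  have h3 : (2 * (2 ^ j * k : ℕ) : R) = ((2 : ℕ) : R) ^ (j + 1) * k := by push_cast; ring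
  rw [h3]
  exact (hu k hk).mul_right_dvd.2 h2

end ring

/-- the ring of integers -/
noncomputable abbrev OO : Subring Om := w2.v.integer

theorem pal_map (F : OO[X]) : PAl (F.map OO.subtype) := fun m => by
  rw [coeff_map]; exact (F.coeff m).2

theorem exists_lift {F : Om[X]} (h : PAl F) : ∃ F0 : OO[X], F0.map OO.subtype = F :=
  (mem_lifts F).1 ((lifts_iff_coeff_lifts F).2 fun m => ⟨⟨_, h m⟩, rfl⟩)

theorem odd_unit (k : ℕ) (hk : Odd k) : IsUnit (k : OO) := by
  have h : w2.v ((k : ℤ) : Om) = 1 := Pl.v_int_eq_one.2 (by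
    change ¬ ((2 : ℕ) : ℤ) ∣ k
    rw [Int.natCast_dvd_natCast]
    exact hk.not_two_dvd_nat)
  exact (Valuation.integer.integers w2.v).isUnit_of_one' (by simpa using h)

theorem odd_unit' (k : ℕ) (hk : Odd k) : IsUnit (k : OO[X]) := by
  simpa using (odd_unit k hk).map (C : OO →+* OO[X])

/-- the restriction of an element of the decomposition group -/
noncomputable def sg {σ : GQ} (h : σ ∈ w2.D) : OO →+* OO :=
  ((σ : Om →+* Om).comp OO.subtype).codRestrict OO fun x =>
    (Pl.mem_D.1 h x).trans_le x.2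

/-- the integral Frobenius lift -/
noncomputable def ph {σ : GQ} (h : σ ∈ w2.D) : OO[X] →+* OO[X] :=
  (compRingHom ((1 + X) ^ 2 - 1)).comp (mapRingHom (sg h))

theorem ph_map {σ : GQ} (h : σ ∈ w2.D) (F : OO[X]) :
    (ph h F).map OO.subtype = phF σ (F.map OO.subtype) := by
  simp only [ph, phF, RingHom.comp_apply, coe_compRingHom_apply, coe_mapRingHom, map_comp,
    Polynomial.map_map, Polynomial.map_sub, Polynomial.map_pow, Polynomial.map_add,
    Polynomial.map_one, map_X]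
  rfl

theorem ph_sq {σ : GQ} (h : w2.IsFrob 1 σ) (F : OO[X]) (hF : ∀ m, Fix w2.I (F.coeff m)) :
    2 ∣ ph h.1 F - F ^ 2 := by
  change F ∈ sqS (ph h.1)
  rw [F.as_sum_support_C_mul_X_pow]
  refine sum_mem fun m _ => mul_mem ?_ (pow_mem ?_ _)
  · have hc := hF m
    generalize F.coeff m = c at hc
    have h1 : Fix w2.I (σ c) := fun i hi => by
      have h2 := hc _ (Pl.conj_mem_I (w2.D.inv_mem h.1) hi)
      rw [inv_inv] at h2
      conv_rhs => rw [← h2]
      exact (BasicP.apply_inv σ _).symm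
    have h2 := BasicP.le (a_RES w2 _ w2.loc_D).2.2.2.2.1 (h1.sub (hc.pow 2)) (h.2 c c.2)
    have h3 : (2 : OO) ∣ sg h.1 c - c ^ 2 :=
      (Valuation.integer.integers w2.v).dvd_of_le h2
    change 2 ∣ ph h.1 (C c) - C c ^ 2
    simpa [ph, map_ofNat] using map_dvd (C : OO →+* OO[X]) h3
  · exact ⟨X, by simp [ph]; ring⟩

theorem lT_comp (T : ℕ) (A : Om[X]) :
    (lT T).comp A = ∑ m ∈ range T, C ((an m : Om) / m) * A ^ m := by
  simp [lT, Polynomial.sum_comp, monomial_comp]

theorem phF_lT (σ : GQ) (T : ℕ) (A : Om[X]) :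
    phF σ ((lT T).comp A) = (lT T).comp (phF σ A) := by
  have h : (lT T).map (σ : Om →+* Om) = lT T := by
    simp [lT, Polynomial.map_sum]
  rw [phF, phF, map_comp, h, comp_assoc]

theorem diff (T : ℕ) {A B : OO[X]} (h : 2 ∣ A - B) : ∃ W : OO[X],
    (lT T).comp (A.map OO.subtype) =
      (lT T).comp (B.map OO.subtype) + 2 * W.map OO.subtype := by
  have h1 : ∀ m : ℕ, ∃ W : OO[X], C ((an m : Om) / m) * A.map OO.subtype ^ m =
      C ((an m : Om) / m) * B.map OO.subtype ^ m + 2 * W.map OO.subtype := by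
    intro m
    by_cases hm : m = 0
    · exact ⟨0, by simp [hm]⟩
    obtain ⟨W, hW⟩ := pow_dvd odd_unit' h hm
    have h2 := congrArg (Polynomial.map OO.subtype) hW
    simp only [Polynomial.map_sub, Polynomial.map_pow, Polynomial.map_mul, Polynomial.map_ofNat,
      Polynomial.map_natCast] at h2
    refine ⟨(an m : ℤ) * W, ?_⟩
    have h3 : C ((an m : Om) / m) * (m : Om[X]) = (an m : ℤ) := by
      rw [← map_natCast C, ← map_mul, div_mul_cancel₀ _ (Nat.cast_ne_zero.2 hm), map_intCast]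
    rw [Polynomial.map_mul, Polynomial.map_intCast, ← h3]
    linear_combination C ((an m : Om) / m) * h2
  choose W hW using h1
  refine ⟨∑ m ∈ range T, W m, ?_⟩
  rw [lT_comp, lT_comp, Polynomial.map_sum, mul_sum, ← sum_add_distrib]
  exact sum_congr rfl fun m _ => hW m

theorem lT_coeff {T m : ℕ} (h : m < T) : (lT T).coeff m = (an m : Om) / m := by
  simp [lT, finsetSum_coeff, coeff_monomial, h]

theorem pit (T : ℕ) : PIt T (lT T + C 2⁻¹ * expand Om 2 (lT T) + C 2⁻¹ * expand Om 4 (lT T)) := by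
  intro m hm
  rw [coeff_add, coeff_add, coeff_C_mul, coeff_C_mul, coeff_expand (by norm_num),
    coeff_expand (by norm_num), lT_coeff hm, lT_coeff (by omega : m / 2 < T),
    lT_coeff (by omega : m / 4 < T)]
  rcases Nat.even_or_odd' m with ⟨n, rfl | rfl⟩
  · have h := MP_8b7eba_nt.Mod.hecke Nat.prime_two n
    rw [MP_8b7eba_nt.Mod.an_small.2.2.1] at h
    rw [if_pos (by omega), show 2 * n / 2 = n by omega]
    by_cases h0 : n = 0
    · simp [h0]
    have hn : (n : Om) ≠ 0 := Nat.cast_ne_zero.2 h0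
    rcases Nat.even_or_odd' n with ⟨k, rfl | rfl⟩
    · rw [if_pos (by omega), show 2 * k / 2 = k by omega] at h
      rw [if_pos (by omega), show 2 * (2 * k) / 4 = k by omega]
      have hk : (k : Om) ≠ 0 := Nat.cast_ne_zero.2 (by omega)
      have h' : (an (2 * (2 * k)) : Om) = -an (2 * k) - 2 * an k := by
        rw [show an (2 * (2 * k)) = -an (2 * k) - 2 * an k by push_cast at h; omega]
        push_cast; rfl
      rw [h', show (-an (2 * k) - 2 * an k : Om) / (2 * (2 * k) : ℕ) +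
        2⁻¹ * (an (2 * k) / (2 * k : ℕ)) + 2⁻¹ * (an k / k) = 0 by push_cast; field_simp; ring]
      simp
    · rw [if_neg (by omega)] at h
      rw [if_neg (by omega)]
      have h' : (an (2 * (2 * k + 1)) : Om) = -an (2 * k + 1) := by
        rw [show an (2 * (2 * k + 1)) = -an (2 * k + 1) by omega]
        push_cast; rfl
      rw [h', show (-an (2 * k + 1) : Om) / (2 * (2 * k + 1) : ℕ) +
        2⁻¹ * (an (2 * k + 1) / (2 * k + 1 : ℕ)) + 2⁻¹ * 0 = 0 by
          rw [Nat.cast_mul]; field_simp; push_cast; ring]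
      simp
  · rw [if_neg (by omega), if_neg (by omega), mul_zero, add_zero, add_zero, map_div₀]
    have h : w2.v ((2 * n + 1 : ℕ) : Om) = 1 := by
      rw [← map_natCast (algebraMap w2.v.integer Om)]
      exact (Valuation.integer.integers w2.v).one_of_isUnit (odd_unit _ ⟨n, rfl⟩)
    rw [h, div_one]
    exact w2.v_int_le _

theorem pit_comp {T : ℕ} {M : Om[X]} (hM : PIt T M) (G : OO[X])
    (h0 : (G.map OO.subtype).coeff 0 = 0) : PIt T (M.comp (G.map OO.subtype)) := by
  intro m hm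
  rw [comp_eq_sum_left, Polynomial.sum, finsetSum_coeff]
  refine w2.v.map_sum_le fun k _ => ?_
  rw [coeff_C_mul, map_mul]
  by_cases hk : k < T
  · rw [← Polynomial.map_pow]
    exact mul_le_one' (hM k hk) (pal_map _ m)
  · rw [X_pow_dvd_iff.1 (pow_dvd_pow_of_dvd (X_dvd_iff.2 h0) k) m (by omega)]
    simp

end THTB

open THTB in
theorem t_HTB : HTB := by
  intro σ T G hσ hG hI h0
  obtain ⟨G, rfl⟩ := exists_lift hG
  have h1 := ph_sq hσ G fun m => by simpa [coeff_map] using hI m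
  obtain ⟨W, hW⟩ := diff T h1
  obtain ⟨W', hW'⟩ := diff T (four h1)
  have h2 : C (2⁻¹ : Om) * 2 = 1 := by
    rw [← map_ofNat C 2, ← map_mul, inv_mul_cancel₀ two_ne_zero, map_one]
  have h3 : ThH σ ((lT T).comp (G.map OO.subtype)) =
      (lT T + C 2⁻¹ * expand Om 2 (lT T) + C 2⁻¹ * expand Om 4 (lT T)).comp (G.map OO.subtype) +
        (W + W').map OO.subtype := by
    rw [ThH, phF_lT, phF_lT, ← ph_map hσ.1, ← ph_map hσ.1, hW, hW']
    simp only [add_comp, mul_comp, C_comp, expand_eq_comp_X_pow, comp_assoc, X_pow_comp,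
      Polynomial.map_pow, Polynomial.map_add]
    linear_combination (W.map OO.subtype + W'.map OO.subtype) * h2
  intro m hm
  rw [h3, coeff_add]
  exact w2.v.map_add_le (pit_comp (pit T) G h0 m hm) (pal_map _ m)

end Pool.Agent.P.MP_9c97e9_nt.KT
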