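import Pool.Agent.P.MP_9c97e9_nt.KT.IfP
import Pool.Agent.P.MP_8b7eba_nt.R2.BasicP

/-! Proof of HTL. -/

namespace Pool.Agent.P.MP_9c97e9_nt.KT

open scoped NNReal
open MP_8b7eba_nt.R2
open Polynomial Finset

namespace THTL

/-- polynomials with integral coefficients -/
def A : Subring Om[X] where
  carrier := {F | PAl F}
  mul_mem' := fun {F G} hF hG m => by
    rw [coeff_mul]
    exact w2.v.map_sum_le fun c _ => by
      rw [map_mul]
      exact mul_le_one' (hF _) (hG _)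
  one_mem' := fun m => by
    rw [coeff_one]
    split_ifs <;> simp
  add_mem' := fun {F G} hF hG m => by
    rw [coeff_add]
    exact w2.v.map_add_le (hF m) (hG m)
  zero_mem' := fun m => by simp
  neg_mem' := fun {F} hF m => by
    rw [coeff_neg, Valuation.map_neg]
    exact hF m

theorem C_mem {c : Om} (h : w2.v c ≤ 1) : C c ∈ A := fun m => by
  rw [coeff_C]
  split_ifs
  exacts [h, by simp]

theorem X_mem : X ∈ A := fun m => by
  rw [coeff_X]
  split_ifs <;> simp

theorem pit_iff {T : ℕ} {F : Om[X]} : PIt T F ↔ ∃ G ∈ A, X ^ T ∣ F - G := by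
  constructor
  · intro h
    refine ⟨∑ m ∈ range T, C (F.coeff m) * X ^ m, A.sum_mem fun m hm =>
      A.mul_mem (C_mem (h m (mem_range.1 hm))) (A.pow_mem X_mem _), X_pow_dvd_iff.2 fun m hm => ?_⟩
    simp [hm]
  · rintro ⟨G, hG, h⟩ m hm
    have := X_pow_dvd_iff.1 h m hm
    rw [coeff_sub, sub_eq_zero] at this
    rw [this]
    exact hG m

/-- the Frobenius lift as a ring homomorphism -/
noncomputable def ph (σ : GQ) : Om[X] →+* Om[X] :=
  (compRingHom ((1 + X) ^ 2 - 1)).comp (mapRingHom (σ : Om →+* Om))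

theorem ph_eq (σ : GQ) (F : Om[X]) : phF σ F = ph σ F := rfl

theorem ph_C (σ : GQ) (c : Om) : ph σ (C c) = C (σ c) := by simp [ph]

theorem ph_X (σ : GQ) : ph σ X = (1 + X) ^ 2 - 1 := by simp [ph]

theorem ph_mem {σ : GQ} (hσ : σ ∈ w2.D) {G : Om[X]} (h : G ∈ A) : ph σ G ∈ A := by
  rw [G.as_sum_range_C_mul_X_pow, map_sum]
  refine A.sum_mem fun m _ => ?_
  rw [map_mul, map_pow, ph_C, ph_X]
  exact A.mul_mem (C_mem ((Pl.mem_D.1 hσ _).trans_le (h m)))
    (A.pow_mem (A.sub_mem (A.pow_mem (A.add_mem A.one_mem X_mem) _) A.one_mem) _)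

theorem pit_ph {σ : GQ} (hσ : σ ∈ w2.D) {T : ℕ} {F : Om[X]} (h : PIt T F) : PIt T (ph σ F) := by
  obtain ⟨G, hG, h⟩ := pit_iff.1 h
  refine pit_iff.2 ⟨_, ph_mem hσ hG, ?_⟩
  have := map_dvd (ph σ) h
  rw [map_pow, map_sub, ph_X] at this
  exact (pow_dvd_pow_of_dvd ⟨X + 2, by ring⟩ T).trans this

theorem pit_mul {T : ℕ} {F G : Om[X]} (hG : G ∈ A) (h : PIt T F) : PIt T (G * F) := by
  obtain ⟨F', hF, h⟩ := pit_iff.1 h
  exact pit_iff.2 ⟨_, A.mul_mem hG hF, by rw [← mul_sub]; exact h.mul_left _⟩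

theorem pit_sub {T : ℕ} {F G : Om[X]} (h : PIt T F) (h' : PIt T G) : PIt T (F - G) :=
  fun m hm => by
    rw [coeff_sub]
    exact w2.v.map_sub_le (h m hm) (h' m hm)

theorem pit_sq {T : ℕ} {F : Om[X]} (h : PIt T F) : PIt T (F ^ 2) := by
  obtain ⟨G, hG, h⟩ := pit_iff.1 h
  exact pit_iff.2 ⟨_, A.pow_mem hG 2, h.trans (sub_dvd_pow_sub_pow _ _ _)⟩

theorem pit_Z {T J : ℕ} (h : T ≤ J) :
    PIt T (C ((2 : Om) ^ (J - T))⁻¹ * ((1 + X) ^ 2 ^ J - 1)) := fun m hm => by
  rw [coeff_C_mul, coeff_sub, coeff_one_add_X_pow, coeff_one]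
  split_ifs with h0
  · simp [h0]
  have h1 : m ≤ 2 ^ J := by have := J.lt_two_pow_self; omega
  obtain ⟨c, hc⟩ : 2 ^ (J - T) ∣ (2 ^ J).choose m := by
    rw [Nat.prime_two.pow_dvd_iff_le_factorization (Nat.choose_pos h1).ne',
      Nat.factorization_choose_prime_pow Nat.prime_two h1 h0]
    have := Nat.factorization_lt 2 h0
    omega
  rw [hc, sub_zero, Nat.cast_mul, Nat.cast_pow, Nat.cast_ofNat,
    inv_mul_cancel_left₀ (pow_ne_zero _ two_ne_zero)]
  exact w2.v_nat_le c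

theorem key {σ : GQ} {α : Om} (h : σ α = α) (J : ℕ) :
    l1 α J - C (α / 2) * ph σ (l1 α J) =
      C (1 - α) * X - C ((α / 2) ^ (J + 1)) * ((1 + X) ^ 2 ^ J - 1) ^ 2 := by
  have hb : σ (α / 2) = α / 2 := by rw [map_div₀, h, map_ofNat]
  have hz : ∀ j, ph σ (C ((α / 2) ^ j) * ((1 + X) ^ 2 ^ j - 1)) =
      C ((α / 2) ^ j) * ((1 + X) ^ 2 ^ (j + 1) - 1) := fun j => by
    rw [map_mul, ph_C, map_pow σ, hb, map_sub, map_one, map_pow (ph σ), map_add, map_one, ph_X,
      add_sub_cancel, ← pow_mul, pow_succ']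
  have ht := sum_range_sub' (fun j => C ((α / 2) ^ j) * ((1 + X : Om[X]) ^ 2 ^ j - 1)) J
  have h2 : C α = 2 * C (α / 2) := by
    rw [← map_ofNat C 2, ← map_mul, mul_div_cancel₀ _ two_ne_zero]
  rw [sum_sub_distrib] at ht
  have h3 : C (α / 2) * ∑ j ∈ range J, C ((α / 2) ^ j) * ((1 + X : Om[X]) ^ 2 ^ (j + 1) - 1) =
      ∑ j ∈ range J, C ((α / 2) ^ (j + 1)) * ((1 + X : Om[X]) ^ 2 ^ (j + 1) - 1) := by
    rw [mul_sum]
    exact sum_congr rfl fun j _ => by rw [← mul_assoc, ← map_mul, ← pow_succ']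
  unfold l1
  rw [map_add, hz, map_mul (ph σ), ph_C, map_sum, map_sub σ, map_one, h]
  simp only [hz]
  rw [← h3] at ht
  simp only [pow_succ, pow_mul, map_mul, map_sub, map_one, pow_zero, h2] at ht ⊢
  linear_combination (1 - 2 * C (α / 2)) * ht

theorem der (α : Om) (J : ℕ) : derivative (l1 α J) = C (α ^ J) * (1 + X) ^ (2 ^ J - 1) +
    C (1 - α) * ∑ j ∈ range J, C (α ^ j) * (1 + X) ^ (2 ^ j - 1) := by
  have hz : ∀ j, derivative (C ((α / 2) ^ j) * ((1 + X) ^ 2 ^ j - 1)) =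
      C (α ^ j) * (1 + X) ^ (2 ^ j - 1) := fun j => by
    rw [derivative_C_mul, derivative_sub, derivative_pow, derivative_add, derivative_one,
      derivative_X, zero_add, mul_one, sub_zero, ← mul_assoc, ← map_mul, Nat.cast_pow,
      Nat.cast_ofNat, ← mul_pow, div_mul_cancel₀ _ two_ne_zero]
  unfold l1
  rw [derivative_add, hz, derivative_C_mul, derivative_sum]
  simp only [hz]

end THTL

open THTL in
theorem t_HTL : HTL := by
  intro σ T J a d e hσ ha va hσa vd he hd hJ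
  have a0 : a ≠ 0 := fun h => by simp [h] at va
  have vα : w2.v (e * a) ≤ 1 := by
    rw [map_mul, va, mul_one]
    exact w2.v_int_le e
  have v1 : w2.v (1 - e * a) ≤ 1 := w2.v.map_sub_le (by simp) vα
  have vp : ∀ j, w2.v ((e * a) ^ j) ≤ 1 := fun j => by
    rw [map_pow]
    exact pow_le_one' vα j
  have u : ∀ j, (1 + X : Om[X]) ^ j ∈ A := fun j => A.pow_mem (A.add_mem A.one_mem X_mem) j
  refine ⟨?_, ?_, ?_, ?_, fun K ζ hK hζ => ?_⟩
  · have hα : σ (e * a) = e * a := by rw [map_mul, map_intCast, hσa]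
    set F := C d * l1 (e * a) J with hF
    have e1 : F - C (a / 2) * ph σ F = C d * (l1 (e * a) J - C (e * a / 2) * ph σ (l1 (e * a) J)) := by
      rw [hF, map_mul (ph σ), ph_C, hd, mul_div_assoc, map_mul, map_mul]
      ring
    have e2 : ThH σ F = (F - C (a / 2) * ph σ F) - C a⁻¹ * ph σ (F - C (a / 2) * ph σ F) := by
      have h1 : (C 2⁻¹ : Om[X]) = C a⁻¹ * C (a / 2) := by
        rw [← map_mul]
        congr 1
        field_simp
      have h2 : (C 2⁻¹ : Om[X]) = -(C a⁻¹ + C (a / 2)) := by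
        rw [← map_add, ← map_neg]
        congr 1
        field_simp
        linear_combination ha
      rw [map_sub, map_mul (ph σ) (C (a / 2)), ph_C, map_div₀ σ, hσa, map_ofNat σ, ThH, ph_eq, ph_eq]
      linear_combination h2 * ph σ F + h1 * ph σ (ph σ F)
    have e3 : PIt T (F - C (a / 2) * ph σ F) := by
      rw [e1, key hα]
      refine pit_mul (C_mem vd) (pit_sub (fun m _ => A.mul_mem (C_mem v1) X_mem m) ?_)
      obtain ⟨r, rfl⟩ : ∃ r, J = 2 * T + 1 + r := ⟨J - (2 * T + 1), by omega⟩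
      have := pit_mul (A.mul_mem (C_mem (vp (2 * T + 1 + r + 1))) (C_mem (w2.v_nat_le (2 ^ r))))
        (pit_sq (pit_Z (T := T) (J := 2 * T + 1 + r) (by omega)))
      convert this using 1
      rw [mul_pow (C _), ← mul_assoc, ← map_pow, ← map_mul, ← map_mul,
        show 2 * T + 1 + r - T = T + 1 + r by omega]
      congr 2
      push_cast
      rw [div_pow]
      field_simp
      ring
    rw [e2]
    exact pit_sub e3 (pit_mul (C_mem (by rw [map_inv₀, va, inv_one])) (pit_ph hσ e3))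
  · rw [der]
    exact A.add_mem (A.mul_mem (C_mem (vp _)) (u _)) (A.mul_mem (C_mem v1)
      (A.sum_mem fun j _ => A.mul_mem (C_mem (vp _)) (u _)))
  · rw [coeff_zero_eq_eval_zero]
    simp [l1, eval_finsetSum]
  · have := coeff_derivative (l1 (e * a) J) 0
    rw [der, coeff_zero_eq_eval_zero] at this
    simp only [eval_add, eval_mul, eval_C, eval_pow, eval_one, eval_X, add_zero, one_pow, mul_one,
      eval_finsetSum, mul_neg_geom_sum, zero_add, Nat.cast_zero] at this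
    rw [← this]
    ring
  · have h1 : ∀ j, K ≤ j → ζ ^ 2 ^ j = 1 := fun j hj => by
      obtain ⟨r, rfl⟩ := Nat.exists_eq_add_of_le hj
      rw [pow_add, pow_mul, hζ, one_pow]
    simp only [l1, eval_add, eval_mul, eval_C, eval_pow, eval_one, eval_X, eval_sub,
      eval_finsetSum, add_sub_cancel]
    rw [h1 J hK, sub_self, mul_zero, zero_add, ← sum_subset (range_subset_range.2 hK)
      fun j _ hj => by rw [h1 j (by simpa using hj), sub_self, mul_zero]]
    simp [muP, map_sum, map_ofNat]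

end Pool.Agent.P.MP_9c97e9_nt.KT
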