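import Pool.Agent.P.MP_9c97e9_nt.KT.IfP

/-! Algebraic points near a given parameter. -/

namespace Pool.Agent.P.MP_9c97e9_nt.KT

open scoped NNReal Matrix
open MP_8b7eba_nt.R2
open MP_8b7eba_nt.Mod (xx yy nM an)
open MP_8b7eba_nt.R1 (Zb QE y1 zs)
open Polynomial Finset

namespace TPRM

/-- the truncated parameter -/
noncomputable def tt (p : ℤ[X]) (a : Om) : Om := a * aeval a p

theorem tt_map (p : ℤ[X]) (σ : GQ) (a : Om) : σ (tt p a) = tt p (σ a) := by
  unfold tt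
  rw [map_mul]
  congr 1
  exact (aeval_algHom_apply ((σ : Om →+* Om).toIntAlgHom) a p).symm

theorem tt_near (hB : PRMB) {S : PowerSeries ℤ} (hS : PowerSeries.constantCoeff S = 1) (T : ℕ)
    {a : Om} (ha : ‖i2 a‖ < 1) :
    ‖i2 (tt (PowerSeries.trunc (T + 1) S) a) - i2 a * ev2 (zs S) (i2 a)‖ ≤ ‖i2 a‖ ^ (T + 2) := by
  have h := (hB S hS).2.2.1 (T + 1) a ha
  unfold tt
  rw [map_mul, ← mul_sub, norm_mul, norm_sub_rev, pow_succ' _ (T + 1)]
  exact mul_le_mul_of_nonneg_left h (norm_nonneg _)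

theorem norm_mul_ev (hB : PRMB) {S : PowerSeries ℤ} (hS : PowerSeries.constantCoeff S = 1)
    {q : ℂ_[2]} (hq : ‖q‖ < 1) : ‖q * ev2 (zs S) q‖ = ‖q‖ := by
  have h := (hB S hS).1 q 0 hq (by simp)
  simpa using h

theorem pw_le {r : ℝ} (h0 : 0 ≤ r) (h1 : r < 1) (T : ℕ) : r ^ (T + 2) ≤ r ^ (T + 1) :=
  pow_le_pow_of_le_one h0 h1.le (by omega)

theorem tt_lt (hB : PRMB) {S : PowerSeries ℤ} (hS : PowerSeries.constantCoeff S = 1) (T : ℕ)
    {a : Om} (ha : ‖i2 a‖ < 1) : ‖i2 (tt (PowerSeries.trunc (T + 1) S) a)‖ < 1 := by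
  have h1 := tt_near hB hS T ha
  have h2 := norm_mul_ev hB hS ha
  have h3 := IsUltrametricDist.norm_add_le_max
    (i2 (tt (PowerSeries.trunc (T + 1) S) a) - i2 a * ev2 (zs S) (i2 a)) (i2 a * ev2 (zs S) (i2 a))
  rw [sub_add_cancel] at h3
  refine h3.trans_lt (max_lt (h1.trans_lt ?_) (h2 ▸ ha))
  exact pow_lt_one₀ (norm_nonneg _) ha (by omega)

theorem tt_ne (hB : PRMB) {S : PowerSeries ℤ} (hS : PowerSeries.constantCoeff S = 1) (T : ℕ)
    {a : Om} (h0 : a ≠ 0) (ha : ‖i2 a‖ < 1) : i2 (tt (PowerSeries.trunc (T + 1) S) a) ≠ 0 := by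
  intro h
  have h1 := tt_near hB hS T ha
  rw [h, zero_sub, norm_neg, norm_mul_ev hB hS ha] at h1
  have hp : 0 < ‖i2 a‖ := norm_pos_iff.2 ((map_ne_zero i2).2 h0)
  have h2 : ‖i2 a‖ ^ (T + 2) < ‖i2 a‖ ^ 1 := pow_lt_pow_right_of_lt_one₀ hp ha (by omega)
  rw [pow_one] at h2
  linarith

end TPRM

open TPRM in
theorem t_PRM (hEV2 : EV2) (hPRMA : PRMA) (hPRMB : PRMB) (hPRMC : PRMC) : PRM := by
  intro T
  obtain ⟨A, B, S, hxA, -, hyA, -, hB1, hS1, hSB, hcub⟩ := hPRMA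
  obtain ⟨u, hu1, hu2⟩ := hPRMC
  set p := PowerSeries.trunc (T + 1) S with hp
  refine ⟨fun a => tt p a / u (tt p a), fun a => -2 / u (tt p a) - tt p a / u (tt p a), ?_, ?_⟩
  · intro σ hσ a ha
    have h := hu1 σ hσ _ (tt_lt hPRMB hS1 T ha)
    rw [← hp, tt_map] at h
    constructor
    · simp only [map_div₀, h, tt_map]
    · simp only [map_sub, map_div₀, h, tt_map, map_neg, map_ofNat]
  · intro a h0 ha
    have hlt := tt_lt hPRMB hS1 T ha
    have hne := tt_ne hPRMB hS1 T h0 ha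
    have hnear := tt_near hPRMB hS1 T ha
    rw [← hp] at hlt hne hnear
    set t := tt p a with ht
    obtain ⟨q, hq, hqt, hap⟩ := (hPRMB S hS1).2.2.2 t hlt
    have hq0 : q ≠ 0 := by
      rintro rfl
      exact hne (by rw [← hqt, zero_mul])
    obtain ⟨⟨φ, hφ⟩, hX, -⟩ := hEV2.2 q hq
    set ψ : PowerSeries ℤ →+* ℂ_[2] := φ.comp (PowerSeries.map (Int.castRingHom Zb)) with hψ
    have hψe : ∀ F, ev2 (zs F) q = ψ F := fun F => (hφ _).symm
    have hψX : ψ PowerSeries.X = q := by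
      rw [← hψe]
      simpa [zs] using hX
    have hβ : ‖ψ B‖ = 1 := by
      have h := norm_mul_ev hPRMB hB1 hq
      rw [norm_mul, hψe] at h
      exact mul_left_cancel₀ (norm_ne_zero_iff.2 hq0) (h.trans (mul_one _).symm)
    have hβ0 : ψ B ≠ 0 := by
      intro h
      rw [h, norm_zero] at hβ
      exact zero_ne_one hβ
    have e1 : ψ S * ψ B = ψ A := by rw [← map_mul, hSB]
    have e2 := congrArg ψ hcub
    simp only [map_add, map_sub, map_mul, map_pow, hψX, map_ofNat] at e2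
    have e3 : i2 t = q * ψ S := by rw [← hqt, hψe]
    have hv : q ^ 3 / ψ B = i2 (u t) := by
      refine hu2 t hlt _ ?_ ?_
      · rw [norm_div, hβ, div_one, norm_pow]
        exact pow_lt_one₀ (norm_nonneg _) hq (by omega)
      · rw [e3]
        rw [← e1] at e2
        field_simp
        apply mul_left_cancel₀ hβ0
        linear_combination q ^ 3 * e2
    have hv0 : i2 (u t) ≠ 0 := hv ▸ div_ne_zero (pow_ne_zero _ hq0) hβ0
    refine ⟨q, ⟨2, zs A, hxA, ?_⟩, ⟨3, _, hyA, ?_⟩, ?_, ?_, ?_⟩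
    · rw [hψe, map_div₀, ← hv, e3, ← e1]
      field_simp
    · rw [hψe]
      simp only [map_sub, map_div₀, map_neg, map_mul, map_ofNat, hψX]
      rw [← hv, e3, ← e1]
      field_simp
    · rw [← (hPRMB S hS1).1 q (i2 a) hq ha, hqt]
      exact hnear.trans (pw_le (norm_nonneg _) ha T)
    · intro f hf hx hy
      simp only [map_sub, map_div₀, map_neg, map_ofNat] at hx hy
      rw [hx, sub_left_inj] at hy
      have hfv : f (i2 (u t)) = i2 (u t) := by
        have h2 : (-2 : ℂ_[2]) ≠ 0 := by norm_num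
        rw [div_eq_mul_inv, div_eq_mul_inv] at hy
        exact inv_injective (mul_left_cancel₀ h2 hy)
      have hft : f (i2 t) = i2 t := by
        rw [hfv, div_left_inj' hv0] at hx
        exact hx
      have hfq : ‖f q‖ < 1 := by
        have h := hf.dist_eq q 0
        rw [map_zero, dist_zero_right, dist_zero_right] at h
        exact h ▸ hq
      have h := (hPRMB S hS1).1 (f q) q hfq hq
      rw [← (hPRMB S hS1).2.1 q f hq hf, ← map_mul, hqt, hft, sub_self, norm_zero] at h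
      exact sub_eq_zero.1 (norm_eq_zero.1 h.symm)
    · intro ε hε
      obtain ⟨q₁, h1, h2⟩ := hap ε hε
      exact ⟨q₁, h1, fun σ hσ => h2 σ (by rw [ht, tt_map, hσ])⟩

end Pool.Agent.P.MP_9c97e9_nt.KT
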