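import Pool.Agent.P.MP_9c97e9_nt.KT.IfP

/-! The expansions of the coordinates and of the parameter. -/

namespace Pool.Agent.P.MP_9c97e9_nt.KT

open MP_8b7eba_nt.Mod (xx yy)
open MP_8b7eba_nt.R1 (Zb QE y1 zs exists_xx exists_y1 y1_eq)
open PowerSeries

theorem t_PRMA : PRMA := by
  obtain ⟨A, cA, hA⟩ := exists_xx
  obtain ⟨B, cB, hB⟩ := exists_y1
  obtain ⟨W, hW⟩ := (isUnit_iff_constantCoeff.2 (cB ▸ isUnit_one)).exists_right_inv
  have cW := congrArg constantCoeff hW
  rw [map_mul, cB, one_mul, map_one] at cW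
  have c2 : ((2 : Zb) : ℂ) = 2 := rfl
  have c9 : ((9 : Zb) : ℂ) = 9 := rfl
  refine ⟨A, B, A * W, hA, hB, ?_, cA, cB, by rw [map_mul, cA, cW, mul_one],
    by linear_combination A * hW, ?_⟩
  · have h1 : QE 1 3 _ _ := (hB.smul (-2)).sub (hA.shift 1)
    have e : zs (-2 * B - X * A) = C (-2) * zs B - X ^ 1 * zs A := by simp [map_ofNat]
    rw [e]
    refine h1.congr fun z _ => ?_
    rw [y1, NegMemClass.coe_neg, c2]
    ring
  · have h1 : QE 1 6 _ _ := hB.pow one_pos 2
    have h2 : QE 1 6 _ _ := (hA.mul one_pos hB).shift 1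
    have h3 : QE 1 6 _ _ := hA.pow one_pos 3
    have h4 : QE 1 6 _ _ := ((hA.pow one_pos 2).shift 2).smul 2
    have h5 : QE 1 6 _ _ := (hA.shift 4).smul 9
    have h6 := (h1.add h2).unique one_pos (((h3.sub h4).sub h5).congr fun z hz => by
      rw [y1_eq hz, c2, c9])
    refine PowerSeries.map_injective (Int.castRingHom Zb) Int.cast_injective ?_
    simp only [map_add, map_sub, map_mul, map_pow, map_X, map_ofNat] at h6 ⊢
    linear_combination h6

end Pool.Agent.P.MP_9c97e9_nt.KT
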