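import Pool.Agent.P.MP_9c97e9_nt.KT.IfP

/-! Inversion of the parameter. -/

namespace Pool.Agent.P.MP_9c97e9_nt.KT

open scoped NNReal
open MP_8b7eba_nt.R2
open MP_8b7eba_nt.R1 (Zb zs)
open Polynomial

namespace TPRMB

theorem map_aev {A B : Type} [CommRing A] [CommRing B] [Algebra ℤ A] [Algebra ℤ B] (F : A →+* B)
    (a : A) (p : ℤ[X]) : F (aeval a p) = aeval (F a) p := by
  induction p using Polynomial.induction_on' with
  | add p q hp hq => simp [hp, hq]
  | monomial n c => simp [aeval_monomial]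

theorem hz (h : EV2) (n : ℤ) : i2 (zo (n : Zb)) = n := by
  obtain ⟨f, hf⟩ := h.1
  rw [← (hf _).1, map_intCast, map_intCast]

theorem ev_split (h : EV2) {t : ℂ_[2]} (ht : ‖t‖ < 1) (p : ℤ[X]) (T : ℕ) (W : PowerSeries ℤ) :
    ev2 (zs ((p : PowerSeries ℤ) + PowerSeries.X ^ T * W)) t = aeval t p + t ^ T * ev2 (zs W) t := by
  obtain ⟨⟨φ, hφ⟩, hX, hC, -⟩ := h.2 t ht
  have hX' : φ PowerSeries.X = t := by rw [hφ, hX]
  have hp : φ (zs (p : PowerSeries ℤ)) = aeval t p := by
    induction p using Polynomial.induction_on' with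
    | add p q hp hq =>
      simp only [zs] at hp hq
      simp only [zs, Polynomial.coe_add, map_add, hp, hq]
    | monomial n c =>
      rw [← C_mul_X_pow_eq_monomial, Polynomial.coe_mul, Polynomial.coe_pow, Polynomial.coe_C,
        Polynomial.coe_X]
      simp only [zs, map_mul, map_pow, PowerSeries.map_C, PowerSeries.map_X, hX']
      rw [hφ, hC]
      simp [hz h]
  rw [← hφ, ← hφ, ← hp]
  simp only [zs, map_add, map_mul, map_pow, PowerSeries.map_X, hX']

theorem lip (h : EV2) (V : PowerSeries ℤ) {q q' : ℂ_[2]} {r : ℝ} (hr : r < 1) (hq : ‖q‖ ≤ r)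
    (hq' : ‖q'‖ ≤ r) :
    ‖q ^ 2 * ev2 (zs V) q - q' ^ 2 * ev2 (zs V) q'‖ ≤ r * ‖q - q'‖ := by
  obtain ⟨-, -, -, hA⟩ := h.2 q (hq.trans_lt hr)
  obtain ⟨h1, -, h2, -⟩ := hA (zs V)
  have h3 := h2 q' (hq'.trans_lt hr)
  have hr0 : 0 ≤ r := (norm_nonneg _).trans hq
  have e : q ^ 2 * ev2 (zs V) q - q' ^ 2 * ev2 (zs V) q' =
      (q + q') * ev2 (zs V) q * (q - q') + q' * q' * (ev2 (zs V) q - ev2 (zs V) q') := by ring
  rw [e]
  refine (IsUltrametricDist.norm_add_le_max _ _).trans (max_le ?_ ?_)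
  · rw [norm_mul, norm_mul]
    have : ‖q + q'‖ ≤ r := (IsUltrametricDist.norm_add_le_max _ _).trans (max_le hq hq')
    refine mul_le_mul_of_nonneg_right ?_ (norm_nonneg _)
    calc ‖q + q'‖ * ‖ev2 (zs V) q‖ ≤ r * 1 := mul_le_mul this h1 (norm_nonneg _) hr0
      _ = r := mul_one r
  · rw [norm_mul, norm_mul]
    refine mul_le_mul ?_ h3 (norm_nonneg _) hr0
    calc ‖q'‖ * ‖q'‖ ≤ r * 1 := mul_le_mul hq' (hq'.trans hr.le) (norm_nonneg _) hr0
      _ = r := mul_one r

theorem tail (h : EV2) (S : PowerSeries ℤ) (T : ℕ) (a : Om) (ha : ‖i2 a‖ < 1) :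
    ‖ev2 (zs S) (i2 a) - i2 (aeval a (PowerSeries.trunc T S))‖ ≤ ‖i2 a‖ ^ T := by
  have hd : (PowerSeries.X : PowerSeries ℤ) ^ T ∣ S - (PowerSeries.trunc T S : ℤ[X]) := by
    rw [PowerSeries.X_pow_dvd_iff]
    intro m hm
    simp [PowerSeries.coeff_trunc, hm]
  obtain ⟨W, hW⟩ := hd
  have hS : S = ((PowerSeries.trunc T S : ℤ[X]) : PowerSeries ℤ) + PowerSeries.X ^ T * W := by
    rw [← hW]; ring
  have e := ev_split h ha (PowerSeries.trunc T S) T W
  rw [← hS] at e
  rw [e, map_aev, add_sub_cancel_left, norm_mul, norm_pow]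
  obtain ⟨-, -, -, hA⟩ := h.2 _ ha
  exact mul_le_of_le_one_right (by positivity) (hA _).1

end TPRMB

open TPRMB in
theorem t_PRMB (hEV2 : EV2) (hBAS : BAS) : PRMB := by
  have _ := hBAS
  intro S hS
  obtain ⟨V, hV⟩ : (PowerSeries.X : PowerSeries ℤ) ∣ S - 1 := by
    rw [PowerSeries.X_dvd_iff]; simp [hS]
  have hg : ∀ q : ℂ_[2], ‖q‖ < 1 → q * ev2 (zs S) q = q + q ^ 2 * ev2 (zs V) q := by
    intro q hq
    have e := ev_split hEV2 hq 1 1 V
    have : ((1 : ℤ[X]) : PowerSeries ℤ) + PowerSeries.X ^ 1 * V = S := by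
      rw [pow_one, ← hV, Polynomial.coe_one]; ring
    rw [this] at e
    rw [e, map_one]; ring
  refine ⟨fun q q' hq hq' => ?_, fun q f hq hf => ?_, tail hEV2 S, fun t ht => ?_⟩
  · by_cases hqq : q = q'
    · simp [hqq]
    have h1 := lip hEV2 V (max_lt hq hq') (le_max_left _ _) (le_max_right _ _)
    have h2 : ‖q ^ 2 * ev2 (zs V) q - q' ^ 2 * ev2 (zs V) q'‖ < ‖q - q'‖ :=
      h1.trans_lt (mul_lt_of_lt_one_left (norm_pos_iff.2 (sub_ne_zero.2 hqq)) (max_lt hq hq'))
    have e : q * ev2 (zs S) q - q' * ev2 (zs S) q' =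
        (q - q') + (q ^ 2 * ev2 (zs V) q - q' ^ 2 * ev2 (zs V) q') := by
      rw [hg q hq, hg q' hq']; ring
    rw [e, IsUltrametricDist.norm_add_eq_max_of_norm_ne_norm h2.ne', max_eq_left h2.le]
  · have hfq : ‖f q‖ < 1 := by rwa [hf.norm_map_of_map_zero (map_zero f)]
    obtain ⟨-, -, -, hA⟩ := hEV2.2 q hq
    obtain ⟨-, -, -, hA'⟩ := hEV2.2 (f q) hfq
    have h1 := (hA (zs S)).2.1.map f.toAddMonoidHom hf.continuous
    refine h1.unique ?_
    convert (hA' (zs S)).2.1 using 1
    funext k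
    simp [hz hEV2]
  · set r := ‖i2 t‖ with hr
    have hr0 : 0 ≤ r := norm_nonneg _
    let F : ℂ_[2] → ℂ_[2] := fun q => i2 t - q ^ 2 * ev2 (zs V) q
    have hm : Set.MapsTo F (Metric.closedBall 0 r) (Metric.closedBall 0 r) := by
      intro q hq
      rw [mem_closedBall_zero_iff] at hq ⊢
      have := lip hEV2 V (q' := 0) ht hq (by simpa using hr0)
      simp only [ne_eq, OfNat.ofNat_ne_zero, not_false_eq_true, zero_pow, zero_mul, sub_zero] at this
      have e : F q = i2 t + -(q ^ 2 * ev2 (zs V) q) := sub_eq_add_neg _ _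
      rw [e]
      refine (IsUltrametricDist.norm_add_le_max _ _).trans
        (max_le le_rfl ((norm_neg _).trans_le (this.trans ?_)))
      exact mul_le_of_le_one_right hr0 (hq.trans ht.le)
    have hc : ContractingWith ⟨r, hr0⟩ (hm.restrict F _ _) := by
      refine ⟨by exact_mod_cast ht, LipschitzWith.of_dist_le_mul fun x y => ?_⟩
      have := lip hEV2 V ht (mem_closedBall_zero_iff.1 y.2) (mem_closedBall_zero_iff.1 x.2)
      rw [Subtype.dist_eq, Subtype.dist_eq, dist_eq_norm, dist_eq_norm, norm_sub_rev (x : ℂ_[2])]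
      refine le_of_eq_of_le (congrArg _ ?_) this
      simp [F]
    obtain ⟨q, hq, hfix, -⟩ := hc.exists_fixedPoint' Metric.isClosed_closedBall.isComplete hm
      (x := 0) (Metric.mem_closedBall_self hr0) (edist_ne_top _ _)
    rw [mem_closedBall_zero_iff] at hq
    have hq1 : i2 t - q ^ 2 * ev2 (zs V) q = q := hfix
    refine ⟨q, hq.trans_lt ht, by rw [hg q (hq.trans_lt ht)]; linear_combination -hq1,
      fun ε hε => ?_⟩
    obtain ⟨T, hT⟩ := exists_pow_lt_of_lt_one hε ht
    let b : ℕ → Om := fun n =>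
      Nat.rec 0 (fun _ x => t - x * (aeval x (PowerSeries.trunc T S) - 1)) n
    have hb : ∀ n, b (n + 1) = t - b n * (aeval (b n) (PowerSeries.trunc T S) - 1) := fun _ => rfl
    have key : ∀ n, ‖i2 (b n) - q‖ ≤ r * max (r ^ n) (r ^ T) := by
      intro n
      induction n with
      | zero =>
        have : b 0 = 0 := rfl
        rw [this, map_zero, zero_sub, norm_neg, pow_zero]
        exact hq.trans (le_mul_of_one_le_right hr0 (le_max_left _ _))
      | succ n ih =>
        have hmx : max (r ^ n) (r ^ T) ≤ 1 :=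
          max_le (pow_le_one₀ hr0 ht.le) (pow_le_one₀ hr0 ht.le)
        have hβ : ‖i2 (b n)‖ ≤ r := by
          have : i2 (b n) = (i2 (b n) - q) + q := by ring
          rw [this]
          exact (IsUltrametricDist.norm_add_le_max _ _).trans
            (max_le (ih.trans (mul_le_of_le_one_right hr0 hmx)) hq)
        have h1 := lip hEV2 V ht hq hβ
        have h2 := tail hEV2 S T (b n) (hβ.trans_lt ht)
        have h3 := hg _ (hβ.trans_lt ht)
        have e : i2 (b (n + 1)) - q =
            (q ^ 2 * ev2 (zs V) q - i2 (b n) ^ 2 * ev2 (zs V) (i2 (b n))) +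
              i2 (b n) * (ev2 (zs S) (i2 (b n)) - i2 (aeval (b n) (PowerSeries.trunc T S))) := by
          rw [hb, map_sub, map_mul, map_sub, map_one]
          linear_combination hq1 - h3
        rw [e]
        refine (IsUltrametricDist.norm_add_le_max _ _).trans (max_le (h1.trans ?_) ?_)
        · refine mul_le_mul_of_nonneg_left ?_ hr0
          rw [norm_sub_rev]
          refine ih.trans ?_
          rw [mul_max_of_nonneg _ _ hr0]
          refine max_le_max (by rw [pow_succ']) (mul_le_of_le_one_left (by positivity) ht.le)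
        · rw [norm_mul]
          refine mul_le_mul hβ (h2.trans ?_) (norm_nonneg _) hr0
          exact (pow_le_pow_left₀ (norm_nonneg _) hβ T).trans (le_max_right _ _)
    refine ⟨b T, (key T).trans ?_, fun σ hσ => ?_⟩
    · rw [max_self]
      exact (mul_le_of_le_one_left (by positivity) ht.le).trans hT.le
    · have : ∀ n, σ (b n) = b n := by
        intro n
        induction n with
        | zero => exact map_zero σ
        | succ n ih =>
          have h1 := map_aev (σ : Om →+* Om) (b n) (PowerSeries.trunc T S)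
          simp only [RingHom.coe_coe] at h1
          rw [hb, map_sub, map_mul, map_sub, map_one, h1, ih, hσ]
      exact this T

end Pool.Agent.P.MP_9c97e9_nt.KT
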