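import Pool.Agent.P.MP_9c97e9_nt.KT.IfP

/-! The point with a given parameter. -/

namespace Pool.Agent.P.MP_9c97e9_nt.KT

open MP_8b7eba_nt.R2

namespace TPRMC

theorem add_lt {a b : ℂ_[2]} (ha : ‖a‖ < 1) (hb : ‖b‖ < 1) : ‖a + b‖ < 1 :=
  (IsUltrametricDist.norm_add_le_max a b).trans_lt (max_lt ha hb)

theorem mul_lt {a b : ℂ_[2]} (ha : ‖a‖ ≤ 1) (hb : ‖b‖ < 1) : ‖a * b‖ < 1 := by
  rw [norm_mul]
  exact mul_lt_one_of_nonneg_of_lt_one_right ha (norm_nonneg _) hb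

theorem one_add {a : ℂ_[2]} (ha : ‖a‖ < 1) : ‖1 + a‖ = 1 := by
  rw [IsUltrametricDist.norm_add_eq_max_of_norm_ne_norm (by rw [norm_one]; exact ha.ne'), norm_one,
    max_eq_left ha.le]

theorem nat_le (n : ℕ) : ‖(n : ℂ_[2])‖ ≤ 1 := IsUltrametricDist.norm_natCast_le_one _ n

theorem uniq {t u v : ℂ_[2]} (ht : ‖t‖ < 1) (hu : ‖u‖ < 1) (hv : ‖v‖ < 1)
    (h : 9 * t * u ^ 2 + (1 + t + 2 * t ^ 2) * u - t ^ 3 = 0)
    (h' : 9 * t * v ^ 2 + (1 + t + 2 * t ^ 2) * v - t ^ 3 = 0) : u = v := by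
  have h1 : (u - v) * (1 + (t + 2 * (t * t) + 9 * (t * (u + v)))) = 0 := by
    linear_combination h - h'
  refine sub_eq_zero.1 ((mul_eq_zero.1 h1).resolve_right fun e => ?_)
  have h2 := one_add (add_lt (add_lt ht (mul_lt (nat_le 2) (mul_lt ht.le ht)))
    (mul_lt (nat_le 9) (mul_lt ht.le (add_lt hu hv))))
  push_cast at h2
  rw [e, norm_zero] at h2
  exact zero_ne_one h2

theorem nine (hBAS : BAS) : ‖(9 : ℂ_[2])‖ = 1 := by
  have h1 : ‖(2 : ℂ_[2])‖ < 1 := by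
    have h2 := hBAS.2.2.1 2
    have h3 : w2.v 2 = 2⁻¹ := by
      have h4 : w2.v ((2 : ℕ) : Om) = ((2 : ℕ) : NNReal)⁻¹ := w2.4
      simpa using h4
    rw [h3, map_ofNat] at h2
    rw [← h2]
    norm_num
  have h2 := one_add (mul_lt (nat_le 4) h1)
  norm_num at h2
  exact h2

theorem ex (hBAS : BAS) {t : Om} (ht : ‖i2 t‖ < 1) :
    ∃ u : Om, ‖i2 u‖ < 1 ∧ 9 * t * u ^ 2 + (1 + t + 2 * t ^ 2) * u - t ^ 3 = 0 := by
  rcases eq_or_ne t 0 with rfl | h0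
  · exact ⟨0, by simp, by simp⟩
  obtain ⟨u, hu⟩ := exists_quadratic_eq_zero (a := 9 * t) (b := 1 + t + 2 * t ^ 2) (c := -t ^ 3)
    (mul_ne_zero (by norm_num) h0) (IsAlgClosed.exists_eq_mul_self _)
  by_cases h : ‖i2 u‖ < 1
  · exact ⟨u, h, by linear_combination hu⟩
  have h1 : ∃ v : Om, 9 * t * (u + v) = -(1 + t + 2 * t ^ 2) :=
    ⟨-(1 + t + 2 * t ^ 2) / (9 * t) - u, by field_simp; ring⟩
  obtain ⟨v, hv⟩ := h1
  have h2 : 9 * u * v = -t ^ 2 := mul_left_cancel₀ h0 (by linear_combination u * hv - hu)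
  refine ⟨v, ?_, by linear_combination v * hv - t * h2⟩
  have h3 := congrArg (fun x => ‖i2 x‖) h2
  simp only [map_mul, map_neg, map_pow, map_ofNat, norm_mul, norm_neg, norm_pow, nine hBAS] at h3
  have h4 := norm_nonneg (i2 t)
  have h5 := norm_nonneg (i2 v)
  nlinarith [not_lt.1 h]

end TPRMC

open TPRMC in
theorem t_PRMC (hBAS : BAS) : PRMC := by
  have key : ∀ t : Om, ∃ u : Om, ‖i2 t‖ < 1 →
      ‖i2 u‖ < 1 ∧ 9 * t * u ^ 2 + (1 + t + 2 * t ^ 2) * u - t ^ 3 = 0 := fun t => by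
    by_cases h : ‖i2 t‖ < 1
    · exact (ex hBAS h).imp fun u hu _ => hu
    · exact ⟨0, fun e => absurd e h⟩
  choose u hu using key
  have h1 : ∀ t, ‖i2 t‖ < 1 → ∀ v : ℂ_[2], ‖v‖ < 1 →
      9 * i2 t * v ^ 2 + (1 + i2 t + 2 * i2 t ^ 2) * v - i2 t ^ 3 = 0 → v = i2 (u t) := by
    intro t ht v hv h
    refine uniq ht hv (hu t ht).1 h ?_
    simpa [map_ofNat] using congrArg i2 (hu t ht).2
  refine ⟨u, fun σ hσ t ht => ?_, h1⟩
  have h2 : ∀ x, ‖i2 (σ x)‖ = ‖i2 x‖ := fun x => by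
    rw [← hBAS.2.2.1, ← hBAS.2.2.1, Pl.mem_D.1 hσ]
  refine i2.injective (h1 (σ t) (by rwa [h2]) _ (by rw [h2]; exact (hu t ht).1) ?_)
  simpa [map_ofNat] using congrArg (fun x => i2 (σ x)) (hu t ht).2

end Pool.Agent.P.MP_9c97e9_nt.KT
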