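import Pool.Agent.P.MP_9c97e9_nt.KT.IfP

/-! Traces from the cyclotomic field. -/

namespace Pool.Agent.P.MP_9c97e9_nt.KT

open MP_8b7eba_nt.R2 Finset

namespace TTEL2

theorem odd {L : ℕ} (η : (ZMod (2 ^ (L + 1)))ˣ) : (η : ZMod (2 ^ (L + 1))).val % 2 = 1 :=
  Nat.odd_iff.1 (Nat.coprime_two_right.1
    ((Nat.coprime_pow_right_iff L.succ_pos _ _).1 (ZMod.val_coe_unit_coprime η)))

theorem surj (hB : BAS) {K : ℕ} {ζ : Om} (hz : IsPrimitiveRoot ζ (2 ^ K)) (η : (ZMod (2 ^ K))ˣ) :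
    ∃ g ∈ w2.D, cy (2 ^ K) g = η := by
  rcases K with _ | L
  · exact ⟨1, one_mem _, Units.ext (Subsingleton.elim (α := ZMod 1) _ _)⟩
  have h1 : IsUnit ((η : ZMod (2 ^ (L + 1))).val : ℤ_[2]) :=
    PadicInt.isUnit_iff.2 (PadicInt.norm_natCast_eq_one_iff.2
      (Nat.coprime_two_left.2 (Nat.odd_iff.2 (odd η))))
  obtain ⟨g, hg, e⟩ := a_EC2 w2 rfl h1.unit
  have h2 := a_EC.2.2.1 g (L + 1) (η : ZMod (2 ^ (L + 1))).val ζ hz.pow_eq_one (by simp [e])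
  rw [hB.2.1 _ (by positivity) g ζ hz.pow_eq_one] at h2
  exact ⟨g, hg.1, Units.ext (ZMod.val_injective _
    (hz.pow_inj (ZMod.val_lt _) (ZMod.val_lt _) h2))⟩

theorem one (hB : BAS) (K : ℕ) (ζ : Om) (H : Subgroup GQ) (Φ : Om → ℂ_[2])
    (hz : IsPrimitiveRoot ζ (2 ^ K)) (hH : w2.Loc H) (h : ∀ g ∈ H, cy (2 ^ K) g = 1) :
    (csum w2.D H fun g => Φ (g ζ)) = H.relIndex (w2.D ⊓ (cy (2 ^ K)).ker) *
      ∑ η : (ZMod (2 ^ K))ˣ, Φ (ζ ^ (η : ZMod (2 ^ K)).val) := by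
  have a : ∀ g : GQ, g ζ = ζ ^ (cy (2 ^ K) g : ZMod (2 ^ K)).val := fun g =>
    hB.2.1 _ (by positivity) g ζ hz.pow_eq_one
  have b : ∀ s t : GQ, cy (2 ^ K) t = 1 → (s * t) ζ = s ζ := fun s t e => by
    rw [a, a s, map_mul, e, mul_one]
  choose r r1 r2 using surj hB hz
  rw [csum_trans (H' := w2.D ⊓ (cy (2 ^ K)).ker) inf_le_left
    (le_inf hH.le fun g hg => h g hg) (hH.relIndex_ne le_rfl)
    (fun s _ g _ hg => by simp only [b s g (h g hg)]),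
    csum_congr (f' := fun s => H.relIndex (w2.D ⊓ (cy (2 ^ K)).ker) • Φ (s ζ)) fun s _ => by
      rw [← csum_const (hH.relIndex_ne inf_le_left)]
      exact csum_congr fun t ht => by simp only [b s t ht.2],
    Csum.gen r (fun s _ g _ hg => by simp only [b s g hg.2]) r1 (fun i j e => ?_) fun g hg => ?_,
    finsum_eq_sum_of_fintype, mul_sum]
  · exact sum_congr rfl fun η _ => by rw [a, r2, nsmul_eq_mul]
  · have := MonoidHom.mem_ker.1 e.2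
    rwa [map_mul, map_inv, r2, r2, inv_mul_eq_one] at this
  · refine ⟨cy (2 ^ K) g, w2.D.mul_mem (w2.D.inv_mem (r1 _)) hg, MonoidHom.mem_ker.2 ?_⟩
    rw [map_mul, map_inv, r2, inv_mul_cancel]

theorem units (L : ℕ) (F : ℕ → ℂ_[2]) :
    ∑ η : (ZMod (2 ^ (L + 1)))ˣ, F (η : ZMod (2 ^ (L + 1))).val =
      ∑ b ∈ range (2 ^ L), F (2 * b + 1) := by
  refine sum_bij (fun η _ => (η : ZMod (2 ^ (L + 1))).val / 2) (fun η _ => ?_)
    (fun η _ η' _ e => ?_) (fun b hb => ?_) fun η _ => ?_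
  · have := ZMod.val_lt (η : ZMod (2 ^ (L + 1)))
    rw [mem_range]
    omega
  · have := odd η
    have := odd η'
    exact Units.ext (ZMod.val_injective _ (by omega))
  · rw [mem_range] at hb
    refine ⟨ZMod.unitOfCoprime (2 * b + 1) (Nat.Coprime.pow_right _
      (Nat.coprime_two_right.2 ⟨b, rfl⟩)), mem_univ _, ?_⟩
    rw [ZMod.coe_unitOfCoprime, ZMod.val_natCast, Nat.mod_eq_of_lt (by omega)]
    omega
  · have := odd η
    congr 1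
    omega

theorem two (K y : ℕ) (z : ℂ_[2]) (hK : 1 ≤ K) (hz : IsPrimitiveRoot z (2 ^ K)) :
    ∑ η : (ZMod (2 ^ K))ˣ, (z ^ (η : ZMod (2 ^ K)).val) ^ y =
      algebraMap ℚ_[2] ℂ_[2] (2 ^ K * tq K y) := by
  obtain ⟨L, rfl⟩ := Nat.exists_eq_add_of_le' hK
  have a : z ^ y = 1 ↔ (2 ^ (L + 1) : ℤ) ∣ y := by
    rw [hz.pow_eq_one_iff_dvd]
    exact_mod_cast Iff.rfl
  have b : (z ^ y) ^ 2 = 1 ↔ (2 ^ L : ℤ) ∣ y := by
    rw [← pow_mul, hz.pow_eq_one_iff_dvd, pow_succ, Nat.mul_dvd_mul_iff_right two_pos]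
    exact_mod_cast Iff.rfl
  have c : ((z ^ y) ^ 2) ^ 2 ^ L = 1 := by
    rw [← pow_mul, ← pow_succ', ← pow_mul, mul_comm, pow_mul, hz.pow_eq_one, one_pow]
  rw [units L fun m => (z ^ m) ^ y, sum_congr rfl fun i _ =>
    show (z ^ (2 * i + 1)) ^ y = ((z ^ y) ^ 2) ^ i * z ^ y by ring, ← sum_mul, tq,
    Nat.add_sub_cancel]
  generalize z ^ y = w at a b c ⊢
  have d : algebraMap ℚ_[2] ℂ_[2] 2 = 2 := map_ofNat _ 2
  by_cases h2 : w ^ 2 = 1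
  · rw [if_pos (b.1 h2), h2]
    rcases mul_self_eq_one_iff.1 ((sq w).symm.trans h2) with rfl | rfl
    · rw [if_pos (a.1 rfl), show (2 : ℚ_[2]) ^ (L + 1) * (1 - 2⁻¹) = 2 ^ L by ring, map_pow, d]
      simp
    · rw [if_neg fun e => by have := a.2 e; norm_num at this,
        show (2 : ℚ_[2]) ^ (L + 1) * (0 - 2⁻¹) = -2 ^ L by ring, map_neg, map_pow, d]
      simp
  · rw [if_neg (h2 ∘ b.2), if_neg fun e => h2 (by rw [a.2 e, one_pow]), geom_sum_eq h2, c]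
    simp

end TTEL2

theorem t_TEL2 (hBAS : BAS) : TEL2 := ⟨TTEL2.one hBAS, TTEL2.two⟩

end Pool.Agent.P.MP_9c97e9_nt.KT
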