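import Pool.Agent.P.MP_9c97e9_nt.KT.TBAS
import Pool.Agent.P.MP_9c97e9_nt.KT.TF2X
import Pool.Agent.P.MP_9c97e9_nt.KT.TEV2
import Pool.Agent.P.MP_9c97e9_nt.KT.TGSX
import Pool.Agent.P.MP_9c97e9_nt.KT.TALO
import Pool.Agent.P.MP_9c97e9_nt.KT.TFINV
import Pool.Agent.P.MP_9c97e9_nt.KT.THTB
import Pool.Agent.P.MP_9c97e9_nt.KT.THTL
import Pool.Agent.P.MP_9c97e9_nt.KT.THON
import Pool.Agent.P.MP_9c97e9_nt.KT.TTAIL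
import Pool.Agent.P.MP_9c97e9_nt.KT.TPRMA
import Pool.Agent.P.MP_9c97e9_nt.KT.TPRMB
import Pool.Agent.P.MP_9c97e9_nt.KT.TPRMC
import Pool.Agent.P.MP_9c97e9_nt.KT.TPRM
import Pool.Agent.P.MP_9c97e9_nt.KT.TPTS
import Pool.Agent.P.MP_9c97e9_nt.KT.TTEL1
import Pool.Agent.P.MP_9c97e9_nt.KT.TTEL2
import Pool.Agent.P.MP_9c97e9_nt.KT.TTEL3
import Pool.Agent.P.MP_9c97e9_nt.KT.TTEL4
import Pool.Agent.P.MP_9c97e9_nt.KT.TTEL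

/-! The local points and the trace computation. -/

namespace Pool.Agent.P.MP_9c97e9_nt.KT

theorem a_GSX : GSX := t_GSX t_BAS t_EV2

theorem a_PTS : PTS :=
  t_PTS t_BAS t_F2X a_GSX (t_ALO t_BAS) t_FINV t_HTL (t_HON t_FINV t_HTB) (t_TAIL t_BAS)
    (t_PRM t_EV2 t_PRMA (t_PRMB t_EV2 t_BAS) (t_PRMC t_BAS))

theorem a_TEL : TEL := t_TEL t_BAS (t_TEL1 a_GSX t_EV2) (t_TEL2 t_BAS) (t_TEL4 t_BAS t_TEL3)

end Pool.Agent.P.MP_9c97e9_nt.KT
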