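import Pool.Agent.P.MP_9c97e9_nt.KT.IfEB
import Pool.Agent.P.MP_9c97e9_nt.KT.TBAS

/-! Algebraic approximation of roots. -/

namespace Pool.Agent.P.MP_9c97e9_nt.KT

open scoped NNReal
open MP_8b7eba_nt.R2 Polynomial

namespace TAPX

theorem one (H : Subgroup GQ) (M : ℕ) (T : ℂ_[2]) (η : ℝ) (hM : M ≠ 0) (hT : T ≠ 0) (hη : 0 < η)
    (h : T ^ M ∈ ClF H) : ∃ t : Om, Fix H (t ^ M) ∧ ‖i2 t - T‖ ≤ η * ‖T‖ := by
  have : NeZero M := ⟨hM⟩
  have hc : 0 < η * ‖T‖ := mul_pos hη (norm_pos_iff.2 hT)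
  obtain ⟨_, ⟨q, hq, rfl⟩, hd⟩ := Metric.mem_closure_iff.1 h _ (pow_pos hc M)
  obtain ⟨ζ, hζ⟩ := HasEnoughRootsOfUnity.exists_primitiveRoot Om M
  obtain ⟨α, hα⟩ := IsAlgClosed.exists_pow_nat_eq q (Nat.pos_of_ne_zero hM)
  have e := congrArg (eval₂RingHom i2 T) (X_pow_sub_C_eq_prod hζ (Nat.pos_of_ne_zero hM) hα)
  simp only [map_sub, map_pow, map_prod, coe_eval₂RingHom, eval₂_X, eval₂_C] at e
  by_contra hn
  rw [dist_eq_norm, e, norm_prod] at hd
  refine absurd hd (not_lt.2 (le_trans (by simp) (Finset.prod_le_prod (f := fun _ => η * ‖T‖)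
    (fun _ _ => hc.le) fun i _ => ?_)))
  by_contra h1
  refine hn ⟨ζ ^ i * α, ?_, by rw [norm_sub_rev]; exact (not_le.1 h1).le⟩
  rwa [mul_pow, ← pow_mul, mul_comm i, pow_mul, hζ.pow_eq_one, one_pow, one_mul, hα]

theorem idx (H : Subgroup GQ) (l : ℕ) (hl : 0 < l) (t : Om) (h : Fix H (t ^ l)) :
    (H ⊓ MulAction.stabilizer GQ t).relIndex H ≤ l := by
  classical
  have e : (H ⊓ MulAction.stabilizer GQ t).subgroupOf H = MulAction.stabilizer H t := by
    ext g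
    simp [Subgroup.mem_subgroupOf, Subgroup.smul_def]
  rw [Subgroup.relIndex, e, MulAction.index_stabilizer]
  refine le_trans (Set.ncard_le_ncard (t := (nthRoots l (t ^ l)).toFinset) ?_
    (Finset.finite_toSet _)) ?_
  · rintro _ ⟨g, rfl⟩
    rw [Finset.mem_coe, Multiset.mem_toFinset, mem_nthRoots hl]
    exact (map_pow (g : GQ) t l).symm.trans (h g g.2)
  · rw [Set.ncard_coe_finset]
    exact (Multiset.toFinset_card_le _).trans (card_nthRoots _ _)

end TAPX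

theorem t_APX (hTCX : TCX) : APX := by
  refine ⟨TAPX.one, fun H l y hH hl hy h => ?_, fun q m hm =>
    IsAlgClosed.exists_pow_nat_eq q (Nat.pos_of_ne_zero hm)⟩
  have hv := t_BAS.2.2.1
  have y0 : 0 < ‖y‖ := norm_pos_iff.2 hy
  obtain ⟨t, h1, h2⟩ := TAPX.one H l y 2⁻¹ hl.pos.ne' hy (by norm_num) h
  refine ⟨H ⊓ MulAction.stabilizer GQ t, hH.inf (isOpen_stab t), inf_le_left,
    TAPX.idx H l hl.pos t h1, Metric.mem_closure_iff.2 fun ε hε => ?_⟩
  obtain ⟨s, h3, h4⟩ := TAPX.one H l y (min 2⁻¹ (ε / (2 * ‖y‖))) hl.pos.ne' hy (by positivity) h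
  have h5 : ‖i2 s - y‖ ≤ 2⁻¹ * ‖y‖ := h4.trans (by gcongr; exact min_le_left _ _)
  refine ⟨i2 s, ⟨s, fun σ hσ => ?_, rfl⟩, ?_⟩
  · have hD : σ ∈ w2.D := by
      obtain ⟨U, -, rfl⟩ := hH
      exact hσ.1.1
    have a1 : ‖i2 (s - t)‖ ≤ 2⁻¹ * ‖y‖ := by
      rw [map_sub, ← sub_add_sub_cancel _ y]
      exact (IsUltrametricDist.norm_add_le_max _ _).trans (max_le h5 (by rwa [norm_sub_rev]))
    have a2 : ‖i2 (σ s - s)‖ ≤ 2⁻¹ * ‖y‖ := by
      have : σ s - s = σ (s - t) + -(s - t) := by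
        rw [map_sub, show σ t = t from hσ.2]
        ring
      rw [this, map_add, map_neg]
      refine (IsUltrametricDist.norm_add_le_max _ _).trans (max_le ?_ (by rwa [norm_neg]))
      rwa [← hv, Pl.mem_D.1 hD, hv]
    have a3 : ‖y‖ ≤ ‖i2 s‖ := by
      have := IsUltrametricDist.norm_add_le_max (i2 s) (-(i2 s - y))
      rw [neg_sub, add_sub_cancel, norm_sub_rev] at this
      exact (le_max_iff.1 this).resolve_right (by linarith)
    have s0 : s ≠ 0 := by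
      rintro rfl
      rw [map_zero, norm_zero] at a3
      linarith
    rw [← div_eq_one_iff_eq s0]
    refine Pl.root_eq (w := w2) (n := l) (fun h => Nat.not_even_iff_odd.2 hl (even_iff_two_dvd.2 h))
      (by rw [div_pow, ← map_pow, h3 σ hσ.1, div_self (pow_ne_zero _ s0)]) (one_pow _) ?_
    rw [← NNReal.coe_lt_coe, hv, div_sub_one s0, map_div₀, norm_div, NNReal.coe_one,
      div_lt_one (by linarith)]
    linarith
  · rw [dist_eq_norm, norm_sub_rev]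
    refine (h4.trans (mul_le_mul_of_nonneg_right (min_le_right _ _) y0.le)).trans_lt ?_
    rw [show ε / (2 * ‖y‖) * ‖y‖ = ε / 2 by field_simp]
    linarith

end Pool.Agent.P.MP_9c97e9_nt.KT
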