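import Pool.Agent.P.MP_9c97e9_nt.KT.IfEB
import Pool.Agent.P.MP_9c97e9_nt.KT.TBAS

/-! The symbols of the values of the units. -/

namespace Pool.Agent.P.MP_9c97e9_nt.KT

open scoped NNReal Matrix
open MP_8b7eba_nt.R2
open Finset

namespace TCORA

theorem odd_val {M : ℕ} (h2 : 2 ∣ M) (δ : (ZMod M)ˣ) : Odd (δ : ZMod M).val :=
  Nat.coprime_two_right.1 ((ZMod.val_coe_unit_coprime δ).coprime_dvd_right h2)

end TCORA

open TCORA in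
theorem t_CORA (hLOG0 : LOG0) (hRVX : RVX) (hAH1 : AH1) (hSYF : SYF) (hORBS : ORBS) (hZMX : ZMX)
    (hAPX : APX) (hPRD : PRD) (hPFX : PFX) (hEEX : EEX) (hEQV : EQV) (hSHX : SHX) : CORA := by
  intro H k K n M κ T U hC T0 T1 hT hU X₀ η hη
  have hM : M ≠ 0 := hC.eq ▸ mul_ne_zero (by positivity) hC.odd.pos.ne'
  have hM15 : M.Coprime 15 :=
    hC.eq ▸ Nat.Coprime.mul_left (Nat.Coprime.pow_left _ (by norm_num)) hC.cop
  have hd : 2 ^ k ∣ M := hC.eq ▸ (pow_dvd_pow 2 (by have := hC.le; omega)).mul_right n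
  have h2 : 2 ∣ M := (dvd_pow_self 2 hC.pos.ne').trans hd
  obtain ⟨X₁, hX⟩ := hLOG0.2.2 ‖T‖₊ (K + k) T1
  obtain ⟨s1, s2⟩ := hSHX M hM hM15
  set η₀ : ℝ≥0 := (2 ^ (k + 2))⁻¹ with hη₀
  have e0 : 0 < η₀ := by positivity
  have e4 : (η₀ : ℝ) ≤ 4⁻¹ := by
    rw [hη₀]; push_cast
    exact inv_anti₀ (by norm_num) (by rw [pow_add]; linarith [one_le_pow₀ (n := k) (one_le_two (α := ℝ))])
  have e1 : η₀ < 1 := by
    rw [← NNReal.coe_lt_coe]; exact e4.trans_lt (by norm_num)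
  have key : ∀ b i₁ i₂ : ℤ, ∃ L₀ : ℕ, IsCoprime b 15 → ∀ X, L₀ ≤ X → ∀ t : Om,
      ‖i2 t - T‖ ≤ η₀ * ‖T‖ →
      PF k X (zM M 1) t (U b i₁ i₂) i₂ (15 * i₁) (JJ M b i₁) (EE M b i₁ i₂) := fun b i₁ i₂ => by
    by_cases hb : IsCoprime b 15
    · obtain ⟨e, he, h⟩ := hPRD M b i₁ i₂ hM hM15 hb
      obtain ⟨L₀, h⟩ := h T _ T0 T1 (hU b i₁ i₂ hb) η₀ e0 e1
      exact ⟨L₀, fun _ X hX t ht => hPFX M k X (X + 1) b i₁ i₂ e t _ hM hM15 hb hd he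
        X.lt_succ_self (h _ (by omega) t ht)⟩
    · exact ⟨0, fun h => absurd h hb⟩
  choose L hL using key
  set X := X₀ + X₁ + (Ix M).sup fun i => L i.1 i.2.1.1 i.2.1.2 + L (2 * i.1) i.2.2.1 i.2.2.2 with hXd
  obtain ⟨t, ft, ht⟩ := hAPX.1 H M T (min η₀ η) hM T0 (lt_min e0 hη) hT
  have ht0 : ‖i2 t - T‖ ≤ η₀ * ‖T‖ := ht.trans (by gcongr; exact min_le_left _ _)
  have hn : ‖i2 t‖ = ‖T‖ := by
    have : ‖i2 t - T‖ < ‖T‖ :=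
      ht0.trans_lt (mul_lt_of_lt_one_left (norm_pos_iff.2 T0) (by exact_mod_cast e1))
    rw [← sub_add_cancel (i2 t) T, IsUltrametricDist.norm_add_eq_max_of_norm_ne_norm this.ne,
      max_eq_right this.le]
  have hv : w2.v t = ‖T‖₊ := NNReal.eq (by rw [t_BAS.2.2.1, hn, coe_nnnorm])
  have t0 : t ≠ 0 := fun e => T0 (by rw [← norm_eq_zero, ← hn, e, map_zero, norm_zero])
  obtain ⟨j, a, hA, hj⟩ := s2 H t hC.cy t0 ft
  set S := H ⊓ MulAction.stabilizer GQ t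
  have hS : w2.Loc S := hC.lh.1.inf (isOpen_stab t)
  have hLS : LH S K := (hRVX _ _ hC.lh).2.1 S hS inf_le_left
  have fS : Fix S t := fun g hg => hg.2
  have hMo : Mo S k K X (zM M 1) κ t :=
    ⟨hLS, hC.pos, hC.le, fun g hg => ((hZMX.1 M hM).2.2.2.1 g).1 (hC.cy g hg.1), hC.ok,
      ⟨n, hC.odd, hC.ze⟩, fS, t0, hv.trans_lt T1, fun m hm => hX t hv.le m (by omega)⟩
  have q := fun σ hσ => hEQV H M T U t hC.lh.1.le hM hM15 hC.cy T0 T1 hT hU ft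
    (ht0.trans (by gcongr)) σ hσ (j σ) (hj σ hσ).1
  have q1 : Eqi H a fun i => uX U i := fun σ hσ i => by
    obtain ⟨b1, b2, -, b4, -⟩ := (hj σ hσ).2 i
    simp only [uX, b1, b2]
    exact (q σ hσ _ _ _ _ (s1 _ i.2).1 b4).symm
  have q2 : Eqi H a fun i => vX U i := fun σ hσ i => by
    obtain ⟨b1, -, b3, -, b5, -⟩ := (hj σ hσ).2 i
    simp only [vX, b1, b3]
    exact (q σ hσ _ _ _ _ (s1 _ i.2).2.1 b5).symm
  refine ⟨X, t, S, a, by omega, ft, hn, ht.trans ((mul_le_of_le_one_right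
    (le_min η₀.coe_nonneg hη.le) T1.le).trans (min_le_right _ _)), hS, inf_le_left, hA, q1, q2, fun σ hσ i => ?_,
    fun σ hσ i => ?_, (hAH1 S k K hC.le hLS t fS t0).1, fun i hi => ?_⟩
  · obtain ⟨b1, b2, b3, b4, b5, -⟩ := (hj σ hσ).2 i
    simp only [EPr, b1, b2, b3]
    exact (hEEX M X _ _ _ _ _ _ _ _ _ σ t hM (hC.cy σ hσ) (hj σ hσ).1 b4 b5).symm
  · obtain ⟨b1, b2, b3, -, -, b6⟩ := (hj σ hσ).2 i
    exact ⟨b6, by simp only [JPr, b1, b2, b3]⟩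
  obtain ⟨-, ⟨R, hR⟩, o3⟩ := hORBS H hC.lh.1 _ a _ hA
  have hle : L i.1 i.2.1.1 i.2.1.2 + L (2 * i.1) i.2.2.1 i.2.2.2 ≤ X :=
    (le_sup (f := fun i : IT => L i.1 i.2.1.1 i.2.1.2 + L (2 * i.1) i.2.2.1 i.2.2.2) hi).trans
      (Nat.le_add_left _ _)
  obtain ⟨c1, c2, c3⟩ := s1 i hi
  obtain ⟨y1, y2, -, y4, y5⟩ := hSYF S k K X _ κ t hMo (uX U i) (vX U i) _ _ _ _ _ _
    (-15 * (dI M i : ZMod M).val) _ _ ((o3 R hR _ q1).1 ⟨i, hi⟩) ((o3 R hR _ q2).1 ⟨i, hi⟩)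
    (hL _ _ _ c1 X (by omega) t ht0) (hL _ _ _ c2 X (by omega) t ht0)
    (Odd.mul (by decide) (odd_val h2 _).natCast) (by
      refine (Int.natCast_dvd_natCast.2 hd).trans (c3.trans ⟨-15, ?_⟩)
      ring)
  refine ⟨y1, y2, y4, y5.trans ?_⟩
  congr 1
  simp only [EPr, JPr]
  push_cast
  ring

end Pool.Agent.P.MP_9c97e9_nt.KT
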