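import Pool.Agent.P.MP_9c97e9_nt.KT.IfEB

/-! Cup products of approximate cocycles. -/

namespace Pool.Agent.P.MP_9c97e9_nt.KT

open scoped Matrix
open MP_8b7eba_nt.R2

namespace TCUPB

variable {δ : Om} {H : Subgroup GQ} {k : ℕ} {a b a' b' : GQ → V2}

theorem cq1 (h : LH H k) {g : GQ} (hg : g ∈ H) : ‖cq g - 1‖ ≤ (2 ^ k)⁻¹ := by
  have hE := a_EC.1
  have h1 := h.2 g hg
  rw [hE.gal, show ((cyc g : ℤ_[2]) : ℚ_[2]) * (2 ^ k)⁻¹ = (cq g - 1) / 2 ^ k + (2 ^ k)⁻¹ by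
    rw [cq]; ring, hE.add] at h1
  have h2 : ec (2 ^ k)⁻¹ ≠ 0 := fun e => by
    have := hE.add (2 ^ k)⁻¹ (-(2 ^ k)⁻¹)
    rw [e, zero_mul, add_neg_cancel, (hE.eq_one 0).2 (by simp)] at this
    exact one_ne_zero this
  have h3 := (hE.eq_one _).1 ((mul_eq_right₀ h2).1 h1)
  have h4 : ‖(2 : ℚ_[2])‖ = 2⁻¹ := by simpa using Padic.norm_p (p := 2)
  rwa [norm_div, norm_pow, h4, div_le_one (by positivity), inv_pow] at h3

/-- a combination of three terms -/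
theorem tri (hZ : ZQE) {x y u v w : ℚ_[2]} (hx : ‖x‖ ≤ 1) (hy : ‖y‖ ≤ 1) (hu : ‖u‖ ≤ 1)
    (hv : ‖v‖ ≤ 1) (hw : ‖w‖ ≤ 1) (h : ‖x - y - (u - v + w)‖ ≤ (2 ^ k)⁻¹) :
    zq k x - zq k y = zq k u - zq k v + zq k w := by
  have h1 := (hZ k).1
  rw [← (h1 x y hx hy).2.1, ← (h1 u v hu hv).2.1, ← (h1 _ w (LC.sub hu hv) hw).1]
  exact (h1 _ _ (LC.sub hx hy) (SelA.add (LC.sub hu hv) hw)).2.2.2.2 h

theorem int (ha : T2.Zc δ H k a) (hb : T2.Zc δ H k b) {g h : GQ} (hg : g ∈ H) (hh : h ∈ H) :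
    ‖dt (a g) (T2.rd δ g *ᵥ b h)‖ ≤ 1 := LC.dt_l (ha.int g hg) (LC.rd T2 δ g (hb.int h hh))

theorem co (hZ : ZQE) (hδ : Fix ⊤ (δ ^ 2)) (hH : LH H k) (ha : T2.Zc δ H k a)
    (hb : T2.Zc δ H k b) : Co0 H (cpr δ k a b) := by
  have h1 := (hZ k).1
  refine ⟨?_, fun g hg h hh l hl => ?_⟩
  · obtain ⟨N, hN, e⟩ := ha.sm
    obtain ⟨N', hN', e'⟩ := hb.sm
    obtain ⟨M, hM, e''⟩ := ((hZ k).2.2.2.2 δ hδ).2.2.2
    refine ⟨_, hM.inf (hN.inf hN'), fun g hg h hh n hn m => ⟨?_, ?_⟩⟩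
    · refine (h1 _ _ (int ha hb (H.mul_mem hg hn) hh) (int ha hb hg hh)).2.2.2.2 ?_
      rw [← sub_add_sub_cancel _ (dt (a (g * n)) (T2.rd δ g *ᵥ b h)), ← dt_sub_right,
        ← dt_sub_left, T2.rd_mul hδ, ← Matrix.mulVec_mulVec, ← Matrix.mulVec_sub]
      exact SelA.add (LC.dt_r (ha.int _ (H.mul_mem hg hn)) (LC.rd T2 δ g (e'' n m.1 _ (hb.int h hh))))
        (LC.dt_l (e g hg n hn m.2.1) (LC.rd T2 δ g (hb.int h hh)))
    · refine (h1 _ _ (int ha hb hg (H.mul_mem hh hn)) (int ha hb hg hh)).2.2.2.2 ?_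
      rw [← dt_sub_right, ← Matrix.mulVec_sub]
      exact LC.dt_r (ha.int g hg) (LC.rd T2 δ g (e' h hh n hn m.2.2))
  · simp only [cpr]
    have h2 := int ha hb hh hl
    have h3 := int ha hb hg (H.mul_mem hh hl)
    have h4 := int ha hb (H.mul_mem hg hh) hl
    have h5 := int ha hb hg hh
    rw [← (h1 _ _ h2 h3).1, ← (h1 _ _ h4 h5).1]
    refine (h1 _ _ (SelA.add h2 h3) (SelA.add h4 h5)).2.2.2.2 ?_
    have h6 := LC.sub (LC.sub (LC.dt_r (ha.int g hg) (LC.rd T2 δ g (hb.co h hh l hl)))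
      (LC.dt_l (ha.co g hg h hh) (LC.rd T2 δ g (LC.rd T2 δ h (hb.int l hl)))))
      ((LC.mul (cq1 hH hg) h2).trans_eq (mul_one _))
    rw [Matrix.mulVec_sub, Matrix.mulVec_sub, dt_sub_right, dt_sub_right, dt_sub_left, dt_sub_left,
      T2.dt_rd] at h6
    rw [T2.rd_mul hδ, ← Matrix.mulVec_mulVec]
    refine le_of_eq_of_le (congrArg _ ?_) h6
    ring

theorem zc (hδ : Fix ⊤ (δ ^ 2)) (ha : T2.Zc δ H k a) {m : V2} (hm : ‖m‖ ≤ 1)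
    (e : ∀ g ∈ H, ‖a' g - a g - T2.bd δ m g‖ ≤ (2 ^ k)⁻¹) : T2.Zc δ H k a' :=
  (ha.add (T2.zc_bd hδ (fun g _ => LC.sub (LC.rd T2 δ g hm) hm) k)).congr fun g hg => by
    simpa only [Pi.add_apply, sub_add_eq_sub_sub] using e g hg

theorem left (hR : RVX) (hZ : ZQE) (hδ : Fix ⊤ (δ ^ 2)) (hH : LH H k) (ha : T2.Zc δ H k a)
    (hb : T2.Zc δ H k b) {m : V2} (hm : ‖m‖ ≤ 1)
    (e : ∀ g ∈ H, ‖a' g - a g - T2.bd δ m g‖ ≤ (2 ^ k)⁻¹) :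
    rv H k (cpr δ k a' b) = rv H k (cpr δ k a b) := by
  have i := fun g hg => LC.dt_l hm (hb.int g hg)
  refine (((hR H k hH).2.2.1 _ (co hZ hδ hH ha hb)).2.2.2.2 _ (fun g => zq k (dt m (b g))) ?_
    fun g hg h hh => ?_).2
  · obtain ⟨N, hN, e'⟩ := hb.sm
    refine ⟨N, hN, fun g hg n hn h => ((hZ k).1 _ _ (i _ (H.mul_mem hg hn)) (i g hg)).2.2.2.2 ?_⟩
    rw [← dt_sub_right]
    exact LC.dt_r hm (e' g hg n hn h)
  · refine tri hZ (int (zc hδ ha hm e) hb hg hh) (int ha hb hg hh) (i h hh)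
      (i _ (H.mul_mem hg hh)) (i g hg) ?_
    have h6 := SelA.add (SelA.add (LC.dt_l (e g hg) (LC.rd T2 δ g (hb.int h hh)))
      (LC.dt_r hm (hb.co g hg h hh))) ((LC.mul (cq1 hH hg) (i h hh)).trans_eq (mul_one _))
    rw [Tate.bd, dt_sub_left, dt_sub_left, dt_sub_left, dt_sub_right, dt_sub_right,
      T2.dt_rd] at h6
    refine le_of_eq_of_le (congrArg _ ?_) h6
    ring

theorem right (hR : RVX) (hZ : ZQE) (hδ : Fix ⊤ (δ ^ 2)) (hH : LH H k) (ha : T2.Zc δ H k a)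
    (hb : T2.Zc δ H k b) {m : V2} (hm : ‖m‖ ≤ 1)
    (e : ∀ g ∈ H, ‖b' g - b g - T2.bd δ m g‖ ≤ (2 ^ k)⁻¹) :
    rv H k (cpr δ k a b') = rv H k (cpr δ k a b) := by
  have i : ∀ g ∈ H, ‖-dt (a g) (T2.rd δ g *ᵥ m)‖ ≤ 1 := fun g hg => by
    rw [norm_neg]
    exact LC.dt_l (ha.int g hg) (LC.rd T2 δ g hm)
  refine (((hR H k hH).2.2.1 _ (co hZ hδ hH ha hb)).2.2.2.2 _
    (fun g => zq k (-dt (a g) (T2.rd δ g *ᵥ m))) ?_ fun g hg h hh => ?_).2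
  · obtain ⟨N, hN, e'⟩ := ha.sm
    obtain ⟨M, hM, e''⟩ := ((hZ k).2.2.2.2 δ hδ).2.2.2
    refine ⟨_, hM.inf hN, fun g hg n hn h =>
      ((hZ k).1 _ _ (i _ (H.mul_mem hg hn)) (i g hg)).2.2.2.2 ?_⟩
    rw [neg_sub_neg, norm_sub_rev, ← sub_add_sub_cancel _ (dt (a (g * n)) (T2.rd δ g *ᵥ m)),
      ← dt_sub_right, ← dt_sub_left, T2.rd_mul hδ, ← Matrix.mulVec_mulVec, ← Matrix.mulVec_sub]
    exact SelA.add (LC.dt_r (ha.int _ (H.mul_mem hg hn)) (LC.rd T2 δ g (e'' n h.1 _ hm)))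
      (LC.dt_l (e' g hg n hn h.2) (LC.rd T2 δ g hm))
  · refine tri hZ (int ha (zc hδ hb hm e) hg hh) (int ha hb hg hh) (i h hh)
      (i _ (H.mul_mem hg hh)) (i g hg) ?_
    have h6 := LC.sub (LC.sub (LC.dt_r (ha.int g hg) (LC.rd T2 δ g (e h hh)))
      (LC.dt_l (ha.co g hg h hh) (LC.rd T2 δ g (LC.rd T2 δ h hm))))
      ((LC.mul (cq1 hH hg) (LC.dt_l (ha.int h hh) (LC.rd T2 δ h hm))).trans_eq (mul_one _))
    rw [Tate.bd, Matrix.mulVec_sub, Matrix.mulVec_sub, Matrix.mulVec_sub, dt_sub_right,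
      dt_sub_right, dt_sub_right, dt_sub_left, dt_sub_left, T2.dt_rd] at h6
    rw [T2.rd_mul hδ, ← Matrix.mulVec_mulVec]
    refine le_of_eq_of_le (congrArg _ ?_) h6
    ring

theorem smul (ha : T2.Zc δ H k a) (c : ℤ) : T2.Zc δ H k fun g => (c : ℚ_[2]) • a g :=
  LC.smul ha _ (mul_le_of_le_one_left (by positivity) (Padic.norm_int_le_one c)) fun g hg => by
    rw [norm_smul]
    exact mul_le_one₀ (Padic.norm_int_le_one c) (norm_nonneg _) (ha.int g hg)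

theorem congr (hR : RVX) (hH : LH H k) {φ φ' : GQ → GQ → ZMod (2 ^ k)} (h : Co0 H φ)
    (e : ∀ g ∈ H, ∀ h ∈ H, φ' g h = φ g h) : rv H k φ' = rv H k φ :=
  (((hR H k hH).2.2.1 _ h).2.2.2.2 _ (fun _ => 0) (Sm.const _) fun g hg h hh => by
    simp [e g hg h hh]).2

end TCUPB

open TCUPB in
theorem t_CUPB (hRVX : RVX) (hZQE : ZQE) : CUPB := by
  intro δ H k hδ hH
  refine ⟨fun a b ha hb => ⟨co hZQE hδ hH ha hb, fun a' b' m n hm hn e e' =>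
    ⟨zc hδ ha hm e, zc hδ hb hn e', (left hRVX hZQE hδ hH ha (zc hδ hb hn e') hm e).trans
      (right hRVX hZQE hδ hH ha hb hn e')⟩⟩, fun ι s c a b ha hb => ?_⟩
  classical
  have h1 := (hZQE k).1
  induction s using Finset.induction_on with
  | empty =>
    have h0 := smul hb 0
    simp only [Int.cast_zero, zero_smul] at h0
    have h2 := ((hRVX H k hH).2.2.1 _ (co hZQE hδ hH hb hb)).2.2.2.1 0
    refine ⟨h0, (congr hRVX hH h2.1 fun g _ h _ => ?_).trans (h2.2.trans (zpow_zero _))⟩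
    simpa [cpr, dt] using (hZQE k).2.1 0
  | insert i s hi ih =>
    obtain ⟨h2, h3⟩ := ih fun j hj => ha j (Finset.mem_insert_of_mem hj)
    have h4 := ha i (Finset.mem_insert_self _ _)
    have h5 := ((hRVX H k hH).2.2.1 _ (co hZQE hδ hH h4 hb)).2.2.2.1 (c i)
    have h6 := ((hRVX H k hH).2.2.1 _ h5.1).2.2.1 _ (co hZQE hδ hH h2 hb)
    simp only [Finset.sum_insert hi, Finset.prod_insert hi]
    refine ⟨(smul h4 (c i)).add h2, ?_⟩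
    rw [← h3, ← h5.2, ← h6.2]
    refine congr hRVX hH h6.1 fun g hg h hh => ?_
    have h7 : dt ((c i : ℚ_[2]) • a i g) (T2.rd δ g *ᵥ b h) = c i * dt (a i g) (T2.rd δ g *ᵥ b h) := by
      simp only [dt, Pi.smul_apply, smul_eq_mul]
      ring
    simp only [Pi.add_apply, Pi.smul_apply]
    simp only [cpr, dt_add_left, zsmul_eq_mul]
    rw [(h1 _ _ (int (smul h4 (c i)) hb hg hh) (int h2 hb hg hh)).1, h7,
      (h1 _ _ (Padic.norm_int_le_one _) (int h4 hb hg hh)).2.2.1, (hZQE k).2.1]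

end Pool.Agent.P.MP_9c97e9_nt.KT
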