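import Pool.Agent.P.MP_9c97e9_nt.KT.IfEB

namespace Pool.Agent.P.MP_9c97e9_nt.KT

open MP_8b7eba_nt.R2
open Finset PowerSeries

namespace TEEX

/-- the action on the coefficients followed by a rescaling -/
noncomputable def F (σ : GQ) (z : Om) : Om⟦X⟧ →+* Om⟦X⟧ :=
  (rescale z).comp (PowerSeries.map (σ : Om →+* Om))

theorem coeff_F (σ : GQ) (z : Om) (P : Om⟦X⟧) (m : ℕ) :
    coeff m (F σ z P) = z ^ m * σ (coeff m P) := by
  simp [F, coeff_rescale]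

variable {M : ℕ} {σ : GQ}

theorem term (hM : M ≠ 0) (h1 : IsPrimitiveRoot (zM M 1) M) (h2 : ∀ a : ℤ, zM M a = zM M 1 ^ a)
    (hσ : σ (zM M 1) = zM M 1) {x y j : ℤ} {m : ℕ} (h : (M : ℤ) ∣ j * m + x - y) :
    zM M j ^ m * σ (zM M x) = zM M y := by
  have h0 := h1.ne_zero hM
  rw [h2 j, h2 x, h2 y, map_zpow₀, hσ, ← zpow_natCast, ← zpow_mul, ← zpow_add₀ h0,
    ← sub_add_cancel (j * m + x) y, zpow_add₀ h0, (h1.zpow_eq_one_iff_dvd _).2 h, one_mul]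

theorem F_eis (hM : M ≠ 0) (h1 : IsPrimitiveRoot (zM M 1) M) (h2 : ∀ a : ℤ, zM M a = zM M 1 ^ a)
    (hσ : σ (zM M 1) = zM M 1) {a a' i j : ℤ} (ha : (M : ℤ) ∣ a' - (a + 15 * i * j)) {B : ℤ}
    (hB : (M : ℤ) ∣ B - 15 * i) : F σ (zM M j) (eis M a B) = eis M a' B := by
  obtain ⟨k, hk⟩ := ha
  obtain ⟨l, hl⟩ := hB
  ext m
  simp only [coeff_F, eis, coeff_mk, map_sum, mul_sum]
  refine sum_congr rfl fun c hc => ?_
  have e : (m : ℤ) = c * (m / c : ℕ) := by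
    exact_mod_cast (Nat.mul_div_cancel' (Nat.dvd_of_mem_divisors hc)).symm
  generalize ((m / c : ℕ) : ℤ) = d at e ⊢
  rw [map_sub, mul_sub]
  congr 1 <;> split_ifs with h
  · obtain ⟨n, hn⟩ := h
    exact term hM h1 h2 hσ ⟨d * (k + j * (15 * n - l)), by
      linear_combination j * e + d * hk + d * j * hn - d * j * hl⟩
  · simp
  · obtain ⟨n, hn⟩ := h
    exact term hM h1 h2 hσ ⟨d * (j * (15 * n + l) - k), by
      linear_combination j * e - d * hk + d * j * hn + d * j * hl⟩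
  · simp

theorem F_EE (hM : M ≠ 0) (h1 : IsPrimitiveRoot (zM M 1) M) (h2 : ∀ a : ℤ, zM M a = zM M 1 ^ a)
    (hσ : σ (zM M 1) = zM M 1) {a a' i j : ℤ} (ha : (M : ℤ) ∣ a' - (a + 15 * i * j)) (b : ℤ) :
    F σ (zM M j) (EE M b i a) = EE M b i a' := by
  have e : F σ (zM M j) (C (JJ M b i : Om)) = C (JJ M b i : Om) := by
    rw [map_intCast (C (R := Om)), map_intCast]
  simp only [EE, map_add, map_sub, e]
  rw [F_eis hM h1 h2 hσ ha ⟨b, by ring⟩, F_eis hM h1 h2 hσ ha ⟨-b, by ring⟩,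
    F_eis hM h1 h2 hσ ha ⟨4 * b, by ring⟩, F_eis hM h1 h2 hσ ha ⟨-(4 * b), by ring⟩]

end TEEX

open TEEX in
theorem t_EEX (hZMX : ZMX) : EEX := by
  intro M X b i₁ i₂ i₂' b' j₁ j₂ j₂' j σ t hM hσ ht hi hj
  obtain ⟨h1, h2, -, h3, -⟩ := hZMX.1 M hM
  have h4 := (h3 σ).1 hσ
  rw [← F_EE hM h1 (fun a => (h2 a).1) h4 hi, ← F_EE hM h1 (fun a => (h2 a).1) h4 hj, ← map_mul]
  simp only [Iv, map_sum, coeff_F, map_div₀, map_natCast]
  refine sum_congr rfl fun m _ => ?_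
  rw [map_mul σ, map_pow, ht]
  ring

end Pool.Agent.P.MP_9c97e9_nt.KT
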