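import Pool.Agent.P.MP_9c97e9_nt.KT.TRVH
import Pool.Agent.P.MP_9c97e9_nt.KT.TGEN
import Pool.Agent.P.MP_9c97e9_nt.KT.TBAS

/-! The invariant of the cuspidal symbols. -/

namespace Pool.Agent.P.MP_9c97e9_nt.KT

open scoped NNReal Matrix
open MP_8b7eba_nt.R2
open MP_8b7eba_nt.R1 (IntR IntM Int_mem)
open MP_8b7eba_nt.Mod (xx yy an)
open Finset

namespace TEPV

/-- the cocycle as an additive function of the formal sum -/
noncomputable def Phi (H : Subgroup GQ) (k M : ℕ) (δ : (ZMod M)ˣ) :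
    Sy Om M →+ GQ → GQ → ZMod (2 ^ k) :=
  AddMonoidHom.mk' (fun E g h => ((CO H k M).can E).f g h δ) fun E E' => by
    funext g h
    refine Finsupp.sum_add_index' (fun i => ?_) fun i a b => ?_
    · simp
    · simp only [Cx.can, Fam.kc]
      split_ifs <;> simp [add_mul]

theorem sum_IntR {X : Type} [AddCommMonoid X] {p : ℕ} (hp : p.Prime) (f : ℕ × ℕ × ℕ → X) :
    ∑ s ∈ IntR p, f s = f (p, 0, 1) + ∑ j ∈ range p, f (1, j, p) := by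
  have e : IntR p = insert (p, 0, 1) ((range p).image fun j => (1, j, p)) := by
    ext ⟨a, b, d⟩
    rw [Int_mem hp.pos]
    simp only [mem_insert, mem_image, mem_range, Prod.mk.injEq]
    constructor
    · rintro ⟨h1, h2⟩
      rcases (Nat.dvd_prime hp).1 ⟨d, h1.symm⟩ with rfl | rfl
      · exact .inr ⟨b, by omega, rfl, rfl, by omega⟩
      · have : d = 1 := Nat.eq_of_mul_eq_mul_left hp.pos (by omega)
        exact .inl ⟨rfl, by omega, this⟩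
    · rintro (⟨rfl, rfl, rfl⟩ | ⟨j, hj, rfl, rfl, rfl⟩) <;> omega
  rw [e, sum_insert, sum_image fun a _ b _ h => by simpa using h]
  simp only [mem_image, Prod.mk.injEq, not_exists]
  exact fun j h => hp.one_lt.ne h.2.1

theorem evE_Ep (τ : ℂ) (l M : ℕ) : evE τ (Ep l M) =
    ∑ s ∈ IntR l, EU M (fun b i₁ i₂ => ev τ (pb (IntM s) (lf (uf b (i₁ / M) (i₂ / M))))) +
      (-(l + 1) : ℤ) • EU M fun b i₁ i₂ => ev τ (lf (uf b (i₁ / M) (i₂ / M))) := by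
  have h : ∀ E : Sy LL M, evE τ E = Finsupp.mapDomain.addMonoidHom
      (fun i : LL × LL × (ZMod M)ˣ => (ev τ i.1, ev τ i.2.1, i.2.2)) E := fun _ => rfl
  rw [h, Ep, map_sub, map_nsmul, Cor, map_sum, neg_smul, ← sub_eq_add_neg]
  congr 1
  · refine sum_congr rfl fun s _ => ?_
    rw [E0, Finsupp.mapDomain_finsetSum, map_sum]
    refine sum_congr rfl fun i _ => ?_
    simp [uX, vX, uI, vI]
  · rw [← natCast_zsmul, E0, map_sum]
    congr 1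
    refine sum_congr rfl fun i _ => ?_
    simp [uX, vX, uI, vI]

end TEPV

open TEPV TRVH in
theorem t_EPV (hRVX : RVX) (hTCX : TCX) (hZMX : ZMX) (hLAMF : LAMF) (hCORE : CORE) (hVALX : VALX) :
    EPV := by
  intro H k K n M κ l t x y hC hl h15 hcl t0 t1 hcl' hx hy
  have hM : M ≠ 0 := hC.eq ▸ mul_ne_zero (by positivity) hC.odd.pos.ne'
  have hM15 : M.Coprime 15 := hC.eq ▸ Nat.Coprime.mul_left (Nat.Coprime.pow_left _ (by norm_num)) hC.cop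
  have hd : 2 ^ k ∣ M := hC.eq ▸ (pow_dvd_pow 2 (by have := hC.le; omega)).mul_right n
  have hL : LH H k := (hRVX _ _ hC.lh).1 k (by have := hC.le; omega)
  obtain ⟨-, -, r3, r4, r5⟩ := hRVX H k hL
  obtain ⟨c0, c1, c2, c3, c4⟩ := hTCX H hL.1
  obtain ⟨τ, hτ, hV⟩ := hVALX M l t x y hM hM15 hl h15 t0 t1 hx hy
  refine ⟨τ, hτ, fun δ => ?_⟩
  have hz : ∀ N : ℕ, N ≠ 0 → ∀ a, ‖i2 (zM N a)‖ = 1 := fun N h a => by
    rw [← t_BAS.2.2.1, ((hZMX.1 N h).2.1 a).2, NNReal.coe_one]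
  have hS : i2 (SSd M δ) ∈ ClF H :=
    (c1 _ fun g hg => ((hZMX.1 M hM).2.2.2.2.2.1 δ).2 g (hC.cy g hg)).1
  have key : ∀ T U, T ≠ 0 → ‖T‖ < 1 → T ^ M ∈ ClF H → UV M T U → Co0 H (Phi H k M δ (EU M U)) ∧
      rv H k (Phi H k M δ (EU M U)) =
        ec (240 * κ * trc H (i2 (SSd M δ) * lamf (T ^ M)) / 2 ^ (K + k)) ∧
      i2 (SSd M δ) * lamf (T ^ M) ∈ ClF H := fun T U h0 h1 h2 h3 => by
    obtain ⟨a1, a2⟩ := hCORE H k K n M κ T U hC h0 h1 h2 h3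
    have ok := (r5 M hM hd).1
    exact ⟨((r5 M hM hd).2 hC.cy _ (TGEN.co ok (TGEN.can_ok ok _ a1).1)).1 δ, a2 δ,
      ((c3 _ hS).2.2.1 _ (hLAMF.1 H hL.1 _ h2
        (by rw [norm_pow]; exact pow_lt_one₀ (norm_nonneg _) h1 hM))).2.2.1⟩
  have hp : ∀ m : ℕ, m ≠ 0 → ‖t ^ m‖ < 1 := fun m h => by
    rw [norm_pow]; exact pow_lt_one₀ (norm_nonneg _) t1 h
  have hMl := mul_ne_zero hM hl.ne_zero
  have e0 : (t ^ l) ^ M = t ^ (M * l) := by rw [← pow_mul, mul_comm]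
  have e1 : ∀ s : ℕ × ℕ × ℕ, (i2 (zM (M * l) s.2.1) * t ^ s.1 ^ 2) ^ M =
      i2 (zM l s.2.1) * (t ^ M) ^ s.1 ^ 2 := fun s => by
    rw [mul_pow, ← map_pow, (hZMX.1 M hM).2.2.1 l hl.ne_zero, ← pow_mul, ← pow_mul, mul_comm M]
  obtain ⟨k1, k2, k3⟩ := key (t ^ l) _ (pow_ne_zero _ t0) (hp l hl.ne_zero)
    (by rw [e0, pow_mul]; exact (c3 _ hcl').2.2.2.2.1 l) fun b i₁ i₂ hb => (hV b i₁ i₂ hb).1
  have k4 := fun s (hs : s ∈ IntR l) => key (i2 (zM (M * l) s.2.1) * t ^ s.1 ^ 2) _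
    (mul_ne_zero (norm_ne_zero_iff.1 (by rw [hz _ hMl]; exact one_ne_zero)) (pow_ne_zero _ t0))
    (by
      rw [norm_mul, hz _ hMl, one_mul]
      exact hp _ (pow_ne_zero _ (left_ne_zero_of_mul (((Int_mem hl.pos).1 hs).1 ▸ hl.ne_zero))))
    (by
      rw [e1]
      refine ((c3 _ (c1 _ fun g hg => ?_).1).2.2.1 _ ((c3 _ hcl').2.2.2.2.1 _)).2.2.1
      rw [((hZMX.1 l hl.ne_zero).2.1 _).1, map_zpow₀, ((hZMX.1 l hl.ne_zero).2.2.2.1 g).1 (hcl g hg)])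
    fun b i₁ i₂ hb => (hV b i₁ i₂ hb).2 s hs
  have e2 : fv τ H k l M δ = Phi H k M δ (evE τ (Ep l M)) := rfl
  obtain ⟨s1, s2⟩ := r4 _ (IntR l) _ fun s hs => (k4 s hs).1
  obtain ⟨s3, s4⟩ := (r3 _ k1).2.2.2.1 (-(l + 1))
  rw [e2, evE_Ep, map_add, map_sum, map_zsmul]
  refine ⟨((r3 _ s1).2.2.1 _ s3).1, ?_⟩
  rw [((r3 _ s1).2.2.1 _ s3).2, s2, s4, k2, prod_congr rfl fun s hs => (k4 s hs).2.1, ← ec_sum,
    ← ec_int, ← a_EC.1.add, ← sum_div, ← mul_sum, ← (c4 _ _ _ fun s hs => (k4 s hs).2.2).2,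
    ← mul_sum, sum_congr rfl fun s _ => congrArg lamf (e1 s), sum_IntR hl, e0]
  have e3 := hLAMF.2.2 l (t ^ M) hl h15 (hp M hM)
  have e4 : zM l 0 = 1 := by rw [((hZMX.1 l hl.ne_zero).2.1 _).1, zpow_zero]
  simp only [Nat.cast_zero, e4, map_one, one_mul, one_pow, pow_one, sq l, pow_mul]
  rw [e3, mul_left_comm, ← map_intCast (algebraMap ℚ_[2] ℂ_[2]),
    (c3 _ (by rw [← pow_mul, ← e0]; exact k3)).2.2.2.1]
  congr 1
  push_cast
  ring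

end Pool.Agent.P.MP_9c97e9_nt.KT
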