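import Pool.Agent.P.MP_9c97e9_nt.KT.IfE

/-! The series of the logarithm. -/

namespace Pool.Agent.P.MP_9c97e9_nt.KT

open scoped NNReal
open MP_8b7eba_nt.R2
open Filter Topology

namespace TLOG0

lemma nrm (x : Om) : ‖i2 x‖ = w2.v x := PadicComplex.norm_extends 2 _

lemma v_inv (m : ℕ) : (w2.v m)⁻¹ ≤ m := by
  rcases eq_or_ne m 0 with rfl | hm
  · simp
  obtain ⟨a, b, hb, rfl⟩ := Nat.exists_eq_two_pow_mul_odd hm
  have h1 : w2.v (b : ℤ) = 1 := Pl.v_int_eq_one.2 fun h =>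
    (Nat.not_even_iff_odd.2 hb) (even_iff_two_dvd.2 (Int.natCast_dvd_natCast.1 h))
  rw [Int.cast_natCast] at h1
  have h2 : (1 : ℝ≥0) ≤ b := by exact_mod_cast hb.pos
  push_cast
  rw [map_mul, map_pow, h1, Pl.v_two' rfl, mul_one, inv_pow, inv_inv]
  exact le_mul_of_one_le_right zero_le h2

lemma n_inv (m : ℕ) : ‖(m : ℂ_[2])‖⁻¹ ≤ m := by
  rw [← map_natCast i2, nrm]
  exact_mod_cast v_inv m

lemma two : Tendsto (fun n : ℕ => (2 : ℂ_[2]) ^ n) atTop (𝓝 0) := by
  refine tendsto_pow_atTop_nhds_zero_of_norm_lt_one ?_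
  rw [← map_ofNat i2, nrm, Pl.v_two' rfl]
  norm_num

/-- signed binomial coefficients -/
noncomputable def cf (N j : ℕ) : ℂ_[2] := (-1) ^ j * N.choose j

lemma cf_succ (N j : ℕ) : cf N (j + 1) = cf N j * ((j + 1 - (N + 1 : ℕ)) / (j + 1)) := by
  have h0 : (j + 1 : ℂ_[2]) ≠ 0 := Nat.cast_add_one_ne_zero j
  have h1 : (N.choose (j + 1) * (j + 1) : ℂ_[2]) = N.choose j * (N - j) := by
    rcases le_or_gt j N with h | h
    · exact_mod_cast congrArg (Nat.cast : ℕ → ℂ_[2]) (Nat.choose_succ_right_eq N j)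
    · rw [Nat.choose_eq_zero_of_lt h, Nat.choose_eq_zero_of_lt (by omega)]
      simp
  rw [cf, cf, ← mul_div_assoc, eq_div_iff h0]
  push_cast
  linear_combination (-1) ^ (j + 1) * h1

lemma cf_lim (j : ℕ) : Tendsto (fun n : ℕ => cf (2 ^ n - 1) j) atTop (𝓝 1) := by
  induction j with
  | zero => simp [cf]
  | succ j ih =>
    have h0 : (j + 1 : ℂ_[2]) ≠ 0 := Nat.cast_add_one_ne_zero j
    have := ih.mul ((two.const_sub (j + 1 : ℂ_[2])).div_const (j + 1))
    rw [sub_zero, div_self h0, mul_one] at this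
    refine this.congr fun n => ?_
    rw [cf_succ, Nat.sub_add_cancel Nat.one_le_two_pow]
    push_cast
    rfl

lemma expand (y : ℂ_[2]) (N : ℕ) : ((1 - y) ^ (N + 1) - 1) / (N + 1 : ℕ) =
    -∑' j, cf N j * (y ^ (j + 1) / (j + 1 : ℕ)) := by
  rw [tsum_eq_sum (s := Finset.range (N + 1)) fun j hj => by
    rw [cf, Nat.choose_eq_zero_of_lt (by simpa using hj)]
    simp]
  rw [← neg_add_eq_sub, ← neg_add_eq_sub, add_pow, Finset.sum_range_succ', ← Finset.sum_neg_distrib]
  simp only [pow_zero, one_pow, mul_one, Nat.choose_zero_right, Nat.cast_one]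
  rw [neg_add_cancel_comm_assoc, Finset.sum_div]
  refine Finset.sum_congr rfl fun j _ => ?_
  have h0 : ((j + 1 : ℕ) : ℂ_[2]) ≠ 0 := Nat.cast_ne_zero.2 j.succ_ne_zero
  have h1 : ((N + 1 : ℕ) : ℂ_[2]) ≠ 0 := Nat.cast_ne_zero.2 N.succ_ne_zero
  have h2 := congrArg (Nat.cast : ℕ → ℂ_[2]) (Nat.add_one_mul_choose_eq N j)
  rw [Nat.cast_mul, Nat.cast_mul] at h2
  rw [cf, neg_pow y, ← mul_div_assoc, ← neg_div, div_eq_div_iff h1 h0]
  linear_combination (-1) ^ j * y ^ (j + 1) * h2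

lemma icc (f : ℕ → ℂ_[2]) (X : ℕ) :
    ∑ m ∈ Finset.Icc 1 X, f m = ∑ j ∈ Finset.range X, f (j + 1) := by
  induction X with
  | zero => simp
  | succ X ih => rw [Finset.sum_Icc_succ_top (by omega), Finset.sum_range_succ, ih]

end TLOG0

open TLOG0

theorem t_LOG0 : LOG0 := by
  refine ⟨fun y hy => ?_, fun ι s a L h => ?_, fun ρ j hρ => ?_⟩
  · have h1 : Summable fun j : ℕ => ((j + 1 : ℕ) : ℝ) * ‖y‖ ^ (j + 1) :=
      (summable_nat_add_iff (f := fun j : ℕ => (j : ℝ) * ‖y‖ ^ j) 1).2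
        (hasSum_coe_mul_geometric_of_norm_lt_one (by simpa using hy)).summable
    have h2 : ∀ j : ℕ, ‖y ^ (j + 1) / (j + 1 : ℕ)‖ ≤ ((j + 1 : ℕ) : ℝ) * ‖y‖ ^ (j + 1) := fun j => by
      rw [norm_div, norm_pow, div_eq_inv_mul]
      exact mul_le_mul_of_nonneg_right (n_inv _) (by positivity)
    refine ⟨∑' j : ℕ, y ^ (j + 1) / (j + 1 : ℕ), ?_, ?_⟩
    · simp only [icc]
      exact (Summable.of_norm_bounded h1 h2).hasSum.tendsto_sum_nat
    · have := (tendsto_tsum_of_dominated_convergence (𝓕 := atTop)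
        (f := fun n j : ℕ => cf (2 ^ n - 1) j * (y ^ (j + 1) / (j + 1 : ℕ)))
        (g := fun j : ℕ => y ^ (j + 1) / (j + 1 : ℕ)) h1
        (fun j => by simpa using (cf_lim j).mul_const (y ^ (j + 1) / (j + 1 : ℕ)))
        (Eventually.of_forall fun n j => by
          refine le_trans ?_ (h2 j)
          rw [norm_mul]
          refine mul_le_of_le_one_left (norm_nonneg _) ?_
          rw [cf, norm_mul, norm_pow, norm_neg, norm_one, one_pow, one_mul]
          exact IsUltrametricDist.norm_natCast_le_one _ _)).neg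
      refine Tendsto.congr (fun n => ?_) this
      rw [← expand, Nat.sub_add_cancel Nat.one_le_two_pow, Nat.cast_pow, Nat.cast_ofNat]
  · classical
    induction s using Finset.induction_on with
    | empty => simp
    | insert i s hi ih =>
      have h1 := h i (Finset.mem_insert_self _ _)
      have h2 := ih fun k hk => h k (Finset.mem_insert_of_mem hk)
      have := (h1.add h2).add (two.mul (h1.mul h2))
      rw [zero_mul, add_zero] at this
      rw [Finset.sum_insert hi, Finset.prod_insert hi]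
      refine this.congr fun n => ?_
      have h0 : (2 : ℂ_[2]) ^ n ≠ 0 := pow_ne_zero _ two_ne_zero
      rw [mul_pow]
      field_simp
      ring
  · have h1 := (tendsto_self_mul_const_pow_of_lt_one ρ.2 hρ).eventually_le_const
      (show (0 : ℝ) < (2 ^ j)⁻¹ by positivity)
    obtain ⟨X, hX⟩ := eventually_atTop.1 h1
    refine ⟨2 * X, fun t ht m hm => ?_⟩
    have h2 : (m : ℝ≥0) * ρ ^ m ≤ (2 ^ j)⁻¹ := by exact_mod_cast hX m (by omega)
    rw [map_div₀, map_pow, div_eq_inv_mul]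
    exact (mul_le_mul' (v_inv m) (pow_le_pow_left' ht m)).trans h2

end Pool.Agent.P.MP_9c97e9_nt.KT
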