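import Pool.Agent.P.MP_9c97e9_nt.KT.IfEB
import Pool.Agent.P.MP_9c97e9_nt.KT.TLOG0

/-! The formal logarithm. -/

namespace Pool.Agent.P.MP_9c97e9_nt.KT

open MP_8b7eba_nt MP_8b7eba_nt.R2
open MP_8b7eba_nt.Mod (an)
open Finset Filter Topology

namespace TLAMF

theorem cle (m : ℕ) : ‖(an m : ℂ_[2]) / m‖ ≤ m := by
  rw [norm_div, div_eq_mul_inv]
  exact (mul_le_of_le_one_left (by positivity) (IsUltrametricDist.norm_intCast_le_one _ _)).trans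
    (TLOG0.n_inv m)

theorem tle (m : ℕ) {q : ℂ_[2]} {ρ : ℝ} (h : ‖q‖ ≤ ρ) : ‖(an m : ℂ_[2]) / m * q ^ m‖ ≤ m * ρ ^ m := by
  rw [norm_mul, norm_pow]
  have := cle m
  gcongr

theorem hs {q : ℂ_[2]} (h : ‖q‖ < 1) : HasSum (fun m : ℕ => (an m : ℂ_[2]) / m * q ^ m) (lamf q) := by
  refine (Summable.of_norm_bounded (g := fun m : ℕ => (m : ℝ) * ‖q‖ ^ m) ?_
    fun m => tle m le_rfl).hasSum
  simpa using summable_pow_mul_geometric_of_norm_lt_one 1 (r := ‖q‖) (by simpa using h)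

theorem addle {v v' : ℂ_[2]} {r : ℝ} (h : ‖v‖ ≤ r) (h' : ‖v'‖ ≤ r) : ‖v + v'‖ ≤ r :=
  (IsUltrametricDist.norm_add_le_max v v').trans (max_le h h')

theorem suble {v v' : ℂ_[2]} {r : ℝ} (h : ‖v‖ ≤ r) (h' : ‖v'‖ ≤ r) : ‖v - v'‖ ≤ r := by
  rw [sub_eq_add_neg]
  exact addle h (by rwa [norm_neg])

theorem pw {x q : ℂ_[2]} (hx : ‖x‖ ≤ 1) (hq : ‖q‖ ≤ 1) (m : ℕ) : ‖x ^ m - q ^ m‖ ≤ ‖x - q‖ := by
  induction m with
  | zero => simp
  | succ m ih =>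
    rw [show x ^ (m + 1) - q ^ (m + 1) = x * (x ^ m - q ^ m) + q ^ m * (x - q) by ring]
    refine addle ?_ ?_ <;> rw [norm_mul]
    · exact (mul_le_of_le_one_left (norm_nonneg _) hx).trans ih
    · exact mul_le_of_le_one_left (norm_nonneg _)
        (by rw [norm_pow]; exact pow_le_one₀ (norm_nonneg _) hq)

theorem appr {ρ ε : ℝ} (hρ : ρ < 1) (hε : 0 < ε) : ∃ (Y₀ : ℕ) (η : ℝ), 0 < η ∧ ∀ Y, Y₀ ≤ Y →
    ∀ q x : ℂ_[2], ‖q‖ ≤ ρ → ‖x‖ ≤ ρ → ‖x - q‖ ≤ η →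
      ‖∑ m ∈ range (Y + 1), (an m : ℂ_[2]) / m * x ^ m - lamf q‖ ≤ ε := by
  rcases lt_or_ge ρ 0 with h0 | h0
  · exact ⟨0, 1, one_pos, fun Y _ q x hq => absurd ((norm_nonneg _).trans hq) h0.not_ge⟩
  obtain ⟨Y₀, hY⟩ := eventually_atTop.1
    ((tendsto_self_mul_const_pow_of_lt_one h0 hρ).eventually_le_const hε)
  refine ⟨Y₀, ε / (Y₀ + 1), by positivity, fun Y h q x hq hx hd => ?_⟩
  rw [← (hs (hq.trans_lt hρ)).tsum_eq, ← (hs (hq.trans_lt hρ)).summable.sum_add_tsum_nat_add (Y + 1),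
    ← sub_sub, ← sum_sub_distrib]
  refine suble (IsUltrametricDist.norm_sum_le_of_forall_le_of_nonneg hε.le fun m _ => ?_)
    (IsUltrametricDist.norm_tsum_le_of_forall_le fun m => (tle _ hq).trans (hY _ (by omega)))
  rcases le_total Y₀ m with hm | hm
  · exact suble ((tle _ hx).trans (hY _ hm)) ((tle _ hq).trans (hY _ hm))
  · have h1 := (pw (hx.trans hρ.le) (hq.trans hρ.le) m).trans hd
    have h2 : ‖(an m : ℂ_[2]) / m‖ ≤ Y₀ + 1 := (cle m).trans (by exact_mod_cast by omega)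
    rw [← mul_sub, norm_mul, ← mul_div_cancel₀ ε (b := (Y₀ + 1 : ℝ)) (by positivity)]
    gcongr

theorem geo {l : ℕ} {ζ : ℂ_[2]} (hl : l.Prime) (h : IsPrimitiveRoot ζ l) {m : ℕ} (hm : ¬ l ∣ m) :
    ∑ s ∈ range l, (ζ ^ s) ^ m = 0 := by
  simpa only [← pow_mul, mul_comm] using (h.pow_of_coprime m
    ((hl.coprime_iff_not_dvd).2 hm).symm).geom_sum_eq_zero hl.one_lt

theorem hecke {l : ℕ} {ζ Q : ℂ_[2]} (hl : l.Prime) (h15 : ¬ l ∣ 15) (h : IsPrimitiveRoot ζ l)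
    (hQ : ‖Q‖ < 1) :
    lamf ((Q ^ l) ^ l) + ∑ s ∈ range l, lamf (ζ ^ s * Q) = an l * lamf (Q ^ l) := by
  have l0 : (l : ℂ_[2]) ≠ 0 := Nat.cast_ne_zero.2 hl.ne_zero
  have pl : ∀ {x : ℂ_[2]}, ‖x‖ < 1 → ‖x ^ l‖ < 1 := fun hx => by
    rw [norm_pow]
    exact pow_lt_one₀ (norm_nonneg _) hx hl.ne_zero
  have inj : Function.Injective fun m : ℕ => l * m := mul_right_injective₀ hl.ne_zero
  have rg : ∀ m, m ∉ Set.range (fun m : ℕ => l * m) → ¬ l ∣ m := fun m hm ⟨c, e⟩ => hm ⟨c, e.symm⟩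
  have hA : HasSum (fun n : ℕ => (if l ∣ n then (l : ℂ_[2]) * an (n / l) else 0) / n * (Q ^ l) ^ n)
      (lamf ((Q ^ l) ^ l)) := by
    refine (inj.hasSum_iff fun m hm => by simp [rg m hm]).1 ((hs (pl (pl hQ))).congr_fun fun m => ?_)
    simp only [Function.comp_apply, dvd_mul_right, if_true, Nat.mul_div_cancel_left _ hl.pos,
      Nat.cast_mul, mul_div_mul_left _ _ l0, pow_mul]
  have n1 : ‖ζ‖ = 1 := (pow_eq_one_iff_of_nonneg (norm_nonneg _) hl.ne_zero).1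
    (by rw [← norm_pow, h.pow_eq_one, norm_one])
  have hB := hasSum_sum (s := range l) fun s _ => hs (q := ζ ^ s * Q) (by
    rwa [norm_mul, norm_pow, n1, one_pow, one_mul])
  have hB' := (inj.hasSum_iff fun m hm => by
    simp only [mul_pow, ← mul_sum, ← sum_mul, geo hl h (rg m hm), zero_mul, mul_zero]).2 hB
  refine (hA.add hB').unique (((hs (pl hQ)).mul_left (an l : ℂ_[2])).congr_fun fun n => ?_)
  have e := congrArg (Int.cast : ℤ → ℂ_[2]) (Mod.hecke hl n)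
  have e1 : ∀ s, (ζ ^ s) ^ (l * n) = 1 := fun s => by
    rw [← pow_mul, mul_comm s, mul_assoc, pow_mul, h.pow_eq_one, one_pow]
  simp only [h15, not_false_eq_true, true_and] at e
  push_cast at e
  simp only [Function.comp_apply, mul_pow, e1, one_mul, sum_const, card_range, nsmul_eq_mul,
    Nat.cast_mul, pow_mul Q]
  rw [← mul_assoc, ← mul_assoc, ← mul_div_assoc, ← mul_div_assoc, mul_div_mul_left _ _ l0, ← e]
  ring

end TLAMF

open TLAMF in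
theorem t_LAMF (hTCX : TCX) (hZMX : ZMX) : LAMF := by
  refine ⟨fun H hH q hq h => ?_, fun ρ ε hρ hε => ?_, fun l Q hl h15 hQ => ?_⟩
  · obtain ⟨h1, -, h2, h3, h4⟩ := hTCX H hH
    refine h1.mem_of_tendsto (hs h).tendsto_sum_nat (.of_forall fun n => (h4 _ _ _ fun m _ => ?_).1)
    simpa using ((h3 _ (h2 ((an m : ℚ_[2]) / m))).2.2.1 _ ((h3 q hq).2.2.2.2.1 m)).2.2.1
  · obtain ⟨Y₀, η, h0, h⟩ := appr hρ hε
    refine ⟨Y₀, η, h0, fun Y hY q x hq hx hd => ?_⟩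
    convert h Y hY q _ hq hx hd using 3
    rw [map_sum, TLOG0.icc, sum_range_succ']
    simp [div_mul_eq_mul_div]
  · obtain ⟨h1, h2, -⟩ := hZMX.1 l hl.ne_zero
    rw [← hecke hl h15 (h1.map_of_injective i2.injective) hQ]
    congr 1
    exact sum_congr rfl fun s _ => by rw [(h2 s).1, zpow_natCast, map_pow]

end Pool.Agent.P.MP_9c97e9_nt.KT
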