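import Pool.Agent.P.MP_9c97e9_nt.KT.IfEB
import Pool.Agent.P.MP_9c97e9_nt.KT.TBAS

/-! The trace on the closure of the fixed field. -/

namespace Pool.Agent.P.MP_9c97e9_nt.KT

open MP_8b7eba_nt.R2
open Filter Topology

namespace TTCX

variable {H : Subgroup GQ}

theorem seq {y : ℂ_[2]} (h : y ∈ ClF H) :
    ∃ x : ℕ → Om, (∀ n, Fix H (x n)) ∧ Tendsto (fun n => i2 (x n)) atTop (𝓝 y) := by
  obtain ⟨u, hu, ht⟩ := mem_closure_iff_seq_limit.1 h
  choose x hx e using hu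
  exact ⟨x, hx, by simpa only [e] using ht⟩

theorem mem {y : ℂ_[2]} {x : ℕ → Om} (hx : ∀ n, Fix H (x n))
    (ht : Tendsto (fun n => i2 (x n)) atTop (𝓝 y)) : y ∈ ClF H :=
  mem_closure_of_tendsto ht (Eventually.of_forall fun n => ⟨x n, hx n, rfl⟩)

theorem lip (hT : TQX) (hH : w2.Loc H) {x x' : Om} (hx : Fix H x) (hx' : Fix H x') :
    ‖trq H x - trq H x'‖ ≤ ‖i2 x - i2 x'‖ := by
  rw [← (((hT.2.2.2.2 H hH).2 x hx).2.2.1 x' hx').2, ← map_sub, ← t_BAS.2.2.1]
  exact ((hT.2.2.2.2 H hH).2 _ (hx.sub hx')).1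

theorem spec (hT : TQX) (hH : w2.Loc H) {y : ℂ_[2]} (h : y ∈ ClF H) :
    ∀ x, Fix H x → ‖trq H x - trc H y‖ ≤ ‖i2 x - y‖ := by
  refine Classical.epsilon_spec (p := fun s => ∀ x, Fix H x → ‖trq H x - s‖ ≤ ‖i2 x - y‖) ?_
  obtain ⟨x, hx, ht⟩ := seq h
  have hc : CauchySeq fun n => trq H (x n) := by
    have := Metric.cauchySeq_iff.1 ht.cauchySeq
    refine Metric.cauchySeq_iff.2 fun ε hε => (this ε hε).imp fun N hN m hm n hn => ?_
    have h1 := hN m hm n hn
    rw [dist_eq_norm] at h1 ⊢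
    exact (lip hT hH (hx m) (hx n)).trans_lt h1
  obtain ⟨s, hs⟩ := cauchySeq_tendsto_of_complete hc
  exact ⟨s, fun z hz => le_of_tendsto_of_tendsto' (tendsto_const_nhds.sub hs).norm
    (tendsto_const_nhds.sub ht).norm fun n => lip hT hH hz (hx n)⟩

theorem lim (hT : TQX) (hH : w2.Loc H) {y : ℂ_[2]} {x : ℕ → Om} (hx : ∀ n, Fix H (x n))
    (ht : Tendsto (fun n => i2 (x n)) atTop (𝓝 y)) :
    Tendsto (fun n => trq H (x n)) atTop (𝓝 (trc H y)) := by
  rw [tendsto_iff_norm_sub_tendsto_zero] at ht ⊢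
  exact squeeze_zero (fun _ => norm_nonneg _)
    (fun n => spec hT hH (mem hx (tendsto_iff_norm_sub_tendsto_zero.2 ht)) _ (hx n)) ht

theorem rat (c : ℚ_[2]) : ∃ r : ℕ → ℚ, Tendsto (fun n => (r n : ℚ_[2])) atTop (𝓝 c) ∧
    Tendsto (fun n => i2 (r n)) atTop (𝓝 (algebraMap ℚ_[2] ℂ_[2] c)) := by
  obtain ⟨u, hu, ht⟩ := mem_closure_iff_seq_limit.1 (Padic.denseRange_ratCast 2 c)
  choose r e using hu
  have h : Tendsto (fun n => (r n : ℚ_[2])) atTop (𝓝 c) := by simpa only [e] using ht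
  refine ⟨r, h, ?_⟩
  have := ((continuous_algebraMap ℚ_[2] ℂ_[2]).tendsto c).comp h
  simpa only [Function.comp_def, map_ratCast] using this

theorem base (hT : TQX) (hH : w2.Loc H) {x : Om} (hx : Fix H x) :
    i2 x ∈ ClF H ∧ trc H (i2 x) = trq H x :=
  ⟨subset_closure ⟨x, hx, rfl⟩, tendsto_nhds_unique
    (lim hT hH (x := fun _ => x) (fun _ => hx) tendsto_const_nhds) tendsto_const_nhds⟩

theorem ops (hT : TQX) (hH : w2.Loc H) {y y' : ℂ_[2]} (h : y ∈ ClF H) (h' : y' ∈ ClF H) :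
    y + y' ∈ ClF H ∧ y - y' ∈ ClF H ∧ y * y' ∈ ClF H ∧
      trc H (y + y') = trc H y + trc H y' ∧ trc H (y - y') = trc H y - trc H y' := by
  obtain ⟨x, hx, ht⟩ := seq h
  obtain ⟨x', hx', ht'⟩ := seq h'
  have a1 : Tendsto (fun n => i2 (x n + x' n)) atTop (𝓝 (y + y')) := by
    simpa only [map_add] using ht.add ht'
  have a2 : Tendsto (fun n => i2 (x n - x' n)) atTop (𝓝 (y - y')) := by
    simpa only [map_sub] using ht.sub ht'
  have a3 : Tendsto (fun n => i2 (x n * x' n)) atTop (𝓝 (y * y')) := by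
    simpa only [map_mul] using ht.mul ht'
  have e := fun n => ((hT.2.2.2.2 H hH).2 _ (hx n)).2.2.1 _ (hx' n)
  refine ⟨mem (fun n => (hx n).add (hx' n)) a1, mem (fun n => (hx n).sub (hx' n)) a2,
    mem (fun n => (hx n).mul (hx' n)) a3,
    tendsto_nhds_unique (lim hT hH (fun n => (hx n).add (hx' n)) a1) ?_,
    tendsto_nhds_unique (lim hT hH (fun n => (hx n).sub (hx' n)) a2) ?_⟩
  · simpa only [fun n => (e n).1] using (lim hT hH hx ht).add (lim hT hH hx' ht')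
  · simpa only [fun n => (e n).2] using (lim hT hH hx ht).sub (lim hT hH hx' ht')

end TTCX

open TTCX in
theorem t_TCX (hTQX : TQX) : TCX := by
  intro H hH
  have h0 : (0 : ℂ_[2]) ∈ ClF H ∧ trc H 0 = 0 := by
    have := base hTQX hH fix_zero
    rwa [map_zero, (hTQX.2.2.2.2 H hH).1] at this
  refine ⟨isClosed_closure, fun x hx => base hTQX hH hx, fun c => ?_, fun y hy => ⟨spec hTQX hH hy,
    ?_, fun y' hy' => ops hTQX hH hy hy', fun c => ?_, fun m => ?_, fun H' h => ?_⟩,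
    fun ι s f hf => ?_⟩
  · obtain ⟨r, -, hr⟩ := rat c
    exact mem (fun n => fix_rat (r n)) hr
  · have := spec hTQX hH hy 0 fix_zero
    rwa [map_zero, (hTQX.2.2.2.2 H hH).1, zero_sub, zero_sub, norm_neg, norm_neg] at this
  · obtain ⟨r, hr, hr'⟩ := rat c
    obtain ⟨x, hx, ht⟩ := seq hy
    have a : Tendsto (fun n => i2 (r n * x n)) atTop (𝓝 (algebraMap ℚ_[2] ℂ_[2] c * y)) := by
      simpa only [map_mul] using hr'.mul ht
    refine tendsto_nhds_unique (lim hTQX hH (fun n => (fix_rat _).mul (hx n)) a) ?_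
    simpa only [fun n => ((hTQX.2.2.2.2 H hH).2 _ (hx n)).2.2.2.2.1 (r n)] using
      hr.mul (lim hTQX hH hx ht)
  · induction m with
    | zero => simpa using (base hTQX hH fix_one).1
    | succ m ih => exact pow_succ y m ▸ (ops hTQX hH ih hy).2.2.1
  · exact closure_mono (Set.image_mono fun x hx => Fix.mono hx h) hy
  · classical
    induction s using Finset.induction_on with
    | empty => simpa using h0
    | insert i s hi ih =>
      have h1 := ih fun j hj => hf j (Finset.mem_insert_of_mem hj)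
      have h2 := ops hTQX hH (hf i (Finset.mem_insert_self i s)) h1.1
      rw [Finset.sum_insert hi, Finset.sum_insert hi, ← h1.2]
      exact ⟨h2.1, h2.2.2.2.1⟩

end Pool.Agent.P.MP_9c97e9_nt.KT
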