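import Pool.Agent.P.MP_9c97e9_nt.KT.IfEB

/-! Translation of the parameter. -/

namespace Pool.Agent.P.MP_9c97e9_nt.KT

open MP_8b7eba_nt.R2
open MP_8b7eba_nt.R1 (Zb QE ze coe_ze ze_mul_neg)
open MP_8b7eba_nt.Mod (qq qq_add)
open PowerSeries

namespace TTRL

theorem qe {M N : ℕ} {A : Zb⟦X⟧} {G : ℂ → ℂ} (j : ℤ) (h : QE M N A G) :
    QE M N (C (ze M j ^ N) * rescale (ze M (-j)) A) fun z => G (z - j) := by
  intro z hz
  have h1 := (h (z - j) (by simpa using hz)).mul_left ((ze M j : ℂ) ^ N)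
  have e1 : qq ((z - j) / M) = ze M (-j) * qq (z / M) := by
    rw [coe_ze, ← qq_add]
    congr 1
    push_cast
    ring
  have e2 : (ze M j : ℂ) * ze M (-j) = 1 := congrArg Subtype.val (ze_mul_neg M j)
  rw [e1, mul_left_comm, ← mul_pow, ← mul_assoc, e2, one_mul] at h1
  refine h1.congr_fun fun n => ?_
  rw [coeff_C_mul, coeff_rescale, MulMemClass.coe_mul, MulMemClass.coe_mul,
    SubmonoidClass.coe_pow, SubmonoidClass.coe_pow, mul_pow]
  ring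

end TTRL

theorem t_TRL (hUQ : UQ) (hEV2 : EV2) (hZMX : ZMX) : TRL := by
  intro M b i₁ i₂ i₂' j T v hM h15 hb hT ⟨m, hm⟩ ⟨N, A, h1, h2⟩
  have k1 : ∀ (j : ℤ) z, uf b (i₁ / M) (i₂ / M) z =
      uf b (i₁ / M) ((i₂ + 15 * i₁ * j : ℤ) / M) (z - j) := fun j z => by
    have k : ∀ j : ℤ, uf b (i₁ / M) ((i₂ + 15 * i₁ * (j + 1) : ℤ) / M) (z - (j + 1 : ℤ)) =
        uf b (i₁ / M) ((i₂ + 15 * i₁ * j : ℤ) / M) (z - j) := fun j => by
      rw [mul_add, mul_one, ← add_assoc, ← (hUQ M b i₁ _ hM h15 hb).1]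
      congr 1
      push_cast
      ring
    induction j using Int.induction_on with
    | zero => simp
    | succ i ih => rw [k, ih]
    | pred i ih => rw [← k, sub_add_cancel, ih]
  rw [sub_eq_iff_eq_add'.1 hm, (hUQ M b i₁ _ hM h15 hb).2.1] at h1
  obtain ⟨⟨f, hf⟩, h3⟩ := hEV2
  have k2 : ‖i2 (zM M j) * T‖ < 1 := by
    rw [norm_mul]
    exact mul_lt_one_of_nonneg_of_lt_one_right (hf _).2.2 (norm_nonneg _) hT
  obtain ⟨⟨φ, h4⟩, -, h5, h6⟩ := h3 _ k2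
  refine ⟨N, _, (TTRL.qe j h1).congr fun z _ => k1 j z, ?_⟩
  rw [← h4, map_mul, h4, h4, h5, (h6 A).2.2.2.2.1, zM, ← mul_assoc, ← map_mul, ← (hf _).1,
    ← (hf _).1, ← (hf _).1, ← map_mul, mul_comm (ze M (-j)), ze_mul_neg, map_one, map_one, one_mul,
    ← h2, map_pow, map_pow]
  ring

end Pool.Agent.P.MP_9c97e9_nt.KT
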