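import Pool.Agent.P.MP_9c97e9_nt.KT.IfEB
import Pool.Agent.P.MP_9c97e9_nt.KT.TCYB

/-! Roots of unity and the cyclotomic character. -/

namespace Pool.Agent.P.MP_9c97e9_nt.KT

open scoped NNReal
open MP_8b7eba_nt.R2
open MP_8b7eba_nt.Mod (qq qq_nat_mul)

namespace TZMX

lemma ec_nat (n : ℕ) (x : ℚ_[2]) : ec (n * x) = ec x ^ n := by
  induction n with
  | zero => simpa using (a_EC.1.eq_one 0).2 (by simp)
  | succ n ih => rw [Nat.cast_succ, add_mul, one_mul, a_EC.1.add, ih, pow_succ]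

lemma ec_int (m : ℤ) : ec m = 1 := (a_EC.1.eq_one _).2 (Padic.norm_int_le_one m)

lemma prim (k : ℕ) : IsPrimitiveRoot (ec (2 ^ k)⁻¹) (2 ^ k) := by
  refine ⟨?_, fun l hl => ?_⟩
  · rw [← ec_nat, a_EC.1.eq_one]
    push_cast
    rw [mul_inv_cancel₀ (pow_ne_zero _ two_ne_zero), norm_one]
  · rw [← ec_nat, a_EC.1.eq_one, ← div_eq_mul_inv, norm_div,
      div_le_one (norm_pos_iff.2 (pow_ne_zero _ two_ne_zero))] at hl
    have h1 : ‖((l : ℤ) : ℚ_[2])‖ ≤ (2 : ℕ) ^ (-k : ℤ) := by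
      rw [← Padic.norm_p_pow]
      exact_mod_cast hl
    exact_mod_cast (Padic.norm_int_le_pow_iff_dvd _ _).1 h1

variable {M : ℕ} {g : GQ} {z : Om}

lemma fix (h : M ≠ 0) (e : cy M g = 1) (hz : z ^ M = 1) : g z = z := by
  rw [t_BAS.2.1 M h g z hz, e, Units.val_one, ZMod.val_one_eq_one_mod, ← pow_eq_pow_mod _ hz,
    pow_one]

lemma cy_iff (h : M ≠ 0) (hz : IsPrimitiveRoot z M) : cy M g = 1 ↔ g z = z :=
  ⟨fun e => fix h e hz.pow_eq_one, fun e =>
    Units.ext (by simpa using TCYB.cy_eq h hz (g := g) (m := 1) (by simpa using e))⟩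

lemma cop {N : ℕ} (h : M ≠ 0) (hN : N ≠ 0) (hc : M.Coprime N) (e : cy M g = 1) (e' : cy N g = 1) :
    cy (M * N) g = 1 := by
  obtain ⟨z, hz⟩ := TCYB.prim (mul_ne_zero h hN)
  have h1 := fix h e (z := z ^ N) (by rw [← pow_mul, mul_comm, hz.pow_eq_one])
  have h2 := fix hN e' (z := z ^ M) (by rw [← pow_mul, hz.pow_eq_one])
  obtain ⟨a, b, hab⟩ := Nat.isCoprime_iff_coprime.2 hc
  have h3 : z = (z ^ M) ^ a * (z ^ N) ^ b := by
    rw [← zpow_natCast, ← zpow_natCast, ← zpow_mul, ← zpow_mul,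
      ← zpow_add₀ (hz.ne_zero (mul_ne_zero h hN)), mul_comm _ a, mul_comm _ b, hab, zpow_one]
  rw [cy_iff (mul_ne_zero h hN) hz, h3, map_mul, map_zpow₀, map_zpow₀, h1, h2]

lemma eq_one (h : M ≠ 0) (hz : z ^ M = 1) (hv : w2.v (z - 1) < 2⁻¹) : z = 1 := by
  by_contra h1
  have hf : IsOfFinOrder z := isOfFinOrder_iff_pow_eq_one.2 ⟨M, Nat.pos_of_ne_zero h, hz⟩
  obtain ⟨p, hp, d, hd⟩ := Nat.exists_prime_and_dvd (orderOf_eq_one_iff.not.2 h1)
  have h0 := hf.orderOf_pos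
  have hd0 : 0 < d := Nat.pos_of_ne_zero (by rintro rfl; omega)
  have h2 : (z ^ d) ^ p = 1 := by rw [← pow_mul, mul_comm, ← hd, pow_orderOf_eq_one]
  have h3 : z ^ d ≠ 1 := pow_ne_one_of_lt_orderOf hd0.ne' (by nlinarith [hp.two_le])
  have h4 : w2.v (z ^ d - 1) < 2⁻¹ := by
    have := Pl.v_pow_sub (w := w2) (Pl.v_root h hz).le (y := 1) (by simp) d
    rw [one_pow] at this
    exact this.trans_lt hv
  rcases eq_or_ne p 2 with rfl | h5
  · rw [(sq_eq_one_iff.1 h2).resolve_left h3, show (-1 - 1 : Om) = -2 by norm_num,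
      Valuation.map_neg, Pl.v_two' rfl] at h4
    exact h4.false
  · refine h3 (Pl.root_eq (w := w2) (n := p) (fun e => h5 ?_) h2 (one_pow _)
      (h4.trans (by norm_num)))
    exact ((Nat.prime_dvd_prime_iff_eq Nat.prime_two hp).1 e).symm

lemma kap {K n : ℕ} (hK : 0 < K) (hn : Odd n) (hz : IsPrimitiveRoot z (2 ^ K)) :
    ∃ κ : ℤ, Odd κ ∧ z = ec (κ / 2 ^ K) ^ n := by
  obtain ⟨m, rfl⟩ := a_EC.1.surj K z hz.pow_eq_one
  obtain ⟨K, rfl⟩ := Nat.exists_eq_add_one.2 hK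
  obtain ⟨a, b, hab⟩ := Nat.isCoprime_iff_coprime.2 (hn.coprime_two_right.pow_right (K + 1))
  have h2 : (2 : ℚ_[2]) ^ K ≠ 0 := pow_ne_zero _ two_ne_zero
  refine ⟨a * m, Odd.mul ?_ ?_, ?_⟩
  · rw [← Int.not_even_iff_odd]
    rintro ⟨c, rfl⟩
    push_cast at hab
    have : (1 : ℤ) = 2 * (c * n + b * 2 ^ K) := by rw [← hab]; ring
    omega
  · rw [← Int.not_even_iff_odd]
    rintro ⟨c, rfl⟩
    refine hz.pow_ne_one_of_pos_of_lt (l := 2 ^ K) (by positivity)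
      (Nat.pow_lt_pow_right one_lt_two (by omega)) ?_
    rw [← ec_nat, ← ec_int c]
    congr 1
    push_cast
    field_simp
    ring
  · rw [← ec_nat, ← mul_one (ec (n * _)), ← ec_int (b * m), ← a_EC.1.add]
    congr 1
    have := congrArg (Int.cast (R := ℚ_[2])) hab
    push_cast at this ⊢
    field_simp
    linear_combination (-m) * this

end TZMX

open TZMX in
theorem t_ZMX (hEV2 : EV2) : ZMX := by
  obtain ⟨⟨f, hf⟩, -⟩ := hEV2
  have e : ∀ M a, io (zM M a) = qq (a / M) := fun M a => (hf _).2.1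
  have pr : ∀ M, M ≠ 0 → IsPrimitiveRoot (zM M 1) M := fun M h => by
    refine IsPrimitiveRoot.of_map_of_injective ?_ io.injective
    rw [e, qq, Int.cast_one, mul_one_div]
    exact Complex.isPrimitiveRoot_exp M h
  have zp : ∀ M (a : ℤ), zM M a = zM M 1 ^ a := fun M a => io.injective (by
    rw [map_zpow₀, e, e, qq, qq, ← Complex.exp_int_mul]
    congr 1
    push_cast
    ring)
  have one : ∀ M, M ≠ 0 → ∀ a, zM M a ^ M = 1 := fun M h a => by
    rw [zp, ← zpow_natCast, ← zpow_mul, mul_comm, zpow_mul, zpow_natCast, (pr M h).pow_eq_one,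
      one_zpow]
  refine ⟨fun M h => ⟨pr M h, fun a => ⟨zp M a, Pl.v_root h (one M h a)⟩,
    fun l hl a => io.injective ?_, fun g => cy_iff h (pr M h), fun N g hN => ⟨fun e => ?_,
      cop h hN⟩, fun δ => ⟨?_, fun g hg => ?_⟩, fun z => eq_one h⟩,
    fun K n hK hn => kap hK hn ?_, fun K => ⟨prim K, fun g => cy_iff (by positivity) (prim K)⟩,
    fun k => ⟨⟨w2.loc_inf (TCYB.on (by positivity)).2, fun g hg =>
      (cy_iff (by positivity) (prim _)).1 hg.2⟩, fun η => ?_⟩⟩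
  · have : (M : ℂ) ≠ 0 := by exact_mod_cast h
    rw [map_pow, e, e, ← qq_nat_mul]
    congr 1
    push_cast
    field_simp
  · rw [← TCYB.comp h (Nat.dvd_mul_right M N) (mul_ne_zero h hN),
      ← TCYB.comp hN (Nat.dvd_mul_left N M) (mul_ne_zero h hN), e, map_one, map_one]
    exact ⟨rfl, rfl⟩
  · refine w2.v.map_sum_le fun ν _ => ?_
    rw [map_mul, Pl.v_root h (one M h _), one_mul]
    exact w2.v_int_le _
  · rw [SSd, map_sum]
    exact Finset.sum_congr rfl fun ν _ => by rw [map_mul, fix h hg (one M h _), map_intCast]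
  · have h0 := hn.pos
    exact (pr _ (by positivity)).pow (by positivity) (mul_comm _ _)
  · obtain ⟨g, hg, e⟩ := a_EC2 w2 rfl (un (((η : ZMod (2 ^ (k + 2))).val : ℕ) : ℤ_[2]))
    refine ⟨g, hg.1, Units.ext ?_⟩
    rw [TCYB.cy_eq (by positivity) (prim _) (a_EC.2.2.1 g _ (η : ZMod (2 ^ (k + 2))).val _
      (prim _).pow_eq_one (by rw [e, TANA.un_val (TCYB.odd η), sub_self]; exact dvd_zero _)),
      ZMod.natCast_zmod_val]

end Pool.Agent.P.MP_9c97e9_nt.KT
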