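import Pool.Agent.P.MP_9c97e9_nt.KT.IfEB

/-! Reduction of 2-adic integers and the twisted representation. -/

namespace Pool.Agent.P.MP_9c97e9_nt.KT

open scoped Matrix
open MP_8b7eba_nt.R2

namespace TZQE

variable {k : ℕ}

theorem zq_coe (x : ℤ_[2]) : zq k x = PadicInt.toZModPow k x := dif_pos x.2

theorem ring {x y : ℚ_[2]} (hx : ‖x‖ ≤ 1) (hy : ‖y‖ ≤ 1) : zq k (x + y) = zq k x + zq k y ∧
    zq k (x - y) = zq k x - zq k y ∧ zq k (x * y) = zq k x * zq k y ∧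
    (zq k x = zq k y ↔ ‖x - y‖ ≤ (2 ^ k)⁻¹) := by
  obtain ⟨x, rfl⟩ : ∃ a : ℤ_[2], a = x := ⟨⟨x, hx⟩, rfl⟩
  obtain ⟨y, rfl⟩ : ∃ a : ℤ_[2], a = y := ⟨⟨y, hy⟩, rfl⟩
  refine ⟨?_, ?_, ?_, ?_⟩
  · rw [← PadicInt.coe_add, zq_coe, zq_coe, zq_coe, map_add]
  · rw [← PadicInt.coe_sub, zq_coe, zq_coe, zq_coe, map_sub]
  · rw [← PadicInt.coe_mul, zq_coe, zq_coe, zq_coe, map_mul]
  · rw [zq_coe, zq_coe, ← sub_eq_zero, ← map_sub, ← RingHom.mem_ker, PadicInt.ker_toZModPow,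
      ← PadicInt.norm_le_pow_iff_mem_span_pow, ← PadicInt.coe_sub,
      PadicInt.padic_norm_e_of_padicInt, zpow_neg, zpow_natCast, Nat.cast_ofNat]

theorem zq_int (n : ℤ) : zq k n = n := by
  rw [← PadicInt.coe_intCast, zq_coe, map_intCast]

theorem ecq {x : ℚ_[2]} (hx : ‖x‖ ≤ 1) : ec (x / 2 ^ k) = ec ((zq k x).val / 2 ^ k) := by
  have h1 : zq k ((zq k x).val : ℚ_[2]) = zq k x := by
    simpa using zq_int (k := k) ((zq k x).val : ℕ)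
  have h2 : ‖((zq k x).val : ℚ_[2])‖ ≤ 1 := by
    simpa using Padic.norm_int_le_one (p := 2) ((zq k x).val : ℕ)
  have h3 := (ring hx h2).2.2.2.1 h1.symm
  have h4 : ‖(x - (zq k x).val) / 2 ^ k‖ ≤ 1 := by
    rw [norm_div, norm_pow, SelA.two, inv_pow, div_le_one (by positivity)]
    exact h3
  rw [← one_mul (ec (_ / 2 ^ k)), ← one_mul (ec ((_ : ℕ) / 2 ^ k)), one_mul,
    ← (a_EC.1.eq_one _).2 h4, ← a_EC.1.add, sub_div, sub_add_cancel]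

end TZQE

open TZQE in
theorem t_ZQE : ZQE := by
  refine fun k => ⟨fun x y => TZQE.ring, zq_int, fun x => ecq, dt_norm, fun δ hδ =>
    ⟨fun g v => (T2.rd_norm δ g v).1, T2.rd_mul hδ, T2.dt_rd δ, ?_⟩⟩
  obtain ⟨N, hN, e⟩ := T2.sm (2 ^ k)⁻¹ (by positivity)
  obtain ⟨N', hN', e'⟩ := exists_ON_fix {δ}
  refine ⟨_, hN.inf hN', fun n hn v hv => ?_⟩
  rw [SelA.rd_fix T2 (e' δ (by simp) n hn.2)]
  have := LC.mv_le (e n hn.1) v
  rw [Matrix.sub_mulVec, Matrix.one_mulVec] at this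
  exact this.trans (mul_le_of_le_one_right (by positivity) hv)

end Pool.Agent.P.MP_9c97e9_nt.KT
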