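import Pool.Agent.P.MP_9c97e9_nt.KT.AllEA
import Pool.Agent.P.MP_9c97e9_nt.KT.AllP
import Pool.Agent.P.MP_9c97e9_nt.KT.AllC
import Pool.Agent.P.MP_9c97e9_nt.KT.TTCX
import Pool.Agent.P.MP_9c97e9_nt.KT.TZMX
import Pool.Agent.P.MP_9c97e9_nt.KT.TLAMF
import Pool.Agent.P.MP_9c97e9_nt.KT.TAPX
import Pool.Agent.P.MP_9c97e9_nt.KT.TPRD
import Pool.Agent.P.MP_9c97e9_nt.KT.TTRL
import Pool.Agent.P.MP_9c97e9_nt.KT.TPFX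
import Pool.Agent.P.MP_9c97e9_nt.KT.TEEX
import Pool.Agent.P.MP_9c97e9_nt.KT.TEQV
import Pool.Agent.P.MP_9c97e9_nt.KT.TSHX
import Pool.Agent.P.MP_9c97e9_nt.KT.TCORA
import Pool.Agent.P.MP_9c97e9_nt.KT.TCORE
import Pool.Agent.P.MP_9c97e9_nt.KT.TEPV
import Pool.Agent.P.MP_9c97e9_nt.KT.TZQE
import Pool.Agent.P.MP_9c97e9_nt.KT.TCUPB
import Pool.Agent.P.MP_9c97e9_nt.KT.TTWE
import Pool.Agent.P.MP_9c97e9_nt.KT.TWCP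
import Pool.Agent.P.MP_9c97e9_nt.KT.TZTW
import Pool.Agent.P.MP_9c97e9_nt.KT.TPNA
import Pool.Agent.P.MP_9c97e9_nt.KT.TPNB
import Pool.Agent.P.MP_9c97e9_nt.KT.TFINX
import Pool.Agent.P.MP_9c97e9_nt.KT.TRVH
import Pool.Agent.P.MP_9c97e9_nt.KT.TERX

/-! The explicit reciprocity law, from the statements on the function field and on the units. -/

namespace Pool.Agent.P.MP_9c97e9_nt.KT

theorem a_TCX : TCX :=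
  t_TCX a_TQX

theorem a_ZMX : ZMX :=
  t_ZMX a_EV2

theorem a_LAMF : LAMF :=
  t_LAMF a_TCX a_ZMX

theorem a_APX : APX :=
  t_APX a_TCX

theorem a_PRD (hUQ : UQ) : PRD :=
  t_PRD hUQ a_EV2 a_ZMX

theorem a_TRL (hUQ : UQ) : TRL :=
  t_TRL hUQ a_EV2 a_ZMX

theorem a_PFX : PFX :=
  t_PFX a_ZMX

theorem a_EEX : EEX :=
  t_EEX a_ZMX

theorem a_EQV (hUQ : UQ) : EQV :=
  t_EQV a_ZMX a_APX (a_PRD hUQ) (a_TRL hUQ)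

theorem a_SHX : SHX :=
  t_SHX a_ZMX

theorem a_CORA (hUQ : UQ) : CORA :=
  t_CORA a_LOG0 a_RVX a_AH1 a_SYF a_ORBS a_ZMX a_APX (a_PRD hUQ) a_PFX a_EEX (a_EQV hUQ) a_SHX

theorem a_CORE (hUQ : UQ) : CORE :=
  t_CORE a_TQX a_ORBS a_FAMT a_AH1 a_TCX a_ZMX a_LAMF (a_CORA hUQ) a_CX

theorem a_EPV (hUQ : UQ) (hVALX : VALX) : EPV :=
  t_EPV a_RVX a_TCX a_ZMX a_LAMF (a_CORE hUQ) hVALX

theorem a_ZQE : ZQE :=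
  t_ZQE

theorem a_CUPB : CUPB :=
  t_CUPB a_RVX a_ZQE

theorem a_TWE : TWE :=
  t_TWE a_ZQE a_GSX

theorem a_WCP : WCP :=
  t_WCP a_CORP a_RVX a_ZMX a_ZQE

theorem a_ZTW : ZTW :=
  t_ZTW a_RVX a_ZQE

theorem a_PNA : PNA :=
  t_PNA a_ZMX a_TCX a_APX a_EV2 a_PTS a_GSX

theorem a_PNB (hPRX : PRX) : PNB :=
  t_PNB hPRX a_YEX

theorem a_FINX : FINX :=
  t_FINX a_TQX a_TCX a_ZMX

theorem a_RVH : RVH :=
  t_RVH a_RESX a_RVX a_ZMX a_CUPB a_TWE a_WCP a_ZTW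

theorem a_ERX (hUQ : UQ) (hVALX : VALX) (hSECX : SECX) (hPRX : PRX) : ERX :=
  t_ERX a_RVX a_ZMX a_TCX a_LAMF (a_EPV hUQ hVALX) a_PNA (a_PNB hPRX) a_FINX a_RVH hSECX a_TEL

end Pool.Agent.P.MP_9c97e9_nt.KT
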