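import Pool.Agent.P.MP_9c97e9_nt.KT.IfE

/-! The first formula of Artin and Hasse. -/

namespace Pool.Agent.P.MP_9c97e9_nt.KT

open scoped NNReal
open MP_8b7eba_nt.R2

namespace TAH1

theorem ec_ne (x : ℚ_[2]) : ec x ≠ 0 := fun h => by
  have := a_EC.1.add x (-x)
  rw [add_neg_cancel, h, zero_mul, (a_EC.1.eq_one 0).2 (by simp)] at this
  exact one_ne_zero this

theorem ec_sub (x y : ℚ_[2]) : ec (x - y) = ec x / ec y := by
  rw [eq_div_iff (ec_ne y), ← a_EC.1.add, sub_add_cancel]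

theorem ec_eq {x y : ℚ_[2]} : ec x = ec y ↔ ‖x - y‖ ≤ 1 := by
  rw [← a_EC.1.eq_one, ec_sub, div_eq_one_iff_eq (ec_ne y)]

theorem ec_nat (n : ℕ) (x : ℚ_[2]) : ec (n * x) = ec x ^ n := by
  induction n with
  | zero => simpa using (a_EC.1.eq_one 0).2 (by simp)
  | succ n ih => rw [Nat.cast_succ, add_mul, one_mul, a_EC.1.add, ih, pow_succ]

theorem norm_two : ‖(2 : ℚ_[2])‖ = 2⁻¹ := by simpa using Padic.norm_p (p := 2)

theorem dvd_iff (z : ℤ_[2]) (n : ℕ) : 2 ^ n ∣ z ↔ ‖(z : ℚ_[2]) / 2 ^ n‖ ≤ 1 := by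
  have h := PadicInt.norm_le_pow_iff_mem_span_pow z n
  rw [Ideal.mem_span_singleton] at h
  rw [norm_div, norm_pow, norm_two, div_le_one (by positivity), inv_pow]
  simpa [zpow_neg] using h.symm

theorem mod_iff (k : ℕ) (x y : ℤ_[2]) :
    PadicInt.toZModPow k x = PadicInt.toZModPow k y ↔ 2 ^ k ∣ x - y := by
  rw [← sub_eq_zero, ← map_sub, ← RingHom.mem_ker, PadicInt.ker_toZModPow,
    Ideal.mem_span_singleton]
  rfl

theorem mod_val (k : ℕ) (a : ZMod (2 ^ k)) : PadicInt.toZModPow k (a.val : ℤ_[2]) = a := by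
  rw [map_natCast, ZMod.natCast_zmod_val]

theorem ec_inj {k : ℕ} {a : ZMod (2 ^ k)} {z : ℤ_[2]}
    (h : ec ((a.val : ℚ_[2]) / 2 ^ k) = ec ((z : ℚ_[2]) / 2 ^ k)) :
    a = PadicInt.toZModPow k z := by
  rw [← mod_val k a, mod_iff, dvd_iff]
  rw [ec_eq, ← sub_div] at h
  rwa [PadicInt.coe_sub, PadicInt.coe_natCast]

theorem val_mul (j k : ℕ) (a : ℤ_[2]) :
    (PadicInt.toZModPow (j + k) (2 ^ j * a)).val = 2 ^ j * (PadicInt.toZModPow k a).val := by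
  have h1 := (mod_iff k _ _).1 (mod_val k (PadicInt.toZModPow k a))
  have h2 := ZMod.val_lt (PadicInt.toZModPow k a)
  generalize (PadicInt.toZModPow k a).val = v at h1 h2
  have h3 : PadicInt.toZModPow (j + k) ((2 ^ j * v : ℕ) : ℤ_[2]) =
      PadicInt.toZModPow (j + k) (2 ^ j * a) := by
    rw [mod_iff, pow_add]
    push_cast
    rw [← mul_sub]
    exact mul_dvd_mul_left _ h1
  rw [← h3, map_natCast, ZMod.val_natCast_of_lt]
  rw [pow_add]
  exact Nat.mul_lt_mul_of_pos_left h2 (by positivity)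

theorem cyc_dvd {H : Subgroup GQ} {K : ℕ} (h : Fix H (ec (2 ^ K)⁻¹)) {g : GQ} (hg : g ∈ H) :
    2 ^ K ∣ (cyc g : ℤ_[2]) - 1 := by
  have := h g hg
  rw [a_EC.1.gal, ec_eq] at this
  rw [dvd_iff]
  convert this using 2
  push_cast
  ring

end TAH1

open TAH1

theorem t_AH1 (hPLOG : PLOG) (hSYA : SYA) : AH1 := by
  intro H k K hk hL η hη hη0
  obtain ⟨j, rfl⟩ : ∃ j, K = j + 2 := ⟨K - 2, by omega⟩
  obtain ⟨hH, hf⟩ := hL
  have hlg : ∀ g ∈ H, 2 ^ j ∣ lg (cyc g) := fun g hg =>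
    (a_LG.1.dvd j _).2 (Or.inl (cyc_dvd hf hg))
  have hle : H ≤ w2.D ⊓ KP j := fun g hg =>
    ⟨hH.le hg, ((a_LG.2.2.2.1 j).2.2.2.2.1 g).2 (hlg g hg)⟩
  have hi : H.relIndex (w2.D ⊓ KP j) ≠ 0 := hH.relIndex_ne inf_le_left
  have hlam := a_NRMK1 w2 j _ (Fix.nrm hi hη) (fun h => hη0 ((nrm_eq_zero hi).1 h))
  rw [nrm_trans inf_le_left hle (hH.relIndex_ne le_rfl) hη] at hlam
  obtain ⟨lam, hlam⟩ := hlam
  obtain ⟨c, hc⟩ : ∃ c : ℤ_[2], l5 = 4 * c := by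
    refine ⟨⟨l5 / 4, ?_⟩, by simp only; field_simp⟩
    rw [norm_div, hPLOG.2.1, show (4 : ℚ_[2]) = 2 ^ 2 by norm_num, norm_pow, norm_two]
    norm_num
  have hLN : LNm H η = 2 ^ (j + 2) * ((c * lam : ℤ_[2]) : ℚ_[2]) := by
    rw [LNm, hlam, hc]
    push_cast
    rw [show ((2 : ℤ_[2]) : ℚ_[2]) = 2 from rfl]
    ring
  refine ⟨?_, ?_⟩
  · rw [hLN, norm_mul, norm_pow, norm_two, inv_pow]
    exact mul_le_of_le_one_right (by positivity) (c * lam).2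
  choose! mu hmu using hlg
  have hP : IsCh H (Ps (j + k)) := (a_LG.2.2.2.1 (j + k)).1.mono le_top
  have hval : ∀ g ∈ H, (Ps (j + k) g).val = 2 ^ j * (PadicInt.toZModPow k (mu g)).val :=
    fun g hg => by rw [Ps, hmu g hg, val_mul]
  have hχ : IsCh H fun g => PadicInt.toZModPow k (mu g) := by
    refine ⟨(hP.1.comp fun a => ((a.val / 2 ^ j : ℕ) : ZMod (2 ^ k))).congr fun g hg => ?_,
      fun g hg h hh => ?_⟩
    · rw [hval g hg, Nat.mul_div_cancel_left _ (by positivity), ZMod.natCast_zmod_val]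
    · rw [← map_add]
      refine congrArg _ (mul_left_cancel₀ (a := 2 ^ j) (by simp) ?_)
      rw [← hmu _ (mul_mem hg hh), mul_add, ← hmu g hg, ← hmu h hh, a_EC.2.1, a_LG.1.mul]
  have hfk : Fix H (ec (2 ^ k)⁻¹) := by
    have := hf.pow (2 ^ (j + 2 - k))
    rw [← ec_nat] at this
    convert this using 2
    rw [show j + 2 = (j + 2 - k) + k by omega, pow_add]
    simp only [Nat.add_sub_cancel]
    push_cast
    field_simp
  obtain ⟨hk1, hk2, hk3⟩ := hSYA H k ⟨hH, hfk⟩ _ hf (ec_ne _)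
  have hkm : ∀ g ∈ H, km k (ec (2 ^ (j + 2))⁻¹) g =
      ((PadicInt.toZModPow k c).val • fun g => PadicInt.toZModPow k (mu g)) g := by
    intro g hg
    have h1 := hk2 (ec (2 ^ (j + 2 + k))⁻¹) (by
      rw [← ec_nat]; congr 1; push_cast; rw [pow_add _ _ k]; field_simp) g hg
    rw [a_EC.1.gal, ← ec_sub] at h1
    have h2 := hPLOG.2.2 (cyc g) (j + 2) (by omega) (cyc_dvd hf hg)
    rw [Pi.smul_apply, nsmul_eq_mul, ZMod.natCast_zmod_val, ← map_mul]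
    refine ec_inj (h1.symm.trans (ec_eq.2 ?_))
    have e : ((cyc g : ℤ_[2]) : ℚ_[2]) * (2 ^ (j + 2 + k))⁻¹ - (2 ^ (j + 2 + k))⁻¹ -
        ((c * mu g : ℤ_[2]) : ℚ_[2]) / 2 ^ k =
        -(l5 * lg (cyc g) - (((cyc g : ℤ_[2]) : ℚ_[2]) - 1)) / 2 ^ (j + 2 + k) := by
      rw [hmu g hg, hc]
      push_cast
      rw [show ((2 : ℤ_[2]) : ℚ_[2]) = 2 from rfl]
      field_simp
      ring
    rw [e, norm_div, norm_neg, norm_pow, norm_two, div_le_one (by positivity)]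
    refine h2.trans ?_
    obtain ⟨m, rfl⟩ : ∃ m, j = k + m := ⟨j - k, by omega⟩
    rw [inv_pow, show (4 : ℝ) = 2 ^ 2 by norm_num, ← pow_mul,
      show 2 * (k + m + 2) = (k + m + 2 + k) + (m + 1) + 1 by ring, pow_succ, pow_add _ _ (m + 1)]
    have : (1 : ℝ) ≤ 2 ^ (m + 1) := one_le_pow₀ (by norm_num)
    field_simp
    exact this
  generalize hi' : (PadicInt.toZModPow k c).val = i at hkm
  have hci : 2 ^ k ∣ (i : ℤ_[2]) - c := (mod_iff k _ _).1 (hi' ▸ mod_val k _)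
  have hC := a_CUP H η hη hη0
  have hC' := a_CUP H (η ^ i) (hη.pow i) (pow_ne_zero _ hη0)
  have hT := (hC _ _ (by positivity) hχ).2.2.2.2.1 i
  have hE := ((hC' _ _ (by positivity) hχ).2.2.2.2.2.1 (2 ^ (j + k)) (2 ^ j) (Ps (j + k))
    (pow_add _ _ _) (by positivity)).1 hval
  have hN := a_INV w2 H hH
  have hQ := hC _ _ (by positivity) hP
  have hpw : cup (Ps (j + k)) (η ^ i) = cup (Ps (j + k)) η ^ i := by
    funext g h
    simp only [cup, Pi.pow_apply]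
    split_ifs <;> simp
  rw [sy, TINV2.nv_congr hN (hk3 η hη hη0).1 (hC' _ _ (by positivity) hP).1 (hT.congr ?_), hpw,
    TINV2.nv_pow hN ⟨hQ.1, j + k, hQ.2.1⟩, hN.cup _ _ hη hη0, sv, ← ec_nat, ec_eq, hLN, hlam]
  · have := (dvd_iff _ k).1 (hci.mul_right lam)
    convert this using 2
    push_cast
    rw [show ((2 : ℤ_[2]) : ℚ_[2]) = 2 from rfl]
    field_simp
    ring
  · intro g hg h hh
    rw [Pi.div_apply, Pi.div_apply, Pi.div_apply, Pi.div_apply, hE g hg h hh]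
    simp only [cup, hkm g hg, hkm h hh]

end Pool.Agent.P.MP_9c97e9_nt.KT
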