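import Pool.Agent.P.MP_9c97e9_nt.KT.TAH2O

/-! The second formula of Artin and Hasse. -/

namespace Pool.Agent.P.MP_9c97e9_nt.KT

open MP_8b7eba_nt.R2 Polynomial

namespace TAH2

open TAH2O

theorem roots {n : ℕ} (hn : 0 < n) {x : Om} (hx : x ≠ 0) :
    ∃ T : Finset Om, (∀ y, y ∈ T ↔ y ^ n = x) ∧ ∏ y : T, (1 - (y : Om)) = 1 - x := by
  have h1 : (X ^ n - C x : Om[X]).roots.Nodup :=
    nodup_roots (separable_X_pow_sub_C x (Nat.cast_ne_zero.2 hn.ne') hx)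
  refine ⟨⟨_, h1⟩, fun y => mem_nthRoots hn, ?_⟩
  rw [Finset.prod_coe_sort _ fun y => 1 - y]
  have := (IsAlgClosed.splits (X ^ n - C x : Om[X])).eval_eq_prod_roots_of_monic
    (monic_X_pow_sub_C x hn.ne') 1
  rw [eval_sub, eval_pow, eval_X, eval_C, one_pow] at this
  exact this.symm

theorem act (H : Subgroup GQ) (T : Finset Om) (hT : ∀ g ∈ H, ∀ y ∈ T, g y ∈ T) :
    ∃ (a : GQ → T → T) (S : T → Subgroup GQ), Act H a S ∧ Eqi H a fun y => (y : Om) := by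
  classical
  let a : GQ → T → T := fun g y => if h : g ∈ H then ⟨g y, hT g h y y.2⟩ else y
  have ha : ∀ g ∈ H, ∀ y, (a g y : Om) = g y := fun g hg y => by simp only [a, dif_pos hg]
  refine ⟨a, fun y => H ⊓ MulAction.stabilizer GQ (y : Om), ⟨fun y => ?_, fun g hg h hh y => ?_,
    ?_, fun y g => ?_⟩, ha⟩
  · exact Subtype.ext (ha 1 H.one_mem y)
  · refine Subtype.ext ?_
    rw [ha _ (mul_mem hg hh), ha _ hg, ha _ hh]
    rfl
  · refine Sm.pi fun y => ?_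
    obtain ⟨N, h1, h2⟩ := sm_apply (H := H) (y : Om)
    refine ⟨N, h1, fun g hg n hn m => Subtype.ext ?_⟩
    rw [ha _ (mul_mem hg hn), ha _ hg]
    exact h2 g hg n hn m
  · refine and_congr_right fun hg => ?_
    rw [Subtype.ext_iff, ha _ hg]
    rfl

theorem fix_gen {H : Subgroup GQ} {a : ℤ} {K : ℕ} (ha : Odd a) (h : Fix H (ec (a / 2 ^ K))) :
    Fix H (ec (2 ^ K)⁻¹) := by
  obtain ⟨u, v, e⟩ : IsCoprime a (2 ^ K) := (Int.isCoprime_two_right.2 ha).pow_right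
  have : ec (2 ^ K : ℚ_[2])⁻¹ = ec (a / 2 ^ K) ^ u := by
    rw [← ec_int, TKLD.ec_eq hE]
    convert Padic.norm_int_le_one (p := 2) v using 2
    have e' : (u : ℚ_[2]) * a + v * 2 ^ K = 1 := by exact_mod_cast e
    have := TKLD.p0 K
    field_simp
    linear_combination -e'
  rw [this]
  exact h.zpow u

theorem form {ξ t y : Om} {a : ℤ} {K s c : ℕ} (ξ0 : ξ ≠ 0) (t0 : t ≠ 0)
    (h : y ^ 2 ^ s = ξ ^ 2 ^ s * ec (a / 2 ^ K) * t ^ (2 ^ s * c)) :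
    ∃ m : ℤ, y = ξ * ec (((a + 2 ^ K * m : ℤ) : ℚ_[2]) / 2 ^ (K + s)) * t ^ c := by
  have p1 := TKLD.p0 K
  have p2 := TKLD.p0 s
  have e0 := TKLD.ec_ne hE ((a : ℚ_[2]) / 2 ^ (K + s))
  have e1 := TKLD.ec_ne hE ((a : ℚ_[2]) / 2 ^ K)
  have e2 : ec ((a : ℚ_[2]) / 2 ^ (K + s)) ^ 2 ^ s = ec (a / 2 ^ K) := by
    rw [← TKLD.ec_nat hE]
    congr 1
    push_cast
    field_simp
    ring
  have n0 : ξ * ec ((a : ℚ_[2]) / 2 ^ (K + s)) * t ^ c ≠ 0 :=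
    mul_ne_zero (mul_ne_zero ξ0 e0) (pow_ne_zero _ t0)
  obtain ⟨m, hm⟩ := hE.surj s (y / (ξ * ec ((a : ℚ_[2]) / 2 ^ (K + s)) * t ^ c)) (by
    rw [div_pow, h, mul_pow, mul_pow, e2, ← pow_mul, mul_comm c]
    exact div_self (mul_ne_zero (mul_ne_zero (pow_ne_zero _ ξ0) e1) (pow_ne_zero _ t0)))
  refine ⟨m, ?_⟩
  have e3 : ec (((a + 2 ^ K * m : ℤ) : ℚ_[2]) / 2 ^ (K + s)) =
      ec (m / 2 ^ s) * ec ((a : ℚ_[2]) / 2 ^ (K + s)) := by
    rw [← hE.add]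
    congr 1
    push_cast
    field_simp
    ring
  rw [e3, (div_eq_iff n0).1 hm]
  ring

end TAH2

open TAH2 TAH2O in
theorem t_AH2 (hORBS : ORBS) (hSYB : SYB) (hPOW : POW) (hAH1 : AH1) (hAH2O : AH2O) (hRVX : RVX) :
    AH2 := by
  intro H k K hk hL ξ t o c a fξ ho hξ ft t0 hc hac hC
  have hLk : LH H k := (hRVX H K hL).1 k (by omega)
  have ξ0 : ξ ≠ 0 := fun e => by
    rw [e, zero_pow ho.pos.ne'] at hξ
    exact zero_ne_one hξ
  have fC : Fix H (ξ * ec (a / 2 ^ K) * t ^ c) :=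
    (fξ.mul (by rw [ec_div]; exact hL.2.zpow a)).mul (ft.pow c)
  rcases hac with ha | hc'
  swap
  · refine ⟨?_, hAH2O H k K hk hL ξ t o c a fξ ho hξ ft t0 hc' hC⟩
    rw [norm_div, norm_odd hc', div_one]
    exact (hAH1 H k K hk hL _ (fix_one.sub fC) (sub_ne_zero.2 hC.symm)).1
  obtain ⟨s, c', hc', rfl⟩ := Nat.exists_eq_two_pow_mul_odd hc.ne'
  obtain ⟨j, hj⟩ := (hPOW H s hL.1.le).2.1 ξ o ho hξ
  have C0 : ξ * ec (a / 2 ^ K) * t ^ (2 ^ s * c') ≠ 0 :=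
    mul_ne_zero (mul_ne_zero ξ0 (TKLD.ec_ne hE _)) (pow_ne_zero _ t0)
  obtain ⟨T, hT, hP⟩ := roots (n := 2 ^ s) (by positivity) C0
  obtain ⟨A, S, hA, hE1⟩ := act H T fun g hg y hy => by
    rw [hT] at hy ⊢
    rw [← map_pow, hy, fC g hg]
  have hE2 : Eqi H A fun y => 1 - (y : Om) := fun g hg y => by
    rw [map_sub, map_one]
    exact congrArg (1 - ·) (hE1 g hg y)
  have n1 : ∀ y : T, (y : Om) ≠ 1 := fun y e => by
    have := (hT _).1 y.2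
    rw [e, one_pow] at this
    exact hC this.symm
  have n2 : ∀ y : T, 1 - (y : Om) ≠ 0 := fun y => sub_ne_zero.2 (n1 y).symm
  obtain ⟨o1, ⟨R, hR⟩, o2⟩ := hORBS H hL.1 T A S hA
  have f1 := (o2 R hR _ hE1).1
  obtain ⟨f2, -, -, -, -, e1⟩ := o2 R hR _ hE2
  replace e1 := e1 n2
  have e2 := (hSYB H k hLk).1 T A S R t _ hA hR ft t0 hE2 n2
  rw [hP] at e1 e2
  have p1 := TKLD.p0 K
  have p2 := TKLD.p0 s
  have p3 := TKLD.p0 k
  have c0 : (c' : ℚ_[2]) ≠ 0 := Nat.cast_ne_zero.2 hc'.pos.ne'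
  have key : ∀ y : T, ‖LNm (S y) (1 - y)‖ ≤ (2 ^ (K + s))⁻¹ ∧ sy (S y) k t (1 - y) =
      ec (-a * (LNm (S y) (1 - y) / c') / 2 ^ (K + s + k)) := fun y => by
    have j0 : ξ ^ j ≠ 0 := pow_ne_zero _ ξ0
    obtain ⟨m, hm⟩ := form (ξ := ξ ^ j) (y := y) (a := a) (K := K) (s := s) (c := c') j0 t0
      (by rw [hj]; exact (hT _).1 y.2)
    have g1 : Fix (S y) (ξ ^ j) := (fξ.pow j).mono (o1 y).2
    have g2 : Fix (S y) t := ft.mono (o1 y).2
    have hodd : Odd (a + 2 ^ K * m) :=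
      ha.add_even (Even.mul_right ((Int.even_pow' (by omega)).2 even_two) m)
    have hS : LH (S y) (K + s) := ⟨(o1 y).1, fix_gen hodd (by
      have := (f1 y).div (g1.mul (g2.pow c'))
      rwa [hm, mul_right_comm, mul_div_cancel_left₀ _ (mul_ne_zero j0 (pow_ne_zero _ t0))]
        at this)⟩
    have b := (hAH1 _ k (K + s) (by omega) hS _ (f2 y) (n2 y)).1
    have e := hAH2O _ k (K + s) (by omega) hS (ξ ^ j) t o c' _ g1 ho
      (by rw [← pow_mul, mul_comm, pow_mul, hξ, one_pow]) g2 t0 hc' (hm ▸ n1 y)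
    rw [← hm] at e
    refine ⟨b, e.trans ((TKLD.ec_eq hE).2 ?_)⟩
    obtain ⟨d, rfl⟩ : ∃ d, K = k + d := ⟨K - k, by omega⟩
    have b' : ‖LNm (S y) (1 - y) / c'‖ ≤ (2 ^ (k + d + s))⁻¹ := by
      rwa [norm_div, norm_odd hc', div_one]
    convert small (-m * 2 ^ d) b' using 2
    push_cast
    field_simp
    ring
  constructor
  · rw [e1, Nat.cast_mul, norm_div, norm_mul, norm_odd hc', mul_one, Nat.cast_pow, Nat.cast_ofNat,
      TKLD.n2, div_le_iff₀ (by positivity), ← mul_inv, ← pow_add]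
    exact IsUltrametricDist.norm_sum_le_of_forall_le_of_nonneg (by positivity)
      fun y _ => (key y).1
  · rw [e2, Finset.prod_congr rfl fun y _ => (key y).2, ← TKLD.ec_sum hE, e1]
    congr 1
    rw [← Finset.sum_div, ← Finset.mul_sum, ← Finset.sum_div]
    push_cast
    field_simp
    ring

end Pool.Agent.P.MP_9c97e9_nt.KT
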