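import Pool.Agent.P.MP_9c97e9_nt.KT.IfE
import Pool.Agent.P.MP_8b7eba_nt.R2.AllA
import Pool.Agent.P.MP_8b7eba_nt.R2.TKLDA

/-! The second formula of Artin and Hasse, odd exponent. -/

namespace Pool.Agent.P.MP_9c97e9_nt.KT

open MP_8b7eba_nt.R2

namespace TAH2O

theorem hE : IsEc ec := a_EC.1

theorem ec_int (x : ℚ_[2]) (a : ℤ) : ec (a * x) = ec x ^ a := by
  obtain ⟨n, rfl | rfl⟩ := a.eq_nat_or_neg
  · rw [Int.cast_natCast, zpow_natCast, TKLD.ec_nat hE]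
  · rw [zpow_neg, zpow_natCast, ← TKLD.ec_nat hE]
    refine eq_inv_of_mul_eq_one_left ?_
    rw [← hE.add, ← TKLD.ec0 hE]
    congr 1
    push_cast
    ring

theorem ec_div (a : ℤ) (K : ℕ) : ec (a / 2 ^ K) = ec (2 ^ K)⁻¹ ^ a := by
  rw [div_eq_mul_inv, ec_int]

theorem norm_odd {c : ℕ} (hc : Odd c) : ‖(c : ℚ_[2])‖ = 1 := by
  have h1 : ‖((c : ℤ) : ℚ_[2])‖ ≤ 1 := Padic.norm_int_le_one _
  have h2 : ¬ ‖((c : ℤ) : ℚ_[2])‖ < 1 := by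
    rw [Padic.norm_intCast_lt_one_iff]
    intro h
    have : (2 : ℕ) ∣ c := by exact_mod_cast h
    exact (Nat.not_even_iff_odd.2 hc) (even_iff_two_dvd.2 this)
  simpa using le_antisymm h1 (not_lt.1 h2)

theorem root_eq {x y : Om} {c k : ℕ} (hc : Odd c) (hx : x ^ 2 ^ k = 1) (hy : y ^ 2 ^ k = 1)
    (h : x ^ c = y ^ c) : x = y := by
  have h0 : y ≠ 0 := fun e => by simp [e] at hy
  have h1 : (x / y) ^ c = 1 := by rw [div_pow, h, div_self (pow_ne_zero _ h0)]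
  have h2 : (x / y) ^ 2 ^ k = 1 := by rw [div_pow, hx, hy, div_one]
  have h3 := pow_gcd_eq_one.2 ⟨h1, h2⟩
  rw [(Nat.Coprime.pow_right k (Nat.coprime_two_right.2 hc) : Nat.gcd c (2 ^ k) = 1), pow_one]
    at h3
  exact (div_eq_one_iff_eq h0).1 h3

theorem small {x : ℚ_[2]} {K : ℕ} (a : ℤ) (h : ‖x‖ ≤ (2 ^ K)⁻¹) : ‖a * x / 2 ^ K‖ ≤ 1 := by
  rw [norm_div, norm_mul, TKLD.n2, div_le_one (by positivity)]
  exact (mul_le_of_le_one_left (norm_nonneg _) (Padic.norm_int_le_one _)).trans h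

end TAH2O

open TAH2O in
theorem t_AH2O (hSYA : SYA) (hSYB : SYB) (hPOW : POW) (hAH1 : AH1) (hRVX : RVX) : AH2O := by
  intro H k K hk hL ξ t o c a fξ ho hξ ft t0 hc hC
  have hLk : LH H k := (hRVX H K hL).1 k (by omega)
  have ξ0 : ξ ≠ 0 := fun e => by
    rw [e, zero_pow ho.pos.ne'] at hξ
    exact zero_ne_one hξ
  have ζ0 : ec (2 ^ K : ℚ_[2])⁻¹ ≠ 0 := TKLD.ec_ne hE _
  rw [ec_div] at hC ⊢
  set ζ := ec (2 ^ K : ℚ_[2])⁻¹ with hζ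
  have fζ : Fix H ζ := hL.2
  have f1 : Fix H (ξ * ζ ^ a) := fξ.mul (fζ.zpow a)
  have n1 : ξ * ζ ^ a ≠ 0 := mul_ne_zero ξ0 (zpow_ne_zero _ ζ0)
  have fC : Fix H (ξ * ζ ^ a * t ^ c) := f1.mul (ft.pow c)
  have e0 := ((hSYB H k hLk).2 _ fC (mul_ne_zero n1 (pow_ne_zero _ t0))).1 hC
  set η := 1 - ξ * ζ ^ a * t ^ c with hη
  have fη : Fix H η := fix_one.sub fC
  have η0 : η ≠ 0 := sub_ne_zero.2 hC.symm
  have A := (hSYA H k hLk η fη η0).2.2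
  have e1 := ((A _ f1 n1).2.2.2.2.2.1 _ (ft.pow c) (pow_ne_zero _ t0)).2
  have e2 := ((A _ fξ ξ0).2.2.2.2.2.1 _ (fζ.zpow a) (zpow_ne_zero _ ζ0)).2
  have e3 := ((A _ fζ ζ0).2.2.2.2.2.2.1 a).2
  have e4 := ((A _ ft t0).2.2.2.2.2.2.1 c).2
  obtain ⟨j, hj⟩ := (hPOW H k hL.1.le).2.1 ξ o ho hξ
  have e5 := ((A _ fξ ξ0).2.2.2.2.2.2.2 ⟨_, fξ.pow j, hj⟩).2
  obtain ⟨b, e6⟩ := hAH1 H k K hk hL η fη η0
  rw [zpow_natCast, zpow_natCast] at e4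
  rw [e1, e2, e3, e4, e5, one_mul, e6, ← ec_int] at e0
  have c0 : (c : ℚ_[2]) ≠ 0 := Nat.cast_ne_zero.2 hc.pos.ne'
  refine root_eq hc ((hSYA H k hLk t ft t0).2.2 η fη η0).2.1 ?_ ?_
  · rw [← TKLD.ec_nat hE, hE.eq_one]
    have b' : ‖LNm H η / c‖ ≤ (2 ^ K)⁻¹ := by rwa [norm_div, norm_odd hc, div_one]
    convert small (-a) b' using 2
    have := TKLD.p0 k
    have := TKLD.p0 K
    push_cast
    field_simp
    ring
  · rw [← TKLD.ec_nat hE, eq_inv_of_mul_eq_one_right e0]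
    refine (eq_inv_of_mul_eq_one_left ?_).symm
    rw [← hE.add, ← TKLD.ec0 hE]
    congr 1
    field_simp
    ring

end Pool.Agent.P.MP_9c97e9_nt.KT
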