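import Pool.Agent.P.MP_9c97e9_nt.KT.IfE

/-! Proof of AH3: the symbol of a monomial and a binomial. -/

namespace Pool.Agent.P.MP_9c97e9_nt.KT

open scoped NNReal
open MP_8b7eba_nt.R2

namespace TAH3

theorem ec_zero : ec 0 = 1 := (a_EC.1.eq_one 0).2 (by simp)

theorem ec_neg (x : ℚ_[2]) : ec x * ec (-x) = 1 := by rw [← a_EC.1.add, add_neg_cancel, ec_zero]

theorem ec_ne (x : ℚ_[2]) : ec x ≠ 0 := left_ne_zero_of_mul_eq_one (ec_neg x)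

theorem ec_nat (x : ℚ_[2]) (n : ℕ) : ec (n * x) = ec x ^ n := by
  induction n with
  | zero => simp [ec_zero]
  | succ n ih => rw [Nat.cast_succ, add_mul, one_mul, a_EC.1.add, ih, pow_succ]

theorem ec_int (x : ℚ_[2]) (m : ℤ) : ec (m * x) = ec x ^ m := by
  obtain ⟨n, rfl | rfl⟩ := m.eq_nat_or_neg
  · rw [Int.cast_natCast, ec_nat, zpow_natCast]
  · rw [Int.cast_neg, Int.cast_natCast, neg_mul, zpow_neg, zpow_natCast, ← ec_nat]
    exact eq_inv_of_mul_eq_one_right (ec_neg _)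

theorem ec_congr {x y : ℚ_[2]} (h : ‖x - y‖ ≤ 1) : ec x = ec y := by
  rw [← sub_add_cancel x y, a_EC.1.add, (a_EC.1.eq_one _).2 h, one_mul]

theorem norm_two (n : ℕ) : ‖(2 : ℚ_[2]) ^ n‖ = (2 ^ n)⁻¹ := by
  have := Padic.norm_p (p := 2)
  rw [norm_pow, ← inv_pow]
  exact congrArg (· ^ n) (by exact_mod_cast this)

theorem iv_ph (X : ℕ) (ω t : Om) (a : ℤ) {c : ℕ} (hc : 0 < c) :
    Iv X (ph ω a c) t =
      (((c : ℚ)⁻¹ : ℚ) : Om) * ∑ i ∈ Finset.Icc 1 (X / c), (ω ^ a * t ^ c) ^ i / i := by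
  rw [Iv, Finset.mul_sum]
  symm
  refine Finset.sum_bij_ne_zero (fun i _ _ => c * i) (fun i hi _ => ?_)
    (fun i _ _ j _ _ e => Nat.eq_of_mul_eq_mul_left hc e) (fun m hm h0 => ?_) fun i hi _ => ?_
  · rw [Finset.mem_Icc] at hi ⊢
    exact ⟨Nat.mul_pos hc hi.1, (mul_comm c i).trans_le ((Nat.le_div_iff_mul_le hc).1 hi.2)⟩
  rotate_left
  · have h1 : c * i ≠ 0 := (Nat.mul_pos hc (Finset.mem_Icc.1 hi).1).ne'
    rw [ph, PowerSeries.coeff_mk, if_pos ⟨dvd_mul_right _ _, h1⟩, Nat.mul_div_cancel_left _ hc,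
      mul_pow, zpow_mul, zpow_natCast, pow_mul]
    push_cast
    ring
  · have h1 : c ∣ m := by
      by_contra h
      rw [ph, PowerSeries.coeff_mk, if_neg fun e => h e.1] at h0
      simp at h0
    obtain ⟨i, rfl⟩ := h1
    rw [Finset.mem_Icc] at hm
    have h2 : i ∈ Finset.Icc 1 (X / c) := Finset.mem_Icc.2 ⟨Nat.pos_of_mul_pos_left hm.1,
      (Nat.le_div_iff_mul_le hc).2 ((mul_comm i c).trans_le hm.2)⟩
    refine ⟨i, h2, fun e => h0 ?_, rfl⟩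
    have h1 : c * i ≠ 0 := by omega
    rw [← e, ph, PowerSeries.coeff_mk, if_pos ⟨dvd_mul_right _ _, h1⟩,
      Nat.mul_div_cancel_left _ hc, mul_pow, zpow_mul, zpow_natCast, pow_mul]
    push_cast
    ring

end TAH3

open TAH3 in
theorem t_AH3 (hTQX : TQX) (hLOG : LOG) (hSYA : SYA) (hPOW : POW) (hAH1 : AH1) (hAH2 : AH2)
    (hRVX : RVX) : AH3 := by
  intro H k K X ω κ t M
  obtain ⟨o, ho, hω⟩ := M.ord
  have hk : LH H k := (hRVX H K M.lh).1 k (by have := M.le; omega)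
  have hD : H ≤ w2.D := by
    obtain ⟨U, -, e⟩ := M.lh.1
    exact e ▸ inf_le_left
  have z1 : ∀ m : ℤ, ec (m / 2 ^ K) = ec (2 ^ K)⁻¹ ^ m := fun m => by rw [div_eq_mul_inv, ec_int]
  have z0 := ec_ne (2 ^ K)⁻¹
  have o0 : o ≠ 0 := ho.pos.ne'
  have w0 : ω ≠ 0 := fun e => by
    rw [e, zero_pow o0] at hω
    exact pow_ne_zero o (ec_ne _) hω.symm
  have w1 : w2.v ω = 1 := by
    have h1 : ω ^ (o * 2 ^ K) = 1 := by
      rw [pow_mul, hω, ← pow_mul, mul_comm, pow_mul, ← ec_nat, (a_EC.1.eq_one _).2, one_pow]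
      rw [Nat.cast_pow, Nat.cast_ofNat, mul_div_cancel₀ _ (pow_ne_zero K two_ne_zero)]
      exact Padic.norm_int_le_one κ
    have := congrArg w2.v h1
    rw [map_pow, map_one] at this
    exact (pow_eq_one_iff_of_nonneg zero_le (by positivity)).1 this
  obtain ⟨ξ, hξ, x1, x2⟩ : ∃ ξ, ω = ξ * ec (2 ^ K)⁻¹ ^ κ ∧ Fix H ξ ∧ ξ ^ o = 1 :=
    ⟨ω / ec (2 ^ K)⁻¹ ^ κ, (div_mul_cancel₀ _ (zpow_ne_zero _ z0)).symm,
      M.fo.div (M.lh.2.zpow κ), by rw [div_pow, hω, z1, div_self (pow_ne_zero _ (zpow_ne_zero _ z0))]⟩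
  have x0 : ξ ≠ 0 := fun e => w0 (by rw [hξ, e, zero_mul])
  have key : ∀ η, Fix H η → η ≠ 0 → sy H k ω η = ec (κ * LNm H η / 2 ^ (K + k)) := fun η f n => by
    have S := (hSYA H k hk η f n).2.2
    obtain ⟨j, hj⟩ := (hPOW H k hD).2.1 ξ o ho x2
    rw [hξ, ((S ξ x1 x0).2.2.2.2.2.1 _ (M.lh.2.zpow κ) (zpow_ne_zero _ z0)).2,
      ((S ξ x1 x0).2.2.2.2.2.2.2 ⟨_, x1.pow j, hj⟩).2, one_mul,
      ((S _ M.lh.2 z0).2.2.2.2.2.2.1 κ).2, (hAH1 H k K M.le M.lh η f n).2, ← ec_int, mul_div_assoc]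
  refine ⟨w0, w1, key t M.ft M.ne, fun a c hc hac => ?_⟩
  have c0 : (c : ℚ_[2]) ≠ 0 := Nat.cast_ne_zero.2 hc.ne'
  have c1 : (c : Om) ≠ 0 := Nat.cast_ne_zero.2 hc.ne'
  have fC : Fix H (ω ^ a * t ^ c) := (M.fo.zpow a).mul (M.ft.pow c)
  have vC : w2.v (ω ^ a * t ^ c) < 1 := by
    rw [map_mul, map_zpow₀, w1, one_zpow, one_mul, map_pow]
    exact pow_lt_one₀ zero_le M.lt hc.ne'
  have C1 : ω ^ a * t ^ c ≠ 1 := fun e => by simp [e] at vC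
  have eC : ξ ^ a * ec (((κ * a : ℤ) : ℚ_[2]) / 2 ^ K) * t ^ c = ω ^ a * t ^ c := by
    rw [z1, zpow_mul, ← mul_zpow, ← hξ]
  obtain ⟨A1, A2⟩ := hAH2 H k K M.le M.lh (ξ ^ a) t o c (κ * a) (x1.zpow a) ho
    (by rw [← zpow_natCast, ← zpow_mul, mul_comm, zpow_mul, zpow_natCast, x2, one_zpow]) M.ft M.ne hc
    (hac.imp_left M.odd.mul) (eC ▸ C1)
  rw [eC] at A1 A2
  have fr : ∀ r : ℚ, ∀ G : Subgroup GQ, Fix G (r : Om) := fun r G σ _ => map_ratCast σ r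
  have fS : Fix H (∑ i ∈ Finset.Icc 1 (X / c), (ω ^ a * t ^ c) ^ i / i) :=
    Fix.sum fun i _ => (fC.pow i).div fun σ _ => map_natCast σ i
  have nc : ‖(c : ℚ_[2])‖ = w2.v c := by
    simpa [show q2 c = c by simpa using hTQX.2.2.1 c] using
      (hTQX.1 c fun σ _ => map_natCast σ c).2
  have L := (hLOG H M.lh.1).2 _ fC vC (X / c) (w2.v c * (2 ^ (K + k))⁻¹) fun i hi => by
    have h1 := M.cut (i * c) (by have := (Nat.div_lt_iff_lt_mul hc).1 hi; omega)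
    refine le_trans (le_of_eq ?_) (mul_le_mul_right h1 _)
    rw [← map_mul, mul_pow, mul_div_assoc, map_mul, map_pow, map_zpow₀, w1, one_zpow, one_pow,
      one_mul, ← pow_mul, mul_comm c, Nat.cast_mul]
    congr 1
    field_simp
  have L2 : ‖LNm H (1 - ω ^ a * t ^ c) / c - trq H (Iv X (ph ω a c) t)‖ ≤ (2 ^ (K + k))⁻¹ := by
    rw [iv_ph X ω t a hc, ((hTQX.2.2.2.2 H M.lh.1).2 _ fS).2.2.2.2.1, Rat.cast_inv,
      Rat.cast_natCast, inv_mul_eq_div, ← sub_div, norm_div, div_le_iff₀ (norm_pos_iff.2 c0), nc,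
      mul_comm _ (w2.v c : ℝ)]
    exact_mod_cast L
  refine ⟨by rw [iv_ph X ω t a hc]; exact (fr _ H).mul fS, ?_, fun a' c' => ?_⟩
  · rw [← sub_sub_cancel (LNm H (1 - ω ^ a * t ^ c) / c) (trq H _), sub_eq_add_neg]
    refine (IsUltrametricDist.norm_add_le_max _ _).trans (max_le A1 ?_)
    rw [norm_neg]
    exact L2.trans (inv_anti₀ (by positivity) (pow_le_pow_right₀ one_le_two (by omega)))
  have f1 : Fix H (1 - ω ^ a * t ^ c) := Fix.sub (fun σ _ => map_one σ) fC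
  have n1 : 1 - ω ^ a * t ^ c ≠ 0 := sub_ne_zero.2 C1.symm
  have S := (hSYA H k hk _ f1 n1).2.2
  rw [((S _ (M.fo.zpow a') (zpow_ne_zero _ w0)).2.2.2.2.2.1 _ (M.ft.zpow c')
    (zpow_ne_zero _ M.ne)).2, ((S _ M.fo w0).2.2.2.2.2.2.1 a').2,
    ((S _ M.ft M.ne).2.2.2.2.2.2.1 c').2, key _ f1 n1, A2, ← ec_int, ← ec_int, ← a_EC.1.add]
  refine ec_congr ?_
  rw [show (a' : ℚ_[2]) * _ + _ - _ = ((κ * (a' * c - a * c') : ℤ) : ℚ_[2]) *
    (LNm H (1 - ω ^ a * t ^ c) / c - trq H (Iv X (ph ω a c) t)) / 2 ^ (K + k) by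
      push_cast; field_simp; ring, norm_div, norm_mul, norm_two, div_le_one (by positivity)]
  exact (mul_le_of_le_one_left (norm_nonneg _) (Padic.norm_int_le_one _)).trans L2

end Pool.Agent.P.MP_9c97e9_nt.KT
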