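import Pool.Agent.P.MP_9c97e9_nt.KT.DefsG

/-! Shapiro's lemma for products of 2-cochains. -/

namespace Pool.Agent.P.MP_9c97e9_nt.KT

namespace TGRP

/-- representatives of the orbits -/
theorem exists_rep {G J : Type} [Group G] (H : Subgroup G) (a : G → J → J) (h1 : ∀ j, a 1 j = j)
    (hm : ∀ g ∈ H, ∀ h ∈ H, ∀ j, a (g * h) j = a g (a h j)) :
    ∃ rep : J → J, (∀ j, ∃ g ∈ H, a g (rep j) = j) ∧ ∀ g ∈ H, ∀ j, rep (a g j) = rep j := by
  let s : Setoid J :=
    { r := fun i j => ∃ g ∈ H, a g i = j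
      iseqv :=
        { refl := fun j => ⟨1, H.one_mem, h1 j⟩
          symm := by
            rintro i _ ⟨g, hg, rfl⟩
            exact ⟨g⁻¹, H.inv_mem hg, by rw [← hm _ (H.inv_mem hg) _ hg, inv_mul_cancel, h1]⟩
          trans := by
            rintro i _ _ ⟨g, hg, rfl⟩ ⟨h, hh, rfl⟩
            exact ⟨h * g, H.mul_mem hh hg, hm _ hh _ hg _⟩ } }
  refine ⟨fun j => (Quotient.mk s j).out, fun j => Quotient.mk_out (s := s) j, fun g hg j => ?_⟩
  have : Quotient.mk s j = Quotient.mk s (a g j) := Quotient.sound ⟨g, hg, rfl⟩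
  simp only [this]

theorem alg {Ω : Type} [Field Ω] {A B C D E F G H I J b1 b2 b3 : Ω} (hB : B ≠ 0) (hD : D ≠ 0)
    (hE : E ≠ 0) (hC : C ≠ 0) (e1 : A * B = C * D) (e2 : E * F = C * G) (e3 : H * F = I * J)
    (e4 : A * b3 = b1 * b2) : J * (I / B * b3) = G / D * b1 * (H / E * b2) := by
  field_simp
  apply mul_left_cancel₀ hC
  linear_combination (-(b3 * C * D * E)) * e3 + (b3 * H * C * D) * e2 -
    (b3 * H * C * G) * e1 + (H * C * G * B) * e4

end TGRP

open TGRP in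
theorem t_GRP : GRP := by
  classical
  intro G Ω _ _ _ H J _ a F _ h1 hm hsa hne hsF hco hT
  obtain ⟨rep, hr1, hr2⟩ := exists_rep H a h1 hm
  choose j0 K hj hK hb using hT
  choose b hb1 hb2 hb3 using hb
  have ht : ∀ j, ∃ t ∈ H, a t (j0 (rep j)) = j := fun j => by
    obtain ⟨g, hg, e⟩ := hr1 j
    obtain ⟨h, hh, e'⟩ := hj (rep j)
    exact ⟨g * h, H.mul_mem hg hh, by rw [hm _ hg _ hh, e', e]⟩
  choose t htH hta using ht
  have hinv : ∀ g ∈ H, ∀ j, a g⁻¹ (a g j) = j := fun g hg j => by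
    rw [← hm _ (H.inv_mem hg) _ hg, inv_mul_cancel, h1]
  have hinv' : ∀ g ∈ H, ∀ j, a g (a g⁻¹ j) = j := fun g hg j => by
    rw [← hm _ hg _ (H.inv_mem hg), mul_inv_cancel, h1]
  have hti : ∀ j, a (t j)⁻¹ j = j0 (rep j) := fun j => by
    have := hinv _ (htH j) (j0 (rep j))
    rwa [hta] at this
  let hh : G → J → G := fun g j => (t j)⁻¹ * g * t (a g⁻¹ j)
  have hH : ∀ g ∈ H, ∀ j, hh g j ∈ H := fun g hg j =>
    H.mul_mem (H.mul_mem (H.inv_mem (htH j)) hg) (htH _)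
  have hhK : ∀ g ∈ H, ∀ j, hh g j ∈ K (rep j) := fun g hg j => by
    refine (hK _ _).2 ⟨hH g hg j, ?_⟩
    have e := hta (a g⁻¹ j)
    rw [hr2 _ (H.inv_mem hg)] at e
    simp only [hh]
    rw [hm _ (H.mul_mem (H.inv_mem (htH j)) hg) _ (htH _), e, hm _ (H.inv_mem (htH j)) _ hg,
      hinv' _ hg, hti]
  let B : J → G → Ω := fun j g =>
    F j g (t (a g⁻¹ j)) / F j (t j) (hh g j) * t j • b (rep j) (hh g j)
  have hB : ∀ g ∈ H, ∀ h ∈ H, ∀ j, F j g h * B j (g * h) = B j g * g • B (a g⁻¹ j) h := by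
    intro g hg h hh' j
    have hgi := H.inv_mem hg
    have ej : a (g * h)⁻¹ j = a h⁻¹ (a g⁻¹ j) := by
      rw [mul_inv_rev, hm _ (H.inv_mem hh') _ hgi]
    have eh : hh g j * hh h (a g⁻¹ j) = hh (g * h) j := by
      simp only [hh, ej]
      group
    have eu : t j * hh g j = g * t (a g⁻¹ j) := by
      simp only [hh]
      group
    have ev : t (a g⁻¹ j) * hh h (a g⁻¹ j) = h * t (a h⁻¹ (a g⁻¹ j)) := by
      simp only [hh]
      group
    have e1 := hco j _ (htH j) _ (hH g hg j) _ (hH h hh' (a g⁻¹ j))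
    have e2 := hco j _ hg _ (htH (a g⁻¹ j)) _ (hH h hh' (a g⁻¹ j))
    have e3 := hco j _ hg _ hh' _ (htH (a h⁻¹ (a g⁻¹ j)))
    have k2 := hhK h hh' (a g⁻¹ j)
    rw [hr2 _ hgi] at k2
    have e4 := congrArg (fun x => t j • x) (hb3 (rep j) _ (hhK g hg j) _ k2)
    simp only [smul_mul'] at e4
    rw [eh, ← mul_smul, eu, mul_smul] at e4
    rw [hti, eh, eu] at e1
    rw [ev] at e2
    simp only [B, ej, smul_mul', smul_div₀', hr2 _ hgi]
    refine alg (hne _ _ (htH j) _ (hH _ (H.mul_mem hg hh') j)) (hne _ _ (htH j) _ (hH g hg j))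
      ?_ (hne _ _ (H.mul_mem hg (htH _)) _ (hH h hh' _)) e1 e2 e3 e4
    exact (smul_ne_zero_iff_ne g).2 (hne _ _ (htH _) _ (hH h hh' _))
  refine ⟨fun g => ∏ j, B j g, ?_, fun g hg => Finset.prod_ne_zero_iff.2 fun j _ => ?_,
    fun g hg h hh' => ?_⟩
  · obtain ⟨Sa, hSa⟩ := hsa
    choose SF hSF using hsF
    choose Sb hSb using hb1
    let S1 : Finset Ω := Sa ∪ Finset.univ.biUnion fun j => SF j ∪ Sb j
    refine ⟨S1 ∪ Finset.univ.biUnion fun j => S1.image (t j • ·), fun g hg n hn hfix => ?_⟩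
    have f1 : ∀ s ∈ S1, n • s = s := fun s hs => hfix s (Finset.mem_union_left _ hs)
    have f2 : ∀ j, ∀ s ∈ S1, ((t j)⁻¹ * n * t j) • s = s := fun j s hs => by
      rw [mul_smul, mul_smul, hfix _ (Finset.mem_union_right _ (Finset.mem_biUnion.2
        ⟨j, Finset.mem_univ _, Finset.mem_image_of_mem _ hs⟩)), inv_smul_smul]
    have m1 : ∀ j, ∀ s ∈ SF j, s ∈ S1 := fun j s hs => Finset.mem_union_right _
      (Finset.mem_biUnion.2 ⟨j, Finset.mem_univ _, Finset.mem_union_left _ hs⟩)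
    have m2 : ∀ j, ∀ s ∈ Sb j, s ∈ S1 := fun j s hs => Finset.mem_union_right _
      (Finset.mem_biUnion.2 ⟨j, Finset.mem_univ _, Finset.mem_union_right _ hs⟩)
    have an : ∀ j, a n j = j := fun j => by
      have := hSa 1 H.one_mem n hn fun s hs => f1 s (Finset.mem_union_left _ hs)
      rw [one_mul] at this
      rw [this, h1]
    have an' : ∀ j, a n⁻¹ j = j := fun j => by
      have := hinv n hn j
      rwa [an] at this
    refine Finset.prod_congr rfl fun j _ => ?_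
    have ej : a (g * n)⁻¹ j = a g⁻¹ j := by
      rw [mul_inv_rev, hm _ (H.inv_mem hn) _ (H.inv_mem hg), an']
    have eh : hh (g * n) j = hh g j * ((t (a g⁻¹ j))⁻¹ * n * t (a g⁻¹ j)) := by
      simp only [hh, ej]
      group
    have hn' : (t (a g⁻¹ j))⁻¹ * n * t (a g⁻¹ j) ∈ H :=
      H.mul_mem (H.mul_mem (H.inv_mem (htH _)) hn) (htH _)
    have hnK : (t (a g⁻¹ j))⁻¹ * n * t (a g⁻¹ j) ∈ K (rep j) := by
      have := hhK n hn (a g⁻¹ j)
      simpa only [hh, an', hr2 _ (H.inv_mem hg)] using this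
    simp only [B, ej, eh]
    rw [(hSF j g hg _ (htH _) n hn fun s hs => f1 s (m1 j s hs)).1,
      (hSF j _ (htH j) _ (hH g hg j) _ hn' fun s hs => f2 _ s (m1 j s hs)).2,
      hSb (rep j) _ (hhK g hg j) _ hnK fun s hs => f2 _ s (m2 _ s hs)]
  · exact mul_ne_zero (div_ne_zero (hne _ _ hg _ (htH _)) (hne _ _ (htH j) _ (hH g hg j)))
      ((smul_ne_zero_iff_ne _).2 (hb2 _ _ (hhK g hg j)))
  · have e : ∏ j, B j h = ∏ j, B (a g⁻¹ j) h :=
      (Fintype.prod_bijective (a g⁻¹) (Function.bijective_iff_has_inverse.2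
        ⟨a g, hinv' g hg, hinv g hg⟩) _ _ fun _ => rfl).symm
    simp only [e, Finset.smul_prod', ← Finset.prod_mul_distrib]
    exact Finset.prod_congr rfl fun j _ => hB g hg h hh' j

end Pool.Agent.P.MP_9c97e9_nt.KT
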