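import Pool.Agent.P.MP_9c97e9_nt.KT.IfE
import Pool.Agent.P.MP_9c97e9_nt.KT.TGRP
import Pool.Agent.P.MP_9c97e9_nt.KT.TSMQ

/-! Corestriction of local invariants. -/

namespace Pool.Agent.P.MP_9c97e9_nt.KT

open scoped NNReal
open MP_8b7eba_nt.R2

namespace TCORP

variable {H : Subgroup GQ}

theorem trivG_iff {f : GQ → GQ → Om} : TrivG H f ↔ Triv H f :=
  exists_congr fun b => and_congr ((t_SMQ Om H).2.1 b) Iff.rfl

theorem cup_ne {m : ℕ} (χ : GQ → ZMod m) {y : Om} (hy : y ≠ 0) (g h : GQ) : cup χ y g h ≠ 0 := by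
  rw [TCUP.cup_eq]; exact zpow_ne_zero _ hy

theorem cup_tw {m : ℕ} (hm : m ≠ 0) {χ : GQ → ZMod m} (hχ : IsCh H χ) {y z : Om} (hy : y ≠ 0)
    {g h l : GQ} (hg : g ∈ H) (hh : h ∈ H) (hl : l ∈ H) (e : g z = y) :
    g (cup χ z h l) * cup χ y g (h * l) = cup χ y (g * h) l * cup χ y g h := by
  simp only [TCUP.cup_eq]
  rw [map_zpow₀, e, ← zpow_add₀ hy, ← zpow_add₀ hy, hχ.2 g hg h hh, hχ.2 h hh l hl]
  congr 1
  refine mul_left_cancel₀ (Nat.cast_ne_zero.2 hm : (m : ℤ) ≠ 0) ?_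
  simp only [mul_add, TCUP.mul_d hm, add_assoc]
  ring

theorem ec_prod {J : Type} (n : ℕ) (R : Finset J) (y : J → Om)
    (h : ∀ r ∈ R, Fix w2.D (y r) ∧ y r ≠ 0) :
    ec ((lg (art w2 (∏ r ∈ R, y r)) : ℚ_[2]) / 2 ^ n) =
      ∏ r ∈ R, ec ((lg (art w2 (y r)) : ℚ_[2]) / 2 ^ n) := by
  classical
  induction R using Finset.induction_on with
  | empty =>
    have h1 := (a_ART.1 w2).mul 1 1 fix_one fix_one one_ne_zero one_ne_zero
    rw [mul_one, left_eq_mul] at h1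
    rw [Finset.prod_empty, Finset.prod_empty, h1, TABHN.lg_one a_LG.1, a_EC.1.eq_one]
    simp
  | insert r R hr ih =>
    have h' : ∀ s ∈ R, Fix w2.D (y s) ∧ y s ≠ 0 := fun s hs => h s (Finset.mem_insert_of_mem hs)
    have h1 := h r (Finset.mem_insert_self _ _)
    rw [Finset.prod_insert hr, Finset.prod_insert hr, ← ih h', (a_ART.1 w2).mul _ _ h1.1
      (Fix.prod fun s hs => (h' s hs).1) h1.2 (Finset.prod_ne_zero_iff.2 fun s hs => (h' s hs).2),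
      a_LG.1.mul, PadicInt.coe_add, add_div, a_EC.1.add]

theorem nrm_prod {J : Type} {H' : Subgroup GQ} (h : H'.relIndex H ≠ 0) (R : Finset J)
    (y : J → Om) : nrm H H' (∏ r ∈ R, y r) = ∏ r ∈ R, nrm H H' (y r) :=
  map_prod (⟨⟨nrm H H', nrm_one⟩, nrm_mul h⟩ : Om →* Om) y R

end TCORP

open TCORP in
theorem t_CORP (hORBS : ORBS) : CORP := by
  intro H hH J _ a S F R hA hR hne hsm hco hT
  obtain ⟨h1, -, h2⟩ := hORBS H hH J a S hA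
  have i1 : ∀ g ∈ H, ∀ j, a g (a g⁻¹ j) = j := fun g hg j => by
    rw [← hA.mul _ hg _ (inv_mem hg), mul_inv_cancel, hA.one]
  have i2 : ∀ g ∈ H, ∀ j, a g⁻¹ (a g j) = j := fun g hg j => by
    rw [← hA.mul _ (inv_mem hg) _ hg, inv_mul_cancel, hA.one]
  have hF : ∀ j, Co2 (S j) (F j) := fun j =>
    ⟨fun g hg h hh => hne j g ((h1 j).2 hg) h ((h1 j).2 hh), (hsm j).mono (h1 j).2,
      fun g hg h hh l hl => by
        have := hco j g ((h1 j).2 hg) h ((h1 j).2 hh) l ((h1 j).2 hl)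
        rwa [((hA.st j g⁻¹).1 (inv_mem hg)).2] at this⟩
  have hFT : ∀ r ∈ R, Co2T (S r) (F r) := fun r hr => ⟨hF r, hT r hr⟩
  choose! n₀ hn₀ using fun r hr => a_DIEK w2 (S r) (F r) (h1 r).1 (hFT r hr)
  obtain ⟨n, hn⟩ : ∃ n, ∀ r ∈ R, Triv (S r ⊓ KP n) (F r) :=
    ⟨R.sup n₀, fun r hr => hn₀ r hr _ (Finset.le_sup hr)⟩
  have hm : 2 ^ n ≠ 0 := pow_ne_zero n two_ne_zero
  have hχ : ∀ U, IsCh U (Ps n) := fun U => (a_LG.2.2.2.1 n).1.mono le_top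
  choose! α α1 α2 α3 using fun r hr => a_CYC1 (S r) (S r ⊓ KP n) (2 ^ n) (Ps n) (h1 r).1.closed hm
    (hχ _) (fun g => and_congr Iff.rfl (((a_LG.2.2.2.1 n).2.2.1 g).trans (and_iff_right trivial)))
    (F r) (hF r) (hn r hr)
  choose ρ hρ hρ' using hR
  choose γ γ1 γ2 using fun j => (hρ j).2
  obtain ⟨x, hx⟩ : ∃ x : J → Om, ∀ j, x j = γ j (α (ρ j)) := ⟨_, fun _ => rfl⟩
  have k1 : ∀ r ∈ R, ∀ g ∈ H, x (a g r) = g (α r) := fun r hr g hg => by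
    have e1 : r = ρ (a g r) := hρ' _ r ⟨hr, g, hg, rfl⟩
    have e2 := γ2 (a g r)
    rw [← e1] at e2
    have e3 := α1 r hr _ ((hA.st r (g⁻¹ * γ (a g r))).2 ⟨mul_mem (inv_mem hg) (γ1 _), by
      rw [hA.mul _ (inv_mem hg) _ (γ1 _), e2, i2 g hg]⟩)
    rw [hx, ← e1, ← congrArg g e3, ← AlgEquiv.mul_apply, mul_inv_cancel_left]
  have k2 : Eqi H a x := fun g hg j => by
    rw [hx j, ← AlgEquiv.mul_apply, ← k1 _ (hρ j).1 _ (mul_mem hg (γ1 j)), hA.mul _ hg _ (γ1 j), γ2]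
  have k3 : ∀ r ∈ R, x r = α r := fun r hr => by
    simpa [hA.one] using k1 r hr 1 (one_mem _)
  have k4 : ∀ j, x j ≠ 0 := fun j => by
    rw [hx]; exact (_root_.map_ne_zero _).2 (α2 _ (hρ j).1)
  obtain ⟨-, -, k5, k6, -⟩ := h2 R (fun j => ⟨ρ j, hρ j, hρ' j⟩) x k2
  have k7 : ∏ j, x j ≠ 0 := Finset.prod_ne_zero_iff.2 fun j _ => k4 j
  have t1 := trivG_iff.1 (t_GRP GQ Om H J a (fun j => F j / cup (Ps n) (x j)) (t_SMQ Om H).1 hA.one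
    hA.mul (((t_SMQ _ H).2.1 a).2 hA.sm)
    (fun j g hg h hh => div_ne_zero (hne j g hg h hh) (cup_ne _ (k4 j) g h))
    (fun j => ((t_SMQ _ H).2.2 _).2 ((hsm j).comp₂ ((hχ H).1.fst.comp₂ (hχ H).1.snd
      fun u v => if 2 ^ n ≤ u.val + v.val then x j else 1) (· / ·)))
    (fun j g hg h hh l hl => by
      simp only [Pi.div_apply, AlgEquiv.smul_def, map_div₀, div_mul_div_comm]
      rw [hco j g hg h hh l hl, cup_tw hm (hχ H) (k4 j) hg hh hl (by rw [← k2 g hg, i1 g hg])])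
    fun j => ⟨ρ j, S (ρ j), (hρ j).2, hA.st _, trivG_iff.2 (by
      rw [k3 _ (hρ j).1]; exact α3 _ (hρ j).1)⟩)
  have t2 : Triv H ((fun g h => ∏ j, F j g h) / cup (Ps n) (∏ j, x j)) := t1.congr fun g _ h _ => by
    simp only [Pi.div_apply, Finset.prod_div_distrib, TCUP.cup_eq, Finset.prod_zpow]
  obtain ⟨c1, c2, -⟩ := a_CUP H _ k5 k7 _ (Ps n) hm (hχ H)
  have t3 : Co2T H fun g h => ∏ j, F j g h := by
    have := t2.co2T.mul ⟨c1, n, c2⟩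
    rwa [show (fun g h => ∏ j, F j g h) / cup (Ps n) (∏ j, x j) * cup (Ps n) (∏ j, x j) =
      fun g h => ∏ j, F j g h from funext fun g => funext fun h =>
        div_mul_cancel₀ _ (cup_ne _ k7 g h)] at this
  refine ⟨t3, hFT, ?_⟩
  rw [TINV2.nv_congr (a_INV w2 H hH) t3 c1 t2, (a_INV w2 H hH).cup n _ k5 k7, sv, k6,
    nrm_prod (hH.relIndex_ne le_rfl), Finset.prod_congr rfl fun r hr => by
      rw [k3 r hr, nrm_trans hH.le (h1 r).2 ((h1 r).1.relIndex_ne le_rfl) (α1 r hr)],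
    ec_prod n R _ fun r hr => ⟨(α1 r hr).nrm ((h1 r).1.relIndex_ne le_rfl),
      mt (nrm_eq_zero ((h1 r).1.relIndex_ne le_rfl)).1 (α2 r hr)⟩]
  refine Finset.prod_congr rfl fun r hr => ?_
  rw [TINV2.nv_congr (a_INV w2 _ (h1 r).1) (hFT r hr)
    (a_CUP _ _ (α1 r hr) (α2 r hr) _ (Ps n) hm (hχ _)).1 (α3 r hr),
    (a_INV w2 _ (h1 r).1).cup n _ (α1 r hr) (α2 r hr), sv]

end Pool.Agent.P.MP_9c97e9_nt.KT
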