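import Pool.Agent.P.MP_9c97e9_nt.KT.IfX
import Pool.Agent.P.MP_9c97e9_nt.KT.TBAS

/-! Proof of EXC. -/

namespace Pool.Agent.P.MP_9c97e9_nt.KT

open MP_8b7eba_nt.R2
open Polynomial

namespace TEXC

/-- extension of an isometric homomorphism from a dense subring -/
theorem extend {α β : Type} [Ring α] [NormedField β] [CompleteSpace β] {i f : α →+* β}
    (hi : DenseRange i) (h : ∀ a, ‖f a‖ = ‖i a‖) :
    ∃ F : β →+* β, Isometry F ∧ ∀ a, F (i a) = f a := by
  letI : PseudoMetricSpace α := PseudoMetricSpace.induced i inferInstance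
  have h1 : Isometry i := fun _ _ => rfl
  have h2 : Isometry f := Isometry.of_dist_eq fun a b => by
    rw [← h1.dist_eq, dist_eq_norm, dist_eq_norm, ← map_sub, ← map_sub, h]
  have h3 : ∀ a, IsDenseInducing.extendRingHom h1.isUniformInducing hi h2.uniformContinuous (i a) =
      f a := IsDenseInducing.extend_eq (h1.isUniformInducing.isDenseInducing hi) h2.continuous
  have h4 : Continuous (IsDenseInducing.extendRingHom h1.isUniformInducing hi h2.uniformContinuous) :=
    (uniformContinuous_uniformly_extend h1.isUniformInducing hi h2.uniformContinuous).continuous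
  refine ⟨_, AddMonoidHomClass.isometry_of_norm _ fun x => ?_, h3⟩
  exact hi.induction_on x (isClosed_eq h4.norm continuous_norm) fun a => by rw [h3, h]

/-- the algebraic numbers are dense in the algebraic closure of the 2-adic numbers -/
theorem approx (a : PadicAlgCl 2) {δ : ℝ} (hδ : 0 < δ) : ∃ b, ‖a - emb ℚ ℚ_[2] b‖ < δ := by
  obtain ⟨f, hf, ha⟩ := (Algebra.IsAlgebraic.isAlgebraic (R := ℚ_[2]) a).isIntegral
  have h0 : f.natDegree ≠ 0 := fun h => by
    rw [hf.natDegree_eq_zero.1 h] at ha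
    simp at ha
  have hε : (δ / max ‖a‖ 1) ^ f.natDegree / (f.natDegree + 1) > 0 := by positivity
  obtain ⟨g, h1, h2, h3⟩ := exists_monic_and_natDegree_eq_and_norm_map_algebraMap_coeff_sub_lt
    (K := ℚ) (Padic.denseRange_ratCast 2) hf hε
  have e : (g.map (algebraMap ℚ ℚ_[2])).map (algebraMap ℚ_[2] (PadicAlgCl 2)) =
      (g.map (algebraMap ℚ Om)).map (emb ℚ ℚ_[2]) := by
    rw [Polynomial.map_map, Polynomial.map_map]
    exact congrArg g.map (Subsingleton.elim _ _)
  obtain ⟨b, hb, h4⟩ := exists_aroots_norm_sub_lt_of_norm_coeff_sub_lt (a := a) hε ha hf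
    (h1.map _) (h2 ▸ g.natDegree_map _) h3 (IsAlgClosed.splits _)
  rw [aroots_def, e, (IsAlgClosed.splits _).roots_map, Multiset.mem_map] at hb
  obtain ⟨c, -, rfl⟩ := hb
  refine ⟨c, h4.trans_eq ?_⟩
  rw [mul_div_cancel₀ _ (by positivity), Real.pow_rpow_inv_natCast (by positivity) h0,
    div_mul_cancel₀ _ (by positivity)]

theorem dense : DenseRange i2 :=
  (UniformSpace.Completion.denseRange_coe (α := PadicAlgCl 2)).comp (f := emb ℚ ℚ_[2])
    (Metric.denseRange_iff.2 fun a _ h => by simpa only [dist_eq_norm] using approx a h)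
    (UniformSpace.Completion.continuous_coe _)

end TEXC

theorem t_EXC : EXC := by
  refine ⟨TEXC.dense, fun σ hσ => ?_⟩
  obtain ⟨f, h1, h2⟩ := TEXC.extend (f := i2.comp (σ : Om →+* Om)) TEXC.dense fun a => by
    rw [RingHom.comp_apply, ← t_BAS.2.2.1, ← t_BAS.2.2.1]
    exact congrArg _ (Pl.mem_D.1 hσ a)
  refine ⟨f, h1, h2, fun a => (Padic.denseRange_ratCast 2).induction_on a
    (isClosed_eq (h1.continuous.comp (continuous_algebraMap _ _)) (continuous_algebraMap _ _))
    fun q => by simp only [map_ratCast]⟩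

end Pool.Agent.P.MP_9c97e9_nt.KT
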