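import Pool.Agent.P.MP_9c97e9_nt.KT.IfE
import Pool.Agent.P.MP_9c97e9_nt.KT.TGEN
import Pool.Agent.P.MP_9c97e9_nt.KT.TSMQ

/-! The local invariant of the cocycle of a family of symbols. -/

namespace Pool.Agent.P.MP_9c97e9_nt.KT

open MP_8b7eba_nt.R2

namespace TFAMT

noncomputable section

theorem ec_int (x : ℚ_[2]) (n : ℤ) : ec (n * x) = ec x ^ n := by
  have h := a_EC.1
  obtain ⟨m, rfl | rfl⟩ := n.eq_nat_or_neg
  · rw [Int.cast_natCast, TKLD.ec_nat h, zpow_natCast]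
  · rw [zpow_neg, zpow_natCast, ← TKLD.ec_nat h]
    refine eq_inv_of_mul_eq_one_left ?_
    rw [← h.add, Int.cast_neg, Int.cast_natCast, neg_mul, neg_add_cancel, TKLD.ec0 h]

variable {H : Subgroup GQ} {k M : ℕ} {J : Type} [Fintype J] {a : GQ → J → J}
  {S : J → Subgroup GQ} {u v : J → Om} {d : J → (ZMod M)ˣ} {c : J → ℤ}

theorem ec_zp (x : ZMod (2 ^ k)) : ec (x.val / 2 ^ k) = TGEN.zp (CO H k M) x := by
  rw [div_eq_mul_inv, TKLD.ec_nat a_EC.1]
  rfl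

omit [Fintype J] in
theorem zp_sum (hC : (CO H k M).Ok) (s : Finset J) (f : J → ZMod (2 ^ k)) :
    TGEN.zp (CO H k M) (∑ j ∈ s, f j) = ∏ j ∈ s, TGEN.zp (CO H k M) (f j) := by
  classical
  induction s using Finset.induction_on with
  | empty => exact TGEN.zp_zero
  | insert a s ha ih => rw [Finset.sum_insert ha, Finset.prod_insert ha, TGEN.zp_add hC, ih]

variable (H k a u v d c) in
/-- the family with chosen roots -/
def fam : Fam (CO H k M) J :=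
  ⟨a, Finsupp.equivFunOnFinite.symm c, d, fun j => rtN (2 ^ k) (u j), fun j => rtN (2 ^ k) (v j)⟩

theorem rt_pow (x : Om) : rtN (2 ^ k) x ^ 2 ^ k = x :=
  TGEN.rtN_spec (exists_root x (by positivity))

theorem rt_ne {x : Om} (hx : x ≠ 0) : rtN (2 ^ k) x ≠ 0 := fun h => by
  have := rt_pow (k := k) x
  rw [h, zero_pow (by positivity)] at this
  exact hx this.symm

theorem fam_ok (hcy : ∀ g ∈ H, cy M g = 1) (hA : Act H a S) (hu : Eqi H a u) (hv : Eqi H a v)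
    (hd : ∀ g ∈ H, ∀ j, d (a g j) = d j) (hc : ∀ g ∈ H, ∀ j, c (a g j) = c j)
    (h0 : ∀ j, u j ≠ 0 ∧ v j ≠ 0) : (fam H k a u v d c).Ok := by
  refine ⟨hA.one, hA.mul, hc, fun g hg j => ?_, fun j _ => ⟨rt_ne (h0 j).1, rt_ne (h0 j).2⟩,
    fun g hg j _ => ?_, ?_⟩
  · exact (hd g hg j).trans (by rw [show (CO H k M).cy g = 1 from hcy g hg, mul_one]; rfl)
  · simp only [fam, rt_pow]
    exact ⟨hu g hg j, hv g hg j⟩
  · obtain ⟨T, hT⟩ := ((t_SMQ _ H).2.1 a).2 hA.sm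
    refine ⟨T, fun n hn h j _ => ?_⟩
    have := congrFun (hT 1 H.one_mem n hn h) j
    rwa [one_mul, hA.one] at this

theorem fam_im : (fam H k a u v d c).im = ∑ j, Finsupp.single (u j, v j, d j) (c j) := by
  rw [Fam.im, Finsupp.mapDomain, Finsupp.sum_fintype _ _ (by simp)]
  simp only [fam, rt_pow]
  rfl

end

end TFAMT

open TFAMT in
theorem t_FAMT (hTQX : TQX) (hORBS : ORBS) (hCORP : CORP) (hRVX : RVX) (hSYA : SYA) : FAMT := by
  classical
  intro H k M hL hM hd hcy J _ a S u v x d c hA hu hv hx hdc h0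
  obtain ⟨-, hsub, -, -, hE⟩ := hRVX H k hL
  obtain ⟨hC, hE⟩ := hE M hM hd
  have hF := fam_ok (k := k) hcy hA hu hv (fun g hg j => (hdc g hg j).1)
    (fun g hg j => (hdc g hg j).2) h0
  have hF1 := fam_ok (k := k) (c := fun _ => 1) hcy hA hu hv (fun g hg j => (hdc g hg j).1)
    (fun _ _ _ => rfl) h0
  have m1 : ∀ j, (fam H k a u v d fun _ => 1).m j ≠ 0 := fun _ => one_ne_zero
  obtain ⟨g1, g2⟩ := t_GEN _ _ _ hC
  obtain ⟨-, hI, hq⟩ := g2 _ _ hF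
  have hco := (g2 _ _ (g1 _ hI).1).1
  rw [fam_im] at hI hq hco
  refine ⟨hI, fun δ hδ => ?_⟩
  rw [← ((hE hcy _ hco).2 _ hq δ).2]
  obtain ⟨hS, ⟨R, hR⟩, hO⟩ := hORBS H hL.1 J a S hA
  set ρ := red (2 ^ k) δ⁻¹ with hρ
  let F1 := fam H k a u v d fun _ => 1
  let z : J → ℤ := fun j => if d j = δ then c j * ρ.val else 0
  let T : J → GQ → GQ → ZMod (2 ^ k) := fun j g h =>
    z j * (F1.kc F1.r g j * (red (2 ^ k) (cy M g) * F1.kc F1.r' h (a g⁻¹ j)))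
  have hz : ∀ g ∈ H, ∀ j, z (a g j) = z j := fun g hg j => by
    simp only [z, (hdc g hg j).1, (hdc g hg j).2]
  have r1 : ∀ g ∈ H, red (2 ^ k) (cy M g) = 1 := fun g hg => by
    rw [hcy g hg, TGEN.red_one hd hM]
  have hT : ∀ g h, (fam H k a u v d c).f g h δ = ∑ j, T j g h := fun g h => by
    rw [TGEN.f_eq, TGEN.L, Finsupp.sum_fintype _ _ (by simp)]
    refine Finset.sum_congr rfl fun j _ => ?_
    by_cases hj : d j = δ
    · rw [if_pos (show (fam H k a u v d c).dt j = δ from hj)]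
      simp only [T, z, if_pos hj, Int.cast_mul, Int.cast_natCast, ZMod.natCast_zmod_val]
      rfl
    · rw [if_neg (show ¬ (fam H k a u v d c).dt j = δ from hj)]
      simp only [T, z, if_neg hj, Int.cast_zero, zero_mul]
  have hfix : ∀ g ∈ H, ∀ y, g (TGEN.zp (CO H k M) y) = TGEN.zp (CO H k M) y :=
    fun g hg y => hL.2.pow _ g hg
  have hsm : ∀ j, Sm2 H fun g h => TGEN.zp (CO H k M) (T j g h) := fun j => by
    obtain ⟨P, hP⟩ := TGEN.exists_fix hC hF1 (TGEN.rt_r hF1) (TGEN.rt_r' hF1)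
    refine ((t_SMQ _ H).2.2 _).1 ⟨P, fun g hg h hh n hn hf => ⟨?_, ?_⟩⟩
    · obtain ⟨h1, h2⟩ := hP n hn hf g hg
      have h3 : a (g * n)⁻¹ j = a g⁻¹ j := (h2 j (m1 j)).1
      simp only [T, r1 g hg, r1 _ (mul_mem hg hn), h3, F1, (h2 j (m1 j)).2.1]
    · simp only [T, F1, ((hP n hn hf h hh).2 _ (m1 _)).2.2]
  have hcc : ∀ j, ∀ g ∈ H, ∀ h ∈ H, ∀ l ∈ H,
      g (TGEN.zp (CO H k M) (T (a g⁻¹ j) h l)) * TGEN.zp (CO H k M) (T j g (h * l)) =
        TGEN.zp (CO H k M) (T j (g * h) l) * TGEN.zp (CO H k M) (T j g h) := by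
    intro j g hg h hh l hl
    rw [hfix g hg, ← TGEN.zp_add hC, ← TGEN.zp_add hC]
    congr 1
    have h1 := TGEN.kc_mul hC hF1 (TGEN.rt_r hF1) hg hh (m1 j)
    have h2 := TGEN.kc_mul hC hF1 (TGEN.rt_r' hF1) hh hl (m1 (a g⁻¹ j))
    have h3 : a (g * h)⁻¹ j = a h⁻¹ (a g⁻¹ j) := TGEN.act_mul_inv hF1 hg hh j
    simp only [T, F1, h1, h2, h3, r1 g hg, r1 h hh, r1 _ (mul_mem hg hh), hz _ (inv_mem hg)]
    simp only [fam]
    ring
  obtain ⟨-, -, hnv⟩ := hCORP H hL.1 J a S (fun j g h => TGEN.zp (CO H k M) (T j g h)) R hA hR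
    (fun j g _ h _ => pow_ne_zero _ (TKLD.ec_ne a_EC.1 _)) hsm hcc
    fun r _ => ⟨k, Triv.one.congr fun g _ h _ => TGEN.zp_pow hC _⟩
  have e1 : (rv H k fun g h => (fam H k a u v d c).f g h δ) =
      nv w2 H fun g h => ∏ j, TGEN.zp (CO H k M) (T j g h) := by
    unfold rv
    congr 1
    funext g h
    beta_reduce
    rw [ec_zp (H := H) (M := M), hT, zp_sum hC]
  have hx' : Eqi H a fun j => if d j = δ then c j * x j else 0 := fun g hg j => by
    simp only [(hdc g hg j).1, (hdc g hg j).2, hx g hg j]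
    split_ifs <;> simp
  rw [e1, hnv, Finset.sum_filter, (hO R hR _ hx').2.2.2.2.1, TKLD.ec_sum a_EC.1,
    ← Finset.prod_pow]
  refine Finset.prod_congr rfl fun r _ => ?_
  have hLr := hsub _ (hS r).1 (hS r).2
  obtain ⟨-, -, -, hco0, hrv, -⟩ := (hSYA _ k hLr (u r) ((hO R hR _ hu).1 r) (h0 r).1).2.2 (v r)
    ((hO R hR _ hv).1 r) (h0 r).2
  have hCc := (hRVX _ k hLr).2.2.1
  obtain ⟨h1, h2⟩ := (hCc _ hco0).2.2.2.1 (z r)
  have h3 := ((hCc _ h1).2.2.2.2 (T r) (fun _ => 0) (Sm.const 0) fun g hg h hh => by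
    have k1 := ((hA.st r _).1 (inv_mem hg)).2
    have k2 := ((hA.st r _).1 (inv_mem hh)).2
    simp only [T, r1 g ((hS r).2 hg), k1, Pi.smul_apply, zsmul_eq_mul, Fam.kc, F1, fam, k2, km,
      one_mul, AlgEquiv.smul_def]
    simp).2
  have e2 : (nv w2 (S r) fun g h => TGEN.zp (CO H k M) (T r g h)) = rv (S r) k (T r) := by
    unfold rv
    congr 1
    funext g h
    rw [ec_zp (H := H) (M := M)]
  rw [e2, h3, h2, hrv]
  obtain ⟨t0, t1⟩ := hTQX.2.2.2.2 _ (hS r).1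
  by_cases hr : d r = δ
  · have := (t1 _ ((hO R hR _ hx).1 r)).2.2.2.2.1 (c r : ℚ)
    rw [Rat.cast_intCast, Rat.cast_intCast] at this
    simp only [z, if_pos hr]
    rw [hδ r hr, this, ec_int, zpow_mul, zpow_natCast]
  · simp only [z, if_neg hr]
    rw [t0, TKLD.ec0 a_EC.1, zpow_zero, one_pow]

end Pool.Agent.P.MP_9c97e9_nt.KT
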