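import Pool.Agent.P.MP_9c97e9_nt.KT.IfE
import Pool.Agent.P.MP_9c97e9_nt.KT.TBAS

/-! The logarithm of the norm. -/

namespace Pool.Agent.P.MP_9c97e9_nt.KT

open scoped NNReal
open MP_8b7eba_nt.R2
open Filter Topology

namespace TLOG

theorem tail {f : ℕ → ℂ_[2]} {s : ℂ_[2]} {X : ℕ} {ε : ℝ} (h0 : 0 ≤ ε)
    (h : Tendsto (fun X : ℕ => ∑ m ∈ Finset.Icc 1 X, f m) atTop (𝓝 s))
    (hf : ∀ m, X < m → ‖f m‖ ≤ ε) : ‖s - ∑ m ∈ Finset.Icc 1 X, f m‖ ≤ ε := by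
  refine le_of_tendsto (h.sub_const _).norm (eventually_atTop.2 ⟨X, fun Y hY => ?_⟩)
  rw [← Finset.sum_sdiff (Finset.Icc_subset_Icc_right hY), add_sub_cancel_right]
  refine IsUltrametricDist.norm_sum_le_of_forall_le_of_nonneg h0 fun m hm => hf m ?_
  simp only [Finset.mem_sdiff, Finset.mem_Icc] at hm
  omega

theorem nv (g : GQ) (hg : g ∈ w2.D) (x : Om) : ‖i2 (g x)‖ = w2.v x := by
  rw [← t_BAS.2.2.1, Pl.mem_D.1 hg]

theorem lg_inv (u : ℤ_[2]ˣ) : lg u⁻¹ = -lg u := by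
  have h1 : lg 1 = 0 := by simpa using a_LG.1.mul 1 1
  have h2 := a_LG.1.mul u u⁻¹
  rw [mul_inv_cancel, h1] at h2
  linear_combination -h2

end TLOG

open TLOG

theorem t_LOG (hTQX : TQX) (hPLOG : PLOG) (hLOG0 : LOG0) : LOG := by
  intro H hH
  have hr := hH.relIndex_ne le_rfl
  refine ⟨fun x y hx hy x0 y0 => ?_, fun z hz z1 X ε hε => ?_⟩
  · rw [LNm, LNm, LNm, nrm_mul hr, (a_ART.1 w2).mul _ _ (hx.nrm hr) (hy.nrm hr)
      (mt (nrm_eq_zero hr).1 x0) (mt (nrm_eq_zero hr).1 y0), a_LG.1.mul]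
    push_cast
    ring
  have := Nrm.ft hr
  have hx := (fix_one.sub hz).nrm hr
  have hv : w2.v (nrm w2.D H (1 - z)) = 1 := by
    rw [v_nrm hr le_rfl, w2.v.map_one_sub_of_lt z1, one_pow]
  have hu : (((art w2 (nrm w2.D H (1 - z)))⁻¹ : ℤ_[2]ˣ) : ℤ_[2]) = (q2 (nrm w2.D H (1 - z))) := by
    have h1 := hTQX.2.2.2.1 _ hx hv
    rw [← one_mul (q2 _), ← PadicInt.coe_one, ← Units.inv_mul (art w2 (nrm w2.D H (1 - z))),
      PadicInt.coe_mul, mul_assoc, h1, mul_one]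
  have h1 := ((continuous_algebraMap ℚ_[2] ℂ_[2]).tendsto _).comp
    (hPLOG.1 (art w2 (nrm w2.D H (1 - z)))⁻¹)
  choose S h2 h3 using fun q => hLOG0.1 (i2 (Nrm.ro w2.D H q z))
    (by rw [nv _ (Nrm.ro_mem q)]; exact_mod_cast z1)
  have h4 : algebraMap ℚ_[2] ℂ_[2] (LNm H (1 - z)) = ∑ q, S q := by
    rw [← neg_inj, ← map_neg, ← Finset.sum_neg_distrib, LNm, ← mul_neg, ← PadicInt.coe_neg, ← lg_inv]
    refine tendsto_nhds_unique (h1.congr fun n => ?_) (hLOG0.2.1 _ _ _ _ fun q _ => h3 q)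
    rw [Function.comp_apply, hu, map_div₀, map_sub, map_pow, map_pow, (hTQX.1 _ hx).1, map_one,
      map_ofNat, Nrm.prod, map_prod]
    simp only [map_sub, map_one]
  have h5 := ((hTQX.2.2.2.2 H hH).2 (∑ m ∈ Finset.Icc 1 X, z ^ m / m)
    (Fix.sum fun m _ => (hz.pow m).div (fix_nat m))).2.1
  rw [← norm_algebraMap' ℂ_[2], map_sub, h4, h5, csum, finsum_eq_sum_of_fintype, map_sum,
    ← Finset.sum_sub_distrib]
  refine IsUltrametricDist.norm_sum_le_of_forall_le_of_nonneg ε.2 fun q _ => ?_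
  have h6 := tail ε.2 (h2 q) (X := X) fun m hm => by
    have := nv _ (Nrm.ro_mem (H' := H) q) (z ^ m / m)
    rw [map_div₀, map_div₀, map_pow, map_pow, map_natCast, map_natCast] at this
    rw [this]
    exact_mod_cast hε m hm
  simp only [map_sum, map_div₀, map_pow, map_natCast]
  exact h6

end Pool.Agent.P.MP_9c97e9_nt.KT
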