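import Pool.Agent.P.MP_9c97e9_nt.KT.IfE

/-! Proof of ORBS. -/

namespace Pool.Agent.P.MP_9c97e9_nt.KT

open MP_8b7eba_nt.R2

namespace TORBS

variable {H : Subgroup GQ} {J : Type} {a : GQ → J → J} {S : J → Subgroup GQ}

theorem cancel (h : Act H a S) {g : GQ} (hg : g ∈ H) (j : J) : a g⁻¹ (a g j) = j := by
  rw [← h.mul _ (inv_mem hg) _ hg, inv_mul_cancel, h.one]

theorem reps [Fintype J] (h : Act H a S) : ∃ R, Reps H a R := by
  classical
  let s : Setoid J := ⟨fun i j => ∃ g ∈ H, a g i = j, fun j => ⟨1, one_mem _, h.one j⟩,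
    fun ⟨g, hg, e⟩ => ⟨g⁻¹, inv_mem hg, e ▸ cancel h hg _⟩,
    fun ⟨g, hg, e⟩ ⟨g', hg', e'⟩ => ⟨g' * g, mul_mem hg' hg, by rw [h.mul _ hg' _ hg, e, e']⟩⟩
  refine ⟨Finset.univ.image fun j => (Quotient.mk s j).out, fun j =>
    ⟨_, ⟨Finset.mem_image_of_mem _ (Finset.mem_univ j), Quotient.mk_out (s := s) j⟩, ?_⟩⟩
  rintro r ⟨hr, e⟩
  obtain ⟨i, -, rfl⟩ := Finset.mem_image.1 hr
  rw [← Quotient.sound (s := s) e, Quotient.out_eq]

theorem add_sum {φ : Om → ℚ_[2]} (h0 : φ 0 = 0)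
    (h1 : ∀ x y, Fix H x → Fix H y → φ (x + y) = φ x + φ y) (R : Finset J) (y : J → Om)
    (hy : ∀ r ∈ R, Fix H (y r)) : Fix H (∑ r ∈ R, y r) ∧ φ (∑ r ∈ R, y r) = ∑ r ∈ R, φ (y r) := by
  induction R using Finset.cons_induction with
  | empty => exact ⟨fun σ _ => map_zero σ, h0⟩
  | cons r R hr ih =>
    obtain ⟨h2, h3⟩ := ih fun i hi => hy i (Finset.mem_cons_of_mem hi)
    have h4 := hy r (Finset.mem_cons_self r R)
    rw [Finset.sum_cons, Finset.sum_cons, h1 _ _ h4 h2, h3]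
    exact ⟨fun σ hσ => by rw [map_add, h4 σ hσ, h2 σ hσ], rfl⟩

theorem mul_sum {φ : Om → ℚ_[2]}
    (h1 : ∀ x y, Fix H x → Fix H y → x ≠ 0 → y ≠ 0 → φ (x * y) = φ x + φ y) (R : Finset J)
    (y : J → Om) (hy : ∀ r ∈ R, Fix H (y r)) (h0 : ∀ r ∈ R, y r ≠ 0) :
    φ (∏ r ∈ R, y r) = ∑ r ∈ R, φ (y r) := by
  induction R using Finset.cons_induction with
  | empty => simpa using h1 1 1 (fun σ _ => map_one σ) (fun σ _ => map_one σ) one_ne_zero one_ne_zero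
  | cons r R hr ih =>
    have h2 := fun i hi => hy i (Finset.mem_cons_of_mem hi)
    have h3 := fun i hi => h0 i (Finset.mem_cons_of_mem hi)
    rw [Finset.prod_cons, Finset.sum_cons, h1 _ _ (hy r (Finset.mem_cons_self r R))
      (fun σ hσ => by rw [map_prod]; exact Finset.prod_congr rfl fun i hi => h2 i hi σ hσ)
      (h0 r (Finset.mem_cons_self r R)) (Finset.prod_ne_zero_iff.2 h3), ih h2 h3]

end TORBS

open TORBS

theorem t_ORBS (hTQX : TQX) (hLOG : LOG) : ORBS := by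
  classical
  intro H hH J _ a S h
  have hS : ∀ j, w2.Loc (S j) ∧ S j ≤ H := fun j => by
    obtain ⟨N, hN, e⟩ := h.sm
    have h1 : S j ≤ H := fun g hg => ((h.st j g).1 hg).1
    refine ⟨hH.of_le hN (fun n hn => (h.st j n).2 ⟨hn.2, ?_⟩) h1, h1⟩
    rw [← one_mul n, e 1 (one_mem _) n hn.2 hn.1, h.one]
  refine ⟨hS, reps h, fun R hR x hx => ?_⟩
  have hf : ∀ j, Fix (S j) (x j) := fun j g hg => by
    rw [← hx g ((h.st j g).1 hg).1, ((h.st j g).1 hg).2]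
  have hi : ∀ j, (S j).relIndex H ≠ 0 := fun j => (hS j).1.relIndex_ne hH.le
  have hD : ∀ j, (S j).relIndex w2.D ≠ 0 := fun j => (hS j).1.relIndex_ne le_rfl
  choose ρ h1 h2 using hR
  choose γ h3 h4 using fun j => (h1 j).2
  have k2 : ∀ r, ∀ i ∈ Finset.univ.filter fun i => ρ i = r,
      ∀ j ∈ Finset.univ.filter fun i => ρ i = r, (γ i)⁻¹ * γ j ∈ S r → i = j :=
    fun r i hi j hj e => by
      have e1 := congrArg (a (γ i)) ((h.st r _).1 e).2
      rw [← h.mul _ (h3 i) _ (mul_mem (inv_mem (h3 i)) (h3 j)), mul_inv_cancel_left] at e1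
      have e2 := h4 i
      have e3 := h4 j
      rw [(Finset.mem_filter.1 hi).2] at e2
      rw [(Finset.mem_filter.1 hj).2] at e3
      exact e2.symm.trans (e1.symm.trans e3)
  have k3 : ∀ r ∈ R, ∀ g ∈ H, ∃ i ∈ Finset.univ.filter fun i => ρ i = r, (γ i)⁻¹ * g ∈ S r :=
    fun r hr g hg => by
      have e := h2 (a g r) r ⟨hr, g, hg, rfl⟩
      refine ⟨a g r, Finset.mem_filter.2 ⟨Finset.mem_univ _, e.symm⟩,
        (h.st r _).2 ⟨mul_mem (inv_mem (h3 _)) hg, ?_⟩⟩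
      rw [h.mul _ (inv_mem (h3 _)) _ hg]
      exact (congrArg _ (h4 _).symm).trans ((cancel h (h3 _) _).trans e.symm)
  have k4 : ∀ r, ∀ i ∈ Finset.univ.filter fun i => ρ i = r, γ i (x r) = x i := fun r i hi => by
    rw [← (Finset.mem_filter.1 hi).2, ← hx _ (h3 i), h4]
  have ri : ∀ (G : Subgroup GQ) j, RI G (S j) fun g => g (x j) := fun G j s _ g _ hg => by
    simp only [AlgEquiv.mul_apply, hf j g hg]
  have e1 : ∏ j, x j = ∏ r ∈ R, nrm H (S r) (x r) := by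
    rw [← Finset.prod_fiberwise_of_maps_to (g := ρ) fun j _ => (h1 j).1]
    refine Finset.prod_congr rfl fun r hr => ?_
    rw [nrm_eq_prod _ γ (hf r) (fun i _ => h3 i) (k2 r) (k3 r hr)]
    exact (Finset.prod_congr rfl (k4 r)).symm
  have e2 : ∑ j, x j = ∑ r ∈ R, csum H (S r) fun g => g (x r) := by
    rw [← Finset.sum_fiberwise_of_maps_to (g := ρ) fun j _ => (h1 j).1]
    refine Finset.sum_congr rfl fun r hr => ?_
    rw [csum_eq_sum _ γ (ri H r) (fun i _ => h3 i) (k2 r) (k3 r hr)]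
    exact (Finset.sum_congr rfl (k4 r)).symm
  have m : ∀ (σ : GQ) r, σ (csum H (S r) fun g => g (x r)) =
      csum H (S r) fun g => (σ * g) (x r) := fun σ r =>
    map_csum (hi r) (σ : Om →+ Om) _
  obtain ⟨e3, e4⟩ := add_sum (hTQX.2.2.2.2 H hH).1
    (fun u v hu hv => (((hTQX.2.2.2.2 H hH).2 u hu).2.2.1 v hv).1) R
    (fun r => csum H (S r) fun g => g (x r)) fun r _ σ hσ => (m σ r).trans (csum_left (ri H r) hσ)
  refine ⟨hf, e2 ▸ e3, fun σ hσ => ?_, e1, ?_, fun h0 => ?_⟩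
  · rw [e1, map_prod]
    exact Finset.prod_congr rfl fun r _ => (hf r).nrm (hi r) σ hσ
  · rw [e2, e4]
    refine Finset.sum_congr rfl fun r _ => ?_
    simp only [trq, m, csum_trans hH.le (hS r).2 (hD r) (ri _ r)]
  · rw [e1, mul_sum (hLOG H hH).1 R _ (fun r _ => (hf r).nrm (hi r))
      fun r _ => mt (nrm_eq_zero (hi r)).1 (h0 r)]
    refine Finset.sum_congr rfl fun r _ => ?_
    rw [LNm, nrm_trans hH.le (hS r).2 (hD r) (hf r), LNm]

end Pool.Agent.P.MP_9c97e9_nt.KT
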