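import Pool.Agent.P.MP_9c97e9_nt.KT.IfE

/-! The logarithm of 2-adic units. -/

namespace Pool.Agent.P.MP_9c97e9_nt.KT

open scoped NNReal
open MP_8b7eba_nt.R2
open Filter Topology

namespace TPLOG

/-- the approximations of the logarithm -/
noncomputable def a (x : ℚ_[2]) (n : ℕ) : ℚ_[2] := (x ^ 2 ^ n - 1) / 2 ^ n

variable {x y L L' : ℚ_[2]} {ε : ℝ}

theorem n2 (n : ℕ) : ‖(2 ^ n : ℚ_[2])‖ = (2 ^ n)⁻¹ := by rw [norm_pow, SelA.two, inv_pow]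

theorem a_succ (x : ℚ_[2]) (n : ℕ) : a x (n + 1) - a x n = 2 ^ n / 2 * a x n ^ 2 := by
  rw [a, a, pow_succ 2 n, pow_mul]; field_simp; ring

theorem step {n : ℕ} (h : ‖a x n‖ ≤ ε) : ‖a x (n + 1) - a x n‖ ≤ 2 * ε ^ 2 * (1 / 2) ^ n := by
  rw [a_succ, norm_mul, norm_div, n2, SelA.two, norm_pow, one_div, inv_pow, div_inv_eq_mul,
    mul_assoc, mul_comm]
  gcongr

theorem le_two (ε : ℝ) (n : ℕ) : 2 * ε ^ 2 * (1 / 2) ^ n ≤ 2 * ε ^ 2 :=
  mul_le_of_le_one_right (by positivity) (pow_le_one₀ (by norm_num) (by norm_num))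

theorem a_le (h : ‖x - 1‖ ≤ ε) (h2 : ε ≤ 2⁻¹) (n : ℕ) : ‖a x n‖ ≤ ε := by
  induction n with
  | zero => simpa [a] using h
  | succ n ih =>
    rw [← sub_add_cancel (a x (n + 1)) (a x n)]
    refine SelA.add (((step ih).trans (le_two ε n)).trans ?_) ih
    nlinarith [(norm_nonneg _).trans h]

theorem ex (h : ‖x - 1‖ ≤ ε) (h2 : ε ≤ 2⁻¹) :
    ∃ L, Tendsto (a x) atTop (𝓝 L) ∧ ‖L‖ ≤ ε ∧ ‖L - (x - 1)‖ ≤ 2 * ε ^ 2 := by
  obtain ⟨L, hL⟩ := cauchySeq_tendsto_of_complete (cauchySeq_of_le_geometric (1 / 2) (2 * ε ^ 2)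
    (by norm_num) (f := a x) fun n => by rw [dist_comm, dist_eq_norm]; exact step (a_le h h2 n))
  refine ⟨L, hL, le_of_tendsto' hL.norm (a_le h h2), le_of_tendsto' (hL.sub_const _).norm fun n => ?_⟩
  induction n with
  | zero => simp [a]; positivity
  | succ n ih =>
    rw [← sub_add_sub_cancel _ (a x n)]
    exact SelA.add ((step (a_le h h2 n)).trans (le_two ε n)) ih

theorem mul (h : Tendsto (a x) atTop (𝓝 L)) (h' : Tendsto (a y) atTop (𝓝 L')) :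
    Tendsto (a (x * y)) atTop (𝓝 (L + L')) := by
  have := (h.add h').add ((tendsto_pow_atTop_nhds_zero_of_norm_lt_one (x := (2 : ℚ_[2]))
    (by rw [SelA.two]; norm_num)).mul (h.mul h'))
  rw [zero_mul, add_zero] at this
  refine this.congr fun n => ?_
  rw [a, a, a, mul_pow]; field_simp; ring

theorem neg (h : Tendsto (a (-x)) atTop (𝓝 L)) : Tendsto (a x) atTop (𝓝 L) := by
  refine h.congr' ((eventually_ne_atTop 0).mono fun n hn => ?_)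
  rw [a, a, (Nat.even_pow.2 ⟨even_two, hn⟩).neg_pow]

theorem dv {z : ℤ_[2]} {m : ℕ} (h : 2 ^ m ∣ z) : ‖(z : ℚ_[2])‖ ≤ (2 ^ m)⁻¹ := by
  obtain ⟨c, rfl⟩ := h
  push_cast
  rw [norm_mul, show ((2 : ℤ_[2]) : ℚ_[2]) = 2 from rfl, n2]
  exact mul_le_of_le_one_right (by positivity) c.2

theorem hf {m : ℕ} (h : 1 ≤ m) : ((2 : ℝ) ^ m)⁻¹ ≤ 2⁻¹ :=
  inv_anti₀ two_pos (le_self_pow₀ one_le_two (by omega))

theorem ex' (u : ℤ_[2]ˣ) {n : ℕ} (h : 2 ^ n ∣ lg u) :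
    ∃ L, Tendsto (a (u : ℤ_[2])) atTop (𝓝 L) ∧ ‖L‖ ≤ (2 ^ (n + 2))⁻¹ := by
  rcases (a_LG.1.dvd n u).1 h with h | h
  · exact (ex (by simpa using dv h) (hf (by omega))).imp fun L e => ⟨e.1, e.2.1⟩
  · exact (ex (x := -((u : ℤ_[2]) : ℚ_[2])) (by
      rw [← neg_add', norm_neg]; simpa using dv h) (hf (by omega))).imp fun L e => ⟨neg e.1, e.2.1⟩

theorem ex5 : ∃ u : ℤ_[2]ˣ, (u : ℤ_[2]) = 5 := by
  refine PadicInt.isUnit_iff.2 (le_antisymm (PadicInt.norm_le_one _) (not_lt.1 fun e => ?_))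
  have := (PadicInt.norm_int_lt_one_iff_dvd (p := 2) 5).1 (by simpa using e)
  norm_num at this

theorem isL5 : IsL5 l5 := by
  obtain ⟨f, hf⟩ := ex5
  obtain ⟨c, c1, c2⟩ := ex' f (n := 0) (by simp)
  refine Classical.epsilon_spec (p := IsL5) ⟨c, fun u => ?_⟩
  obtain ⟨L, h1, -⟩ := ex' u (n := 0) (by simp)
  have p : ∀ (j : ℕ) (w : ℤ_[2]ˣ) L, Tendsto (a (w : ℤ_[2])) atTop (𝓝 L) →
      lg (w * f ^ j) = lg w + j ∧ Tendsto (a ((w * f ^ j :) : ℤ_[2])) atTop (𝓝 (L + c * j)) :=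
    fun j w L h => by
    induction j with
    | zero => simpa using h
    | succ j ih =>
      rw [pow_succ, ← mul_assoc, a_LG.1.mul, ih.1, a_LG.1.five f hf, Units.val_mul,
        PadicInt.coe_mul, Nat.cast_succ, Nat.cast_succ, mul_add, mul_one, add_assoc, ← add_assoc L]
      exact ⟨rfl, mul ih.2 c1⟩
  have key : ∀ n : ℕ, ‖L - c * lg u‖ ≤ (1 / 2) ^ n := fun n => by
    have h2 := Ideal.mem_span_singleton.1 (PadicInt.appr_spec n (lg u))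
    obtain ⟨L0, h0, -⟩ := ex' (u * (f ^ (lg u).appr n)⁻¹) (n := 0) (by simp)
    obtain ⟨h3, h4⟩ := p ((lg u).appr n) _ _ h0
    rw [inv_mul_cancel_right] at h3 h4
    rw [← sub_eq_iff_eq_add] at h3
    obtain ⟨L1, h5, h6⟩ := ex' _ (h3 ▸ h2)
    have h7 := dv h2
    rw [tendsto_nhds_unique h1 h4, tendsto_nhds_unique h0 h5, one_div, inv_pow,
      show L1 + c * ((lg u).appr n : ℕ) - c * lg u =
        L1 + -c * ((lg u - (lg u).appr n : ℤ_[2]) : ℚ_[2]) by push_cast; ring]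
    refine SelA.add (h6.trans (inv_anti₀ (by positivity) (pow_le_pow_right₀ one_le_two (by omega))))
      ?_
    rw [norm_mul, norm_neg]
    exact (mul_le_of_le_one_left (norm_nonneg _) (c2.trans (by norm_num))).trans h7
  have : L = c * lg u := sub_eq_zero.1 (norm_le_zero_iff.1 (ge_of_tendsto'
    (tendsto_pow_atTop_nhds_zero_of_lt_one (by norm_num) (by norm_num)) key))
  exact this ▸ h1

theorem near (u : ℤ_[2]ˣ) (m : ℕ) (hm : 2 ≤ m) (h : 2 ^ m ∣ (u : ℤ_[2]) - 1) :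
    ‖l5 * lg u - (((u : ℤ_[2]) : ℚ_[2]) - 1)‖ ≤ 2 * (4 ^ m)⁻¹ := by
  obtain ⟨L, h1, -, h2⟩ := ex (x := ((u : ℤ_[2]) : ℚ_[2])) (by simpa using dv h) (hf (m := m) (by omega))
  rwa [tendsto_nhds_unique h1 (isL5 u), inv_pow, ← pow_mul, mul_comm m, pow_mul,
    show (2 : ℝ) ^ 2 = 4 by norm_num] at h2

end TPLOG

open TPLOG in
theorem t_PLOG : PLOG := by
  refine ⟨isL5, ?_, near⟩
  obtain ⟨f, hf⟩ := ex5
  have h := near f 2 le_rfl (by rw [hf]; norm_num)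
  rw [a_LG.1.five f hf, hf, PadicInt.coe_one, mul_one,
    show ((5 : ℤ_[2]) : ℚ_[2]) - 1 = 2 ^ 2 by rw [show ((5 : ℤ_[2]) : ℚ_[2]) = 5 from rfl]; norm_num]
    at h
  have h2 := n2 2
  rw [← sub_add_cancel l5 (2 ^ 2), IsUltrametricDist.norm_add_eq_max_of_norm_ne_norm
    (by rw [h2]; exact (h.trans_lt (by norm_num)).ne), h2, max_eq_right (h.trans (by norm_num))]
  norm_num

end Pool.Agent.P.MP_9c97e9_nt.KT
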