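import Pool.Agent.P.MP_9c97e9_nt.KT.IfE
import Pool.Agent.P.MP_8b7eba_nt.R2.AllA

/-! Roots of order a power of two. -/

namespace Pool.Agent.P.MP_9c97e9_nt.KT

open scoped NNReal
open MP_8b7eba_nt.R2

namespace TPOW

lemma ec_nat (n : ℕ) (x : ℚ_[2]) : ec (n * x) = ec x ^ n := by
  induction n with
  | zero => simpa using (a_EC.1.eq_one 0).2 (by simp)
  | succ n ih => rw [Nat.cast_succ, add_mul, one_mul, a_EC.1.add, ih, pow_succ]

lemma root {H : Subgroup GQ} (hH : H ≤ w2.D) (k : ℕ) : ∀ x, Fix H x →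
    w2.v (x - 1) ≤ (2 ^ (k + 2))⁻¹ → ∃ r, Fix H r ∧ r ^ 2 ^ k = x := by
  have v2 : w2.v 2 = 2⁻¹ := Pl.v_two' rfl
  have v4 : w2.v 4 = (2 ^ 2)⁻¹ := by
    rw [show (4 : Om) = 2 ^ 2 by norm_num, map_pow, v2, inv_pow]
  induction k with
  | zero => exact fun x hx _ => ⟨x, hx, by simp⟩
  | succ k ih =>
    intro x hx h
    obtain ⟨y, h1, h2, -, h3⟩ := (a_HENS w2 H hH).1 x hx (h.trans_lt (by
      rw [v4]
      exact inv_strictAnti₀ (by positivity) (pow_lt_pow_right₀ one_lt_two (by omega))))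
    obtain ⟨r, r1, r2⟩ := ih y h1 (by
      rw [← h3, v2, show k + 1 + 2 = k + 2 + 1 from rfl, pow_succ, mul_inv] at h
      exact le_of_mul_le_mul_right h (by positivity))
    exact ⟨r, r1, by rw [pow_succ, pow_mul, r2, h2]⟩

end TPOW

theorem t_POW : POW := by
  refine fun H k hH => ⟨TPOW.root hH k, fun x o ho hx => ?_, fun h => ⟨_, h, ?_⟩⟩
  · obtain ⟨j, hj⟩ := Nat.exists_mul_mod_eq_of_coprime 1
      (Nat.Coprime.pow_left k ho.coprime_two_left) ho.pos.ne'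
    refine ⟨j, ?_⟩
    rw [← pow_mul, mul_comm, pow_eq_pow_mod _ hx, hj.2, ← pow_eq_pow_mod _ hx, pow_one]
  · have e : ((2 ^ k : ℕ) : ℚ_[2]) * (2 ^ (k + 1))⁻¹ = 2⁻¹ := by
      push_cast
      rw [pow_succ]
      field_simp
    rw [← TPOW.ec_nat, e]
    refine (sq_eq_one_iff.1 ?_).resolve_left fun h => ?_
    · rw [← TPOW.ec_nat, a_EC.1.eq_one]
      simp
    · rw [a_EC.1.eq_one, norm_inv] at h
      have : ‖(2 : ℚ_[2])‖ = 2⁻¹ := by simpa using Padic.norm_p (p := 2)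
      rw [this] at h
      norm_num at h

end Pool.Agent.P.MP_9c97e9_nt.KT
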