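import Pool.Agent.P.MP_9c97e9_nt.KT.IfE

/-! Proof of RESX. -/

namespace Pool.Agent.P.MP_9c97e9_nt.KT

open scoped NNReal
open MP_8b7eba_nt.R2

theorem t_RESX : RESX := by
  intro H H' f h h' le hf
  obtain ⟨-, -, -, g4, -⟩ := a_LG
  have m0 : ∀ n : ℕ, 2 ^ n ≠ 0 := fun n => by positivity
  obtain ⟨n, hn⟩ := a_DIEK w2 H f h hf
  have ch : IsCh H (Ps n) := (g4 n).1.mono le_top
  have ke : IsKer H (H ⊓ KP n) (Ps n) := fun g =>
    and_congr_right fun _ => ((g4 n).2.2.1 g).trans (and_iff_right trivial)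
  obtain ⟨a, ha, a0, t⟩ := a_CYC1 H _ _ _ h.closed (m0 n) ch ke f hf.1 (hn n le_rfl)
  obtain ⟨c1, c2, c3, -⟩ := a_CUP H a ha a0 _ _ (m0 n) ch
  have pw : ∀ m : ℕ, cup (Ps n) (a ^ m) = cup (Ps n) a ^ m := fun m => by
    induction m with
    | zero =>
      rw [pow_zero, pow_zero]
      exact funext fun _ => funext fun _ => ite_self _
    | succ m ih => rw [pow_succ', c3, ih, pow_succ']
  have ri := h'.relIndex_ne h.le
  rw [a_INV2.1 w2 H' f _ h' (hf.mono le) (c1.mono le) (t.mono le),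
    a_INV2.1 w2 H f _ h hf c1 t, (a_INV w2 H' h').cup n a (ha.mono le) a0,
    ← TINV2.nv_pow (a_INV w2 H h) ⟨c1, n, c2⟩, ← pw,
    (a_INV w2 H h).cup n _ (ha.pow _) (pow_ne_zero _ a0), sv, sv, ← nrm_of_fix ri ha,
    nrm_trans h.le le (h'.relIndex_ne le_rfl) (ha.mono le)]

end Pool.Agent.P.MP_9c97e9_nt.KT
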