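import Pool.Agent.P.MP_9c97e9_nt.KT.IfE
import Pool.Agent.P.MP_9c97e9_nt.KT.TBAS
import Pool.Agent.P.MP_9c97e9_nt.KT.TGEN
import Pool.Agent.P.MP_9c97e9_nt.KT.TSMQ
import Pool.Agent.P.MP_9c97e9_nt.KT.TCYB
import Pool.Agent.P.MP_8b7eba_nt.R2.AllA

/-! The invariant of cocycles with values in the residues. -/

namespace Pool.Agent.P.MP_9c97e9_nt.KT

open scoped NNReal
open MP_8b7eba_nt.R2

namespace TRVX

lemma ec_zero : ec 0 = 1 := (a_EC.1.eq_one 0).2 (by simp)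

lemma ec_nat (n : ℕ) (x : ℚ_[2]) : ec (n * x) = ec x ^ n := by
  induction n with
  | zero => simp [ec_zero]
  | succ n ih => rw [Nat.cast_succ, add_mul, one_mul, a_EC.1.add, ih, pow_succ]

lemma ec_div (n k : ℕ) : ec ((n : ℚ_[2]) / 2 ^ k) = ec (2 ^ k)⁻¹ ^ n := by
  rw [div_eq_mul_inv, ec_nat]

lemma prim (k : ℕ) : IsPrimitiveRoot (ec (2 ^ k)⁻¹) (2 ^ k) := by
  refine ⟨?_, fun l hl => ?_⟩
  · rw [← ec_div, a_EC.1.eq_one]
    push_cast
    rw [div_self (pow_ne_zero _ two_ne_zero), norm_one]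
  · rw [← ec_div, a_EC.1.eq_one, norm_div, 
      div_le_one (norm_pos_iff.2 (pow_ne_zero _ two_ne_zero))] at hl
    have h1 : ‖((l : ℤ) : ℚ_[2])‖ ≤ (2 : ℕ) ^ (-k : ℤ) := by
      rw [← Padic.norm_p_pow]
      exact_mod_cast hl
    exact_mod_cast (Padic.norm_int_le_pow_iff_dvd _ _).1 h1

/-- the character of the residues -/
noncomputable def ee (k : ℕ) (a : ZMod (2 ^ k)) : Om := ec ((a.val : ℚ_[2]) / 2 ^ k)

variable {H : Subgroup GQ} {k : ℕ}

lemma ee_add (a b : ZMod (2 ^ k)) : ee k (a + b) = ee k a * ee k b := by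
  rw [ee, ee, ee, ec_div, ec_div, ec_div, ZMod.val_add, ← pow_add,
    ← pow_eq_pow_mod _ (prim k).pow_eq_one]

lemma ee_pow (a : ZMod (2 ^ k)) : ee k a ^ 2 ^ k = 1 := by
  rw [ee, ec_div, ← pow_mul, mul_comm, pow_mul, (prim k).pow_eq_one, one_pow]

lemma ee_ne (a : ZMod (2 ^ k)) : ee k a ≠ 0 := fun h => by
  have := ee_pow a
  rw [h, zero_pow (by positivity)] at this
  exact zero_ne_one this

lemma ee_zero : ee k 0 = 1 := by simp [ee, ec_zero]

lemma ee_fix (h : LH H k) (a : ZMod (2 ^ k)) : Fix H (ee k a) := by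
  rw [ee, ec_div]
  exact h.2.pow _

variable {φ φ' : GQ → GQ → ZMod (2 ^ k)}

lemma co2 (h : LH H k) (hφ : Co0 H φ) : Co2T H fun g h => ee k (φ g h) :=
  Co2T.of_pow ⟨fun _ _ _ _ => ee_ne _, hφ.1.comp _, fun g hg h hh l hl => by
    rw [ee_fix ‹_› _ g hg, ← ee_add, ← ee_add, hφ.2 g hg h hh l hl]⟩ fun _ _ _ _ => ee_pow _

lemma rv_pow (h : LH H k) (hφ : Co0 H φ) : rv H k φ ^ 2 ^ k = 1 :=
  a_INV2.2.1 w2 H _ k h.1 (co2 h hφ).1 (Triv.one.congr fun _ _ _ _ => ee_pow _)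

lemma rv_ne (h : LH H k) (hφ : Co0 H φ) : rv H k φ ≠ 0 := fun e => by
  have := rv_pow h hφ
  rw [e, zero_pow (by positivity)] at this
  exact zero_ne_one this

lemma co_add (hφ : Co0 H φ) (hφ' : Co0 H φ') : Co0 H (φ + φ') :=
  ⟨hφ.1.comp₂ hφ'.1 (· + ·), fun g hg h hh l hl => by
    simp only [Pi.add_apply]
    linear_combination hφ.2 g hg h hh l hl + hφ'.2 g hg h hh l hl⟩

lemma rv_add (h : LH H k) (hφ : Co0 H φ) (hφ' : Co0 H φ') :
    rv H k (φ + φ') = rv H k φ * rv H k φ' := by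
  refine Eq.trans ?_ ((a_INV w2 H h.1).mul _ _ (co2 h hφ) (co2 h hφ'))
  unfold rv
  congr 1
  funext g h
  exact ee_add _ _

lemma co_smul (hφ : Co0 H φ) (c : ℤ) : Co0 H (c • φ) :=
  ⟨hφ.1.comp (c • ·), fun g hg h hh l hl => by
    simp only [Pi.smul_apply, zsmul_eq_mul]
    linear_combination (c : ZMod (2 ^ k)) * hφ.2 g hg h hh l hl⟩

lemma co_zero : Co0 H (0 : GQ → GQ → ZMod (2 ^ k)) :=
  ⟨(Sm.const (0 : ZMod (2 ^ k))).fst, fun _ _ _ _ _ _ => rfl⟩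

lemma rv_zero (h : LH H k) : rv H k 0 = 1 := by
  have e := rv_add h co_zero co_zero
  rw [add_zero] at e
  exact (mul_eq_left₀ (rv_ne h co_zero)).1 e.symm

lemma rv_smul (h : LH H k) (hφ : Co0 H φ) (c : ℤ) : rv H k (c • φ) = rv H k φ ^ c := by
  induction c using Int.induction_on with
  | zero => rw [zero_smul, rv_zero h, zpow_zero]
  | succ n ih =>
    rw [add_smul, one_smul, rv_add h (co_smul hφ _) hφ, ih, zpow_add_one₀ (rv_ne h hφ)]
  | pred n ih =>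
    have e := rv_add h (co_smul hφ (-n - 1)) hφ
    rw [show (-(n : ℤ) - 1) • φ + φ = (-(n : ℤ)) • φ by rw [sub_smul, one_smul, sub_add_cancel],
      ih] at e
    rw [zpow_sub_one₀ (rv_ne h hφ), e, mul_inv_cancel_right₀ (rv_ne h hφ)]

lemma cob (h : LH H k) (hφ : Co0 H φ) {β : GQ → ZMod (2 ^ k)} (hβ : Sm H β)
    (e : ∀ g ∈ H, ∀ h ∈ H, φ' g h - φ g h = β h - β (g * h) + β g) :
    Co0 H φ' ∧ rv H k φ' = rv H k φ := by
  have c : Co0 H φ' := ⟨(hφ.1.comp₂ ((hβ.snd.comp₂ hβ.mul2 (· - ·)).comp₂ hβ.fst (· + ·))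
    (· + ·)).congr fun g hg l hl => by linear_combination e g hg l hl,
    fun g hg h hh l hl => by
      have e1 := e g hg _ (mul_mem hh hl)
      have e2 := e _ (mul_mem hg hh) l hl
      rw [← mul_assoc] at e1
      linear_combination hφ.2 g hg h hh l hl + e h hh l hl + e1 - e2 - e g hg h hh⟩
  refine ⟨c, a_INV2.1 w2 H _ _ h.1 (co2 h c) (co2 h hφ).1
    ⟨fun g => ee k (β g), hβ.comp _, fun _ _ => ee_ne _, fun g hg l hl => ?_⟩⟩
  show ee k (φ' g l) / ee k (φ g l) * ee k (β (g * l)) = ee k (β g) * g (ee k (β l))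
  rw [ee_fix h _ g hg, div_mul_eq_mul_div, div_eq_iff (ee_ne _), ← ee_add, ← ee_add, ← ee_add]
  congr 1
  linear_combination e g hg l hl

end TRVX

open TRVX

theorem t_RVX : RVX := by
  intro H k h
  refine ⟨fun j hj => ⟨h.1, ?_⟩, fun H' hl hle => ⟨hl, h.2.mono hle⟩,
    fun φ hφ => ⟨co2 h hφ, rv_pow h hφ, fun φ' hφ' => ⟨co_add hφ hφ', rv_add h hφ hφ'⟩,
      fun c => ⟨co_smul hφ c, rv_smul h hφ c⟩, fun φ' β hβ e => cob h hφ hβ e⟩,
    fun ι s φ hφ => ?_, fun M hM hd => ⟨?_, fun hc f hf => ?_⟩⟩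
  · obtain ⟨d, rfl⟩ := Nat.exists_eq_add_of_le hj
    have e := h.2.pow (2 ^ d)
    rw [← ec_div] at e
    convert e using 2
    push_cast
    field_simp
    ring
  · classical
    induction s using Finset.induction_on with
    | empty => exact ⟨co_zero, rv_zero h⟩
    | insert a s ha ih =>
      obtain ⟨i1, i2⟩ := ih fun i hi => hφ i (Finset.mem_insert_of_mem hi)
      have i0 := hφ a (Finset.mem_insert_self _ _)
      rw [Finset.sum_insert ha, Finset.prod_insert ha, ← i2]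
      exact ⟨co_add i0 i1, rv_add h i0 i1⟩
  · refine ⟨hd, hM, prim k, fun g _ l _ => map_mul _ g l, fun g _ => t_BAS.2.1 M hM g _ ?_,
      ((t_SMQ _ H).2.1 _).2 ⟨_, TCYB.on hM, fun g _ n _ hn => ?_⟩, (t_SMQ Unit H).1⟩
    · obtain ⟨c, rfl⟩ := hd
      rw [pow_mul, (prim k).pow_eq_one, one_pow]
    · show cy M (g * n) = cy M g
      rw [map_mul, MonoidHom.mem_ker.1 hn, mul_one]
  · have ac : ∀ g ∈ H, ∀ F, (CO H k M).ac g F = F := fun g hg F => by
      funext d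
      show red (2 ^ k) (cy M g) * F (d * (cy M g)⁻¹) = F d
      rw [hc g hg, TGEN.red_one hd hM, inv_one, mul_one, one_mul]
    have c : ∀ δ, Co0 H fun g h => f g h δ := fun δ =>
      ⟨(((t_SMQ _ H).2.2 f).1 hf.sm).comp fun F => F δ, fun g hg l hl m hm => by
        have e := hf.co g hg l hl m hm
        rw [ac g hg] at e
        exact congrFun e δ⟩
    refine ⟨c, fun f' ⟨β, hβ, e⟩ δ => cob h (c δ) (β := fun g => β g δ)
      ((((t_SMQ _ H).2.1 β).1 hβ).comp fun F => F δ) fun g hg l hl => ?_⟩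
    have e1 := e g hg l hl
    rw [Cx.d1, ac g hg] at e1
    exact congrFun e1 δ

end Pool.Agent.P.MP_9c97e9_nt.KT
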