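import Pool.Agent.P.MP_9c97e9_nt.KT.IfE

/-! The symbol of two binomials. -/

namespace Pool.Agent.P.MP_9c97e9_nt.KT

open scoped NNReal
open MP_8b7eba_nt.R2
open Filter Topology

namespace TSB

open PowerSeries

variable {ω t : Om} {a a' κ : ℤ} {c c' k K X : ℕ} {H : Subgroup GQ}

theorem ph_mul (h0 : ω ≠ 0) (hc : 0 < c) (a : ℤ) :
    ph ω a c * (1 - C (ω ^ a) * PowerSeries.X ^ c) = C (ω ^ a) * PowerSeries.X ^ c := by
  ext m
  rw [mul_sub, mul_one, mul_left_comm, map_sub, coeff_C_mul, coeff_C_mul, coeff_mul_X_pow',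
    coeff_X_pow]
  simp only [ph, coeff_mk]
  rcases lt_or_ge m c with h | h
  · rw [if_neg fun e => (Nat.le_of_dvd (Nat.pos_of_ne_zero e.2) e.1).not_gt h, if_neg h.not_ge,
      if_neg h.ne, mul_zero, sub_self]
  obtain ⟨j, rfl⟩ := Nat.exists_eq_add_of_le h
  rw [if_pos h, Nat.add_sub_cancel_left, Nat.add_div_left _ hc]
  rcases eq_or_ne j 0 with rfl | e
  · simp [hc.ne']
  by_cases e' : c ∣ j
  · simp [e, e', mul_add, zpow_add₀ h0, mul_comm]
  · simp [e, e']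

theorem ph_id (h0 : ω ≠ 0) (hc : 0 < c) (hc' : 0 < c') (a a' : ℤ) :
    ph ω a c * ph ω a' c' = ph ω a c * ph ω (a + a') (c + c') +
      ph ω (a + a') (c + c') * ph ω a' c' + ph ω (a + a') (c + c') := by
  have h1 := ph_mul h0 hc a
  have h2 := ph_mul h0 hc' a'
  have h3 := ph_mul h0 (add_pos hc hc') (a + a')
  have h4 : (1 - C (ω ^ (a + a')) * PowerSeries.X ^ (c + c') : PowerSeries Om) ≠ 0 := fun e => by
    simpa [hc.ne'] using congrArg constantCoeff e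
  rw [zpow_add₀ h0, pow_add, map_mul, mul_mul_mul_comm] at h3 h4
  refine mul_right_cancel₀ h4 ?_
  linear_combination ph ω a' c' * h1 + C (ω ^ a) * PowerSeries.X ^ c * (1 + ph ω a c) * h2 -
    (ph ω a c + ph ω a' c' + 1) * h3

theorem Iv_add (P Q : PowerSeries Om) : Iv X (P + Q) t = Iv X P t + Iv X Q t := by
  simp only [Iv, map_add, add_mul, add_div, Finset.sum_add_distrib]

theorem Iv_zero (h0 : ω ≠ 0) (hc : 0 < c) (hc' : 0 < c') (h : X < c + c') :
    Iv X (ph ω a c * ph ω a' c') t = 0 := by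
  have k1 : ∀ a c, 0 < c → PowerSeries.X ^ c ∣ ph ω a c := fun a c hc =>
    ⟨C (ω ^ a) * (1 + ph ω a c), by linear_combination ph_mul h0 hc a⟩
  have k2 := mul_dvd_mul (k1 a c hc) (k1 a' c' hc')
  rw [← pow_add, X_pow_dvd_iff] at k2
  refine Finset.sum_eq_zero fun m hm => ?_
  rw [k2 m ((Finset.mem_Icc.1 hm).2.trans_lt h), zero_mul, zero_div]

theorem small (h : Mo H k K X ω κ t) (hv : w2.v ω = 1) (hc : 0 < c) (a : ℤ) :
    Fix H (ω ^ a * t ^ c) ∧ w2.v (ω ^ a * t ^ c) < 1 ∧ 1 - ω ^ a * t ^ c ≠ 0 ∧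
      (X < 2 * c → w2.v (1 - ω ^ a * t ^ c - 1) ≤ (2 ^ (k + 2))⁻¹) := by
  have e : w2.v (ω ^ a * t ^ c) = w2.v (t ^ c) := by rw [map_mul, map_zpow₀, hv, one_zpow, one_mul]
  have l : w2.v (ω ^ a * t ^ c) < 1 := by
    rw [e, map_pow]; exact pow_lt_one₀ zero_le h.lt hc.ne'
  refine ⟨(h.fo.zpow a).mul (h.ft.pow c), l, fun e => ?_, fun hX => ?_⟩
  · rw [← sub_eq_zero.1 e, map_one] at l
    exact l.false
  · rw [sub_sub_cancel_left, Valuation.map_neg, e,
      ← div_mul_cancel₀ (t ^ c) (Nat.cast_ne_zero.2 hc.ne' : (c : Om) ≠ 0), map_mul]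
    exact (mul_le_of_le_one_right zero_le (w2.v_nat_le c)).trans ((h.cut c hX).trans
      (inv_anti₀ (by positivity) (pow_le_pow_right₀ one_le_two (by have := h.le; omega))))

theorem rel (hSYA : SYA) (hSYB : SYB) (h : LH H k) (h' : LH H (k + 1)) {A B : Om} (fA : Fix H A)
    (fB : Fix H B) (A0 : A ≠ 0) (U0 : 1 - A ≠ 0) (V0 : 1 - B ≠ 0) (W0 : 1 - A * B ≠ 0) :
    sy H k (1 - A) (1 - B) * sy H k A (1 - A * B) =
      sy H k (1 - A) (1 - A * B) * sy H k (1 - A * B) (1 - B) := by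
  have fU := fix_one.sub fA
  have fV := fix_one.sub fB
  have fW := fix_one.sub (fA.mul fB)
  have fx := fU.div fW
  have fy := (fA.mul fV).div fW
  have x0 := div_ne_zero U0 W0
  have y0 := div_ne_zero (mul_ne_zero A0 V0) W0
  have e : 1 - (1 - A) / (1 - A * B) = A * (1 - B) / (1 - A * B) := by field_simp; ring
  have m := fun u hu u0 v hv v0 => ((hSYA H k h u hu u0).2.2 v hv v0).2.2.2.2.2.1
  have an := fun u hu u0 v hv v0 => ((hSYA H k h u hu u0).2.2 v hv v0).2.2.1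
  have h1 := ((hSYB H k h).2 _ fx x0).1 fun e' => y0 (by rw [← e, e', sub_self])
  have h2 := ((hSYB H k h).2 _ fA A0).1 fun e' => U0 (by rw [e', sub_self])
  have h3 := ((hSYB H k h).2 _ fW W0).2.2 h'
  have h4 := an _ fA A0 _ fU U0
  have h5 := an _ fA A0 _ fW W0
  have h6 := (m _ fU U0 _ fA A0 _ fV V0).1
  have h7 := (m _ fU U0 _ fy y0 _ fW W0).1
  have h8 := (m _ fy y0 _ fx x0 _ fW W0).2
  have h9 := (m _ fW W0 _ fy y0 _ fW W0).1
  have h10 := (m _ fW W0 _ fA A0 _ fV V0).1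
  rw [div_mul_cancel₀ _ W0] at h7 h8 h9
  rw [e] at h1
  rw [h2, one_mul] at h4
  rw [h4, one_mul, h7, h8, h1, one_mul] at h6
  rw [h3, mul_one, h10] at h9
  rw [← h6, ← h9]
  linear_combination sy H k (1 - A * B) (1 - B) * sy H k (1 - A) (1 - A * B) * h5

end TSB

open TSB

theorem t_SB (hTQX : TQX) (hSYA : SYA) (hSYB : SYB) (hPOW : POW) (hAH3 : AH3) (hRVX : RVX) :
    SB := by
  intro H k K X ω κ t h a a' c c' hc hc' ho
  obtain ⟨w0, wv, -, hA⟩ := hAH3 H k K X ω κ t h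
  have hk := (hRVX H K h.lh).1 k (by have := h.le; omega)
  have hk' := (hRVX H K h.lh).1 (k + 1) (by have := h.le; omega)
  obtain ⟨q0, hq⟩ := hTQX.2.2.2.2 H h.lh.1
  obtain ⟨d, hd⟩ : ∃ d, X < c + c' + d := ⟨X, by omega⟩
  induction d generalizing a a' c c' with
  | zero =>
    obtain ⟨f1, -, n1, p1⟩ := small h wv hc a
    obtain ⟨f2, -, n2, p2⟩ := small h wv hc' a'
    rw [Iv_zero w0 hc hc' hd, q0, mul_zero, zero_div, (a_EC.1.eq_one 0).2 (by simp)]
    refine ⟨fix_zero, by simp, ?_⟩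
    rcases le_total c c' with e | e
    · exact (((hSYA H k hk _ (fix_one.sub f1) n1).2.2 _ (fix_one.sub f2) n2).2.2.2.2.2.2.2
        ((hPOW H k h.lh.1.le).1 _ (fix_one.sub f2) (p2 (by omega)))).1
    · exact (((hSYA H k hk _ (fix_one.sub f2) n2).2.2 _ (fix_one.sub f1) n1).2.2.2.2.2.2.2
        ((hPOW H k h.lh.1.le).1 _ (fix_one.sub f1) (p1 (by omega)))).2
  | succ d ih =>
    have e1 : a * (c + c' : ℕ) - (a + a') * c = a * c' - a' * c := by push_cast; ring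
    have e2 : (a + a') * c' - a' * (c + c' : ℕ) = a * c' - a' * c := by push_cast; ring
    obtain ⟨f1, b1, s1⟩ := ih a (a + a') c (c + c') hc (add_pos hc hc') (e1 ▸ ho) (by omega)
    obtain ⟨f2, b2, s2⟩ := ih (a + a') a' (c + c') c' (add_pos hc hc') hc' (e2 ▸ ho) (by omega)
    obtain ⟨f3, b3, s3⟩ := hA (a + a') (c + c') (add_pos hc hc') (by
      by_contra hn
      rw [not_or, Int.not_odd_iff_even, Nat.not_odd_iff_even] at hn
      exact Int.not_odd_iff_even.2 (e1 ▸ ((hn.2.natCast.mul_left a).sub (hn.1.mul_right _))) ho)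
    have s4 := s3 a c
    have e3 : ω ^ (a + a') * t ^ (c + c') = ω ^ a * t ^ c * (ω ^ a' * t ^ c') := by
      rw [zpow_add₀ w0, pow_add]; ring
    have r := rel hSYA hSYB hk hk' (small h wv hc a).1 (small h wv hc' a').1
      (mul_ne_zero (zpow_ne_zero _ w0) (pow_ne_zero _ h.ne)) (small h wv hc a).2.2.1
      (small h wv hc' a').2.2.1 (e3 ▸ (small h wv (add_pos hc hc') (a + a')).2.2.1)
    rw [zpow_natCast] at s4
    rw [← e3, s1, s2, s4, ← a_EC.1.add] at r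
    rw [ph_id w0 hc hc', Iv_add, Iv_add, ((hq _ (f1.add f2)).2.2.1 _ f3).1,
      ((hq _ f1).2.2.1 _ f2).1]
    refine ⟨(f1.add f2).add f3, SelA.add (SelA.add b1 b2) b3,
      mul_right_cancel₀ (TKLD.ec_ne a_EC.1 _) (r.trans ?_)⟩
    rw [← a_EC.1.add]
    congr 1
    push_cast
    ring

end Pool.Agent.P.MP_9c97e9_nt.KT
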