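import Pool.Agent.P.MP_9c97e9_nt.KT.IfE
import Pool.Agent.P.MP_9c97e9_nt.KT.TGEN

/-! The Kummer character and the bilinearity of the local symbol. -/

namespace Pool.Agent.P.MP_9c97e9_nt.KT

open MP_8b7eba_nt.R2

namespace TSYA

variable {H : Subgroup GQ} {k : ℕ} {u v v' r : Om} {g : GQ}

/-- the root of unity attached to a residue -/
noncomputable def E (a : ZMod (2 ^ k)) : Om := ec ((a.val : ℚ_[2]) / 2 ^ k)

theorem E_eq (H : Subgroup GQ) (a : ZMod (2 ^ k)) : E a = TGEN.zp (CO H k (2 ^ k)) a := by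
  rw [E, TGEN.zp, div_eq_mul_inv, TPIX.ec_pow a_EC.1]

theorem ok (hR : RVX) (h : LH H k) : (CO H k (2 ^ k)).Ok :=
  ((hR H k h).2.2.2.2 (2 ^ k) (by positivity) dvd_rfl).1

theorem rt_pow (k : ℕ) (u : Om) : rtN (2 ^ k) u ^ 2 ^ k = u :=
  TGEN.rtN_spec (exists_root u (by positivity))

theorem r_ne (hr : r ^ 2 ^ k = u) (u0 : u ≠ 0) : r ≠ 0 := fun e =>
  u0 (by rw [← hr, e, zero_pow (by positivity)])

theorem E_fix (h : LH H k) (a : ZMod (2 ^ k)) : Fix H (E a) := E_eq H a ▸ h.2.pow _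

section

variable (hR : RVX) (h : LH H k)
include hR h

theorem E_add (a b : ZMod (2 ^ k)) : E (a + b) = E a * E b := by
  rw [E_eq H, E_eq H, E_eq H]
  exact TGEN.zp_add (ok hR h) a b

theorem E_inj {a b : ZMod (2 ^ k)} (e : E a = E b) : a = b :=
  TGEN.zp_inj (ok hR h) (by rwa [E_eq H, E_eq H] at e)

theorem E_mul (a b : ZMod (2 ^ k)) : E (a * b) = E a ^ b.val := by
  have e := TGEN.zp_nat (ok hR h) (a.val * b.val)
  rw [Nat.cast_mul, ZMod.natCast_zmod_val, ZMod.natCast_zmod_val] at e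
  rw [E_eq H, E_eq H, e, TGEN.zp, ← pow_mul]

theorem root_fix (hr : r ^ 2 ^ k = 1) : Fix H r := by
  rw [← TGEN.dlo_spec (ok hR h) hr, ← E_eq H]
  exact E_fix h _

theorem km_spec (hu : Fix H u) (u0 : u ≠ 0) (hr : r ^ 2 ^ k = u) (hg : g ∈ H) :
    g r / r = E (km k u g) := by
  have a := rt_pow k u
  have a0 := r_ne a u0
  have r0 := r_ne hr u0
  have b := root_fix hR h (r := r / rtN (2 ^ k) u) (by rw [div_pow, hr, a, div_self u0]) g hg
  rw [E_eq H, km]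
  refine .trans ?_ (TGEN.dlo_spec (ok hR h) (x := g (rtN (2 ^ k) u) / rtN (2 ^ k) u) (by
    change _ ^ 2 ^ k = 1
    rw [div_pow, ← map_pow, a, hu g hg, div_self u0])).symm
  rw [map_div₀, div_eq_div_iff ((map_ne_zero g).2 a0) a0] at b
  rw [div_eq_div_iff r0 a0, b, mul_comm]

theorem isCh (hu : Fix H u) (u0 : u ≠ 0) : IsCh H (km k u) := by
  refine ⟨(sm_apply (rtN (2 ^ k) u)).comp fun y => dlo (ec (2 ^ k)⁻¹) (2 ^ k) (y / rtN (2 ^ k) u),
    fun g hg l hl => E_inj hR h ?_⟩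
  have a := rt_pow k u
  have a0 := (map_ne_zero g).2 (r_ne a u0)
  rw [E_add hR h, ← E_fix h (km k u l) g hg, ← km_spec hR h hu u0 a hg, ← km_spec hR h hu u0 a hl,
    ← km_spec hR h hu u0 a (mul_mem hg hl), map_div₀, AlgEquiv.mul_apply]
  field_simp

theorem co0 (hu : Fix H u) (u0 : u ≠ 0) (hv : Fix H v) (v0 : v ≠ 0) :
    Co0 H fun g l => km k u g * km k v l := by
  have a := isCh hR h hu u0
  have b := isCh hR h hv v0
  refine ⟨a.1.fst.comp₂ b.1.snd (· * ·), fun g hg l hl m hm => ?_⟩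
  simp only [a.2 g hg l hl, b.2 l hl m hm]
  ring

theorem co2 (hu : Fix H u) (u0 : u ≠ 0) (hv : Fix H v) (v0 : v ≠ 0) :
    Co2T H (cup (km k u) v) :=
  have a := a_CUP H v hv v0 _ _ (by positivity) (isCh hR h hu u0)
  ⟨a.1, k, a.2.1⟩

theorem rv_eq (hu : Fix H u) (u0 : u ≠ 0) (hv : Fix H v) (v0 : v ≠ 0) :
    (rv H k fun g l => km k u g * km k v l) = sy H k u v := by
  have a := ((a_CUP H v hv v0 _ _ (by positivity) (isCh hR h hu u0)).2.2.2.2.2.2 _ (rt_pow k v)).2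
  refine (a_INV2.1 w2 H _ _ h.1 (co2 hR h hu u0 hv v0)
    ((hR H k h).2.2.1 _ (co0 hR h hu u0 hv v0)).1.1 (a.congr fun g hg l hl => ?_)).symm
  simp only [Pi.div_apply]
  rw [km_spec hR h hv v0 (rt_pow k v) hl, E_fix h _ g hg, ← E_mul hR h, mul_comm]
  rfl

theorem anti (hu : Fix H u) (u0 : u ≠ 0) (hv : Fix H v) (v0 : v ≠ 0) :
    sy H k u v * sy H k v u = 1 := by
  have a := ((a_CUP H v hv v0 _ _ (by positivity) (isCh hR h hu u0)).2.2.2.2.2.2 _ (rt_pow k v)).1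
  have b := ((hR H k h).2.2.1 _ (co0 hR h hv v0 hu u0)).1
  have c := co2 hR h hu u0 hv v0
  rw [← rv_eq hR h hv v0 hu u0, sy, rv, ← (a_INV w2 H h.1).mul _ _ c b]
  refine (a_INV w2 H h.1).triv _ (c.mul b).1 (a.congr fun g hg l _ => ?_)
  simp only [Pi.mul_apply]
  rw [km_spec hR h hv v0 (rt_pow k v) hg, ← E_mul hR h]
  rfl

theorem mulr (hu : Fix H u) (u0 : u ≠ 0) (hv : Fix H v) (v0 : v ≠ 0) (hv' : Fix H v')
    (v0' : v' ≠ 0) : sy H k u (v * v') = sy H k u v * sy H k u v' := by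
  rw [sy, (a_CUP H v hv v0 _ _ (by positivity) (isCh hR h hu u0)).2.2.1 v']
  exact (a_INV w2 H h.1).mul _ _ (co2 hR h hu u0 hv v0) (co2 hR h hu u0 hv' v0')

theorem inv (hu : Fix H u) (u0 : u ≠ 0) (hv : Fix H v) (v0 : v ≠ 0) :
    sy H k v u = (sy H k u v)⁻¹ := eq_inv_of_mul_eq_one_right (anti hR h hu u0 hv v0)

theorem pw (hu : Fix H u) (u0 : u ≠ 0) (v0 : v ≠ 0) (hr : Fix H r) (e : r ^ 2 ^ k = v) :
    sy H k u v = 1 ∧ sy H k v u = 1 := by
  have hv : Fix H v := e ▸ hr.pow _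
  have a : ∀ g ∈ H, km k v g = 0 := fun g hg => E_inj hR h (by
    rw [← km_spec hR h hv v0 e hg, hr g hg, div_self (r_ne e v0), E_eq H, TGEN.zp_zero])
  have b : sy H k v u = 1 := (a_INV w2 H h.1).triv _ (co2 hR h hv v0 hu u0).1
    (Triv.one.congr fun g hg l hl => by
      rw [cup, a g hg, a l hl, if_neg (by simp)]
      rfl)
  exact ⟨by simpa [b] using anti hR h hu u0 hv v0, b⟩

theorem zpw (hu : Fix H u) (u0 : u ≠ 0) (hv : Fix H v) (v0 : v ≠ 0) (m : ℤ) :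
    sy H k u (v ^ m) = sy H k u v ^ m := by
  have s0 := left_ne_zero_of_mul_eq_one (anti hR h hu u0 hv v0)
  have st : ∀ m : ℤ, sy H k u (v ^ (m + 1)) = sy H k u (v ^ m) * sy H k u v := fun m => by
    rw [zpow_add_one₀ v0, mulr hR h hu u0 (hv.zpow m) (zpow_ne_zero m v0) hv v0]
  induction m using Int.induction_on with
  | zero => simpa using (pw hR h hu u0 one_ne_zero fix_one (one_pow _)).1
  | succ m ih => rw [st, ih, zpow_add_one₀ s0]
  | pred m ih =>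
    have := st (-m - 1)
    rw [sub_add_cancel, ih] at this
    rw [zpow_sub_one₀ s0, this, mul_inv_cancel_right₀ s0]

end

end TSYA

open TSYA in
theorem t_SYA (hRVX : RVX) : SYA := fun H k h u hu u0 =>
  ⟨isCh hRVX h hu u0, fun _ hr _ hg => km_spec hRVX h hu u0 hr hg, fun v hv v0 =>
    ⟨co2 hRVX h hu u0 hv v0,
      let ⟨a, _⟩ := co2 hRVX h hu u0 hv v0
      a_INV2.2.1 w2 H _ k h.1 a (a_CUP H v hv v0 _ _ (by positivity) (isCh hRVX h hu u0)).2.1,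
      anti hRVX h hu u0 hv v0, co0 hRVX h hu u0 hv v0, rv_eq hRVX h hu u0 hv v0,
      fun v' hv' v0' => ⟨mulr hRVX h hu u0 hv v0 hv' v0', by
        rw [inv hRVX h hu u0 (hv.mul hv') (mul_ne_zero v0 v0'), mulr hRVX h hu u0 hv v0 hv' v0',
          inv hRVX h hu u0 hv v0, inv hRVX h hu u0 hv' v0', mul_inv]⟩,
      fun m => ⟨zpw hRVX h hu u0 hv v0 m, by
        rw [inv hRVX h hu u0 (hv.zpow m) (zpow_ne_zero m v0), zpw hRVX h hu u0 hv v0,
          inv hRVX h hu u0 hv v0, inv_zpow]⟩,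
      fun ⟨_, hr, e⟩ => pw hRVX h hu u0 v0 hr e⟩⟩

end Pool.Agent.P.MP_9c97e9_nt.KT
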