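import Pool.Agent.P.MP_9c97e9_nt.KT.IfE

/-! The symbol of two products. -/

namespace Pool.Agent.P.MP_9c97e9_nt.KT

open scoped NNReal
open MP_8b7eba_nt.R2
open Filter Topology

namespace TSYF

variable {H : Subgroup GQ} {k K X : ℕ} {x x' y ω t u : Om} {z z' : ℚ_[2]} {κ : ℤ}

theorem det {N x y x' y' p p' a c a' c' Δ : ℤ} (h1 : N ∣ x - p * a) (h2 : N ∣ y - p * c)
    (h3 : N ∣ x' - p' * a') (h4 : N ∣ y' - p' * c') (h5 : N ∣ Δ - (a * c' - a' * c)) :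
    N ∣ x * y' - x' * y - p * p' * Δ := by
  have := (((h1.mul_right y').add (h4.mul_left (p * a))).sub
    ((h3.mul_right y).add (h2.mul_left (p' * a')))).sub (h5.mul_left (p * p'))
  exact this.trans (dvd_of_eq (by ring))

theorem odd_of {m n : ℤ} (hk : 0 < k) (h : 2 ^ k ∣ m - n) (hn : Odd n) : Odd m := by
  have := (even_iff_two_dvd.2 ((dvd_pow_self 2 hk.ne').trans h)).add_odd hn
  rwa [sub_add_cancel] at this

theorem odd_or {a b c : ℤ} {d : ℕ} (h : Odd (a * d - c * b)) : Odd c ∨ Odd d := by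
  by_contra e
  rw [not_or, Int.not_odd_iff_even, Nat.not_odd_iff_even, ← Int.even_coe_nat] at e
  exact Int.not_odd_iff_even.2 ((e.2.mul_left a).sub (e.1.mul_right b)) h

theorem ec0 : ec 0 = 1 := (a_EC.1.eq_one 0).2 (by simp)

theorem ec_neg (z : ℚ_[2]) : ec z * ec (-z) = 1 := by rw [← a_EC.1.add, add_neg_cancel, ec0]

theorem ec_zpow (m : ℤ) (z : ℚ_[2]) : ec (m * z) = ec z ^ m := by
  have h0 := left_ne_zero_of_mul_eq_one (ec_neg z)
  induction m using Int.induction_on with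
  | zero => simp [ec0]
  | succ n ih => rw [Int.cast_add, add_mul, a_EC.1.add, ih, zpow_add₀ h0]; simp
  | pred n ih =>
    rw [Int.cast_sub, sub_mul, sub_eq_add_neg, a_EC.1.add, ih, zpow_sub₀ h0, Int.cast_one, one_mul,
      zpow_one, eq_div_iff h0, mul_assoc, mul_comm (ec (-z)), ec_neg, mul_one]

/-- the value of a symbol -/
def R (H : Subgroup GQ) (k K : ℕ) (x y : Om) (z : ℚ_[2]) : Prop :=
  (Fix H x ∧ x ≠ 0) ∧ (Fix H y ∧ y ≠ 0) ∧ sy H k x y = ec (z / 2 ^ (K + k))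

theorem R.eq (h : R H k K x y z) (e : z = z') : R H k K x y z' := e ▸ h

theorem R.cg {T : ℚ_[2]} (h : R H k K x y z) (n n' : ℤ) (e : z = n * T) (hT : ‖T‖ ≤ (2 ^ K)⁻¹)
    (hd : 2 ^ k ∣ n - n') : R H k K x y (n' * T) := by
  obtain ⟨d, hd⟩ := hd
  refine ⟨h.1, h.2.1, h.2.2.trans (ec_congr a_EC ?_)⟩
  have h2 : ‖(2 : ℚ_[2])‖ = 2⁻¹ := by simpa using Padic.norm_p (p := 2)
  rw [e, ← sub_div, ← sub_mul, ← Int.cast_sub, hd, show ((2 ^ k * d : ℤ) : ℚ_[2]) * T / 2 ^ (K + k) =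
    d * T / 2 ^ K by push_cast; rw [pow_add]; field_simp, norm_div, norm_mul, norm_pow, h2,
    div_le_one (by positivity), inv_pow]
  exact (mul_le_of_le_one_left (norm_nonneg _) (Padic.norm_int_le_one d)).trans hT

section

variable (hA : SYA) (hk : LH H k)
include hA hk

theorem R.swap (h : R H k K x y z) : R H k K y x (-z) := by
  refine ⟨h.2.1, h.1, ?_⟩
  have := ((hA H k hk x h.1.1 h.1.2).2.2 y h.2.1.1 h.2.1.2).2.2.1
  rw [h.2.2, ← ec_neg (z / 2 ^ (K + k))] at this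
  rw [neg_div]
  exact mul_left_cancel₀ (left_ne_zero_of_mul_eq_one (ec_neg _)) this

theorem R.mul (h : R H k K x y z) (h' : R H k K x' y z') : R H k K (x * x') y (z + z') :=
  ⟨⟨h.1.1.mul h'.1.1, mul_ne_zero h.1.2 h'.1.2⟩, h.2.1, by
    rw [(((hA H k hk y h.2.1.1 h.2.1.2).2.2 x h.1.1 h.1.2).2.2.2.2.2.1 x' h'.1.1 h'.1.2).2,
      h.2.2, h'.2.2, add_div, a_EC.1.add]⟩

theorem R.zpow (h : R H k K x y z) (m : ℤ) : R H k K (x ^ m) y (m * z) :=
  ⟨⟨h.1.1.zpow m, zpow_ne_zero m h.1.2⟩, h.2.1, by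
    rw [(((hA H k hk y h.2.1.1 h.2.1.2).2.2 x h.1.1 h.1.2).2.2.2.2.2.2.1 m).2, h.2.2,
      mul_div_assoc, ec_zpow]⟩

theorem pw (hy : Fix H y ∧ y ≠ 0) (h0 : x ≠ 0) (h : ∃ r, Fix H r ∧ r ^ 2 ^ k = x) :
    R H k K x y 0 := by
  have hx : Fix H x := by obtain ⟨r, a, rfl⟩ := h; exact a.pow _
  exact ⟨⟨hx, h0⟩, hy, by
    rw [(((hA H k hk y hy.1 hy.2).2.2 x hx h0).2.2.2.2.2.2.2 h).2, zero_div, ec0]⟩

theorem prod {ι : Type} (s : Finset ι) {x : ι → Om} {z : ι → ℚ_[2]} (hy : Fix H y ∧ y ≠ 0)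
    (h : ∀ i ∈ s, R H k K (x i) y (z i)) : R H k K (∏ i ∈ s, x i) y (∑ i ∈ s, z i) := by
  classical
  induction s using Finset.induction_on with
  | empty => simpa using pw hA hk hy one_ne_zero ⟨1, fix_one, one_pow _⟩
  | insert a s ha ih =>
    rw [Finset.prod_insert ha, Finset.sum_insert ha]
    exact (h a (Finset.mem_insert_self _ _)).mul hA hk
      (ih fun i hi => h i (Finset.mem_insert_of_mem hi))

theorem left (hP : POW) (h1 : LH H (k + 1)) {ι : Type} {s : Finset ι} {B : ι → Om} {e : ι → ℤ}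
    {ε m m' : Om} (hu : Fix H u) (hε : ε = 1 ∨ ε = -1)
    (hv : w2.v (u / (ε * m * m' * ∏ i ∈ s, B i ^ e i) - 1) ≤ (2 ^ (k + 2))⁻¹)
    {z : ι → ℚ_[2]} (h0 : R H k K (m * m') y z') (h : ∀ i ∈ s, R H k K (B i) y (z i)) :
    R H k K u y (z' + ∑ i ∈ s, e i * z i) := by
  have r := h0.mul hA hk (prod hA hk s h0.2.1 fun i hi => (h i hi).zpow hA hk (e i))
  obtain ⟨p1, -, p3⟩ := hP H k hk.1.le
  have r1 : R H k K ε y 0 := by
    rcases hε with rfl | rfl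
    exacts [pw hA hk h0.2.1 one_ne_zero ⟨1, fix_one, one_pow _⟩,
      pw hA hk h0.2.1 (by norm_num) (p3 h1.2)]
  have r2 := r1.mul hA hk r
  rw [← mul_assoc, ← mul_assoc] at r2
  have r3 := (pw (K := K) hA hk h0.2.1 (fun e0 => by
    rw [e0, zero_sub, Valuation.map_neg, map_one] at hv
    exact absurd hv (not_le.2 (inv_lt_one_of_one_lt₀ (one_lt_pow₀ one_lt_two (by omega)))))
    (p1 _ (hu.div r2.1.1) hv)).mul hA hk r2
  rw [div_mul_cancel₀ _ r2.1.2] at r3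
  exact r3.eq (by ring)

end

/-- the integral as an additive map -/
noncomputable def IvH (X : ℕ) (t : Om) : PowerSeries Om →+ Om :=
  AddMonoidHom.mk' (fun P => Iv X P t) fun P Q => by
    simp only [Iv, map_add, add_mul, add_div, Finset.sum_add_distrib]

theorem iv_int (n : ℤ) : IvH X t n = 0 :=
  show Iv X n t = 0 from Finset.sum_eq_zero fun m hm => by
    have := (Finset.mem_Icc.1 hm).1
    rw [← map_intCast (PowerSeries.C (R := Om)), PowerSeries.coeff_C, if_neg (by omega), zero_mul, zero_div]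

theorem iv_congr {P Q P' Q' : PowerSeries Om}
    (h : ∀ m ≤ X, PowerSeries.coeff m P = PowerSeries.coeff m Q)
    (h' : ∀ m ≤ X, PowerSeries.coeff m P' = PowerSeries.coeff m Q') :
    Iv X (P * P') t = IvH X t (Q * Q') :=
  Finset.sum_congr rfl fun m hm => by
    have := (Finset.mem_Icc.1 hm).2
    rw [PowerSeries.coeff_mul, PowerSeries.coeff_mul, Finset.sum_congr rfl fun p hp => by
      have := Finset.HasAntidiagonal.mem_antidiagonal.1 hp
      rw [h p.1 (by omega), h' p.2 (by omega)]]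

/-- fixed elements with a small trace -/
def Gd (H : Subgroup GQ) (K : ℕ) (x : Om) (z : ℚ_[2]) : Prop :=
  Fix H x ∧ trq H x = z ∧ ‖z‖ ≤ (2 ^ K)⁻¹

section

variable (hT : TQX) (hH : w2.Loc H)
include hT hH

theorem Gd.add (h : Gd H K x z) (h' : Gd H K x' z') : Gd H K (x + x') (z + z') :=
  ⟨h.1.add h'.1, by rw [(((hT.2.2.2.2 H hH).2 x h.1).2.2.1 x' h'.1).1, h.2.1, h'.2.1],
    (Padic.nonarchimedean _ _).trans (max_le h.2.2 h'.2.2)⟩

theorem Gd.smul (h : Gd H K x z) (n : ℤ) : Gd H K (n • x) (n * z) := by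
  have := ((hT.2.2.2.2 H hH).2 x h.1).2.2.2.2.1 n
  rw [Rat.cast_intCast, Rat.cast_intCast, h.2.1] at this
  rw [zsmul_eq_mul]
  refine ⟨(fix_int n).mul h.1, this, ?_⟩
  rw [norm_mul]
  exact (mul_le_of_le_one_left (norm_nonneg _) (Padic.norm_int_le_one n)).trans h.2.2

theorem gsum {ι : Type} (s : Finset ι) {x : ι → Om} {z : ι → ℚ_[2]}
    (h : ∀ i ∈ s, Gd H K (x i) (z i)) : Gd H K (∑ i ∈ s, x i) (∑ i ∈ s, z i) := by
  classical
  induction s using Finset.induction_on with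
  | empty => exact ⟨fix_zero, (hT.2.2.2.2 H hH).1, by simp⟩
  | insert a s ha ih =>
    rw [Finset.sum_insert ha, Finset.sum_insert ha]
    exact (h a (Finset.mem_insert_self _ _)).add hT hH
      (ih fun i hi => h i (Finset.mem_insert_of_mem hi))

end

theorem bin (h : Mo H k K X ω κ t) (h1 : w2.v ω = 1) (a : ℤ) {c : ℕ} (hc : 0 < c) :
    Fix H (1 - ω ^ a * t ^ c) ∧ 1 - ω ^ a * t ^ c ≠ 0 :=
  ⟨fix_one.sub ((h.fo.zpow a).mul (h.ft.pow c)), fun e => by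
    have := congrArg w2.v (sub_eq_zero.1 e)
    rw [map_one, map_mul, map_zpow₀, h1, one_zpow, one_mul, map_pow] at this
    exact (pow_lt_one₀ zero_le h.lt hc.ne').ne' this⟩

end TSYF

open TSYF in
theorem t_SYF (hTQX : TQX) (hSYA : SYA) (hSYB : SYB) (hPOW : POW) (hAH1 : AH1) (hAH3 : AH3)
    (hSB : SB) (hRVX : RVX) : SYF := by
  intro H k K X ω κ t h u v a c J a' c' J' Δ P P' hu hv
    ⟨ι, s, A, C, e, σ, ε, A₀, C₀, hε, hA, hC, hs, hw, hP⟩
    ⟨ι', s', A', C', e', σ', ε', A₀', C₀', hε', hA', hC', hs', hw', hP'⟩ hΔ hd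
  have hle := h.le
  have hk : LH H k := (hRVX H K h.lh).1 k (by omega)
  have hk1 : LH H (k + 1) := (hRVX H K h.lh).1 _ (by omega)
  obtain ⟨o0, o1, o2, o3⟩ := hAH3 H k K X ω κ t h
  have uo : Fix H ω ∧ ω ≠ 0 := ⟨h.fo, o0⟩
  have ut : Fix H t ∧ t ≠ 0 := ⟨h.ft, h.ne⟩
  have hL := (hAH1 H k K hle h.lh t h.ft h.ne).1
  have self : ∀ {x}, Fix H x ∧ x ≠ 0 → R H k K x x 0 := fun hx =>
    ⟨hx, hx, by rw [((hSYB H k hk).2 _ hx.1 hx.2).2.2 hk1, zero_div, ec0]⟩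
  have ot : R H k K ω t (κ * LNm H t) := ⟨uo, ut, o2⟩
  rw [mul_comm] at hA hC hA' hC'
  have hd' : 2 ^ k ∣ -Δ - (a' * c - a * c') := by
    exact hd.neg_right.trans (dvd_of_eq (by ring))
  have mm : R H k K (ω ^ A₀' * t ^ C₀') (ω ^ A₀ * t ^ C₀) ((κ * (J' * J * -Δ) : ℤ) * LNm H t) :=
    (((((((self uo).zpow hSYA hk A₀).mul hSYA hk ((ot.swap hSYA hk).zpow hSYA hk C₀)).swap hSYA
      hk).zpow hSYA hk A₀').mul hSYA hk (((((ot.zpow hSYA hk A₀).mul hSYA hk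
      ((self ut).zpow hSYA hk C₀)).swap hSYA hk).zpow hSYA hk C₀')))).cg
      (κ * (A₀' * C₀ - A₀ * C₀')) _ (by push_cast; ring) hL
      (by rw [← mul_sub]; exact (det hA' hC' hA hC hd').mul_left κ)
  have z0 : ∀ n : ℤ, (2 : ℤ) ^ k ∣ n - 1 * n := fun n => by simp
  have od : ∀ i ∈ s, Odd (A i) ∨ Odd (C i) := fun i hi =>
    odd_or (odd_of h.pos (det (z0 a') (z0 c') (hs i hi).2.2.1 (hs i hi).2.2.2 hd')
      ((odd_one.mul (hs i hi).2.1).mul hΔ.neg))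
  have od' : ∀ i ∈ s', Odd (A' i) ∨ Odd (C' i) := fun i hi =>
    odd_or (odd_of h.pos (det (z0 a) (z0 c) (hs' i hi).2.2.1 (hs' i hi).2.2.2 hd)
      ((odd_one.mul (hs' i hi).2.1).mul hΔ))
  have um : ∀ a c : ℤ, Fix H (ω ^ a * t ^ c) ∧ ω ^ a * t ^ c ≠ 0 := fun a c =>
    ⟨(h.fo.zpow a).mul (h.ft.zpow c), mul_ne_zero (zpow_ne_zero _ o0) (zpow_ne_zero _ h.ne)⟩
  have q := fun i hi => o3 (A i) (C i) (hs i hi).1 (od i hi)
  have q' := fun i hi => o3 (A' i) (C' i) (hs' i hi).1 (od' i hi)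
  have dd := fun i hi j hj =>
    det (hs i hi).2.2.1 (hs i hi).2.2.2 (hs' j hj).2.2.1 (hs' j hj).2.2.2 hd
  have qq := fun i hi j hj => hSB H k K X ω κ t h (A i) (A' j) (C i) (C' j) (hs i hi).1
    (hs' j hj).1 (odd_of h.pos (dd i hi j hj) (((hs i hi).2.1.mul (hs' j hj).2.1).mul hΔ))
  have r1 := (left hSYA hk hPOW hk1 hv hε' hw' mm fun j hj =>
    (R.cg ⟨um _ _, bin h o1 _ (hs' j hj).1, (q' j hj).2.2 A₀ C₀⟩ (κ * (A₀ * C' j - A' j * C₀))
      (κ * (J * σ' j * Δ)) (by push_cast; ring) (q' j hj).2.1 (by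
        rw [← mul_sub]
        exact (det hA hC (hs' j hj).2.2.1 (hs' j hj).2.2.2 hd).mul_left κ)).swap hSYA hk).swap
    hSYA hk
  have r2 := left hSYA hk hPOW hk1 hu hε hw r1 fun i hi =>
    (left hSYA hk hPOW hk1 hv hε' hw'
      (R.cg ⟨um _ _, bin h o1 _ (hs i hi).1, (q i hi).2.2 A₀' C₀'⟩
        (κ * (A₀' * C i - A i * C₀')) (κ * (J' * σ i * -Δ)) (by push_cast; ring) (q i hi).2.1 (by
        rw [← mul_sub]
        exact (det hA' hC' (hs i hi).2.2.1 (hs i hi).2.2.2 hd').mul_left κ))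
      fun j hj => (R.cg ⟨bin h o1 _ (hs i hi).1, bin h o1 _ (hs' j hj).1, (qq i hi j hj).2.2⟩
        (-κ * (A i * C' j - A' j * C i)) (-κ * (σ i * σ' j * Δ)) (by push_cast; ring)
        (qq i hi j hj).2.1 (by rw [← mul_sub]; exact (dd i hi j hj).mul_left _)).swap hSYA
        hk).swap hSYA hk
  have hH := h.lh.1
  have g := (((gsum hTQX hH s' fun j hj => Gd.smul hTQX hH ⟨(q' j hj).1, rfl, (q' j hj).2.1⟩
    (e' j * σ' j)).smul hTQX hH (-J)).add hTQX hH ((gsum hTQX hH s fun i hi =>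
      Gd.smul hTQX hH ⟨(q i hi).1, rfl, (q i hi).2.1⟩ (e i * σ i)).smul hTQX hH (-J'))).add
    hTQX hH (gsum hTQX hH s fun i hi => gsum hTQX hH s' fun j hj =>
      Gd.smul hTQX hH ⟨(qq i hi j hj).1, rfl, (qq i hi j hj).2.1⟩ (e i * σ i * (e' j * σ' j)))
  have ex : ∀ S S' : PowerSeries Om, ((J : PowerSeries Om) - S) * (J' - S') =
      ((J * J' : ℤ) : PowerSeries Om) + ((-J) • S' + (-J') • S + S * S') := fun S S' => by
    simp only [zsmul_eq_mul]; push_cast; ring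
  have iv := iv_congr (t := t) hP hP'
  rw [ex, map_add, iv_int, zero_add, Finset.sum_mul_sum] at iv
  simp only [map_add, map_zsmul, map_sum, smul_mul_smul_comm] at iv
  change _ = _ • ∑ j ∈ s', _ • Iv X _ t + _ • ∑ i ∈ s, _ • Iv X _ t +
    ∑ i ∈ s, ∑ j ∈ s', _ • Iv X _ t at iv
  rw [← iv] at g
  refine ⟨r2.1.2, r2.2.1.2, g.1, g.2.1 ▸ g.2.2, (r2.eq ?_).2.2⟩
  rw [g.2.1]
  simp only [mul_add, neg_add, Finset.mul_sum, Finset.sum_add_distrib,
    ← Finset.sum_neg_distrib, sub_eq_add_neg]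
  push_cast
  rw [add_assoc, add_assoc]
  congr 1
  · ring
  congr 1
  · exact Finset.sum_congr rfl fun _ _ => by ring
  congr 1
  · exact Finset.sum_congr rfl fun _ _ => by ring
  · exact Finset.sum_congr rfl fun _ _ => Finset.sum_congr rfl fun _ _ => by ring

end Pool.Agent.P.MP_9c97e9_nt.KT
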