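import Pool.Agent.P.MP_9c97e9_nt.KT.TTQX
import Pool.Agent.P.MP_9c97e9_nt.KT.TPLOG
import Pool.Agent.P.MP_9c97e9_nt.KT.TLOG0
import Pool.Agent.P.MP_9c97e9_nt.KT.TLOG
import Pool.Agent.P.MP_9c97e9_nt.KT.TORBS
import Pool.Agent.P.MP_9c97e9_nt.KT.TRESX
import Pool.Agent.P.MP_9c97e9_nt.KT.TCORP
import Pool.Agent.P.MP_9c97e9_nt.KT.TRVX
import Pool.Agent.P.MP_9c97e9_nt.KT.TSYA
import Pool.Agent.P.MP_9c97e9_nt.KT.TPOW
import Pool.Agent.P.MP_9c97e9_nt.KT.TSYB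
import Pool.Agent.P.MP_9c97e9_nt.KT.TAH1
import Pool.Agent.P.MP_9c97e9_nt.KT.TAH2O
import Pool.Agent.P.MP_9c97e9_nt.KT.TAH2
import Pool.Agent.P.MP_9c97e9_nt.KT.TAH3
import Pool.Agent.P.MP_9c97e9_nt.KT.TSB
import Pool.Agent.P.MP_9c97e9_nt.KT.TSYF
import Pool.Agent.P.MP_9c97e9_nt.KT.TFAMT
import Pool.Agent.P.MP_9c97e9_nt.KT.TEV2
import Pool.Agent.P.MP_9c97e9_nt.KT.TEXC
import Pool.Agent.P.MP_9c97e9_nt.KT.TYEX

/-! The local symbols: all statements hold. -/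

namespace Pool.Agent.P.MP_9c97e9_nt.KT

theorem a_TQX : TQX := t_TQX

theorem a_PLOG : PLOG := t_PLOG

theorem a_LOG0 : LOG0 := t_LOG0

theorem a_LOG : LOG := t_LOG a_TQX a_PLOG a_LOG0

theorem a_ORBS : ORBS := t_ORBS a_TQX a_LOG

theorem a_RESX : RESX := t_RESX

theorem a_CORP : CORP := t_CORP a_ORBS

theorem a_RVX : RVX := t_RVX

theorem a_SYA : SYA := t_SYA a_RVX

theorem a_POW : POW := t_POW

theorem a_SYB : SYB := t_SYB a_ORBS a_CORP a_SYA a_POW a_RVX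

theorem a_AH1 : AH1 := t_AH1 a_PLOG a_SYA

theorem a_AH2O : AH2O := t_AH2O a_SYA a_SYB a_POW a_AH1 a_RVX

theorem a_AH2 : AH2 := t_AH2 a_ORBS a_SYB a_POW a_AH1 a_AH2O a_RVX

theorem a_AH3 : AH3 := t_AH3 a_TQX a_LOG a_SYA a_POW a_AH1 a_AH2 a_RVX

theorem a_SB : SB := t_SB a_TQX a_SYA a_SYB a_POW a_AH3 a_RVX

theorem a_SYF : SYF := t_SYF a_TQX a_SYA a_SYB a_POW a_AH1 a_AH3 a_SB a_RVX

theorem a_FAMT : FAMT := t_FAMT a_TQX a_ORBS a_CORP a_RVX a_SYA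

theorem a_EV2 : EV2 := t_EV2

theorem a_EXC : EXC := t_EXC

theorem a_YEX : YEX := t_YEX

end Pool.Agent.P.MP_9c97e9_nt.KT
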