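import Pool.Agent.P.MP_9c97e9_nt.KT.IfT2

/-! The elements of the extension are algebraic over the polynomials in `x`. -/

namespace Pool.Agent.P.MP_9c97e9_nt.KT

open MP_8b7eba_nt.Mod (xx yy)

namespace TALX

theorem gen {R F : Type} [CommRing R] [IsDomain R] [Field F] [Algebra R F] {s : Set F}
    (hs : ∀ x ∈ s, IsAlgebraic R x) {m : F} (hm : IsIntegral (Subfield.closure s) m) :
    IsAlgebraic R m := by
  let T : Subfield F := { (Subalgebra.algebraicClosure R F).toSubring with
    inv_mem' := fun x hx => IsAlgebraic.inv (R := R) hx }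
  have h : Subfield.closure s ≤ T := Subfield.closure_le.2 hs
  have h' : (Subfield.closure s).toSubring ≤ (Subalgebra.algebraicClosure R F).toSubring := h
  have : IsIntegral (Subalgebra.algebraicClosure R F) m :=
    hm.map_of_comp_eq (T := Subalgebra.algebraicClosure R F) (Subring.inclusion h')
      (RingHom.id F) rfl
  exact this.trans_isAlgebraic R

theorem curve {R F : Type} [CommRing R] [IsDomain R] [Field F] [Algebra R F] {x y : F}
    (hx : IsAlgebraic R x) (e : y ^ 2 = 4 * x ^ 3 - 7 * x ^ 2 - 36 * x) : IsAlgebraic R y := by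
  have k : ∀ n : ℕ, IsAlgebraic R (n : F) := fun n => by
    rw [← map_natCast (algebraMap R F)]; exact isAlgebraic_algebraMap _
  refine IsAlgebraic.of_pow two_pos (e ▸ ?_)
  exact (((k 4).mul (hx.pow 3)).sub ((k 7).mul (hx.pow 2))).sub ((k 36).mul hx)

theorem mf_nat (n : ℕ) : mf (fun _ => (n : ℂ)) = n := by
  rw [BM.mf_eq (G := fun _ => (n : ℂ)) (differentiableOn_const _)]
  exact map_natCast (algebraMap OH MF) n

theorem rel (hx : Hol xx) (hy : Hol yy) :
    mf yy ^ 2 = 4 * mf xx ^ 3 - 7 * mf xx ^ 2 - 36 * mf xx := by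
  have c : ∀ n : ℕ, Hol fun _ => (n : ℂ) := fun n => differentiableOn_const _
  have a := (c 4).mul (hx.pow 3)
  have b := (c 7).mul (hx.pow 2)
  have d := (c 36).mul hx
  have : mf (yy ^ 2) = mf ((fun _ => ((4 : ℕ) : ℂ)) * xx ^ 3 - (fun _ => ((7 : ℕ) : ℂ)) * xx ^ 2 -
      (fun _ => ((36 : ℕ) : ℂ)) * xx) :=
    (BM.mf_inj (hy.pow 2) ((a.sub b).sub d)).2 fun z hz => by
      simpa using MP_8b7eba_nt.R1.yy_sq hz
  rw [BM.mf_sub (a.sub b) d, BM.mf_sub a b, BM.mf_mul (c 4) (hx.pow 3), BM.mf_mul (c 7) (hx.pow 2),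
    BM.mf_mul (c 36) hx, BM.mf_pow hx, BM.mf_pow hx, BM.mf_pow hy, mf_nat, mf_nat, mf_nat] at this
  exact_mod_cast this

theorem fin {F : Type} [Field F] {x y : F} {S : Set F}
    (e : y ^ 2 = 4 * x ^ 3 - 7 * x ^ 2 - 36 * x)
    (hS : ∀ a ∈ S, IsIntegral (Subfield.closure {x, y}) a)
    (L : IntermediateField (Subfield.closure {x, y}) F) (hL : L = IntermediateField.adjoin _ S)
    (u : L) (hu : (u : F) = x) (f : L) : IsAlgebraic (Subring.closure {u}) f := by
  subst hL
  have hx : IsAlgebraic (Subring.closure {u}) x := by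
    convert isAlgebraic_algebraMap (A := F) (⟨u, Subring.subset_closure rfl⟩ : Subring.closure {u})
    exact hu.symm
  have hf : IsIntegral (Subfield.closure {x, y}) (f : F) :=
    IntermediateField.isIntegral_iff.1
      ((IntermediateField.isAlgebraic_adjoin hS).isAlgebraic f).isIntegral
  refine (isAlgebraic_algebraMap_iff (A := F) (RingHom.injective _)).1 (gen ?_ hf)
  rintro _ (rfl | rfl)
  · exact hx
  · exact curve hx e

end TALX

theorem t_ALX (hFB : FB) : ALX := fun f =>
  TALX.fin (TALX.rel hFB.2.1.1 hFB.2.2.1.1) (fun _ h => h.1) LL rfl _ (BM.coe_lf hFB.2.1) f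

end Pool.Agent.P.MP_9c97e9_nt.KT
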