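import Pool.Agent.P.MP_9c97e9_nt.KT.IfT

/-! Hilbert 90 for locally constant cocycles. -/

namespace Pool.Agent.P.MP_9c97e9_nt.KT

open BT

theorem t_H90G : H90G := by
  intro G Ω _ _ _ H b hF hS h0 hb
  obtain ⟨S, hS⟩ := sm1_iff.1 hS
  have : ((NFx H S).subgroupOf H).FiniteIndex := ⟨relIndex_NF hF S⟩
  have := Fintype.ofFinite (H ⧸ (NFx H S).subgroupOf H)
  let K := FixedPoints.submonoid (NFx H S) Ω
  let φ : H ⧸ (NFx H S).subgroupOf H → K →* Ω := fun q =>
    (MulDistribMulAction.toMonoidHom Ω (q.out : G)).comp K.subtype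
  have h1 : Function.Injective φ := fun q q' e => by
    rw [← q.out_eq', ← q'.out_eq', QuotientGroup.eq]
    refine mem_NF.2 ⟨(q.out⁻¹ * q'.out).2, fun s hs => ?_⟩
    have : (q.out : G) • s = (q'.out : G) • s :=
      DFunLike.congr_fun e ⟨s, fun n => (mem_NF.1 n.2).2 s hs⟩
    show ((q.out : G)⁻¹ * q'.out) • s = s
    rw [mul_smul, ← this, inv_smul_smul]
  obtain ⟨θ, hθ⟩ : ∃ θ : K, ∑ q : H ⧸ (NFx H S).subgroupOf H,
      b q.out * (q.out : G) • (θ : Ω) ≠ 0 := by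
    by_contra h
    push Not at h
    exact h0 _ (Subtype.prop _) (Fintype.linearIndependent_iff.1
      ((linearIndependent_monoidHom K Ω).comp φ h1) (fun q => b q.out)
      (funext fun θ => (Finset.sum_apply _ _ _).trans (h θ)) (1 : H))
  refine ⟨_, inv_ne_zero hθ, fun g hg => ?_⟩
  rw [smul_inv'', Finset.smul_sum, ← inv_inv (b g), ← mul_inv, inv_inj,
    eq_inv_mul_iff_mul_eq₀ (h0 g hg), Finset.mul_sum,
    ← (MulAction.bijective (⟨g, hg⟩ : H)).sum_comp fun q : H ⧸ (NFx H S).subgroupOf H =>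
      b q.out * (q.out : G) • (θ : Ω)]
  refine Finset.sum_congr rfl fun q _ => ?_
  obtain ⟨n, hn⟩ := QuotientGroup.mk_out_eq_mul ((NFx H S).subgroupOf H) (⟨g, hg⟩ * q.out)
  rw [← smul_eq_mul, MulAction.Quotient.mk_smul_out] at hn
  have h2 : (((⟨g, hg⟩ : H) • q).out : G) = g * q.out * n := congrArg Subtype.val hn
  rw [h2, hS _ (H.mul_mem hg q.out.2) (n : H) n.2, hb g hg _ q.out.2, mul_smul, mul_smul,
    show ((n : H) : G) • (θ : Ω) = θ from θ.2 ⟨_, n.2⟩, smul_mul', mul_assoc]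

end Pool.Agent.P.MP_9c97e9_nt.KT
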