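import Pool.Agent.P.MP_9c97e9_nt.KT.IfT2

/-! Proof of ISO. -/

namespace Pool.Agent.P.MP_9c97e9_nt.KT

open MP_8b7eba_nt.R2
open MP_8b7eba_nt.Mod (xx)

namespace TISO

theorem alg {k Ω : Type} [Field k] [Field Ω] [Algebra k Ω] {x u : Ω}
    (h : IsAlgebraic (Subring.closure {x}) u) : IsAlgebraic (Algebra.adjoin k {x}) u := by
  have le : Subring.closure {x} ≤ (Algebra.adjoin k {x}).toSubring :=
    Subring.closure_le.2 Algebra.subset_adjoin
  exact h.ringHom_of_comp_eq (Subring.inclusion le) (RingHom.id Ω)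
    (Subring.inclusion_injective le) rfl

theorem fix {G k Ω : Type} [Group G] [Field k] [Field Ω] [Algebra k Ω] [MulSemiringAction G Ω]
    {H : Subgroup G} {s : Set Ω} (h : ∀ c, FxG H (algebraMap k Ω c)) (hs : ∀ x ∈ s, FxG H x) :
    ∀ x ∈ Algebra.adjoin k s, FxG H x := fun x hx => by
  induction hx using Algebra.adjoin_induction with
  | mem x hx => exact hs x hx
  | algebraMap c => exact h c
  | add x y _ _ hx hy => exact fun g hg => by rw [smul_add, hx g hg, hy g hg]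
  | mul x y _ _ hx hy => exact fun g hg => by rw [smul_mul', hx g hg, hy g hg]

end TISO

theorem t_ISO (hTS1 : TS1) (hALX : ALX) (hFB : FB) : ISO := by
  intro H hH u a hu ha
  obtain ⟨c, hc⟩ := hFB.1
  let := c.toAlgebra
  obtain ⟨X, hX, Y, hY, Z, hZ, h⟩ :=
    hTS1 Om LL (lf xx) u a (TISO.alg (hALX u)) (TISO.alg (hALX a))
  have f := TISO.fix (H := H) (k := Om) (s := {lf xx, u, a})
    (fun b g hg => (mem_fixingSubgroup_iff _).1 (hH hg).2 _ ⟨b, (hc b).symm⟩) (by
      rintro x (rfl | rfl | rfl)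
      exacts [fun g hg => (mem_fixingSubgroup_iff _).1 (hH hg).1 _ (Set.mem_insert _ _), hu, ha])
  exact ⟨X, Y, Z, f X hX, f Y hY, f Z hZ, h⟩

end Pool.Agent.P.MP_9c97e9_nt.KT
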