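import Pool.Agent.P.MP_9c97e9_nt.KT.IfT2

/-! The parity of the order does not change by squares. -/

namespace Pool.Agent.P.MP_9c97e9_nt.KT

open MP_8b7eba_nt MP_8b7eba_nt.R2
open MP_8b7eba_nt.Mod (UH)
open BM

namespace TPAR

theorem fin {G : ℂ → ℂ} (h : Hol G) (h0 : mf G ≠ 0) {τ : ℂ} (hτ : 0 < τ.im) :
    analyticOrderAt G τ ≠ ⊤ := fun ht => h0 ((mf_eq_zero h).2 fun _ hz =>
  (h.analyticOnNhd Mod.isOpen_UH).eqOn_zero_of_preconnected_of_eventuallyEq_zero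
    (convex_halfSpace_im_gt 0).isPreconnected hτ (analyticOrderAt_eq_top.1 ht) hz)

theorem ord {G q : ℂ → ℂ} (h : Hol G) (hq : Hol q) (h0 : mf G ≠ 0) (q0 : mf q ≠ 0) {τ : ℂ}
    (hτ : 0 < τ.im) :
    analyticOrderNatAt (G * q ^ 2) τ = analyticOrderNatAt G τ + 2 * analyticOrderNatAt q τ := by
  have a := h.analyticOnNhd Mod.isOpen_UH τ hτ
  have b := hq.analyticOnNhd Mod.isOpen_UH τ hτ
  rw [analyticOrderNatAt_mul a (b.pow 2) (fin h h0 hτ)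
    (fin (hq.pow 2) (by rw [mf_pow hq]; exact pow_ne_zero _ q0) hτ), analyticOrderNatAt_pow b,
    smul_eq_mul]

end TPAR

open TPAR in
theorem t_PAR : PAR := by
  intro G G' B hG hG' h0 e τ hτ
  obtain ⟨p, q, hp, hq, q0, e1⟩ := exists_frac B
  have B0 : B ≠ 0 := fun h => h0 (by simp [e, h])
  have G0 : mf G ≠ 0 := fun h => h0 (by simp [e, h])
  have p0 : mf p ≠ 0 := e1 ▸ mul_ne_zero B0 q0
  have e2 : mf (G' * q ^ 2) = mf (G * p ^ 2) := by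
    rw [mf_mul hG' (hq.pow 2), mf_mul hG (hp.pow 2), mf_pow hq, mf_pow hp, e, ← e1]
    ring
  have e3 := analyticOrderAt_congr (((mf_inj (hG'.mul (hq.pow 2)) (hG.mul (hp.pow 2))).1
    e2).eventuallyEq_of_mem (Mod.UH_mem_nhds hτ))
  have e4 : analyticOrderNatAt (G' * q ^ 2) τ = analyticOrderNatAt (G * p ^ 2) τ :=
    congrArg ENat.toNat e3
  rw [ord hG' hq h0 q0 hτ, ord hG hp G0 p0 hτ] at e4
  rw [Nat.even_iff, Nat.even_iff]
  omega

end Pool.Agent.P.MP_9c97e9_nt.KT
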