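import Pool.Agent.P.MP_9c97e9_nt.KT.IfT2

/-! From squares to powers of two. -/

namespace Pool.Agent.P.MP_9c97e9_nt.KT

theorem t_PKX : PKX := by
  intro G Ω _ _ _ H he h2 k
  induction k with
  | zero => exact fun c _ _ => ⟨1, c, one_ne_zero, fun g _ => smul_one g, by simp⟩
  | succ k ih =>
    intro c hc h
    obtain ⟨e, he⟩ := he k
    obtain ⟨h₁, r, n1, f1, e1⟩ := h2 c hc fun g hg => by
      obtain ⟨B, hB⟩ := h g hg
      exact ⟨B ^ 2 ^ k, by rw [hB, ← pow_mul, ← pow_succ]⟩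
    have r0 : r ≠ 0 := fun e => mul_ne_zero hc n1 (by rw [e1, e, zero_pow two_ne_zero])
    obtain ⟨h₂, ρ, n2, f2, e2⟩ := ih r r0 fun g hg => by
      obtain ⟨B, hB⟩ := h g hg
      have : (g • r) ^ 2 = (B ^ 2 ^ k * r) ^ 2 := by
        rw [← smul_pow', ← e1, smul_mul', f1 g hg, hB, mul_pow, ← e1, ← pow_mul, ← pow_succ,
          mul_assoc]
      rcases sq_eq_sq_iff_eq_or_eq_neg.1 this with e3 | e3
      · exact ⟨B, e3⟩
      · exact ⟨e * B, by rw [e3, mul_pow, he, neg_one_mul, neg_mul]⟩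
    refine ⟨h₁ * h₂ ^ 2, ρ, mul_ne_zero n1 (pow_ne_zero _ n2), fun g hg => ?_, ?_⟩
    · rw [smul_mul', smul_pow', f1 g hg, f2 g hg]
    · rw [← mul_assoc, e1, ← mul_pow, e2, ← pow_mul, ← pow_succ]

end Pool.Agent.P.MP_9c97e9_nt.KT
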