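import Pool.Agent.P.MP_9c97e9_nt.KT.BasT

/-! Internal statements of the chapter on the function field: Galois theory. -/

namespace Pool.Agent.P.MP_9c97e9_nt.KT

open scoped NNReal Matrix Polynomial PowerSeries
open MP_8b7eba_nt.R2
open MP_8b7eba_nt.Mod (M2 G0 UH xx yy FI)
open MP_8b7eba_nt.R1 (IntR IntM Zb QE U8 Aut)

/-- the first coordinate of the division points of the generic point -/
noncomputable def XQ (L : PeriodPair) (k : ℕ) (w z : ℂ) : ℂ :=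
  4 * L.weierstrassP (FI z / 2 ^ k + w) + 7 / 3

/-- the second coordinate of the division points of the generic point -/
noncomputable def YQ (L : PeriodPair) (k : ℕ) (w z : ℂ) : ℂ :=
  8 * L.derivWeierstrassP (FI z / 2 ^ k + w)

/-! ### Field theory -/

/-- the extension is normal -/
def NORM : Prop :=
  Normal K0 LL ∧ (∀ g : AL, g ∈ GG ↔ ∀ f : LL, (f : MF) ∈ K0 → g f = f) ∧
  (∀ (f : MF) (p : K0[X]), p ≠ 0 → Polynomial.aeval f p = 0 →
    (p.map (algebraMap K0 MF)).Splits → f ∈ LL) ∧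
  (∀ f ∈ LL, IsIntegral K0 f ∧ ((minpoly K0 f).map (algebraMap K0 MF)).Splits) ∧
  FO LL GG ∧ ∀ f : LL, (∀ g ∈ GG, g f = f) → (f : MF) ∈ K0

/-- two embeddings differ by an automorphism -/
def EXTA : Prop :=
  ∀ (F : Type) [Field F] (j j' : LL →+* F), j (lf xx) = j' (lf xx) → j (lf yy) = j' (lf yy) →
    ∃ g ∈ GG, ∀ f, j' (g f) = j f

/-- extension of partial automorphisms -/
def EXTB : Prop :=
  ∀ (R : Type) [CommRing R] (i i' : R →+* LL) (x y : R), (∀ r, i r = 0 ↔ i' r = 0) →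
    i x = lf xx → i' x = lf xx → i y = lf yy → i' y = lf yy → ∃ g ∈ GG, ∀ r, g (i r) = i' r

/-- a criterion for membership -/
def TWR : Prop :=
  ∀ (f : MF) (p : LL[X]), p ≠ 0 → p.eval₂ (algebraMap LL MF) f = 0 →
    (∀ g ∈ GG, (p.map ((algebraMap LL MF).comp (g : LL →+* LL))).Splits) → f ∈ LL

/-- roots -/
def RTL : Prop :=
  ∀ (r : MF) (f : LL) (N : ℕ), N ≠ 0 → r ^ N = f → (∀ g ∈ GG, ∃ s : MF, s ^ N = (g f : LL)) →
    r ∈ LL

/-- integrality over the polynomials in the first coordinate -/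
def INTX : Prop :=
  ∀ f : LL, ∃ p : ℤ[X], Polynomial.aeval (lf xx) p ≠ 0 ∧
    IsIntegral (Algebra.adjoin ℤ {lf xx}) (f * Polynomial.aeval (lf xx) p)

/-- meromorphic functions without poles -/
def DIV : Prop :=
  (∀ f : MF, (∀ τ : ℂ, 0 < τ.im → ∃ A, jt τ f = fs A) → ∃ G, Hol G ∧ mf G = f) ∧
  ∀ f : MF, IsIntegral OH f → ∃ G, Hol G ∧ mf G = f

/-- denominators -/
def DEN : Prop :=
  ∀ f : LL, ∃ (p : ℤ[X]) (G : ℂ → ℂ), InL G ∧ MG G ∧ Polynomial.aeval (lf xx) p ≠ 0 ∧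
    lf G = f * Polynomial.aeval (lf xx) p

/-! ### Expansions at points -/

/-- the expansions of the coordinates -/
def SIG : Prop :=
  ∀ (s : Aut) (τ τ' : ℂ), 0 < τ.im → 0 < τ'.im → s (xx τ) = xx τ' → s (yy τ) = yy τ' →
    PowerSeries.map (s : ℂ →+* ℂ) (tay τ xx) = tay τ' xx ∧
      PowerSeries.map (s : ℂ →+* ℂ) (tay τ yy) = tay τ' yy

/-- the automorphism attached to two conjugate points -/
def SEC0 : Prop :=
  ∀ (s : Aut) (τ τ' : ℂ), 0 < τ.im → 0 < τ'.im → s (xx τ) = xx τ' → s (yy τ) = yy τ' →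
    ∃ g ∈ GG, (∀ f : LL, jt τ' (g f : LL) = sa s (jt τ f)) ∧ ∀ a, io (cg g a) = s (io a)

/-- algebraic coefficients -/
def ALG : Prop :=
  ∀ τ x y, Alg τ x y → ∀ (f : LL) (A : ℂ⟦X⟧), jt τ f = fs A →
    ∀ n, ∃ a, io a = PowerSeries.coeff n A

/-- only the action on the algebraic numbers matters -/
def SECU : Prop :=
  ∀ τ x y, Alg τ x y → ∀ s s' : Aut, (∀ a, s (io a) = s' (io a)) →
    ∀ f : LL, sa s (jt τ f) = sa s' (jt τ f)

/-- conjugate points, with orders -/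
def SECO : Prop :=
  ∀ (σ : GQ) τ τ' x y, Alg τ x y → Alg τ' (σ x) (σ y) → ∃ g ∈ GG, cg g = σ ∧
    ∀ G G', InL G → InL G' → g (lf G) = lf G' → analyticOrderAt G' τ' = analyticOrderAt G τ

/-- conjugates of algebraic points -/
def SURA : Prop := ∀ τ x y, Alg τ x y → ∀ σ : GQ, ∃ τ', Alg τ' (σ x) (σ y)

/-- every automorphism is locally of this form -/
def PULL : Prop :=
  ∀ g ∈ GG, ∀ τ' : ℂ, 0 < τ'.im → ∀ S : Finset LL, ∃ (τ : ℂ) (s : Aut), 0 < τ.im ∧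
    (∀ a, s (io a) = io (cg g a)) ∧ ∀ f ∈ S, jt τ' (g f : LL) = sa s (jt τ f)

/-- the same for values and orders -/
def PULV : Prop :=
  (∀ g ∈ GG, ∀ G, InL G → ∃ G', InL G' ∧ g (lf G) = lf G') ∧
  ∀ g ∈ GG, ∀ (I : Type) [Finite I] (G G' : I → ℂ → ℂ),
    (∀ i, InL (G i) ∧ InL (G' i) ∧ g (lf (G i)) = lf (G' i)) → ∀ τ' : ℂ, 0 < τ'.im →
    ∃ (τ : ℂ) (s : Aut), 0 < τ.im ∧ (∀ a, s (io a) = io (cg g a)) ∧
      ∀ i, G' i τ' = s (G i τ) ∧ analyticOrderAt (G' i) τ' = analyticOrderAt (G i) τ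

/-! ### Invariant functions -/

/-- invariant functions with rational expansions -/
def POLQ : Prop :=
  ∀ (G : ℂ → ℂ) (w N : ℕ) (A : Zb⟦X⟧), w ≠ 0 → Hol G → MG G → IvF G → QE w N A G →
    (∀ σ, Cj σ A A) → mf G ∈ K0

/-- invariant algebraic functions -/
def POLA : Prop :=
  ∀ G : ℂ → ℂ, InL G → MG G → IvF G → ∃ (j : ℕ) (a b : Om[X]), ∀ z : ℂ, 0 < z.im →
    G z * U8 z ^ j = a.eval₂ io (xx z) + b.eval₂ io (xx z) * yy z

/-- stable families are permuted by the Galois group -/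
def GAL1 : Prop :=
  ∀ (w N : ℕ) (I : Type) (G : I → ℂ → ℂ) (A : I → Zb⟦X⟧), QF w N G A →
    (∀ i, InL (G i)) ∧ ∀ g ∈ GG, ∀ i, ∃ j, g (lf (G i)) = lf (G j)

/-- the Hecke translates are permuted -/
def PERM : Prop :=
  ∀ A, Lm A → InL (fun z => xx (A.act z)) ∧ InL (fun z => yy (A.act z)) ∧
    ∀ g ∈ GG, ∃ t ∈ IntR A.det.toNat,
      g (lf fun z => xx (A.act z)) = lf (fun z => xx ((IntM t).act z)) ∧
      g (lf fun z => yy (A.act z)) = lf fun z => yy ((IntM t).act z)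

/-- the extension is stable under substitutions -/
def STB : Prop := ∀ A, Lm A → ∀ f ∈ LL, sb A f ∈ LL

/-- the description of the substitutions -/
def TRS : Prop := ∀ A, Lm A → IsTr A (tr A) ∧ ∀ f : LL, (tr A f : MF) = sb A.adj f

/-- the equation of a function over the curve -/
def ORP : Prop :=
  ∀ (G : ℂ → ℂ) (τ : ℂ) (x y : Om), InL G → MG G → Alg τ x y → ∃ P : MvPolynomial (Fin 3) Om,
    (∀ z : ℂ, 0 < z.im → P.eval₂ io ![xx z, yy z, G z] = 0) ∧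
    ∀ (K : Type) [Field K] (c : Om →+* K) (v : K), P.eval₂ c ![c x, c y, v] = 0 →
      ∃ γ a, G0 γ ∧ io a = G (γ.act τ) ∧ v = c a

/-! ### Division points -/

/-- the coordinates are holomorphic -/
def QHOL : Prop :=
  ∀ L h, Un L h → ∀ (k : ℕ) (w : ℂ), 2 ^ k • h w = 0 → Hol (XQ L k w) ∧ Hol (YQ L k w) ∧
    ∀ z : ℂ, 0 < z.im → Is (h (FI z / 2 ^ k + w)) (XQ L k w z) (YQ L k w z)

/-- the Galois action on the division points -/
def QACT : Prop :=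
  ∀ L h, Un L h → ∀ k : ℕ, (∀ w, 2 ^ k • h w = 0 → InL (XQ L k w) ∧ InL (YQ L k w)) →
    ∀ g ∈ GG, ∃ w₀, 2 ^ k • h w₀ = 0 ∧ ∀ (w w' : ℂ) (t : EO), 2 ^ k • t = 0 → pm W15 io t = h w →
      h w' = h w₀ + pm W15 io (ac (cg g) t) →
      g (lf (XQ L k w)) = lf (XQ L k w') ∧ g (lf (YQ L k w)) = lf (YQ L k w')

/-- the division points are defined over the extension -/
def QIN : Prop :=
  ∀ L h, Un L h → ∀ (k : ℕ) (w : ℂ), 2 ^ k • h w = 0 → InL (XQ L k w) ∧ InL (YQ L k w)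

end Pool.Agent.P.MP_9c97e9_nt.KT
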