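import Pool.Agent.P.MP_9c97e9_nt.KT.IfT2
import Pool.Agent.P.MP_9c97e9_nt.KT.IfF2

/-! Invariant classes modulo squares. -/

namespace Pool.Agent.P.MP_9c97e9_nt.KT

open scoped Polynomial
open MP_8b7eba_nt
open MP_8b7eba_nt.R2
open MP_8b7eba_nt.Mod (M2 G0 UH xx yy ff)
open Filter Topology

namespace TALGP

theorem exists_io {p : Om[X]} (hp : p ≠ 0) {c : ℂ} (h : p.eval₂ io c = 0) :
    ∃ a ∈ p.roots, io a = c := by
  have := (IsAlgClosed.splits p).roots_map io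
  have hc : c ∈ (p.map io).roots :=
    (Polynomial.mem_roots ((Polynomial.map_ne_zero_iff io.injective).2 hp)).2
      ((Polynomial.eval_map _ _).trans h)
  rw [this] at hc
  exact Multiset.mem_map.1 hc

end TALGP

theorem t_ALGP (hFB : FB) (hDEN : DEN) : ALGP := by
  classical
  intro G hG h0
  obtain ⟨p, H, hH, -, hp, e⟩ := hDEN (lf G)⁻¹
  obtain ⟨i1, i2⟩ := inL_xx.zpoly p
  obtain ⟨-, -, -, -, -, cl, -⟩ := hFB
  have E := (cl _ _ (cl _ _ hG hH).2.1 i1).2.2.2.2.2.2.1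
    (by rw [(cl _ _ hG hH).2.2.2.2.1, e, i2, mul_inv_cancel_left₀ h0])
  have p0 : p.map (Int.castRingHom Om) ≠ 0 :=
    (Polynomial.map_ne_zero_iff Int.cast_injective).2 fun h => hp (by rw [h, map_zero])
  let q : Om → Om[X] := fun x => Polynomial.X ^ 2 - Polynomial.C (4 * x ^ 3 - 7 * x ^ 2 - 36 * x)
  refine ⟨(p.map (Int.castRingHom Om)).roots.toFinset.biUnion fun x =>
    (q x).roots.toFinset.image fun y => (x, y), fun τ hτ h => ?_⟩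
  obtain ⟨x, hx, ex⟩ := TALGP.exists_io p0 (c := xx τ) (by
    rw [Polynomial.eval₂_map, Subsingleton.elim (io.comp _) (algebraMap ℤ ℂ)]
    exact (E hτ).symm.trans (by rw [Pi.mul_apply, h, zero_mul]))
  obtain ⟨y, hy, ey⟩ := TALGP.exists_io (p := q x) (Polynomial.X_pow_sub_C_ne_zero two_pos _)
    (c := yy τ) (by simp [q, Polynomial.eval₂_sub, Polynomial.eval₂_pow, map_ofNat, ex, R1.yy_sq hτ])
  exact ⟨(x, y), Finset.mem_biUnion.2 ⟨x, Multiset.mem_toFinset.2 hx,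
    Finset.mem_image_of_mem _ (Multiset.mem_toFinset.2 hy)⟩, hτ, ex, ey⟩

namespace TSQ1

variable {τ : ℂ} {G H : ℂ → ℂ}

theorem fin (h : InL G) (h0 : lf G ≠ 0) (hτ : 0 < τ.im) : analyticOrderAt G τ ≠ ⊤ := fun e =>
  h0 (Subtype.ext ((BM.coe_lf h).trans ((BM.mf_eq_zero h.1).2 fun _ hz =>
    (h.1.analyticOnNhd Mod.isOpen_UH).eqOn_zero_of_preconnected_of_eventuallyEq_zero
      (convex_halfSpace_im_gt 0).isPreconnected hτ (analyticOrderAt_eq_top.1 e) hz)))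

theorem ord_mul (h : InL G) (h0 : lf G ≠ 0) (h' : InL H) (h1 : lf H ≠ 0) (hτ : 0 < τ.im) :
    analyticOrderNatAt (G * H) τ = analyticOrderNatAt G τ + analyticOrderNatAt H τ :=
  analyticOrderNatAt_mul (h.1.analyticAt (Mod.UH_mem_nhds hτ))
    (h'.1.analyticAt (Mod.UH_mem_nhds hτ)) (fin h h0 hτ) (fin h' h1 hτ)

theorem uniq {P Q : Om × Om} (h : Alg τ P.1 P.2) (h' : Alg τ Q.1 Q.2) : P = Q :=
  Prod.ext (io.injective (h.2.1.trans h'.2.1.symm)) (io.injective (h.2.2.trans h'.2.2.symm))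

theorem lines (hFB : FB) (hTAN : TAN) (Z : Finset (Om × Om)) (hZ : ∀ P ∈ Z, ∃ τ, Alg τ P.1 P.2) :
    ∃ h, InL h ∧ lf h ≠ 0 ∧ FxG geo (lf h) ∧
      ∀ τ : ℂ, 0 < τ.im → (Odd (analyticOrderNatAt h τ) ↔ ∃ P ∈ Z, Alg τ P.1 P.2) := by
  classical
  obtain ⟨⟨c, hc⟩, -, -, ic, -, cl, -⟩ := hFB
  induction Z using Finset.induction_on with
  | empty =>
    have : lf (fun _ => io 1) = 1 := (hc 1).symm.trans c.map_one
    refine ⟨_, ic 1, this ▸ one_ne_zero, fun g _ => by rw [this, smul_one], fun τ _ => ?_⟩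
    rw [analyticOrderNatAt, analyticAt_const.analyticOrderAt_eq_zero.2 (by simp)]
    simp
  | insert P Z hP ih =>
    obtain ⟨h, h1, h2, h3, h4⟩ := ih fun Q hQ => hZ Q (Finset.mem_insert_of_mem hQ)
    obtain ⟨τ₀, h0⟩ := hZ P (Finset.mem_insert_self _ _)
    obtain ⟨l, l1, l2, l3, l4⟩ := hTAN _ _ _ h0
    have e := (cl _ _ l1 h1).2.2.2.2.1
    refine ⟨l * h, (cl _ _ l1 h1).2.1, e ▸ mul_ne_zero l2 h2, fun g hg => by
      rw [e, smul_mul', l3 g hg, h3 g hg], fun τ hτ => ?_⟩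
    rw [ord_mul l1 l2 h1 h2 hτ, Nat.odd_add, ← Nat.not_odd_iff_even, l4 τ hτ, h4 τ hτ,
      Finset.exists_mem_insert]
    have : ¬ (Alg τ P.1 P.2 ∧ ∃ Q ∈ Z, Alg τ Q.1 Q.2) := fun ⟨a, Q, hQ, b⟩ => hP (uniq a b ▸ hQ)
    exact ⟨fun k => (em _).imp_right fun n => not_not.1 (mt k.2 n), fun k =>
      ⟨fun a b => this ⟨a, b⟩, k.resolve_right⟩⟩

end TSQ1

theorem t_SQ1 (hFB : FB) (hDEN : DEN) (hSECO : SECO) (hPULV : PULV) (hRTL : RTL)
    (hSQH : SQH) (hPAR : PAR) (hALGP : ALGP) (hTAN : TAN) : SQ1 := by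
  classical
  intro c hc hB
  obtain ⟨p, G, hG, -, hp, e⟩ := hDEN c
  have fx : FxG geo (Polynomial.aeval (lf xx) p) := fun g hg => by
    have := (mem_fixingSubgroup_iff _).1 hg.1 _ (Or.inl rfl)
    conv_rhs => rw [← this]
    exact (Polynomial.aeval_algHom_apply (MulSemiringAction.toRingHom AL LL g).toIntAlgHom _ p).symm
  have G0 : lf G ≠ 0 := e ▸ mul_ne_zero hc hp
  obtain ⟨Z, hZ⟩ := hALGP G hG G0
  obtain ⟨h, h1, h2, h3, h4⟩ := TSQ1.lines hFB hTAN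
    (Z.filter fun P => ∃ τ, Alg τ P.1 P.2 ∧ Odd (analyticOrderNatAt G τ))
    fun P hP => (Finset.mem_filter.1 hP).2.imp fun _ => And.left
  obtain ⟨-, -, -, -, -, cl, gc, -⟩ := hFB
  have i := (cl _ _ hG h1).2.1
  have m := (cl _ _ hG h1).2.2.2.2.1
  have ev : ∀ τ : ℂ, 0 < τ.im → Even (analyticOrderNatAt (G * h) τ) := fun τ hτ => by
    rw [TSQ1.ord_mul hG G0 h1 h2 hτ, Nat.even_add', h4 τ hτ]
    refine ⟨fun o => ?_, fun ⟨P, hP, a⟩ => ?_⟩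
    · obtain ⟨P, hP, a⟩ := hZ τ hτ (apply_eq_zero_of_analyticOrderNatAt_ne_zero o.pos.ne')
      exact ⟨P, Finset.mem_filter.2 ⟨hP, τ, a, o⟩, a⟩
    · obtain ⟨τ₀, a₀, o⟩ := (Finset.mem_filter.1 hP).2
      obtain ⟨g, hg, g1, g2⟩ := hSECO 1 τ₀ τ _ _ a₀ a
      have gg : g ∈ geo := ⟨hg, (mem_fixingSubgroup_iff _).2 fun _ ⟨b, hb⟩ =>
        hb ▸ (gc g hg b).trans (by rw [g1]; rfl)⟩
      obtain ⟨G', i', e'⟩ := hPULV.1 g hg G hG
      obtain ⟨B, hB⟩ := hB g gg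
      have : lf G' = B ^ 2 * lf G := by
        rw [← e', e, ← mul_assoc, ← hB]
        exact (smul_mul' g _ _).trans (by rw [fx g gg])
      rw [← Nat.not_even_iff_odd, ← hPAR G G' B hG.1 i'.1 (by
          rw [← BM.coe_lf i', ← e']; exact fun h => G0 (g.map_eq_zero_iff.1 (Subtype.ext h)))
        (by rw [← BM.coe_lf i', ← BM.coe_lf hG, this]; rfl) τ hτ, analyticOrderNatAt,
        g2 G G' hG i' e', Nat.not_even_iff_odd]
      exact o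
  have sq : ∀ g ∈ GG, ∃ s : MF, s ^ 2 = g (lf (G * h)) := fun g hg => by
    obtain ⟨F, i', e'⟩ := hPULV.1 g hg _ i
    obtain ⟨R, r1, r2⟩ := hSQH F i'.1 fun τ' hτ' => by
      obtain ⟨τ, s, hτ, -, o⟩ := hPULV.2 g hg Unit (fun _ => G * h) (fun _ => F)
        (fun _ => ⟨i, i', e'⟩) τ' hτ'
      rw [analyticOrderNatAt, (o ()).2]
      exact ev τ hτ
    exact ⟨mf R, by rw [e', BM.coe_lf i', ← BM.mf_pow r1, BM.mf_inj (r1.pow 2) i'.1]; exact r2⟩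
  obtain ⟨s, hs⟩ := sq 1 GG.one_mem
  refine ⟨Polynomial.aeval (lf xx) p * lf h, ⟨s, hRTL s _ 2 two_ne_zero hs sq⟩, mul_ne_zero hp h2,
    fun g hg => by rw [smul_mul', fx g hg, h3 g hg], Subtype.ext ?_⟩
  rw [← mul_assoc, ← e, ← m]
  exact hs.symm

end Pool.Agent.P.MP_9c97e9_nt.KT
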