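import Pool.Agent.P.MP_9c97e9_nt.KT.IfT

/-! Square roots of holomorphic functions with zeros of even order. -/

namespace Pool.Agent.P.MP_9c97e9_nt.KT

open Filter Topology Metric

namespace TSQH

/-- locally an even power times a unit -/
def Ev (F : ℂ → ℂ) (z : ℂ) : Prop :=
  ∃ (m : ℕ) (g : ℂ → ℂ), AnalyticAt ℂ g z ∧ g z ≠ 0 ∧ ∀ᶠ w in 𝓝 z, F w = ((w - z) ^ m) ^ 2 * g w

theorem Ev.an {F : ℂ → ℂ} {z : ℂ} (h : Ev F z) : AnalyticAt ℂ F z := by
  obtain ⟨m, g, hg, -, e⟩ := h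
  exact (analyticAt_congr e).2 (by fun_prop)

theorem Ev.iso {F : ℂ → ℂ} {z : ℂ} (h : Ev F z) : ∀ᶠ w in 𝓝 z, F w = 0 → w = z := by
  obtain ⟨m, g, hg, h0, e⟩ := h
  filter_upwards [e, hg.continuousAt.eventually_ne h0] with w h1 h2 h3
  rw [h1, mul_eq_zero, or_iff_left h2] at h3
  exact sub_eq_zero.1 (eq_zero_of_pow_eq_zero (eq_zero_of_pow_eq_zero h3))

theorem unit {c : ℂ} {r : ℝ} {g : ℂ → ℂ} (hg : DifferentiableOn ℂ g (ball c r))
    (h0 : ∀ z ∈ ball c r, g z ≠ 0) :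
    ∃ R : ℂ → ℂ, DifferentiableOn ℂ R (ball c r) ∧ ∀ z ∈ ball c r, R z ^ 2 = g z := by
  obtain ⟨h, hh⟩ := ((hg.deriv isOpen_ball).div hg h0).isExactOn_ball
  have hd : ∀ z ∈ ball c r, HasDerivAt (fun z => g z * Complex.exp (-h z)) 0 z := by
    intro z hz
    have h1 := (hg.differentiableAt (isOpen_ball.mem_nhds hz)).hasDerivAt.mul (hh z hz).neg.cexp
    have := h0 z hz
    refine HasDerivAt.congr_deriv h1 ?_
    simp only [Pi.div_apply, Pi.neg_apply]
    field_simp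
    ring
  obtain ⟨a, ha⟩ := isOpen_ball.exists_is_const_of_deriv_eq_zero (convex_ball c r).isPreconnected
    (fun z hz => (hd z hz).differentiableAt.differentiableWithinAt) fun z hz => (hd z hz).deriv
  obtain ⟨s, hs⟩ := IsAlgClosed.exists_pow_nat_eq a two_pos
  refine ⟨fun z => s * Complex.exp (h z / 2), fun z hz =>
    (((hh z hz).div_const 2).cexp.const_mul s).differentiableAt.differentiableWithinAt,
    fun z hz => ?_⟩
  rw [mul_pow, hs, ← ha z hz, ← Complex.exp_nat_mul, mul_assoc, ← Complex.exp_add]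
  simp [mul_div_cancel₀]

theorem fin {c : ℂ} {r : ℝ} (S : Finset ℂ) : ∀ F : ℂ → ℂ, (∀ z ∈ ball c r, Ev F z) →
    (∀ z ∈ ball c r, F z = 0 → z ∈ S) →
    ∃ R : ℂ → ℂ, DifferentiableOn ℂ R (ball c r) ∧ ∀ z ∈ ball c r, R z ^ 2 = F z := by
  classical
  induction S using Finset.induction_on with
  | empty =>
    exact fun F h h0 => unit (fun z hz => (h z hz).an.differentiableAt.differentiableWithinAt)
      fun z hz e => by simpa using h0 z hz e
  | insert a S _ ih =>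
    intro F h h0
    by_cases ha : a ∈ ball c r
    swap
    · exact ih F h fun z hz e => (Finset.mem_insert.1 (h0 z hz e)).resolve_left
        fun e' => ha (e' ▸ hz)
    obtain ⟨m, g, hg, hg0, e⟩ := h a ha
    set G : ℂ → ℂ := fun z => if z = a then g a else F z / ((z - a) ^ m) ^ 2 with hG
    have hFG : ∀ z, F z = ((z - a) ^ m) ^ 2 * G z := by
      intro z
      by_cases hz : z = a
      · subst hz
        simpa [hG] using e.self_of_nhds
      · have := sub_ne_zero.2 hz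
        simp only [hG, if_neg hz]
        field_simp
    obtain ⟨R, hR, hR2⟩ := ih G (fun z hz => by
      by_cases hza : z = a
      · subst hza
        refine ⟨0, g, hg, hg0, e.mono fun w hw => ?_⟩
        by_cases hwz : w = z
        · simp [hG, hwz]
        · have := sub_ne_zero.2 hwz
          simp only [hG, if_neg hwz, hw]
          field_simp
      · obtain ⟨m', g', hg', hg0', e'⟩ := h z hz
        have := sub_ne_zero.2 hza
        refine ⟨m', fun w => g' w / ((w - a) ^ m) ^ 2, hg'.div (by fun_prop) (by positivity),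
          by positivity, ?_⟩
        filter_upwards [e', eventually_ne_nhds hza] with w hw hwa
        simp only [hG, if_neg hwa, hw, mul_div_assoc]) fun z hz e0 => by
      refine (Finset.mem_insert.1 (h0 z hz (by rw [hFG, e0, mul_zero]))).resolve_left ?_
      rintro rfl
      exact hg0 (by simpa [hG] using e0)
    exact ⟨fun z => (z - a) ^ m * R z, DifferentiableOn.mul (by fun_prop) hR,
      fun z hz => by rw [mul_pow, hR2 z hz, hFG]⟩

theorem cpt {c : ℂ} {r : ℝ} {F : ℂ → ℂ} (h : ∀ z ∈ closedBall c r, Ev F z) {z₀ r₀ : ℂ}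
    (hz : z₀ ∈ ball c r) (hr : r₀ ^ 2 = F z₀) : ∃ R : ℂ → ℂ, R z₀ = r₀ ∧
      DifferentiableOn ℂ R (ball c r) ∧ ∀ z ∈ ball c r, R z ^ 2 = F z := by
  obtain ⟨t, ht⟩ := (isCompact_closedBall c r).elim_nhds_subcover'
    (fun z _ => {w | F w = 0 → w = z}) fun z hz => (h z hz).iso
  classical
  obtain ⟨R, hR, hR2⟩ := fin (c := c) (r := r) (t.image Subtype.val) F
    (fun z hz => h z (ball_subset_closedBall hz)) fun z hz e => by
      obtain ⟨x, hx, hx2⟩ := Set.mem_iUnion₂.1 (ht (ball_subset_closedBall hz))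
      exact Finset.mem_image.2 ⟨x, hx, (hx2 e).symm⟩
  rcases sq_eq_sq_iff_eq_or_eq_neg.1 ((hR2 z₀ hz).trans hr.symm) with e | e
  · exact ⟨R, e, hR, hR2⟩
  · exact ⟨fun z => -R z, by simp [e], hR.neg, fun z hz => by rw [neg_sq, hR2 z hz]⟩

theorem uniq {W : Set ℂ} (hW : IsOpen W) (hc : Convex ℝ W) {R R' : ℂ → ℂ}
    (h : DifferentiableOn ℂ R W) (h' : DifferentiableOn ℂ R' W) (e : ∀ z ∈ W, R z ^ 2 = R' z ^ 2)
    {z₀ : ℂ} (hz : z₀ ∈ W) (e0 : R z₀ = R' z₀) (h0 : R z₀ ≠ 0) : Set.EqOn R R' W := by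
  refine (h.analyticOnNhd hW).eqOn_of_preconnected_of_eventuallyEq (h'.analyticOnNhd hW)
    hc.isPreconnected hz ?_
  have h1 : ContinuousAt (fun z => R z + R' z) z₀ :=
    ((h.add h').differentiableAt (hW.mem_nhds hz)).continuousAt
  filter_upwards [hW.mem_nhds hz, h1.eventually_ne (y := 0)
    (by rw [← e0, ← two_mul]; exact mul_ne_zero two_ne_zero h0)] with z hz hne
  exact (sq_eq_sq_iff_eq_or_eq_neg.1 (e z hz)).resolve_right fun e' => hne (by simp [e'])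

theorem balls {z z₀ : ℂ} (hz : 0 < z.im) (h0 : 0 < z₀.im) : ∃ (c : ℂ) (r : ℝ), z ∈ ball c r ∧
    z₀ ∈ ball c r ∧ ∀ w ∈ closedBall c r, 0 < w.im := by
  obtain ⟨ε, hε, h1, h2⟩ : ∃ ε : ℝ, 0 < ε ∧ 2 * ε ≤ z.im ∧ 2 * ε ≤ z₀.im :=
    ⟨min z.im z₀.im / 2, by positivity, by linarith [min_le_left z.im z₀.im],
      by linarith [min_le_right z.im z₀.im]⟩
  obtain ⟨t, ht, h3, h4⟩ : ∃ t : ℝ, ε < t ∧ z.re ^ 2 + z.im ^ 2 ≤ t * ε ∧
      z₀.re ^ 2 + z₀.im ^ 2 ≤ t * ε := by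
    refine ⟨2 * ε + (z.re ^ 2 + z.im ^ 2 + (z₀.re ^ 2 + z₀.im ^ 2)) / ε, ?_, ?_, ?_⟩
    · have : 0 ≤ (z.re ^ 2 + z.im ^ 2 + (z₀.re ^ 2 + z₀.im ^ 2)) / ε := by positivity
      linarith
    all_goals
      rw [add_mul, div_mul_cancel₀ _ hε.ne']
      nlinarith [sq_nonneg z.re, sq_nonneg z.im, sq_nonneg z₀.re, sq_nonneg z₀.im]
  have key : ∀ w : ℂ, 2 * ε ≤ w.im → w.re ^ 2 + w.im ^ 2 ≤ t * ε → w ∈ ball (t * Complex.I) (t - ε) := by
    intro w a b
    rw [mem_ball, dist_eq_norm, ← sq_lt_sq₀ (norm_nonneg _) (by linarith), Complex.sq_norm,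
      Complex.normSq_apply]
    simp
    nlinarith
  refine ⟨t * Complex.I, t - ε, key z h1 h3, key z₀ h2 h4, fun w hw => ?_⟩
  rw [mem_closedBall, dist_eq_norm] at hw
  have := (abs_le.1 ((Complex.abs_im_le_norm _).trans hw)).1
  simp at this
  linarith

end TSQH

open TSQH in
theorem t_SQH : SQH := by
  intro F hF hev
  by_cases h0 : ∀ z : ℂ, 0 < z.im → F z = 0
  · exact ⟨0, differentiableOn_const 0, fun z hz => by simp [h0 z hz]⟩
  push Not at h0
  obtain ⟨z₀, hz₀, h0⟩ := h0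
  have hU : IsOpen {z : ℂ | 0 < z.im} := isOpen_lt continuous_const Complex.continuous_im
  have hA := hF.analyticOnNhd hU
  have hE : ∀ z : ℂ, 0 < z.im → Ev F z := by
    intro z hz
    obtain ⟨m, hm⟩ := hev z hz
    obtain ⟨g, hg, hg0, e⟩ := ((hA z hz).analyticOrderNatAt_eq_iff fun ht => h0
      (hA.eqOn_zero_of_preconnected_of_eventuallyEq_zero (convex_halfSpace_im_gt 0).isPreconnected
        hz (analyticOrderAt_eq_top.1 ht) hz₀)).1 hm
    exact ⟨m, g, hg, hg0, e.mono fun w hw => by rw [hw, smul_eq_mul]; ring⟩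
  obtain ⟨r₀, hr⟩ := IsAlgClosed.exists_pow_nat_eq (F z₀) two_pos
  have hr0 : r₀ ≠ 0 := fun e => h0 (by rw [← hr, e]; simp)
  have hex : ∀ z : ℂ, ∃ (c : ℂ) (r : ℝ) (R : ℂ → ℂ), 0 < z.im → z ∈ ball c r ∧ z₀ ∈ ball c r ∧
      (∀ w ∈ closedBall c r, 0 < w.im) ∧ R z₀ = r₀ ∧ DifferentiableOn ℂ R (ball c r) ∧
        ∀ w ∈ ball c r, R w ^ 2 = F w := by
    intro z
    by_cases hz : 0 < z.im
    · obtain ⟨c, r, h1, h2, h3⟩ := balls hz hz₀
      obtain ⟨R, hR⟩ := cpt (fun w hw => hE w (h3 w hw)) h2 hr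
      exact ⟨c, r, R, fun _ => ⟨h1, h2, h3, hR⟩⟩
    · exact ⟨0, 0, 0, fun h => absurd h hz⟩
  choose c r R H using hex
  refine ⟨fun z => R z z, fun z hz => ?_, fun z hz => (H z hz).2.2.2.2.2 z (H z hz).1⟩
  obtain ⟨h1, h2, h3, h4, h5, h6⟩ := H z hz
  refine ((h5.differentiableAt (isOpen_ball.mem_nhds h1)).congr_of_eventuallyEq
    ?_).differentiableWithinAt
  filter_upwards [isOpen_ball.mem_nhds h1] with w hw
  obtain ⟨k1, k2, -, k4, k5, k6⟩ := H w (h3 w (ball_subset_closedBall hw))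
  exact uniq (isOpen_ball.inter isOpen_ball) ((convex_ball _ _).inter (convex_ball _ _))
    (k5.mono Set.inter_subset_left) (h5.mono Set.inter_subset_right)
    (fun u hu => (k6 u hu.1).trans (h6 u hu.2).symm) ⟨k2, h2⟩ (k4.trans h4.symm)
    (k4 ▸ hr0) ⟨k1, hw⟩

end Pool.Agent.P.MP_9c97e9_nt.KT
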