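import Pool.Agent.P.MP_9c97e9_nt.KT.IfT

/-! The step of index two. -/

namespace Pool.Agent.P.MP_9c97e9_nt.KT

open BT
open scoped Classical

namespace TST2

variable {G Ω : Type} [Group G] [Field Ω] [MulSemiringAction G Ω] {H H' : Subgroup G}
  {S : Finset Ω} {s : G} {X : Type}

theorem sm_ite {p q : G → X} (hS : NFx H S ≤ H') (hs : ∀ g ∈ H, g ∉ H' → s⁻¹ * g ∈ H')
    (hp : Sm1 Ω H' p) (hq : Sm1 Ω H' q) :
    Sm1 Ω H fun g => if g ∈ H' then p g else q (s⁻¹ * g) := by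
  obtain ⟨T, e⟩ := sm1_comp₂ hp hq Prod.mk
  refine ⟨S ∪ T, fun g hg n hn h => ?_⟩
  have h1 : n ∈ H' := hS (mem_NF.2 ⟨hn, fun a ha => h a (Finset.mem_union_left _ ha)⟩)
  have h2 := fun k hk => Prod.ext_iff.1 (e k hk n h1 fun a ha => h a (Finset.mem_union_right _ ha))
  beta_reduce
  rw [H'.mul_mem_cancel_right h1, ← mul_assoc]
  split_ifs with h3
  exacts [(h2 g h3).1, (h2 _ (hs g hg h3)).2]

theorem sm_right {c : G → X} (h : Sm1 Ω H c) (hs : s ∈ H) : Sm1 Ω H fun g => c (g * s) := by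
  have h1 : Sm1 Ω H fun g => c (s * g) := h.imp fun _ e g hg n hn hf => by
    beta_reduce
    rw [← mul_assoc, e _ (H.mul_mem hs hg) n hn hf]
  simpa [mul_assoc] using sm1_conj h1 s fun g hg => H.mul_mem (H.mul_mem (H.inv_mem hs) hg) hs

theorem norm [CharZero Ω] (hI : Iso Ω H) (hle : H' ≤ H) (hs : s ∈ H) {a β : Ω} (ha : FxG H a)
    (h0 : β ≠ 0) (h1 : FxG H' β) (h2 : s • β = -β) (h3 : FxG H (β ^ 2)) :
    ∃ w, FxG H' w ∧ w * s • w = a := by
  obtain ⟨x, y, z, hx, hy, hz, hne, e⟩ := hI _ a h3 ha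
  have k1 : s • (x + β * y) = x - β * y := by
    rw [smul_add, smul_mul', hx s hs, hy s hs, h2]
    ring
  have k2 : z ≠ 0 := by
    rintro rfl
    have k3 : x + β * y = 0 := by
      have : (x + β * y) * s • (x + β * y) = 0 := by
        rw [k1]
        linear_combination e
      exact (mul_eq_zero.1 this).elim id (smul_eq_zero_iff_eq s).1
    rw [k3, smul_zero] at k1
    have k4 : x = 0 := by linear_combination 2⁻¹ * k3 - 2⁻¹ * k1
    have k5 : β * y = 0 := by linear_combination 2⁻¹ * k3 + 2⁻¹ * k1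
    simp [k4, (mul_eq_zero.1 k5).resolve_left h0] at hne
  refine ⟨(x + β * y) / z, fun g hg => ?_, ?_⟩
  · rw [smul_div₀', smul_add, smul_mul', hx g (hle hg), hy g (hle hg), hz g (hle hg), h1 g hg]
  · rw [smul_div₀', k1, hz s hs]
    field_simp
    linear_combination e

end TST2

open TST2

theorem t_ST2 (hH90G : H90G) : ST2 := by
  intro G Ω _ _ _ _ H H' S f hF hI hle h2 hS hf ⟨b, b1, b2, b3⟩
  have key : ∀ g ∈ H, ∀ h ∈ H, g * h ∈ H' ↔ (g ∈ H' ↔ h ∈ H') := fun g hg h hh =>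
    Subgroup.mul_mem_iff_of_index_two (H := H'.subgroupOf H) h2 (a := ⟨g, hg⟩) (b := ⟨h, hh⟩)
  obtain ⟨s, hs, hs'⟩ : ∃ s ∈ H, s ∉ H' := by
    by_contra! h
    rw [Subgroup.relIndex_eq_one.2 h] at h2
    omega
  have inv : ∀ g ∈ H, g ∉ H' → s⁻¹ * g ∈ H' := fun g hg h => by
    simp [key _ (H.inv_mem hs) g hg, hs', h]
  have dec : ∀ g ∈ H, g ∉ H' → ∃ k ∈ H', g = s * k := fun g hg h =>
    ⟨_, inv g hg h, (mul_inv_cancel_left _ _).symm⟩
  obtain ⟨B, B1, B2, B3, B4⟩ : ∃ B : G → Ω, Sm1 Ω H B ∧ (∀ g ∈ H, B g ≠ 0) ∧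
      (∀ g ∈ H', B g = b g) ∧ ∀ g ∈ H', B (s * g) = s • b g / f s g := by
    refine ⟨_, sm_ite hS inv b1 (sm1_comp₂ b1 (sm1_mono (sm11_right hf.sm hs) hle)
      fun u v => s • u / v), fun g hg => ?_, fun g hg => if_pos hg, fun g hg => ?_⟩
    · split_ifs with h
      · exact b2 g h
      · exact div_ne_zero ((smul_ne_zero_iff_ne s).2 (b2 _ (inv g hg h)))
          (hf.ne s hs _ (hle (inv g hg h)))
    · rw [if_neg (by simpa [H'.mul_mem_cancel_right hg] using hs'), inv_mul_cancel_left]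
  have Bs : B s = 1 := by
    have e1 := b3 1 H'.one_mem 1 H'.one_mem
    have e2 := hf.co s hs 1 H.one_mem 1 H.one_mem
    simp only [mul_one, one_smul] at e1 e2
    have e3 := B4 1 H'.one_mem
    rwa [mul_one, ← mul_right_cancel₀ (b2 1 H'.one_mem) e1,
      mul_right_cancel₀ (hf.ne s hs 1 H.one_mem) e2, div_self (hf.ne s hs 1 H.one_mem)] at e3
  have nz : ∀ (g : G), ∀ h ∈ H, g • B h ≠ 0 := fun g h hh => (smul_ne_zero_iff_ne g).2 (B2 h hh)
  obtain ⟨D, hD⟩ : ∃ D : G → G → Ω, ∀ g h, D g h = f g h * B (g * h) / (B g * g • B h) :=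
    ⟨_, fun _ _ => rfl⟩
  have D0 : ∀ g ∈ H, ∀ h ∈ H, D g h ≠ 0 := fun g hg h hh => hD g h ▸ div_ne_zero
    (mul_ne_zero (hf.ne g hg h hh) (B2 _ (H.mul_mem hg hh))) (mul_ne_zero (B2 g hg) (nz g h hh))
  have co : ∀ g ∈ H, ∀ h ∈ H, ∀ l ∈ H, g • D h l * D g (h * l) = D (g * h) l * D g h := by
    intro g hg h hh l hl
    have := B2 g hg
    have := B2 _ (H.mul_mem hg hh)
    have := nz g h hh
    have := nz g _ (H.mul_mem hh hl)
    have := nz (g * h) l hl
    simp only [hD, smul_div₀', smul_mul', ← mul_smul, mul_assoc g]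
    field_simp
    linear_combination B (g * (h * l)) * hf.co g hg h hh l hl
  have d1 : ∀ g ∈ H', ∀ h ∈ H', D g h = 1 := fun g hg h hh => by
    rw [hD, div_eq_one_iff_eq (mul_ne_zero (B2 g (hle hg)) (nz g h (hle hh))),
      B3 _ (H'.mul_mem hg hh), B3 g hg, B3 h hh, b3 g hg h hh]
  have d2 : ∀ h ∈ H', D s h = 1 := fun h hh => by
    rw [hD, div_eq_one_iff_eq (mul_ne_zero (B2 s hs) (nz s h (hle hh))), B4 h hh, B3 h hh, Bs,
      one_mul, mul_div_cancel₀ _ (hf.ne s hs h (hle hh))]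
  have d3 : ∀ g ∈ H, ∀ h ∈ H', D g h = 1 := fun g hg h hh => by
    by_cases e : g ∈ H'
    · exact d1 g e h hh
    obtain ⟨k, hk, rfl⟩ := dec g hg e
    simpa [d1 k hk h hh, d2 _ (H'.mul_mem hk hh), d2 k hk] using
      (co s hs k (hle hk) h (hle hh)).symm
  have d4 : ∀ g ∈ H, ∀ l ∈ H, l ∉ H' → D g l = D g s := fun g hg l hl e => by
    obtain ⟨k, hk, rfl⟩ := dec l hl e
    simpa [d3 s hs k hk, d3 _ (H.mul_mem hg hs) k hk] using co g hg s hs k (hle hk)
  have d5 : ∀ g ∈ H, ∀ h ∈ H', D (g * h) s = D g s * g • D h s := fun g hg h hh => by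
    have := co g hg h (hle hh) s hs
    rwa [d3 g hg h hh, mul_one, d4 g hg _ (H.mul_mem (hle hh) hs)
      (by simpa [H'.mul_mem_cancel_left hh] using hs'), mul_comm, eq_comm] at this
  have d6 : ∀ g ∈ H, g • D s s = D (g * s) s * D g s := fun g hg => by
    simpa [d3 g hg (s * s) (by simp [key s hs s hs])] using co g hg s hs s hs
  obtain ⟨y, y0, y1⟩ := hH90G G Ω H' (fun g => D g s) (FO_mono hF hle) (sm1_mono (by
    simp only [hD]
    exact sm1_comp₂ (sm1_comp₂ (sm11_left hf.sm hs) (sm_right B1 hs) (· * ·))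
      (sm1_comp₂ B1 (sm1_smul _) (· * ·)) (· / ·)) hle) (fun g hg => D0 g (hle hg) s hs)
    fun g hg => d5 g (hle hg)
  have tr : ∀ x : Ω, ∀ a, (∀ g ∈ H', g • x = D g s * x) → D s s = a * (x * s • x) →
      ∀ g ∈ H, g ∉ H' → D g s = a * (x * g • x) := fun x a h h' g hg e => by
    obtain ⟨k, hk, rfl⟩ := dec g hg e
    rw [d5 s hs k hk, mul_smul, h k hk, smul_mul', h']
    ring
  have y2 : ∀ g : G, g • y ≠ 0 := fun g => (smul_ne_zero_iff_ne g).2 y0
  have y3 := tr y (D s s / (y * s • y)) y1 (div_mul_cancel₀ _ (mul_ne_zero y0 (y2 s))).symm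
  obtain ⟨β, c0, c1⟩ := hH90G G Ω H (fun g => if g ∈ H' then 1 else -1) hF
    (sm_ite hS inv (sm1_const _) (sm1_const _)) (fun g _ => by split_ifs <;> simp)
    fun g hg h hh => by
      by_cases e : g ∈ H' <;> by_cases e' : h ∈ H' <;> simp [key g hg h hh, e, e']
  obtain ⟨w, w1, w2⟩ := norm (a := D s s / (y * s • y)) hI hle hs (fun g hg => by
      have := y2 g
      have := y2 (g * s)
      rw [smul_div₀', smul_mul', ← mul_smul, d6 g hg]
      generalize D s s / (y * s • y) = a at y3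
      by_cases e : g ∈ H'
      · have := D0 g hg s hs
        rw [y3 _ (H.mul_mem hg hs) (by simpa [H'.mul_mem_cancel_left e] using hs'), y1 g e]
        field_simp
      · have e' : g * s ∈ H' := by simp [key g hg s hs, e, hs']
        have := D0 _ (hle e') s hs
        rw [y3 g hg e, y1 _ e']
        field_simp) c0 (fun g hg => by simpa [hg] using c1 g (hle hg))
    (by simpa [hs'] using c1 s hs) fun g hg => by
      rw [smul_pow', c1 g hg]
      split_ifs <;> ring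
  have w0 : w ≠ 0 := fun h => div_ne_zero (D0 s hs s hs) (mul_ne_zero y0 (y2 s)) (by simp [← w2, h])
  have x1 : ∀ g ∈ H', g • (y * w) = D g s * (y * w) := fun g hg => by
    rw [smul_mul', y1 g hg, w1 g hg, mul_assoc]
  have x2 := tr (y * w) 1 x1 (by
    rw [smul_mul', mul_mul_mul_comm, w2, one_mul, mul_div_cancel₀ _ (mul_ne_zero y0 (y2 s))])
  refine ⟨_, sm1_comp₂ B1 (sm_ite hS inv (sm1_const 1) (sm1_const (y * w))) (· * ·),
    fun g hg => mul_ne_zero (B2 g hg) (by split_ifs <;> simp [y0, w0]), fun g hg h hh => ?_⟩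
  have e0 := (div_eq_iff (mul_ne_zero (B2 g hg) (nz g h hh))).1 (hD g h).symm
  rw [← mul_assoc, e0, smul_mul']
  by_cases e' : h ∈ H'
  · simp only [d3 g hg h e', H'.mul_mem_cancel_right e', e', if_true, smul_one]
    ring
  rw [d4 g hg h hh e', if_neg e']
  by_cases e : g ∈ H'
  · rw [if_pos e, if_neg (by simp [key g hg h hh, e, e']), x1 g e]
    ring
  · rw [if_neg e, if_pos (by simp [key g hg h hh, e, e']), x2 g hg e]
    ring

end Pool.Agent.P.MP_9c97e9_nt.KT
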