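import Pool.Agent.P.MP_9c97e9_nt.KT.IfT2

/-! Tangent lines. -/

namespace Pool.Agent.P.MP_9c97e9_nt.KT

open MP_8b7eba_nt
open MP_8b7eba_nt.R2
open MP_8b7eba_nt.Mod (M2 G0 UH xx yy ff)
open Filter Topology

namespace TTAN

variable {τ : ℂ}

theorem an {G : ℂ → ℂ} (h : Hol G) (hτ : 0 < τ.im) : AnalyticAt ℂ G τ :=
  h.analyticAt (Mod.UH_mem_nhds hτ)

theorem hol_yy : Hol yy := (Mod.diff_xx.deriv Mod.isOpen_UH).div (Mod.diff_ff.const_mul _)
  fun _ hz => mul_ne_zero Mod.two_pi_I_ne (Mod.ff_ne hz)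

theorem fin (c : ℂ) (hτ : 0 < τ.im) : analyticOrderAt (fun z => xx z - c) τ ≠ ⊤ := fun h => by
  have h0 := ((Mod.diff_xx.sub_const c).analyticOnNhd
    Mod.isOpen_UH).eqOn_zero_of_preconnected_of_eventuallyEq_zero
    (convex_halfSpace_im_gt 0).isPreconnected hτ (analyticOrderAt_eq_top.1 h)
  have k : ∀ z : ℂ, 0 < z.im → xx z = c := fun z hz => sub_eq_zero.1 (h0 hz)
  have a := tendsto_nhds_unique Mod.xx_cusp (tendsto_const_nhds.congr' (by
    filter_upwards [Mod.ev_im 0] with z hz using (k _ (M2.im_act_pos (by decide) hz)).symm))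
  have b := tendsto_nhds_unique R1.unif_tendsto_W (tendsto_const_nhds.congr' (by
    filter_upwards [Mod.ev_im 0] with z hz using (k _ (M2.im_act_pos (by decide) hz)).symm))
  norm_num [← a] at b

theorem ord_x (hτ : 0 < τ.im) :
    analyticOrderAt (fun z => xx z - xx τ) τ = analyticOrderAt yy τ + 1 := by
  rw [← (an Mod.diff_xx hτ).analyticOrderAt_deriv_add_one]
  have h := an (Mod.diff_ff.const_mul (2 * Real.pi * Complex.I)) hτ
  have : deriv xx =ᶠ[𝓝 τ] (fun z => 2 * Real.pi * Complex.I * ff z) * yy := by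
    filter_upwards [Mod.UH_mem_nhds hτ] with z hz
    exact (mul_div_cancel₀ _ (mul_ne_zero Mod.two_pi_I_ne (Mod.ff_ne hz))).symm
  rw [analyticOrderAt_congr this, analyticOrderAt_mul h (an hol_yy hτ),
    h.analyticOrderAt_eq_zero.2 (mul_ne_zero Mod.two_pi_I_ne (Mod.ff_ne hτ)), zero_add]

theorem main {a b x₀ x₁ : ℂ}
    (e : ∀ X : ℂ, 4 * X ^ 3 - 7 * X ^ 2 - 36 * X - (a * X + b) ^ 2 = 4 * (X - x₀) * (X - x₁) ^ 2)
    (n : a * x₁ + b ≠ 0) (hτ : 0 < τ.im) :
    analyticOrderAt (fun z => yy z - (a * xx z + b)) τ ≠ ⊤ ∧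
    (Odd (analyticOrderNatAt (fun z => yy z - (a * xx z + b)) τ) ↔
      xx τ = x₀ ∧ yy τ = a * x₀ + b) := by
  have ax := an Mod.diff_xx hτ
  have ay := an hol_yy hτ
  have ah : AnalyticAt ℂ (fun z => yy z - (a * xx z + b)) τ := by fun_prop
  have ak : AnalyticAt ℂ (fun z => yy z + (a * xx z + b)) τ := by fun_prop
  have au : ∀ c, AnalyticAt ℂ (fun z => xx z - c) τ := fun c => by fun_prop
  have ac : ∀ c : ℂ, AnalyticAt ℂ (fun _ : ℂ => c) τ := fun c => analyticAt_const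
  have E : ∀ z : ℂ, 0 < z.im → (yy z - (a * xx z + b)) * (yy z + (a * xx z + b)) =
      4 * (xx z - x₀) * (xx z - x₁) ^ 2 := fun z hz => by
    linear_combination e (xx z) + R1.yy_sq hz
  have O := analyticOrderAt_mul ah ak
  rw [analyticOrderAt_congr (g := (fun _ => 4) * (fun z => xx z - x₀) * (fun z => xx z - x₁) ^ 2)
    (by filter_upwards [Mod.UH_mem_nhds hτ] with z hz using E z hz),
    analyticOrderAt_mul ((ac 4).mul (au _)) ((au _).pow 2), analyticOrderAt_mul (ac 4) (au _),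
    analyticOrderAt_pow (au _), (ac 4).analyticOrderAt_eq_zero.2 (by norm_num), zero_add] at O
  obtain ⟨u, hu⟩ := ENat.ne_top_iff_exists.1 (fin x₀ hτ)
  obtain ⟨v, hv⟩ := ENat.ne_top_iff_exists.1 (fin x₁ hτ)
  rw [← hu, ← hv, two_smul] at O
  have F := WithTop.add_ne_top.1 (O.symm.trans_ne (by norm_cast; exact ENat.natCast_ne_top _))
  obtain ⟨h, hh⟩ := ENat.ne_top_iff_exists.1 F.1
  obtain ⟨k, hk⟩ := ENat.ne_top_iff_exists.1 F.2
  refine ⟨F.1, ?_⟩
  rw [← hh, ← hk] at O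
  rw [analyticOrderNatAt, ← hh, ENat.toNat_natCast, Nat.odd_iff]
  norm_cast at O
  have z0 : ∀ {G : ℂ → ℂ} {m : ℕ}, AnalyticAt ℂ G τ → (m : ℕ∞) = analyticOrderAt G τ → G τ ≠ 0 →
      m = 0 := fun hG hm h => by exact_mod_cast hm.trans (hG.analyticOrderAt_eq_zero.2 h)
  by_cases h1 : yy τ = a * xx τ + b
  swap
  · have := z0 ah hh (sub_ne_zero.2 h1)
    exact ⟨fun _ => by omega, fun h => (h1 (h.1 ▸ h.2)).elim⟩
  by_cases h2 : xx τ = x₀
  swap
  · have := z0 (au _) hu (sub_ne_zero.2 h2)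
    have := z0 ak hk fun h => by
      have h3 : xx τ = x₁ := by
        have := E τ hτ
        rw [h, mul_zero, eq_comm] at this
        simpa [sub_eq_zero, h2] using this
      exact n (by rw [← h3]; linear_combination (h - h1) / 2)
    exact ⟨fun _ => by omega, fun h => (h2 h.1).elim⟩
  refine ⟨fun _ => ⟨h2, h2 ▸ h1⟩, fun _ => ?_⟩
  subst h2
  have hy := ord_x hτ
  by_cases h3 : yy τ = 0
  · have := z0 (au _) hv (sub_ne_zero.2 fun h => n (by rw [← h, ← h1, h3]))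
    obtain ⟨y, hy'⟩ := ENat.ne_top_iff_exists.1 (WithTop.add_ne_top.1 (hy ▸ fin _ hτ)).1
    have q : ∀ c : ℂ, analyticOrderAt (yy + (fun _ => c) * fun z => xx z - xx τ) τ = y := fun c => by
      rw [analyticOrderAt_add_eq_left_of_lt, hy']
      rw [analyticOrderAt_mul (ac c) (au _), hy, ← hy']
      exact lt_of_lt_of_le (by norm_cast; omega) le_add_self
    have hb : b = -a * xx τ := by linear_combination h3 - h1
    have q1 : (h : ℕ∞) = y := by
      rw [hh, ← q (-a)]; congr 1; funext z; simp only [hb, Pi.add_apply, Pi.mul_apply]; ring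
    have q2 : (k : ℕ∞) = y := by
      rw [hk, ← q a]; congr 1; funext z; simp only [hb, Pi.add_apply, Pi.mul_apply]; ring
    rw [← hu, ← hy'] at hy
    norm_cast at hy q1 q2
    omega
  · have := z0 ak hk fun h => h3 (by linear_combination (h + h1) / 2)
    rw [← hu, ay.analyticOrderAt_eq_zero.2 h3, zero_add] at hy
    norm_cast at hy
    omega

theorem alg {x y : Om} (h : y ^ 2 = 4 * x ^ 3 - 7 * x ^ 2 - 36 * x) : ∃ a b x₁ : Om,
    (4 * x + 8 * x₁ = 7 + a ^ 2 ∧ 8 * x * x₁ + 4 * x₁ ^ 2 = -36 - 2 * a * b ∧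
      4 * x * x₁ ^ 2 = b ^ 2) ∧ a * x₁ + b ≠ 0 ∧ y = a * x + b := by
  obtain ⟨p, q, r, hp, hq, hr, e⟩ : ∃ p q r : Om, x = p ^ 2 ∧ x + 9 / 4 = q ^ 2 ∧ x - 4 = r ^ 2 ∧
      y = -2 * (p * q * r) := by
    obtain ⟨p, hp⟩ := IsAlgClosed.exists_pow_nat_eq x two_pos
    obtain ⟨q, hq⟩ := IsAlgClosed.exists_pow_nat_eq (x + 9 / 4) two_pos
    obtain ⟨r, hr⟩ := IsAlgClosed.exists_pow_nat_eq (x - 4) two_pos
    have : y ^ 2 = (2 * (p * q * r)) ^ 2 := by
      rw [mul_pow, mul_pow, mul_pow, hp, hq, hr, h]; ring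
    rcases sq_eq_sq_iff_eq_or_eq_neg.1 this with e | e
    · exact ⟨-p, q, r, by rw [neg_sq, hp], hq.symm, hr.symm, by rw [e]; ring⟩
    · exact ⟨p, q, r, hp.symm, hq.symm, hr.symm, by rw [e]; ring⟩
  refine ⟨2 * (p + q + r), -2 * ((p + q + r) * x + p * q * r), x + (p * q + p * r + q * r),
    ⟨by linear_combination 4 * (hp + hq + hr), ?_, ?_⟩, fun n => ?_, by rw [e]; ring⟩
  · subst hp
    linear_combination -4 * (r ^ 2 - p ^ 2) * hq - 9 * hr
  · subst hp; ring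
  · have : (p + q) * (p + r) * (q + r) = 0 := by linear_combination n / 2
    rcases mul_eq_zero.1 this with n | n
    rcases mul_eq_zero.1 n with n | n
    · have : (9 / 4 : Om) = 0 := by linear_combination hq - hp + (q - p) * n
      norm_num at this
    · have : (4 : Om) = 0 := by linear_combination hp - hr + (p - r) * n
      norm_num at this
    · have : (25 / 4 : Om) = 0 := by linear_combination hq - hr + (q - r) * n
      norm_num at this

end TTAN

theorem t_TAN (hFB : FB) : TAN := by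
  intro τ₀ x y ⟨h0, hx, hy⟩
  obtain ⟨-, ix, iy, ic, -, cl, -⟩ := hFB
  obtain ⟨a, b, x₁, ⟨e1, e2, e3⟩, n, e⟩ := TTAN.alg (x := x) (y := y) (io.injective (by
    simp only [map_sub, map_mul, map_pow, map_ofNat, hx, hy, R1.yy_sq h0]))
  have M := fun τ => TTAN.main (τ := τ) (a := io a) (b := io b) (x₀ := io x) (x₁ := io x₁)
    (fun X => by
      have e1 := congrArg io e1
      have e2 := congrArg io e2
      have e3 := congrArg io e3
      simp only [map_add, map_sub, map_mul, map_pow, map_ofNat, map_neg] at e1 e2 e3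
      linear_combination X ^ 2 * e1 - X * e2 + e3)
    (by rw [← map_mul, ← map_add]; exact (map_ne_zero io).2 n)
  have c1 := cl _ _ (ic a) ix
  have c2 := cl _ _ c1.2.1 (ic b)
  have c3 := cl _ _ c2.1 c2.1
  have c4 := cl _ _ iy c3.2.2.1
  have q : (yy + -((fun _ => io a) * xx + fun _ => io b)) =
      fun z => yy z - (io a * xx z + io b) := funext fun z => (sub_eq_add_neg _ _).symm
  refine ⟨_, c4.1, fun h => ?_, fun g hg => ?_, fun τ hτ => ?_⟩
  · have := congrArg Subtype.val h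
    rw [BM.coe_lf c4.1, q] at this
    refine (M τ₀ h0).1 (analyticOrderAt_eq_top.2 ?_)
    filter_upwards [Mod.UH_mem_nhds h0] with z hz using (BM.mf_eq_zero (q ▸ c4.1.1)).1 this z hz
  · have f1 := (mem_fixingSubgroup_iff _).1 hg.1
    have f2 := fun a => (mem_fixingSubgroup_iff _).1 hg.2 _ ⟨a, rfl⟩
    rw [c4.2.2.2.1, c3.2.2.2.2.2.1, c2.2.2.2.1, c1.2.2.2.2.1, smul_add, smul_neg, smul_add,
      smul_mul', f1 _ (Or.inl rfl), f1 _ (Or.inr rfl)]
    exact congrArg _ (congrArg _ (congrArg₂ _ (congrArg (· * _) (f2 a)) (f2 b)))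
  · rw [q, (M τ hτ).2, ← map_mul, ← map_add, ← e]
    exact ⟨fun h => ⟨hτ, h.1.symm, h.2.symm⟩, fun h => ⟨h.2.1.symm, h.2.2.symm⟩⟩

end Pool.Agent.P.MP_9c97e9_nt.KT
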