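import Pool.Agent.P.MP_9c97e9_nt.KT.IfT

/-! Cocycles with values in the roots of unity of 2-power order split. -/

namespace Pool.Agent.P.MP_9c97e9_nt.KT

open BT

namespace TTRG

variable {G Ω Q : Type} [Group G] [Field Ω] [MulSemiringAction G Ω] [Group Q] {H : Subgroup G}

/-- the preimage of a subgroup of a quotient -/
def pre (π : H →* Q) (P : Subgroup Q) : Subgroup G := (P.comap π).map H.subtype

theorem mem_pre {π : H →* Q} {P : Subgroup Q} {g : G} :
    g ∈ pre π P ↔ ∃ hg : g ∈ H, π ⟨g, hg⟩ ∈ P :=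
  ⟨fun ⟨x, hx, e⟩ => e ▸ ⟨x.2, hx⟩, fun ⟨hg, h⟩ => ⟨⟨g, hg⟩, h, rfl⟩⟩

theorem pre_le {π : H →* Q} {P : Subgroup Q} : pre π P ≤ H := Subgroup.map_subtype_le _

theorem rel_pre [Finite Q] {π : H →* Q} (hπ : Function.Surjective π) {P P' : Subgroup Q} {j : ℕ}
    (h : P ≤ P') (h1 : Nat.card P = 2 ^ j) (h2 : Nat.card P' = 2 ^ (j + 1)) :
    (pre π P).relIndex (pre π P') = 2 := by
  rw [pre, pre, Subgroup.relIndex_map_map_of_injective _ _ H.subtype_injective,
    Subgroup.relIndex_comap, Subgroup.map_comap_eq_self_of_surjective hπ]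
  have := (P.subgroupOf P').card_mul_index
  rw [Nat.card_congr (Subgroup.subgroupOfEquivOfLe h).toEquiv, h1, h2, pow_succ] at this
  exact Nat.eq_of_mul_eq_mul_left (by positivity) this

theorem root {f : G → G → Ω} {m k : ℕ} (hm : Odd m) (h : ∀ g ∈ H, ∀ h ∈ H, f g h ^ 2 ^ k = 1)
    (h' : TrivG H fun g h => f g h ^ m) : TrivG H f := by
  obtain ⟨c, -, hc⟩ := Nat.exists_mul_mod_eq_of_coprime 1
    (Nat.Coprime.pow_right k (Nat.coprime_two_right.2 hm)) (by positivity)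
  obtain ⟨b, h1, h2, h3⟩ := h'
  refine ⟨fun g => b g ^ c, sm1_comp h1 (· ^ c), fun g hg => pow_ne_zero _ (h2 g hg),
    fun g hg l hl => ?_⟩
  have := congrArg (· ^ c) (h3 g hg l hl)
  simp only [mul_pow, ← pow_mul] at this
  rwa [pow_eq_pow_mod _ (h g hg l hl), hc, ← pow_eq_pow_mod _ (h g hg l hl), pow_one,
    ← smul_pow'] at this

theorem down (hGRP : GRP) [Finite Q] {π : H →* Q} (hπ : Function.Surjective π) {S : Finset Ω}
    (hS : ∀ n : H, (n : G) ∈ NFx H S → π n = 1) (hO : FO Ω H) {f : G → G → Ω} (hf : Co2G H f)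
    {P : Subgroup Q} (h : TrivG (pre π P) f) : TrivG H fun g h => f g h ^ P.index := by
  classical
  have := Fintype.ofFinite (Q ⧸ P)
  let a : G → Q ⧸ P → Q ⧸ P := fun g j => if hg : g ∈ H then π ⟨g, hg⟩ • j else j
  have ha : ∀ g (hg : g ∈ H) j, a g j = π ⟨g, hg⟩ • j := fun g hg j => dif_pos hg
  have := hGRP G Ω H (Q ⧸ P) a (fun _ => f) hO (fun j => ?_) (fun g hg l hl j => ?_)
    ⟨S, fun g hg n hn hs => funext fun j => ?_⟩ (fun _ => hf.ne) (fun _ => hf.sm) (fun _ => hf.co)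
    fun j => ⟨((1 : Q) : Q ⧸ P), pre π P, ?_, fun g => ?_, h⟩
  · simpa only [Finset.prod_const, Finset.card_univ, ← Nat.card_eq_fintype_card,
      Subgroup.index] using this
  · rw [ha 1 H.one_mem]
    exact (congrArg (· • j) π.map_one).trans (one_smul _ _)
  · rw [ha _ (H.mul_mem hg hl), ha _ hg, ha _ hl, ← mul_smul, ← map_mul]
    rfl
  · rw [ha _ (H.mul_mem hg hn), ha _ hg, ← mul_one (π ⟨g, hg⟩),
      ← hS ⟨n, hn⟩ (mem_NF.2 ⟨hn, hs⟩), ← map_mul]
    rfl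
  · obtain ⟨q, rfl⟩ := QuotientGroup.mk_surjective j
    obtain ⟨g, rfl⟩ := hπ q
    exact ⟨g, g.2, by rw [ha _ g.2, MulAction.Quotient.smul_mk, smul_eq_mul, mul_one]⟩
  · rw [mem_pre, ← exists_prop]
    refine exists_congr fun hg => ?_
    rw [ha _ hg, ← MulAction.mem_stabilizer_iff, MulAction.stabilizer_quotient]

end TTRG

open TTRG in
theorem t_TRG (hST2 : ST2) (hGRP : GRP) : TRG := by
  intro G Ω _ _ _ _ H k f hO hI hf h1 hk
  obtain ⟨S₀, hS₀⟩ := hf.sm
  obtain ⟨S, hsub, hS⟩ := exists_stb hO S₀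
  have := normal_NF hS
  have : Finite (H ⧸ (NFx H S).subgroupOf H) :=
    Nat.finite_of_card_ne_zero (relIndex_NF hO S)
  set π := QuotientGroup.mk' ((NFx H S).subgroupOf H) with hπ
  have hs : Function.Surjective π := QuotientGroup.mk'_surjective _
  have hker : ∀ n : H, π n = 1 ↔ (n : G) ∈ NFx H S := fun n => QuotientGroup.eq_one_iff n
  have chain : ∀ j : ℕ, 2 ^ j ∣ Nat.card (H ⧸ (NFx H S).subgroupOf H) →
      ∃ P : Subgroup (H ⧸ (NFx H S).subgroupOf H), Nat.card P = 2 ^ j ∧ TrivG (pre π P) f := by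
    intro j
    induction j with
    | zero =>
      refine fun _ => ⟨⊥, Subgroup.card_bot, fun _ => 1, sm1_const _, fun _ _ => one_ne_zero,
        fun g hg l hl => ?_⟩
      obtain ⟨g1, g2⟩ := mem_pre.1 hg
      obtain ⟨l1, l2⟩ := mem_pre.1 hl
      have e1 := (hS₀ g g1 1 H.one_mem l l1 fun s h =>
        (mem_NF.1 ((hker _).1 l2)).2 s (hsub h)).2
      have e2 := (hS₀ 1 H.one_mem 1 H.one_mem g g1 fun s h =>
        (mem_NF.1 ((hker _).1 g2)).2 s (hsub h)).1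
      rw [one_mul] at e1 e2
      rw [e1, e2, h1, smul_one]
    | succ j ih =>
      intro hd
      obtain ⟨P, p1, p2⟩ := ih ((pow_dvd_pow 2 j.le_succ).trans hd)
      obtain ⟨P', q1, q2⟩ := Sylow.exists_subgroup_card_pow_succ hd p1
      refine ⟨P', q1, hST2 G Ω _ _ S f (FO_mono hO pre_le) (hI _ pre_le)
        (Subgroup.map_mono (Subgroup.comap_mono q2)) (rel_pre hs q2 p1 q1) (fun n hn => ?_)
        (co_mono hf pre_le) p2⟩
      obtain ⟨n1, n2⟩ := mem_NF.1 hn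
      refine mem_pre.2 ⟨pre_le n1, ?_⟩
      rw [(hker ⟨n, pre_le n1⟩).2 (mem_NF.2 ⟨pre_le n1, n2⟩)]
      exact P.one_mem
  obtain ⟨e, m, hm, he⟩ := Nat.exists_eq_two_pow_mul_odd (relIndex_NF hO S)
  obtain ⟨P, p1, p2⟩ := chain e ⟨m, he⟩
  have p3 : P.index = m := by
    have := P.card_mul_index
    rw [p1] at this
    exact Nat.eq_of_mul_eq_mul_left (by positivity) (this.trans he)
  exact root hm hk (p3 ▸ down hGRP hs (fun n => (hker n).2) hO hf p2)

end Pool.Agent.P.MP_9c97e9_nt.KT
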