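import Pool.Agent.P.MP_9c97e9_nt.KT.IfT

namespace Pool.Agent.P.MP_9c97e9_nt.KT

namespace TTS0

open MvPolynomial

variable {k : Type} [Field k] {n : ℕ}

/-- kill the variables below `i` -/
noncomputable def ph (k : Type) [Field k] (n i : ℕ) :
    MvPolynomial (Fin n) k →ₐ[k] MvPolynomial (Fin n) k :=
  aeval fun j => if (j : ℕ) < i then 0 else X j

theorem ph_succ (i : ℕ) : (ph k n (i + 1)).comp (ph k n i) = ph k n (i + 1) := by
  refine algHom_ext fun j => ?_
  by_cases h : (j : ℕ) < i
  · simp [ph, h, h.le]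
  · simp [ph, h]

theorem le_height (i : ℕ) (hi : i ≤ n) : (i : ℕ∞) ≤ (RingHom.ker (ph k n i)).height := by
  induction i with
  | zero => simp
  | succ i ih =>
    have := RingHom.ker_isPrime (ph k n i)
    have := RingHom.ker_isPrime (ph k n (i + 1))
    have h : RingHom.ker (ph k n i) < RingHom.ker (ph k n (i + 1)) := by
      refine lt_of_le_of_ne (fun p hp => ?_) fun e => ?_
      · rw [RingHom.mem_ker] at hp ⊢
        rw [← ph_succ, AlgHom.comp_apply, hp, map_zero]
      · have h1 : X ⟨i, hi⟩ ∈ RingHom.ker (ph k n (i + 1)) := by simp [ph]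
        rw [← e] at h1
        simp [ph] at h1
    push_cast
    exact le_trans (add_le_add_left (ih (by omega)) 1) (Ideal.height_add_one_le_of_lt_of_isPrime h)

theorem common_zero [IsAlgClosed k] {m : ℕ} (hm : m < n) (q : Fin m → MvPolynomial (Fin n) k)
    (h0 : ∀ j, aeval (0 : Fin n → k) (q j) = 0) : ∃ x : Fin n → k, x ≠ 0 ∧ ∀ j, aeval x (q j) = 0 := by
  classical
  by_contra hno
  push Not at hno
  set I : Ideal (MvPolynomial (Fin n) k) := Ideal.span (Finset.univ.image q : Finset _) with hI
  have hz : zeroLocus k I = {0} := by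
    rw [hI, zeroLocus_span]
    ext x
    simp only [Finset.coe_image, Finset.coe_univ, Set.image_univ, Set.forall_mem_range,
      Set.mem_ofPred_eq, Set.mem_singleton_iff]
    refine ⟨fun h => by_contra fun hx => ?_, fun h => h ▸ h0⟩
    obtain ⟨j, hj⟩ := hno x hx
    exact hj (h j)
  have hr := vanishingIdeal_zeroLocus_eq_radical (K := k) I
  rw [hz] at hr
  have hmin : vanishingIdeal k ({0} : Set (Fin n → k)) ∈ I.minimalPrimes := by
    rw [← Ideal.radical_minimalPrimes, ← hr, Ideal.minimalPrimes_eq_subsingleton_self]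
    rfl
  have h1 := Ideal.height_le_card_of_mem_minimalPrimes_span_finset hmin
  have h2 : RingHom.ker (ph k n n) ≤ vanishingIdeal k ({0} : Set (Fin n → k)) := fun p hp => by
    have e : (aeval (0 : Fin n → k)).comp (ph k n n) = aeval (0 : Fin n → k) :=
      algHom_ext fun j => by simp [ph]
    rw [mem_vanishingIdeal_singleton_iff, ← e, AlgHom.comp_apply, RingHom.mem_ker.1 hp, map_zero]
  have h3 := ((le_height n le_rfl).trans (Ideal.height_mono h2)).trans h1
  have h4 : (Finset.univ.image q).card ≤ m := Finset.card_image_le.trans (by simp)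
  have h5 : n ≤ (Finset.univ.image q).card := by exact_mod_cast h3
  omega

end TTS0

theorem t_TS0 : TS0 := by
  intro k V E _ _ _ _ _ _ _ B W _ hlt hB
  let e := Module.finBasis k V
  let c := Module.finBasis k W
  let B' : V →ₗ[k] V →ₗ[k] W := LinearMap.mk₂ k (fun v v' => ⟨B v v', hB v v'⟩)
    (fun _ _ _ => Subtype.ext (by simp)) (fun _ _ _ => Subtype.ext (by simp))
    (fun _ _ _ => Subtype.ext (by simp)) (fun _ _ _ => Subtype.ext (by simp))
  obtain ⟨x, hx, h⟩ := TTS0.common_zero hlt (fun j => ∑ a, ∑ b,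
    MvPolynomial.C (c.repr (B' (e a) (e b)) j) * MvPolynomial.X a * MvPolynomial.X b)
    (fun j => by simp)
  refine ⟨∑ a, x a • e a, fun h0 => hx ?_, ?_⟩
  · funext a
    exact Fintype.linearIndependent_iff.1 e.linearIndependent x h0 a
  · have : B' (∑ a, x a • e a) (∑ a, x a • e a) = 0 := by
      refine c.repr.injective (Finsupp.ext fun j => ?_)
      have := h j
      simp only [map_sum, map_mul, MvPolynomial.aeval_C, MvPolynomial.aeval_X,
        Algebra.algebraMap_self, RingHom.id_apply] at this
      simp only [map_sum, map_smul, LinearMap.sum_apply, LinearMap.smul_apply, map_zero,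
        Finsupp.coe_finsetSum, Finset.sum_apply, Finsupp.smul_apply, smul_eq_mul,
        Finsupp.zero_apply, Finset.mul_sum]
      rw [← this, Finset.sum_comm]
      exact Finset.sum_congr rfl fun a _ => Finset.sum_congr rfl fun b _ => by ring
    exact congrArg Subtype.val this

end Pool.Agent.P.MP_9c97e9_nt.KT
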