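import Pool.Agent.P.MP_9c97e9_nt.KT.IfT

/-! Proof of TS1: the theorem of Tsen for ternary quadratic forms. -/

namespace Pool.Agent.P.MP_9c97e9_nt.KT

open Submodule Module
open scoped Pointwise Classical

namespace TTS1

theorem grow (h : ℕ → ℕ) (c r n₀ : ℕ) (h0 : 1 ≤ h n₀) (h1 : ∀ n, h n ≤ (n + 1) * c) :
    ∃ n, h (n + n + r) < 3 * h n := by
  by_contra hc
  push Not at hc
  have key : ∀ j : ℕ, ∃ m, m + r = 2 ^ j * (n₀ + r) ∧ 3 ^ j ≤ h m := fun j => by
    induction j with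
    | zero => exact ⟨n₀, by simp, h0⟩
    | succ j ih =>
      obtain ⟨m, e, l⟩ := ih
      exact ⟨m + m + r, by rw [pow_succ', mul_assoc, ← e]; ring,
        by have := hc m; rw [pow_succ']; omega⟩
  obtain ⟨j, hj⟩ := pow_unbounded_of_one_lt (((n₀ + r + 1) * c : ℕ) : ℝ) (y := 3 / 2) (by norm_num)
  obtain ⟨m, e, l⟩ := key j
  have h2 : 3 ^ j ≤ (n₀ + r + 1) * c * 2 ^ j := by
    have : m + 1 ≤ (n₀ + r + 1) * 2 ^ j := by
      have := Nat.one_le_two_pow (n := j)
      nlinarith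
    exact l.trans ((h1 m).trans ((Nat.mul_le_mul_right c this).trans_eq (by ring)))
  rw [div_pow, lt_div_iff₀ (by positivity)] at hj
  exact absurd (by exact_mod_cast hj) (not_lt.2 h2)

variable (k : Type) {Ω : Type} [Field k] [Field Ω] [Algebra k Ω] (x : Ω)

/-- powers of bounded exponent -/
noncomputable def S (n : ℕ) : Finset Ω := (Finset.range (n + 1)).image (x ^ ·)

/-- polynomials of bounded degree -/
noncomputable def P (n : ℕ) : Submodule k Ω := span k (S x n)

variable {k x}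

theorem pow_mem {i n : ℕ} (h : i ≤ n) : x ^ i ∈ P k x n :=
  subset_span (Finset.mem_image_of_mem _ (Finset.mem_range.2 (by omega)))

theorem P_le {n : ℕ} {W : Submodule k Ω} (h : ∀ i ≤ n, x ^ i ∈ W) : P k x n ≤ W :=
  span_le.2 fun y hy => by
    obtain ⟨i, hi, rfl⟩ := Finset.mem_image.1 hy
    exact h i (by have := Finset.mem_range.1 hi; omega)

theorem P_mono {m n : ℕ} (h : m ≤ n) : P k x m ≤ P k x n := P_le fun _ hi => pow_mem (hi.trans h)

theorem P_mul (m n : ℕ) : P k x m * P k x n ≤ P k x (m + n) := by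
  rw [P, P, span_mul_span, span_le]
  rintro _ ⟨_, h1, _, h2, rfl⟩
  obtain ⟨i, hi, rfl⟩ := Finset.mem_image.1 h1
  obtain ⟨j, hj, rfl⟩ := Finset.mem_image.1 h2
  rw [Finset.mem_range] at hi hj
  simpa [pow_add] using pow_mem (k := k) (x := x) (show i + j ≤ m + n by omega)

theorem PT_mul (m n : ℕ) (T : Submodule k Ω) : P k x m * (P k x n * T) ≤ P k x (m + n) * T :=
  mul_assoc (P k x m) _ _ ▸ mul_le_mul_left (P_mul m n) T

theorem mem_P {a : Ω} (h : a ∈ Algebra.adjoin k {x}) : ∃ m, a ∈ P k x m := by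
  induction h using Algebra.adjoin_induction with
  | mem y hy => exact ⟨1, by simpa [show y = x from hy] using pow_mem (k := k) (x := x) (le_refl 1)⟩
  | algebraMap c =>
    exact ⟨0, by simpa [Algebra.smul_def] using smul_mem _ c (pow_mem (k := k) (x := x) (le_refl 0))⟩
  | add a b _ _ ha hb =>
    obtain ⟨m, ha⟩ := ha
    obtain ⟨n, hb⟩ := hb
    exact ⟨m + n, add_mem (P_mono (by omega) ha) (P_mono (by omega) hb)⟩
  | mul a b _ _ ha hb =>
    obtain ⟨m, ha⟩ := ha
    obtain ⟨n, hb⟩ := hb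
    exact ⟨m + n, P_mul m n (mul_mem_mul ha hb)⟩

theorem mem_V {T : Set Ω} {b : Ω} (h : b ∈ span (Algebra.adjoin k {x}) T) :
    ∃ m, b ∈ P k x m * span k T := by
  induction h using span_induction with
  | mem t ht =>
    exact ⟨0, by simpa using mul_mem_mul (pow_mem (k := k) (x := x) (le_refl 0)) (subset_span ht)⟩
  | zero => exact ⟨0, zero_mem _⟩
  | add a b _ _ ha hb =>
    obtain ⟨m, ha⟩ := ha
    obtain ⟨n, hb⟩ := hb
    exact ⟨m + n, add_mem (mul_le_mul_left (P_mono (by omega)) _ ha)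
      (mul_le_mul_left (P_mono (by omega)) _ hb)⟩
  | smul a b _ hb =>
    obtain ⟨m, ha⟩ := mem_P a.2
    obtain ⟨n, hb⟩ := hb
    exact ⟨m + n, PT_mul m n _ (mul_mem_mul ha hb)⟩

theorem main [IsAlgClosed k] (hTS0 : TS0) {u a : Ω} (hu : IsIntegral (Algebra.adjoin k {x}) u)
    (ha : IsIntegral (Algebra.adjoin k {x}) a) {D : Subalgebra k Ω} (h1 : x ∈ D) (h2 : u ∈ D)
    (h3 : a ∈ D) : ∃ X ∈ D, ∃ Y ∈ D, ∃ Z ∈ D, (X ≠ 0 ∨ Y ≠ 0 ∨ Z ≠ 0) ∧
      X ^ 2 = u * Y ^ 2 + a * Z ^ 2 := by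
  obtain ⟨T, hT⟩ := fg_adjoin_of_finite (R := Algebra.adjoin k {x}) (s := {u, a}) (Set.toFinite _)
    (by rintro _ (rfl | rfl) <;> assumption)
  set B := Algebra.adjoin (Algebra.adjoin k {x}) {u, a} with hB
  have m1 : ∀ b ∈ B, ∃ m, b ∈ P k x m * span k (T : Set Ω) := fun b hb => mem_V (hT ▸ hb)
  have m2 : ∀ t ∈ T, t ∈ B := fun t ht => (hT ▸ subset_span ht : t ∈ B.toSubmodule)
  have m3 : ∀ b ∈ B, b ∈ D := fun b hb => by
    induction hb using Algebra.adjoin_induction with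
    | mem y hy => rcases hy with rfl | rfl <;> assumption
    | algebraMap c => exact Algebra.adjoin_le (Set.singleton_subset_iff.2 h1) c.2
    | add a b _ _ ha hb => exact add_mem ha hb
    | mul a b _ _ ha hb => exact mul_mem ha hb
  have m4 : ∀ n, P k x n * span k (T : Set Ω) ≤ D.toSubmodule := fun n => mul_le.2 fun p hp t ht =>
    D.mul_mem (P_le (W := D.toSubmodule) (fun i _ => D.pow_mem h1 i) hp)
      ((span_le (p := D.toSubmodule)).2 (fun t ht => m3 t (m2 t ht)) ht)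
  have m5 : ∀ n, P k x n * span k (T : Set Ω) = span k (S x n * T : Finset Ω) := fun n => by
    rw [P, span_mul_span, Finset.coe_mul]
  have m6 : ∀ n, FiniteDimensional k (P k x n * span k (T : Set Ω) :) := fun n => by
    rw [m5]; infer_instance
  choose! ρ hρ using m1
  have m7 : span k (T * T * {1, u, a} : Finset Ω) ≤
      P k x ((T * T * {1, u, a}).sup ρ) * span k (T : Set Ω) := span_le.2 fun y hy => by
    refine mul_le_mul_left (P_mono (Finset.le_sup hy)) _ (hρ y ?_)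
    obtain ⟨_, k1, c, k2, rfl⟩ := Finset.mem_mul.1 hy
    obtain ⟨t, k3, t', k4, rfl⟩ := Finset.mem_mul.1 k1
    refine mul_mem (mul_mem (m2 t k3) (m2 t' k4)) ?_
    simp only [Finset.mem_insert, Finset.mem_singleton] at k2
    rcases k2 with rfl | rfl | rfl
    exacts [one_mem _, Algebra.subset_adjoin (by simp), Algebra.subset_adjoin (by simp)]
  generalize (T * T * {1, u, a}).sup ρ = r at m7
  obtain ⟨n, hn⟩ := grow (fun n => finrank k (P k x n * span k (T : Set Ω) :)) T.card r (ρ 1)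
    (Submodule.one_le_finrank_iff.2 fun e => by simpa [e] using hρ 1 (one_mem _)) fun n => by
      rw [m5]
      exact (finrank_span_finset_le_card _).trans (Finset.card_mul_le.trans
        (Nat.mul_le_mul_right _ (Finset.card_image_le.trans_eq (Finset.card_range _))))
  have m8 : ∀ c ∈ ({1, u, a} : Finset Ω), ∀ y y' : (P k x n * span k (T : Set Ω) :),
      y * y' * c ∈ P k x (n + n + r) * span k (T : Set Ω) := fun c hc y y' => by
    have := mul_mem_mul (mul_mem_mul y.2 y'.2) (subset_span (R := k) (Finset.mem_coe.2 hc))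
    rw [mul_mul_mul_comm, mul_assoc, span_mul_span, span_mul_span, ← Finset.coe_mul,
      ← Finset.coe_mul] at this
    exact PT_mul _ _ _ (mul_le_mul' (P_mul n n) m7 this)
  generalize hV : P k x n * span k (T : Set Ω) = V at hn m8
  have : FiniteDimensional k V := by rw [← hV]; exact m6 n
  obtain ⟨v, k1, k2⟩ := hTS0 k (V × V × V) Ω (LinearMap.mk₂ k
    (fun v v' => v.1 * v'.1 * 1 - v.2.1 * v'.2.1 * u - v.2.2 * v'.2.2 * a)
    (fun _ _ _ => by simp; ring) (fun _ _ _ => by simp [Algebra.smul_def]; ring)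
    (fun _ _ _ => by simp; ring) (fun _ _ _ => by simp [Algebra.smul_def]; ring))
    (P k x (n + n + r) * span k (T : Set Ω)) (by rw [finrank_prod, finrank_prod]; omega)
    fun v v' => sub_mem (sub_mem (m8 _ (by simp) _ _) (m8 _ (by simp) _ _)) (m8 _ (by simp) _ _)
  rw [LinearMap.mk₂_apply] at k2
  refine ⟨v.1, m4 n (hV ▸ v.1.2), v.2.1, m4 n (hV ▸ v.2.1.2), v.2.2, m4 n (hV ▸ v.2.2.2), ?_,
    by linear_combination k2⟩
  by_contra h
  push Not at h
  exact k1 (Prod.ext (Subtype.ext h.1) (Prod.ext (Subtype.ext h.2.1) (Subtype.ext h.2.2)))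

end TTS1

theorem t_TS1 (hTS0 : TS0) : TS1 := by
  intro k Ω _ _ _ _ x u a hu ha
  obtain ⟨d, d0, hd⟩ := hu.exists_integral_multiple
  obtain ⟨e, e0, he⟩ := ha.exists_integral_multiple
  have h1 : x ∈ Algebra.adjoin k {x, u, a} := Algebra.subset_adjoin (by simp)
  have h2 : ∀ c : Algebra.adjoin k {x}, (c : Ω) ∈ Algebra.adjoin k {x, u, a} := fun c =>
    Algebra.adjoin_le (Set.singleton_subset_iff.2 h1) c.2
  obtain ⟨X, hX, Y, hY, Z, hZ, k1, k2⟩ := TTS1.main hTS0 (hd.smul d) (he.smul e) h1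
    (mul_mem (h2 d) (mul_mem (h2 d) (Algebra.subset_adjoin (by simp))))
    (mul_mem (h2 e) (mul_mem (h2 e) (Algebra.subset_adjoin (by simp))))
  refine ⟨X, hX, d * Y, mul_mem (h2 d) hY, e * Z, mul_mem (h2 e) hZ,
    k1.imp_right (Or.imp (mul_ne_zero fun h => d0 (Subtype.ext h))
      (mul_ne_zero fun h => e0 (Subtype.ext h))), ?_⟩
  change _ = (d : Ω) * (d * u) * _ + (e : Ω) * (e * a) * _ at k2
  linear_combination k2

end Pool.Agent.P.MP_9c97e9_nt.KT
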