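import Pool.Agent.P.MP_9c97e9_nt.KT.TTRIV
import Pool.Agent.P.MP_9c97e9_nt.KT.TSQ1
import Pool.Agent.P.MP_9c97e9_nt.KT.TGRP
import Pool.Agent.P.MP_9c97e9_nt.KT.TTS0
import Pool.Agent.P.MP_9c97e9_nt.KT.TTS1
import Pool.Agent.P.MP_9c97e9_nt.KT.TH90G
import Pool.Agent.P.MP_9c97e9_nt.KT.TST2
import Pool.Agent.P.MP_9c97e9_nt.KT.TTRG
import Pool.Agent.P.MP_9c97e9_nt.KT.TSQH
import Pool.Agent.P.MP_9c97e9_nt.KT.TKUM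
import Pool.Agent.P.MP_9c97e9_nt.KT.TPKX
import Pool.Agent.P.MP_9c97e9_nt.KT.TPAR
import Pool.Agent.P.MP_9c97e9_nt.KT.TALX
import Pool.Agent.P.MP_9c97e9_nt.KT.TISO
import Pool.Agent.P.MP_9c97e9_nt.KT.TTAN

/-! Assembly of the vanishing theorem on the geometric Galois group. -/

namespace Pool.Agent.P.MP_9c97e9_nt.KT

theorem a_TRIV (hFB : FB) (hCOK : COK) (hDEN : DEN) (hSECO : SECO) (hPULV : PULV) (hRTL : RTL) :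
    TRIV :=
  t_TRIV hFB hCOK (t_KUM (t_TRG (t_ST2 t_H90G) t_GRP) t_H90G) t_PKX
    (t_ISO (t_TS1 t_TS0) (t_ALX hFB) hFB)
    (t_SQ1 hFB hDEN hSECO hPULV hRTL t_SQH t_PAR (t_ALGP hFB hDEN) (t_TAN hFB))

end Pool.Agent.P.MP_9c97e9_nt.KT
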