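import Pool.Agent.P.MP_9c97e9_nt.KT.IfU
import Pool.Agent.P.MP_9c97e9_nt.KT.TGEN

/-! Bimultiplicativity of the cocycle of a family of symbols. -/

namespace Pool.Agent.P.MP_9c97e9_nt.KT

namespace TBIM

open TGEN

noncomputable section

variable {G Ω : Type} [Group G] [Field Ω] [MulSemiringAction G Ω] {C : Cx G Ω}

/-- all elements have roots -/
def Gd (N : ℕ) (P : Multiset Ω) : Prop := ∀ u ∈ P, u ≠ 0 ∧ ∃ r, r ^ N = u

theorem gd_smul {N : ℕ} {u : Ω} (h : u ≠ 0 ∧ ∃ r, r ^ N = u) (g : G) :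
    g • u ≠ 0 ∧ ∃ r, r ^ N = g • u :=
  ⟨smul_ne h.1, h.2.elim fun r e => ⟨g • r, by rw [← smul_pow', e]⟩⟩

theorem Gd.map {N : ℕ} {P : Multiset Ω} (h : Gd N P) (g : G) : Gd N (P.map (g • ·)) :=
  fun _ hu => let ⟨v, hv, e⟩ := Multiset.mem_map.1 hu; e ▸ gd_smul (h v hv) g

theorem Gd.pow {N : ℕ} {P : Multiset Ω} (h : Gd N P) : (P.map (rtN N)).prod ^ N = P.prod := by
  rw [← Multiset.prod_map_pow, Multiset.map_congr rfl fun u hu => rtN_spec (h u hu).2,
    Multiset.map_id']

theorem Gd.ne (hC : C.Ok) {P : Multiset Ω} (h : Gd C.N P) : (P.map (rtN C.N)).prod ≠ 0 := fun e =>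
  Multiset.prod_ne_zero (fun a => (h 0 a).1 rfl) (by rw [← h.pow, e, zero_pow (N_ne hC)])

theorem Gd.eq {N : ℕ} {P : Multiset Ω} (h : Gd N P) (g : G) :
    ((P.map (g • ·)).map (rtN N)).prod ^ N = g • (P.map (rtN N)).prod ^ N := by
  rw [(h.map g).pow, h.pow, Multiset.smul_prod']

variable (C) in
/-- the Kummer character -/
def ka (g : G) (u : Ω) : ZMod C.N := dlo C.ze C.N (g • rtN C.N (g⁻¹ • u) / rtN C.N u)

theorem dlo_prod (hC : C.Ok) (φ : Ω → Ω) (P : Multiset Ω) (h : ∀ u ∈ P, φ u ^ C.N = 1) :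
    dlo C.ze C.N (P.map φ).prod = (P.map fun u => dlo C.ze C.N (φ u)).sum := by
  induction P using Multiset.induction with
  | empty => simpa using dlo_one hC
  | cons u P ih =>
    have h' := fun v hv => h v (Multiset.mem_cons_of_mem hv)
    rw [Multiset.map_cons, Multiset.map_cons, Multiset.prod_cons, Multiset.sum_cons, ← ih h',
      dlo_mul hC (h u (Multiset.mem_cons_self _ _))]
    rw [← Multiset.prod_map_pow, Multiset.map_congr rfl h', Multiset.prod_map_one]

theorem Gd.kc (hC : C.Ok) {P : Multiset Ω} (h : Gd C.N P) (g : G) :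
    dlo C.ze C.N (g • ((P.map (g⁻¹ • ·)).map (rtN C.N)).prod / (P.map (rtN C.N)).prod) =
      (P.map (ka C g)).sum := by
  rw [Multiset.smul_prod', Multiset.map_map, Multiset.map_map, ← Multiset.prod_map_div]
  refine dlo_prod hC _ P fun u hu => ?_
  simp only [Function.comp_apply]
  rw [div_pow, ← smul_pow', rtN_spec (gd_smul (h u hu) _).2, rtN_spec (h u hu).2, smul_inv_smul,
    div_self (h u hu).1]

open Classical in
theorem f_lc {I : Type} (F : Fam C I) (g h : G) (d : (ZMod C.M)ˣ) : F.f g h d =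
    Finsupp.linearCombination ℤ (fun i => if F.dt i = d then red C.N d⁻¹ * F.kc F.r g i *
      (red C.N (C.cy g) * F.kc F.r' h (F.act g⁻¹ i)) else 0) F.m := by
  rw [Finsupp.linearCombination_apply]
  refine Finset.sum_congr rfl fun i _ => ?_
  dsimp only
  split_ifs
  · rw [zsmul_eq_mul, mul_assoc]
  · rw [smul_zero]

variable (C) in
/-- the family of products -/
def fam {J : Type} [Fintype J] (x : J → Multiset Ω × Multiset Ω × (ZMod C.M)ˣ) :
    Fam C (Multiset Ω × Multiset Ω × (ZMod C.M)ˣ) where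
  act g i := (i.1.map (g • ·), i.2.1.map (g • ·), i.2.2 * C.cy g)
  m := ∑ j, Finsupp.single (x j) 1
  dt i := i.2.2
  r i := (i.1.map (rtN C.N)).prod
  r' i := (i.2.1.map (rtN C.N)).prod

theorem fam_ok (hC : C.Ok) {J : Type} [Fintype J] {x : J → Multiset Ω × Multiset Ω × (ZMod C.M)ˣ}
    (h1 : ∀ j, Gd C.N (x j).1 ∧ Gd C.N (x j).2.1)
    (h2 : ∀ g ∈ C.H, ∃ π : Equiv.Perm J, ∀ j, x (π j) = (fam C x).act g (x j)) : (fam C x).Ok := by
  classical
  have sp : ∀ i, (fam C x).m i ≠ 0 → ∃ j, i = x j := fun i hi => by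
    rw [fam, Finsupp.finsetSum_apply] at hi
    obtain ⟨j, -, e⟩ := Finset.exists_ne_zero_of_sum_ne_zero hi
    exact ⟨j, (Finsupp.single_apply_ne_zero.1 e).1⟩
  refine ⟨fun i => by simp [fam, cy_one hC], fun g hg h hh i => ?_, fun g hg i => ?_,
    fun _ _ _ => rfl, fun i hi => ?_, fun g _ i hi => ?_, ?_⟩
  · simp only [fam, Multiset.map_map, mul_smul, hC.mul g hg h hh, mul_assoc, mul_comm (C.cy g),
      Function.comp_def]
  · obtain ⟨π, e⟩ := h2 g hg
    have inj := Multiset.map_injective (MulAction.injective (β := Ω) g)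
    rw [← Finsupp.mapDomain_apply (f := (fam C x).act g) (fun a b c => Prod.ext
      (inj (congrArg (·.1) c)) (Prod.ext (inj (congrArg (·.2.1) c))
        (mul_right_cancel (congrArg (·.2.2) c)))) _ i]
    congr 1
    simp only [show (fam C x).m = ∑ j, Finsupp.single (x j) 1 from rfl,
      Finsupp.mapDomain_finsetSum, Finsupp.mapDomain_single, ← e]
    exact (Equiv.sum_comp π fun j => Finsupp.single (x j) 1).symm
  · obtain ⟨j, rfl⟩ := sp i hi
    exact ⟨(h1 j).1.ne hC, (h1 j).2.ne hC⟩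
  · obtain ⟨j, rfl⟩ := sp i hi
    exact ⟨(h1 j).1.eq g, (h1 j).2.eq g⟩
  · obtain ⟨T, hT⟩ := hC.sm
    refine ⟨T ∪ Finset.univ.biUnion fun j => ((x j).1 + (x j).2.1).toFinset, fun n hn h i hi => ?_⟩
    obtain ⟨j, rfl⟩ := sp i hi
    have h3 := hT 1 C.H.one_mem n hn fun s hs => h s (Finset.mem_union_left _ hs)
    rw [one_mul, cy_one hC] at h3
    have h4 : ∀ u ∈ (x j).1 + (x j).2.1, n • u = u := fun u hu => h u (Finset.mem_union_right _
      (Finset.mem_biUnion.2 ⟨j, Finset.mem_univ j, Multiset.mem_toFinset.2 hu⟩))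
    refine Prod.ext ?_ (Prod.ext ?_ (by simp only [fam, h3, mul_one]))
    · exact (Multiset.map_congr rfl fun u hu => h4 u (Multiset.mem_add.2 (.inl hu))).trans
        (Multiset.map_id' _)
    · exact (Multiset.map_congr rfl fun u hu => h4 u (Multiset.mem_add.2 (.inr hu))).trans
        (Multiset.map_id' _)

end

end TBIM

open TBIM in
theorem t_BIM : BIM := by
  classical
  intro G Ω _ _ _ C hC J V _ B B' U U' d h1 h2
  have gd : ∀ j, Gd C.N ((B j).val.map (U j)) ∧ Gd C.N ((B' j).val.map (U' j)) := fun j =>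
    ⟨fun _ hu => let ⟨v, hv, e⟩ := Multiset.mem_map.1 hu; e ▸ (h1 j).1 v hv,
      fun _ hu => let ⟨v, hv, e⟩ := Multiset.mem_map.1 hu; e ▸ (h1 j).2 v hv⟩
  have ok := fam_ok hC (x := fun j => ((B j).val.map (U j), (B' j).val.map (U' j), d j)) gd
    fun g hg => (h2 g hg).imp fun π e j => by
      simp only [fam, Multiset.map_map, Function.comp_def, e j]
  refine ⟨⟨fun g hg i => ?_, fun i hi => ?_⟩, ?_⟩
  · obtain ⟨π, e⟩ := h2 g hg
    have inj := MulAction.injective (β := Ω) g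
    rw [← Finsupp.mapDomain_apply (f := fun i : Ω × Ω × (ZMod C.M)ˣ =>
      (g • i.1, g • i.2.1, i.2.2 * C.cy g)) (fun a b c => Prod.ext
      (inj (congrArg (·.1) c)) (Prod.ext (inj (congrArg (·.2.1) c))
        (mul_right_cancel (congrArg (·.2.2) c)))) _ i]
    refine DFunLike.congr_fun ?_ _
    simp only [Finsupp.mapDomain_finsetSum, Finsupp.mapDomain_single]
    rw [← Equiv.sum_comp π]
    refine Finset.sum_congr rfl fun j _ => ?_
    have := congrArg₂ (fun P Q : Multiset Ω => (P.map fun u => (Q.map fun u' =>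
      Finsupp.single (u, u', d j * C.cy g) (1 : ℤ)).sum).sum) (e j).2.1 (e j).2.2
    simp only [Multiset.map_map, Function.comp_def] at this
    rw [(e j).1]
    exact this
  · simp only [Finsupp.finsetSum_apply] at hi
    obtain ⟨j, -, hi⟩ := Finset.exists_ne_zero_of_sum_ne_zero hi
    obtain ⟨v, hv, hi⟩ := Finset.exists_ne_zero_of_sum_ne_zero hi
    obtain ⟨v', hv', hi⟩ := Finset.exists_ne_zero_of_sum_ne_zero hi
    rw [(Finsupp.single_apply_ne_zero.1 hi).1]
    exact ⟨(h1 j).1 v hv, (h1 j).2 v' hv'⟩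
  · convert ((t_GEN G Ω C hC).2 _ _ ok).2.2 using 2
    · funext g h δ
      rw [f_lc, f_lc]
      change Finsupp.linearCombination _ _ (∑ j, _) = Finsupp.linearCombination _ _ (∑ j, _)
      simp only [map_sum, Finsupp.linearCombination_single, one_smul]
      refine Finset.sum_congr rfl fun j _ => ?_
      by_cases hd : d j = δ
      · refine (Finset.sum_congr rfl fun _ _ => Finset.sum_congr rfl fun _ _ => if_pos hd).trans
          (Eq.trans ?_ (if_pos hd).symm)
        simp only [Cx.can, fam, Fam.kc]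
        rw [(gd j).1.kc hC, ((gd j).2.map g⁻¹).kc hC, Multiset.map_map, Multiset.map_map,
          Multiset.map_map]
        change _ = _ * (∑ v ∈ B j, _) * (_ * ∑ v ∈ B' j, _)
        simp only [Finset.mul_sum, Finset.sum_mul]
        exact Finset.sum_comm
      · exact (Finset.sum_eq_zero fun _ _ => Finset.sum_eq_zero fun _ _ => if_neg hd).trans
          (if_neg hd).symm
    · simp only [Fam.im, fam, Finsupp.mapDomain_finsetSum, Finsupp.mapDomain_single, (gd _).1.pow,
        (gd _).2.pow]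
      rfl

end Pool.Agent.P.MP_9c97e9_nt.KT
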