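import Pool.Agent.P.MP_9c97e9_nt.KT.IfU
import Pool.Agent.P.MP_9c97e9_nt.KT.TSMQ
import Pool.Agent.P.MP_9c97e9_nt.KT.TBAS
import Pool.Agent.P.MP_8b7eba_nt.R2.AllA

/-! The contexts and the Hecke correspondences. -/

namespace Pool.Agent.P.MP_9c97e9_nt.KT

open MP_8b7eba_nt.R2
open MP_8b7eba_nt.Mod (M2 G0 xx yy)
open MP_8b7eba_nt.R1 (IntR IntM Int_det Int_exists)

namespace TCOK

lemma ec_nat (n : ℕ) (x : ℚ_[2]) : ec (n * x) = ec x ^ n := by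
  induction n with
  | zero => simpa using (a_EC.1.eq_one 0).2 (by simp)
  | succ n ih => rw [Nat.cast_succ, add_mul, one_mul, a_EC.1.add, ih, pow_succ]

lemma prim (k : ℕ) : IsPrimitiveRoot (ec (2 ^ k)⁻¹) (2 ^ k) := by
  refine ⟨?_, fun l hl => ?_⟩
  · rw [← ec_nat, a_EC.1.eq_one]
    push_cast
    rw [mul_inv_cancel₀ (pow_ne_zero _ two_ne_zero), norm_one]
  · rw [← ec_nat, a_EC.1.eq_one, ← div_eq_mul_inv, norm_div,
      div_le_one (norm_pos_iff.2 (pow_ne_zero _ two_ne_zero))] at hl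
    have h1 : ‖((l : ℤ) : ℚ_[2])‖ ≤ (2 : ℕ) ^ (-k : ℤ) := by
      rw [← Padic.norm_p_pow]
      exact_mod_cast hl
    exact_mod_cast (Padic.norm_int_le_pow_iff_dvd _ _).1 h1

lemma exz {M : ℕ} (h : M ≠ 0) : ∃ z : Om, IsPrimitiveRoot z M := by
  have : NeZero M := ⟨h⟩
  exact HasEnoughRootsOfUnity.exists_primitiveRoot Om M

lemma cy_one {M : ℕ} (h : M ≠ 0) {z : Om} (hz : IsPrimitiveRoot z M) {g : GQ} (e : g z = z) :
    cy M g = 1 := by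
  have : NeZero M := ⟨h⟩
  replace e := e.trans (pow_one z).symm
  rw [t_BAS.2.1 M h g z hz.pow_eq_one, (hz.isOfFinOrder h).pow_eq_pow_iff_modEq,
    ← hz.eq_orderOf, ← ZMod.natCast_eq_natCast_iff, ZMod.natCast_zmod_val] at e
  exact Units.ext (by simpa using e)

lemma gal {k M : ℕ} (h : M ≠ 0) (hd : 2 ^ k ∣ M) (g : GQ) :
    g (ec (2 ^ k)⁻¹) = ec (2 ^ k)⁻¹ ^ (cy M g : ZMod M).val :=
  t_BAS.2.1 M h g _ (((prim k).pow_eq_one_iff_dvd M).2 hd)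

lemma mem_geo {g : AL} : g ∈ geo ↔ g ∈ GG ∧ ∀ a, g (cst a) = cst a := by
  rw [geo, Subgroup.mem_inf, mem_fixingSubgroup_iff, Set.forall_mem_range]
  rfl

lemma mem_GG {g : AL} : g ∈ GG ↔ g (lf xx) = lf xx ∧ g (lf yy) = lf yy := by
  rw [GG, mem_fixingSubgroup_iff]
  simp only [Set.mem_insert_iff, Set.mem_singleton_iff, forall_eq_or_imp, forall_eq]
  rfl

lemma inv_fix {g : AL} {x y : LL} (h : g x = y) : g⁻¹ y = x := by
  rw [← h]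
  exact g.symm_apply_apply x

lemma cst_inj (hFB : FB) {a b : Om} (h : cst a = cst b) : a = b := by
  obtain ⟨c, hc⟩ := hFB.1
  exact c.injective (by rw [hc, hc, h])

lemma cg_mul (hFB : FB) (g : AL) (hg : g ∈ GG) (h : AL) (hh : h ∈ GG) :
    cg (g * h) = cg g * cg h := by
  have e := hFB.2.2.2.2.2.2.1
  ext a
  refine cst_inj hFB ?_
  rw [← e _ (GG.mul_mem hg hh), AlgEquiv.mul_apply, ← e _ hg, ← e _ hh]
  rfl

lemma geo_iff (hFB : FB) (g : AL) : g ∈ geo ↔ g ∈ GG ∧ cg g = 1 := by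
  have e := hFB.2.2.2.2.2.2.1
  rw [mem_geo]
  refine and_congr_right fun hg => ⟨fun h => ?_, fun h a => by rw [e g hg, h]; rfl⟩
  ext a
  exact cst_inj hFB ((e g hg a).symm.trans (h a))

lemma ok_CL (hFB : FB) {k M : ℕ} (h : M ≠ 0) (hd : 2 ^ k ∣ M) : (CL k M).Ok := by
  have e := hFB.2.2.2.2.2.2.1
  obtain ⟨c, hc⟩ := hFB.1
  obtain ⟨z, hz⟩ := exz h
  refine ⟨hd, h, ?_, fun g hg g' hg' => ?_, fun g hg => ?_, ⟨{cst z}, fun g hg n hn hs => ?_⟩,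
    hFB.2.2.2.2.2.2.2.1⟩
  · have := (prim k).map_of_injective c.injective
    rwa [hc] at this
  · show cy M (cg (g * g')) = _
    rw [cg_mul hFB g hg g' hg', map_mul]
  · show g (cst _) = cst _ ^ (cy M (cg g) : ZMod M).val
    rw [e g hg, gal h hd, ← hc, ← hc, map_pow]
  · show cy M (cg (g * n)) = cy M (cg g)
    rw [cg_mul hFB g hg n hn, map_mul, cy_one h hz (g := cg n) (cst_inj hFB
      ((e n hn z).symm.trans (hs _ (Finset.mem_singleton_self _)))), mul_one]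

lemma nm_CL (hFB : FB) (k M : ℕ) : (CL k M).Nm geo := by
  refine ⟨inf_le_left, fun g hg γ hγ => ?_, fun γ hγ => ?_⟩
  · obtain ⟨h1, h2⟩ := (geo_iff hFB γ).1 hγ
    have h3 := GG.inv_mem hg
    refine (geo_iff hFB _).2 ⟨GG.mul_mem (GG.mul_mem h3 h1) hg, ?_⟩
    rw [cg_mul hFB _ (GG.mul_mem h3 h1) _ hg, cg_mul hFB _ h3 _ h1, h2, mul_one,
      ← cg_mul hFB _ h3 _ hg, inv_mul_cancel]
    exact ((geo_iff hFB 1).1 geo.one_mem).2
  · show cy M (cg γ) = 1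
    rw [((geo_iff hFB γ).1 hγ).2, map_one]

lemma ok_CO (H : Subgroup GQ) {k M : ℕ} (h : M ≠ 0) (hd : 2 ^ k ∣ M) : (CO H k M).Ok := by
  obtain ⟨z, hz⟩ := exz h
  refine ⟨hd, h, prim k, fun g _ g' _ => map_mul _ g g', fun g _ => gal h hd g,
    ⟨{z}, fun g _ n _ hs => ?_⟩, (t_SMQ Unit H).1⟩
  show cy M (g * n) = cy M g
  rw [map_mul, cy_one h hz (hs _ (Finset.mem_singleton_self _)), mul_one]

lemma lm_G0 {γ : M2} (h : G0 γ) : Lm γ := ⟨h.det_pos, h.1 ▸ isCoprime_one_left, h.2⟩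

lemma Lm.adj {A : M2} (h : Lm A) : Lm A.adj := by simpa [Lm] using h

variable {m : ℕ}

lemma lm_Int (h0 : m ≠ 0) (h : m.Coprime 15) {t : ℕ × ℕ × ℕ} (ht : t ∈ IntR m) : Lm (IntM t) := by
  rw [Lm, Int_det (Nat.pos_of_ne_zero h0) ht]
  exact ⟨by omega, Nat.isCoprime_iff_coprime.2 h, by simp [IntM]⟩

lemma pb_inv (hTR : TR) {A : M2} (h : Lm A) : (pb A)⁻¹ = tr A := by
  refine inv_eq_of_mul_eq_one_left ?_
  rw [pb, ← (hTR.1 A h).2.2.1 _ (Lm.adj h), ← hTR.2.1 _ h.2.1]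
  congr 1
  ext <;> simp [M2.det] <;> ring

lemma a_spec (hH : HEC) (h0 : m ≠ 0) (h : m.Coprime 15) {g : AL} (hg : g ∈ GG) (t : IntR m) :
    (pb (IntM ((HC m).a g t)))⁻¹ * g * pb (IntM t) ∈ GG := by
  obtain ⟨t', h1, -⟩ := hH m h0 h g hg t t.2
  exact @Classical.epsilon_spec_aux (IntR m) ⟨t⟩
    (fun t' => (pb (IntM t'))⁻¹ * g * pb (IntM t) ∈ GG) ⟨⟨t', h1.1⟩, h1.2⟩

lemma a_eq (hH : HEC) (h0 : m ≠ 0) (h : m.Coprime 15) {g : AL} (hg : g ∈ GG) {t t' : IntR m}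
    (e : (pb (IntM t'))⁻¹ * g * pb (IntM t) ∈ GG) : (HC m).a g t = t' :=
  Subtype.ext ((hH m h0 h g hg t t.2).unique ⟨Subtype.prop _, a_spec hH h0 h hg t⟩ ⟨t'.2, e⟩)

lemma ok_HC (hFB : FB) (hTR : TR) (hH : HEC) (k M : ℕ) (h0 : m ≠ 0) (h : m.Coprime 15) :
    (HC m).Ok (CL k M) geo := by
  classical
  have e := hFB.2.2.2.2.2.2.1
  have fx : ∀ (t : IntR m) a, pb (IntM t) (cst a) = cst a := fun t =>
    (hTR.1 _ (Lm.adj (lm_Int h0 h t.2))).2.1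
  have mul : ∀ g ∈ GG, ∀ g' ∈ GG, ∀ t, (HC m).a (g * g') t = (HC m).a g ((HC m).a g' t) :=
    fun g hg g' hg' t => a_eq hH h0 h (GG.mul_mem hg hg') (by
      convert GG.mul_mem (a_spec hH h0 h hg ((HC m).a g' t)) (a_spec hH h0 h hg' t) using 1
      group)
  refine ⟨fun t => a_eq hH h0 h GG.one_mem (by simp), mul, fun g hg t => ?_, fun t => fx t _,
    ⟨Finset.univ.image (fun t : IntR m => pb (IntM t) (lf xx)) ∪
      Finset.univ.image fun t : IntR m => pb (IntM t) (lf yy), fun g hg n hn hs => ?_⟩⟩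
  · have h1 := GG.inv_mem hg
    refine mem_geo.2 ⟨GG.mul_mem ?_ h1, fun a => ?_⟩
    · convert GG.inv_mem (a_spec hH h0 h h1 t) using 1
      simp only [Crs.h, HC]
      group
    · show (pb (IntM t))⁻¹ (g (pb (IntM ((HC m).a g⁻¹ t)) (g⁻¹ (cst a)))) = cst a
      rw [e _ h1, fx, ← e _ h1]
      exact inv_fix ((fx t a).trans (g.apply_symm_apply _).symm)
  · funext t
    rw [mul g hg n hn, a_eq hH h0 h hn (t' := t) (mem_GG.2
      ⟨inv_fix (hs _ (by simp)).symm, inv_fix (hs _ (by simp)).symm⟩)]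

lemma bridge (hTR : TR) (hH : HEC) (h0 : m ≠ 0) (h : m.Coprime 15) {γ : M2} (hγ : G0 γ)
    (t : IntR m) : (HC m).h (tr γ) t = tr (dm m γ t) := by
  have hm := Nat.pos_of_ne_zero h0
  obtain ⟨h1, t', ht', e⟩ : G0 (dm m γ t) ∧ ∃ t' ∈ IntR m, IntM t * γ = dm m γ t * IntM t' := by
    refine Classical.epsilon_spec
      (p := fun δ => G0 δ ∧ ∃ t' ∈ IntR m, IntM t * γ = δ * IntM t') ?_
    obtain ⟨t', ht', δ, h1, h2⟩ := Int_exists hm h (M := IntM t * γ)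
      (by rw [M2.det_mul, Int_det hm t.2, hγ.1, mul_one]) (by simpa [IntM] using hγ.2.mul_left _)
    exact ⟨δ, h1, t', ht', h2⟩
  have l1 := lm_Int h0 h t.2
  have l2 := lm_Int h0 h ht'
  have key : (pb (IntM t))⁻¹ * tr γ * pb (IntM t') = tr (dm m γ t) := by
    rw [pb_inv hTR l1, ← (hTR.1 _ l1).2.2.1 _ (lm_G0 hγ), e, (hTR.1 _ (lm_G0 h1)).2.2.1 _ l2,
      ← pb_inv hTR l2, inv_mul_cancel_right]
  have h2 : (HC m).a (tr γ)⁻¹ t = ⟨t', ht'⟩ :=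
    a_eq hH h0 h (GG.inv_mem (hTR.2.2 γ hγ).1) (by
      convert GG.inv_mem (hTR.2.2 _ h1).1 using 1
      rw [← key]
      group)
  rw [Crs.h, h2]
  exact key

end TCOK

open TCOK in
theorem t_COK (hFB : FB) (hTR : TR) (hDENSE : DENSE) (hHEC : HEC) : COK := by
  classical
  refine ⟨cg_mul hFB, geo_iff hFB, fun k M h hd => ⟨ok_CL hFB h hd, nm_CL hFB k M,
    fun H => ok_CO H h hd, fun m h0 h => ok_HC hFB hTR hHEC k M h0 h⟩, fun m M E => ?_,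
    fun m h0 h => ⟨?_, fun γ hγ t => bridge hTR hHEC h0 h hγ t⟩, fun X _ ψ hψ => ⟨?_, ?_⟩, ?_⟩
  · rw [Cor, ← Finset.sum_coe_sort]
    rfl
  · rintro t ht _ ⟨G, h1, h2, rfl⟩
    have l := lm_Int h0 h ht
    obtain ⟨h3, h4⟩ := (hTR.1 _ l).2.2.2 G h1
    exact ⟨_, h3, fun z hz => h2 _ (M2.im_act_pos l.1 hz), h4⟩
  · intro γ δ hγ hδ
    simp only [(hTR.1 _ (lm_G0 hγ)).2.2.1 _ (lm_G0 hδ)]
    exact hψ.2 _ (hTR.2.2 _ hγ) _ (hTR.2.2 _ hδ)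
  · have h1 : tr (-1) = 1 := hTR.2.1 (-1) isCoprime_one_left.neg_left
    have h2 := hψ.2 1 geo.one_mem 1 geo.one_mem
    simp only [h1]
    simpa using h2
  · rintro X c c' ⟨S, hS⟩ ⟨S', hS'⟩ h g hg
    obtain ⟨γ, hγ, e⟩ := hDENSE g hg (S ∪ S')
    have h1 := hTR.2.2 γ hγ
    have h2 := geo.mul_mem (geo.inv_mem h1) hg
    have h3 : ∀ s ∈ S ∪ S', ((tr γ)⁻¹ * g) • s = s := fun s hs => inv_fix (e s hs).symm
    have h4 := hS _ h1 _ h2 fun s hs => h3 s (Finset.mem_union_left _ hs)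
    have h5 := hS' _ h1 _ h2 fun s hs => h3 s (Finset.mem_union_right _ hs)
    rw [mul_inv_cancel_left] at h4 h5
    rw [h4, h5, h γ hγ]

end Pool.Agent.P.MP_9c97e9_nt.KT
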