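import Pool.Agent.P.MP_9c97e9_nt.KT.IfU

/-! Invariance of the sums of symbols. -/

namespace Pool.Agent.P.MP_9c97e9_nt.KT

open scoped UpperHalfPlane
open MP_8b7eba_nt.R2
open MP_8b7eba_nt.Mod (UH)
open MP_8b7eba_nt.R1 (IntR IntM)

namespace TEINV

open Classical in
theorem lf_congr {G H : ℂ → ℂ} (h : ∀ z : ℂ, 0 < z.im → G z = H z) : lf G = lf H := by
  have e : (fun τ : ℍ => G τ) = fun τ : ℍ => H τ := funext fun τ => h τ τ.2
  have e1 : mf G = mf H :=
    congrArg (fun f : ℍ → ℂ => if h : f ∈ OH then algebraMap OH MF ⟨f, h⟩ else 0) e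
  exact congrArg (fun f : MF => if h : f ∈ LL then (⟨f, h⟩ : LL) else 0) e1

theorem un_val {R : Type} [Monoid R] {a : R} (h : IsUnit a) : (un a : R) = a := by simp [un, h]

theorem un_mul {R : Type} [Monoid R] {a : R} (h : IsUnit a) (u : Rˣ) : un (a * u) = un a * u := by
  ext
  rw [un_val (h.mul u.isUnit), Units.val_mul, un_val h]

theorem ul_ne {u : LL} (hu : u ∈ UL) : u ≠ 0 := by
  obtain ⟨G, ⟨hG, hL⟩, hne, rfl⟩ := hu
  intro h0
  have h1 : mf G = 0 := by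
    have := congrArg Subtype.val h0
    simpa [lf, hL] using this
  have hO : (fun τ : ℍ => G τ) ∈ OH := by
    refine UpperHalfPlane.mdifferentiable_iff.2 (hG.congr fun z hz => ?_)
    simp [UpperHalfPlane.ofComplex_apply_of_im_pos hz]
  rw [mf, dif_pos hO, map_eq_zero_iff _ (IsFractionRing.injective OH MF)] at h1
  exact hne _ UpperHalfPlane.I.2 (congrFun (congrArg Subtype.val h1) UpperHalfPlane.I)

/-- the index type -/
abbrev JX (M : ℕ) : Type := (ZMod 15)ˣ × VZ M × VZ M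

/-- the symbol of an index -/
noncomputable def sy (M : ℕ) (x : JX M) : LL × LL × (ZMod M)ˣ :=
  (Uz M x.1 x.2.1, Uz M (2 * x.1) x.2.2, un (dv M x.2.1 x.2.2))

open Classical in
theorem es_eq (M : ℕ) [NeZero M] : (ES0 M M fun _ _ => True) =
    ∑ x ∈ Finset.univ.filter fun x : JX M => IsUnit (dv M x.2.1 x.2.2),
      Finsupp.single (sy M x) 1 := by
  simp only [ES0, Finset.sum_filter, Fintype.sum_prod_type, and_true, sy]

theorem dv_eq (M : ℕ) (v v' : VZ M) : dv M v v' = v.1 * v'.2 - v.2 * v'.1 := ZMod.cast_id _ _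

theorem cop_iff (M : ℕ) (x : ℤ) : IsCoprime x M ↔ IsUnit (x : ZMod M) := by
  rw [ZMod.coe_int_isUnit_iff_isCoprime, isCoprime_comm]

theorem e0_eq (hUT : UT) (M : ℕ) [NeZero M] : E0 M = ES0 M M fun _ _ => True := by
  rw [es_eq, E0]
  symm
  refine Finset.sum_nbij (fun x => ((x.1 : ZMod 15).val, (x.2.1.1.val, x.2.1.2.val),
    x.2.2.1.val, x.2.2.2.val)) ?_ ?_ ?_ ?_
  · intro x hx
    simp only [Finset.mem_filter, Finset.mem_univ, true_and, dv_eq] at hx
    simp only [Ix, Finset.mem_filter, Finset.mem_product, Finset.mem_range, ZMod.val_lt, true_and,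
      cop_iff]
    exact ⟨ZMod.val_coe_unit_coprime x.1, by simpa using hx⟩
  · rintro ⟨b, ⟨v1, v2⟩, w1, w2⟩ - ⟨b', ⟨v1', v2'⟩, w1', w2'⟩ - h
    simp only [Prod.mk.injEq, (ZMod.val_injective _).eq_iff, Units.val_inj] at h ⊢
    tauto
  · rintro ⟨b, ⟨v1, v2⟩, w1, w2⟩ hi
    simp only [Ix, Finset.coe_filter, Finset.mem_product, Finset.mem_range, Set.mem_ofPred_eq,
      cop_iff] at hi
    obtain ⟨⟨h1, ⟨h2, h3⟩, h4, h5⟩, h6, h7⟩ := hi
    refine ⟨(ZMod.unitOfCoprime b h6, (v1, v2), w1, w2), ?_, ?_⟩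
    · simpa [dv_eq] using h7
    · simp [Nat.mod_eq_of_lt, h1, h2, h3, h4, h5]
  · intro x _
    have e : lf (vI M ((x.1 : ZMod 15).val, (x.2.1.1.val, x.2.1.2.val), x.2.2.1.val, x.2.2.2.val)) =
        Uz M (2 * x.1) x.2.2 := by
      refine lf_congr fun z hz => ?_
      obtain ⟨c, hc⟩ : (15 : ℤ) ∣ 2 * ((x.1 : ZMod 15).val : ℤ) - (2 * (x.1 : ZMod 15)).val := by
        refine (ZMod.intCast_zmod_eq_zero_iff_dvd _ 15).1 ?_
        simp
      have := (hUT.2.2 (2 * (x.1 : ZMod 15)).val (x.2.2.1.val / M) (x.2.2.2.val / M) z hz).1 0 0 c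
      rw [← hc] at this
      simpa [vI, ug] using this
    rw [e]
    simp [sy, dI, dv_eq, uI, Uz, ug]

/-- the unit two -/
def tw : (ZMod 15)ˣ := ⟨2, 8, by decide, by decide⟩

theorem inv0 (hUNITS : UNITS) (hUT : UT) (hEXA : EXA) {k M : ℕ} (h : Lv0 k M) :
    InvU k M (E0 M) := by
  classical
  have : NeZero M := ⟨h.1⟩
  obtain ⟨h1, h2⟩ := hEXA M h.1 h.2.2
  have hs : ∀ i, E0 M i ≠ 0 → i.1 ∈ UL ∧ i.2.1 ∈ UL := by
    intro i hi
    rw [e0_eq hUT, es_eq, Finsupp.finsetSum_apply] at hi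
    obtain ⟨x, -, hx⟩ := Finset.exists_ne_zero_of_sum_ne_zero hi
    obtain rfl : i = sy M x := (Finsupp.single_apply_ne_zero.1 hx).1
    exact ⟨(h1 _ _).2, (h1 (tw * x.1) _).2⟩
  refine ⟨⟨fun g hg i => ?_, fun i hi => ?_⟩, hs⟩
  · obtain ⟨β, a, b, c, d, hd, hg⟩ := h2 g hg
    let π : JX M → JX M := fun x => (x.1 * β, (x.2.1.1 * a + x.2.1.2 * c, x.2.1.1 * b + x.2.1.2 * d),
      (x.2.2.1 * a + x.2.2.2 * c, x.2.2.1 * b + x.2.2.2 * d))
    have hv : ∀ v w : VZ M, (v.1 * a + v.2 * c, v.1 * b + v.2 * d) =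
        (w.1 * a + w.2 * c, w.1 * b + w.2 * d) → v = w := by
      intro v w e
      obtain ⟨e1, e2⟩ := Prod.mk.inj e
      refine Prod.ext ((cy M (cg g)).isUnit.mul_right_cancel ?_)
        ((cy M (cg g)).isUnit.mul_right_cancel ?_) <;> rw [← hd]
      · linear_combination d * e1 - c * e2
      · linear_combination a * e2 - b * e1
    have hπ : Function.Injective π := by
      intro x y e
      simp only [π, Prod.mk.injEq, mul_left_inj] at e
      exact Prod.ext e.1 (Prod.ext (hv _ _ (Prod.ext e.2.1.1 e.2.1.2))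
        (hv _ _ (Prod.ext e.2.2.1 e.2.2.2)))
    have hdv : ∀ x, dv M (π x).2.1 (π x).2.2 = dv M x.2.1 x.2.2 * cy M (cg g) := by
      intro x
      simp only [π, dv_eq, ← hd]
      ring
    let A : LL × LL × (ZMod M)ˣ → LL × LL × (ZMod M)ˣ := fun i =>
      (g i.1, g i.2.1, i.2.2 * cy M (cg g))
    have hA : Function.Injective A := by
      intro x y e
      simp only [A, Prod.mk.injEq, mul_left_inj, g.injective.eq_iff] at e
      exact Prod.ext e.1 (Prod.ext e.2.1 e.2.2)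
    have hE : (E0 M).mapDomain A = E0 M := by
      rw [e0_eq hUT, es_eq, Finsupp.mapDomain_finsetSum]
      refine Finset.sum_equiv (Equiv.ofBijective π (Finite.injective_iff_bijective.1 hπ))
        (fun x => ?_) fun x hx => ?_
      · simp [hdv]
      · simp only [Finset.mem_filter, Finset.mem_univ, true_and] at hx
        rw [Finsupp.mapDomain_single, Equiv.ofBijective_apply]
        congr 1
        refine Prod.ext (hg _ _) (Prod.ext ((hg (tw * x.1) _).trans ?_) ?_)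
        · simp only [sy, π, Units.val_mul, mul_assoc]
          rfl
        · simp only [sy, A, hdv, un_mul hx]
    have := Finsupp.mapDomain_apply hA (E0 M) i
    rwa [hE] at this
  · obtain ⟨u1, u2⟩ := hs i hi
    have hN : 2 ^ k ≠ 0 := by positivity
    obtain ⟨r, -, hr⟩ := hUNITS.2.1 _ u1 _ hN
    obtain ⟨r', -, hr'⟩ := hUNITS.2.1 _ u2 _ hN
    exact ⟨⟨ul_ne u1, r, hr⟩, ul_ne u2, r', hr'⟩

end TEINV

theorem t_EINV (hUNITS : UNITS) (hLING : LING) (hTRF : TRF) (hCOK : COK) (hUT : UT)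
    (hEXA : EXA) : EINV := by
  classical
  refine ⟨fun M _ => TEINV.e0_eq hUT M, fun k M h => ⟨TEINV.inv0 hUNITS hUT hEXA h, ?_⟩⟩
  intro l hl hl'
  obtain ⟨h1, h2⟩ := TEINV.inv0 hUNITS hUT hEXA h
  obtain ⟨ok, nm, -, hc⟩ := hCOK.2.2.1 k M h.1 h.2.1
  have h3 := (hTRF _ _ _ _ _ _ ok nm (hc l hl hl') _ h1).1
  rw [hCOK.2.2.2.1] at h3
  have L := (hLING _ _ _ ok).1
  have e : Ep l M = Cor l (E0 M) + (-(l + 1) : ℤ) • E0 M := by
    rw [Ep, neg_smul, ← sub_eq_add_neg]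
    norm_cast
  refine ⟨e ▸ ((L _ _ 0).2.2 h3).2 ((L _ 0 _).2.2 h1).1, fun i hi => ?_⟩
  by_cases h0 : E0 M i = 0
  · rw [e, Finsupp.add_apply, Finsupp.smul_apply, h0, smul_zero, add_zero, Cor,
      Finsupp.finsetSum_apply] at hi
    obtain ⟨t, ht, hx⟩ := Finset.exists_ne_zero_of_sum_ne_zero hi
    obtain ⟨j, hj, rfl⟩ := Finset.mem_image.1
      (Finsupp.mapDomain_support (Finsupp.mem_support_iff.2 hx))
    obtain ⟨u1, u2⟩ := h2 j (Finsupp.mem_support_iff.1 hj)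
    have p := (hCOK.2.2.2.2.1 l hl hl').1 t ht
    exact ⟨p _ u1, p _ u2⟩
  · exact h2 i h0

end Pool.Agent.P.MP_9c97e9_nt.KT
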