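import Pool.Agent.P.MP_9c97e9_nt.KT.IfU
import Pool.Agent.P.MP_9c97e9_nt.KT.TGEN
import Pool.Agent.P.MP_9c97e9_nt.KT.TSMQ

/-! Evaluation of sums of symbols at a point. -/

namespace Pool.Agent.P.MP_9c97e9_nt.KT

open MP_8b7eba_nt.R2

namespace TEVAL

variable {τ : ℂ} {x y : Om} {f g : LL}

theorem cst_mem (hFB : FB) (a : Om) : cst a ∈ HL := ⟨_, hFB.2.2.2.1 a, rfl⟩

theorem mul_mem' (hFB : FB) (hf : f ∈ HL) (hg : g ∈ HL) : f * g ∈ HL := by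
  obtain ⟨F, h1, rfl⟩ := hf
  obtain ⟨G, h2, rfl⟩ := hg
  have := hFB.2.2.2.2.2.1 F G h1 h2
  exact ⟨_, this.2.1, this.2.2.2.2.1.symm⟩

theorem ev_cst (hFB : FB) (hU : UNITS) (h : Alg τ x y) (a : Om) : ev τ (cst a) = a :=
  io.injective (hU.2.2 τ x y h _ (hFB.2.2.2.1 a))

theorem ev_mul (hFB : FB) (hU : UNITS) (h : Alg τ x y) (hf : f ∈ HL) (hg : g ∈ HL) :
    ev τ (f * g) = ev τ f * ev τ g := by
  obtain ⟨F, h1, rfl⟩ := hf
  obtain ⟨G, h2, rfl⟩ := hg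
  have := hFB.2.2.2.2.2.1 F G h1 h2
  apply io.injective
  rw [← this.2.2.2.2.1, map_mul, hU.2.2 τ x y h _ this.2.1, hU.2.2 τ x y h _ h1,
    hU.2.2 τ x y h _ h2, Pi.mul_apply]

theorem ev_pow (hFB : FB) (hU : UNITS) (h : Alg τ x y) (hf : f ∈ HL) (n : ℕ) :
    f ^ n ∈ HL ∧ ev τ (f ^ n) = ev τ f ^ n := by
  induction n with
  | zero =>
    obtain ⟨c, hc⟩ := hFB.1
    rw [pow_zero, pow_zero, ← c.map_one, hc]
    exact ⟨cst_mem hFB 1, ev_cst hFB hU h 1⟩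
  | succ n ih =>
    rw [pow_succ, pow_succ, ev_mul hFB hU h ih.1 hf, ih.2]
    exact ⟨mul_mem' hFB ih.1 hf, rfl⟩

theorem ul_mem (hf : f ∈ UL) : f ∈ HL := let ⟨F, h1, _, h2⟩ := hf; ⟨F, h1, h2⟩

theorem ev_ne (hU : UNITS) (h : Alg τ x y) (hf : f ∈ UL) : ev τ f ≠ 0 := fun k => by
  obtain ⟨F, h1, h2, rfl⟩ := hf
  exact h2 τ h.1 (by rw [← hU.2.2 τ x y h _ h1, k, map_zero])

theorem root (hFB : FB) (hU : UNITS) (h : Alg τ x y) (hf : f ∈ UL) (h0 : f ≠ 0) {N : ℕ}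
    (hN : N ≠ 0) : rtN N f ∈ HL ∧ ev τ (rtN N f) ^ N = ev τ f ∧ ev τ (rtN N f) ≠ 0 := by
  obtain ⟨r, h1, h2⟩ := hU.2.1 f hf N hN
  have h3 := TGEN.rtN_spec ⟨r, h2⟩
  have h4 : r ≠ 0 := fun k => h0 (by rw [← h2, k, zero_pow hN])
  obtain ⟨a, ha⟩ := hFB.2.2.2.2.2.2.2.2.1 (rtN N f / r) N hN (by rw [div_pow, h2, h3, div_self h0])
  have h5 : rtN N f ∈ HL := by
    rw [(div_eq_iff h4).1 ha]
    exact mul_mem' hFB (cst_mem hFB a) (ul_mem h1)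
  have h6 : ev τ (rtN N f) ^ N = ev τ f := by rw [← (ev_pow hFB hU h h5 N).2, h3]
  exact ⟨h5, h6, fun k => ev_ne hU h hf (by rw [← h6, k, zero_pow hN])⟩

end TEVAL

open TEVAL in
theorem t_EVAL (hFB : FB) (hUNITS : UNITS) (hCOK : COK) : EVAL := by
  intro k M E hM hd ⟨hE, hu⟩ τ H s hs
  obtain ⟨hC, -, hD, -⟩ := hCOK.2.2.1 k M hM hd
  have hD := hD H
  obtain ⟨x, y, ha, -⟩ := hs.alg
  have hN : 2 ^ k ≠ 0 := by positivity
  have hF0 := ((t_GEN _ _ _ hC).1 E hE).1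
  have s1 : s 1 = 1 := by
    have := hs.mul 1 H.one_mem 1 H.one_mem
    rw [one_mul] at this
    exact mul_left_cancel (a := s 1) (by rw [← this, mul_one])
  have si : ∀ g ∈ H, s g⁻¹ = (s g)⁻¹ := fun g hg =>
    eq_inv_of_mul_eq_one_left (by rw [← hs.mul _ (inv_mem hg) _ hg, inv_mul_cancel, s1])
  have sc : ∀ g ∈ H, (CL k M).cy (s g) = (CO H k M).cy g := fun g hg =>
    congrArg (cy M) (hs.mem g hg).2
  have r1 : ∀ i, E i ≠ 0 → _ := fun i hi => root hFB hUNITS ha (hu i hi).1 (hE.2 i hi).1.1 hN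
  have r2 : ∀ i, E i ≠ 0 → _ := fun i hi => root hFB hUNITS ha (hu i hi).2 (hE.2 i hi).2.1 hN
  let F : Fam (CO H k M) (LL × LL × (ZMod M)ˣ) :=
    ⟨fun g => ((CL k M).can E).act (s g), E, fun i => i.2.2, fun i => ev τ (rtN (2 ^ k) i.1),
      fun i => ev τ (rtN (2 ^ k) i.2.1)⟩
  have hF : F.Ok := by
    refine ⟨fun i => ?_, fun g hg h hh i => ?_, fun g hg => hF0.inv _ (hs.mem g hg).1,
      fun g hg i => sc g hg ▸ hF0.det _ (hs.mem g hg).1 i,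
      fun i hi => ⟨(r1 i hi).2.2, (r2 i hi).2.2⟩, fun g hg i hi => ?_, ?_⟩
    · simp only [F, s1]
      exact hF0.one i
    · simp only [F, hs.mul g hg h hh]
      exact hF0.mul _ (hs.mem g hg).1 _ (hs.mem h hh).1 i
    · have hj : E (((CL k M).can E).act (s g) i) ≠ 0 := by rwa [hE.1 _ (hs.mem g hg).1]
      exact ⟨(r1 _ hj).2.1.trans ((hs.val g hg _ (ul_mem (hu i hi).1)).trans
          (congrArg g (r1 i hi).2.1.symm)),
        (r2 _ hj).2.1.trans ((hs.val g hg _ (ul_mem (hu i hi).2)).trans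
          (congrArg g (r2 i hi).2.1.symm))⟩
    · obtain ⟨S, hS⟩ := hF0.sm
      obtain ⟨N, h1, h2⟩ := hs.sm S
      obtain ⟨T, hT⟩ := TSMQ.exists_fin h1
      exact ⟨T, fun n hn h => hS _ (hs.mem n hn).1 (h2 n hn (hT n h))⟩
  have him : F.im = evE τ E := Finsupp.mapDomain_congr fun i hi =>
    Prod.ext (r1 i (Finsupp.mem_support_iff.1 hi)).2.1
      (Prod.ext (r2 i (Finsupp.mem_support_iff.1 hi)).2.1 rfl)
  have hk : ∀ ρ : LL × LL × (ZMod M)ˣ → LL, TGEN.Rt ((CL k M).can E) ρ →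
      (∀ i, E i ≠ 0 → ρ i ∈ HL ∧ ev τ (ρ i) ≠ 0) → ∀ g ∈ H, ∀ i, E i ≠ 0 →
      F.kc (fun j => ev τ (ρ j)) g i = ((CL k M).can E).kc ρ (s g) i := by
    intro ρ h1 h2 g hg i hi
    have h3 := (eq_div_iff (h1.1 i hi)).1 (TGEN.kc_spec hC hF0 h1 (hs.mem g hg).1 hi)
    have h4 := hs.val g hg _ (h2 _ (TGEN.m_act hF0 (hs.mem g hg).1 hi)).1
    have h5 := ev_pow hFB hUNITS ha (cst_mem hFB (ec (2 ^ k)⁻¹)) (((CL k M).can E).kc ρ (s g) i).val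
    have h6 := congrArg (ev τ) h3
    rw [TGEN.zp, ev_mul hFB hUNITS ha h5.1 (h2 i hi).1, h5.2, ev_cst hFB hUNITS ha] at h6
    rw [← TGEN.dlo_zp hD (((CL k M).can E).kc ρ (s g) i), Fam.kc]
    congr 1
    rw [div_eq_iff (h2 i hi).2]
    simp only [F, si g hg]
    exact (h6.trans h4).symm
  obtain ⟨-, h1, β, h2, h3⟩ := (t_GEN _ _ _ hD).2 _ F hF
  rw [him] at h1 h3
  refine ⟨h1, fun g => -β g, ?_, fun g hg h hh => ?_⟩
  · obtain ⟨S, hS⟩ := h2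
    exact ⟨S, fun g hg n hn h => congrArg Neg.neg (hS g hg n hn h)⟩
  · have e : fE k E (s g) (s h) = F.f g h := by
      funext d
      refine Finset.sum_congr rfl fun i hi => ?_
      have hi' := Finsupp.mem_support_iff.1 hi
      have k1 := hk _ (TGEN.rt_r hF0) (fun i hi => ⟨(r1 i hi).1, (r1 i hi).2.2⟩) g hg i hi'
      have k2 := hk _ (TGEN.rt_r' hF0) (fun i hi => ⟨(r2 i hi).1, (r2 i hi).2.2⟩) h hh _
        (TGEN.m_act hF0 (hs.mem g hg).1 hi')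
      have k3 : F.act g⁻¹ i = ((CL k M).can E).act (s g)⁻¹ i :=
        congrArg (fun t => ((CL k M).can E).act t i) (si g hg)
      beta_reduce
      rw [k3]
      exact if_congr Iff.rfl (congrArg₂ (· * ·) (congrArg _ (congrArg _ k1.symm))
        (congrArg₂ (· * ·) (congrArg _ (sc g hg)) k2.symm)) rfl
    beta_reduce
    rw [e, ← neg_sub, h3 g hg h hh]
    funext d
    simp only [Cx.d1, Cx.ac, Pi.neg_apply, Pi.add_apply, Pi.sub_apply]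
    ring

end Pool.Agent.P.MP_9c97e9_nt.KT
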