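import Pool.Agent.P.MP_9c97e9_nt.KT.IfU

/-! The Euler system from the zeta cocycles. -/

namespace Pool.Agent.P.MP_9c97e9_nt.KT

open scoped NNReal Matrix
open MP_8b7eba_nt.R2

namespace TGX

theorem addle {v v' : V2} {r : ℝ} (h : ‖v‖ ≤ r) (h' : ‖v'‖ ≤ r) : ‖v + v'‖ ≤ r :=
  (IsUltrametricDist.norm_add_le_max v v').trans (max_le h h')

theorem suble {v v' : V2} {r : ℝ} (h : ‖v‖ ≤ r) (h' : ‖v'‖ ≤ r) : ‖v - v'‖ ≤ r := by
  rw [sub_eq_add_neg]
  exact addle h (by rwa [norm_neg])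

theorem smle {a : ℚ_[2]} {v : V2} {r : ℝ} (ha : ‖a‖ ≤ 1) (h : ‖v‖ ≤ r) : ‖a • v‖ ≤ r := by
  rw [norm_smul]
  exact (mul_le_of_le_one_left (norm_nonneg _) ha).trans h

theorem psh_sub (M l : ℕ) (h : M * l ≠ 0) (f f' : (ZMod (M * l))ˣ → V2) (ε : (ZMod M)ˣ) {r : ℝ}
    (hr : 0 ≤ r) (hf : ∀ δ, ‖f δ - f' δ‖ ≤ r) : ‖psh M l f ε - psh M l f' ε‖ ≤ r := by
  have : NeZero (M * l) := ⟨h⟩
  unfold psh
  rw [finsum_eq_sum_of_fintype, finsum_eq_sum_of_fintype, ← Finset.sum_sub_distrib]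
  refine IsUltrametricDist.norm_sum_le_of_forall_le_of_nonneg hr fun δ _ => ?_
  split_ifs
  · exact hf δ
  · simpa using hr

theorem inv_le {l : ℕ} (hl : l.Prime) (h2 : l ≠ 2) : ‖(l : ℚ_[2])⁻¹‖ ≤ 1 := by
  have : ‖(l : ℚ_[2])‖ = 1 := by
    rw [Padic.norm_natCast_eq_one_iff]
    exact (Nat.coprime_primes Nat.prime_two hl).2 h2.symm
  rw [norm_inv, this, inv_one]

theorem lv0 (D : Dat) {k M : ℕ} (h : D.Lv k M) : Lv0 k (M * D.n) := by
  refine ⟨mul_ne_zero h.1 D.sq.ne_zero, ?_, Nat.Coprime.mul_left ?_ D.cop⟩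
  · exact ((pow_dvd_pow 2 (Nat.le_add_right k 2)).trans h.2.1).mul_right _
  · exact h.2.2.coprime_mul_right_right

theorem two_dvd (D : Dat) {k M : ℕ} (h : D.Lv k M) : 2 ∣ M :=
  (dvd_pow_self 2 (by omega)).trans h.2.1

theorem lvp (D : Dat) {k M p : ℕ} (h : D.Lv k M) (hp : p.Prime) (h2 : p = 2 ∨ ¬ p ∣ 15 * D.n * M) :
    D.Lv k (M * p) := by
  refine ⟨mul_ne_zero h.1 hp.ne_zero, h.2.1.mul_right _, Nat.Coprime.mul_left h.2.2 ?_⟩
  rcases h2 with rfl | h2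
  · exact h.2.2.coprime_dvd_left (two_dvd D h)
  · exact (hp.coprime_iff_not_dvd).2 fun h3 => h2 (h3.mul_right _)

theorem lv2 (D : Dat) (k : ℕ) : D.Lv k (2 ^ (k + 2)) := by
  refine ⟨by positivity, dvd_rfl, Nat.Coprime.pow_left _ ?_⟩
  rw [Nat.coprime_two_left, Nat.odd_mul, Nat.odd_iff, Nat.odd_iff]
  have := D.n4
  omega

end TGX

open TGX in
theorem t_GX (hZEX : ZEX) (hZTK : ZTK) (hNREL : NREL) (hTWA : TWA) (hTWB : TWB) : GX := by
  intro D l hl hd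
  have h15 : ¬ l ∣ 15 := fun h => hd ((h.trans (by norm_num)).mul_right _)
  have hex : ∀ k M : ℕ, ∃ z : GQ → (ZMod M)ˣ → V2, Lv0 k M → ∃ b, ZK l k M b z := by
    intro k M
    by_cases h : Lv0 k M
    · obtain ⟨b, z, hz⟩ := hZEX l k M hl h15 h
      exact ⟨z, fun _ => ⟨b, hz⟩⟩
    · exact ⟨0, fun h' => absurd h' h⟩
  choose zt hzt using hex
  have hT : ∀ k M, D.Lv k M → ZT l k _ (zt k (M * D.n)) := fun k M h => by
    obtain ⟨b, hb⟩ := hzt k _ (lv0 D h)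
    exact hZTK l k _ b _ hl h15 (lv0 D h) hb
  set y : EA := fun k M => D.nr (D.t0 M (zt k (M * D.n))) with hy
  have hr : ∀ k M, D.Lv k M → ∀ g ε, ‖rn k (y k M g ε) - y k M g ε‖ ≤ (2 ^ k)⁻¹ :=
    fun k M h g ε => (hTWA.1 k _).2 ((hTWA.2 D l k M _ h (hT k M h)).1 g ε).2
  have hB : ∀ k M p, D.Lv k M → p.Prime → (p = 2 ∨ ¬ p ∣ 15 * D.n * M) → ∀ g ε,
      ‖psh M p (fun δ => rn k (y k (M * p) g δ)) ε -
        eu p (jacobiSym p D.n * ap W15 p : ℤ) (y k M g) ε‖ ≤ (2 ^ k)⁻¹ := by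
    intro k M p h hp h2 g ε
    have h' := lvp D h hp h2
    obtain ⟨b, hb⟩ := hzt k _ (lv0 D h)
    obtain ⟨b', hb'⟩ := hzt k _ (lv0 D h')
    have hp15 : ¬ p ∣ 15 := by
      rcases h2 with rfl | h2
      · norm_num
      · exact fun h3 => h2 ((h3.mul_right _).mul_right _)
    have h1 := hTWB D k M p _ _ h hp h2 (hNREL l k _ _ p b _ b' _ hl h15 (lv0 D h)
      ((two_dvd D h).mul_right _) hp hp15 (mul_right_comm _ _ _) hb hb') g ε
    have h3 := psh_sub M p h'.1 (fun δ => rn k (y k (M * p) g δ)) (y k (M * p) g) ε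
      (by positivity) (hr k _ h' g)
    have := addle h3 h1
    rwa [sub_add_sub_cancel] at this
  refine ⟨fun k M g ε => rn k (y k M g ε), ⟨fun k M g δ => (hTWA.1 k _).1,
    fun k M h => (hTWA.2 D l k M _ h (hT k M h)).2.1, ?_, ?_, ?_, ?_⟩, fun k => ?_⟩
  · intro k M h g g' δ
    have h1 := (hTWA.2 D l k M _ h (hT k M h)).2.2.1 g g' δ
    have h2 := addle (suble (suble (hr k M h (g * g') δ) (hr k M h g δ))
      (LC.rd T2 D.dl g (hr k M h g' (δ * (cy M g)⁻¹)))) h1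
    convert h2 using 2
    simp only [Dat.rd, Matrix.mulVec_sub, hy]
    abel
  · intro k M h δ
    have h1 := hr k M h D.z δ
    have h2 : y k M D.z δ = 0 := (hTWA.2 D l k M _ h (hT k M h)).2.2.2 δ
    rwa [h2, sub_zero, ← h2] at h1
  · intro k M h g ε
    have h1 := hB k M 2 h Nat.prime_two (Or.inl rfl) g ε
    rw [eu, if_pos (two_dvd D h)] at h1
    have h2 := suble h1 (hr k M h g ε)
    convert h2 using 2
    abel
  · intro k M p h hp h2 g ε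
    have h1 := hB k M p h hp (Or.inr h2) g ε
    rw [eu, if_neg fun h3 => h2 (h3.mul_left _)] at h1
    have hp2 : p ≠ 2 := by
      rintro rfl
      exact h2 ((two_dvd D h).mul_left _)
    have ha : ‖((jacobiSym p D.n * ap W15 p : ℤ) / p : ℚ_[2])‖ ≤ 1 := by
      rw [div_eq_mul_inv, norm_mul]
      exact mul_le_one₀ (Padic.norm_int_le_one _) (norm_nonneg _) (inv_le hp hp2)
    have h3 := suble h1 (addle (suble (hr k M h g ε)
      (smle ha (hr k M h g (ε * (un (p : ZMod M))⁻¹))))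
      (smle (inv_le hp hp2) (hr k M h g (ε * (un (p : ZMod M))⁻¹ ^ 2))))
    convert h3 using 2
    simp only [smul_sub]
    abel
  · have h := lv2 D k
    exact ⟨zt k _, D.t0 _ (zt k _) D.z, hT k _ h,
      fun ε => ((hTWA.2 D l k _ _ h (hT k _ h)).1 D.z ε).1, fun g ε => hr k _ h g ε⟩

end Pool.Agent.P.MP_9c97e9_nt.KT
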