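import Pool.Agent.P.MP_9c97e9_nt.KT.IfU
import Pool.Agent.P.MP_9c97e9_nt.KT.TGEN

/-! The cocycle of the Hochschild-Serre spectral sequence. -/

namespace Pool.Agent.P.MP_9c97e9_nt.KT

namespace TKC

variable {G Ω : Type} [Group G] [Field Ω] [MulSemiringAction G Ω] {C : Cx G Ω} {K : Subgroup G}
  {f : G → G → C.A} {b : G → C.A} {g h γ γ' : G}

theorem ac_add (g : G) (x y : C.A) : C.ac g (x + y) = C.ac g x + C.ac g y :=
  funext fun _ => mul_add _ _ _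

theorem ac_sub (g : G) (x y : C.A) : C.ac g (x - y) = C.ac g x - C.ac g y :=
  funext fun _ => mul_sub _ _ _

theorem ac_K (hC : C.Ok) (hK : C.Nm K) (hγ : γ ∈ K) (x : C.A) : C.ac γ x = x :=
  funext fun d => by rw [Cx.ac, hK.cy γ hγ, TGEN.red_one hC.dvd hC.ne, one_mul, inv_one, mul_one]

theorem ac_mul (hC : C.Ok) (hg : g ∈ C.H) (hh : h ∈ C.H) (x : C.A) :
    C.ac (g * h) x = C.ac g (C.ac h x) :=
  funext fun d => by
    simp only [Cx.ac]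
    rw [TGEN.red_cy_mul hC hg hh, hC.mul g hg h hh, mul_inv, mul_assoc, mul_assoc]

section

variable (hC : C.Ok) (hK : C.Nm K) (hS : C.Sp K f b)
include hC hK hS

theorem fK (hγ : γ ∈ K) (hγ' : γ' ∈ K) : f γ γ' = b γ' - b (γ * γ') + b γ := by
  rw [hS.eq γ hγ γ' hγ', Cx.d1, ac_K hC hK hγ]

theorem coK (hγ : γ ∈ K) (hg : g ∈ C.H) (hh : h ∈ C.H) :
    f g h + f γ (g * h) = f (γ * g) h + f γ g := by
  rw [← hS.co.co γ (hK.le hγ) g hg h hh, ac_K hC hK hγ]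

theorem hom (hg : g ∈ C.H) (hγ : γ ∈ K) (hγ' : γ' ∈ K) :
    C.kk f b g (γ * γ') = C.kk f b g γ + C.kk f b g γ' := by
  have d := hK.nm g hg γ hγ
  have d' := hK.nm g hg γ' hγ'
  have e1 := hS.co.co g hg _ (hK.le d) _ (hK.le d')
  have e2 := coK hC hK hS hγ hg (hK.le d')
  have e3 := coK hC hK hS hγ (hK.le hγ') hg
  rw [fK hC hK hS d d', ac_add, ac_sub, show g * (g⁻¹ * γ * g) = γ * g by group] at e1
  rw [show g * (g⁻¹ * γ' * g) = γ' * g by group] at e2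
  rw [fK hC hK hS hγ hγ'] at e3
  simp only [Cx.kk]
  rw [show g⁻¹ * (γ * γ') * g = g⁻¹ * γ * g * (g⁻¹ * γ' * g) by group]
  linear_combination e1 - e2 + e3

theorem coc (hg : g ∈ C.H) (hh : h ∈ C.H) (hγ : γ ∈ K) :
    C.kk f b (g * h) γ = C.kk f b g γ + C.ac g (C.kk f b h (g⁻¹ * γ * g)) := by
  have d := hK.nm g hg γ hγ
  have e1 := hS.co.co g hg h hh _ (hK.le (hK.nm h hh _ d))
  have e2 := hS.co.co g hg _ (hK.le d) h hh
  have e3 := coK hC hK hS hγ hg hh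
  rw [show h * (h⁻¹ * (g⁻¹ * γ * g) * h) = g⁻¹ * γ * g * h by group] at e1
  rw [show g * (g⁻¹ * γ * g) = γ * g by group] at e2
  simp only [Cx.kk, ac_add, ac_sub]
  rw [show (g * h)⁻¹ * γ * (g * h) = h⁻¹ * (g⁻¹ * γ * g) * h by group, ac_mul hC hg hh]
  linear_combination e2 - e1 - e3

theorem left (hg : g ∈ C.H) (hγ : γ ∈ K) (hγ' : γ' ∈ K) :
    C.kk f b (γ' * g) γ = C.kk f b g γ := by
  have d := hK.nm γ' (hK.le hγ') γ hγ
  have e1 := hom hC hK hS hg hγ' d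
  have e2 := fK hC hK hS hγ' d
  rw [show γ' * (γ'⁻¹ * γ * γ') = γ * γ' by group] at e1 e2
  rw [hom hC hK hS hg hγ hγ'] at e1
  rw [coc hC hK hS (hK.le hγ') hg hγ, ac_K hC hK hγ', Cx.kk, ac_K hC hK hγ', e2,
    fK hC hK hS hγ hγ']
  linear_combination -e1

theorem five (hg : g ∈ C.H) (hh : h ∈ C.H) (hγ : γ ∈ K) (hγ' : γ' ∈ K) :
    f (γ * g) (γ' * h) - f g h = C.kk f b g (g * γ' * g⁻¹) + (C.ac g (b γ' - f γ' h) -
      (b (γ * (g * γ' * g⁻¹)) - f (γ * (g * γ' * g⁻¹)) (g * h)) + (b γ - f γ g)) := by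
  have d : g * γ' * g⁻¹ ∈ K := by simpa using hK.nm _ (inv_mem hg) γ' hγ'
  have e1 := coK hC hK hS hγ hg (mul_mem (hK.le hγ') hh)
  have e2 := hS.co.co g hg _ (hK.le hγ') h hh
  have e3 := coK hC hK hS d hg hh
  have e4 := coK hC hK hS hγ (hK.le d) (mul_mem hg hh)
  rw [show g * γ' * g⁻¹ * g = g * γ' by group] at e3
  rw [fK hC hK hS hγ d, show g * γ' * g⁻¹ * (g * h) = g * (γ' * h) by group] at e4
  simp only [Cx.kk, ac_sub]
  rw [show g⁻¹ * (g * γ' * g⁻¹) * g = γ' by group]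
  linear_combination e2 - e1 - e3 + e4

end

theorem fix_conj {S : Finset Ω} (hS : ∀ g ∈ C.H, ∀ s ∈ S, g • s ∈ S) (hg : g ∈ C.H) {n : G}
    (hn : ∀ s ∈ S, n • s = s) : ∀ s ∈ S, (g⁻¹ * n * g) • s = s := fun s hs => by
  rw [mul_smul, mul_smul, hn _ (hS g hg s hs), inv_smul_smul]

end TKC

open TKC in
theorem t_KCU (hLING : LING) : KCU := by
  classical
  intro G Ω _ _ _ C K f b hC hK hS
  obtain ⟨S1, s1⟩ := hS.co.sm
  obtain ⟨S2, s2⟩ := hS.sm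
  obtain ⟨S3, s3⟩ := hC.sm
  obtain ⟨S, i, st⟩ := (hLING G Ω C hC).2.2.2.2.2.1 (S1 ∪ S2 ∪ S3)
  have i1 : ∀ {n : G}, (∀ s ∈ S, n • s = s) → ∀ s ∈ S1, n • s = s := fun h s hs =>
    h s (i (by simp [hs]))
  have i2 : ∀ {n : G}, (∀ s ∈ S, n • s = s) → ∀ s ∈ S2, n • s = s := fun h s hs =>
    h s (i (by simp [hs]))
  have i3 : ∀ {n : G}, (∀ s ∈ S, n • s = s) → ∀ s ∈ S3, n • s = s := fun h s hs =>
    h s (i (by simp [hs]))
  refine ⟨fun g hg => ⟨⟨S, fun γ hγ n hn e => ?_⟩, fun γ hγ γ' hγ' => hom hC hK hS hg hγ hγ'⟩,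
    fun g hg h hh γ hγ => coc hC hK hS hg hh hγ, fun g hg γ hγ γ' hγ' => left hC hK hS hg hγ hγ',
    ⟨S, fun g hg n hn e γ hγ => ?_⟩, fun g hg h hh γ hγ γ' hγ' => five hC hK hS hg hh hγ hγ',
    fun f' b' hS' ⟨β, ⟨S4, s4⟩, hβ⟩ => ?_⟩
  · have d := hK.nm g hg γ hγ
    have d' := hK.nm g hg n hn
    have e' := fix_conj st hg e
    simp only [Cx.kk]
    rw [show g⁻¹ * (γ * n) * g = g⁻¹ * γ * g * (g⁻¹ * n * g) by group,
      (s1 g hg _ (hK.le d) _ (hK.le d') (i1 e')).2, s2 _ d _ d' (i2 e'),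
      (s1 γ (hK.le hγ) g hg n (hK.le hn) (i1 e)).1, s2 γ hγ n hn (i2 e)]
  · have d := hK.nm g hg γ hγ
    have d' : (g⁻¹ * γ * g)⁻¹ * n⁻¹ * (g⁻¹ * γ * g) * n ∈ K := by
      have := mul_mem (inv_mem d) (hK.nm n hn _ d)
      rwa [← mul_assoc, ← mul_assoc] at this
    have e' : ∀ s ∈ S, ((g⁻¹ * γ * g)⁻¹ * n⁻¹ * (g⁻¹ * γ * g) * n) • s = s := fun s hs => by
      rw [mul_smul, e s hs,
        fix_conj st (hK.le d) (fun s hs => inv_smul_eq_iff.2 (e s hs).symm) s hs]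
    simp only [Cx.kk]
    rw [show (g * n)⁻¹ * γ * (g * n) =
        g⁻¹ * γ * g * ((g⁻¹ * γ * g)⁻¹ * n⁻¹ * (g⁻¹ * γ * g) * n) by group,
      (s1 _ (mul_mem hg hn) _ (hK.le d) _ (hK.le d') (i1 e')).2, s2 _ d _ d' (i2 e'),
      (s1 g hg _ (hK.le d) n hn (i1 e)).1, (s1 γ (hK.le hγ) g hg n hn (i1 e)).2,
      show C.ac (g * n) = C.ac g by unfold Cx.ac; rw [s3 g hg n hn (i3 e)]]
  · obtain ⟨S5, s5⟩ := hS'.sm
    refine ⟨b - b' - β, ⟨⟨S2 ∪ S5 ∪ S4, fun γ hγ n hn e => ?_⟩, fun γ hγ γ' hγ' => ?_⟩,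
      fun g hg γ hγ => ?_⟩
    · simp only [Pi.sub_apply]
      rw [s2 γ hγ n hn fun s hs => e s (by simp [hs]), s5 γ hγ n hn fun s hs => e s (by simp [hs]),
        s4 γ (hK.le hγ) n (hK.le hn) fun s hs => e s (by simp [hs])]
    · have e := hβ γ (hK.le hγ) γ' (hK.le hγ')
      rw [fK hC hK hS hγ hγ', fK hC hK hS' hγ hγ', Cx.d1, ac_K hC hK hγ] at e
      simp only [Pi.sub_apply]
      linear_combination -e
    · have e1 := hβ g hg _ (hK.le (hK.nm g hg γ hγ))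
      have e2 := hβ γ (hK.le hγ) g hg
      rw [Cx.d1, show g * (g⁻¹ * γ * g) = γ * g by group] at e1
      rw [Cx.d1, ac_K hC hK hγ] at e2
      simp only [Cx.kk, Pi.sub_apply, Pi.zero_apply, ac_sub]
      linear_combination e1 - e2

end Pool.Agent.P.MP_9c97e9_nt.KT
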