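import Pool.Agent.P.MP_9c97e9_nt.KT.IfU
import Pool.Agent.P.MP_9c97e9_nt.KT.TGEN
import Pool.Agent.P.MP_9c97e9_nt.KT.TBAS

/-! Change of the labels. -/

namespace Pool.Agent.P.MP_9c97e9_nt.KT

open MP_8b7eba_nt.R2
open scoped Classical

namespace TLAB

/-- the Kummer cochain of an element -/
noncomputable def kc (k : ℕ) (g : AL) (u : LL) : ZMod (2 ^ k) :=
  dlo (cst (ec (2 ^ k)⁻¹)) (2 ^ k) (g • rtN (2 ^ k) (g⁻¹ • u) / rtN (2 ^ k) u)

lemma fE_eq (k : ℕ) {M : ℕ} (E : Sy LL M) (g h : AL) (d : (ZMod M)ˣ) : fE k E g h d =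
    E.sum fun i c => if i.2.2 = d then c * (red (2 ^ k) d⁻¹ * kc k g i.1) *
      (red (2 ^ k) (cy M (cg g)) * kc k h (g⁻¹ • i.2.1)) else 0 := by
  unfold fE Fam.f
  congr

lemma fE_lb (k : ℕ) {M M' : ℕ} (φ : (ZMod M')ˣ → (ZMod M)ˣ) (E : Sy LL M') (g h : AL)
    (d : (ZMod M)ˣ) : fE k (lb φ E) g h d =
    E.sum fun i c => if φ i.2.2 = d then c * (red (2 ^ k) d⁻¹ * kc k g i.1) *
      (red (2 ^ k) (cy M (cg g)) * kc k h (g⁻¹ • i.2.1)) else 0 := by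
  rw [fE_eq, lb, Finsupp.sum_mapDomain_index (fun _ => by simp) fun _ _ _ => by
    split_ifs
    · push_cast
      ring
    · simp]

lemma red_map {N M M' : ℕ} (h : N ∣ M) (hM : M ≠ 0) (hd : M ∣ M') (hM' : M' ≠ 0)
    (d : (ZMod M')ˣ) : red N (ZMod.unitsMap hd d) = red N d := by
  rw [TGEN.red_eq h hM, TGEN.red_eq (h.trans hd) hM', ← ZMod.castHom_comp h hd]
  rfl

lemma pz_eq {X : Type} [AddCommMonoid X] {M M' : ℕ} [NeZero M'] (hd : M ∣ M')
    (f : (ZMod M')ˣ → X) (ε : (ZMod M)ˣ) :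
    pz M f ε = ∑ δ, if ZMod.unitsMap hd δ = ε then f δ else 0 := by
  rw [pz, finsum_eq_sum_of_fintype]
  exact Finset.sum_congr rfl fun δ _ => by simp only [Units.ext_iff, ZMod.unitsMap_val]

lemma pz_add {X : Type} [AddCommMonoid X] {M M' : ℕ} [NeZero M'] (hd : M ∣ M')
    (f f' : (ZMod M')ˣ → X) : pz M (f + f') = pz M f + pz M f' := by
  funext d
  rw [Pi.add_apply, pz_eq hd, pz_eq hd, pz_eq hd, ← Finset.sum_add_distrib]
  refine Finset.sum_congr rfl fun i _ => ?_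
  split_ifs <;> simp

lemma pz_ac {X : Type} [Semiring X] {M M' : ℕ} [NeZero M'] (hd : M ∣ M') (r : X)
    (c : (ZMod M')ˣ) (f : (ZMod M')ˣ → X) (d : (ZMod M)ˣ) :
    pz M (fun δ => r * f (δ * c⁻¹)) d = r * pz M f (d * (ZMod.unitsMap hd c)⁻¹) := by
  rw [pz_eq hd, pz_eq hd, Finset.mul_sum]
  refine Fintype.sum_equiv (Equiv.mulRight c⁻¹) _ _ fun δ => ?_
  simp only [Equiv.coe_mulRight, map_mul, map_inv, mul_left_inj, mul_ite, mul_zero]

lemma comp {M N : ℕ} (h : M ≠ 0) (hd : M ∣ N) (hN : N ≠ 0) (g : GQ) :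
    ZMod.unitsMap hd (cy N g) = cy M g := by
  have : NeZero N := ⟨hN⟩
  have : NeZero M := ⟨h⟩
  obtain ⟨z, hz⟩ := HasEnoughRootsOfUnity.exists_primitiveRoot Om M
  have e := t_BAS.2.1 N hN g z ((hz.pow_eq_one_iff_dvd N).2 hd)
  rw [t_BAS.2.1 M h g z hz.pow_eq_one, (hz.isOfFinOrder h).pow_eq_pow_iff_modEq,
    ← hz.eq_orderOf, ← ZMod.natCast_eq_natCast_iff, ZMod.natCast_zmod_val] at e
  exact Units.ext (by rw [e, ZMod.unitsMap_val, ZMod.natCast_val])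

lemma fE_pz {k M M' : ℕ} [NeZero M'] (hk : 2 ^ k ∣ M) (hM : M ≠ 0) (hd : M ∣ M') (E : Sy LL M')
    (g h : AL) (d : (ZMod M)ˣ) : fE k (lb (ZMod.unitsMap hd) E) g h d =
      pz M (fun δ : (ZMod M')ˣ => fE k E g h δ) d := by
  have hM' := NeZero.ne M'
  rw [fE_lb, pz_eq hd]
  simp only [fE_eq, Finsupp.sum, Finset.ite_sum_zero]
  rw [Finset.sum_comm]
  refine Finset.sum_congr rfl fun i _ => ?_
  rw [Finset.sum_eq_single i.2.2 (fun δ _ e => by rw [if_neg e.symm, ite_self]) (by simp)]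
  simp only [if_true]
  split_ifs with e
  · rw [← e, ← map_inv, ← comp hM hd hM', red_map hk hM hd hM', red_map hk hM hd hM']
  · rfl

end TLAB

open TLAB in
theorem t_LAB : LAB := by
  refine fun k M hM hk => ⟨fun c => ⟨⟨AddMonoidHom.mk' (fun F d => red (2 ^ k) c⁻¹ *
    F (d * c⁻¹)) fun F F' => ?_, fun _ => rfl, fun g F => ?_⟩, fun E g h => ?_⟩, fun M' hd hM' => ?_⟩
  · funext d
    exact mul_add _ _ _
  · funext d
    simp only [AddMonoidHom.mk'_apply, Cx.ac]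
    rw [mul_left_comm, mul_right_comm d]
  · funext d
    show _ = red (2 ^ k) c⁻¹ * fE k E g h (d * c⁻¹)
    rw [fE_lb, fE_eq, Finsupp.mul_sum]
    refine Finset.sum_congr rfl fun i _ => ?_
    have e : red (2 ^ k) d⁻¹ = red (2 ^ k) c⁻¹ * red (2 ^ k) (d * c⁻¹)⁻¹ := by
      rw [← TGEN.red_mul hk hM, mul_inv_rev, inv_inv, inv_mul_cancel_left]
    simp only [eq_mul_inv_iff_mul_eq, e]
    split_ifs <;> ring
  have : NeZero M' := ⟨hM'⟩
  refine ⟨⟨AddMonoidHom.mk' (pz M) (pz_add hd), fun _ => rfl, fun g F => ?_⟩, fun E g h => ?_⟩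
  · funext d
    have e := pz_ac hd (red (2 ^ k) (cy M' (cg g))) (cy M' (cg g)) F d
    have e' := red_map hk hM hd hM' (cy M' (cg g))
    rw [comp hM hd hM'] at e e'
    exact e.trans (congrArg (· * pz M F (d * (cy M (cg g))⁻¹)) e'.symm)
  · exact funext (fE_pz hk hM hd E g h)

end Pool.Agent.P.MP_9c97e9_nt.KT
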