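import Pool.Agent.P.MP_9c97e9_nt.KT.IfU
import Pool.Agent.P.MP_9c97e9_nt.KT.TGEN

/-! Linearity of the cohomological constructions. -/

namespace Pool.Agent.P.MP_9c97e9_nt.KT

namespace TLING

variable {G Ω : Type} [Group G] [Field Ω] [MulSemiringAction G Ω] {C C' : Cx G Ω}
  {H K : Subgroup G} {X Y Z : Type}

theorem sm1 {a : G → X} {b : G → Y} (ha : Sm1 Ω H a) (hb : Sm1 Ω H b) (φ : X → Y → Z) :
    Sm1 Ω H fun g => φ (a g) (b g) := by
  classical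
  obtain ⟨S, hS⟩ := ha
  obtain ⟨T, hT⟩ := hb
  refine ⟨S ∪ T, fun g hg n hn h => ?_⟩
  dsimp only
  rw [hS g hg n hn fun s hs => h s (by simp [hs]), hT g hg n hn fun s hs => h s (by simp [hs])]

theorem sm11 {a : G → G → X} {b : G → G → Y} (ha : Sm11 Ω H a) (hb : Sm11 Ω H b) (φ : X → Y → Z) :
    Sm11 Ω H fun g h => φ (a g h) (b g h) := by
  classical
  obtain ⟨S, hS⟩ := ha
  obtain ⟨T, hT⟩ := hb
  refine ⟨S ∪ T, fun g hg k hk n hn h => ?_⟩
  have h1 := hS g hg k hk n hn fun s hs => h s (by simp [hs])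
  have h2 := hT g hg k hk n hn fun s hs => h s (by simp [hs])
  exact ⟨by dsimp only; rw [h1.1, h2.1], by dsimp only; rw [h1.2, h2.2]⟩

omit [Field Ω] [MulSemiringAction G Ω] in
theorem ac_add (g : G) (a b : C.A) : C.ac g (a + b) = C.ac g a + C.ac g b :=
  funext fun _ => mul_add _ _ _

omit [Field Ω] [MulSemiringAction G Ω] in
theorem ac_zero (g : G) : C.ac g 0 = 0 := funext fun _ => mul_zero _

omit [Field Ω] [MulSemiringAction G Ω] in
theorem ac_smul (g : G) (n : ℤ) (a : C.A) : C.ac g (n • a) = n • C.ac g a :=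
  funext fun d => mul_smul_comm n _ (a (d * (C.cy g)⁻¹))

theorem eqv_map (hH : C'.H = C.H) (φ : C'.A →+ C.A)
    (hφ : ∀ g ∈ C.H, ∀ F, φ (C'.ac g F) = C.ac g (φ F)) {f f' : G → G → C'.A} (h : C'.Eqv f f') :
    C.Eqv (fun g h => φ (f g h)) fun g h => φ (f' g h) := by
  obtain ⟨β, h1, h2⟩ := h
  rw [hH] at h1 h2
  refine ⟨fun g => φ (β g), sm1 h1 h1 fun a _ => φ a, fun g hg k hk => ?_⟩
  rw [← map_sub, h2 g hg k hk, Cx.d1, Cx.d1, map_add, map_sub, hφ g hg]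

theorem sp_map (hH : C'.H = C.H) (φ : C'.A →+ C.A)
    (hφ : ∀ g ∈ C.H, ∀ F, φ (C'.ac g F) = C.ac g (φ F)) {f : G → G → C'.A} {b : G → C'.A}
    (hK : ∀ g ∈ K, ∀ F, φ (C'.ac g F) = C.ac g (φ F)) (h : C'.Sp K f b) :
    C.Sp K (fun g h => φ (f g h)) fun g => φ (b g) := by
  obtain ⟨⟨h1, h2, h3⟩, h4, h5⟩ := h
  rw [hH] at h1 h3
  refine ⟨⟨sm11 h1 h1 fun a _ => φ a, by rw [h2, map_zero], fun g hg k hk l hl => ?_⟩,
    sm1 h4 h4 fun a _ => φ a, fun g hg k hk => ?_⟩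
  · rw [← hφ g hg, ← map_add, ← map_add, h3 g hg k hk l hl]
  · rw [h5 g hg k hk, Cx.d1, Cx.d1, map_add, map_sub, hK g hg]

theorem eqv_add {f f' e e' : G → G → C.A} (h : C.Eqv f f') (h' : C.Eqv e e') :
    C.Eqv (f + e) (f' + e') := by
  obtain ⟨β, h1, h2⟩ := h
  obtain ⟨β', h3, h4⟩ := h'
  refine ⟨fun g => β g + β' g, sm1 h1 h3 _, fun g hg k hk => ?_⟩
  have h5 := h2 g hg k hk
  have h6 := h4 g hg k hk
  simp only [Cx.d1, Pi.add_apply, ac_add] at h5 h6 ⊢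
  linear_combination h5 + h6

theorem eqv_smul {f f' : G → G → C.A} (h : C.Eqv f f') (n : ℤ) : C.Eqv (n • f) (n • f') :=
  eqv_map rfl (DistribSMul.toAddMonoidHom _ n) (fun g _ F => (ac_smul g n F).symm) h

theorem eqv_of {f f' e e' : G → G → C.A} (h : C.Eqv f f') (h' : e - e' = f - f') : C.Eqv e e' := by
  obtain ⟨β, h1, h2⟩ := h
  exact ⟨β, h1, fun g hg k hk => (congrFun (congrFun h' g) k).trans (h2 g hg k hk)⟩

theorem f_add (E E' : Sy Ω C.M) : (C.can (E + E')).f = (C.can E).f + (C.can E').f := by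
  funext g h d
  refine Finsupp.sum_add_index' (fun _ => by simp) fun x a b => ?_
  change (if x.2.2 = d then _ else _) = (if x.2.2 = d then _ else _) + if x.2.2 = d then _ else _
  split_ifs
  · rw [Int.cast_add, add_mul, add_mul]
  · simp

theorem f_smul (E : Sy Ω C.M) (n : ℤ) : (C.can (n • E)).f = n • (C.can E).f :=
  map_zsmul (AddMonoidHom.mk' (fun E => (C.can E).f) f_add) n E

end TLING

open TLING

theorem t_LING : LING := by
  intro G Ω _ _ _ C hC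
  refine ⟨fun E E' n => ⟨f_add E E', f_smul E n, fun h => ⟨⟨fun g hg i => ?_, fun i hi => ?_⟩,
    fun h' => ⟨fun g hg i => ?_, fun i hi => ?_⟩⟩⟩, fun f => ?_, fun f f' h => ⟨?_, eqv_smul h,
    fun f'' h' => ?_, fun e e' => eqv_add h⟩, fun K f b h n => ⟨?_, fun g γ => ?_,
    fun f' b' h' => ⟨?_, fun g γ => ?_⟩⟩, fun K m h h' => ?_, fun S => ?_,
    fun C' hH φ hφ => ⟨fun f f' => eqv_map hH φ hφ, fun K f b hK h =>
      ⟨sp_map hH φ hφ (fun g hg => hφ g (hK hg)) h, fun g hg γ => ?_⟩⟩⟩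
  · exact congrArg (n • ·) (h.1 g hg i)
  · exact h.2 i fun h0 => hi (by simp [h0])
  · exact congrArg₂ (· + ·) (h.1 g hg i) (h'.1 g hg i)
  · by_cases h0 : E i = 0
    · exact h'.2 i fun h1 => hi (by simp [h0, h1])
    · exact h.2 i h0
  · exact ⟨0, ⟨∅, fun _ _ _ _ _ => rfl⟩, fun g _ k _ => by simp [Cx.d1, ac_zero]⟩
  · exact eqv_of (eqv_smul h (-1)) (by simp [neg_add_eq_sub])
  · exact eqv_of (eqv_add h h') (by abel)
  · exact sp_map rfl (DistribSMul.toAddMonoidHom _ n) (fun g _ F => (ac_smul g n F).symm)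
      (fun g _ F => (ac_smul g n F).symm) h
  · simp only [Cx.kk, Pi.smul_apply, ac_smul, smul_add, smul_sub]
  · refine ⟨⟨sm11 h.co.sm h'.co.sm (· + ·), by simp [h.co.one, h'.co.one],
      fun g hg k hk l hl => ?_⟩, sm1 h.sm h'.sm (· + ·), fun g hg k hk => ?_⟩
    · simp only [Pi.add_apply, ac_add]
      linear_combination h.co.co g hg k hk l hl + h'.co.co g hg k hk l hl
    · simp only [Pi.add_apply, h.eq g hg k hk, h'.eq g hg k hk, Cx.d1, ac_add]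
      abel
  · simp only [Cx.kk, Pi.add_apply, ac_add]
    abel
  · refine ⟨⟨⟨∅, fun _ _ _ _ _ _ _ => ⟨rfl, rfl⟩⟩, rfl, fun g _ _ _ _ _ => by simp [ac_zero]⟩,
      h'.1, fun g hg k hk => ?_⟩
    funext d
    simp [Cx.d1, Cx.ac, h'.2 g hg k hk, h.cy g hg, TGEN.red_one hC.dvd hC.ne]
  · classical
    refine ⟨S.biUnion fun a => (hC.fin a).toFinset, fun a ha => ?_, fun g hg s hs => ?_⟩
    · exact Finset.mem_biUnion.2 ⟨a, ha, (Set.Finite.mem_toFinset _).2 ⟨1, C.H.one_mem, one_smul _ _⟩⟩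
    · obtain ⟨a, ha, h1⟩ := Finset.mem_biUnion.1 hs
      obtain ⟨k, hk, rfl⟩ := (Set.Finite.mem_toFinset _).1 h1
      exact Finset.mem_biUnion.2
        ⟨a, ha, (Set.Finite.mem_toFinset _).2 ⟨g * k, C.H.mul_mem hg hk, mul_smul _ _ _⟩⟩
  · simp only [Cx.kk, map_add, map_sub, hφ g hg]

end Pool.Agent.P.MP_9c97e9_nt.KT
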