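import Pool.Agent.P.MP_9c97e9_nt.KT.IfU

/-! Lines modulo a prime. -/

namespace Pool.Agent.P.MP_9c97e9_nt.KT

open MP_8b7eba_nt.R1 (IntR IntM Int_mem)

namespace TLNX

variable {p : ℕ}

theorem mem (hp : p.Prime) {t : ℕ × ℕ × ℕ} :
    t ∈ IntR p ↔ t = (p, 0, 1) ∨ ∃ i < p, t = (1, i, p) := by
  obtain ⟨a, i, d⟩ := t
  rw [Int_mem hp.pos]
  constructor
  · rintro ⟨h1, h2⟩
    simp only at h1 h2
    rcases (Nat.dvd_prime hp).1 (Dvd.intro _ h1) with rfl | rfl
    · rw [one_mul] at h1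
      subst h1
      exact Or.inr ⟨i, h2, rfl⟩
    · obtain rfl : d = 1 := Nat.eq_of_mul_eq_mul_left hp.pos (h1.trans (mul_one _).symm)
      obtain rfl : i = 0 := by omega
      exact Or.inl rfl
  · rintro (h | ⟨j, hj, h⟩)
    · cases h
      exact ⟨mul_one _, one_pos⟩
    · cases h
      exact ⟨one_mul _, hj⟩

theorem card (hp : p.Prime) : (IntR p).card = p + 1 := by
  have : IntR p = insert (p, 0, 1) ((Finset.range p).image fun i => (1, i, p)) := by
    ext t
    simp only [mem hp, Finset.mem_insert, Finset.mem_image, Finset.mem_range, eq_comm]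
  rw [this, Finset.card_insert_of_notMem, Finset.card_image_of_injective, Finset.card_range]
  · intro i j h
    exact congrArg (fun t : ℕ × ℕ × ℕ => t.2.1) h
  · simp only [Finset.mem_image, not_exists, not_and]
    intro i _ h
    exact hp.one_lt.ne (congrArg Prod.fst h)

/-- the line in the plane over the prime field -/
def L (p : ℕ) (t : ℕ × ℕ × ℕ) (x y : ZMod p) : Prop :=
  (t.2.2 : ZMod p) * x = 0 ∧ (t.1 : ZMod p) * y = 15 * t.2.1 * x

theorem L_iff (hp : p.Prime) {t : ℕ × ℕ × ℕ} (ht : t ∈ IntR p) (x y : ZMod p) :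
    L p t x y ↔ x * (t.2.2 + 15 * t.2.1) - y * t.1 = 0 := by
  rcases (mem hp).1 ht with rfl | ⟨i, -, rfl⟩
  · simp [L]
  · simp only [L, ZMod.natCast_self, zero_mul, true_and, Nat.cast_one, one_mul, zero_add, mul_one]
    rw [sub_eq_zero, eq_comm, mul_comm]

theorem w_ne (hp : p.Prime) {t : ℕ × ℕ × ℕ} (ht : t ∈ IntR p) :
    ¬ ((t.1 : ZMod p) = 0 ∧ (t.2.2 + 15 * t.2.1 : ZMod p) = 0) := by
  have := Fact.mk hp
  rcases (mem hp).1 ht with rfl | ⟨i, -, rfl⟩ <;> simp

theorem par {F : Type} [Field F] {x y u v z w : F} (h0 : ¬ (u = 0 ∧ v = 0))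
    (h1 : x * v - y * u = 0) (h2 : u * w - v * z = 0) : x * w - y * z = 0 := by
  by_contra h
  exact h0 ⟨(mul_eq_zero.1 (by linear_combination z * h1 + x * h2)).resolve_left h,
    (mul_eq_zero.1 (by linear_combination w * h1 + y * h2)).resolve_left h⟩

theorem uniq (hp : p.Prime) (h15 : ¬ p ∣ 15) {x y : ZMod p} (h0 : ¬ (x = 0 ∧ y = 0)) :
    ∃ t ∈ IntR p, L p t x y ∧ ∀ s ∈ IntR p, L p s x y → s = t := by
  have := Fact.mk hp
  have h1 : (15 : ZMod p) ≠ 0 := fun h => h15 ((ZMod.natCast_eq_zero_iff 15 p).1 (by simpa using h))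
  by_cases hx : x = 0
  · refine ⟨(p, 0, 1), (mem hp).2 (Or.inl rfl), by simp [L, hx], fun s hs h => ?_⟩
    rcases (mem hp).1 hs with rfl | ⟨i, -, rfl⟩
    · rfl
    · exact absurd ⟨hx, by simpa [hx] using h.2⟩ h0
  · refine ⟨(1, (y / (15 * x)).val, p), (mem hp).2 (Or.inr ⟨_, ZMod.val_lt _, rfl⟩), ?_,
      fun s hs h => ?_⟩
    · simp only [L, ZMod.natCast_self, zero_mul, true_and, Nat.cast_one, ZMod.natCast_zmod_val]
      field_simp
    · rcases (mem hp).1 hs with rfl | ⟨i, hi, rfl⟩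
      · exact absurd (by simpa using h.1) hx
      · have h2 : y / (15 * x) = i := by
          have := h.2
          simp only [Nat.cast_one, one_mul] at this
          rw [this]
          field_simp
        rw [h2, ZMod.val_cast_of_lt hi]

theorem perm (hp : p.Prime) (h15 : ¬ p ∣ 15) {a b c d : ZMod p} (hd : a * d - b * c ≠ 0) :
    ∃ π : Equiv.Perm (IntR p), ∀ (t : IntR p) x y,
      L p (π t) (x * a + y * c) (x * b + y * d) ↔ L p t x y := by
  have := Fact.mk hp
  have key : ∀ t : IntR p, ∃ s : IntR p, ∀ x y,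
      L p s (x * a + y * c) (x * b + y * d) ↔ L p t x y := fun ⟨t, ht⟩ => by
    have h0 := w_ne hp ht
    have h1 := L_iff hp ht
    generalize (t.1 : ZMod p) = u at h0 h1
    generalize (t.2.2 + 15 * t.2.1 : ZMod p) = v at h0 h1
    have h2 : ¬ (u * a + v * c = 0 ∧ u * b + v * d = 0) := fun h =>
      h0 ⟨(mul_eq_zero.1 (by linear_combination d * h.1 - c * h.2)).resolve_left hd,
        (mul_eq_zero.1 (by linear_combination a * h.2 - b * h.1)).resolve_left hd⟩
    obtain ⟨s, hs, h3, -⟩ := uniq hp h15 h2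
    refine ⟨⟨s, hs⟩, fun x y => ?_⟩
    rw [L_iff hp hs] at h3 ⊢
    rw [h1]
    refine ⟨fun h => ?_, fun h => par h2 (by linear_combination (a * d - b * c) * h) h3⟩
    have h4 := par (z := u * a + v * c) (w := u * b + v * d) (w_ne hp hs) h
      (by linear_combination -h3)
    exact (mul_eq_zero.1 (by linear_combination h4)).resolve_left hd
  choose f hf using key
  have inj : Function.Injective f := fun t s e => by
    have h1 : L p t (t.1.1) (t.1.2.2 + 15 * t.1.2.1) := (L_iff hp t.2 _ _).2 (by ring)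
    obtain ⟨r, -, -, h2⟩ := uniq hp h15 (w_ne hp t.2)
    refine Subtype.ext ((h2 _ t.2 h1).trans (h2 _ s.2 ?_).symm)
    rw [← hf, ← e, hf]
    exact h1
  exact ⟨Equiv.ofBijective f (Finite.injective_iff_bijective.1 inj), hf⟩

open Classical in
theorem count (hp : p.Prime) (h15 : ¬ p ∣ 15) {x y : ZMod p} (h0 : ¬ (x = 0 ∧ y = 0))
    (z w : ZMod p) : (((IntR p).filter fun t => L p t x y ∧ L p t z w).card : ℤ) =
      if x * w - y * z = 0 then 1 else 0 := by
  have := Fact.mk hp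
  obtain ⟨t, ht, h1, h2⟩ := uniq hp h15 h0
  have h3 := (L_iff hp ht _ _).1 h1
  split_ifs with h
  · rw [Finset.card_eq_one.2 ⟨t, ?_⟩, Nat.cast_one]
    refine Finset.eq_singleton_iff_unique_mem.2 ⟨Finset.mem_filter.2 ⟨ht, h1, ?_⟩, fun s hs => ?_⟩
    · exact (L_iff hp ht _ _).2 (par h0 (by linear_combination -h) h3)
    · exact h2 s (Finset.mem_filter.1 hs).1 (Finset.mem_filter.1 hs).2.1
  · rw [Finset.filter_eq_empty_iff.2, Finset.card_empty, Nat.cast_zero]
    intro s hs h4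
    exact h (par (w_ne hp hs) ((L_iff hp hs _ _).1 h4.1)
      (by linear_combination -(L_iff hp hs _ _).1 h4.2))

end TLNX

open TLNX in
theorem t_LNX : LNX := by
  classical
  intro M' p hp h15 hd
  have := Fact.mk hp
  have hφ : ∀ x : ZMod M', (ZMod.cast x : ZMod p) = ZMod.castHom hd (ZMod p) x := fun _ => rfl
  constructor
  · intro a b c d hu
    have h1 := (hu.map (ZMod.castHom hd (ZMod p))).ne_zero
    rw [map_sub, map_mul, map_mul] at h1
    obtain ⟨π, hπ⟩ := perm hp h15 h1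
    refine ⟨π, fun t v => ?_⟩
    have := hπ t (ZMod.castHom hd (ZMod p) v.1) (ZMod.castHom hd (ZMod p) v.2)
    simpa only [Ln, L, hφ, map_add, map_mul] using this
  · intro v v'
    have e : dv p v v' = ZMod.cast v.1 * ZMod.cast v'.2 - ZMod.cast v.2 * ZMod.cast v'.1 := by
      simp only [dv, hφ, map_sub, map_mul]
    rw [e]
    by_cases h : (ZMod.cast v.1 : ZMod p) = 0 ∧ (ZMod.cast v.2 : ZMod p) = 0
    · by_cases h' : (ZMod.cast v'.1 : ZMod p) = 0 ∧ (ZMod.cast v'.2 : ZMod p) = 0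
      · rw [Finset.filter_true_of_mem fun t _ => by simp [Ln, h.1, h.2, h'.1, h'.2], card hp,
          if_pos (by simp [h.1, h.2]), if_pos ⟨h.1, h.2, h'⟩]
        push_cast
        ring
      · rw [if_neg fun e : _ ∧ _ ∧ _ ∧ _ => h' e.2.2, Nat.cast_zero, add_zero]
        convert count hp h15 h' (ZMod.cast v.1) (ZMod.cast v.2) using 4
        · exact and_comm
        all_goals simp [h.1, h.2]
    · rw [if_neg fun e : _ ∧ _ ∧ _ ∧ _ => h ⟨e.1, e.2.1⟩, Nat.cast_zero, add_zero]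
      convert count hp h15 h (ZMod.cast v'.1) (ZMod.cast v'.2) using 4
      exact Iff.rfl

end Pool.Agent.P.MP_9c97e9_nt.KT
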