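import Pool.Agent.P.MP_9c97e9_nt.KT.IfU

/-! Hecke operators on homomorphisms commute. -/

namespace Pool.Agent.P.MP_9c97e9_nt.KT

open MP_8b7eba_nt.Mod (M2 G0)
open MP_8b7eba_nt.R1 (IntR IntM Int_det Int_inj)

namespace TMCOM

/-- scalar matrices -/
def sc (k : ℤ) : M2 := ⟨k, 0, 0, k⟩

theorem mul_adj (g : M2) : g * g.adj = sc g.det := by
  ext <;> simp [sc, M2.det] <;> ring

theorem adj_mul (g : M2) : g.adj * g = sc g.det := by
  ext <;> simp [sc, M2.det] <;> ring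

theorem cancel {A B T : M2} (hT : T.det ≠ 0) (h : A * T = B * T) : A = B := by
  have e : A * sc T.det = B * sc T.det := by rw [← mul_adj, ← mul_assoc, h, mul_assoc]
  have ha := congrArg M2.a e
  have hb := congrArg M2.b e
  have hc := congrArg M2.c e
  have hd := congrArg M2.d e
  simp only [sc, M2.mul_a, M2.mul_b, M2.mul_c, M2.mul_d, mul_zero, add_zero, zero_add] at ha hb hc hd
  ext <;> exact mul_right_cancel₀ hT ‹_›

theorem key {S T V T₁ : M2} (hc : IsCoprime T.det S.det) (hl : T.det ≠ 0) (hT : T₁.det = T.det)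
    (h : S * T = V * T₁) : ∃ η : M2, η.det = 1 ∧ T = η * T₁ := by
  have e : sc S.det * (T * T₁.adj) = S.adj * V * sc T.det := by
    rw [← adj_mul, ← hT, ← mul_adj, mul_assoc, mul_assoc, ← mul_assoc S, h, mul_assoc]
  generalize hW : T * T₁.adj = W at e
  generalize S.adj * V = U at e
  have ha := congrArg M2.a e
  have hb := congrArg M2.b e
  have hc' := congrArg M2.c e
  have hd := congrArg M2.d e
  simp only [sc, M2.mul_a, M2.mul_b, M2.mul_c, M2.mul_d, mul_zero, add_zero, zero_add,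
    zero_mul] at ha hb hc' hd
  obtain ⟨a, ea⟩ := hc.dvd_of_dvd_mul_left (Dvd.intro_left _ ha.symm)
  obtain ⟨b, eb⟩ := hc.dvd_of_dvd_mul_left (Dvd.intro_left _ hb.symm)
  obtain ⟨c, ec⟩ := hc.dvd_of_dvd_mul_left (Dvd.intro_left _ hc'.symm)
  obtain ⟨d, ed⟩ := hc.dvd_of_dvd_mul_left (Dvd.intro_left _ hd.symm)
  have e2 : T = ⟨a, b, c, d⟩ * T₁ := cancel (T := T₁.adj) (by rwa [M2.det_adj, hT]) (by
    rw [mul_assoc, mul_adj, hW, hT]
    ext <;> simp [sc, ea, eb, ec, ed, mul_comm])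
  refine ⟨_, mul_right_cancel₀ hl ?_, e2⟩
  rw [one_mul, ← hT, ← M2.det_mul, ← e2, hT]

theorem comp (hMREP : MREP) {l p : ℕ} (hl : l ≠ 0) (hp : p ≠ 0) (hl' : l.Coprime 15)
    (hp' : p.Coprime 15) (hc : l.Coprime p) {X : Type} [AddCommGroup X] {ψ : M2 → X} (hψ : AdG ψ)
    {γ : M2} (hγ : G0 γ) : MT l (MT p ψ) γ = MT (l * p) ψ γ := by
  obtain ⟨c1, d1, -⟩ := hMREP l hl hl'
  obtain ⟨c2, d2, -⟩ := hMREP p hp hp'
  obtain ⟨c3, -, d3⟩ := hMREP (l * p) (mul_ne_zero hl hp) (Nat.Coprime.mul_left hl' hp')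
  have l0 := Nat.pos_of_ne_zero hl
  have p0 := Nat.pos_of_ne_zero hp
  choose g1 t' ht' e1 using d1 γ hγ
  choose g2 s' hs' e2 using d2
  refine Eq.trans ?_ ((d3 X ψ hψ).2 (IntR l × IntR p) (fun i => IntM i.2 * IntM i.1)
    (fun i => dm p (dm l γ i.1) i.2)
    (fun i => (⟨_, ht' i.1 i.1.2⟩, ⟨_, hs' _ (g1 i.1 i.1.2) i.2 i.2.2⟩)) γ hγ (fun i => ⟨?_, ?_⟩)
    (fun i j ε hε h => ?_) ?_ fun i => ⟨g2 _ (g1 i.1 i.1.2) _ i.2.2, ?_⟩).symm
  · rw [Fintype.sum_prod_type, MT, ← Finset.sum_coe_sort]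
    exact Finset.sum_congr rfl fun t _ => by rw [MT, ← Finset.sum_coe_sort]
  · rw [M2.det_mul, Int_det p0 i.2.2, Int_det l0 i.1.2, Nat.cast_mul, mul_comm]
  · simp [IntM]
  · have hd : (IntM i.1).det ≠ 0 := by rw [Int_det l0 i.1.2]; exact_mod_cast hl
    rw [← mul_assoc] at h
    obtain ⟨η, hη, e⟩ := key (by
      rw [Int_det p0 i.2.2, Int_det l0 i.1.2]; exact Nat.isCoprime_iff_coprime.2 hc) hd
      (by rw [Int_det l0 i.1.2, Int_det l0 j.1.2]) h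
    have e3 : i.1 = j.1 := Subtype.ext (Int_inj l0 i.1.2 j.1.2 hη e)
    rw [← e3] at h
    exact Prod.ext e3 (Subtype.ext (Int_inj p0 i.2.2 j.2.2 hε.1 (cancel hd h)))
  · rw [Fintype.card_prod, Fintype.card_coe, Fintype.card_coe, c1, c2, c3,
      ArithmeticFunction.isMultiplicative_sigma.map_mul_of_coprime hc]
  · simp only
    rw [mul_assoc, e1 i.1 i.1.2, ← mul_assoc, e2 _ (g1 i.1 i.1.2) i.2 i.2.2, mul_assoc]

end TMCOM

theorem t_MCOM (hMREP : MREP) : MCOM := fun l p hl hp hl' hp' X _ ψ hψ γ hγ => by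
  rcases eq_or_ne l p with rfl | h
  · rfl
  have c1 := (Nat.Prime.coprime_iff_not_dvd hl).2 hl'
  have c2 := (Nat.Prime.coprime_iff_not_dvd hp).2 hp'
  have hc := (Nat.coprime_primes hl hp).2 h
  rw [TMCOM.comp hMREP hl.ne_zero hp.ne_zero c1 c2 hc hψ hγ,
    TMCOM.comp hMREP hp.ne_zero hl.ne_zero c2 c1 hc.symm hψ hγ, mul_comm]

end Pool.Agent.P.MP_9c97e9_nt.KT
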