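import Pool.Agent.P.MP_9c97e9_nt.KT.IfU

/-! Proof of MEIG: the periods are eigenvectors of the Hecke operators. -/

namespace Pool.Agent.P.MP_9c97e9_nt.KT

open MP_8b7eba_nt MP_8b7eba_nt.Mod MP_8b7eba_nt.R1 Finset

namespace TMEIG

theorem fi {γ : M2} (hγ : G0 γ) {z : ℂ} (hz : 0 < z.im) : FI (γ.act z) = FI z + lv γ.a γ.c := by
  simpa using FI_act hγ.det_pos (ε := 1)
    (fun z hz => by simpa using (ff_inv γ hγ).sl_eq hγ.1 hz) hz

theorem hk {p : ℕ} (hp : p.Prime) (h15 : ¬ p ∣ 15) {z : ℂ} (hz : 0 < z.im) :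
    ∑ t ∈ IntR p, FI ((IntM t).act z) = an p * FI z := by
  have e : IntR p = insert (p, 0, 1) ((range p).image fun j => (1, j, p)) := by
    ext ⟨a, b, d⟩
    simp only [Int_mem hp.pos, mem_insert, mem_image, mem_range, Prod.mk.injEq]
    constructor
    · rintro ⟨h1, h2⟩
      rcases (Nat.dvd_prime hp).1 ⟨d, h1.symm⟩ with rfl | rfl
      · exact Or.inr ⟨b, by omega, rfl, rfl, by omega⟩
      · obtain rfl : d = 1 := Nat.eq_of_mul_eq_mul_left hp.pos (by omega)
        exact Or.inl ⟨rfl, by omega, rfl⟩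
    · rintro (⟨rfl, rfl, rfl⟩ | ⟨j, h, rfl, rfl, rfl⟩) <;> omega
  rw [e, sum_insert (by
    simp only [mem_image, Prod.mk.injEq, not_exists]
    exact fun j h => hp.ne_one h.2.2.2), sum_image fun i _ j _ h => by simpa using h,
    ← hecke_FI hp hz, if_neg h15, add_comm]
  simp [IntM, M2.act, mob]

end TMEIG

open TMEIG in
theorem t_MEIG (hMREP : MREP) : MEIG := by
  intro p hp h15 g hg
  have key := (hMREP p hp.ne_zero ((Nat.Prime.coprime_iff_not_dvd hp).2 h15)).2.1 g hg
  have hγ := fun t ht => (key t ht).1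
  choose σ hσ e using fun t ht => (key t ht).2
  have hd : ∀ t ∈ IntR p, 0 < (IntM t).det := fun t ht => by
    rw [Int_det hp.pos ht]; exact_mod_cast hp.pos
  have hinj : ∀ i hi k hk, σ i hi = σ k hk → i = k := by
    intro i hi k hk h
    refine Int_inj hp.pos hi hk (γ := dm p g i * (dm p g k).adj) ((hγ i hi).mul (hγ k hk).adj).1 ?_
    have := e k hk
    rw [← h] at this
    calc IntM i = IntM i * g * g.adj := by rw [mul_assoc, M2.mul_adj hg.1, mul_one]
      _ = dm p g i * ((dm p g k).adj * (dm p g k * IntM (σ i hi))) * g.adj := by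
        rw [e, ← mul_assoc (dm p g k).adj, M2.adj_mul_self (hγ k hk).1, one_mul]
      _ = _ := by
        rw [← this, mul_assoc, mul_assoc, mul_assoc, M2.mul_adj hg.1, mul_one, mul_assoc]
  have hz : 0 < Complex.I.im := by simp
  have h1 : ∑ t ∈ IntR p, (FI ((IntM t).act (g.act Complex.I)) - lv (dm p g t).a (dm p g t).c) =
      ∑ t ∈ IntR p, FI ((IntM t).act Complex.I) := by
    refine sum_bij σ hσ hinj (fun k hk => ?_) fun i hi => ?_
    · obtain ⟨i, hi, h⟩ := surj_on_of_inj_on_of_card_le σ hσ (fun i k hi hk => hinj i hi k hk)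
        le_rfl k hk
      exact ⟨i, hi, h.symm⟩
    · rw [← M2.act_mul (hd i hi).ne' hg.det_pos hz, e i hi,
        M2.act_mul (hγ i hi).det_pos.ne' (hd _ (hσ i hi)) hz,
        fi (hγ i hi) (M2.im_act_pos (hd _ (hσ i hi)) hz), add_sub_cancel_right]
  rw [sum_sub_distrib, hk hp h15 hz, hk hp h15 (M2.im_act_pos hg.det_pos hz), fi hg hz] at h1
  simp only [lv_eq, sum_add_distrib, ← sum_mul] at h1
  refine coeff_eq ?_
  simp only [MT]
  push_cast
  linear_combination -h1

end Pool.Agent.P.MP_9c97e9_nt.KT
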