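import Pool.Agent.P.MP_9c97e9_nt.KT.IfU

/-! Cuspidal homomorphisms are periods. -/

namespace Pool.Agent.P.MP_9c97e9_nt.KT

open MP_8b7eba_nt.Mod

namespace TMFAC

theorem add {γ δ : M2} (hγ : G0 γ) (hδ : G0 δ) :
    nP (γ * δ).a (γ * δ).c = nP γ.a γ.c + nP δ.a δ.c ∧
      nM (γ * δ).a (γ * δ).c = nM γ.a γ.c + nM δ.a δ.c := by
  have h : δ.a ≠ 0 ∨ δ.c ≠ 0 := by
    by_contra h
    push Not at h
    have := hδ.1
    simp [M2.det, h.1, h.2] at this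
  have e := lv_G0 hγ h
  rw [lv_eq, lv_eq, lv_eq] at e
  refine coeff_eq (e.trans ?_)
  push_cast
  ring

theorem adP : AdG fun γ => nP γ.a γ.c := ⟨fun _ _ h h' => (add h h').1, by decide +kernel⟩

theorem adM : AdG fun γ => nM γ.a γ.c := ⟨fun _ _ h h' => (add h h').2, by decide +kernel⟩

theorem adj {X : Type} [AddCommGroup X] {ψ : M2 → X} (h : AdG ψ) {γ : M2} (hγ : G0 γ) :
    ψ γ.adj = -ψ γ := by
  have h1 := h.1 (-1) (-1) (by decide) (by decide)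
  have h2 := h.1 _ _ hγ hγ.adj
  rw [show (-1 : M2) * -1 = 1 by decide, h.2, add_zero] at h1
  rw [M2.mul_adj hγ.1, h1] at h2
  exact eq_neg_of_add_eq_zero_right h2.symm

theorem dvd : ∀ γ, G0 γ → 4 ∣ nP γ.a γ.c ∧ 2 ∣ nM γ.a γ.c := by
  refine g0_ind (fun g h hg hh a b => ?_) (fun g hg a => ?_) (by decide +kernel)
    (by decide +kernel) (by decide +kernel)
  · rw [(add hg hh).1, (add hg hh).2]
    exact ⟨a.1.add b.1, a.2.add b.2⟩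
  · rw [adj adP hg, adj adM hg]
    exact ⟨a.1.neg_right, a.2.neg_right⟩

end TMFAC

open TMFAC

theorem t_MFAC : MFAC := by
  refine ⟨adP, adM, TMFAC.dvd, ⟨⟨2, -1, 15, -7⟩, by decide +kernel⟩,
    ⟨⟨4, 1, 15, 4⟩, by decide +kernel⟩, fun X _ ψ hψ hp => ⟨ψ ⟨2, -1, 15, -7⟩, ψ ⟨4, 1, 15, 4⟩, ?_⟩⟩
  have p0 := hp ⟨1, 1, 0, 1⟩ (by decide)
  have p1 := hp ⟨1, 0, -15, 1⟩ (by decide)
  have p2 := hp ⟨-14, 5, -45, 16⟩ (by decide)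
  have p3 := hp ⟨-14, 3, -75, 16⟩ (by decide)
  have g1 : ψ ⟨1, 0, 15, 1⟩ = 0 := by
    rw [show (⟨1, 0, 15, 1⟩ : M2) = M2.adj ⟨1, 0, -15, 1⟩ by decide, adj hψ (by decide), p1,
      neg_zero]
  have g5 : ψ ⟨11, 4, 30, 11⟩ = ψ ⟨4, 1, 15, 4⟩ := by
    have := hψ.1 ⟨4, 1, 15, 4⟩ (M2.adj ⟨11, 4, 30, 11⟩) (by decide) (by decide)
    rw [show (⟨4, 1, 15, 4⟩ : M2) * M2.adj ⟨11, 4, 30, 11⟩ = -1 * ⟨-14, 5, -45, 16⟩ by decide,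
      hψ.1 _ _ (by decide) (by decide), hψ.2, p2, adj hψ (by decide), add_zero] at this
    exact (add_neg_eq_zero.1 this.symm).symm
  have g6 : ψ ⟨7, 3, 30, 13⟩ = ψ ⟨2, -1, 15, -7⟩ + ψ ⟨4, 1, 15, 4⟩ := by
    rw [show (⟨-14, 3, -75, 16⟩ : M2) = ⟨2, -1, 15, -7⟩ * ⟨11, 4, 30, 11⟩ * M2.adj ⟨7, 3, 30, 13⟩
      by decide, hψ.1 _ _ (by decide) (by decide), hψ.1 _ _ (by decide) (by decide),
      adj hψ (by decide), g5] at p3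
    exact (add_neg_eq_zero.1 p3).symm
  have g3 : ψ ⟨-2, -1, 15, 7⟩ = ψ ⟨2, -1, 15, -7⟩ := by
    have := hψ.1 ⟨-2, -1, 15, 7⟩ (M2.adj ⟨7, 3, 30, 13⟩) (by decide) (by decide)
    rw [show (⟨-2, -1, 15, 7⟩ : M2) * M2.adj ⟨7, 3, 30, 13⟩ = M2.adj ⟨4, 1, 15, 4⟩ by decide,
      adj hψ (by decide), adj hψ (by decide), g6] at this
    rw [← eq_add_neg_iff_add_eq.1 this]
    abel
  generalize ha : ψ ⟨2, -1, 15, -7⟩ = a at *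
  generalize hb : ψ ⟨4, 1, 15, 4⟩ = b at *
  refine g0_ind (fun g h hg hh e e' => ?_) (fun g hg e => ?_) ?_ ?_ ?_
  · rw [hψ.1 g h hg hh, e, e', (add hg hh).1, (add hg hh).2,
      Int.add_ediv_of_dvd_left (TMFAC.dvd g hg).1, Int.add_ediv_of_dvd_left (TMFAC.dvd g hg).2,
      add_zsmul, add_zsmul]
    abel
  · rw [adj hψ hg, e, adj adP hg, adj adM hg, Int.neg_ediv_of_dvd (TMFAC.dvd g hg).1,
      Int.neg_ediv_of_dvd (TMFAC.dvd g hg).2, neg_zsmul, neg_zsmul, neg_add]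
  · rw [hψ.2, show nP (-1 : M2).a (-1 : M2).c = 0 from adP.2,
      show nM (-1 : M2).a (-1 : M2).c = 0 from adM.2]
    simp
  · rw [show nP (mT 1).a (mT 1).c = 0 by decide +kernel,
      show nM (mT 1).a (mT 1).c = 0 by decide +kernel]
    simpa [mT] using p0
  · have v : (nP 1 15 = 0 ∧ nM 1 15 = 0) ∧ (nP 2 15 = 4 ∧ nM 2 15 = 0) ∧
        (nP (-2) 15 = 4 ∧ nM (-2) 15 = 0) ∧ (nP 4 15 = 0 ∧ nM 4 15 = 2) ∧
        (nP 11 30 = 0 ∧ nM 11 30 = 2) ∧ nP 7 30 = 4 ∧ nM 7 30 = 2 := by decide +kernel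
    simp [gens, v, g1, ha, hb, g3, g5, g6]

end Pool.Agent.P.MP_9c97e9_nt.KT
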