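import Pool.Agent.P.MP_9c97e9_nt.KT.IfU

/-! Hecke operators on parabolic elements. -/

namespace Pool.Agent.P.MP_9c97e9_nt.KT

open MP_8b7eba_nt.Mod MP_8b7eba_nt.Mod.M2 Finset

namespace TMHP

/-- conjugation -/
def cj (g B : M2) : M2 := g * B * g.adj

theorem cj_mul {g : M2} (hg : g.det = 1) (B C : M2) : cj g (B * C) = cj g B * cj g C := by
  simp only [cj, mul_assoc]
  rw [← mul_assoc g.adj, adj_mul_self hg, one_mul]

theorem cj_det {g : M2} (hg : g.det = 1) (B : M2) : (cj g B).det = B.det := by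
  simp [cj, det_mul, hg]

theorem cj_c {g : M2} {w : ℕ} (h1 : 15 ∣ g.c * g.d) (h2 : 15 ∣ g.c ^ 2 * w) (x y z : ℤ) :
    15 ∣ (cj g ⟨x, w * y, 0, z⟩).c := by
  rw [show (cj g ⟨x, w * y, 0, z⟩).c = g.c * g.d * (x - z) - g.c ^ 2 * w * y by simp [cj]; ring]
  exact dvd_sub (h1.mul_right _) (h2.mul_right _)

theorem cj_inv {g : M2} (hg : g.det = 1) (B : M2) : cj g.adj (cj g B) = B := by
  simp only [cj, adj_adj, mul_assoc]
  rw [adj_mul_self hg, mul_one, ← mul_assoc, adj_mul_self hg, one_mul]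

/-- the standard representatives -/
def B (w l : ℕ) : Option (Fin l) → M2
  | some j => ⟨1, w * (j : ℕ), 0, l⟩
  | none => ⟨l, w * (0 : ℕ), 0, 1⟩

/-- the exponents -/
def ex (l : ℕ) : Option (Fin l) → ℕ
  | some j => (j + 1) / l
  | none => l

/-- the permutation -/
def sg (l : ℕ) : Option (Fin l) → Option (Fin l)
  | some j => some ⟨(j + 1) % l, Nat.mod_lt _ j.pos⟩
  | none => none

theorem B_mul (w l : ℕ) (i : Option (Fin l)) :
    B w l i * mT w = mT (w * ex l i) * B w l (sg l i) := by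
  rcases i with _ | j
  · ext <;> simp [B, ex, sg, mT, mul_comm]
  · have := congrArg (Nat.cast : ℕ → ℤ) (Nat.mod_add_div (j + 1) l)
    simp only [Nat.cast_add, Nat.cast_mul, Nat.cast_one] at this
    ext <;> simp only [B, ex, sg, mT, mul_a, mul_b, mul_c, mul_d]
    · ring
    · linear_combination (-w : ℤ) * this
    · ring
    · ring

theorem B_inj {w l : ℕ} (hl : l.Prime) (hw : ¬ l ∣ w) (i j : Option (Fin l)) (ε : M2)
    (e : B w l i = ε * B w l j) : i = j := by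
  have n1 : ¬ (l : ℤ) ∣ 1 := fun h => hl.one_lt.ne' (Nat.dvd_one.1 (by exact_mod_cast h))
  have ea := congrArg M2.a e
  have eb := congrArg M2.b e
  have ec := congrArg M2.c e
  have ed := congrArg M2.d e
  rcases i with _ | i <;> rcases j with _ | j <;>
    simp only [B, mul_a, mul_b, mul_c, mul_d] at ea eb ec ed
  · rfl
  · exact absurd ⟨ε.d, by linear_combination ed - w * (j : ℕ) * ec⟩ n1
  · exact absurd ⟨ε.a, by linear_combination ea⟩ n1
  · have h : (l : ℤ) ∣ w * ((i : ℕ) - (j : ℕ)) :=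
      ⟨ε.b, by linear_combination eb - w * (j : ℕ) * ea⟩
    have h' := ((Nat.prime_iff_prime_int.1 hl).dvd_or_dvd h).resolve_left
      fun h => hw (by exact_mod_cast h)
    exact congrArg some (Fin.ext (Nat.ModEq.eq_of_lt_of_lt
      (Nat.modEq_iff_dvd.2 h') j.2 i.2).symm)

theorem sum_ex {l : ℕ} (hl : l ≠ 0) : ∑ i, ex l i = l + 1 := by
  obtain ⟨k, rfl⟩ := Nat.exists_eq_succ_of_ne_zero hl
  rw [Fintype.sum_option, Fin.sum_univ_castSucc]
  simp only [ex]
  rw [sum_eq_zero fun j _ => Nat.div_eq_of_lt (by simp)]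
  simp

theorem gen (hM : MREP) {l : ℕ} (hl : l.Prime) (h15 : ¬ l ∣ 15) {X : Type} [AddCommGroup X]
    {ψ : M2 → X} (hψ : AdG ψ) (g : M2) (w : ℕ) (hg : g.det = 1) (h1 : 15 ∣ g.c * g.d)
    (h2 : 15 ∣ g.c ^ 2 * w) (hw : w ∣ 15) :
    MT l ψ (cj g (mT w)) = (l + 1) • ψ (cj g (mT w)) := by
  obtain ⟨hc, -, h⟩ := hM l hl.ne_zero (hl.coprime_iff_not_dvd.2 h15)
  have a : ∀ n : ℤ, G0 (cj g (mT (w * n))) := fun n =>
    ⟨by rw [cj_det hg, det_mT], cj_c h1 h2 1 n 1⟩
  have a1 : G0 (cj g (mT w)) := by simpa using a 1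
  have b : ∀ n : ℕ, ψ (cj g (mT (w * n))) = n • ψ (cj g (mT w)) := fun n => by
    induction n with
    | zero =>
      have := hψ.1 _ _ (a 0) (a 0)
      rw [← cj_mul hg, show mT (w * 0) * mT (w * 0) = mT (w * 0) by ext <;> simp [mT]] at this
      simpa using this
    | succ n ih =>
      rw [show mT (w * (n + 1 : ℕ)) = mT (w * n) * mT w by ext <;> simp [mT]; ring, cj_mul hg,
        hψ.1 _ _ (a n) a1, ih, succ_nsmul]
  refine ((h X ψ hψ).2 (Option (Fin l)) (fun i => cj g (B w l i))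
    (fun i => cj g (mT (w * ex l i))) (sg l) _ a1 (fun i => ?_) (fun i j ε _ e => ?_) ?_
    fun i => ⟨a _, ?_⟩).trans ?_
  · rw [cj_det hg]
    rcases i with _ | j <;> exact ⟨by simp [B, det], cj_c h1 h2 _ _ _⟩
  · refine B_inj hl (fun h => h15 (h.trans hw)) i j (cj g.adj ε) ?_
    rw [← cj_inv hg (B w l i), e, cj_mul (by simpa), cj_inv hg]
  · rw [hc, ArithmeticFunction.sigma_one_apply, hl.sum_divisors]
    simp
  · rw [← cj_mul hg, ← cj_mul hg, B_mul]
  · simp only [b]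
    rw [← sum_smul, sum_ex hl.ne_zero]

end TMHP

theorem t_MHP (hMREP : MREP) : MHP := by
  intro l hl h15 X _ ψ hψ P hP
  simp only [par, List.mem_cons, List.not_mem_nil, or_false] at hP
  rcases hP with rfl | rfl | rfl | rfl
  · exact TMHP.gen hMREP hl h15 hψ 1 1 rfl (by decide) (by decide) (by decide)
  · exact TMHP.gen hMREP hl h15 hψ mS 15 rfl (by decide) (by decide) (by decide)
  · exact TMHP.gen hMREP hl h15 hψ ⟨1, 3, 3, 10⟩ 5 rfl (by decide) (by decide) (by decide)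
  · exact TMHP.gen hMREP hl h15 hψ ⟨1, 1, 5, 6⟩ 3 rfl (by decide) (by decide) (by decide)

end Pool.Agent.P.MP_9c97e9_nt.KT
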