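import Pool.Agent.P.MP_9c97e9_nt.KT.IfU

/-! Independence of the representatives. -/

namespace Pool.Agent.P.MP_9c97e9_nt.KT

open MP_8b7eba_nt.Mod (M2 G0)
open MP_8b7eba_nt.Mod.M2
open MP_8b7eba_nt.R1 (IntR IntM Int_mem Int_det Int_exists Int_inj)
open Finset

namespace TMREP

variable {m : ℕ} {t t' : ℕ × ℕ × ℕ} {γ δ δ' : M2} {X : Type} [AddCommGroup X] {ψ : M2 → X}

theorem card (hm : 0 < m) : (IntR m).card = ArithmeticFunction.sigma 1 m := by
  rw [ArithmeticFunction.sigma_one_apply, card_eq_sum_card_fiberwise (f := fun t => t.2.2)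
    (t := m.divisors) fun t ht =>
      mem_coe.2 (Nat.mem_divisors.2 ⟨Dvd.intro_left _ ((Int_mem hm).1 ht).1, hm.ne'⟩)]
  refine sum_congr rfl fun d hd => ?_
  obtain ⟨a, rfl⟩ := Nat.dvd_of_mem_divisors hd
  refine (card_bij (fun t _ => t.2.1) (fun t ht => ?_) ?_ fun b hb => ?_).trans (card_range d)
  · obtain ⟨h1, rfl⟩ := mem_filter.1 ht
    exact mem_range.2 ((Int_mem hm).1 h1).2
  · intro s h1 t h2 e
    obtain ⟨h1, h3⟩ := mem_filter.1 h1
    obtain ⟨h2, h4⟩ := mem_filter.1 h2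
    refine Prod.ext (Nat.eq_of_mul_eq_mul_right (Nat.pos_of_mem_divisors hd) ?_)
      (Prod.ext e (h3.trans h4.symm))
    exact (h3 ▸ ((Int_mem hm).1 h1).1).trans (h4 ▸ ((Int_mem hm).1 h2).1).symm
  · exact ⟨(a, b, d), mem_filter.2 ⟨(Int_mem hm).2 ⟨mul_comm _ _, mem_range.1 hb⟩, rfl⟩, rfl⟩

theorem cancel {T : M2} (hT : T.det ≠ 0) (h : δ * T = δ' * T) : δ = δ' := by
  have ha := congrArg M2.a h
  have hb := congrArg M2.b h
  have hc := congrArg M2.c h
  have hd := congrArg M2.d h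
  simp only [mul_a, mul_b, mul_c, mul_d] at ha hb hc hd
  ext <;> refine mul_right_cancel₀ hT ?_ <;> unfold det
  · linear_combination T.d * ha - T.c * hb
  · linear_combination T.a * hb - T.b * ha
  · linear_combination T.d * hc - T.c * hd
  · linear_combination T.a * hd - T.b * hc

theorem left (h : G0 δ) (A : M2) : δ.adj * (δ * A) = A := by
  rw [← mul_assoc, adj_mul_self h.1, one_mul]

theorem right (h : G0 δ) (A : M2) : A * δ * δ.adj = A := by
  rw [mul_assoc, mul_adj h.1, mul_one]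

theorem dm_eq (hm : 0 < m) (h : G0 δ) (ht : t' ∈ IntR m) (e : IntM t * γ = δ * IntM t') :
    dm m γ t = δ := by
  obtain ⟨h1, s, hs, h2⟩ := Classical.epsilon_spec
    (p := fun δ => G0 δ ∧ ∃ t' ∈ IntR m, IntM t * γ = δ * IntM t') ⟨δ, h, t', ht, e⟩
  have h3 := h2.symm.trans e
  obtain rfl : t' = s := Int_inj hm ht hs (h.adj.mul h1).1 (by rw [mul_assoc, h3, left h])
  exact cancel (by rw [Int_det hm ht]; omega) h3

theorem spec (hm : 0 < m) (h15 : m.Coprime 15) (h : G0 γ) (ht : t ∈ IntR m) :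
    G0 (dm m γ t) ∧ ∃ t' ∈ IntR m, IntM t * γ = dm m γ t * IntM t' := by
  obtain ⟨s, hs, δ, h1, e⟩ := Int_exists hm h15 (M := IntM t * γ)
    (by rw [det_mul, Int_det hm ht, h.1, mul_one]) (by simpa [IntM] using h.2.mul_left _)
  rw [dm_eq hm h1 hs e]
  exact ⟨h1, s, hs, e⟩

theorem bij {I : Type} [Finite I] {A δ : I → M2} {σ : I → I} (h : G0 γ)
    (h1 : ∀ i j ε, G0 ε → A i = ε * A j → i = j) (h2 : ∀ i, G0 (δ i) ∧ A i * γ = δ i * A (σ i)) :
    Function.Bijective σ :=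
  Finite.injective_iff_bijective.1 fun i j e => h1 i j _ ((h2 i).1.mul (h2 j).1.adj) (by
    rw [← right h (A i), ← right h (A j), (h2 i).2, (h2 j).2, e]
    simp only [mul_assoc, left (h2 j).1])

theorem adj_eq (hψ : AdG ψ) (h : G0 δ) : ψ δ.adj = -ψ δ := by
  have h1 : G0 1 := by decide
  have h2 := hψ.1 1 1 h1 h1
  have h3 := hψ.1 _ _ h.adj h
  rw [mul_one, left_eq_add] at h2
  rw [adj_mul_self h.1, h2] at h3
  exact eq_neg_of_add_eq_zero_left h3.symm

theorem adg (hm : 0 < m) (h15 : m.Coprime 15) (hψ : AdG ψ) : AdG (MT m ψ) := by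
  refine ⟨fun γ γ' h h' => ?_, sum_eq_zero fun t ht => ?_⟩
  · choose σ hσ e using fun t : IntR m => (spec hm h15 h t.2).2
    have hb := bij (A := fun t : IntR m => IntM t) (σ := fun t => ⟨σ t, hσ t⟩) h
      (fun i j ε h1 h2 => Subtype.ext (Int_inj hm i.2 j.2 h1.1 h2))
      fun t => ⟨(spec hm h15 h t.2).1, e t⟩
    simp only [MT, ← sum_coe_sort (IntR m)]
    rw [← hb.sum_comp fun t : IntR m => ψ (dm m γ' t), ← sum_add_distrib]
    refine sum_congr rfl fun t _ => ?_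
    obtain ⟨h1, s, hs, e'⟩ := spec hm h15 h' (hσ t)
    rw [dm_eq hm ((spec hm h15 h t.2).1.mul h1) hs
      (by rw [← mul_assoc, e, mul_assoc, e', mul_assoc]), hψ.1 _ _ (spec hm h15 h t.2).1 h1]
  · rw [dm_eq hm (δ := -1) (by decide) ht (by ext <;> simp), hψ.2]

end TMREP

open TMREP in
theorem t_MREP : MREP := by
  intro m h0 h15
  have hm := Nat.pos_of_ne_zero h0
  refine ⟨card hm, fun γ h t => spec hm h15 h, fun X _ ψ hψ => ⟨adg hm h15 hψ, ?_⟩⟩
  intro I _ A δ σ γ h h1 h2 h3 h4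
  choose τ hτ ε hε e using fun i => Int_exists hm h15 (h1 i).1 (h1 i).2
  have h5 : ∀ i j, τ i = τ j → i = j := fun i j a => h2 i j _ ((hε i).mul (hε j).adj) (by
    rw [e i, e j, a, mul_assoc, left (hε j)])
  have h6 : MT m ψ γ = ∑ i, ψ (dm m γ (τ i)) :=
    (sum_bij (fun i _ => τ i) (fun i _ => hτ i) (fun i _ j _ => h5 i j) (fun t ht => by
      obtain ⟨i, hi, a⟩ := surj_on_of_inj_on_of_card_le (s := univ) (fun i _ => τ i)
        (fun i _ => hτ i) (fun i j _ _ => h5 i j) h3 t ht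
      exact ⟨i, hi, a.symm⟩) fun _ _ => rfl).symm
  have h7 : ∀ i, ψ (dm m γ (τ i)) = ψ (δ i) + (ψ (ε (σ i)) - ψ (ε i)) := fun i => by
    rw [dm_eq hm ((hε i).adj.mul ((h4 i).1.mul (hε (σ i)))) (hτ (σ i)) (by
      rw [mul_assoc, mul_assoc, ← e, ← (h4 i).2, e i, mul_assoc, left (hε i)]),
      hψ.1 _ _ (hε i).adj ((h4 i).1.mul (hε _)), hψ.1 _ _ (h4 i).1 (hε _), adj_eq hψ (hε i)]
    abel
  simp only [h6, h7, sum_add_distrib, sum_sub_distrib]
  rw [(bij h h2 h4).sum_comp fun i => ψ (ε i), sub_self, add_zero]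

end Pool.Agent.P.MP_9c97e9_nt.KT
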