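import Pool.Agent.P.MP_9c97e9_nt.KT.IfU

/-! The norm relation for the cocycles on the function field. -/

namespace Pool.Agent.P.MP_9c97e9_nt.KT

open MP_8b7eba_nt.R2
open MP_8b7eba_nt.R1 (IntR)

theorem t_NE (hLING : LING) (hTRF : TRF) (hCOK : COK) (hLAB : LAB) (hEINV : EINV) (hNA : NA)
    (hNL : NL) (hNF : NF) : NE := by
  intro k M M' p hL hp h15 e
  have c15 : p.Coprime 15 := (Nat.Prime.coprime_iff_not_dvd hp).2 h15
  have h0 : M' ≠ 0 := e ▸ mul_ne_zero hL.1 hp.ne_zero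
  have : NeZero M' := ⟨h0⟩
  have hd : M ∣ M' := ⟨p, e⟩
  obtain ⟨ok, nm, -, hc⟩ := hCOK.2.2.1 k M hL.1 hL.2.1
  obtain ⟨l1, l2, l3, -, -, -, l4⟩ := hLING _ _ (CL k M) ok
  obtain ⟨b1, b2⟩ := hLAB k M hL.1 hL.2.1
  have a1 := hNA k M M' p hL hp.ne_zero c15 e
  have e1 : (fun g h => pz M (M' := M') (fE k (E0 M') g h)) =
      fE k (lb (ZMod.unitsMap hd) (E0 M')) := by
    funext g h
    exact ((b2 M' hd h0).2 _ g h).symm
  have e0 := hNF M M' p hd hL.2.2 hp h15 e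
  by_cases hM : p ∣ M
  · simp only [e1, e0, if_pos hM]
    exact a1
  simp only [e1, e0, if_neg hM]
  have a2 := hNL k M M' p hL hp (fun h => ((Nat.Prime.dvd_mul hp).1 h).elim h15 hM) e
  obtain ⟨⟨φ, f1, f2⟩, f3⟩ := b1 (un (p : ZMod M))
  have a3 := (l4 (CL k M) rfl φ fun g _ F => f2 g F).1 _ _
    (hTRF _ _ (CL k M) geo _ (HC p) ok nm (hc p hp.ne_zero c15) _ (hEINV.2 k M hL).1.1).2
  simp only [hCOK.2.2.2.1] at a3
  have e2 : fE k (lb (· * un (p : ZMod M)) (Cor p (E0 M))) =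
      fun g h => φ (((CL k M).can (Cor p (E0 M))).f g h) := by
    funext g h
    exact (f3 _ g h).trans (f1 _).symm
  simp only [← e2] at a3
  have a4 := (l3 _ _ a2).2.2.1 _ a3
  have a5 := (l3 _ _ ((l3 _ _ a1).2.2.2 _ _ ((l3 _ _ a4).2.1 (-1)))).2.2.2 _ _
    (l2 ((p : ℤ) • fE k (lb (· * un (p : ZMod M) ^ 2) (E0 M))))
  have s1 : ∀ E E' : Sy LL M, fE k (E + E') = fE k E + fE k E' := fun E E' => (l1 E E' 0).1
  have s2 : ∀ (E : Sy LL M) (n : ℤ), fE k (n • E) = n • fE k E := fun E n => (l1 E E n).2.1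
  have s3 : ∀ E E' : Sy LL M, fE k (E - E') = fE k E + (-1 : ℤ) • fE k E' := fun E E' => by
    rw [← s2, ← s1, neg_one_zsmul, sub_eq_add_neg]
  simp only [s1, s2, s3]
  convert a5 using 1
  funext g h
  simp only [Pi.add_apply, Pi.smul_apply, (b1 _).2, f1, neg_one_zsmul, Pi.neg_apply, sub_eq_add_neg]
  rfl

end Pool.Agent.P.MP_9c97e9_nt.KT
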