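import Pool.Agent.P.MP_9c97e9_nt.KT.TNLPA

/-! Products of units over lines. -/

namespace Pool.Agent.P.MP_9c97e9_nt.KT

open MP_8b7eba_nt.R2
open MP_8b7eba_nt.Mod (M2 UH)
open MP_8b7eba_nt.R1 (IntR IntM Int_det)

namespace TNLP

variable {M p : ℕ}

theorem c1 (x : ZMod (M * p)) :
    (ZMod.cast x : ZMod M) = ZMod.castHom (Nat.dvd_mul_right M p) (ZMod M) x := rfl

theorem c2 (x : ZMod (M * p)) :
    (ZMod.cast x : ZMod p) = ZMod.castHom (Nat.dvd_mul_left p M) (ZMod p) x := rfl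

variable [NeZero (M * p)]

theorem caseA (hUT : UT) (hUD : UD) (h : M.Coprime p) (i : ℕ) (b : ZMod 15) (y : VZ M)
    (B : Finset (VZ (M * p))) (hB : ∀ v, v ∈ B ↔ (ZMod.cast v.2 : ZMod p) = 15 * i * ZMod.cast v.1 ∧
      (ZMod.cast v.1 : ZMod M) = y.1 ∧ (ZMod.cast v.2 : ZMod M) = y.1 * (15 * i) + y.2 * p)
    {z : ℂ} (hz : 0 < z.im) : ∏ v ∈ B, ug (M * p) b v z = ug M (p * b) y ((z + i) / p) := by
  classical
  have hM : M ≠ 0 := left_ne_zero_of_mul (NeZero.ne (M * p))
  have hp : p ≠ 0 := right_ne_zero_of_mul (NeZero.ne (M * p))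
  have : NeZero M := ⟨hM⟩
  have key : ∀ v ∈ B, (v.1, 15 * i * v.1 + p * (y.2.val : ZMod (M * p))) = v := fun v hv => by
    obtain ⟨h1, h2, h3⟩ := (hB v).1 hv
    refine Prod.ext rfl (crt h ?_ ?_)
    · rw [h3, ← h2]
      simp only [c1, map_add, map_mul, map_natCast, map_ofNat, ZMod.natCast_zmod_val]
      ring
    · rw [h1]
      simp only [c2, map_add, map_mul, map_natCast, map_ofNat, ZMod.natCast_self, zero_mul,
        add_zero]
  have hz' : 0 < ((z + i) / p).im := by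
    rw [Complex.div_natCast_im, Complex.add_im, Complex.natCast_im, add_zero]
    positivity
  rw [Finset.prod_nbij' (t := Finset.univ.filter fun x : ZMod (M * p) => ZMod.cast x = y.1)
    (g := fun x => ug (M * p) b (x, 15 * i * x + p * (y.2.val : ZMod (M * p))) z) Prod.fst
    (fun x => (x, 15 * i * x + p * (y.2.val : ZMod (M * p))))
    (fun v hv => Finset.mem_filter.2 ⟨Finset.mem_univ _, ((hB v).1 hv).2.1⟩) (fun x hx => ?_) key
    (fun _ _ => rfl) fun v hv => by rw [key v hv]]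
  · rw [prod_fib y.1 _ fun x => by simp, per hUT hM (β := p * b.val) (n₁ := y.1.val)
      (n₂ := y.2.val) (by simp) (by simp) (by simp) hz']
    have h0 : (M : ℚ) ≠ 0 := Nat.cast_ne_zero.2 hM
    have h1 : (p : ℚ) ≠ 0 := Nat.cast_ne_zero.2 hp
    have e := (hUD p b.val (y.1.val / (M * p)) (15 * i * (y.1.val / (M * p)) + y.2.val / M) z hp
      hz).2.2 i
    convert e using 2 with j hj
    · rw [per hUT (NeZero.ne _) (β := b.val) (n₁ := (y.1.val + M * j : ℕ))
        (n₂ := (15 * i * (y.1.val + M * j) + p * y.2.val : ℕ)) (by simp) (Int.cast_natCast _)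
        (by push_cast; rfl) hz]
      congr 1 <;> push_cast <;> field_simp
      ring
    · push_cast
      field_simp
    · push_cast
      ring
    · rw [Int.cast_natCast]
  · have h2 := (Finset.mem_filter.1 hx).2
    rw [hB]
    refine ⟨?_, h2, ?_⟩
    · simp only [c2, map_add, map_mul, map_natCast, map_ofNat, ZMod.natCast_self, zero_mul,
        add_zero]
    · rw [← h2]
      simp only [c1, map_add, map_mul, map_natCast, map_ofNat, ZMod.natCast_zmod_val]
      ring

theorem caseB (hUT : UT) (hUD : UD) (h : M.Coprime p) (b : ZMod 15) (y : VZ M)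
    (B : Finset (VZ (M * p))) (hB : ∀ v, v ∈ B ↔ (ZMod.cast v.1 : ZMod p) = 0 ∧
      (ZMod.cast v.1 : ZMod M) = y.1 * p ∧ (ZMod.cast v.2 : ZMod M) = y.2)
    {z : ℂ} (hz : 0 < z.im) : ∏ v ∈ B, ug (M * p) b v z = ug M b y (p * z) := by
  classical
  have hM : M ≠ 0 := left_ne_zero_of_mul (NeZero.ne (M * p))
  have hp : p ≠ 0 := right_ne_zero_of_mul (NeZero.ne (M * p))
  have : NeZero M := ⟨hM⟩
  have key : ∀ v ∈ B, (p * (y.1.val : ZMod (M * p)), v.2) = v := fun v hv => by
    obtain ⟨h1, h2, -⟩ := (hB v).1 hv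
    refine Prod.ext (crt h ?_ ?_) rfl
    · rw [h2]
      simp only [c1, map_mul, map_natCast, ZMod.natCast_zmod_val]
      ring
    · rw [h1]
      simp only [c2, map_mul, map_natCast, ZMod.natCast_self, zero_mul]
  rw [Finset.prod_nbij' (t := Finset.univ.filter fun x : ZMod (M * p) => ZMod.cast x = y.2)
    (g := fun x => ug (M * p) b (p * (y.1.val : ZMod (M * p)), x) z) Prod.snd
    (fun x => (p * (y.1.val : ZMod (M * p)), x))
    (fun v hv => Finset.mem_filter.2 ⟨Finset.mem_univ _, ((hB v).1 hv).2.2⟩) (fun x hx => ?_) key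
    (fun _ _ => rfl) fun v hv => by rw [key v hv]]
  · rw [prod_fib y.2 _ fun x => by simp, ug]
    have h0 : (M : ℚ) ≠ 0 := Nat.cast_ne_zero.2 hM
    have h1 : (p : ℚ) ≠ 0 := Nat.cast_ne_zero.2 hp
    have e := (hUD p b.val (y.1.val / M) (y.2.val / (M * p)) z hp hz).2.1
    convert e using 2 with j hj
    · rw [per hUT (NeZero.ne _) (β := b.val) (n₁ := (p * y.1.val : ℕ))
        (n₂ := (y.2.val + M * j : ℕ)) (by simp) (by push_cast; rfl) (Int.cast_natCast _) hz]
      congr 1 <;> push_cast <;> field_simp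
    · field_simp
  · refine (hB _).2 ⟨?_, ?_, (Finset.mem_filter.1 hx).2⟩
    · simp only [c2, map_mul, map_natCast, ZMod.natCast_self, zero_mul]
    · simp only [c1, map_mul, map_natCast, ZMod.natCast_zmod_val]
      ring

end TNLP

open TNLP in
theorem t_NLP (hFB : FB) (hTR : TR) (hUT : UT) (hUD : UD) (hEXA : EXA) : NLP := by
  rintro M _ p i hM hp hd rfl t ht b y B hB
  have h0 : M ≠ 0 := left_ne_zero_of_mul (NeZero.ne (M * p))
  have h1 : p.Coprime 15 := hp.coprime_iff_not_dvd.2 fun h => hd (h.mul_right _)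
  have h2 : M.Coprime p := (hp.coprime_iff_not_dvd.2 fun h => hd (h.mul_left _)).symm
  have hL : Lm (IntM t) := by
    refine ⟨?_, ?_, dvd_zero _⟩ <;> rw [Int_det hp.pos ht]
    · exact_mod_cast hp.pos
    · exact Nat.isCoprime_iff_coprime.2 h1
  have hI := fun v (_ : v ∈ B) =>
    ((hEXA _ (NeZero.ne (M * p)) (Nat.Coprime.mul_left hM h1)).1 b v).1
  have hJ := fun e => (hTR.1 _ hL).2.2.2 _ ((hEXA M h0 hM).1 e y).1
  rcases (TLNX.mem hp).1 ht with rfl | ⟨j, -, rfl⟩
  · rw [Nat.cast_one, one_mul]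
    refine (prod_eq hFB B hI (hJ b).1 fun z hz => ?_).trans (hJ b).2.symm
    rw [caseB hUT hUD h2 b y B (fun v => by simp [hB, Ln]) hz]
    simp [IntM, M2.act_eq, M2.j]
  · have := hJ (ZMod.unitOfCoprime p h1 * b)
    rw [Units.val_mul, ZMod.coe_unitOfCoprime] at this
    refine (prod_eq hFB B hI this.1 fun z hz => ?_).trans this.2.symm
    rw [caseA hUT hUD h2 j b y B (fun v => by simp [hB, Ln]) hz]
    simp [IntM, M2.act_eq, M2.j]

end Pool.Agent.P.MP_9c97e9_nt.KT
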