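import Pool.Agent.P.MP_9c97e9_nt.KT.IfU

/-! Expansions of infinite products and of inverses. -/

namespace Pool.Agent.P.MP_9c97e9_nt.KT

open Complex Filter Topology Metric PowerSeries Finset
open scoped Nat
open MP_8b7eba_nt.Mod (qq coeff_unique norm_qq_lt)
open MP_8b7eba_nt.R1 (Zb QE unif_surj)
open MP_29cb78_nt.E (ee)

namespace TQEP

variable {Φ : ℂ → ℂ}

/-- Taylor coefficients -/
noncomputable def tc (Φ : ℂ → ℂ) (k : ℕ) : ℂ := (k ! : ℂ)⁻¹ * iteratedDeriv k Φ 0

lemma tay (hd : DifferentiableOn ℂ Φ (ball 0 1)) {q : ℂ} (hq : ‖q‖ < 1) :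
    HasSum (fun k => tc Φ k * q ^ k) (Φ q) := by
  refine (Complex.hasSum_taylorSeries_on_ball hd (mem_ball_zero_iff.2 hq)).congr_fun fun n => ?_
  simp only [sub_zero, smul_eq_mul, tc]
  ring

lemma uniq (hd : DifferentiableOn ℂ Φ (ball 0 1)) {a : ℕ → ℂ}
    (h : ∀ z : ℂ, 0 < z.im → HasSum (fun k => a k * qq z ^ k) (Φ (qq z))) (k : ℕ) :
    tc Φ k = a k := by
  refine sub_eq_zero.1 (coeff_unique (c := fun k => tc Φ k - a k) (fun z hz => ?_) k)
  simpa [sub_mul] using (tay hd (norm_qq_lt hz)).sub (h z hz)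

lemma lim {F : ℕ → ℂ → ℂ} (hF : ∀ N, DifferentiableOn ℂ (F N) (ball 0 1))
    (hl : TendstoLocallyUniformlyOn F Φ atTop (ball 0 1)) (k : ℕ) :
    Tendsto (fun N => tc (F N) k) atTop (𝓝 (tc Φ k)) := by
  have key : ∀ n, TendstoLocallyUniformlyOn (fun N => iteratedDeriv n (F N)) (iteratedDeriv n Φ)
      atTop (ball 0 1) ∧ ∀ N, DifferentiableOn ℂ (iteratedDeriv n (F N)) (ball 0 1) := by
    intro n
    induction n with
    | zero => exact ⟨by simpa using hl, fun N => by simpa using hF N⟩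
    | succ n ih =>
      simp only [iteratedDeriv_succ]
      exact ⟨ih.1.deriv (.of_forall ih.2) isOpen_ball, fun N => (ih.2 N).deriv isOpen_ball⟩
  exact ((key k).1.tendsto_at (mem_ball_self one_pos)).const_mul _

lemma im_div {w : ℕ} (hw : w ≠ 0) {z : ℂ} (hz : 0 < z.im) : 0 < (z / w).im := by
  rw [Complex.div_natCast_im]
  exact div_pos hz (Nat.cast_pos.2 (Nat.pos_of_ne_zero hw))

/-- the partial products -/
noncomputable def PN (α : ℕ → Zb) (N : ℕ) : Zb⟦X⟧ := ∏ c ∈ range N, (1 - C (α c) * X ^ c)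

lemma PN_dvd (α : ℕ → Zb) {N M : ℕ} (h : N ≤ M) : X ^ N ∣ PN α M - PN α N := by
  induction M, h using Nat.le_induction with
  | base => simp
  | succ M h ih =>
    rw [PN, prod_range_succ, ← PN, mul_sub, mul_one, sub_right_comm]
    exact dvd_sub ih (((pow_dvd_pow _ h).mul_left _).mul_left _)

lemma coeff_PN (α : ℕ → Zb) {m N : ℕ} (h : m < N) :
    coeff m (PN α N) = coeff m (PN α (m + 1)) := by
  have := X_pow_dvd_iff.1 (PN_dvd α (Nat.succ_le_of_lt h)) m (Nat.lt_succ_self m)
  rwa [map_sub, sub_eq_zero] at this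

lemma qe_PN (α : ℕ → Zb) (N : ℕ) :
    QE 1 0 (PN α N) fun z => ∏ c ∈ range N, (1 - α c * qq z ^ c) := by
  have := QE.prod one_pos (range N) (M := fun _ => 0) (T := fun c => 1 - C (α c) * X ^ c)
    (F := fun c z => 1 - α c * qq z ^ c) fun c _ => by
      refine QE.sub (by simpa using QE.const 1 1) fun z _ => ?_
      have := hasSum_single (f := fun k : ℕ =>
        ((coeff k (C (α c) * X ^ c : Zb⟦X⟧) : Zb) : ℂ) * qq (z / (1 : ℕ)) ^ k) c
        fun k hk => by simp [coeff_X_pow, hk]
      simpa using this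
  simpa [PN] using this

lemma loc (α : ℕ → Zb) (h : ∀ c, ‖(α c : ℂ)‖ ≤ 1) :
    TendstoLocallyUniformlyOn (fun N q => ∏ c ∈ range N, (1 - (α c : ℂ) * q ^ c))
      (fun q => ∏' c, (1 - (α c : ℂ) * q ^ c)) atTop (ball 0 1) := by
  refine HasProdLocallyUniformlyOn.tendstoLocallyUniformlyOn_finsetRange ?_
  simp_rw [sub_eq_add_neg]
  apply hasProdLocallyUniformlyOn_of_forall_compact isOpen_ball
  intro K hK hcK
  rcases K.eq_empty_or_nonempty with hN | hN
  · simpa [hasProdUniformlyOn_iff_tendstoUniformlyOn, hN] using tendstoUniformlyOn_empty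
  · obtain ⟨q₀, hq₀, _, HB⟩ := hcK.exists_sSup_image_eq_and_ge hN
      (show ContinuousOn (fun q : ℂ => ‖q‖) K by fun_prop)
    refine (summable_geometric_of_lt_one (norm_nonneg _)
      (mem_ball_zero_iff.1 (hK hq₀))).hasProdUniformlyOn_nat_one_add
      hcK (.of_forall fun n x hx => ?_) (fun _ => by fun_prop)
    rw [norm_neg, norm_mul, norm_pow]
    exact (mul_le_of_le_one_left (by positivity) (h n)).trans
      (pow_le_pow_left₀ (norm_nonneg _) (HB x hx) n)

lemma diff {a : ℕ → ℂ} (h : ∀ q : ℂ, q ≠ 0 → ‖q‖ < 1 → Summable fun k => a k * q ^ k) :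
    DifferentiableOn ℂ (fun q => ∑' k, a k * q ^ k) (ball 0 1) := by
  intro q hq
  obtain ⟨r, h1, h2⟩ := exists_between (mem_ball_zero_iff.1 hq)
  have r0 : 0 < r := (norm_nonneg q).trans_lt h1
  have hs := (h r (by exact_mod_cast r0.ne') (by rwa [Complex.norm_real, Real.norm_of_nonneg r0.le])).norm
  have := Complex.differentiableOn_tsum_of_summable_norm (U := ball 0 r)
    (F := fun k q => a k * q ^ k) hs (fun _ => by fun_prop) isOpen_ball fun k x hx => by
      rw [norm_mul, norm_mul, norm_pow, norm_pow, Complex.norm_real, Real.norm_of_nonneg r0.le]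
      gcongr
      exact (mem_ball_zero_iff.1 hx).le
  exact (this.differentiableAt (isOpen_ball.mem_nhds (mem_ball_zero_iff.2 h1))).differentiableWithinAt

lemma cauchy {A B : ℂ⟦X⟧} {q s t : ℂ} (h : HasSum (fun k => coeff k A * q ^ k) s)
    (h' : HasSum (fun k => coeff k B * q ^ k) t) :
    HasSum (fun k => coeff k (A * B) * q ^ k) (s * t) := by
  have h1 := h.summable.norm
  have h2 := h'.summable.norm
  have h3 := (summable_norm_sum_mul_antidiagonal_of_summable_norm h1 h2).of_norm.hasSum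
  rw [← tsum_mul_tsum_eq_tsum_sum_antidiagonal_of_summable_norm h1 h2, h.tsum_eq,
    h'.tsum_eq] at h3
  refine h3.congr_fun fun n => ?_
  rw [coeff_mul, Finset.sum_mul]
  refine Finset.sum_congr rfl fun p hp => ?_
  rw [← mem_antidiagonal.1 hp, pow_add]
  ring

end TQEP

open TQEP in
theorem t_QEP : QEP := by
  intro w hw
  have w0 : (w : ℂ) ≠ 0 := by exact_mod_cast hw
  refine ⟨fun α _ h => ⟨PowerSeries.mk fun m => coeff m (PN α (m + 1)), fun z hz => ?_,
    fun T => X_pow_dvd_iff.2 fun m hm => ?_⟩, fun P Q G h hPQ h0 z hz => ?_⟩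
  · have hF : ∀ N, DifferentiableOn ℂ (fun q : ℂ => ∏ c ∈ range N, (1 - (α c : ℂ) * q ^ c))
        (ball 0 1) := fun N => by fun_prop
    have hl := loc α h
    have := tay (hl.differentiableOn (.of_forall hF) isOpen_ball) (norm_qq_lt (im_div hw hz))
    rw [pow_zero, mul_one]
    refine this.congr_fun fun k => ?_
    rw [coeff_mk]
    congr 1
    refine tendsto_nhds_unique ?_ (lim hF hl k)
    refine tendsto_const_nhds.congr' ?_
    filter_upwards [eventually_gt_atTop k] with N hN
    rw [uniq (hF N) (a := fun k => ((coeff k (PN α N) : Zb) : ℂ))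
      (fun z hz => by simpa using qe_PN α N z hz), coeff_PN α hN]
  · rw [map_sub, coeff_mk, ← PN, coeff_PN α hm, sub_self]
  · let ι : Zb →+* ℂ := (integralClosure ℤ ℂ).val
    have hs : ∀ z : ℂ, 0 < z.im →
        HasSum (fun k => coeff k (map ι P) * qq z ^ k) (G (w * z)) := fun z hz => by
      have := h (w * z) (by simpa using mul_pos (Nat.cast_pos.2 (Nat.pos_of_ne_zero hw)) hz)
      rwa [mul_div_cancel_left₀ _ w0, pow_zero, mul_one] at this
    have hd := diff (a := fun k => coeff k (map ι P)) fun q q0 q1 => by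
      obtain ⟨z, hz, rfl⟩ := unif_surj q0 q1
      exact (hs z hz).summable
    have hPQ' : map ι P * map ι Q = 1 := by rw [← map_mul, hPQ, map_one]
    have hi := hd.inv fun q hq => by
      rcases eq_or_ne q 0 with rfl | q0
      · rw [tsum_eq_single 0 fun k hk => by simp [hk], pow_zero, mul_one,
          coeff_zero_eq_constantCoeff_apply]
        have := congrArg constantCoeff hPQ'
        rw [map_mul, map_one] at this
        exact left_ne_zero_of_mul_eq_one this
      · obtain ⟨z, hz, rfl⟩ := unif_surj q0 (mem_ball_zero_iff.1 hq)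
        rw [(hs z hz).tsum_eq]
        exact h0 _ (by simpa using mul_pos (Nat.cast_pos.2 (Nat.pos_of_ne_zero hw)) hz)
    obtain ⟨B, hB⟩ : ∃ B : ℂ⟦X⟧, ∀ z : ℂ, 0 < z.im →
        HasSum (fun k => coeff k B * qq z ^ k) (G (w * z))⁻¹ :=
      ⟨PowerSeries.mk (tc _), fun z hz => by
        have := tay hi (norm_qq_lt hz)
        rw [Pi.inv_apply, (hs z hz).tsum_eq] at this
        simpa only [coeff_mk] using this⟩
    have e : map ι P * B = 1 := by
      ext k
      refine sub_eq_zero.1 (coeff_unique (c := fun k => coeff k (map ι P * B) - coeff k 1)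
        (fun z hz => ?_) k)
      have h1 := cauchy (hs z hz) (hB z hz)
      rw [mul_inv_cancel₀ (h0 _ (by
        simpa using mul_pos (Nat.cast_pos.2 (Nat.pos_of_ne_zero hw)) hz))] at h1
      have h2 := hasSum_single (f := fun k : ℕ => coeff k (1 : ℂ⟦X⟧) * qq z ^ k) 0
        fun k hk => by simp [coeff_one, hk]
      simpa [sub_mul] using h1.sub h2
    have e2 : B = map ι Q := by linear_combination map ι Q * e - B * hPQ'
    have := hB _ (im_div hw hz)
    rw [mul_div_cancel₀ _ w0, e2] at this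
    rw [pow_zero, mul_one]
    exact this

end Pool.Agent.P.MP_9c97e9_nt.KT
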