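import Pool.Agent.P.MP_9c97e9_nt.KT.IfU
import Pool.Agent.P.MP_9c97e9_nt.KT.TBAS
import Pool.Agent.P.MP_8b7eba_nt.R1.QE

/-! Substitutions in expansions, growth at the cusps, conjugation of coefficients. -/

namespace Pool.Agent.P.MP_9c97e9_nt.KT

open PowerSeries
open MP_8b7eba_nt MP_8b7eba_nt.R2
open MP_8b7eba_nt.Mod (M2 qq atI ex)
open MP_8b7eba_nt.R1 (Zb QE ze coe_ze ze_pow ze_mul_neg ze_pow_self QE_expand)

namespace TQSUB

theorem subst {M N a d e w : ℕ} (b : ℤ) {A : Zb⟦X⟧} {G : ℂ → ℂ} (he : e ≠ 0) (hM : M ≠ 0)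
    (ha : a ≠ 0) (hd : d ≠ 0) (hw : w ≠ 0) (hw' : a * w = e * (d * M)) (h : QE M N A G) :
    QE w (e * N) (C (ze (d * M) (-(N * b))) * expand e he (rescale (ze (d * M) b) A))
      fun z => G ((a * z + b) / d) := by
  intro z hz
  have a0 : (0 : ℝ) < a := Nat.cast_pos.2 (Nat.pos_of_ne_zero ha)
  have d0 : (0 : ℝ) < d := Nat.cast_pos.2 (Nat.pos_of_ne_zero hd)
  have d1 : (d : ℂ) ≠ 0 := by exact_mod_cast hd
  have w1 : (w : ℂ) ≠ 0 := by exact_mod_cast hw
  have m1 : (M : ℂ) ≠ 0 := by exact_mod_cast hM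
  have hu : 0 < (((a : ℂ) * z + b) / d).im := by
    rw [Complex.div_natCast_im]
    simpa using div_pos (mul_pos a0 hz) d0
  have e1 : (a : ℂ) * w = e * (d * M) := by exact_mod_cast hw'
  have e2 : qq (((a : ℂ) * z + b) / d / M) = ze (d * M) b * qq (z / w) ^ e := by
    rw [coe_ze, ← Mod.qq_nat_mul, ← Mod.qq_add, Nat.cast_mul]
    congr 1
    field_simp
    linear_combination z * e1
  generalize d * M = D at e2 ⊢
  have e3 : (ze D (-(N * b)) : ℂ) * (ze D b : ℂ) ^ N = 1 := by
    have := congrArg Subtype.val (ze_mul_neg D (N * b))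
    rw [← ze_pow] at this
    rw [mul_comm]
    exact this
  have h1 := h _ hu
  rw [e2] at h1
  have h2 : HasSum (fun n => ((coeff n (rescale (ze D b) A) : Zb) : ℂ) * (qq (z / w) ^ e) ^ n) _ :=
    h1.congr_fun fun n => by
      rw [coeff_rescale, MulMemClass.coe_mul, SubmonoidClass.coe_pow, mul_pow]
      ring
  have h3 := ((QE_expand he _ _ _).2 h2).mul_left (ze D (-(N * b)) : ℂ)
  have e4 : (ze D (-(N * b)) : ℂ) * (G ((a * z + b) / d) * (ze D b * qq (z / w) ^ e) ^ N) =
      G ((a * z + b) / d) * qq (z / w) ^ (e * N) := by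
    rw [mul_pow, pow_mul]
    linear_combination G ((a * z + b) / d) * (qq (z / w) ^ e) ^ N * e3
  rw [e4] at h3
  exact h3.congr_fun fun n => by rw [coeff_C_mul, MulMemClass.coe_mul, mul_assoc]

theorem growth {G : ℂ → ℂ} {A : M2} (hA : 0 < A.det) (h : MG G) : MG fun z => G (A.act z) := by
  intro g hg
  obtain ⟨k, a, b, c, hk, ha, hc, -, -, e⟩ := Mod.exists_upper (g := A * g)
    (by rw [M2.det_mul, hg, mul_one]; exact hA)
  obtain ⟨t, ht⟩ := h k hk
  refine ⟨t * (a / c), (ht.comp_tendsto (Mod.tendsto_upper (B := b) ha hc)).congr' ?_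
    (.of_forall fun z => ?_)⟩
  · filter_upwards [Mod.ev_im 0] with z hz
    rw [Function.comp_apply, ← M2.act_mul (by omega) (by simpa [M2.det] using mul_pos ha hc) hz,
      ← e, M2.act_mul hA.ne' (by omega) hz]
  · simp only [Function.comp_apply, ex, Mod.im_upper, mul_assoc]

/-- the inclusion of the algebraic integers in the algebraic numbers -/
noncomputable def zh (h : ∀ a : Zb, io (zo a) = a) : Zb →+* Om where
  toFun := zo
  map_one' := io.injective (by simp [h])
  map_mul' a b := io.injective (by simp [h])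
  map_zero' := io.injective (by simp [h])
  map_add' a b := io.injective (by simp [h])

theorem int (h : ∀ a : Zb, io (zo a) = a) (σ : GQ) (a : Zb) : IsIntegral ℤ (io (σ (zo a))) :=
  ((integralClosure.isIntegral a).map (zh h).toIntAlgHom).map
    (io.comp (σ : Om →+* Om)).toIntAlgHom

end TQSUB

open TQSUB in
theorem t_QSUB (hFB : FB) : QSUB := by
  refine ⟨fun M N a d e w j A G he h1 h2 h3 h4 h5 h => subst j he h1 h2 h3 h4 h5 h,
    fun G A hA h => growth hA h, fun σ => ?_⟩
  have h := hFB.2.2.2.2.2.2.2.2.2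
  have hi : Function.Injective zo := fun a b e => Subtype.ext (by rw [← h, e, h])
  let f : Zb →+* Zb :=
    ((io.comp (σ : Om →+* Om)).comp (zh h)).codRestrict (integralClosure ℤ ℂ) (int h σ)
  have hf : ∀ a, zo (f a) = σ (zo a) := fun a => io.injective (h _)
  refine ⟨f, hf, fun A B => ?_, fun M a hM => hi ?_⟩
  · rw [Cj, PowerSeries.ext_iff]
    exact forall_congr' fun k => by rw [← hf, hi.eq_iff, coeff_map, eq_comm]
  · have e : zo (ze M a) ^ M = 1 := by
      rw [← map_one (zh h), ← ze_pow_self hM a]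
      exact (map_pow (zh h) _ _).symm
    rw [hf, t_BAS.2.1 M hM σ _ e, mul_comm, ← ze_pow]
    exact (map_pow (zh h) _ _).symm

end Pool.Agent.P.MP_9c97e9_nt.KT
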