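import Pool.Agent.P.MP_9c97e9_nt.KT.IfU

/-! The expansion of the theta product. -/

namespace Pool.Agent.P.MP_9c97e9_nt.KT

open MP_8b7eba_nt.R1 (Zb QE ze)
open MP_29cb78_nt.E (ee th0)
open MP_29cb78_nt.E.Th
open PowerSeries

namespace TTQ

theorem ee_int_mul (n : ℤ) (x : ℂ) : ee (n * x) = ee x ^ n := by
  rw [ee, ee, ← Complex.exp_int_mul]
  congr 1
  ring

theorem th0_shift {τ : ℂ} (h : 0 < τ.im) (x : ℂ) (n : ℤ) :
    th0 (x + n * τ) τ * (-ee x) ^ n * ee (n * (n - 1) / 2 * τ) = th0 x τ := by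
  have key : ∀ n : ℤ, th0 (x + (n + 1 : ℤ) * τ) τ * (-ee x) ^ (n + 1) *
      ee ((n + 1 : ℤ) * ((n + 1 : ℤ) - 1) / 2 * τ) =
      th0 (x + n * τ) τ * (-ee x) ^ n * ee (n * (n - 1) / 2 * τ) := fun n => by
    have h1 := ee_neg_mul (x + n * τ)
    rw [ee_add] at h1
    rw [show x + (n + 1 : ℤ) * τ = x + n * τ + τ by push_cast; ring, th0_tau h,
      zpow_add_one₀ (neg_ne_zero.2 (ee_ne x)),
      show ((n + 1 : ℤ) : ℂ) * ((n + 1 : ℤ) - 1) / 2 * τ = n * (n - 1) / 2 * τ + n * τ by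
        push_cast; ring, ee_add]
    linear_combination th0 (x + n * τ) τ * (-ee x) ^ n * ee (n * (n - 1) / 2 * τ) * h1
  induction n using Int.induction_on with
  | zero => simp [ee_zero]
  | succ n ih => rw [key, ih]
  | pred n ih => rw [← key, sub_add_cancel, ih]

theorem half (hQEP : QEP) {M : ℕ} (hM : M ≠ 0) {b : ℕ} {B : ℤ} (h0 : 0 < b) (h1 : b < 15 * M)
    (hB : (15 * M : ℤ) ∣ b - B) (a : ℤ) :
    ∃ P : Zb⟦X⟧, QE M 0 P (fun z => G (15 * z) ((b * z + a) / M)) ∧ ∀ T, X ^ T ∣ P -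
      ∏ c ∈ Finset.range T, if (15 * M : ℤ) ∣ c - B then 1 - C (ze M a) * X ^ c else 1 := by
  have hM' : (M : ℂ) ≠ 0 := Nat.cast_ne_zero.2 hM
  have hr : ∀ c : ℕ, (15 * M : ℤ) ∣ c - B ↔ ∃ m, b + 15 * M * m = c := fun c => by
    rw [show (c : ℤ) - B = c - b + (b - B) by ring, dvd_add_left hB]
    constructor
    · rintro ⟨m, hm⟩
      have : 0 ≤ m := by
        by_contra k
        have : (15 * M : ℤ) * m ≤ 15 * M * (-1) := mul_le_mul_of_nonneg_left (by omega) (by omega)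
        omega
      lift m to ℕ using this
      exact ⟨m, by zify; omega⟩
    · rintro ⟨m, rfl⟩
      exact ⟨m, by push_cast; ring⟩
  obtain ⟨P, k1, k2⟩ := (hQEP M hM).1 (fun c => if (15 * M : ℤ) ∣ c - B then ze M a else 0)
    (if_neg fun k => by
      obtain ⟨m, hm⟩ := (hr 0).1 k
      omega) fun c => by
      split_ifs
      · refine (Complex.norm_eq_one_of_pow_eq_one ?_ hM).le
        rw [← SubmonoidClass.coe_pow, MP_8b7eba_nt.R1.ze_pow_self hM]
        rfl
      · simp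
  refine ⟨P, k1.congr fun z _ => ?_, fun T => ?_⟩
  · rw [← Function.Injective.tprod_eq (g := fun m : ℕ => b + 15 * M * m)
      (fun m m' k => Nat.eq_of_mul_eq_mul_left (by omega) (Nat.add_left_cancel k)) fun c hc => ?_]
    · refine tprod_congr fun m => ?_
      rw [if_pos ((hr _).2 ⟨m, rfl⟩), ← ee_nat_mul, show (ze M a : ℂ) = ee (a / M) from rfl, ← ee_add]
      congr 2
      push_cast
      field_simp
      ring
    · by_contra k
      exact hc (by simp [mt (hr c).1 k])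
  · convert k2 T using 3 with c
    split_ifs <;> simp

end TTQ

open TTQ in
theorem t_TQ (hQEP : QEP) : TQ := by
  intro M B hM hB
  have hM' : (M : ℂ) ≠ 0 := Nat.cast_ne_zero.2 hM
  have hW : (0 : ℤ) < 15 * M := by omega
  have h1 := Int.emod_nonneg B hW.ne'
  have h2 := Int.emod_lt_of_pos B hW
  have h3 := Int.emod_add_mul_ediv B (15 * M)
  have h4 : B % (15 * M) ≠ 0 := fun k => hB (Int.dvd_of_emod_eq_zero k)
  generalize B / (15 * M) = n at h3 ⊢
  obtain ⟨b, hb⟩ := Int.eq_ofNat_of_zero_le h1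
  rw [hb] at h2 h3 h4
  obtain ⟨b', hb'⟩ := Nat.exists_eq_add_of_le (show b ≤ 15 * M by omega)
  obtain ⟨h, hh⟩ := Int.even_mul_pred_self n
  subst h3
  refine ⟨-(n * b) - 15 * M * h, ⟨15 * (n * n - h), by ring⟩, fun a => ?_⟩
  obtain ⟨P, k1, k2⟩ := half hQEP hM (b := b) (B := b + 15 * M * n) (by omega) (by omega)
    ⟨-n, by ring⟩ a
  obtain ⟨Q, k3, k4⟩ := half hQEP hM (b := b') (B := -(b + 15 * M * n)) (by omega) (by omega)
    ⟨n + 1, by zify at hb'; linear_combination -hb'⟩ (-a)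
  refine ⟨P * Q, _, k1.mul (Nat.pos_of_ne_zero hM) k3, fun T => ?_, fun z hz => ?_⟩
  · rw [pS, Finset.prod_mul_distrib]
    simp only [sub_neg_eq_add] at k4
    exact (Ideal.mem_span_singleton.1 (Ideal.Quotient.eq.1 (by
      rw [map_mul, map_mul, Ideal.Quotient.eq.2 (Ideal.mem_span_singleton.2 (k2 T)),
        Ideal.Quotient.eq.2 (Ideal.mem_span_singleton.2 (k4 T))])))
  have hτ : 0 < (15 * z).im := by simpa using hz
  have hi : ∀ (c : ℕ) (a : ℤ), 0 < c → 0 < ((c * z + a) / M).im := fun c a hc => by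
    rw [Complex.div_natCast_im]
    simp only [Complex.add_im, Complex.mul_im, Complex.natCast_re, Complex.natCast_im, zero_mul,
      add_zero, Complex.intCast_im]
    have := Nat.pos_of_ne_zero hM
    positivity
  refine ⟨mul_ne_zero (G_ne hτ (hi _ _ (by omega))) (G_ne hτ (hi _ _ (by omega))), ?_⟩
  have e1 : (15 * M : ℂ) = b + b' := by exact_mod_cast hb'
  have e2 : (n : ℂ) * (n - 1) = h + h := by exact_mod_cast hh
  have e3 := th0_shift hτ ((b * z + a) / M) n
  rw [th0_eq hτ ((b * z + a) / M), show 15 * z - (b * z + a) / M = (b' * z + (-a : ℤ)) / M by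
    push_cast; field_simp; linear_combination z * e1] at e3
  rw [← e3, ← ee_int_mul, show (((b + 15 * M * n : ℤ) : ℂ) * z + a) / M =
    (b * z + a) / M + n * (15 * z) by push_cast; field_simp; ring,
    show -ee ((b * z + a) / M) = -ee (a / M) * ee (b * z / M) by
      rw [add_div, ee_add]; ring, mul_zpow, ← ee_int_mul]
  have e4 : ee ((-(n * b) - 15 * M * h : ℤ) * (z / M)) * ee (n * (b * z / M)) *
      ee (n * (n - 1) / 2 * (15 * z)) = 1 := by
    rw [← ee_add, ← ee_add, e2, ← ee_zero]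
    congr 1
    push_cast
    field_simp
    ring
  linear_combination -(th0 ((b * z + a) / M + n * (15 * z)) (15 * z) * (-ee (a / M)) ^ n) * e4

end Pool.Agent.P.MP_9c97e9_nt.KT
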