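import Pool.Agent.P.MP_9c97e9_nt.KT.IfU
import Pool.Agent.P.MP_9c97e9_nt.KT.TGEN

/-! The cocycle of the image of a formal sum under a correspondence. -/

namespace Pool.Agent.P.MP_9c97e9_nt.KT

namespace TTRF

open TGEN

noncomputable section

variable {G Ω : Type} [Group G] [Field Ω] [MulSemiringAction G Ω] {C : Cx G Ω} {K : Subgroup G}
  {T : Type} [Fintype T] {R : Crs G T} {E : Sy Ω C.M}

variable (R) in
/-- the cocycle of the correspondence -/
def kk (g : G) (t : T) : G := (R.x (R.a g t))⁻¹ * g * R.x t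

variable (R E) in
/-- the induced family -/
def FF : Fam C (T × Ω × Ω × (ZMod C.M)ˣ) where
  act g p := (R.a g p.1, (C.can E).act (kk R g p.1) p.2)
  m := ⟨Finset.univ ×ˢ E.support, fun p => E p.2, fun p => by simp⟩
  dt p := p.2.2.2
  r p := R.x p.1 • (C.can E).r p.2
  r' p := R.x p.1 • (C.can E).r' p.2

omit [Fintype T] in
theorem h_mem (hC : C.Ok) (hK : C.Nm K) (hR : R.Ok C K) {g : G} (hg : g ∈ C.H) (t : T) :
    R.h g t ∈ C.H ∧ C.cy (R.h g t) = C.cy g := by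
  have h1 := hR.mem g hg t
  have e : R.h g t = R.h g t * g⁻¹ * g := by group
  refine ⟨e ▸ C.H.mul_mem (hK.le h1) hg, ?_⟩
  rw [e, hC.mul _ (hK.le h1) g hg, hK.cy _ h1, one_mul]

omit [Fintype T] in
theorem kk_mem (hC : C.Ok) (hK : C.Nm K) (hR : R.Ok C K) {g : G} (hg : g ∈ C.H) (t : T) :
    kk R g t ∈ C.H ∧ C.cy (kk R g t) = C.cy g := by
  have e : kk R g t = R.h g (R.a g t) := by
    rw [kk, Crs.h, ← hR.mul _ (C.H.inv_mem hg) g hg, inv_mul_cancel, hR.one]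
  rw [e]
  exact h_mem hC hK hR hg _

omit [Fintype T] in
theorem kk_inv (g : G) (t : T) : kk R g⁻¹ t = (R.h g t)⁻¹ := by
  rw [kk, Crs.h]; group

theorem sum_FF {X : Type} [AddCommMonoid X] (Φ : T × Ω × Ω × (ZMod C.M)ˣ → ℤ → X) :
    (FF R E).m.sum Φ = ∑ t, E.sum fun i c => Φ (t, i) c :=
  Finset.sum_product _ _ _

theorem FF_ok (hC : C.Ok) (hK : C.Nm K) (hR : R.Ok C K) (hE : C.Inv E) : (FF R E).Ok := by
  classical
  have hF := (can_ok hC E hE).1
  refine ⟨fun p => ?_, fun g hg h hh p => ?_, fun g hg p => ?_, fun g hg p => ?_, fun p hp => ?_,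
    fun g hg p hp => ?_, ?_⟩
  · refine Prod.ext (hR.one _) ?_
    have : kk R 1 p.1 = 1 := by rw [kk, hR.one]; group
    change (C.can E).act (kk R 1 p.1) p.2 = p.2
    rw [this, hF.one]
  · refine Prod.ext (hR.mul g hg h hh _) ?_
    have : kk R (g * h) p.1 = kk R g (R.a h p.1) * kk R h p.1 := by
      rw [kk, kk, kk, hR.mul g hg h hh]; group
    change (C.can E).act (kk R (g * h) p.1) p.2 =
      (C.can E).act (kk R g (R.a h p.1)) ((C.can E).act (kk R h p.1) p.2)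
    rw [this, hF.mul _ (kk_mem hC hK hR hg _).1 _ (kk_mem hC hK hR hh _).1]
  · exact hF.inv _ (kk_mem hC hK hR hg _).1 _
  · exact (hF.det _ (kk_mem hC hK hR hg _).1 _).trans (by rw [(kk_mem hC hK hR hg _).2]; rfl)
  · exact ⟨smul_ne (hF.ne p.2 hp).1, smul_ne (hF.ne p.2 hp).2⟩
  · obtain ⟨h1, h2⟩ := hF.eq _ (kk_mem hC hK hR hg p.1).1 p.2 hp
    have e : ∀ y : Ω, R.x (R.a g p.1) • kk R g p.1 • y = g • R.x p.1 • y := fun y => by
      rw [kk, smul_smul, smul_smul]; congr 1; group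
    constructor
    · change (R.x (R.a g p.1) • (C.can E).r ((C.can E).act (kk R g p.1) p.2)) ^ C.N =
        g • (R.x p.1 • (C.can E).r p.2) ^ C.N
      rw [← smul_pow', ← smul_pow', h1, e]
    · change (R.x (R.a g p.1) • (C.can E).r' ((C.can E).act (kk R g p.1) p.2)) ^ C.N =
        g • (R.x p.1 • (C.can E).r' p.2) ^ C.N
      rw [← smul_pow', ← smul_pow', h2, e]
  · obtain ⟨S, hS⟩ := hF.sm
    obtain ⟨S', hS'⟩ := hR.sm
    refine ⟨S' ∪ Finset.univ.biUnion fun t => S.image (R.x t • ·), fun n hn h p hp => ?_⟩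
    have h1 := hS' 1 C.H.one_mem n hn fun s hs => h s (by simp [hs])
    rw [one_mul] at h1
    have h2 : R.a n p.1 = p.1 := by rw [h1, hR.one]
    refine Prod.ext h2 (hS _ (kk_mem hC hK hR hn _).1 (fun s hs => ?_) _ hp)
    have h3 := h (R.x p.1 • s) (Finset.mem_union_right _
      (Finset.mem_biUnion.2 ⟨p.1, Finset.mem_univ _, Finset.mem_image_of_mem _ hs⟩))
    rw [kk, h2, mul_smul, mul_smul, h3, inv_smul_smul]

theorem FF_im (hE : C.Inv E) : (FF R E).im = R.cor E := by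
  rw [Fam.im, Finsupp.mapDomain, sum_FF, Crs.cor]
  refine Finset.sum_congr rfl fun t _ => Finset.sum_congr rfl fun i hi => ?_
  obtain ⟨⟨-, a2⟩, -, a4⟩ := hE.2 i (Finsupp.mem_support_iff.1 hi)
  simp only [FF, Cx.can, ← smul_pow', rtN_spec a2, rtN_spec a4]

theorem kc_FF (hC : C.Ok) (hK : C.Nm K) (hR : R.Ok C K) (hE : C.Inv E)
    {ρ : Ω × Ω × (ZMod C.M)ˣ → Ω} (hρ : Rt (C.can E) ρ) {g : G} (hg : g ∈ C.H) (t : T)
    {i : Ω × Ω × (ZMod C.M)ˣ} (hi : E i ≠ 0) :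
    (FF R E).kc (fun p => R.x p.1 • ρ p.2) g (t, i) = (C.can E).kc ρ (R.h g t) i := by
  have h1 := kc_spec hC (can_ok hC E hE).1 hρ (h_mem hC hK hR hg t).1 hi
  have h2 : R.x t • zp C ((C.can E).kc ρ (R.h g t) i) = zp C ((C.can E).kc ρ (R.h g t) i) := by
    rw [zp, smul_pow', hR.ze]
  rw [← dlo_zp hC ((C.can E).kc ρ (R.h g t) i), ← h2, h1, smul_div₀', smul_smul]
  change dlo C.ze C.N (g • R.x (R.a g⁻¹ t) • ρ ((C.can E).act (kk R g⁻¹ t) i) / R.x t • ρ i) = _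
  rw [kk_inv, smul_smul]
  congr 3
  rw [Crs.h]; group

theorem FF_f (hC : C.Ok) (hK : C.Nm K) (hR : R.Ok C K) (hE : C.Inv E) {g h : G} (hg : g ∈ C.H)
    (hh : h ∈ C.H) : (FF R E).f g h = R.T2 (C.can E).f g h := by
  have hF := (can_ok hC E hE).1
  funext d
  rw [Fam.f, sum_FF, Crs.T2, Finset.sum_apply]
  refine Finset.sum_congr rfl fun t _ => Finset.sum_congr rfl fun i hi => ?_
  have hi' := Finsupp.mem_support_iff.1 hi
  have h1 := kc_FF hC hK hR hE (rt_r hF) hg t hi'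
  have h2 := kc_FF hC hK hR hE (rt_r' hF) hh (R.a g⁻¹ t)
    (m_act hF (h_mem hC hK hR hg t).1 (i := i) hi')
  have h3 : (FF R E).act g⁻¹ (t, i) = (R.a g⁻¹ t, (C.can E).act (R.h g t)⁻¹ i) := by
    rw [← kk_inv]; rfl
  dsimp only
  rw [h3, ← h1, ← h2, (h_mem hC hK hR hg t).2]
  rfl

end

end TTRF

open TTRF in
theorem t_TRF : TRF := by
  intro G Ω _ _ _ C K T _ R hC hK hR E hE
  have hF := FF_ok hC hK hR hE
  have h1 := TGEN.inv_im hF
  obtain ⟨β, ⟨S, hS⟩, h2⟩ := TGEN.eqv hC hF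
  rw [FF_im hE] at h1 h2
  refine ⟨h1, fun g => -β g, ⟨S, fun g hg n hn h => congrArg Neg.neg (hS g hg n hn h)⟩,
    fun g hg h hh => ?_⟩
  rw [← FF_f hC hK hR hE hg hh, ← neg_sub, h2 g hg h hh]
  funext d
  simp only [Cx.d1, Cx.ac, Pi.neg_apply, Pi.add_apply, Pi.sub_apply]
  ring

end Pool.Agent.P.MP_9c97e9_nt.KT
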