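import Pool.Agent.P.MP_9c97e9_nt.KT.IfU

/-! Transformation of the units. -/

namespace Pool.Agent.P.MP_9c97e9_nt.KT

open MP_8b7eba_nt.Mod (M2 G0)
open MP_29cb78_nt.E (ee th0)
open MP_29cb78_nt.E.Th

namespace TUT

theorem quot {c p p' n₁ n₂ d₁ d₂ f₁ f₂ f₃ f₄ : ℂ} (hc : c ≠ 0) (m : ℤ)
    (h : p' + f₁ + f₂ = p + f₃ + f₄ + m) :
    ee p' * (c * ee f₁ * n₁ * (c * ee f₂ * n₂)) / (c * ee f₃ * d₁ * (c * ee f₄ * d₂)) =
      ee p * (n₁ * n₂) / (d₁ * d₂) := by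
  have e := congrArg ee h
  rw [ee_add_int, ee_add, ee_add, ee_add, ee_add] at e
  rw [← mul_div_mul_left (ee p * (n₁ * n₂)) _
    (mul_ne_zero (mul_ne_zero hc (ee_ne f₃)) (mul_ne_zero hc (ee_ne f₄)))]
  congr 1
  · linear_combination c ^ 2 * n₁ * n₂ * e
  · ring

theorem shift {τ : ℂ} (h : 0 < τ.im) (x : ℂ) (n m : ℤ) :
    th0 (x + n * τ + m) τ = 1 * ee (n / 2 - n * x - n * (n - 1) * τ / 2) * th0 x τ := by
  have k : ∀ n : ℂ, ee (-((n + 1) / 2 - (n + 1) * x - (n + 1) * (n + 1 - 1) * τ / 2)) *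
      th0 (x + (n + 1) * τ) τ = ee (-(n / 2 - n * x - n * (n - 1) * τ / 2)) * th0 (x + n * τ) τ :=
    fun n => by
      rw [add_one_mul n τ, ← add_assoc, th0_tau h, ← neg_one_mul (ee _), ← ee_half, ← ee_add,
        ← mul_assoc, ← ee_add]
      congr 2
      ring
  have k2 : ee (-(n / 2 - n * x - n * (n - 1) * τ / 2)) * th0 (x + n * τ) τ = th0 x τ := by
    induction n using Int.induction_on with
    | zero => simp [ee_zero]
    | succ n ih => rw [← ih, ← k ((n : ℤ) : ℂ), Int.cast_add, Int.cast_one]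
    | pred n ih => rw [← ih, ← k]; push_cast; simp only [sub_add_cancel]
  rw [th0_int h, ← k2, ← mul_assoc, one_mul, mul_comm (ee _) (ee _), ee_neg_mul, one_mul]

theorem per {τ : ℂ} (h : 0 < τ.im) (b c e m n : ℤ) (r₁ r₂ : ℂ) :
    uF (b / 15 + c) e (r₁ + m) (r₂ + n) τ = uF (b / 15) 0 r₁ r₂ τ := by
  have k := fun (s : ℤ) => shift h (r₁ * τ + r₂ + s * (b / 15 * τ + 0)) (m + s * c) (n + s * e)
  have k1 := k 1
  have k2 := k (-1)
  have k3 := k 4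
  have k4 := k (-4)
  unfold uF
  rw [show (r₁ + m) * τ + (r₂ + n) + ((b / 15 + c) * τ + e) = _ from ?_, k1,
    show (r₁ + m) * τ + (r₂ + n) - ((b / 15 + c) * τ + e) = _ from ?_, k2,
    show (r₁ + m) * τ + (r₂ + n) + 4 * ((b / 15 + c) * τ + e) = _ from ?_, k3,
    show (r₁ + m) * τ + (r₂ + n) - 4 * ((b / 15 + c) * τ + e) = _ from ?_, k4,
    quot (p := -15 * (b / 15) * (b / 15 * τ + 0)) one_ne_zero (-(b * e) - 15 * c * e)]
  · push_cast
    simp only [one_mul, neg_mul, ← sub_eq_add_neg]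
  all_goals push_cast; ring

theorem trf (hTHX : THX) (g : M2) (s₁ s₂ r₁ r₂ τ : ℂ) (hg : g.det = 1) (h : 0 < τ.im) :
    uF s₁ s₂ r₁ r₂ (g.act τ) = uF (s₁ * g.a + s₂ * g.c) (s₁ * g.b + s₂ * g.d)
      (r₁ * g.a + r₂ * g.c) (r₁ * g.b + r₂ * g.d) τ := by
  obtain ⟨c, hc, k⟩ := hTHX g hg τ h
  have hj := M2.j_ne (g := g) (by omega) h
  have k1 : ∀ w, th0 (w / g.j τ) (g.act τ) =
      c * ee (w / g.j τ / 2 + g.c * w ^ 2 / (2 * g.j τ) + -w / 2) * th0 w τ := fun w => by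
    have := k w
    rw [vth, vth, neg_div] at this
    rw [ee_add, ee_add]
    linear_combination ee (w / g.j τ / 2) * this - th0 (w / g.j τ) (g.act τ) * ee_neg_mul _
  have k2 : ∀ x y : ℂ, x * g.act τ + y =
      ((x * g.a + y * g.c) * τ + (x * g.b + y * g.d)) / g.j τ := fun x y => by
    rw [M2.act_eq, eq_div_iff hj, add_mul, mul_assoc, div_mul_cancel₀ _ hj, M2.j]
    ring
  have hd : (g.a * g.d - g.b * g.c : ℂ) = 1 := by exact_mod_cast hg
  unfold uF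
  rw [k2, k2, ← mul_div_assoc 4, ← add_div, ← add_div, ← sub_div, ← sub_div, k1, k1, k1, k1]
  refine quot hc 0 ?_
  have e : s₁ + g.c * ((s₁ * g.a + s₂ * g.c) * τ + (s₁ * g.b + s₂ * g.d)) =
      (s₁ * g.a + s₂ * g.c) * g.j τ := by
    rw [M2.j]; linear_combination -s₁ * hd
  generalize (s₁ * g.a + s₂ * g.c) * τ + (s₁ * g.b + s₂ * g.d) = T at e ⊢
  linear_combination -15 * T / g.j τ * e - 15 * T * (s₁ * g.a + s₂ * g.c) * mul_inv_cancel₀ hj

end TUT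

open TUT

theorem t_UT (hTHX : THX) : UT := by
  have h1 : ∀ (b : ℤ) (r₁ r₂ : ℚ) (z : ℂ), uf b r₁ r₂ z = uF (b / 15) 0 r₁ r₂ (15 * z) :=
    fun b r₁ r₂ z => by
      unfold uf uF
      ring_nf
  refine ⟨h1, trf hTHX, fun b r₁ r₂ z hz => ?_⟩
  have hz' : 0 < (15 * z).im := by simpa using hz
  refine ⟨fun m n c => ?_, fun γ hγ => ?_⟩
  · rw [h1, h1, ← per hz' b c 0 m n]
    push_cast
    congr 1
    ring
  · obtain ⟨a, b', _, d⟩ := γ
    obtain ⟨h2, c, rfl⟩ := hγ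
    have h3 : 15 * M2.act ⟨a, b', 15 * c, d⟩ z = M2.act ⟨a, 15 * b', c, d⟩ (15 * z) := by
      simp only [M2.act_eq, M2.j]
      push_cast
      ring
    rw [h1, h1, h3, trf hTHX _ _ _ _ _ _ (by simp only [M2.det] at h2 ⊢; linear_combination h2) hz',
      ← per hz' (b * a) 0 (b * b') 0 0]
    push_cast
    congr 1 <;> ring

end Pool.Agent.P.MP_9c97e9_nt.KT
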