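import Pool.Agent.P.MP_9c97e9_nt.KT.IfU
import Pool.Agent.P.MP_9c97e9_nt.KT.TBAS

/-! Reduction of 2-adic integers and the pairing with the generic cocycle. -/

namespace Pool.Agent.P.MP_9c97e9_nt.KT

open scoped Matrix
open MP_8b7eba_nt.R2
open MP_8b7eba_nt.Mod (M2 G0 nP nM)

namespace TZQ

variable {k : ℕ}

theorem zq_coe (x : ℤ_[2]) : zq k x = PadicInt.toZModPow k x := dif_pos x.2

theorem zq_add {x y : ℚ_[2]} (hx : ‖x‖ ≤ 1) (hy : ‖y‖ ≤ 1) : zq k (x + y) = zq k x + zq k y := by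
  obtain ⟨x, rfl⟩ : ∃ a : ℤ_[2], a = x := ⟨⟨x, hx⟩, rfl⟩
  obtain ⟨y, rfl⟩ : ∃ a : ℤ_[2], a = y := ⟨⟨y, hy⟩, rfl⟩
  rw [← PadicInt.coe_add, zq_coe, zq_coe, zq_coe, map_add]

theorem zq_mul {x y : ℚ_[2]} (hx : ‖x‖ ≤ 1) (hy : ‖y‖ ≤ 1) : zq k (x * y) = zq k x * zq k y := by
  obtain ⟨x, rfl⟩ : ∃ a : ℤ_[2], a = x := ⟨⟨x, hx⟩, rfl⟩
  obtain ⟨y, rfl⟩ : ∃ a : ℤ_[2], a = y := ⟨⟨y, hy⟩, rfl⟩
  rw [← PadicInt.coe_mul, zq_coe, zq_coe, zq_coe, map_mul]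

theorem zq_iff {x y : ℚ_[2]} (hx : ‖x‖ ≤ 1) (hy : ‖y‖ ≤ 1) :
    zq k x = zq k y ↔ ‖x - y‖ ≤ (2 ^ k)⁻¹ := by
  obtain ⟨x, rfl⟩ : ∃ a : ℤ_[2], a = x := ⟨⟨x, hx⟩, rfl⟩
  obtain ⟨y, rfl⟩ : ∃ a : ℤ_[2], a = y := ⟨⟨y, hy⟩, rfl⟩
  rw [zq_coe, zq_coe, ← sub_eq_zero, ← map_sub, ← RingHom.mem_ker, PadicInt.ker_toZModPow,
    ← PadicInt.norm_le_pow_iff_mem_span_pow, ← PadicInt.coe_sub, PadicInt.padic_norm_e_of_padicInt,
    zpow_neg, zpow_natCast, Nat.cast_ofNat]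

theorem zq_int (n : ℤ) : zq k n = n := by
  rw [← PadicInt.coe_intCast, zq_coe, map_intCast]

theorem nadd {X : Type} [SeminormedAddCommGroup X] [IsUltrametricDist X] {a b : X} {r : ℝ}
    (ha : ‖a‖ ≤ r) (hb : ‖b‖ ≤ r) : ‖a + b‖ ≤ r :=
  (IsUltrametricDist.norm_add_le_max a b).trans (max_le ha hb)

theorem nsub {X : Type} [SeminormedAddCommGroup X] [IsUltrametricDist X] {a b : X} {r : ℝ}
    (ha : ‖a‖ ≤ r) (hb : ‖b‖ ≤ r) : ‖a - b‖ ≤ r := by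
  rw [sub_eq_add_neg]; exact nadd ha (by rwa [norm_neg])

theorem nmul {a b : ℚ_[2]} {r : ℝ} (ha : ‖a‖ ≤ 1) (hb : ‖b‖ ≤ r) : ‖a * b‖ ≤ r := by
  rw [norm_mul]; exact (mul_le_of_le_one_left (norm_nonneg _) ha).trans hb

theorem ndt {a b : V2} {r : ℝ} (ha : ‖a‖ ≤ 1) (hb : ‖b‖ ≤ r) : ‖dt a b‖ ≤ r :=
  nsub (nmul ((norm_le_pi_norm a 0).trans ha) ((norm_le_pi_norm b 1).trans hb))
    (nmul ((norm_le_pi_norm a 1).trans ha) ((norm_le_pi_norm b 0).trans hb))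

theorem nrho (g : GQ) {b : V2} {r : ℝ} (hb : ‖b‖ ≤ r) : ‖T2.rho g *ᵥ b‖ ≤ r := by
  refine (pi_norm_le_iff_of_nonneg ((norm_nonneg _).trans hb)).2 fun i => ?_
  rw [Matrix.mulVec, dotProduct, Fin.sum_univ_two]
  exact nadd (nmul (T2.int g i 0) ((norm_le_pi_norm b 0).trans hb))
    (nmul (T2.int g i 1) ((norm_le_pi_norm b 1).trans hb))

theorem nsm {a : ℚ_[2]} {b : V2} {r : ℝ} (ha : ‖a‖ ≤ r) (hb : ‖b‖ ≤ 1) : ‖a • b‖ ≤ r := by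
  rw [norm_smul]; exact (mul_le_of_le_one_right (norm_nonneg _) hb).trans ha

theorem zd {v a b : V2} (hv : ‖v‖ ≤ 1) (ha : ‖a‖ ≤ 1) (hb : ‖b‖ ≤ 1) (h : ‖a - b‖ ≤ (2 ^ k)⁻¹) :
    zq k (dt v a) = zq k (dt v b) := by
  rw [zq_iff (ndt hv ha) (ndt hv hb), show dt v a - dt v b = dt v (a - b) by
    simp only [dt, Pi.sub_apply]; ring]
  exact ndt hv h

theorem dt_rho (g : GQ) (u v : V2) : dt (T2.rho g *ᵥ u) (T2.rho g *ᵥ v) = cq g * dt u v := by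
  rw [← T2.det, Matrix.det_fin_two]
  simp only [dt, Matrix.mulVec, dotProduct, Fin.sum_univ_two]
  ring

theorem cog (hCOK : COK) {u : AL → V2} (U : IsU k u) {γ h : AL} (hγ : γ ∈ geo) (hh : h ∈ GG) :
    ‖u (γ * h) - u γ - u h‖ ≤ (2 ^ k)⁻¹ := by
  obtain ⟨h1, h2⟩ := (hCOK.2.1 γ).1 hγ
  have h3 := U.co γ h1 h hh
  rwa [h2, map_one, Matrix.one_mulVec] at h3

theorem conj_mem (hCOK : COK) {γ g : AL} (hγ : γ ∈ geo) (hg : g ∈ GG) : g * γ * g⁻¹ ∈ geo := by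
  obtain ⟨h1, h2⟩ := (hCOK.2.1 γ).1 hγ
  refine (hCOK.2.1 _).2 ⟨GG.mul_mem (GG.mul_mem hg h1) (GG.inv_mem hg), ?_⟩
  rw [hCOK.1 _ (GG.mul_mem hg h1) _ (GG.inv_mem hg), hCOK.1 _ hg _ h1, h2, mul_one,
    ← hCOK.1 _ hg _ (GG.inv_mem hg), mul_inv_cancel]
  exact ((hCOK.2.1 1).1 geo.one_mem).2

theorem conj (hCOK : COK) {u : AL → V2} (U : IsU k u) {γ g : AL} (hγ : γ ∈ geo) (hg : g ∈ GG) :
    ‖u (g * γ * g⁻¹) - T2.rho (cg g) *ᵥ u γ‖ ≤ (2 ^ k)⁻¹ := by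
  have h1 := cog hCOK U (conj_mem hCOK hγ hg) hg
  rw [inv_mul_cancel_right] at h1
  have h2 := nsub (U.co g hg γ ((hCOK.2.1 γ).1 hγ).1) h1
  refine le_of_eq_of_le (congrArg _ ?_) h2
  abel

theorem lat (hMFAC : MFAC) (U : IsU k (uN k)) : ∃ e₁ e₂ : V2, ‖e₁‖ ≤ 1 ∧ ‖e₂‖ ≤ 1 ∧
    ‖dt e₁ e₂‖ = 1 ∧ ∀ v, ‖v‖ ≤ 1 → ∀ γ, G0 γ → pu k v (tr γ) =
      (nP γ.a γ.c / 4) • zq k (dt v e₁) + (nM γ.a γ.c / 2) • zq k (dt v e₂) := by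
  obtain ⟨e₁, e₂, h1, h2, h3, h4⟩ := U.lat
  refine ⟨e₁, e₂, h1, h2, h3, fun v hv γ hγ => ?_⟩
  obtain ⟨⟨p, hp⟩, m, hm⟩ := hMFAC.2.2.1 γ hγ
  have h5 := h4 γ hγ
  rw [hp, hm] at h5 ⊢
  rw [show ((4 * p : ℤ) : ℚ_[2]) / 4 = p by push_cast; ring,
    show ((2 * m : ℤ) : ℚ_[2]) / 2 = m by push_cast; ring] at h5
  have n1 := Padic.norm_int_le_one (p := 2) p
  have n2 := Padic.norm_int_le_one (p := 2) m
  rw [pu, zd hv (U.int _) (nadd (nsm n1 h1) (nsm n2 h2)) h5,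
    show dt v ((p : ℚ_[2]) • e₁ + (m : ℚ_[2]) • e₂) = p * dt v e₁ + m * dt v e₂ by
      simp only [dt, Pi.add_apply, Pi.smul_apply, smul_eq_mul]; ring,
    zq_add (nmul n1 (ndt hv h1)) (nmul n2 (ndt hv h2)), zq_mul n1 (ndt hv h1),
    zq_mul n2 (ndt hv h2), zq_int, zq_int, Int.mul_ediv_cancel_left _ (by norm_num),
    Int.mul_ediv_cancel_left _ (by norm_num), zsmul_eq_mul, zsmul_eq_mul]

theorem pu_add (U : IsU k (uN k)) {v v' : V2} (hv : ‖v‖ ≤ 1) (hv' : ‖v'‖ ≤ 1) (g : AL) :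
    pu k (v + v') g = pu k v g + pu k v' g := by
  rw [pu, pu, pu, ← zq_add (ndt hv (U.int g)) (ndt hv' (U.int g))]
  congr 1
  simp only [dt, Pi.add_apply]; ring

end TZQ

open TZQ in
theorem t_ZQ (hTR : TR) (hPRX : PRX) (hCOK : COK) (hMFAC : MFAC) : ZQ := by
  intro k
  have U := hPRX k
  obtain ⟨e₁, e₂, h1, h2, h3, h4⟩ := lat hMFAC U
  have hD : dt e₁ e₂ ≠ 0 := fun h => by rw [h, norm_zero] at h3; exact zero_ne_one h3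
  refine ⟨fun x y hx hy => ⟨zq_add hx hy, zq_mul hx hy, zq_iff hx hy⟩, zq_int,
    fun M g hM hd => ?_, fun v hv => ⟨⟨?_, fun g hg h hh => ?_⟩, fun h0 => ?_, ⟨_, _, h4 v hv⟩,
      fun a ha g => ?_, fun v' hv' g => ⟨pu_add U hv hv' g, ?_⟩,
      fun g hg γ hγ => ⟨?_, fun h hh => ?_⟩⟩, fun a b => ?_⟩
  · rw [cq, zq_coe, red, eq_comm, ← map_natCast (PadicInt.toZModPow k), ← sub_eq_zero, ← map_sub,
      ← RingHom.mem_ker, PadicInt.ker_toZModPow, Ideal.mem_span_singleton]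
    obtain ⟨z, hz⟩ := HasEnoughRootsOfUnity.exists_primitiveRoot Om (2 ^ k)
    exact a_EC.2.2.2.1 g k _ z hz (t_BAS.2.1 M hM g z ((hz.pow_eq_one_iff_dvd M).2 hd))
  · obtain ⟨S, hS⟩ := U.sm
    exact ⟨S, fun g hg n hn hf => by rw [pu, pu, hS g hg.1 n hn.1 hf]⟩
  · rw [pu, pu, pu, ← zq_add (ndt hv (U.int g)) (ndt hv (U.int h)),
      zd hv (U.int _) (nadd (U.int g) (U.int h)) (by rw [← sub_sub]; exact cog hCOK U hg hh.1)]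
    congr 1
    simp only [dt, Pi.add_apply]; ring
  · obtain ⟨⟨γ, g1, p1, m1⟩, ⟨δ, g2, p2, m2⟩, -⟩ := hMFAC.2.2.2
    have a1 := h4 v hv γ g1
    have a2 := h4 v hv δ g2
    rw [h0 _ (hTR.2.2 γ g1), p1, m1] at a1
    rw [h0 _ (hTR.2.2 δ g2), p2, m2] at a2
    have z0 : zq k 0 = 0 := by simpa using zq_int (k := k) 0
    have b1 : zq k (dt v e₁) = zq k 0 := by rw [z0]; simpa using a1.symm
    have b2 : zq k (dt v e₂) = zq k 0 := by rw [z0]; simpa using a2.symm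
    rw [zq_iff (ndt hv h1) (by simp), sub_zero] at b1
    rw [zq_iff (ndt hv h2) (by simp), sub_zero] at b2
    have c := nsub (nsm b2 h1) (nsm b1 h2)
    rwa [show dt v e₂ • e₁ - dt v e₁ • e₂ = dt e₁ e₂ • v by
      funext i; fin_cases i <;> simp [dt] <;> ring, norm_smul, h3, one_mul] at c
  · rw [pu, pu, ← zq_mul ha (ndt hv (U.int g))]
    congr 1
    simp only [dt, Pi.smul_apply, smul_eq_mul]; ring
  · rw [eq_sub_iff_add_eq, ← pu_add U (nsub hv hv') hv', sub_add_cancel]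
  · have m1 : g⁻¹ * γ * g ∈ geo := by simpa using conj_mem hCOK hγ (GG.inv_mem hg)
    have c := conj hCOK U m1 hg
    rw [show g * (g⁻¹ * γ * g) * g⁻¹ = γ by group] at c
    rw [pu, pu, zd (nrho _ hv) (U.int _) (nrho _ (U.int _)) c, dt_rho,
      zq_mul (x := cq (cg g)) (PadicInt.norm_le_one _) (ndt hv (U.int _))]
  · refine zd hv (U.int _) (nrho _ (nsub (U.int _) (U.int _))) ?_
    refine le_of_eq_of_le (congrArg _ ?_)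
      (nsub (conj hCOK U hγ hg) (nrho (cg g) (cog hCOK U hγ hh)))
    simp only [Matrix.mulVec_sub]
    abel
  · obtain ⟨A, rfl⟩ := ZMod.intCast_surjective a
    obtain ⟨B, rfl⟩ := ZMod.intCast_surjective b
    have n : ‖(dt e₁ e₂)⁻¹ • ((B : ℚ_[2]) • e₁ - (A : ℚ_[2]) • e₂)‖ ≤ 1 :=
      nsm (by rw [norm_inv, h3, inv_one]) (nsub (nsm (Padic.norm_int_le_one B) h1)
        (nsm (Padic.norm_int_le_one A) h2))
    have d : ∀ x e : V2, dt ((dt e₁ e₂)⁻¹ • x) e = (dt e₁ e₂)⁻¹ * dt x e := fun x e => by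
      generalize (dt e₁ e₂)⁻¹ = c
      simp only [dt, Pi.smul_apply, smul_eq_mul]; ring
    refine ⟨_, n, fun γ hγ => ?_⟩
    rw [h4 _ n γ hγ, d, d, show dt ((B : ℚ_[2]) • e₁ - (A : ℚ_[2]) • e₂) e₁ = dt e₁ e₂ * A by
      simp only [dt, Pi.sub_apply, Pi.smul_apply, smul_eq_mul]; ring,
      show dt ((B : ℚ_[2]) • e₁ - (A : ℚ_[2]) • e₂) e₂ = dt e₁ e₂ * B by
      simp only [dt, Pi.sub_apply, Pi.smul_apply, smul_eq_mul]; ring,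
      inv_mul_cancel_left₀ hD, inv_mul_cancel_left₀ hD, zq_int, zq_int]

end Pool.Agent.P.MP_9c97e9_nt.KT
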