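import Pool.Agent.P.MP_9c97e9_nt.KT.TTHX
import Pool.Agent.P.MP_9c97e9_nt.KT.TUT
import Pool.Agent.P.MP_9c97e9_nt.KT.TUHM
import Pool.Agent.P.MP_9c97e9_nt.KT.TUD
import Pool.Agent.P.MP_9c97e9_nt.KT.TQEP
import Pool.Agent.P.MP_9c97e9_nt.KT.TQSUB
import Pool.Agent.P.MP_9c97e9_nt.KT.TTQ
import Pool.Agent.P.MP_9c97e9_nt.KT.TUQ0
import Pool.Agent.P.MP_9c97e9_nt.KT.TUQ
import Pool.Agent.P.MP_9c97e9_nt.KT.TUQF
import Pool.Agent.P.MP_9c97e9_nt.KT.TEXA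
import Pool.Agent.P.MP_9c97e9_nt.KT.TEINV
import Pool.Agent.P.MP_9c97e9_nt.KT.TLNX
import Pool.Agent.P.MP_9c97e9_nt.KT.TNA
import Pool.Agent.P.MP_9c97e9_nt.KT.TNLP
import Pool.Agent.P.MP_9c97e9_nt.KT.TNL
import Pool.Agent.P.MP_9c97e9_nt.KT.TNF
import Pool.Agent.P.MP_9c97e9_nt.KT.TNE
import Pool.Agent.P.MP_9c97e9_nt.KT.TVALX
import Pool.Agent.P.MP_9c97e9_nt.KT.TLING
import Pool.Agent.P.MP_9c97e9_nt.KT.TKC
import Pool.Agent.P.MP_9c97e9_nt.KT.TKCR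
import Pool.Agent.P.MP_9c97e9_nt.KT.TTRF
import Pool.Agent.P.MP_9c97e9_nt.KT.TBIM
import Pool.Agent.P.MP_9c97e9_nt.KT.TMREP
import Pool.Agent.P.MP_9c97e9_nt.KT.TMCOM
import Pool.Agent.P.MP_9c97e9_nt.KT.TMFAC
import Pool.Agent.P.MP_9c97e9_nt.KT.TMHP
import Pool.Agent.P.MP_9c97e9_nt.KT.TMEIG
import Pool.Agent.P.MP_9c97e9_nt.KT.TCOK
import Pool.Agent.P.MP_9c97e9_nt.KT.TZQ
import Pool.Agent.P.MP_9c97e9_nt.KT.TCUSP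
import Pool.Agent.P.MP_9c97e9_nt.KT.TEVAL
import Pool.Agent.P.MP_9c97e9_nt.KT.TLAB
import Pool.Agent.P.MP_9c97e9_nt.KT.TZEX
import Pool.Agent.P.MP_9c97e9_nt.KT.TZTK
import Pool.Agent.P.MP_9c97e9_nt.KT.TNREL
import Pool.Agent.P.MP_9c97e9_nt.KT.TTWA
import Pool.Agent.P.MP_9c97e9_nt.KT.TTWB
import Pool.Agent.P.MP_9c97e9_nt.KT.TGX

/-! Assembly of the chapters on modular units and on the cohomology of their symbols. -/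

namespace Pool.Agent.P.MP_9c97e9_nt.KT

theorem a_THX : THX := t_THX
theorem a_UT : UT := t_UT a_THX
theorem a_UHM : UHM := t_UHM a_UT
theorem a_UQ0 : UQ0 := t_UQ0 t_QEP (t_TQ t_QEP)
theorem a_UQ : UQ := t_UQ a_UT a_UQ0
theorem a_KCU : KCU := t_KCU t_LING
theorem a_KCR : KCR := t_KCR t_LING a_KCU

theorem b_UQF (hFB : FB) : UQF := t_UQF (t_QSUB hFB) a_UT a_UQ0

theorem b_EXA (hFB : FB) (hTR : TR) (hDENSE : DENSE) (hGALX : GALX) : EXA :=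
  t_EXA hFB hTR hDENSE hGALX a_UT a_UHM (b_UQF hFB)

theorem b_VALX (hFB : FB) (hTR : TR) (hDENSE : DENSE) (hGALX : GALX) (hCONJ : CONJ) (hEV2 : EV2) :
    VALX :=
  t_VALX hFB hTR hCONJ hEV2 (t_QSUB hFB) a_UT a_UHM (b_UQF hFB) (b_EXA hFB hTR hDENSE hGALX)

theorem b_EINV (hFB : FB) (hTR : TR) (hDENSE : DENSE) (hHEC : HEC) (hUNITS : UNITS)
    (hGALX : GALX) : EINV :=
  t_EINV hUNITS t_LING t_TRF (t_COK hFB hTR hDENSE hHEC) a_UT (b_EXA hFB hTR hDENSE hGALX)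

theorem b_GX (hFB : FB) (hTR : TR) (hDENSE : DENSE) (hHEC : HEC) (hSECX : SECX) (hUNITS : UNITS)
    (hGALX : GALX) (hPRX : PRX) (hTRIV : TRIV) (hGSX : GSX) : GX := by
  have hCOK := t_COK hFB hTR hDENSE hHEC
  have hEXA := b_EXA hFB hTR hDENSE hGALX
  have hEINV := b_EINV hFB hTR hDENSE hHEC hUNITS hGALX
  have hZQ := t_ZQ hTR hPRX hCOK t_MFAC
  have hCUSP := t_CUSP a_KCR hCOK hZQ t_MREP (t_MCOM t_MREP) t_MFAC (t_MHP t_MREP) (t_MEIG t_MREP)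
  have hNE := t_NE t_LING t_TRF hCOK t_LAB hEINV
    (t_NA hFB t_BIM hCOK a_UT t_UD hEXA hEINV hUNITS)
    (t_NL t_BIM hCOK hEXA hEINV t_LNX (t_NLP hFB hTR a_UT t_UD hEXA) hUNITS) (t_NF hEINV t_LNX)
  exact t_GX (t_ZEX hSECX hTRIV a_KCU hCOK hCUSP hEINV)
    (t_ZTK hSECX t_LING a_KCU a_KCR t_TRF hCOK hZQ (t_EVAL hFB hUNITS hCOK) hEINV)
    (t_NREL t_LING a_KCU a_KCR hCOK hZQ hCUSP t_LAB hSECX hNE) (t_TWA hZQ hGSX) (t_TWB hGSX)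

end Pool.Agent.P.MP_9c97e9_nt.KT
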