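import Pool.Agent.P.MP_9c97e9_nt.KT.IfF2

/-! The Taylor coefficients at an algebraic point are algebraic. -/

namespace Pool.Agent.P.MP_9c97e9_nt.KT

open MP_8b7eba_nt.R2

theorem t_ALG (hSEC0 : SEC0) (hNORM : NORM) (hAUT : AUT) : ALG := by
  rintro τ x y ⟨hτ, hx, hy⟩ f A hA n
  refine hAUT.2.2 _ x y ?_
  have h1 := ((hNORM.2.2.2.2.1 f).image fun b : LL => jt τ b).preimage fs_inj.injOn
  refine (h1.image (PowerSeries.coeff n)).subset ?_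
  rintro _ ⟨s, sx, sy, rfl⟩
  obtain ⟨g, hg, h2, -⟩ := hSEC0 s τ τ hτ hτ (hx ▸ sx) (hy ▸ sy)
  refine ⟨PowerSeries.map (s : ℂ →+* ℂ) A, ⟨g • f, ⟨g, hg, rfl⟩, ?_⟩, PowerSeries.coeff_map _ _ _⟩
  rw [← sa_fs, ← hA]
  exact h2 f

end Pool.Agent.P.MP_9c97e9_nt.KT
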