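import Pool.Agent.P.MP_9c97e9_nt.KT.IfF1

namespace Pool.Agent.P.MP_9c97e9_nt.KT

open MP_8b7eba_nt.R2
open MP_8b7eba_nt.R1 (Aut Aut_basis)

namespace TAUT

theorem shift {F : Type} [Field F] [Algebra F ℂ] {c : ℂ} (hc : Transcendental F c) (n : F) :
    ∃ s : Aut, (∀ a, s (algebraMap F ℂ a) = algebraMap F ℂ a) ∧ s c = c + algebraMap F ℂ n := by
  obtain ⟨t, hxt, ht⟩ := exists_isTranscendenceBasis_superset (R := F) (s := {c})
    (algebraicIndependent_unique_type_iff.2 hc)
  let f : F → MvPolynomial t F →ₐ[F] MvPolynomial t F := fun m =>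
    MvPolynomial.aeval fun i => MvPolynomial.X i + MvPolynomial.C m
  have h1 : (f n).comp (f (-n)) = AlgHom.id F _ := by
    ext i : 1
    simp [f]
  have h2 : (f (-n)).comp (f n) = AlgHom.id F _ := by
    ext i : 1
    simp [f]
  obtain ⟨σ, hσ⟩ := Aut_basis ht (AlgEquiv.ofAlgHom (f n) (f (-n)) h1 h2).toRingEquiv
  exact ⟨σ, fun a => by simpa [f] using hσ (MvPolynomial.C a),
    by simpa [f] using hσ (MvPolynomial.X ⟨c, hxt rfl⟩)⟩

end TAUT

theorem t_AUT : AUT := by
  let _ : Algebra Om ℂ := io.toAlgebra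
  refine ⟨fun σ => ?_, fun s => ?_, fun c x y h => ?_⟩
  · obtain ⟨t, ht⟩ := exists_isTranscendenceBasis Om ℂ
    obtain ⟨s, hs⟩ := Aut_basis ht (MvPolynomial.mapEquiv t σ.toRingEquiv)
    exact ⟨s, fun a => by simpa [RingHom.algebraMap_toAlgebra] using hs (MvPolynomial.C a)⟩
  · exact a_TAU.2.2.2.2.1 ((s : ℂ →+* ℂ).comp io)
  · by_contra hc
    have htr : Transcendental Om c := fun ha => by
      have := minpoly.mem_range_of_degree_eq_one Om c
        (IsAlgClosed.degree_eq_one_of_irreducible Om (minpoly.irreducible ha.isIntegral))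
      exact hc this
    refine Set.infinite_of_injective_forall_mem (f := fun n : ℕ => c + n)
      (fun a b e => by simpa using e) (fun n => ?_) h
    obtain ⟨s, h1, h2⟩ := TAUT.shift htr (n : Om)
    exact ⟨s, h1 x, h1 y, by simpa using h2⟩

end Pool.Agent.P.MP_9c97e9_nt.KT
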