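import Pool.Agent.P.MP_9c97e9_nt.KT.IfF1

/-! Avoiding finitely many hyperplanes. -/

namespace Pool.Agent.P.MP_9c97e9_nt.KT

open Polynomial

theorem t_AVD : AVD := by
  intro Ω I _ _ _ T hT h0
  classical
  let e : I → ℕ := fun i => Fintype.equivFin I i
  have he : Function.Injective e := fun i j h => (Fintype.equivFin I).injective (Fin.ext h)
  let p : (I → Ω) → Polynomial Ω := fun t => ∑ i, monomial (e i) (t i)
  have hp : ∀ t ∈ T, p t ≠ 0 := fun t ht h => h0 (by
    have : t = 0 := funext fun j => by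
      have := congrArg (coeff · (e j)) h
      simpa [p, finsetSum_coeff, coeff_monomial, he.eq_iff] using this
    exact this ▸ ht)
  have hf : (⋃ t ∈ T, {x | (p t).IsRoot x}).Finite :=
    hT.biUnion fun t ht => finite_setOfPred_isRoot (hp t ht)
  obtain ⟨_, ⟨n, rfl⟩, hn⟩ :=
    (Set.infinite_range_of_injective (Nat.cast_injective (R := Ω))).exists_notMem_finite hf
  refine ⟨fun i => n ^ e i, fun t ht h => hn (Set.mem_biUnion ht ?_)⟩
  simpa [p, eval_finsetSum, mul_comm] using h

end Pool.Agent.P.MP_9c97e9_nt.KT
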