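import Pool.Agent.P.MP_9c97e9_nt.KT.IfF

/-! The statements which connect the chapters on modular units, cohomology and reciprocity. -/

namespace Pool.Agent.P.MP_9c97e9_nt.KT

open scoped NNReal Matrix
open MP_8b7eba_nt.R2
open MP_8b7eba_nt.Mod (M2 G0 UH xx yy nP nM an)
open MP_8b7eba_nt.R1 (IntR IntM Zb QE y1 ze)
open MP_29cb78_nt.E (ee th0)
open PowerSeries Finset

noncomputable section

/-- roots of unity -/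
def zM (M : ℕ) (a : ℤ) : Om := zo (ze M a)

/-- the odd theta function -/
def vth (w τ : ℂ) : ℂ := ee (-w / 2) * th0 w τ

/-- partial theta products -/
def pS (M : ℕ) (a B : ℤ) (T : ℕ) : Zb⟦X⟧ :=
  ∏ c ∈ range T, (if (15 * M : ℤ) ∣ c - B then 1 - C (ze M a) * X ^ c else 1) *
    if (15 * M : ℤ) ∣ c + B then 1 - C (ze M (-a)) * X ^ c else 1

/-- the constant term of the Eisenstein series of a unit -/
def JJ (M : ℕ) (b i : ℤ) : ℤ :=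
  (15 * i + 4 * M * b) / (15 * M) + (15 * i - 4 * M * b) / (15 * M) -
    (15 * i + M * b) / (15 * M) - (15 * i - M * b) / (15 * M)

/-- Eisenstein series of weight one without the constant term -/
def eis (M : ℕ) (a B : ℤ) : Om⟦X⟧ :=
  PowerSeries.mk fun m => ∑ c ∈ m.divisors,
    ((if (15 * M : ℤ) ∣ c + B then zM M (-a * (m / c : ℕ)) else 0) -
      if (15 * M : ℤ) ∣ c - B then zM M (a * (m / c : ℕ)) else 0)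

/-- the Eisenstein series of a unit -/
def EE (M : ℕ) (b i₁ i₂ : ℤ) : Om⟦X⟧ :=
  C (JJ M b i₁ : Om) + eis M i₂ (15 * i₁ + M * b) + eis M i₂ (15 * i₁ - M * b) -
    eis M i₂ (15 * i₁ + 4 * M * b) - eis M i₂ (15 * i₁ - 4 * M * b)

open Classical in
/-- the form of weight two attached to the symbols of determinant `δ` -/
def gd (M : ℕ) (δ : (ZMod M)ˣ) : Om⟦X⟧ :=
  ∑ i ∈ (Ix M).filter fun i => dI M i = δ,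
    EE M i.1 i.2.1.1 i.2.1.2 * EE M (2 * i.1) i.2.2.1 i.2.2.2

/-- the additive twists of the modular symbols -/
def SSd (M : ℕ) (δ : (ZMod M)ˣ) : Om :=
  ∑ ν ∈ range M, zM M (15 * ν * (δ : ZMod M).val) * nM ν M

/-- the formal logarithm -/
def lamf (q : ℂ_[2]) : ℂ_[2] := ∑' m : ℕ, (an m : ℂ_[2]) / m * q ^ m

/-- the unit root of the twist -/
def Dat.al (D : Dat) : ℂ_[2] := algebraMap ℚ_[2] ℂ_[2] (jacobiSym 2 D.n * al0)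

/-- the logarithms of the local points -/
def muP (α : ℂ_[2]) (K : ℕ) (ζ : ℂ_[2]) : ℂ_[2] :=
  (1 - α) * ∑ j ∈ range K, (α / 2) ^ j * (ζ ^ 2 ^ j - 1)

/-- the weighted sum of the additive twists -/
def Dat.XW (D : Dat) (k : ℕ) (W : (ZMod (2 ^ (k + 2)))ˣ → ℤ) : Om :=
  ∑ᶠ δ : (ZMod (2 ^ (k + 2) * D.n))ˣ, (jacobiSym (δ : ZMod (2 ^ (k + 2) * D.n)).val D.n *
    W (ZMod.unitsMap (Nat.dvd_mul_right _ _) δ) : ℤ) * SSd _ δ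

/-- the Euler system comes from zeta cocycles -/
def Dat.GZ (D : Dat) (l : ℕ) (z : EA) : Prop :=
  ∀ k, ∃ (zt : GQ → (ZMod (2 ^ (k + 2) * D.n))ˣ → V2) (m : (ZMod (2 ^ (k + 2)))ˣ → V2),
    ZT l k _ zt ∧ (∀ ε, ‖m ε‖ ≤ 1) ∧ ∀ g ε, ‖z k (2 ^ (k + 2)) g ε -
      ((2 : ℚ_[2]) • psh (2 ^ (k + 2)) D.n (fun δ =>
        (jacobiSym (δ : ZMod (2 ^ (k + 2) * D.n)).val D.n : ℚ_[2]) • zt g δ) ε +
        (D.rd g *ᵥ m (ε * (cy _ g)⁻¹) - m ε))‖ ≤ (2 ^ k)⁻¹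

end

/-- the Euler system -/
def GX : Prop := ∀ (D : Dat) (l : ℕ), l.Prime → ¬ l ∣ 30 * D.n → ∃ z, D.ES z ∧ D.GZ l z

/-- the reciprocity law -/
def ERX : Prop := ∀ (D : Dat) (l : ℕ) (z : EA), l.Prime → ¬ l ∣ 30 * D.n → D.GZ l z → D.ERL z

/-- Gauss sums -/
def GSX : Prop :=
  ∀ D : Dat, (∃ s : ℤˣ, ∑ a ∈ range D.n, (jacobiSym a D.n : Om) * zM D.n a = (s : ℤ) * D.dl) ∧
    (∀ (M : ℕ) (g : GQ), M ≠ 0 → D.n ∣ M → sd D.dl g = jacobiSym (cy M g : ZMod M).val D.n) ∧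
    ∀ (f : ℕ) (φ : GQ), w2.IsFrob f φ → sd D.dl φ = jacobiSym 2 D.n ^ f

/-- the transformation law of the theta function -/
def THX : Prop :=
  ∀ g : M2, g.det = 1 → ∀ τ : ℂ, 0 < τ.im → ∃ c : ℂ, c ≠ 0 ∧ ∀ w,
    vth (w / g.j τ) (g.act τ) = c * ee (g.c * w ^ 2 / (2 * g.j τ)) * vth w τ

/-- the expansions of the units -/
def UQ : Prop :=
  ∀ (M : ℕ) (b i₁ i₂ : ℤ), M ≠ 0 → M.Coprime 15 → IsCoprime b 15 →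
    (∀ z, uf b (i₁ / M) (i₂ / M) (z + 1) = uf b (i₁ / M) ((i₂ + 15 * i₁ : ℤ) / M) z) ∧
    (∀ m : ℤ, uf b (i₁ / M) ((i₂ + M * m : ℤ) / M) = uf b (i₁ / M) (i₂ / M)) ∧
    ∃ (N e : ℕ) (A : Zb⟦X⟧), QE M N A (uf b (i₁ / M) (i₂ / M)) ∧
      (M : ℤ) ∣ e - N - 15 * i₁ * JJ M b i₁ ∧ ∀ T, X ^ T ∣
        A * (pS M i₂ (15 * i₁ + 4 * M * b) T * pS M i₂ (15 * i₁ - 4 * M * b) T) -
          C ((-1) ^ (JJ M b i₁).natAbs * ze M (i₂ * JJ M b i₁)) * X ^ e *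
            (pS M i₂ (15 * i₁ + M * b) T * pS M i₂ (15 * i₁ - M * b) T)

/-- the 2-adic values of the units and of their Hecke translates -/
def VALX : Prop :=
  ∀ (M l : ℕ) (t : ℂ_[2]) (x y : Om), M ≠ 0 → M.Coprime 15 → l.Prime → ¬ l ∣ 15 → t ≠ 0 → ‖t‖ < 1 →
    V2a (M * l) xx t (i2 x) → V2a (M * l) yy t (i2 y) → ∃ τ, Alg τ x y ∧ ∀ b i₁ i₂ : ℤ,
      IsCoprime b 15 →
      V2a M (uf b (i₁ / M) (i₂ / M)) (t ^ l) (i2 (ev τ (lf (uf b (i₁ / M) (i₂ / M))))) ∧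
      ∀ s ∈ IntR l, V2a M (uf b (i₁ / M) (i₂ / M)) (i2 (zM (M * l) s.2.1) * t ^ s.1 ^ 2)
        (i2 (ev τ (pb (IntM s) (lf (uf b (i₁ / M) (i₂ / M))))))

/-- 2-adic evaluation of integral series -/
def EV2 : Prop :=
  (∃ f : Zb →+* Om, ∀ a, f a = zo a ∧ io (zo a) = a ∧ ‖i2 (zo a)‖ ≤ 1) ∧
  ∀ t : ℂ_[2], ‖t‖ < 1 → (∃ φ : Zb⟦X⟧ →+* ℂ_[2], ∀ A, φ A = ev2 A t) ∧ ev2 X t = t ∧
    (∀ a, ev2 (C a) t = i2 (zo a)) ∧ ∀ A, ‖ev2 A t‖ ≤ 1 ∧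
      HasSum (fun k => i2 (zo (coeff k A)) * t ^ k) (ev2 A t) ∧
      (∀ t', ‖t'‖ < 1 → ‖ev2 A t - ev2 A t'‖ ≤ ‖t - t'‖) ∧
      (∀ (e : ℕ) (he : e ≠ 0), ev2 (expand e he A) t = ev2 A (t ^ e)) ∧
      (∀ a, ev2 (rescale a A) t = ev2 A (i2 (zo a) * t)) ∧
      ∀ w N G v, w ≠ 0 → t ≠ 0 → V2a w G t v → QE w N A G → v * t ^ N = ev2 A t

/-- the decomposition group acts on the completion -/
def EXC : Prop :=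
  DenseRange i2 ∧ ∀ σ ∈ w2.D, ∃ f : ℂ_[2] →+* ℂ_[2], Isometry f ∧ (∀ a, f (i2 a) = i2 (σ a)) ∧
    ∀ a : ℚ_[2], f (algebraMap ℚ_[2] ℂ_[2] a) = algebraMap ℚ_[2] ℂ_[2] a

/-- the products of Eisenstein series are multiples of the cusp form -/
def CX : Prop :=
  ∀ (M : ℕ) (δ : (ZMod M)ˣ) (j : ℕ), 1 < M → M.Coprime 15 →
    coeff j (gd M δ) = if M ∣ j then 16 * M * SSd M δ * an (j / M) else 0

/-- the local points -/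
def PTS : Prop :=
  ∀ (D : Dat) (K : ℕ) (ζ : Om) (ε : ℝ), 2 ≤ K → IsPrimitiveRoot ζ (2 ^ K) → 0 < ε →
    ∃ (x y : ℤ → Om) (q : ℤ → ℂ_[2]),
      (∀ σ ∈ w2.D, σ ζ = ζ → ∀ s, σ (x s) = x (sd D.dl σ * s) ∧ σ (y s) = y (sd D.dl σ * s)) ∧
      ∀ s : ℤ, s = 1 ∨ s = -1 → V2a 1 xx (q s) (i2 (x s)) ∧ V2a 1 yy (q s) (i2 (y s)) ∧
        ‖q s‖ = ‖i2 ζ - 1‖ ∧ ‖lamf (q s) - s * i2 D.dl * muP D.al K (i2 ζ)‖ ≤ ε ∧
        (∀ f : ℂ_[2] →+* ℂ_[2], Isometry f → f (i2 (x s)) = i2 (x s) → f (i2 (y s)) = i2 (y s) →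
          f (q s) = q s) ∧
        ∀ ε' : ℝ, 0 < ε' → ∃ q₁ : Om, ‖i2 q₁ - q s‖ ≤ ε' ∧
          ∀ σ ∈ w2.D, σ ζ = ζ → σ D.dl = D.dl → σ q₁ = q₁

/-- Kummer cocycles of local points -/
def YEX : Prop :=
  ∀ (D : Dat) (k : ℕ) (P : EO), E1 w2 P →
    (∀ σ ∈ w2.D, cy (2 ^ (k + 2)) σ = 1 → tac D.dl σ P = P) →
    ∃ (y : GQ → (ZMod (2 ^ (k + 2)))ˣ → V2) (R : EO), D.LY k y ∧ 2 ^ k • R = P ∧
      ∀ h ∈ w2.D, cy (2 ^ (k + 2)) h = 1 → T2.pt ((2 ^ k : ℚ_[2])⁻¹ • y h 1) = tac D.dl h R - R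

/-- the trace computation -/
def TEL : Prop :=
  ∀ D : Dat, ∃ (c : ℚ_[2]) (B : ℝ), c ≠ 0 ∧ ∀ (k : ℕ) (ζ : Om), IsPrimitiveRoot ζ (2 ^ (k + 2)) →
    ∃ (u : (ZMod (2 ^ (k + 2)))ˣ) (a b : ℚ_[2]), ‖a‖ = 1 ∧ ‖b‖ ≤ B ∧
      ∀ (W : (ZMod (2 ^ (k + 2)))ˣ → ℤ) (H : Subgroup GQ), w2.Loc H →
        (∀ g ∈ H, cy (2 ^ (k + 2) * D.n) g = 1) →
        (csum w2.D H fun g => i2 (g (D.XW k W * D.dl)) * muP D.al (k + 2) (i2 (g ζ))) =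
          algebraMap ℚ_[2] ℂ_[2] (H.relIndex (w2.D ⊓ (cy (2 ^ (k + 2))).ker) * 2 ^ (k + 2) *
            (c * a * ∑ ν ∈ oddR D.n k, msy D.n k ν * W (u * (un (ν : ZMod (2 ^ (k + 2))))⁻¹) +
              b * ∑ δ, W δ))

end Pool.Agent.P.MP_9c97e9_nt.KT
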