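import Pool.Agent.P.MP_9c97e9_nt.KT.BasZ
import Pool.Agent.P.MP_9c97e9_nt.KT.IfX

/-! The 2-adic values satisfy the algebraic relations. -/

namespace Pool.Agent.P.MP_9c97e9_nt.KT

open MP_8b7eba_nt.R2
open MP_8b7eba_nt.R1 (Zb QE)

namespace TEVP

variable {w : ℕ} {t u v : ℂ_[2]} {G H : ℂ → ℂ}

theorem congr (h : V2a w G t v) (e : ∀ z : ℂ, 0 < z.im → H z = G z) (e' : u = v) : V2a w H t u := by
  obtain ⟨N, A, h1, h2⟩ := h
  exact ⟨N, A, h1.congr e, e' ▸ h2⟩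

theorem const (hE : EV2) (ht : ‖t‖ < 1) (w : ℕ) (a : Zb) :
    V2a w (fun _ => (a : ℂ)) t (i2 (zo a)) :=
  ⟨0, _, QE.const w a, by rw [(hE.2 t ht).2.2.1, pow_zero, mul_one]⟩

theorem mul (hE : EV2) (ht : ‖t‖ < 1) (hw : w ≠ 0) (h : V2a w G t u) (h' : V2a w H t v) :
    V2a w (fun z => G z * H z) t (u * v) := by
  obtain ⟨N, A, h1, h2⟩ := h
  obtain ⟨N', B, h3, h4⟩ := h'
  obtain ⟨φ, hφ⟩ := (hE.2 t ht).1
  refine ⟨_, _, h1.mul (Nat.pos_of_ne_zero hw) h3, ?_⟩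
  rw [← hφ, map_mul, hφ, hφ, ← h2, ← h4]
  ring

theorem add (hE : EV2) (ht : ‖t‖ < 1) (h : V2a w G t u) (h' : V2a w H t v) :
    V2a w (fun z => G z + H z) t (u + v) := by
  obtain ⟨N, A, h1, h2⟩ := h
  obtain ⟨N', B, h3, h4⟩ := h'
  obtain ⟨⟨φ, hφ⟩, hX, -⟩ := hE.2 t ht
  have h5 := h3.shift N
  rw [add_comm] at h5
  refine ⟨_, _, (h1.shift N').add h5, ?_⟩
  rw [← hφ, map_add, map_mul, map_mul, map_pow, map_pow, hφ, hφ, hφ, hX, ← h2, ← h4]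
  ring

theorem nat (hE : EV2) (ht : ‖t‖ < 1) (w m : ℕ) : V2a w (fun _ => (m : ℂ)) t m :=
  congr (const hE ht w m) (fun _ _ => by simp) (by rw [← zoH_apply, map_natCast, map_natCast])

theorem poly (hE : EV2) (ht : ‖t‖ < 1) (hw : w ≠ 0) {J : Type} {F : J → ℂ → ℂ} {v : J → ℂ_[2]}
    (h : ∀ j, V2a w (F j) t (v j)) (P : MvPolynomial J Om) :
    ∃ m : ℕ, m ≠ 0 ∧ V2a w (fun z => m * P.eval₂ io fun j => F j z) t (m * P.eval₂ i2 v) := by
  induction P using MvPolynomial.induction_on with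
  | C a =>
    obtain ⟨m, b, h0, h1⟩ := exists_den a
    refine ⟨m, h0, congr (const hE ht w b) (fun z _ => ?_) ?_⟩
    · rw [MvPolynomial.eval₂_C, ← io_zo, ← h1, map_mul, map_natCast]
    · rw [MvPolynomial.eval₂_C, ← h1, map_mul, map_natCast]
  | add P Q hP hQ =>
    obtain ⟨m, h0, h1⟩ := hP
    obtain ⟨n, h2, h3⟩ := hQ
    refine ⟨m * n, mul_ne_zero h0 h2, congr (add hE ht (mul hE ht hw (nat hE ht w n) h1)
      (mul hE ht hw (nat hE ht w m) h3)) (fun z _ => ?_) ?_⟩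
    all_goals
      rw [MvPolynomial.eval₂_add, Nat.cast_mul]
      ring
  | mul_X P j hP =>
    obtain ⟨m, h0, h1⟩ := hP
    refine ⟨m, h0, congr (mul hE ht hw h1 (h j)) (fun z _ => ?_) ?_⟩
    all_goals rw [MvPolynomial.eval₂_mul, MvPolynomial.eval₂_X, mul_assoc]

end TEVP

open TEVP in
theorem t_EVP (hEV2 : EV2) : EVP := by
  intro w t J F v hw h0 ht h P hP
  obtain ⟨m, hm, h1⟩ := poly hEV2 ht hw h P
  obtain ⟨-, -, hC, hA⟩ := hEV2.2 t ht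
  have h2 := (hA (PowerSeries.C 0)).2.2.2.2.2 w 0 _ _ hw h0 h1
    ((QE.const w 0).congr fun z hz => by simp [hP z hz])
  rw [hC, ← zoH_apply, map_zero, map_zero, pow_zero, mul_one] at h2
  exact (mul_eq_zero.1 h2).resolve_left (Nat.cast_ne_zero.2 hm)

end Pool.Agent.P.MP_9c97e9_nt.KT
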