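import Pool.Agent.P.MP_9c97e9_nt.KT.IfF2
import Pool.Agent.P.MP_9c97e9_nt.KT.TEVP

/-! The 2-adic values are values at a point of the upper half plane. -/

namespace Pool.Agent.P.MP_9c97e9_nt.KT

open MP_8b7eba_nt MP_8b7eba_nt.R2
open MP_8b7eba_nt.Mod (M2 G0 UH xx yy)

namespace TCONJ

theorem comb (hM : MGB) (hE : EV2) {w : ℕ} {t : ℂ_[2]} (hw : w ≠ 0) (ht : ‖t‖ < 1) {I : Type}
    {G : I → ℂ → ℂ} {v : I → ℂ_[2]} (h : ∀ i, InL (G i) ∧ MG (G i) ∧ V2a w (G i) t (v i))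
    (c : I → ℕ) (s : Finset I) : InL (fun z => ∑ i ∈ s, c i * G i z) ∧
      MG (fun z => ∑ i ∈ s, c i * G i z) ∧
      V2a w (fun z => ∑ i ∈ s, c i * G i z) t (∑ i ∈ s, c i * v i) := by
  have hn : ∀ n : ℕ, InL fun _ => (n : ℂ) := fun n => by simpa using (inL_int n).1
  classical
  induction s using Finset.induction_on with
  | empty => simpa using And.intro (hn 0) (And.intro (hM.2.2.1 0) (TEVP.nat hE ht w 0))
  | insert a s ha ih =>
    simp only [Finset.sum_insert ha]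
    exact ⟨(((hn _).mul (h a).1).1.add ih.1).1,
      (hM.2.2.2.1 _ _ (hM.2.2.2.1 _ _ (hM.2.2.1 _) (h a).2.1).2 ih.2.1).1,
      TEVP.add hE ht (TEVP.mul hE ht hw (TEVP.nat hE ht w _) (h a).2.2) ih.2.2⟩

end TCONJ

open TCONJ in
theorem t_CONJ (hORP : ORP) (hEVP : EVP) (hNCU : NCU) (hSURJ : SURJ) (hAVD : AVD) (hGAL1 : GAL1)
    (hMGB : MGB) (hUNITS : UNITS) (hEV2 : EV2) : CONJ := by
  intro w N I G A hQ t x y h0 ht hx hy
  obtain ⟨e1, e2, e3⟩ := hNCU w t x y hQ.ne h0 ht hx hy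
  obtain ⟨τ, hτ, hτx, hτy⟩ := hSURJ (io x) (io y) (by simpa [map_ofNat] using congrArg io e1)
    ((map_ne_zero io).2 e2) (by simpa [map_ofNat] using (map_ne_zero io).2 e3)
  have hL := (hGAL1 w N I G A hQ).1
  have al : ∀ γ, G0 γ → Alg (γ.act τ) x y := fun γ hγ => ⟨M2.im_act_pos hγ.det_pos hτ,
    by rw [Mod.xx_inv γ hγ τ hτ, hτx], by rw [Mod.yy_inv hγ hτ, hτy]⟩
  have al0 : Alg τ x y := ⟨hτ, hτx.symm, hτy.symm⟩
  have hN : t ^ N ≠ 0 := pow_ne_zero _ h0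
  have := hQ.fin
  have := Fintype.ofFinite I
  by_contra hne
  obtain ⟨c, hc⟩ := hAVD ℂ_[2] I {u | ∃ γ, G0 γ ∧
      u = fun i => ev2 (A i) t / t ^ N - i2 (ev (γ.act τ) (lf (G i)))}
    ((Set.finite_range fun (j : I → I) i =>
      ev2 (A i) t / t ^ N - i2 (ev τ (lf (G (j i))))).subset (by
        rintro _ ⟨γ, hγ, rfl⟩
        choose j hj using hQ.inv γ hγ
        refine ⟨j, funext fun i => ?_⟩
        rw [io_inj ((hUNITS.2.2 _ x y (al γ hγ) _ (hL i)).trans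
          ((hj i hτ).trans (hUNITS.2.2 _ x y al0 _ (hL (j i))).symm))]))
    (by
      rintro ⟨γ, hγ, e⟩
      exact hne ⟨_, al γ hγ, fun i =>
        ((div_eq_iff hN).1 (sub_eq_zero.1 (congrFun e i).symm)).symm⟩)
  obtain ⟨h1, h2, h3⟩ := comb hMGB hEV2 hQ.ne ht (v := fun i => ev2 (A i) t / t ^ N)
    (fun i => ⟨hL i, hQ.mg i, N, A i, hQ.qe i, div_mul_cancel₀ _ hN⟩) c Finset.univ
  obtain ⟨P, hP, hP'⟩ := hORP _ τ x y h1 h2 al0
  obtain ⟨γ, b, hγ, hb, e⟩ := hP' _ i2 (∑ i, c i * (ev2 (A i) t / t ^ N)) (hEVP w t _ ![xx, yy, _] _ hQ.ne h0 ht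
    (fun j => by fin_cases j; exacts [hx, hy, h3]) P fun z hz => by
      convert hP z hz using 2
      funext j
      fin_cases j <;> rfl)
  refine hc _ ⟨γ, hγ, rfl⟩ ?_
  have : b = ∑ i, c i * ev (γ.act τ) (lf (G i)) := io_inj (by
    simp only [hb, map_sum, map_mul, map_natCast, hUNITS.2.2 _ x y (al γ hγ) _ (hL _)])
  simp only [mul_sub, Finset.sum_sub_distrib, e, this, map_sum, map_mul, map_natCast, sub_self]

end Pool.Agent.P.MP_9c97e9_nt.KT
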