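import Pool.Agent.P.MP_9c97e9_nt.KT.IfU

/-! Proof of CUSP. -/

namespace Pool.Agent.P.MP_9c97e9_nt.KT

open MP_8b7eba_nt.R2
open MP_8b7eba_nt.Mod (M2 G0 nP nM an)
open MP_8b7eba_nt.R1 (IntR)

namespace TCUSP

theorem sm2 {X Y Z : Type} {K : Subgroup AL} {c : AL → X} {c' : AL → Y} (h : Sm1 LL K c)
    (h' : Sm1 LL K c') (F : X → Y → Z) : Sm1 LL K fun g => F (c g) (c' g) := by
  classical
  obtain ⟨S, hS⟩ := h
  obtain ⟨S', hS'⟩ := h'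
  exact ⟨S ∪ S', fun g hg n hn e => congrArg₂ F
    (hS g hg n hn fun s hs => e s (Finset.mem_union_left _ hs))
    (hS' g hg n hn fun s hs => e s (Finset.mem_union_right _ hs))⟩

variable {X : Type} [AddCommGroup X] {m : ℕ} {γ : M2}

theorem cop (h : m.Prime) (h' : ¬ m ∣ 15) : m.Coprime 15 := (Nat.Prime.coprime_iff_not_dvd h).2 h'

theorem sh (hK : KCR) (hC : COK) (h : m.Prime) (h' : ¬ m ∣ 15) {ψ : AL → X} (hψ : SH1 LL geo ψ) :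
    SH1 LL geo ((HC m).T1 ψ) := by
  obtain ⟨h1, h2, -, h3⟩ := hC.2.2.1 0 1 one_ne_zero (by norm_num)
  exact (hK AL LL _ geo _ _ h1 h2 (h3 m h.ne_zero (cop h h'))).1 X ψ hψ

theorem br (hC : COK) (h : m.Prime) (h' : ¬ m ∣ 15) (ψ : AL → X) (hγ : G0 γ) :
    (HC m).T1 ψ (tr γ) = MT m (fun δ => ψ (tr δ)) γ := by
  simp only [Crs.T1, (hC.2.2.2.2.1 m h.ne_zero (cop h h')).2 γ hγ]
  exact Finset.sum_coe_sort (IntR m) fun t => ψ (tr (dm m γ t))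

theorem congr (hM : MREP) (h : m.Prime) (h' : ¬ m ∣ 15) {ψ ψ' : M2 → X}
    (e : ∀ δ, G0 δ → ψ δ = ψ' δ) (hγ : G0 γ) : MT m ψ γ = MT m ψ' γ :=
  Finset.sum_congr rfl fun t ht => e _ ((hM m h.ne_zero (cop h h')).2.1 γ hγ t ht).1

theorem div (hM : MREP) (h : m.Prime) (h' : ¬ m ∣ 15) {ψ : M2 → ℤ} {a c : ℤ} (hc : c ≠ 0)
    (e : ∀ δ, G0 δ → c ∣ ψ δ) (hγ : G0 γ) (h1 : MT m ψ γ = a * ψ γ) :
    MT m (fun δ => ψ δ / c) γ = a * (ψ γ / c) := by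
  refine mul_left_cancel₀ hc ?_
  rw [mul_left_comm, Int.mul_ediv_cancel' (e γ hγ), ← h1, MT, Finset.mul_sum]
  exact congr hM h h' (ψ := fun δ => c * (ψ δ / c)) (fun δ a => Int.mul_ediv_cancel' (e δ a)) hγ

end TCUSP

open TCUSP in
theorem t_CUSP (hKCR : KCR) (hCOK : COK) (hZQ : ZQ) (hMREP : MREP) (hMCOM : MCOM) (hMFAC : MFAC)
    (hMHP : MHP) (hMEIG : MEIG) : CUSP := by
  intro l hl h15 k
  have den := hCOK.2.2.2.2.2.2 (ZMod (2 ^ k))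
  have ad := hCOK.2.2.2.2.2.1 (ZMod (2 ^ k))
  obtain ⟨-, -, -, z1, z2⟩ := hZQ k
  refine ⟨fun ψ hψ => ⟨?_, fun p hp h' => ?_⟩, fun h2 v hv => ?_⟩
  · have a1 := ad ψ hψ
    have a2 := ((hMREP l hl.ne_zero (cop hl h15)).2.2 _ _ a1).1
    obtain ⟨a, b, h1⟩ := hMFAC.2.2.2.2.2 _
      (fun γ => MT l (fun δ => ψ (tr δ)) γ - (l + 1) * ψ (tr γ))
      ⟨fun γ δ e e' => by
        have := a1.1 γ δ e e'
        simp only [a2.1 γ δ e e', this]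
        ring, by
        have := a1.2
        simp only [a2.2, this, mul_zero, sub_zero]⟩ fun P hP => by
      rw [hMHP l hl h15 _ _ a1 P hP, nsmul_eq_mul, Nat.cast_succ, sub_self]
    obtain ⟨v, hv, h3⟩ := z2 a b
    exact ⟨v, hv, den _ _ (sm2 (sh hKCR hCOK hl h15 hψ).1 hψ.1 fun x y => x - (l + 1) * y)
      (z1 v hv).1.1 fun γ e => by rw [br hCOK hl h15 ψ e, h3 γ e, ← h1 γ e]⟩
  · refine den _ _ (sh hKCR hCOK hl h15 (sh hKCR hCOK hp h' hψ)).1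
      (sh hKCR hCOK hp h' (sh hKCR hCOK hl h15 hψ)).1 fun γ e => ?_
    rw [br hCOK hl h15 _ e, br hCOK hp h' _ e, congr hMREP hl h15 (fun δ => br hCOK hp h' ψ) e,
      congr hMREP hp h' (fun δ => br hCOK hl h15 ψ) e]
    exact hMCOM l p hl hp h15 h' _ _ (ad ψ hψ) γ e
  · obtain ⟨h1, -, ⟨a, b, h3⟩, -⟩ := z1 v hv
    refine den _ _ (sh hKCR hCOK hl h15 h1).1 (sm2 h1.1 h1.1 fun x _ => ap W15 l * x) fun γ e => ?_
    have h4 := div hMREP hl h15 four_ne_zero (fun δ a => (hMFAC.2.2.1 δ a).1) e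
      (hMEIG l hl h15 γ e).1
    have h5 := div hMREP hl h15 two_ne_zero (fun δ a => (hMFAC.2.2.1 δ a).2) e
      (hMEIG l hl h15 γ e).2
    rw [br hCOK hl h15 _ e, congr hMREP hl h15 h3 e, h3 γ e,
      show ap W15 l = an l from TFR.ap_an hl fun h =>
      ((Nat.Prime.dvd_mul hl).1 (show l ∣ 2 * 15 from h)).elim
        (fun h => h2 ((Nat.prime_dvd_prime_iff_eq hl Nat.prime_two).1 h)) h15]
    rw [MT] at h4 h5 ⊢
    rw [Finset.sum_add_distrib, ← Finset.sum_smul, ← Finset.sum_smul, h4, h5, mul_smul, mul_smul,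
      ← smul_add, zsmul_eq_mul]

end Pool.Agent.P.MP_9c97e9_nt.KT
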