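import Pool.Agent.P.MP_9c97e9_nt.KT.IfF2

/-! The modular group is dense in the geometric Galois group. -/

namespace Pool.Agent.P.MP_9c97e9_nt.KT

open scoped Polynomial
open MP_8b7eba_nt.R2
open MP_8b7eba_nt.Mod (M2 G0 xx yy)
open MP_8b7eba_nt.R1 (U8)

namespace TDENSE

theorem tr_one (hTR : TR) : tr 1 = 1 := hTR.2.1 1 isCoprime_one_left

/-- the image of the modular group -/
def Ga (hTR : TR) : Subgroup AL where
  carrier := {t | ∃ γ, G0 γ ∧ t = tr γ}
  one_mem' := ⟨1, ⟨rfl, dvd_zero _⟩, (tr_one hTR).symm⟩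
  mul_mem' := by
    rintro _ _ ⟨a, ha, rfl⟩ ⟨b, hb, rfl⟩
    exact ⟨a * b, ha.mul hb, ((hTR.1 a (Lm.of_G0 ha)).2.2.1 b (Lm.of_G0 hb)).symm⟩
  inv_mem' := by
    rintro _ ⟨a, ha, rfl⟩
    refine ⟨a.adj, ha.adj, inv_eq_of_mul_eq_one_right ?_⟩
    rw [← (hTR.1 a (Lm.of_G0 ha)).2.2.1 _ (Lm.of_G0 ha.adj), M2.mul_adj ha.1, tr_one hTR]

theorem poly (hFB : FB) {c : Om →+* LL} (hc : ∀ a, c a = cst a) (p : Om[X]) :
    InL (fun z => p.eval₂ io (xx z)) ∧ lf (fun z => p.eval₂ io (xx z)) = p.eval₂ c (lf xx) := by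
  induction p using Polynomial.induction_on' with
  | add p q hp hq =>
    simp only [Polynomial.eval₂_add]
    exact ⟨(hp.1.add hq.1).1, by rw [(hp.1.add hq.1).2, hp.2, hq.2]⟩
  | monomial n a =>
    simp only [Polynomial.eval₂_monomial]
    have h := (hFB.2.2.2.1 a).mul (inL_xx.pow n).1
    exact ⟨h.1, by rw [h.2, (inL_xx.pow n).2, hc, cst]⟩

theorem fix_poly {c : Om →+* LL} (hc : ∀ a, c a = cst a) {g : AL} (hg : g ∈ geo) (p : Om[X]) :
    g (p.eval₂ c (lf xx)) = p.eval₂ c (lf xx) := by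
  induction p using Polynomial.induction_on' with
  | add p q hp hq => rw [Polynomial.eval₂_add, map_add, hp, hq]
  | monomial n a =>
    rw [Polynomial.eval₂_monomial, map_mul, map_pow, hc, (mem_geo.1 hg).2,
      (mem_GG.1 (mem_geo.1 hg).1).1]

theorem fix_z {g : AL} (hg : g ∈ GG) (p : ℤ[X]) :
    g (Polynomial.aeval (lf xx) p) = Polynomial.aeval (lf xx) p := by
  induction p using Polynomial.induction_on' with
  | add p q hp hq => rw [map_add, map_add, hp, hq]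
  | monomial n a =>
    rw [Polynomial.aeval_monomial, map_mul, map_pow, eq_intCast, map_intCast, (mem_GG.1 hg).1]

theorem u8 : InL U8 ∧ lf U8 ≠ 0 ∧ ∀ g ∈ GG, g (lf U8) = lf U8 := by
  have a := (inL_int 2).1.mul inL_yy
  have b := (inL_xx.pow 2).1.add a.1
  have c := b.1.add (inL_int 9).1
  have d := c.1.mul inL_xx
  have e := d.1.pow 8
  have h : Set.EqOn U8 _ _ := fun z hz => (U8_eq hz).trans (by
    show _ = ((xx z ^ 2 + ((2 : ℤ) : ℂ) * yy z + ((9 : ℤ) : ℂ)) * xx z) ^ 8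
    norm_num)
  have i := e.1.congr h
  refine ⟨i, fun k => ?_, fun g hg => ?_⟩
  · have := (mf_eq_zero i.1).1 ((coe_lf i).symm.trans (congrArg Subtype.val k))
    exact MP_8b7eba_nt.R1.U8_ne (z := Complex.I) (by simp) (this _ (by simp))
  · rw [lf_congr h, e.2, d.2, c.2, b.2, a.2, (inL_xx.pow 2).2, (inL_int 2).2, (inL_int 9).2]
    simp only [map_pow, map_mul, map_add, map_intCast, (mem_GG.1 hg).1, (mem_GG.1 hg).2]

end TDENSE

open TDENSE in
theorem t_DENSE (hDNS : DNS) (hDEN : DEN) (hPOLA : POLA) (hTR : TR) (hFB : FB) : DENSE := by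
  intro g hg S
  have hle : Ga hTR ≤ geo := by
    rintro _ ⟨γ, h, rfl⟩
    exact hTR.2.2 γ h
  obtain ⟨_, ⟨γ, h, rfl⟩, e⟩ := hDNS AL LL geo (Ga hTR)
    (BT.FO_mono hFB.2.2.2.2.2.2.2.1 inf_le_left) hle (fun f hf g hg => by
      obtain ⟨c, hc⟩ := hFB.1
      obtain ⟨p, G, h1, h2, h3, h4⟩ := hDEN f
      have iv : IvF G := fun γ hγ z hz => by
        obtain ⟨a, b⟩ := (hTR.1 γ (Lm.of_G0 hγ)).2.2.2 G h1
        refine (lf_inj a h1).1 ?_ hz
        rw [← b, h4, map_mul, pb, fix_z (hTR.2.2 _ hγ.adj).1]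
        exact congrArg (· * _) (hf _ ⟨_, hγ.adj, rfl⟩)
      obtain ⟨j, a, b, e⟩ := hPOLA G h1 h2 iv
      have k1 := h1.mul (u8.1.pow j).1
      have k2 := (poly hFB hc b).1.mul inL_yy
      have k3 := (poly hFB hc a).1.add k2.1
      have e' := k1.2.symm.trans ((lf_congr e).trans k3.2)
      rw [(u8.1.pow j).2, k2.2, (poly hFB hc a).2, (poly hFB hc b).2, h4] at e'
      have e'' := congrArg g e'
      rw [map_add, map_mul _ _ (lf yy), fix_poly hc hg, fix_poly hc hg, (mem_GG.1 hg.1).2, ← e',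
        map_mul, map_mul, map_pow, u8.2.2 g hg.1, fix_z hg.1] at e''
      exact mul_right_cancel₀ h3 (mul_right_cancel₀ (pow_ne_zero j u8.2.1) e'')) g hg S
  exact ⟨γ, h, e⟩

end Pool.Agent.P.MP_9c97e9_nt.KT
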