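import Pool.Agent.P.MP_9c97e9_nt.KT.IfF1

/-! The Hecke translates of the generic point are distinct. -/

namespace Pool.Agent.P.MP_9c97e9_nt.KT

open MP_8b7eba_nt
open MP_8b7eba_nt.Mod (M2 xx yy qq atI)
open MP_8b7eba_nt.R1 (IntR IntM y1)
open Filter Topology

namespace TDIST

theorem y1_qq : Tendsto (fun z => y1 z * qq z ^ 3) atI (𝓝 1) := by
  obtain ⟨A, hA, h⟩ := R1.exists_y1
  have := h.tendsto one_pos
  rw [PowerSeries.coeff_map, PowerSeries.coeff_zero_eq_constantCoeff_apply, hA] at this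
  simpa using this

theorem quot {u u' : ℂ → ℂ} (hu : Tendsto u atI atI) (hu' : Tendsto u' atI atI)
    (h : ∀ z : ℂ, 0 < z.im → xx (u z) = xx (u' z) ∧ yy (u z) = yy (u' z)) :
    Tendsto (fun z => qq (u' z - u z)) atI (𝓝 1) := by
  have h1 := Mod.xx_qq.comp hu'
  have h2 := y1_qq.comp hu
  have h3 := ((Mod.xx_qq.comp hu).mul (y1_qq.comp hu')).div (h2.mul h1) (by simp)
  rw [mul_one, div_one] at h3
  refine h3.congr' ?_
  filter_upwards [Mod.ev_im 0, h1.eventually_ne one_ne_zero, h2.eventually_ne one_ne_zero]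
    with z hz k1 k2
  obtain ⟨e1, e2⟩ := h z hz
  have e3 : y1 (u' z) = y1 (u z) := by rw [y1, y1, e1, e2]
  have e4 : qq (u' z) = qq (u' z - u z) * qq (u z) := by rw [← Mod.qq_add, sub_add_cancel]
  simp only [Function.comp_apply, Pi.div_apply] at k1 k2 ⊢
  rw [div_eq_iff (mul_ne_zero k2 k1), e3, e1, e4]
  ring

theorem lin {α : ℝ} {β : ℂ} (h : Tendsto (fun z => qq (α * z + β)) atI (𝓝 1)) :
    α = 0 ∧ qq β = 1 := by
  have h0 : α = 0 := by
    by_contra h0
    have h1 : Tendsto (fun z : ℂ => z + ((1 / (2 * α) : ℝ) : ℂ)) atI atI :=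
      tendsto_comap_iff.2 (Mod.tendsto_im.congr fun z => by simp only [Function.comp_apply,
        Complex.add_im, Complex.ofReal_im, add_zero])
    have h2 : qq (1 / 2) = -1 := by
      rw [qq, ← Complex.exp_pi_mul_I]
      congr 1
      ring
    have h3 := tendsto_nhds_unique (h.comp h1) (h.neg.congr fun z => by
      have : (α : ℂ) ≠ 0 := Complex.ofReal_ne_zero.2 h0
      rw [Function.comp_apply, ← mul_neg_one, ← h2, ← Mod.qq_add]
      congr 1
      push_cast
      field_simp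
      ring)
    norm_num at h3
  refine ⟨h0, ?_⟩
  simpa [h0] using h

end TDIST

theorem t_DIST : DIST := by
  rintro m hm ⟨a, b, d⟩ ht ⟨a', b', d'⟩ ht' h
  obtain ⟨h1, h2⟩ := (R1.Int_mem (Nat.pos_of_ne_zero hm)).1 ht
  obtain ⟨h3, h4⟩ := (R1.Int_mem (Nat.pos_of_ne_zero hm)).1 ht'
  simp only at h1 h2 h3 h4
  have a0 : 0 < a := Nat.pos_of_ne_zero (by rintro rfl; omega)
  have a0' : 0 < a' := Nat.pos_of_ne_zero (by rintro rfl; omega)
  have d0 : (d : ℂ) ≠ 0 := Nat.cast_ne_zero.2 (by omega)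
  have d0' : (d' : ℂ) ≠ 0 := Nat.cast_ne_zero.2 (by omega)
  have h5 := TDIST.quot (Mod.tendsto_upper (A := a) (B := b) (C := d) (by omega) (by omega))
    (Mod.tendsto_upper (A := a') (B := b') (C := d') (by omega) (by omega)) h
  obtain ⟨h6, h7⟩ := TDIST.lin (α := a' / d' - a / d) (β := b' / d' - b / d) (h5.congr fun z => by
    congr 1
    simp only [M2.act, Mod.mob]
    push_cast
    ring)
  have d1 : (d : ℝ) ≠ 0 := Nat.cast_ne_zero.2 (by omega)
  have d1' : (d' : ℝ) ≠ 0 := Nat.cast_ne_zero.2 (by omega)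
  rw [sub_eq_zero, div_eq_div_iff d1' d1] at h6
  have h8 : a' * d = a * d' := by exact_mod_cast h6
  obtain rfl : d = d' := by
    have : a * (d * d) = a * (d' * d') := by
      rw [← mul_assoc, ← mul_assoc, ← h8, h1, ← h3]
      ring
    exact (Nat.mul_self_inj).1 (Nat.eq_of_mul_eq_mul_left a0 this)
  obtain rfl : a' = a := Nat.eq_of_mul_eq_mul_right (by omega) h8
  obtain ⟨n, hn⟩ := Complex.exp_eq_one_iff.1 h7
  have h9 : (b' : ℂ) - b = n * d := by
    have := mul_left_cancel₀ Complex.two_pi_I_ne_zero (hn.trans (mul_comm _ _))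
    rw [← this]
    field_simp
  have h10 : (b' : ℤ) - b = n * d := by exact_mod_cast h9
  obtain rfl : b' = b := by
    have : n = 0 := by
      by_contra hn0
      rcases lt_or_gt_of_ne hn0 with k | k <;> nlinarith
    rw [this] at h10
    omega
  rfl

end Pool.Agent.P.MP_9c97e9_nt.KT
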