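import Pool.Agent.P.MP_9c97e9_nt.KT.IfF2

/-! Meromorphic functions without poles are holomorphic. -/

namespace Pool.Agent.P.MP_9c97e9_nt.KT

open scoped PowerSeries
open MP_8b7eba_nt MP_8b7eba_nt.R2
open MP_8b7eba_nt.Mod (UH)
open Filter Topology

namespace TDIV

theorem loc {p q : ℂ → ℂ} {τ : ℂ} (hp : AnalyticAt ℂ p τ) (hq : AnalyticAt ℂ q τ)
    (h0 : analyticOrderAt q τ ≠ ⊤) (h : analyticOrderAt q τ ≤ analyticOrderAt p τ) :
    ∃ r, AnalyticAt ℂ r τ ∧ ∀ᶠ z in 𝓝 τ, r z * q z = p z := by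
  obtain ⟨n, hn⟩ := ENat.ne_top_iff_exists.1 h0
  obtain ⟨g, g1, g2, g3⟩ := hq.analyticOrderAt_eq_natCast.1 hn.symm
  rw [← hn] at h
  obtain ⟨k, k1, k2⟩ := (natCast_le_analyticOrderAt hp).1 h
  refine ⟨fun z => k z / g z, k1.div g1 g2, ?_⟩
  filter_upwards [g3, k2, g1.continuousAt.eventually_ne g2] with z a b c
  rw [a, b, smul_eq_mul, smul_eq_mul]
  field_simp

theorem glob {p q : ℂ → ℂ} (hp : Hol p) (hq : Hol q)
    (h0 : ∀ τ : ℂ, 0 < τ.im → analyticOrderAt q τ ≠ ⊤)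
    (h : ∀ τ : ℂ, 0 < τ.im → analyticOrderAt q τ ≤ analyticOrderAt p τ) :
    ∃ G, Hol G ∧ Set.EqOn (fun z => G z * q z) p UH := by
  have key : ∀ τ : ℂ, 0 < τ.im → ∃ r, AnalyticAt ℂ r τ ∧ (∀ᶠ z in 𝓝 τ, r z * q z = p z) ∧
      (fun z => limUnder (𝓝[≠] z) fun w => p w / q w) =ᶠ[𝓝 τ] r := fun τ hτ => by
    obtain ⟨r, r1, r2⟩ := loc (hp.an hτ) (hq.an hτ) (h0 τ hτ) (h τ hτ)
    refine ⟨r, r1, r2, ?_⟩
    filter_upwards [r1.eventually_analyticAt, r2.eventually_nhds, Mod.UH_mem_nhds hτ] with z a b c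
    have d : ∀ᶠ w in 𝓝[≠] z, q w ≠ 0 :=
      (hq.an c).eventually_eq_zero_or_eventually_ne_zero.resolve_left fun e =>
        h0 z c (analyticOrderAt_eq_top.2 e)
    refine Tendsto.limUnder_eq ((a.continuousAt.tendsto.mono_left nhdsWithin_le_nhds).congr' ?_)
    filter_upwards [d, b.filter_mono nhdsWithin_le_nhds] with w e1 e2
    rw [← e2, mul_div_cancel_right₀ _ e1]
  refine ⟨fun z => limUnder (𝓝[≠] z) fun w => p w / q w, fun τ hτ => ?_, fun τ hτ => ?_⟩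
  · obtain ⟨r, r1, -, r3⟩ := key τ hτ
    exact (r1.congr r3.symm).differentiableAt.differentiableWithinAt
  · obtain ⟨r, -, r2, r3⟩ := key τ hτ
    have := r3.eq_of_nhds
    simp only at this ⊢
    rw [this]
    exact r2.self_of_nhds

theorem one (f : MF) (hf : ∀ τ : ℂ, 0 < τ.im → ∃ A, jt τ f = fs A) :
    ∃ G, Hol G ∧ mf G = f := by
  obtain ⟨p, q, hp, hq, h0, e⟩ := exists_div f
  obtain ⟨G, g1, g2⟩ := glob hp hq (fun τ hτ c => by
    rw [← order_tay hτ (hq.an hτ), PowerSeries.order_eq_top] at c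
    exact h0 ((mf_eq_zero hq).2 (tay_eq_zero hτ hq c))) fun τ hτ => by
    obtain ⟨A, hA⟩ := hf τ hτ
    have h1 := congrArg (jt τ) e
    rw [map_mul, hA, jt_mf hτ hq, jt_mf hτ hp, ← map_mul] at h1
    rw [← order_tay hτ (hq.an hτ), ← order_tay hτ (hp.an hτ), ← fs_inj h1, PowerSeries.order_mul]
    exact le_add_self
  refine ⟨G, g1, mul_right_cancel₀ h0 ?_⟩
  rw [e, ← mf_mul g1 hq]
  exact mf_congr g2

end TDIV

theorem t_DIV : DIV := by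
  refine ⟨TDIV.one, fun f hf => TDIV.one f fun τ hτ => ?_⟩
  have h1 : IsIntegral ℂ⟦X⟧ (jt τ f) :=
    hf.map_of_comp_eq (tayH τ hτ) (jt τ) (RingHom.ext fun g => by
      rw [RingHom.comp_apply, RingHom.comp_apply, ← mf_fn, jt_mf hτ (hol_fn g)]
      rfl)
  obtain ⟨A, hA⟩ := IsIntegrallyClosed.isIntegral_iff.1 h1
  exact ⟨A, hA.symm⟩

end Pool.Agent.P.MP_9c97e9_nt.KT
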