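import Pool.Agent.P.MP_9c97e9_nt.KT.IfF1

/-! Proof of DNS: a subgroup with the same fixed field is dense. -/

namespace Pool.Agent.P.MP_9c97e9_nt.KT

open Polynomial

namespace TDNS

theorem one {G Ω : Type} [Group G] [Field Ω] [MulSemiringAction G Ω] {H Γ : Subgroup G}
    (h : FO Ω Γ) (hf : ∀ x : Ω, FxG Γ x → FxG H x) {g : G} (hg : g ∈ H) (θ : Ω) :
    ∃ γ ∈ Γ, γ • θ = g • θ := by
  classical
  have e : ∀ k : G, (∏ a ∈ (h θ).toFinset, (X - C a)).map (MulSemiringAction.toRingHom G Ω k) =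
      ∏ a ∈ (h θ).toFinset, (X - C (k • a)) := fun k => by
    simp [Polynomial.map_prod]
  have h1 : ∀ n, FxG Γ ((∏ a ∈ (h θ).toFinset, (X - C a)).coeff n) := fun n k hk => by
    have h2 : ∏ a ∈ (h θ).toFinset, (X - C (k • a)) = ∏ a ∈ (h θ).toFinset, (X - C a) := by
      refine Finset.prod_bij (fun a _ => k • a) (fun a ha => ?_)
        (fun a _ b _ e => MulAction.injective k e) (fun b hb => ?_) fun _ _ => rfl
      · obtain ⟨γ, hγ, rfl⟩ := (h θ).mem_toFinset.1 ha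
        exact (h θ).mem_toFinset.2 ⟨k * γ, Γ.mul_mem hk hγ, mul_smul _ _ _⟩
      · obtain ⟨γ, hγ, rfl⟩ := (h θ).mem_toFinset.1 hb
        exact ⟨_, (h θ).mem_toFinset.2 ⟨k⁻¹ * γ, Γ.mul_mem (Γ.inv_mem hk) hγ, rfl⟩,
          by rw [mul_smul, smul_inv_smul]⟩
    have := congrArg (coeff · n) ((e k).trans h2)
    simp only [coeff_map] at this
    exact this
  have h2 : ∏ a ∈ (h θ).toFinset, (X - C (g • a)) = ∏ a ∈ (h θ).toFinset, (X - C a) :=
    (e g).symm.trans (Polynomial.ext fun n => by rw [coeff_map]; exact hf _ (h1 n) g hg)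
  have h3 := congrArg (eval (g • θ)) h2
  rw [eval_prod, eval_prod, Finset.prod_eq_zero ((h θ).mem_toFinset.2 ⟨1, Γ.one_mem, one_smul _ _⟩)
    (by simp), eq_comm, Finset.prod_eq_zero_iff] at h3
  obtain ⟨a, ha, h4⟩ := h3
  obtain ⟨γ, hγ, rfl⟩ := (h θ).mem_toFinset.1 ha
  exact ⟨γ, hγ, (sub_eq_zero.1 (by simpa using h4)).symm⟩

end TDNS

theorem t_DNS (hAVD : AVD) : DNS := by
  intro G Ω _ _ _ _ H Γ h hle hf g hg S
  have h1 : (Set.pi Set.univ fun s : S => {b | ∃ k ∈ H, k • (s : Ω) = b}).Finite :=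
    Set.Finite.pi fun s => h s
  obtain ⟨c, hc⟩ := hAVD Ω S _ ((h1.image2 (· - ·) h1).sdiff (t := {0})) fun e => e.2 rfl
  obtain ⟨γ, hγ, e⟩ := TDNS.one (BT.FO_mono h hle) hf hg (∑ s : S, c s * (s : Ω))
  refine ⟨γ, hγ, fun s hs => ?_⟩
  by_contra hn
  refine hc ((fun s : S => g • (s : Ω)) - fun s : S => γ • (s : Ω))
    ⟨Set.mem_image2_of_mem (fun s _ => ⟨g, hg, rfl⟩) fun s _ => ⟨γ, hle hγ, rfl⟩,
      fun e => hn (sub_eq_zero.1 (congrFun e ⟨s, hs⟩))⟩ ?_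
  have k : ∀ k : G, k • ∑ s : S, (c s : Ω) * s = ∑ s : S, (c s : Ω) * k • (s : Ω) := fun k => by
    rw [Finset.smul_sum]
    exact Finset.sum_congr rfl fun s _ => by
      rw [smul_mul', show k • (c s : Ω) = c s from map_natCast (MulSemiringAction.toRingHom G Ω k) _]
  rw [k, k] at e
  simp only [Pi.sub_apply, mul_sub, Finset.sum_sub_distrib, e, sub_self]

end Pool.Agent.P.MP_9c97e9_nt.KT
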