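import Pool.Agent.P.MP_9c97e9_nt.KT.IfU

/-! Proof of EXA: the Galois action on the units. -/

namespace Pool.Agent.P.MP_9c97e9_nt.KT

open MP_8b7eba_nt.R2
open MP_8b7eba_nt.Mod (M2 G0 UH)

namespace TEXA

variable {M : ℕ} [NeZero M]

theorem red (hUT : UT) {b' i₁ i₂ : ℤ} {b : ZMod 15} {v : VZ M} (hb : (b' : ZMod 15) = b)
    (h1 : (i₁ : ZMod M) = v.1) (h2 : (i₂ : ZMod M) = v.2) {z : ℂ} (hz : 0 < z.im) :
    uf b' (i₁ / M) (i₂ / M) z = ug M b v z := by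
  obtain ⟨c, rfl⟩ := (ZMod.intCast_eq_iff _ _ _).1 hb
  obtain ⟨m, rfl⟩ := (ZMod.intCast_eq_iff _ _ _).1 h1
  obtain ⟨n, rfl⟩ := (ZMod.intCast_eq_iff _ _ _).1 h2
  have h0 : (M : ℚ) ≠ 0 := Nat.cast_ne_zero.2 (NeZero.ne M)
  have e : ∀ (x : ℕ) (m : ℤ), (((x + M * m : ℤ) : ℚ) / M) = x / M + m := fun x m => by
    push_cast
    field_simp
  rw [e, e]
  exact (hUT.2.2 _ _ _ z hz).1 m n c

theorem act (hUT : UT) {γ : M2} (hγ : G0 γ) {c : ℤ} (hc : γ.c = 15 * c) (b : ZMod 15) (v : VZ M)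
    {z : ℂ} (hz : 0 < z.im) : ug M b v (γ.act z) =
      ug M (b * γ.a) (v.1 * γ.a + v.2 * c, v.1 * (15 * γ.b) + v.2 * γ.d) z := by
  rw [ug, (hUT.2.2 _ _ _ z hz).2 γ hγ, ← red hUT (b' := b.val * γ.a)
    (i₁ := v.1.val * γ.a + v.2.val * c) (i₂ := v.1.val * (15 * γ.b) + v.2.val * γ.d)
    (by simp) (by simp) (by simp) hz, hc]
  congr 1 <;> push_cast <;> ring

theorem unit {γ : M2} (hγ : G0 γ) : ∃ β : (ZMod 15)ˣ, (β : ZMod 15) = γ.a := by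
  have h1 := congrArg (Int.cast : ℤ → ZMod 15) hγ.1
  have h2 := (ZMod.intCast_zmod_eq_zero_iff_dvd γ.c 15).2 hγ.2
  rw [M2.det, Int.cast_sub, Int.cast_mul, Int.cast_mul, h2, mul_zero, sub_zero, Int.cast_one] at h1
  exact ⟨Units.mkOfMulEqOne _ _ h1, rfl⟩

theorem hm (hUHM : UHM) (hM : M.Coprime 15) (b : (ZMod 15)ˣ) (v : VZ M) :
    Hol (ug M b v) ∧ (∀ z : ℂ, 0 < z.im → ug M b v z ≠ 0) ∧ MG (ug M b v) := by
  refine hUHM _ _ _ (Nat.isCoprime_iff_coprime.2 (ZMod.val_coe_unit_coprime b))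
    (hM.coprime_dvd_left ?_)
  have := Rat.den_dvd (v.1.val : ℤ) (M : ℤ)
  rwa [Rat.divInt_eq_div, Int.natCast_dvd_natCast, Int.cast_natCast, Int.cast_natCast] at this

end TEXA

open TEXA in
theorem t_EXA (hFB : FB) (hTR : TR) (hDENSE : DENSE) (hGALX : GALX) (hUT : UT) (hUHM : UHM)
    (hUQF : UQF) : EXA := by
  classical
  intro M h0 hM
  have : NeZero M := ⟨h0⟩
  obtain ⟨N, A, h1, h2⟩ := hUQF M h0 hM
  obtain ⟨h3, h4⟩ := hGALX M N ((ZMod 15)ˣ × VZ M) (fun i => ug M i.1 i.2) (fun i => A i.1 i.2)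
    ⟨h0, inferInstance, fun i => (hm hUHM hM _ _).1, fun i => (hm hUHM hM _ _).2.2,
      fun i => h1 _ _, fun γ hγ i => by
        obtain ⟨c, hc⟩ := hγ.2
        obtain ⟨β, hβ⟩ := unit hγ
        exact ⟨(i.1 * β, _), fun z hz => by
          rw [Units.val_mul, hβ]
          exact act hUT hγ hc _ _ hz⟩,
      fun σ i => ⟨(i.1, (i.2.1, i.2.2 * cy M σ)), h2 σ i.1 i.2⟩⟩
  refine ⟨fun b v => ⟨h3 (b, v), _, h3 (b, v), (hm hUHM hM _ _).2.1, rfl⟩, fun g hg => ?_⟩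
  obtain ⟨g0, k1, k2, k3⟩ := h4 (cg g)
  have k4 : g * g0⁻¹ ∈ geo := ⟨GG.mul_mem hg (GG.inv_mem k1), (mem_fixingSubgroup_iff _).2 (by
    rintro _ ⟨a, rfl⟩
    obtain ⟨a, rfl⟩ := (cg g).surjective a
    have e : g0 • cst a = cst (cg g a) := k2 ▸ hFB.2.2.2.2.2.2.1 g0 k1 a
    rw [mul_smul, ← e, inv_smul_smul, e]
    exact hFB.2.2.2.2.2.2.1 g hg a)⟩
  obtain ⟨γ, k5, k6⟩ := hDENSE _ k4 (Finset.univ.image fun i : (ZMod 15)ˣ × VZ M => Uz M i.1 i.2)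
  obtain ⟨c, hc⟩ := k5.adj.2
  obtain ⟨β, hβ⟩ := unit k5.adj
  refine ⟨β, γ.adj.a, 15 * γ.adj.b, cy M (cg g) * c, cy M (cg g) * γ.adj.d, ?_, fun e v => ?_⟩
  · have := congrArg (Int.cast : ℤ → ZMod M) k5.adj.1
    rw [M2.det, hc] at this
    push_cast at this
    linear_combination (cy M (cg g) : ZMod M) * this
  have k7 : g0 (Uz M e v) = Uz M e (v.1, v.2 * cy M (cg g)) := k3 (e, v) (e, _) (h2 _ e v)
  have k8 := k6 _ (Finset.mem_image_of_mem _ (Finset.mem_univ (e, (v.1, v.2 * cy M (cg g)))))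
  obtain ⟨k9, k10⟩ := (hTR.1 γ.adj ⟨by rw [k5.adj.1]; exact one_pos,
    by rw [k5.adj.1]; exact isCoprime_one_left, k5.adj.2⟩).2.2.2 _
    (h3 (e, (v.1, v.2 * cy M (cg g))))
  rw [pb, M2.adj_adj] at k10
  rw [← k7] at k8
  refine ((congrArg g (g0.symm_apply_apply _)).symm.trans (k8.trans ?_))
  rw [k7]
  refine k10.trans ((hFB.2.2.2.2.2.1 _ _ k9 (h3 (e * β, _))).2.2.2.2.2.2.2 fun z hz => ?_)
  rw [Units.val_mul, hβ, ← mul_assoc v.2, ← mul_assoc v.2]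
  exact act hUT k5.adj hc _ _ hz

end Pool.Agent.P.MP_9c97e9_nt.KT
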