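import Pool.Agent.P.MP_9c97e9_nt.KT.IfF2

/-! Two embeddings of the normal extension differ by an automorphism. -/

namespace Pool.Agent.P.MP_9c97e9_nt.KT

open MP_8b7eba_nt.Mod (xx yy)

namespace TEXTA

theorem agree {F : Type} [Field F] (j j' : LL →+* F) (hx : j (lf xx) = j' (lf xx))
    (hy : j (lf yy) = j' (lf yy)) (f : MF) (hf : f ∈ K0) :
    j ⟨f, K0_le hf⟩ = j' ⟨f, K0_le hf⟩ := by
  induction hf using Subfield.closure_induction with
  | mem x h =>
    rcases h with rfl | rfl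
    · have e : (⟨mf xx, K0_le xx_mem⟩ : LL) = lf xx := Subtype.ext (coe_lf inL_xx).symm
      exact e ▸ hx
    · have e : (⟨mf yy, K0_le yy_mem⟩ : LL) = lf yy := Subtype.ext (coe_lf inL_yy).symm
      exact e ▸ hy
  | one => exact (map_one j).trans (map_one j').symm
  | add x y h1 h2 i1 i2 =>
    have e : (⟨x + y, K0_le (add_mem h1 h2)⟩ : LL) = ⟨x, K0_le h1⟩ + ⟨y, K0_le h2⟩ := rfl
    rw [e, map_add, map_add, i1, i2]
  | neg x h1 i1 =>
    have e : (⟨-x, K0_le (neg_mem h1)⟩ : LL) = -⟨x, K0_le h1⟩ := rfl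
    rw [e, map_neg, map_neg, i1]
  | inv x h1 i1 =>
    have e : (⟨x⁻¹, K0_le (inv_mem h1)⟩ : LL) = (⟨x, K0_le h1⟩ : LL)⁻¹ := rfl
    rw [e, map_inv₀, map_inv₀, i1]
  | mul x y h1 h2 i1 i2 =>
    have e : (⟨x * y, K0_le (mul_mem h1 h2)⟩ : LL) = ⟨x, K0_le h1⟩ * ⟨y, K0_le h2⟩ := rfl
    rw [e, map_mul, map_mul, i1, i2]

theorem gen {K L F : Type} [Field K] [Field L] [Field F] [Algebra K L] [Normal K L]
    (j j' : L →+* F) (h : ∀ a : K, j (algebraMap K L a) = j' (algebraMap K L a)) :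
    ∃ g : L ≃ₐ[K] L, ∀ f, j' (g f) = j f := by
  letI : Algebra K F := (j'.comp (algebraMap K L)).toAlgebra
  letI : Algebra L F := j'.toAlgebra
  haveI : IsScalarTower K L F := IsScalarTower.of_algebraMap_eq fun _ => rfl
  let φ : L →ₐ[K] F := { j with commutes' := h }
  exact ⟨φ.restrictNormal' L, fun f => φ.restrictNormal_commutes L f⟩

end TEXTA

theorem t_EXTA (hNORM : NORM) : EXTA := by
  intro F _ j j' hx hy
  haveI : Normal K0 LL := hNORM.1
  obtain ⟨g, hg⟩ := TEXTA.gen (K := K0) j j' fun a => TEXTA.agree j j' hx hy a.1 a.2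
  refine ⟨g.toRingEquiv, (hNORM.2.1 _).2 fun f hf => ?_, hg⟩
  exact g.commutes ⟨f, hf⟩

end Pool.Agent.P.MP_9c97e9_nt.KT
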