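import Pool.Agent.P.MP_9c97e9_nt.KT.IfF2

/-! Extension of partial automorphisms. -/

namespace Pool.Agent.P.MP_9c97e9_nt.KT

open MP_8b7eba_nt.Mod (xx yy)

namespace TEXTB

theorem ext {R L F K : Type} [CommRing R] [Field L] [Field F] [IsAlgClosed F] [Field K]
    [Algebra K L] [Algebra.IsAlgebraic K L] (i : R →+* L) (φ : R →+* F)
    (h : ∀ r, i r = 0 ↔ φ r = 0) (hK : ∀ k : K, algebraMap K L k ∈ Subfield.closure (Set.range i)) :
    ∃ j : L →+* F, ∀ r, j (i r) = φ r := by
  let S := R ⧸ RingHom.ker i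
  have hi := RingHom.kerLift_injective i
  let ψ : S →+* F := Ideal.Quotient.lift _ φ fun r hr => (h r).1 hr
  have hψ : Function.Injective ψ := RingHom.lift_injective_of_ker_le_ideal _ _ fun r hr => (h r).2 hr
  have : IsDomain S := hi.isDomain _
  let _ : Algebra S L := i.kerLift.toAlgebra
  let _ : Algebra S F := ψ.toAlgebra
  have : FaithfulSMul S L := (faithfulSMul_iff_algebraMap_injective _ _).2 hi
  have : FaithfulSMul S F := (faithfulSMul_iff_algebraMap_injective _ _).2 hψ
  let A := Subalgebra.algebraicClosure S L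
  have hA : ∀ k : K, algebraMap K L k ∈ A := fun k => by
    refine Subfield.closure_induction (p := fun x _ => x ∈ A) ?_ A.one_mem
      (fun _ _ _ _ => A.add_mem) (fun _ _ => A.neg_mem) (fun _ _ => IsAlgebraic.inv)
      (fun _ _ _ _ => A.mul_mem) (hK k)
    rintro _ ⟨r, rfl⟩
    exact A.algebraMap_mem (Ideal.Quotient.mk _ r)
  have : Algebra.IsAlgebraic S L := ⟨fun x =>
    ((Algebra.IsAlgebraic.isAlgebraic (R := K) x).ringHom_of_comp_eq
      ((algebraMap K L).codRestrict A hA) (RingHom.id L) (RingHom.injective _) rfl).restrictScalars S⟩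
  exact ⟨(IsAlgClosed.lift : L →ₐ[S] F), fun r =>
    (IsAlgClosed.lift : L →ₐ[S] F).commutes (Ideal.Quotient.mk _ r)⟩

end TEXTB

theorem t_EXTB (hNORM : NORM) (hEXTA : EXTA) : EXTB := by
  intro R _ i i' x y h hx hx' hy hy'
  have := hNORM.1
  let a := algebraMap LL (AlgebraicClosure LL)
  obtain ⟨j, hj⟩ := TEXTB.ext (K := K0) i (a.comp i') (fun r => by simp [h r]) fun k => by
    have : K0 ≤ (Subfield.closure (Set.range i)).map (LL.val : LL →+* MF) := by
      refine Subfield.closure_le.2 ?_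
      rintro _ (rfl | rfl)
      · exact ⟨_, Subfield.subset_closure ⟨x, hx⟩, coe_lf inL_xx⟩
      · exact ⟨_, Subfield.subset_closure ⟨y, hy⟩, coe_lf inL_yy⟩
    obtain ⟨f, hf, e⟩ := this k.2
    rwa [show algebraMap K0 LL k = f from Subtype.ext e.symm]
  obtain ⟨g, hg, e⟩ := hEXTA _ j a (by rw [← hx, hj, hx, ← hx']; rfl)
    (by rw [← hy, hj, hy, ← hy']; rfl)
  exact ⟨g, hg, fun r => a.injective ((e _).trans (hj r))⟩

end Pool.Agent.P.MP_9c97e9_nt.KT
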