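import Pool.Agent.P.MP_9c97e9_nt.KT.IfF2

/-! Elementary properties of the function field. -/

namespace Pool.Agent.P.MP_9c97e9_nt.KT

open MP_8b7eba_nt.R2 Polynomial

namespace TFB

theorem alg (a : Om) : ∃ p : ℤ[X], p ≠ 0 ∧ p.eval₂ (Int.castRingHom _) a = 0 :=
  (IsFractionRing.isAlgebraic_iff ℤ ℚ Om).2 (Algebra.IsAlgebraic.isAlgebraic a)

theorem hom {F : Type} [Field F] (c : Om →+* F) {p : ℤ[X]} {a : Om}
    (h : p.eval₂ (Int.castRingHom _) a = 0) : p.eval₂ (Int.castRingHom _) (c a) = 0 := by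
  rw [Subsingleton.elim (Int.castRingHom F) (c.comp (Int.castRingHom _)), ← hom_eval₂, h, map_zero]

theorem root {F : Type} [Field F] (c : Om →+* F) {p : ℤ[X]} (h0 : p ≠ 0) {u : F}
    (h : p.eval₂ (Int.castRingHom _) u = 0) : ∃ a, c a = u := by
  have h1 : p.map (Int.castRingHom Om) ≠ 0 :=
    (Polynomial.map_ne_zero_iff (RingHom.injective_int _)).2 h0
  refine (IsAlgClosed.splits _).mem_range_of_isRoot h1 (i := c) ?_
  rwa [map_map, IsRoot, eval_map, Subsingleton.elim (c.comp _) (Int.castRingHom F)]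

theorem mem (hN : NORM) (a : Om) : cM.comp io a ∈ LL := by
  obtain ⟨p, h0, h1⟩ := alg a
  refine hN.2.2.1 _ (p.map (Int.castRingHom K0))
    ((Polynomial.map_ne_zero_iff (RingHom.injective_int _)).2 h0) ?_ ?_
  · rw [aeval_def, eval₂_map, Subsingleton.elim (RingHom.comp _ _) (Int.castRingHom MF)]
    exact hom _ h1
  · rw [map_map, Subsingleton.elim (RingHom.comp _ _) ((cM.comp io).comp (Int.castRingHom Om)),
      ← map_map]
    exact (IsAlgClosed.splits _).map _

theorem act (c : Om →+* LL) (g : AL) : ∃ σ : GQ, ∀ a, g (c a) = c (σ a) := by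
  have h : ∀ a, ∃ b, c b = g (c a) := fun a => by
    obtain ⟨p, h0, h1⟩ := alg a
    exact root c h0 (hom ((g : LL →+* LL).comp c) h1)
  choose f hf using h
  let φ : Om →+* Om :=
    { toFun := f
      map_one' := c.injective (by simp [hf])
      map_mul' := fun a b => c.injective (by simp [hf])
      map_zero' := c.injective (by simp [hf])
      map_add' := fun a b => c.injective (by simp [hf]) }
  exact ⟨AlgEquiv.ofBijective φ.toRatAlgHom (Algebra.IsAlgebraic.algHom_bijective _),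
    fun a => (hf a).symm⟩

end TFB

open TFB in
theorem t_FB (hNORM : NORM) : FB := by
  let c : Om →+* LL := (cM.comp io).codRestrict LL (mem hNORM)
  have hc : ∀ a, c a = cst a := fun a => (lf_coe (f := c a) (mf_const _)).symm
  refine ⟨⟨c, hc⟩, inL_xx, inL_yy, fun a => inL_of (f := c a) (hol_const _) (mf_const _),
    fun G H h e => h.congr e, fun G H hG hH => ⟨(hG.add hH).1, (hG.mul hH).1, hG.neg.1,
      (hG.add hH).2, (hG.mul hH).2, hG.neg.2, lf_inj hG hH⟩, fun g _ => ?_, hNORM.2.2.2.2.1,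
    fun x N hN hx => ?_, io_zo⟩
  · refine Classical.epsilon_spec (p := fun σ : GQ => ∀ a, g (cst a) = cst (σ a)) ?_
    simpa only [hc] using act c g
  · obtain ⟨a, ha⟩ := root c (p := X ^ N - 1) (u := x) (X_pow_sub_C_ne_zero (Nat.pos_of_ne_zero hN) 1)
      (by simp [hx])
    exact ⟨a, by rw [← hc, ha]⟩

end Pool.Agent.P.MP_9c97e9_nt.KT
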