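import Pool.Agent.P.MP_9c97e9_nt.KT.IfF2

/-! Stable families are permuted by the Galois group. -/

namespace Pool.Agent.P.MP_9c97e9_nt.KT

open scoped Polynomial PowerSeries
open MP_8b7eba_nt MP_8b7eba_nt.R2
open MP_8b7eba_nt.Mod (M2 G0 UH xx yy)
open MP_8b7eba_nt.R1 (Zb QE)

namespace TGAL1

theorem lift_of_eval {F : Type} [Field F] [CharZero F] (K : Subfield F) (P : F[X])
    (h : ∀ n : ℕ, P.eval (n : F) ∈ K) : ∃ Q : K[X], Q.map (algebraMap K F) = P := by
  classical
  haveI : CharZero K := K.subtype.charZero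
  have hi : Set.InjOn (fun n : ℕ => (n : K)) (Finset.range (P.natDegree + 1)) :=
    Nat.cast_injective.injOn
  refine ⟨Lagrange.interpolate (Finset.range (P.natDegree + 1)) (fun n : ℕ => (n : K))
    fun n => ⟨_, h n⟩, ?_⟩
  refine Polynomial.eq_of_degrees_lt_of_eval_index_eq (v := fun n : ℕ => (n : F))
    (Finset.range (P.natDegree + 1)) Nat.cast_injective.injOn
    (Polynomial.degree_map_le.trans_lt (Lagrange.degree_interpolate_lt _ hi)) ?_ fun n hn => ?_
  · rw [Finset.card_range]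
    exact Polynomial.degree_le_natDegree.trans_lt (by exact_mod_cast Nat.lt_succ_self _)
  · rw [← map_natCast (algebraMap K F), Polynomial.eval_map, Polynomial.eval₂_hom,
      Lagrange.eval_interpolate_at_node _ hi hn, map_natCast]
    rfl

theorem mg_prod (hMGB : MGB) {ι : Type} (s : Finset ι) {F : ι → ℂ → ℂ} (h : ∀ i, MG (F i)) :
    MG fun z => ∏ i ∈ s, F i z := by
  classical
  induction s using Finset.induction_on with
  | empty => exact hMGB.2.2.1 1
  | insert a s ha ih =>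
    simp only [Finset.prod_insert ha]
    exact (hMGB.2.2.2.1 _ _ (h a) ih).2

variable {w N : ℕ} {I : Type} {G : I → ℂ → ℂ} {A : I → Zb⟦X⟧}

theorem eqOn_of (q : QF w N G A) {i j : I} (h : A i = A j) : Set.EqOn (G i) (G j) UH :=
  fun z hz => mul_right_cancel₀ (pow_ne_zero N (Mod.qq_ne _))
    ((q.qe i z hz).unique (h ▸ q.qe j z hz))

theorem mem_K0 (hPOLQ : POLQ) (hMGB : MGB) [Fintype I] (q : QF w N G A)
    (hA : Function.Injective A) (n : ℕ) : ∏ i, ((n : MF) - mf (G i)) ∈ K0 := by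
  have hw : 0 < w := Nat.pos_of_ne_zero q.ne
  have key : ∀ i j, Set.EqOn (G i) (G j) UH → i = j := fun i j e =>
    hA ((q.qe i).unique hw ((q.qe j).congr fun z hz => e hz))
  have hh : ∀ i, Hol fun z => (n : ℂ) - G i z := fun i => (hol_const _).fun_sub (q.hol i)
  obtain ⟨h1, h2⟩ := mf_prod Finset.univ (F := fun i z => (n : ℂ) - G i z) fun i _ => hh i
  have h3 : ∀ i, mf (fun z => (n : ℂ) - G i z) = n - mf (G i) := fun i => by
    rw [mf_sub (hol_const _) (q.hol i), mf_const, map_natCast]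
  simp only [h3] at h2
  rw [← h2]
  refine hPOLQ _ w (∑ _i : I, N) (∏ i, (PowerSeries.X ^ N * PowerSeries.C (n : Zb) - A i)) q.ne h1
    (mg_prod hMGB _ fun i => ?_) (fun γ hγ z hz => ?_)
    (QE.prod hw _ fun i _ => ?_) fun σ => ?_
  · refine hMGB.2.2.2.2.1 _ _ (hMGB.2.2.2.1 _ _ (hMGB.2.2.1 n)
      (hMGB.2.2.2.1 _ _ (hMGB.2.2.1 (-1)) (q.mg i)).2).1 fun z _ => ?_
    simp [sub_eq_add_neg]
  · choose f hf using q.inv γ hγ
    have hi : Function.Injective f := fun i j e => key i j fun z hz => by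
      have h' : 0 < (γ.adj.act z).im := M2.im_act_pos hγ.adj.det_pos hz
      have := (hf i h').trans (e ▸ (hf j h').symm)
      simpa only [act_adj hγ.det_pos hz] using this
    exact Fintype.prod_bijective f (Finite.injective_iff_bijective.1 hi) _ _ fun i =>
      congrArg (fun t => (n : ℂ) - t) (hf i hz)
  · have := (QE.const w (n : Zb)).shift N
    rw [zero_add] at this
    simpa using this.sub (q.qe i)
  · choose f hf using q.cj σ
    have hi : Function.Injective f := fun i j e => hA (by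
      rw [Cj_iff.1 (hf i).symm, Cj_iff.1 (hf j).symm, e])
    rw [Cj_iff, map_prod]
    refine (Fintype.prod_bijective f (Finite.injective_iff_bijective.1 hi) _ _ fun i => ?_).symm
    rw [Cj_iff.1 (hf i)]
    simp

theorem main (hPOLQ : POLQ) (hMGB : MGB) (hNORM : NORM) (q : QF w N G A)
    (hA : Function.Injective A) :
    (∀ i, InL (G i)) ∧ ∀ g ∈ GG, ∀ i, ∃ j, g (lf (G i)) = lf (G j) := by
  haveI := q.fin
  haveI := Fintype.ofFinite I
  obtain ⟨Q, hQ⟩ := lift_of_eval K0 (∏ i, (Polynomial.X - Polynomial.C (mf (G i)))) fun n => by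
    simpa [Polynomial.eval_prod] using mem_K0 hPOLQ hMGB q hA n
  have hev : ∀ f : MF, Polynomial.aeval f Q = ∏ i, (f - mf (G i)) := fun f => by
    rw [← Polynomial.eval_map_algebraMap, hQ]
    simp [Polynomial.eval_prod]
  have h0 : Q ≠ 0 := fun e => by
    rw [e, Polynomial.map_zero] at hQ
    exact (Polynomial.monic_prod_X_sub_C (fun i => mf (G i)) Finset.univ).ne_zero hQ.symm
  have hr : ∀ i, Polynomial.aeval (mf (G i)) Q = 0 := fun i => by
    rw [hev]
    exact Finset.prod_eq_zero (Finset.mem_univ i) (sub_self _)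
  have hL : ∀ i, InL (G i) := fun i => ⟨q.hol i, hNORM.2.2.1 _ Q h0 (hr i) (by
    rw [hQ]
    exact Polynomial.Splits.prod fun i _ => Polynomial.Splits.X_sub_C _)⟩
  refine ⟨hL, fun g hg i => ?_⟩
  have hc : ∀ f : LL, ((Polynomial.aeval f Q : LL) : MF) = Polynomial.aeval (f : MF) Q :=
    fun f => (Polynomial.aeval_algHom_apply LL.val f Q).symm
  have h1 : Polynomial.aeval (lf (G i)) Q = 0 := Subtype.ext (by
    rw [hc, coe_lf (hL i), hr]; rfl)
  have h2 : (g : LL →+* LL).comp (algebraMap K0 LL) = algebraMap K0 LL :=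
    RingHom.ext fun c => (hNORM.2.1 g).1 hg _ c.2
  have h3 : Polynomial.aeval (g (lf (G i))) Q = 0 := by
    have := congrArg (g : LL →+* LL) h1
    rwa [map_zero, Polynomial.aeval_def, Polynomial.hom_eval₂, h2] at this
  have h4 := hc (g (lf (G i)))
  rw [h3, hev] at h4
  obtain ⟨j, -, hj⟩ := Finset.prod_eq_zero_iff.1 h4.symm
  exact ⟨j, Subtype.ext (by rw [coe_lf (hL j)]; exact sub_eq_zero.1 hj)⟩

end TGAL1

theorem t_GAL1 (hPOLQ : POLQ) (hMGB : MGB) (hNORM : NORM) : GAL1 := by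
  intro w N I G A q
  haveI := q.fin
  have hr : ∀ a : Set.range A, ∃ i, A i = a := fun a => a.2
  choose r hr using hr
  have he : ∀ i, Set.EqOn (G i) (G (r ⟨A i, i, rfl⟩)) UH := fun i =>
    TGAL1.eqOn_of q (hr ⟨A i, i, rfl⟩).symm
  have q' : QF w N (fun a : Set.range A => G (r a)) fun a => (a : Zb⟦X⟧) :=
    { ne := q.ne
      fin := inferInstance
      hol := fun a => q.hol _
      mg := fun a => q.mg _
      qe := fun a => hr a ▸ q.qe _
      inv := fun γ hγ a => by
        obtain ⟨j, hj⟩ := q.inv γ hγ (r a)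
        exact ⟨_, hj.trans (he j)⟩
      cj := fun σ a => by
        obtain ⟨j, hj⟩ := q.cj σ (r a)
        exact ⟨⟨A j, j, rfl⟩, hr a ▸ hj⟩ }
  obtain ⟨h1, h2⟩ := TGAL1.main hPOLQ hMGB hNORM q' Subtype.val_injective
  refine ⟨fun i => (h1 _).congr (he i), fun g hg i => ?_⟩
  obtain ⟨j, hj⟩ := h2 g hg ⟨A i, i, rfl⟩
  exact ⟨r j, by rw [lf_congr (he i)]; exact hj⟩

end Pool.Agent.P.MP_9c97e9_nt.KT
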