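import Pool.Agent.P.MP_9c97e9_nt.KT.IfF2

/-! The Galois action on expansions. -/

namespace Pool.Agent.P.MP_9c97e9_nt.KT

open scoped PowerSeries
open MP_8b7eba_nt MP_8b7eba_nt.R2
open MP_8b7eba_nt.Mod (UH xx yy)
open MP_8b7eba_nt.R1 (Zb QE zs)

namespace TGALX

theorem self {w N : ℕ} (hw : w ≠ 0) (σ : GQ) {A : ℤ⟦X⟧} {G : ℂ → ℂ} (h : QE 1 N (zs A) G) :
    Cq w σ G G := by
  refine ⟨_, _, _, h.expand_one hw, h.expand_one hw, Cj_iff.2 ?_⟩
  rw [PowerSeries.map_expand]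
  congr 1
  ext k
  simp

theorem exy : ∃ A : ℤ⟦X⟧, QE 1 3 (zs A) yy := by
  obtain ⟨A, -, hA⟩ := R1.exists_xx
  obtain ⟨B, -, hB⟩ := R1.exists_y1
  have h := ((hB.add hB).neg.sub (hA.shift 1)).congr (H := yy) fun z _ => by
    rw [R1.y1]; ring
  exact ⟨-(B + B) - PowerSeries.X ^ 1 * A, by simpa using h⟩

theorem xy {w : ℕ} (hw : w ≠ 0) (σ : GQ) (k : Fin 2) : Cq w σ (![xx, yy] k) (![xx, yy] k) := by
  obtain ⟨A, -, hA⟩ := R1.exists_xx
  obtain ⟨B, hB⟩ := exy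
  fin_cases k
  exacts [self hw σ hA, self hw σ hB]

theorem zero (hFB : FB) {c : Om →+* LL} (hc : ∀ a, c a = cst a) (s : Om →+* Om) {J : Type}
    {F : J → ℂ → ℂ} (hF : ∀ j, InL (F j)) (P : MvPolynomial J Om) :
    MvPolynomial.eval₂Hom (c.comp s) (fun j => lf (F j)) P = 0 ↔
      ∀ z : ℂ, 0 < z.im → P.eval₂ (io.comp s) (fun j => F j z) = 0 := by
  obtain ⟨h1, h2⟩ := mf_mv (io.comp s) (fun j => (hF j).1) P
  have e : (LL.val : LL →+* MF).comp (c.comp s) = cM.comp (io.comp s) := RingHom.ext fun a => by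
    change (c (s a) : MF) = _
    rw [hc, cst, coe_lf (hFB.2.2.2.1 _), mf_const]
    rfl
  rw [← mf_eq_zero h1, h2, ← map_eq_zero_iff (LL.val : LL →+* MF) (RingHom.injective _),
    MvPolynomial.coe_eval₂Hom, MvPolynomial.hom_eval₂, e]
  simp only [show ∀ j, (LL.val : LL →+* MF) (lf (F j)) = mf (F j) from fun j => coe_lf (hF j)]

end TGALX

open TGALX in
theorem t_GALX (hGAL1 : GAL1) (hKER : KER) (hEXTB : EXTB) (hFB : FB) : GALX := by
  intro w N I G A h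
  have hG := (hGAL1 w N I G A h).1
  refine ⟨hG, fun σ => ?_⟩
  obtain ⟨c, hc⟩ := hFB.1
  choose j hj using h.cj σ
  have h2 : ∀ k : Fin 2, InL (![xx, yy] k) := fun k => by
    fin_cases k
    exacts [inL_xx, inL_yy]
  let F : I ⊕ Fin 2 → ℂ → ℂ := Sum.elim G ![xx, yy]
  let F' : I ⊕ Fin 2 → ℂ → ℂ := Sum.elim (fun i => G (j i)) ![xx, yy]
  have hF : ∀ k, InL (F k) := Sum.rec hG h2
  have hF' : ∀ k, InL (F' k) := Sum.rec (fun i => hG (j i)) h2
  have q : ∀ k, Cq w σ (F k) (F' k) :=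
    Sum.rec (fun i => ⟨_, _, _, h.qe i, h.qe _, hj i⟩) (xy h.ne σ)
  have q' : ∀ k, Cq w σ⁻¹ (F' k) (F k) :=
    Sum.rec (fun i => ⟨_, _, _, h.qe _, h.qe i, (hj i).symm⟩) (xy h.ne σ⁻¹)
  obtain ⟨g, hg, e⟩ := hEXTB (MvPolynomial (I ⊕ Fin 2) Om)
    (MvPolynomial.eval₂Hom (c.comp (RingHom.id _)) fun k => lf (F k))
    (MvPolynomial.eval₂Hom (c.comp (σ : Om →+* Om)) fun k => lf (F' k))
    (MvPolynomial.X (Sum.inr 0)) (MvPolynomial.X (Sum.inr 1)) (fun P => by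
      rw [zero hFB hc _ hF, zero hFB hc _ hF']
      refine ⟨hKER w σ _ F F' h.ne q P, fun h3 z hz => ?_⟩
      have := hKER w σ⁻¹ _ F' F h.ne q' (P.map (σ : Om →+* Om))
        (fun z hz => by rw [MvPolynomial.eval₂_map]; exact h3 z hz) z hz
      rw [MvPolynomial.eval₂_map] at this
      convert this using 2
      exact RingHom.ext fun a => congrArg io (σ.symm_apply_apply a).symm)
    (MvPolynomial.eval₂Hom_X' _ _ _) (MvPolynomial.eval₂Hom_X' _ _ _)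
    (MvPolynomial.eval₂Hom_X' _ _ _) (MvPolynomial.eval₂Hom_X' _ _ _)
  refine ⟨g, hg, AlgEquiv.ext fun a => c.injective ?_, fun i k hk => ?_⟩
  · have := e (MvPolynomial.C a)
    rw [MvPolynomial.eval₂Hom_C, MvPolynomial.eval₂Hom_C] at this
    rw [hc, ← hFB.2.2.2.2.2.2.1 g hg, ← hc]
    exact this
  · have := e (MvPolynomial.X (Sum.inl i))
    rw [MvPolynomial.eval₂Hom_X', MvPolynomial.eval₂Hom_X'] at this
    refine this.trans (lf_congr fun z hz => ?_)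
    have h3 := h.qe k z hz
    rw [Cj_iff.1 hk, ← Cj_iff.1 (hj i)] at h3
    exact mul_right_cancel₀ (pow_ne_zero _ (Mod.qq_ne _)) ((h.qe (j i) z hz).unique h3)

end Pool.Agent.P.MP_9c97e9_nt.KT
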