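import Pool.Agent.P.MP_9c97e9_nt.KT.IfF2

/-! The action on the Hecke representatives. -/

namespace Pool.Agent.P.MP_9c97e9_nt.KT

open MP_8b7eba_nt.R2
open MP_8b7eba_nt.Mod (M2 G0 UH xx yy)
open MP_8b7eba_nt.R1 (IntR IntM Int_det)

theorem t_HEC (hTR : TR) (hPERM : PERM) (hDIST : DIST) : HEC := by
  intro m h0 h15 g hg t ht
  have hd := fun s (hs : s ∈ IntR m) => Int_det (Nat.pos_of_ne_zero h0) hs
  have hL : ∀ s ∈ IntR m, Lm (IntM s) := fun s hs =>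
    ⟨by rw [hd s hs]; omega, by rw [hd s hs]; exact Nat.isCoprime_iff_coprime.2 h15, dvd_zero _⟩
  have key : ∀ s ∈ IntR m, (pb (IntM s))⁻¹ * g * pb (IntM t) ∈ GG ↔
      g (lf fun z => xx ((IntM t).act z)) = lf (fun z => xx ((IntM s).act z)) ∧
      g (lf fun z => yy ((IntM t).act z)) = lf fun z => yy ((IntM s).act z) := fun s hs => by
    have k : ∀ f : LL, ((pb (IntM s))⁻¹ * g * pb (IntM t)) f = f ↔
        g (pb (IntM t) f) = pb (IntM s) f := fun f => (pb (IntM s)).symm_apply_eq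
    have a := (hTR.1 _ (hL t ht)).2.2.2
    have b := (hTR.1 _ (hL s hs)).2.2.2
    rw [mem_GG, k, k, (a _ inL_xx).2, (a _ inL_yy).2, (b _ inL_xx).2, (b _ inL_yy).2]
  obtain ⟨s, hs, e⟩ := (hPERM _ (hL t ht)).2.2 g hg
  rw [hd t ht, Int.toNat_natCast] at hs
  refine ⟨s, ⟨hs, (key s hs).2 e⟩, fun s' ⟨hs', e'⟩ => ?_⟩
  have e2 := (key s' hs').1 e'
  have a := hPERM _ (hL s hs)
  have b := hPERM _ (hL s' hs')
  exact hDIST m h0 s' hs' s hs fun z hz =>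
    ⟨(lf_inj b.1 a.1).1 (e2.1.symm.trans e.1) hz, (lf_inj b.2.1 a.2.1).1 (e2.2.symm.trans e.2) hz⟩

end Pool.Agent.P.MP_9c97e9_nt.KT
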