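import Pool.Agent.P.MP_9c97e9_nt.KT.IfF2

/-! Proof of INTX. -/

namespace Pool.Agent.P.MP_9c97e9_nt.KT

open MP_8b7eba_nt.Mod (xx yy)
open Polynomial

namespace TINTX

theorem gen {K L : Type} [Field K] [Field L] [Algebra K L] (x : L)
    (h : ∀ k : K, IsAlgebraic (Algebra.adjoin ℤ {x}) (algebraMap K L k)) {f : L}
    (hf : IsIntegral K f) :
    ∃ p : ℤ[X], aeval x p ≠ 0 ∧ IsIntegral (Algebra.adjoin ℤ {x}) (f * aeval x p) := by
  have h1 : IsIntegral (Subalgebra.algebraicClosure (Algebra.adjoin ℤ {x}) L) f :=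
    hf.map_of_comp_eq ((algebraMap K L).codRestrict _ h) (RingHom.id L) rfl
  obtain ⟨⟨d, hd⟩, h2, h3⟩ :=
    (h1.isAlgebraic.restrictScalars (Algebra.adjoin ℤ {x})).exists_integral_multiple
  obtain ⟨p, rfl⟩ := Algebra.adjoin_singleton_eq_range_aeval ℤ x ▸ hd
  exact ⟨p, fun e => h2 (Subtype.ext e), mul_comm (aeval x p) f ▸ h3⟩

theorem sq {A L : Type} [CommRing A] [Nontrivial A] [Field L] [Algebra A L] {y : L} (a : A)
    (h : y ^ 2 = algebraMap A L a) : IsAlgebraic A y :=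
  (IsIntegral.of_pow two_pos (h ▸ isIntegral_algebraMap)).isAlgebraic

theorem crv : lf yy ^ 2 = aeval (lf xx) (4 * X ^ 3 - 7 * X ^ 2 - 36 * X : ℤ[X]) := by
  rw [← (inL_yy.pow 2).2, ← (inL_xx.zpoly _).2]
  exact lf_congr fun z hz => by simp [curve hz, map_ofNat]

end TINTX

open TINTX

theorem t_INTX (hNORM : NORM) : INTX := by
  intro f
  refine gen (lf xx) (fun ⟨k, hk⟩ => ?_) (hNORM.1.isIntegral f)
  change IsAlgebraic _ (⟨k, K0_le hk⟩ : LL)
  induction hk using Subfield.closure_induction with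
  | mem x hx =>
    rcases hx with rfl | rfl
    · rw [← lf_coe (f := ⟨_, inL_xx.2⟩) rfl]
      exact isAlgebraic_algebraMap
        (⟨lf xx, Algebra.self_mem_adjoin_singleton ℤ _⟩ : Algebra.adjoin ℤ {lf xx})
    · rw [← lf_coe (f := ⟨_, inL_yy.2⟩) rfl]
      exact sq ⟨_, Polynomial.aeval_mem_adjoin_singleton ℤ _⟩ crv
  | one => exact isAlgebraic_one
  | add x y _ _ hx hy => exact hx.add hy
  | neg x _ hx => exact hx.neg
  | inv x _ hx => exact hx.inv
  | mul x y _ _ hx hy => exact hx.mul hy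

end Pool.Agent.P.MP_9c97e9_nt.KT
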