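import Pool.Agent.P.MP_9c97e9_nt.KT.BasZ

/-! Conjugate functions satisfy conjugate relations. -/

namespace Pool.Agent.P.MP_9c97e9_nt.KT

open MP_8b7eba_nt.R2
open MP_8b7eba_nt.R1 (Zb QE)
open MP_8b7eba_nt.Mod (qq_ne)

namespace TKER

variable {w : ℕ} {σ : GQ} {G G' H H' : ℂ → ℂ}

theorem add (h : Cq w σ G G') (h' : Cq w σ H H') :
    Cq w σ (fun z => G z + H z) fun z => G' z + H' z := by
  obtain ⟨N, A, B, h1, h2, h3⟩ := h
  obtain ⟨N', A', B', h4, h5, h6⟩ := h'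
  refine ⟨N + N', _, _, (h1.shift N').add (add_comm N N' ▸ h4.shift N),
    (h2.shift N').add (add_comm N N' ▸ h5.shift N), Cj_iff.2 ?_⟩
  simp [Cj_iff.1 h3, Cj_iff.1 h6]

theorem mul (hw : w ≠ 0) (h : Cq w σ G G') (h' : Cq w σ H H') :
    Cq w σ (fun z => G z * H z) fun z => G' z * H' z := by
  obtain ⟨N, A, B, h1, h2, h3⟩ := h
  obtain ⟨N', A', B', h4, h5, h6⟩ := h'
  refine ⟨N + N', _, _, h1.mul hw.pos h4, h2.mul hw.pos h5, Cj_iff.2 ?_⟩
  simp [Cj_iff.1 h3, Cj_iff.1 h6]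

theorem const (a : Zb) : Cq w σ (fun _ => a) fun _ => sZ σ a :=
  ⟨0, _, _, QE.const w a, QE.const w _, Cj_iff.2 (by simp)⟩

theorem nat (hw : w ≠ 0) (m : ℕ) (h : Cq w σ G G') :
    Cq w σ (fun z => m * G z) fun z => m * G' z := by
  simpa using mul hw (const m) h

theorem zero (hw : w ≠ 0) (h : Cq w σ G G') (h0 : ∀ z : ℂ, 0 < z.im → G z = 0) (z : ℂ)
    (hz : 0 < z.im) : G' z = 0 := by
  obtain ⟨N, A, B, h1, h2, h3⟩ := h
  have h4 : A = 0 := h1.unique hw.pos fun z hz => by simp [h0 z hz]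
  have h5 := h2 z hz
  simp only [Cj_iff.1 h3, h4, map_zero, ZeroMemClass.coe_zero, zero_mul] at h5
  exact (mul_eq_zero.1 (h5.unique hasSum_zero)).resolve_right (pow_ne_zero _ (qq_ne _))

end TKER

open TKER

theorem t_KER : KER := by
  intro w σ J F F' hw hF P h0 z hz
  obtain ⟨m, hm, h⟩ : ∃ m : ℕ, m ≠ 0 ∧ Cq w σ (fun z => m * P.eval₂ io fun j => F j z)
      fun z => m * P.eval₂ (io.comp (σ : Om →+* Om)) fun j => F' j z := by
    clear h0
    induction P using MvPolynomial.induction_on with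
    | C x =>
      obtain ⟨m, a, hm, e⟩ := exists_den x
      refine ⟨m, hm, ?_⟩
      convert const (w := w) (σ := σ) a using 2
      · rw [← io_zo, ← e]
        simp
      · rw [coe_sZ, ← e]
        simp
    | add p q hp hq =>
      obtain ⟨m, hm, h⟩ := hp
      obtain ⟨n, hn, h'⟩ := hq
      refine ⟨m * n, mul_ne_zero hm hn, ?_⟩
      convert add (nat hw n h) (nat hw m h') using 2 <;>
      · rw [MvPolynomial.eval₂_add]
        push_cast
        ring
    | mul_X p j hp =>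
      obtain ⟨m, hm, h⟩ := hp
      exact ⟨m, hm, by simpa [mul_assoc] using mul hw h (hF j)⟩
  exact (mul_eq_zero.1 (zero hw h (fun z hz => by simp [h0 z hz]) z hz)).resolve_left
    (Nat.cast_ne_zero.2 hm)

end Pool.Agent.P.MP_9c97e9_nt.KT
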