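import Pool.Agent.P.MP_9c97e9_nt.KT.IfF1
import Pool.Agent.P.MP_8b7eba_nt.ModFin

/-! The uniformisation exists. -/

namespace Pool.Agent.P.MP_9c97e9_nt.KT

open Complex Filter Topology
open MP_8b7eba_nt
open MP_8b7eba_nt.Mod (M2 G0 xx yy nP nM FI L0 om lv)

namespace TLATX

open MP_8b7eba_nt.R1

theorem mod4 {G : Type} [AddCommGroup G] {c : G} (h4 : (4 : ℤ) • c = 0) (n : ℤ) :
    (4 ∣ n ∧ n • c = 0) ∨ n • c = c ∨ n • c = c + c ∨ n • c = -c := by
  have e : n • c = (n % 4) • c := by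
    conv_lhs => rw [← Int.emod_add_ediv_mul n 4, add_smul, mul_smul, h4, smul_zero, add_zero]
  have h3 : (3 : ℤ) • c = -c := by
    rw [eq_neg_iff_add_eq_zero, ← h4, show (4 : ℤ) = 3 + 1 from rfl, add_smul, one_smul]
  rcases (show n % 4 = 0 ∨ n % 4 = 1 ∨ n % 4 = 2 ∨ n % 4 = 3 by omega) with h | h | h | h <;>
    rw [e, h]
  · exact .inl ⟨by omega, zero_smul _ _⟩
  · exact .inr (.inl (one_smul _ _))
  · exact .inr (.inr (.inl (two_smul _ _)))
  · exact .inr (.inr (.inr h3))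

theorem lat_aux {G : Type} [AddCommGroup G] {c d : G} (h4 : (4 : ℤ) • c = 0)
    (h2 : (2 : ℤ) • d = 0) (hc : c + c ≠ 0) (hd : ∀ n : ℤ, d ≠ n • c) (a b : ℤ) :
    a • c + b • d = 0 ↔ 4 ∣ a ∧ 2 ∣ b := by
  have e : ∀ k : ℤ, (2 * k) • d = 0 := fun k => by rw [mul_comm, mul_smul, h2, smul_zero]
  constructor
  · intro h
    rcases Int.even_or_odd' b with ⟨k, rfl | rfl⟩
    · rw [e, add_zero] at h
      refine ⟨?_, k, rfl⟩
      have h0 : c ≠ 0 := fun h0 => hc (by rw [h0, add_zero])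
      rcases mod4 h4 a with h1 | h1 | h1 | h1
      · exact h1.1
      · exact absurd (h1.symm.trans h) h0
      · exact absurd (h1.symm.trans h) hc
      · exact absurd (neg_eq_zero.1 (h1.symm.trans h)) h0
    · rw [add_smul, e, zero_add, one_smul] at h
      exact absurd (by rw [neg_smul]; exact eq_neg_of_add_eq_zero_right h) (hd (-a))
  · rintro ⟨⟨k, rfl⟩, l, rfl⟩
    rw [e, add_zero, mul_comm, mul_smul, h4, smul_zero]

theorem four_aux {G : Type} [AddCommGroup G] {p q T : G} {A B C : G → Prop}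
    (hA : ∀ x y, A x → A y → x = y) (hB : ∀ x y, B x → B y → x = y)
    (hC : ∀ x y, C x → C y → x = y) (h : ∀ x, x + x = 0 → x = 0 ∨ A x ∨ B x ∨ C x)
    (hp : p + p = 0) (hq : q + q = 0) (p0 : p ≠ 0) (q0 : q ≠ 0) (r0 : p + q ≠ 0)
    (hT : T + T = 0) : T = 0 ∨ T = p ∨ T = q ∨ T = p + q := by
  have hr : p + q + (p + q) = 0 := by rw [add_add_add_comm, hp, hq, add_zero]
  have n1 : p ≠ q := fun e => r0 (by rw [← e, hp])
  have n2 : p ≠ p + q := fun e => q0 (left_eq_add.1 e)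
  have n3 : q ≠ p + q := fun e => p0 (right_eq_add.1 e)
  have a := (h p hp).resolve_left p0
  have b := (h q hq).resolve_left q0
  have c := (h _ hr).resolve_left r0
  refine (h T hT).imp_right fun t => ?_
  grind

theorem main : ∃ (L : PeriodPair) (h : ℂ →+ EC), (∀ w, h w = 0 ↔ w ∈ L.lattice) ∧
    (∀ w, w ∉ L.lattice → Is (h w) (4 * L.weierstrassP w + 7 / 3) (8 * L.derivWeierstrassP w)) ∧
    (∀ z : ℂ, 0 < z.im → Is (h (FI z)) (4 * xx z) (8 * yy z)) ∧
    (∀ a b : ℤ, h (a * L0 + b * om * I) = 0 ↔ 4 ∣ a ∧ 2 ∣ b) ∧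
    (∀ γ, G0 γ → h (lv γ.a γ.c) = 0) ∧ ∀ (k : ℕ) T, 2 ^ k • T = 0 → ∃ w, h w = T := by
  obtain ⟨L, h2, h3⟩ := exists_lattice
  obtain ⟨u, hu0, hu⟩ := exists_hom L h2 h3
  have fi : ∀ z : ℂ, 0 < z.im → Is (u (FI z)) (4 * xx z) (8 * yy z) := fun z hz => by
    obtain ⟨h4, h5⟩ := unif_global L h2 h3 hz
    have := hu _ h4
    rwa [h5, unif_yy L h2 h3 hz, show 4 * (xx z - 7 / 12) + 7 / 3 = 4 * xx z by ring] at this
  have per : ∀ g, G0 g → u (lv g.a g.c) = 0 := fun g hg => by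
    have hI : 0 < I.im := by simp
    have h := fi _ (M2.im_act_pos hg.det_pos hI)
    rw [Mod.FI_act hg.det_pos (ε := 1) (fun z hz => by
      simpa using (Mod.ff_inv g hg).sl_eq hg.1 hz) hI, one_mul, map_add, Mod.xx_inv g hg _ hI,
      Mod.yy_inv hg hI] at h
    simpa using h.unique split15 (fi _ hI)
  have cusp : ∀ (g : M2) (x : ℂ), 0 < g.det → Tendsto (fun z => xx (g.act z)) Mod.atI (𝓝 x) →
      ∃ η, Is (u (lv g.a g.c)) (4 * x) η := fun g x hd hx => by
    obtain ⟨h5, h6⟩ := unif_lim L (Mod.tendsto_lv hd) (fun h => (Mod.ev_im 0).mono fun z hz e =>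
      (unif_global L h2 h3 (M2.im_act_pos hd hz)).1 (e ▸ h))
      ((hx.sub_const (7 / 12)).congr' ((Mod.ev_im 0).mono fun z hz =>
        (unif_global L h2 h3 (M2.im_act_pos hd hz)).2.symm))
    have := hu _ h5
    rw [h6, show 4 * (x - 7 / 12) + 7 / 3 = 4 * x by ring] at this
    exact ⟨_, this⟩
  have e : ∀ a b : ℤ, u (a * L0 + b * om * I) = a • u L0 + b • u (om * I) := fun a b => by
    rw [← map_zsmul, ← map_zsmul, ← map_add, zsmul_eq_mul, zsmul_eq_mul, mul_assoc]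
  obtain ⟨η, hc⟩ := cusp _ _ (by decide) unif_tendsto_W
  rw [show lv _ _ = L0 by simp [lv, Mod.lam_zero], show (4 * 9 : ℂ) = 36 by norm_num] at hc
  obtain ⟨η', hc'⟩ := cusp _ _ (by decide) Mod.xx_cusp
  rw [Mod.lv_eq, e, mul_zero] at hc'
  have c4 : (4 : ℤ) • u L0 = 0 := by
    have h := per ⟨8, 1, 15, 2⟩ (by decide)
    rw [Mod.lv_eq, show nP 8 15 = -4 by decide +kernel, show nM 8 15 = 0 by decide +kernel, e,
      zero_smul, add_zero, neg_smul] at h
    exact neg_eq_zero.1 h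
  have d2 : (2 : ℤ) • u (om * I) = 0 := by
    have h := per ⟨4, -1, -15, 4⟩ (by decide)
    rw [Mod.lv_eq, show nP 4 (-15) = 0 by decide +kernel, show nM 4 (-15) = -2 by decide +kernel,
      e, zero_smul, zero_add, neg_smul] at h
    exact neg_eq_zero.1 h
  have hη := hc.eq split15
  have η0 : η ≠ 0 := fun h => by rw [h] at hη; norm_num at hη
  have hcc := hc.add_self split15 η0 (m := η / 20) (x₃ := 16) (by linear_combination hη / 20)
    (by linear_combination -hη / 400)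
  have lat : ∀ a b : ℤ, u (a * L0 + b * om * I) = 0 ↔ 4 ∣ a ∧ 2 ∣ b := fun a b => by
    rw [e]
    refine lat_aux c4 d2 hcc.ne_zero (fun n hn => ?_) a b
    rw [hn, smul_smul, ← add_smul] at hc'
    rcases mod4 c4 (nP 1 5 + nM 1 5 * n) with h | h | h | h
    · exact hc'.ne_zero h.2
    · exact absurd ((h ▸ hc').inj hc).1 (by norm_num)
    · exact absurd ((h ▸ hc').inj hcc).1 (by norm_num)
    · exact absurd ((h ▸ hc').inj hc.neg).1 (by norm_num)
  refine ⟨L, u, fun w => ⟨fun h => by_contra fun h' => (hu w h').ne_zero h, hu0 w⟩, hu, fi, lat,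
    per, fun k => ?_⟩
  have tw : ∀ T : EC, T + T = 0 → ∃ w, u w = T := fun T hT => by
    have n : ∀ a b : ℤ, ¬ (4 ∣ a ∧ 2 ∣ b) → a • u L0 + b • u (om * I) ≠ 0 := fun a b h h' =>
      h ((lat a b).1 (by rw [e, h']))
    rcases four_aux (p := (2 : ℤ) • u L0) (q := u (om * I))
      (fun _ _ => Is.unique split15) (fun _ _ => Is.unique split15) (fun _ _ => Is.unique split15)
      (fun x hx => two_torsion split15 hx) (by rw [← add_smul]; exact c4)
      (by rw [← two_smul ℤ]; exact d2) (by simpa using n 2 0 (by decide))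
      (by simpa using n 0 1 (by decide)) (by simpa using n 2 1 (by decide)) hT with h | h | h | h
    · exact ⟨0, by rw [h, map_zero]⟩
    · exact ⟨_, by rw [h, ← map_zsmul]⟩
    · exact ⟨_, h.symm⟩
    · exact ⟨_, by rw [h, ← map_zsmul, ← map_add]⟩
  induction k with
  | zero => exact fun T hT => ⟨0, by rw [map_zero, ← hT, pow_zero, one_smul]⟩
  | succ k ih =>
    intro T hT
    obtain ⟨w, hw⟩ := ih (T + T) (by rw [← two_smul ℕ, smul_smul, ← pow_succ, hT])
    obtain ⟨v, hv⟩ := tw (T - u (w / 2)) (by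
      rw [sub_add_sub_comm, ← map_add, add_halves, hw, sub_self])
    exact ⟨v + w / 2, by rw [map_add, hv, sub_add_cancel]⟩

end TLATX

theorem t_LATX : LATX := by
  obtain ⟨L, h, h1, h2, h3, h4, h5, h6⟩ := TLATX.main
  exact ⟨L, h, h1, h2, h3, h4, h5, h6⟩

end Pool.Agent.P.MP_9c97e9_nt.KT
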