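import Pool.Agent.P.MP_9c97e9_nt.KT.IfF1

/-! Descent of linear relations. -/

namespace Pool.Agent.P.MP_9c97e9_nt.KT

theorem t_LDS : LDS := by
  intro K I _ _ e s t c h
  letI := e.toAlgebra
  obtain ⟨lam, hl⟩ := LinearMap.exists_leftInverse_of_injective (Algebra.linearMap K ℂ)
    (LinearMap.ker_eq_bot.2 e.injective)
  refine ⟨fun i => lam (c i), fun n => ?_⟩
  have h1 : lam (e (s n)) = s n := LinearMap.congr_fun hl (s n)
  rw [← h1, h n, map_sum]
  refine Finset.sum_congr rfl fun i _ => ?_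
  have h2 : c i * e (t i n) = t i n • c i := by
    rw [Algebra.smul_def, mul_comm]
    rfl
  rw [h2, map_smul, smul_eq_mul, mul_comm]

end Pool.Agent.P.MP_9c97e9_nt.KT
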