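import Pool.Agent.P.MP_9c97e9_nt.KT.IfF1

/-! Functions of moderate growth. -/

namespace Pool.Agent.P.MP_9c97e9_nt.KT

open MP_8b7eba_nt MP_8b7eba_nt.R2
open MP_8b7eba_nt.Mod (M2 G0 UH xx yy qq atI ex)
open MP_8b7eba_nt.R1 (Zb QE HB y1)
open Filter Topology Asymptotics

namespace TMGB

theorem one : (fun _ : ℂ => (1 : ℝ)) =O[atI] ex 0 :=
  (isBigO_refl _ _).congr_right fun z => (Mod.ex_zero z).symm

theorem const (c : ℂ) : MG fun _ => c := fun _ _ =>
  ⟨0, (isBigO_const_const c one_ne_zero _).trans one⟩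

theorem add {G H : ℂ → ℂ} (h : MG G) (h' : MG H) : MG (G + H) := fun g hg => by
  obtain ⟨s, hs⟩ := h g hg
  obtain ⟨t, ht⟩ := h' g hg
  exact ⟨min s t, (hs.trans (Mod.ex_isBigO (min_le_left _ _))).add
    (ht.trans (Mod.ex_isBigO (min_le_right _ _)))⟩

theorem mul {G H : ℂ → ℂ} (h : MG G) (h' : MG H) : MG (G * H) := fun g hg => by
  obtain ⟨s, hs⟩ := h g hg
  obtain ⟨t, ht⟩ := h' g hg
  exact ⟨s + t, (hs.mul ht).congr_right fun z => (Mod.ex_add s t z).symm⟩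

theorem congr {G H : ℂ → ℂ} (h : MG G) (e : Set.EqOn H G UH) : MG H := fun g hg => by
  obtain ⟨s, hs⟩ := h g hg
  refine ⟨s, hs.congr' ?_ .rfl⟩
  filter_upwards [Mod.ev_im 0] with z hz
  exact (e (M2.im_act_pos (by omega) hz)).symm

theorem growth {G : ℂ → ℂ} {A : M2} (hA : 0 < A.det) (h : MG G) : MG fun z => G (A.act z) := by
  intro g hg
  obtain ⟨k, a, b, c, hk, ha, hc, -, -, e⟩ := Mod.exists_upper (g := A * g)
    (by rw [M2.det_mul, hg, mul_one]; exact hA)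
  obtain ⟨t, ht⟩ := h k hk
  refine ⟨t * (a / c), (ht.comp_tendsto (Mod.tendsto_upper (B := b) ha hc)).congr' ?_
    (.of_forall fun z => ?_)⟩
  · filter_upwards [Mod.ev_im 0] with z hz
    rw [Function.comp_apply, ← M2.act_mul (by omega) (by simpa [M2.det] using mul_pos ha hc) hz,
      ← e, M2.act_mul hA.ne' (by omega) hz]
  · simp only [Function.comp_apply, ex, Mod.im_upper, mul_assoc]

theorem of_qe {G : ℂ → ℂ} {N : ℕ} {A : PowerSeries Zb} (hb : HB G) (h : QE 1 N A G)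
    (inv : ∀ g, G0 g → ∀ z : ℂ, 0 < z.im → G (g.act z) = G z) : MG G := fun g hg => by
  by_cases hc : (15 : ℤ) ∣ g.c
  swap
  · exact ⟨0, (hb.bd g hg hc).trans one⟩
  refine ⟨-N, ?_⟩
  have h1 := ((h.tendsto one_pos).isBigO_one ℝ).norm_left.mul (isBigO_refl (ex (-N)) atI)
  refine (h1.congr' ?_ (.of_forall fun z => one_mul _)).of_norm_left
  filter_upwards [Mod.ev_im 0] with z hz
  rw [inv g ⟨hg, hc⟩ z hz, norm_mul, norm_pow, Mod.norm_qq, Mod.ex_pow, Nat.cast_one, div_one,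
    mul_assoc, ← Mod.ex_add]
  simp [Mod.ex_zero]

theorem mxx : MG xx := by
  obtain ⟨A, -, h⟩ := R1.exists_xx
  exact of_qe R1.hb_xx h Mod.xx_inv

theorem myy : MG yy := by
  obtain ⟨A, -, h⟩ := R1.exists_y1
  have h1 : MG y1 := of_qe R1.hb_y1 h fun g hg z hz => R1.y1_act hg hz
  refine congr (add (mul (const (-2)) h1) (mul (const (-1)) mxx)) fun z _ => ?_
  simp only [Pi.add_apply, Pi.mul_apply, y1]
  ring

theorem bound {x : ℂ} {n : ℕ} {a : ℕ → ℂ} (h : x ^ n + ∑ i ∈ Finset.range n, a i * x ^ i = 0) :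
    ‖x‖ ≤ 1 + ∑ i ∈ Finset.range n, ‖a i‖ := by
  have h0 : 0 ≤ ∑ i ∈ Finset.range n, ‖a i‖ := by positivity
  rcases le_total ‖x‖ 1 with h1 | h1
  · linarith
  rcases n with _ | n
  · simp at h
  have h2 : ‖x‖ * ‖x‖ ^ n ≤ (∑ i ∈ Finset.range (n + 1), ‖a i‖) * ‖x‖ ^ n := by
    rw [← pow_succ', ← norm_pow, eq_neg_of_add_eq_zero_left h, norm_neg, Finset.sum_mul]
    refine norm_sum_le_of_le _ fun i hi => ?_
    rw [norm_mul, norm_pow]
    have := Finset.mem_range.1 hi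
    gcongr
    omega
  linarith [le_of_mul_le_mul_right h2 (by positivity)]

theorem sum {a : ℕ → ℂ → ℂ} (ha : ∀ i, MG (a i)) (n : ℕ) (g : M2) (hg : g.det = 1) :
    ∃ t : ℝ, (fun z => 1 + ∑ i ∈ Finset.range n, ‖a i (g.act z)‖) =O[atI] ex t := by
  induction n with
  | zero => exact ⟨0, by simpa using one⟩
  | succ n ih =>
    obtain ⟨s, hs⟩ := ih
    obtain ⟨t, ht⟩ := ha n g hg
    simp only [Finset.sum_range_succ, ← add_assoc]
    exact ⟨min s t, (hs.trans (Mod.ex_isBigO (min_le_left _ _))).add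
      (ht.norm_left.trans (Mod.ex_isBigO (min_le_right _ _)))⟩

end TMGB

open TMGB in
theorem t_MGB : MGB := by
  refine ⟨mxx, myy, const, fun G H h h' => ⟨add h h', mul h h'⟩, fun G H => congr,
    fun G A => growth, fun G n a ha h g hg => ?_⟩
  obtain ⟨t, ht⟩ := sum ha n g hg
  refine ⟨t, IsBigO.trans (IsBigO.of_bound' ?_) ht⟩
  filter_upwards [Mod.ev_im 0] with z hz
  exact (bound (h _ (M2.im_act_pos (by omega) hz))).trans (le_abs_self _)

end Pool.Agent.P.MP_9c97e9_nt.KT
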