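import Pool.Agent.P.MP_9c97e9_nt.KT.BasZ
import Pool.Agent.P.MP_9c97e9_nt.KT.IfX

namespace Pool.Agent.P.MP_9c97e9_nt.KT

open MP_8b7eba_nt.R2
open MP_8b7eba_nt.Mod (xx yy)
open MP_8b7eba_nt.R1 (Zb QE zs v1 exists_xx exists_v1 v1_sq yy_sq)
open PowerSeries

namespace TNCU

theorem ev_ne (hEV2 : EV2) {t : ℂ_[2]} (ht : ‖t‖ < 1) {B : Zb⟦X⟧} (hB : constantCoeff B = 1) :
    ev2 B t ≠ 0 := by
  obtain ⟨⟨φ, hφ⟩, h1, -, h2⟩ := hEV2.2 t ht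
  intro h0
  obtain ⟨B', e⟩ : ∃ B', B = X * B' + 1 := ⟨_, by simpa [hB] using eq_X_mul_shift_add_const B⟩
  rw [← hφ, e, map_add, map_mul, map_one, hφ, hφ, h1] at h0
  have h3 : ‖t * ev2 B' t‖ = 1 := by rw [eq_neg_of_add_eq_zero_left h0, norm_neg, norm_one]
  rw [norm_mul] at h3
  nlinarith [(h2 B').1, norm_nonneg t]

theorem val (hEV2 : EV2) {w N : ℕ} {t : ℂ_[2]} (hw : w ≠ 0) (h0 : t ≠ 0) (ht : ‖t‖ < 1)
    {A : ℤ⟦X⟧} {G : ℂ → ℂ} (hA : constantCoeff A = 1) (h : QE 1 N (zs A) G) :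
    (∃ v, V2a w G t v) ∧ ∀ v, V2a w G t v → v ≠ 0 := by
  have h1 := h.expand_one hw
  refine ⟨⟨_, _, _, h1, div_mul_cancel₀ _ (pow_ne_zero _ h0)⟩, fun v hv e => ?_⟩
  have h2 := ((hEV2.2 t ht).2.2.2 _).2.2.2.2.2 w _ G v hw h0 hv h1
  rw [e, zero_mul] at h2
  refine ev_ne hEV2 ht ?_ h2.symm
  rw [constantCoeff_expand, ← coeff_zero_eq_constantCoeff_apply, coeff_map,
    coeff_zero_eq_constantCoeff_apply, hA, map_one]

end TNCU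

theorem t_NCU (hEV2 : EV2) (hEVP : EVP) : NCU := by
  intro w t x y hw h0 ht hx hy
  obtain ⟨A, hA, qA⟩ := exists_xx
  obtain ⟨B, hB, qB⟩ := exists_v1
  obtain ⟨⟨v, hv⟩, hv0⟩ := TNCU.val hEV2 hw h0 ht hB qB
  have key := hEVP w t (Fin 3) ![xx, yy, v1] ![i2 x, i2 y, v] hw h0 ht fun j => by
    fin_cases j
    exacts [hx, hy, hv]
  have h1 := key (MvPolynomial.X 1 ^ 2 - (4 * MvPolynomial.X 0 ^ 3 - 7 * MvPolynomial.X 0 ^ 2 -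
    36 * MvPolynomial.X 0)) fun z hz => by
      rw [← MvPolynomial.coe_eval₂Hom]
      simp [yy_sq hz]
  have h2 := key (MvPolynomial.X 2 ^ 2 - (MvPolynomial.X 0 ^ 2 + 2 * MvPolynomial.X 1 + 9))
    fun z hz => by
      rw [← MvPolynomial.coe_eval₂Hom]
      simp [v1_sq hz]
  rw [← MvPolynomial.coe_eval₂Hom] at h1 h2
  simp [sub_eq_zero] at h1 h2
  refine ⟨i2.injective (by simpa [map_ofNat] using h1), fun e => ?_, fun e => ?_⟩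
  · exact (TNCU.val hEV2 hw h0 ht hA qA).2 _ hx (by rw [e, map_zero])
  · refine pow_ne_zero 2 (hv0 v hv) (h2.trans ?_)
    simpa [map_ofNat] using congrArg i2 e

end Pool.Agent.P.MP_9c97e9_nt.KT
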