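import Pool.Agent.P.MP_9c97e9_nt.KT.IfF2

/-! The extension is normal. -/

namespace Pool.Agent.P.MP_9c97e9_nt.KT

open scoped Polynomial
open MP_8b7eba_nt.Mod (xx yy)
open Polynomial

namespace TNORM

theorem mem (f : MF) (p : K0[X]) (hp : p ≠ 0) (h : aeval f p = 0)
    (hs : (p.map (algebraMap K0 MF)).Splits) : f ∈ LL :=
  IntermediateField.subset_adjoin _ _ ⟨IsAlgebraic.isIntegral ⟨p, hp, h⟩,
    hs.of_dvd (Polynomial.map_ne_zero hp) (Polynomial.map_dvd _ (minpoly.dvd _ _ h))⟩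

theorem spl (f : MF) (hf : f ∈ LL) :
    IsIntegral K0 f ∧ ((minpoly K0 f).map (algebraMap K0 MF)).Splits := by
  refine ⟨?_, IntermediateField.splits_of_mem_adjoin K0 MF (fun x hx => hx) hf⟩
  have : Algebra.IsAlgebraic K0 LL := IntermediateField.isAlgebraic_adjoin fun x hx => hx.1
  exact IntermediateField.isIntegral_iff.1 (Algebra.IsIntegral.isIntegral (⟨f, hf⟩ : LL))

theorem normal : Normal K0 LL := normal_iff.2 fun x => by
  obtain ⟨h1, h2⟩ := spl x x.2
  refine ⟨IntermediateField.isIntegral_iff.2 h1, ?_⟩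
  rw [IntermediateField.minpoly_eq]
  exact IntermediateField.splits_of_splits h2 fun r hr =>
    mem r _ (minpoly.ne_zero h1) (aeval_eq_zero_of_mem_rootSet hr) h2

theorem gg (g : AL) : g ∈ GG ↔ ∀ f : LL, (f : MF) ∈ K0 → g f = f := by
  rw [mem_GG]
  refine ⟨fun h f hf => ?_, fun h =>
    ⟨h _ (coe_lf inL_xx ▸ xx_mem), h _ (coe_lf inL_yy ▸ yy_mem)⟩⟩
  have h1 : K0 ≤ (RingHom.eqLocusField (g : LL →+* LL) (RingHom.id _)).map (LL.val : LL →+* MF) := by
    refine Subfield.closure_le.2 ?_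
    rintro _ (rfl | rfl)
    exacts [⟨_, h.1, coe_lf inL_xx⟩, ⟨_, h.2, coe_lf inL_yy⟩]
  obtain ⟨f', h2, h3⟩ := h1 hf
  obtain rfl : f' = f := Subtype.ext h3
  exact h2

/-- an element of the group as an algebra automorphism -/
noncomputable def ae {g : AL} (h : g ∈ GG) : LL ≃ₐ[K0] LL :=
  AlgEquiv.ofRingEquiv (f := g) fun c => (gg g).1 h _ c.2

end TNORM

open TNORM in
theorem t_NORM : NORM := by
  have := normal
  refine ⟨this, gg, mem, spl, fun a => ?_, fun f h => ?_⟩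
  · refine (rootSet_finite (minpoly K0 a) LL).subset ?_
    rintro _ ⟨g, hg, rfl⟩
    rw [mem_rootSet]
    refine ⟨minpoly.ne_zero (this.isIntegral a), ?_⟩
    change aeval (ae hg a) _ = 0
    rw [aeval_algHom_apply, minpoly.aeval, map_zero]
  · have : IsGalois K0 LL := {}
    obtain ⟨c, rfl⟩ := (InfiniteGalois.mem_range_algebraMap_iff_fixed (k := K0) f).2 fun σ =>
      h σ.toRingEquiv ((gg _).2 fun f hf => σ.commutes ⟨f, hf⟩)
    exact c.2

end Pool.Agent.P.MP_9c97e9_nt.KT
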