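import Pool.Agent.P.MP_9c97e9_nt.KT.IfF1

/-! Proof of NSP: no function has only one simple pole. -/

namespace Pool.Agent.P.MP_9c97e9_nt.KT

open Filter Topology Finset Asymptotics
open MP_8b7eba_nt MP_8b7eba_nt.R1
open MP_8b7eba_nt.Mod (G0 atI)

theorem t_NSP : NSP := by
  intro G c hb hi h
  have hf : ∀ γ, G0 γ → Mod.Inv 2 (fun z => G z * Mod.ff z) γ := fun γ hγ z hz => by
    simp only [hi γ hγ z hz, Mod.ff_inv γ hγ z hz]
    ring
  have hd : ∀ i ∈ range 24, (Mod.reps.getD i 1).det = 1 := fun i hi =>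
    (Mod.perm_spec i (mem_range.1 hi)).1
  have hc : ∀ i < 24, i ≠ 0 → ¬ (15 : ℤ) ∣ (Mod.reps.getD i 1).c := by decide
  have lim : Tendsto (fun z => ∑ i ∈ range 24, Mod.sl (fun z => G z * Mod.ff z) (Mod.reps.getD i 1) z)
      atI (𝓝 (∑ i ∈ range 24, if i = 0 then c else 0)) := by
    refine tendsto_finsetSum _ fun i hi => ?_
    split_ifs with h0
    · have h1 := h.mul (Mod.rep_Ff.tendsto.comp Mod.tendsto_qq)
      rw [Mod.const_FF, Int.cast_one, mul_one] at h1
      refine h1.congr fun z => ?_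
      rw [h0, show Mod.reps.getD 0 1 = 1 from rfl]
      simp [Mod.sl, Mod.ff_eq, mul_assoc]
    · have h1 := (IsBigO.mul (hb.bd _ (hd i hi) (hc i (mem_range.1 hi) h0))
        (Mod.sl_ff_theta (hd i hi)).1).congr_right fun z => one_mul _
      have h2 : (0 : ℝ) < Mod.wd (Mod.reps.getD i 1) := by exact_mod_cast Mod.wd_pos _
      refine (h1.trans_tendsto (Mod.tendsto_ex (by positivity))).congr fun z => ?_
      simp only [Mod.sl]
      ring
  rw [Finset.sum_ite_eq', if_pos (by simp)] at lim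
  have h0 := fun z hz => QP_level_one (z := z) (DifferentiableOn.fun_sum fun i hi =>
    Mod.diff_sl (hb.hol.mul Mod.diff_ff) (m := Mod.reps.getD i 1) (by rw [hd i hi]; exact one_pos))
    (QP_trace hf) (lim.isBigO_one ℝ) hz
  refine tendsto_nhds_unique lim (tendsto_const_nhds.congr' ?_)
  filter_upwards [Mod.ev_im 0] with z hz using (h0 z hz).symm

end Pool.Agent.P.MP_9c97e9_nt.KT
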