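import Pool.Agent.P.MP_9c97e9_nt.KT.IfF2

/-! The equation of a function over the curve. -/

namespace Pool.Agent.P.MP_9c97e9_nt.KT

open MP_8b7eba_nt MP_8b7eba_nt.R2
open MP_8b7eba_nt.Mod (M2 G0 UH xx yy)
open MP_8b7eba_nt.R1 (U8)
open Polynomial

namespace TORP

/-- algebraic functions of moderate growth -/
def SS (hM : MGB) : Subring (ℂ → ℂ) where
  carrier := {G | InL G ∧ MG G}
  add_mem' := fun a b => ⟨(a.1.add b.1).1, (hM.2.2.2.1 _ _ a.2 b.2).1⟩
  mul_mem' := fun a b => ⟨(a.1.mul b.1).1, (hM.2.2.2.1 _ _ a.2 b.2).2⟩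
  one_mem' := ⟨(inL_int 1).1.congr fun _ _ => by simp, hM.2.2.1 1⟩
  zero_mem' := ⟨(inL_int 0).1.congr fun _ _ => by simp, hM.2.2.1 0⟩
  neg_mem' := fun a => ⟨a.1.neg.1, hM.2.2.2.2.1 _ _ (hM.2.2.2.1 _ _ (hM.2.2.1 (-1)) a.2).2
    fun _ _ => by simp⟩

theorem hom2 {K K' : Type} [CommRing K] [CommRing K'] (e : Om →+* K) (c : K →+* K') (a b : K)
    (P : MvPolynomial (Fin 2) Om) : c (P.eval₂ e ![a, b]) = P.eval₂ (c.comp e) ![c a, c b] := by
  rw [MvPolynomial.eval₂_comp_left]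
  congr 1
  funext i
  fin_cases i <;> rfl

theorem pol (hP : POLA) {G : ℂ → ℂ} (h1 : InL G) (h2 : MG G) (h3 : IvF G) :
    ∃ j₀, ∀ j ≥ j₀, ∃ P : MvPolynomial (Fin 2) Om, ∀ z : ℂ, 0 < z.im →
      P.eval₂ io ![xx z, yy z] = G z * U8 z ^ j := by
  obtain ⟨j₀, a, b, e⟩ := hP G h1 h2 h3
  refine ⟨j₀, fun j hj => ?_⟩
  obtain ⟨d, rfl⟩ := Nat.exists_eq_add_of_le hj
  have k : ∀ (p : Om[X]) (v : Fin 2 → ℂ), MvPolynomial.eval₂ io v
      (p.eval₂ MvPolynomial.C (MvPolynomial.X 0)) = p.eval₂ io (v 0) := fun p v => by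
    rw [← MvPolynomial.coe_eval₂Hom, hom_eval₂]
    congr 1
    · ext a; simp
    · simp
  refine ⟨(a.eval₂ MvPolynomial.C (MvPolynomial.X 0) + b.eval₂ MvPolynomial.C (MvPolynomial.X 0) *
    MvPolynomial.X 1) * (((MvPolynomial.X 0 ^ 2 + 2 * MvPolynomial.X 1 + 9) *
      MvPolynomial.X 0) ^ 8) ^ d, fun z hz => ?_⟩
  rw [pow_add, ← mul_assoc, e z hz, U8_eq hz, MvPolynomial.eval₂_mul, MvPolynomial.eval₂_add,
    MvPolynomial.eval₂_mul, k, k, ← MvPolynomial.coe_eval₂Hom]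
  simp

theorem cf {R ι : Type} [CommRing R] (S : Subring R) (s : Finset ι) (F : ι → R)
    (h : ∀ o ∈ s, F o ∈ S) (k : ℕ) : (∏ o ∈ s, (X - C (F o))).coeff k ∈ S := by
  have : ∏ o ∈ s, (X - C (F o)) ∈ lifts S.subtype := by
    rw [lifts_iff_liftsRing]
    refine Subring.prod_mem _ fun o ho => Subring.sub_mem _ ?_ ?_ <;> rw [← lifts_iff_liftsRing]
    exacts [X_mem_lifts _, C_mem_lifts S.subtype ⟨F o, h o ho⟩]
  obtain ⟨a, e⟩ := (lifts_iff_coeff_lifts _).1 this k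
  exact e ▸ a.2

end TORP

open TORP in
theorem t_ORP (hPOLA : POLA) (hTR : TR) (hFB : FB) (hMGB : MGB) (hUNITS : UNITS) : ORP := by
  classical
  intro G τ x y hG hM ha
  have tr1 := fun γ (h : G0 γ) => (hTR.1 γ (Lm.of_G0 h)).2.2.2
  have hO : {f : LL | ∃ γ, G0 γ ∧ f = lf fun z => G (γ.act z)}.Finite :=
    (hFB.2.2.2.2.2.2.2.1 (lf G)).subset (by
      rintro _ ⟨γ, h, rfl⟩
      exact ⟨pb γ, (hTR.2.2 _ h.adj).1, (tr1 γ h G hG).2⟩)
  have ex := fun f => hO.mem_toFinset (a := f).1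
  choose! r r0 r1 using ex
  set s := hO.toFinset
  let F : LL → ℂ → ℂ := fun o z => G ((r o).act z)
  have iF : ∀ o ∈ s, InL (F o) := fun o ho => (tr1 _ (r0 o ho) G hG).1
  let Q : (ℂ → ℂ)[X] := ∏ o ∈ s, (X - C (F o))
  have q1 : ∀ z k, Q.coeff k z = (∏ o ∈ s, (X - C (F o z))).coeff k := fun z k => by
    have := coeff_map (Pi.evalRingHom (fun _ : ℂ => ℂ) z) (p := Q) k
    simpa [Q, Polynomial.map_prod] using this.symm
  have q2 : ∀ k, Q.coeff k ∈ SS hMGB := cf (SS hMGB) s F fun o ho =>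
    ⟨iF o ho, hMGB.2.2.2.2.2.1 G _ (r0 o ho).det_pos hM⟩
  have q3 : ∀ k, IvF (Q.coeff k) := fun k γ hγ z hz => by
    have m : ∀ o ∈ s, pb γ o ∈ s ∧ pb γ o = lf fun z => F o (γ.act z) := fun o ho => by
      have e : pb γ o = lf fun z => F o (γ.act z) := by
        conv_lhs => rw [r1 o ho]
        exact (tr1 γ hγ _ (iF o ho)).2
      exact ⟨hO.mem_toFinset.2 ⟨_, (r0 o ho).mul hγ, e.trans (lf_congr fun z hz =>
        congrArg G (M2.act_mul (r0 o ho).det_pos.ne' hγ.det_pos hz).symm)⟩, e⟩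
    have im : s.image (pb γ) = s := Finset.eq_of_subset_of_card_le
      (Finset.image_subset_iff.2 fun o ho => (m o ho).1)
      (Finset.card_image_of_injective _ (pb γ).injective).ge
    rw [q1, q1]
    conv_rhs => rw [← im, Finset.prod_image (pb γ).injective.injOn]
    refine congrArg (coeff · k) (Finset.prod_congr rfl fun o ho => ?_)
    rw [(lf_inj (iF _ (m o ho).1) (tr1 γ hγ _ (iF o ho)).1).1
      ((r1 _ (m o ho).1).symm.trans (m o ho).2) hz]
  choose j hj using fun k => pol hPOLA (q2 k).1 (q2 k).2 (q3 k)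
  set n := s.card + 1
  choose! P hP using fun k (hk : k ∈ Finset.range n) =>
    hj k (∑ i ∈ Finset.range n, j i) (Finset.single_le_sum (fun _ _ => Nat.zero_le _) hk)
  set J := ∑ i ∈ Finset.range n, j i
  have ev3 : ∀ (K : Type) [Field K] (c : Om →+* K) (a b v : K),
      (∑ k ∈ Finset.range n, MvPolynomial.rename Fin.castSucc (P k) * MvPolynomial.X 2 ^ k).eval₂ c
        ![a, b, v] = ∑ k ∈ Finset.range n, (P k).eval₂ c ![a, b] * v ^ k := fun K _ c a b v => by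
    rw [MvPolynomial.eval₂_sum]
    refine Finset.sum_congr rfl fun k _ => ?_
    rw [MvPolynomial.eval₂_mul, MvPolynomial.eval₂_pow, MvPolynomial.eval₂_rename,
      MvPolynomial.eval₂_X]
    congr 2
    funext i
    fin_cases i <;> rfl
  have sm : ∀ (K : Type) [Field K] (f : LL → K) (u v : K), ∑ k ∈ Finset.range n,
      (∏ o ∈ s, (X - C (f o))).coeff k * u * v ^ k = u * ∏ o ∈ s, (v - f o) := fun K _ f u v => by
    have := eval_eq_sum_range' (p := ∏ o ∈ s, (X - C (f o))) (n := n)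
      (by rw [natDegree_finsetProd_X_sub_C_eq_card]; exact Nat.lt_succ_self _) v
    simp only [eval_prod, eval_sub, eval_X, eval_C] at this
    rw [this, Finset.mul_sum]
    exact Finset.sum_congr rfl fun _ _ => by ring
  refine ⟨_, fun z hz => (ev3 _ _ _ _ _).trans ?_, fun K _ c v hv => ?_⟩
  · rw [Finset.sum_congr rfl fun k hk => by rw [hP k hk z hz, q1], sm]
    have h1 : lf G ∈ s := hO.mem_toFinset.2 ⟨1, by decide, by simp⟩
    exact mul_eq_zero_of_right _ (Finset.prod_eq_zero (f := fun o => G z - F o z) h1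
      (sub_eq_zero.2 ((lf_inj hG (iF _ h1)).1 (r1 _ h1) hz)))
  · let al : LL → Om := fun o => ev τ (lf (F o))
    have a1 : ∀ o ∈ s, io (al o) = F o τ := fun o ho => hUNITS.2.2 τ x y ha _ (iF o ho)
    let u : Om := (((x ^ 2 + 2 * y + 9) * x) ^ 8) ^ J
    have u1 : io u = U8 τ ^ J := by
      rw [U8_eq ha.1, ← ha.2.1, ← ha.2.2]; simp [u, map_ofNat]
    have u0 : u ≠ 0 := fun e => pow_ne_zero J (R1.U8_ne ha.1) (by rw [← u1, e, map_zero])
    have e : ∀ k ∈ Finset.range n, (P k).eval₂ c ![c x, c y] =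
        (∏ o ∈ s, (X - C (c (al o)))).coeff k * c u := fun k hk => by
      have : (P k).eval₂ (RingHom.id _) ![x, y] = (∏ o ∈ s, (X - C (al o))).coeff k * u := by
        refine io_inj ?_
        rw [hom2, ha.2.1, ha.2.2, RingHom.comp_id, hP k hk τ ha.1, q1, map_mul, u1, ← coeff_map,
          Polynomial.map_prod]
        congr 2
        exact Finset.prod_congr rfl fun o ho => by simp [a1 o ho]
      have := congrArg c this
      rw [hom2, RingHom.comp_id, map_mul, ← coeff_map, Polynomial.map_prod] at this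
      simpa using this
    rw [ev3, Finset.sum_congr rfl fun k hk => by rw [e k hk], sm, mul_eq_zero,
      Finset.prod_eq_zero_iff] at hv
    obtain ⟨o, ho, h⟩ := hv.resolve_left ((map_ne_zero c).2 u0)
    exact ⟨r o, al o, r0 o ho, a1 o ho, sub_eq_zero.1 h⟩

end Pool.Agent.P.MP_9c97e9_nt.KT
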