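import Pool.Agent.P.MP_9c97e9_nt.KT.IfF2

/-! The Hecke translates are permuted by the Galois group. -/

namespace Pool.Agent.P.MP_9c97e9_nt.KT

open MP_8b7eba_nt
open MP_8b7eba_nt.Mod (M2 G0 UH xx yy)
open MP_8b7eba_nt.R1 (IntR IntM)

theorem t_PERM (hQFH : QFH) (hGAL1 : GAL1) : PERM := by
  intro A hA
  have hm : (A.det.toNat : ℤ) = A.det := Int.toNat_of_nonneg hA.1.le
  have hp : 0 < A.det.toNat := by have := hA.1; omega
  have hc : A.det.toNat.Coprime 15 := Nat.isCoprime_iff_coprime.1 (by rw [hm]; exact hA.2.1)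
  obtain ⟨t0, ht0, γ, hγ, e⟩ := R1.Int_exists hp hc hm.symm hA.2.2
  have hd : 0 < (IntM t0).det := by rw [R1.Int_det hp ht0]; exact_mod_cast hp
  have ex : Set.EqOn (fun z => xx (A.act z)) (fun z => xx ((IntM t0).act z)) UH := fun z hz => by
    simp only
    rw [e, M2.act_mul hγ.det_pos.ne' hd hz, Mod.xx_inv γ hγ _ (M2.im_act_pos hd hz)]
  have ey : Set.EqOn (fun z => yy (A.act z)) (fun z => yy ((IntM t0).act z)) UH := fun z hz => by
    simp only
    rw [e, M2.act_mul hγ.det_pos.ne' hd hz, Mod.yy_inv hγ (M2.im_act_pos hd hz)]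
  have h1 := fun l : ℕ => (hQFH _ hp.ne' hc l).elim fun N h => h.elim fun B h => hGAL1 _ N _ _ B h
  have hx : ∀ t ∈ IntR A.det.toNat, InL fun z => xx ((IntM t).act z) := fun t ht =>
    ((h1 0).1 ⟨t, ht⟩).congr fun z _ => by simp
  have hy : ∀ t ∈ IntR A.det.toNat, InL fun z => yy ((IntM t).act z) := fun t ht =>
    (((h1 1).1 ⟨t, ht⟩).sub (hx t ht)).1.congr fun z _ => by simp
  have hl : ∀ (l : ℕ), ∀ t ∈ IntR A.det.toNat,
      lf (fun z => xx ((IntM t).act z) + l * yy ((IntM t).act z)) =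
        lf (fun z => xx ((IntM t).act z)) + l * lf fun z => yy ((IntM t).act z) := fun l t ht => by
    have h2 := (inL_int l).1.mul (hy t ht)
    have h3 := ((hx t ht).add h2.1).2
    rw [h2.2, (inL_int l).2] at h3
    simpa using h3
  refine ⟨(hx t0 ht0).congr ex, (hy t0 ht0).congr ey, fun g hg => ?_⟩
  choose t ht using fun l => (h1 l).2 g hg ⟨t0, ht0⟩
  obtain ⟨l, l', hne, he⟩ := Finite.exists_ne_map_eq_of_infinite t
  have h2 := ht l
  have h3 := ht l'
  rw [← he] at h3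
  simp only at h2 h3
  rw [hl _ _ ht0, hl _ _ (t l).2, map_add, map_mul, map_natCast] at h2 h3
  have h4 : (l : LL) - l' ≠ 0 := sub_ne_zero.2 (Nat.cast_injective.ne hne)
  rw [lf_congr ex, lf_congr ey]
  have h5 := mul_left_cancel₀ h4 (show (l - l' : LL) * g (lf fun z => yy ((IntM t0).act z)) =
    (l - l') * lf fun z => yy ((IntM (t l)).act z) by linear_combination h2 - h3)
  exact ⟨t l, (t l).2, by rwa [h5, add_left_inj] at h2, h5⟩

end Pool.Agent.P.MP_9c97e9_nt.KT
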