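import Pool.Agent.P.MP_9c97e9_nt.KT.IfF2

/-! Invariant algebraic functions are polynomials with algebraic coefficients. -/

namespace Pool.Agent.P.MP_9c97e9_nt.KT

open scoped Polynomial PowerSeries
open MP_8b7eba_nt.R2
open MP_8b7eba_nt.Mod (UH xx yy)
open MP_8b7eba_nt.R1 (U8)

namespace TPOLA

theorem jt_sum {I : Type} [Fintype I] {τ : ℂ} (hτ : 0 < τ.im) {F : I → ℂ → ℂ}
    (hF : ∀ i, Hol (F i)) (c : I → ℂ) :
    jt τ (mf fun z => ∑ i, c i * F i z) = fs (∑ i, PowerSeries.C (c i) * tay τ (F i)) := by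
  rw [mf_sum (F := fun i z => c i * F i z) _ fun i _ => (hol_const _).fun_mul (hF i), map_sum,
    map_sum]
  refine Finset.sum_congr rfl fun i _ => ?_
  rw [mf_mul (hol_const _) (hF i), map_mul, map_mul, mf_const, jt_cM hτ, jt_mf hτ (hF i)]

theorem desc (hLDS : LDS) (hALG : ALG) (hSURJ : SURJ) {I : Type} [Fintype I] {H : ℂ → ℂ}
    {F : I → ℂ → ℂ} (hH : InL H) (hF : ∀ i, InL (F i)) (c : I → ℂ)
    (h : ∀ z : ℂ, 0 < z.im → H z = ∑ i, c i * F i z) :
    ∃ c' : I → Om, ∀ z : ℂ, 0 < z.im → H z = ∑ i, io (c' i) * F i z := by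
  obtain ⟨τ, hτ, h1, h2⟩ := hSURJ 4 0 (by norm_num) (by norm_num) (by norm_num)
  have ha : Alg τ 4 0 := ⟨hτ, by rw [h1, map_ofNat], by rw [h2, map_zero]⟩
  choose s hs using hALG τ 4 0 ha _ _ (jt_lf hτ hH)
  choose t ht using fun i => hALG τ 4 0 ha _ _ (jt_lf hτ (hF i))
  have e : tay τ H = ∑ i, PowerSeries.C (c i) * tay τ (F i) :=
    fs_inj (by rw [← jt_sum hτ fun i => (hF i).1, ← jt_mf hτ hH.1, mf_congr h])
  obtain ⟨c', hc⟩ := hLDS Om I io s t c fun n => by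
    simp only [hs, ht, e, map_sum, PowerSeries.coeff_C_mul]
  refine ⟨c', (mf_inj hH.1 (DifferentiableOn.fun_sum fun i _ =>
    (hol_const _).fun_mul (hF i).1)).1 ((jt τ).injective ?_)⟩
  rw [jt_sum hτ fun i => (hF i).1, jt_mf hτ hH.1]
  congr 1
  ext n
  rw [← hs, hc]
  simp only [map_sum, map_mul, ht, PowerSeries.coeff_C_mul]

theorem inL_U8 : InL U8 :=
  ((((((inL_xx.pow 2).1.add ((inL_int 2).1.mul inL_yy).1).1.add (inL_int 9).1).1.mul
    inL_xx).1.pow 8).1).congr fun z hz => by simpa using U8_eq hz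

end TPOLA

open TPOLA in
theorem t_POLA (hPOLY : POLY) (hLDS : LDS) (hALG : ALG) (hSURJ : SURJ) : POLA := by
  intro G hG hM hI
  obtain ⟨j, a, b, h⟩ := hPOLY G hG.1 hM hI
  set N := a.natDegree + b.natDegree + 1 with hN
  obtain ⟨c, hc⟩ := desc hLDS hALG hSURJ (I := Fin N ⊕ Fin N)
    (F := Sum.elim (fun i z => xx z ^ (i : ℕ)) fun i z => xx z ^ (i : ℕ) * yy z)
    (hG.mul (inL_U8.pow j).1).1
    (by
      rintro (i | i)
      exacts [(inL_xx.pow _).1, ((inL_xx.pow _).1.mul inL_yy).1])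
    (Sum.elim (fun i => a.coeff i) fun i => b.coeff i) fun z hz => by
      rw [h z hz, Polynomial.eval_eq_sum_range' (n := N) (by omega),
        Polynomial.eval_eq_sum_range' (n := N) (by omega), Finset.sum_range, Finset.sum_range,
        Fintype.sum_sum_type, Finset.sum_mul]
      simp [mul_assoc]
  refine ⟨j, ∑ i : Fin N, Polynomial.monomial i (c (.inl i)),
    ∑ i : Fin N, Polynomial.monomial i (c (.inr i)), fun z hz => ?_⟩
  rw [hc z hz, Fintype.sum_sum_type, Polynomial.eval₂_finsetSum, Polynomial.eval₂_finsetSum,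
    Finset.sum_mul]
  simp [mul_assoc]

end Pool.Agent.P.MP_9c97e9_nt.KT
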