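import Pool.Agent.P.MP_9c97e9_nt.KT.IfF1

/-! Proof of POLY. -/

namespace Pool.Agent.P.MP_9c97e9_nt.KT

open scoped Polynomial
open MP_8b7eba_nt
open MP_8b7eba_nt.Mod (M2 G0 UH xx yy qq atI ex)
open MP_8b7eba_nt.R1 (QE HB U8 QP_m)
open Filter Topology Asymptotics

namespace TPOLY

variable {G : ℂ → ℂ}

theorem qq_le : qq =O[atI] ex 1 := .of_norm_left (by simp only [Mod.norm_qq]; exact isBigO_refl _ _)

theorem unq (h : (fun z => G z * qq z) =O[atI] ex 1) : BoundedAtFilter atI G := by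
  obtain ⟨c, hc⟩ := h.bound
  refine IsBigO.of_bound c (hc.mono fun z hz => ?_)
  rw [norm_mul, Mod.norm_qq, Real.norm_of_nonneg (Mod.ex_pos _ _).le] at hz
  simpa using le_of_mul_le_mul_right hz (Mod.ex_pos _ _)

/-- a uniform exponent -/
theorem unif (hm : MG G) (hi : IvF G) :
    ∃ j : ℕ, ∀ g : M2, g.det = 1 → (fun z => G (g.act z)) =O[atI] ex (-j) := by
  choose! t ht using hm
  obtain ⟨j, hj⟩ := exists_nat_ge (∑ i ∈ Finset.range 24, |t (Mod.reps.getD i 1)|)
  refine ⟨j, fun g hg => ?_⟩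
  obtain ⟨h1, h2, -⟩ := Mod.rep_spec (Mod.prim_of_det hg)
  have h3 := Mod.G0_mul_adj_rep hg
  have h4 : |t (Mod.rep g.c g.d)| ≤ j := (Finset.single_le_sum
    (f := fun i => |t (Mod.reps.getD i 1)|) (fun _ _ => abs_nonneg _) (Finset.mem_range.2 h2)).trans hj
  refine ((ht _ h1).trans (Mod.ex_isBigO (abs_le.1 h4).1)).congr' ?_ .rfl
  filter_upwards [Mod.ev_im 0] with z hz
  rw [← hi _ h3 _ (Mod.M2.im_act_pos (by omega) hz), ← Mod.M2.act_mul h3.det_pos.ne' (by omega) hz,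
    mul_assoc, Mod.M2.adj_mul_self h1, mul_one]

theorem dec (hol : Hol G) (hi : IvF G) {N : ℕ} (h : BoundedAtFilter atI fun z => G z * qq z ^ N) :
    ∃ L, (fun z => G z * qq z ^ N - L) =O[atI] ex 1 := by
  have h1 : qq 1 = 1 := by simp [qq]
  simpa using Mod.decay (G := fun z => G z * qq z ^ N) one_pos (fun z hz => by
    have := hi _ (Mod.G0_mT 1) z hz
    rw [Mod.act_mT, Int.cast_one] at this
    rw [Complex.ofReal_one, this, Mod.qq_add, h1, mul_one])
    (hol.mul fun z _ => ((Mod.hasDerivAt_qq z).differentiableAt.pow N).differentiableWithinAt) h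

theorem lim {L : ℂ} (h : (fun z => G z - L) =O[atI] ex 1) : Tendsto G atI (𝓝 L) :=
  tendsto_sub_nhds_zero_iff.1 (h.trans_tendsto (Mod.tendsto_ex one_pos))

theorem mono (k : ℕ) : ∃ a b : ℂ[X], ∀ z, QP_m k z = a.eval (xx z) + b.eval (xx z) * yy z := by
  unfold QP_m
  split_ifs
  · exact ⟨.X ^ (k / 2), 0, fun z => by simp⟩
  · exact ⟨0, 0, fun z => by simp⟩
  · exact ⟨.C (-1 / 2) * .X ^ ((k - 3) / 2) * .X, .C (-1 / 2) * .X ^ ((k - 3) / 2), fun z => by
      simp [R1.y1]; ring⟩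

theorem mono_dec {k : ℕ} (hk : k ≠ 1) : (fun z => QP_m k z * qq z ^ k - 1) =O[atI] ex 1 := by
  obtain ⟨B, h1, h2⟩ := R1.QP_m_exp k
  have h3 := h1.tendsto one_pos
  simp only [Nat.cast_one, div_one, h2 hk, OneMemClass.coe_one] at h3
  obtain ⟨L, hL⟩ := dec (R1.QP_m_hb k).hol (R1.QP_m_inv k) (h3.isBigO_one ℝ)
  rwa [tendsto_nhds_unique (lim hL) h3] at hL

theorem core (hN : NSP) (N : ℕ) : ∀ {G : ℂ → ℂ}, HB G → IvF G →
    (BoundedAtFilter atI fun z => G z * qq z ^ N) →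
    ∃ a b : ℂ[X], ∀ z : ℂ, 0 < z.im → G z = a.eval (xx z) + b.eval (xx z) * yy z := by
  induction N with
  | zero =>
    intro G hb hi h
    obtain ⟨c, hc⟩ := Mod.const_of_weight_zero hb.hol hi fun γ hγ => by
      by_cases e : (15 : ℤ) ∣ γ.c
      · refine h.congr' ?_ .rfl
        filter_upwards [Mod.ev_im 0] with z hz
        rw [hi γ ⟨hγ, e⟩ z hz, pow_zero, mul_one]
      · exact hb.bd γ hγ e
    exact ⟨.C c, 0, fun z hz => by simp [hc z hz]⟩
  | succ N ih =>
    intro G hb hi h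
    obtain ⟨L, hL⟩ := dec hb.hol hi h
    rcases Nat.eq_zero_or_pos N with rfl | h0
    · have := hN G L hb hi (by simpa using lim hL)
      exact ih hb hi (unq (by simpa [this] using hL))
    · obtain ⟨a, b, h1⟩ := ih (hb.sub ((HB.const L).mul (R1.QP_m_hb (N + 1))))
        (fun g hg z hz => by simp only [hi g hg z hz, R1.QP_m_inv _ g hg z hz])
        (unq ((hL.sub ((mono_dec (k := N + 1) (by omega)).const_mul_left L)).congr_left
          fun z => by ring))
      obtain ⟨a', b', h2⟩ := mono (N + 1)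
      refine ⟨a + .C L * a', b + .C L * b', fun z hz => ?_⟩
      have := h1 z hz
      rw [h2] at this
      simp only [Polynomial.eval_add, Polynomial.eval_mul, Polynomial.eval_C]
      linear_combination this

end TPOLY

open TPOLY in
theorem t_POLY (hNSP : NSP) (_hMGB : MGB) : POLY := by
  intro G hol hm hi
  obtain ⟨j, hj⟩ := unif hm hi
  obtain ⟨A, hA⟩ := R1.exists_U8
  have e : ∀ z, ex (-j) z * ex 1 z ^ j = 1 := fun z => by
    rw [Mod.ex_pow, ← Mod.ex_add, mul_one, neg_add_cancel, Mod.ex_zero]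
  refine ⟨j, core hNSP (j + 48 * j) ⟨hol.mul (R1.diff_U8.pow j), fun g hg hc =>
    ((hj g hg).mul ((R1.U8_decay hg hc).pow j)).congr_right e⟩
    (fun g hg z hz => by simp only [hi g hg z hz, R1.U8_act hg hz]) ?_⟩
  have h1 := ((hj 1 rfl).mul (qq_le.pow j)).congr_right e
  refine (h1.mul (((hA.tendsto one_pos).isBigO_one ℝ).pow j)).congr (fun z => ?_) fun z => by simp
  simp only [Mod.M2.act_one, Nat.cast_one, div_one]
  ring

end Pool.Agent.P.MP_9c97e9_nt.KT
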