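import Pool.Agent.P.MP_9c97e9_nt.KT.IfF2

/-! The cocycle of the division points of the generic point. -/

namespace Pool.Agent.P.MP_9c97e9_nt.KT

open scoped Matrix
open MP_8b7eba_nt MP_8b7eba_nt.R2
open MP_8b7eba_nt.Mod (M2 G0 UH xx yy FI L0 om lv nP nM)

namespace TPRX

theorem splitC : Split W15 (0 : ℂ) (-9) 16 :=
  ⟨two_ne_zero, by norm_num, by norm_num, by norm_num, by norm_num [W15], by norm_num [W15],
    by norm_num [W15]⟩

/-- torsion points -/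
noncomputable def pv (k : ℕ) : V2 →+ EO :=
  T2.pt.comp (DistribSMul.toAddMonoidHom V2 (2 ^ k : ℚ_[2])⁻¹)

theorem pv_def (k : ℕ) (v : V2) : pv k v = T2.pt ((2 ^ k : ℚ_[2])⁻¹ • v) := rfl

theorem pv_zero {k : ℕ} {v : V2} (h : pv k v = 0) : ‖v‖ ≤ (2 ^ k)⁻¹ := by
  have h2 : ‖(2 : ℚ_[2])‖ = 2⁻¹ := by simpa using Padic.norm_p (p := 2)
  rw [pv_def, T2.ker, norm_smul, norm_inv, norm_pow, h2, inv_pow, inv_inv] at h
  rwa [← one_div, le_div_iff₀' (by positivity)]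

theorem pv_tor (k : ℕ) {v : V2} (h : ‖v‖ ≤ 1) : 2 ^ k • pv k v = 0 := by
  rw [pv_def, ← map_nsmul, ← Nat.cast_smul_eq_nsmul ℚ_[2], smul_smul, Nat.cast_pow, Nat.cast_ofNat,
    mul_inv_cancel₀ (pow_ne_zero _ two_ne_zero), one_smul, T2.ker]
  exact h

theorem pv_ac (k : ℕ) (g : GQ) (v : V2) : ac g (pv k v) = pv k (T2.rho g *ᵥ v) := by
  rw [pv_def, pv_def, T2.gal, Matrix.mulVec_smul]

variable (L : PeriodPair) (h : ℂ →+ Pt W15 ℂ) (k : ℕ)

/-- the defining relation -/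
def Rel (a b : LL) (v : V2) : Prop :=
  ‖v‖ ≤ 1 ∧ ∃ w, 2 ^ k • h w = 0 ∧ a = lf (XQ L k w) ∧ b = lf (YQ L k w) ∧ pm W15 io (pv k v) = h w

open Classical in
/-- the value attached to a pair of functions -/
noncomputable def ph (a b : LL) : V2 :=
  if ∃ v, Rel L h k a b v then Classical.epsilon (Rel L h k a b) else 0

/-- the cocycle -/
noncomputable def uu (g : AL) : V2 := ph L h k (g (lf (XQ L k 0))) (g (lf (YQ L k 0)))

theorem ph_le (a b : LL) : ‖ph L h k a b‖ ≤ 1 := by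
  unfold ph
  split_ifs with e
  · exact (Classical.epsilon_spec e).1
  · simp

variable {L h k}

theorem h0 : 2 ^ k • h 0 = 0 := by rw [map_zero, smul_zero]

theorem ph_eq (hT : TORS) (hH : QHOL) (hI : QIN) (hU : Un L h) {w : ℂ} (hw : 2 ^ k • h w = 0) :
    pm W15 io (pv k (ph L h k (lf (XQ L k w)) (lf (YQ L k w)))) = h w := by
  obtain ⟨v, h1, h2⟩ := (hT L h hU k).1 _ hw
  have e : ∃ v, Rel L h k (lf (XQ L k w)) (lf (YQ L k w)) v := ⟨v, h1, w, hw, rfl, rfl, h2⟩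
  obtain ⟨-, w', hw', e1, e2, e3⟩ := Classical.epsilon_spec e
  have hi : 0 < Complex.I.im := by simp
  have a := (hH L h hU k w hw).2.2 _ hi
  rw [(lf_inj (hI L h hU k w hw).1 (hI L h hU k w' hw').1).1 e1 hi,
    (lf_inj (hI L h hU k w hw).2 (hI L h hU k w' hw').2).1 e2 hi] at a
  have b := a.unique splitC ((hH L h hU k w' hw').2.2 _ hi)
  rw [map_add, map_add] at b
  rw [ph, if_pos e, e3, add_left_cancel b]

theorem act (hT : TORS) (hH : QHOL) (hA : QACT) (hI : QIN) (hU : Un L h) {g : AL} (hg : g ∈ GG) :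
    ∃ w₀, 2 ^ k • h w₀ = 0 ∧ g (lf (XQ L k 0)) = lf (XQ L k w₀) ∧
      g (lf (YQ L k 0)) = lf (YQ L k w₀) ∧ pm W15 io (pv k (uu L h k g)) = h w₀ ∧
      ∀ (w w' : ℂ) (t : EO), 2 ^ k • t = 0 → pm W15 io t = h w →
        h w' = h w₀ + pm W15 io (ac (cg g) t) →
        g (lf (XQ L k w)) = lf (XQ L k w') ∧ g (lf (YQ L k w)) = lf (YQ L k w') := by
  obtain ⟨w₀, h1, h2⟩ := hA L h hU k (hI L h hU k) g hg
  obtain ⟨h3, h4⟩ := h2 0 w₀ 0 (smul_zero _) (by simp) (by simp)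
  exact ⟨w₀, h1, h3, h4, by rw [uu, h3, h4, ph_eq hT hH hI hU h1], h2⟩

theorem FI_adj {γ : M2} (hγ : G0 γ) {z : ℂ} (hz : 0 < z.im) :
    FI (γ.adj.act z) = FI z - lv γ.a γ.c := by
  have := Mod.FI_act hγ.det_pos (ε := 1) (fun z hz => by
    simpa using (Mod.ff_inv γ hγ).sl_eq hγ.1 hz) (M2.im_act_pos hγ.adj.det_pos hz)
  rw [act_adj hγ.det_pos hz] at this
  linear_combination -this

end TPRX

open TPRX in
theorem t_PRX (hLATX : LATX) (hTORS : TORS) (hQHOL : QHOL) (hQACT : QACT) (hQIN : QIN) (hTR : TR)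
    (hUNITS : UNITS) (_hFB : FB) : PRX := by
  intro k
  obtain ⟨L, h, hU⟩ := hLATX
  have A := fun g => act (k := k) hTORS hQHOL hQACT hQIN hU (g := g)
  have i0 := hQIN L h hU k 0 h0
  refine Classical.epsilon_spec (p := IsU k) ⟨uu L h k, fun g => ph_le _ _ _ _ _, ?_,
    fun g hg g' hg' => ?_, ?_, fun τ H s x y hs ha => ?_⟩
  · classical
    refine ⟨{lf (XQ L k 0), lf (YQ L k 0)}, fun g _ n _ hn => ?_⟩
    have e1 : n (lf (XQ L k 0)) = _ := hn _ (by simp)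
    have e2 : n (lf (YQ L k 0)) = _ := hn _ (by simp)
    simp only [uu, RingAut.mul_apply, e1, e2]
  · obtain ⟨w, a1, -, -, a4, a5⟩ := A g hg
    obtain ⟨w', -, b2, b3, b4, -⟩ := A g' hg'
    have t := pv_tor k (ph_le L h k (g' (lf (XQ L k 0))) (g' (lf (YQ L k 0))))
    have t' : 2 ^ k • (h w + pm W15 io (ac (cg g) (pv k (uu L h k g')))) = 0 := by
      rw [smul_add, a1, ← map_nsmul, ← map_nsmul, uu, t, map_zero, map_zero, add_zero]
    obtain ⟨w'', e⟩ := hU.tor k _ t'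
    obtain ⟨c1, c2⟩ := a5 w' w'' _ t b4 e
    refine pv_zero (pm_injective io ?_)
    rw [map_sub, map_sub, map_sub, map_sub, a4, ← pv_ac, uu, RingAut.mul_apply, RingAut.mul_apply,
      b2, b3, c1, c2, ph_eq hTORS hQHOL hQIN hU (e ▸ t'), e, map_zero]
    abel
  · obtain ⟨e₁, e₂, a1, a2, a3, a4⟩ := (hTORS L h hU k).2
    refine ⟨e₁, e₂, a1, a2, a3, fun γ hγ => ?_⟩
    have p := hU.per γ hγ
    have p' := p
    rw [Mod.lv_eq, hU.lat] at p'
    obtain ⟨⟨a, ha⟩, b, hb⟩ := p'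
    have t : 2 ^ k • h (-lv γ.a γ.c / 2 ^ k) = 0 := by
      rw [← map_nsmul, nsmul_eq_mul, Nat.cast_pow, Nat.cast_ofNat,
        mul_div_cancel₀ _ (pow_ne_zero _ two_ne_zero), map_neg, p, neg_zero]
    have e := fun G hG => ((hTR.1 _ (Lm.of_G0 hγ.adj)).2.2.2 G hG).2
    simp only [pb, M2.adj_adj] at e
    have e1 : tr γ (lf (XQ L k 0)) = lf (XQ L k (-lv γ.a γ.c / 2 ^ k)) :=
      (e _ i0.1).trans (lf_congr fun z hz => by
        simp only [XQ, FI_adj hγ hz]; congr 3; ring)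
    have e2 : tr γ (lf (YQ L k 0)) = lf (YQ L k (-lv γ.a γ.c / 2 ^ k)) :=
      (e _ i0.2).trans (lf_congr fun z hz => by
        simp only [YQ, FI_adj hγ hz]; congr 2; ring)
    refine pv_zero (pm_injective io ?_)
    rw [map_sub, map_sub, uu, e1, e2, ph_eq hTORS hQHOL hQIN hU t, map_zero, sub_eq_zero,
      show (nP γ.a γ.c / 4 : ℚ_[2]) = a by rw [ha]; push_cast; ring,
      show (nM γ.a γ.c / 2 : ℚ_[2]) = b by rw [hb]; push_cast; ring, pv_def, a4, Mod.lv_eq, ha, hb]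
  · have v1 := hUNITS.2.2 τ x y ha _ i0.1
    have v2 := hUNITS.2.2 τ x y ha _ i0.2
    have q := (hQHOL L h hU k 0 h0).2.2 τ ha.1
    obtain ⟨R, hR⟩ := split15.exists_is (x := ev τ (lf (XQ L k 0))) (η := ev τ (lf (YQ L k 0)))
      (io_inj (by simpa [v1, v2, map_ofNat] using q.eq splitC))
    have r : pm W15 io R = h (FI τ / 2 ^ k + 0) := (hR.map io).unique splitC (by rwa [v1, v2])
    refine ⟨R, Is.of_map (f := io) ?_, fun σ hσ => ?_⟩
    · rw [map_nsmul, r, ← map_nsmul, add_zero, nsmul_eq_mul, Nat.cast_pow, Nat.cast_ofNat,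
        mul_div_cancel₀ _ (pow_ne_zero _ two_ne_zero)]
      simpa [map_ofNat, ha.2.1, ha.2.2] using hU.fi τ ha.1
    · obtain ⟨w, a1, a2, a3, a4, -⟩ := A _ (hs.mem σ hσ).1
      have iw := hQIN L h hU k w a1
      have c := (is_ac σ hR).map io
      rw [← hs.val σ hσ _ ⟨_, i0.1, rfl⟩, ← hs.val σ hσ _ ⟨_, i0.2, rfl⟩, a2, a3,
        hUNITS.2.2 τ x y ha _ iw.1, hUNITS.2.2 τ x y ha _ iw.2] at c
      refine pm_injective io ?_
      rw [← pv_def, a4, map_sub, c.unique splitC ((hQHOL L h hU k w a1).2.2 τ ha.1), r, map_add,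
        add_zero, add_sub_cancel_left]

end Pool.Agent.P.MP_9c97e9_nt.KT
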