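import Pool.Agent.P.MP_9c97e9_nt.KT.IfF2

/-! Every automorphism is locally a conjugation of expansions. -/

namespace Pool.Agent.P.MP_9c97e9_nt.KT

open MP_8b7eba_nt.R2
open MP_8b7eba_nt.Mod (M2 G0 xx yy)

theorem t_PULL (hSURJ : SURJ) (hSEC0 : SEC0) (hAUT : AUT) (hDENSE : DENSE) (hTRS : TRS)
    (hFB : FB) : PULL := by
  intro g hg τ' hτ' S
  obtain ⟨s, hs⟩ := hAUT.1 (cg g)
  obtain ⟨t0, h0, hx, hy⟩ := hSURJ (s.symm (xx τ')) (s.symm (yy τ'))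
    (by simpa [map_ofNat] using congrArg s.symm (curve hτ'))
    (by simpa using (not_cusp hτ').1)
    (by simpa [map_ofNat] using (map_ne_zero s.symm).2 (not_cusp hτ').2)
  obtain ⟨g0, hg0, e1, e2⟩ := hSEC0 s t0 τ' h0 hτ' (by rw [hx, s.apply_symm_apply])
    (by rw [hy, s.apply_symm_apply])
  have hc := hFB.2.2.2.2.2.2.1
  obtain ⟨γ, hγ, e3⟩ := hDENSE (g0⁻¹ * g) (mem_geo.2 ⟨mul_mem (inv_mem hg0) hg, fun a => by
    have : g (cst a) = g0 (cst a) := by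
      rw [hc g hg, hc g0 hg0, io.injective ((e2 a).trans (hs a))]
    show g0.symm (g (cst a)) = _
    rw [this, g0.symm_apply_apply]⟩) S
  refine ⟨γ.adj.act t0, s, M2.im_act_pos hγ.adj.det_pos h0, hs, fun f hf => ?_⟩
  have e4 : g f = g0 (tr γ f) := by
    rw [← e3 f hf]
    exact (g0.apply_symm_apply _).symm
  rw [e4, e1, (hTRS γ (Lm.of_G0 hγ)).2, jt_sb hγ.adj h0]

end Pool.Agent.P.MP_9c97e9_nt.KT
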