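import Pool.Agent.P.MP_9c97e9_nt.KT.IfF2

/-! Automorphisms act on values and orders. -/

namespace Pool.Agent.P.MP_9c97e9_nt.KT

theorem t_PULV (hPULL : PULL) (hDIV : DIV) : PULV := by
  refine ⟨fun g hg G hG => ?_, fun g hg I _ G G' h τ' hτ' => ?_⟩
  · obtain ⟨G', h1, h2⟩ := hDIV.1 (g (lf G) : LL) fun τ' hτ' => by
      obtain ⟨τ, s, h1, -, h2⟩ := hPULL g hg τ' hτ' {lf G}
      exact ⟨_, by rw [h2 _ (Finset.mem_singleton_self _), jt_lf h1 hG, sa_fs]⟩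
    exact ⟨G', inL_of h1 h2, (lf_coe h2).symm⟩
  · obtain ⟨τ, s, h1, h2, h3⟩ := hPULL g hg τ' hτ' (Set.finite_range fun i => lf (G i)).toFinset
    refine ⟨τ, s, h1, h2, fun i => ?_⟩
    have e := h3 _ ((Set.Finite.mem_toFinset _).2 ⟨i, rfl⟩)
    rw [(h i).2.2, jt_lf hτ' (h i).2.1, jt_lf h1 (h i).1, sa_fs] at e
    replace e := fs_inj e
    refine ⟨?_, ?_⟩
    · rw [← tay_zero τ' (G' i), e, ← PowerSeries.coeff_zero_eq_constantCoeff_apply,
        PowerSeries.coeff_map,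
        PowerSeries.coeff_zero_eq_constantCoeff_apply, tay_zero]
      rfl
    · rw [← order_tay hτ' ((h i).2.1.1.an hτ'), ← order_tay h1 ((h i).1.1.an h1), e, order_map]

end Pool.Agent.P.MP_9c97e9_nt.KT
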