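import Pool.Agent.P.MP_9c97e9_nt.KT.IfF2

/-! Proof of QACT. -/

namespace Pool.Agent.P.MP_9c97e9_nt.KT

open MP_8b7eba_nt.R2
open MP_8b7eba_nt.Mod (UH xx yy FI)

namespace TQACT

theorem split : Split W15 (0 : ℂ) (-9) 16 := by
  constructor <;> norm_num [W15]

theorem cnt {L : PeriodPair} {h : ℂ →+ Pt W15 ℂ} (hU : Un L h) (k : ℕ) :
    Countable {w // 2 ^ k • h w = 0} := by
  have : Countable L.lattice := L.latticeEquivProd.injective.countable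
  refine Function.Injective.countable (f := fun w => (⟨2 ^ k • w.1, (hU.ker _).1
    ((map_nsmul h _ _).trans w.2)⟩ : L.lattice)) fun w w' e => Subtype.ext ?_
  exact nsmul_right_injective (by positivity) (congrArg Subtype.val e)

theorem mulN (h : ℂ →+ Pt W15 ℂ) (k : ℕ) (z : ℂ) : 2 ^ k • h (z / 2 ^ k + 0) = h z := by
  rw [← map_nsmul, add_zero, nsmul_eq_mul, Nat.cast_pow, Nat.cast_ofNat,
    mul_div_cancel₀ _ (pow_ne_zero _ two_ne_zero)]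

end TQACT

open TQACT in
theorem t_QACT (hQHOL : QHOL) (hPULV : PULV) (hPIG : PIG) : QACT := by
  intro L h hU k hI g hg
  have z0 : 2 ^ k • h 0 = 0 := by rw [map_zero, smul_zero]
  have hQ := hQHOL L h hU k
  obtain ⟨X', iX, eX⟩ := hPULV.1 g hg _ (hI 0 z0).1
  obtain ⟨Y', iY, eY⟩ := hPULV.1 g hg _ (hI 0 z0).2
  have := cnt hU k
  obtain ⟨⟨w₀, h0⟩, e0⟩ := hPIG {w // 2 ^ k • h w = 0} (fun w z => X' z - XQ L k w z)
    (fun w z => Y' z - YQ L k w z)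
    (fun w => ⟨iX.1.sub (hQ w w.2).1, iY.1.sub (hQ w w.2).2.1⟩) fun τ' hτ' => by
      obtain ⟨τ, s, hτ, -, e⟩ := hPULV.2 g hg (Fin 4) ![xx, yy, XQ L k 0, YQ L k 0]
        ![xx, yy, X', Y'] (fun i => by
          fin_cases i
          exacts [⟨inL_xx, inL_xx, (mem_GG.1 hg).1⟩, ⟨inL_yy, inL_yy, (mem_GG.1 hg).2⟩,
            ⟨(hI 0 z0).1, iX, eX⟩, ⟨(hI 0 z0).2, iY, eY⟩]) τ' hτ'
      have e1 : xx τ' = s (xx τ) := (e 0).1
      have e2 : yy τ' = s (yy τ) := (e 1).1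
      have e3 : X' τ' = s (XQ L k 0 τ) := (e 2).1
      have e4 : Y' τ' = s (YQ L k 0 τ) := (e 3).1
      have h1 : pm W15 (s : ℂ →+* ℂ) (h (FI τ)) = h (FI τ') := Is.unique split
        (by simpa [e1, e2, map_ofNat] using (hU.fi τ hτ).map (s : ℂ →+* ℂ)) (hU.fi τ' hτ')
      obtain ⟨w, hw⟩ := hU.tor k (pm W15 (s : ℂ →+* ℂ) (h (FI τ / 2 ^ k + 0)) -
        h (FI τ' / 2 ^ k + 0)) (by rw [smul_sub, ← map_nsmul, mulN, mulN, h1, sub_self])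
      have h2 : 2 ^ k • h w = 0 := by rw [hw, smul_sub, ← map_nsmul, mulN, mulN, h1, sub_self]
      have h3 := ((hQ w h2).2.2 τ' hτ')
      rw [map_add, hw, add_zero (FI τ' / _), add_sub_cancel] at h3
      have h4 := (((hQ 0 z0).2.2 τ hτ).map (s : ℂ →+* ℂ)).inj h3
      exact ⟨⟨w, h2⟩, sub_eq_zero.2 (e3.trans h4.1), sub_eq_zero.2 (e4.trans h4.2)⟩
  refine ⟨w₀, h0, fun w w' t ht e1 e2 => ?_⟩
  have hw : 2 ^ k • h w = 0 := by rw [← e1, ← map_nsmul, ht, map_zero]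
  have hw' : 2 ^ k • h w' = 0 := by
    rw [e2, smul_add, h0, ← map_nsmul, ← map_nsmul, ht, map_zero, map_zero, add_zero]
  obtain ⟨X'', jX, fX⟩ := hPULV.1 g hg _ (hI w hw).1
  obtain ⟨Y'', jY, fY⟩ := hPULV.1 g hg _ (hI w hw).2
  have key : ∀ τ' : ℂ, 0 < τ'.im → X'' τ' = XQ L k w' τ' ∧ Y'' τ' = YQ L k w' τ' := fun τ' hτ' => by
    obtain ⟨τ, s, hτ, hs, e⟩ := hPULV.2 g hg (Fin 4) ![XQ L k 0, YQ L k 0, XQ L k w, YQ L k w]
      ![X', Y', X'', Y''] (fun i => by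
        fin_cases i
        exacts [⟨(hI 0 z0).1, iX, eX⟩, ⟨(hI 0 z0).2, iY, eY⟩, ⟨(hI w hw).1, jX, fX⟩,
          ⟨(hI w hw).2, jY, fY⟩]) τ' hτ'
    have e3 : XQ L k w₀ τ' = s (XQ L k 0 τ) := (sub_eq_zero.1 (e0 τ' hτ').1).symm.trans (e 0).1
    have e4 : YQ L k w₀ τ' = s (YQ L k 0 τ) := (sub_eq_zero.1 (e0 τ' hτ').2).symm.trans (e 1).1
    have h1 : pm W15 (s : ℂ →+* ℂ) (h (FI τ / 2 ^ k + 0)) = h (FI τ' / 2 ^ k + w₀) :=
      Is.unique split (((hQ 0 z0).2.2 τ hτ).map (s : ℂ →+* ℂ))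
        (by simpa [e3, e4] using (hQ w₀ h0).2.2 τ' hτ')
    have h2 : pm W15 (s : ℂ →+* ℂ) (h (FI τ / 2 ^ k + w)) = h (FI τ' / 2 ^ k + w') := by
      rw [add_zero] at h1
      rw [map_add, map_add, h1, map_add, map_add, e2, ← e1, ac, pm_pm, pm_pm, add_assoc,
        show (s : ℂ →+* ℂ).comp io = io.comp (cg g : Om →+* Om) from RingHom.ext hs]
    have h3 := (((hQ w hw).2.2 τ hτ).map (s : ℂ →+* ℂ)).inj (h2 ▸ (hQ w' hw').2.2 τ' hτ')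
    exact ⟨(e 2).1.trans h3.1, (e 3).1.trans h3.2⟩
  exact ⟨fX.trans (lf_congr fun z hz => (key z hz).1), fY.trans (lf_congr fun z hz => (key z hz).2)⟩

end Pool.Agent.P.MP_9c97e9_nt.KT
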