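import Pool.Agent.P.MP_9c97e9_nt.KT.BasZ

/-! The family of the Hecke translates. -/

namespace Pool.Agent.P.MP_9c97e9_nt.KT

open PowerSeries
open MP_8b7eba_nt.R2
open MP_8b7eba_nt.Mod (M2 G0 UH xx yy qq)
open MP_8b7eba_nt.R1 (IntR IntM Zb QE zs ze y1)

namespace TQFH

theorem exp3 (l : ℕ) : ∃ B : ℤ⟦X⟧, QE 1 3 (zs B) fun z => xx z + l * yy z := by
  obtain ⟨A, -, hA⟩ := MP_8b7eba_nt.R1.exists_xx
  obtain ⟨A', -, hA'⟩ := MP_8b7eba_nt.R1.exists_y1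
  have h1 := hA.shift 1
  have h2 := h1.add (((hA'.smul (-2)).sub h1).smul (l : Zb))
  refine ⟨X ^ 1 * A + C (l : ℤ) * (C (-2) * A' - X ^ 1 * A), ?_⟩
  have e : zs (X ^ 1 * A + C (l : ℤ) * (C (-2) * A' - X ^ 1 * A)) =
      X ^ 1 * zs A + C (l : Zb) * (C (-2) * zs A' - X ^ 1 * zs A) := by
    simp [map_ofNat]
  rw [e]
  refine h2.congr fun z _ => ?_
  rw [y1, show ((-2 : Zb) : ℂ) = -2 from rfl, show ((l : Zb) : ℂ) = l by simp]
  ring

theorem ze_int (d : ℕ) (n : ℤ) (hd : d ≠ 0) (k : ℤ) : ze d (n + d * k) = ze d n := by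
  have h : (d : ℂ) ≠ 0 := by exact_mod_cast hd
  rw [MP_8b7eba_nt.R1.ze_add]
  have : ze d (d * k) = 1 := by
    apply Subtype.ext
    rw [MP_8b7eba_nt.R1.coe_ze]
    push_cast
    rw [mul_div_cancel_left₀ _ h, qq, mul_comm, Complex.exp_int_mul_two_pi_mul_I]
  rw [this, mul_one]

theorem hom_ze (f : Zb →+* Zb) {d : ℕ} (hd : d ≠ 0) : ∃ c : ℕ, ∀ n : ℤ, f (ze d n) = ze d (c * n) := by
  have : NeZero d := ⟨hd⟩
  have hz := Complex.isPrimitiveRoot_exp d hd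
  have h1 : ((f (ze d 1) : Zb) : ℂ) ^ d = 1 := by
    rw [← SubmonoidClass.coe_pow, ← map_pow, MP_8b7eba_nt.R1.ze_pow_self hd, map_one]
    rfl
  obtain ⟨c, -, hc⟩ := hz.eq_pow_of_pow_eq_one h1
  have h2 : f (ze d 1) = ze d 1 ^ c := by
    apply Subtype.ext
    rw [← hc, SubmonoidClass.coe_pow, MP_8b7eba_nt.R1.coe_ze, qq]
    congr 2
    push_cast
    ring
  have h3 : ∀ n : ℕ, f (ze d n) = ze d (c * n) := fun n => by
    have := MP_8b7eba_nt.R1.ze_pow d 1 n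
    rw [mul_one] at this
    rw [← this, map_pow, h2, ← pow_mul, MP_8b7eba_nt.R1.ze_pow, mul_one, Nat.cast_mul]
  refine ⟨c, fun n => ?_⟩
  have h4 := Int.emod_add_mul_ediv n d
  have h5 : 0 ≤ n % d := Int.emod_nonneg n (by exact_mod_cast hd)
  obtain ⟨r, hr⟩ := Int.eq_ofNat_of_zero_le h5
  rw [← h4, ze_int d _ hd, hr, h3, mul_add, mul_left_comm, ze_int d _ hd]

theorem map_ser (f : Zb →+* Zb) (B : ℤ⟦X⟧) (u v : Zb) (k e : ℕ) (he : e ≠ 0) :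
    PowerSeries.map f (X ^ k * (C u * expand e he (rescale v (zs B)))) =
      X ^ k * (C (f u) * expand e he (rescale (f v) (zs B))) := by
  rw [map_mul, map_mul, map_pow, map_X, map_C]
  congr 2
  ext n
  rw [coeff_map]
  by_cases h : e ∣ n
  · obtain ⟨j, rfl⟩ := h
    rw [coeff_expand_mul, coeff_expand_mul, coeff_rescale, coeff_rescale, map_mul, map_pow,
      coeff_map, eq_intCast, map_intCast]
  · rw [coeff_expand_of_not_dvd _ _ _ h, coeff_expand_of_not_dvd _ _ _ h, map_zero]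

end TQFH

open TQFH in
theorem t_QFH (hMGB : MGB) : QFH := by
  intro m hm h15 l
  have m0 : 0 < m := Nat.pos_of_ne_zero hm
  obtain ⟨B, hB⟩ := exp3 l
  obtain ⟨g1, g2, g3, g4, -, g6, -⟩ := hMGB
  have ha : ∀ t : {t // t ∈ IntR m}, t.1.1 * t.1.1 ≠ 0 := fun t => by
    have := ((MP_8b7eba_nt.R1.Int_mem m0).1 t.2).1
    have h : t.1.1 ≠ 0 := fun h => by rw [h] at this; omega
    exact mul_ne_zero h h
  have hd : ∀ t : {t // t ∈ IntR m}, 0 < (IntM t).det := fun t => by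
    rw [MP_8b7eba_nt.R1.Int_det m0 t.2]; omega
  refine ⟨3 * m ^ 2, fun t => X ^ (3 * m ^ 2 - t.1.1 * t.1.1 * 3) *
    (C (ze t.1.2.2 (-((3 : ℕ) * (t.1.2.1 : ℤ)))) *
      expand (t.1.1 * t.1.1) (ha t) (rescale (ze t.1.2.2 t.1.2.1) (zs B))),
    hm, inferInstance, fun t => ?_, fun t => ?_, fun t => ?_, fun γ hγ t => ?_, fun σ t => ?_⟩
  · exact MP_8b7eba_nt.Mod.diff_act (hd t)
      (MP_8b7eba_nt.R1.hb_xx.hol.add (MP_8b7eba_nt.R1.Exp_hb_yy.hol.const_mul (l : ℂ)))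
  · exact g6 _ _ (hd t) (g4 _ _ g1 (g4 _ _ (g3 l) g2).2).1
  · obtain ⟨⟨a, b, d⟩, ht⟩ := t
    obtain ⟨h2, h3⟩ := (MP_8b7eba_nt.R1.Int_mem m0).1 ht
    simp only at h2 h3
    have a0 : 0 < a := Nat.pos_of_ne_zero (by rintro rfl; omega)
    have a1 : a ≤ m := Nat.le_of_dvd m0 ⟨_, h2.symm⟩
    have q2 := ((hB.subst (w := m) (e := a * a) (b : ℤ) a0 (show 0 < d by omega) m0
      (by positivity) (by rw [← h2]; ring)).congr
      (H := fun z => xx ((IntM (a, b, d)).act z) + l * yy ((IntM (a, b, d)).act z))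
      fun z _ => by simp [IntM, M2.act, MP_8b7eba_nt.Mod.mob]).shift (3 * m ^ 2 - a * a * 3)
    rwa [show a * a * 3 + (3 * m ^ 2 - a * a * 3) = 3 * m ^ 2 by
      have := Nat.mul_le_mul a1 a1
      rw [← sq m] at this
      omega] at q2
  · obtain ⟨t', ht', γ', hγ', e⟩ := MP_8b7eba_nt.R1.Int_exists m0 h15 (M := IntM t * γ)
      (by rw [MP_8b7eba_nt.Mod.M2.det_mul, MP_8b7eba_nt.R1.Int_det m0 t.2, hγ.1, mul_one])
      (by simpa [IntM] using hγ.2.mul_left _)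
    refine ⟨⟨t', ht'⟩, fun z hz => ?_⟩
    have hz' := MP_8b7eba_nt.Mod.M2.im_act_pos (hd ⟨t', ht'⟩) hz
    simp only
    rw [← MP_8b7eba_nt.Mod.M2.act_mul (hd t).ne' hγ.det_pos hz, e,
      MP_8b7eba_nt.Mod.M2.act_mul hγ'.det_pos.ne' (hd ⟨t', ht'⟩) hz,
      MP_8b7eba_nt.Mod.xx_inv _ hγ' _ hz', MP_8b7eba_nt.Mod.yy_inv hγ' hz']
  · obtain ⟨⟨a, b, d⟩, ht⟩ := t
    obtain ⟨h2, h3⟩ := (MP_8b7eba_nt.R1.Int_mem m0).1 ht
    simp only at h2 h3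
    have d0 : d ≠ 0 := by omega
    obtain ⟨c, hc⟩ := hom_ze (sZ σ) d0
    refine ⟨⟨(a, c * b % d, d), (MP_8b7eba_nt.R1.Int_mem m0).2 ⟨h2, Nat.mod_lt _ (by omega)⟩⟩,
      Cj_iff.2 ?_⟩
    have e1 : ((c * b % d : ℕ) : ℤ) = c * b + d * (-((c * b / d : ℕ) : ℤ)) := by
      have := Nat.mod_add_div (c * b) d
      zify at this
      push_cast
      linear_combination this
    rw [map_ser, hc, hc]
    simp only
    rw [e1, ze_int d _ d0, show -(((3 : ℕ) : ℤ) * (c * b + d * (-((c * b / d : ℕ) : ℤ)))) =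
      c * -(((3 : ℕ) : ℤ) * b) + d * (3 * ((c * b / d : ℕ) : ℤ)) by push_cast; ring, ze_int d _ d0]

end Pool.Agent.P.MP_9c97e9_nt.KT
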