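import Pool.Agent.P.MP_9c97e9_nt.KT.IfF2

/-! The coordinates of the division points of the generic point are holomorphic. -/

namespace Pool.Agent.P.MP_9c97e9_nt.KT

open MP_8b7eba_nt.R2
open MP_8b7eba_nt.Mod (UH FI diff_FI)

theorem t_QHOL : QHOL := by
  intro L h hU k w hw
  have h1 : ∀ z : ℂ, 0 < z.im → FI z / 2 ^ k + w ∉ L.lattice := fun z hz hm => by
    have h2 := congrArg (2 ^ k • ·) ((hU.ker _).2 hm)
    simp only [map_add, smul_add, hw, add_zero, smul_zero] at h2
    rw [← map_nsmul, nsmul_eq_mul, Nat.cast_pow, Nat.cast_ofNat,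
      mul_div_cancel₀ _ (pow_ne_zero k two_ne_zero)] at h2
    exact (hU.fi z hz).ne_zero h2
  have h2 : DifferentiableOn ℂ (fun z => FI z / 2 ^ k + w) UH := (diff_FI.div_const _).add_const w
  exact ⟨((L.analyticOnNhd_weierstrassP.differentiableOn.comp h2 h1).const_mul 4).add_const _,
    (L.analyticOnNhd_derivWeierstrassP.differentiableOn.comp h2 h1).const_mul 8,
    fun z hz => hU.is _ (h1 z hz)⟩

end Pool.Agent.P.MP_9c97e9_nt.KT
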