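import Pool.Agent.P.MP_9c97e9_nt.KT.IfF2

/-! The division points of the generic point are defined over the extension. -/

namespace Pool.Agent.P.MP_9c97e9_nt.KT

open MP_8b7eba_nt.R2
open MP_8b7eba_nt.Mod (UH xx yy FI)

namespace TQIN

/-- a square root of the first coordinate of the doubled point, shifted by a root -/
noncomputable def SS (L : PeriodPair) (k : ℕ) (a b c w z : ℂ) : ℂ :=
  ((XQ L (k + 1) w z - a) ^ 2 - (a - b) * (a - c)) / YQ L (k + 1) w z

theorem sp : Split W15 (0 : ℂ) (-9) 16 := by constructor <;> norm_num [W15]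

variable {L : PeriodPair} {h : ℂ →+ Pt W15 ℂ} {k : ℕ} {a b c w : ℂ}

theorem two (w : ℂ) : 2 ^ k • h (2 * w) = 2 ^ (k + 1) • h w := by
  rw [pow_succ, mul_smul, two_mul, map_add, two_smul]

theorem sq (hQ : QHOL) (hU : Un L h) (s : Split W15 a b c) (hw : 2 ^ (k + 1) • h w = 0) :
    Hol (SS L k a b c w) ∧ ∀ z : ℂ, 0 < z.im → YQ L (k + 1) w z ≠ 0 ∧
      SS L k a b c w z ^ 2 = XQ L k (2 * w) z - a := by
  obtain ⟨hX, hY, hI⟩ := hQ L h hU (k + 1) w hw
  obtain ⟨-, -, hI'⟩ := hQ L h hU k (2 * w) ((two w).trans hw)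
  have key : ∀ z : ℂ, 0 < z.im → YQ L (k + 1) w z ≠ 0 ∧
      SS L k a b c w z ^ 2 = XQ L k (2 * w) z - a := fun z hz => by
    have h1 := hI' z hz
    rw [show FI z / 2 ^ k + 2 * w = (FI z / 2 ^ (k + 1) + w) + (FI z / 2 ^ (k + 1) + w) by
      field_simp; ring, map_add] at h1
    exact ⟨((hI z hz).two_ne s).1 h1.ne_zero, by rw [UU_sq s h1, (hI z hz).UU_eq, SS]⟩
  exact ⟨(((hX.sub_const a).fun_pow 2).sub_const _).fun_div hY fun z hz => (key z hz).1, key⟩

theorem root (hQ : QHOL) (hA : QACT) (hT : TORS) (hR : RTL) (hU : Un L h)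
    (ih : ∀ w, 2 ^ k • h w = 0 → InL (XQ L k w) ∧ InL (YQ L k w)) {n : ℤ}
    (s : Split W15 (n : ℂ) b c) (hw : 2 ^ (k + 1) • h w = 0) : InL (SS L k n b c w) := by
  have e : ∀ w, 2 ^ (k + 1) • h w = 0 →
      mf (SS L k n b c w) ^ 2 = (lf (XQ L k (2 * w)) - n : LL) := fun w hw => by
    obtain ⟨h1, h2⟩ := sq hQ hU s hw
    obtain ⟨h3, h4⟩ := (ih _ ((two w).trans hw)).1.sub (inL_int n).1
    rw [← mf_pow h1, ← (inL_int n).2, ← h4, coe_lf h3]
    exact mf_congr fun z hz => (h2 z hz).2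
  refine ⟨(sq hQ hU s hw).1, hR _ _ 2 two_ne_zero (e w hw) fun g hg => ?_⟩
  obtain ⟨w₀, h0, hA⟩ := hA L h hU k ih g hg
  obtain ⟨v, -, hv⟩ := (hT L h hU k).1 _ ((two w).trans hw)
  generalize T2.pt _ = t at hv
  have ht : 2 ^ k • t = 0 := pm_injective io (by rw [map_nsmul, hv, two, hw, map_zero])
  obtain ⟨w', h1⟩ := hU.tor k (h w₀ + pm W15 io (ac (cg g) t)) (by
    rw [smul_add, h0, ← map_nsmul, ← map_nsmul, ht, map_zero, map_zero, add_zero])
  have h2 : 2 * (w' / 2) = w' := by ring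
  refine ⟨_, (e (w' / 2) ?_).trans ?_⟩
  · rw [← two, h2, h1, smul_add, h0, ← map_nsmul, ← map_nsmul, ht, map_zero, map_zero, add_zero]
  · rw [h2, map_sub, map_intCast, (hA _ _ t ht hv h1).1]

end TQIN

open TQIN in
theorem t_QIN (hQHOL : QHOL) (hQACT : QACT) (hTORS : TORS) (hRTL : RTL) : QIN := by
  intro L h hU k
  induction k with
  | zero =>
    intro w hw
    rw [pow_zero, one_smul] at hw
    have e : ∀ z : ℂ, 0 < z.im → XQ L 0 w z = 4 * xx z ∧ YQ L 0 w z = 8 * yy z := fun z hz => by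
      have h1 := (hQHOL L h hU 0 w (by simpa using hw)).2.2 z hz
      rw [map_add, hw, add_zero, pow_zero, div_one] at h1
      exact h1.inj (hU.fi z hz)
    exact ⟨((inL_int 4).1.mul inL_xx).1.congr fun z hz => by simpa using (e z hz).1,
      ((inL_int 8).1.mul inL_yy).1.congr fun z hz => by simpa using (e z hz).2⟩
  | succ k ih =>
    intro w hw
    have s1 := root (n := 0) hQHOL hQACT hTORS hRTL hU ih (by simpa using sp) hw
    have s2 := root (n := -9) hQHOL hQACT hTORS hRTL hU ih (by simpa using sp.swap) hw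
    have s3 := root (n := 16) hQHOL hQACT hTORS hRTL hU ih (by simpa using sp.swap'.swap) hw
    have hI := (hQHOL L h hU (k + 1) w hw).2.2
    have hX : InL (XQ L (k + 1) w) := ((s1.add s2).1.mul (s1.add s3).1).1.congr fun z hz => by
      have h1 := (hI z hz).eq sp
      have h2 := ((sq hQHOL hU sp hw).2 z hz).1
      simp only [SS]
      push_cast
      field_simp
      linear_combination XQ L (k + 1) w z * h1
    refine ⟨hX, (((inL_int 2).1.mul (s1.add s2).1).1.mul
      (hX.sub (inL_int 16).1).1).1.congr fun z hz => ?_⟩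
    have h1 := (hI z hz).eq sp
    have h2 := ((sq hQHOL hU sp hw).2 z hz).1
    simp only [SS]
    push_cast
    field_simp
    linear_combination h1

end Pool.Agent.P.MP_9c97e9_nt.KT
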