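import Pool.Agent.P.MP_9c97e9_nt.KT.IfF1

/-! Proof of ROOT0: roots of holomorphic functions without zeros. -/

namespace Pool.Agent.P.MP_9c97e9_nt.KT

open MP_8b7eba_nt.Mod (UH isOpen_UH UH_mem_nhds)
open Complex Filter Topology

theorem t_ROOT0 : ROOT0 := by
  intro G N hN hG h0
  have hsc : IsSimplyConnected UH := by
    have := (convex_halfSpace_im_gt 0).contractibleSpace ⟨I, by simp⟩
    exact (inferInstance : SimplyConnectedSpace {z : ℂ | 0 < z.im})
  obtain ⟨L, hL, e⟩ := exists_continuousOn_eqOn_exp_comp hsc isOpen_UH hG.continuousOn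
    (by rintro ⟨z, hz, h⟩; exact h0 z hz h)
  have hd : Hol L := fun z hz => by
    have h1 : ContinuousAt (fun w => (L w - L z).im) z :=
      continuous_im.continuousAt.comp ((hL.continuousAt (UH_mem_nhds hz)).sub continuousAt_const)
    have h2 : ∀ᶠ w in 𝓝 z, (L w - L z).im ∈ Set.Ioo (-Real.pi) Real.pi :=
      h1 (Ioo_mem_nhds (by simpa using Real.pi_pos) (by simpa using Real.pi_pos))
    have h3 : L =ᶠ[𝓝 z] fun w => log (G w / G z) + L z := by
      filter_upwards [h2, UH_mem_nhds hz] with w h4 h5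
      rw [← e h5, ← e hz, Function.comp_apply, Function.comp_apply, ← exp_sub,
        log_exp h4.1 h4.2.le, sub_add_cancel]
    refine (DifferentiableAt.congr_of_eventuallyEq ?_ h3).differentiableWithinAt
    refine (((hG.differentiableAt (UH_mem_nhds hz)).div_const _).clog ?_).add_const _
    rw [div_self (h0 z hz)]
    exact one_mem_slitPlane
  refine ⟨fun z => exp (L z / N), (hd.div_const _).cexp, fun z hz => ?_⟩
  rw [← exp_nat_mul, mul_div_cancel₀ _ (Nat.cast_ne_zero.2 hN)]
  exact e hz

end Pool.Agent.P.MP_9c97e9_nt.KT
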