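import Pool.Agent.P.MP_9c97e9_nt.KT.IfF2

/-! Roots of elements of the function field. -/

namespace Pool.Agent.P.MP_9c97e9_nt.KT

open Polynomial

theorem t_RTL (hTWR : TWR) : RTL := by
  intro r f N hN hr h
  refine hTWR r (X ^ N - C f) (X_pow_sub_C_ne_zero (Nat.pos_of_ne_zero hN) f) ?_ fun g hg => ?_
  · rw [eval₂_sub, eval₂_X_pow, eval₂_C, hr]
    exact sub_self _
  · obtain ⟨s, hs⟩ := h g hg
    rw [Polynomial.map_sub, Polynomial.map_pow, map_X, map_C]
    have := X_pow_sub_C_splits_of_isPrimitiveRoot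
      ((Complex.isPrimitiveRoot_exp N hN).map_of_injective cM.injective) hs
    exact this

end Pool.Agent.P.MP_9c97e9_nt.KT
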