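import Pool.Agent.P.MP_9c97e9_nt.KT.IfF2

/-! The automorphism attached to two conjugate points. -/

namespace Pool.Agent.P.MP_9c97e9_nt.KT

open MP_8b7eba_nt.R2

theorem t_SEC0 (hSIG : SIG) (hEXTA : EXTA) (hFB : FB) : SEC0 := by
  intro s τ τ' hτ hτ' hx hy
  obtain ⟨h1, h2⟩ := hSIG s τ τ' hτ hτ' hx hy
  obtain ⟨-, -, -, h3, -, -, h4, -⟩ := hFB
  obtain ⟨g, hg, h⟩ := hEXTA FS ((sa s).comp ((jt τ).comp (algebraMap LL MF)))
    ((jt τ').comp (algebraMap LL MF))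
    (by
      change sa s (jt τ (lf _ : LL)) = jt τ' (lf _ : LL)
      rw [jt_lf hτ inL_xx, jt_lf hτ' inL_xx, sa_fs, h1])
    (by
      change sa s (jt τ (lf _ : LL)) = jt τ' (lf _ : LL)
      rw [jt_lf hτ inL_yy, jt_lf hτ' inL_yy, sa_fs, h2])
  refine ⟨g, hg, h, fun a => ?_⟩
  have h5 : jt τ' (g (cst a) : LL) = sa s (jt τ (cst a)) := h (cst a)
  rw [h4 g hg, cst, cst, jt_lf hτ' (h3 _), jt_lf hτ (h3 _), sa_fs, tay_const, tay_const,
    PowerSeries.map_C] at h5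
  exact PowerSeries.C_injective (fs_inj h5)

end Pool.Agent.P.MP_9c97e9_nt.KT
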