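import Pool.Agent.P.MP_9c97e9_nt.KT.IfF2

namespace Pool.Agent.P.MP_9c97e9_nt.KT

open MP_8b7eba_nt.R2

theorem t_SECO (hSEC0 : SEC0) (hAUT : AUT) : SECO := by
  intro σ τ τ' x y h h'
  obtain ⟨s, hs⟩ := hAUT.1 σ
  obtain ⟨g, hg, h1, h2⟩ := hSEC0 s τ τ' h.1 h'.1 (by rw [← h.2.1, hs, h'.2.1])
    (by rw [← h.2.2, hs, h'.2.2])
  refine ⟨g, hg, AlgEquiv.ext fun a => io.injective ((h2 a).trans (hs a)), fun G G' k k' e => ?_⟩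
  have h3 := h1 (lf G)
  rw [e, jt_lf h'.1 k', jt_lf h.1 k, sa_fs] at h3
  rw [← order_tay h'.1 (k'.1.an h'.1), ← order_tay h.1 (k.1.an h.1), fs_inj h3, order_map]

end Pool.Agent.P.MP_9c97e9_nt.KT
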