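import Pool.Agent.P.MP_9c97e9_nt.KT.IfF2

/-! Only the action on the algebraic numbers matters. -/

namespace Pool.Agent.P.MP_9c97e9_nt.KT

open MP_8b7eba_nt.R2
open MP_8b7eba_nt.Mod (xx)

theorem t_SECU (hALG : ALG) (hDEN : DEN) : SECU := by
  intro τ x y h s s' hs f
  have key : ∀ G, InL G → sa s (jt τ (lf G)) = sa s' (jt τ (lf G)) := fun G hG => by
    have e := jt_lf h.1 hG
    have := hALG τ x y h _ _ e
    rw [e, sa_fs, sa_fs]
    congr 1
    ext n
    obtain ⟨a, ha⟩ := this n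
    rw [PowerSeries.coeff_map, PowerSeries.coeff_map, ← ha]
    exact hs a
  obtain ⟨p, G, hG, -, h0, e⟩ := hDEN f
  obtain ⟨h1, h2⟩ := inL_xx.zpoly p
  have e1 := key G hG
  have e2 := key _ h1
  rw [h2] at e2
  rw [e, IntermediateField.coe_mul, map_mul, map_mul, map_mul, ← e2] at e1
  refine mul_right_cancel₀ ?_ e1
  rw [map_ne_zero, map_ne_zero]
  exact fun e => h0 (Subtype.ext e)

end Pool.Agent.P.MP_9c97e9_nt.KT
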