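import Pool.Agent.P.MP_9c97e9_nt.KT.IfF2

/-! Sections at algebraic points. -/

namespace Pool.Agent.P.MP_9c97e9_nt.KT

open scoped Polynomial PowerSeries
open MP_8b7eba_nt.R2
open MP_8b7eba_nt.Mod (xx yy)
open MP_8b7eba_nt.R1 (Aut)

namespace TSECX

theorem inj (τ : ℂ) {f f' : LL} (h : jt τ f = jt τ f') : f = f' :=
  Subtype.ext ((jt τ).injective h)

theorem fix_poly {g : AL} (hg : g ∈ GG) (p : ℤ[X]) :
    g (Polynomial.aeval (lf xx) p) = Polynomial.aeval (lf xx) p := by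
  have h := Polynomial.aeval_algHom_apply (g : LL →+* LL).toIntAlgHom (lf xx) p
  have e : (g : LL →+* LL).toIntAlgHom (lf xx) = lf xx := (mem_GG.1 hg).1
  rw [e] at h
  exact h.symm

/-- smoothness for one holomorphic function -/
theorem smooth (hALG : ALG) (hFO : FO LL GG) {τ : ℂ} {x y : Om} (hA : Alg τ x y) {H : Subgroup GQ}
    {l : GQ → Aut} (hl : ∀ σ a, l σ (io a) = io (σ a)) {s : GQ → AL} (hs : ∀ σ ∈ H, s σ ∈ GG)
    (hj : ∀ σ ∈ H, ∀ f : LL, jt τ (s σ f : LL) = sa (l σ) (jt τ f)) {G : ℂ → ℂ} (hG : InL G) :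
    ∃ N, ON N ∧ ∀ σ ∈ H, σ ∈ N → s σ (lf G) = lf G := by
  classical
  have hB := jt_lf hA.1 hG
  choose a ha using hALG τ x y hA (lf G) _ hB
  have key : ∀ σ ∈ H, jt τ (s σ (lf G) : LL) =
      fs (PowerSeries.map (l σ : ℂ →+* ℂ) (tay τ G)) := fun σ hσ => by rw [hj σ hσ, hB, sa_fs]
  have h1 : ∀ f' : LL, ∃ n, ∀ σ ∈ H, s σ (lf G) = f' → σ (a n) = a n → f' = lf G := fun f' => by
    by_contra h
    push Not at h
    choose σ hσ e1 e2 e3 using h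
    refine e3 0 (inj τ ?_)
    rw [hB, ← e1 0, key _ (hσ 0)]
    refine congrArg fs (PowerSeries.ext fun n => ?_)
    have h2 : PowerSeries.map (l (σ 0) : ℂ →+* ℂ) (tay τ G) =
        PowerSeries.map (l (σ n) : ℂ →+* ℂ) (tay τ G) :=
      fs_inj (by rw [← key _ (hσ 0), ← key _ (hσ n), e1 0, e1 n])
    rw [h2, PowerSeries.coeff_map, ← ha n]
    exact (hl _ _).trans (congrArg io (e2 n))
  choose n hn using h1
  obtain ⟨N, hN, h2⟩ := exists_ON_fix ((hFO (lf G)).toFinset.image fun f' => a (n f'))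
  refine ⟨N, hN, fun σ hσ hσ' => hn _ σ hσ rfl (h2 _ (Finset.mem_image_of_mem _ ?_) σ hσ')⟩
  exact (Set.Finite.mem_toFinset _).2 ⟨s σ, hs σ hσ, rfl⟩

end TSECX

open TSECX in
theorem t_SECX (hSEC0 : SEC0) (hSECU : SECU) (hAUT : AUT) (hALG : ALG) (hDEN : DEN) (hPULV : PULV)
    (hUNITS : UNITS) (hSURJ : SURJ) (hNORM : NORM) (hFB : FB) : SECX := by
  have _ := hFB
  refine ⟨fun τ x y H hA hx hy => ?_, ?_⟩
  · obtain ⟨hτ, ex, ey⟩ := id hA
    choose l hl using hAUT.1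
    have h0 : ∀ σ : GQ, ∃ g : AL, σ ∈ H → g ∈ GG ∧
        (∀ f : LL, jt τ (g f : LL) = sa (l σ) (jt τ f)) ∧ ∀ a, io (cg g a) = l σ (io a) :=
      fun σ => by
      by_cases hσ : σ ∈ H
      · obtain ⟨g, hg⟩ := hSEC0 (l σ) τ τ hτ hτ (by rw [← ex, hl, hx σ hσ])
          (by rw [← ey, hl, hy σ hσ])
        exact ⟨g, fun _ => hg⟩
      · exact ⟨1, fun h => absurd h hσ⟩
    choose s hs using h0
    refine ⟨s, ⟨x, y, hA, hx, hy⟩, fun σ hσ => ⟨(hs σ hσ).1, AlgEquiv.ext fun a => io_inj ?_⟩,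
      fun σ hσ σ' hσ' => RingEquiv.ext fun f => inj τ ?_, ?_, fun S => ?_⟩
    · rw [(hs σ hσ).2.2, hl]
    · rw [(hs _ (H.mul_mem hσ hσ')).2.1, RingAut.mul_apply, (hs σ hσ).2.1, (hs σ' hσ').2.1, ← sa_mul]
      refine hSECU τ x y hA _ _ (fun a => ?_) f
      rw [hl, RingAut.mul_apply, hl, hl, AlgEquiv.mul_apply]
    · rintro σ hσ _ ⟨G, hG, rfl⟩
      obtain ⟨G', hG', e⟩ := hPULV.1 _ (hs σ hσ).1 G hG
      have h1 := (hs σ hσ).2.1 (lf G)
      rw [e, jt_lf hτ hG, jt_lf hτ hG', sa_fs] at h1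
      have h2 := congrArg (PowerSeries.coeff 0) (fs_inj h1)
      rw [PowerSeries.coeff_map, PowerSeries.coeff_zero_eq_constantCoeff_apply,
        PowerSeries.coeff_zero_eq_constantCoeff_apply, tay_zero, tay_zero] at h2
      refine io_inj ?_
      rw [e, hUNITS.2.2 τ x y hA G' hG', ← hl, hUNITS.2.2 τ x y hA G hG]
      exact h2
    · have h1 : ∀ f : S, ∃ N, ON N ∧ ∀ σ ∈ H, σ ∈ N → s σ f = f := fun f => by
        obtain ⟨p, G, hG, -, hp, e⟩ := hDEN f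
        obtain ⟨N, hN, h⟩ := smooth hALG hNORM.2.2.2.2.1 hA hl (fun σ hσ => (hs σ hσ).1)
          (fun σ hσ => (hs σ hσ).2.1) hG
        refine ⟨N, hN, fun σ hσ hσ' => mul_right_cancel₀ hp ?_⟩
        have h2 := h σ hσ hσ'
        rwa [e, map_mul, fix_poly (hs σ hσ).1] at h2
      choose N hN h using h1
      obtain ⟨M, hM, h2⟩ := exists_ON_forall hN
      exact ⟨M, hM, fun σ hσ hσ' f hf => h ⟨f, hf⟩ σ hσ (h2 _ hσ')⟩
  · obtain ⟨τ, hτ, ex, ey⟩ := hSURJ 4 0 (by norm_num) (by norm_num) (by norm_num)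
    exact ⟨τ, 4, 0, ⟨hτ, by rw [ex, map_ofNat], by rw [ey, map_zero]⟩, fix_ofNat 4, fix_zero⟩

end Pool.Agent.P.MP_9c97e9_nt.KT
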