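import Pool.Agent.P.MP_9c97e9_nt.KT.IfF2

/-! The extension is stable under substitutions. -/

namespace Pool.Agent.P.MP_9c97e9_nt.KT

open MP_8b7eba_nt.Mod (M2 xx yy)
open MP_8b7eba_nt.R1 (IntR IntM)

namespace TSTB

theorem ext {F E : Type} [Field F] [Field E] {s : Set F} {j j' : Subfield.closure s →+* E}
    (h : ∀ x (hx : x ∈ s), j ⟨x, Subfield.subset_closure hx⟩ = j' ⟨x, Subfield.subset_closure hx⟩) :
    j = j' := by
  refine RingHom.ext fun ⟨x, hx⟩ => ?_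
  induction hx using Subfield.closure_induction with
  | mem x hx => exact h x hx
  | one => exact (map_one j).trans (map_one j').symm
  | add x y hx hy a b =>
    show j (⟨x, hx⟩ + ⟨y, hy⟩) = j' (⟨x, hx⟩ + ⟨y, hy⟩)
    rw [map_add, map_add, a, b]
  | neg x hx a =>
    show j (-⟨x, hx⟩) = j' (-⟨x, hx⟩)
    rw [map_neg, map_neg, a]
  | inv x hx a =>
    show j ⟨x, hx⟩⁻¹ = j' ⟨x, hx⟩⁻¹
    rw [map_inv₀, map_inv₀, a]
  | mul x y hx hy a b =>
    show j (⟨x, hx⟩ * ⟨y, hy⟩) = j' (⟨x, hx⟩ * ⟨y, hy⟩)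
    rw [map_mul, map_mul, a, b]

end TSTB

theorem t_STB (hTWR : TWR) (hPERM : PERM) (hNORM : NORM) : STB := by
  intro A hA f hf
  obtain ⟨hx, hy, hp⟩ := hPERM A hA
  have h0 : K0 ≤ LL.toSubfield.comap (sb A) := Subfield.closure_le.2 (by
    rintro _ (rfl | rfl)
    · exact (sb_mf hA.1 hol_xx ▸ hx.2 : sb A (mf xx) ∈ LL)
    · exact (sb_mf hA.1 hol_yy ▸ hy.2 : sb A (mf yy) ∈ LL))
  let φ : K0 →+* LL := ((sb A).comp (algebraMap K0 MF)).codRestrict LL fun c => h0 c.2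
  have ex : φ ⟨_, xx_mem⟩ = lf fun z => xx (A.act z) := (lf_coe (sb_mf hA.1 hol_xx).symm).symm
  have ey : φ ⟨_, yy_mem⟩ = lf fun z => yy (A.act z) := (lf_coe (sb_mf hA.1 hol_yy).symm).symm
  obtain ⟨h1, h2⟩ := hNORM.2.2.2.1 f hf
  refine hTWR _ ((minpoly K0 f).map φ) (Polynomial.map_ne_zero (minpoly.ne_zero h1)) ?_
    fun g hg => ?_
  · rw [Polynomial.eval₂_map]
    exact (Polynomial.hom_eval₂ _ (algebraMap K0 MF) (sb A) f).symm.trans
      ((congrArg (sb A) (minpoly.aeval K0 f)).trans (map_zero _))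
  · obtain ⟨t, ht, e1, e2⟩ := hp g hg
    have hd : (IntM t).det = A.det := by
      rw [MP_8b7eba_nt.R1.Int_det (by have := hA.1; omega) ht, Int.toNat_of_nonneg hA.1.le]
    have hL : Lm (IntM t) := ⟨hd ▸ hA.1, hd ▸ hA.2.1, dvd_zero _⟩
    obtain ⟨hx', hy', -⟩ := hPERM _ hL
    have : ((algebraMap LL MF).comp (g : LL →+* LL)).comp φ = (sb (IntM t)).comp (algebraMap K0 MF) :=
      TSTB.ext (by
        rintro _ (rfl | rfl)
        · exact (congrArg (fun u => ((g u : LL) : MF)) ex).trans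
            (by rw [e1, coe_lf hx']; exact (sb_mf hL.1 hol_xx).symm)
        · exact (congrArg (fun u => ((g u : LL) : MF)) ey).trans
            (by rw [e2, coe_lf hy']; exact (sb_mf hL.1 hol_yy).symm))
    rw [Polynomial.map_map, this, ← Polynomial.map_map]
    exact h2.map _

end Pool.Agent.P.MP_9c97e9_nt.KT
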