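import Pool.Agent.P.MP_9c97e9_nt.KT.IfF1

/-! Proof of SURJ. -/

namespace Pool.Agent.P.MP_9c97e9_nt.KT

open MP_8b7eba_nt
open MP_8b7eba_nt.Mod (M2 G0 UH xx yy qq atI)
open MP_8b7eba_nt.R1 (HB U8)
open Filter Topology

namespace TSURJ

theorem yy_qq : Tendsto (fun z => yy z * qq z ^ 3) atI (𝓝 (-2)) := by
  obtain ⟨A, hA, h⟩ := R1.exists_y1
  have h1 := (h.tendsto one_pos).const_mul (-2)
  have h2 := h1.sub (Mod.xx_qq.mul Mod.tendsto_qq)
  convert h2 using 2
  · rw [R1.V2A.yy_eq]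
    simp
    ring
  · simp [hA]

/-- the function with one simple pole -/
noncomputable def g (x y z : ℂ) : ℂ :=
  open Classical in
  if xx z = x then (4 * (xx z ^ 2 + xx z * x + x ^ 2) - 7 * (xx z + x) - 36) / (yy z - y)
  else (yy z + y) / (xx z - x)

theorem g_mul {x y z : ℂ} (h : y ^ 2 = 4 * x ^ 3 - 7 * x ^ 2 - 36 * x) (hz : 0 < z.im)
    (hn : ¬ (xx z = x ∧ yy z = y)) : g x y z * (xx z - x) = yy z + y ∧
      g x y z * (yy z - y) = 4 * (xx z ^ 2 + xx z * x + x ^ 2) - 7 * (xx z + x) - 36 := by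
  have h1 := R1.yy_sq hz
  unfold g
  split_ifs with e
  · have h2 : yy z - y ≠ 0 := sub_ne_zero.2 fun k => hn ⟨e, k⟩
    refine ⟨?_, div_mul_cancel₀ _ h2⟩
    rw [e] at h1
    rw [sub_eq_zero.2 e, mul_zero]
    exact mul_left_cancel₀ h2 (by linear_combination h - h1)
  · have h2 : xx z - x ≠ 0 := sub_ne_zero.2 e
    refine ⟨div_mul_cancel₀ _ h2, ?_⟩
    rw [div_mul_eq_mul_div, div_eq_iff h2]
    linear_combination h1 - h

end TSURJ

open TSURJ in
theorem t_SURJ (hNSP : NSP) : SURJ := by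
  intro x y h x0 h0
  by_contra hn
  have hg := fun z (hz : 0 < z.im) => g_mul h hz fun k => hn ⟨z, hz, k⟩
  have hx := R1.hb_xx
  have hy := R1.Exp_hb_yy
  have k := HB.const
  have hC : HB fun z => 4 * (xx z ^ 2 + xx z * x + x ^ 2) - 7 * (xx z + x) - 36 :=
    (((k 4).mul (((hx.pow 2).add (hx.mul (k x))).add (k _))).sub ((k 7).mul (hx.add (k x)))).sub (k _)
  have hV : HB fun z => (xx z ^ 2 + 2 * yy z + 9) * xx z :=
    (((hx.pow 2).add ((k 2).mul hy)).add (k 9)).mul hx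
  have hQ := (HB.sum (Finset.range 8) fun i _ =>
    (hV.pow i).mul (k (((x ^ 2 + 2 * y + 9) * x) ^ (8 - 1 - i)))).mul
    (((hy.add (k y)).mul (((hx.pow 2).add (hx.mul (k x))).add (k (x ^ 2 + 9 + 2 * y)))).add
      (hC.mul ((k 2).mul hx)))
  have c0 : ((x ^ 2 + 2 * y + 9) * x) ^ 8 ≠ 0 := pow_ne_zero _ (mul_ne_zero h0 x0)
  have hb : HB (g x y) := by
    refine ⟨fun z hz => DifferentiableAt.differentiableWithinAt ?_, fun γ h1 h2 => ?_⟩
    · have dx := hx.hol.differentiableAt (Mod.UH_mem_nhds hz)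
      have dy := hy.hol.differentiableAt (Mod.UH_mem_nhds hz)
      by_cases e : xx z = x
      · have h2 : yy z - y ≠ 0 := sub_ne_zero.2 fun k => hn ⟨z, hz, e, k⟩
        refine ((hC.hol.differentiableAt (Mod.UH_mem_nhds hz)).div (dy.sub_const y)
          h2).congr_of_eventuallyEq ?_
        filter_upwards [Mod.UH_mem_nhds hz, (dy.sub_const y).continuousAt.eventually_ne h2]
          with w hw h3 using eq_div_of_mul_eq h3 (hg w hw).2
      · have h2 : xx z - x ≠ 0 := sub_ne_zero.2 e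
        refine ((dy.add_const y).div (dx.sub_const x) h2).congr_of_eventuallyEq ?_
        filter_upwards [Mod.UH_mem_nhds hz, (dx.sub_const x).continuousAt.eventually_ne h2]
          with w hw h3 using eq_div_of_mul_eq h3 (hg w hw).1
    · have h3 := ((R1.U8_decay h1 h2).trans_tendsto (Mod.tendsto_ex one_pos)).sub_const
        (((x ^ 2 + 2 * y + 9) * x) ^ 8)
      have h4 : 0 - ((x ^ 2 + 2 * y + 9) * x) ^ 8 ≠ 0 := by rwa [zero_sub, neg_ne_zero]
      refine ((hQ.bd γ h1 h2).mul ((h3.inv₀ h4).isBigO_one ℝ)).congr' ?_ .rfl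
      filter_upwards [Mod.ev_im 0, h3.eventually_ne h4] with z hz h5
      have hw := M2.im_act_pos (g := γ) (by omega) hz
      rw [Pi.mul_apply, mul_inv_eq_iff_eq_mul₀ h5, U8, R1.v1_sq hw, ← geom_sum₂_mul]
      generalize (∑ i ∈ Finset.range 8, _ : ℂ) = S
      linear_combination (-S * (xx (γ.act z) ^ 2 + xx (γ.act z) * x + (x ^ 2 + 9 + 2 * y))) *
        (hg _ hw).1 - S * (2 * xx (γ.act z)) * (hg _ hw).2
  have h3 := Mod.xx_qq.sub ((Mod.tendsto_qq.pow 2).const_mul x)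
  have h4 := yy_qq.add ((Mod.tendsto_qq.pow 3).const_mul y)
  have h5 : (1 : ℂ) - x * 0 ^ 2 ≠ 0 := by simp
  have := hNSP (g x y) _ hb (fun γ hγ z hz => by
    rw [g, g, Mod.xx_inv γ hγ z hz, Mod.yy_inv hγ hz]) ((h4.div h3 h5).congr' (by
      filter_upwards [Mod.ev_im 0, h3.eventually_ne h5] with z hz h6
      rw [Pi.div_apply, div_eq_iff h6]
      linear_combination (-qq z ^ 3) * (hg z hz).1))
  simp at this

end Pool.Agent.P.MP_9c97e9_nt.KT
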