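import Pool.Agent.P.MP_9c97e9_nt.KT.IfF1

/-! Comparison of the algebraic and the complex torsion points. -/

namespace Pool.Agent.P.MP_9c97e9_nt.KT

open MP_8b7eba_nt MP_8b7eba_nt.R2
open MP_8b7eba_nt.Mod (L0 om)

namespace TTORS

theorem splitC : Split W15 (0 : ℂ) (-9) 16 :=
  ⟨two_ne_zero, by norm_num, by norm_num, by norm_num, by norm_num [W15], by norm_num [W15],
    by norm_num [W15]⟩

theorem splitO : Split W15 (0 : Om) (-9) 16 :=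
  ⟨two_ne_zero, by norm_num, by norm_num, by norm_num, by norm_num [W15], by norm_num [W15],
    by norm_num [W15]⟩

theorem two {T : Pt W15 ℂ} (h : T + T = 0) : ∃ t : EO, pm W15 io t = T := by
  have key : ∀ e : Om, (e - 0) * (e - -9) * (e - 16) = 0 → Is T (io e) 0 →
      ∃ t : EO, pm W15 io t = T := fun e he hT => by
    obtain ⟨t, ht⟩ := splitO.exists_is (x := e) (η := 0) (by rw [he]; simp)
    exact ⟨t, Is.unique splitC (by simpa using ht.map io) hT⟩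
  rcases two_torsion splitC h with rfl | h1 | h1 | h1
  · exact ⟨0, map_zero _⟩
  · exact key 0 (by simp) (by simpa using h1)
  · exact key (-9) (by simp) (by simpa [map_ofNat] using h1)
  · exact key 16 (by simp) (by simpa [map_ofNat] using h1)

theorem desc (k : ℕ) : ∀ T : Pt W15 ℂ, 2 ^ k • T = 0 → ∃ t : EO, pm W15 io t = T := by
  induction k with
  | zero => exact fun T h => ⟨0, by simpa using h.symm⟩
  | succ k ih =>
    intro T h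
    obtain ⟨t, ht⟩ := ih (T + T) (by rwa [← two_nsmul, ← mul_nsmul', ← pow_succ])
    obtain ⟨r, rfl⟩ := exists_half splitO t
    obtain ⟨s, hs⟩ := two (T := T - pm W15 io r) (by rw [← add_sub_add_comm, ← ht, map_add, sub_self])
    exact ⟨s + r, by rw [map_add, hs, sub_add_cancel]⟩

theorem first (k : ℕ) (T : Pt W15 ℂ) (h : 2 ^ k • T = 0) :
    ∃ v : V2, ‖v‖ ≤ 1 ∧ pm W15 io (T2.pt ((2 ^ k : ℚ_[2])⁻¹ • v)) = T := by
  obtain ⟨t, rfl⟩ := desc k T h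
  have h1 : 2 ^ k • t = 0 := pm_injective io (by rw [map_nsmul, h, map_zero])
  obtain ⟨u, rfl⟩ := T2.surj t k h1
  refine ⟨2 ^ k • u, (T2.ker _).1 (by rw [map_nsmul, h1]), ?_⟩
  rw [← Nat.cast_smul_eq_nsmul ℚ_[2], smul_smul, Nat.cast_pow, Nat.cast_ofNat,
    inv_mul_cancel₀ (pow_ne_zero _ two_ne_zero), one_smul]

theorem n2 : ‖(2 : ℚ_[2])‖ = 2⁻¹ := by simpa using Padic.norm_p (p := 2)

theorem addle {W : Type} [SeminormedAddCommGroup W] [IsUltrametricDist W] {v v' : W} {r : ℝ}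
    (h : ‖v‖ ≤ r) (h' : ‖v'‖ ≤ r) : ‖v + v'‖ ≤ r :=
  (IsUltrametricDist.norm_add_le_max v v').trans (max_le h h')

theorem appr {x : ℚ_[2]} (h : ‖x‖ ≤ 1) :
    ∃ n : ℤ, ‖(n : ℚ_[2]) - x‖ ≤ 2⁻¹ ∧ (2 ∣ n → ‖x‖ ≤ 2⁻¹) := by
  obtain ⟨x, rfl⟩ : ∃ y : ℤ_[2], (y : ℚ_[2]) = x := ⟨⟨x, h⟩, rfl⟩
  obtain ⟨n, hn⟩ := (PadicInt.denseRange_intCast (p := 2)).exists_dist_lt x (ε := 2⁻¹)
    (by norm_num)
  have h1 : ‖(x : ℚ_[2]) - n‖ ≤ 2⁻¹ := by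
    rw [dist_eq_norm, PadicInt.norm_def] at hn
    simpa using hn.le
  refine ⟨n, by rwa [norm_sub_rev], ?_⟩
  rintro ⟨m, rfl⟩
  rw [← sub_add_cancel (x : ℚ_[2]) (2 * m : ℤ)]
  refine addle h1 ?_
  rw [Int.cast_mul, norm_mul, Int.cast_ofNat, n2]
  exact mul_le_of_le_one_right (by norm_num) (Padic.norm_int_le_one m)

theorem det {e₁ e₂ : V2} (h₁ : ‖e₁‖ ≤ 1) (h₂ : ‖e₂‖ ≤ 1)
    (K : ∀ a b : ℤ, ‖(a : ℚ_[2]) • e₁ + (b : ℚ_[2]) • e₂‖ ≤ 2⁻¹ → 2 ∣ a ∧ 2 ∣ b) :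
    ‖dt e₁ e₂‖ = 1 := by
  have c₁ := fun i => (norm_le_pi_norm e₁ i).trans h₁
  have c₂ := fun i => (norm_le_pi_norm e₂ i).trans h₂
  have sm : ∀ (a : ℚ_[2]) (v : V2), ‖a‖ ≤ 2⁻¹ → ‖v‖ ≤ 1 → ‖a • v‖ ≤ 2⁻¹ := fun a v ha hv => by
    rw [norm_smul]
    exact (mul_le_of_le_one_right (norm_nonneg _) hv).trans ha
  have K' : ∀ a b : ℚ_[2], ‖a‖ ≤ 1 → ‖b‖ ≤ 1 → ‖a • e₁ + b • e₂‖ ≤ 2⁻¹ → ‖b‖ ≤ 2⁻¹ := by
    intro a b ha hb h
    obtain ⟨m, hm, -⟩ := appr ha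
    obtain ⟨n, hn, hn'⟩ := appr hb
    refine hn' (K m n ?_).2
    refine (congrArg norm ?_).trans_le (addle h (addle (sm _ _ hm h₁) (sm _ _ hn h₂)))
    module
  have hle : ‖dt e₁ e₂‖ ≤ 1 := by
    rw [dt, sub_eq_add_neg]
    refine addle ?_ ?_ <;> simp only [norm_neg, norm_mul] <;>
      exact mul_le_one₀ (c₁ _) (norm_nonneg _) (c₂ _)
  refine hle.antisymm (not_lt.1 fun hlt => ?_)
  have hd : ‖dt e₁ e₂‖ ≤ 2⁻¹ := by
    simpa using (Padic.norm_le_pow_iff_norm_lt_pow_add_one (dt e₁ e₂) (-1)).2 (by simpa using hlt)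
  have a1 := K' (e₂ 1) (-e₁ 1) (c₂ 1) (by simpa using c₁ 1) (LC.pi (b := 0) hd (by simp)
    (by simp [dt]; ring) (by simp; ring))
  have a0 := K' (-e₂ 0) (e₁ 0) (by simpa using c₂ 0) (c₁ 0) (LC.pi (a := 0) (by simp) hd
    (by simp; ring) (by simp [dt]; ring))
  have := (K 1 0 (by simpa using LC.pi a0 (by simpa using a1) (v := e₁) rfl rfl)).1
  omega

end TTORS

open TTORS in
theorem t_TORS : TORS := by
  intro L h hU k
  refine ⟨first k, ?_⟩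
  have p0 : (2 : ℂ) ^ (k + 1) ≠ 0 := pow_ne_zero _ two_ne_zero
  have kill : ∀ a b : ℤ, 2 ^ (k + 1) • h (-((4 * a : ℤ) * L0 + (2 * b : ℤ) * om * Complex.I) /
      2 ^ (k + 1)) = 0 := fun a b => by
    rw [← map_nsmul, ← (hU.lat (4 * -a) (2 * -b)).2 ⟨dvd_mul_right _ _, dvd_mul_right _ _⟩]
    congr 1
    rw [nsmul_eq_mul]
    push_cast
    field_simp
    ring
  obtain ⟨e₁, h₁, k₁⟩ := first _ _ (kill 1 0)
  obtain ⟨e₂, h₂, k₂⟩ := first _ _ (kill 0 1)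
  have key : ∀ (c : ℕ) (a b : ℤ), pm W15 io (T2.pt (((c : ℚ_[2]) * (2 ^ (k + 1))⁻¹) •
      ((a : ℚ_[2]) • e₁ + (b : ℚ_[2]) • e₂))) =
      h (-(((4 * a : ℤ) : ℂ) * L0 + ((2 * b : ℤ) : ℂ) * om * Complex.I) * (c / 2 ^ (k + 1))) := by
    intro c a b
    have e : ((c : ℚ_[2]) * (2 ^ (k + 1))⁻¹) • ((a : ℚ_[2]) • e₁ + (b : ℚ_[2]) • e₂) =
        (c * a : ℤ) • ((2 ^ (k + 1) : ℚ_[2])⁻¹ • e₁) + (c * b : ℤ) • ((2 ^ (k + 1) : ℚ_[2])⁻¹ • e₂) := by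
      rw [← Int.cast_smul_eq_zsmul ℚ_[2], ← Int.cast_smul_eq_zsmul ℚ_[2]]
      push_cast
      module
    rw [e, map_add, map_add, map_zsmul, map_zsmul, map_zsmul, map_zsmul, k₁, k₂, ← map_zsmul,
      ← map_zsmul, ← map_add, zsmul_eq_mul, zsmul_eq_mul]
    congr 1
    push_cast
    ring
  refine ⟨e₁, e₂, h₁, h₂, det h₁ h₂ fun a b hab => ?_, fun a b => ?_⟩
  · have h1 := key (2 ^ k) a b
    rw [(T2.ker _).2, map_zero, eq_comm] at h1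
    · have h2 := (hU.lat (-(2 * a)) (-b)).1 (by
        rw [← h1]
        congr 1
        push_cast
        field_simp
        ring)
      omega
    · rw [norm_smul, show ((2 ^ k : ℕ) : ℚ_[2]) * (2 ^ (k + 1))⁻¹ = 2⁻¹ by
        push_cast; field_simp; ring, norm_inv, n2, inv_inv]
      linarith
  · convert key 2 a b using 2
    · congr 2
      push_cast
      field_simp
      ring
    · push_cast
      field_simp
      ring

end Pool.Agent.P.MP_9c97e9_nt.KT
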