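import Pool.Agent.P.MP_9c97e9_nt.KT.IfF2

/-! Properties of the substitutions. -/

namespace Pool.Agent.P.MP_9c97e9_nt.KT

open MP_8b7eba_nt MP_8b7eba_nt.R2
open MP_8b7eba_nt.Mod (M2 G0 xx yy)

namespace TTR

theorem coe_cst (hFB : FB) (a : Om) : (cst a : MF) = cM (io a) := by
  rw [cst, coe_lf (hFB.2.2.2.1 a), mf_const]

theorem tr_cst (hTRS : TRS) (hFB : FB) {A : M2} (hA : Lm A) (a : Om) : tr A (cst a) = cst a :=
  Subtype.ext (by rw [(hTRS A hA).2, coe_cst hFB, sb_cM hA.adj.1])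

theorem tr_mul (hTRS : TRS) {A B : M2} (hA : Lm A) (hB : Lm B) : tr (A * B) = tr A * tr B := by
  refine RingEquiv.ext fun f => Subtype.ext ?_
  rw [RingAut.mul_apply, (hTRS _ (hA.mul hB)).2, (hTRS A hA).2, (hTRS B hB).2, M2.adj_mul,
    sb_mul hB.adj.1 hA.adj.1]

theorem pb_lf (hTRS : TRS) {A : M2} (hA : Lm A) {G : ℂ → ℂ} (hG : InL G) :
    InL (fun z => G (A.act z)) ∧ pb A (lf G) = lf fun z => G (A.act z) := by
  have e : mf (fun z => G (A.act z)) = (pb A (lf G) : LL) := by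
    rw [pb, (hTRS _ hA.adj).2, M2.adj_adj, coe_lf hG, sb_mf hA.1 hG.1]
  exact ⟨inL_of (Mod.diff_act hA.1 hG.1) e, (lf_coe e).symm⟩

theorem tr_scal (hTRS : TRS) {m : ℤ} (hm : IsCoprime m 15) : tr ⟨m, 0, 0, m⟩ = 1 := by
  have h0 : m ≠ 0 := by
    rintro rfl
    rw [isCoprime_zero_left, Int.isUnit_iff] at hm
    omega
  have hd : (⟨m, 0, 0, m⟩ : M2).det = m * m := by simp [M2.det]
  have hL : Lm ⟨m, 0, 0, m⟩ :=
    ⟨hd ▸ mul_self_pos.2 h0, hd ▸ hm.mul_left hm, dvd_zero _⟩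
  refine RingEquiv.ext fun f => Subtype.ext ?_
  rw [(hTRS _ hL).2]
  refine sb_eq_self hL.adj.1 (fun z _ => ?_) _
  have h1 : (m : ℂ) ≠ 0 := by exact_mod_cast h0
  rw [M2.act_eq, M2.j]
  simp only [M2.adj_a, M2.adj_b, M2.adj_c, M2.adj_d, neg_zero, Int.cast_zero, add_zero, zero_mul,
    zero_add]
  exact mul_div_cancel_left₀ z h1

theorem tr_geo (hTRS : TRS) (hFB : FB) {γ : M2} (h : G0 γ) : tr γ ∈ geo := by
  have hL := Lm.of_G0 h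
  refine mem_geo.2 ⟨mem_GG.2 ⟨Subtype.ext ?_, Subtype.ext ?_⟩, tr_cst hTRS hFB hL⟩
  · rw [(hTRS _ hL).2, coe_lf inL_xx, sb_xx h.adj]
  · rw [(hTRS _ hL).2, coe_lf inL_yy, sb_yy h.adj]

end TTR

theorem t_TR (hTRS : TRS) (hSTB : STB) (hFB : FB) : TR := by
  have _ := hSTB
  exact ⟨fun A hA => ⟨(hTRS A hA).1, TTR.tr_cst hTRS hFB hA, fun _ hB => TTR.tr_mul hTRS hA hB,
    fun _ hG => TTR.pb_lf hTRS hA hG⟩, fun _ hm => TTR.tr_scal hTRS hm,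
    fun _ h => TTR.tr_geo hTRS hFB h⟩

end Pool.Agent.P.MP_9c97e9_nt.KT
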