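import Pool.Agent.P.MP_9c97e9_nt.KT.IfF2

/-! The description of the substitutions. -/

namespace Pool.Agent.P.MP_9c97e9_nt.KT

open MP_8b7eba_nt.Mod (M2)

namespace TTRS

theorem iff {A : M2} (hA : 0 < A.det) {t : AL} : IsTr A t ↔ ∀ f : LL, (t f : MF) = sb A.adj f := by
  have h' : 0 < A.adj.det := by simpa using hA
  refine ⟨fun h f => ?_, fun h f p q hp hq e => ?_⟩
  · obtain ⟨p, q, hp, hq, h0, e⟩ := exists_div (f : MF)
    have e' := h f p q hp hq e
    rw [← sb_mf h' hp, ← sb_mf h' hq, ← e, map_mul] at e'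
    exact mul_right_cancel₀ ((map_ne_zero _).2 h0) e'
  · rw [h, ← sb_mf h' hp, ← sb_mf h' hq, ← e, map_mul]

end TTRS

theorem t_TRS (hSTB : STB) : TRS := by
  intro A hA
  have h : IsTr A (tr A) := Classical.epsilon_spec (p := IsTr A) ⟨
    { toFun := fun f => ⟨sb A.adj f, hSTB _ hA.adj _ f.2⟩
      invFun := fun f => ⟨sb A f, hSTB _ hA _ f.2⟩
      left_inv := fun f => Subtype.ext (sb_adj' hA.1 f)
      right_inv := fun f => Subtype.ext (sb_adj hA.1 f)
      map_mul' := fun f g => Subtype.ext (map_mul (sb A.adj) (f : MF) g)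
      map_add' := fun f g => Subtype.ext (map_add (sb A.adj) (f : MF) g) },
    (TTRS.iff hA.1).2 fun _ => rfl⟩
  exact ⟨h, (TTRS.iff hA.1).1 h⟩

end Pool.Agent.P.MP_9c97e9_nt.KT
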