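import Pool.Agent.P.MP_9c97e9_nt.KT.IfF2

/-! A criterion for membership in the normal extension. -/

namespace Pool.Agent.P.MP_9c97e9_nt.KT

open scoped Polynomial

namespace TTWR

open Polynomial

variable {L M : Type} [Field L] [Field M] [Algebra L M]

theorem fin_orbit (G : Subgroup (RingAut L)) (hfo : ∀ a : L, {b | ∃ g ∈ G, g • a = b}.Finite)
    (p : L[X]) : {q | ∃ g ∈ G, p.map (g : L →+* L) = q}.Finite := by
  refine Set.Finite.of_finite_image (f := fun q (i : Fin (p.natDegree + 1)) => q.coeff i)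
    ((Set.Finite.pi' fun i : Fin (p.natDegree + 1) => hfo (p.coeff i)).subset ?_) ?_
  · rintro _ ⟨_, ⟨g, hg, rfl⟩, rfl⟩ i
    exact ⟨g, hg, (coeff_map (g : L →+* L) _).symm⟩
  · rintro _ ⟨g, -, rfl⟩ _ ⟨h, -, rfl⟩ e
    ext i
    by_cases c : i < p.natDegree + 1
    · exact congrFun e ⟨i, c⟩
    · rw [coeff_map, coeff_map, coeff_eq_zero_of_natDegree_lt (by omega), map_zero, map_zero]

theorem norm_poly (G : Subgroup (RingAut L)) (hfo : ∀ a : L, {b | ∃ g ∈ G, g • a = b}.Finite)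
    (p : L[X]) (hp : p ≠ 0) (f : M) (hf : p.eval₂ (algebraMap L M) f = 0)
    (hs : ∀ g ∈ G, (p.map ((algebraMap L M).comp (g : L →+* L))).Splits) :
    ∃ P : L[X], P ≠ 0 ∧ P.eval₂ (algebraMap L M) f = 0 ∧ (P.map (algebraMap L M)).Splits ∧
      ∀ g ∈ G, ∀ i, g (P.coeff i) = P.coeff i := by
  classical
  obtain ⟨O, hO⟩ : ∃ O : Finset L[X], ∀ q, q ∈ O ↔ ∃ g ∈ G, p.map (g : L →+* L) = q :=
    ⟨(fin_orbit G hfo p).toFinset, fun q => Set.Finite.mem_toFinset _⟩
  have mul : ∀ (g h : RingAut L) (q : L[X]), (q.map (h : L →+* L)).map (g : L →+* L) =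
      q.map ((g * h : RingAut L) : L →+* L) := fun g h q => by
    rw [Polynomial.map_map]
    rfl
  have one : ∀ q : L[X], q.map ((1 : RingAut L) : L →+* L) = q := fun q => Polynomial.map_id
  refine ⟨∏ q ∈ O, q, Finset.prod_ne_zero_iff.2 fun q hq => ?_, ?_, ?_, fun g hg i => ?_⟩
  · obtain ⟨g, -, rfl⟩ := (hO q).1 hq
    exact Polynomial.map_ne_zero hp
  · rw [eval₂_finsetProd]
    exact Finset.prod_eq_zero ((hO p).2 ⟨1, G.one_mem, one p⟩) hf
  · rw [Polynomial.map_prod]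
    refine Splits.prod fun q hq => ?_
    obtain ⟨g, hg, rfl⟩ := (hO q).1 hq
    rw [Polynomial.map_map]
    exact hs g hg
  · have e : (∏ q ∈ O, q).map (g : L →+* L) = ∏ q ∈ O, q := by
      rw [Polynomial.map_prod]
      have mem : ∀ h ∈ G, ∀ q ∈ O, q.map (h : L →+* L) ∈ O := fun h hh q hq => by
        obtain ⟨k, hk, rfl⟩ := (hO q).1 hq
        exact (hO _).2 ⟨h * k, G.mul_mem hh hk, (mul h k p).symm⟩
      refine Finset.prod_nbij' (fun q => q.map (g : L →+* L))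
        (fun q => q.map ((g⁻¹ : RingAut L) : L →+* L)) (mem g hg) (mem _ (G.inv_mem hg))
        (fun q _ => ?_) (fun q _ => ?_) fun _ _ => rfl
      · rw [mul, inv_mul_cancel, one]
      · rw [mul, mul_inv_cancel, one]
    exact (coeff_map (g : L →+* L) i).symm.trans (congrArg (fun q => q.coeff i) e)

end TTWR

open Polynomial in
theorem t_TWR (hNORM : NORM) : TWR := by
  intro f p hp hf hs
  obtain ⟨-, -, h3, -, h5, h6⟩ := hNORM
  obtain ⟨P, a1, a2, a3, a4⟩ := TTWR.norm_poly GG h5 p hp f hf hs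
  obtain ⟨P0, e⟩ : ∃ P0 : K0[X], P0.map (algebraMap K0 MF) = P.map (algebraMap LL MF) := by
    refine (mem_lifts _).1 ((lifts_iff_coeff_lifts _).2 fun i => ?_)
    rw [coeff_map]
    exact ⟨⟨_, h6 _ fun g hg => a4 g hg i⟩, rfl⟩
  refine h3 f P0 ?_ ?_ (e ▸ a3)
  · rintro rfl
    rw [Polynomial.map_zero] at e
    exact Polynomial.map_ne_zero a1 e.symm
  · rw [aeval_def, eval₂_eq_eval_map, e, ← eval₂_eq_eval_map, a2]

end Pool.Agent.P.MP_9c97e9_nt.KT
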