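import Pool.Agent.P.MP_9c97e9_nt.KT.TSIG
import Pool.Agent.P.MP_9c97e9_nt.KT.TNORM
import Pool.Agent.P.MP_9c97e9_nt.KT.TEXTA
import Pool.Agent.P.MP_9c97e9_nt.KT.TFB
import Pool.Agent.P.MP_9c97e9_nt.KT.TSEC0
import Pool.Agent.P.MP_9c97e9_nt.KT.TAUT
import Pool.Agent.P.MP_9c97e9_nt.KT.TALG
import Pool.Agent.P.MP_9c97e9_nt.KT.TINTX
import Pool.Agent.P.MP_9c97e9_nt.KT.TDIV
import Pool.Agent.P.MP_9c97e9_nt.KT.TMGB
import Pool.Agent.P.MP_9c97e9_nt.KT.TDEN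
import Pool.Agent.P.MP_9c97e9_nt.KT.TSECU
import Pool.Agent.P.MP_9c97e9_nt.KT.TNSP
import Pool.Agent.P.MP_9c97e9_nt.KT.TSURJ
import Pool.Agent.P.MP_9c97e9_nt.KT.TAVD
import Pool.Agent.P.MP_9c97e9_nt.KT.TDNS
import Pool.Agent.P.MP_9c97e9_nt.KT.TPOLY
import Pool.Agent.P.MP_9c97e9_nt.KT.TLDS
import Pool.Agent.P.MP_9c97e9_nt.KT.TPOLA
import Pool.Agent.P.MP_9c97e9_nt.KT.TTWR
import Pool.Agent.P.MP_9c97e9_nt.KT.TQFH
import Pool.Agent.P.MP_9c97e9_nt.KT.TPOLQ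
import Pool.Agent.P.MP_9c97e9_nt.KT.TGAL1
import Pool.Agent.P.MP_9c97e9_nt.KT.TPERM
import Pool.Agent.P.MP_9c97e9_nt.KT.TSTB
import Pool.Agent.P.MP_9c97e9_nt.KT.TTRS
import Pool.Agent.P.MP_9c97e9_nt.KT.TTR
import Pool.Agent.P.MP_9c97e9_nt.KT.TDENSE
import Pool.Agent.P.MP_9c97e9_nt.KT.TPULL
import Pool.Agent.P.MP_9c97e9_nt.KT.TPULV
import Pool.Agent.P.MP_9c97e9_nt.KT.TROOT0
import Pool.Agent.P.MP_9c97e9_nt.KT.TRTL
import Pool.Agent.P.MP_9c97e9_nt.KT.TUNITS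
import Pool.Agent.P.MP_9c97e9_nt.KT.TSECX
import Pool.Agent.P.MP_9c97e9_nt.KT.TDIST
import Pool.Agent.P.MP_9c97e9_nt.KT.THEC
import Pool.Agent.P.MP_9c97e9_nt.KT.TCOK
import Pool.Agent.P.MP_9c97e9_nt.KT.TSECO
import Pool.Agent.P.MP_9c97e9_nt.KT.AllT
import Pool.Agent.P.MP_9c97e9_nt.KT.AllU
import Pool.Agent.P.MP_9c97e9_nt.KT.TLATX
import Pool.Agent.P.MP_9c97e9_nt.KT.TTORS
import Pool.Agent.P.MP_9c97e9_nt.KT.TQHOL
import Pool.Agent.P.MP_9c97e9_nt.KT.TPIG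
import Pool.Agent.P.MP_9c97e9_nt.KT.TQACT
import Pool.Agent.P.MP_9c97e9_nt.KT.TQIN
import Pool.Agent.P.MP_9c97e9_nt.KT.TPRX
import Pool.Agent.P.MP_9c97e9_nt.KT.TMFAC
import Pool.Agent.P.MP_9c97e9_nt.KT.TZQ
import Pool.Agent.P.MP_9c97e9_nt.KT.TMREP
import Pool.Agent.P.MP_9c97e9_nt.KT.TMCOM
import Pool.Agent.P.MP_9c97e9_nt.KT.TMHP
import Pool.Agent.P.MP_9c97e9_nt.KT.TMEIG
import Pool.Agent.P.MP_9c97e9_nt.KT.TCUSP
import Pool.Agent.P.MP_9c97e9_nt.KT.TLING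
import Pool.Agent.P.MP_9c97e9_nt.KT.TTRF
import Pool.Agent.P.MP_9c97e9_nt.KT.TKER
import Pool.Agent.P.MP_9c97e9_nt.KT.TEXTB
import Pool.Agent.P.MP_9c97e9_nt.KT.TGALX
import Pool.Agent.P.MP_9c97e9_nt.KT.TQSUB
import Pool.Agent.P.MP_9c97e9_nt.KT.TUQF
import Pool.Agent.P.MP_9c97e9_nt.KT.TEXA
import Pool.Agent.P.MP_9c97e9_nt.KT.TEINV
import Pool.Agent.P.MP_9c97e9_nt.KT.TZEX
import Pool.Agent.P.MP_9c97e9_nt.KT.TEVAL
import Pool.Agent.P.MP_9c97e9_nt.KT.TZTK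
import Pool.Agent.P.MP_9c97e9_nt.KT.TLAB
import Pool.Agent.P.MP_9c97e9_nt.KT.TBIM
import Pool.Agent.P.MP_9c97e9_nt.KT.TUD
import Pool.Agent.P.MP_9c97e9_nt.KT.TNA
import Pool.Agent.P.MP_9c97e9_nt.KT.TLNX
import Pool.Agent.P.MP_9c97e9_nt.KT.TNLP
import Pool.Agent.P.MP_9c97e9_nt.KT.TNL
import Pool.Agent.P.MP_9c97e9_nt.KT.TNF
import Pool.Agent.P.MP_9c97e9_nt.KT.TNE
import Pool.Agent.P.MP_9c97e9_nt.KT.TNREL
import Pool.Agent.P.MP_9c97e9_nt.KT.AllP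
import Pool.Agent.P.MP_9c97e9_nt.KT.TTWA
import Pool.Agent.P.MP_9c97e9_nt.KT.TTWB
import Pool.Agent.P.MP_9c97e9_nt.KT.TGX
import Pool.Agent.P.MP_9c97e9_nt.KT.TORP
import Pool.Agent.P.MP_9c97e9_nt.KT.AllEA
import Pool.Agent.P.MP_9c97e9_nt.KT.TEVP
import Pool.Agent.P.MP_9c97e9_nt.KT.TNCU
import Pool.Agent.P.MP_9c97e9_nt.KT.TCONJ
import Pool.Agent.P.MP_9c97e9_nt.KT.TVALX
import Pool.Agent.P.MP_9c97e9_nt.KT.AllE
import Pool.Agent.P.MP_9c97e9_nt.KT.AllM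

/-! Assembly of the project. -/

namespace Pool.Agent.P.MP_9c97e9_nt.KT

theorem z_SIG : SIG := t_SIG

theorem z_NORM : NORM := t_NORM

theorem z_EXTA : EXTA := t_EXTA z_NORM

theorem z_FB : FB := t_FB z_NORM

theorem z_SEC0 : SEC0 := t_SEC0 z_SIG z_EXTA z_FB

theorem z_AUT : AUT := t_AUT

theorem z_ALG : ALG := t_ALG z_SEC0 z_NORM z_AUT

theorem z_INTX : INTX := t_INTX z_NORM

theorem z_DIV : DIV := t_DIV

theorem z_MGB : MGB := t_MGB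

theorem z_DEN : DEN := t_DEN z_INTX z_DIV z_MGB

theorem z_SECU : SECU := t_SECU z_ALG z_DEN

theorem z_NSP : NSP := t_NSP

theorem z_SURJ : SURJ := t_SURJ z_NSP

theorem z_AVD : AVD := t_AVD

theorem z_DNS : DNS := t_DNS z_AVD

theorem z_POLY : POLY := t_POLY z_NSP z_MGB

theorem z_LDS : LDS := t_LDS

theorem z_POLA : POLA := t_POLA z_POLY z_LDS z_ALG z_SURJ

theorem z_TWR : TWR := t_TWR z_NORM

theorem z_QFH : QFH := t_QFH z_MGB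

theorem z_POLQ : POLQ := t_POLQ z_POLY z_LDS

theorem z_GAL1 : GAL1 := t_GAL1 z_POLQ z_MGB z_NORM

theorem z_PERM : PERM := t_PERM z_QFH z_GAL1

theorem z_STB : STB := t_STB z_TWR z_PERM z_NORM

theorem z_TRS : TRS := t_TRS z_STB

theorem z_TR : TR := t_TR z_TRS z_STB z_FB

theorem z_DENSE : DENSE := t_DENSE z_DNS z_DEN z_POLA z_TR z_FB

theorem z_PULL : PULL := t_PULL z_SURJ z_SEC0 z_AUT z_DENSE z_TRS z_FB

theorem z_PULV : PULV := t_PULV z_PULL z_DIV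

theorem z_ROOT0 : ROOT0 := t_ROOT0

theorem z_RTL : RTL := t_RTL z_TWR

theorem z_UNITS : UNITS := t_UNITS z_PULV z_ROOT0 z_RTL z_ALG

theorem z_SECX : SECX := t_SECX z_SEC0 z_SECU z_AUT z_ALG z_DEN z_PULV z_UNITS z_SURJ z_NORM z_FB

theorem z_DIST : DIST := t_DIST

theorem z_HEC : HEC := t_HEC z_TR z_PERM z_DIST

theorem z_COK : COK := t_COK z_FB z_TR z_DENSE z_HEC

theorem z_SECO : SECO := t_SECO z_SEC0 z_AUT

theorem z_TRIV : TRIV := a_TRIV z_FB z_COK z_DEN z_SECO z_PULV z_RTL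

theorem z_LATX : LATX := t_LATX

theorem z_TORS : TORS := t_TORS

theorem z_QHOL : QHOL := t_QHOL

theorem z_PIG : PIG := t_PIG

theorem z_QACT : QACT := t_QACT z_QHOL z_PULV z_PIG

theorem z_QIN : QIN := t_QIN z_QHOL z_QACT z_TORS z_RTL

theorem z_PRX : PRX := t_PRX z_LATX z_TORS z_QHOL z_QACT z_QIN z_TR z_UNITS z_FB

theorem z_MFAC : MFAC := t_MFAC

theorem z_ZQ : ZQ := t_ZQ z_TR z_PRX z_COK z_MFAC

theorem z_MREP : MREP := t_MREP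

theorem z_MCOM : MCOM := t_MCOM z_MREP

theorem z_MHP : MHP := t_MHP z_MREP

theorem z_MEIG : MEIG := t_MEIG z_MREP

theorem z_CUSP : CUSP := t_CUSP a_KCR z_COK z_ZQ z_MREP z_MCOM z_MFAC z_MHP z_MEIG

theorem z_LING : LING := t_LING

theorem z_TRF : TRF := t_TRF

theorem z_KER : KER := t_KER

theorem z_EXTB : EXTB := t_EXTB z_NORM z_EXTA

theorem z_GALX : GALX := t_GALX z_GAL1 z_KER z_EXTB z_FB

theorem z_QSUB : QSUB := t_QSUB z_FB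

theorem z_UQF : UQF := t_UQF z_QSUB a_UT a_UQ0

theorem z_EXA : EXA := t_EXA z_FB z_TR z_DENSE z_GALX a_UT a_UHM z_UQF

theorem z_EINV : EINV := t_EINV z_UNITS z_LING z_TRF z_COK a_UT z_EXA

theorem z_ZEX : ZEX := t_ZEX z_SECX z_TRIV a_KCU z_COK z_CUSP z_EINV

theorem z_EVAL : EVAL := t_EVAL z_FB z_UNITS z_COK

theorem z_ZTK : ZTK := t_ZTK z_SECX z_LING a_KCU a_KCR z_TRF z_COK z_ZQ z_EVAL z_EINV

theorem z_LAB : LAB := t_LAB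

theorem z_BIM : BIM := t_BIM

theorem z_UD : UD := t_UD

theorem z_NA : NA := t_NA z_FB z_BIM z_COK a_UT z_UD z_EXA z_EINV z_UNITS

theorem z_LNX : LNX := t_LNX

theorem z_NLP : NLP := t_NLP z_FB z_TR a_UT z_UD z_EXA

theorem z_NL : NL := t_NL z_BIM z_COK z_EXA z_EINV z_LNX z_NLP z_UNITS

theorem z_NF : NF := t_NF z_EINV z_LNX

theorem z_NE : NE := t_NE z_LING z_TRF z_COK z_LAB z_EINV z_NA z_NL z_NF

theorem z_NREL : NREL := t_NREL z_LING a_KCU a_KCR z_COK z_ZQ z_CUSP z_LAB z_SECX z_NE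

theorem z_TWA : TWA := t_TWA z_ZQ a_GSX

theorem z_TWB : TWB := t_TWB a_GSX

theorem z_GX : GX := t_GX z_ZEX z_ZTK z_NREL z_TWA z_TWB

theorem z_ORP : ORP := t_ORP z_POLA z_TR z_FB z_MGB z_UNITS

theorem z_EVP : EVP := t_EVP a_EV2

theorem z_NCU : NCU := t_NCU a_EV2 z_EVP

theorem z_CONJ : CONJ := t_CONJ z_ORP z_EVP z_NCU z_SURJ z_AVD z_GAL1 z_MGB z_UNITS a_EV2

theorem z_VALX : VALX := t_VALX z_FB z_TR z_CONJ a_EV2 z_QSUB a_UT a_UHM z_UQF z_EXA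

theorem z_ERX : ERX := a_ERX a_UQ z_VALX z_SECX z_PRX

theorem z_ESX : ESX := esx_of fun D l hl h => by
  obtain ⟨z, h1, h2⟩ := z_GX D l hl h
  exact ⟨z, h1, z_ERX D l z hl h h2⟩

theorem z_MAIN : MAIN := main_of_ESX z_ESX

end Pool.Agent.P.MP_9c97e9_nt.KT
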