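import Pool.Agent.P.MP_9c97e9_nt.KT.BasC
import Pool.Agent.P.MP_8b7eba_nt.BSD15.EvalEnds

/-! The sum over the indices as a sum over pairs of division points. -/

namespace Pool.Agent.P.MP_9c97e9_nt.KT

open MP_8b7eba_nt.BSD15 (evalends_ex evalends_uniq)
open Finset Cx

namespace TCXRE

/-- the least residue -/
def rd (N : ℕ) (x : ℤ) : ℕ := (x % N).toNat

theorem rd_lt {N : ℕ} (hN : 0 < N) (x : ℤ) : rd N x < N := by
  have h0 : (0 : ℤ) < N := by exact_mod_cast hN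
  have := Int.emod_lt_of_pos x h0
  have := Int.emod_nonneg x h0.ne'
  unfold rd
  omega

theorem rd_spec {N : ℕ} (hN : 0 < N) (x : ℤ) : ∃ u, (rd N x : ℤ) = x + N * u := by
  rw [rd, Int.toNat_of_nonneg (Int.emod_nonneg x (by omega)), Int.emod_def]
  exact ⟨-(x / N), by ring⟩

theorem rd_eq {N B : ℕ} (hB : B < N) {x : ℤ} (h : (N : ℤ) ∣ x - B) : rd N x = B := by
  rw [rd, (Int.modEq_iff_dvd.2 h).symm, Int.emod_eq_of_lt (by omega) (by omega), Int.toNat_natCast]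

theorem det_iff {M : ℕ} (hM : 0 < M) (δ : ZMod M) (a b c d : ℕ) :
    (a : ZMod M) * b - c * d = δ ↔ (M : ℤ) ∣ a * b - c * d - δ.val := by
  have : NeZero M := ⟨hM.ne'⟩
  rw [← ZMod.intCast_zmod_eq_zero_iff_dvd]
  push_cast
  rw [ZMod.natCast_zmod_val, sub_eq_zero]

theorem tri_eq {A : Type} [AddCommMonoid A] (M : ℕ) (D k : ℤ) (f : ℤ → ℤ → ℤ → ℤ → A) :
    tri M D k f = ∑ x ∈ range (15 * M) ×ˢ range (15 * M) ×ˢ range M ×ˢ range M with
      x.1.Coprime 15 ∧ 15 ∣ x.2.1 - k * x.1 ∧ (M : ℤ) ∣ x.1 * x.2.2.2 - x.2.1 * x.2.2.1 - D,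
      f x.1 x.2.1 x.2.2.1 x.2.2.2 := by
  simp only [tri, sum_filter, sum_product]

end TCXRE

open TCXRE in
theorem t_CXRE : CXRE := by
  intro M δ β β' k hM h15 hβ ⟨t, ht⟩
  have c15 : IsCoprime (15 : ℤ) M := (Nat.isCoprime_iff_coprime.2 h15).symm
  have cβ : IsCoprime (β * M) ((15 : ℕ) : ℤ) := hβ.mul_left c15.symm
  have hN : 0 < 15 * M := by omega
  rw [hk, tri_eq, sI]
  refine sum_bij (fun i _ => (rd (15 * M) (15 * i.2.1.1 + β * M * i.1),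
    rd (15 * M) (15 * i.2.2.1 + β' * M * i.1), i.2.1.2, i.2.2.2)) ?_ ?_ ?_ ?_
  · rintro ⟨b, ⟨i₁, i₂⟩, j₁, j₂⟩ hi
    obtain ⟨⟨-, ⟨-, h2⟩, -, h4⟩, h5, h6⟩ := (mem_sI hM).1 hi
    obtain ⟨w, hw⟩ := (det_iff hM _ _ _ _ _).1 h6
    obtain ⟨u, hu⟩ := rd_spec hN (15 * i₁ + β * M * b)
    obtain ⟨v, hv⟩ := rd_spec hN (15 * j₁ + β' * M * b)
    simp only [mem_filter, mem_product, mem_range, rd_lt hN, true_and]
    dsimp only at h2 h4 h5 hw
    refine ⟨⟨h2, h4⟩, Nat.isCoprime_iff_coprime.1 ?_, ?_, ?_⟩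
    · rw [hu, Nat.cast_mul, mul_assoc _ _ u]
      exact (cop_B h15 (Nat.isCoprime_iff_coprime.2 h5) hβ i₁).add_mul_left_left _
    · rw [hu, hv]
      exact ⟨j₁ + t * M * b + M * v - k * i₁ - k * M * u, by
        push_cast; linear_combination M * b * ht⟩
    · rw [hu, hv]
      exact ⟨15 * w + β * b * j₂ + 15 * u * j₂ - β' * b * i₂ - 15 * v * i₂, by
        push_cast; linear_combination 15 * hw⟩
  · rintro ⟨b, ⟨i₁, i₂⟩, j₁, j₂⟩ hi ⟨b', ⟨i₁', i₂'⟩, j₁', j₂'⟩ hi' h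
    obtain ⟨⟨h0, ⟨h1, -⟩, h3, -⟩, -⟩ := (mem_sI hM).1 hi
    obtain ⟨⟨h0', ⟨h1', -⟩, h3', -⟩, -⟩ := (mem_sI hM).1 hi'
    simp only [Prod.mk.injEq] at h ⊢
    obtain ⟨e1, e2, rfl, rfl⟩ := h
    obtain ⟨u, hu⟩ := rd_spec hN (15 * i₁ + β * M * b)
    obtain ⟨v, hv⟩ := rd_spec hN (15 * j₁ + β' * M * b)
    obtain ⟨u', hu'⟩ := rd_spec hN (15 * i₁' + β * M * b')
    obtain ⟨v', hv'⟩ := rd_spec hN (15 * j₁' + β' * M * b')
    rw [e1, hu'] at hu
    rw [e2, hv'] at hv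
    push_cast at hu hv
    refine ⟨evalends_uniq cβ (v := -(β * M * b')) (mem_range.2 h0) (mem_range.2 h0')
      ⟨i₁' - i₁ + M * u' - M * u, by push_cast; linear_combination -hu⟩ (by simp),
      ⟨evalends_uniq c15 (v := -(15 * i₁')) (mem_range.2 h1) (mem_range.2 h1')
        ⟨β * b' - β * b + 15 * u' - 15 * u, by linear_combination -hu⟩ (by simp), rfl⟩,
      evalends_uniq c15 (v := -(15 * j₁')) (mem_range.2 h3) (mem_range.2 h3')
        ⟨β' * b' - β' * b + 15 * v' - 15 * v, by linear_combination -hv⟩ (by simp), rfl⟩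
  · rintro ⟨B₁, B₂, a₁, a₂⟩ h
    simp only [mem_filter, mem_product, mem_range] at h
    obtain ⟨⟨h1, h2, h3, h4⟩, h5, ⟨s, hs⟩, w, hw⟩ := h
    obtain ⟨b, hb, u, hu⟩ := evalends_ex (m := 15) (by norm_num) cβ (-B₁)
    obtain ⟨i, hi, v, hv⟩ := evalends_ex hM c15 (-B₁)
    obtain ⟨j, hj, v', hv'⟩ := evalends_ex hM c15 (-B₂)
    push_cast at hu
    refine ⟨(b, (i, a₁), j, a₂), (mem_sI hM).2 ⟨⟨mem_range.1 hb, ⟨mem_range.1 hi, h3⟩,
      mem_range.1 hj, h4⟩, Nat.isCoprime_iff_coprime.1 ?_, (det_iff hM _ _ _ _ _).2 ?_⟩, ?_⟩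
    · refine IsCoprime.of_mul_left_right (x := β * M) ?_
      rw [show β * M * (b : ℕ) = B₁ + (15 : ℕ) * u by push_cast; linear_combination hu]
      exact (Nat.isCoprime_iff_coprime.2 h5).add_mul_left_left _
    · exact c15.symm.dvd_of_dvd_mul_left ⟨w + v * a₂ - v' * a₁, by
        linear_combination hw + a₂ * hv - a₁ * hv'⟩
    · simp only [Prod.mk.injEq, and_true]
      refine ⟨rd_eq h1 ?_, rd_eq h2 ?_⟩ <;> push_cast <;> refine c15.mul_dvd ?_ ?_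
      · exact ⟨i + u, by linear_combination hu⟩
      · exact ⟨v + β * b, by linear_combination hv⟩
      · exact ⟨j + t * M * b + k * u - s, by linear_combination M * b * ht + k * hu - hs⟩
      · exact ⟨v' + β' * b, by linear_combination hv'⟩
  · rintro ⟨b, ⟨i₁, i₂⟩, j₁, j₂⟩ _
    obtain ⟨u, hu⟩ := rd_spec hN (15 * i₁ + β * M * b)
    obtain ⟨v, hv⟩ := rd_spec hN (15 * j₁ + β' * M * b)
    push_cast at hu hv
    congr 1 <;> refine eC_congr hM (by simp) ?_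
    · exact ⟨-u, by linear_combination -hu⟩
    · exact ⟨-v, by linear_combination -hv⟩

end Pool.Agent.P.MP_9c97e9_nt.KT
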