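import Pool.Agent.P.MP_9c97e9_nt.KT.IfEB

/-! The finite products in the form of the symbol formula. -/

namespace Pool.Agent.P.MP_9c97e9_nt.KT

open scoped NNReal
open MP_8b7eba_nt.R2 Finset PowerSeries

namespace TPFX

theorem blkP {M : ℕ} (hz : ∀ a, zM M a = zM M 1 ^ a) (a B : ℤ) (L : ℕ) (t : Om) (ε : ℤ) :
    (∏ i ∈ ({1, -1} : Finset ℤ) ×ˢ range L,
      if (15 * M : ℤ) ∣ i.2 - i.1 * B then (1 - zM M 1 ^ (i.1 * a) * t ^ i.2) ^ ε else 1) =
      pO M a B L t ^ ε := by
  rw [prod_product, prod_pair (by decide), ← prod_mul_distrib, pO, ← prod_zpow]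
  refine prod_congr rfl fun c _ => ?_
  simp only [one_mul, neg_mul, sub_neg_eq_add, mul_zpow, apply_ite (· ^ ε), one_zpow, ← hz]

theorem divs {m L : ℕ} (h : m < L) : m.divisors = (range L).filter fun c => c ∣ m ∧ m ≠ 0 := by
  ext c
  simp only [Nat.mem_divisors, mem_filter, mem_range]
  exact ⟨fun h1 => ⟨(Nat.le_of_dvd (Nat.pos_of_ne_zero h1.2) h1.1).trans_lt h, h1⟩, fun h1 => h1.2⟩

theorem blkS {M : ℕ} (hz : ∀ a, zM M a = zM M 1 ^ a) (a B : ℤ) {m L : ℕ} (h : m < L) (ε : ℤ) :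
    (∑ i ∈ ({1, -1} : Finset ℤ) ×ˢ range L, if (15 * M : ℤ) ∣ i.2 - i.1 * B then
      coeff m ((ε * i.1) • ph (zM M 1) (i.1 * a) i.2) else 0) = -(ε * coeff m (eis M a B)) := by
  rw [sum_product, sum_pair (by decide), ← sum_add_distrib, eis, coeff_mk, divs h, sum_filter,
    mul_sum, ← sum_neg_distrib]
  refine sum_congr rfl fun c _ => ?_
  simp only [map_zsmul]
  simp only [one_mul, neg_mul, sub_neg_eq_add, ph, coeff_mk, ← hz, zsmul_eq_mul]
  split_ifs <;> push_cast <;> ring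

end TPFX

open TPFX in
theorem t_PFX (hZMX : ZMX) : PFX := by
  intro M k X L b i₁ i₂ e t u hM h15 hb hk he hX hu
  have hz : ∀ a, zM M a = zM M 1 ^ a := fun a => ((hZMX.1 M hM).2.1 a).1
  have hk' : (2 : ℤ) ^ k ∣ M := by exact_mod_cast hk
  refine ⟨(ℤ × ℤ) × ℤ × ℕ,
    (({(1, 1), (-1, 1), (4, -1), (-4, -1)} : Finset (ℤ × ℤ)) ×ˢ ({1, -1} : Finset ℤ) ×ˢ range L).filter
      fun i => (15 * M : ℤ) ∣ i.2.2 - i.2.1 * (15 * i₁ + i.1.1 * M * b),
    fun i => i.2.1 * i₂, fun i => i.2.2, fun i => i.1.2, fun i => i.2.1, (-1) ^ (JJ M b i₁).natAbs,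
    i₂ * JJ M b i₁, e, neg_one_pow_eq_or _ _, by simp, hk'.trans he, fun i hi => ?_, ?_,
    fun m hm => ?_⟩
  · obtain ⟨⟨β, ε⟩, σ, c⟩ := i
    obtain ⟨h1, d, h2⟩ := mem_filter.1 hi
    obtain ⟨h3, h4⟩ := mem_product.1 h1
    have h5 : σ = 1 ∨ σ = -1 := by simpa using (mem_product.1 h4).1
    have h6 : IsCoprime β 15 := by
      simp only [mem_insert, mem_singleton, Prod.mk.injEq] at h3
      rcases h3 with h | h | h | h <;> rw [h.1] <;> decide +kernel
    have h7 : IsCoprime σ 15 := by rcases h5 with rfl | rfl <;> decide +kernel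
    simp only at h2 ⊢
    refine ⟨Nat.pos_of_ne_zero fun h => ?_, by rcases h5 with rfl | rfl <;> decide, by simp,
      hk'.trans ⟨15 * d + σ * β * b, by linear_combination h2⟩⟩
    have h8 := ((h7.mul_left h6).mul_left (Nat.isCoprime_iff_coprime.2 h15)).mul_left hb
    have h9 : (15 : ℤ) ∣ σ * β * M * b := ⟨-(M * d) - σ * i₁, by
      rw [h] at h2
      push_cast at h2
      linear_combination -h2⟩
    exact absurd (h8.isUnit_of_dvd' h9 dvd_rfl) (by decide)
  · convert hu using 4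
    rw [prod_filter, prod_product, prod_insert (by decide), prod_insert (by decide),
      prod_insert (by decide), prod_singleton]
    simp only [blkP hz]
    rw [piO, ← hz]
    simp only [one_mul, neg_mul, ← sub_eq_add_neg, zpow_one, zpow_neg]
    ring
  · rw [map_sub, map_sum, sum_filter, sum_product, sum_insert (by decide), sum_insert (by decide),
      sum_insert (by decide), sum_singleton]
    simp only [blkS hz _ _ (hm.trans_lt hX)]
    rw [EE, map_intCast]
    simp only [one_mul, neg_mul, ← sub_eq_add_neg, map_sub, map_add]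
    push_cast
    ring

end Pool.Agent.P.MP_9c97e9_nt.KT
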