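import Pool.Agent.P.MP_9c97e9_nt.KT.BasL

/-! The structure of the torsion points at two. -/

namespace Pool.Agent.P.MP_9c97e9_nt.KT

open scoped NNReal Matrix
open MP_8b7eba_nt.R2

namespace TLS2

theorem n4 : ‖(4 : ℚ_[2])‖ = 4⁻¹ := by
  rw [show (4 : ℚ_[2]) = 2 * 2 by norm_num, norm_mul, SelA.two]
  norm_num

theorem nu_cases (D : Dat) : (D.n % 8 = 7 ∧ D.nu = 4) ∨ (D.n % 8 ≠ 7 ∧ D.nu = 2) := by
  unfold Dat.nu
  split_ifs with h <;> simp [h]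

theorem nu_norm (D : Dat) : ‖(D.nu : ℚ_[2])‖ = (D.nu : ℝ)⁻¹ := by
  rcases nu_cases D with ⟨-, h⟩ | ⟨-, h⟩ <;> rw [h]
  · simpa using n4
  · simpa using SelA.two

theorem be_mul (D : Dat) {g h : GQ} (hg : g ∈ w2.D) :
    D.rd (g * h) 1 1 = D.rd g 1 1 * D.rd h 1 1 := by
  simp [Dat.rd, T2.rd_mul D.dl_fix, Matrix.mul_apply, SelA.rd_up T2 D.dl hg]

theorem be_I (D : Dat) {g : GQ} (hg : g ∈ w2.I) : D.rd g 1 1 = 1 := by
  rw [Dat.rd, SelA.rd_fix T2 (D.I_dl D.not_two hg), T2.un g hg]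

theorem be_le (D : Dat) {g : GQ} (hg : g ∈ w2.D) : ‖D.rd g 1 1 - 1‖ ≤ (D.nu : ℝ)⁻¹ := by
  have h4 : ‖T2.rho g 1 1 - 1‖ ≤ 4⁻¹ := by simpa using T2.four g 1 1
  rcases nu_cases D with ⟨h8, h⟩ | ⟨-, h⟩ <;> rw [h]
  · rw [Dat.rd, SelA.rd_fix T2 ((qz_eq_zero D.dl_sq).1 (qz_D_two a_CA rfl (by omega) hg))]
    simpa using h4
  · rcases sd_cases D.dl g with e | e
    · simpa [Dat.rd, Tate.rd, e] using h4.trans (by norm_num)
    · rw [show D.rd g 1 1 - 1 = -(T2.rho g 1 1 - 1) + -2 by simp [Dat.rd, Tate.rd, e]; ring]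
      exact SelA.add (by rw [norm_neg]; exact h4.trans (by norm_num))
        (by rw [norm_neg, SelA.two]; norm_num)

theorem q5 (D : Dat) : qz 5 D.f2 = 1 := by
  refine (LA.cases _).resolve_left fun h => ?_
  have h1 := ch_unr a_FROB (isCh_qz 5) (fun g hg => qz_I_two rfl (by norm_num) hg) D.fr h
  have := ((a_SQ2 w2).2.2.2.2.1 rfl 5 (by decide)).1.1 ((qz_D_iff (by norm_num)).1 h1)
  omega

theorem be_near (hF : F2X) (D : Dat) {g : GQ} (hg : g ∈ w2.D) :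
    ‖D.rd g 1 1 - (1 + D.nu * (qz 5 g).val)‖ ≤ (2 * D.nu : ℝ)⁻¹ := by
  obtain ⟨r, r1, r2, -⟩ := exists_red
  have hn := nu_norm D
  have h2 : (2 : ℝ) ≤ D.nu ∧ (D.nu : ℝ) ≤ 4 := by
    rcases nu_cases D with ⟨-, h⟩ | ⟨-, h⟩ <;> rw [h] <;> norm_num
  have hp : (0 : ℝ) < D.nu := by linarith [h2.1]
  have h0 : (D.nu : ℚ_[2]) ≠ 0 := by exact_mod_cast hp.ne'
  obtain ⟨u, hu⟩ : ∃ u : GQ → ℚ_[2], ∀ g, u g = (D.rd g 1 1 - 1) / D.nu := ⟨_, fun _ => rfl⟩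
  have un : ∀ g, ‖u g‖ = ‖D.rd g 1 1 - 1‖ * D.nu := fun g => by
    rw [hu, norm_div, hn, div_inv_eq_mul]
  have ul : ∀ g ∈ w2.D, ‖u g‖ ≤ 1 := fun g hg => by
    rw [un, ← le_div_iff₀ hp, one_div]
    exact be_le D hg
  have ua : ∀ g ∈ w2.D, ∀ h ∈ w2.D, r (u (g * h)) = r (u g) + r (u h) := fun g hg h hh => by
    refine r2 _ _ (LC.near ?_ (LC.r_add (r1 _ (ul g hg)) (r1 _ (ul h hh))))
    rw [show u (g * h) - (u g + u h) = D.nu * (u g * u h) by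
      simp only [hu, be_mul D hg]; field_simp; ring]
    exact LC.mul_r (hn.trans_le (inv_anti₀ two_pos h2.1)) (LC.mul_l (ul g hg) (ul h hh))
  have us : Sm w2.D fun g => r (u g) := by
    obtain ⟨N, hN, e⟩ := SelA.rd_sm T2 D.dl (ε := 8⁻¹) (by norm_num)
    refine ⟨N, hN, fun g hg n hn m => ?_⟩
    have h8 : ‖D.rd n 1 1 - 1‖ ≤ 8⁻¹ := by simpa [Dat.rd] using e n m 1 1
    have : r (u n) = 0 := r2 _ _ (by
      rw [ZMod.val_zero, Nat.cast_zero, sub_zero, un]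
      nlinarith [norm_nonneg (D.rd n 1 1 - 1), h2.2])
    simp only [ua g hg n hn, this, add_zero]
  have uf : r (u D.f2) = 1 := by
    refine (LA.cases _).resolve_left fun h => ?_
    have h1 := r1 _ (ul _ D.fr.1)
    rw [h, ZMod.val_zero, Nat.cast_zero, sub_zero, un, (hF D).1] at h1
    rcases nu_cases D with ⟨a, b⟩ | ⟨a, b⟩ <;> rw [b] at h1 <;> norm_num [a] at h1
  have h1 := ch_unr a_FROB (χ := fun g => r (u g) + qz 5 g)
    ⟨us.comp₂ (isCh_qz 5).1 (· + ·), fun g hg h hh => by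
      simp only [ua g hg h hh, (isCh_qz (H := w2.D) 5).2 g hg h hh]; abel⟩
    (fun g hg => by
      rw [qz_I_two rfl (by norm_num) hg, add_zero]
      exact r2 _ _ (by simp [hu, be_I D hg]))
    D.fr (by rw [uf, q5]; rfl) g hg
  have k : ∀ x y : ZMod 2, x + y = 0 → x = y := by decide
  have h3 := r1 _ (ul g hg)
  rw [k _ _ h1] at h3
  rw [show D.rd g 1 1 - (1 + D.nu * (qz 5 g).val) = D.nu * (u g - (qz 5 g).val) by
    rw [hu]; field_simp; ring, mul_inv, mul_comm (2⁻¹ : ℝ)]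
  exact LC.mul hn.le h3

end TLS2

open TLS2 in
theorem t_LS2 (hF2X : F2X) : LS2 := by
  intro D g hg
  have up : D.rd g 1 0 = 0 := SelA.rd_up T2 D.dl hg
  have hF : ∀ y, tac D.dl g (pF y) = pF (D.rd g 1 1 * y) + pE (D.rd g 0 1 * y) := fun y => by
    rw [pF_eq y, D.tgal, pt_eq_add, add_comm]
    simp [LC.mv]
  have h01 : ‖D.rd g 0 1‖ ≤ 4⁻¹ := by
    have h4 : ‖T2.rho g 0 1‖ ≤ 4⁻¹ := by simpa using T2.four g 0 1
    rcases sd_cases D.dl g with e | e <;> simpa [Dat.rd, Tate.rd, e] using h4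
  refine ⟨fun x => ?_, hF, ?_, h01, be_near hF2X D hg, be_I D, q5 D, ?_⟩
  · rw [pE_eq x, D.tgal, pt_eq_add]
    simp [LC.mv, up]
  · have := T2.det g
    rw [Matrix.det_fin_two, T2.up g hg, mul_zero, sub_zero] at this
    rcases sd_cases D.dl g with e | e <;> simpa [Dat.rd, Tate.rd, e] using this
  · have h2 : (0 : ℝ) < D.nu ∧ (D.nu : ℝ) ≤ 4 := by
      rcases nu_cases D with ⟨-, h⟩ | ⟨-, h⟩ <;> rw [h] <;> norm_num
    have hn : ‖(D.nu : ℚ_[2])⁻¹‖ = D.nu := by rw [norm_inv, nu_norm, inv_inv]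
    rw [hF, pE_eq_zero.2 ((LC.mul h01 hn.le).trans (by linarith [h2.2])), add_zero]
    refine pF_congr ?_
    rw [← sub_one_mul]
    exact (LC.mul (be_le D hg) hn.le).trans_eq (inv_mul_cancel₀ h2.1.ne')

end Pool.Agent.P.MP_9c97e9_nt.KT
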