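import Pool.Agent.P.MP_9c97e9_nt.KT.IfK

/-! Basic facts on the cyclotomic tower. -/

namespace Pool.Agent.P.MP_9c97e9_nt.KT.BK

open scoped NNReal Matrix
open MP_8b7eba_nt.R2
open Filter Topology Polynomial Module

variable {g h s γ : GQ} {k m : ℕ} {w : Pl} {v : V2}

/-! ### The logarithm -/

theorem la_mul (g h : GQ) : la (g * h) = la g + la h := by
  rw [la, a_EC.2.1, a_LG.1.mul, la, la]

theorem la_one : la 1 = 0 := by simpa using la_mul 1 1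

theorem la_inv (g : GQ) : la g⁻¹ = -la g := by
  have := la_mul g g⁻¹
  rw [mul_inv_cancel, la_one] at this
  linear_combination -this

theorem la_pow (g : GQ) (m : ℕ) : la (g ^ m) = m * la g := by
  induction m with
  | zero => rw [pow_zero, la_one, Nat.cast_zero, zero_mul]
  | succ m ih => rw [pow_succ, la_mul, ih]; push_cast; ring

theorem la_conj (s g : GQ) : la (s * g * s⁻¹) = la g := by
  rw [la_mul, la_mul, la_inv]; ring

theorem la_of_cyc (h : cyc g = 1) : la g = 0 := by rw [la, h, TABHN.lg_one a_LG.1]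

theorem cyc_conj (s g : GQ) : cyc (s * g * s⁻¹) = cyc g := by
  have := a_EC.2.1 (s * g * s⁻¹) s
  rw [inv_mul_cancel_right, a_EC.2.1, mul_comm] at this
  exact (mul_right_cancel this).symm

theorem mem_KP : g ∈ KP k ↔ 2 ^ k ∣ la g := (a_LG.2.2.2.1 k).2.2.2.2.1 g

theorem on_KP (k : ℕ) : ON (KP k) := (a_LG.2.2.2.1 k).2.2.2.1

theorem Ps_eq_zero : Ps k g = 0 ↔ g ∈ KP k := by
  simpa using ((a_LG.2.2.2.1 k).2.2.1 g).symm

theorem Ps_mul (k : ℕ) (g h : GQ) : Ps k (g * h) = Ps k g + Ps k h :=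
  (a_LG.2.2.2.1 k).1.2 g trivial h trivial

theorem mem_KI : g ∈ KI ↔ la g = 0 := by
  rw [KI, Subgroup.mem_iInf]
  refine ⟨fun h => PadicInt.ext_of_toZModPow.1 fun k => ?_, fun h k => mem_KP.2 (by simp [h])⟩
  exact (Ps_eq_zero.2 (h k)).trans (map_zero _).symm

theorem KI_le (k : ℕ) : KI ≤ KP k := iInf_le _ k

theorem KP_le (h : m ≤ k) : KP k ≤ KP m :=
  fun _ hg => mem_KP.2 ((pow_dvd_pow 2 h).trans (mem_KP.1 hg))

theorem KP_zero : KP 0 = ⊤ := eq_top_iff.2 fun _ _ => mem_KP.2 (by simp)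

theorem conj_KI : s * g * s⁻¹ ∈ KI ↔ g ∈ KI := by rw [mem_KI, mem_KI, la_conj]

theorem conj_KP : s * g * s⁻¹ ∈ KP k ↔ g ∈ KP k := by rw [mem_KP, mem_KP, la_conj]

theorem normal_KI : KI.Normal := ⟨fun _ h _ => conj_KI.2 h⟩

theorem closed_KI : IsClosed (KI : Set GQ) := by
  rw [KI, Subgroup.coe_iInf]
  exact isClosed_iInter fun k => closed_of_open (on_KP k).2

theorem div_KI (e : la g = la s) : g * s⁻¹ ∈ KI := mem_KI.2 (by rw [la_mul, la_inv, e, add_neg_cancel])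

theorem comm_KI (g h : GQ) : g * h * g⁻¹ * h⁻¹ ∈ KI := div_KI (la_conj g h)

theorem I_le (hw : w.p ≠ 2) : w.I ≤ KI :=
  fun g hg => mem_KI.2 (la_of_cyc (a_EC.2.2.2.2.2.2.1 w hw g hg))

theorem conj_I (s : GQ) (hg : g ∈ w.I) : s * g * s⁻¹ ∈ (s • w).I :=
  Pl.mem_I_smul.2 (by simpa [mul_assoc] using hg)

/-- every automorphism is congruent to an element of the inertia group at two -/
theorem surj (a : ℤ_[2]) : ∃ s ∈ w2.I, la s = a ∧ 4 ∣ (cyc s : ℤ_[2]) - 1 := by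
  obtain ⟨u, h1, h2⟩ := a_LG.2.2.1 a
  obtain ⟨s, hs, rfl⟩ := a_EC2 w2 rfl u
  refine ⟨s, hs, h1, by_contra fun h => ?_⟩
  rw [ep, if_neg h] at h2
  exact one_ne_zero h2

theorem surjI (g : GQ) : ∃ s ∈ w2.I, g * s⁻¹ ∈ KI :=
  let ⟨s, h1, h2, _⟩ := surj (la g); ⟨s, h1, div_KI h2.symm⟩

theorem small {N : Subgroup GQ} (hN : ON N) :
    ∃ m, ∀ g ∈ KP m, ∃ s ∈ w2.I ⊓ N, g * s⁻¹ ∈ KI := by
  have := hN.1
  have h0 : (N.index : ℤ_[2]) ≠ 0 := Nat.cast_ne_zero.2 (Basic.fi hN.2).index_ne_zero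
  refine ⟨(N.index : ℤ_[2]).valuation, fun g hg => ?_⟩
  obtain ⟨b, hb⟩ : (N.index : ℤ_[2]) ∣ la g := by
    rw [PadicInt.unitCoeff_spec h0]
    exact Units.mul_left_dvd.2 (mem_KP.1 hg)
  obtain ⟨s, h1, h2, -⟩ := surj b
  exact ⟨s ^ N.index, ⟨pow_mem h1 _, N.pow_index_mem s⟩, div_KI (by rw [la_pow, h2, hb])⟩

/-- an element as `D.gm` -/
theorem exists_gen : ∃ γ ∈ w2.I, (cyc γ : ℤ_[2]) = 5 ∧ la γ = 1 := by
  have h5 : IsUnit (5 : ℤ_[2]) := by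
    rw [PadicInt.isUnit_iff]
    refine le_antisymm (PadicInt.norm_le_one _) (not_lt.1 fun e => ?_)
    have := (PadicInt.norm_int_lt_one_iff_dvd (p := 2) 5).1 (by simpa using e)
    norm_num at this
  obtain ⟨g, hg, hc⟩ := a_EC2 w2 rfl h5.unit
  have : (cyc g : ℤ_[2]) = 5 := by rw [hc]; rfl
  exact ⟨g, hg, this, a_LG.1.five _ this⟩

theorem Ps_pow (hγ : la γ = 1) (k m : ℕ) : Ps k (γ ^ m) = m := by
  rw [show Ps k (γ ^ m) = PadicInt.toZModPow k (la (γ ^ m)) from rfl, la_pow, hγ, mul_one,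
    map_natCast]

theorem pow_mem_KP (hγ : la γ = 1) : γ ^ m ∈ KP k ↔ 2 ^ k ∣ m := by
  rw [← Ps_eq_zero, Ps_pow hγ, ZMod.natCast_eq_zero_iff]

theorem dec_iff (hγ : la γ = 1) : g * (γ ^ m)⁻¹ ∈ KP k ↔ Ps k g = m := by
  have := Ps_mul k (g * (γ ^ m)⁻¹) (γ ^ m)
  rw [inv_mul_cancel_right, Ps_pow hγ] at this
  rw [← Ps_eq_zero, this, add_eq_right]

theorem dec (hγ : la γ = 1) (k : ℕ) (g : GQ) : g * (γ ^ (Ps k g).val)⁻¹ ∈ KP k :=
  (dec_iff hγ).2 (ZMod.natCast_zmod_val _).symm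

theorem dec' (hγ : la γ = 1) (k : ℕ) (g : GQ) : (γ ^ (Ps k g).val)⁻¹ * g ∈ KP k := by
  simpa [mul_assoc] using (conj_KP (s := (γ ^ (Ps k g).val)⁻¹)).2 (dec hγ k g)

theorem relIndex_KP {H : Subgroup GQ} (h : w2.I ≤ H) (k : ℕ) : (KP k).relIndex H = 2 ^ k := by
  obtain ⟨γ, h1, -, h2⟩ := exists_gen
  have h3 : IsKer H (H ⊓ KP k) (Ps k) := fun g => and_congr Iff.rfl Ps_eq_zero.symm
  rw [← Subgroup.inf_relIndex_left, h3.relIndex ((a_LG.2.2.2.1 k).1.mono le_top),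
    Set.eq_univ_of_forall (s := Ps k '' H) fun z =>
      ⟨γ ^ z.val, h (pow_mem h1 _), by rw [Ps_pow h2, ZMod.natCast_zmod_val]⟩,
    Set.ncard_univ, Nat.card_zmod]

theorem index_KP (k : ℕ) : (KP k).index = 2 ^ k := by
  rw [← Subgroup.relIndex_top_right, relIndex_KP le_top]

theorem relIndex_succ (k : ℕ) : (KP (k + 1)).relIndex (KP k) = 2 := by
  have := Subgroup.relIndex_mul_index (KP_le k.le_succ)
  rw [index_KP, index_KP, pow_succ' 2 k] at this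
  exact mul_right_cancel₀ (by positivity) this

/-- the product of two elements of a layer which are not in the next layer -/
theorem mul_succ (hg : g ∈ KP k) (hh : h ∈ KP k) (hg' : g ∉ KP (k + 1)) (hh' : h ∉ KP (k + 1)) :
    g * h ∈ KP (k + 1) := by
  have := (Subgroup.mul_mem_iff_of_index_two (H := (KP (k + 1)).subgroupOf (KP k))
    (relIndex_succ k) (a := ⟨g, hg⟩) (b := ⟨h, hh⟩)).2 (iff_of_false hg' hh')
  exact this

/-! ### Complex conjugations -/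

theorem ts_one : ts 1 = tau := by simp [ts]

theorem ts_mul (u s : GQ) : ts (u * s) = u * ts s * u⁻¹ := by simp [ts, mul_assoc]

theorem ts_ts (s : GQ) : ts s * ts s = 1 := by
  rw [ts, show s * tau * s⁻¹ * (s * tau * s⁻¹) = s * (tau * tau) * s⁻¹ by group, a_TAU.2.1]
  group

theorem cyc_ts (s : GQ) : cyc (ts s) = -1 := (cyc_conj s tau).trans a_EC.2.2.2.2.2.2.2

theorem ts_mem (s : GQ) : ts s ∈ KI := mem_KI.2 (by rw [la, cyc_ts, TABHN.lg_neg_one a_LG.1])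

theorem tau_mem : tau ∈ KI := ts_one ▸ ts_mem 1

theorem zp_cases (hg : g ∈ Subgroup.zpowers (ts s)) : g = 1 ∨ g = ts s := by
  obtain ⟨k, rfl⟩ := Subgroup.mem_zpowers_iff.1 hg
  have h2 : ts s ^ (2 : ℤ) = 1 := by rw [zpow_two, ts_ts]
  rcases Int.even_or_odd' k with ⟨m, rfl | rfl⟩
  · left; rw [zpow_mul, h2, one_zpow]
  · right; rw [zpow_add, zpow_mul, h2, one_zpow, one_mul, zpow_one]

theorem closed_zp (s : GQ) : IsClosed (Subgroup.zpowers (ts s) : Set GQ) :=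
  ((Set.toFinite {1, ts s}).subset fun _ hg => zp_cases hg).isClosed

theorem qz_ts {a : ℤ} (ha : a ≠ 0) (s : GQ) : qz a (ts s) = 0 ↔ 0 < a := by
  rw [ts, qz_conj, qz_tau a_TAU ha]

theorem ts_i (s : GQ) : ts s (rt (-1)) = -rt (-1) :=
  (GrpA.pm (rt_sq _) _).resolve_left fun e => by
    simpa using (qz_ts (by norm_num) s).1 ((qz_eq_zero (rt_sq _)).2 e)

/-- square roots of norms are real -/
theorem pos {x β : Om} (e : β ^ 2 = x * ts s x) : ts s β = β := by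
  have h1 : io (s⁻¹ β) ^ 2 = (Complex.normSq (io (s⁻¹ x)) : ℂ) := by
    rw [← map_pow, ← map_pow, e, map_mul, map_mul, ← Complex.mul_conj, ← a_TAU.1]
    congr 2
    exact BasicP.inv_apply s _
  have h2 : tau (s⁻¹ β) = s⁻¹ β := by
    refine io.injective ?_
    rw [a_TAU.1, Complex.conj_eq_iff_im]
    have h3 := congrArg Complex.re h1
    have h4 := congrArg Complex.im h1
    simp only [pow_two, Complex.mul_re, Complex.mul_im, Complex.ofReal_re, Complex.ofReal_im] at h3 h4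
    by_contra h5
    have h6 : (io (s⁻¹ β)).re = 0 := by
      have : (io (s⁻¹ β)).re * (io (s⁻¹ β)).im = 0 := by linarith
      exact (mul_eq_zero.1 this).resolve_right h5
    rw [h6] at h3
    nlinarith [mul_self_pos.2 h5, Complex.normSq_nonneg (io (s⁻¹ x))]
  exact (congrArg s h2).trans (BasicP.apply_inv s β)

theorem mem_KC : g ∈ KC k ↔ g ∈ KP k ∧ g (rt (-1)) = rt (-1) := Iff.rfl

theorem mem_KC' : g ∈ KC k ↔ 2 ^ (k + 2) ∣ (cyc g : ℤ_[2]) - 1 := by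
  have h4 : (4 : ℤ_[2]) ∣ 2 ^ (k + 2) := LA.c4 ▸ pow_dvd_pow 2 (Nat.le_add_left 2 k)
  rw [mem_KC, mem_KP, la, a_LG.1.dvd, ← qz_eq_zero (rt_sq _), qz_neg_one a_EC]
  refine ⟨fun h => h.1.resolve_right fun e => ?_, fun h => ⟨Or.inl h, h4.trans h⟩⟩
  have h1 := dvd_sub (h4.trans e) h.2
  rw [show (cyc g : ℤ_[2]) + 1 - (cyc g - 1) = ((2 : ℤ) : ℤ_[2]) by push_cast; ring, ← LA.c4] at h1
  have := (PadicInt.pow_p_dvd_int_iff (p := 2) 2 2).1 h1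
  norm_num at this

theorem on_KC (k : ℕ) : ON (KC k) := by
  obtain ⟨N, hN, e⟩ := a_EC.2.2.2.2.1 (k + 2)
  rwa [show KC k = N from Subgroup.ext fun g => mem_KC'.trans (e g).symm]

theorem ts_not (s : GQ) : ts s ∉ KC k := fun h =>
  LC.rt_ne (m := -1) (by norm_num) (self_eq_neg.1 (h.2.symm.trans (ts_i s)))

theorem tc_KC (k : ℕ) : TC (KC k) := fun g => ts_not g

theorem I_le_KC (hw : w.p ≠ 2) : w.I ≤ KC k :=
  fun g hg => mem_KC'.2 (by simp [a_EC.2.2.2.2.2.2.1 w hw g hg])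

/-- an element of a layer fixes `i` or differs from a complex conjugation by such an element -/
theorem mul_KC (hg : g ∈ KP k) (hh : h ∈ KP k) (hg' : g ∉ KC k) (hh' : h ∉ KC k) : g * h ∈ KC k := by
  refine ⟨mul_mem hg hh, ?_⟩
  show g (h _) = _
  rw [(GrpA.pm (rt_sq _) h).resolve_left fun e => hh' ⟨hh, e⟩, map_neg,
    (GrpA.pm (rt_sq _) g).resolve_left fun e => hg' ⟨hg, e⟩, neg_neg]

/-! ### Quadratic characters -/

theorem exists_qc {H : Subgroup GQ} (hH : IsClosed (H : Set GQ)) {χ : GQ → ZMod 2} (h : IsCh H χ) :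
    ∃ β : Om, β ≠ 0 ∧ Fix H (β ^ 2) ∧ ∀ g ∈ H, χ g = qc β g := by
  by_cases h0 : ∀ g ∈ H, χ g = 0
  · exact ⟨1, one_ne_zero, by simpa using fix_one, fun g hg => by simp [h0 g hg, qc]⟩
  push Not at h0
  obtain ⟨g₀, hg₀, h1⟩ := h0
  obtain ⟨V, hV, hk⟩ := h.exists_ker
  have h2 : V.relIndex H = 2 := by
    rw [← Subgroup.inf_relIndex_left, hk.relIndex h,
      Set.eq_univ_of_forall (s := χ '' H) fun a => ?_, Set.ncard_univ, Nat.card_zmod]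
    rcases LA.cases a with rfl | rfl
    exacts [⟨1, H.one_mem, h.one⟩, ⟨g₀, hg₀, (LA.cases _).resolve_left h1⟩]
  obtain ⟨β, b0, bf, hb⟩ := (a_GAL H hH).2.2.2.1 V hV h2
  refine ⟨β, b0, bf, fun g hg => LA.ext ⟨fun e => if_pos ((hb g hg).1 ((hk g).2 ⟨hg, e⟩).2),
    fun e => by_contra fun h3 => ?_⟩⟩
  rw [qc, if_neg fun e' => b0 (self_eq_neg.1
    (e'.symm.trans ((hb g hg).2 fun h4 => h3 ((hk g).1 ⟨hg, h4⟩).2)))] at e
  exact one_ne_zero e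

theorem qc_eq_zero {β : Om} : qc β g = 0 ↔ g β = β := by simp [qc]

theorem isCh_qc {H : Subgroup GQ} (hH : IsClosed (H : Set GQ)) {β : Om} (h0 : β ≠ 0)
    (h : Fix H (β ^ 2)) : IsCh H (qc β) := (a_SYM H _ β hH h0 h (isKer_qc H β)).1

theorem qc_mul {β β' : Om} (h0 : β ≠ 0) (h0' : β' ≠ 0) (h : g (β ^ 2) = β ^ 2)
    (h' : g (β' ^ 2) = β' ^ 2) : qc (β * β') g = qc β g + qc β' g := by
  rw [map_pow, sq_eq_sq_iff_eq_or_eq_neg] at h h'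
  have n : ∀ {x : Om}, x ≠ 0 → ¬ -x = x := fun hx e => hx (neg_eq_self.1 e)
  rcases h with h | h <;> rcases h' with h' | h' <;>
    simp [qc, h, h', n h0, n h0', n (mul_ne_zero h0 h0'), LC.two]

theorem ev_iff {U : Subgroup GQ} (hU : IsOpen (U : Set GQ)) (hw : w.p ≠ 2) (hI : w.I ≤ U) {β : Om}
    (h0 : β ≠ 0) (h : Fix U (β ^ 2)) : w.Ev (w.D ⊓ U) (β ^ 2) ↔ Fix w.I β :=
  ⟨fun e => (TZONE.fix_of_ev a_CA hU hw h0 h e).mono (le_inf le_rfl hI),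
    fun e => TZONE.ev_of_fix a_CA hU h0 (e.mono inf_le_left)⟩

theorem ch_conj {H : Subgroup GQ} {χ : GQ → ZMod 2} (h : IsCh H χ) (hs : s ∈ H) (hg : g ∈ H) :
    χ (s * g * s⁻¹) = χ g := by
  rw [h.2 _ (mul_mem hs hg) _ (inv_mem hs), h.2 _ hs _ hg, h.inv hs]
  ring

/-- a generator of tame inertia -/
theorem exists_t (hw : w.p ≠ 2) : ∃ t ∈ w.I, qz w.p t = 1 ∧ (∀ β : Om, β ^ 2 = w.p → t β = -β) ∧
    ∀ χ : GQ → ZMod 2, IsCh w.I χ → ∀ j ∈ w.I, χ j = χ t * qz w.p j := by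
  obtain ⟨t, ht, hβ⟩ := Pl.exists_gen a_TAME a_RES hw
  refine ⟨t, ht, (qz_eq_one (rt_sq _)).2 fun e => ?_, hβ, fun χ h => ch_tame a_CA hw h ht hβ⟩
  rw [hβ _ (by rw [rt_sq]; push_cast; rfl)] at e
  exact LC.rt_ne (by exact_mod_cast w.prime.ne_zero) (neg_eq_self.1 e)

/-! ### The data -/

variable (D : Dat)

theorem hdl : D.dl ^ 2 = ((-D.n : ℤ) : Om) := by rw [D.hdl]; push_cast; rfl

theorem fix_dl : Fix ⊤ (D.dl ^ 2) := LA.fix (hdl D)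

theorem n_ne : D.n ≠ 0 := D.sq.ne_zero

theorem z_mem : D.z ∈ KI := mem_KI.2 (la_of_cyc (t_F2X D).2.2.2.2.1)

theorem f2_mem : D.f2 ∈ KI := mem_KI.2 (la_of_cyc D.fc)

theorem la_gm : la D.gm = 1 := a_LG.1.five _ D.gc

theorem exists_big : ∃ k₀, ∀ k, k₀ ≤ k → D.Big k :=
  ⟨_, fun _ h _ hp => (Finset.le_sup (f := fun p : ℕ => (lg (un (p : ℤ_[2]))).valuation) hp).trans h⟩

theorem rd_mul (g h : GQ) : D.rd (g * h) = D.rd g * D.rd h := T2.rd_mul (fix_dl D) g h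

theorem rd_one : D.rd 1 = 1 := by simp [Dat.rd, Tate.rd, sd]

theorem rd_mulVec (g h : GQ) (v : V2) : D.rd (g * h) *ᵥ v = D.rd g *ᵥ D.rd h *ᵥ v := by
  rw [rd_mul, Matrix.mulVec_mulVec]

theorem rep (H : Subgroup GQ) : Rep H (T2.rq D.dl) := (T2.rep (fix_dl D)).mono le_top

theorem rd_le {r : ℝ} (g : GQ) (hv : ‖v‖ ≤ r) : ‖D.rd g *ᵥ v‖ ≤ r := LC.rd T2 D.dl g hv

theorem rd_norm (g : GQ) (v : V2) : ‖D.rd g *ᵥ v‖ = ‖v‖ := (rep D ⊤).norm (g := g) trivial v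

theorem rd_sub (g : GQ) (v : V2) : ‖D.rd g *ᵥ v - v‖ ≤ 2⁻¹ * ‖v‖ := (T2.rd_norm D.dl g v).2

theorem rd_four (g : GQ) (v : V2) :
    ‖D.rd g *ᵥ v - ![(-1) ^ (qz D.n g).val * v 0, (-1) ^ (qz (-D.n) g).val * v 1]‖ ≤ 4⁻¹ * ‖v‖ := by
  have := T2.rd_four a_EC (hdl D) (neg_ne_zero.2 (Nat.cast_ne_zero.2 (n_ne D))) g v
  rwa [neg_neg] at this

theorem rd_zc (s : GQ) (v : V2) : D.rd (s * D.z * s⁻¹) *ᵥ v = -v := by
  rw [rd_mul, rd_mul, (t_F2X D).2.2.2.1, mul_neg, mul_one, neg_mul, ← rd_mul, mul_inv_cancel, rd_one,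
    Matrix.neg_mulVec, Matrix.one_mulVec]

theorem rd_z (v : V2) : D.rd D.z *ᵥ v = -v := by simpa using rd_zc D 1 v

theorem qz_ts_n (s : GQ) : qz D.n (ts s) = 0 ∧ qz (-D.n) (ts s) = 1 := by
  have h0 : (0 : ℤ) < D.n := Nat.cast_pos.2 (Nat.pos_of_ne_zero (n_ne D))
  exact ⟨(qz_ts h0.ne' s).2 h0, (LA.cases _).resolve_left fun e => by
    have := (qz_ts (neg_ne_zero.2 h0.ne') s).1 e
    omega⟩

theorem rd_ts (s : GQ) (v : V2) : ‖D.rd (ts s) *ᵥ v - ![v 0, -v 1]‖ ≤ 4⁻¹ * ‖v‖ := by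
  simpa [qz_ts_n D s, LC.v1] using rd_four D (ts s) v

theorem tac_pt (g : GQ) (v : V2) : tac D.dl g (T2.pt v) = T2.pt (D.rd g *ᵥ v) := T2.tgal D.dl g v

theorem tac_mul' (g h : GQ) (P : EO) : tac D.dl (g * h) P = tac D.dl g (tac D.dl h P) :=
  tac_mul (fix_dl D) g h P

variable {D}

theorem odd (hw : ¬ w.p ∣ 30 * D.n) : w.p ≠ 2 := fun e =>
  hw (by rw [e]; exact Dvd.dvd.mul_right (by norm_num) _)

theorem odd' (hw : w.p ∣ 15 * D.n) : w.p ≠ 2 := fun e => by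
  have := D.n4
  rw [e] at hw
  omega

theorem dvd30 : w.p ∣ 30 * D.n ↔ w.p = 2 ∨ w.p ∣ 15 * D.n := by
  rw [show 30 * D.n = 2 * (15 * D.n) by ring, w.prime.dvd_mul,
    Nat.prime_dvd_prime_iff_eq w.prime Nat.prime_two]

theorem rd_unr (hw : ¬ w.p ∣ 30 * D.n) (hg : g ∈ w.I) : D.rd g = 1 := by
  rw [Dat.rd, SelA.rd_fix _ (Pl.I_fix a_TAME a_RES (odd hw) (hdl D) (fun e => hw
    (Dvd.dvd.mul_left (Int.natCast_dvd_natCast.1 (dvd_neg.1 e)) _)) hg),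
    (a_TR _ T2 w fun e => hw (e.mul_right _)).1 g hg]

theorem rd_D (hg : g ∈ w2.D) (v : V2) : (D.rd g *ᵥ v) 1 = D.rd g 1 1 * v 1 := by
  rw [LC.mv, show D.rd g 1 0 = 0 from SelA.rd_up T2 D.dl hg, zero_mul, zero_add]

theorem rd_I (hg : g ∈ w2.I) : D.rd g 1 1 = 1 := by
  rw [Dat.rd, SelA.rd_fix _ ((t_F2X D).2.2.2.2.2.1 g hg), T2.un g hg]

theorem rd_I' (hg : g ∈ w2.I) (v : V2) : (D.rd g *ᵥ v) 1 = v 1 := by
  rw [rd_D (w2.I_le_D hg), rd_I hg, one_mul]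

theorem f2_ne (D : Dat) : D.rd D.f2 1 1 ≠ 1 := fun e => by
  have := (t_F2X D).1
  rw [e, sub_self, norm_zero] at this
  split_ifs at this <;> norm_num at this

theorem qz_z (D : Dat) : qz (-D.n) D.z = 1 ∧ qz D.n D.z = 1 ∧ qz D.wz.p D.z = 1 := by
  have h0 : (D.n : ℤ) ≠ 0 := Nat.cast_ne_zero.2 (n_ne D)
  have h1 : qz (-D.n) D.z = 1 := (qz_eq_one (hdl D)).2 fun e =>
    LA.ne (hdl D) (neg_ne_zero.2 h0) (self_eq_neg.1 (e.symm.trans D.zd))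
  have h2 : qz (-1) D.z = 0 := (qz_neg_one a_EC).2 (by simp [(t_F2X D).2.2.2.2.1])
  have h3 := ch_tame a_CA (odd' (D.zp.mul_left 15)) (isCh_qz (-D.n))
    (Pl.exists_gen a_TAME a_RES (odd' (D.zp.mul_left 15))).choose_spec.1
    (Pl.exists_gen a_TAME a_RES (odd' (D.zp.mul_left 15))).choose_spec.2 _ D.zI
  refine ⟨h1, ?_, (LA.cases _).resolve_left fun e => ?_⟩
  · rwa [← neg_one_mul, qz_mul (by norm_num) h0, Pi.add_apply, h2, zero_add] at h1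
  · rw [h1, e, mul_zero] at h3
    exact one_ne_zero h3

theorem qz_unr (hw : ¬ w.p ∣ 30 * D.n) (hg : g ∈ w.I) : qz D.n g = 0 ∧ qz (-D.n) g = 0 := by
  have h : ¬ (w.p : ℤ) ∣ 2 * D.n := fun e => hw ((show w.p ∣ 2 * D.n by exact_mod_cast e).trans
    ⟨15, by ring⟩)
  exact ⟨qz_I a_CA h hg, qz_I a_CA (by rwa [mul_neg, dvd_neg]) hg⟩

theorem qz_two_I (hg : g ∈ w2.I) : qz (-D.n) g = 0 :=
  (qz_eq_zero (hdl D)).2 ((t_F2X D).2.2.2.2.2.1 g hg)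

/-- a normalised cocycle is determined by its values at the conjugates of `z` -/
theorem XC_conj {c : GQ → V2} (hc : D.XC c) (hs : s ∈ KI) (hg : g ∈ KI) :
    c (s * g * s⁻¹) = c s + D.rd s *ᵥ c g - D.rd (s * g * s⁻¹) *ᵥ c s := by
  have h1 := hc.co _ (conj_KI (s := s).2 hg) s hs
  rw [inv_mul_cancel_right, hc.co s hs g hg] at h1
  rw [h1, add_sub_cancel_right]

theorem XC_z {c : GQ → V2} (hc : D.XC c) (hs : s ∈ KI) :
    c (s * D.z * s⁻¹) = (2 : ℚ_[2]) • c s := by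
  rw [XC_conj hc hs (z_mem D), hc.nz, rd_zc, Matrix.mulVec_zero, add_zero, sub_neg_eq_add, two_smul]

theorem XC_bdd {c : GQ → V2} (hc : D.XC c) : ∃ B : ℝ, ∀ g, ‖c g‖ ≤ B := by
  obtain ⟨B, hB⟩ := hc.uc.bdd
  refine ⟨B, fun g => ?_⟩
  by_cases hg : g ∈ KI
  · exact hB g hg
  · rw [hc.off g hg, norm_zero]
    exact (norm_nonneg _).trans (hB 1 (one_mem _))

theorem mem_LL {c : GQ → V2} : c ∈ D.LL ↔ D.XC c ∧ ∀ g, ‖c g‖ ≤ 1 := Iff.rfl

theorem Th_apply (c : GQ → V2) : D.Th c = D.cj D.gm c - c := rfl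

end Pool.Agent.P.MP_9c97e9_nt.KT.BK
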