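import Pool.Agent.P.MP_9c97e9_nt.KT.IfL

/-! Basic lemmas for the chapter L of the project KT. -/

namespace Pool.Agent.P.MP_9c97e9_nt.KT

open scoped NNReal Matrix
open MP_8b7eba_nt.R2
open Filter Topology Polynomial

variable {D : Dat} {H H' : Subgroup GQ} {w : Pl} {c : GQ → EO} {P Q : EO} {g h t φ : GQ}

/-! ### The data -/

theorem Dat.dl_sq (D : Dat) : D.dl ^ 2 = ((-D.n : ℤ) : Om) := by rw [D.hdl]; simp

theorem Dat.dl_fix (D : Dat) : Fix ⊤ (D.dl ^ 2) := LA.fix D.dl_sq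

theorem Dat.n_pos (D : Dat) : 0 < D.n := by have := D.n4; omega

theorem Dat.tmul (D : Dat) (g h : GQ) (P : EO) :
    tac D.dl (g * h) P = tac D.dl g (tac D.dl h P) := tac_mul D.dl_fix g h P

theorem Dat.tgal (D : Dat) (g : GQ) (v : V2) : tac D.dl g (T2.pt v) = T2.pt (D.rd g *ᵥ v) :=
  T2.tgal D.dl g v

theorem Dat.p_ne (D : Dat) {p : ℕ} (hp : p.Prime) (h : p ∣ D.n) : ¬ p ∣ 30 := fun e => by
  have h1 := D.n4
  have h2 : p ∣ 2 ∨ p ∣ 15 := (Nat.Prime.dvd_mul hp).1 (show p ∣ 2 * 15 from e)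
  rcases h2 with h2 | h2
  · obtain rfl := (Nat.prime_dvd_prime_iff_eq hp Nat.prime_two).1 h2
    omega
  · exact hp.ne_one (Nat.eq_one_of_dvd_coprimes D.cop h h2)

/-- away from `n` the inertia groups fix the square root -/
theorem Dat.I_dl (D : Dat) (hw : ¬ w.p ∣ D.n) (hg : g ∈ w.I) : g D.dl = D.dl := by
  by_cases h2 : w.p = 2
  · exact Pl.I_fix_two h2 D.dl_sq (by have := D.n4; omega) hg
  · exact Pl.I_fix a_TAME a_RES h2 D.dl_sq (by simpa [Int.natCast_dvd_natCast] using hw) hg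

theorem Dat.tac_I (D : Dat) (hw : ¬ w.p ∣ D.n) (hg : g ∈ w.I) (P : EO) :
    tac D.dl g P = ac g P := by
  rw [tac_apply, sd_eq_one.2 (D.I_dl hw hg), one_smul]

theorem Dat.not_two (D : Dat) : ¬ w2.p ∣ D.n := by
  have := D.n4
  change ¬ 2 ∣ D.n
  omega

/-! ### Torsion points -/

theorem tp_zero : Tp 0 := ⟨0, by simp⟩

theorem Tp.sub (h : Tp P) (h' : Tp Q) : Tp (P - Q) := sub_eq_add_neg P Q ▸ h.add h'.neg

theorem Tp.nsmul (h : Tp P) (m : ℕ) : Tp (m • P) :=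
  h.imp fun k e => by rw [smul_comm, e, smul_zero]

theorem Tp.zsmul (h : Tp P) (m : ℤ) : Tp (m • P) :=
  h.imp fun k e => by rw [smul_comm, e, smul_zero]

theorem Tp.map (h : Tp P) (f : EO →+ EO) : Tp (f P) :=
  h.imp fun k e => by rw [← map_nsmul, e, map_zero]

theorem Tp.of_pow {k : ℕ} (h : Tp (2 ^ k • P)) : Tp P := by
  obtain ⟨j, e⟩ := h
  exact ⟨j + k, by rw [pow_add, mul_smul, e]⟩

theorem Tp.of_two (h : Tp (2 • P)) : Tp P := Tp.of_pow (k := 1) (by simpa using h)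

theorem tp_iff : Tp P ↔ ∃ v, T2.pt v = P :=
  ⟨fun ⟨k, h⟩ => T2.surj P k h, fun ⟨v, h⟩ => h ▸ T2.tors v⟩

theorem pt_eq_add (v : V2) : T2.pt v = pE (v 0) + pF (v 1) := by
  simp only [pE, pF, AddMonoidHom.comp_apply, ← map_add]
  congr 1
  ext i
  fin_cases i <;> simp

theorem pt_pair (x y : ℚ_[2]) : T2.pt ![x, y] = pE x + pF y := pt_eq_add _

theorem pE_eq (x : ℚ_[2]) : pE x = T2.pt ![x, 0] := by simp [pt_pair]

theorem pF_eq (y : ℚ_[2]) : pF y = T2.pt ![0, y] := by simp [pt_pair]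

theorem tp_iff' : Tp P ↔ ∃ x y, P = pE x + pF y :=
  ⟨fun h => let ⟨v, e⟩ := tp_iff.1 h; ⟨v 0, v 1, e ▸ pt_eq_add v⟩,
    fun ⟨x, y, e⟩ => tp_iff.2 ⟨![x, y], (pt_pair x y).trans e.symm⟩⟩

theorem tp_pE (x : ℚ_[2]) : Tp (pE x) := tp_iff.2 ⟨_, (pE_eq x).symm⟩

theorem tp_pF (x : ℚ_[2]) : Tp (pF x) := tp_iff.2 ⟨_, (pF_eq x).symm⟩

theorem pEF_eq_zero {x y : ℚ_[2]} : pE x + pF y = 0 ↔ ‖x‖ ≤ 1 ∧ ‖y‖ ≤ 1 := by
  rw [← pt_pair, T2.ker, pi_norm_le_iff_of_nonneg zero_le_one, Fin.forall_fin_two]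
  rfl

theorem pE_eq_zero {x : ℚ_[2]} : pE x = 0 ↔ ‖x‖ ≤ 1 := by
  simpa using pEF_eq_zero (x := x) (y := 0)

theorem pF_eq_zero {y : ℚ_[2]} : pF y = 0 ↔ ‖y‖ ≤ 1 := by
  simpa using pEF_eq_zero (x := 0) (y := y)

theorem pE_congr {x y : ℚ_[2]} (h : ‖x - y‖ ≤ 1) : pE x = pE y := by
  rw [← sub_eq_zero, ← map_sub, pE_eq_zero]; exact h

theorem pF_congr {x y : ℚ_[2]} (h : ‖x - y‖ ≤ 1) : pF x = pF y := by
  rw [← sub_eq_zero, ← map_sub, pF_eq_zero]; exact h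

theorem mem_EG : P ∈ EG w ↔ E1 w P := Iff.rfl

theorem pEF_mem {x y : ℚ_[2]} : pE x + pF y ∈ EG w2 ↔ ‖y‖ ≤ 1 := by
  rw [← pt_pair, mem_EG, T2.e1]; rfl

theorem pE_mem (x : ℚ_[2]) : pE x ∈ EG w2 := by simpa using (pEF_mem (x := x) (y := 0)).2 (by simp)

theorem pF_mem {y : ℚ_[2]} : pF y ∈ EG w2 ↔ ‖y‖ ≤ 1 := by simpa using pEF_mem (x := 0) (y := y)

/-- the torsion points in the kernel of the reduction -/
theorem Tp.eq_pE (h : Tp P) (h' : P ∈ EG w2) : ∃ x, P = pE x := by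
  obtain ⟨x, y, rfl⟩ := tp_iff'.1 h
  exact ⟨x, by rw [pF_eq_zero.2 (pEF_mem.1 h'), add_zero]⟩

theorem exists_two (P : EO) : ∃ Q : EO, 2 • Q = P := by simpa using exists_div P 1

theorem Dat.tac_two (D : Dat) (g : GQ) (h : 2 • P = 0) : tac D.dl g P = P := by
  rw [tac_apply, ac_two g h]
  rcases sd_cases D.dl g with e | e <;> rw [e]
  · simp
  · rw [neg_one_zsmul, neg_eq_iff_add_eq_zero, ← two_nsmul, h]

theorem Dat.tac_z (hF : F2X) (D : Dat) (h : Tp P) : tac D.dl D.z P = -P := by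
  obtain ⟨v, rfl⟩ := tp_iff.1 h
  rw [D.tgal, (hF D).2.2.2.1, Matrix.neg_mulVec, Matrix.one_mulVec, map_neg]

/-- good reduction -/
theorem Dat.tac_good (D : Dat) (hw : ¬ w.p ∣ 30 * D.n) (hg : g ∈ w.I) (h : Tp P) :
    tac D.dl g P = P := by
  obtain ⟨v, rfl⟩ := tp_iff.1 h
  rw [D.tac_I (fun e => hw (e.mul_left _)) hg, T2.gal,
    (a_TR w2 T2 w fun e => hw (e.mul_right _)).1 g hg, Matrix.one_mulVec]

theorem tac_EG (D : Dat) (hg : g ∈ w.D) (h : P ∈ EG w) : tac D.dl g P ∈ EG w := by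
  simpa using (EG w).add_mem (TLOC2.e1_tac a_E1G (δ := D.dl) hg h) h

/-! ### Points of order two -/

theorem two_pE : 2 • pE 2⁻¹ = 0 := by
  rw [← map_nsmul, pE_eq_zero]; simp

theorem two_pF : 2 • pF 2⁻¹ = 0 := by
  rw [← map_nsmul, pF_eq_zero]; simp

theorem val_smul_add {S : EO} (hS : 2 • S = 0) (a b : ZMod 2) :
    (a + b).val • S = a.val • S + b.val • S := by
  rcases LA.cases a with rfl | rfl <;> rcases LA.cases b with rfl | rfl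
  · simp
  · simp
  · simp
  · rw [show (1 + 1 : ZMod 2) = 0 from rfl, LC.v1, one_smul, ← two_nsmul, hS]; simp

theorem s2_add (a b a' b' : ZMod 2) : s2 (a + a') (b + b') = s2 a b + s2 a' b' := by
  simp only [s2, val_smul_add two_pE, val_smul_add two_pF]; abel

theorem s2_zero : s2 0 0 = 0 := by simp [s2]

theorem two_s2 (a b : ZMod 2) : 2 • s2 a b = 0 := by
  rw [s2, smul_add, smul_comm, two_pE, smul_comm, two_pF]; simp

theorem s2_eq (a b : ZMod 2) : s2 a b = pE (a.val / 2) + pF (b.val / 2) := by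
  simp only [s2, ← map_nsmul, nsmul_eq_mul, div_eq_mul_inv]

theorem BasL.half (a : ZMod 2) : ‖(a.val / 2 : ℚ_[2])‖ ≤ 1 ↔ a = 0 := by
  rcases LA.cases a with rfl | rfl
  · simp
  · rw [LC.half, LC.v1]; simp

theorem s2_eq_zero {a b : ZMod 2} : s2 a b = 0 ↔ a = 0 ∧ b = 0 := by
  rw [s2_eq, pEF_eq_zero, BasL.half, BasL.half]

theorem s2_inj {a b a' b' : ZMod 2} (h : s2 a b = s2 a' b') : a = a' ∧ b = b' := by
  have : s2 (a + a') (b + b') = 0 := by rw [s2_add, h, ← two_nsmul, two_s2]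
  have k : ∀ x y : ZMod 2, x + y = 0 → x = y := by decide
  exact (s2_eq_zero.1 this).imp (k _ _) (k _ _)

theorem s2_mem {a b : ZMod 2} : s2 a b ∈ EG w2 ↔ b = 0 := by rw [s2_eq, pEF_mem, BasL.half]

theorem exists_s2 (h : 2 • P = 0) : ∃ a b, P = s2 a b := by
  obtain ⟨x, y, rfl⟩ := tp_iff'.1 (⟨1, by simpa using h⟩ : Tp P)
  rw [smul_add, ← map_nsmul, ← map_nsmul, pEF_eq_zero] at h
  obtain ⟨a, ha⟩ := LC.ex h.1
  obtain ⟨b, hb⟩ := LC.ex h.2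
  have k : ∀ (z : ℚ_[2]) (s : ZMod 2), ‖2 • z - s.val‖ ≤ 2⁻¹ → ‖z - s.val / 2‖ ≤ 1 := fun z s e => by
    rw [show z - s.val / 2 = (2 • z - s.val) / 2 by rw [nsmul_eq_mul]; push_cast; ring, LC.half]
    linarith
  exact ⟨a, b, by rw [s2_eq, pE_congr (k _ _ ha), pF_congr (k _ _ hb)]⟩

/-- the coboundaries of the points of order four -/
theorem Dat.cb_four (D : Dat) (a b : ℤ) (g : GQ) :
    D.cb (pE (a / 4) + pF (b / 4)) g = s2 (a * qz D.n g) (b * qz (-D.n) g) := by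
  have h1 := T2.rd_four a_EC D.dl_sq (by have := D.n_pos; omega) g ![a / 4, b / 4]
  have h2 : ‖(![a / 4, b / 4] : V2)‖ ≤ 4 := LC.pi (ε := 4) (a := a / 4) (b := b / 4)
    (by rw [LC.four]; have := Padic.norm_int_le_one (p := 2) a; linarith)
    (by rw [LC.four]; have := Padic.norm_int_le_one (p := 2) b; linarith) rfl rfl
  have k : ∀ (m : ℤ) (s : ZMod 2),
      ‖(-1) ^ s.val * (m / 4 : ℚ_[2]) - m / 4 - ((m : ZMod 2) * s).val / 2‖ ≤ 1 := fun m s => by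
    rcases LA.cases s with rfl | rfl
    · simp
    · rw [mul_one, LC.v1, show (-1) ^ 1 * (m / 4 : ℚ_[2]) - m / 4 - (m : ZMod 2).val / 2 =
        ((-m - (m : ZMod 2).val : ℤ) : ℚ_[2]) / 2 by push_cast; ring, LC.half]
      have : ‖((-m - (m : ZMod 2).val : ℤ) : ℚ_[2])‖ ≤ 2⁻¹ := (LC.int2 _).2 (by
        have := ZMod.val_intCast (n := 2) m
        omega)
      linarith
  rw [Dat.cb, ← pt_pair, T2.tgal, T2.pt_eq.2 (h1.trans (by linarith)), pt_pair, pt_pair, s2_eq,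
    neg_neg, ← pE_congr (x := _ - _) (k a _), ← pF_congr (x := _ - _) (k b _), map_sub, map_sub]
  simp only [Matrix.cons_val_zero, Matrix.cons_val_one]
  abel

/-! ### Coboundaries -/

theorem Dat.cb_sub (D : Dat) (P Q : EO) (g : GQ) : D.cb (P - Q) g = D.cb P g - D.cb Q g := by
  simp only [Dat.cb, map_sub]; abel

theorem Dat.cb_nsmul (D : Dat) (m : ℕ) (P : EO) (g : GQ) : D.cb (m • P) g = m • D.cb P g := by
  simp only [Dat.cb, map_nsmul, smul_sub]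

theorem Dat.cb_zsmul (D : Dat) (m : ℤ) (P : EO) (g : GQ) : D.cb (m • P) g = m • D.cb P g := by
  simp only [Dat.cb, map_zsmul, smul_sub]

theorem Dat.cb_mul (D : Dat) (P : EO) (g h : GQ) :
    D.cb P (g * h) = D.cb P g + tac D.dl g (D.cb P h) := by
  simp only [Dat.cb, D.tmul, map_sub]; abel

theorem Dat.cb_two (D : Dat) (h : 2 • P = 0) (g : GQ) : D.cb P g = 0 := by
  rw [Dat.cb, D.tac_two g h, sub_self]

theorem Dat.sm_tac (D : Dat) (H : Subgroup GQ) (P : EO) : Sm H fun g => tac D.dl g P :=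
  (sm_sd D.dl).comp₂ (sm_ac P) fun s Q => s • Q

theorem Dat.sm_cb (D : Dat) (H : Subgroup GQ) (P : EO) : Sm H (D.cb P) :=
  (D.sm_tac H P).comp fun Q => Q - P

theorem Dat.cb_z (hF : F2X) (D : Dat) (h : Tp P) : D.cb P D.z = -(2 • P) := by
  rw [Dat.cb, D.tac_z hF h]; abel

theorem Dat.cb_EG (D : Dat) (hw : ¬ w.p ∣ 15) (hn : ¬ w.p ∣ D.n) (hg : g ∈ w.I) (P : EO) :
    D.cb P g ∈ EG w := by
  rw [Dat.cb, D.tac_I hn hg]
  exact (a_CONG w hw).2 g hg P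

theorem Dat.cb_EG2 (D : Dat) (hg : g ∈ w2.I) (P : EO) : D.cb P g ∈ EG w2 :=
  D.cb_EG (show ¬ 2 ∣ 15 by norm_num) D.not_two hg P

/-! ### Cocycles -/

theorem rs_of_mem (hg : g ∈ H) (c : GQ → EO) : rs H c g = c g := if_pos hg

theorem rs_of_not (hg : g ∉ H) (c : GQ → EO) : rs H c g = 0 := if_neg hg

theorem mem_ZH : c ∈ D.ZH H ↔ Sm H c ∧ (∀ g ∈ H, ∀ h ∈ H, c (g * h) = c g + tac D.dl g (c h)) ∧
    (∀ g, g ∉ H → c g = 0) ∧ ∃ i : ℕ, ∀ g, 2 ^ i • c g = 0 := Iff.rfl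

theorem rs_mem (h1 : Sm H c) (h2 : ∀ g ∈ H, ∀ h ∈ H, c (g * h) = c g + tac D.dl g (c h))
    (h3 : ∃ i : ℕ, ∀ g ∈ H, 2 ^ i • c g = 0) : rs H c ∈ D.ZH H := by
  refine ⟨h1.congr fun g hg => rs_of_mem hg c, fun g hg h hh => ?_, fun g hg => rs_of_not hg c,
    h3.imp fun i e g => ?_⟩
  · rw [rs_of_mem hg, rs_of_mem hh, rs_of_mem (mul_mem hg hh), h2 g hg h hh]
  · by_cases hg : g ∈ H
    · rw [rs_of_mem hg, e g hg]
    · rw [rs_of_not hg, smul_zero]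

theorem rs_mem_of_le (hc : c ∈ D.ZH H') (h : H ≤ H') : rs H c ∈ D.ZH H :=
  rs_mem (hc.1.mono h) (fun g hg k hk => hc.2.1 g (h hg) k (h hk))
    (hc.2.2.2.imp fun _ e g _ => e g)

theorem rs_cb_L (h : ∃ i : ℕ, ∀ g ∈ H, 2 ^ i • D.cb P g = 0) : rs H (D.cb P) ∈ D.LH H :=
  ⟨rs_mem (D.sm_cb H P) (fun g _ k _ => D.cb_mul P g k) h, P, fun _ hg => rs_of_mem hg _⟩

theorem rs_cb_B (h : Tp P) : rs H (D.cb P) ∈ D.BH H :=
  ⟨rs_mem (D.sm_cb H P) (fun g _ k _ => D.cb_mul P g k)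
    (h.imp fun i e g _ => by rw [← D.cb_nsmul, e, D.cb_zero]), P, h, fun _ hg => rs_of_mem hg _⟩

theorem BH_le_LH : D.BH H ≤ D.LH H := fun _ ⟨a, P, _, h⟩ => ⟨a, P, h⟩

theorem SH_mem_ZH (h : D.SH H c) : c ∈ D.ZH H := ⟨h.sm, h.co, h.off, h.tor⟩

theorem ZH_ext {c' : GQ → EO} (hc : c ∈ D.ZH H) (hc' : c' ∈ D.ZH H) (e : ∀ g ∈ H, c g = c' g) :
    c = c' := funext fun g => by
  by_cases hg : g ∈ H
  · exact e g hg
  · rw [hc.2.2.1 g hg, hc'.2.2.1 g hg]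

theorem ZH_tp (hc : c ∈ D.ZH H) (g : GQ) : Tp (c g) := hc.2.2.2.imp fun _ e => e g

theorem ZH_one (hc : c ∈ D.ZH H) : c 1 = 0 := by
  simpa [tac_one] using hc.2.1 1 H.one_mem 1 H.one_mem

theorem ZH_inv (hc : c ∈ D.ZH H) (hg : g ∈ H) : tac D.dl g (c g⁻¹) = -c g := by
  have := hc.2.1 g hg g⁻¹ (H.inv_mem hg)
  rw [mul_inv_cancel, ZH_one hc] at this
  exact eq_neg_of_add_eq_zero_right this.symm

theorem ZH_pow (hc : c ∈ D.ZH H) (hg : g ∈ H) (m : ℕ) :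
    c (g ^ m) = ∑ i ∈ Finset.range m, tac D.dl (g ^ i) (c g) := by
  induction m with
  | zero => simpa using ZH_one hc
  | succ m ih => rw [pow_succ, hc.2.1 _ (pow_mem hg m) g hg, ih, Finset.sum_range_succ]

theorem ZH_conj (hc : c ∈ D.ZH H) (hg : g ∈ H) (hh : h ∈ H) :
    c (g * h * g⁻¹) = tac D.dl g (c h) - D.cb (c g) (g * h * g⁻¹) := by
  rw [hc.2.1 _ (mul_mem hg hh) _ (inv_mem hg), hc.2.1 g hg h hh, Dat.cb,
    show g * h = g * h * g⁻¹ * g by group, D.tmul, ZH_inv hc hg, map_neg]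
  simp only [mul_assoc, inv_mul_cancel, mul_one]
  abel

/-- the real condition at one place gives it at all conjugate places -/
theorem ZH_re (hc : c ∈ D.ZH ⊤) (h : c t = D.cb P t) (s : GQ) :
    c (s * t * s⁻¹) = D.cb (tac D.dl s P - c s) (s * t * s⁻¹) := by
  rw [ZH_conj hc trivial trivial, h, D.cb_sub]
  simp only [Dat.cb, map_sub, ← D.tmul, inv_mul_cancel_right]

/-- the set where a cocycle takes its values in a stable subgroup -/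
def ZH_sub (hc : c ∈ D.ZH H) (A : AddSubgroup EO) (hA : ∀ g ∈ H, ∀ P ∈ A, tac D.dl g P ∈ A) :
    Subgroup GQ where
  carrier := {g | g ∈ H ∧ c g ∈ A}
  one_mem' := ⟨H.one_mem, by rw [ZH_one hc]; exact A.zero_mem⟩
  mul_mem' := fun {g h} a b => ⟨H.mul_mem a.1 b.1, by
    rw [hc.2.1 g a.1 h b.1]; exact A.add_mem a.2 (hA g a.1 _ b.2)⟩
  inv_mem' := fun {g} a => ⟨H.inv_mem a.1, by
    have := ZH_inv hc (H.inv_mem a.1)
    rw [inv_inv] at this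
    rw [← neg_mem_iff, ← this]
    exact hA _ (H.inv_mem a.1) _ a.2⟩

theorem ZH_ker (hc : c ∈ D.ZH H) : ∃ N, ON N ∧ ∀ g ∈ H, g ∈ N → c g = 0 := by
  obtain ⟨N, a, b⟩ := hc.1
  exact ⟨N, a, fun g hg hn => by rw [← one_mul g, b 1 H.one_mem g hg hn, ZH_one hc]⟩

/-- the decomposition group is generated by inertia and a Frobenius element -/
theorem D_le {U N : Subgroup GQ} (hN : ON N) (h1 : ∀ g ∈ w.D, g ∈ N → g ∈ U) (h2 : w.I ≤ U)
    (hφ : w.IsFrob 1 φ) (h3 : φ ∈ U) : w.D ≤ U := fun g hg => by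
  obtain ⟨f, ψ, -, -, fr, hf, -, e⟩ := a_FROB w w.D w.loc_D
  obtain rfl := hf rfl
  obtain ⟨m, i, hi, n, hn, rfl⟩ := e N hN g hg
  have : ψ ∈ U := by simpa using U.mul_mem h3 (h2 (hφ.inv_mul fr))
  exact U.mul_mem (U.mul_mem (U.pow_mem this m) (h2 hi.1)) (h1 n hn.2 hn.1)

/-- values in a stable subgroup -/
theorem ZH_D (hc : c ∈ D.ZH w.D) (A : AddSubgroup EO) (hA : ∀ g ∈ w.D, ∀ P ∈ A, tac D.dl g P ∈ A)
    (h2 : ∀ g ∈ w.I, c g ∈ A) (hφ : w.IsFrob 1 φ) (h3 : c φ ∈ A) (g : GQ) : c g ∈ A := by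
  by_cases hg : g ∈ w.D
  · obtain ⟨N, a, b⟩ := ZH_ker hc
    exact (D_le (U := ZH_sub hc A hA) a (fun g hg hn => ⟨hg, by rw [b g hg hn]; exact A.zero_mem⟩)
      (fun g hg => ⟨hg.1, h2 g hg⟩) hφ ⟨hφ.1, h3⟩ hg).2
  · rw [hc.2.2.1 g hg]; exact A.zero_mem

theorem ZH_D_zero (hc : c ∈ D.ZH w.D) (h2 : ∀ g ∈ w.I, c g = 0) (hφ : w.IsFrob 1 φ)
    (h3 : c φ = 0) : c = 0 :=
  funext fun g => ZH_D hc ⊥ (fun g _ P hP => by rw [AddSubgroup.mem_bot.1 hP, map_zero]; rfl)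
    h2 hφ h3 g

/-- a high power of every automorphism fixes the points of a given order -/
theorem Dat.exists_pow (D : Dat) (g : GQ) (i : ℕ) :
    ∃ k : ℕ, ∀ P : EO, 2 ^ i • P = 0 → tac D.dl (g ^ 2 ^ k) P = P := by
  obtain ⟨k, hk⟩ := (SelA.rd_pow T2 D.dl_fix g (ε := (2 ^ i)⁻¹) (by positivity)).exists
  refine ⟨k, fun P hP => ?_⟩
  obtain ⟨v, rfl⟩ := T2.surj P i hP
  rw [D.tgal, T2.pt_eq, ← Matrix.one_mulVec v, Matrix.mulVec_mulVec, mul_one, ← Matrix.sub_mulVec]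
  refine (LC.mv_le hk v).trans ?_
  rw [inv_mul_le_iff₀ (by positivity), mul_one]
  exact T2.pt_pow.1 hP

/-- an open normal subgroup fixes the points of a given order -/
theorem Dat.exists_ON (D : Dat) (i : ℕ) :
    ∃ N, ON N ∧ ∀ g ∈ N, ∀ P : EO, 2 ^ i • P = 0 → tac D.dl g P = P := by
  obtain ⟨N, a, b⟩ := LC.sm T2 D.dl one_pos (2 ^ i)
  refine ⟨N, a, fun g hg P hP => ?_⟩
  obtain ⟨v, rfl⟩ := T2.surj P i hP
  rw [D.tgal, T2.pt_eq]
  exact b g hg v (T2.pt_pow.1 hP)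

/-- cocycles with values in the points of order two -/
theorem ZH_two (hc : c ∈ D.ZH H) (h : ∀ g ∈ H, 2 • c g = 0) :
    ∃ a b : GQ → ZMod 2, IsCh H a ∧ IsCh H b ∧ ∀ g ∈ H, c g = s2 (a g) (b g) := by
  have : ∀ P : EO, ∃ q : ZMod 2 × ZMod 2, 2 • P = 0 → P = s2 q.1 q.2 := fun P => by
    by_cases e : 2 • P = 0
    · obtain ⟨a, b, e'⟩ := exists_s2 e
      exact ⟨(a, b), fun _ => e'⟩
    · exact ⟨0, fun e' => absurd e' e⟩
  choose q hq using this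
  have k : ∀ g ∈ H, ∀ g' ∈ H, (q (c (g * g'))).1 = (q (c g)).1 + (q (c g')).1 ∧
      (q (c (g * g'))).2 = (q (c g)).2 + (q (c g')).2 := fun g hg g' hg' => s2_inj (by
    rw [s2_add, ← hq _ (h g hg), ← hq _ (h g' hg'), ← hq _ (h _ (mul_mem hg hg')),
      hc.2.1 g hg g' hg', D.tac_two g (h g' hg')])
  exact ⟨fun g => (q (c g)).1, fun g => (q (c g)).2,
    ⟨hc.1.comp fun P => (q P).1, fun g hg g' hg' => (k g hg g' hg').1⟩,
    ⟨hc.1.comp fun P => (q P).2, fun g hg g' hg' => (k g hg g' hg').2⟩,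
    fun g hg => hq _ (h g hg)⟩

theorem rs_s2 {a b : GQ → ZMod 2} (ha : IsCh H a) (hb : IsCh H b) :
    rs H (fun g => s2 (a g) (b g)) ∈ D.ZH H :=
  rs_mem (ha.1.comp₂ hb.1 s2) (fun g hg k hk => by
    rw [ha.2 g hg k hk, hb.2 g hg k hk, s2_add, D.tac_two g (two_s2 _ _)])
    ⟨1, fun g _ => by simpa using two_s2 _ _⟩

theorem rs_top (c : GQ → EO) : rs ⊤ c = c := funext fun g => rs_of_mem (Subgroup.mem_top g) c

theorem exists_gn (h2 : w.p ≠ 2) : ∃ t, Gn w t := Pl.exists_gen a_TAME a_RES h2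

end Pool.Agent.P.MP_9c97e9_nt.KT
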