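import Pool.Agent.P.MP_9c97e9_nt.KT.IfC

/-! Basic facts on the Eisenstein series of weight one. -/

namespace Pool.Agent.P.MP_9c97e9_nt.KT.Cx

open MP_8b7eba_nt.Mod (M2 qq)
open MP_8b7eba_nt.BSD15 (saw saw_add_int saw_neg)
open MP_29cb78_nt.E (ee th0)
open PowerSeries Finset

theorem qq_eq_ee (z : ℂ) : qq z = ee z := rfl

theorem zc_add (M : ℕ) (a b : ℤ) : zc M (a + b) = zc M a * zc M b := by
  simp [zc, add_div, MP_8b7eba_nt.Mod.qq_add]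

theorem zc_zero (M : ℕ) : zc M 0 = 1 := by simp [zc, qq]

theorem zc_ne (M : ℕ) (a : ℤ) : zc M a ≠ 0 := MP_8b7eba_nt.Mod.qq_ne _

theorem zc_pow (M : ℕ) (a : ℤ) (n : ℕ) : zc M (a * n) = zc M a ^ n := by
  rw [zc, zc, ← MP_8b7eba_nt.Mod.qq_nat_mul]
  congr 1
  push_cast
  ring

theorem norm_zc (M : ℕ) (a : ℤ) : ‖zc M a‖ = 1 := by
  rw [zc, MP_8b7eba_nt.Mod.norm_qq, MP_8b7eba_nt.Mod.ex]
  simp

theorem zc_eq_one {M : ℕ} (hM : 0 < M) {a : ℤ} : zc M a = 1 ↔ (M : ℤ) ∣ a := by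
  have h : (M : ℂ) ≠ 0 := by exact_mod_cast hM.ne'
  rw [zc, qq_eq_ee, MP_29cb78_nt.E.Th.ee_eq_one]
  refine exists_congr fun n => ?_
  rw [div_eq_iff h, mul_comm]
  norm_cast

theorem zc_congr {M : ℕ} (hM : 0 < M) {a b : ℤ} (h : (M : ℤ) ∣ a - b) : zc M a = zc M b := by
  rw [← sub_add_cancel a b, zc_add, (zc_eq_one hM).2 h, one_mul]

theorem sw_congr {M : ℕ} (hM : 0 < M) {B B' : ℤ} (h : (15 * M : ℤ) ∣ B - B') :
    sw M B = sw M B' := by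
  obtain ⟨k, hk⟩ := h
  have h0 : (M : ℚ) ≠ 0 := by exact_mod_cast hM.ne'
  rw [sw, sw, ← saw_add_int (B' / (15 * M)) k, show B = B' + 15 * M * k by linear_combination hk]
  congr 1
  push_cast
  field_simp

theorem sw_neg (M : ℕ) (B : ℤ) : sw M (-B) = -sw M B := by
  rw [sw, sw, ← saw_neg, Int.cast_neg, neg_div]

theorem eS_congr {M : ℕ} (hM : 0 < M) {a a' B B' : ℤ} (ha : (M : ℤ) ∣ a - a')
    (h : (15 * M : ℤ) ∣ B - B') : eS M a B = eS M a' B' := by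
  ext m
  simp only [eS, coeff_mk]
  refine sum_congr rfl fun p _ => ?_
  rw [zc_congr hM (a := a * p.2) (b := a' * p.2) (by rw [← sub_mul]; exact ha.mul_right _)]
  refine if_congr ?_ rfl rfl
  rw [show p.1 - B' = p.1 - B + (B - B') by ring, dvd_add_left h]

theorem eC_congr {M : ℕ} (hM : 0 < M) {a a' B B' : ℤ} (ha : (M : ℤ) ∣ a - a')
    (h : (15 * M : ℤ) ∣ B - B') : eC M a B = eC M a' B' := by
  rw [eC, eC, sw_congr hM h, eS_congr hM ha h]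

theorem coeff_zero_eS (M : ℕ) (a B : ℤ) : coeff 0 (eS M a B) = 0 := by simp [eS]

theorem coeff_zero_eC (M : ℕ) (a B : ℤ) : coeff 0 (eC M a B) = sw M B := by
  rw [eC, map_add, coeff_zero_eS, coeff_zero_C, add_zero]

/-- the divisors of a positive integer with both signs -/
theorem sum_divisorsAntidiag {A : Type} [AddCommMonoid A] (m : ℕ) (f : ℤ × ℤ → A) :
    ∑ p ∈ (m : ℤ).divisorsAntidiag, f p =
      ∑ c ∈ m.divisors, (f (c, (m / c : ℕ)) + f (-c, -(m / c : ℕ))) := by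
  rw [Int.divisorsAntidiag_natCast, sum_disjUnion, sum_map, sum_map, ← sum_add_distrib,
    ← Nat.sum_divisorsAntidiagonal fun c d => f (c, d) + f (-c, -d)]
  rfl

theorem cop_B {M : ℕ} (hM : M.Coprime 15) {b β : ℤ} (hb : IsCoprime b 15) (hβ : IsCoprime β 15)
    (i : ℤ) : IsCoprime (15 * i + β * M * b) 15 :=
  ((hβ.mul_left (Nat.isCoprime_iff_coprime.2 hM)).mul_left hb).mul_add_left_left i

theorem not_dvd_of_cop {M : ℕ} {B : ℤ} (h : IsCoprime B 15) : ¬ (15 * M : ℤ) ∣ B := fun hd => by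
  have := h.isUnit_of_dvd' ((dvd_mul_right _ _).trans hd) dvd_rfl
  rw [Int.isUnit_iff] at this
  omega

theorem fract_div_ne {N : ℕ} (hN : 0 < N) {B : ℤ} (h : ¬ (N : ℤ) ∣ B) :
    Int.fract ((B : ℚ) / N) ≠ 0 := fun h0 => by
  obtain ⟨k, hk⟩ := Int.fract_eq_zero_iff.1 h0
  have h1 : (N : ℚ) ≠ 0 := by exact_mod_cast hN.ne'
  rw [eq_div_iff h1] at hk
  exact h ⟨k, by rw [mul_comm]; exact_mod_cast hk.symm⟩

theorem nz_of_not_dvd {M : ℕ} (hM : 0 < M) {B : ℤ} (h : ¬ (15 * M : ℤ) ∣ B) (y : ℚ) :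
    NZ (B / (15 * M)) y :=
  Or.inl (by simpa using fract_div_ne (N := 15 * M) (by omega) (B := B) (by simpa using h))

theorem nz_iff {x₁ x₂ : ℚ} : NZ x₁ x₂ ↔ ∀ m n : ℤ, x₁ = m → x₂ ≠ n := by
  rw [NZ, ← not_and_or, Int.fract_eq_zero_iff, Int.fract_eq_zero_iff]
  constructor
  · intro h m n h1 h2
    exact h ⟨⟨m, h1.symm⟩, n, h2.symm⟩
  · rintro h ⟨⟨m, h1⟩, n, h2⟩
    exact h m n h1.symm h2.symm

theorem NZ.add_int {x₁ x₂ : ℚ} (h : NZ x₁ x₂) (m n : ℤ) : NZ (x₁ + m) (x₂ + n) := by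
  simpa only [NZ, Int.fract_add_intCast] using h

theorem NZ.act {x₁ x₂ : ℚ} (h : NZ x₁ x₂) {g : M2} (hg : g.det = 1) :
    NZ (x₁ * g.a + x₂ * g.c) (x₁ * g.b + x₂ * g.d) := by
  rw [nz_iff] at h ⊢
  intro m n h1 h2
  have hd : (g.a : ℚ) * g.d - g.b * g.c = 1 := by exact_mod_cast hg
  refine h (m * g.d - n * g.c) (n * g.a - m * g.b) ?_ ?_ <;> push_cast
  · linear_combination g.d * h1 - g.c * h2 - x₁ * hd
  · linear_combination g.a * h2 - g.b * h1 - x₂ * hd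

theorem NZ.th0_ne {x₁ x₂ : ℚ} (h : NZ x₁ x₂) {τ : ℂ} (hτ : 0 < τ.im) :
    th0 (x₁ * τ + x₂) τ ≠ 0 := by
  rw [Ne, MP_29cb78_nt.E.Th.th0_eq_zero hτ]
  rintro ⟨j, k, e⟩
  have h1 : (x₁ : ℝ) = k := mul_right_cancel₀ hτ.ne' (by simpa using congrArg Complex.im e)
  have h2 : x₁ = k := by exact_mod_cast h1
  refine nz_iff.1 h k j h2 ?_
  rw [h2] at e
  have : (x₂ : ℂ) = j := by
    push_cast at e
    linear_combination e
  exact_mod_cast this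

theorem vth_diff {τ : ℂ} (h : 0 < τ.im) : Differentiable ℂ fun u => vth u τ := by
  have := MP_29cb78_nt.E.Th.th0_diff h
  unfold vth
  fun_prop

theorem vth_ne {w τ : ℂ} (h : th0 w τ ≠ 0) : vth w τ ≠ 0 :=
  mul_ne_zero (MP_29cb78_nt.E.Th.ee_ne _) h

theorem un_eq_iff {R : Type} [Monoid R] {a : R} (h : IsUnit a) {δ : Rˣ} : un a = δ ↔ a = δ := by
  rw [un, dif_pos h, Units.ext_iff, IsUnit.unit_spec]

open Classical in
theorem mem_sI {M : ℕ} (hM : 0 < M) {δ : (ZMod M)ˣ} {i : ℕ × (ℕ × ℕ) × ℕ × ℕ} :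
    i ∈ (Ix M).filter (fun i => dI M i = δ) ↔
      (i.1 < 15 ∧ (i.2.1.1 < M ∧ i.2.1.2 < M) ∧ i.2.2.1 < M ∧ i.2.2.2 < M) ∧ i.1.Coprime 15 ∧
        (i.2.1.1 : ZMod M) * i.2.2.2 - i.2.1.2 * i.2.2.1 = δ := by
  have : NeZero M := ⟨hM.ne'⟩
  have e : IsCoprime ((i.2.1.1 : ℤ) * i.2.2.2 - i.2.1.2 * i.2.2.1) M ↔
      IsUnit ((i.2.1.1 : ZMod M) * i.2.2.2 - i.2.1.2 * i.2.2.1) := by
    rw [isCoprime_comm, ← ZMod.coe_int_isUnit_iff_isCoprime]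
    push_cast
    rfl
  simp only [Ix, dI, mem_filter, mem_product, mem_range, e, and_assoc, and_congr_right_iff]
  intro _ _ _ _ _ _
  exact ⟨fun h => (un_eq_iff h.1).1 h.2, fun h =>
    ⟨h ▸ δ.isUnit, (un_eq_iff (h ▸ δ.isUnit)).2 h⟩⟩

/-- the properties of the indices -/
theorem sI_congr {A : Type} [AddCommMonoid A] {M : ℕ} (hM : 0 < M) {δ : (ZMod M)ˣ}
    {Φ Ψ : ℤ → ℤ → ℤ → ℤ → ℤ → A} (h : ∀ b i₁ i₂ j₁ j₂, IsCoprime b 15 →
      IsCoprime (i₁ * j₂ - i₂ * j₁) (M : ℤ) → Φ b i₁ i₂ j₁ j₂ = Ψ b i₁ i₂ j₁ j₂) :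
    sI M δ Φ = sI M δ Ψ := by
  refine sum_congr rfl fun i hi => ?_
  have := (mem_filter.1 (mem_filter.1 hi).1).2
  exact h _ _ _ _ _ (Nat.isCoprime_iff_coprime.2 this.1) this.2

open Classical in
/-- the sum over the indices as a sum over residue classes -/
theorem sI_eq {A : Type} [AddCommMonoid A] (M : ℕ) [NeZero M] (δ : (ZMod M)ˣ)
    (Φ : ℤ → ℤ → ℤ → ℤ → ℤ → A) : sI M δ Φ =
      ∑ p : ZMod 15 × (ZMod M × ZMod M) × ZMod M × ZMod M with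
        IsUnit p.1 ∧ p.2.1.1 * p.2.2.2 - p.2.1.2 * p.2.2.1 = (δ : ZMod M),
        Φ p.1.val p.2.1.1.val p.2.1.2.val p.2.2.1.val p.2.2.2.val := by
  have hM := NeZero.pos M
  symm
  refine sum_nbij' (fun p => (p.1.val, (p.2.1.1.val, p.2.1.2.val), p.2.2.1.val, p.2.2.2.val))
    (fun i => (i.1, (i.2.1.1, i.2.1.2), i.2.2.1, i.2.2.2)) (fun p hp => ?_) (fun i hi => ?_)
    (fun p _ => by simp) (fun i hi => ?_) fun p _ => rfl
  · rw [mem_filter] at hp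
    rw [mem_sI hM]
    refine ⟨⟨ZMod.val_lt p.1, ⟨ZMod.val_lt _, ZMod.val_lt _⟩, ZMod.val_lt _, ZMod.val_lt _⟩, ?_,
      by simpa using hp.2.2⟩
    rw [← ZMod.isUnit_iff_coprime]
    simpa using hp.2.1
  · rw [mem_sI hM] at hi
    exact mem_filter.2 ⟨mem_univ _, (ZMod.isUnit_iff_coprime _ _).2 hi.2.1, hi.2.2⟩
  · rw [mem_sI hM] at hi
    obtain ⟨⟨h0, ⟨h1, h2⟩, h3, h4⟩, -⟩ := hi
    simp only [ZMod.val_cast_of_lt, h0, h1, h2, h3, h4]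

end Pool.Agent.P.MP_9c97e9_nt.KT.Cx
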