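import Pool.Agent.P.MP_9c97e9_nt.KT.DefsEB

/-! The steps of the explicit reciprocity law. -/

namespace Pool.Agent.P.MP_9c97e9_nt.KT

open scoped NNReal Matrix
open MP_8b7eba_nt.R2
open MP_8b7eba_nt.Mod (xx yy an)
open Finset

/-- the trace on the closure -/
def TCX : Prop :=
  ∀ H, w2.Loc H → IsClosed (ClF H) ∧ (∀ x, Fix H x → i2 x ∈ ClF H ∧ trc H (i2 x) = trq H x) ∧
    (∀ c : ℚ_[2], algebraMap ℚ_[2] ℂ_[2] c ∈ ClF H) ∧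
    (∀ y ∈ ClF H, (∀ x, Fix H x → ‖trq H x - trc H y‖ ≤ ‖i2 x - y‖) ∧ ‖trc H y‖ ≤ ‖y‖ ∧
      (∀ y' ∈ ClF H, y + y' ∈ ClF H ∧ y - y' ∈ ClF H ∧ y * y' ∈ ClF H ∧
        trc H (y + y') = trc H y + trc H y' ∧ trc H (y - y') = trc H y - trc H y') ∧
      (∀ c : ℚ_[2], trc H (algebraMap ℚ_[2] ℂ_[2] c * y) = c * trc H y) ∧
      (∀ m : ℕ, y ^ m ∈ ClF H) ∧ ∀ H' ≤ H, y ∈ ClF H') ∧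
    ∀ (ι : Type) (s : Finset ι) (f : ι → ℂ_[2]), (∀ i ∈ s, f i ∈ ClF H) →
      ∑ i ∈ s, f i ∈ ClF H ∧ trc H (∑ i ∈ s, f i) = ∑ i ∈ s, trc H (f i)

/-- roots of unity -/
def ZMX : Prop :=
  (∀ M : ℕ, M ≠ 0 → IsPrimitiveRoot (zM M 1) M ∧ (∀ a : ℤ, zM M a = zM M 1 ^ a ∧ w2.v (zM M a) = 1) ∧
    (∀ l : ℕ, l ≠ 0 → ∀ a, zM (M * l) a ^ M = zM l a) ∧
    (∀ g : GQ, cy M g = 1 ↔ g (zM M 1) = zM M 1) ∧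
    (∀ (N : ℕ) (g : GQ), N ≠ 0 → (cy (M * N) g = 1 → cy M g = 1 ∧ cy N g = 1) ∧
      (M.Coprime N → cy M g = 1 → cy N g = 1 → cy (M * N) g = 1)) ∧
    (∀ δ, w2.v (SSd M δ) ≤ 1 ∧ ∀ g : GQ, cy M g = 1 → g (SSd M δ) = SSd M δ) ∧
    ∀ z : Om, z ^ M = 1 → w2.v (z - 1) < 2⁻¹ → z = 1) ∧
  (∀ K n : ℕ, 0 < K → Odd n → ∃ κ : ℤ, Odd κ ∧ zM (2 ^ K * n) 1 ^ n = ec (κ / 2 ^ K) ^ n) ∧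
  (∀ K : ℕ, IsPrimitiveRoot (ec (2 ^ K)⁻¹) (2 ^ K) ∧
    ∀ g : GQ, cy (2 ^ K) g = 1 ↔ g (ec (2 ^ K)⁻¹) = ec (2 ^ K)⁻¹) ∧
  ∀ k, LH (HC2 k) (k + 2) ∧ ∀ η, ∃ g ∈ w2.D, cy (2 ^ (k + 2)) g = η

/-- the formal logarithm -/
def LAMF : Prop :=
  (∀ H, w2.Loc H → ∀ q ∈ ClF H, ‖q‖ < 1 → lamf q ∈ ClF H) ∧
  (∀ ρ ε : ℝ, ρ < 1 → 0 < ε → ∃ (Y₀ : ℕ) (η : ℝ), 0 < η ∧ ∀ Y, Y₀ ≤ Y → ∀ (q : ℂ_[2]) (x : Om),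
    ‖q‖ ≤ ρ → ‖i2 x‖ ≤ ρ → ‖i2 x - q‖ ≤ η →
      ‖i2 (∑ m ∈ Icc 1 Y, (an m : Om) * x ^ m / m) - lamf q‖ ≤ ε) ∧
  ∀ (l : ℕ) (Q : ℂ_[2]), l.Prime → ¬ l ∣ 15 → ‖Q‖ < 1 →
    lamf ((Q ^ l) ^ l) + ∑ s ∈ range l, lamf (i2 (zM l s) * Q) = an l * lamf (Q ^ l)

/-- algebraic approximations of roots -/
def APX : Prop :=
  (∀ (H : Subgroup GQ) (M : ℕ) (T : ℂ_[2]) (η : ℝ), M ≠ 0 → T ≠ 0 → 0 < η → T ^ M ∈ ClF H →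
    ∃ t : Om, Fix H (t ^ M) ∧ ‖i2 t - T‖ ≤ η * ‖T‖) ∧
  (∀ (H : Subgroup GQ) (l : ℕ) (y : ℂ_[2]), w2.Loc H → Odd l → y ≠ 0 → y ^ l ∈ ClF H →
    ∃ H', w2.Loc H' ∧ H' ≤ H ∧ H'.relIndex H ≤ l ∧ y ∈ ClF H') ∧
  ∀ (q : ℂ_[2]) (m : ℕ), m ≠ 0 → ∃ t, t ^ m = q

/-- the values of the units are limits of finite products -/
def PRD : Prop :=
  ∀ (M : ℕ) (b i₁ i₂ : ℤ), M ≠ 0 → M.Coprime 15 → IsCoprime b 15 → ∃ e : ℤ,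
    (M : ℤ) ∣ e - 15 * i₁ * JJ M b i₁ ∧ ∀ (T : ℂ_[2]) (u : Om), T ≠ 0 → ‖T‖ < 1 →
      V2a M (uf b (i₁ / M) (i₂ / M)) T (i2 u) → ∀ η : ℝ≥0, 0 < η → η < 1 → ∃ L₀, ∀ L, L₀ ≤ L →
        ∀ t : Om, ‖i2 t - T‖ ≤ η * ‖T‖ → w2.v (u / piO M b i₁ i₂ e L t - 1) ≤ η

/-- translation -/
def TRL : Prop :=
  ∀ (M : ℕ) (b i₁ i₂ i₂' j : ℤ) (T v : ℂ_[2]), M ≠ 0 → M.Coprime 15 → IsCoprime b 15 → ‖T‖ < 1 →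
    (M : ℤ) ∣ i₂' - (i₂ + 15 * i₁ * j) → V2a M (uf b (i₁ / M) (i₂' / M)) T v →
    V2a M (uf b (i₁ / M) (i₂ / M)) (i2 (zM M j) * T) v

/-- the finite products in the form of the symbol formula -/
def PFX : Prop :=
  ∀ (M k X L : ℕ) (b i₁ i₂ e : ℤ) (t u : Om), M ≠ 0 → M.Coprime 15 → IsCoprime b 15 → 2 ^ k ∣ M →
    (M : ℤ) ∣ e - 15 * i₁ * JJ M b i₁ → X < L →
    w2.v (u / piO M b i₁ i₂ e L t - 1) ≤ (2 ^ (k + 2))⁻¹ →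
    PF k X (zM M 1) t u i₂ (15 * i₁) (JJ M b i₁) (EE M b i₁ i₂)

/-- conjugates of the truncated integrals -/
def EEX : Prop :=
  ∀ (M X : ℕ) (b i₁ i₂ i₂' b' j₁ j₂ j₂' j : ℤ) (σ : GQ) (t : Om), M ≠ 0 → cy M σ = 1 →
    σ t = zM M j * t → (M : ℤ) ∣ i₂' - (i₂ + 15 * i₁ * j) → (M : ℤ) ∣ j₂' - (j₂ + 15 * j₁ * j) →
    σ (Iv X (EE M b i₁ i₂ * EE M b' j₁ j₂) t) = Iv X (EE M b i₁ i₂' * EE M b' j₁ j₂') t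

/-- conjugates of the values -/
def EQV : Prop :=
  ∀ (H : Subgroup GQ) (M : ℕ) (T : ℂ_[2]) (U : ℤ → ℤ → ℤ → Om) (t : Om), H ≤ w2.D → M ≠ 0 →
    M.Coprime 15 → (∀ g ∈ H, cy M g = 1) → T ≠ 0 → ‖T‖ < 1 → T ^ M ∈ ClF H → UV M T U →
    Fix H (t ^ M) → ‖i2 t - T‖ ≤ 4⁻¹ * ‖T‖ → ∀ σ ∈ H, ∀ j : ℤ, σ t = zM M j * t →
    ∀ b i₁ i₂ i₂' : ℤ, IsCoprime b 15 → (M : ℤ) ∣ i₂' - (i₂ + 15 * i₁ * j) →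
      σ (U b i₁ i₂) = U b i₁ i₂'

/-- the action on the indices -/
def SHX : Prop :=
  ∀ M : ℕ, M ≠ 0 → M.Coprime 15 →
    (∀ i ∈ Ix M, IsCoprime (i.1 : ℤ) 15 ∧ IsCoprime (2 * i.1 : ℤ) 15 ∧
      (M : ℤ) ∣ (dI M i : ZMod M).val - ((i.2.1.1 : ℤ) * i.2.2.2 - i.2.1.2 * i.2.2.1)) ∧
    ∀ (H : Subgroup GQ) (t : Om), (∀ g ∈ H, cy M g = 1) → t ≠ 0 → Fix H (t ^ M) →
      ∃ (j : GQ → ℤ) (a : GQ → Ix M → Ix M), (Act H a fun _ => H ⊓ MulAction.stabilizer GQ t) ∧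
        ∀ σ ∈ H, σ t = zM M (j σ) * t ∧ ∀ i, (a σ i).1.1 = i.1.1 ∧ (a σ i).1.2.1.1 = i.1.2.1.1 ∧
          (a σ i).1.2.2.1 = i.1.2.2.1 ∧
          (M : ℤ) ∣ (a σ i).1.2.1.2 - (i.1.2.1.2 + 15 * i.1.2.1.1 * j σ) ∧
          (M : ℤ) ∣ (a σ i).1.2.2.2 - (i.1.2.2.2 + 15 * i.1.2.2.1 * j σ) ∧ dI M (a σ i) = dI M i

/-- the symbols of the values -/
def CORA : Prop :=
  ∀ H k K n M κ (T : ℂ_[2]) U, Cv H k K n M κ → T ≠ 0 → ‖T‖ < 1 → T ^ M ∈ ClF H → UV M T U →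
    ∀ (X₀ : ℕ) (η : ℝ), 0 < η → ∃ (X : ℕ) (t : Om) (S : Subgroup GQ) (a : GQ → Ix M → Ix M),
      X₀ ≤ X ∧ Fix H (t ^ M) ∧ ‖i2 t‖ = ‖T‖ ∧ ‖i2 t - T‖ ≤ η ∧ w2.Loc S ∧ S ≤ H ∧
      (Act H a fun _ => S) ∧
      (Eqi H a fun i => uX U i) ∧ (Eqi H a fun i => vX U i) ∧
      (Eqi H a fun i => Iv X (EPr M i) t) ∧
      (∀ g ∈ H, ∀ i, dI M (a g i) = dI M i ∧ JPr M (a g i) = JPr M i) ∧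
      ‖LNm S t‖ ≤ (2 ^ K)⁻¹ ∧ ∀ i ∈ Ix M, uX U i ≠ 0 ∧ vX U i ≠ 0 ∧
        ‖trq S (Iv X (EPr M i) t)‖ ≤ (2 ^ K)⁻¹ ∧ sy S k (uX U i) (vX U i) =
          ec (15 * κ * (dI M i : ZMod M).val * (trq S (Iv X (EPr M i) t) - JPr M i * LNm S t) /
            2 ^ (K + k))

/-- the invariant of the sum of the symbols -/
def CORE : Prop :=
  ∀ H k K n M κ (T : ℂ_[2]) U, Cv H k K n M κ → T ≠ 0 → ‖T‖ < 1 → T ^ M ∈ ClF H → UV M T U →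
    (CO H k M).Inv (EU M U) ∧ ∀ δ, (rv H k fun g h => ((CO H k M).can (EU M U)).f g h δ) =
      ec (240 * κ * trc H (i2 (SSd M δ) * lamf (T ^ M)) / 2 ^ (K + k))

/-- the invariant of the cuspidal symbols -/
def EPV : Prop :=
  ∀ H k K n M κ (l : ℕ) (t : ℂ_[2]) (x y : Om), Cv H k K n M κ → l.Prime → ¬ l ∣ 15 →
    (∀ g ∈ H, cy l g = 1) → t ≠ 0 → ‖t‖ < 1 → t ^ M ∈ ClF H → V2a (M * l) xx t (i2 x) →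
    V2a (M * l) yy t (i2 y) → ∃ τ, Alg τ x y ∧ ∀ δ, Co0 H (fv τ H k l M δ) ∧
      rv H k (fv τ H k l M δ) =
        ec (240 * κ * (an l - l - 1) * trc H (i2 (SSd M δ) * lamf (t ^ (M * l))) / 2 ^ (K + k))

/-- reduction of 2-adic integers -/
def ZQE : Prop :=
  ∀ k : ℕ, (∀ x y : ℚ_[2], ‖x‖ ≤ 1 → ‖y‖ ≤ 1 → zq k (x + y) = zq k x + zq k y ∧
      zq k (x - y) = zq k x - zq k y ∧ zq k (x * y) = zq k x * zq k y ∧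
      (zq k x = zq k y ↔ ‖x - y‖ ≤ (2 ^ k)⁻¹)) ∧ (∀ n : ℤ, zq k n = n) ∧
    (∀ x : ℚ_[2], ‖x‖ ≤ 1 → ec (x / 2 ^ k) = ec ((zq k x).val / 2 ^ k)) ∧
    (∀ u v : V2, ‖dt u v‖ ≤ ‖u‖ * ‖v‖) ∧
    ∀ δ : Om, Fix ⊤ (δ ^ 2) → (∀ g (v : V2), ‖T2.rd δ g *ᵥ v‖ ≤ ‖v‖) ∧
      (∀ g h, T2.rd δ (g * h) = T2.rd δ g * T2.rd δ h) ∧
      (∀ g (u v : V2), dt (T2.rd δ g *ᵥ u) (T2.rd δ g *ᵥ v) = cq g * dt u v) ∧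
      ∃ N, ON N ∧ ∀ n ∈ N, ∀ v : V2, ‖v‖ ≤ 1 → ‖T2.rd δ n *ᵥ v - v‖ ≤ (2 ^ k)⁻¹

/-- cup products -/
def CUPB : Prop :=
  ∀ (δ : Om) H k, Fix ⊤ (δ ^ 2) → LH H k →
    (∀ a b, T2.Zc δ H k a → T2.Zc δ H k b → Co0 H (cpr δ k a b) ∧
      ∀ (a' b' : GQ → V2) (m n : V2), ‖m‖ ≤ 1 → ‖n‖ ≤ 1 →
        (∀ g ∈ H, ‖a' g - a g - T2.bd δ m g‖ ≤ (2 ^ k)⁻¹) →
        (∀ g ∈ H, ‖b' g - b g - T2.bd δ n g‖ ≤ (2 ^ k)⁻¹) →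
        T2.Zc δ H k a' ∧ T2.Zc δ H k b' ∧ rv H k (cpr δ k a' b') = rv H k (cpr δ k a b)) ∧
    ∀ (ι : Type) (s : Finset ι) (c : ι → ℤ) (a : ι → GQ → V2) (b : GQ → V2),
      (∀ i ∈ s, T2.Zc δ H k (a i)) → T2.Zc δ H k b →
      (T2.Zc δ H k fun g => ∑ i ∈ s, (c i : ℚ_[2]) • a i g) ∧
      rv H k (cpr δ k (fun g => ∑ i ∈ s, (c i : ℚ_[2]) • a i g) b) =
        ∏ i ∈ s, rv H k (cpr δ k (a i) b) ^ c i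

/-- the twisted zeta cocycle -/
def TWE : Prop :=
  ∀ (D : Dat) (l k : ℕ) zt m, ZT l k _ zt → (∀ ε, ‖m ε‖ ≤ 1) → D.ZC k (D.xG k zt m) ∧
    ∀ W : (ZMod (2 ^ (k + 2)))ˣ → ℤ, ∀ g ∈ HC2 k, ∑ ε, (W ε : ℚ_[2]) • D.xG k zt m g ε =
      (∑ᶠ δ, ((2 * D.cW k W δ : ℤ) : ℚ_[2]) • zt g δ) +
        T2.bd D.dl (∑ ε, (W ε : ℚ_[2]) • m ε) g

/-- the weighted cup product is induced -/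
def WCP : Prop :=
  ∀ (D : Dat) (k : ℕ) (x y z : GQ → (ZMod (2 ^ (k + 2)))ˣ → V2) (W : (ZMod (2 ^ (k + 2)))ˣ → ℤ),
    D.ZC k x → D.ZC k y → (∀ g ε, ‖z g ε - x g ε‖ ≤ (2 ^ k)⁻¹) →
    (T2.Zc D.dl (HC2 k) k fun g => ∑ ε, (W ε : ℚ_[2]) • x g ε) ∧
    (T2.Zc D.dl (HC2 k) k fun g => y g 1) ∧ nv w2 w2.D (D.wcup k z y W) =
      rv (HC2 k) k (cpr D.dl k (fun g => ∑ ε, (W ε : ℚ_[2]) • x g ε) fun g => y g 1)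

/-- the zeta cocycle compares two points -/
def ZTW : Prop :=
  ∀ (l k M : ℕ) zt H τ τ' s s' (β : Om) δ, ZT l k M zt → LH H k → M ≠ 0 → 2 ^ k ∣ M →
    (∀ g ∈ H, cy M g = 1) → Fix H β → Sec τ H s → Sec τ' H s' → Co0 H (fv τ H k l M δ) →
    Co0 H (fv τ' H k l M δ) → (T2.Zc β H k fun g => zt g δ) ∧
      rv H k (cpr β k (fun g => zt g δ) fun h => uN k (s' h) - uN k (s h)) =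
        rv H k (fv τ' H k l M δ) / rv H k (fv τ H k l M δ)

/-- the parameters of the local points -/
def PNA : Prop :=
  ∀ (D : Dat) (l k : ℕ) (ε : ℝ), l.Prime → ¬ l ∣ 30 * D.n → 0 < ε →
    ∃ (H : Subgroup GQ) (x y : ℤ → Om) (t : ℤ → ℂ_[2]), D.Pts k H x y ∧
      H.relIndex (HC2 k) ≤ D.n * l * l * l ∧
      (∀ g ∈ H, cy (2 ^ (k + 2) * D.n) g = 1 ∧ cy l g = 1) ∧
      ∀ s : ℤ, s = 1 ∨ s = -1 → t s ≠ 0 ∧ ‖t s‖ < 1 ∧ t s ^ (2 ^ (k + 2) * D.n) ∈ ClF H ∧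
        V2a (2 ^ (k + 2) * D.n * l) xx (t s) (i2 (x s)) ∧
        V2a (2 ^ (k + 2) * D.n * l) yy (t s) (i2 (y s)) ∧
        ‖lamf (t s ^ (2 ^ (k + 2) * D.n * l)) -
          s * i2 D.dl * muP D.al (k + 2) (i2 (ec (2 ^ (k + 2))⁻¹))‖ ≤ ε

/-- the Kummer cocycle of the local points -/
def PNB : Prop :=
  ∀ (D : Dat) (k : ℕ) H x y τ τ' s s', D.Pts k H x y → Alg τ (x (-1)) (y (-1)) →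
    Alg τ' (x 1) (y 1) → Sec τ H s → Sec τ' H s' → ∃ Y v, D.LY k Y ∧ ‖v‖ ≤ 1 ∧ ∀ h ∈ H,
      ‖uN k (s' h) - uN k (s h) - Y h 1 - T2.bd D.dl v h‖ ≤ (2 ^ k)⁻¹

/-- the sum of the traces -/
def FINX : Prop :=
  ∀ (D : Dat) (k : ℕ) (W : (ZMod (2 ^ (k + 2)))ˣ → ℤ) H (ζ : Om) (a b : ℂ_[2]) (ε : ℝ), w2.Loc H →
    (∀ g ∈ H, cy (2 ^ (k + 2) * D.n) g = 1) → Fix H D.dl → Fix H ζ → a ∈ ClF H → b ∈ ClF H →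
    ‖a - i2 D.dl * muP D.al (k + 2) (i2 ζ)‖ ≤ ε → ‖b + i2 D.dl * muP D.al (k + 2) (i2 ζ)‖ ≤ ε →
    ‖algebraMap ℚ_[2] ℂ_[2] (∑ᶠ δ, (D.cW k W δ : ℚ_[2]) *
        (trc H (i2 (SSd _ δ) * a) - trc H (i2 (SSd _ δ) * b))) -
      2 * csum w2.D H fun g => i2 (g (D.XW k W * D.dl)) * muP D.al (k + 2) (i2 (g ζ))‖ ≤ ε

/-- the invariant on the small group -/
def RVH : Prop :=
  ∀ (D : Dat) (l k : ℕ) zt m H τ τ' s s' (z Y : GQ → (ZMod (2 ^ (k + 2)))ˣ → V2) (v : V2)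
    (W : (ZMod (2 ^ (k + 2)))ˣ → ℤ) (r r' : (ZMod (2 ^ (k + 2) * D.n))ˣ → ℚ_[2]),
    ZT l k _ zt → (∀ ε, ‖m ε‖ ≤ 1) → (∀ g ε, ‖z g ε - D.xG k zt m g ε‖ ≤ (2 ^ k)⁻¹) → D.LY k Y →
    w2.Loc H → H ≤ HC2 k → Fix H D.dl → (∀ g ∈ H, cy (2 ^ (k + 2) * D.n) g = 1) →
    Sec τ H s → Sec τ' H s' → ‖v‖ ≤ 1 →
    (∀ h ∈ H, ‖uN k (s' h) - uN k (s h) - Y h 1 - T2.bd D.dl v h‖ ≤ (2 ^ k)⁻¹) →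
    (∀ δ, Co0 H (fv τ H k l _ δ) ∧ rv H k (fv τ H k l _ δ) = ec (r δ)) →
    (∀ δ, Co0 H (fv τ' H k l _ δ) ∧ rv H k (fv τ' H k l _ δ) = ec (r' δ)) →
    nv w2 w2.D (D.wcup k z Y W) ^ H.relIndex (HC2 k) =
      ec (∑ᶠ δ, 2 * (D.cW k W δ : ℚ_[2]) * (r' δ - r δ))

end Pool.Agent.P.MP_9c97e9_nt.KT
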