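import Pool.Agent.P.MP_9c97e9_nt.KT.IfX

/-! The statements on local points and on the trace computation. -/

namespace Pool.Agent.P.MP_9c97e9_nt.KT

open scoped NNReal Matrix
open MP_8b7eba_nt.R2
open MP_8b7eba_nt.Mod (xx yy nM an)
open MP_8b7eba_nt.R1 (Zb QE y1 zs)
open Polynomial Finset

noncomputable section

/-- the truncated logarithm -/
def lT (T : ℕ) : Om[X] := ∑ m ∈ range T, monomial m ((an m : Om) / m)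

/-- the coefficients below `T` are integral -/
def PIt (T : ℕ) (F : Om[X]) : Prop := ∀ m < T, w2.v (F.coeff m) ≤ 1

/-- all coefficients are integral -/
def PAl (F : Om[X]) : Prop := ∀ m, w2.v (F.coeff m) ≤ 1

/-- the Frobenius lift -/
def phF (σ : GQ) (F : Om[X]) : Om[X] := (F.map (σ : Om →+* Om)).comp ((1 + X) ^ 2 - 1)

/-- the operator of Honda -/
def ThH (σ : GQ) (F : Om[X]) : Om[X] := F + C 2⁻¹ * phF σ F + C 2⁻¹ * phF σ (phF σ F)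

/-- the prescribed logarithm -/
def l1 (α : Om) (J : ℕ) : Om[X] :=
  C ((α / 2) ^ J) * ((1 + X) ^ 2 ^ J - 1) +
    C (1 - α) * ∑ j ∈ range J, C ((α / 2) ^ j) * ((1 + X) ^ 2 ^ j - 1)

/-- partial sums of twisted modular symbols -/
def YY (n i : ℕ) (c : ℤ) : ℤ :=
  ∑ ν ∈ range (n * 2 ^ i), if (2 ^ i : ℤ) ∣ ν - c then jacobiSym ν n * nM ν (n * 2 ^ i : ℕ) else 0

/-- the normalised trace of a root of unity -/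
def tq (K : ℕ) (y : ℤ) : ℚ_[2] :=
  (if (2 ^ K : ℤ) ∣ y then 1 else 0) - if (2 ^ (K - 1) : ℤ) ∣ y then 2⁻¹ else 0

end

/-- the unit root is algebraic -/
def ALO : Prop :=
  ∃ a : Om, a ^ 2 + a + 2 = 0 ∧ w2.v a = 1 ∧ i2 a = algebraMap ℚ_[2] ℂ_[2] al0 ∧ Fix w2.D a

/-- formal inversion -/
def FINV : Prop :=
  ∀ L : Om[X], L.coeff 0 = 0 → L.coeff 1 = 1 →
    (∀ (r : ℕ) (G G' : Om[X]), G.coeff 0 = 0 → G'.coeff 0 = 0 → X ^ r ∣ G - G' →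
      X ^ (r + 1) ∣ L.comp G - L.comp G' - (G - G')) ∧
    ∀ (T : ℕ) (Λ : Om[X]), Λ.coeff 0 = 0 →
      ∃! G : Om[X], G.degree < T ∧ G.coeff 0 = 0 ∧ X ^ T ∣ L.comp G - Λ

/-- the logarithm is of Honda type -/
def HTB : Prop :=
  ∀ (σ : GQ) (T : ℕ) (G : Om[X]), w2.IsFrob 1 σ → PAl G → (∀ m, Fix w2.I (G.coeff m)) →
    G.coeff 0 = 0 → PIt T (ThH σ ((lT T).comp G))

/-- the prescribed logarithm is of Honda type -/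
def HTL : Prop :=
  ∀ (σ : GQ) (T J : ℕ) (a d : Om) (e : ℤ), σ ∈ w2.D → a ^ 2 + a + 2 = 0 → w2.v a = 1 → σ a = a →
    w2.v d ≤ 1 → e = 1 ∨ e = -1 → σ d = e * d → 2 * T < J →
    PIt T (ThH σ (C d * l1 (e * a) J)) ∧ PAl (derivative (l1 (e * a) J)) ∧
      (l1 (e * a) J).coeff 0 = 0 ∧ (l1 (e * a) J).coeff 1 = 1 ∧
      ∀ (K : ℕ) (ζ : Om), K ≤ J → ζ ^ 2 ^ K = 1 →
        i2 ((l1 (e * a) J).eval (ζ - 1)) = muP (e * i2 a) K (i2 ζ)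

/-- the theorem of Honda -/
def HON : Prop :=
  ∀ (σ : GQ) (T : ℕ) (Λ G : Om[X]), w2.IsFrob 1 σ → PIt T (ThH σ Λ) → w2.v (Λ.coeff 1) ≤ 1 →
    (∀ m, Fix w2.I (G.coeff m)) → G.degree < T → G.coeff 0 = 0 → X ^ T ∣ (lT T).comp G - Λ → PAl G

/-- estimates for the tails -/
def TAIL : Prop :=
  ∀ r : ℝ, 0 < r → r < 1 → (∃ c : ℝ, 0 < c ∧ ∀ q q' : ℂ_[2], ‖q‖ ≤ r → ‖q'‖ ≤ r →
    ‖lamf q - lamf q'‖ ≤ c * ‖q - q'‖) ∧ ∀ ε : ℝ, 0 < ε → ∃ T₀, ∀ T, T₀ ≤ T → ∀ x : Om, ‖i2 x‖ ≤ r →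
      ‖lamf (i2 x) - i2 ((lT T).eval x)‖ ≤ ε ∧
      ∀ F : Om[X], X ^ T ∣ F → PAl (derivative F) → ‖i2 (F.eval x)‖ ≤ ε

/-- the parameter as a series -/
def PRMA : Prop :=
  ∃ A B S : PowerSeries ℤ, QE 1 2 (zs A) xx ∧ QE 1 3 (zs B) y1 ∧
    QE 1 3 (zs (-2 * B - PowerSeries.X * A)) yy ∧ PowerSeries.constantCoeff A = 1 ∧
    PowerSeries.constantCoeff B = 1 ∧ PowerSeries.constantCoeff S = 1 ∧ S * B = A ∧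
    B ^ 2 + PowerSeries.X * A * B =
      A ^ 3 - 2 * PowerSeries.X ^ 2 * A ^ 2 - 9 * PowerSeries.X ^ 4 * A

/-- inversion of the parameter -/
def PRMB : Prop :=
  ∀ S : PowerSeries ℤ, PowerSeries.constantCoeff S = 1 →
    (∀ q q' : ℂ_[2], ‖q‖ < 1 → ‖q'‖ < 1 → ‖q * ev2 (zs S) q - q' * ev2 (zs S) q'‖ = ‖q - q'‖) ∧
    (∀ (q : ℂ_[2]) (f : ℂ_[2] →+* ℂ_[2]), ‖q‖ < 1 → Isometry f → f (ev2 (zs S) q) = ev2 (zs S) (f q)) ∧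
    (∀ (T : ℕ) (a : Om), ‖i2 a‖ < 1 →
      ‖ev2 (zs S) (i2 a) - i2 (aeval a (PowerSeries.trunc T S))‖ ≤ ‖i2 a‖ ^ T) ∧
    ∀ t : Om, ‖i2 t‖ < 1 → ∃ q : ℂ_[2], ‖q‖ < 1 ∧ q * ev2 (zs S) q = i2 t ∧
      ∀ ε : ℝ, 0 < ε → ∃ q₁ : Om, ‖i2 q₁ - q‖ ≤ ε ∧ ∀ σ : GQ, σ t = t → σ q₁ = q₁

/-- the point with a given parameter -/
def PRMC : Prop :=
  ∃ u : Om → Om, (∀ σ ∈ w2.D, ∀ t, ‖i2 t‖ < 1 → σ (u t) = u (σ t)) ∧ ∀ t, ‖i2 t‖ < 1 →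
    ∀ v : ℂ_[2], ‖v‖ < 1 → 9 * i2 t * v ^ 2 + (1 + i2 t + 2 * i2 t ^ 2) * v - i2 t ^ 3 = 0 →
      v = i2 (u t)

/-- algebraic points near a given parameter -/
def PRM : Prop :=
  ∀ T : ℕ, ∃ x y : Om → Om, (∀ σ ∈ w2.D, ∀ a, ‖i2 a‖ < 1 → σ (x a) = x (σ a) ∧ σ (y a) = y (σ a)) ∧
    ∀ a, a ≠ 0 → ‖i2 a‖ < 1 → ∃ q : ℂ_[2], V2a 1 xx q (i2 (x a)) ∧ V2a 1 yy q (i2 (y a)) ∧
      ‖q - i2 a‖ ≤ ‖i2 a‖ ^ (T + 1) ∧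
      (∀ f : ℂ_[2] →+* ℂ_[2], Isometry f → f (i2 (x a)) = i2 (x a) → f (i2 (y a)) = i2 (y a) →
        f q = q) ∧
      ∀ ε : ℝ, 0 < ε → ∃ q₁ : Om, ‖i2 q₁ - q‖ ≤ ε ∧ ∀ σ : GQ, σ a = a → σ q₁ = q₁

/-- the Gauss sum reduction -/
def TEL1 : Prop :=
  ∀ (D : Dat) (k : ℕ) (ζ : Om), IsPrimitiveRoot ζ (2 ^ (k + 2)) →
    ∃ (κ : (ZMod (2 ^ (k + 2)))ˣ) (s : ℤˣ), ∀ W : (ZMod (2 ^ (k + 2)))ˣ → ℤ,
      D.XW k W * D.dl = (s : ℤ) * D.n * ∑ ε, W ε * ∑ ν ∈ range (D.n * 2 ^ (k + 2)),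
        (jacobiSym ν D.n * nM ν (D.n * 2 ^ (k + 2) : ℕ) : ℤ) *
          ζ ^ (ν * ((κ * ε : (ZMod (2 ^ (k + 2)))ˣ) : ZMod (2 ^ (k + 2))).val)

/-- traces from the cyclotomic field -/
def TEL2 : Prop :=
  (∀ (K : ℕ) (ζ : Om) (H : Subgroup GQ) (Φ : Om → ℂ_[2]), IsPrimitiveRoot ζ (2 ^ K) → w2.Loc H →
    (∀ g ∈ H, cy (2 ^ K) g = 1) → (csum w2.D H fun g => Φ (g ζ)) =
      H.relIndex (w2.D ⊓ (cy (2 ^ K)).ker) *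
        ∑ η : (ZMod (2 ^ K))ˣ, Φ (ζ ^ (η : ZMod (2 ^ K)).val)) ∧
  ∀ (K y : ℕ) (z : ℂ_[2]), 1 ≤ K → IsPrimitiveRoot z (2 ^ K) →
    ∑ η : (ZMod (2 ^ K))ˣ, (z ^ (η : ZMod (2 ^ K)).val) ^ y =
      algebraMap ℚ_[2] ℂ_[2] (2 ^ K * tq K y)

/-- the Hecke relations at two -/
def TEL3 : Prop :=
  ∀ n : ℕ, Odd n → n.Coprime 15 → (∀ i c m, YY n i (c + 2 ^ i * m) = YY n i c) ∧
    (∀ i c, YY n (i + 2) c + YY n (i + 2) (c + 2 ^ (i + 1)) = -YY n (i + 1) c - YY n i c) ∧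
    (∀ i c, YY n (i + 1) (2 * c) = jacobiSym 2 n * YY n i c) ∧
    YY n 1 1 = -(1 + 2 * jacobiSym 2 n) * YY n 0 0

/-- the telescoping sum -/
def TEL4 : Prop :=
  ∀ (n k : ℕ) (x c : ℤ), Odd n → n.Coprime 15 → (2 ^ (k + 2) : ℤ) ∣ x * c + 1 →
    ∑ ν ∈ range (n * 2 ^ (k + 2)), (jacobiSym ν n * nM ν (n * 2 ^ (k + 2) : ℕ) : ℤ) *
      ∑ j ∈ range (k + 2), (jacobiSym 2 n * al0 / 2) ^ j *
        (tq (k + 2) (ν * x + 2 ^ j) - tq (k + 2) (ν * x)) =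
      4 * ∑ ν ∈ (oddR n k).filter (fun ν : ℕ => (2 ^ (k + 2) : ℤ) ∣ ν - c), msy n k ν -
        jacobiSym 2 n ^ k * YY n 0 0 * (jacobiSym 2 n + 3) / (2 - jacobiSym 2 n * al0)

end Pool.Agent.P.MP_9c97e9_nt.KT
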