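import Pool.Agent.P.MP_9c97e9_nt.KT.DefsU
import Pool.Agent.P.MP_9c97e9_nt.KT.IfX

/-! The statements of the chapters on modular units and on the cohomology of their symbols. -/

namespace Pool.Agent.P.MP_9c97e9_nt.KT

open scoped NNReal Matrix
open MP_8b7eba_nt.R2
open MP_8b7eba_nt.Mod (M2 G0 UH xx yy nP nM an)
open MP_8b7eba_nt.R1 (IntR IntM Zb QE ze)
open MP_29cb78_nt.E (ee th0)

/-! ### General cohomology -/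

/-- linearity -/
def LING : Prop :=
  ∀ (G Ω : Type) [Group G] [Field Ω] [MulSemiringAction G Ω] (C : Cx G Ω), C.Ok →
    (∀ E E' (n : ℤ), (C.can (E + E')).f = (C.can E).f + (C.can E').f ∧
      (C.can (n • E)).f = n • (C.can E).f ∧ (C.Inv E → C.Inv (n • E) ∧ (C.Inv E' → C.Inv (E + E')))) ∧
    (∀ f, C.Eqv f f) ∧ (∀ f f', C.Eqv f f' → C.Eqv f' f ∧ (∀ n : ℤ, C.Eqv (n • f) (n • f')) ∧
      (∀ f'', C.Eqv f' f'' → C.Eqv f f'') ∧ ∀ e e', C.Eqv e e' → C.Eqv (f + e) (f' + e')) ∧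
    (∀ (K : Subgroup G) f b, C.Sp K f b → ∀ n : ℤ, C.Sp K (n • f) (n • b) ∧
      (∀ g γ, C.kk (n • f) (n • b) g γ = n • C.kk f b g γ) ∧ ∀ f' b', C.Sp K f' b' →
        C.Sp K (f + f') (b + b') ∧ ∀ g γ, C.kk (f + f') (b + b') g γ = C.kk f b g γ + C.kk f' b' g γ) ∧
    (∀ (K : Subgroup G) m, C.Nm K → SH1 Ω K m → C.Sp K 0 m) ∧
    (∀ S : Finset Ω, ∃ S' : Finset Ω, S ⊆ S' ∧ ∀ g ∈ C.H, ∀ s ∈ S', g • s ∈ S') ∧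
    ∀ C' : Cx G Ω, C'.H = C.H → ∀ φ : C'.A →+ C.A, (∀ g ∈ C.H, ∀ F, φ (C'.ac g F) = C.ac g (φ F)) →
      (∀ f f', C'.Eqv f f' → C.Eqv (fun g h => φ (f g h)) fun g h => φ (f' g h)) ∧
      ∀ (K : Subgroup G) f b, K ≤ C.H → C'.Sp K f b →
        C.Sp K (fun g h => φ (f g h)) (fun g => φ (b g)) ∧ ∀ g ∈ C.H, ∀ γ,
          C.kk (fun g h => φ (f g h)) (fun g => φ (b g)) g γ = φ (C'.kk f b g γ)

/-- the cocycle of the Hochschild-Serre spectral sequence -/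
def KCU : Prop :=
  ∀ (G Ω : Type) [Group G] [Field Ω] [MulSemiringAction G Ω] (C : Cx G Ω) (K : Subgroup G)
    (f : G → G → C.A) (b : G → C.A), C.Ok → C.Nm K → C.Sp K f b →
    (∀ g ∈ C.H, SH1 Ω K (C.kk f b g)) ∧
    (∀ g ∈ C.H, ∀ h ∈ C.H, ∀ γ ∈ K,
      C.kk f b (g * h) γ = C.kk f b g γ + C.ac g (C.kk f b h (g⁻¹ * γ * g))) ∧
    (∀ g ∈ C.H, ∀ γ ∈ K, ∀ γ' ∈ K, C.kk f b (γ' * g) γ = C.kk f b g γ) ∧
    (∃ S : Finset Ω, ∀ g ∈ C.H, ∀ n ∈ C.H, (∀ s ∈ S, n • s = s) → ∀ γ ∈ K,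
      C.kk f b (g * n) γ = C.kk f b g γ) ∧
    (∀ g ∈ C.H, ∀ h ∈ C.H, ∀ γ ∈ K, ∀ γ' ∈ K, f (γ * g) (γ' * h) - f g h =
      C.kk f b g (g * γ' * g⁻¹) + (C.ac g (b γ' - f γ' h) -
        (b (γ * (g * γ' * g⁻¹)) - f (γ * (g * γ' * g⁻¹)) (g * h)) + (b γ - f γ g))) ∧
    ∀ f' b', C.Sp K f' b' → C.Eqv f f' → ∃ m, SH1 Ω K m ∧ ∀ g ∈ C.H, ∀ γ ∈ K,
      C.kk f b g γ = C.kk f' b' g γ + C.kk 0 m g γ

/-- correspondences act on these cocycles -/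
def KCR : Prop :=
  ∀ (G Ω : Type) [Group G] [Field Ω] [MulSemiringAction G Ω] (C : Cx G Ω) (K : Subgroup G)
    (T : Type) [Fintype T] (R : Crs G T), C.Ok → C.Nm K → R.Ok C K →
    (∀ (X : Type) [AddCommGroup X] (ψ : G → X), SH1 Ω K ψ → SH1 Ω K (R.T1 ψ)) ∧
    ∀ f b, C.Sp K f b → C.Sp K (R.T2 f) (R.T1 b) ∧
      ∀ g ∈ C.H, ∀ γ ∈ K, C.kk (R.T2 f) (R.T1 b) g γ = R.T1 (C.kk f b g) γ

/-- the cocycle of the image under a correspondence -/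
def TRF : Prop :=
  ∀ (G Ω : Type) [Group G] [Field Ω] [MulSemiringAction G Ω] (C : Cx G Ω) (K : Subgroup G)
    (T : Type) [Fintype T] (R : Crs G T), C.Ok → C.Nm K → R.Ok C K → ∀ E, C.Inv E →
    C.Inv (R.cor E) ∧ C.Eqv (C.can (R.cor E)).f (R.T2 (C.can E).f)

/-- bimultiplicativity -/
def BIM : Prop :=
  ∀ (G Ω : Type) [Group G] [Field Ω] [MulSemiringAction G Ω] (C : Cx G Ω), C.Ok →
    ∀ (J V : Type) [Fintype J] (B B' : J → Finset V) (U U' : J → V → Ω) (d : J → (ZMod C.M)ˣ),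
    (∀ j, (∀ v ∈ B j, U j v ≠ 0 ∧ ∃ r, r ^ C.N = U j v) ∧
      ∀ v ∈ B' j, U' j v ≠ 0 ∧ ∃ r, r ^ C.N = U' j v) →
    (∀ g ∈ C.H, ∃ π : Equiv.Perm J, ∀ j, d (π j) = d j * C.cy g ∧
      (B (π j)).val.map (U (π j)) = (B j).val.map (fun v => g • U j v) ∧
      (B' (π j)).val.map (U' (π j)) = (B' j).val.map fun v => g • U' j v) →
    C.Inv (∑ j, ∑ v ∈ B j, ∑ v' ∈ B' j, Finsupp.single (U j v, U' j v', d j) 1) ∧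
    C.Eqv (C.can (∑ j, ∑ v ∈ B j, ∑ v' ∈ B' j, Finsupp.single (U j v, U' j v', d j) 1)).f
      (C.can (∑ j, Finsupp.single (∏ v ∈ B j, U j v, ∏ v ∈ B' j, U' j v, d j) 1)).f

/-! ### Hecke operators on homomorphisms -/

/-- independence of the representatives -/
def MREP : Prop :=
  ∀ m : ℕ, m ≠ 0 → m.Coprime 15 → (IntR m).card = ArithmeticFunction.sigma 1 m ∧
    (∀ γ, G0 γ → ∀ t ∈ IntR m, G0 (dm m γ t) ∧ ∃ t' ∈ IntR m, IntM t * γ = dm m γ t * IntM t') ∧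
    ∀ (X : Type) [AddCommGroup X] (ψ : M2 → X), AdG ψ → AdG (MT m ψ) ∧
      ∀ (I : Type) [Fintype I] (A δ : I → M2) (σ : I → I) (γ : M2), G0 γ →
        (∀ i, (A i).det = m ∧ 15 ∣ (A i).c) → (∀ i j ε, G0 ε → A i = ε * A j → i = j) →
        (IntR m).card ≤ Fintype.card I → (∀ i, G0 (δ i) ∧ A i * γ = δ i * A (σ i)) →
        MT m ψ γ = ∑ i, ψ (δ i)

/-- Hecke operators commute -/
def MCOM : Prop :=
  ∀ l p : ℕ, l.Prime → p.Prime → ¬ l ∣ 15 → ¬ p ∣ 15 → ∀ (X : Type) [AddCommGroup X] (ψ : M2 → X),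
    AdG ψ → ∀ γ, G0 γ → MT l (MT p ψ) γ = MT p (MT l ψ) γ

/-- cuspidal homomorphisms are periods -/
def MFAC : Prop :=
  AdG (fun γ => nP γ.a γ.c) ∧ AdG (fun γ => nM γ.a γ.c) ∧
  (∀ γ, G0 γ → 4 ∣ nP γ.a γ.c ∧ 2 ∣ nM γ.a γ.c) ∧
  (∃ γ, G0 γ ∧ nP γ.a γ.c = 4 ∧ nM γ.a γ.c = 0) ∧ (∃ γ, G0 γ ∧ nP γ.a γ.c = 0 ∧ nM γ.a γ.c = 2) ∧
  ∀ (X : Type) [AddCommGroup X] (ψ : M2 → X), AdG ψ → (∀ P ∈ par, ψ P = 0) →
    ∃ a b : X, ∀ γ, G0 γ → ψ γ = (nP γ.a γ.c / 4) • a + (nM γ.a γ.c / 2) • b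

/-- Hecke operators on parabolic elements -/
def MHP : Prop :=
  ∀ l : ℕ, l.Prime → ¬ l ∣ 15 → ∀ (X : Type) [AddCommGroup X] (ψ : M2 → X), AdG ψ →
    ∀ P ∈ par, MT l ψ P = (l + 1) • ψ P

/-- the periods are eigenvectors -/
def MEIG : Prop :=
  ∀ p : ℕ, p.Prime → ¬ p ∣ 15 → ∀ γ, G0 γ →
    MT p (fun δ => nP δ.a δ.c) γ = an p * nP γ.a γ.c ∧
    MT p (fun δ => nM δ.a δ.c) γ = an p * nM γ.a γ.c

/-! ### The geometric Galois group -/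

/-- the contexts and the Hecke correspondences -/
def COK : Prop :=
  (∀ g ∈ GG, ∀ h ∈ GG, cg (g * h) = cg g * cg h) ∧ (∀ g, g ∈ geo ↔ g ∈ GG ∧ cg g = 1) ∧
  (∀ k M, M ≠ 0 → 2 ^ k ∣ M → (CL k M).Ok ∧ (CL k M).Nm geo ∧ (∀ H, (CO H k M).Ok) ∧
    ∀ m, m ≠ 0 → m.Coprime 15 → (HC m).Ok (CL k M) geo) ∧
  (∀ (m M : ℕ) (E : Sy LL M), (HC m).cor E = Cor m E) ∧
  (∀ m, m ≠ 0 → m.Coprime 15 → (∀ t ∈ IntR m, ∀ u ∈ UL, pb (IntM t) u ∈ UL) ∧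
    ∀ γ, G0 γ → ∀ t, (HC m).h (tr γ) t = tr (dm m γ t)) ∧
  (∀ (X : Type) [AddCommGroup X] (ψ : AL → X), SH1 LL geo ψ → AdG fun γ => ψ (tr γ)) ∧
  ∀ (X : Type) (c c' : AL → X), Sm1 LL geo c → Sm1 LL geo c' →
    (∀ γ, G0 γ → c (tr γ) = c' (tr γ)) → ∀ g ∈ geo, c g = c' g

/-- reduction of 2-adic integers and the pairing with the generic cocycle -/
def ZQ : Prop :=
  ∀ k : ℕ, (∀ x y : ℚ_[2], ‖x‖ ≤ 1 → ‖y‖ ≤ 1 → zq k (x + y) = zq k x + zq k y ∧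
      zq k (x * y) = zq k x * zq k y ∧ (zq k x = zq k y ↔ ‖x - y‖ ≤ (2 ^ k)⁻¹)) ∧
    (∀ n : ℤ, zq k n = n) ∧
    (∀ M g, M ≠ 0 → 2 ^ k ∣ M → red (2 ^ k) (cy M g) = zq k (cq g)) ∧
    (∀ v, ‖v‖ ≤ 1 → SH1 LL geo (pu k v) ∧ ((∀ γ ∈ geo, pu k v γ = 0) → ‖v‖ ≤ (2 ^ k)⁻¹) ∧
      (∃ a b : ZMod (2 ^ k), ∀ γ, G0 γ →
        pu k v (tr γ) = (nP γ.a γ.c / 4) • a + (nM γ.a γ.c / 2) • b) ∧
      (∀ a : ℚ_[2], ‖a‖ ≤ 1 → ∀ g, pu k (a • v) g = zq k a * pu k v g) ∧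
      (∀ v', ‖v'‖ ≤ 1 → ∀ g, pu k (v + v') g = pu k v g + pu k v' g ∧
        pu k (v - v') g = pu k v g - pu k v' g) ∧
      ∀ g ∈ GG, ∀ γ ∈ geo,
        pu k (T2.rho (cg g) *ᵥ v) γ = zq k (cq (cg g)) * pu k v (g⁻¹ * γ * g) ∧ ∀ h ∈ GG,
        pu k v (g * γ * g⁻¹) = zq k (dt v (T2.rho (cg g) *ᵥ (uN k (γ * h) - uN k h)))) ∧
    ∀ a b : ZMod (2 ^ k), ∃ v, ‖v‖ ≤ 1 ∧ ∀ γ, G0 γ →
      pu k v (tr γ) = (nP γ.a γ.c / 4) • a + (nM γ.a γ.c / 2) • b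

/-- Hecke operators on the geometric Galois group -/
def CUSP : Prop :=
  ∀ l : ℕ, l.Prime → ¬ l ∣ 15 → ∀ k : ℕ,
    (∀ ψ : AL → ZMod (2 ^ k), SH1 LL geo ψ →
      (∃ v, ‖v‖ ≤ 1 ∧ ∀ γ ∈ geo, (HC l).T1 ψ γ - (l + 1) * ψ γ = pu k v γ) ∧
      ∀ p : ℕ, p.Prime → ¬ p ∣ 15 → ∀ γ ∈ geo,
        (HC l).T1 ((HC p).T1 ψ) γ = (HC p).T1 ((HC l).T1 ψ) γ) ∧
    (l ≠ 2 → ∀ v, ‖v‖ ≤ 1 → ∀ γ ∈ geo, (HC l).T1 (pu k v) γ = ap W15 l * pu k v γ)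

/-- evaluation at a point -/
def EVAL : Prop :=
  ∀ (k M : ℕ) (E : Sy LL M), M ≠ 0 → 2 ^ k ∣ M → InvU k M E → ∀ τ H s, Sec τ H s →
    (CO H k M).Inv (evE τ E) ∧
      (CO H k M).Eqv ((CO H k M).can (evE τ E)).f fun g h => fE k E (s g) (s h)

/-- change of labels -/
def LAB : Prop :=
  ∀ k M : ℕ, M ≠ 0 → 2 ^ k ∣ M →
    (∀ c : (ZMod M)ˣ, (∃ φ : (CL k M).A →+ (CL k M).A, (∀ F, φ F = tlU k c F) ∧
        ∀ g F, φ ((CL k M).ac g F) = (CL k M).ac g (φ F)) ∧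
      ∀ E g h, fE k (lb (· * c) E) g h = tlU k c (fE k E g h)) ∧
    ∀ (M' : ℕ) (hd : M ∣ M'), M' ≠ 0 →
      (∃ φ : (CL k M').A →+ (CL k M).A, (∀ F, φ F = pz M F) ∧
        ∀ g F, φ ((CL k M').ac g F) = (CL k M).ac g (φ F)) ∧
      ∀ E g h, fE k (lb (ZMod.unitsMap hd) E) g h = pz M (fE k E g h)

/-! ### Units -/

/-- transformation of the units -/
def UT : Prop :=
  (∀ (b : ℤ) (r₁ r₂ : ℚ) (z : ℂ), uf b r₁ r₂ z = uF (b / 15) 0 r₁ r₂ (15 * z)) ∧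
  (∀ (g : M2) (s₁ s₂ r₁ r₂ τ : ℂ), g.det = 1 → 0 < τ.im → uF s₁ s₂ r₁ r₂ (g.act τ) =
    uF (s₁ * g.a + s₂ * g.c) (s₁ * g.b + s₂ * g.d) (r₁ * g.a + r₂ * g.c) (r₁ * g.b + r₂ * g.d) τ) ∧
  ∀ (b : ℤ) (r₁ r₂ : ℚ) (z : ℂ), 0 < z.im →
    (∀ m n c : ℤ, uf (b + 15 * c) (r₁ + m) (r₂ + n) z = uf b r₁ r₂ z) ∧
    ∀ γ, G0 γ → uf b r₁ r₂ (γ.act z) =
      uf (b * γ.a) (r₁ * γ.a + r₂ * (γ.c / 15)) (15 * r₁ * γ.b + r₂ * γ.d) z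

/-- the units are holomorphic, without zeros, and of moderate growth -/
def UHM : Prop :=
  ∀ (b : ℤ) (r₁ r₂ : ℚ), IsCoprime b 15 → r₁.den.Coprime 15 →
    Hol (uf b r₁ r₂) ∧ (∀ z : ℂ, 0 < z.im → uf b r₁ r₂ z ≠ 0) ∧ MG (uf b r₁ r₂)

/-- distribution relations -/
def UD : Prop :=
  ∀ (l : ℕ) (b : ℤ) (r₁ r₂ : ℚ) (z : ℂ), l ≠ 0 → 0 < z.im →
    ∏ i ∈ Finset.range l, ∏ j ∈ Finset.range l, uf b (r₁ + i / l) (r₂ + j / l) z =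
      uf (l * b) (l * r₁) (l * r₂) z ∧
    ∏ j ∈ Finset.range l, uf b r₁ (r₂ + j / l) z = uf b r₁ (l * r₂) (l * z) ∧
    ∀ i : ℤ, ∏ j ∈ Finset.range l, uf b (r₁ + j / l) (r₂ + 15 * i * j / l) z =
      uf (l * b) (l * r₁) (r₂ - 15 * i * r₁) ((z + i) / l)

open PowerSeries in
/-- expansions of infinite products and of inverses -/
def QEP : Prop :=
  ∀ w : ℕ, w ≠ 0 →
    (∀ α : ℕ → Zb, α 0 = 0 → (∀ c, ‖(α c : ℂ)‖ ≤ 1) → ∃ P : Zb⟦X⟧,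
      QE w 0 P (fun z => ∏' c, (1 - α c * ee (z / w) ^ c)) ∧
        ∀ T, X ^ T ∣ P - ∏ c ∈ Finset.range T, (1 - C (α c) * X ^ c)) ∧
    ∀ (P Q : Zb⟦X⟧) (G : ℂ → ℂ), QE w 0 P G → P * Q = 1 → (∀ z : ℂ, 0 < z.im → G z ≠ 0) →
      QE w 0 Q fun z => (G z)⁻¹

open PowerSeries in
/-- substitutions in expansions, growth, conjugation of coefficients -/
def QSUB : Prop :=
  (∀ (M N a d e w : ℕ) (j : ℤ) (A : Zb⟦X⟧) (G : ℂ → ℂ) (he : e ≠ 0), M ≠ 0 → a ≠ 0 → d ≠ 0 → w ≠ 0 →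
    a * w = e * (d * M) → QE M N A G → QE w (e * N)
      (C (ze (d * M) (-(N * j))) * expand e he (rescale (ze (d * M) j) A))
      fun z => G ((a * z + j) / d)) ∧
  (∀ (G : ℂ → ℂ) (A : M2), 0 < A.det → MG G → MG fun z => G (A.act z)) ∧
  ∀ σ : GQ, ∃ f : Zb →+* Zb, (∀ a, zo (f a) = σ (zo a)) ∧ (∀ A B, Cj σ A B ↔ B = map f A) ∧
    ∀ (M : ℕ) (a : ℤ), M ≠ 0 → f (ze M a) = ze M (a * (cy M σ : ZMod M).val)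

open PowerSeries in
/-- the expansion of the theta product -/
def TQ : Prop :=
  ∀ (M : ℕ) (B : ℤ), M ≠ 0 → ¬ (15 * M : ℤ) ∣ B → ∃ E : ℤ, (M : ℤ) ∣ E + B * (B / (15 * M)) ∧
    ∀ a : ℤ, ∃ (P : Zb⟦X⟧) (G : ℂ → ℂ), QE M 0 P G ∧ (∀ T, X ^ T ∣ P - pS M a B T) ∧
      ∀ z : ℂ, 0 < z.im → G z ≠ 0 ∧
        th0 ((B * z + a) / M) (15 * z) * (-ee (a / M)) ^ (B / (15 * M)) = ee (z / M) ^ E * G z

open PowerSeries in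
/-- the expansions of the units, with the exponent independent of the second index -/
def UQ0 : Prop :=
  ∀ (M : ℕ) (b i₁ : ℤ), M ≠ 0 → M.Coprime 15 → IsCoprime b 15 → ∃ E : ℤ,
    (M : ℤ) ∣ E - 15 * i₁ * JJ M b i₁ ∧ ∀ (i₂ : ℤ) (N e : ℕ), (e : ℤ) - N = E →
      ∃ A : Zb⟦X⟧, QE M N A (uf b (i₁ / M) (i₂ / M)) ∧ ∀ T, X ^ T ∣
        A * (pS M i₂ (15 * i₁ + 4 * M * b) T * pS M i₂ (15 * i₁ - 4 * M * b) T) -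
          C ((-1) ^ (JJ M b i₁).natAbs * ze M (i₂ * JJ M b i₁)) * X ^ e *
            (pS M i₂ (15 * i₁ + M * b) T * pS M i₂ (15 * i₁ - M * b) T)

/-- expansions at infinity -/
def UQF : Prop :=
  ∀ M : ℕ, M ≠ 0 → M.Coprime 15 → ∃ (N : ℕ) (A : (ZMod 15)ˣ → VZ M → PowerSeries Zb),
    (∀ b v, QE M N (A b v) (ug M b v)) ∧ ∀ σ b v, Cj σ (A b v) (A b (v.1, v.2 * cy M σ))

/-- the Galois action on the units -/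
def EXA : Prop :=
  ∀ M : ℕ, M ≠ 0 → M.Coprime 15 → (∀ (b : (ZMod 15)ˣ) v, InL (ug M b v) ∧ Uz M b v ∈ UL) ∧
    ∀ g ∈ GG, ∃ (β : (ZMod 15)ˣ) (a b c d : ZMod M), a * d - b * c = cy M (cg g) ∧
      ∀ (e : (ZMod 15)ˣ) (v : VZ M),
        g (Uz M e v) = Uz M (e * β) (v.1 * a + v.2 * c, v.1 * b + v.2 * d)

/-- invariance of the sums of symbols -/
def EINV : Prop :=
  (∀ (M : ℕ) [NeZero M], E0 M = ES0 M M fun _ _ => True) ∧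
  ∀ k M, Lv0 k M → InvU k M (E0 M) ∧ ∀ l : ℕ, l ≠ 0 → l.Coprime 15 → InvU k M (Ep l M)

/-- the sum over all lifts -/
def NA : Prop :=
  ∀ (k M M' p : ℕ) [NeZero M'], Lv0 k M → p ≠ 0 → p.Coprime 15 → M' = M * p →
    (CL k M).Eqv (fE k (ES0 M M' fun _ _ => True)) (fE k (E0 M))

open Classical in
/-- lines modulo a prime -/
def LNX : Prop :=
  ∀ M' p : ℕ, p.Prime → ¬ p ∣ 15 → p ∣ M' →
    (∀ a b c d : ZMod M', IsUnit (a * d - b * c) → ∃ π : Equiv.Perm (IntR p), ∀ t (v : VZ M'),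
      Ln p (π t) (v.1 * a + v.2 * c, v.1 * b + v.2 * d) ↔ Ln p t v) ∧
    ∀ v v' : VZ M', (((IntR p).filter fun t => Ln p t v ∧ Ln p t v').card : ℤ) =
      (if dv p v v' = 0 then 1 else 0) + if (ZMod.cast v.1 : ZMod p) = 0 ∧
        (ZMod.cast v.2 : ZMod p) = 0 ∧ (ZMod.cast v'.1 : ZMod p) = 0 ∧
        (ZMod.cast v'.2 : ZMod p) = 0 then p else 0

/-- products over lines -/
def NLP : Prop :=
  ∀ (M M' p : ℕ) [NeZero M'], M.Coprime 15 → p.Prime → ¬ p ∣ 15 * M → M' = M * p →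
    ∀ t ∈ IntR p, ∀ (b : (ZMod 15)ˣ) (y : VZ M) (B : Finset (VZ M')),
      (∀ v, v ∈ B ↔ Ln p t v ∧ (ZMod.cast v.1 : ZMod M) = y.1 * t.1 ∧
        (ZMod.cast v.2 : ZMod M) = y.1 * (15 * t.2.1) + y.2 * t.2.2) →
      ∏ v ∈ B, Uz M' b v = pb (IntM t) (Uz M (t.2.2 * b) y)

/-- the sum over the lines -/
def NL : Prop :=
  ∀ (k M M' p : ℕ) [NeZero M'], Lv0 k M → p.Prime → ¬ p ∣ 15 * M → M' = M * p →
    (CL k M).Eqv (fE k (∑ t ∈ IntR p, ES0 M M' fun v v' => Ln p t v ∧ Ln p t v'))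
      (fE k (lb (· * un (p : ZMod M)) (Cor p (E0 M))))

/-- the formal decomposition -/
def NF : Prop :=
  ∀ (M M' p : ℕ) [NeZero M'] (hd : M ∣ M'), M.Coprime 15 → p.Prime → ¬ p ∣ 15 → M' = M * p →
    lb (ZMod.unitsMap hd) (E0 M') = if p ∣ M then ES0 M M' fun _ _ => True else
      (ES0 M M' fun _ _ => True) - (∑ t ∈ IntR p, ES0 M M' fun v v' => Ln p t v ∧ Ln p t v') +
        (p : ℤ) • lb (· * un (p : ZMod M) ^ 2) (E0 M)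

/-- the norm relation for the cocycles on the function field -/
def NE : Prop :=
  ∀ k M M' p : ℕ, Lv0 k M → p.Prime → ¬ p ∣ 15 → M' = M * p →
    (CL k M).Eqv (fun g h => pz M (M' := M') (fE k (E0 M') g h)) fun g h =>
      if p ∣ M then fE k (E0 M) g h else
        fE k (E0 M) g h - tlU k (un (p : ZMod M)) ((HC p).T2 (fE k (E0 M)) g h) +
          (p : ℤ) • tlU k (un (p : ZMod M) ^ 2) (fE k (E0 M) g h)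

/-! ### The zeta cocycles -/

/-- existence -/
def ZEX : Prop := ∀ l k M : ℕ, l.Prime → ¬ l ∣ 15 → Lv0 k M → ∃ b z, ZK l k M b z

/-- the exported properties -/
def ZTK : Prop := ∀ (l k M : ℕ) b z, l.Prime → ¬ l ∣ 15 → Lv0 k M → ZK l k M b z → ZT l k M z

/-- the norm relations -/
def NREL : Prop :=
  ∀ (l k M M' p : ℕ) b z b' z', l.Prime → ¬ l ∣ 15 → Lv0 k M → 2 ∣ M → p.Prime → ¬ p ∣ 15 →
    M' = M * p → ZK l k M b z → ZK l k M' b' z' → NR k p z z'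

/-! ### The twist -/

/-- the twisted push forward -/
noncomputable def Dat.t0 (D : Dat) (M : ℕ) (x : GQ → (ZMod (M * D.n))ˣ → V2) (g : GQ) :
    (ZMod M)ˣ → V2 :=
  psh M D.n fun δ => (jacobiSym (δ : ZMod (M * D.n)).val D.n : ℚ_[2]) • x g δ

/-- the normalisation -/
noncomputable def Dat.nr (D : Dat) {M : ℕ} (x : GQ → (ZMod M)ˣ → V2) (g : GQ) (ε : (ZMod M)ˣ) :
    V2 :=
  (2 : ℚ_[2]) • x g ε + (D.rd g *ᵥ x D.z (ε * (cy M g)⁻¹) - x D.z ε)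

/-- rounding -/
noncomputable def rn (k : ℕ) (v : V2) : V2 := fun i => (zq k (v i)).val

/-- the twisted cocycles -/
def TWA : Prop :=
  (∀ k v, ‖rn k v‖ ≤ 1 ∧ (‖v‖ ≤ 1 → ‖rn k v - v‖ ≤ (2 ^ k)⁻¹)) ∧
  ∀ (D : Dat) (l k M : ℕ) (x : GQ → (ZMod (M * D.n))ˣ → V2), D.Lv k M → ZT l k _ x →
    (∀ g ε, ‖D.t0 M x g ε‖ ≤ 1 ∧ ‖D.nr (D.t0 M x) g ε‖ ≤ 1) ∧ (
      (Sm ⊤ fun g ε => rn k (D.nr (D.t0 M x) g ε)) ∧ (∀ g h δ, ‖D.nr (D.t0 M x) (g * h) δ - D.nr (D.t0 M x) g δ -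
        D.rd g *ᵥ D.nr (D.t0 M x) h (δ * (cy M g)⁻¹)‖ ≤ (2 ^ k)⁻¹) ∧
      ∀ δ, D.nr (D.t0 M x) D.z δ = 0)

/-- the norm relations of the twisted cocycles -/
def TWB : Prop :=
  ∀ (D : Dat) (k M p : ℕ) (x : GQ → (ZMod (M * D.n))ˣ → V2)
    (x' : GQ → (ZMod (M * p * D.n))ˣ → V2), D.Lv k M → p.Prime → p = 2 ∨ ¬ p ∣ 15 * D.n * M →
    NR k p x x' → ∀ g ε, ‖psh M p (D.nr (D.t0 (M * p) x') g) ε -
      eu p (jacobiSym p D.n * ap W15 p : ℤ) (D.nr (D.t0 M x) g) ε‖ ≤ (2 ^ k)⁻¹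

end Pool.Agent.P.MP_9c97e9_nt.KT
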