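import Pool.Agent.P.MP_9c97e9_nt.KT.BasL

/-! Many classes of order two in the relaxed Selmer group. -/

namespace Pool.Agent.P.MP_9c97e9_nt.KT

open scoped NNReal Matrix
open MP_8b7eba_nt.R2
open Filter Topology Polynomial

namespace TLCN

/-- the signed prime -/
def st (p : ℕ) : ℤ := if p % 4 = 3 then -p else p

theorem st_abs (p : ℕ) : (st p).natAbs = p := by unfold st; split_ifs <;> simp

variable {f : ℕ → ℤ} {A B : Finset ℕ}

theorem abs_prod (hf : ∀ p, (f p).natAbs = p) (A : Finset ℕ) :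
    (∏ p ∈ A, f p).natAbs = ∏ p ∈ A, p :=
  (map_prod Int.natAbsHom f A).trans (Finset.prod_congr rfl fun p _ => hf p)

theorem sqf (hf : ∀ p, (f p).natAbs = p) (hA : ∀ p ∈ A, p.Prime) : Squarefree (∏ p ∈ A, f p) := by
  rw [← Int.squarefree_natAbs, abs_prod hf]
  exact Finset.squarefree_prod_of_pairwise_isCoprime (fun p hp q hq e => Nat.coprime_iff_isRelPrime.1
    ((Nat.coprime_primes (hA p hp) (hA q hq)).2 e)) fun p hp => (hA p hp).prime.squarefree

theorem inj (hf : ∀ p, (f p).natAbs = p) (hA : ∀ p ∈ A, p.Prime) (hB : ∀ p ∈ B, p.Prime)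
    (h : qz (∏ p ∈ A, f p) = qz (∏ p ∈ B, f p)) : A = B := by
  rw [← Nat.primeFactors_prod hA, ← Nat.primeFactors_prod hB, ← abs_prod hf, ← abs_prod hf,
    qz_inj a_CA (sqf hf hA) (sqf hf hB) h]

theorem unr (hf : ∀ p, (f p).natAbs = p) (hA : ∀ p ∈ A, p.Prime) {w : Pl} (h2 : w.p ≠ 2)
    (hw : w.p ∉ A) {g : GQ} (hg : g ∈ w.I) : qz (∏ p ∈ A, f p) g = 0 := by
  refine qz_I a_CA (fun e => ?_) hg
  rw [Int.natCast_dvd, Int.natAbs_mul, abs_prod hf] at e
  rcases (Nat.Prime.dvd_mul w.prime).1 e with e | e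
  · exact h2 ((Nat.prime_dvd_prime_iff_eq w.prime Nat.prime_two).1 e)
  · obtain ⟨p, hp, e⟩ := (Prime.dvd_finsetProd_iff w.prime.prime _).1 e
    exact hw ((Nat.prime_dvd_prime_iff_eq w.prime (hA p hp)).1 e ▸ hp)

theorem ord (hB : ∀ p ∈ B, p.Prime) {g : GQ} (hg : g ∈ w2.I ⊓ KI) : qz (∏ p ∈ B, st p) g = 0 := by
  rw [qz_prod _ _ fun p hp => Int.natAbs_ne_zero.1 (by rw [st_abs]; exact (hB p hp).ne_zero),
    Finset.sum_apply]
  refine Finset.sum_eq_zero fun p hp => ?_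
  rcases (hB p hp).eq_two_or_odd with rfl | h
  · have h1 := ((a_LG.2.2.2.1 1).2.2.2.2.1 g).1 (Subgroup.mem_iInf.1 hg.2 1)
    rw [a_LG.1.dvd, LA.c8] at h1
    exact (qz_two a_EC).2 h1
  · refine qz_I_two rfl ?_ hg.1
    unfold st
    split_ifs <;> omega

/-- the cocycles -/
noncomputable def cc (A B : Finset ℕ) (g : GQ) : EO :=
  s2 (qz (∏ p ∈ A, (p : ℤ)) g) (qz (∏ p ∈ B, st p) g)

theorem sh (D : Dat) (hA : A ⊆ (30 * D.n).primeFactors.erase D.wz.p)
    (hB : B ⊆ (30 * D.n).primeFactors.erase D.wz.p) : D.SH ⊤ (cc A B) := by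
  have pr : ∀ {A : Finset ℕ}, A ⊆ (30 * D.n).primeFactors.erase D.wz.p → ∀ p ∈ A, p.Prime :=
    fun h p hp => Nat.prime_of_mem_primeFactors (Finset.mem_of_mem_erase (h hp))
  have z : ∀ w : Pl, w.p ≠ 2 → w.p ∉ (30 * D.n).primeFactors.erase D.wz.p → ∀ g ∈ w.I,
      cc A B g = 0 := fun w h2 hw g hg => by
    rw [cc, unr Int.natAbs_natCast (pr hA) h2 (fun e => hw (hA e)) hg,
      unr st_abs (pr hB) h2 (fun e => hw (hB e)) hg, s2_zero]
  have h := rs_s2 (D := D) (H := ⊤) (isCh_qz (∏ p ∈ A, (p : ℤ))) (isCh_qz (∏ p ∈ B, st p))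
  rw [rs_top] at h
  refine ⟨h.1, h.2.1, h.2.2.1, h.2.2.2,
    z D.wz (fun e => D.p_ne D.wz.prime D.zp (by rw [e]; norm_num)) (Finset.notMem_erase _ _) _ D.zI,
    fun g hg => s2_mem.2 (ord (pr hB) hg), fun w hw g hg => z w
      (fun e => hw (Dvd.dvd.mul_right (by rw [e]; norm_num) _))
      (fun e => hw (Nat.dvd_of_mem_primeFactors (Finset.mem_of_mem_erase e))) g hg.1, fun s => ?_⟩
  have h0 : (0 : ℤ) < ∏ p ∈ A, (p : ℤ) :=
    Finset.prod_pos fun p hp => Int.natCast_pos.2 (pr hA p hp).pos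
  have h1 : qz (-D.n) tau = 1 := (LA.cases _).resolve_left fun e => by
    have := D.n_pos
    have := (qz_tau a_TAU (by omega)).1 e
    omega
  have h2 := D.cb_four 0 (qz (∏ p ∈ B, st p) tau).val (s * tau * s⁻¹)
  rw [qz_conj, qz_conj, h1, mul_one, Int.cast_zero (R := ZMod 2), zero_mul,
    Int.cast_natCast (R := ZMod 2), ZMod.natCast_zmod_val] at h2
  exact ⟨_, by rw [cc, qz_conj, qz_conj, (qz_tau a_TAU h0.ne').2 h0]; exact h2.symm⟩

end TLCN

open TLCN in
theorem t_LCN : LCN := by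
  classical
  intro D
  have pr : ∀ {A : Finset ℕ}, A ∈ ((30 * D.n).primeFactors.erase D.wz.p).powerset →
      ∀ p ∈ A, p.Prime := fun h p hp =>
    Nat.prime_of_mem_primeFactors (Finset.mem_of_mem_erase (Finset.mem_powerset.1 h hp))
  have hc : Nat.Coprime 30 D.n := Nat.coprime_of_dvd fun p hp h h' => D.p_ne hp h' h
  have h30 : (Nat.primeFactors 30).card = 3 := by
    rw [show 30 = ∏ p ∈ ({2, 3, 5} : Finset ℕ), p by decide, Nat.primeFactors_prod (by decide)]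
    rfl
  refine ⟨(((30 * D.n).primeFactors.erase D.wz.p).powerset ×ˢ
    ((30 * D.n).primeFactors.erase D.wz.p).powerset).image fun x => cc x.1 x.2, ?_, fun c h => ?_⟩
  · rw [Finset.card_image_of_injOn, Finset.card_product, Finset.card_powerset, ← mul_pow,
      Finset.card_erase_of_mem (D.wz.prime.mem_primeFactors (D.zp.mul_left _)
        (mul_ne_zero (by norm_num) D.n_pos.ne')), hc.primeFactors_mul,
      Finset.card_union_of_disjoint hc.disjoint_primeFactors, h30, add_comm 3]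
    · rfl
    intro x hx y hy e
    obtain ⟨a, b⟩ := Finset.mem_product.1 hx
    obtain ⟨a', b'⟩ := Finset.mem_product.1 hy
    exact Prod.ext (inj Int.natAbs_natCast (pr a) (pr a') (funext fun g => (s2_inj (congrFun e g)).1))
      (inj st_abs (pr b) (pr b') (funext fun g => (s2_inj (congrFun e g)).2))
  · obtain ⟨x, hx, rfl⟩ := Finset.mem_image.1 h
    obtain ⟨a, b⟩ := Finset.mem_product.1 hx
    exact ⟨sh D (Finset.mem_powerset.1 a) (Finset.mem_powerset.1 b), funext fun g => two_s2 _ _⟩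

end Pool.Agent.P.MP_9c97e9_nt.KT
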