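import Pool.Agent.P.MP_9c97e9_nt.KT.TLNX

/-! Products of units over fibres: tools. -/

namespace Pool.Agent.P.MP_9c97e9_nt.KT

open MP_8b7eba_nt.R2
open MP_8b7eba_nt.Mod (UH)

namespace TNLP

theorem lift {M : ℕ} (hM : M ≠ 0) {n : ℤ} {x : ZMod M} (h : (n : ZMod M) = x) :
    ∃ c : ℤ, n = x.val + M * c := by
  have : NeZero M := ⟨hM⟩
  obtain ⟨c, hc⟩ := (ZMod.intCast_eq_intCast_iff_dvd_sub (x.val : ℤ) n M).1
    (by rw [h, Int.cast_natCast, ZMod.natCast_zmod_val])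
  exact ⟨c, by linear_combination hc⟩

theorem per (hUT : UT) {M : ℕ} (hM : M ≠ 0) {b : ZMod 15} {v : VZ M} {β n₁ n₂ : ℤ}
    (hβ : (β : ZMod 15) = b) (h1 : (n₁ : ZMod M) = v.1) (h2 : (n₂ : ZMod M) = v.2) {z : ℂ}
    (hz : 0 < z.im) : ug M b v z = uf β (n₁ / M) (n₂ / M) z := by
  obtain ⟨c, rfl⟩ := lift (by norm_num) hβ
  obtain ⟨m, rfl⟩ := lift hM h1
  obtain ⟨n, rfl⟩ := lift hM h2
  have h0 : (M : ℚ) ≠ 0 := Nat.cast_ne_zero.2 hM
  rw [ug, ← (hUT.2.2 _ _ _ z hz).1 m n c]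
  congr 1 <;> push_cast <;> field_simp

theorem lf_prod (hFB : FB) {ι : Type} (s : Finset ι) {G : ι → ℂ → ℂ} (h : ∀ i ∈ s, InL (G i)) :
    InL (∏ i ∈ s, G i) ∧ lf (∏ i ∈ s, G i) = ∏ i ∈ s, lf (G i) := by
  classical
  obtain ⟨⟨c, hc⟩, -, -, h1, -, h2, -⟩ := hFB
  induction s using Finset.induction_on with
  | empty =>
    have e : (1 : ℂ → ℂ) = fun _ => io 1 := by rw [map_one]; rfl
    rw [Finset.prod_empty, Finset.prod_empty, e]
    exact ⟨h1 1, (hc 1).symm.trans c.map_one⟩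
  | insert a s ha ih =>
    obtain ⟨i1, i2⟩ := ih fun i hi => h i (Finset.mem_insert_of_mem hi)
    obtain ⟨-, j1, -, -, j2, -⟩ := h2 _ _ (h a (Finset.mem_insert_self _ _)) i1
    rw [Finset.prod_insert ha, Finset.prod_insert ha, j2, i2]
    exact ⟨j1, rfl⟩

theorem prod_eq (hFB : FB) {ι : Type} (s : Finset ι) {G : ι → ℂ → ℂ} (h : ∀ i ∈ s, InL (G i))
    {H : ℂ → ℂ} (hH : InL H) (e : ∀ z : ℂ, 0 < z.im → ∏ i ∈ s, G i z = H z) :
    ∏ i ∈ s, lf (G i) = lf H := by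
  obtain ⟨h1, h2⟩ := lf_prod hFB s h
  rw [← h2, (hFB.2.2.2.2.2.1 _ _ h1 hH).2.2.2.2.2.2]
  intro z hz
  rw [Finset.prod_apply]
  exact e z hz

theorem ne_zero (hFB : FB) {u : LL} (hu : u ∈ UL) : u ≠ 0 := by
  obtain ⟨G, h1, h2, rfl⟩ := hu
  obtain ⟨⟨c, hc⟩, -, -, h3, -, h4, -⟩ := hFB
  intro e
  have := ((h4 _ _ h1 (h3 0)).2.2.2.2.2.2.1 (e.trans ((hc 0).symm.trans c.map_zero).symm))
    (show Complex.I ∈ UH by simp [UH])
  exact h2 Complex.I (by simp) (this.trans (map_zero io))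

theorem crt {M p : ℕ} [NeZero (M * p)] (h : M.Coprime p) {x y : ZMod (M * p)}
    (h1 : (ZMod.cast x : ZMod M) = ZMod.cast y) (h2 : (ZMod.cast x : ZMod p) = ZMod.cast y) :
    x = y := by
  rw [← ZMod.natCast_val, ← ZMod.natCast_val, ZMod.natCast_eq_natCast_iff] at h1 h2
  rw [← ZMod.natCast_zmod_val x, ← ZMod.natCast_zmod_val y, ZMod.natCast_eq_natCast_iff]
  exact (Nat.modEq_and_modEq_iff_modEq_mul h).1 ⟨h1, h2⟩

theorem prod_fib {M p : ℕ} [NeZero (M * p)] {A : Type} [CommMonoid A] (y : ZMod M)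
    (F : Finset (ZMod (M * p))) (hF : ∀ x, x ∈ F ↔ ZMod.cast x = y) (g : ZMod (M * p) → A) :
    ∏ x ∈ F, g x = ∏ j ∈ Finset.range p, g ((y.val + M * j : ℕ) : ZMod (M * p)) := by
  have hM : M ≠ 0 := left_ne_zero_of_mul (NeZero.ne (M * p))
  have : NeZero M := ⟨hM⟩
  have hy := y.val_lt
  have h1 : ∀ j ∈ Finset.range p, ((y.val + M * j : ℕ) : ZMod (M * p)).val = y.val + M * j :=
    fun j hj => ZMod.val_cast_of_lt (by
      have := Nat.mul_le_mul_left M (Nat.succ_le_of_lt (Finset.mem_range.1 hj))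
      rw [Nat.mul_succ] at this
      omega)
  refine (Finset.prod_nbij (fun j => ((y.val + M * j : ℕ) : ZMod (M * p))) (fun j _ => ?_)
    (fun i hi j hj e => ?_) (fun x hx => ?_) fun _ _ => rfl).symm
  · rw [hF, ZMod.cast_natCast (Nat.dvd_mul_right M p)]
    simp
  · have := congrArg ZMod.val e
    rw [h1 i hi, h1 j hj] at this
    exact Nat.eq_of_mul_eq_mul_left (Nat.pos_of_ne_zero hM) (Nat.add_left_cancel this)
  · have h2 := congrArg ZMod.val ((hF x).1 hx)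
    rw [← ZMod.natCast_val, ZMod.val_natCast] at h2
    refine ⟨x.val / M, Finset.mem_coe.2 (Finset.mem_range.2
      (Nat.div_lt_of_lt_mul x.val_lt)), ?_⟩
    simp only
    rw [← h2, Nat.mod_add_div, ZMod.natCast_zmod_val]

end TNLP

end Pool.Agent.P.MP_9c97e9_nt.KT
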