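import Pool.Agent.P.MP_9c97e9_nt.KT.AllF0
import Pool.Agent.P.MP_9c97e9_nt.KT.AllT
import Pool.Agent.P.MP_9c97e9_nt.KT.TCOK

/-! The chapter on the function field. -/

namespace Pool.Agent.P.MP_9c97e9_nt.KT

theorem f_COK : COK := t_COK a_FB a_TR a_DENSE a_HEC

theorem f_TRIV : TRIV := a_TRIV a_FB f_COK a_DEN a_SECO a_PULV a_RTL

end Pool.Agent.P.MP_9c97e9_nt.KT
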