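import Pool.Agent.P.MP_9c97e9_nt.KT.IfF2

/-! Denominators. -/

namespace Pool.Agent.P.MP_9c97e9_nt.KT

open MP_8b7eba_nt.Mod (xx)
open Polynomial Finset

namespace TDEN

theorem adj (h : MGB) {a : LL} (ha : a ∈ Algebra.adjoin ℤ {lf xx}) :
    ∃ G, InL G ∧ MG G ∧ lf G = a := by
  induction ha using Algebra.adjoin_induction with
  | mem x hx => exact ⟨xx, inL_xx, h.1, hx.symm⟩
  | algebraMap n => exact ⟨_, (inL_int n).1, h.2.2.1 _, (inL_int n).2⟩
  | add x y _ _ a b =>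
    obtain ⟨G, a1, a2, rfl⟩ := a
    obtain ⟨H, b1, b2, rfl⟩ := b
    exact ⟨_, (a1.add b1).1, (h.2.2.2.1 _ _ a2 b2).1, (a1.add b1).2⟩
  | mul x y _ _ a b =>
    obtain ⟨G, a1, a2, rfl⟩ := a
    obtain ⟨H, b1, b2, rfl⟩ := b
    exact ⟨_, (a1.mul b1).1, (h.2.2.2.1 _ _ a2 b2).2, (a1.mul b1).2⟩

end TDEN

theorem t_DEN (hINTX : INTX) (hDIV : DIV) (hMGB : MGB) : DEN := by
  intro f
  obtain ⟨p, hp, q, hq, e⟩ := hINTX f
  generalize hu : f * aeval (lf xx) p = u at e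
  choose a a1 a2 a3 using fun i => TDEN.adj hMGB (q.coeff i).2
  have e1 : (u : MF) ^ q.natDegree + ∑ i ∈ range q.natDegree, mf (a i) * (u : MF) ^ i = 0 := by
    rw [hq.as_sum] at e
    simp only [eval₂_add, eval₂_finsetSum, eval₂_mul, eval₂_C, eval₂_X_pow] at e
    have := congrArg LL.val e
    simp only [map_add, map_sum, map_mul, map_pow, map_zero] at this
    refine Eq.trans ?_ this
    congr 1
    exact sum_congr rfl fun i _ => by rw [← coe_lf (a1 i), a3]; rfl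
  obtain ⟨G, hG, e2⟩ := hDIV.2 u ⟨X ^ q.natDegree +
      ∑ i ∈ range q.natDegree, C (oh (a i) (a1 i).1) * X ^ i, monic_X_pow_add (by
    rw [sum_range]
    exact degree_sum_fin_lt _), by
    simpa only [eval₂_add, eval₂_finsetSum, eval₂_mul, eval₂_C, eval₂_X_pow, ← mf_eq] using e1⟩
  have h1 : ∀ i, Hol fun z => a i z * G z ^ i := fun i => (a1 i).1.fun_mul (hG.fun_pow i)
  have h2 : Hol fun z => ∑ i ∈ range q.natDegree, a i z * G z ^ i :=
    DifferentiableOn.fun_sum fun i _ => h1 i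
  refine ⟨p, G, inL_of hG e2, hMGB.2.2.2.2.2.2 G q.natDegree a a2
    ((mf_eq_zero ((hG.fun_pow _).fun_add h2)).1 ?_), hp, hu ▸ lf_coe e2⟩
  rw [mf_add (hG.fun_pow _) h2, mf_sum _ fun i _ => h1 i, mf_pow hG, e2, ← e1]
  congr 1
  exact sum_congr rfl fun i _ => by rw [mf_mul (a1 i).1 (hG.fun_pow i), mf_pow hG, e2]

end Pool.Agent.P.MP_9c97e9_nt.KT
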