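import Pool.Agent.P.MP_9c97e9_nt.KT.IfF1

/-! The pigeonhole principle for holomorphic functions. -/

namespace Pool.Agent.P.MP_9c97e9_nt.KT

open MP_8b7eba_nt.Mod (UH isOpen_UH)

namespace TPIG

theorem cnt {F : ℂ → ℂ} (h : Hol F) {z : ℂ} (hz : 0 < z.im) (h0 : F z ≠ 0) :
    ({t | F t = 0} ∩ UH).Countable := by
  rcases (h.analyticOnNhd isOpen_UH).eqOn_or_eventually_ne_of_preconnected
    (analyticOnNhd_const (v := (0 : ℂ))) (convex_halfSpace_im_gt 0).isPreconnected with e | e
  · exact absurd (e hz) h0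
  · exact (HereditarilyLindelofSpace.isLindelof _).countable_of_isDiscrete
      (isDiscrete_of_codiscreteWithin e)

end TPIG

theorem t_PIG : PIG := by
  intro I _ F F' h h'
  by_contra! hc
  have h1 : ∀ i, ({t | F i t = 0 ∧ F' i t = 0} ∩ UH).Countable := fun i => by
    obtain ⟨z, hz, e⟩ := hc i
    by_cases h0 : F i z = 0
    · exact (TPIG.cnt (h i).2 hz (e h0)).mono (Set.inter_subset_inter_left _ fun t ht => ht.2)
    · exact (TPIG.cnt (h i).1 hz h0).mono (Set.inter_subset_inter_left _ fun t ht => ht.1)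
  refine Cardinal.not_countable_real (((Set.countable_iUnion h1).preimage_of_injOn
    (f := fun t : ℝ => (t : ℂ) + Complex.I) fun a _ b _ e => by simpa using e).mono fun t _ => ?_)
  have h2 : 0 < ((t : ℂ) + Complex.I).im := by simp
  obtain ⟨i, hi⟩ := h' _ h2
  exact Set.mem_iUnion.2 ⟨i, hi, h2⟩

end Pool.Agent.P.MP_9c97e9_nt.KT
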