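import Pool.Agent.P.MP_9c97e9_nt.KT.IfF2

/-! Conjugation of the Taylor expansions of the coordinates. -/

namespace Pool.Agent.P.MP_9c97e9_nt.KT

open MP_8b7eba_nt MP_8b7eba_nt.R2
open MP_8b7eba_nt.Mod (M2 G0 UH xx yy)
open MP_8b7eba_nt.R1 (Aut)
open PowerSeries

namespace TSIG

/-- the differential system -/
def Sys (A B : ℂ⟦X⟧) : Prop :=
  d⁄dX ℂ A = B ∧ d⁄dX ℂ B = C 6 * (A * A) + (C (-7) * A + C (-18))

theorem uniq {A B A' B' : ℂ⟦X⟧} (h : Sys A B) (h' : Sys A' B')
    (a : constantCoeff A = constantCoeff A') (b : constantCoeff B = constantCoeff B') :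
    A = A' ∧ B = B' := by
  have key : ∀ n, coeff n A = coeff n A' ∧ coeff n B = coeff n B' := fun n => by
    induction n using Nat.strong_induction_on with
    | _ n ih =>
      cases n with
      | zero => simpa using ⟨a, b⟩
      | succ n =>
        refine ⟨coeff_succ ?_, coeff_succ ?_⟩
        · rw [h.1, h'.1, (ih n n.lt_succ_self).2]
        · rw [h.2, h'.2]
          simp only [map_add, coeff_C_mul, (ih n n.lt_succ_self).1]
          congr 2
          rw [coeff_mul, coeff_mul]
          refine Finset.sum_congr rfl fun p hp => ?_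
          have : p.1 + p.2 = n := by simpa using hp
          rw [(ih p.1 (by omega)).1, (ih p.2 (by omega)).1]
  exact ⟨PowerSeries.ext fun n => (key n).1, PowerSeries.ext fun n => (key n).2⟩

theorem d_map (s : ℂ →+* ℂ) (A : ℂ⟦X⟧) :
    d⁄dX ℂ (PowerSeries.map s A) = PowerSeries.map s (d⁄dX ℂ A) := by
  ext n
  simp [coeff_derivative]

theorem Sys.map {A B : ℂ⟦X⟧} (h : Sys A B) (s : ℂ →+* ℂ) :
    Sys (PowerSeries.map s A) (PowerSeries.map s B) := by
  refine ⟨by rw [d_map, h.1], ?_⟩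
  rw [d_map, h.2]
  simp only [map_add, map_mul, map_neg, map_ofNat]

theorem sys {τ : ℂ} (hτ : 0 < τ.im) : Sys (tay τ xx) (tay τ yy) := by
  have a : AnalyticAt ℂ xx τ := Hol.an Mod.diff_xx hτ
  refine ⟨d_tay τ xx, ?_⟩
  rw [d_tay, tay_congr (ev_of_eqOn DD_yy hτ), show (fun z => 6 * xx z ^ 2 - 7 * xx z - 18) =
      fun z => 6 * (xx z * xx z) + (-7 * xx z + -18) from funext fun z => by ring,
    tay_add hτ (analyticAt_const.fun_mul (a.fun_mul a))
      ((analyticAt_const.fun_mul a).fun_add analyticAt_const),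
    tay_add hτ (analyticAt_const.fun_mul a) analyticAt_const,
    tay_mul hτ analyticAt_const (a.fun_mul a), tay_mul hτ a a, tay_mul hτ analyticAt_const a,
    tay_const, tay_const, tay_const]

theorem cc_map (s : ℂ →+* ℂ) (A : ℂ⟦X⟧) :
    constantCoeff (PowerSeries.map s A) = s (constantCoeff A) := rfl

end TSIG

theorem t_SIG : SIG := fun s τ τ' h h' hx hy =>
  TSIG.uniq ((TSIG.sys h).map _) (TSIG.sys h')
    (by simpa [TSIG.cc_map] using hx) (by simpa [TSIG.cc_map] using hy)

end Pool.Agent.P.MP_9c97e9_nt.KT
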