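import Pool.Agent.P.MP_9c97e9_nt.KT.IfF2

/-! Conjugates of algebraic points. -/

namespace Pool.Agent.P.MP_9c97e9_nt.KT

open MP_8b7eba_nt.R2

theorem t_SURA (hSURJ : SURJ) : SURA := by
  intro τ x y ⟨h0, hx, hy⟩ σ
  let f : Om →+* ℂ := io.comp (σ : Om →+* Om)
  have h1 := curve h0
  obtain ⟨h2, h3⟩ := not_cusp h0
  rw [← hx] at h1 h2 h3
  rw [← hy] at h1 h3
  have e1 : y ^ 2 = 4 * x ^ 3 - 7 * x ^ 2 - 36 * x := io.injective (by
    simpa only [map_sub, map_mul, map_pow, map_ofNat] using h1)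
  have e2 : x ≠ 0 := fun h => h2 (by rw [h, map_zero])
  have e3 : x ^ 2 + 2 * y + 9 ≠ 0 := fun h => h3 (by
    simpa only [map_add, map_mul, map_pow, map_ofNat, map_zero] using congrArg io h)
  obtain ⟨τ', a, b, c⟩ := hSURJ (f x) (f y)
    (by simpa only [map_sub, map_mul, map_pow, map_ofNat] using congrArg f e1)
    ((map_ne_zero f).2 e2)
    (by simpa only [map_add, map_mul, map_pow, map_ofNat] using (map_ne_zero f).2 e3)
  exact ⟨τ', a, b.symm, c.symm⟩

end Pool.Agent.P.MP_9c97e9_nt.KT
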