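import Pool.Agent.P.MP_9c97e9_nt.KT.IfF2

/-! Holomorphic elements and units. -/

namespace Pool.Agent.P.MP_9c97e9_nt.KT

open MP_8b7eba_nt.R2

theorem t_UNITS (hPULV : PULV) (hROOT0 : ROOT0) (hRTL : RTL) (hALG : ALG) : UNITS := by
  have h1 : ∀ g ∈ GG, ∀ f ∈ UL, g f ∈ UL := by
    rintro g hg _ ⟨G, a1, a2, rfl⟩
    obtain ⟨G', b1, b2⟩ := hPULV.1 g hg G a1
    refine ⟨G', b1, fun z hz => ?_, b2⟩
    obtain ⟨τ, s, c1, _, c2⟩ := hPULV.2 g hg Unit (fun _ => G) (fun _ => G')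
      (fun _ => ⟨a1, b1, b2⟩) z hz
    rw [(c2 ()).1]
    exact (map_ne_zero s).2 (a2 τ c1)
  have h2 : ∀ u ∈ UL, ∀ N : ℕ, N ≠ 0 → ∃ R, Hol R ∧ (∀ z : ℂ, 0 < z.im → R z ≠ 0) ∧
      mf R ^ N = u := by
    rintro _ ⟨G, a1, a2, rfl⟩ N hN
    obtain ⟨R, b1, b2⟩ := hROOT0 G N hN a1.1 a2
    refine ⟨R, b1, fun z hz e => a2 z hz (by rw [← b2 z hz, e, zero_pow hN]), ?_⟩
    rw [← mf_pow b1, coe_lf a1]
    exact mf_congr b2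
  refine ⟨fun g hg => ⟨?_, h1 g hg⟩, fun u hu N hN => ?_, fun τ x y hτ G hG => ?_⟩
  · rintro _ ⟨G, a1, rfl⟩
    exact hPULV.1 g hg G a1
  · obtain ⟨R, b1, b2, b3⟩ := h2 u hu N hN
    have b4 : InL R := ⟨b1, hRTL _ u N hN b3 fun g hg => by
      obtain ⟨S, _, _, e⟩ := h2 _ (h1 g hg u hu) N hN
      exact ⟨_, e⟩⟩
    refine ⟨lf R, ⟨R, b4, b2, rfl⟩, Subtype.ext ?_⟩
    rw [← b3, ← coe_lf b4]
    rfl
  · obtain ⟨a, ha⟩ := hALG τ x y hτ (lf G) _ (jt_lf hτ.1 hG) 0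
    rw [PowerSeries.coeff_zero_eq_constantCoeff_apply, tay_zero] at ha
    obtain ⟨G1, b1, b2, b3⟩ := Classical.epsilon_spec
      (p := fun a => ∃ G1, InL G1 ∧ lf G = lf G1 ∧ io a = G1 τ) ⟨a, G, hG, rfl, ha⟩
    exact b3.trans ((lf_inj hG b1).1 b2 hτ.1).symm

end Pool.Agent.P.MP_9c97e9_nt.KT
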