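import Pool.Agent.P.MP_9c97e9_nt.KT.TAVD
import Pool.Agent.P.MP_9c97e9_nt.KT.TDNS
import Pool.Agent.P.MP_9c97e9_nt.KT.TLDS
import Pool.Agent.P.MP_9c97e9_nt.KT.TAUT
import Pool.Agent.P.MP_9c97e9_nt.KT.TROOT0
import Pool.Agent.P.MP_9c97e9_nt.KT.TPIG
import Pool.Agent.P.MP_9c97e9_nt.KT.TMGB
import Pool.Agent.P.MP_9c97e9_nt.KT.TNSP
import Pool.Agent.P.MP_9c97e9_nt.KT.TPOLY
import Pool.Agent.P.MP_9c97e9_nt.KT.TSURJ
import Pool.Agent.P.MP_9c97e9_nt.KT.TDIST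
import Pool.Agent.P.MP_9c97e9_nt.KT.TQFH
import Pool.Agent.P.MP_9c97e9_nt.KT.TKER
import Pool.Agent.P.MP_9c97e9_nt.KT.TEVP
import Pool.Agent.P.MP_9c97e9_nt.KT.TNCU
import Pool.Agent.P.MP_9c97e9_nt.KT.TLATX
import Pool.Agent.P.MP_9c97e9_nt.KT.TTORS
import Pool.Agent.P.MP_9c97e9_nt.KT.TNORM
import Pool.Agent.P.MP_9c97e9_nt.KT.TEXTA
import Pool.Agent.P.MP_9c97e9_nt.KT.TEXTB
import Pool.Agent.P.MP_9c97e9_nt.KT.TTWR
import Pool.Agent.P.MP_9c97e9_nt.KT.TRTL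
import Pool.Agent.P.MP_9c97e9_nt.KT.TINTX
import Pool.Agent.P.MP_9c97e9_nt.KT.TDIV
import Pool.Agent.P.MP_9c97e9_nt.KT.TDEN
import Pool.Agent.P.MP_9c97e9_nt.KT.TSIG
import Pool.Agent.P.MP_9c97e9_nt.KT.TFB
import Pool.Agent.P.MP_9c97e9_nt.KT.TSEC0
import Pool.Agent.P.MP_9c97e9_nt.KT.TALG
import Pool.Agent.P.MP_9c97e9_nt.KT.TSECU
import Pool.Agent.P.MP_9c97e9_nt.KT.TSECO
import Pool.Agent.P.MP_9c97e9_nt.KT.TSURA
import Pool.Agent.P.MP_9c97e9_nt.KT.TPOLQ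
import Pool.Agent.P.MP_9c97e9_nt.KT.TPOLA
import Pool.Agent.P.MP_9c97e9_nt.KT.TGAL1
import Pool.Agent.P.MP_9c97e9_nt.KT.TGALX
import Pool.Agent.P.MP_9c97e9_nt.KT.TPERM
import Pool.Agent.P.MP_9c97e9_nt.KT.TSTB
import Pool.Agent.P.MP_9c97e9_nt.KT.TTRS
import Pool.Agent.P.MP_9c97e9_nt.KT.TTR
import Pool.Agent.P.MP_9c97e9_nt.KT.THEC
import Pool.Agent.P.MP_9c97e9_nt.KT.TDENSE
import Pool.Agent.P.MP_9c97e9_nt.KT.TPULL
import Pool.Agent.P.MP_9c97e9_nt.KT.TPULV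
import Pool.Agent.P.MP_9c97e9_nt.KT.TUNITS
import Pool.Agent.P.MP_9c97e9_nt.KT.TSECX
import Pool.Agent.P.MP_9c97e9_nt.KT.TORP
import Pool.Agent.P.MP_9c97e9_nt.KT.TCONJ
import Pool.Agent.P.MP_9c97e9_nt.KT.TQHOL
import Pool.Agent.P.MP_9c97e9_nt.KT.TQACT
import Pool.Agent.P.MP_9c97e9_nt.KT.TQIN
import Pool.Agent.P.MP_9c97e9_nt.KT.TPRX
import Pool.Agent.P.MP_9c97e9_nt.KT.TEV2

/-! The chapter on the function field: all statements except the last one. -/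

namespace Pool.Agent.P.MP_9c97e9_nt.KT

theorem a_AVD : AVD := t_AVD

theorem a_DNS : DNS := t_DNS a_AVD

theorem a_LDS : LDS := t_LDS

theorem a_AUT : AUT := t_AUT

theorem a_ROOT0 : ROOT0 := t_ROOT0

theorem a_PIG : PIG := t_PIG

theorem a_MGB : MGB := t_MGB

theorem a_NSP : NSP := t_NSP

theorem a_POLY : POLY := t_POLY a_NSP a_MGB

theorem a_SURJ : SURJ := t_SURJ a_NSP

theorem a_DIST : DIST := t_DIST

theorem a_QFH : QFH := t_QFH a_MGB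

theorem a_KER : KER := t_KER

theorem a_EVP : EVP := t_EVP t_EV2

theorem a_NCU : NCU := t_NCU t_EV2 a_EVP

theorem a_LATX : LATX := t_LATX

theorem a_TORS : TORS := t_TORS

theorem a_NORM : NORM := t_NORM

theorem a_EXTA : EXTA := t_EXTA a_NORM

theorem a_EXTB : EXTB := t_EXTB a_NORM a_EXTA

theorem a_TWR : TWR := t_TWR a_NORM

theorem a_RTL : RTL := t_RTL a_TWR

theorem a_INTX : INTX := t_INTX a_NORM

theorem a_DIV : DIV := t_DIV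

theorem a_DEN : DEN := t_DEN a_INTX a_DIV a_MGB

theorem a_SIG : SIG := t_SIG

theorem a_FB : FB := t_FB a_NORM

theorem a_SEC0 : SEC0 := t_SEC0 a_SIG a_EXTA a_FB

theorem a_ALG : ALG := t_ALG a_SEC0 a_NORM a_AUT

theorem a_SECU : SECU := t_SECU a_ALG a_DEN

theorem a_SECO : SECO := t_SECO a_SEC0 a_AUT

theorem a_SURA : SURA := t_SURA a_SURJ

theorem a_POLQ : POLQ := t_POLQ a_POLY a_LDS

theorem a_POLA : POLA := t_POLA a_POLY a_LDS a_ALG a_SURJ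

theorem a_GAL1 : GAL1 := t_GAL1 a_POLQ a_MGB a_NORM

theorem a_GALX : GALX := t_GALX a_GAL1 a_KER a_EXTB a_FB

theorem a_PERM : PERM := t_PERM a_QFH a_GAL1

theorem a_STB : STB := t_STB a_TWR a_PERM a_NORM

theorem a_TRS : TRS := t_TRS a_STB

theorem a_TR : TR := t_TR a_TRS a_STB a_FB

theorem a_HEC : HEC := t_HEC a_TR a_PERM a_DIST

theorem a_DENSE : DENSE := t_DENSE a_DNS a_DEN a_POLA a_TR a_FB

theorem a_PULL : PULL := t_PULL a_SURJ a_SEC0 a_AUT a_DENSE a_TRS a_FB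

theorem a_PULV : PULV := t_PULV a_PULL a_DIV

theorem a_UNITS : UNITS := t_UNITS a_PULV a_ROOT0 a_RTL a_ALG

theorem a_SECX : SECX := t_SECX a_SEC0 a_SECU a_AUT a_ALG a_DEN a_PULV a_UNITS a_SURJ a_NORM a_FB

theorem a_ORP : ORP := t_ORP a_POLA a_TR a_FB a_MGB a_UNITS

theorem a_CONJ : CONJ := t_CONJ a_ORP a_EVP a_NCU a_SURJ a_AVD a_GAL1 a_MGB a_UNITS t_EV2

theorem a_QHOL : QHOL := t_QHOL

theorem a_QACT : QACT := t_QACT a_QHOL a_PULV a_PIG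

theorem a_QIN : QIN := t_QIN a_QHOL a_QACT a_TORS a_RTL

theorem a_PRX : PRX := t_PRX a_LATX a_TORS a_QHOL a_QACT a_QIN a_TR a_UNITS a_FB

end Pool.Agent.P.MP_9c97e9_nt.KT
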