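import Pool.Agent.P.MP_9c97e9_nt.KT.IfJ
import Pool.Agent.P.MP_9c97e9_nt.KT.TBAS

/-! The discrete logarithm at a Kolyvagin prime. -/

namespace Pool.Agent.P.MP_9c97e9_nt.KT

open MP_8b7eba_nt.R2

namespace TDLOG

/-- an automorphism which moves the square roots of `p` has a non-square cyclotomic character -/
lemma nonsq {p : ℕ} [hp : Fact p.Prime] (h4 : p % 4 = 1) (t : GQ)
    (ht : ∀ β : Om, β ^ 2 = p → t β = -β) : ¬ IsSquare (cy p t : ZMod p) := by
  intro hs
  have hp0 : p ≠ 0 := hp.out.ne_zero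
  have hc : ringChar (ZMod p) ≠ 2 := by
    rw [ZMod.ringChar_zmod_n]
    omega
  obtain ⟨ζ, hζ⟩ := HasEnoughRootsOfUnity.exists_primitiveRoot Om p
  set ψ := AddChar.zmodChar p ((IsPrimitiveRoot.iff_def ζ p).mp hζ).left with hψ
  have hψ' : ψ.IsPrimitive := AddChar.zmodChar_primitive_of_primitive_root p hζ
  set χ := (quadraticChar (ZMod p)).ringHomComp (Int.castRingHom Om) with hχ
  have h1 : χ ≠ 1 := (MulChar.ringHomComp_ne_one_iff (RingHom.injective_int _)).2
    (quadraticChar_ne_one hc)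
  have h2 := gaussSum_sq h1 ((quadraticChar_isQuadratic (ZMod p)).comp _) hψ'
  have h3 : χ (-1) = 1 := by
    rw [hχ, MulChar.ringHomComp_apply, (quadraticChar_one_iff_isSquare (by simp)).2
      (FiniteField.isSquare_neg_one_iff.2 (by rw [ZMod.card]; omega)), map_one]
  rw [h3, one_mul, ZMod.card] at h2
  have h5 : t (gaussSum χ ψ) = gaussSum χ (ψ.mulShift (cy p t)) := by
    simp only [gaussSum, map_sum, map_mul]
    refine Finset.sum_congr rfl fun a _ => ?_
    congr 1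
    · rw [hχ, MulChar.ringHomComp_apply]
      simp
    · rw [t_BAS.2.1 p hp0 t (ψ a) (by rw [← AddChar.map_nsmul_eq_pow]; simp), AddChar.mulShift_apply,
        ← AddChar.map_nsmul_eq_pow, nsmul_eq_mul, ZMod.natCast_zmod_val]
  have h6 := gaussSum_mulShift χ ψ (cy p t)
  rw [← h5, ht _ h2, hχ, MulChar.ringHomComp_apply,
    (quadraticChar_one_iff_isSquare (Units.ne_zero _)).2 hs, map_one, one_mul, ← hχ] at h6
  have h7 : gaussSum χ ψ = 0 := by linear_combination (-1 / 2 : Om) * h6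
  rw [h7] at h2
  exact hp0 (by exact_mod_cast h2.symm.trans (zero_pow two_ne_zero))

end TDLOG

theorem t_DLOG : DLOG := by
  intro w t k hk ht
  have hp : Fact w.p.Prime := ⟨w.prime⟩
  have h1 : 2 ^ (k + 2) ∣ w.p - 1 := (Nat.modEq_iff_dvd' w.prime.one_le).1 hk.symm
  have h4 : w.p % 4 = 1 := by
    have := w.prime.one_le
    have : 4 ∣ w.p - 1 := Dvd.dvd.trans ⟨2 ^ k, by ring⟩ h1
    omega
  have hns := TDLOG.nonsq h4 t ht
  obtain ⟨τ, hτ⟩ := IsCyclic.exists_monoid_generator (α := (ZMod w.p)ˣ)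
  choose L hL using fun u => (Submonoid.mem_powers_iff u τ).1 (hτ u)
  have ho : orderOf τ = w.p - 1 := by
    rw [orderOf_eq_card_of_forall_mem_powers hτ, Nat.card_eq_fintype_card, ZMod.card_units]
  have hm : ¬ (2 : ℤ) ∣ (L (cy w.p t) : ℤ) := by
    intro h
    obtain ⟨c, hc⟩ : 2 ∣ L (cy w.p t) := by exact_mod_cast h
    refine hns ⟨(τ ^ c : (ZMod w.p)ˣ), ?_⟩
    rw [← Units.val_mul, ← pow_add, ← two_mul, ← hc, hL]
  have hn : ‖(L (cy w.p t) : ℚ_[2])‖ = 1 := by
    have h2 := Padic.norm_int_le_one (p := 2) (L (cy w.p t) : ℤ)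
    have h3 := mt (Padic.norm_intCast_lt_one_iff (p := 2) (k := (L (cy w.p t) : ℤ))).1 hm
    rw [Int.cast_natCast] at h2 h3
    exact le_antisymm h2 (not_lt.1 h3)
  refine ⟨fun σ => (L (cy w.p σ) : ℚ_[2]) / L (cy w.p t), ⟨fun σ => ?_, fun σ σ' h => ?_⟩,
    fun σ g => ?_, div_self fun h => ?_⟩
  · rw [norm_div, hn, div_one]
    simpa using Padic.norm_int_le_one (p := 2) (L (cy w.p σ) : ℤ)
  · simp only [h]
  · have h2 : L (cy w.p σ) + L (cy w.p g) ≡ L (cy w.p (σ * g)) [MOD orderOf τ] := by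
      rw [← pow_eq_pow_iff_modEq, pow_add, hL, hL, hL, map_mul]
    have h3 : (2 : ℤ) ^ k ∣ (L (cy w.p (σ * g)) : ℤ) - (L (cy w.p σ) + L (cy w.p g) : ℕ) := by
      refine Dvd.dvd.trans ?_ h2.dvd
      rw [ho]
      exact_mod_cast Dvd.dvd.trans ⟨4, by ring⟩ h1
    have h5 := (Padic.norm_int_le_pow_iff_dvd (p := 2) _ k).2 h3
    simp only
    rw [← sub_div, ← sub_div, norm_div, hn, div_one, sub_sub]
    push_cast at h5
    simpa using h5
  · rw [h, norm_zero] at hn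
    exact zero_ne_one hn

end Pool.Agent.P.MP_9c97e9_nt.KT
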