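import Pool.Agent.P.MP_9c97e9_nt.KT.DefsJ

/-! Statements of the Kolyvagin argument. -/

namespace Pool.Agent.P.MP_9c97e9_nt.KT

open scoped NNReal Matrix
open MP_8b7eba_nt.R2
open Filter Topology Polynomial Module

/-! ### Cyclotomic characters -/

/-- properties of the cyclotomic characters -/
def CYB : Prop :=
  (∀ M, M ≠ 0 → Function.Surjective (cy M) ∧ ON (cy M).ker ∧
    (∀ N (h : M ∣ N), N ≠ 0 → ∀ g, ZMod.unitsMap h (cy N g) = cy M g) ∧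
    ∀ w : Pl, ¬ w.p ∣ M → (∀ g ∈ w.I, cy M g = 1) ∧
      ∀ φ, w.IsFrob 1 φ → cy M φ = un (w.p : ZMod M) ∧ (cy M φ : ZMod M) = w.p) ∧
  (∀ (w : Pl) φ, w.p ≠ 2 → w.IsFrob 1 φ → la φ ≠ 0 ∧
    ∀ k, w.p ≡ 1 [MOD 2 ^ (k + 2)] → 2 ^ k ∣ la φ ∧ Ps k φ = 0 ∧ cy (2 ^ (k + 2)) φ = 1) ∧
  ∀ k, (∀ g, lu k (cy _ g) = (Ps k g).val) ∧ (∀ δ, lu k δ < 2 ^ k ∧ lu k (-δ) = lu k δ) ∧
    (∀ δ η, (lu k (δ * η) : ZMod (2 ^ k)) = lu k δ + lu k η) ∧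
    (∀ ν : ℕ, Odd ν → lu k (un (ν : ZMod (2 ^ (k + 2)))) = lz k ν) ∧
    (∀ j, Wi (2 ^ (k + 2)) (ind k j)) ∧
    ∀ M (W : Wt), M ≠ 0 → 2 ^ k ∣ M → (∀ σ, ‖W σ‖ ≤ 1) →
      (∀ σ σ', 2 ^ k ∣ (cyc σ : ℤ_[2]) - cyc σ' → W σ = W σ') → Wi M W

/-- the discrete logarithm -/
def DLOG : Prop :=
  ∀ (w : Pl) (t : GQ) (k : ℕ), w.p ≡ 1 [MOD 2 ^ (k + 2)] → (∀ β : Om, β ^ 2 = w.p → t β = -β) →
    ∃ d : Wt, Wi w.p d ∧ (∀ σ g, ‖d (σ * g) - d σ - d g‖ ≤ (2 ^ k)⁻¹) ∧ d t = 1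

/-! ### The Euler system at finite level -/

/-- passage to measures -/
def MU : Prop :=
  ∀ (D : Dat) (z : EA), D.ES z → D.MS (mu z) ∧ ∀ k j g, der (D := D) (mu z) ∅ k g j =
    ∑ δ ∈ Finset.univ.filter fun δ => lu k δ = j, z k (2 ^ (k + 2)) g δ

/-- norm compatible families of equivariant measures vanish -/
def PUSH : Prop :=
  ∀ (k : ℕ) (P : ℕ → Prop) (C : ℕ → Wt →ₗ[ℚ_[2]] V2) (R : Mt) (φ : GQ),
    (∀ M, P M → M ≠ 0 ∧ P (M * 2)) → la φ ≠ 0 → (∀ i j, ‖(R - 1) i j‖ ≤ 2⁻¹) →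
    (∀ M W (ε : ℝ), P M → 0 ≤ ε → (∀ σ, ‖W σ‖ ≤ ε) → ‖C M W‖ ≤ ε) →
    (∀ M W, P M → Wi M W → ‖C (M * 2) W - C M W‖ ≤ (2 ^ k)⁻¹) →
    (∀ M W, P M → Wi M W → ‖C M W - R *ᵥ C M (tl W φ)‖ ≤ (2 ^ k)⁻¹) →
    ∀ M W, P M → Wi M W → ‖C M W‖ ≤ (2 ^ k)⁻¹

/-- the Euler system is unramified outside the level -/
def UNRF : Prop :=
  ∀ (D : Dat) (μ : MA), D.MS μ → ∀ (k M : ℕ) (w : Pl) (W : Wt), D.Lv k M → ¬ w.p ∣ M → Wi M W →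
    (¬ w.p ∣ 15 * D.n → ∀ g ∈ w.I, ‖μ k M g W‖ ≤ (2 ^ k)⁻¹) ∧
    ∀ t e c, w.p ∣ 15 → D.BadJ w t e c → ‖dt e (μ k M t W)‖ ≤ (2 ^ k)⁻¹

/-- the derived measures are invariant -/
def QZ : Prop :=
  ∀ (D : Dat) (μ : MA), D.MS μ → ∀ s : Finset (Kp D), Ok s → ∀ k,
    D.Lv k (ck s k) ∧ Wi (ck s k) (wt s k) ∧ ∀ f, Wi (2 ^ (k + 2)) f → Wi (ck s k) (wt s k * f) ∧
      ∀ g h, ‖μ k (ck s k) h (tl (wt s k) g * f) - μ k (ck s k) h (wt s k * f)‖ ≤ (2 ^ k)⁻¹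

/-- the finite-singular relation at finite level -/
def FSR : Prop :=
  ∀ (D : Dat) (μ : MA), D.MS μ → ∀ (l : Kp D) (k M : ℕ) (W : Wt), D.Lv k M → ¬ (l.w k).p ∣ M →
    Wi M W → ‖μ k (M * (l.w k).p) (l.t k) (l.d k * W) + μ k M (l.F k) W -
      (D.rd (l.F k)).adjugate *ᵥ μ k M (l.F k) (tl W (l.F k))‖ ≤ (2 ^ k)⁻¹

/-! ### The Kolyvagin system -/

/-- the derived cochains are normalised cocycles -/
def KPZJ : Prop :=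
  ∀ (D : Dat) (μ : MA), D.MS μ → ∀ s : Finset (Kp D), Ok s → (∀ k g j, ‖der μ s k g j‖ ≤ 1) ∧
    ∀ (A : Type) [NormedCommRing A] [NormedAlgebra ℚ_[2] A] [IsUltrametricDist A]
      [FiniteDimensional ℚ_[2] A] (ψ : ℤ_[2] → A), IsPsi ψ → D.Rel ψ s (raw ψ (der μ s))

/-- the finite-singular relation -/
def KRELJ : Prop :=
  ∀ (D : Dat) (μ : MA), D.MS μ → ∀ (s : Finset (Kp D)) l (h : l ∉ s), Ok (s.cons l h) →
    ∀ (A : Type) [NormedCommRing A] [NormedAlgebra ℚ_[2] A] [IsUltrametricDist A]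
      [FiniteDimensional ℚ_[2] A] (ψ : ℤ_[2] → A), IsPsi ψ →
      raw ψ (der μ (s.cons l h)) l.t = ve l.e (-l.c • de l.e (raw ψ (der μ s) l.F))

/-! ### Duality -/

/-- the reciprocity law for patched cocycles over the rationals -/
def PRECQ : Prop :=
  ∀ (B : GS → GS → ℚ_[2]) (ι : Type) [Fintype ι] (w : ι → ℕ → Pl), PZ2 (fun _ => ⊤) B →
    (∀ᶠ k in UF, (∀ i j, (w i k).p = (w j k).p → i = j) ∧ ∃ i, (w i k).p = 2) →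
    (∀ w' : ℕ → Pl, (∀ᶠ k in UF, ∀ i, (w' k).p ≠ (w i k).p) → PI w' (fun k => (w' k).D) B = 0) →
    ∑ i, PI (w i) (fun k => (w i k).D) B = 0

/-- the local pairing at a Kolyvagin prime, trivial coefficients -/
def PKOLQ : Prop :=
  ∀ (D : Dat) (l : Kp D), (∀ g ∈ St fun k => (l.w k).D, cS g = 1) ∧
    ∃ (d : GS → ℚ_[2]) (u : ℚ_[2]), u ≠ 0 ∧ PZ (fun k => (l.w k).D) (fun _ => LinearMap.id) d ∧
      d l.t = 1 ∧ ∀ y : GS → ℚ_[2], PZ (fun k => (l.w k).D) (fun _ => LinearMap.id) y →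
        (∀ g ∈ St fun k => (l.w k).I, y g = 0) →
        PI l.w (fun k => (l.w k).D) (fun g h => d g * y h) = u * y l.F

/-- local properties at a Kolyvagin prime -/
def KTR : Prop :=
  ∀ (D : Dat) (l : Kp D), ∃ u : ℚ_[2], u ≠ 0 ∧
    ∀ (A : Type) [NormedCommRing A] [NormedAlgebra ℚ_[2] A] [IsUltrametricDist A]
      [FiniteDimensional ℚ_[2] A] (ψ : ℤ_[2] → A), IsPsi ψ →
      ∀ x, PZ (fun k => (l.w k).D) (D.r ψ) x → (∀ g ∈ St fun k => (l.w k).I, x g = 0) →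
        (de l.e (x l.F) = 0 → Cob (St fun k => (l.w k).D) (D.r ψ) x) ∧
        ∀ (t : A →ₗ[ℚ_[2]] ℚ_[2]) y b, PZ (fun k => (l.w k).D) (D.r (bar ψ)) y →
          y l.t = ve l.e b → PI l.w (fun k => (l.w k).D) (cupS (TDUAL.bt t) (D.r ψ) y x) =
            u * t (b * de l.e (x l.F))

/-- the sum of the local terms vanishes -/
def GLOB : Prop :=
  ∀ (D : Dat) (A : Type) [NormedCommRing A] [NormedAlgebra ℚ_[2] A] [IsUltrametricDist A]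
    [FiniteDimensional ℚ_[2] A] (ψ : ℤ_[2] → A), IsPsi ψ → ∀ s, Ok s →
    ∀ (t : A →ₗ[ℚ_[2]] ℚ_[2]) x y, D.Rel ψ s x → D.Rel (bar ψ) s y →
      PI (fun _ => w2) (fun _ => w2.D) (cupS (TDUAL.bt t) (D.r ψ) y x) +
        ∑ l ∈ s, PI l.w (fun k => (l.w k).D) (cupS (TDUAL.bt t) (D.r ψ) y x) = 0

/-- global duality -/
def DUALJ : Prop :=
  ∀ (D : Dat) (A : Type) [NormedCommRing A] [NormedAlgebra ℚ_[2] A] [IsUltrametricDist A]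
    [FiniteDimensional ℚ_[2] A] (ψ : ℤ_[2] → A), IsPsi ψ →
    (∀ s l (h : l ∉ s) x y b, Ok (s.cons l h) → D.DS ψ s x → D.Rel (bar ψ) (s.cons l h) y →
      y l.t = ve l.e b → b * de l.e (x l.F) = 0) ∧
    ∀ x y, D.Sel ψ x → D.Rel (bar ψ) ∅ y → ∀ t : A →ₗ[ℚ_[2]] ℚ_[2],
      PI (fun _ => w2) (fun _ => w2.D) (cupS ((LinearMap.mul ℚ_[2] A).compr₂ t) (D.th ψ 0)
        (fun g => D.ln (bar ψ) y g 1) fun g => D.ln ψ x g 0) = 0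

/-! ### The choice of the primes -/

/-- the Chebotarev theorem for patched classes -/
def CHEB0J : Prop :=
  ∀ (D : Dat) (s : Finset (Kp D)) (e : V2) (c : ℚ_[2]) (g : GS), e ≠ 0 → c ≠ 0 →
    (∀ k, D.rd (g k) = 1 + c • nu e ∧ g k D.dl = D.dl ∧ cyc (g k) = 1) →
    ∀ (A : Type) [NormedCommRing A] [NormedAlgebra ℚ_[2] A] [IsUltrametricDist A]
      [FiniteDimensional ℚ_[2] A] (ψ ψ' : ℤ_[2] → A) (x y : GS → Fin 2 → A), IsPsi ψ → IsPsi ψ' →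
      PZ (fun _ => ⊤) (D.r ψ) x → PZ (fun _ => ⊤) (D.r ψ') y →
      ∃ l : Kp D, l.e = e ∧ (∀ l' ∈ s, ∀ k, (l.w k).p ≠ (l'.w k).p) ∧ ∃ u : ℚ_[2], u ≠ 0 ∧
        de e (x l.F) = u • de e (x g) ∧ de e (y l.F) = u • de e (y g)

/-- the choice of a Kolyvagin prime -/
def CHEBJ : Prop :=
  ∀ (D : Dat) (s : Finset (Kp D)) (A : Type) [NormedCommRing A] [NormedAlgebra ℚ_[2] A]
    [IsUltrametricDist A] [FiniteDimensional ℚ_[2] A] (ψ ψ' : ℤ_[2] → A) (x y : GS → Fin 2 → A),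
    IsPsi ψ → IsPsi ψ' → PZ (fun _ => ⊤) (D.r ψ) x → PZ (fun _ => ⊤) (D.r ψ') y →
    x (cs D.z) = 0 → y (cs D.z) = 0 → x ≠ 0 → y ≠ 0 →
    ∃ l : Kp D, (∀ l' ∈ s, ∀ k, (l.w k).p ≠ (l'.w k).p) ∧ de l.e (x l.F) ≠ 0 ∧ de l.e (y l.F) ≠ 0

/-! ### The bounds -/

/-- the Kolyvagin bound for the strict Selmer group -/
def HBJ : Prop :=
  ∀ (D : Dat) (v : Finset (Kp D) → KA), D.Kol v → ∀ (q : ℚ_[2][X]) (j m α : ℕ), Irreducible q →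
    α < m → ∀ (A : Type) [NormedCommRing A] [NormedAlgebra ℚ_[2] A] [IsUltrametricDist A]
      [FiniteDimensional ℚ_[2] A] (ψ : ℤ_[2] → A) (A' : Type) [NormedCommRing A']
      [NormedAlgebra ℚ_[2] A'] [IsUltrametricDist A'] [FiniteDimensional ℚ_[2] A'] (ψ' : ℤ_[2] → A'),
      IsAF ψ (q ^ (j + m)) → IsAF ψ' (q ^ j) →
      aeval (ψ 1 - 1) q ^ (j + m - α - 1) • raw (bar ψ) (v ∅) ≠ 0 →
      ∀ M : Submodule A' (GS → Fin 2 → A'), FiniteDimensional ℚ_[2] M →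
        (∀ x ∈ M, D.Sel ψ' x ∧ D.Str ψ' x) → finrank ℚ_[2] M ≤ q.natDegree * α

/-- comparison of the ordinary and of the strict Selmer group -/
def SBJ : Prop :=
  ∀ (D : Dat) (A : Type) [NormedCommRing A] [NormedAlgebra ℚ_[2] A] [IsUltrametricDist A]
    [FiniteDimensional ℚ_[2] A] (ψ : ℤ_[2] → A) (π : A) (j e b R : ℕ) (κ : GS → Fin 2 → A),
    IsPsi ψ → Chain π j e → b < j → D.Rel (bar ψ) ∅ κ → ¬ D.Ord (bar ψ) (π ^ (j - b - 1) • κ) →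
    (∀ M : Submodule A (GS → Fin 2 → A), FiniteDimensional ℚ_[2] M →
      (∀ x ∈ M, D.Sel ψ x ∧ D.Str ψ x) → finrank ℚ_[2] M ≤ R) →
    ∀ M : Submodule A (GS → Fin 2 → A), FiniteDimensional ℚ_[2] M → (∀ x ∈ M, D.Sel ψ x) →
      finrank ℚ_[2] M ≤ R + e * b

/-! ### The explicit reciprocity law -/

/-- the limits of the analytic side -/
def ERLA : Prop :=
  ∀ (n : ℕ) (u : ∀ k : ℕ, (ZMod (2 ^ (k + 2)))ˣ), (∀ k ν, ‖msy n k ν‖ ≤ 4) ∧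
    ∀ (A : Type) [NormedCommRing A] [NormedAlgebra ℚ_[2] A] [IsUltrametricDist A]
      [FiniteDimensional ℚ_[2] A] (ψ : ℤ_[2] → A), IsPsi ψ →
      Tendsto (fun k => ∑ δ, ψ (-lu k δ)) UF (𝓝 0) ∧ ∃ b, Tendsto (fun k => ∑ ν ∈ oddR n k,
        msy n k ν • ψ (-lu k (u k * (un (ν : ZMod (2 ^ (k + 2))))⁻¹))) UF
        (𝓝 (ψ b * thA (mes n) ψ))

/-- the cup product with the local class -/
def ERLB : Prop :=
  ∀ (D : Dat) (z : EA) (y : ∀ k : ℕ, GQ → (ZMod (2 ^ (k + 2)))ˣ → V2), D.ES z → (∀ k, D.LY k (y k)) →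
    ∀ (A : Type) [NormedCommRing A] [NormedAlgebra ℚ_[2] A] [IsUltrametricDist A]
      [FiniteDimensional ℚ_[2] A] (ψ : ℤ_[2] → A), IsPsi ψ →
      ∃ Y, PZ (fun _ => w2.D) (D.r ψ) Y ∧ (∀ g, Y g 1 = 0) ∧ ∀ (a : A) (t : A →ₗ[ℚ_[2]] ℚ_[2]),
        Ap2 (fun _ => w2.D) (fun k g h => ∑ δ, ∑ η, t (a * ψ (-lu k (δ * η⁻¹))) *
          dt (z k (2 ^ (k + 2)) g δ) (D.rd g *ᵥ y k h (η * (cy _ g)⁻¹)))
          (cupS (TDUAL.bt t) (D.r ψ) (a • raw (bar ψ) (der (D := D) (mu z) ∅)) Y)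

/-- the explicit reciprocity law for the patched class -/
def ERLP : Prop :=
  ∀ (D : Dat) (z : EA), D.ES z → D.ERL z →
    ∀ (A : Type) [NormedCommRing A] [NormedAlgebra ℚ_[2] A] [IsUltrametricDist A]
      [FiniteDimensional ℚ_[2] A] (ψ : ℤ_[2] → A), IsPsi ψ → ∀ a : A,
      D.Ord (bar ψ) (a • raw (bar ψ) (der (D := D) (mu z) ∅)) → a * thA (mes D.n) ψ = 0

end Pool.Agent.P.MP_9c97e9_nt.KT
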