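import Pool.Agent.P.MP_9c97e9_nt.KT.SelJ
import Pool.Agent.P.MP_9c97e9_nt.KT.IfJ

/-! Global duality. -/

namespace Pool.Agent.P.MP_9c97e9_nt.KT

open scoped NNReal Matrix
open MP_8b7eba_nt.R2
open Filter Topology

theorem TDUALJ.pi_cob {A : Type} [NormedCommRing A] [NormedAlgebra ℚ_[2] A] [IsUltrametricDist A]
    [FiniteDimensional ℚ_[2] A] {ψ : ℤ_[2] → A} {D : Dat} {x y : GS → Fin 2 → A} (h : IsPsi ψ)
    (t : A →ₗ[ℚ_[2]] ℚ_[2]) (w : ℕ → Pl) (hy : PZ (fun _ => ⊤) (D.r (bar ψ)) y)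
    (hx : PZ (fun _ => ⊤) (D.r ψ) x) (hc : Cob (St fun k => (w k).D) (D.r ψ) x) :
    PI w (fun k => (w k).D) (cupS (TDUAL.bt t) (D.r ψ) y x) = 0 :=
  (a_PIX w _ (fun k => (w k).loc_D) _ (Dat.pz2 h t (hy.mono fun _ => le_top)
    (hx.mono fun _ => le_top))).2.2.2.2.2.1 (cob2_cup_right (D.rep h.bar) (D.rep h)
      (fun _ => le_top) (fun g _ => D.bt_r h t g) (hy.mono fun _ => le_top) hc)

theorem t_DUALJ (hK : KTR) (hG : GLOB) : DUALJ := by
  intro D A _ _ _ _ ψ h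
  constructor
  · intro s l hl x y b ok hx hy hb
    have hu : ∀ l' : Kp D, ∀ g ∈ St fun k => (l'.w k).I, x g = 0 := fun l' g hg =>
      hx.1.unr_kp (by simp) hg
    refine (Module.forall_dual_apply_eq_zero_iff ℚ_[2] _).1 fun t => ?_
    have h1 := hG D A ψ h _ ok t x y (hx.1.mono (Finset.empty_subset _)) hy
    obtain ⟨u, hu0, h2⟩ := hK D l
    rw [TDUALJ.pi_cob h t (fun _ => w2) hy.pz hx.1.pz ((Dat.str_iff h).1 hx.2.1), zero_add,
      Finset.sum_cons, Finset.sum_eq_zero, add_zero,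
      (h2 A ψ h x (hx.1.pz.mono fun _ => le_top) (hu l)).2 t y b (hy.pz.mono fun _ => le_top) hb]
      at h1
    · exact (mul_eq_zero.1 h1).resolve_left hu0
    · intro l' hl'
      obtain ⟨_, -, h3⟩ := hK D l'
      exact TDUALJ.pi_cob h t l'.w hy.pz hx.1.pz
        ((h3 A ψ h x (hx.1.pz.mono fun _ => le_top) (hu l')).1 (hx.2.2 l' hl'))
  · intro x y hx hy t
    have h1 := hG D A ψ h ∅ (fun _ a => absurd a (Finset.notMem_empty _)) t x y
      (Dat.sel_iff.1 hx).1 hy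
    have hy' := hy.pz.mono (H' := fun _ => w2.D) fun _ => le_top
    have hx' := hx.pz.mono (H' := fun _ => w2.D) fun _ => le_top
    obtain ⟨B, h4, h5, h6⟩ := Dat.at_two h t hy' hx' hx.ord
    rw [Finset.sum_empty, add_zero,
      TDUAL.pi_eq a_PIX (fun _ => w2.loc_D) (Dat.pz2 h t hy' hx') h4 h5] at h1
    rw [(a_PIX _ _ (fun _ => w2.loc_D) _ (h4.smul (-1))).2.2.1 _ fun g hg g' hg' => ?_,
      (a_PIX _ _ (fun _ => w2.loc_D) _ h4).2.2.2.2.1, h1, mul_zero]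
    rw [Pi.smul_apply, Pi.smul_apply, h6 g hg g' hg', neg_one_smul, neg_neg]
    rfl

end Pool.Agent.P.MP_9c97e9_nt.KT
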