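import Pool.Agent.P.MP_9c97e9_nt.KT.SelJ

/-! Proof of ERLP. -/

namespace Pool.Agent.P.MP_9c97e9_nt.KT

open scoped NNReal Matrix
open MP_8b7eba_nt.R2
open Filter Topology Polynomial Module

namespace TERLP

theorem appr (i : ℕ) : ∃ m : ℚ_[2] → ℤ, ∀ x, ‖x‖ ≤ 1 → ‖x - m x‖ ≤ (2 ^ i)⁻¹ := by
  have : ∀ x : ℚ_[2], ∃ m : ℤ, ‖x‖ ≤ 1 → ‖x - m‖ ≤ (2 ^ i)⁻¹ := fun x => by
    by_cases h : ‖x‖ ≤ 1
    · obtain ⟨z, rfl⟩ : ∃ z : ℤ_[2], (z : ℚ_[2]) = x := ⟨⟨x, h⟩, rfl⟩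
      obtain ⟨m, hm⟩ := PadicInt.denseRange_intCast.exists_dist_lt z
        (show (0 : ℝ) < (2 ^ i)⁻¹ by positivity)
      refine ⟨m, fun _ => ?_⟩
      rw [dist_eq_norm, PadicInt.norm_def] at hm
      simpa using hm.le
    · exact ⟨0, fun e => absurd e h⟩
  exact ⟨_, (Classical.skolem.1 this).choose_spec⟩

theorem ly0 (D : Dat) (k : ℕ) : D.LY k 0 :=
  ⟨fun _ _ => by simp, fun _ _ => by simp, Sm.const 0, fun _ _ _ _ _ => by simp⟩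

theorem sum_le {ι : Type} (s : Finset ι) {f g : ι → ℚ_[2]} {a b : ℝ} (ha : 0 ≤ a) (hb : 0 ≤ b)
    (hf : ∀ i, ‖f i‖ ≤ a) (hg : ∀ i, ‖g i‖ ≤ b) : ‖∑ i ∈ s, f i * g i‖ ≤ a * b :=
  IsUltrametricDist.norm_sum_le_of_forall_le_of_nonneg (mul_nonneg ha hb) fun i _ =>
    (norm_mul _ _).trans_le (mul_le_mul (hf i) (hg i) (norm_nonneg _) ha)

/-- the estimate at finite level -/
theorem fin (hC : CYB) (hA : ERLA) {D : Dat} {i j e : ℕ} {x y : GQ → (ZMod (2 ^ (i + j + 2)))ˣ → V2}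
    {u : (ZMod (2 ^ (i + j + 2)))ˣ} {c a b : ℚ_[2]} {B : ℝ} (hx : ∀ g δ, ‖x g δ‖ ≤ 1)
    (hy : ∀ g δ, ‖y g δ‖ ≤ 1) (ha : ‖a‖ = 1) (hb : ‖b‖ ≤ B) {f : ℕ → ℚ_[2]} (hf : ∀ n, ‖f n‖ ≤ 1)
    (h : ∀ W : (ZMod (2 ^ (i + j + 2)))ˣ → ℤ, (∀ δ, W (-δ) = W δ) →
      nv w2 w2.D (D.wcup (i + j) x y W) ^ e =
        ec ((c * a * ∑ ν ∈ oddR D.n (i + j), msy D.n (i + j) ν *
          W (u * (un (ν : ZMod (2 ^ (i + j + 2))))⁻¹) + b * ∑ δ, W δ) / 2 ^ (i + j)))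
    (h1 : nv w2 w2.D (fun g h => ec ((∑ δ, ∑ η, f (lu (i + j) (δ * η⁻¹)) *
      dt (x g δ) (D.rd g *ᵥ y h (η * (cy _ g)⁻¹))) / 2 ^ i)) = 1) :
    ‖c‖ * ‖∑ ν ∈ oddR D.n (i + j), msy D.n (i + j) ν *
        f (lu (i + j) (u * (un (ν : ZMod (2 ^ (i + j + 2))))⁻¹))‖ ≤
      (1 + 4 * ‖c‖ + B) * (2 ^ i)⁻¹ + B * ‖∑ δ, f (lu (i + j) δ)‖ := by
  have hE := a_EC.1
  obtain ⟨m, hm⟩ := appr i
  have h2 := h (fun δ => 2 ^ j * m (f (lu (i + j) δ))) fun δ => by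
    rw [((hC.2.2 (i + j)).2.1 δ).2]
  have h3 : D.wcup (i + j) x y (fun δ => 2 ^ j * m (f (lu (i + j) δ))) = fun g h =>
      ec ((∑ δ, ∑ η, f (lu (i + j) (δ * η⁻¹)) *
        dt (x g δ) (D.rd g *ᵥ y h (η * (cy _ g)⁻¹))) / 2 ^ i) := by
    funext g h
    rw [Dat.wcup, eq_comm, TPKOL.ec_eq hE]
    have e : ∀ F : _ → _ → ℚ_[2], ∀ G : _ → _ → ℤ, ∀ d : (ZMod (2 ^ (i + j + 2)))ˣ →
        (ZMod (2 ^ (i + j + 2)))ˣ → ℚ_[2], (∑ δ, ∑ η, F δ η * d δ η) / 2 ^ i -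
          (∑ δ, ∑ η, ((2 ^ j * G δ η : ℤ) : ℚ_[2]) * d δ η) / 2 ^ (i + j) =
        (∑ δ, ∑ η, (F δ η - G δ η) * d δ η) / 2 ^ i := by
      intro F G d
      simp only [sub_mul, Finset.sum_sub_distrib, Int.cast_mul, Int.cast_pow, Int.cast_ofNat,
        mul_assoc, ← Finset.mul_sum]
      field_simp
      ring
    rw [e, norm_div, TTATE.n2, div_le_one (by positivity)]
    refine IsUltrametricDist.norm_sum_le_of_forall_le_of_nonneg (by positivity) fun δ _ => ?_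
    refine (sum_le _ (by positivity) zero_le_one (fun η => hm _ (hf _)) fun η => ?_).trans_eq
      (mul_one _)
    exact (dt_le _ _).trans (mul_le_one₀ (hx _ _) (norm_nonneg _) ((D.rd_vec _ _).trans (hy _ _)))
  rw [h3, h1, one_pow, eq_comm, hE.eq_one] at h2
  simp only [Int.cast_mul, Int.cast_pow, Int.cast_ofNat, mul_left_comm _ ((2 : ℚ_[2]) ^ j),
    ← Finset.mul_sum, Int.cast_sum] at h2
  rw [← mul_add, pow_add (2 : ℚ_[2]), mul_comm ((2 : ℚ_[2]) ^ i), mul_div_mul_left _ _ (by simp)] at h2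
  have h4 := TPKOL.small h2
  have h5 := sum_le (oddR D.n (i + j)) (by norm_num) (by positivity) ((hA D.n fun _ => 1).1 (i + j))
    fun ν => hm _ (hf (lu (i + j) (u * (un (ν : ZMod (2 ^ (i + j + 2))))⁻¹)))
  have h6 : ‖∑ δ, (f (lu (i + j) δ) - m (f (lu (i + j) δ)))‖ ≤ (2 ^ i)⁻¹ :=
    IsUltrametricDist.norm_sum_le_of_forall_le_of_nonneg (by positivity) fun δ _ => hm _ (hf _)
  simp only [mul_sub, Finset.sum_sub_distrib] at h5 h6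
  generalize ∑ ν ∈ oddR D.n (i + j), msy D.n (i + j) ν * f _ = S at *
  generalize ∑ ν ∈ oddR D.n (i + j), msy D.n (i + j) ν * (m (f _) : ℚ_[2]) = S' at *
  generalize ∑ δ, f (lu (i + j) δ) = T at *
  generalize ∑ δ, (m (f (lu (i + j) δ)) : ℚ_[2]) = T' at *
  have h7 : c * a * S = (c * a * S' + b * T') + c * a * (S - S') + b * (T - T') - b * T := by ring
  have h8 : ‖c‖ * ‖S‖ = ‖c * a * S‖ := by rw [norm_mul, norm_mul, ha, mul_one]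
  have h9 : ‖c * a * (S - S')‖ ≤ ‖c‖ * (4 * (2 ^ i)⁻¹) := by
    rw [norm_mul, norm_mul, ha, mul_one]
    exact mul_le_mul_of_nonneg_left h5 (norm_nonneg _)
  have hB := (norm_nonneg _).trans hb
  have h10 : ‖b * (T - T')‖ ≤ B * (2 ^ i)⁻¹ :=
    (norm_mul _ _).trans_le (mul_le_mul hb h6 (norm_nonneg _) hB)
  have h11 : ‖b * T‖ ≤ B * ‖T‖ :=
    (norm_mul _ _).trans_le (mul_le_mul_of_nonneg_right hb (norm_nonneg _))
  rw [h8, h7]
  refine (norm_sub_le_of_le (norm_add₃_le.trans (add_le_add (add_le_add h4 h9) h10)) h11).trans_eq ?_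
  ring

end TERLP

open TERLP in
theorem t_ERLP (hC : CYB) (hM : MU) (hK : KPZJ) (hA : ERLA) (hB : ERLB) : ERLP := by
  rintro D z hz ⟨c, e, B, k₀, hc, -, H⟩ A _ _ _ _ ψ h a ho
  have H' : ∀ k, ∃ (y : GQ → (ZMod (2 ^ (k + 2)))ˣ → V2) (u : (ZMod (2 ^ (k + 2)))ˣ)
      (a b : ℚ_[2]), D.LY k y ∧ (k₀ ≤ k → ‖a‖ = 1 ∧ ‖b‖ ≤ B ∧
        ∀ W : (ZMod (2 ^ (k + 2)))ˣ → ℤ, (∀ δ, W (-δ) = W δ) →
        nv w2 w2.D (D.wcup k (z k (2 ^ (k + 2))) y W) ^ e =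
          ec ((c * a * ∑ ν ∈ oddR D.n k, msy D.n k ν * W (u * (un (ν : ZMod (2 ^ (k + 2))))⁻¹) +
            b * ∑ δ, W δ) / 2 ^ k)) := fun k => by
    by_cases hk : k₀ ≤ k
    · obtain ⟨y, u, a, b, h1, h2⟩ := H k hk
      exact ⟨y, u, a, b, h1, fun _ => h2⟩
    · exact ⟨0, 1, 0, 0, ly0 D k, fun e => absurd e hk⟩
  choose y u aa bb hy hE using H'
  obtain ⟨Y, pY, oY, hY⟩ := hB D z y hz hy A ψ h
  obtain ⟨l1, b, l2⟩ := (hA D.n u).2 A ψ h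
  have pk : PZ (fun _ => w2.D) (D.r (bar ψ)) (a • raw (bar ψ) (der (D := D) (mu z) ∅)) :=
    Dat.pz_smul h.bar (((hK D _ (hM D z hz).1 ∅ fun _ hl => absurd hl (by simp)).2 A _
      h.bar).pz.mono fun _ => le_top) a
  have oY' : D.Ord ψ Y := (Dat.ord_iff h).2 ⟨0, fun g _ => by simp [rS_zero, oY]⟩
  have key : ∀ t : A →ₗ[ℚ_[2]] ℚ_[2], (∀ x, ‖t (a * ψ x)‖ ≤ 1) →
      t (a * (ψ b * thA (mes D.n) ψ)) = 0 := by
    intro t ht
    obtain ⟨p1, -, -, -, -, p2, -⟩ := a_PIX (fun _ => w2) _ (fun _ => w2.loc_D) _ (D.pz2 h t pk pY)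
    rw [p2 (Dat.at_two' h t pk pY oY' ho)] at p1
    have ct : Continuous fun x : A => t (a * x) :=
      t.continuous_of_finiteDimensional.comp (continuous_const.mul continuous_id)
    have m1 := ((ct.tendsto _).comp l1).norm.const_mul B
    have m2 := ((ct.tendsto _).comp l2).norm.const_mul ‖c‖
    have m3 : ∀ i : ℕ, ‖c‖ * ‖t (a * (ψ b * thA (mes D.n) ψ))‖ ≤
        (1 + 4 * ‖c‖ + B) * (2 ^ i)⁻¹ + B * ‖t (a * 0)‖ := fun i => by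
      refine le_of_tendsto_of_tendsto m2 (m1.const_add _) ?_
      filter_upwards [p1 _ (hY a t) i, ev_ge i, ev_ge k₀] with k k1 k2 k3
      obtain ⟨j, rfl⟩ := Nat.exists_eq_add_of_le k2
      obtain ⟨k4, k5, k6⟩ := hE _ k3
      rw [zero_div, (a_EC.1.eq_one 0).2 (by simp)] at k1
      have := fin hC hA (f := fun n => t (a * ψ (-n))) (hz.int _ _) (hy _).int k4 k5
        (fun _ => ht _) k6 k1
      simpa only [Function.comp_apply, Finset.mul_sum, map_sum, mul_smul_comm, map_smul,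
        smul_eq_mul] using this
    simp only [mul_zero, map_zero, norm_zero, add_zero] at m3
    have m4 : Tendsto (fun i : ℕ => (1 + 4 * ‖c‖ + B) * ((2 : ℝ) ^ i)⁻¹) atTop (𝓝 _) :=
      (tendsto_inv_atTop_zero.comp (tendsto_pow_atTop_atTop_of_one_lt one_lt_two)).const_mul _
    have m5 := ge_of_tendsto' m4 m3
    rw [mul_zero, ← norm_mul, norm_le_zero_iff] at m5
    exact (mul_eq_zero.1 m5).resolve_left hc
  have k2 : a * (ψ b * thA (mes D.n) ψ) = 0 := by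
    refine (Module.forall_dual_apply_eq_zero_iff ℚ_[2] _).1 fun t => ?_
    set C := ‖LinearMap.toContinuousLinearMap t‖ * ‖a‖ with hCd
    obtain ⟨r, r0, r1⟩ := NormedField.exists_norm_lt ℚ_[2] (show 0 < (C + 1)⁻¹ by positivity)
    have := key (r • t) fun x => by
      have b1 : ‖t (a * ψ x)‖ ≤ C := ((LinearMap.toContinuousLinearMap t).le_opNorm _).trans
        (mul_le_mul_of_nonneg_left ((norm_mul_le _ _).trans
          (mul_le_of_le_one_right (norm_nonneg _) (h.le _))) (norm_nonneg _))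
      rw [LinearMap.smul_apply, norm_smul]
      refine (mul_le_mul r1.le (b1.trans (le_add_of_nonneg_right zero_le_one)) (norm_nonneg _)
        (by positivity)).trans_eq (inv_mul_cancel₀ (by positivity))
    exact (smul_eq_zero.1 this).resolve_left (norm_pos_iff.1 r0)
  rw [mul_left_comm] at k2
  exact (h.isUnit b).mul_right_eq_zero.1 k2

end Pool.Agent.P.MP_9c97e9_nt.KT
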