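import Pool.Agent.P.MP_9c97e9_nt.KT.SelJ

/-! Proof of KRELJ. -/

namespace Pool.Agent.P.MP_9c97e9_nt.KT

open scoped Matrix
open MP_8b7eba_nt.R2
open Filter Topology

namespace TKRELJ

theorem adj_le {B : Mt} (h : ∀ i j, ‖B i j‖ ≤ 1) (i j : Fin 2) : ‖B.adjugate i j‖ ≤ 1 := by
  rw [Matrix.adjugate_fin_two]
  fin_cases i <;> fin_cases j <;> simp [h]

theorem adj_lim {B : ℕ → Mt} {c : ℚ_[2]} {e : V2}
    (h : ∀ i j, Tendsto (fun k => B k i j) UF (𝓝 ((1 + c • nu e) i j))) (i j : Fin 2) :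
    Tendsto (fun k => ((B k).adjugate - 1) i j) UF (𝓝 ((-c • nu e) i j)) := by
  simp only [Matrix.adjugate_fin_two]
  fin_cases i <;> fin_cases j
  · simpa [nu] using (h 1 1).sub_const 1
  · simpa [nu] using (h 0 1).neg
  · simpa [nu] using (h 1 0).neg
  · simpa [nu] using (h 0 0).sub_const 1

end TKRELJ

open TKRELJ in
theorem t_KRELJ (hC : CYB) (hQ : QZ) (hF : FSR) : KRELJ := by
  intro D μ hμ s l h ho A _ _ _ _ ψ hψ
  have hs : Ok s := ho.mono (Finset.subset_cons h)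
  have bd : ∀ s : Finset (Kp D), Ok s → ∀ k g j, ‖der μ s k g j‖ ≤ 1 := fun s hs k g j =>
    hμ.le _ _ _ _ 1 zero_le_one ((hQ D μ hμ s hs k).2.2 _ ((hC.2.2 k).2.2.2.2.1 j)).1.1
  have key := raw_rel hψ (bd _ ho) (bd _ hs) (g := l.t) (g' := l.F) (B := fun _ => 1) (C := 1)
    (fun _ _ => tendsto_const_nhds) (adj_lim l.lim) (Eventually.of_forall fun k j => ?_)
  · rw [mv_one] at key
    rw [ve_qsmul, ← mv_nu, ← mv_smul]
    exact key
  obtain ⟨q1, -, q3⟩ := hQ D μ hμ s hs k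
  have hi := (hC.2.2 k).2.2.2.2.1 j
  obtain ⟨q4, q5⟩ := q3 _ hi
  have h1 := hF D μ hμ l k _ _ q1 (not_dvd_ck (l.w k).prime (l.ne2 k) fun l' hl' =>
    ho l (Finset.mem_cons_self _ _) l' (Finset.mem_cons_of_mem hl') (fun e => h (e ▸ hl')) k) q4
  rw [tl_mul, hi.tl_eq ((hC.2.1 _ _ (l.ne2 k) (l.fr k)).2 k (l.one k)).2.2] at h1
  have h2 := (mulVec_le (adj_le (D.rd_le (l.F k))) _).trans
    ((one_mul _).trans_le (q5 (l.F k) (l.F k)))
  have h3 := ua h1 h2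
  rw [der, der, ck_cons, wt_cons, mul_assoc, Matrix.one_mulVec, Matrix.sub_mulVec,
    Matrix.one_mulVec]
  rw [Matrix.mulVec_sub] at h3
  rwa [show ∀ a b c d : V2, a + b - c + (c - d) = a - (d - b) by intros; abel] at h3

end Pool.Agent.P.MP_9c97e9_nt.KT
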