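import Pool.Agent.P.MP_9c97e9_nt.KT.SelJ

/-! Local properties at a Kolyvagin prime. -/

namespace Pool.Agent.P.MP_9c97e9_nt.KT

open scoped NNReal Matrix
open MP_8b7eba_nt.R2
open Filter Topology

namespace TKTR

section
variable {W : Type} [NormedAddCommGroup W] [NormedSpace ℚ_[2] W] [IsUltrametricDist W]
  [FiniteDimensional ℚ_[2] W] {r : GQ → W →ₗ[ℚ_[2]] W} {D : Dat} {x : GS → W}

theorem frob (l : Kp D) (hr : Rep ⊤ r) (hx : PZ (fun k => (l.w k).D) r x) (h1 : x l.F = 0)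
    (h2 : ∀ g ∈ St fun k => (l.w k).I, x g = 0) : ∀ g ∈ St fun k => (l.w k).D, x g = 0 := by
  have := a_PFROB W ⊤ r l.w l.F (fun _ => 1) x isOpen_univ ⟨⊤, hr, fun _ => le_top⟩
    (.of_forall fun k => ⟨trivial, l.fr k, by simp⟩)
  simp only [inf_top_eq] at this
  exact this hx h1 h2

theorem tame (l : Kp D) (hr : Rep ⊤ r) (hx : PZ (fun k => (l.w k).D) r x) (h1 : x l.t = 0) :
    ∀ g ∈ St fun k => (l.w k).I, x g = 0 := by
  have := a_PTAME W ⊤ r l.w l.t (fun k => (l.w k).p) x isOpen_univ ⟨⊤, hr, fun _ => le_top⟩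
  simp only [inf_top_eq] at this
  exact this (.of_forall fun k => ⟨l.ne2 k, (a_RES _ _ (Pl.loc_D _)).2.2.2.2.1, l.tI k, l.mov k⟩)
    (hx.mono fun _ => Pl.I_le_D _) h1
end

variable {A : Type} [NormedCommRing A] [NormedAlgebra ℚ_[2] A] {ψ : ℤ_[2] → A} {D : Dat}

theorem la_lim (hC : CYB) (l : Kp D) : Tendsto (fun k => la (l.F k)) UF (𝓝 0) := by
  refine Metric.tendsto_nhds.2 fun ε e => ?_
  filter_upwards [TPKOL.ev_small (half_pos e)] with k hk
  have h1 := ((hC.2.1 _ _ (l.ne2 k) (l.fr k)).2 k (l.one k)).1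
  have h2 := (PadicInt.norm_le_pow_iff_mem_span_pow _ k).2 (Ideal.mem_span_singleton.2 h1)
  rw [zpow_neg, zpow_natCast] at h2
  rw [dist_zero_right]
  exact (h2.trans (by simpa using hk)).trans_lt (half_lt_self e)

theorem rF (hC : CYB) (l : Kp D) (h : IsPsi ψ) (v : Fin 2 → A) :
    rS (D.r ψ) l.F v = v + l.c • ve l.e (de l.e v) :=
  (Dat.rS_lim h l.lim (la_lim hC l) v).trans (mv_uni _ _ _)

theorem rI (l : Kp D) (h : IsPsi ψ) {g : GS} (hg : g ∈ St fun k => (l.w k).I) (v : Fin 2 → A) :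
    rS (D.r ψ) g v = v :=
  Dat.rS_unr h (w := l.w) (hg.mono fun k a => ⟨a, l.big k⟩) v

variable [IsUltrametricDist A] [FiniteDimensional ℚ_[2] A]

theorem fix (hC : CYB) (l : Kp D) (h : IsPsi ψ) (b : A) {g : GS}
    (hg : g ∈ St fun k => (l.w k).D) : rS (D.r ψ) g (ve l.e b) = ve l.e b :=
  sub_eq_zero.1 (frob l (D.rep h) (pz_cob (D.rep h) (fun _ => le_top) (ve l.e b))
    (by
      have : ve l.e (0 : A) = 0 := funext fun _ => smul_zero _
      rw [rF hC l h, de_ve, dt_self, zero_smul, this, smul_zero, add_zero, sub_self])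
    (fun g hg => by rw [rI l h hg, sub_self]) g hg)

end TKTR

open TKTR in
theorem t_KTR (hC : CYB) (hP : PKOLQ) : KTR := by
  intro D l
  obtain ⟨h1, d, u, u0, hd, d1, hu⟩ := hP D l
  refine ⟨u, u0, fun A _ _ _ _ ψ h x hx hI => ⟨fun e => ?_, fun t y b hy hb => ?_⟩⟩
  · obtain ⟨v, hv⟩ := exists_uni l.e0 l.c0 e
    refine ⟨v, fun g hg => sub_eq_zero.1 (frob l (D.rep h)
      (hx.sub (D.rep h) (pz_cob (D.rep h) (fun _ => le_top) v)) ?_ (fun g hg => ?_) g hg)⟩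
    · rw [Pi.sub_apply, rF hC l h, ← hv, add_sub_cancel_left, sub_self]
    · rw [Pi.sub_apply, rI l h hg, hI g hg, sub_self, sub_self]
  have hw : ∀ k, (l.w k).Loc (l.w k).D := fun k => Pl.loc_D _
  have h2 : ∀ g ∈ St fun k => (l.w k).D, ∀ v,
      TDUAL.bt t (ve l.e b) (rS (D.r ψ) g v) = TDUAL.bt t (ve l.e b) v := fun g hg v => by
    have := cup_equiv (D.rep h.bar) (D.rep h) (fun g _ => D.bt_r h t g) (mem_top g) (ve l.e b) v
    rwa [fix hC l h.bar b hg, h1 g hg, one_mul] at this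
  have h3 : PZ (fun k => (l.w k).D) (D.r (bar ψ)) fun g => d g • ve l.e b :=
    hd.map (LinearMap.toSpanSingleton _ _ (ve l.e b)) fun g hg g' _ => by
      simp only [rS_id, LinearMap.toSpanSingleton_apply, (D.rep h.bar).rS_smul, fix hC l h.bar b hg]
  have h4 := hy.sub (D.rep h.bar) h3
  have h5 := tame l (D.rep h.bar) h4 (by simp [hb, d1])
  have h6 : PZ (fun k => (l.w k).D) (fun _ => LinearMap.id) fun g => TDUAL.bt t (ve l.e b) (x g) :=
    hx.map (TDUAL.bt t (ve l.e b)) fun g hg g' _ => by rw [rS_id, h2 g hg]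
  have p1 := Dat.pz2 h t h4 hx
  have p2 := Dat.pz2 h t h3 hx
  have q1 := (a_PIX _ _ hw _ p1).2.2.2.2.2.2 (.of_forall l.ne2) fun g hg g' hg' i hi => by
    have hi' : i ∈ St fun k => (l.w k).I := hi.mono fun _ e => e.1
    have hi2 : i ∈ St fun k => (l.w k).D := hi.mono fun _ e => e.2
    simp only [cupS]
    rw [h4.2 g hg i hi2, hx.2 g' hg' i hi2, h5 i hi', hI i hi', rS_zero, rS_zero, add_zero,
      add_zero, Dat.rS_mul D h, rI l h hi']
    exact ⟨rfl, rfl⟩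
  have q2 := hu _ h6 fun g hg => by rw [hI g hg, map_zero]
  rw [← bt_ve, ← q2, (a_PIX _ _ hw _ (p1.add p2)).2.2.1 _ fun g _ g' _ => by
      simp only [cupS, Pi.add_apply, Pi.sub_apply, map_sub, LinearMap.sub_apply, sub_add_cancel],
    (a_PIX _ _ hw _ p1).2.2.2.1 _ p2, q1, zero_add]
  refine ((a_PIX _ _ hw _ p2).2.2.1 _ fun g hg g' _ => ?_).symm
  simp only [cupS, map_smul, LinearMap.smul_apply, smul_eq_mul, h2 g hg]

end Pool.Agent.P.MP_9c97e9_nt.KT
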