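import Pool.Agent.P.MP_9c97e9_nt.KT.IfJ

/-! Proof of PRECQ. -/

namespace Pool.Agent.P.MP_9c97e9_nt.KT

open MP_8b7eba_nt.R2 MP_8b7eba_nt.R2.TPIX
open Filter Topology

theorem t_PRECQ : PRECQ := by
  classical
  intro B ι _ w h hw h0
  have hA := a_CB
  have : Nonempty Pl := let ⟨v, _⟩ := a_PL.1 2 Nat.prime_two; ⟨v⟩
  obtain ⟨b, hb⟩ := h.1
  have main : ∀ c : ℚ_[2], ec (c * ∑ i, PI (w i) (fun k => (w i k).D) B) ^ 2 = 1 := by
    intro c
    have hs : ∀ v : ℕ → Pl, ∀ᶠ k in UF, nv (v k) (v k).D (E ((c • b) k)) =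
        ec (c * PI v (fun k => (v k).D) B) := fun v =>
      spec hA (fun k => (v k).loc_D) (h.mono fun _ => le_top) c _
        ((ap_smul hb c).mono fun _ => le_top)
    have hc := ev_coT hA.ec.1 (h.smul c) (ap_smul hb c)
    have h1 : ∀ᶠ k in UF, ∀ v : Pl, (∀ i, v.p ≠ (w i k).p) → Triv v.D (E ((c • b) k)) :=
      ev_choice fun v => by
        by_cases hv : ∀ᶠ k in UF, ∀ i, (v k).p ≠ (w i k).p
        · filter_upwards [hs v, hc, hw] with k e1 e2 e3 e4
          rw [h0 v hv, mul_zero, ec_zero hA.ec.1] at e1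
          refine a_INJ _ _ _ (fun p => ?_) (v k).loc_D (e2.mono le_top) e1
          obtain ⟨i, e⟩ := e3.2
          exact e4 i (p.trans e.symm)
        · exact (ev_not.1 hv).mono fun k e e' => absurd e' e
    obtain ⟨k, e1, e2, e3, e4⟩ :=
      (h1.and (hc.and (hw.and (eventually_all.2 fun i => hs (w i))))).exists
    have key := a_RECQ _ (Finset.univ.image fun i => w i k) e2 (fun v hv u _ hv' => by
        obtain ⟨i, -, rfl⟩ := Finset.mem_image.1 hv
        obtain ⟨j, -, e⟩ := Finset.mem_image.1 hv'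
        rw [← e, e3.1 i j (congrArg Pl.p e).symm])
      fun v hv => e1 v fun i e => by
        obtain ⟨σ, hσ⟩ := a_PL.2.1 _ _ e
        exact hv σ trivial (Finset.mem_image.2 ⟨i, Finset.mem_univ i, hσ.symm⟩)
    rw [Finset.prod_image fun i _ j _ e => e3.1 i j (congrArg Pl.p e),
      Finset.prod_congr rfl fun i _ => e4 i, ← ec_sum hA.ec.1, ← Finset.mul_sum] at key
    have h2 : nvR (E ((c • b) k)) ^ 2 = 1 := by
      unfold nvR
      split_ifs <;> simp
    have h3 := congrArg (· ^ 2) key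
    simpa only [mul_pow, h2, one_mul, one_pow] using h3
  refine ec_inj hA.ec.1 fun n => ?_
  have h4 := main (2⁻¹ * (2 ^ n)⁻¹)
  rw [← ec_pow hA.ec.1, ← mul_assoc, ← mul_assoc, Nat.cast_ofNat,
    mul_inv_cancel₀ two_ne_zero, one_mul] at h4
  rw [h4, mul_zero, ec_zero hA.ec.1]

end Pool.Agent.P.MP_9c97e9_nt.KT
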