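import Pool.Agent.P.MP_9c97e9_nt.KT.MuJ

/-! Proof of PUSH. -/

namespace Pool.Agent.P.MP_9c97e9_nt.KT

open scoped Matrix
open MP_8b7eba_nt.R2

namespace TPUSH

theorem pow_le {R : Mt} (h : ∀ i j, ‖(R - 1) i j‖ ≤ 2⁻¹) (m : ℕ) (v : V2) :
    ‖R ^ m *ᵥ v‖ ≤ ‖v‖ := by
  induction m with
  | zero => simp
  | succ m ih =>
    rw [pow_succ', ← Matrix.mulVec_mulVec]
    generalize R ^ m *ᵥ v = x at ih
    rw [show R *ᵥ x = (R - 1) *ᵥ x + x by rw [Matrix.sub_mulVec, Matrix.one_mulVec, sub_add_cancel]]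
    exact ua ((mulVec_le h x).trans (by linarith [norm_nonneg x])) ih

/-- the approximate logarithm divided by a power of two -/
noncomputable def yy (v k : ℕ) : Wt := fun σ => ((Ps (v + k) σ).val / 2 ^ v : ℕ)

theorem yy_wi (hC : CYB) (v k : ℕ) : Wi (2 ^ (v + k + 2)) (yy v k) :=
  ⟨fun _ => IsUltrametricDist.norm_natCast_le_one _ _, fun σ σ' e => by
    rw [yy, yy, ← (hC.2.2 (v + k)).1, ← (hC.2.2 (v + k)).1, e]⟩

theorem yy_add {v k : ℕ} {q : GQ} {u : ℤ_[2]} (h : la q = u * 2 ^ v) (σ : GQ) :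
    ‖yy v k (σ * q) - yy v k σ - u‖ ≤ (2 ^ k)⁻¹ := by
  have h1 := dvd_sub (dvd_Ps (v + k) σ) (dvd_Ps (v + k) (σ * q))
  rw [la_mul, h] at h1
  unfold yy
  generalize (Ps (v + k) σ).val = a at *
  generalize (Ps (v + k) (σ * q)).val = b at *
  have h2 : (2 : ℤ_[2]) ^ v ∣ ((b - a : ℤ) : ℤ_[2]) := by
    have := dvd_add ((pow_dvd_pow 2 (Nat.le_add_right v k)).trans h1) (Dvd.intro_left u rfl)
    convert this using 1
    push_cast
    ring
  have h3 : a % 2 ^ v = b % 2 ^ v := Nat.modEq_iff_dvd.2 (by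
    exact_mod_cast (PadicInt.pow_p_dvd_int_iff (p := 2) v (b - a)).1 (by exact_mod_cast h2))
  have h4 := congrArg (Nat.cast : ℕ → ℤ_[2]) (Nat.div_add_mod a (2 ^ v))
  have h5 := congrArg (Nat.cast : ℕ → ℤ_[2]) (Nat.div_add_mod b (2 ^ v))
  rw [h3] at h4
  rw [Nat.cast_add, Nat.cast_mul, Nat.cast_pow, Nat.cast_ofNat] at h4 h5
  obtain ⟨c, hc⟩ : (2 : ℤ_[2]) ^ k ∣ ((b / 2 ^ v : ℕ) : ℤ_[2]) - (a / 2 ^ v : ℕ) - u := by
    refine (mul_dvd_mul_iff_left (pow_ne_zero v two_ne_zero)).1 ?_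
    rw [← pow_add]
    convert h1 using 1
    linear_combination h5 - h4
  have h6 := congrArg ((↑) : ℤ_[2] → ℚ_[2]) hc
  simp only [PadicInt.coe_sub, PadicInt.coe_natCast, PadicInt.coe_mul, PadicInt.coe_pow] at h6
  rw [h6, norm_mul, norm_pow, show ((2 : ℤ_[2]) : ℚ_[2]) = 2 from rfl, SelA.two, inv_pow]
  exact mul_le_of_le_one_right (by positivity) c.2

end TPUSH

open TPUSH in
theorem t_PUSH (hC : CYB) : PUSH := by
  intro k P C R φ hP hφ hR hb h2 hf M W hM hW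
  have hε : (0 : ℝ) ≤ (2 ^ k)⁻¹ := by positivity
  have it : ∀ N W, P N → Wi N W → ∀ m,
      ‖C N W - R ^ m *ᵥ C N (tl W (φ ^ m))‖ ≤ (2 ^ k)⁻¹ := by
    intro N W hN hW m
    induction m with
    | zero => simp [tl_one]
    | succ m ih =>
      have h1 := (pow_le hR m _).trans (hf N _ hN (hW.tl (φ ^ m)))
      rw [tl_tl, ← pow_succ', Matrix.mulVec_sub, Matrix.mulVec_mulVec, ← pow_succ] at h1
      simpa using ua ih h1
  have st : ∀ N W, P N → Wi N W → ‖C N W - C N (tl W (φ ^ 2 ^ k))‖ ≤ (2 ^ k)⁻¹ := by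
    intro N W hN hW
    have h1 := mulVec_le (SelA.pow hR k) (C N (tl W (φ ^ 2 ^ k)))
    have h3 := hb N _ 1 hN zero_le_one (hW.tl (φ ^ 2 ^ k)).1
    have h4 : (2⁻¹ : ℝ) ^ (k + 1) * ‖C N (tl W (φ ^ 2 ^ k))‖ ≤ (2 ^ k)⁻¹ := by
      rw [pow_succ, inv_pow]
      nlinarith [norm_nonneg (C N (tl W (φ ^ 2 ^ k)))]
    rw [Matrix.sub_mulVec, Matrix.one_mulVec] at h1
    simpa only [sub_add_sub_cancel] using ua (it N W hN hW (2 ^ k)) (h1.trans h4)
  have it2 : ∀ N W, P N → Wi N W → ∀ b,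
      ‖C N W - C N (tl W ((φ ^ 2 ^ k) ^ b))‖ ≤ (2 ^ k)⁻¹ := by
    intro N W hN hW b
    induction b with
    | zero => simp [tl_one]
    | succ b ih =>
      have h1 := st N _ hN (hW.tl ((φ ^ 2 ^ k) ^ b))
      rw [tl_tl, ← pow_succ'] at h1
      simpa using ua ih h1
  have M0 := (hP M hM).1
  have up : ∀ J, P (M * 2 ^ J) ∧ ‖C (M * 2 ^ J) W - C M W‖ ≤ (2 ^ k)⁻¹ := by
    intro J
    induction J with
    | zero => simpa using hM
    | succ J ih =>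
      rw [pow_succ, ← mul_assoc]
      refine ⟨(hP _ ih.1).2, ?_⟩
      simpa using ua (h2 _ W ih.1 (hW.mono hC (dvd_mul_right _ _) (hP _ ih.1).1)) ih.2
  set q := (φ ^ 2 ^ k) ^ M.totient with hq
  have q1 : cy M q = 1 := by rw [hq, map_pow, ZMod.pow_totient]
  have q2 : la q ≠ 0 := by
    rw [hq, la_pow, la_pow]
    exact mul_ne_zero (Nat.cast_ne_zero.2 (Nat.totient_pos.2 (Nat.pos_of_ne_zero M0)).ne')
      (mul_ne_zero (Nat.cast_ne_zero.2 (by positivity)) hφ)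
  have q3 := PadicInt.unitCoeff_spec q2
  rw [Nat.cast_ofNat] at q3
  generalize PadicInt.unitCoeff q2 = u at q3
  generalize (la q).valuation = v at q3
  obtain ⟨hN, h3⟩ := up (v + k + 2)
  have N0 := (hP _ hN).1
  have h4 := it2 _ _ hN ((hW.mono hC (dvd_mul_right _ _) N0).mul
    ((yy_wi hC v k).mono hC (dvd_mul_left _ _) N0)) M.totient
  have h5 := hb _ (tl (W * yy v k) q - W * yy v k - ((u : ℤ_[2]) : ℚ_[2]) • W) _ hN hε fun σ => by
    rw [tl_mul, hW.tl_eq q1, show (W * tl (yy v k) q - W * yy v k - ((u : ℤ_[2]) : ℚ_[2]) • W) σ =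
      W σ * (yy v k (σ * q) - yy v k σ - (u : ℤ_[2])) by simp [tl]; ring, norm_mul]
    exact (mul_le_of_le_one_left (norm_nonneg _) (hW.1 σ)).trans (yy_add q3 σ)
  have h6 := ua h4 h5
  rw [map_sub, map_sub, map_smul, ← hq, show ∀ a b c : V2, a - b + (b - a - c) = -c by
    intros; abel, norm_neg, norm_smul, PadicInt.padic_norm_e_of_padicInt, PadicInt.norm_units,
    one_mul] at h6
  simpa using us h6 h3

end Pool.Agent.P.MP_9c97e9_nt.KT
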