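import Pool.Agent.P.MP_9c97e9_nt.KT.MuJ

/-! The derived measures are invariant under translation. -/

namespace Pool.Agent.P.MP_9c97e9_nt.KT

open scoped NNReal Matrix
open MP_8b7eba_nt.R2
open Filter Topology

namespace TQZ

variable {D : Dat} {μ : MA} {k : ℕ}

theorem lv (s : Finset (Kp D)) (k : ℕ) : D.Lv k (ck s k) := by
  induction s using Finset.cons_induction with
  | empty => simpa [ck] using D.lv k
  | cons l s h ih =>
    rw [ck_cons]
    exact ih.prime (l.w k).prime fun e => l.big k (e.trans (Nat.mul_dvd_mul_right (by norm_num) _))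

theorem wi (hC : CYB) {S s : Finset (Kp D)} (h : S ⊆ s) (k : ℕ) : Wi (ck s k) (wt S k) :=
  Finset.prod_induction _ _ (fun _ _ => Wi.mul) wi_one fun l hl => (l.dw k).mono hC
    ((Finset.dvd_prod_of_mem (fun l : Kp D => (l.w k).p) (h hl)).mul_left _) (lv s k).1

theorem wf (hC : CYB) {S s : Finset (Kp D)} (h : S ⊆ s) {f : Wt} (hf : Wi (2 ^ (k + 2)) f) :
    Wi (ck s k) (wt S k * f) := (wi hC h k).mul (hf.mono hC (lv s k).2.1 (lv s k).1)

theorem prod_le {ι : Type} (S : Finset ι) {a : ι → ℚ_[2]} (ha : ∀ i, ‖a i‖ ≤ 1) :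
    ‖∏ i ∈ S, a i‖ ≤ 1 := by
  rw [norm_prod]; exact Finset.prod_le_one (fun _ _ => norm_nonneg _) fun i _ => ha i

theorem prod_near {ι : Type} (S : Finset ι) {a b : ι → ℚ_[2]} {ε : ℝ} (h0 : 0 ≤ ε)
    (ha : ∀ i, ‖a i‖ ≤ 1) (hb : ∀ i, ‖b i‖ ≤ 1) (h : ∀ i, ‖a i - b i‖ ≤ ε) :
    ‖∏ i ∈ S, a i - ∏ i ∈ S, b i‖ ≤ ε := by
  induction S using Finset.cons_induction with
  | empty => simpa using h0
  | cons i S hi ih =>
    rw [Finset.prod_cons, Finset.prod_cons, show a i * ∏ j ∈ S, a j - b i * ∏ j ∈ S, b j =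
      a i * (∏ j ∈ S, a j - ∏ j ∈ S, b j) + (a i - b i) * ∏ j ∈ S, b j by ring]
    refine ua ?_ ?_ <;> rw [norm_mul]
    · exact (mul_le_of_le_one_left (norm_nonneg _) (ha i)).trans ih
    · exact (mul_le_of_le_one_right (norm_nonneg _) (prod_le S hb)).trans (h i)

theorem sm_le {c : ℚ_[2]} {v : V2} {ε : ℝ} (hc : ‖c‖ ≤ 1) (hv : ‖v‖ ≤ ε) : ‖c • v‖ ≤ ε := by
  rw [norm_smul]; exact (mul_le_of_le_one_left (norm_nonneg _) hc).trans hv

/-- invariance follows from the vanishing for proper subsets -/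
theorem inv_of (hμ : D.MS μ) {M : ℕ} {S : Finset (Kp D)} {f : Wt} (hf : ∀ σ, ‖f σ‖ ≤ 1) (g h : GQ)
    (H : ∀ T ⊂ S, ‖μ k M h (wt T k * f)‖ ≤ (2 ^ k)⁻¹) :
    ‖μ k M h (tl (wt S k) g * f) - μ k M h (wt S k * f)‖ ≤ (2 ^ k)⁻¹ := by
  classical
  have h0 : (0 : ℝ) ≤ (2 ^ k)⁻¹ := by positivity
  have e : ∀ σ, (∑ T ∈ S.powerset, (∏ l ∈ S \ T, l.d k g) • (wt T k * f)) σ =
      (∏ l ∈ S, (l.d k σ + l.d k g)) * f σ := fun σ => by
    rw [Finset.prod_add, Finset.sum_mul, Finset.sum_apply]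
    refine Finset.sum_congr rfl fun T _ => ?_
    rw [Pi.smul_apply, Pi.mul_apply, wt, Finset.prod_apply, smul_eq_mul]; ring
  have h1 := hμ.near k M h (W := tl (wt S k) g * f)
    (W' := ∑ T ∈ S.powerset, (∏ l ∈ S \ T, l.d k g) • (wt T k * f)) (ε := (2 ^ k)⁻¹) fun σ => by
    rw [e, Pi.mul_apply, ← sub_mul, norm_mul, tl, wt, Finset.prod_apply]
    refine (mul_le_of_le_one_right (norm_nonneg _) (hf σ)).trans (prod_near S h0
      (fun l => (l.dw k).1 _) (fun l => ua ((l.dw k).1 _) ((l.dw k).1 _)) fun l => ?_)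
    rw [← sub_sub]; exact l.da k σ g
  rw [← Finset.add_sum_erase _ _ (Finset.mem_powerset_self S), Finset.sdiff_self, Finset.prod_empty,
    one_smul, map_add, ← sub_sub, map_sum] at h1
  rw [← sub_add_cancel (_ - _) (∑ T ∈ S.powerset.erase S,
    μ k M h ((∏ l ∈ S \ T, l.d k g) • (wt T k * f)))]
  refine ua h1 (IsUltrametricDist.norm_sum_le_of_forall_le_of_nonneg h0 fun T hT => ?_)
  rw [map_smul]
  exact sm_le (prod_le _ fun l => (l.dw k).1 _) (H T (Finset.ssubset_iff_subset_ne.2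
    ⟨Finset.mem_powerset.1 (Finset.mem_of_mem_erase hT), Finset.ne_of_mem_erase hT⟩))

/-- the Euler factor vanishes -/
theorem step (hC : CYB) (hμ : D.MS μ) (l : Kp D) {M : ℕ} (hM : D.Lv k M) (hp : ¬ (l.w k).p ∣ M)
    {W f : Wt} (hW : Wi M (W * f)) (hf : Wi (2 ^ (k + 2)) f) (h : GQ)
    (H : ∀ g, ‖μ k M h (tl W g * f) - μ k M h (W * f)‖ ≤ (2 ^ k)⁻¹) :
    ‖μ k (M * (l.w k).p) h (W * f)‖ ≤ (2 ^ k)⁻¹ := by
  have hc := ((hC.2.1 _ _ (l.ne2 k) (l.fr k)).2 k (l.one k)).2.2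
  have h1 := hμ.hec k M (l.w k) (l.F k) hM (fun e => ((Nat.Prime.dvd_mul (l.w k).prime).1 e).elim
    (fun e => l.big k (e.trans (Nat.mul_dvd_mul_right (by norm_num) _))) hp) (l.fr k) h _ hW
  rw [tl_mul, tl_mul, hf.tl_eq hc, hf.tl_eq (by rw [map_mul, hc, mul_one]), ← l.tr] at h1
  have h2 := H (l.F k)
  have h3 := H (l.F k * l.F k)
  have h4 := hμ.le k M h _ 1 zero_le_one hW.1
  have hp1 : ‖((l.w k).p : ℚ_[2])‖ = 1 := Padic.norm_natCast_eq_one_iff.2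
    ((Nat.coprime_primes Nat.prime_two (l.w k).prime).2 (l.ne2 k).symm)
  have hp0 : ((l.w k).p : ℚ_[2]) ≠ 0 := Nat.cast_ne_zero.2 (l.w k).prime.ne_zero
  have ha : ‖(D.rd (l.F k)).trace‖ ≤ 1 := by
    rw [l.tr]; exact IsUltrametricDist.norm_intCast_le_one _ _
  have hn : ‖((l.w k).p : ℚ_[2]) - 1‖ ≤ (2 ^ k)⁻¹ := (l.near k).trans
    (inv_anti₀ (by positivity) (pow_le_pow_right₀ one_le_two (Nat.le_add_right _ _)))
  have h5 := us hn (l.t2 k)
  generalize μ k (M * (l.w k).p) h (W * f) = u at *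
  generalize μ k M h (W * f) = x at *
  generalize μ k M h (tl W (l.F k) * f) = y at *
  generalize μ k M h (tl W (l.F k * l.F k) * f) = z at *
  generalize (D.rd (l.F k)).trace = a at *
  generalize ((l.w k).p : ℚ_[2]) = p at *
  have hi : ‖p⁻¹‖ ≤ 1 := by rw [norm_inv, hp1, inv_one]
  have e : u = u - (x - (a / p) • y + p⁻¹ • z) +
      p⁻¹ • ((p - 1 - (a - 2)) • x - a • (y - x) + (z - x)) := by
    match_scalars <;> field_simp <;> ring
  rw [e]
  refine ua h1 (sm_le hi (ua (us ?_ (sm_le ha h2)) h3))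
  rw [norm_smul]
  exact (mul_le_of_le_one_right (norm_nonneg _) h4).trans h5

theorem main (hC : CYB) (hμ : D.MS μ) {f : Wt} (hf : Wi (2 ^ (k + 2)) f) (h : GQ)
    (s : Finset (Kp D)) : Ok s → ∀ S ⊆ s, ∀ g,
      ‖μ k (ck s k) h (tl (wt S k) g * f) - μ k (ck s k) h (wt S k * f)‖ ≤ (2 ^ k)⁻¹ := by
  classical
  induction s using Finset.strongInduction with
  | H s ih =>
    intro hs S hS g
    refine inv_of hμ hf.1 g h fun T hT => ?_
    obtain ⟨l, hl, hl'⟩ := Finset.exists_of_ssubset (hT.trans_subset hS)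
    have hT' : T ⊆ s.erase l := Finset.subset_erase.2 ⟨hT.subset.trans hS, hl'⟩
    have e : ck s k = ck (s.erase l) k * (l.w k).p := by
      rw [← ck_cons (Finset.notMem_erase l s), Finset.cons_eq_insert, Finset.insert_erase hl]
    rw [e]
    exact step hC hμ l (lv _ k) (not_dvd_ck (l.w k).prime (l.ne2 k) fun l' h' =>
      hs l hl l' (Finset.mem_of_mem_erase h') (Finset.ne_of_mem_erase h').symm k) (wf hC hT' hf) hf h
      (ih _ (Finset.erase_ssubset hl) (hs.mono (Finset.erase_subset _ _)) T hT')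

end TQZ

theorem t_QZ (hC : CYB) : QZ := fun _ _ hμ s hs k =>
  ⟨TQZ.lv s k, TQZ.wi hC subset_rfl k, fun _ hf => ⟨TQZ.wf hC subset_rfl hf,
    fun g h => TQZ.main hC hμ hf h s hs s subset_rfl g⟩⟩

end Pool.Agent.P.MP_9c97e9_nt.KT
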