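import Pool.Agent.P.MP_9c97e9_nt.KT.SelJ

/-! Proof of UBX. -/

namespace Pool.Agent.P.MP_9c97e9_nt.KT

open scoped NNReal Matrix
open MP_8b7eba_nt.R2
open Filter Topology Polynomial Module

open THB in
theorem t_UBX (hM : MU) (hK : KPZJ) (hR : KRELJ) (hH : HBJ) (hS : SBJ) (hE : ERLP) : UBX := by
  intro D z h1 h2 q j m i hq _ him hmj A _ _ _ _ ψ A' _ _ _ _ ψ' h h' h0 M hf hM'
  have ms := (hM D z h1).1
  have kol : D.Kol (der (mu z)) := fun s hs => ⟨(hK D _ ms s hs).1, fun A _ _ _ _ ψ hψ =>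
    ⟨(hK D _ ms s hs).2 A ψ hψ, fun l hl ho => hR D _ ms s l hl ho A ψ hψ⟩⟩
  have c := ((a_AFX.2.2.2.2.2.2 A ψ _ h).1 q _ hq rfl).1
  have c' := ((a_AFX.2.2.2.2.2.2 A' ψ' _ h').1 q j hq rfl).1
  obtain ⟨ν, n1, n2, n3⟩ := nu_ex a_AFX (m := m) (by rwa [← pow_add, add_comm m]) h' hq.ne_zero
  have no := mt (hE D z h1 h2 A ψ h.1 _) h0
  have hk := ((kol ∅ (by simp [Ok])).2 A _ h.1.bar).1
  set π := aeval (ψ 1 - 1) q
  set π' := aeval (ψ' 1 - 1) q
  set κ := raw (bar ψ) (der (D := D) (mu z) ∅) with hκ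
  obtain ⟨a, e1, e2, e3⟩ := ex_min c.nil κ i fun e => no (e ▸ fun g _ => by rw [Dat.ln_zero]; rfl)
  have hx : ∀ g t, (π ^ (m - a) • κ) g t ∈ Ideal.span {π ^ m} := fun g t => by
    have := (c.ann (i := j) (a := (π ^ (m - a) • κ) g t) (by omega)).1 (by
      have := congrFun (congrFun e2 g) t
      rw [show j + m - a = j + (m - a) by omega, pow_add, mul_smul] at this
      exact this)
    rw [Nat.add_sub_cancel_left] at this
    exact Ideal.mem_span_singleton.2 this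
  refine (hS D A' ψ' π' j q.natDegree (i - a) _ _ h'.1 c' (by omega)
    ((hk.smul h.1.bar _).map h.1.bar h'.1.bar ν _ (fun b => n1 (-b)) hx) (fun e => ?_)
    (hH D _ kol q j m a hq (by omega) A ψ A' ψ' h h' e3) M hf hM').trans_eq
    (by rw [← mul_add, Nat.add_sub_cancel' e1, mul_comm])
  have e4 : π ^ (j + m - i - 1) • κ = π ^ (j - (i - a) - 1) • π ^ (m - a) • κ := by
    rw [smul_smul, ← pow_add]
    congr 2
    omega
  have hy : ∀ g t, (π ^ (j + m - i - 1) • κ) g t ∈ Ideal.span {π ^ m} := fun g t => by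
    rw [e4]
    exact Ideal.mul_mem_left _ _ (hx g t)
  have e5 : (π' ^ (j - (i - a) - 1) • fun g t => ν ((π ^ (m - a) • κ) g t)) =
      fun g t => ν ((π ^ (j + m - i - 1) • κ) g t) := by
    funext g t
    rw [e4]
    exact (n2 _ _ (hx g t)).symm
  obtain ⟨l1, l2⟩ := Dat.ln_map (D := D) (ψ' := bar ψ') h.1.bar ν _ (fun b => n1 (-b)) hy
  rw [e5] at e
  refine no fun g hg => n3 _ (l2 g 1) ?_
  have := e g hg
  rwa [l1] at this

end Pool.Agent.P.MP_9c97e9_nt.KT
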