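import Pool.Agent.P.MP_9c97e9_nt.KT.TCHEB0J
import Pool.Agent.P.MP_9c97e9_nt.KT.TCHEBJ
import Pool.Agent.P.MP_9c97e9_nt.KT.TCYB
import Pool.Agent.P.MP_9c97e9_nt.KT.TDLOG
import Pool.Agent.P.MP_9c97e9_nt.KT.TDUALJ
import Pool.Agent.P.MP_9c97e9_nt.KT.TERLA
import Pool.Agent.P.MP_9c97e9_nt.KT.TERLB
import Pool.Agent.P.MP_9c97e9_nt.KT.TERLP
import Pool.Agent.P.MP_9c97e9_nt.KT.TFSR
import Pool.Agent.P.MP_9c97e9_nt.KT.TGLOB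
import Pool.Agent.P.MP_9c97e9_nt.KT.THBJ
import Pool.Agent.P.MP_9c97e9_nt.KT.TKPZJ
import Pool.Agent.P.MP_9c97e9_nt.KT.TKRELJ
import Pool.Agent.P.MP_9c97e9_nt.KT.TKTR
import Pool.Agent.P.MP_9c97e9_nt.KT.TMU
import Pool.Agent.P.MP_9c97e9_nt.KT.TPKOLQ
import Pool.Agent.P.MP_9c97e9_nt.KT.TPRECQ
import Pool.Agent.P.MP_9c97e9_nt.KT.TPUSH
import Pool.Agent.P.MP_9c97e9_nt.KT.TQZ
import Pool.Agent.P.MP_9c97e9_nt.KT.TSBJ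
import Pool.Agent.P.MP_9c97e9_nt.KT.TUBX
import Pool.Agent.P.MP_9c97e9_nt.KT.TUNRF

/-! The Kolyvagin argument: the upper bound for the Selmer group holds. -/

namespace Pool.Agent.P.MP_9c97e9_nt.KT

theorem a_MU : MU := t_MU t_CYB

theorem a_PUSH : PUSH := t_PUSH t_CYB

theorem a_UNRF : UNRF := t_UNRF t_CYB a_PUSH

theorem a_QZ : QZ := t_QZ t_CYB

theorem a_FSR : FSR := t_FSR t_CYB a_PUSH a_UNRF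

theorem a_KPZJ : KPZJ := t_KPZJ t_CYB a_UNRF a_QZ

theorem a_KRELJ : KRELJ := t_KRELJ t_CYB a_QZ a_FSR

theorem a_DUALJ : DUALJ := t_DUALJ (t_KTR t_CYB t_PKOLQ) (t_GLOB t_PRECQ)

theorem a_CHEBJ : CHEBJ := t_CHEBJ (t_CHEB0J t_CYB t_DLOG)

theorem a_ERLP : ERLP :=
  t_ERLP t_CYB a_MU a_KPZJ (t_ERLA t_CYB) (t_ERLB t_CYB a_MU a_KPZJ)

theorem a_UBX : UBX :=
  t_UBX a_MU a_KPZJ a_KRELJ (t_HBJ a_DUALJ a_CHEBJ) (t_SBJ a_DUALJ) a_ERLP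

end Pool.Agent.P.MP_9c97e9_nt.KT
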