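import Pool.Agent.P.MP_9c97e9_nt.KT.BasK

/-! The Hasse principle for the layers of the cyclotomic tower. -/

namespace Pool.Agent.P.MP_9c97e9_nt.KT

open scoped NNReal Matrix
open MP_8b7eba_nt.R2 BK

namespace TABK

variable {k : ℕ} {g : GQ} {z a : Om} {w : Pl}

theorem tau_U (k : ℕ) : tau ∈ KP k := KI_le k tau_mem

theorem tau_L (k : ℕ) : tau ∉ KC k := ts_one ▸ ts_not 1

theorem tau_tau (x : Om) : tau (tau x) = x := by
  rw [← AlgEquiv.mul_apply, a_TAU.2.1, AlgEquiv.one_apply]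

theorem out (hz : Fix (KC k) z) (hg : g ∈ KP k) (hg' : g ∉ KC k) :
    g z = tau z ∧ g (tau z) = z :=
  ⟨(tau_tau (g z)).symm.trans (congrArg tau (hz _ (mul_KC (tau_U k) hg (tau_L k) hg'))),
    hz _ (mul_KC hg (tau_U k) hg' (tau_L k))⟩

theorem fix_tau (hz : Fix (KC k) z) : Fix (KC k) (tau z) := fun g hg =>
  (out (g := g * tau) hz (mul_mem hg.1 (tau_U k))
    fun h => tau_L k ((mul_mem_cancel_left hg).1 h)).1

theorem fix_i (k : ℕ) : Fix (KC k) (rt (-1)) := fun _ h => h.2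

theorem fix_N (hz : Fix (KC k) z) : Fix (KP k) (z * tau z) := fun g hg => by
  by_cases h : g ∈ KC k
  · exact (hz.mul (fix_tau hz)) g h
  · rw [map_mul, (out hz hg h).1, (out hz hg h).2, mul_comm]

theorem nm_N (hz : Fix (KC k) z) : Nm (KP k) (rt (-1) ^ 2) (z * tau z) := by
  have h0 : rt (-1) ≠ 0 := LC.rt_ne (by norm_num)
  refine ⟨(z + tau z) / 2, (z - tau z) / (2 * rt (-1)), fun g hg => ?_, fun g hg => ?_, ?_⟩
  · by_cases h : g ∈ KC k
    · exact ((hz.add (fix_tau hz)).div (fix_ofNat 2)) g h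
    · rw [map_div₀, map_add, (out hz hg h).1, (out hz hg h).2, map_ofNat, add_comm]
  · by_cases h : g ∈ KC k
    · exact ((hz.sub (fix_tau hz)).div ((fix_ofNat 2).mul (fix_i k))) g h
    · rw [map_div₀, map_sub, (out hz hg h).1, (out hz hg h).2, map_mul, map_ofNat,
        (out (fix_i k) hg h).1, ← ts_one, ts_i, mul_neg, div_neg, ← neg_div, neg_sub]
  · field_simp
    ring

theorem ev_mul {U : Subgroup GQ} (hU : IsOpen (U : Set GQ)) {x y : Om} (hx : Fix (w.D ⊓ U) x)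
    (hy : Fix (w.D ⊓ U) y) (x0 : x ≠ 0) (y0 : y ≠ 0) (h : ¬ w.Ev (w.D ⊓ U) x)
    (h' : ¬ w.Ev (w.D ⊓ U) y) : w.Ev (w.D ⊓ U) (x * y) := by
  obtain ⟨π, -, hπ, -⟩ := a_UNIF w U hU
  have hp : w.v π ≠ 0 := (map_ne_zero _).2 hπ.2.1
  have key : ∀ (t : Om) (m : ℤ), w.v t = w.v π ^ m → Even m → w.Ev (w.D ⊓ U) t := by
    rintro t _ e ⟨m, rfl⟩
    exact ⟨π ^ m, hπ.1.zpow m, by rw [e, map_zpow₀, zpow_add₀ hp, sq]⟩
  obtain ⟨m, hm⟩ := hπ.2.2.2 x hx x0
  obtain ⟨n, hn⟩ := hπ.2.2.2 y hy y0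
  refine key _ (m + n) (by rw [map_mul, hm, hn, zpow_add₀ hp]) (Odd.add_odd ?_ ?_)
  · exact Int.not_even_iff_odd.1 fun e => h (key _ _ hm e)
  · exact Int.not_even_iff_odd.1 fun e => h' (key _ _ hn e)

theorem ev_congr {H : Subgroup GQ} {x y : Om} (e : w.v x = w.v y) (h : w.Ev H y) : w.Ev H x := by
  obtain ⟨t, ht, e'⟩ := h
  exact ⟨t, ht, e.trans e'⟩

theorem ev_back {u : GQ} (hu : u ∈ KP k) (ha : Fix (KP k) a)
    (h : (u • w).Ev ((u • w).D ⊓ KP k) a) : w.Ev (w.D ⊓ KP k) a := by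
  simpa using TZONE.ev_smul (inv_mem hu) ha h

theorem v_tau (w : Pl) (x : Om) : w.v (tau x) = (tau⁻¹ • w).v x := by
  rw [Pl.smul_v, inv_inv]

theorem adjust (hVL : VL) (R : Finset Pl) : ∀ a : Om, Fix (KP k) a → a ≠ 0 →
    (∀ w : Pl, w.p ≠ 2 → ¬ w.Ev (w.D ⊓ KP k) a → w.D ⊓ KP k ≤ KC k ∧ ∃ u ∈ KP k, u • w ∈ R) →
    ∃ X, Fix (KC k) X ∧ X ≠ 0 ∧ ∀ w : Pl, w.p ≠ 2 → w.Ev (w.D ⊓ KP k) (a * (X * tau X)) := by
  classical
  induction R using Finset.induction_on with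
  | empty =>
    intro a _ _ h
    refine ⟨1, fix_one, one_ne_zero, fun w hw => by_contra fun e => ?_⟩
    obtain ⟨-, u, -, hu⟩ := h w hw (by simpa using e)
    exact Finset.notMem_empty _ hu
  | insert w₀ R _ ih =>
    intro a ha a0 h
    by_cases hb : w₀.p ≠ 2 ∧ ¬ w₀.Ev (w₀.D ⊓ KP k) a
    · obtain ⟨x, hx, x0, xe, xv⟩ := hVL k w₀ hb.1
      have hD := (h w₀ hb.1 hb.2).1
      have hE : w₀.D ⊓ KC k = w₀.D ⊓ KP k :=
        le_antisymm (inf_le_inf_left _ inf_le_left) (le_inf inf_le_left hD)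
      have a1 := ha.mul (fix_N hx)
      have e0 : w₀.Ev (w₀.D ⊓ KP k) (a * (x * tau x)) := by
        have h1 : w₀.v (tau x) = 1 := by
          rw [v_tau]
          refine xv _ hb.1 fun u hu e => tau_L k (inv_mem_iff.1 ((mul_mem_cancel_left hu).1 (hD
            ⟨?_, (KP k).mul_mem hu.1 ((KP k).inv_mem (tau_U k))⟩)))
          exact (mul_smul u tau⁻¹ w₀).trans e
        exact ev_congr (by rw [← mul_assoc, map_mul, h1, mul_one])
          (ev_mul (on_KP k).2 (ha.mono inf_le_right) (hx.mono hD) a0 x0 hb.2 (hE ▸ xe))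
      obtain ⟨X, hX, X0, hv⟩ := ih _ a1
        (mul_ne_zero a0 (mul_ne_zero x0 ((map_ne_zero _).2 x0))) fun w hw he => by
          have hn : ∀ u ∈ KP k, u • w ≠ w₀ := fun u hu e => he (ev_back hu a1 (e ▸ e0))
          have h1 : w.v x = 1 := xv w hw fun u hu e => hn u hu.1 e
          have h2 : w.v (tau x) = 1 := by
            rw [v_tau]
            exact xv _ hw fun u hu e => hn _ ((KP k).mul_mem hu.1 ((KP k).inv_mem (tau_U k)))
              ((mul_smul u tau⁻¹ w).trans e)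
          obtain ⟨h3, u, hu, h4⟩ := h w hw fun e =>
            he (ev_congr (by rw [map_mul, map_mul, h1, h2, mul_one, mul_one]) e)
          exact ⟨h3, u, hu, (Finset.mem_insert.1 h4).resolve_left (hn u hu)⟩
      refine ⟨x * X, hx.mul hX, mul_ne_zero x0 X0, fun w hw => ?_⟩
      rw [map_mul, show a * (x * X * (tau x * tau X)) = a * (x * tau x) * (X * tau X) by ring]
      exact hv w hw
    · refine ih a ha a0 fun w hw he => ?_
      obtain ⟨h3, u, hu, h4⟩ := h w hw he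
      refine ⟨h3, u, hu, (Finset.mem_insert.1 h4).resolve_left fun e => hb ⟨e ▸ hw, fun e' => ?_⟩⟩
      exact he (ev_back hu ha (e ▸ e'))

end TABK

open TABK in
theorem t_ABK (hVD : VD) (hPIK : PIK) (hVL : VL) : ABK := by
  intro k f hf hR hw
  have hU := (on_KP k).2
  have i0 : rt (-1) ≠ 0 := LC.rt_ne (by norm_num)
  have hi : Fix ⊤ (rt (-1) ^ 2) := LA.fix (rt_sq _)
  obtain ⟨a, ha, a0, -, hN⟩ := (a_SYM (KP k) (KC k) (rt (-1)) (closed_of_open hU) i0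
    (hi.mono le_top) (isKer_qc _ _)).2.2.2.2 f hf.1 (a_ABHN (KC k) f (on_KC k).2 (tc_KC k)
      (hf.mono inf_le_left) fun w => (hw w).mono (inf_le_inf_left _ inf_le_left))
  obtain ⟨B, hB⟩ := a_PL.2.2.2.2.2.1 a a0
  obtain ⟨R, -, hO⟩ := (a_ORB _ hU).2.1 (Finset.range (B + 1))
  obtain ⟨X, hX, X0, hv⟩ := adjust hVL R a ha a0 fun w h2 he => by
    constructor
    · have h1 : Sq (w.D ⊓ KP k) (rt (-1) ^ 2) := by_contra fun e =>
        he ((a_NU w _ _ (w.loc_inf hU) h2 (hi.mono le_top) (by rw [rt_sq]; simp)).2 e a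
          ((hN _ inf_le_right (w.loc_inf hU).closed).1 (hw w)))
      exact fun g hg => ⟨hg.2, (sq_iff (hi.mono le_top)).1 h1 g hg⟩
    · have h1 : ¬ Out (KP k) R w := fun e => he ⟨1, fix_one, by
        rw [hB w (by simpa using (hO w).1 e), map_one, one_pow]⟩
      simpa [Out] using h1
  have a1 := ha.mul (fix_N hX)
  obtain ⟨β, hβ⟩ := exists_root (a * (X * tau X)) two_ne_zero
  have β0 : β ≠ 0 := fun e => mul_ne_zero a0 (mul_ne_zero X0 ((map_ne_zero tau).2 X0))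
    (by rw [← hβ, e]; simp)
  have h1 : Fix (KP (k + 1)) β := (hVD k β β0 (hβ ▸ a1) fun w h2 =>
    (ev_iff hU h2 ((I_le h2).trans (KI_le k)) β0 (hβ ▸ a1)).1 (hβ ▸ hv w h2)).2 fun s => by
      obtain ⟨x, y, hx, hy, e⟩ := (hN _ (Subgroup.zpowers_le.2 (KI_le k (ts_mem s)))
        (closed_zp s)).1 (hR s)
      refine pos (x := (x + rt (-1) * y) * X) ?_
      rw [hβ, map_mul, map_add, map_mul, hx _ (Subgroup.mem_zpowers _),
        hy _ (Subgroup.mem_zpowers _), ts_i, (out hX (KI_le k (ts_mem s)) (ts_not s)).1, e]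
      ring
  obtain ⟨ξ, ⟨hξ, ξ0, -⟩, c, hc, e⟩ := hPIK k _ a1 ⟨β, h1, hβ.symm⟩
  have h2 := nm_N ((hc.mono inf_le_left).div (hX.mul hξ))
  rw [map_div₀, map_mul, hc _ (tau_U k)] at h2
  refine (hN _ le_rfl (closed_of_open hU)).2 ?_
  have t1 := (map_ne_zero tau).2 X0
  have t2 := (map_ne_zero tau).2 ξ0
  rwa [show c / (X * ξ) * (c / (tau X * tau ξ)) = a by
    field_simp; linear_combination -e] at h2

end Pool.Agent.P.MP_9c97e9_nt.KT
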