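import Pool.Agent.P.MP_9c97e9_nt.KT.BasK

/-! The Selmer group at the top of the tower is divisible. -/

namespace Pool.Agent.P.MP_9c97e9_nt.KT

open scoped NNReal Matrix
open MP_8b7eba_nt.R2
open BK TIW0

namespace TBR

variable {D : Dat} {c c' : GQ → EO} {v v' : V2}

theorem pt_eq : T2.pt v = T2.pt v' ↔ ‖v - v'‖ ≤ 1 := by rw [← sub_eq_zero, ← map_sub, T2.ker]

theorem pow_pt (i : ℕ) (v : V2) : 2 ^ i • T2.pt v = 0 ↔ ‖v‖ ≤ 2 ^ i := by
  rw [← map_nsmul, T2.ker, ← Nat.cast_smul_eq_nsmul ℚ_[2], norm_smul, Nat.cast_pow, norm_pow,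
    Nat.cast_ofNat, norm_two, inv_pow, inv_mul_le_iff₀ (by positivity), mul_one]

theorem back {x : GQ → V2} (hx : D.XC x) : D.SH KI fun g => T2.pt (x g) := by
  refine ⟨hx.uc.sm T2.pt one_pos fun v v' h => pt_eq.2 h, fun g hg h hh => ?_, fun g hg => ?_, ?_,
    ?_, fun g hg => ?_, fun w hw g hg => ?_, fun s => ?_⟩
  · rw [hx.co g hg h hh, map_add, tac_pt]
  · rw [hx.off g hg, map_zero]
  · obtain ⟨B, hB⟩ := XC_bdd hx
    obtain ⟨i, hi⟩ := pow_unbounded_of_one_lt B (one_lt_two (α := ℝ))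
    exact ⟨i, fun g => (pow_pt i _).2 ((hB g).trans hi.le)⟩
  · rw [hx.nz, map_zero]
  · rw [T2.e1, hx.ord g hg.1]
    simp
  · rw [hx.unr w hw g hg.1, map_zero]
  · have h1 := hx.co 1 (one_mem _) 1 (one_mem _)
    rw [one_mul, rd_one, Matrix.one_mulVec, left_eq_add] at h1
    have h2 := hx.co _ (ts_mem s) _ (ts_mem s)
    rw [ts_ts, h1, eq_comm, add_eq_zero_iff_neg_eq] at h2
    refine ⟨T2.pt (-(2⁻¹ : ℚ_[2]) • x (ts s)), ?_⟩
    change T2.pt (x (ts s)) = tac D.dl (ts s) _ - _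
    rw [tac_pt, ← map_sub, Matrix.mulVec_smul, ← h2]
    congr 1
    module

theorem sub (h : D.SH KI c) (h' : D.SH KI c') : D.SH KI fun g => c g - c' g := by
  refine ⟨h.sm.comp₂ h'.sm (· - ·), fun g hg k hk => ?_, fun g hg => ?_, ?_, ?_, fun g hg => ?_,
    fun w hw g hg => ?_, fun s => ?_⟩
  · rw [h.co g hg k hk, h'.co g hg k hk, map_sub]
    abel
  · rw [h.off g hg, h'.off g hg, sub_zero]
  · obtain ⟨i, hi⟩ := h.tor
    obtain ⟨j, hj⟩ := h'.tor
    refine ⟨i + j, fun g => ?_⟩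
    rw [smul_sub, pow_add, mul_smul _ _ (c' g), hj, mul_comm, mul_smul, hi, smul_zero, smul_zero,
      sub_zero]
  · rw [h.nz, h'.nz, sub_zero]
  · rw [sub_eq_add_neg]
    exact (a_E1G w2).2.2.1 _ _ (h.ord g hg) ((a_E1G w2).2.1 _ (h'.ord g hg))
  · rw [h.unr w hw g hg, h'.unr w hw g hg, sub_zero]
  · obtain ⟨P, hP⟩ := h.re s
    obtain ⟨Q, hQ⟩ := h'.re s
    refine ⟨P - Q, ?_⟩
    rw [hP, hQ, map_sub]
    abel

theorem two (h : D.SH KI c) : D.SH KI fun g => 2 • c g := by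
  have := sub h (sub (sub h h) h)
  rwa [show (fun g => c g - (c g - c g - c g)) = fun g => 2 • c g from
    funext fun g => by abel] at this

/-- the coordinates of a point of order two -/
noncomputable def r (v : V2) (i : Fin 2) : ZMod 2 := rz (2 * v i)

theorem n2 (x : ℚ_[2]) : ‖2 * x‖ = 2⁻¹ * ‖x‖ := by rw [norm_mul, norm_two]

theorem le1 (hv : ‖v‖ ≤ 2) (i : Fin 2) : ‖2 * v i‖ ≤ 1 := by
  have := norm_le_pi_norm v i
  rw [n2]
  linarith

theorem r_zero (hv : ‖v‖ ≤ 2) {i : Fin 2} (h : ‖v i‖ ≤ 1) : r v i = 0 := by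
  rw [r, rz_eq_zero (le1 hv i), n2]
  linarith

theorem r_eq (hv : ‖v‖ ≤ 2) (hv' : ‖v'‖ ≤ 2) : T2.pt v = T2.pt v' ↔ ∀ i, r v i = r v' i := by
  rw [pt_eq, pi_norm_le_iff_of_nonneg zero_le_one]
  refine forall_congr' fun i => ?_
  rw [r, r, rz_eq (le1 hv i) (le1 hv' i), ← mul_sub, n2, Pi.sub_apply]
  constructor <;> intro h <;> linarith

theorem r_add (hv : ‖v‖ ≤ 2) (hv' : ‖v'‖ ≤ 2) (i : Fin 2) : r (v + v') i = r v i + r v' i := by
  rw [r, Pi.add_apply, mul_add, rz_add (le1 hv i) (le1 hv' i), r, r]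

theorem base (hIW1 : IW1) (hRE : RE) (h : D.SH KI c) (h2 : ∀ g, 2 • c g = 0) :
    ∃ x ∈ D.XX, ∀ g, c g = T2.pt (x g) := by
  have : ∀ P : EO, ∃ v, 2 • P = 0 → T2.pt v = P := fun P => by
    by_cases e : 2 • P = 0
    · obtain ⟨v, hv⟩ := T2.surj P 1 (by simpa using e)
      exact ⟨v, fun _ => hv⟩
    · exact ⟨0, fun e' => (e e').elim⟩
  choose V hV using this
  have p : ∀ g, T2.pt (V (c g)) = c g := fun g => hV _ (h2 g)
  have n : ∀ g, ‖V (c g)‖ ≤ 2 := fun g => by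
    simpa using (pow_pt 1 (V (c g))).1 (by rw [p, pow_one, h2])
  have z : ∀ g i, c g = 0 → r (V (c g)) i = 0 := fun g i e =>
    r_zero (n g) ((norm_le_pi_norm _ i).trans ((T2.ker _).1 ((p g).trans e)))
  obtain ⟨y, hy, e⟩ := (hIW1 D).2 (fun i g => r (V (c g)) i) fun i =>
    ⟨⟨h.sm.comp fun P => r (V P) i, fun g hg k hk => by
        rw [← r_add (n g) (n k)]
        refine (r_eq (n _) (le_add (n g) (n k))).1 ?_ i
        rw [p, h.co g hg k hk, map_add, p, ← p k, tac_pt, p, add_right_inj, ← p k, pt_eq, p]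
        have := rd_sub D g (V (c k))
        have := n k
        linarith⟩,
      fun g hg => z g i (h.off g hg), z _ i h.nz,
      fun w hw g hg => z g i (h.unr w hw g ⟨hg, I_le (odd hw) hg⟩),
      fun e s => by
        obtain ⟨P, hP⟩ := h.re s
        exact r_zero (n _) (e ▸ hRE D s P _ (n _) ((p _).trans hP)),
      fun e g hg => by
        by_cases k : g ∈ KI
        · refine r_zero (n _) (e ▸ (T2.e1 _).1 ?_)
          rw [p]
          exact h.ord g ⟨hg, k⟩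
        · exact z g i (h.off g k)⟩
  refine ⟨(2⁻¹ : ℚ_[2]) • y, D.XX.smul_mem _ hy.1, fun g => ?_⟩
  rw [← p g]
  refine (r_eq (n g) ?_).2 fun i => ?_
  · rw [Pi.smul_apply, norm_smul, norm_inv, norm_two, inv_inv]
    have := hy.2 g
    linarith
  · rw [← e g i, r, Pi.smul_apply, Pi.smul_apply, smul_eq_mul, mul_inv_cancel_left₀ two_ne_zero]

theorem forw (hIW1 : IW1) (hRE : RE) (i : ℕ) : ∀ c : GQ → EO, D.SH KI c →
    (∀ g, 2 ^ i • c g = 0) → ∃ x ∈ D.XX, ∀ g, c g = T2.pt (x g) := by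
  induction i with
  | zero => exact fun c _ h => ⟨0, zero_mem _, fun g => by simpa using h g⟩
  | succ i ih =>
    intro c h h2
    obtain ⟨x, hx, e⟩ := ih _ (two h) fun g => by rw [← mul_smul, ← pow_succ, h2]
    have hx' : (2⁻¹ : ℚ_[2]) • x ∈ D.XX := D.XX.smul_mem _ hx
    obtain ⟨y, hy, e'⟩ := base hIW1 hRE (sub h (back hx')) fun g => by
      rw [smul_sub, e g, ← map_nsmul, ← map_sub, Pi.smul_apply,
        show x g - 2 • (2⁻¹ : ℚ_[2]) • x g = 0 by module, map_zero]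
    exact ⟨y + (2⁻¹ : ℚ_[2]) • x, add_mem hy hx', fun g => by
      rw [Pi.add_apply, map_add, ← e' g, sub_add_cancel]⟩

end TBR

open TBR in
theorem t_BR (hIW1 : IW1) (hRE : RE) : BR := by
  intro D c
  refine ⟨fun h => ?_, fun ⟨x, hx, e⟩ => ?_⟩
  · obtain ⟨i, hi⟩ := h.tor
    exact forw hIW1 hRE i c h hi
  · rw [funext e]
    exact back hx

end Pool.Agent.P.MP_9c97e9_nt.KT
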