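import Pool.Agent.P.MP_9c97e9_nt.KT.BasK

/-! Proof of CH. -/

namespace Pool.Agent.P.MP_9c97e9_nt.KT

open scoped NNReal Matrix
open MP_8b7eba_nt.R2
open Filter Topology Polynomial Module

namespace TCH

open BK

variable {k : ℕ} {w : Pl}

theorem cl (k : ℕ) : IsClosed (KP k : Set GQ) := closed_of_open (on_KP k).2

theorem IK (hw : w.p ≠ 2) (k : ℕ) : w.I ≤ KP k := (I_le hw).trans (KI_le k)

theorem unit {β : Om} (hw : w.p ≠ 2) (h0 : β ≠ 0) (h : Fix (KP k) (β ^ 2)) (e : w.v (β ^ 2) = 1)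
    {j : GQ} (hj : j ∈ w.I) : qc β j = 0 :=
  qc_eq_zero.2 ((BK.ev_iff (on_KP k).2 hw (IK hw k) h0 h).1 ⟨1, fix_one, by rw [e]; simp⟩ j hj)

theorem ch0 {β : Om} (h : U2 (KP k) (β ^ 2)) : β ≠ 0 ∧ Ch0 k (qc β) :=
  have h0 : β ≠ 0 := fun e => h.2.1 (by simp [e])
  ⟨h0, isCh_qc (cl k) h0 h.1, fun w hw _ hj => unit hw h0 h.1 (h.2.2 w hw) hj⟩

theorem isCh_sum {H : Subgroup GQ} {ι : Type} (s : Finset ι) (c : ι → ZMod 2)
    {χ : ι → GQ → ZMod 2} (h : ∀ i, IsCh H (χ i)) : IsCh H fun g => ∑ i ∈ s, c i * χ i g := by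
  classical
  refine ⟨?_, fun g hg g' hg' => by
    simp only [fun i => (h i).2 g hg g' hg', mul_add, Finset.sum_add_distrib]⟩
  induction s using Finset.induction_on with
  | empty => simpa using Sm.const 0
  | insert a s ha ih =>
    simp only [Finset.sum_insert ha]
    exact (h a).1.comp₂ ih fun x y => c a * x + y

theorem one_place (hVR : VR) (k : ℕ) (w₀ : Pl) : ∃ χ, IsCh (KP k) χ ∧ ∀ w : Pl, w.p ≠ 2 →
    ∀ j ∈ w.I, (Out (KP k) {w₀} w → χ j = 0) ∧ ∀ u ∈ KP k, u • w = w₀ → χ j = qz w.p j := by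
  by_cases h2 : w₀.p = 2
  · refine ⟨fun _ => 0, ⟨Sm.const 0, fun _ _ _ _ => (add_zero _).symm⟩, fun w hw j _ =>
      ⟨fun _ => rfl, ?_⟩⟩
    rintro u - rfl
    exact absurd h2 hw
  obtain ⟨x, hx, x0, xe, xv⟩ := (hVR k).2.2 w₀ h2
  obtain ⟨δ, rfl⟩ := exists_root x two_ne_zero
  have d0 : δ ≠ 0 := fun e => x0 (by simp [e])
  have hc := isCh_qc (cl k) d0 hx
  refine ⟨_, hc, fun w hw j hj => ⟨fun h => unit hw d0 hx (xv w hw h) hj, ?_⟩⟩
  rintro u hu rfl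
  obtain ⟨t, -, -, -, ht⟩ := BK.exists_t h2
  have h3 := ht _ (hc.mono (IK h2 k))
  have h4 : qc δ t = 1 := (LA.cases _).resolve_left fun e =>
    xe ((BK.ev_iff (on_KP k).2 h2 (IK h2 k) d0 hx).2 fun g hg =>
      qc_eq_zero.1 (by rw [h3 g hg, e, zero_mul]))
  rw [← ch_conj hc hu (IK hw k hj), h3 _ (conj_I u hj), h4, one_mul, qz_conj, Pl.smul_p]

end TCH

open TCH BK in
theorem t_CH (hVD : VD) (hVR : VR) (hVS : VS) : CH := by
  intro k
  refine ⟨fun c B hc hB => ?_, fun β hβ => ?_, fun ε hε => ?_, fun χ h => ?_⟩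
  · obtain ⟨R, hR, hP⟩ := (a_ORB _ (on_KP k).2).2.1 (Finset.range (B + 1))
    choose χ h1 h2 using one_place hVR k
    refine ⟨_, isCh_sum R c h1, fun w hw j hj => ?_⟩
    by_cases h : Out (KP k) R w
    · rw [hB w (by simpa using (hP w).1 h), zero_mul]
      exact Finset.sum_eq_zero fun w' hw' => by
        rw [(h2 w' w hw j hj).1 (h.mono (by simpa using hw')), mul_zero]
    · obtain ⟨u, hu, h⟩ : ∃ u ∈ KP k, u • w ∈ R := by simpa [Out] using h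
      rw [Finset.sum_eq_single_of_mem _ h fun w' hw' ne => ?_, (h2 _ w hw j hj).2 u hu rfl,
        hc u hu]
      rw [(h2 w' w hw j hj).1 fun u' hu' q => ?_, mul_zero]
      have q' : (u' * u⁻¹) • u • w = w' := by rw [smul_smul, inv_mul_cancel_right]; exact q
      exact ne (q'.symm.trans (hR _ h _ (mul_mem hu' (inv_mem hu)) (q' ▸ hw')))
  · obtain ⟨b, b0, bf, hb⟩ := BK.exists_qc (w2.loc_inf (on_KP k).2).closed hβ
    obtain ⟨x, hx, z, hz, ez⟩ := (hVR k).1 _ bf (pow_ne_zero 2 b0)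
    obtain ⟨η, rfl⟩ := exists_root x two_ne_zero
    obtain ⟨e0, h1⟩ := ch0 hx
    refine ⟨_, h1, fun j hj => ?_⟩
    have hj' : j ∈ w2.D ⊓ KP k := ⟨w2.I_le_D hj.1, hj.2⟩
    rw [← mul_pow] at ez
    have f := qc_eq_zero.2 ((sq_iff (ez ▸ hz.pow 2)).1 ⟨z, hz, ez⟩ j hj)
    rw [qc_mul e0 b0 (hx.1 j hj.2) (bf j hj'), ← hb j hj'] at f
    revert f
    generalize qc η j = s, β j = s'
    revert s s'
    decide
  · obtain ⟨β, h1, h2⟩ := hVS k ε hε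
    exact ⟨_, (ch0 h1).2, h2⟩
  · obtain ⟨β, b0, bf, hb⟩ := BK.exists_qc (cl k) h.1
    obtain ⟨h1, h2⟩ := hVD k β b0 bf fun w hw j hj =>
      qc_eq_zero.1 ((hb j (IK hw k hj)).symm.trans (h.2 w hw j hj))
    refine ⟨fun e g hg => (hb g hg).trans (qc_eq_zero.2 (h1 (fun j hj => ?_) g hg)),
      fun e g hg => (hb g (KP_le k.le_succ hg)).trans (qc_eq_zero.2 (h2 (fun s => ?_) g hg))⟩
    · exact qc_eq_zero.1 ((hb j hj.2).symm.trans (e j hj))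
    · exact qc_eq_zero.1 ((hb _ (KI_le k (ts_mem s))).symm.trans (e s))

end Pool.Agent.P.MP_9c97e9_nt.KT
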