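import Pool.Agent.P.MP_9c97e9_nt.KT.BasK

/-! The action of the Galois group on normalised cocycles. -/

namespace Pool.Agent.P.MP_9c97e9_nt.KT

open scoped Matrix
open MP_8b7eba_nt.R2 BK

namespace TCJ

variable (D : Dat) {c : GQ → V2} {s g h : GQ} {r : ℝ}

theorem add_le {x y : V2} (hx : ‖x‖ ≤ r) (hy : ‖y‖ ≤ r) : ‖x + y‖ ≤ r :=
  (IsUltrametricDist.norm_add_le_max x y).trans (max_le hx hy)

theorem half_le (g : GQ) {v : V2} (hv : ‖v‖ ≤ r) : ‖(2⁻¹ : ℚ_[2]) • (D.rd g *ᵥ v - v)‖ ≤ r := by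
  have h2 : ‖(2⁻¹ : ℚ_[2])‖ = 2 := by
    have := Padic.norm_p (p := 2)
    rw [norm_inv, show (2 : ℚ_[2]) = ((2 : ℕ) : ℚ_[2]) by norm_num, this]
    norm_num
  have := rd_sub D g v
  rw [norm_smul, h2]
  linarith

theorem rd_inv (s : GQ) (v : V2) : D.rd s⁻¹ *ᵥ D.rd s *ᵥ v = v := by
  rw [← rd_mulVec, inv_mul_cancel, rd_one, Matrix.one_mulVec]

theorem rd_cj (s g : GQ) (v : V2) :
    D.rd s⁻¹ *ᵥ D.rd (s * g * s⁻¹) *ᵥ v = D.rd g *ᵥ D.rd s⁻¹ *ᵥ v := by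
  rw [rd_mulVec, rd_mulVec, rd_inv]

theorem cj_mul (s s' : GQ) (c : GQ → V2) : D.cj (s * s') c = D.cj s' (D.cj s c) := by
  funext g
  by_cases hg : g ∈ KI
  swap
  · rw [D.cj_neg _ _ hg, D.cj_neg _ _ hg]
  rw [D.cj_pos _ _ hg, D.cj_pos _ _ hg, D.cj_pos _ _ (conj_KI.2 hg),
    D.cj_pos _ _ (conj_KI.2 (z_mem D)), rd_zc,
    show s * (s' * g * s'⁻¹) * s⁻¹ = s * s' * g * (s * s')⁻¹ by group,
    show s * (s' * D.z * s'⁻¹) * s⁻¹ = s * s' * D.z * (s * s')⁻¹ by group]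
  generalize c (s * s' * g * (s * s')⁻¹) = x
  generalize c (s * s' * D.z * (s * s')⁻¹) = y
  simp only [mul_inv_rev, Matrix.mulVec_add, Matrix.mulVec_smul, Matrix.mulVec_sub,
    Matrix.mulVec_neg, rd_cj]
  simp only [rd_mulVec]
  module

variable {D}

theorem cj_KI (hc : D.XC c) (hh : h ∈ KI) : D.cj h c = c := by
  funext g
  by_cases hg : g ∈ KI
  swap
  · rw [D.cj_neg _ _ hg, hc.off g hg]
  rw [D.cj_pos _ _ hg, XC_conj hc hh hg, XC_z hc hh]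
  simp only [Matrix.mulVec_add, Matrix.mulVec_smul, Matrix.mulVec_sub, rd_cj, rd_inv]
  module

theorem cj_red (hc : D.XC c) {s₀ : GQ} (h : s * s₀⁻¹ ∈ KI) : D.cj s c = D.cj s₀ c := by
  have := cj_mul D (s * s₀⁻¹) s₀ c
  rwa [inv_mul_cancel_right, cj_KI hc h] at this

theorem cj_XC (hc : D.XC c) (s : GQ) : D.XC (D.cj s c) := by
  refine ⟨?_, fun g hg k hk => ?_, fun g hg => D.cj_neg _ _ hg, ?_, fun g hg => ?_,
    fun w hw g hg => ?_⟩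
  · have h1 := (hc.uc.conj _ _ (mul_inv_cancel s) fun g => conj_KI.2).map (T2.rq D.dl s⁻¹)
    have h2 := (((rep D KI).uc (Sm.const (D.rd s⁻¹ *ᵥ c (s * D.z * s⁻¹))).uc).add
      (Sm.const (-(D.rd s⁻¹ *ᵥ c (s * D.z * s⁻¹)))).uc).map ((2⁻¹ : ℚ_[2]) • LinearMap.id)
    exact (h1.add h2).congr fun g hg => by rw [D.cj_pos _ _ hg, sub_eq_add_neg]; rfl
  · rw [D.cj_pos _ _ hg, D.cj_pos _ _ hk, D.cj_pos _ _ (mul_mem hg hk),
      show s * (g * k) * s⁻¹ = s * g * s⁻¹ * (s * k * s⁻¹) by group,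
      hc.co _ (conj_KI.2 hg) _ (conj_KI.2 hk)]
    simp only [Matrix.mulVec_add, Matrix.mulVec_smul, Matrix.mulVec_sub, rd_cj]
    rw [rd_mulVec D g k]
    module
  · rw [D.cj_pos _ _ (z_mem D), rd_z]
    module
  · by_cases hk : g ∈ KI
    swap
    · rw [D.cj_neg _ _ hk, Pi.zero_apply]
    obtain ⟨s₀, h0, h1⟩ := surjI s
    rw [cj_red hc h1, D.cj_pos _ _ hk, Pi.add_apply, Pi.smul_apply, Pi.sub_apply, rd_I' hg,
      rd_I' (inv_mem h0) (c (s₀ * g * s₀⁻¹)), hc.ord _ (mul_mem (mul_mem h0 hg) (inv_mem h0))]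
    simp
  · rw [D.cj_pos _ _ (I_le (odd hw) hg), hc.unr (s • w) hw _ (conj_I s hg), rd_unr hw hg]
    simp

theorem cj_Bad {p : ℕ} (hp : p ≠ 2) (hc : c ∈ D.Bad p) (s : GQ) : D.cj s c ∈ D.Bad p := by
  intro w hw
  obtain ⟨v, hv⟩ := hc (s • w) hw
  refine ⟨D.rd s⁻¹ *ᵥ v + (2⁻¹ : ℚ_[2]) • D.rd s⁻¹ *ᵥ c (s * D.z * s⁻¹), fun g hg => ?_⟩
  rw [D.cj_pos _ _ (I_le (hw ▸ hp) hg), hv _ (conj_I s hg)]
  simp only [Matrix.mulVec_add, Matrix.mulVec_smul, Matrix.mulVec_sub, rd_cj]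
  module

theorem cj_cont (hc : D.XC c) {ε : ℝ} (hε : 0 < ε) :
    ∃ m, ∀ s ∈ KP m, ∀ g, ‖D.cj s c g - c g‖ ≤ ε := by
  obtain ⟨B, hB⟩ := XC_bdd hc
  have hB0 : 0 < B + 1 := by linarith [hB 1, norm_nonneg (c 1)]
  obtain ⟨N, hN, h1⟩ := hc.uc ε hε
  obtain ⟨N', hN', h2⟩ := (rep D ⊤).sm _ (div_pos hε hB0)
  obtain ⟨m, hm⟩ := small (hN.inf hN')
  refine ⟨m, fun s hs g => ?_⟩
  obtain ⟨t, ⟨-, ht, ht'⟩, h3⟩ := hm s hs
  by_cases hg : g ∈ KI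
  swap
  · rw [D.cj_neg _ _ hg, hc.off g hg, sub_zero, norm_zero]
    exact hε.le
  have close : ∀ g ∈ KI, ‖c (t * g * t⁻¹) - c g‖ ≤ ε := fun g hg => by
    rw [show t * g * t⁻¹ = g * (g⁻¹ * t * g⁻¹⁻¹ * t⁻¹) by group]
    exact h1 g hg _ (comm_KI _ _) (mul_mem (hN.1.conj_mem t ht _) (inv_mem ht))
  have h4 := close _ (z_mem D)
  rw [hc.nz, sub_zero] at h4
  have h5 : ‖D.rd t⁻¹ *ᵥ c (t * g * t⁻¹) - c (t * g * t⁻¹)‖ ≤ ε := by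
    refine (h2 t⁻¹ trivial (inv_mem ht') _).trans ?_
    rw [div_mul_eq_mul_div, div_le_iff₀ hB0]
    exact mul_le_mul_of_nonneg_left (by linarith [hB (t * g * t⁻¹)]) hε.le
  have h6 := add_le (add_le h5 (close g hg)) (half_le D g (rd_le D t⁻¹ h4))
  rw [cj_red hc h3, D.cj_pos _ _ hg]
  convert h6 using 2
  abel

end TCJ

open TCJ in
theorem t_CJ : CJ := fun D =>
  ⟨fun s c r hr g => by
    by_cases hg : g ∈ KI
    · rw [D.cj_pos _ _ hg]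
      exact add_le (rd_le D _ (hr _)) (half_le D g (rd_le D _ (hr _)))
    · rw [D.cj_neg _ _ hg, norm_zero]
      exact (norm_nonneg _).trans (hr g),
  fun c hc => ⟨cj_XC hc, fun s _ hp h => cj_Bad hp h s, fun s s' => cj_mul D s s' c,
    fun _ hh => cj_KI hc hh, fun _ hε => cj_cont hc hε⟩⟩

end Pool.Agent.P.MP_9c97e9_nt.KT
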