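import Pool.Agent.P.MP_9c97e9_nt.KT.BasK
import Pool.Agent.P.MP_9c97e9_nt.KT.SelJ

/-! Descent from the top of the cyclotomic tower. -/

namespace Pool.Agent.P.MP_9c97e9_nt.KT

open scoped NNReal Matrix
open MP_8b7eba_nt.R2
open Filter Topology Module

namespace TDSC

variable {A : Type} [NormedCommRing A] [NormedAlgebra ℚ_[2] A] {ψ : ℤ_[2] → A} {D : Dat}
  {ξ : GQ → Fin 2 → A}

/-- the hypothesis -/
def Hy (D : Dat) (ψ : ℤ_[2] → A) (ξ : GQ → Fin 2 → A) : Prop :=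
  ∀ t : A →ₗ[ℚ_[2]] ℚ_[2], (fun g i => t (ξ g i)) ∈ D.XB ∧
    D.cj D.gm (fun g i => t (ξ g i)) = fun g i => t (ψ 1 * ξ g i)

/-- the extension -/
noncomputable def xx (D : Dat) (ξ : GQ → Fin 2 → A) (s : GQ) : Fin 2 → A :=
  (2⁻¹ : ℚ_[2]) • ξ (s * D.z * s⁻¹)

theorem Hy.xc (H : Hy D ψ ξ) (t : A →ₗ[ℚ_[2]] ℚ_[2]) : D.XC fun g i => t (ξ g i) := (H t).1.1

theorem Hy.pow (hCJ : CJ) (h : IsPsi ψ) (H : Hy D ψ ξ) (t : A →ₗ[ℚ_[2]] ℚ_[2]) (a : ℕ) :
    D.cj (D.gm ^ a) (fun g i => t (ξ g i)) = fun g i => t (ψ a * ξ g i) := by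
  obtain ⟨-, -, h3, h4, -⟩ := (hCJ D).2 _ (H t).1.1
  induction a with
  | zero => rw [pow_zero, h4 1 (one_mem _), Nat.cast_zero, h.zero]; simp
  | succ a ih =>
    rw [pow_succ, h3, ih]
    refine (H (t ∘ₗ LinearMap.mulLeft ℚ_[2] (ψ a))).2.trans ?_
    funext g i
    rw [Nat.cast_succ, h.add, mul_assoc]
    rfl

theorem mv_zc (D : Dat) (s : GQ) (v : Fin 2 → A) : mv (D.rd (s * D.z * s⁻¹)) v = -v :=
  TIW.sep fun t => by
    rw [mv_map, mv_rat, BK.rd_zc]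
    funext i
    exact (map_neg t _).symm

theorem Hy.top (H : Hy D ψ ξ) {s : GQ} (hs : s ∈ KI) : xx D ξ s = ξ s := by
  have : ξ (s * D.z * s⁻¹) = (2 : ℚ_[2]) • ξ s := TIW.sep fun t =>
    (BK.XC_z (H.xc t) hs).trans (funext fun i => (map_smul t _ _).symm)
  rw [xx, this, smul_smul, inv_mul_cancel₀ two_ne_zero, one_smul]

theorem zero {v : Fin 2 → A} (e : ∀ t : A →ₗ[ℚ_[2]] ℚ_[2], (fun i => t (v i)) = 0) : v = 0 :=
  TIW.sep fun t => (e t).trans (funext fun _ => (map_zero t).symm)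

theorem Hy.ord (H : Hy D ψ ξ) {g : GQ} (hg : g ∈ w2.I) : ξ g 1 = 0 :=
  (Module.forall_dual_apply_eq_zero_iff ℚ_[2] _).1 fun t => (H.xc t).ord g hg

variable [FiniteDimensional ℚ_[2] A]

theorem Hy.all (hCJ : CJ) (h : IsPsi ψ) (H : Hy D ψ ξ) (t : A →ₗ[ℚ_[2]] ℚ_[2]) (s g : GQ) :
    D.cj s (fun g i => t (ξ g i)) g = fun i => t (ψ (la s) * ξ g i) := by
  obtain ⟨-, -, h3, -, h5⟩ := (hCJ D).2 _ (H t).1.1
  let F : A →ₗ[ℚ_[2]] V2 := LinearMap.pi fun i => t ∘ₗ LinearMap.mulRight ℚ_[2] (ξ g i)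
  obtain ⟨C, hC, hF⟩ := PatA.bound F
  refine eq_of_forall_dist_le fun ε hε => ?_
  obtain ⟨m, hm⟩ := h5 _ (half_pos hε)
  obtain ⟨k, hk⟩ := h.near (div_pos (half_pos hε) hC)
  have h6 := BK.dec (BK.la_gm D) (max m k) s
  generalize (Ps (max m k) s).val = a at h6
  have h7 := (hCJ D).1 (D.gm ^ a) (D.cj (s * (D.gm ^ a)⁻¹) (fun g i => t (ξ g i)) -
    fun g i => t (ξ g i)) _ (hm _ (BK.KP_le (le_max_left m k) h6)) g
  rw [map_sub, ← h3, inv_mul_cancel_right, H.pow hCJ h] at h7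
  have h8 := BK.mem_KP.1 (BK.KP_le (le_max_right m k) h6)
  rw [la_mul, la_inv, la_pow, BK.la_gm, mul_one, ← sub_eq_add_neg, dvd_sub_comm] at h8
  have h9 := (hF (ψ a - ψ (la s))).trans (mul_le_mul_of_nonneg_left (hk _ _ h8) hC.le)
  rw [map_sub, mul_div_cancel₀ _ hC.ne'] at h9
  rw [dist_eq_norm, ← add_halves ε]
  exact (norm_sub_le_norm_sub_add_norm_sub _ (F (ψ a)) _).trans (add_le_add h7 h9)

theorem Hy.conj (hCJ : CJ) (h : IsPsi ψ) (H : Hy D ψ ξ) (s : GQ) {g : GQ} (hg : g ∈ KI) :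
    ξ (s * g * s⁻¹) = D.r ψ s (ξ g) + xx D ξ s - mv (D.rd (s * g * s⁻¹)) (xx D ξ s) := by
  have h1 : mv (D.rd s⁻¹) (ξ (s * g * s⁻¹)) + (2⁻¹ : ℚ_[2]) •
      (mv (D.rd g) (mv (D.rd s⁻¹) (ξ (s * D.z * s⁻¹))) - mv (D.rd s⁻¹) (ξ (s * D.z * s⁻¹))) =
      ψ (la s) • ξ g := TIW.sep fun t => by
    refine Eq.trans ?_ (H.all hCJ h t s g)
    rw [D.cj_pos s _ hg, ← mv_rat, ← mv_rat, ← mv_rat, ← mv_map, ← mv_map, ← mv_map]
    funext i
    simp only [Pi.add_apply, Pi.smul_apply, Pi.sub_apply, map_add, map_smul, map_sub]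
  have h2 := congrArg (mv (D.rd s)) h1
  simp only [map_add, LinearMap.map_smul_of_tower, map_sub, ← mv_mul, ← D.rd_mul, mul_inv_cancel,
    D.rd_one, mv_one] at h2
  rw [Dat.r_apply, ← h2, xx, LinearMap.map_smul_of_tower, mul_assoc s g]
  module

theorem Hy.co (hCJ : CJ) (h : IsPsi ψ) (H : Hy D ψ ξ) (s s' : GQ) :
    xx D ξ (s * s') = xx D ξ s + D.r ψ s (xx D ξ s') := by
  have h1 := H.conj hCJ h s (BK.conj_KI (s := s').2 (BK.z_mem D))
  rw [show s * (s' * D.z * s'⁻¹) * s⁻¹ = s * s' * D.z * (s * s')⁻¹ by group, mv_zc] at h1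
  rw [xx, h1, show xx D ξ s' = (2⁻¹ : ℚ_[2]) • ξ (s' * D.z * s'⁻¹) from rfl, map_smul]
  module

theorem Hy.bas (H : Hy D ψ ξ) :
    Uc KI ξ ∧ ∀ w : Pl, w.p ∣ 15 → ∃ v, ∀ g ∈ w.I, ξ g = mv (D.rd g) v - v := by
  let b := Module.finBasis ℚ_[2] A
  let L : Fin (finrank ℚ_[2] A) → V2 →ₗ[ℚ_[2]] Fin 2 → A := fun j =>
    LinearMap.pi fun i => LinearMap.toSpanSingleton ℚ_[2] A (b j) ∘ₗ LinearMap.proj i
  have hL : ∀ v : Fin 2 → A, ∑ j, L j (fun i => b.coord j (v i)) = v := fun v => by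
    funext i
    rw [Finset.sum_apply]
    exact b.sum_repr (v i)
  refine ⟨?_, fun w hw => ?_⟩
  · have : ∀ s : Finset (Fin (finrank ℚ_[2] A)),
        Uc KI fun g => ∑ j ∈ s, L j fun i => b.coord j (ξ g i) := fun s => by
      induction s using Finset.induction_on with
      | empty => exact (Sm.const 0).uc
      | insert j s hj ih =>
        exact (((H.xc (b.coord j)).uc.map (L j)).add ih).congr fun g _ => Finset.sum_insert hj
    exact (this Finset.univ).congr fun g _ => (hL _).symm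
  · have hp : w.p = 3 ∨ w.p = 5 := by
      rw [show 15 = 3 * 5 from rfl, w.prime.dvd_mul,
        Nat.prime_dvd_prime_iff_eq w.prime Nat.prime_three,
        Nat.prime_dvd_prime_iff_eq w.prime Nat.prime_five] at hw
      exact hw
    choose v hv using fun j =>
      hp.elim ((H (b.coord j)).1.2.1 w) ((H (b.coord j)).1.2.2 w)
    refine ⟨∑ j, L j (v j), fun g hg => ?_⟩
    rw [map_sum, ← Finset.sum_sub_distrib, ← hL (ξ g)]
    refine Finset.sum_congr rfl fun j _ => ?_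
    rw [show (fun i => b.coord j (ξ g i)) = _ from hv j g hg, map_sub, ← mv_rat]
    exact congrArg (· - L j (v j)) (mv_map (LinearMap.toSpanSingleton ℚ_[2] A (b j)) _ _)

variable [IsUltrametricDist A]

theorem Hy.pz (hCJ : CJ) (h : IsPsi ψ) (H : Hy D ψ ξ) :
    PZ (fun _ => ⊤) (D.r ψ) (fun g => ul fun k => xx D ξ (g k)) ∧
      ∀ g : GS, Tendsto (fun k => xx D ξ (g k)) UF (𝓝 (ul fun k => xx D ξ (g k))) := by
  have hz := BK.z_mem D
  have h1 : Uc ⊤ (xx D ξ) := by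
    refine uc_of_cocycle (D.rep h) (fun g _ g' _ => H.co hCJ h g g') fun ε hε => ?_
    obtain ⟨N, hN, h2⟩ := H.bas.1.map ((2⁻¹ : ℚ_[2]) • LinearMap.id) ε hε
    refine ⟨N, hN, fun n _ hn => ?_⟩
    have h3 := h2 _ hz _ (mul_mem (inv_mem hz) (BK.conj_KI (s := n).2 hz)) (by
      rw [show D.z⁻¹ * (n * D.z * n⁻¹) = D.z⁻¹ * n * D.z * n⁻¹ by group]
      exact mul_mem (hN.1.conj_mem' n hn _) (inv_mem hn))
    beta_reduce at h3
    rw [mul_inv_cancel_left, zero fun t => (H.xc t).nz, map_zero, sub_zero] at h3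
    exact h3
  have h4 := pz_const (D.rep h) h1 fun g _ g' _ => H.co hCJ h g g'
  exact ⟨h4.1, fun g => h4.2 g (mem_top g)⟩

theorem Hy.sel (hCJ : CJ) (h : IsPsi ψ) (H : Hy D ψ ξ) :
    D.Sel ψ fun g => ul fun k => xx D ξ (g k) := by
  obtain ⟨h1, h2⟩ := H.pz hCJ h
  refine ⟨h1, (ul_eq (tendsto_const_nhds (x := xx D ξ D.z))).trans ?_, fun w g hg => ?_, fun w hw => ?_,
    Dat.ord_of_comm h (h1.mono fun _ => le_top) fun g hg => ?_⟩
  · exact (H.top (BK.z_mem D)).trans (zero fun t => (H.xc t).nz)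
  · refine ul_eq (tendsto_const_nhds.congr' (hg.mono fun k e => ?_))
    exact ((H.top (BK.I_le (BK.odd e.2) e.1)).trans (zero fun t => (H.xc t).unr _ e.2 _ e.1)).symm
  · obtain ⟨v, hv⟩ := H.bas.2 w hw
    refine ⟨v, fun g hg => ul_eq ((((D.rep h).tendsto g (tendsto_const_nhds (x := v))).sub_const
      v).congr' (hg.mono fun k e => ?_))⟩
    have h3 := BK.I_le (TIW.ne2 hw) e
    beta_reduce
    rw [H.top h3, hv _ e, Dat.r_la h (BK.mem_KI.1 h3)]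
  · refine tendsto_nhds_unique (tendsto_pi_nhds.1 (h2 _) 1)
      (tendsto_const_nhds.congr' (hg.mono fun k e => ?_))
    exact ((congrFun (H.top (BK.comm_KI (g k) D.f2)) 1).trans
      (H.ord (Pl.comm_mem a_FROB e D.fr.1))).symm

end TDSC

open TDSC

theorem t_DSC (hCJ : CJ) : DSC := by
  intro D A _ _ _ _ ψ h M hM
  have H : ∀ ξ : M, Hy D ψ ξ.1 := fun ξ => hM _ ξ.2
  refine ⟨⟨⟨fun ξ g => ul fun k => xx D ξ.1 (g k), fun ξ ξ' => funext fun g => ul_eq ?_⟩,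
    fun a ξ => funext fun g => ul_eq ?_⟩,
    (injective_iff_map_eq_zero _).2 fun ξ e => Subtype.ext (funext fun g => ?_),
    fun ξ => (H ξ).sel hCJ h⟩
  · exact ((((H ξ).pz hCJ h).2 g).add (((H ξ').pz hCJ h).2 g)).congr fun k => (smul_add _ _ _).symm
  · exact ((((H ξ).pz hCJ h).2 g).const_smul a).congr fun k => smul_comm _ _ _
  · by_cases hg : g ∈ KI
    · exact ((H ξ).top hg).symm.trans ((ul_eq tendsto_const_nhds).symm.trans (congrFun e (cs g)))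
    · exact zero fun t => ((H ξ).xc t).off g hg

end Pool.Agent.P.MP_9c97e9_nt.KT
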