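import Pool.Agent.P.MP_9c97e9_nt.KT.BasK
import Pool.Agent.P.MP_9c97e9_nt.KT.BasL

/-! The order of the relaxed Selmer group over the rationals. -/

namespace Pool.Agent.P.MP_9c97e9_nt.KT

open scoped NNReal Matrix
open MP_8b7eba_nt.R2
open Filter Topology Polynomial

namespace TEUL

noncomputable section

variable {D : Dat} {c : GQ → EO} {g : GQ}

theorem tac_zc (D : Dat) (s : GQ) {P : EO} (h : Tp P) : tac D.dl (s * D.z * s⁻¹) P = -P := by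
  obtain ⟨v, rfl⟩ := tp_iff.1 h
  rw [BK.tac_pt, BK.rd_zc, map_neg]

theorem czc (hc : D.SH ⊤ c) (s : GQ) : c (s * D.z * s⁻¹) = 2 • c s := by
  rw [ZH_conj (SH_mem_ZH hc) trivial trivial, hc.nz, map_zero, Dat.cb,
    tac_zc D s (ZH_tp (SH_mem_ZH hc) s), two_nsmul]
  abel

theorem eq_zero (hc : c ∈ D.ZH ⊤) (h : ∀ g ∈ KI, c g = 0) (h' : c D.gm = 0) : c = 0 := by
  obtain ⟨N, hN, e⟩ := ZH_ker hc
  obtain ⟨m, hm⟩ := BK.small hN
  have hA : ∀ g ∈ (⊤ : Subgroup GQ), ∀ P ∈ (⊥ : AddSubgroup EO), tac D.dl g P ∈ (⊥ : AddSubgroup EO) :=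
    fun g _ P hP => by rw [AddSubgroup.mem_bot.1 hP, map_zero]; exact zero_mem _
  funext g
  obtain ⟨s, hs, h1⟩ := hm _ (BK.dec' (BK.la_gm D) m g)
  have h2 : D.gm ^ (Ps m g).val * (((D.gm ^ (Ps m g).val)⁻¹ * g * s⁻¹) * s) ∈ ZH_sub hc ⊥ hA :=
    mul_mem (pow_mem (show D.gm ∈ ZH_sub hc ⊥ hA from ⟨trivial, h'⟩) _)
      (mul_mem (show _ ∈ ZH_sub hc ⊥ hA from ⟨trivial, h _ h1⟩) ⟨trivial, e s trivial hs.2⟩)
  rw [inv_mul_cancel_right, mul_inv_cancel_left] at h2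
  exact h2.2

theorem res (hc : D.SH ⊤ c) : D.SH KI (rs KI c) := by
  obtain ⟨h1, h2, h3, h4⟩ := rs_mem_of_le (H := KI) (SH_mem_ZH hc) le_top
  refine ⟨h1, h2, h3, h4, by rw [rs_of_mem (BK.z_mem D), hc.nz], fun g hg => ?_,
    fun w hw g hg => ?_, fun s => ?_⟩
  · rw [rs_of_mem hg.2]
    exact hc.ord g hg
  · rw [rs_of_mem hg.2]
    exact hc.unr w hw g ⟨hg.1, trivial⟩
  · rw [rs_of_mem (show s * tau * s⁻¹ ∈ KI from BK.ts_mem s)]
    exact hc.re s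

theorem tac_inj (D : Dat) (s : GQ) {P Q : EO} (h : tac D.dl s P = tac D.dl s Q) : P = Q := by
  have := congrArg (tac D.dl s⁻¹) h
  rwa [← D.tmul, ← D.tmul, inv_mul_cancel, tac_one, tac_one] at this

theorem key (D : Dat) (s : GQ) (x : GQ → V2) (hg : g ∈ KI) :
    tac D.dl s (T2.pt (D.cj s x g)) = T2.pt (x (s * g * s⁻¹)) +
      D.cb (T2.pt ((2⁻¹ : ℚ_[2]) • x (s * D.z * s⁻¹))) (s * g * s⁻¹) := by
  rw [Dat.cb, BK.tac_pt, BK.tac_pt, ← map_sub, ← map_add, D.cj_pos s x hg, Matrix.mulVec_add,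
    Matrix.mulVec_smul, Matrix.mulVec_smul, Matrix.mulVec_sub, smul_sub]
  simp only [← BK.rd_mulVec, mul_inv_cancel, BK.rd_one, Matrix.one_mulVec, mul_assoc]

theorem two_half (v : V2) : 2 • T2.pt ((2⁻¹ : ℚ_[2]) • v) = T2.pt v := by
  rw [← map_nsmul, two_nsmul, ← add_smul]
  norm_num

/-- the restriction to the top of the tower -/
def r (D : Dat) : D.SG →+ GQ → EO := (rs KI).comp D.SG.subtype

theorem mem_ker {c : D.SG} : c ∈ (r D).ker ↔ ∀ g ∈ KI, c.1 g = 0 := by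
  refine ⟨fun h g hg => (rs_of_mem hg c.1).symm.trans (congrFun h g), fun h => funext fun g => ?_⟩
  by_cases hg : g ∈ KI
  · exact (rs_of_mem hg c.1).trans (h g hg)
  · exact rs_of_not hg c.1

theorem card_ker (hEXT : EXT) (D : Dat) : Nat.card (r D).ker = 4 := by
  have h0 : D.SH KI 0 := by simpa using res (D.SG.zero_mem)
  have h1 : ∀ a : ZMod 2 × ZMod 2, ∃ c : (r D).ker, c.1.1 D.gm = s2 a.1 a.2 := fun a => by
    obtain ⟨c, h2, h3, h4⟩ := hEXT D 0 (s2 a.1 a.2) 1 h0 (by simpa using two_s2 a.1 a.2)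
      fun g _ => by simp [D.tac_two _ (two_s2 a.1 a.2)]
    exact ⟨⟨⟨c, h2⟩, mem_ker.2 h3⟩, h4⟩
  choose f hf using h1
  rw [← Nat.card_eq_of_bijective f ⟨fun a b e => ?_, fun c => ?_⟩]
  · simp
  · have := s2_inj ((hf a).symm.trans (e ▸ hf b))
    exact Prod.ext this.1 this.2
  · have h2 : 2 • c.1.1 D.gm = 0 :=
      (czc c.1.2 D.gm).symm.trans (mem_ker.1 c.2 _ (BK.conj_KI.2 (BK.z_mem D)))
    obtain ⟨a, b, e⟩ := exists_s2 h2
    refine ⟨(a, b), sub_eq_zero.1 (Subtype.ext (Subtype.ext ?_))⟩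
    exact eq_zero (SH_mem_ZH (f (a, b) - c).1.2) (mem_ker.1 (f (a, b) - c).2)
      (sub_eq_zero.2 ((hf (a, b)).trans e.symm))

/-- the cocycles which are invariant modulo the lattice -/
def XI (D : Dat) : AddSubgroup (GQ → V2) :=
  D.XX.toAddSubgroup ⊓ D.LL.toAddSubgroup.comap D.Th.toAddMonoidHom

/-- the reduction modulo the lattice -/
def ph (D : Dat) : XI D →+ GQ → EO := (T2.pt.compLeft GQ).comp (XI D).subtype

theorem ker_ph (D : Dat) : (ph D).ker = D.LL.toAddSubgroup.addSubgroupOf (XI D) := by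
  ext x
  exact ⟨fun h => ⟨x.2.1, fun g => (T2.ker _).1 (congrFun h g)⟩,
    fun h => funext fun g => (T2.ker _).2 (h.2 g)⟩

theorem range_eq (hBR : BR) (hEXT : EXT) (hCJ : CJ) (D : Dat) : (r D).range = (ph D).range := by
  ext c
  constructor
  · rintro ⟨⟨c, hc⟩, rfl⟩
    have hc : D.SH ⊤ c := hc
    obtain ⟨x, hx, e⟩ := (hBR D _).1 (res hc)
    have e' : ∀ g ∈ KI, T2.pt (x g) = c g := fun g hg => (e g).symm.trans (rs_of_mem hg c)
    refine ⟨⟨x, hx, sub_mem (((hCJ D).2 x hx).1 D.gm) hx, fun g => ?_⟩, funext fun g => (e g).symm⟩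
    change ‖D.cj D.gm x g - x g‖ ≤ 1
    by_cases hg : g ∈ KI
    · refine T2.pt_eq.1 (tac_inj D D.gm ?_)
      have h2 := D.cb_two (P := T2.pt ((2⁻¹ : ℚ_[2]) • x (D.gm * D.z * D.gm⁻¹)) - c D.gm)
        (by rw [smul_sub, two_half, e' _ (BK.conj_KI.2 (BK.z_mem D)), czc hc, sub_self])
        (D.gm * g * D.gm⁻¹)
      rw [D.cb_sub, sub_eq_zero] at h2
      rw [key D _ x hg, e' _ (BK.conj_KI.2 hg), e' g hg, h2,
        ZH_conj (SH_mem_ZH hc) trivial trivial, sub_add_cancel]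
    · rw [D.cj_neg _ _ hg, hx.off g hg, sub_zero, norm_zero]
      exact zero_le_one
  · rintro ⟨⟨x, hx, hL⟩, rfl⟩
    obtain ⟨i, hi⟩ := tp_iff.2 ⟨(2⁻¹ : ℚ_[2]) • x (D.gm * D.z * D.gm⁻¹), rfl⟩
    obtain ⟨c, h1, h2, -⟩ := hEXT D (fun g => T2.pt (x g)) _ i ((hBR D _).2 ⟨x, hx, fun _ => rfl⟩) hi
      fun g hg => by
        rw [← T2.pt_eq.2 (show ‖D.cj D.gm x g - x g‖ ≤ 1 from hL.2 g), key D _ x hg, Dat.cb]
        abel
    refine ⟨⟨c, h1⟩, funext fun g => ?_⟩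
    by_cases hg : g ∈ KI
    · exact (rs_of_mem hg c).trans (h2 g hg)
    · refine (rs_of_not hg c).trans ?_
      change 0 = T2.pt (x g)
      rw [Dat.XC.off hx g hg, map_zero]

end

end TEUL

theorem t_EUL (hBR : BR) (hEXT : EXT) (hCJ : CJ) : EUL := fun D => by
  refine ⟨D.SG.zero_mem, ?_⟩
  have h := (TEUL.r D).ker.card_mul_index
  rw [TEUL.card_ker hEXT, AddSubgroup.index_ker, TEUL.range_eq hBR hEXT hCJ,
    ← AddSubgroup.index_ker, TEUL.ker_ph] at h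
  exact h.symm

end Pool.Agent.P.MP_9c97e9_nt.KT
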