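import Pool.Agent.P.MP_9c97e9_nt.KT.BasK

/-! Central embedding problems are solved in the next layer. -/

namespace Pool.Agent.P.MP_9c97e9_nt.KT

open scoped NNReal
open MP_8b7eba_nt.R2
open BK

namespace TGTK

theorem triv (hLAYK : LAYK) (hABK : ABK) (D : Dat) (k : ℕ) (κ : GQ → GQ → ZMod 2) (hB : D.Big k)
    (hκ : Co2 (KP k) (sgn κ))
    (hI : ∀ w : Pl, ¬ w.p ∣ 30 * D.n → ∀ j ∈ w.I, ∀ g ∈ KP k, κ g j = 0 ∧ κ j g = 0)
    (hr : ∀ s, ∀ g ∈ Subgroup.zpowers (ts s), ∀ h ∈ Subgroup.zpowers (ts s), κ g h = 0) :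
    Triv (KP (k + 1)) (sgn κ) := by
  have le : KP (k + 1) ≤ KP k := KP_le k.le_succ
  have oG := (on_KP k).2
  have oU := (on_KP (k + 1)).2
  have co := (co2_sgn.1 hκ).2
  have mI : ∀ w : Pl, ¬ w.p ∣ 30 * D.n → ∀ j ∈ w.I, j ∈ KP k := fun w hw j hj =>
    KI_le k (I_le (odd hw) hj)
  have r1 : ∀ w : Pl, ¬ w.p ∣ 30 * D.n → ∀ j ∈ w.I, ∀ g ∈ KP k, ∀ h ∈ KP k,
      κ g (h * j) = κ g h := fun w hw j hj g hg h hh => by
    have := co g hg h hh j (mI w hw j hj)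
    rwa [(hI w hw j hj h hh).1, (hI w hw j hj _ (mul_mem hg hh)).1, zero_add, zero_add] at this
  have r2 : ∀ w : Pl, ¬ w.p ∣ 30 * D.n → ∀ j ∈ w.I, ∀ g ∈ KP k, ∀ h ∈ KP k,
      κ (g * j) h = κ g h := fun w hw j hj g hg h hh => by
    have h1 := co g hg j (mI w hw j hj) h hh
    have h3 := r1 (h⁻¹ • w) hw _ (conj_I h⁻¹ hj) g hg h hh
    rw [show h * (h⁻¹ * j * h⁻¹⁻¹) = j * h by group] at h3
    rw [(hI w hw j hj h hh).2, (hI w hw j hj g hg).1, zero_add, add_zero, h3] at h1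
    exact h1.symm
  have fU := hκ.mono le
  refine hABK (k + 1) _ fU.sgnT (fun s => Triv.one.congr fun g hg h hh => by
    rw [sgn, hr s g hg h hh]; rfl) fun w => ?_
  by_cases hw : w.p ∣ 30 * D.n
  · refine (a_DIE w _ _ (w.loc_inf oG) (hκ.mono inf_le_right)
      (by rw [sgn_sq]; exact Triv.one)).1 _ (w.loc_inf oU) (inf_le_inf_left _ le) ?_
    have a := Subgroup.relIndex_le_of_le_right (H := KP (k + 1))
      (inf_le_right : w.D ⊓ KP k ≤ KP k) (relIndex_ne_zero oU _)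
    have b := relIndex_ne_zero oU (w.D ⊓ KP k)
    have c := mt Subgroup.relIndex_eq_one.1 ((hLAYK.2.2 D k hB).2 w hw).1
    have ix := relIndex_succ k
    rw [show w.D ⊓ KP (k + 1) = KP (k + 1) ⊓ (w.D ⊓ KP k) by
      rw [inf_left_comm, inf_eq_left.2 le], Subgroup.inf_relIndex_right]
    omega
  · refine a_UNR w _ (w.loc_inf oU) 1 _ (fU.mono inf_le_right)
      (fun g _ h _ => congrFun (congrFun (sgn_sq κ) g) h) fun g hg h hh j hj => ⟨?_, ?_, ?_⟩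
    · rw [sgn, r2 w hw j hj.1 g (le hg.2) h (le hh.2), sgn]
    · rw [sgn, r1 w hw j hj.1 g (le hg.2) h (le hh.2), sgn]
    · rw [sgn, map_pow, map_neg, map_one]

end TGTK

open TGTK in
theorem t_GTK (hLAYK : LAYK) (hABK : ABK) (hCH : CH) : GTK := by
  classical
  intro D k κ hB hκ hI hr
  have le : KP (k + 1) ≤ KP k := KP_le k.le_succ
  obtain ⟨θ, hs, hθ⟩ := exists_bd a_GAL (closed_of_open (on_KP (k + 1)).2)
    (triv hLAYK hABK D k κ hB hκ hI hr)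
  have mI : ∀ w : Pl, ¬ w.p ∣ 30 * D.n → w.I ≤ KP (k + 1) := fun w hw =>
    (I_le (odd hw)).trans (KI_le _)
  have hc : ∀ w : Pl, ¬ w.p ∣ 30 * D.n → IsCh w.I θ := fun w hw =>
    ⟨hs.mono (mI w hw), fun g hg h hh => by
      rw [hθ g (mI w hw hg) h (mI w hw hh), (hI w hw h hh g (le (mI w hw hg))).1, add_zero]⟩
  have cj : ∀ w : Pl, ¬ w.p ∣ 30 * D.n → ∀ u ∈ KP (k + 1), ∀ j ∈ w.I,
      θ (u * j * u⁻¹) = θ j := fun w hw u hu j hj => by
    have hj' := conj_I u hj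
    have h1 := hθ u hu j (mI w hw hj)
    have h3 := hθ _ (mI (u • w) hw hj') u hu
    rw [inv_mul_cancel_right, h1, (hI w hw j hj u (le hu)).1,
      (hI (u • w) hw _ hj' u (le hu)).2, add_zero, add_zero, add_comm, add_left_inj] at h3
    exact h3.symm
  have key : ∀ w : Pl, ∃ c : ZMod 2, (w.p ∣ 30 * D.n → c = 0) ∧ (¬ w.p ∣ 30 * D.n →
      (∀ j ∈ w.I, θ j = c * qz w.p j) ∧ ∃ t ∈ w.I, qz w.p t = 1) := fun w => by
    by_cases hw : w.p ∣ 30 * D.n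
    · exact ⟨0, fun _ => rfl, fun h => (h hw).elim⟩
    · obtain ⟨t, ht, h1, -, h2⟩ := exists_t (odd hw)
      exact ⟨θ t, fun h => (hw h).elim, fun _ => ⟨h2 θ (hc w hw), t, ht, h1⟩⟩
  choose c c0 c1 using key
  obtain ⟨N, hN, hN'⟩ := id hs
  obtain ⟨B, hB'⟩ := a_GENP.2.1 N hN
  obtain ⟨χ, hχ, hv⟩ := (hCH (k + 1)).1 c B (fun u hu w => by
      by_cases hw : w.p ∣ 30 * D.n
      · rw [c0 w hw, c0 (u • w) hw]
      · obtain ⟨h1, t, ht, h2⟩ := c1 w hw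
        have h3 := (c1 (u • w) hw).1 _ (conj_I u ht)
        rw [cj w hw u hu t ht, h1 t ht, qz_conj, Pl.smul_p, h2, mul_one, mul_one] at h3
        exact h3.symm) (fun w hw' => by
      by_cases hw : w.p ∣ 30 * D.n
      · exact c0 w hw
      · obtain ⟨h1, t, ht, h2⟩ := c1 w hw
        have h3 := hN' 1 (one_mem _) t (mI w hw ht) (hB' w hw' ht)
        rwa [one_mul, (hc w hw).one, h1 t ht, h2, mul_one] at h3)
  refine ⟨fun g => θ g + χ g, ⟨hs.comp₂ hχ.1 (· + ·), fun g hg h hh => ?_⟩, fun w hw j hj => ?_⟩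
  · beta_reduce
    rw [hχ.2 g hg h hh, hθ g hg h hh]
    ring
  · beta_reduce
    rw [hv w (odd hw) j hj, (c1 w hw).1 j hj]
    exact CharTwo.add_self_eq_zero _

end Pool.Agent.P.MP_9c97e9_nt.KT
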