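import Pool.Agent.P.MP_9c97e9_nt.KT.BasK

/-! The reduction of the lattice of the integral cocycles. -/

namespace Pool.Agent.P.MP_9c97e9_nt.KT

open scoped NNReal Matrix
open MP_8b7eba_nt.R2
open Filter Topology Polynomial Module

namespace TIW1

open TIW0 BK

variable {D : Dat} {c : GQ → V2} {v : V2} {n : ℕ}

theorem r_sub (g : GQ) (hv : ‖v‖ ≤ 1) : ‖D.rd g *ᵥ v - v‖ ≤ 2⁻¹ :=
  (rd_sub D g v).trans (mul_le_of_le_one_right (by norm_num) hv)

theorem rz_r (g : GQ) (hv : ‖v‖ ≤ 1) (i : Fin 2) : rz ((D.rd g *ᵥ v) i) = rz (v i) :=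
  (rz_eq ((norm_le_pi_norm _ i).trans (rd_le D g hv)) ((norm_le_pi_norm _ i).trans hv)).2
    ((norm_le_pi_norm (D.rd g *ᵥ v - v) i).trans (r_sub g hv))

theorem r_ts (s : GQ) (hv : ‖v‖ ≤ 1) : ‖D.rd (ts s) *ᵥ v - ![v 0, -v 1]‖ ≤ 4⁻¹ :=
  (rd_ts D s v).trans (mul_le_of_le_one_right (by norm_num) hv)

theorem red_mem (h : c ∈ D.LL) (i : Fin 2) : D.Cq KI i fun g => rz (c g i) := by
  have hc : D.XC c := h.1
  refine ⟨⟨hc.uc.sm (fun v => rz (v i)) (ε := 2⁻¹) (by norm_num) fun v v' e => ?_,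
    fun g hg k hk => ?_⟩, fun g hg => ?_, ?_, fun w hw g hg => ?_, fun e s => ?_, fun e g hg => ?_⟩
  · have e' : ‖v i - v' i‖ ≤ 2⁻¹ := (norm_le_pi_norm (v - v') i).trans e
    by_cases h1 : ‖v i‖ ≤ 1
    · exact (rz_eq h1 (by simpa using le_sub h1 (e'.trans (by norm_num)))).2 e'
    · rw [rz, rz, dif_neg h1, dif_neg fun h2 : ‖v' i‖ ≤ 1 => h1 (by
        simpa using le_add (e'.trans (by norm_num)) h2)]
  · beta_reduce
    rw [hc.co g hg k hk, Pi.add_apply, rz_add (co_le h g i)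
      ((norm_le_pi_norm _ i).trans (rd_le D g (h.2 k))), rz_r g (h.2 k)]
  · rw [hc.off g hg, Pi.zero_apply, rz_zero]
  · rw [hc.nz, Pi.zero_apply, rz_zero]
  · rw [hc.unr w hw g hg, Pi.zero_apply, rz_zero]
  · subst e
    have h0 : c 1 = 0 := by simpa [rd_one] using hc.co 1 (one_mem _) 1 (one_mem _)
    have h1 := hc.co _ (ts_mem s) _ (ts_mem s)
    rw [ts_ts, h0] at h1
    have h2 := (norm_le_pi_norm _ 0).trans (r_ts (D := D) s (h.2 (ts s)))
    rw [eq_neg_of_add_eq_zero_right h1.symm, Pi.sub_apply, Pi.neg_apply, Matrix.cons_val_zero,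
      show -c (ts s) 0 - c (ts s) 0 = -(2 * c (ts s) 0) by ring, norm_neg, norm_mul,
      TIW0.norm_two] at h2
    exact (rz_eq_zero (co_le h _ 0)).2 (by linarith)
  · subst e
    rw [hc.ord g hg, rz_zero]

theorem lift (hO : ∀ k c, D.Zm (n + k) (1 + k) c →
      ∃ c', D.Zm (n + (k + 1)) (1 + (k + 1)) c' ∧ ∀ g, ‖c' g - c g‖ ≤ (2 ^ (1 + k))⁻¹)
    (h : D.Zm n 1 c) : ∃ x ∈ D.LL, ∀ g ∈ KI, ‖x g - c g‖ ≤ 2⁻¹ := by
  choose! F h1 h2 using hO
  let u : ℕ → GQ → V2 := fun k => Nat.rec c F k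
  have hu : ∀ k, D.Zm (n + k) (1 + k) (u k) := fun k => by
    induction k with
    | zero => exact h
    | succ k ih => exact h1 k _ ih
  have mono : ∀ {k l : ℕ}, k ≤ l → ((2 : ℝ) ^ l)⁻¹ ≤ (2 ^ k)⁻¹ := fun h =>
    inv_anti₀ (by positivity) (pow_le_pow_right₀ one_le_two h)
  have h3 : ∀ g k l, k ≤ l → ‖u l g - u k g‖ ≤ (2 ^ (1 + k))⁻¹ := fun g k l hl => by
    induction l, hl using Nat.le_induction with
    | base => simp
    | succ l hl ih => simpa using le_add ((h2 l _ (hu l) g).trans (mono (by omega))) ih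
  have small : ∀ ε : ℝ, 0 < ε → ∃ k : ℕ, ((2 : ℝ) ^ (1 + k))⁻¹ < ε := fun ε hε => by
    obtain ⟨k, hk⟩ := pow_unbounded_of_one_lt ε⁻¹ (one_lt_two (α := ℝ))
    exact ⟨k, (mono (by omega)).trans_lt (inv_lt_of_inv_lt₀ hε hk)⟩
  choose y hy using fun g => cauchySeq_tendsto_of_complete
    (Metric.cauchySeq_iff'.2 fun ε hε => (small ε hε).imp fun k hk l hl =>
      (dist_eq_norm (u l g) _).trans_lt ((h3 g k l hl).trans_lt hk))
  have h4 : ∀ g ∈ KI, ∀ k, ‖cut KI y g - u k g‖ ≤ (2 ^ (1 + k))⁻¹ := fun g hg k => by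
    rw [cut_pos hg]
    exact le_of_tendsto ((hy g).sub_const _).norm (eventually_atTop.2 ⟨k, h3 g k⟩)
  have h5 : ∀ g ∈ KI, (∀ k, ‖u k g‖ ≤ (2 ^ (1 + k))⁻¹) → cut KI y g = 0 := fun g hg h =>
    eq_zero fun k => (by simpa using le_add (h4 g hg k) (h k) :
      _ ≤ ((2 : ℝ) ^ (1 + k))⁻¹).trans (mono (by omega))
  refine ⟨cut KI y, ⟨⟨fun ε hε => ?_, fun g hg s hs => ?_, fun g => cut_neg,
    h5 _ (z_mem D) fun k => (hu k).nz, fun g hg => ?_,
    fun w hw g hg => h5 g (I_le (odd hw) hg) fun k => (hu k).unr w hw g hg⟩, fun g => ?_⟩,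
    fun g hg => (h4 g hg 0).trans_eq (by norm_num)⟩
  · obtain ⟨k, hk⟩ := small ε hε
    obtain ⟨N, hN, e⟩ := (hu k).sm
    refine ⟨N, hN, fun g hg s hs m => le_trans ?_ hk.le⟩
    have := le_sub (h4 _ (mul_mem hg hs) k) (h4 g hg k)
    rwa [e g (KI_le _ hg) s (KI_le _ hs) m, sub_sub_sub_cancel_right] at this
  · refine sub_eq_zero.1 (eq_zero fun k => le_trans ?_ (mono (Nat.le_add_left k 1)))
    have := le_add (le_sub (le_sub (h4 _ (mul_mem hg hs) k) (h4 g hg k))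
      (rd_le D g (h4 s hs k))) ((hu k).co g (KI_le _ hg) s (KI_le _ hs))
    rw [Matrix.mulVec_sub] at this
    exact le_of_eq_of_le (congrArg norm (by abel)) this
  · by_cases hk : g ∈ KI
    · exact eq_zero fun k => (by
        simpa using le_add ((norm_le_pi_norm _ 1).trans (h4 g hk k))
          ((hu k).ord g ⟨hg, KI_le _ hk⟩) : _ ≤ ((2 : ℝ) ^ (1 + k))⁻¹).trans (mono (by omega))
    · rw [cut_neg hk, Pi.zero_apply]
  · by_cases hg : g ∈ KI
    · simpa using le_add ((h4 g hg 0).trans (by norm_num)) ((hu 0).int g)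
    · simp [cut_neg hg]

theorem start {f : Fin 2 → GQ → ZMod 2} (hf : ∀ i, D.Cq (KP n) i (f i)) :
    D.Zm n 1 fun g i => ((f i g).val : ℕ) := by
  let c : GQ → V2 := fun g i => ((f i g).val : ℕ)
  have h1 : ∀ g, ‖c g‖ ≤ 1 := fun g => (pi_norm_le_iff_of_nonneg zero_le_one).2 fun i => norm_val _
  have h0 : ∀ g, (∀ i, f i g = 0) → ‖c g‖ ≤ (2 ^ 1)⁻¹ := fun g e =>
    (pi_norm_le_iff_of_nonneg (by norm_num)).2 fun i => by simp [c, e i]
  refine (⟨⟨Sm.pi fun i => (hf i).ch.1.comp fun a => ((a.val : ℕ) : ℚ_[2]), h1,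
    fun g hg k hk => ?_, fun w hw g hg => h0 g fun i => (hf i).unr w hw g hg⟩,
    h0 _ fun i => (hf i).nz, fun g hg => by simp [c, (hf 1).ord rfl g hg.1], fun s => ?_⟩ :
      D.Zm n 1 c)
  · rw [pow_one, show c (g * k) - c g - D.rd g *ᵥ c k =
      c (g * k) - (c g + c k) - (D.rd g *ᵥ c k - c k) by abel]
    refine le_sub ((pi_norm_le_iff_of_nonneg (by norm_num)).2 fun i =>
      (rz_eq (norm_val _) (le_add (norm_val _) (norm_val _))).1 ?_) (r_sub g (h1 k))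
    rw [rz_add (norm_val _) (norm_val _), rz_val, rz_val, rz_val, (hf i).ch.2 g hg k hk]
  · have h2 : ![c (ts s) 0, -c (ts s) 1] = -c (ts s) := by
      ext i
      fin_cases i <;> simp [c, (hf 0).re rfl s]
    have h3 := r_ts (D := D) s (h1 (ts s))
    rw [h2, sub_neg_eq_add, add_comm] at h3
    exact h3.trans_eq (by norm_num)

end TIW1

open TIW0 TIW1 BK in
theorem t_IW1 (hZI : ZI) (hOB1 : OB1) (hOB2 : OB2) : IW1 := by
  refine fun D => ⟨fun c => red_mem, fun χ hχ => ?_⟩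
  choose m hm using fun i => (hZI D i).2 (χ i) (hχ i)
  obtain ⟨k₀, hk⟩ := exists_big D
  choose f hf e using fun i => hm i (m 0 + m 1 + k₀) (by fin_cases i <;> simp <;> omega)
  obtain ⟨x, hx, h1⟩ := TIW1.lift (fun k c hc => by
    obtain ⟨c', a1, a2, a3⟩ := hOB1 D _ _ c (hk _ (by omega)) hc
    obtain ⟨c'', b1, b2⟩ := hOB2 D _ _ c' a1 a2
    exact ⟨c'', b1, fun g => by simpa using le_add (b2 g) (a3 g)⟩) (start hf)
  refine ⟨x, hx, fun g i => ?_⟩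
  by_cases hg : g ∈ KI
  · rw [← e i g hg, ← rz_val (f i g)]
    exact (rz_eq (co_le hx g i) (norm_val _)).2 ((norm_le_pi_norm _ i).trans (h1 g hg))
  · rw [(hχ i).off g hg, hx.1.off g hg, Pi.zero_apply, rz_zero]

end Pool.Agent.P.MP_9c97e9_nt.KT
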