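import Pool.Agent.P.MP_9c97e9_nt.KT.BasK

/-! The structure of the Iwasawa module. -/

namespace Pool.Agent.P.MP_9c97e9_nt.KT

open scoped NNReal Matrix
open MP_8b7eba_nt.R2
open Filter Topology Polynomial Module

namespace TIWA

open BK TIW0

variable {D : Dat} {c : GQ → V2}

theorem cj_mem (hCJ : CJ) (s : GQ) (hc : c ∈ D.LL) : D.cj s c ∈ D.LL :=
  ⟨((hCJ D).2 c hc.1).1 s, (hCJ D).1 s c 1 hc.2⟩

theorem pow_mem' (hCJ : CJ) (j : ℕ) (hc : c ∈ D.LL) : (D.Th ^ j) c ∈ D.LL := by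
  induction j with
  | zero => exact hc
  | succ j ih =>
    rw [pow_succ', End.mul_apply, Th_apply]
    exact D.LL.sub_mem (cj_mem hCJ _ ih) ih

theorem pow_sub' (hCJ : CJ) (k : ℕ) (hc : c ∈ D.LL) (g : GQ) :
    ‖((D.Th ^ 2 ^ k) c - (D.cj (D.gm ^ 2 ^ k) c - c)) g‖ ≤ 2⁻¹ := by
  induction k generalizing c g with
  | zero => simp [Th_apply]
  | succ k ih =>
    have h1 := ih (pow_mem' hCJ (2 ^ k) hc) g
    have h2 := (hCJ D).1 (D.gm ^ 2 ^ k) _ _ (ih hc) g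
    have h3 := ih hc g
    have h4 : ‖((2 : ℚ_[2]) • (D.cj (D.gm ^ 2 ^ k) c - c)) g‖ ≤ 2⁻¹ := by
      rw [Pi.smul_apply, norm_smul, norm_two]
      exact mul_le_of_le_one_right (by norm_num) ((D.LL.sub_mem (cj_mem hCJ _ hc) hc).2 g)
    refine le_of_eq_of_le (congrArg norm ?_) (le_sub (le_sub (le_add h1 h2) h3) h4)
    rw [pow_succ, mul_two, pow_add, pow_add, End.mul_apply, ((hCJ D).2 c hc.1).2.2.1]
    simp only [map_sub, Pi.sub_apply, Pi.smul_apply, two_smul]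
    abel

end TIWA

open BK TIW0 TIWA in
theorem t_IWA (hZI : ZI) (hIW1 : IW1) (hCJ : CJ) : IWA := by
  intro D
  have h1 : red '' (lat D.XX : Set (GQ → V2)) = {χ | D.Cq KI 0 χ} ×ˢ {χ | D.Cq KI 1 χ} := by
    refine Set.Subset.antisymm ?_ ?_
    · rintro _ ⟨c, hc, rfl⟩
      exact ⟨(hIW1 D).1 c hc 0, (hIW1 D).1 c hc 1⟩
    · rintro ⟨χ, χ'⟩ ⟨h, h'⟩
      obtain ⟨c, hc, e⟩ := (hIW1 D).2 ![χ, χ'] (Fin.forall_fin_two.2 ⟨h, h'⟩)
      exact ⟨c, hc, Prod.ext (funext fun g => e g 0) (funext fun g => e g 1)⟩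
  have h2 : (red '' (lat D.XX : Set (GQ → V2))).ncard = 2 ^ (2 + 2 * D.sg) := by
    rw [h1, Set.ncard_prod, (hZI D 0).1, (hZI D 1).1, ← pow_add]
    congr 1
    ring
  obtain ⟨e, he, hi, hs⟩ := basis h2
  have hb : ∀ c ∈ D.XX, ∃ B : ℝ, ∀ g, ‖c g‖ ≤ B := fun c hc => XC_bdd hc
  refine ⟨⟨e, hi, ?_, fun c => ⟨hs c, ?_⟩⟩, ?_⟩
  · refine le_antisymm (fun c hc => ?_)
      (Submodule.span_le.2 (Set.range_subset_iff.2 fun i => (he i).1))
    obtain ⟨k, hk⟩ := exists_mul (hb c hc) hc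
    obtain ⟨a, ha⟩ := hs _ hk
    rw [← Submodule.smul_mem_iff _ (show (2 : ℚ_[2]) ^ k ≠ 0 by norm_num), ← ha]
    exact Submodule.sum_mem _ fun i _ =>
      Submodule.smul_mem _ (a i : ℚ_[2]) (Submodule.subset_span ⟨i, rfl⟩)
  · rintro ⟨a, rfl⟩
    exact D.LL.sum_mem fun i _ => D.LL.smul_mem (a i) (he i)
  · choose m hm using fun i => ((hCJ D).2 (e i) (he i).1).2.2.2.2 2⁻¹ (by norm_num)
    let M := Finset.univ.sup m
    have h3 : ∀ c ∈ D.LL, ∀ s ∈ KP M, ∀ g, ‖(D.cj s c - c) g‖ ≤ 2⁻¹ := fun c hc s hs' g => by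
      obtain ⟨a, rfl⟩ := hs c hc
      have h4 : D.cj s (∑ i, a i • e i) - ∑ i, a i • e i =
          ∑ i, (a i : ℚ_[2]) • (D.cj s (e i) - e i) := by
        rw [map_sum, ← Finset.sum_sub_distrib]
        refine Finset.sum_congr rfl fun i _ => ?_
        rw [smul_sub, ← map_smul]
        rfl
      rw [h4, Finset.sum_apply]
      refine IsUltrametricDist.norm_sum_le_of_forall_le_of_nonneg (by norm_num) fun i _ => ?_
      rw [Pi.smul_apply, norm_smul]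
      exact (mul_le_of_le_one_left (norm_nonneg _) (a i).2).trans
        (hm i s (KP_le (Finset.le_sup (Finset.mem_univ i)) hs') g)
    refine (main (X := D.XX) hb h2 (T := D.Th) (Nat.two_pow_pos M) fun c hc =>
      ⟨pow_mem' hCJ _ hc, ?_⟩).2.2
    have h5 : ∀ g i, rz ((D.Th ^ 2 ^ M) c g i) = 0 := fun g i => by
      refine (rz_eq_zero (co_le (pow_mem' hCJ _ hc) g i)).2 ((norm_le_pi_norm _ i).trans ?_)
      simpa using le_add (pow_sub' hCJ M hc g)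
        (h3 c hc _ ((pow_mem_KP (la_gm D)).2 dvd_rfl) g)
    exact Prod.ext (funext fun g => h5 g 0) (funext fun g => h5 g 1)

end Pool.Agent.P.MP_9c97e9_nt.KT
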