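import Pool.Agent.P.MP_9c97e9_nt.KT.BasK

/-! The Iwasawa module and its Euler characteristic: assembly. -/

namespace Pool.Agent.P.MP_9c97e9_nt.KT

open scoped NNReal Matrix
open MP_8b7eba_nt.R2
open Filter Topology Polynomial Module BK

theorem t_IWX (hCJ : CJ) (hIWA : IWA) (hBADP : BADP) (hLATD : LATD) (hDETQ : DETQ) (hEUL : EUL)
    (hLBK : LBK) : IWX := by
  intro D
  obtain ⟨⟨e, he, hX, hL⟩, F0, hF0, hF0X⟩ := hIWA D
  obtain ⟨c1, c2⟩ := hCJ D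
  have fX : FiniteDimensional ℚ_[2] D.XX := hX ▸ Module.Finite.span_of_finite _ (Set.finite_range e)
  have dX : finrank ℚ_[2] D.XX = 2 + 2 * D.sg := by
    rw [hX, finrank_span_eq_card he, Fintype.card_fin]
  have fB : FiniteDimensional ℚ_[2] D.XB := Submodule.finiteDimensional_of_le inf_le_left
  have tX : ∀ c ∈ D.XX, D.Th c ∈ D.XX := fun c hc => D.XX.sub_mem ((c2 c hc).1 _) hc
  have tB : ∀ c ∈ D.XB, D.Th c ∈ D.XB := fun c hc => ⟨tX c hc.1,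
    (D.Bad 3).sub_mem ((c2 c hc.1).2.1 _ 3 (by norm_num) hc.2.1) hc.2.1,
    (D.Bad 5).sub_mem ((c2 c hc.1).2.1 _ 5 (by norm_num) hc.2.2) hc.2.2⟩
  have tL : ∀ c ∈ D.LL.toAddSubgroup, D.Th c ∈ D.LL.toAddSubgroup := fun c hc =>
    ⟨tX c hc.1, fun g => TIW0.le_sub (c1 _ c 1 hc.2 g) (hc.2 g)⟩
  obtain ⟨l, μ, l1, l2⟩ := hBADP D 3 (Or.inl rfl)
  obtain ⟨l', μ', l1', l2'⟩ := hBADP D 5 (Or.inr rfl)
  obtain ⟨d1, d2⟩ := hDETQ _ D.XX D.XB D.Th tX tB l l' μ μ'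
    (fun x => and_congr_right fun h => and_congr (l1 x h).1.symm (l1' x h).1.symm)
    fun x h => ⟨(l1 x h).2, (l1' x h).2⟩
  obtain ⟨a1, a2⟩ := hLATD _ _ e D.XX D.LL.toAddSubgroup D.Th tX he hX hL tL
  obtain ⟨e1, e2⟩ := hEUL D
  obtain ⟨-, hmul, hdvd, -, hone, -⟩ := a_AFX
  have hpow : ∀ n : ℕ, Dist (F0 ^ n) := fun n => by
    induction n with
    | zero => simpa using hone
    | succ n ih => exact pow_succ F0 n ▸ hmul _ _ ih hF0
  refine ⟨(D.Th.restrict tB).charpoly, hdvd _ _ (hpow _) (LinearMap.charpoly_monic _)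
    (TLB.char_dvd _ F0 (LinearMap.ext fun x => Subtype.ext ?_)), ?_, hLBK D tB, fun h => ?_⟩
  · rw [TLB.aeval_res]
    exact hF0X _ x.2.1
  · rw [LinearMap.charpoly_natDegree]
    omega
  rw [LinearMap.charpoly_natDegree] at h
  replace d2 := d2 (by omega)
  have m3 : ‖μ‖ * (if D.n % 3 = 1 then 2 else 4) = 1 := by
    rw [l2]
    by_cases h3 : D.n % 3 = 1 <;> simp [h3]
  have m5 : ‖μ'‖ * (if D.n % 5 = 1 ∨ D.n % 5 = 4 then 4 else 2) = 1 := by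
    rw [l2']
    by_cases h5 : D.n % 5 = 1 ∨ D.n % 5 = 4
    · rw [if_pos h5, if_neg (by simp [h5])]; norm_num
    · rw [if_neg h5, if_pos (Or.inr ⟨rfl, h5⟩)]; norm_num
  have z : LinearMap.det (D.Th.restrict tX) ≠ 0 ↔ (D.Th.restrict tB).charpoly.eval 0 ≠ 0 := by
    rw [← norm_ne_zero_iff, d2, mul_ne_zero_iff, mul_ne_zero_iff, norm_ne_zero_iff,
      and_iff_left (left_ne_zero_of_mul_eq_one m5), and_iff_left (left_ne_zero_of_mul_eq_one m3)]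
  refine ⟨?_, fun h0 => ?_⟩
  · rw [← z, ← a1]
    refine ⟨fun hf e0 => ?_, fun h0 => Set.finite_of_ncard_ne_zero ?_⟩
    · have := (Set.ncard_pos hf).2 ⟨0, e1⟩
      rw [e2, Dat.h0, e0] at this
      exact lt_irrefl _ this
    · rw [e2]
      exact mul_ne_zero four_ne_zero h0
  · have := a2 (z.2 h0)
    rw [d2] at this
    rw [e2, Dat.h0]
    push_cast
    exact (fun (a b s t : ℝ) (h1 : a * (b * ‖μ‖ * ‖μ'‖) = 1) (h2 : ‖μ‖ * s = 1) (h3 : ‖μ'‖ * t = 1) =>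
      (by linear_combination 4 * s * t * h1 - 4 * a * b * ‖μ'‖ * t * h2 - 4 * a * b * h3 :
        4 * a * b = 4 * s * t)) _ _ _ _ this m3 m5

end Pool.Agent.P.MP_9c97e9_nt.KT
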