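import Pool.Agent.P.MP_9c97e9_nt.KT.IfK

/-! The index of a lattice in its inverse image under an endomorphism. -/

namespace Pool.Agent.P.MP_9c97e9_nt.KT

open Module Submodule

namespace TLATD

theorem card_quot (a : ℤ_[2]) (ha : a ≠ 0) :
    (Nat.card (ℤ_[2] ⧸ Ideal.span ({a} : Set ℤ_[2])) : ℝ) * ‖a‖ = 1 := by
  have h1 : Ideal.span ({a} : Set ℤ_[2]) = RingHom.ker (PadicInt.toZModPow (p := 2) a.valuation) := by
    rw [PadicInt.ker_toZModPow]
    conv_lhs => rw [PadicInt.unitCoeff_spec ha]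
    exact Ideal.span_singleton_mul_left_unit (Units.isUnit _) _
  have h2 := Nat.card_congr (RingHom.quotientKerEquivOfSurjective
    (ZMod.ringHom_surjective (PadicInt.toZModPow (p := 2) a.valuation))).toEquiv
  rw [h1, h2, Nat.card_zmod, PadicInt.norm_eq_zpow_neg_valuation ha]
  push_cast
  rw [zpow_neg, zpow_natCast]
  field_simp

theorem norm_assoc {a b : ℤ_[2]} (h : Associated a b) : ‖a‖ = ‖b‖ := by
  obtain ⟨u, rfl⟩ := h
  rw [norm_mul, PadicInt.norm_units, mul_one]

theorem card_range {s : ℕ} (f : (Fin s → ℤ_[2]) →ₗ[ℤ_[2]] (Fin s → ℤ_[2]))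
    (hf : LinearMap.det f ≠ 0) :
    (Nat.card ((Fin s → ℤ_[2]) ⧸ LinearMap.range f) : ℝ) * ‖LinearMap.det f‖ = 1 := by
  classical
  have hinj : Function.Injective f := by
    rw [← LinearMap.ker_eq_bot]
    by_contra k
    exact hf (LinearMap.det_eq_zero_iff_ker_ne_bot.2 k)
  set N := LinearMap.range f with hN
  let e : (Fin s → ℤ_[2]) ≃ₗ[ℤ_[2]] N := LinearEquiv.ofInjective f hinj
  let b := Pi.basisFun ℤ_[2] (Fin s)
  have h : finrank ℤ_[2] N = finrank ℤ_[2] (Fin s → ℤ_[2]) := e.symm.finrank_eq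
  let a := smithNormalFormCoeffs b h
  let b' := smithNormalFormTopBasis b h
  let ab := smithNormalFormBotBasis b h
  have ab_eq := smithNormalFormBotBasis_def b h
  let e' : (Fin s → ℤ_[2]) ≃ₗ[ℤ_[2]] N := b'.equiv ab (Equiv.refl _)
  let g : (Fin s → ℤ_[2]) →ₗ[ℤ_[2]] (Fin s → ℤ_[2]) := N.subtype.comp (e' : _ →ₗ[ℤ_[2]] N)
  have ha : ∀ i, g (b' i) = a i • b' i := by
    intro i
    have : g (b' i) = (b'.equiv ab (Equiv.refl _) (b' i) : N) := rfl
    rw [this, b'.equiv_apply, Equiv.refl_apply]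
    exact ab_eq i
  have h1 : LinearMap.det g = ∏ i, a i := by
    rw [← LinearMap.det_toMatrix b', ← Matrix.det_diagonal]
    congr 1
    ext i j
    rw [LinearMap.toMatrix_apply, ha, map_smul, Basis.repr_self, Finsupp.smul_single,
      smul_eq_mul, mul_one]
    by_cases h : i = j
    · rw [h, Matrix.diagonal_apply_eq, Finsupp.single_eq_same]
    · rw [Matrix.diagonal_apply_ne _ h, Finsupp.single_eq_of_ne h]
  have h2 : ‖LinearMap.det f‖ = ‖LinearMap.det g‖ :=
    norm_assoc (LinearMap.associated_det_comp_equiv N.subtype e e')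
  rw [h2, h1, Nat.card_congr (quotientEquivPiSpan N b h).toEquiv, Nat.card_pi, norm_prod,
    Nat.cast_prod, ← Finset.prod_mul_distrib]
  exact Finset.prod_eq_one fun i _ => card_quot _ (smithNormalFormCoeffs_ne_zero b h i)

theorem main {X : Type} [AddCommGroup X] [Module ℚ_[2] X] {s : ℕ} (b : Basis (Fin s) ℚ_[2] X)
    (L : AddSubgroup X) (T : Module.End ℚ_[2] X)
    (hL : ∀ x, x ∈ L ↔ ∃ a : Fin s → ℤ_[2], ∑ i, (a i : ℚ_[2]) • b i = x)
    (hT : ∀ x ∈ L, T x ∈ L) :
    (L.relIndex (L.comap T.toAddMonoidHom) ≠ 0 ↔ LinearMap.det T ≠ 0) ∧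
    (LinearMap.det T ≠ 0 →
      (L.relIndex (L.comap T.toAddMonoidHom) : ℝ) * ‖LinearMap.det T‖ = 1) := by
  classical
  have : FiniteDimensional ℚ_[2] X := Module.Finite.of_basis b
  let φ : (Fin s → ℤ_[2]) →+ X :=
    { toFun := fun a => ∑ i, (a i : ℚ_[2]) • b i
      map_zero' := by simp
      map_add' := fun a a' => by simp [add_smul, Finset.sum_add_distrib] }
  have hφ : ∀ a i, b.repr (φ a) i = (a i : ℚ_[2]) := by
    intro a i
    change b.repr (∑ i, (a i : ℚ_[2]) • b i) i = _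
    rw [b.repr_sum_self]
  have hinj : Function.Injective φ := fun a a' k => funext fun i =>
    Subtype.ext (by rw [← hφ a i, ← hφ a' i, k])
  have hb : ∀ j, ∃ a : Fin s → ℤ_[2], φ a = T (b j) := fun j =>
    (hL _).1 (hT _ ((hL _).2 ⟨Pi.single j 1, by
      rw [Finset.sum_eq_single j] <;> simp +contextual⟩))
  choose c hc using hb
  let B : Matrix (Fin s) (Fin s) ℤ_[2] := fun i j => c j i
  have hB : LinearMap.toMatrix b b T = (PadicInt.Coe.ringHom (p := 2)).mapMatrix B := by
    ext i j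
    rw [LinearMap.toMatrix_apply, ← hc, hφ]
    rfl
  have hdet : LinearMap.det T = ((LinearMap.det (Matrix.toLin' B) : ℤ_[2]) : ℚ_[2]) := by
    rw [← LinearMap.det_toMatrix b, hB, ← RingHom.map_det, LinearMap.det_toLin']
    rfl
  have hcomm : ∀ a, T (φ a) = φ (Matrix.toLin' B a) := by
    intro a
    refine b.ext_elem fun i => ?_
    rw [hφ]
    change b.repr (T (∑ j, (a j : ℚ_[2]) • b j)) i = _
    simp only [map_sum, map_smul, ← hc, Finsupp.coe_finsetSum, Finset.sum_apply,
      Finsupp.smul_apply, hφ, Matrix.toLin'_apply, Matrix.mulVec, dotProduct, smul_eq_mul]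
    rw [PadicInt.coe_sum]
    refine Finset.sum_congr rfl fun j _ => ?_
    rw [PadicInt.coe_mul, mul_comm]
  have key : LinearMap.det T ≠ 0 →
      (L.relIndex (L.comap T.toAddMonoidHom) : ℝ) * ‖LinearMap.det T‖ = 1 := by
    intro hd
    have hi : Function.Injective T := by
      rw [← LinearMap.ker_eq_bot]
      by_contra k
      exact hd (LinearMap.det_eq_zero_iff_ker_ne_bot.2 k)
    have hs : Function.Surjective T := LinearMap.injective_iff_surjective.1 hi
    have e1 : L = (⊤ : AddSubgroup (Fin s → ℤ_[2])).map φ := by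
      ext x
      simp only [hL, AddSubgroup.mem_map, AddSubgroup.mem_top, true_and]
      rfl
    have e2 : L.map T.toAddMonoidHom = (LinearMap.range (Matrix.toLin' B)).toAddSubgroup.map φ := by
      ext x
      simp only [AddSubgroup.mem_map, hL, LinearMap.toAddMonoidHom_coe, mem_toAddSubgroup,
        LinearMap.mem_range]
      constructor
      · rintro ⟨_, ⟨a, rfl⟩, rfl⟩
        exact ⟨_, ⟨a, rfl⟩, (hcomm a).symm⟩
      · rintro ⟨_, ⟨a, rfl⟩, rfl⟩
        exact ⟨_, ⟨a, rfl⟩, hcomm a⟩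
    have e3 : L.relIndex (L.comap T.toAddMonoidHom) =
        (LinearMap.range (Matrix.toLin' B)).toAddSubgroup.index := by
      rw [← AddSubgroup.relIndex_map_map_of_injective (f := T.toAddMonoidHom) _ _ hi,
        AddSubgroup.map_comap_eq_self_of_surjective hs, e2]
      conv_lhs => rw [e1]
      rw [AddSubgroup.relIndex_map_map_of_injective _ _ hinj, AddSubgroup.relIndex_top_right]
    have hd' : LinearMap.det (Matrix.toLin' B) ≠ 0 := by
      intro k
      rw [hdet, k] at hd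
      exact hd rfl
    rw [e3, hdet]
    exact card_range _ hd'
  refine ⟨⟨fun h hd => ?_, fun hd h => ?_⟩, key⟩
  · obtain ⟨x, hx, hx0⟩ := Submodule.exists_mem_ne_zero_of_ne_bot
      (LinearMap.det_eq_zero_iff_ker_ne_bot.1 hd)
    obtain ⟨i, hi⟩ : ∃ i, b.repr x i ≠ 0 := by
      by_contra k
      push Not at k
      exact hx0 (b.ext_elem fun i => by simpa using k i)
    set m := L.relIndex (L.comap T.toAddMonoidHom) with hm
    have h1 : (2 * (m : ℚ_[2]) * b.repr x i)⁻¹ • x ∈ L.comap T.toAddMonoidHom := by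
      rw [AddSubgroup.mem_comap, LinearMap.toAddMonoidHom_coe, map_smul, LinearMap.mem_ker.1 hx,
        smul_zero]
      exact L.zero_mem
    obtain ⟨a, ha⟩ := (hL _).1 (L.nsmul_relIndex_mem h1)
    have h2 := hφ a i
    have h3 : φ a = _ := ha
    have hm0 : (m : ℚ_[2]) ≠ 0 := Nat.cast_ne_zero.2 h
    rw [h3, ← hm, map_nsmul, map_smul] at h2
    simp only [Finsupp.smul_apply, smul_eq_mul, nsmul_eq_mul] at h2
    have h4 : (2 : ℚ_[2]) * (a i : ℚ_[2]) = 1 := by
      rw [← h2]
      field_simp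
    have h5 := congrArg norm h4
    have h6 : ‖(2 : ℚ_[2])‖ = 2⁻¹ := by simpa using Padic.norm_p (p := 2)
    have h7 : ‖(a i : ℚ_[2])‖ ≤ 1 := (a i).2
    rw [norm_mul, h6, norm_one] at h5
    linarith
  · have := key hd
    rw [h] at this
    simp at this

end TLATD

theorem t_LATD : LATD := by
  intro V _ _ s e X L T hT he hX hL hTL
  obtain ⟨b, hb⟩ : ∃ b : Basis (Fin s) ℚ_[2] X, ∀ i, (b i : V) = e i := by
    subst hX
    exact ⟨Basis.span he, fun i => congrArg Subtype.val (Basis.span_apply he i)⟩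
  let L' : AddSubgroup X := L.comap X.subtype.toAddMonoidHom
  have hL' : ∀ x, x ∈ L' ↔ ∃ a : Fin s → ℤ_[2], ∑ i, (a i : ℚ_[2]) • b i = x := by
    intro x
    rw [AddSubgroup.mem_comap, hL]
    refine exists_congr fun a => ?_
    rw [Subtype.ext_iff]
    simp [hb]
  have hLX : ∀ x ∈ L, x ∈ X := by
    intro x hx
    obtain ⟨a, rfl⟩ := (hL x).1 hx
    exact sum_mem fun i _ => smul_mem _ _ (hb i ▸ (b i).2)
  have e1 : L = L'.map X.subtype.toAddMonoidHom := by
    ext x
    constructor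
    · exact fun hx => ⟨⟨x, hLX x hx⟩, hx, rfl⟩
    · rintro ⟨y, hy, rfl⟩
      exact hy
  have e2 : X.toAddSubgroup ⊓ L.comap T.toAddMonoidHom =
      (L'.comap (T.restrict hT).toAddMonoidHom).map X.subtype.toAddMonoidHom := by
    ext x
    constructor
    · exact fun hx => ⟨⟨x, hx.1⟩, hx.2, rfl⟩
    · rintro ⟨y, hy, rfl⟩
      exact ⟨y.2, hy⟩
  have e3 : L.relIndex (X.toAddSubgroup ⊓ L.comap T.toAddMonoidHom) =
      L'.relIndex (L'.comap (T.restrict hT).toAddMonoidHom) := by
    rw [e2]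
    conv_lhs => rw [e1]
    exact AddSubgroup.relIndex_map_map_of_injective _ _ X.injective_subtype
  rw [e3]
  exact TLATD.main b L' (T.restrict hT) hL' fun x hx => hTL _ hx

end Pool.Agent.P.MP_9c97e9_nt.KT
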