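import Pool.Agent.P.MP_9c97e9_nt.KT.BasK

/-! The lower bound for the Selmer group. -/

namespace Pool.Agent.P.MP_9c97e9_nt.KT

open scoped NNReal Matrix
open MP_8b7eba_nt.R2
open Filter Topology Polynomial Module

open TLB in
theorem t_LBK (hDSC : DSC) : LBK := by
  intro D hfd hinv q k j hq hk hj A _ _ _ _ ψ hψ
  rw [LinearMap.charpoly_natDegree] at hj
  have hd := dim_ker _ hq hk hj
  have hG : q ^ j ≠ 0 := pow_ne_zero _ hq.ne_zero
  generalize q ^ j = G at hd hG hψ
  let M0 : Submodule A (GQ → Fin 2 → A) :=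
    { carrier := {ξ | ∀ t : A →ₗ[ℚ_[2]] ℚ_[2], (fun g i => t (ξ g i)) ∈ D.XB ∧
        D.cj D.gm (fun g i => t (ξ g i)) = fun g i => t (ψ 1 * ξ g i)}
      zero_mem' := fun t => by
        simp only [Pi.zero_apply, mul_zero, map_zero]
        exact ⟨D.XB.zero_mem, map_zero _⟩
      add_mem' := fun {x y} hx hy t => by
        simp only [Pi.add_apply, mul_add, map_add]
        refine ⟨D.XB.add_mem (hx t).1 (hy t).1, ?_⟩
        exact (map_add (D.cj D.gm) (fun g i => t (x g i)) fun g i => t (y g i)).trans
          (by rw [(hx t).2, (hy t).2]; rfl)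
      smul_mem' := fun a x hx t => by
        refine ⟨(hx (t ∘ₗ LinearMap.mul ℚ_[2] A a)).1,
          (hx (t ∘ₗ LinearMap.mul ℚ_[2] A a)).2.trans ?_⟩
        ext g i
        simp [mul_left_comm] }
  obtain ⟨L, hL, hS⟩ := hDSC D A ψ hψ.1 M0 fun ξ hξ => hξ
  have hM0 : FiniteDimensional ℚ_[2] M0 := by
    let b := Module.finBasis ℚ_[2] A
    let e : M0 →ₗ[ℚ_[2]] Fin (finrank ℚ_[2] A) → D.XB :=
      { toFun := fun ξ s => ⟨_, (ξ.2 (b.coord s)).1⟩
        map_add' := fun x y => by
          ext s g i
          simp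
        map_smul' := fun a x => by
          ext s g i
          simp }
    refine FiniteDimensional.of_injective e ((injective_iff_map_eq_zero e).2 fun ξ hξ => ?_)
    ext g i
    exact b.forall_coord_eq_zero_iff.1 fun s =>
      congrFun (congrFun (congrArg Subtype.val (congrFun hξ s)) g) i
  have hM : FiniteDimensional ℚ_[2] (LinearMap.range L) :=
    Module.Finite.of_surjective (L.rangeRestrict.restrictScalars ℚ_[2]) L.surjective_rangeRestrict
  refine ⟨LinearMap.range L, hM, ?_, hd.trans ?_⟩
  · rintro _ ⟨ξ, rfl⟩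
    exact hS ξ
  have hk : ∀ c : LinearMap.ker (aeval (D.Th.restrict hinv) G), aeval D.Th G c.1.1 = 0 :=
    fun c => by
      rw [← aeval_res _ _ hinv, LinearMap.mem_ker.1 c.2]
      rfl
  let Φ : LinearMap.ker (aeval (D.Th.restrict hinv) G) →ₗ[ℚ_[2]] M0 :=
    { toFun := fun c => ⟨fun g i => ∑ b ∈ Finset.range (G.natDegree + 1),
        aeval D.Th (divX^[b + 1] G) c.1.1 g i • (ψ 1 - 1) ^ b, fun t => by
          have h1 : (fun g i => t (∑ b ∈ Finset.range (G.natDegree + 1),
              aeval D.Th (divX^[b + 1] G) c.1.1 g i • (ψ 1 - 1) ^ b)) =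
              ∑ b ∈ Finset.range (G.natDegree + 1),
                t ((ψ 1 - 1) ^ b) • aeval D.Th (divX^[b + 1] G) c.1.1 := by
            ext g i
            simp [mul_comm]
          refine ⟨?_, ?_⟩
          · have := D.XB.sum_mem fun b (_ : b ∈ Finset.range (G.natDegree + 1)) => D.XB.smul_mem
              (t ((ψ 1 - 1) ^ b)) (aeval (D.Th.restrict hinv) (divX^[b + 1] G) c.1).2
            simp only [aeval_res] at this
            rwa [h1]
          · rw [← eq_sub_iff_add_eq.1 (BK.Th_apply (D := D) _)]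
            ext g i
            have := congrArg t (horner D.Th ((hψ.2.2 G).2 dvd_rfl) (hk c)
              (LinearMap.proj i ∘ₗ LinearMap.proj g))
            simp only [LinearMap.comp_apply, LinearMap.proj_apply] at this
            rw [sub_mul, one_mul, map_sub] at this
            rw [Pi.add_apply, Pi.add_apply, ← eq_sub_iff_add_eq, ← this, h1]
            simp [mul_comm]⟩
      map_add' := fun x y => by
        ext g i
        simp [add_smul, Finset.sum_add_distrib]
      map_smul' := fun a x => by
        ext g i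
        simp [mul_smul, Finset.smul_sum] }
  have hΦ : Function.Injective Φ := fun x y h => by
    refine Subtype.ext (Subtype.ext (sub_eq_zero.1 (inj D.Th hG (fun p => (hψ.2.2 p).1)
      (by rw [map_sub, hk, hk, sub_zero])
      (fun s : GQ × Fin 2 => LinearMap.proj s.2 ∘ₗ LinearMap.proj s.1)
      (fun v hv => ?_) fun s => ?_)))
    · ext g i
      simpa using hv (g, i)
    have h' := congrFun (congrFun (congrArg Subtype.val h) s.1) s.2
    simp only [Φ, LinearMap.coe_mk, AddHom.coe_mk] at h'
    simp only [map_sub, sub_smul, Finset.sum_sub_distrib, LinearMap.comp_apply,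
      LinearMap.proj_apply, h', sub_self]
  exact LinearMap.finrank_le_finrank_of_injective
    (f := L.rangeRestrict.restrictScalars ℚ_[2] ∘ₗ Φ) ((L.injective_rangeRestrict_iff.2 hL).comp hΦ)

end Pool.Agent.P.MP_9c97e9_nt.KT
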