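import Pool.Agent.P.MP_9c97e9_nt.KT.BasK

/-! Proof of OB2. -/

namespace Pool.Agent.P.MP_9c97e9_nt.KT

open scoped Matrix
open MP_8b7eba_nt.R2 BK TIW0

namespace TOB2

/-- the digit of a small number -/
noncomputable def dg (j : ℕ) (x : ℚ_[2]) : ZMod 2 := rz (x / 2 ^ j)

/-- the vector with two digits -/
noncomputable def xv (s t : ZMod 2) : V2 := ![s.val, t.val]

variable {j : ℕ} {x y : ℚ_[2]}

theorem nd (j : ℕ) (x : ℚ_[2]) : ‖x / 2 ^ j‖ = 2 ^ j * ‖x‖ := by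
  rw [norm_div, norm_pow, norm_two, inv_pow, div_inv_eq_mul, mul_comm]

theorem d1 (h : ‖x‖ ≤ (2 ^ j)⁻¹) : ‖x / 2 ^ j‖ ≤ 1 := by
  rwa [nd, ← le_div_iff₀' (by positivity), one_div]

theorem d2 : ‖x / 2 ^ j‖ ≤ 2⁻¹ ↔ ‖x‖ ≤ (2 ^ (j + 1))⁻¹ := by
  rw [nd, ← le_div_iff₀' (by positivity), pow_succ, mul_inv, div_eq_mul_inv, mul_comm]

theorem hf (j : ℕ) : ((2 : ℝ) ^ (j + 1))⁻¹ ≤ (2 ^ j)⁻¹ :=
  inv_anti₀ (by positivity) (pow_le_pow_right₀ one_le_two j.le_succ)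

theorem hm (j : ℕ) : (2⁻¹ : ℝ) * (2 ^ j)⁻¹ = (2 ^ (j + 1))⁻¹ := by rw [pow_succ', mul_inv]

theorem dg_congr (h : ‖x‖ ≤ (2 ^ j)⁻¹) (e : ‖y - x‖ ≤ (2 ^ (j + 1))⁻¹) : dg j y = dg j x :=
  (rz_eq (d1 (by simpa using le_add (e.trans (hf j)) h)) (d1 h)).2 (by rwa [← sub_div, d2])

theorem dg_add (h : ‖x‖ ≤ (2 ^ j)⁻¹) (h' : ‖y‖ ≤ (2 ^ j)⁻¹) : dg j (x + y) = dg j x + dg j y := by
  rw [dg, add_div, rz_add (d1 h) (d1 h'), dg, dg]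

theorem dg_can (h : ‖x‖ ≤ (2 ^ j)⁻¹) : ‖x + 2 ^ j * (dg j x).val‖ ≤ (2 ^ (j + 1))⁻¹ := by
  rw [← d2, add_div, mul_div_cancel_left₀ _ (pow_ne_zero j two_ne_zero),
    ← rz_eq_zero (le_add (d1 h) (norm_val _)), rz_add (d1 h) (norm_val _), rz_val, dg, LC.two]

theorem sm_le {v : V2} {r : ℝ} (j : ℕ) (h : ‖v‖ ≤ r) : ‖(2 ^ j : ℚ_[2]) • v‖ ≤ r * (2 ^ j)⁻¹ := by
  rw [norm_smul, norm_pow, norm_two, inv_pow, mul_comm]
  exact mul_le_mul_of_nonneg_right h (by positivity)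

theorem co_le {v : V2} {r : ℝ} (h : ‖v‖ ≤ r) (i : Fin 2) : ‖v i‖ ≤ r :=
  (norm_le_pi_norm v i).trans h

variable (D : Dat)

theorem rd_sub' (g : GQ) {v : V2} (h : ‖v‖ ≤ (2 ^ j)⁻¹) : ‖D.rd g *ᵥ v - v‖ ≤ (2 ^ (j + 1))⁻¹ :=
  (rd_sub D g v).trans (hm j ▸ mul_le_mul_of_nonneg_left h (by norm_num))

theorem rd_add' (g : GQ) {v : V2} (h : ‖v‖ ≤ (2 ^ j)⁻¹) : ‖v + D.rd g *ᵥ v‖ ≤ (2 ^ (j + 1))⁻¹ := by
  have h1 := sm_le 1 h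
  rw [pow_one, pow_one, mul_comm, hm, two_smul] at h1
  rw [show v + D.rd g *ᵥ v = (D.rd g *ᵥ v - v) + (v + v) by abel]
  exact le_add (rd_sub' D g h) h1

theorem rd_tt (s : GQ) (v : V2) : D.rd (ts s) *ᵥ D.rd (ts s) *ᵥ v = v := by
  rw [← rd_mulVec, ts_ts, rd_one, Matrix.one_mulVec]

theorem ch_add {H : Subgroup GQ} {χ : GQ → ZMod 2} (h : IsCh H χ) (e : ZMod 2) (m : ℤ) :
    IsCh H fun g => χ g + e * qz m g :=
  ⟨h.1.comp₂ (isCh_qz m).1 fun a b => a + e * b, fun g hg k hk => by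
    beta_reduce
    rw [h.2 g hg k hk, (isCh_qz (H := H) m).2 g hg k hk]; ring⟩

variable {D} {k i : ℕ} {c : GQ → V2}

theorem chi0 (hCH : CH) (hp : D.Zp k (i + 1) c) (hq : D.Zm k i c) :
    ∃ χ, Ch0 k χ ∧ ∀ s, χ (ts s) = dg (i + 1) ((c (ts s) + D.rd (ts s) *ᵥ c (ts s)) 0) := by
  refine (hCH k).2.2.1 _ fun u hu s => dg_congr (co_le (hq.re s) 0) ?_
  have e1 := hp.co _ (KI_le k (ts_mem (u * s))) u hu
  have e2 := hp.co u hu _ (KI_le k (ts_mem s))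
  have e3 : ts (u * s) * u = u * ts s := by rw [ts_mul, inv_mul_cancel_right]
  have e4 : ∀ v, D.rd (ts (u * s)) *ᵥ D.rd u *ᵥ v = D.rd u *ᵥ D.rd (ts s) *ᵥ v := fun v => by
    rw [← rd_mulVec, e3, rd_mulVec]
  rw [e3] at e1
  have h1 := le_add (rd_add' D (ts (u * s)) (le_sub e2 e1)) (rd_sub' D u (hq.re s))
  simp only [Matrix.mulVec_sub, Matrix.mulVec_add, rd_tt, e4] at h1
  refine co_le (v := _ - _) (le_of_eq_of_le (congrArg _ ?_) h1) 0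
  abel

theorem chi1 (hCH : CH) (hp : D.Zp k (i + 1) c) (hq : D.Zm k i c) :
    ∃ χ, Ch0 k χ ∧ ∀ g ∈ w2.I ⊓ KP k, χ g = dg i (c g 1) := by
  obtain ⟨v, hv⟩ : ∃ v, (D.rd D.f2 1 1 - 1) * v = c D.f2 1 :=
    ⟨_, mul_div_cancel₀ _ (sub_ne_zero.2 (f2_ne D))⟩
  obtain ⟨y, hy⟩ : ∃ y : GQ → ℚ_[2], ∀ g, y g = c g 1 - (D.rd g 1 1 - 1) * v := ⟨_, fun _ => rfl⟩
  have a1 : ∀ g ∈ w2.D, ∀ h, D.rd (g * h) 1 1 = D.rd g 1 1 * D.rd h 1 1 := fun g hg h => by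
    rw [rd_mul, Matrix.mul_apply, Fin.sum_univ_two,
      show D.rd g 1 0 = 0 from SelA.rd_up T2 D.dl hg, zero_mul, zero_add]
  have a2 : ∀ g, ‖D.rd g 1 1 - 1‖ ≤ 2⁻¹ := fun g => by
    have := co_le (rd_sub' D (j := 0) g (v := ![0, 1]) (LC.pi (by simp) (by simp) rfl rfl)) 1
    simpa [LC.mv] using this
  have a3 : ∀ g, ‖D.rd g 1 1‖ ≤ 1 := fun g => SelA.rd_le T2 D.dl g 1 1
  have b1 : ∀ g ∈ w2.D ⊓ KP k, ∀ h ∈ KP k,
      ‖y (g * h) - y g - D.rd g 1 1 * y h‖ ≤ (2 ^ (i + 1))⁻¹ := fun g hg h hh => by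
    have := co_le (hp.co g hg.2 h hh) 1
    rw [Pi.sub_apply, Pi.sub_apply, rd_D hg.1] at this
    refine le_of_eq_of_le (congrArg _ ?_) this
    rw [hy, hy, hy, a1 g hg.1]
    ring
  have b2 : ∀ g ∈ w2.D ⊓ KP k, ∀ h ∈ KP k, ‖y h‖ ≤ (2 ^ i)⁻¹ →
      ‖y (g * h) - (y g + y h)‖ ≤ (2 ^ (i + 1))⁻¹ := fun g hg h hh e => by
    have h1 : ‖(D.rd g 1 1 - 1) * y h‖ ≤ (2 ^ (i + 1))⁻¹ := by
      rw [norm_mul, ← hm]
      exact mul_le_mul (a2 g) e (norm_nonneg _) (by norm_num)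
    refine le_of_eq_of_le (congrArg _ ?_) (le_add (b1 g hg h hh) h1)
    ring
  have b3 : ∀ g ∈ w2.D ⊓ KP k, ∀ h ∈ KP k, ‖y g‖ ≤ (2 ^ i)⁻¹ → ‖y h‖ ≤ (2 ^ i)⁻¹ →
      ‖y (g * h)‖ ≤ (2 ^ i)⁻¹ := fun g hg h hh e e' => by
    simpa using le_add ((b2 g hg h hh e').trans (hf i)) (le_add e e')
  have b4 : ∀ g ∈ w2.I, y g = c g 1 := fun g hg => by rw [hy, rd_I hg, sub_self, zero_mul, sub_zero]
  have hf2 : D.f2 ∈ w2.D ⊓ KP k := ⟨D.fr.1, KI_le k (f2_mem D)⟩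
  have b5 : ∀ m, ‖y (D.f2 ^ m)‖ ≤ (2 ^ i)⁻¹ := fun m => by
    induction m with
    | zero => rw [pow_zero, b4 1 (one_mem _)]; exact hq.ord 1 (one_mem _)
    | succ m ih =>
      rw [pow_succ]
      exact b3 _ (pow_mem hf2 m) _ hf2.2 ih (by rw [hy, hv, sub_self, norm_zero]; positivity)
  obtain ⟨N, hN, h1⟩ := hp.sm
  obtain ⟨N', hN', h2⟩ := SelA.rd_sm T2 D.dl (ε := (2 ^ (i + 1))⁻¹ / (‖v‖ + 1)) (by positivity)
  have b6 : ∀ g ∈ w2.D ⊓ KP k, ∀ n ∈ KP k, n ∈ N ⊓ N' →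
      ‖y (g * n) - y g‖ ≤ (2 ^ (i + 1))⁻¹ := fun g hg n hn e => by
    have h3 := h2 n e.2 1 1
    rw [Matrix.sub_apply, Matrix.one_apply_eq, ← Dat.rd] at h3
    rw [le_div_iff₀ (by positivity)] at h3
    rw [hy, hy, h1 g hg.2 n hn e.1, a1 g hg.1, show c g 1 - (D.rd g 1 1 * D.rd n 1 1 - 1) * v -
      (c g 1 - (D.rd g 1 1 - 1) * v) = -(D.rd g 1 1 * ((D.rd n 1 1 - 1) * v)) by ring, norm_neg,
      norm_mul, norm_mul]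
    refine (mul_le_of_le_one_left (by positivity) (a3 g)).trans (le_trans ?_ h3)
    exact mul_le_mul_of_nonneg_left (by linarith) (norm_nonneg _)
  have b7 : ∀ g ∈ w2.D ⊓ KP k, ‖y g‖ ≤ (2 ^ i)⁻¹ := fun g hg => by
    obtain ⟨f, φ, -, -, hφ, e, -, hd⟩ := a_FROB w2 w2.D w2.loc_D
    obtain rfl := e rfl
    obtain ⟨m, l, hl, n, hn, rfl⟩ := hd _ ((hN.inf hN').inf (on_KP k)) g hg.1
    have h3 := (hφ.pow m).mul (Pl.isFrob_zero.2 hl.1)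
    rw [add_zero] at h3
    replace h3 := (D.fr.pow m).inv_mul h3
    have h4 : φ ^ m * l ∈ w2.D ⊓ KP k :=
      ((w2.D ⊓ KP k).mul_mem_cancel_right (Subgroup.mem_inf.2 ⟨hn.2, hn.1.2⟩)).1 hg
    have h5 := (KP k).mul_mem ((KP k).inv_mem ((KP k).pow_mem hf2.2 m)) h4.2
    have h6 := b3 _ (pow_mem hf2 m) _ h5 (b5 m) (by rw [b4 _ h3]; exact hq.ord _ ⟨h3, h5⟩)
    rw [mul_inv_cancel_left] at h6
    simpa using le_add ((b6 _ h4 n hn.1.2 hn.1.1).trans (hf i)) h6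
  obtain ⟨χ, h3, h4⟩ := (hCH k).2.1 (fun g => dg i (y g)) ⟨⟨_, hN.inf hN', fun g hg n hn e =>
    dg_congr (b7 g hg) (b6 g hg n hn.2 e)⟩, fun g hg h hh => by
      rw [← dg_add (b7 g hg) (b7 h hh)]
      exact dg_congr (le_add (b7 g hg) (b7 h hh)) (b2 g hg h hh.2 (b7 h hh))⟩
  exact ⟨χ, h3, fun g hg => by rw [h4 g hg, b4 g hg.1]⟩

end TOB2

open TOB2 in
theorem t_OB2 (hCH : CH) : OB2 := by
  intro D k i c hp hq
  obtain ⟨χ, h1, h2⟩ := chi0 hCH hp hq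
  obtain ⟨χ', h3, h4⟩ := chi1 hCH hp hq
  have k0 := ch_add h1.1 (dg i (c D.z 0) - χ D.z) D.n
  have k1 := ch_add h3.1 (dg i (c D.z 1) - χ' D.z) (-D.n)
  obtain ⟨a, ha⟩ : ∃ a : GQ → ZMod 2, a = fun g => χ g + (dg i (c D.z 0) - χ D.z) * qz D.n g :=
    ⟨_, rfl⟩
  obtain ⟨b, hb⟩ : ∃ b : GQ → ZMod 2, b = fun g => χ' g + (dg i (c D.z 1) - χ' D.z) * qz (-D.n) g :=
    ⟨_, rfl⟩
  rw [← ha] at k0
  rw [← hb] at k1
  have x1 : ∀ g, ‖xv (a g) (b g)‖ ≤ 1 := fun g =>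
    LC.pi (norm_val _) (norm_val _) rfl rfl
  have x2 : ∀ s t : ZMod 2, ‖((s + t).val - s.val - t.val : ℚ_[2])‖ ≤ 2⁻¹ := fun s t => by
    have : ‖(((s + t).val - s.val - t.val : ℤ) : ℚ_[2])‖ ≤ 2⁻¹ := by
      rw [LC.int2]; revert s t; decide
    simpa using this
  have x3 : ∀ g, ‖(2 ^ i : ℚ_[2]) • xv (a g) (b g)‖ ≤ (2 ^ i)⁻¹ := fun g =>
    (sm_le i (x1 g)).trans (one_mul _).le
  refine ⟨fun g => c g + (2 ^ i : ℚ_[2]) • xv (a g) (b g), ⟨⟨?_, fun g => ?_,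
    fun g hg h hh => ?_, fun w hw g hg => ?_⟩, ?_, fun g hg => ?_, fun s => ?_⟩,
    fun g => by simpa only [add_sub_cancel_left] using x3 g⟩
  · exact hp.sm.comp₂ (k0.1.comp₂ k1.1 xv)
      fun v x => v + (2 ^ i : ℚ_[2]) • x
  · exact le_add (hp.int g) ((x3 g).trans (inv_le_one_of_one_le₀ (one_le_pow₀ one_le_two)))
  · have e1 : ‖xv (a (g * h)) (b (g * h)) - xv (a g) (b g) - xv (a h) (b h)‖ ≤ 2⁻¹ := by
      rw [k0.2 g hg h hh, k1.2 g hg h hh]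
      exact LC.pi (x2 _ _) (x2 _ _) rfl rfl
    have e2 := sm_le i (le_sub e1 ((rd_sub D g _).trans (mul_le_of_le_one_right (by norm_num) (x1 h))))
    rw [hm] at e2
    refine le_of_eq_of_le (congrArg _ ?_) (le_add (hp.co g hg h hh) e2)
    simp only [Matrix.mulVec_add, Matrix.mulVec_smul, smul_sub]
    abel
  · have e1 : a g = 0 := by rw [ha]; simp [h1.2 w (odd hw) g hg, (qz_unr hw hg).1]
    have e2 : b g = 0 := by rw [hb]; simp [h3.2 w (odd hw) g hg, (qz_unr hw hg).2]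
    rw [e1, e2, show xv 0 0 = 0 by simp [xv], smul_zero, add_zero]
    exact hp.unr w hw g hg
  · have e1 : a D.z = dg i (c D.z 0) := by rw [ha]; simp [qz_z D]
    have e2 : b D.z = dg i (c D.z 1) := by rw [hb]; simp [qz_z D]
    rw [e1, e2]
    exact LC.pi (dg_can (co_le hq.nz 0)) (dg_can (co_le hq.nz 1)) rfl rfl
  · have e2 : b g = dg i (c g 1) := by rw [hb]; simp [qz_two_I hg.1, h4 g hg]
    rw [e2]
    exact dg_can (hq.ord g hg)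
  · have e1 : a (ts s) = dg (i + 1) ((c (ts s) + D.rd (ts s) *ᵥ c (ts s)) 0) := by
      rw [ha]; simp only [(qz_ts_n D s).1, h2 s, mul_zero, add_zero]
    have e2 := hq.re s
    have e3 := rd_ts D s (c (ts s) + D.rd (ts s) *ᵥ c (ts s))
    rw [Matrix.mulVec_add, rd_tt, add_comm (D.rd _ *ᵥ _)] at e3
    have e4 := sm_le i ((rd_ts D s _).trans (mul_le_of_le_one_right (by norm_num) (x1 (ts s))))
    have e5 : (4⁻¹ : ℝ) * (2 ^ i)⁻¹ = (2 ^ (i + 1 + 1))⁻¹ := by rw [← hm, ← hm]; ring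
    rw [e5] at e4
    have e6 := dg_can (co_le e2 0)
    rw [← e1] at e6
    simp only [Matrix.mulVec_add, Matrix.mulVec_smul]
    rw [add_add_add_comm]
    generalize c (ts s) + D.rd (ts s) *ᵥ c (ts s) = u at *
    have e7 : ‖u 1‖ ≤ (2 ^ (i + 1 + 1))⁻¹ := by
      have := co_le e3 1
      rw [show (u - ![u 0, -u 1]) 1 = 2 * u 1 by simp; ring, norm_mul, norm_two] at this
      rw [← hm]
      linarith
    have e8 : ‖(![u 0 + 2 ^ (i + 1) * (a (ts s)).val, u 1] : V2)‖ ≤ (2 ^ (i + 1 + 1))⁻¹ :=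
      LC.pi e6 e7 rfl rfl
    refine le_of_eq_of_le (congrArg _ ?_) (le_add e8 e4)
    ext j
    fin_cases j <;> simp [xv] <;> ring

end Pool.Agent.P.MP_9c97e9_nt.KT
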