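import Pool.Agent.P.MP_9c97e9_nt.KT.BasK

/-! The next layer of the tower is generated by the square root of a norm. -/

namespace Pool.Agent.P.MP_9c97e9_nt.KT

open MP_8b7eba_nt.R2 BK

namespace TPIK

variable {g : GQ} {n : ℕ} {y : Om}

theorem mem_KP' : g ∈ KP n ↔
    2 ^ (n + 2) ∣ (cyc g : ℤ_[2]) - 1 ∨ 2 ^ (n + 2) ∣ (cyc g : ℤ_[2]) + 1 := by
  rw [mem_KP, la, a_LG.1.dvd]

theorem dvd_iff (c : ℤ_[2]) : 2 ^ n ∣ c - ((2 ^ n - 1 : ℕ) : ℤ_[2]) ↔ 2 ^ n ∣ c + 1 := by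
  rw [Nat.cast_sub Nat.one_le_two_pow, show c - (((2 ^ n : ℕ) : ℤ_[2]) - (1 : ℕ)) = c + 1 - 2 ^ n by
    push_cast; ring]
  exact dvd_sub_self_right

theorem pow_inv (hy : y ^ 2 ^ n = 1) : y ^ (2 ^ n - 1) = y⁻¹ := by
  refine eq_inv_of_mul_eq_one_left ?_
  rw [← pow_succ, Nat.sub_add_cancel Nat.one_le_two_pow, hy]

theorem act1 (hy : y ^ 2 ^ n = 1) (h : 2 ^ n ∣ (cyc g : ℤ_[2]) - 1) : g y = y :=
  (a_EC.2.2.1 g n 1 y hy (by simpa using h)).trans (pow_one y)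

theorem act2 (hy : y ^ 2 ^ n = 1) (h : 2 ^ n ∣ (cyc g : ℤ_[2]) + 1) : g y = y⁻¹ :=
  (a_EC.2.2.1 g n _ y hy ((dvd_iff _).2 h)).trans (pow_inv hy)

theorem fix_tr (hy : y ^ 2 ^ (n + 2) = 1) (h : g ∈ KP n) : g (y + y⁻¹) = y + y⁻¹ := by
  rw [map_add, map_inv₀]
  rcases mem_KP'.1 h with h | h
  · rw [act1 hy h]
  · rw [act2 hy h, inv_inv, add_comm]

theorem of_fix (hy : IsPrimitiveRoot y (2 ^ (n + 2))) (h : g (y + y⁻¹) = y + y⁻¹) : g ∈ KP n := by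
  have h0 : y ≠ 0 := hy.ne_zero (by positivity)
  have h1 : g y ≠ 0 := (map_ne_zero g).2 h0
  rw [map_add, map_inv₀] at h
  have h2 : (g y - y) * (g y - y⁻¹) = 0 := by
    field_simp at h ⊢
    linear_combination h
  rcases mul_eq_zero.1 h2 with h3 | h3
  · exact mem_KP'.2 (.inl (by
      simpa using a_EC.2.2.2.1 g _ 1 y hy (by rw [pow_one]; exact sub_eq_zero.1 h3)))
  · exact mem_KP'.2 (.inr ((dvd_iff _).1 (a_EC.2.2.2.1 g _ _ y hy
      ((sub_eq_zero.1 h3).trans (pow_inv hy.pow_eq_one).symm))))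

end TPIK

open TPIK in
theorem t_PIK : PIK := by
  intro k a ha ⟨b, hb, hab⟩
  by_cases hs : Sq (KP k) a
  · exact ⟨1, ⟨fix_one, one_ne_zero, fun w _ => map_one _⟩, by simpa using hs⟩
  obtain ⟨z, hz⟩ := exists_root (-1 : Om) (n := 2 ^ (k + 2)) (by positivity)
  have hp : IsPrimitiveRoot z (2 ^ (k + 1 + 2)) := LA.prim (k := k + 2) hz
  have h0 : z ≠ 0 := hp.ne_zero (by positivity)
  have h2 : (z ^ 2) ^ 2 ^ (k + 2) = 1 := by
    rw [← pow_mul, mul_comm, pow_mul, hz]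
    norm_num
  have h3 : (-z ^ 2) ^ 2 ^ (k + 2) = 1 := by
    rw [Even.neg_pow (by simp [pow_succ]), h2]
  have hne : 1 ≠ -z ^ 2 := fun e => by
    have e' : z ^ 2 = -1 := by linear_combination e
    rw [pow_succ' 2 (k + 1), pow_mul, e', Even.neg_pow (by simp [pow_succ]), one_pow] at hz
    norm_num at hz
  have ht : tau z = z⁻¹ := act2 hp.pow_eq_one (by simp [a_EC.2.2.2.2.2.2.2])
  have hth : (z + z⁻¹) ^ 2 = z ^ 2 + (z ^ 2)⁻¹ + 2 := by
    field_simp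
    ring
  refine ⟨1 + z ^ 2, ⟨fun g hg => ?_, fun e => hne (by linear_combination e), fun w hw => ?_⟩,
    b * (z + z⁻¹), fun g hg => ?_, ?_⟩
  · rw [map_add, map_one, act1 h2 (mem_KC'.1 hg)]
  · have h4 : w.v (z ^ 2) = 1 := Pl.v_root (by positivity) h2
    refine le_antisymm ((w.v.map_add _ _).trans (by simp [-map_pow, h4])) (not_lt.1 fun h => hne ?_)
    exact Pl.root_eq (w := w) (n := 2 ^ (k + 2)) (fun h => hw
      ((Nat.prime_dvd_prime_iff_eq w.prime Nat.prime_two).1 (w.prime.dvd_of_dvd_pow h)))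
      (one_pow _) h3 (by rwa [sub_neg_eq_add])
  · rw [map_mul]
    by_cases hg' : g ∈ KP (k + 1)
    · rw [hb g hg', fix_tr hp.pow_eq_one hg']
    have h4 : g (z + z⁻¹) = -(z + z⁻¹) := by
      refine (sq_eq_sq_iff_eq_or_eq_neg.1 ?_).resolve_left fun e => hg' (of_fix hp e)
      rw [← map_pow, hth, map_add, fix_tr h2 hg, map_ofNat]
    obtain ⟨g0, hg0, h5⟩ : ∃ g0 ∈ KP k, g0 b ≠ b := by
      by_contra hc
      push Not at hc
      exact hs ⟨b, hc, hab⟩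
    have h6 : g0 b = -b := by
      refine (sq_eq_sq_iff_eq_or_eq_neg.1 ?_).resolve_left h5
      rw [← map_pow, ← hab, ha g0 hg0]
    have h7 : g (g0 b) = b := hb _ (mul_succ hg hg0 hg' fun e => h5 (hb _ e))
    rw [h6, map_neg] at h7
    rw [h4, show g b = -b by linear_combination -h7, neg_mul_neg]
  · rw [map_add, map_one, map_pow, ht, mul_pow, hth, hab]
    field_simp
    ring

end Pool.Agent.P.MP_9c97e9_nt.KT
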