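import Pool.Agent.P.MP_9c97e9_nt.KT.IfK

/-! The unit theorem for totally real fields. -/

namespace Pool.Agent.P.MP_9c97e9_nt.KT

open MP_8b7eba_nt.R2
open scoped NNReal ComplexConjugate NumberField

namespace TSUNR

theorem rank_eq {U : Subgroup GQ} (hU : IsOpen (U : Set GQ)) (hT : ∀ s, ts s ∈ U) :
    Module.Finite ℤ (Additive (𝓞 (IntermediateField.fixedField U))ˣ) ∧
    Module.finrank ℤ (Additive (𝓞 (IntermediateField.fixedField U))ˣ) + 1 = U.index := by
  have := numberField hU
  have : NumberField.IsTotallyReal (IntermediateField.fixedField U) := by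
    refine ⟨fun v => NumberField.InfinitePlace.isReal_iff.2
      (NumberField.ComplexEmbedding.isReal_iff.2 (RingHom.ext fun x => ?_))⟩
    obtain ⟨g, hg⟩ := a_TAU.2.2.2.2.1 (NumberField.ComplexEmbedding.lift Om v.embedding)
    have h2 := NumberField.ComplexEmbedding.lift_algebraMap_apply Om v.embedding x
    rw [NumberField.ComplexEmbedding.conjugate_coe_eq, ← h2, hg, ← a_TAU.1]
    have h3 : ts g⁻¹ (x : Om) = x := fix_iff.2 x.2 _ (hT g⁻¹)
    have h4 : tau * g = g * ts g⁻¹ := by rw [ts]; group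
    exact congrArg io ((congrArg (fun s : GQ => s (x : Om)) h4).trans (congrArg g h3))
  refine ⟨inferInstance, ?_⟩
  have h1 := NumberField.IsTotallyReal.finrank (IntermediateField.fixedField U)
  have h2 := NumberField.InfinitePlace.card_eq_nrRealPlaces_add_nrComplexPlaces
    (IntermediateField.fixedField U)
  have h3 : 0 < Fintype.card (NumberField.InfinitePlace (IntermediateField.fixedField U)) :=
    Fintype.card_pos
  rw [finrank_fixedField hU] at h1
  rw [NumberField.IsTotallyReal.nrComplexPlaces_eq_zero] at h2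
  rw [NumberField.Units.finrank_eq, NumberField.Units.rank]
  omega

end TSUNR

theorem t_SUNR : SUNR := by
  classical
  have hPL := a_PL
  have hUNIF := a_UNIF
  have hCLS := a_CLS
  have hORB := a_ORB
  intro U R hU hT hR
  obtain ⟨R', -, sep, out, card⟩ := (hORB U hU).1 R hR
  obtain ⟨h, h0, hc⟩ := (hCLS U hU).1
  choose π hπ using fun w => hUNIF w U hU
  have un : ∀ w : Pl, w.Unif (w.D ⊓ U) (π w) := fun w => (hπ w).2.1
  choose k hk using fun (x : SU U R) (w : Pl) =>
    (un w).2.2.2 (x : Omˣ) (x.2.1.mono inf_le_right) (Units.ne_zero _)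
  have v0 : ∀ w : Pl, w.v (π w) ≠ 0 := fun w => by simpa using (un w).2.1
  let ord : Additive (SU U R) →ₗ[ℤ] (R' → ℤ) := (AddMonoidHom.mk'
    (fun (x : Additive (SU U R)) (w : R') => k x.toMul w) fun x y => funext fun w => (un w).zpow_inj (by
      rw [Pi.add_apply, zpow_add₀ (v0 w), ← hk, ← hk, ← hk, ← map_mul]; rfl)).toIntLinearMap
  let F := IntermediateField.fixedField U
  let ι : 𝓞 F →+* Om := (algebraMap F Om).comp (algebraMap _ F)
  have ιi : ∀ x, IsIntegral ℤ (ι x) := fun x => x.isIntegral_coe.map (algebraMap F Om).toIntAlgHom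
  have ιv : ∀ (w : Pl) (x : (𝓞 F)ˣ), w.v (ι x) = 1 := fun w x => by
    refine eq_one_of_one_le_mul_left (hPL.2.2.2.1 w _ (ιi x)) (hPL.2.2.2.1 w _ (ιi ↑x⁻¹))
      (Eq.ge ?_)
    rw [← map_mul, ← map_mul, Units.mul_inv, map_one, map_one]
  let j : Additive (𝓞 F)ˣ →ₗ[ℤ] Additive (SU U R) := (MonoidHom.toAdditive
    ((Units.map ι.toMonoidHom).codRestrict (SU U R) fun x =>
      ⟨fix_iff.2 ((x : 𝓞 F) : F).2, fun w _ => ιv w x⟩)).toIntLinearMap
  have jinj : Function.Injective j := fun x y e => by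
    have e1 : ι x.toMul = ι y.toMul :=
      congrArg (fun z : Additive (SU U R) => ((z.toMul : Omˣ) : Om)) e
    exact Units.ext (NumberField.RingOfIntegers.ext (Subtype.ext e1))
  have ex : LinearMap.ker ord = LinearMap.range j := by
    ext x
    constructor
    · intro hx
      have h1 : ∀ w : Pl, w.v (x.toMul : Omˣ) = 1 := fun w => by
        by_cases hw : Out U R w
        · exact x.toMul.2.2 w hw
        · rw [← out, Out] at hw
          push Not at hw
          obtain ⟨u, hu, hw⟩ := hw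
          have h2 : k x.toMul (u • w) = 0 := congrFun hx ⟨_, hw⟩
          rw [← Pl.smul_v_apply u, x.toMul.2.1 u hu, hk, h2, zpow_zero]
      have mk : ∀ y : Om, Fix U y → (∀ w : Pl, w.v y = 1) → ∃ z : 𝓞 F, ι z = y := fun y hy hv =>
        ⟨⟨⟨y, fix_iff.1 hy⟩, (isIntegral_algHom_iff (algebraMap F Om).toIntAlgHom
          (algebraMap F Om).injective).1 (hPL.2.2.2.2.1 y fun w => (hv w).le)⟩, rfl⟩
      obtain ⟨a, ha⟩ := mk _ x.toMul.2.1 h1
      obtain ⟨b, hb⟩ := mk _ x.toMul.2.1.inv fun w => by rw [map_inv₀, h1, inv_one]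
      have hab : a * b = 1 := NumberField.RingOfIntegers.ext (Subtype.ext (by
        change ι (a * b) = 1
        rw [map_mul, ha, hb, mul_inv_cancel₀ (Units.ne_zero _)]))
      exact ⟨Additive.ofMul (Units.mkOfMulEqOne a b hab), Subtype.ext (Units.ext ha)⟩
    · rintro ⟨x, rfl⟩
      funext w
      refine (un w).zpow_inj ?_
      change w.1.v (π w) ^ k (j x).toMul w = _ ^ (0 : ℤ)
      rw [← hk, zpow_zero]
      exact ιv w x.toMul
  have big : ∀ w : R', Pi.single w (h : ℤ) ∈ LinearMap.range ord := fun w => by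
    obtain ⟨x, x1, x2, x3⟩ := hc w (π w) (un w)
    have x0 : x ≠ 0 := fun e => pow_ne_zero h (v0 w) (by rw [← x2, e, map_zero])
    refine ⟨Additive.ofMul ⟨Units.mk0 x x0, x1, fun w' hw' => x3 w' (((out w').2 hw').mono
      (Set.singleton_subset_iff.2 w.2))⟩, funext fun w' => (un w').zpow_inj ?_⟩
    change w'.1.v (π w') ^ k _ w' = _
    rw [← hk]
    change w'.1.v x = _
    by_cases e : w' = w
    · rw [e, Pi.single_eq_same, x2, zpow_natCast]
    · rw [Pi.single_eq_of_ne e, zpow_zero]
      refine x3 w' fun u hu hw => e (Subtype.ext ?_)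
      have hw' : u • w'.1 = w := hw
      rw [← hw', sep w' w'.2 u hu (hw' ▸ w.2)]
  obtain ⟨fin, rk⟩ := TSUNR.rank_eq hU hT
  have fin' : Module.Finite ℤ (Additive (SU U R)) := by
    refine ⟨(⊤ : Submodule ℤ _).fg_of_fg_map_of_fg_inf_ker ord (IsNoetherian.noetherian _) ?_⟩
    rw [top_inf_eq, ex, ← Submodule.map_top]
    exact fin.fg_top.map j
  have r1 : Module.finrank ℤ (LinearMap.range ord) = R'.card := by
    refine le_antisymm ((Submodule.finrank_le _).trans (by simp)) ?_
    have h1 := (DistribSMul.toLinearMap ℤ (R' → ℤ) h).finrank_range_of_inj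
      (AddSubgroup.distribSMulToLinearMap_injective_of_isTorsionFree h0.ne')
    rw [Module.finrank_fintype_fun_eq_card, Fintype.card_coe] at h1
    rw [← h1]
    refine Submodule.finrank_mono ?_
    rintro _ ⟨y, rfl⟩
    have : DistribSMul.toLinearMap ℤ (R' → ℤ) h y = ∑ w, y w • Pi.single w (h : ℤ) := by
      funext w; simp [Finset.sum_apply, Pi.single_apply, mul_comm]
    rw [this]
    exact Submodule.sum_mem _ fun w _ => Submodule.smul_mem _ _ (big w)
  have r2 := (LinearMap.ker ord).finrank_quotient_add_finrank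
  rw [ord.quotKerEquivRange.finrank_eq, r1, ex, LinearMap.finrank_range_of_inj jinj, card] at r2
  have r3 : Module.finrank ℤ (Additive (SU U R)) + 1 = U.index + nOrb U R := by
    rw [← r2, ← rk]; ring
  rw [← r3]
  exact TSUN.sq_idx _ ⟨fun σ _ => by simp, fun w _ => by simp⟩

end Pool.Agent.P.MP_9c97e9_nt.KT
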