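import Pool.Agent.P.MP_9c97e9_nt.KT.BasK
import Pool.Agent.P.MP_8b7eba_nt.R2.TVN

/-! Proof of VD. -/

namespace Pool.Agent.P.MP_9c97e9_nt.KT

open scoped NNReal Matrix
open MP_8b7eba_nt.R2 BK
open Filter Topology Polynomial Module

namespace TVD

open TVN (fix_conj conj_mem pow_mod fix_pow)

/-- square roots which are fixed by odd inertia and by a power of the generator -/
structure Bd (γ : GQ) (n : ℕ) (β : Om) : Prop where
  ne : β ≠ 0
  sq : Fix (KP n) (β ^ 2)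
  odd : ∀ w : Pl, w.p ≠ 2 → Fix w.I β
  pw : (γ ^ 2 ^ n) β = β

variable {γ : GQ} {n : ℕ} {β : Om}

theorem Bd.step (h : Bd γ n β) (j : ℕ) : Bd γ n ((γ ^ j) β / β) where
  ne := div_ne_zero ((_root_.map_ne_zero _).2 h.ne) h.ne
  sq := by
    rw [div_pow, ← map_pow]
    exact (fix_conj _ h.sq fun g hg => conj_mem (on_KP n).1 _ hg).div h.sq
  odd := fun w hw => (fix_conj _ (h.odd ((γ ^ j)⁻¹ • w) hw) fun g (hg : g ∈ w.I) =>
    Pl.mem_I_smul.2 (by simpa [mul_assoc] using hg)).div (h.odd w hw)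
  pw := by
    rw [map_div₀, ← AlgEquiv.mul_apply, ← pow_add, add_comm, pow_add, AlgEquiv.mul_apply, h.pw]

theorem descend {Q : Om → Prop} (hQ : ∀ β j, Q β → Q ((γ ^ j) β / β))
    (base : ∀ β, Bd γ n β → Q β → Fix (KP n) (γ β / β) → Fix (KP n) β) (k : ℕ) :
    ∀ β, Bd γ n β → Q β → Fix (KP n) ((γ ^ 2 ^ k) β / β) → Fix (KP n) β := by
  induction k with
  | zero => simpa using base
  | succ k ih =>
    intro β h hq hf
    refine ih β h hq (ih _ (h.step _) (hQ _ _ hq) ?_)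
    have h0 := h.ne
    have h1 : (γ ^ 2 ^ k) β ≠ 0 := (_root_.map_ne_zero _).2 h.ne
    have e : (γ ^ 2 ^ k) ((γ ^ 2 ^ k) β / β) / ((γ ^ 2 ^ k) β / β) =
        (γ ^ 2 ^ (k + 1)) β / β * (β ^ 2 / (γ ^ 2 ^ k) (β ^ 2)) := by
      rw [pow_succ 2 k, pow_mul, sq (γ ^ 2 ^ k), AlgEquiv.mul_apply, map_div₀, map_pow]
      field_simp
    rw [e]
    exact hf.mul (h.sq.div (fix_conj _ h.sq fun g hg => conj_mem (on_KP n).1 _ hg))

theorem fix_up (hγ : la γ = 1) (n : ℕ) {H : Subgroup GQ} {x : Om} (hH : γ ∈ H)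
    (h : Fix (H ⊓ KP n) x) (h' : γ x = x) : Fix H x := fun g hg => by
  have h1 : (γ ^ (Ps n g).val) x = x :=
    (MulAction.stabilizer GQ x).pow_mem (show γ ∈ MulAction.stabilizer GQ x from h') _
  have h2 := h _ ⟨H.mul_mem (H.inv_mem (H.pow_mem hH (Ps n g).val)) hg, dec' hγ n g⟩
  have h3 := congrArg (γ ^ (Ps n g).val) h2
  rw [← AlgEquiv.mul_apply, mul_inv_cancel_left, h1] at h3
  exact h3

theorem four {m : ℤ} (hm : Squarefree m) (h : ∀ p : ℕ, p.Prime → (p : ℤ) ∣ m → p = 2) :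
    m = 1 ∨ m = -1 ∨ m = 2 ∨ m = -2 := by
  have h0 : m.natAbs ≠ 0 := Int.natAbs_ne_zero.2 hm.ne_zero
  have h1 := Nat.eq_prime_pow_of_unique_prime_dvd h0 (p := 2)
    (fun hd e => h _ hd (Int.natCast_dvd.2 e))
  generalize m.natAbs.primeFactorsList.length = j at h1
  match j, h1 with
  | 0, h1 => omega
  | 1, h1 => omega
  | j + 2, h1 =>
    have h2 : (2 : ℤ) * 2 ∣ m := by
      have : ((2 * 2 : ℕ) : ℤ) ∣ m := Int.natCast_dvd.2 ⟨2 ^ j, by rw [h1]; ring⟩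
      simpa using this
    rcases Int.isUnit_iff.1 (hm 2 h2) with e | e <;> omega

theorem core (hγ : la γ = 1) (h : Bd γ n β) (hy : Fix (KP n) (γ β / β)) :
    ∃ (t : Om) (m : ℤ), t ≠ 0 ∧ Fix (KP n) t ∧ γ (β / t) = β / t ∧ Squarefree m ∧
      (m = 1 ∨ m = -1 ∨ m = 2 ∨ m = -2) ∧ ∀ g, qz m g = 0 ↔ g (β / t) = β / t := by
  have hU := on_KP n
  have hN := h.pw
  have h0 := h.ne
  have hz : ∀ g ∈ KP n, Ps n g = 0 := fun g hg => Ps_eq_zero.2 hg
  have hT : IsClosed ((⊤ : Subgroup GQ) : Set GQ) := by simp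
  obtain ⟨t, t0, ht⟩ := (a_GAL ⊤ hT).2.1 (fun g => (γ ^ (Ps n g).val) β / β)
    ⟨_, hU, fun g _ m _ hm' => by simp only [Ps_mul n g m, hz m hm', add_zero]⟩
    (fun g _ => div_ne_zero ((_root_.map_ne_zero _).2 h0) h0) (fun g _ k _ => by
      have h1 := fix_pow hU.1 h0 hy (Ps n k).val _ (dec' hγ n g)
      have h2 := congrArg (γ ^ (Ps n g).val) h1
      rw [← AlgEquiv.mul_apply, mul_inv_cancel_left] at h2
      have h3 : (γ ^ (Ps n g).val) β ≠ 0 := (_root_.map_ne_zero _).2 h0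
      rw [h2, Ps_mul n g k, ZMod.val_add, pow_mod hN, pow_add, AlgEquiv.mul_apply, map_div₀]
      field_simp)
  have tU : Fix (KP n) t := fun g hg => by
    have h1 := ht g trivial
    simp only [hz g hg, ZMod.val_zero, pow_zero, AlgEquiv.one_apply, div_self h0, one_mul] at h1
    exact h1.symm
  have tg : γ (β / t) = β / t := by
    have h1 := ht γ trivial
    have h2 := Ps_pow hγ n 1
    have h3 : γ β ≠ 0 := (_root_.map_ne_zero _).2 h0
    rw [pow_one] at h2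
    simp only [h2, ZMod.val_natCast, pow_mod hN, pow_one] at h1
    rw [map_div₀, ← h1]
    field_simp
  have b0 : β / t ≠ 0 := div_ne_zero h0 t0
  have f1 : Fix ⊤ ((β / t) ^ 2) := fix_up hγ n trivial
    (by rw [div_pow]; exact (h.sq.div (tU.pow 2)).mono inf_le_right) (by rw [map_pow, tg])
  obtain ⟨m, hm, e⟩ := exists_qz a_CA (isCh_qc hT b0 f1)
  have e' : ∀ g, qz m g = 0 ↔ g (β / t) = β / t := fun g => by rw [← e, qc_eq_zero]
  refine ⟨t, m, t0, tU, tg, hm, four hm fun p hp hd => by_contra fun h2 => ?_, e'⟩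
  obtain ⟨w, rfl⟩ := a_PL.1 p hp
  obtain ⟨s, hs, hβ⟩ := Pl.exists_gen a_TAME a_RES h2
  exact (qz_gen a_CA h2 hs hβ hm).1 ((e' s).2
    (((h.odd w h2).div (tU.mono ((I_le h2).trans (KI_le n)))) s hs)) hd

theorem back {t : Om} (t0 : t ≠ 0) (tU : Fix (KP n) t) (h : Fix (KP n) (β / t)) :
    Fix (KP n) β := by
  have := h.mul tU
  rwa [div_mul_cancel₀ _ t0] at this

theorem base1 (hγ : la γ = 1) (hI : γ ∈ w2.I) (β : Om) (h : Bd γ n β)
    (hq : Fix (w2.I ⊓ KP n) β) (hy : Fix (KP n) (γ β / β)) : Fix (KP n) β := by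
  obtain ⟨t, m, t0, tU, tg, hm, h4, e⟩ := core hγ h hy
  have f2 : Fix w2.I (β / t) := fix_up hγ n hI (hq.div (tU.mono inf_le_right)) tg
  have h1 := (qz_I_two_iff a_CA (w := w2) rfl hm).1 fun g hg => (e g).2 (f2 g hg)
  obtain rfl : m = 1 := by omega
  exact back t0 tU fun g _ => (e g).1 (by rw [qz_one]; rfl)

theorem base2 (hγ : la γ = 1) (β : Om) (h : Bd γ (n + 1) β)
    (hq : ∀ s, ts s β = β) (hy : Fix (KP (n + 1)) (γ β / β)) : Fix (KP (n + 1)) β := by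
  obtain ⟨t, m, t0, tU, tg, hm, h4, e⟩ := core hγ h hy
  have h1 : 0 < m := (qz_tau a_TAU hm.ne_zero).1 ((e _).2 (by
    rw [map_div₀, tU _ (KI_le _ tau_mem), ← ts_one, hq]))
  refine back t0 tU fun g hg => (e g).1 ?_
  rcases (show m = 1 ∨ m = 2 by omega) with rfl | rfl
  · rw [qz_one]; rfl
  · have h2 := (a_LG.1.dvd 1 (cyc g)).1 (mem_KP.1 (KP_le (Nat.le_add_left 1 n) hg))
    rw [show (2 : ℤ_[2]) ^ (1 + 2) = 8 by norm_num] at h2
    exact (qz_two a_EC).2 h2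

end TVD

theorem t_VD : VD := by
  intro k β h0 hs ho
  obtain ⟨γ, hI, -, hγ⟩ := exists_gen
  have hk : γ ^ 2 ^ k ∈ KP k := (pow_mem_KP hγ).2 dvd_rfl
  refine ⟨fun hq => ?_, fun hq => ?_⟩
  · have h1 : (γ ^ 2 ^ k) β = β := hq _ ⟨pow_mem hI _, hk⟩
    refine TVD.descend (Q := Fix (w2.I ⊓ KP k)) (fun x j hx => ?_) (TVD.base1 hγ hI) k β
      ⟨h0, hs, ho, h1⟩ hq (by rw [h1, div_self h0]; exact fix_one)
    have hj : γ ^ j ∈ w2.I := pow_mem hI _
    exact (TVN.fix_conj _ hx fun g (hg : g ∈ w2.I ⊓ KP k) =>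
      ⟨w2.I.mul_mem (w2.I.mul_mem (w2.I.inv_mem hj) hg.1) hj,
        TVN.conj_mem (on_KP k).1 _ hg.2⟩).div hx
  · have h1 : (γ ^ 2 ^ (k + 1)) β = β := by
      have h2 := hs _ hk
      rw [map_pow, sq_eq_sq_iff_eq_or_eq_neg] at h2
      rw [pow_succ 2 k, pow_mul, sq (γ ^ 2 ^ k), AlgEquiv.mul_apply]
      rcases h2 with h2 | h2
      · rw [h2, h2]
      · rw [h2, map_neg, h2, neg_neg]
    refine TVD.descend (Q := fun x => ∀ s, ts s x = x) (fun x j hx s => ?_) (TVD.base2 hγ) (k + 1) β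
      ⟨h0, hs.mono (KP_le k.le_succ), ho, h1⟩ hq (by rw [h1, div_self h0]; exact fix_one)
    have h2 := congrArg (γ ^ j) (hx ((γ ^ j)⁻¹ * s))
    rw [ts_mul, inv_inv, ← AlgEquiv.mul_apply, ← mul_assoc, mul_inv_cancel_left,
      AlgEquiv.mul_apply] at h2
    rw [map_div₀, h2, hx]

end Pool.Agent.P.MP_9c97e9_nt.KT
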