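import Pool.Agent.P.MP_9c97e9_nt.KT.BasK

/-! The class number of the cyclotomic layers is odd. -/

namespace Pool.Agent.P.MP_9c97e9_nt.KT

open scoped NNReal Matrix
open MP_8b7eba_nt.R2
open BK

namespace TVL

variable {k : ℕ} {y : Om} {g : GQ}

theorem tt (y : Om) : tau (tau y) = y := by
  rw [← AlgEquiv.mul_apply, a_TAU.2.1, AlgEquiv.one_apply]

theorem tau_KP (k : ℕ) : tau ∈ KP k := KI_le k tau_mem

theorem act (hy : Fix (KC k) y) (hg : g ∈ KP k) (hg' : g ∉ KC k) : g y = tau y := by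
  have h := hy _ (mul_KC (tau_KP k) hg (ts_one ▸ ts_not 1) hg')
  rw [AlgEquiv.mul_apply] at h
  rw [← tt (g y), h]

theorem fixU (hy : Fix (KC k) y) (h : tau y = y) : Fix (KP k) y := fun g hg => by
  by_cases hg' : g ∈ KC k
  · exact hy g hg'
  · rw [act hy hg hg', h]

theorem fix_tau (hy : Fix (KC k) y) : Fix (KC k) (tau y) :=
  TVN.fix_conj tau hy fun _ hg => TVN.conj_mem (on_KC k).1 tau hg

theorem fix_norm (hy : Fix (KC k) y) : Fix (KP k) (y * tau y) :=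
  fixU (hy.mul (fix_tau hy)) (by rw [map_mul, tt, mul_comm])

theorem h90 {c : Om} (hy : Fix (KC k) y) (hc : Fix (KP k) c) (h : y * tau y = 1) :
    ∃ r e, Fix (KP k) r ∧ Fix (KC k) e ∧ e ≠ 0 ∧ c * y = r * e ^ 2 := by
  by_cases h0 : 1 + y = 0
  · refine ⟨c, rt (-1), hc, fun _ hg => hg.2, LC.rt_ne (by norm_num), ?_⟩
    rw [rt_sq, eq_neg_of_add_eq_zero_right h0]
    push_cast
    rfl
  · have ht : Fix (KC k) (1 + y) := fix_one.add hy
    have h1 : tau (1 + y) ≠ 0 := (_root_.map_ne_zero _).2 h0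
    have h2 : y * tau (1 + y) = 1 + y := by rw [map_add, map_one, mul_add, h, mul_one, add_comm]
    refine ⟨c / ((1 + y) * tau (1 + y)), 1 + y, hc.div (fix_norm ht), ht, h0, ?_⟩
    field_simp
    linear_combination c * h2

theorem claim (hVD : VD) (hVR : VR) (hPIK : PIK) (k : ℕ) (x : Om) (hx : Fix (KC k) x)
    (h0 : x ≠ 0) (hw : ∀ w : Pl, w.p ≠ 2 → w.Ev (w.D ⊓ KC k) x) :
    ∃ u, U2 (KC k) u ∧ Sq (KC k) (u * x) := by
  obtain ⟨a, rfl⟩ := exists_root x two_ne_zero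
  have a0 : a ≠ 0 := fun e => h0 (by simp [e])
  have ha : ∀ w : Pl, w.p ≠ 2 → Fix w.I a := fun w h =>
    (ev_iff (on_KC k).2 h (I_le_KC h) a0 hx).1 (hw w h)
  have ha' : ∀ w : Pl, w.p ≠ 2 → Fix w.I (tau a) := fun w h =>
    TVN.fix_conj tau (ha (tau⁻¹ • w) h) fun g hg => by simpa using conj_I tau⁻¹ hg
  have b0 : a * tau a ≠ 0 := mul_ne_zero a0 ((_root_.map_ne_zero _).2 a0)
  have e1 : (a * tau a) ^ 2 = a ^ 2 * tau (a ^ 2) := by rw [map_pow, mul_pow]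
  have hb : Fix (KP k) ((a * tau a) ^ 2) := e1 ▸ fix_norm hx
  have h1 := (hVD k _ b0 hb fun w h => (ha w h).mul (ha' w h)).2 fun s =>
    pos (x := a ^ 2) (by rw [e1, act hx (KI_le k (ts_mem s)) (ts_not s)])
  obtain ⟨ξ, ⟨x1, x2, x3⟩, c, hc, e2⟩ := hPIK k _ hb ⟨_, h1, rfl⟩
  have c0 : c ≠ 0 := fun e => mul_ne_zero (pow_ne_zero 2 b0)
    (mul_ne_zero x2 ((_root_.map_ne_zero _).2 x2)) (by rw [e2, e]; simp)
  obtain ⟨r, e, hr, he, e0, e3⟩ := h90 (y := a ^ 2 * ξ / c)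
    ((hx.mul x1).div (hc.mono inf_le_left)) hc (by
      rw [map_div₀, map_mul, hc _ (tau_KP k), div_mul_div_comm, ← sq c, ← e2, e1,
        div_eq_one_iff_eq (by rw [← e1, e2]; exact pow_ne_zero 2 c0)]
      ring)
  rw [mul_div_cancel₀ _ c0] at e3
  obtain ⟨η, rfl⟩ := exists_root ξ two_ne_zero
  have η0 : η ≠ 0 := fun e => x2 (by simp [e])
  have e4 : (a * η / e) ^ 2 = r := by
    rw [div_pow, mul_pow, e3, mul_div_cancel_right₀ _ (pow_ne_zero 2 e0)]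
  have r0 : a * η / e ≠ 0 := div_ne_zero (mul_ne_zero a0 η0) e0
  subst e4
  obtain ⟨u, ⟨u1, u2, u3⟩, d, hd, e5⟩ := (hVR k).2.1 _ hr (pow_ne_zero 2 r0) fun w h =>
    (ev_iff (on_KP k).2 h ((I_le h).trans (KI_le k)) r0 hr).2
      (((ha w h).mul ((ev_iff (on_KC k).2 h (I_le_KC h) η0 x1).1
        ⟨1, fix_one, by rw [x3 w h, map_one, one_pow]⟩)).div (he.mono (I_le_KC h)))
  refine ⟨u * η ^ 2, ⟨(u1.mono inf_le_left).mul x1, mul_ne_zero u2 x2, fun w h => by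
    rw [map_mul, u3 w h, x3 w h, one_mul]⟩, d * e, (hd.mono inf_le_left).mul he, ?_⟩
  rw [mul_pow d, ← e5, mul_assoc u (_ ^ 2) (e ^ 2), ← e3]
  ring

end TVL

theorem t_VL (hVD : VD) (hVR : VR) (hPIK : PIK) : VL := fun n w hw => by
  have hU := on_KC n
  obtain ⟨π, p0, p1, -⟩ := a_CF.unif w _ hU.2
  obtain ⟨h, h0, hh⟩ := (a_CF.cls _ hU.2).1
  obtain ⟨x, x1, x2, x3⟩ := hh w π p1
  replace x3 : ∀ w' : Pl, w'.p ≠ 2 → Out (KC n) {w} w' → w'.v x = 1 := fun w' _ => x3 w'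
  clear hh
  induction h using Nat.strong_induction_on generalizing x with
  | _ h ih =>
    have x0 : x ≠ 0 := fun e => p1.2.1 (by
      rw [e, map_zero] at x2
      exact w.v.zero_iff.1 (pow_eq_zero_iff h0.ne' |>.1 x2.symm))
    obtain ⟨k, rfl | rfl⟩ := Nat.even_or_odd' h
    · obtain ⟨u, ⟨u1, u2, u3⟩, s, s1, s2⟩ := TVL.claim hVD hVR hPIK n x x1 x0 fun w' h' => by
        by_cases ho : Out (KC n) {w} w'
        · exact ⟨1, fix_one, by rw [x3 w' h' ho, map_one, one_pow]⟩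
        · simp only [Out, not_forall, Set.mem_singleton_iff, not_not] at ho
          obtain ⟨g, hg, rfl⟩ := ho
          refine ⟨π ^ k, (p0.pow k).mono inf_le_right, ?_⟩
          rw [← x1 g hg, ← p0 g hg, Pl.smul_v_apply, Pl.smul_v_apply] at x2
          rw [x2, map_pow, ← pow_mul, mul_comm]
      refine ih k (by omega) (by omega) s s1 ?_ fun w' h' ho =>
        TVN.v_one (by rw [← s2, map_mul, u3 w' h', x3 w' h' ho, one_mul])
      refine (pow_left_inj₀ zero_le zero_le two_ne_zero).1 ?_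
      rw [← map_pow, ← s2, map_mul, u3 w hw, one_mul, x2, ← pow_mul, mul_comm]
    · refine ⟨x, x1, x0, ?_, x3⟩
      rintro ⟨y, y1, y2⟩
      have y0 : y ≠ 0 := fun e => x0 (w.v.zero_iff.1 (by simp [y2, e]))
      obtain ⟨j, hj⟩ := p1.2.2.2 y y1 y0
      rw [x2, hj, ← zpow_natCast, ← zpow_natCast, ← zpow_mul] at y2
      have := p1.zpow_inj y2
      omega

end Pool.Agent.P.MP_9c97e9_nt.KT
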