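import Pool.Agent.P.MP_9c97e9_nt.KT.BasK

/-! Proof of VR. -/

namespace Pool.Agent.P.MP_9c97e9_nt.KT

open scoped NNReal Matrix
open MP_8b7eba_nt.R2 BK
open Filter Topology Polynomial Module

namespace TVR

theorem one (hVD : VD) (k : ℕ) (x : Om) (hx : Fix (KP k) x) (h0 : x ≠ 0)
    (hw : ∀ w : Pl, w.p ≠ 2 → w.Ev (w.D ⊓ KP k) x) (h2 : Sq (w2.I ⊓ KP k) x) : Sq (KP k) x := by
  obtain ⟨β, rfl⟩ := exists_root x two_ne_zero
  have b0 : β ≠ 0 := fun e => h0 (by simp [e])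
  exact ⟨β, (hVD k β b0 hx fun w h => (ev_iff (on_KP k).2 h ((I_le h).trans (KI_le k)) b0 hx).1
    (hw w h)).1 ((sq_iff (hx.mono inf_le_right)).1 h2), rfl⟩

/-- elements which become squares after an unramified extension -/
def B2 (k : ℕ) : Subgroup Omˣ where
  carrier := {y | y ∈ FU (w2.D ⊓ KP k) ∧ Sq (w2.I ⊓ KP k) y}
  one_mem' := ⟨(FU _).one_mem, 1, fix_one, by simp⟩
  mul_mem' := fun {x y} hx hy => ⟨(FU _).mul_mem hx.1 hy.1, hx.2.mul hy.2⟩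
  inv_mem' := fun {x} hx => ⟨(FU _).inv_mem hx.1, by
    obtain ⟨s, h1, h2⟩ := hx.2
    exact ⟨s⁻¹, h1.inv, by rw [Units.val_inv_eq_inv_val, h2, inv_pow]⟩⟩

theorem le_inf' (k : ℕ) : w2.I ⊓ KP k ≤ w2.D ⊓ KP k := inf_le_inf_right _ w2.I_le_D

theorem sq_le (k : ℕ) : (FU (w2.D ⊓ KP k)).map (powMonoidHom 2) ≤ B2 k := by
  rintro _ ⟨x, hx, rfl⟩
  exact ⟨(FU _).pow_mem hx 2, x, Fix.mono hx (le_inf' k), rfl⟩

theorem not_le (k : ℕ) : ¬ B2 k ≤ (FU (w2.D ⊓ KP k)).map (powMonoidHom 2) := by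
  intro h
  have h0 : rt (-3) ≠ 0 := LC.rt_ne (by norm_num)
  have hI : Fix w2.I (rt (-3)) := fun g hg =>
    (qz_eq_zero (rt_sq _)).1 (qz_I_two rfl (by norm_num) hg)
  have hf : Fix ⊤ (rt (-3) ^ 2) := LA.fix (rt_sq _)
  obtain ⟨x, hx, e⟩ := h (show Units.mk0 (rt (-3) ^ 2) (pow_ne_zero 2 h0) ∈ B2 k from
    ⟨hf.mono le_top, _, hI.mono inf_le_left, rfl⟩)
  have h1 : Fix (w2.D ⊓ KP k) (rt (-3)) :=
    (sq_iff (hf.mono le_top)).1 ⟨x, hx, (congrArg Units.val e).symm⟩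
  obtain ⟨φ, h2, h3, -⟩ := Pl.exists_f2 a_CA (w := w2) rfl (rt_sq (-3)) (by norm_num)
  obtain ⟨s, h4, h5⟩ := surjI φ
  have h6 := h1 _ ⟨w2.D.mul_mem h2 (w2.D.inv_mem (w2.I_le_D h4)), KI_le k h5⟩
  rw [AlgEquiv.mul_apply, hI _ (inv_mem h4)] at h6
  exact h3 h6

theorem two (hLAYK : LAYK) (hSUNR : SUNR) (hVD : VD) (k : ℕ) (y : Om)
    (hy : Fix (w2.D ⊓ KP k) y) (h0 : y ≠ 0) : ∃ x, U2 (KP k) x ∧ Sq (w2.I ⊓ KP k) (x * y) := by
  obtain ⟨-, R, r1, r3, r2⟩ := hLAYK.1 k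
  have s1 := hSUNR _ R (on_KP k).2 (fun s => KI_le k (ts_mem s)) r1
  rw [r3, index_KP] at s1
  obtain ⟨q1, q2⟩ := a_SQ1 w2 _ (w2.loc_inf (on_KP k).2)
  rw [if_pos (show w2.p = 2 from rfl), Subgroup.inf_relIndex_left, relIndex_KP w2.I_le_D] at q2
  have e := Subgroup.relIndex_mul_relIndex _ _ (FU (w2.D ⊓ KP k)) (sq_le k) fun x hx => hx.1
  change _ = sqI _ at e
  have e1 : ((FU (w2.D ⊓ KP k)).map (powMonoidHom 2)).relIndex (B2 k) ≠ 1 := fun h =>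
    not_le k (Subgroup.relIndex_eq_one.1 h)
  have e2 : ((FU (w2.D ⊓ KP k)).map (powMonoidHom 2)).relIndex (B2 k) ≠ 0 := fun h =>
    q1 (by rw [← e, h, zero_mul])
  have e3 : 2 * (B2 k).relIndex (FU (w2.D ⊓ KP k)) ≤ sqI (FU (w2.D ⊓ KP k)) := by
    rw [← e]
    exact Nat.mul_le_mul_right _ (by omega)
  have hle : FU (w2.D ⊓ KP k) ≤ SU (KP k) R ⊔ B2 k := by
    refine TVN.count (A2 := (SU (KP k) R).map (powMonoidHom 2))
      (fun x hx => hx.1.mono inf_le_right) (fun x hx => hx.1) (le_antisymm ?_ ?_)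
      (fun h => q1 (by rw [← e, h, mul_zero])) ?_
    · rintro x ⟨hx, h⟩
      obtain ⟨s, s1, s2⟩ := one hVD k _ h.1 (Units.ne_zero _)
        (fun w hw => ⟨1, fix_one, by rw [h.2 w ((r2 w).2 hw), map_one, one_pow]⟩) hx.2
      have s0 : s ≠ 0 := fun e => Units.ne_zero _ (s2.trans (by simp [e]))
      exact ⟨⟨Units.mk0 s s0, ⟨s1, fun w hw => TVN.v_one (by rw [Units.val_mk0, ← s2, h.2 w hw])⟩,
        Units.ext s2.symm⟩, h⟩
    · rintro _ ⟨⟨x, hx, rfl⟩, h⟩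
      exact ⟨sq_le k ⟨x, hx.1.mono inf_le_right, rfl⟩, h⟩
    · rw [show ((SU (KP k) R).map (powMonoidHom 2)).relIndex (SU (KP k) R) = _ from s1, pow_succ]
      omega
  obtain ⟨a, ha, b, hb, e⟩ := Subgroup.mem_sup.1 (hle (show Units.mk0 y h0 ∈ _ from hy))
  refine ⟨a, ⟨ha.1, a.ne_zero, fun w hw => ha.2 w ((r2 w).2 hw)⟩, ?_⟩
  have e1 : (a : Om) * b = y := congrArg Units.val e
  rw [← e1, ← mul_assoc, ← sq]
  exact Sq.mul ⟨a, ha.1.mono inf_le_right, rfl⟩ hb.2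

theorem glob (hLAYK : LAYK) (hSUNR : SUNR) (hVD : VD) (k : ℕ) (x : Om) (hx : Fix (KP k) x)
    (h0 : x ≠ 0) (hw : ∀ w : Pl, w.p ≠ 2 → w.Ev (w.D ⊓ KP k) x) :
    ∃ u, U2 (KP k) u ∧ Sq (KP k) (u * x) := by
  obtain ⟨u, hu, h⟩ := two hLAYK hSUNR hVD k x (hx.mono inf_le_right) h0
  refine ⟨u, hu, one hVD k _ (hu.1.mul hx) (mul_ne_zero hu.2.1 h0) (fun w h' => ?_) h⟩
  obtain ⟨y, y1, y2⟩ := hw w h'
  exact ⟨y, y1, by rw [map_mul, hu.2.2 w h', one_mul, y2]⟩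

theorem three (hLAYK : LAYK) (hSUNR : SUNR) (hVD : VD) (n : ℕ) (w : Pl) (hw : w.p ≠ 2) :
    ∃ x, Fix (KP n) x ∧ x ≠ 0 ∧ ¬ w.Ev (w.D ⊓ KP n) x ∧
      ∀ w' : Pl, w'.p ≠ 2 → Out (KP n) {w} w' → w'.v x = 1 := by
  have hU := on_KP n
  obtain ⟨π, p0, p1, -⟩ := a_UNIF w _ hU.2
  obtain ⟨h, h0, hh⟩ := (a_CLS _ hU.2).1
  obtain ⟨x, x1, x2, x3⟩ := hh w π p1
  replace x3 : ∀ w' : Pl, w'.p ≠ 2 → Out (KP n) {w} w' → w'.v x = 1 :=
    fun w' _ => x3 w'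
  clear hh
  induction h using Nat.strong_induction_on generalizing x with
  | _ h ih =>
    have x0 : x ≠ 0 := fun e => p1.2.1 (by
      rw [e, map_zero] at x2
      exact w.v.zero_iff.1 (pow_eq_zero_iff h0.ne' |>.1 x2.symm))
    obtain ⟨k, rfl | rfl⟩ := Nat.even_or_odd' h
    · obtain ⟨u, ⟨u1, u2, u3⟩, s, s1, s2⟩ := glob hLAYK hSUNR hVD n x x1 x0 (fun w' h' => by
        by_cases ho : Out (KP n) {w} w'
        · exact ⟨1, fix_one, by rw [x3 w' h' ho, map_one, one_pow]⟩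
        · simp only [Out, not_forall, Set.mem_singleton_iff, not_not] at ho
          obtain ⟨g, hg, rfl⟩ := ho
          refine ⟨π ^ k, (p0.pow k).mono inf_le_right, ?_⟩
          rw [← x1 g hg, ← p0 g hg, Pl.smul_v_apply, Pl.smul_v_apply] at x2
          rw [x2, map_pow, ← pow_mul, mul_comm])
      refine ih k (by omega) (by omega) s s1 ?_ fun w' h' ho =>
        TVN.v_one (by rw [← s2, map_mul, u3 w' h', x3 w' h' ho, one_mul])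
      refine (pow_left_inj₀ zero_le zero_le two_ne_zero).1 ?_
      rw [← map_pow, ← s2, map_mul, u3 w hw, one_mul, x2, ← pow_mul, mul_comm]
    · refine ⟨x, x1, x0, ?_, x3⟩
      rintro ⟨y, y1, y2⟩
      have y0 : y ≠ 0 := fun e => x0 (w.v.zero_iff.1 (by simp [y2, e]))
      obtain ⟨j, hj⟩ := p1.2.2.2 y y1 y0
      rw [x2, hj, ← zpow_natCast, ← zpow_natCast, ← zpow_mul] at y2
      have := p1.zpow_inj y2
      omega

end TVR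

theorem t_VR (hLAYK : LAYK) (hSUNR : SUNR) (hVD : VD) : VR := fun k =>
  ⟨TVR.two hLAYK hSUNR hVD k, TVR.glob hLAYK hSUNR hVD k, TVR.three hLAYK hSUNR hVD k⟩

end Pool.Agent.P.MP_9c97e9_nt.KT
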