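import Pool.Agent.P.MP_9c97e9_nt.KT.BasK

/-! Proof of VS. -/

namespace Pool.Agent.P.MP_9c97e9_nt.KT

open scoped NNReal Matrix
open MP_8b7eba_nt.R2 BK
open Filter Topology Polynomial Module

namespace TVS

theorem qc_congr {β β' : Om} (h : β ^ 2 = β' ^ 2) : qc β = qc β' := by
  funext g
  rcases sq_eq_sq_iff_eq_or_eq_neg.1 h with rfl | rfl
  · rfl
  · simp [qc]

theorem qc_ts {γ : GQ} (hγ : la γ = 1) (k : ℕ) {β : Om} (h0 : β ≠ 0) (h : Fix (KP k) (β ^ 2))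
    (s : GQ) : qc β (ts s) = qc β (ts (γ ^ (Ps k s).val)) := by
  have := ch_conj (isCh_qc (closed_of_open (on_KP k).2) h0 h) (dec hγ k s)
    (KI_le k (ts_mem (γ ^ (Ps k s).val)))
  rwa [← ts_mul, inv_mul_cancel_right] at this

end TVS

theorem t_VS (hLAYK : LAYK) (hSUNR : SUNR) (hVD : VD) : VS := by
  intro k ε hε
  obtain ⟨-, R, r1, r3, r2⟩ := hLAYK.1 k
  have s1 := hSUNR _ R (on_KP k).2 (fun s => KI_le k (ts_mem s)) r1
  rw [r3, index_KP] at s1
  obtain ⟨γ, -, -, hγ⟩ := exists_gen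
  choose r hr using fun x : Om => exists_root x two_ne_zero
  have r0 : ∀ x : Omˣ, r x ≠ 0 := fun x e => x.ne_zero (by rw [← hr x, e]; simp)
  have rf : ∀ x : SU (KP k) R, Fix (KP k) (r (x : Omˣ) ^ 2) := fun x => by
    rw [hr]
    exact x.2.1
  let g : Option (ZMod (2 ^ k)) → GQ := fun o => o.elim (γ ^ 2 ^ k) fun j => ts (γ ^ j.val)
  have hδ : γ ^ 2 ^ k ∈ KP k := (pow_mem_KP hγ).2 dvd_rfl
  have hδ' : γ ^ 2 ^ k ∉ KP (k + 1) := fun h =>
    absurd (Nat.le_of_dvd (by positivity) ((pow_mem_KP hγ).1 h))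
      (not_le.2 (Nat.pow_lt_pow_right one_lt_two k.lt_succ_self))
  have hg : ∀ o, g o ∈ KP k := by
    rintro (_ | j)
    exacts [hδ, KI_le k (ts_mem _)]
  let F : SU (KP k) R →* Multiplicative (Option (ZMod (2 ^ k)) → ZMod 2) :=
    MonoidHom.mk' (fun x => Multiplicative.ofAdd fun o => qc (r (x : Omˣ)) (g o)) fun x y => by
      rw [← ofAdd_add]
      congr 1
      funext o
      rw [Pi.add_apply, ← qc_mul (r0 _) (r0 _) (rf x _ (hg o)) (rf y _ (hg o)),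
        TVS.qc_congr (β' := r (x : Omˣ) * r (y : Omˣ)) (by rw [mul_pow, hr, hr, hr]; rfl)]
  have hker : F.ker ≤ ((SU (KP k) R).map (powMonoidHom 2)).subgroupOf (SU (KP k) R) := by
    intro x hx
    have h1 : ∀ o, g o (r (x : Omˣ)) = r (x : Omˣ) := fun o =>
      qc_eq_zero.1 (congrFun (congrArg Multiplicative.toAdd (MonoidHom.mem_ker.1 hx)) o)
    have h2 := (hVD k _ (r0 x) (rf x) fun w hw =>
      (ev_iff (on_KP k).2 hw ((I_le hw).trans (KI_le k)) (r0 x) (rf x)).1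
        ⟨1, fix_one, by rw [hr, x.2.2 w ((r2 w).2 hw), map_one, one_pow]⟩).2 fun s =>
      qc_eq_zero.1 ((TVS.qc_ts hγ k (r0 x) (rf x) s).trans (qc_eq_zero.2 (h1 (some _))))
    have h3 : Fix (KP k) (r (x : Omˣ)) := fun u hu => by
      by_cases h : u ∈ KP (k + 1)
      · exact h2 u h
      · have := h2 _ (mul_succ hu hδ h hδ')
        rwa [AlgEquiv.mul_apply, show (γ ^ 2 ^ k) (r (x : Omˣ)) = _ from h1 none] at this
    exact ⟨Units.mk0 _ (r0 x), ⟨h3, fun w hw => TVN.v_one (by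
      rw [Units.val_mk0, hr, x.2.2 w hw])⟩, Units.ext (hr _)⟩
  have hc : Nat.card (Multiplicative (Option (ZMod (2 ^ k)) → ZMod 2)) = 2 ^ (2 ^ k + 1) := by
    simp [Nat.card_eq_fintype_card]
  have htop : F.range = ⊤ := by
    refine Subgroup.eq_top_of_le_card _ ?_
    rw [hc, ← Subgroup.index_ker, ← s1]
    refine Nat.le_of_dvd (Nat.pos_of_ne_zero ?_) (Subgroup.index_dvd_of_le hker)
    rw [Subgroup.index_ker]
    exact Nat.card_pos.ne'
  obtain ⟨x, hx⟩ := MonoidHom.range_eq_top.1 htop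
    (Multiplicative.ofAdd fun o => o.elim 0 fun j => ε (γ ^ j.val))
  refine ⟨r (x : Omˣ), ⟨rf x, pow_ne_zero 2 (r0 x), fun w hw => by
    rw [hr, x.2.2 w ((r2 w).2 hw)]⟩, fun s => ?_⟩
  rw [TVS.qc_ts hγ k (r0 x) (rf x) s]
  refine (congrFun (congrArg Multiplicative.toAdd hx) (some (Ps k s))).trans ?_
  have := hε _ (dec hγ k s) (γ ^ (Ps k s).val)
  rw [inv_mul_cancel_right] at this
  exact this.symm

end Pool.Agent.P.MP_9c97e9_nt.KT
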