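import Pool.Agent.P.MP_9c97e9_nt.KT.TLAYK
import Pool.Agent.P.MP_9c97e9_nt.KT.TSUNR
import Pool.Agent.P.MP_9c97e9_nt.KT.TVD
import Pool.Agent.P.MP_9c97e9_nt.KT.TVR
import Pool.Agent.P.MP_9c97e9_nt.KT.TVS
import Pool.Agent.P.MP_9c97e9_nt.KT.TPIK
import Pool.Agent.P.MP_9c97e9_nt.KT.TVL
import Pool.Agent.P.MP_9c97e9_nt.KT.TABK
import Pool.Agent.P.MP_9c97e9_nt.KT.TCH
import Pool.Agent.P.MP_9c97e9_nt.KT.TGTK
import Pool.Agent.P.MP_9c97e9_nt.KT.TZI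
import Pool.Agent.P.MP_9c97e9_nt.KT.TOB1
import Pool.Agent.P.MP_9c97e9_nt.KT.TOB2
import Pool.Agent.P.MP_9c97e9_nt.KT.TIW1
import Pool.Agent.P.MP_9c97e9_nt.KT.TCJ
import Pool.Agent.P.MP_9c97e9_nt.KT.TIWA
import Pool.Agent.P.MP_9c97e9_nt.KT.TBADP
import Pool.Agent.P.MP_9c97e9_nt.KT.TLATD
import Pool.Agent.P.MP_9c97e9_nt.KT.TDETQ
import Pool.Agent.P.MP_9c97e9_nt.KT.TRE
import Pool.Agent.P.MP_9c97e9_nt.KT.TBR
import Pool.Agent.P.MP_9c97e9_nt.KT.TEXT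
import Pool.Agent.P.MP_9c97e9_nt.KT.TEUL
import Pool.Agent.P.MP_9c97e9_nt.KT.TDSC
import Pool.Agent.P.MP_9c97e9_nt.KT.TLBK
import Pool.Agent.P.MP_9c97e9_nt.KT.TIWX

/-! The chapter on the cyclotomic tower. -/

namespace Pool.Agent.P.MP_9c97e9_nt.KT

theorem a_LAYK : LAYK := t_LAYK

theorem a_SUNR : SUNR := t_SUNR

theorem a_VD : VD := t_VD

theorem a_VR : VR := t_VR a_LAYK a_SUNR a_VD

theorem a_VS : VS := t_VS a_LAYK a_SUNR a_VD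

theorem a_PIK : PIK := t_PIK

theorem a_VL : VL := t_VL a_VD a_VR a_PIK

theorem a_ABK : ABK := t_ABK a_VD a_PIK a_VL

theorem a_CH : CH := t_CH a_VD a_VR a_VS

theorem a_GTK : GTK := t_GTK a_LAYK a_ABK a_CH

theorem a_ZI : ZI := t_ZI a_LAYK a_CH

theorem a_OB1 : OB1 := t_OB1 a_GTK

theorem a_OB2 : OB2 := t_OB2 a_CH

theorem a_IW1 : IW1 := t_IW1 a_ZI a_OB1 a_OB2

theorem a_CJ : CJ := t_CJ

theorem a_IWA : IWA := t_IWA a_ZI a_IW1 a_CJ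

theorem a_BADP : BADP := t_BADP a_LAYK a_CJ

theorem a_LATD : LATD := t_LATD

theorem a_DETQ : DETQ := t_DETQ

theorem a_RE : RE := t_RE

theorem a_BR : BR := t_BR a_IW1 a_RE

theorem a_EXT : EXT := t_EXT

theorem a_EUL : EUL := t_EUL a_BR a_EXT a_CJ

theorem a_DSC : DSC := t_DSC a_CJ

theorem a_LBK : LBK := t_LBK a_DSC

theorem a_IWX : IWX := t_IWX a_CJ a_IWA a_BADP a_LATD a_DETQ a_EUL a_LBK

end Pool.Agent.P.MP_9c97e9_nt.KT
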