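import Pool.Agent.P.MP_9c97e9_nt.KT.IfL

/-! Cyclic quotients. -/

namespace Pool.Agent.P.MP_9c97e9_nt.KT

namespace TLCY

theorem idx {X : Type} [AddCommGroup X] {S M : AddSubgroup X} {a : ℕ} (h : Cyc S M a) :
    S.relIndex M = a := by
  obtain ⟨-, y, hy, h1, h2⟩ := h
  let f : ℤ →+ M ⧸ S.addSubgroupOf M :=
    (QuotientAddGroup.mk' _).comp (zmultiplesHom M ⟨y, hy⟩)
  have hs : Function.Surjective f := by
    intro z
    obtain ⟨x, rfl⟩ := QuotientAddGroup.mk'_surjective _ z
    obtain ⟨m, hm⟩ := h1 x.1 x.2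
    refine ⟨m, ?_⟩
    change ((m • (⟨y, hy⟩ : M) : M) : M ⧸ S.addSubgroupOf M) = (x : M ⧸ S.addSubgroupOf M)
    rw [QuotientAddGroup.eq, AddSubgroup.mem_addSubgroupOf]
    simpa [neg_add_eq_sub] using hm
  have hk : f.ker = AddSubgroup.zmultiples (a : ℤ) := by
    ext m
    rw [AddMonoidHom.mem_ker, Int.mem_zmultiples_iff, ← h2]
    change ((m • (⟨y, hy⟩ : M) : M) : M ⧸ S.addSubgroupOf M) = 0 ↔ _
    rw [QuotientAddGroup.eq_zero_iff, AddSubgroup.mem_addSubgroupOf]
    simp
  have h3 := AddSubgroup.index_ker f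
  rw [hk, Int.index_zmultiples, AddMonoidHom.range_eq_top.2 hs, AddSubgroup.card_top] at h3
  exact h3.symm

end TLCY

theorem t_LCY : LCY := by
  intro X _ S B
  constructor
  · intro M a b h1 h2
    refine ⟨h1.1.trans h2.1, ?_, ?_⟩
    · rw [← TLCY.idx h1, ← TLCY.idx h2, AddSubgroup.relIndex_mul_relIndex S M B h1.1 h2.1]
    · obtain ⟨-, y, hy, a1, -⟩ := h1
      obtain ⟨hM, y', hy', a2, -⟩ := h2
      refine ⟨y, hM hy, y', hy', fun x hx => ?_⟩
      obtain ⟨m', hm'⟩ := a2 x hx
      obtain ⟨m, hm⟩ := a1 _ hm'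
      exact ⟨m, m', by rwa [sub_right_comm]⟩
  · intro s y j hSB ht hy h2 hn hj hs
    have hsS : s ∉ S := by
      intro h
      have key : ∀ k : ℕ, ∀ x ∈ B, 2 ^ k • x ∈ S → x ∈ S := by
        intro k
        induction k with
        | zero => intro x _ hx; simpa using hx
        | succ k ih =>
          intro x hx h1
          refine ih x hx ?_
          rcases h2 _ (B.nsmul_mem hx (2 ^ k)) (by rwa [← mul_smul, ← pow_succ']) with h3 | h3
          · exact h3
          · simpa using S.add_mem h3 h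
      obtain ⟨k, hk⟩ := ht y hy
      exact hn 0 B.zero_mem (by simpa using key k y hy hk)
    have h3 : 2 ^ j • y ∉ S := fun h => hsS (by simpa using S.sub_mem h hj)
    have h4 : 2 ^ (j + 1) • y ∈ S := by
      have := S.add_mem (S.nsmul_mem hj 2) hs
      rwa [smul_sub, sub_add_cancel, ← mul_smul, ← pow_succ'] at this
    have hdiv : ∀ m : ℤ, m • y ∈ S ↔ ((2 ^ (j + 1) : ℕ) : ℤ) ∣ m := by
      intro m
      have ho : addOrderOf (y : X ⧸ S) = 2 ^ (j + 1) := by
        refine addOrderOf_eq_prime_pow ?_ ?_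
        · rwa [← QuotientAddGroup.mk_nsmul, QuotientAddGroup.eq_zero_iff]
        · rwa [← QuotientAddGroup.mk_nsmul, QuotientAddGroup.eq_zero_iff]
      rw [← ho, addOrderOf_dvd_iff_zsmul_eq_zero, ← QuotientAddGroup.mk_zsmul,
        QuotientAddGroup.eq_zero_iff]
    have key : ∀ k : ℕ, ∀ x ∈ B, 2 ^ k • x ∈ S → ∃ m : ℤ, x - m • y ∈ S := by
      intro k
      induction k using Nat.strong_induction_on with
      | _ k ih =>
      intro x hx h1
      rcases k with _ | k
      · exact ⟨0, by simpa using h1⟩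
      rcases h2 _ (B.nsmul_mem hx (2 ^ k)) (by rwa [← mul_smul, ← pow_succ']) with h5 | h5
      · exact ih k (by omega) x hx h5
      have h6 : 2 ^ k • x - 2 ^ j • y ∈ S := by simpa using S.sub_mem h5 hj
      rcases le_or_gt k j with h7 | h7
      · obtain ⟨d, rfl⟩ := Nat.exists_eq_add_of_le h7
        obtain ⟨m, hm⟩ := ih k (by omega) (x - 2 ^ d • y) (B.sub_mem hx (B.nsmul_mem hy _))
          (by rwa [smul_sub, ← mul_smul, ← pow_add])
        refine ⟨2 ^ d + m, ?_⟩
        convert hm using 1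
        rw [add_smul, ← natCast_zsmul]
        push_cast
        abel
      · exfalso
        obtain ⟨d, rfl⟩ := Nat.exists_eq_add_of_lt h7
        have h8 : 2 ^ j • (y - 2 ^ (d + 1) • x) ∈ S := by
          have := S.neg_mem h6
          rwa [neg_sub, add_assoc, pow_add, mul_smul, ← smul_sub] at this
        obtain ⟨m, hm⟩ := ih j (by omega) _ (B.sub_mem hy (B.nsmul_mem hx _)) h8
        have h9 : ((2 : ℤ) ^ j * m) • y ∈ S := by
          have := S.sub_mem h8 (S.nsmul_mem hm (2 ^ j))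
          rw [← smul_sub, sub_sub_cancel, ← natCast_zsmul, ← mul_smul] at this
          simpa using this
        rw [hdiv] at h9
        push_cast at h9
        rw [pow_succ] at h9
        obtain ⟨m', rfl⟩ := (mul_dvd_mul_iff_left (by positivity)).1 h9
        refine hn (2 ^ d • x + m' • y) (B.add_mem (B.nsmul_mem hx _) (B.zsmul_mem hy _)) ?_
        convert hm using 1
        rw [smul_add, ← mul_smul, ← pow_succ', mul_smul, two_zsmul, two_nsmul]
        abel
    refine ⟨hSB, y, hy, fun x hx => ?_, hdiv⟩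
    obtain ⟨k, hk⟩ := ht x hx
    exact key k x hx hk

end Pool.Agent.P.MP_9c97e9_nt.KT
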