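import Pool.Agent.P.MP_9c97e9_nt.KT.BasL

/-! Normalisation of the half of a relaxed Selmer class. -/

namespace Pool.Agent.P.MP_9c97e9_nt.KT

open MP_8b7eba_nt.R2

namespace TLD2

/-- a normalised unramified half of `c` -/
structure Hf (D : Dat) (c d : GQ → EO) : Prop where
  mem : d ∈ D.ZH ⊤
  two : ∀ g, c g = 2 • d g
  unr : ∀ w : Pl, ¬ w.p ∣ 30 * D.n → ∀ g ∈ w.I, d g = 0
  nz : d D.z = 0

theorem isCh_mul (a : ZMod 2) : IsCh ⊤ fun g => a * qz (-1) g :=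
  ⟨(isCh_qz (-1)).1.comp fun x => a * x, fun g hg h hh => by
    simp only [(isCh_qz (H := ⊤) (-1)).2 g hg h hh, mul_add]⟩

theorem Hf.add (hF : F2X) {D : Dat} {c d : GQ → EO} (h : Hf D c d) (a b : ZMod 2) :
    Hf D c (d + fun g => s2 (a * qz (-1) g) (b * qz (-1) g)) := by
  refine ⟨add_mem h.mem ?_, fun g => ?_, fun w hw g hg => ?_, ?_⟩
  · have := rs_s2 (D := D) (isCh_mul a) (isCh_mul b)
    rwa [rs_top] at this
  · rw [Pi.add_apply, smul_add, two_s2, add_zero, h.two]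
  · have h1 : qz (-1) g = 0 := qz_I a_CA (fun e => hw (by
      have h2 : (w.p : ℤ) ∣ 2 := by simpa using e
      have h3 : w.p ∣ 2 := by exact_mod_cast h2
      exact (h3.trans (by norm_num : 2 ∣ 30)).mul_right _)) hg
    rw [Pi.add_apply, h.unr w hw g hg, h1, mul_zero, mul_zero, s2_zero, add_zero]
  · have h1 : qz (-1) D.z = 0 := (qz_neg_one a_EC).2 (by rw [(hF D).2.2.2.2.1]; simp)
    rw [Pi.add_apply, h.nz, h1, mul_zero, mul_zero, s2_zero, add_zero]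

theorem qz_two_KI {g : GQ} (hg : g ∈ KI) : qz 2 g = 0 := by
  have h1 : g ∈ KP 1 := (iInf_le KP 1 : KI ≤ KP 1) hg
  have h2 := ((a_LG.2.2.2.1 1).2.2.2.2.1 g).1 h1
  have h3 := (a_LG.1.dvd 1 _).1 h2
  refine (qz_two a_EC).2 ?_
  norm_num at h3
  exact h3

theorem one_of_ne {x : ZMod 2} (h : x ≠ 0) : x = 1 := (LA.cases x).resolve_left h

end TLD2

open TLD2 in
theorem t_LD2 (hF2X : F2X) (hLQ2 : LQ2) : LD2 := by
  rintro D c c' hc hc' e hu ⟨z, hz, P, hP⟩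
  have e' : ∀ g, c g = 2 • c' g := fun g => congrFun e g
  obtain ⟨Q, hQ⟩ := exists_two (c' D.z)
  have tQ : Tp Q := Tp.of_two (hQ ▸ ZH_tp hc' D.z)
  have h1 : Hf D c (c' + D.cb Q) := by
    refine ⟨add_mem hc' ?_, fun g => ?_, fun w hw g hg => ?_, ?_⟩
    · have := (rs_cb_B (D := D) (H := ⊤) tQ).1
      rwa [rs_top] at this
    · rw [Pi.add_apply, smul_add, ← D.cb_nsmul, D.cb_two (by rw [hQ, ← e', hc.nz]), add_zero, e']
    · rw [Pi.add_apply, hu w hw g hg, Dat.cb, D.tac_good hw hg tQ, sub_self, add_zero]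
    · rw [Pi.add_apply, D.cb_z hF2X tQ, hQ, add_neg_cancel]
  generalize c' + D.cb Q = c1 at h1
  obtain ⟨P', hP'⟩ := exists_two P
  have k2 : ∀ g ∈ w2.D, 2 • (c1 g - z g - D.cb P' g) = 0 := fun g hg => by
    rw [smul_sub, smul_sub, ← h1.two, ← D.cb_nsmul, hP', hP g hg]
    abel
  have hd : rs w2.D (fun g => c1 g - z g - D.cb P' g) ∈ D.ZH w2.D := by
    refine rs_mem (((h1.mem.1.mono le_top).comp₂ hz.1.1 (· - ·)).comp₂ (D.sm_cb _ P') (· - ·))
      (fun g hg h hh => ?_) ⟨1, fun g hg => by simpa using k2 g hg⟩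
    rw [h1.mem.2.1 g trivial h trivial, hz.1.2.1 g hg h hh, D.cb_mul, map_sub, map_sub]
    abel
  obtain ⟨a, b, -, hb, hab⟩ := ZH_two hd fun g hg => by rw [rs_of_mem hg]; exact k2 g hg
  obtain ⟨u, v, w, huv⟩ := hLQ2 w2 b rfl hb
  have h2 := h1.add hF2X 0 u
  have o2 : ∀ g ∈ w2.I ⊓ KI,
      (c1 + fun g => s2 (0 * qz (-1) g) (u * qz (-1) g)) g ∈ EG w2 := by
    intro g hg
    have hg' := w2.I_le_D hg.1
    have k := hab g hg'
    rw [rs_of_mem hg', huv g hg', qz_two_KI hg.2, qz_I_two (m := 5) (w := w2) rfl (by norm_num) hg.1,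
      mul_zero, mul_zero, add_zero, add_zero] at k
    have k' : c1 g = z g + D.cb P' g + s2 (a g) (u * qz (-1) g) := by rw [← k]; abel
    rw [Pi.add_apply, k', add_assoc, ← s2_add]
    exact add_mem (add_mem (hz.2 g hg) (D.cb_EG2 hg.1 P'))
      (s2_mem.2 (CharTwo.add_self_eq_zero _))
  generalize (c1 + fun g => s2 (0 * qz (-1) g) (u * qz (-1) g)) = c2 at h2 o2
  obtain ⟨P1, hP1⟩ : ∃ P1, c tau = D.cb P1 tau := by simpa [Dat.cb] using hc.re 1
  obtain ⟨P2, hP2⟩ := exists_two P1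
  obtain ⟨x, y, hxy⟩ := exists_s2 (P := c2 tau - D.cb P2 tau) (by
    rw [smul_sub, ← h2.two, ← D.cb_nsmul, hP2, hP1, sub_self])
  have h3 := h2.add hF2X x 0
  have q1 : qz (-1) tau = 1 := one_of_ne fun k => by
    have := (qz_tau a_TAU (by norm_num)).1 k
    omega
  have q2 : qz (-D.n) tau = 1 := one_of_ne fun k => by
    have h0 := D.n_pos
    have := (qz_tau a_TAU (by omega)).1 k
    omega
  have r3 : (c2 + fun g => s2 (x * qz (-1) g) (0 * qz (-1) g)) tau =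
      D.cb (P2 + (pE ((0 : ℤ) / 4) + pF ((y.val : ℤ) / 4))) tau := by
    have k' : c2 tau = D.cb P2 tau + s2 x y := by rw [← hxy]; abel
    rw [D.cb_add, D.cb_four, Pi.add_apply, k', add_assoc, ← s2_add, q1, q2]
    simp [CharTwo.add_self_eq_zero]
  refine ⟨_, ⟨h3.mem.1, h3.mem.2.1, h3.mem.2.2.1, h3.mem.2.2.2, h3.nz, fun g hg => ?_,
    fun w hw g hg => h3.unr w hw g hg.1, fun s => ⟨_, ZH_re h3.mem r3 s⟩⟩, funext h3.two⟩
  exact (EG w2).add_mem (o2 g hg) (s2_mem.2 (zero_mul _))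

end Pool.Agent.P.MP_9c97e9_nt.KT
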