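import Pool.Agent.P.MP_9c97e9_nt.KT.BasL

/-! The classical Selmer group inside the relaxed one. -/

namespace Pool.Agent.P.MP_9c97e9_nt.KT

open MP_8b7eba_nt.R2

theorem t_LKE : LKE := by
  intro D c
  constructor
  · rintro ⟨⟨sm, co, tor, loc⟩, nz, P, hP⟩
    have hc : c ∈ D.ZH ⊤ := ⟨sm, fun g _ h _ => co g h, fun g hg => absurd trivial hg, tor⟩
    refine ⟨⟨hc.1, hc.2.1, hc.2.2.1, tor, nz, fun g hg => ?_, fun w hw g hg => ?_,
      fun s => ⟨_, ZH_re hc hP s⟩⟩, fun p hp _ => ?_⟩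
    · obtain ⟨Q, hQ⟩ := loc w2
      rw [hQ g (w2.I_le_D hg.1)]
      exact D.cb_EG2 hg.1 Q
    · obtain ⟨Q, hQ⟩ := loc w
      obtain ⟨i, hi⟩ := tor
      refine (a_E1G w).2.2.2.2.2 (fun e => hw ?_) _ i ?_ (hi g)
      · rw [e]
        exact Dvd.dvd.mul_right (by norm_num) _
      · rw [hQ g (w.I_le_D hg.1)]
        exact D.cb_EG (fun e => hw ((e.trans (by norm_num : 15 ∣ 30)).mul_right _))
          (fun e => hw (e.mul_left _)) hg.1 Q
    · obtain ⟨w, hw⟩ := a_PL.1 p hp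
      exact ⟨w, hw, loc w⟩
  · rintro ⟨h, k⟩
    have co : ∀ g g', c (g * g') = c g + tac D.dl g (c g') := fun g g' => h.co g trivial g' trivial
    refine ⟨⟨h.sm, co, h.tor, fun w => ?_⟩, h.nz, by simpa using h.re 1⟩
    by_cases hw : w.p ∣ 30 * D.n
    · obtain ⟨w', e, P, hP⟩ := k w.p w.prime hw
      exact TLOC2.LT.of_eq a_CP D.dl_fix co ⟨P, hP⟩ e
    · refine TLOC2.unr a_CP T2 D.dl_sq h.sm co (fun g => tp_iff.1 (ZH_tp (SH_mem_ZH h) g))
        (fun e => hw ?_) fun g hg => h.unr w hw g ⟨hg, trivial⟩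
      rw [mul_neg, dvd_neg] at e
      exact_mod_cast e

end Pool.Agent.P.MP_9c97e9_nt.KT
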