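import Pool.Agent.P.MP_9c97e9_nt.KT.BasL

/-! The local cohomology at the primes which divide `n`. -/

namespace Pool.Agent.P.MP_9c97e9_nt.KT

open scoped NNReal Matrix
open MP_8b7eba_nt.R2
open Filter Topology Polynomial

namespace TLN

variable {D : Dat} {w : Pl} {t φ g : GQ} {P : EO} {c : GQ → EO}

theorem ne_two (hw : w.p ∣ D.n) : w.p ≠ 2 := fun e => D.p_ne w.prime hw (by rw [e]; norm_num)

theorem sd_gen (hw : w.p ∣ D.n) (ht : Gn w t) : sd D.dl t = -1 := by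
  obtain ⟨m, hm⟩ := hw
  have h1 : ¬ (w.p : ℤ) ∣ -m := by
    rw [Int.dvd_neg, Int.natCast_dvd_natCast]
    intro e
    exact w.prime.not_isUnit (D.sq w.p (hm ▸ mul_dvd_mul_left _ e))
  have h2 := Pl.gen_move a_TAME a_RES (ne_two ⟨m, hm⟩) ht.1 ht.2 (δ := D.dl) (m := -m)
    (by rw [D.hdl, hm]; push_cast; ring) h1
  rw [sd_eq_neg, h2]
  intro e
  have h3 : D.dl = 0 := by linear_combination (-1 / 2 : Om) * e
  have h4 := D.hdl
  rw [h3, zero_pow two_ne_zero, eq_comm, neg_eq_zero, Nat.cast_eq_zero] at h4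
  exact D.n_pos.ne' h4

theorem tac_gen (hw : w.p ∣ D.n) (ht : Gn w t) (h : Tp P) : tac D.dl t P = -P := by
  obtain ⟨v, rfl⟩ := tp_iff.1 h
  rw [tac_apply, sd_gen hw ht, T2.gal, (a_TR w2 T2 w (D.p_ne w.prime hw)).1 t ht.1,
    Matrix.one_mulVec, neg_one_zsmul]

theorem tac_conj (hw : w.p ∣ D.n) (ht : Gn w t) (h : Tp P) (g : GQ) :
    tac D.dl (g * t * g⁻¹) P = -P := by
  rw [D.tmul, D.tmul, tac_gen hw ht (h.map _), map_neg, ← D.tmul, mul_inv_cancel, tac_one]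

/-- reduction to unramified cocycles of order two -/
theorem red (hLTU : LTU) (hw : w.p ∣ D.n) (hc : c ∈ D.ZH w.D) :
    ∃ b ∈ D.BH w.D, (∀ g ∈ w.I, (c - b) g = 0) ∧ ∀ g, 2 • (c - b) g = 0 := by
  obtain ⟨t, ht⟩ := exists_gn (ne_two hw)
  obtain ⟨Q, hQ⟩ := exists_two (-c t)
  have tQ : Tp Q := Tp.of_two (hQ ▸ (ZH_tp hc t).neg)
  have hb : rs w.D (D.cb Q) ∈ D.BH w.D := rs_cb_B tQ
  have h0 := sub_mem hc hb.1
  have h1 : (c - rs w.D (D.cb Q)) t = 0 := by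
    rw [Pi.sub_apply, rs_of_mem ht.1.1, Dat.cb, tac_gen hw ht tQ, ← neg_neg (c t), ← hQ]
    abel
  have h2 := (hLTU D w t (ne_two hw) ht _ h0).1 h1
  refine ⟨_, hb, h2, fun g => ?_⟩
  by_cases hg : g ∈ w.D
  · have h3 := ZH_conj h0 hg ht.1.1
    rw [h2 _ (Pl.conj_mem_I hg ht.1), h1, map_zero, Dat.cb, tac_conj hw ht (ZH_tp h0 g)] at h3
    rw [h3]
    abel
  · rw [h0.2.2.1 g hg, smul_zero]

/-- an unramified cocycle which comes from a point is trivial -/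
theorem triv (hw : w.p ∣ D.n) (hc : c ∈ D.LH w.D) (h : ∀ g ∈ w.I, c g = 0) (hg : g ∈ w.D) :
    c g = 0 := by
  obtain ⟨t, ht⟩ := exists_gn (ne_two hw)
  obtain ⟨hz, P, hP⟩ := hc
  have h1 := hP t ht.1.1
  rw [h t ht.1, Dat.cb, tac_apply, sd_gen hw ht, neg_one_zsmul] at h1
  have h2 : ac t P - P ∈ EG w := (a_CONG w fun e =>
    D.p_ne w.prime hw (e.trans (by norm_num))).2 t ht.1 P
  obtain ⟨R, hR, e⟩ := (a_E1G w).2.2.2.2.1 _ h2
  have h3 : 2 • (P + R) = 0 := by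
    rw [smul_add, e, ← neg_neg (ac t P), sub_eq_zero.1 h1.symm]
    abel
  have h4 := D.cb_two h3 g
  rw [D.cb_add, ← hP g hg, add_eq_zero_iff_eq_neg] at h4
  obtain ⟨k, hk⟩ := ZH_tp hz g
  refine (a_E1G w).2.2.2.2.2 (ne_two hw) _ k ?_ hk
  rw [h4, ← mem_EG]
  exact neg_mem (sub_mem (tac_EG D hg hR) hR)

/-- the unramified cocycles of order two -/
noncomputable def uf (w : Pl) (χ : GQ → ZMod 2) : ZMod 2 × ZMod 2 →+ GQ → EO :=
  AddMonoidHom.mk' (fun q => rs w.D fun g => s2 (q.1 * χ g) (q.2 * χ g)) fun q r => by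
    rw [← map_add]
    congr 1
    ext g
    simp only [Prod.fst_add, Prod.snd_add, add_mul, s2_add, Pi.add_apply]

theorem uf_apply (χ : GQ → ZMod 2) (q : ZMod 2 × ZMod 2) (hg : g ∈ w.D) :
    uf w χ q g = s2 (q.1 * χ g) (q.2 * χ g) :=
  rs_of_mem hg fun g => s2 (q.1 * χ g) (q.2 * χ g)

theorem uf_mem {χ : GQ → ZMod 2} (h : IsCh w.D χ) (q : ZMod 2 × ZMod 2) :
    uf w χ q ∈ D.ZH w.D :=
  have k : ∀ a : ZMod 2, IsCh w.D fun g => a * χ g := fun a =>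
    ⟨h.1.comp (a * ·), fun g hg g' hg' => by simp only [h.2 g hg g' hg', mul_add]⟩
  rs_s2 (k _) (k _)

end TLN

open TLN in
theorem t_LN (hLTU : LTU) : LN := by
  intro D w hw
  refine ⟨?_, fun c hc => ?_⟩
  swap
  · obtain ⟨b, hb, -, h⟩ := red hLTU hw hc
    have e : 2 • c = 2 • b := by
      rw [← sub_eq_zero, ← smul_sub]
      exact funext h
    rw [e]
    exact nsmul_mem (BH_le_LH hb) 2
  obtain ⟨χ, h1, h2, h3⟩ : ∃ χ : GQ → ZMod 2, IsCh w.D χ ∧ (∀ g ∈ w.I, χ g = 0) ∧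
    ∀ (f : ℕ) φ, w.IsFrob f φ → χ φ = f := (a_UCH w 1).1
  obtain ⟨f, φ, -, -, hφ, hf, -⟩ := a_FROB w w.D w.loc_D
  obtain rfl := hf rfl
  have h4 : χ φ = 1 := by simpa using h3 1 φ hφ
  have hI : ∀ q, ∀ g ∈ w.I, uf w χ q g = 0 := fun q g hg => by
    rw [uf_apply χ q hg.1, h2 g hg, mul_zero, mul_zero, s2_zero]
  have hs : ∀ c ∈ D.ZH w.D, ∃ q, c - uf w χ q ∈ D.LH w.D := fun c hc => by
    obtain ⟨b, hb, k1, k2⟩ := red hLTU hw hc
    obtain ⟨x, y, e⟩ := exists_s2 (k2 φ)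
    have k3 := ZH_D_zero (sub_mem (sub_mem hc hb.1) (uf_mem h1 (x, y)))
      (fun g hg => by rw [Pi.sub_apply, k1 g hg, hI _ g hg, sub_zero]) hφ
      (by rw [Pi.sub_apply, e, uf_apply χ _ hφ.1, h4, mul_one, mul_one, sub_self])
    refine ⟨(x, y), ?_⟩
    rw [sub_right_comm, sub_eq_zero] at k3
    exact k3 ▸ BH_le_LH hb
  have hk : (D.LH w.D).comap (uf w χ) = ⊥ := eq_bot_iff.2 fun q hq => by
    have k := triv hw hq (hI q) hφ.1
    rw [uf_apply χ _ hφ.1, h4, mul_one, mul_one, s2_eq_zero] at k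
    exact Prod.ext k.1 k.2
  have hle : D.LH w.D ≤ D.ZH w.D := fun _ h => h.1
  have hsup : D.ZH w.D = D.LH w.D ⊔ (uf w χ).range := by
    refine le_antisymm (fun c hc => ?_) (sup_le hle ?_)
    · obtain ⟨q, hq⟩ := hs c hc
      simpa using AddSubgroup.add_mem_sup hq (AddMonoidHom.mem_range (f := uf w χ).2 ⟨q, rfl⟩)
    · rintro _ ⟨q, rfl⟩
      exact uf_mem h1 q
  refine ⟨hle, ?_, _, uf_mem h1 (1, 0), _, uf_mem h1 (0, 1), fun c hc => ?_⟩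
  · rw [hsup, AddSubgroup.relIndex_sup_left, ← AddSubgroup.index_comap, hk, AddSubgroup.index_bot]
    simp
  · obtain ⟨q, hq⟩ := hs c hc
    have k : ∀ q : ZMod 2 × ZMod 2, q = (q.1.val : ℤ) • (1, 0) + (q.2.val : ℤ) • (0, 1) := by decide
    refine ⟨q.1.val, q.2.val, ?_⟩
    rwa [sub_sub, ← map_zsmul, ← map_zsmul, ← map_add, ← k]

end Pool.Agent.P.MP_9c97e9_nt.KT
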