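import Pool.Agent.P.MP_9c97e9_nt.KT.BasL

/-! Cocycles which are ordinary on the inertia group at two. -/

namespace Pool.Agent.P.MP_9c97e9_nt.KT

open scoped NNReal Matrix
open MP_8b7eba_nt.R2

namespace TLO1

theorem cb_pair (hLS2 : LS2) (D : Dat) {g : GQ} (hg : g ∈ w2.D) (x y : ℚ_[2]) :
    D.cb (pE x + pF y) g =
      pE (D.rd g 0 0 * x - x + D.rd g 0 1 * y) + pF ((D.rd g 1 1 - 1) * y) := by
  rw [Dat.cb, map_add, (hLS2 D g hg).1, (hLS2 D g hg).2.1, sub_mul, one_mul, map_sub, map_add,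
    map_sub]
  abel

theorem nu_norm (hF2X : F2X) (D : Dat) :
    ‖D.rd D.f2 1 1 - 1‖ = ‖(D.nu : ℚ_[2])‖ ∧ 4⁻¹ ≤ ‖(D.nu : ℚ_[2])‖ := by
  have h2 : ‖(2 : ℚ_[2])‖ = 2⁻¹ := by simpa using Padic.norm_p (p := 2)
  have h4 : ‖(4 : ℚ_[2])‖ = 4⁻¹ := by
    rw [show (4 : ℚ_[2]) = 2 * 2 by norm_num, norm_mul, h2]; norm_num
  rw [(hF2X D).1, Dat.nu]
  split_ifs
  · rw [Nat.cast_ofNat, h4]; exact ⟨rfl, le_rfl⟩
  · rw [Nat.cast_ofNat, h2]; exact ⟨rfl, by norm_num⟩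

theorem exists_nat {z : ℚ_[2]} (h : ‖z‖ ≤ 1) : ∃ k : ℕ, ‖z - k‖ ≤ 4⁻¹ := by
  refine ⟨PadicInt.appr (⟨z, h⟩ : ℤ_[2]) 2, ?_⟩
  have := (PadicInt.norm_le_pow_iff_mem_span_pow _ 2).2 (PadicInt.appr_spec 2 (⟨z, h⟩ : ℤ_[2]))
  rw [PadicInt.norm_def, PadicInt.coe_sub, PadicInt.coe_natCast] at this
  refine this.trans (le_of_eq ?_)
  norm_num

end TLO1

open TLO1 in
theorem t_LO1 (hF2X : F2X) (hLS2 : LS2) : LO1 := fun D => by
  obtain ⟨h1, h2⟩ := nu_norm hF2X D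
  have h3 : (0 : ℝ) < ‖(D.nu : ℚ_[2])‖ := lt_of_lt_of_le (by norm_num) h2
  have hb : D.rd D.f2 1 1 - 1 ≠ 0 := norm_pos_iff.1 (h1 ▸ h3)
  have hn : (D.nu : ℚ_[2]) ≠ 0 := norm_pos_iff.1 h3
  refine ⟨fun c hc => ?_, fun c hc => ⟨hc.1, fun g hg => ?_⟩, fun c hc hB => ?_⟩
  · obtain ⟨x, y, e⟩ := tp_iff'.1 (ZH_tp hc.1 D.f2)
    have hv := rs_cb_B (D := D) (H := w2.D) (tp_pF (y / (D.rd D.f2 1 1 - 1)))
    have hz := sub_mem hc.1 hv.1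
    refine ⟨_, ⟨hz, fun g _ => ZH_D hz (EG w2) (fun g hg P hP => tac_EG D hg hP)
      (fun g hg => ?_) D.fr ?_ g⟩, by rwa [sub_sub_cancel]⟩
    · rw [Pi.sub_apply, rs_of_mem hg.1]
      exact sub_mem (hc.2 g hg) (D.cb_EG2 hg _)
    · have := cb_pair hLS2 D D.fr.1 0 (y / (D.rd D.f2 1 1 - 1))
      rw [map_zero, zero_add, mul_div_cancel₀ _ hb] at this
      rw [Pi.sub_apply, rs_of_mem D.fr.1, e, this, add_sub_add_right_eq_sub]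
      exact sub_mem (pE_mem _) (pE_mem _)
  · obtain ⟨-, P, hP⟩ := hc
    rw [hP g hg.1]
    exact D.cb_EG2 hg P
  · obtain ⟨-, P, tP, hP⟩ := hB
    obtain ⟨x, y, rfl⟩ := tp_iff'.1 tP
    have h4 := hc.2 D.f2 trivial
    rw [hP _ D.fr.1, cb_pair hLS2 D D.fr.1, pEF_mem, norm_mul, h1, ← norm_mul] at h4
    obtain ⟨k, hk⟩ := exists_nat h4
    have h5 : pF y = k • pF (D.nu : ℚ_[2])⁻¹ := by
      rw [← map_nsmul]
      refine pF_congr ?_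
      rw [show y - k • (D.nu : ℚ_[2])⁻¹ = (D.nu * y - k) / D.nu by
        rw [nsmul_eq_mul]; field_simp, norm_div, div_le_one h3]
      exact hk.trans h2
    have hv := rs_cb_B (D := D) (H := w2.D) (tp_pE (x / 2))
    refine ⟨_, ⟨hv.1, fun g _ => ?_⟩, ZH_ext hc.1 (nsmul_mem hv.1 2) fun g hg => ?_⟩
    · by_cases hg : g ∈ w2.D
      · rw [rs_of_mem hg]
        exact sub_mem (tac_EG D hg (pE_mem _)) (pE_mem _)
      · rw [rs_of_not hg]; exact zero_mem _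
    · have h6 : D.cb (pF (D.nu : ℚ_[2])⁻¹) g = 0 := by
        rw [Dat.cb, (hLS2 D g hg).2.2.2.2.2.2.2, sub_self]
      rw [hP g hg, D.cb_add, h5, D.cb_nsmul, h6, smul_zero, add_zero, Pi.smul_apply,
        rs_of_mem hg, ← D.cb_nsmul, ← map_nsmul, nsmul_eq_mul]
      congr 2
      push_cast
      ring

end Pool.Agent.P.MP_9c97e9_nt.KT
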