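import Pool.Agent.P.MP_9c97e9_nt.KT.BasL
import Pool.Agent.P.MP_9c97e9_nt.KT.BasK

/-! Cocycles at two which become ordinary at the top of the cyclotomic tower. -/

namespace Pool.Agent.P.MP_9c97e9_nt.KT

open scoped NNReal Matrix
open MP_8b7eba_nt.R2
open Filter Topology Polynomial

namespace TLO2

variable {D : Dat} {c : GQ → EO} {g h : GQ}

/-- the quotient by the kernel of the reduction -/
noncomputable def pq : EO →+ EO ⧸ EG w2 := QuotientAddGroup.mk' (EG w2)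

theorem pq_zero {P : EO} : pq P = 0 ↔ P ∈ EG w2 := QuotientAddGroup.eq_zero_iff P

theorem pq_eq {P Q : EO} : pq P = pq Q ↔ P - Q ∈ EG w2 := by
  rw [← pq_zero, map_sub, sub_eq_zero]

theorem pq_tac (hg : g ∈ w2.I) (P : EO) : pq (tac D.dl g P) = pq P := pq_eq.2 (D.cb_EG2 hg P)

theorem pq_mul (hc : c ∈ D.ZH w2.D) (hg : g ∈ w2.I) (hh : h ∈ w2.D) :
    pq (c (g * h)) = pq (c g) + pq (c h) := by
  rw [hc.2.1 g hg.1 h hh, map_add, pq_tac hg]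

theorem pq_pow (hc : c ∈ D.ZH w2.D) (hg : g ∈ w2.I) (m : ℕ) :
    pq (c (g ^ m)) = m • pq (c g) := by
  induction m with
  | zero => rw [pow_zero, ZH_one hc, map_zero, zero_smul]
  | succ m ih => rw [pow_succ, pq_mul hc (pow_mem hg m) hg.1, ih, succ_nsmul]

theorem nu_eq (D : Dat) : ∃ j : ℕ, j ≤ 2 ∧ D.nu = 2 ^ j ∧
    (if D.n % 8 = 7 then (4 : ℝ)⁻¹ else 2⁻¹) = (2 ^ j)⁻¹ := by
  unfold Dat.nu
  split_ifs
  · exact ⟨2, le_rfl, rfl, by norm_num⟩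
  · exact ⟨1, by norm_num, rfl, by norm_num⟩

theorem norm_pow2 (j : ℕ) : ‖((2 ^ j : ℕ) : ℚ_[2])‖ = (2 ^ j)⁻¹ := by
  have := Padic.norm_p_pow (p := 2) j
  simpa using this

/-- the values on the inertia group are killed by `nu` -/
theorem bound (hF2X : F2X) (hLS2 : LS2) (hc : c ∈ D.ZE (w2.I ⊓ KI)) (hg : g ∈ w2.I) :
    ∃ m : ℕ, pq (c g) = m • pq (pF (D.nu : ℚ_[2])⁻¹) := by
  have hf : D.f2 ∈ w2.D := D.fr.1
  have h1 : pq (c (D.f2 * g * D.f2⁻¹)) = pq (c g) := by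
    have hk : D.f2 * g * D.f2⁻¹ * g⁻¹ ∈ w2.I := Pl.comm_mem a_FROB hf hg.1
    have := pq_mul hc.1 hk hg.1
    rwa [inv_mul_cancel_right, pq_zero.2 (hc.2 _ ⟨hk, BK.comm_KI _ _⟩), zero_add] at this
  rw [ZH_conj hc.1 hf hg.1, map_sub, pq_zero.2 (D.cb_EG2 (Pl.conj_mem_I hf hg) _), sub_zero] at h1
  obtain ⟨x, y, e⟩ := tp_iff'.1 (ZH_tp hc.1 g)
  obtain ⟨a1, a2, -⟩ := hLS2 D _ hf
  rw [e] at h1 ⊢
  simp only [map_add, a1, a2, pq_zero.2 (pE_mem _), zero_add, add_zero] at h1 ⊢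
  rw [pq_eq, ← map_sub, pF_mem, ← sub_one_mul, norm_mul, (hF2X D).1] at h1
  obtain ⟨j, -, e1, e2⟩ := nu_eq D
  rw [e2, ← norm_pow2, ← norm_mul, ← e1] at h1
  have h0 : (D.nu : ℚ_[2]) ≠ 0 := by rw [e1]; exact_mod_cast (Nat.two_pow_pos j).ne'
  obtain ⟨t, ht⟩ := Ideal.mem_span_singleton.1
    (PadicInt.appr_spec j (⟨D.nu * y, h1⟩ : ℤ_[2]))
  refine ⟨PadicInt.appr (⟨D.nu * y, h1⟩ : ℤ_[2]) j, ?_⟩
  rw [← map_nsmul, ← map_nsmul, pq_eq, ← map_sub, pF_mem]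
  have h2 := congrArg (fun z : ℤ_[2] => (z : ℚ_[2])) ht
  simp only [PadicInt.coe_sub, PadicInt.coe_mul, PadicInt.coe_pow, PadicInt.coe_natCast] at h2
  have h3 : ((2 : ℕ) : ℚ_[2]) ^ j = D.nu := by rw [e1]; push_cast; rfl
  rw [h3] at h2
  have h4 : y - PadicInt.appr (⟨D.nu * y, h1⟩ : ℤ_[2]) j • (D.nu : ℚ_[2])⁻¹ = t := by
    generalize PadicInt.appr (⟨D.nu * y, h1⟩ : ℤ_[2]) j = r at h2
    rw [nsmul_eq_mul]
    field_simp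
    linear_combination h2
  rw [h4]
  exact t.2

theorem nu_smul (D : Dat) : D.nu • pF (D.nu : ℚ_[2])⁻¹ = 0 := by
  obtain ⟨j, -, e1, -⟩ := nu_eq D
  have h0 : (D.nu : ℚ_[2]) ≠ 0 := by rw [e1]; exact_mod_cast (Nat.two_pow_pos j).ne'
  rw [← map_nsmul, pF_eq_zero, nsmul_eq_mul, mul_inv_cancel₀ h0, norm_one]

theorem four_smul (D : Dat) : 2 ^ 2 • pF (D.nu : ℚ_[2])⁻¹ = 0 := by
  obtain ⟨j, hj, e1, -⟩ := nu_eq D
  obtain ⟨k, hk⟩ : D.nu ∣ 2 ^ 2 := e1 ▸ pow_dvd_pow 2 hj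
  rw [hk, mul_comm, mul_smul, nu_smul, smul_zero]

theorem zsmul_mem_iff (D : Dat) (m : ℤ) :
    m • pF (D.nu : ℚ_[2])⁻¹ ∈ EG w2 ↔ (D.nu : ℤ) ∣ m := by
  obtain ⟨j, -, e1, -⟩ := nu_eq D
  have h := Padic.norm_int_le_pow_iff_dvd (p := 2) m j
  rw [← map_zsmul, pF_mem, zsmul_eq_mul, norm_mul, norm_inv, e1, norm_pow2, inv_inv,
    ← le_div_iff₀ (by positivity)]
  simpa using h

/-- the generator -/
noncomputable def gen (D : Dat) : GQ → EO :=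
  rs w2.D fun g => (Ps 2 g).val • pF (D.nu : ℚ_[2])⁻¹

theorem gen_mem (hLS2 : LS2) (D : Dat) : gen D ∈ D.ZE (w2.I ⊓ KI) := by
  refine ⟨rs_mem (((a_LG.2.2.2.1 2).1.1.mono le_top).comp fun a => a.val • pF (D.nu : ℚ_[2])⁻¹)
    (fun g hg h _ => ?_) ⟨2, fun g _ => by rw [smul_comm, four_smul, smul_zero]⟩, fun g hg => ?_⟩
  · rw [map_nsmul, (hLS2 D g hg).2.2.2.2.2.2.2, ← add_smul, BK.Ps_mul, ZMod.val_add,
      ← nsmul_eq_mod_nsmul _ (four_smul D)]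
  · rw [gen, rs_of_mem hg.1.1, BK.Ps_eq_zero.2 (BK.KI_le 2 hg.2), ZMod.val_zero, zero_smul]
    exact zero_mem _

theorem gen_gm (D : Dat) : gen D D.gm = pF (D.nu : ℚ_[2])⁻¹ := by
  have h : Ps 2 D.gm = 1 := by
    have := BK.la_gm D
    rw [la] at this
    rw [Ps, this, map_one]
  rw [gen, rs_of_mem D.gI.1, h, show (1 : ZMod (2 ^ 2)).val = 1 from rfl, one_smul]

theorem close (hF2X : F2X) (hLS2 : LS2) (hc : c ∈ D.ZE (w2.I ⊓ KI)) (h0 : c D.gm ∈ EG w2) :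
    c ∈ D.ZE w2.I := by
  refine ⟨hc.1, fun g hg => ?_⟩
  obtain ⟨j, -, e1, -⟩ := nu_eq D
  obtain ⟨x, hx⟩ := Ideal.mem_span_singleton.1 (PadicInt.appr_spec j (la g))
  obtain ⟨h, hh, hl, -⟩ := BK.surj x
  let U := ZH_sub hc.1 (EG w2) fun g hg P hP => tac_EG D hg hP
  have h1 : h ^ D.nu ∈ U := ⟨(pow_mem hh _).1, by
    obtain ⟨m, hm⟩ := bound hF2X hLS2 hc hh
    rw [← pq_zero, pq_pow hc.1 hh, hm, smul_comm, ← map_nsmul, nu_smul, map_zero, smul_zero]⟩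
  have h2 : D.gm ^ (la g).appr j ∈ U := pow_mem (show D.gm ∈ U from ⟨D.gI.1, h0⟩) _
  have hI : g * (D.gm ^ (la g).appr j * h ^ D.nu)⁻¹ ∈ w2.I :=
    mul_mem hg (inv_mem (mul_mem (pow_mem D.gI _) (pow_mem hh _)))
  have hK : g * (D.gm ^ (la g).appr j * h ^ D.nu)⁻¹ ∈ KI := BK.div_KI (by
    rw [BK.la_mul, BK.la_pow, BK.la_pow, BK.la_gm, hl, e1]
    push_cast at hx ⊢
    linear_combination hx)
  have h3 : g * (D.gm ^ (la g).appr j * h ^ D.nu)⁻¹ ∈ U := ⟨hI.1, hc.2 _ ⟨hI, hK⟩⟩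
  have h4 := mul_mem h3 (mul_mem h2 h1)
  rw [inv_mul_cancel_right] at h4
  exact h4.2

end TLO2

theorem t_LO2 (hF2X : F2X) (hLS2 : LS2) : LO2 := by
  intro D
  have hy := TLO2.gen_mem hLS2 D
  refine ⟨fun c hc => ⟨hc.1, fun g hg => hc.2 g hg.1⟩, TLO2.gen D, hy, fun c hc => ?_,
    fun m => ⟨fun h => ?_, fun h => ?_⟩⟩
  · obtain ⟨m, hm⟩ := TLO2.bound hF2X hLS2 hc D.gI
    refine ⟨m, TLO2.close hF2X hLS2 (sub_mem hc (zsmul_mem hy _)) ?_⟩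
    rw [Pi.sub_apply, Pi.smul_apply, TLO2.gen_gm, ← TLO2.pq_eq, hm, natCast_zsmul, map_nsmul]
  · have := h.2 _ D.gI
    rwa [Pi.smul_apply, TLO2.gen_gm, TLO2.zsmul_mem_iff] at this
  · refine ⟨zsmul_mem hy.1 _, fun g hg => ?_⟩
    rw [Pi.smul_apply, TLO2.gen, rs_of_mem hg.1, smul_comm]
    exact nsmul_mem ((TLO2.zsmul_mem_iff D m).2 h) _

end Pool.Agent.P.MP_9c97e9_nt.KT
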