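import Pool.Agent.P.MP_9c97e9_nt.KT.IfL

/-! Proof of LPR. -/

namespace Pool.Agent.P.MP_9c97e9_nt.KT

open MP_8b7eba_nt.R2

namespace TLPR

variable {Γ : Type} [Group Γ] {a b : Γ} {p : ℕ}

theorem comm1 (h : b * a * b⁻¹ = a ^ p) (m : ℕ) : b * a ^ m = a ^ (p * m) * b := by
  rw [pow_mul, ← h, conj_pow, inv_mul_cancel_right]

theorem comm (h : b * a * b⁻¹ = a ^ p) (j m : ℕ) : b ^ j * a ^ m = a ^ (p ^ j * m) * b ^ j := by
  induction j with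
  | zero => simp
  | succ j ih => rw [pow_succ', mul_assoc, ih, ← mul_assoc, comm1 h, mul_assoc, ← mul_assoc p,
      ← pow_succ' p]

theorem form (h : b * a * b⁻¹ = a ^ p) (y j : ℕ) : ∃ x : ℕ, (a ^ y * b) ^ j = a ^ x * b ^ j := by
  induction j with
  | zero => exact ⟨0, by simp⟩
  | succ j ih =>
    obtain ⟨x, hx⟩ := ih
    refine ⟨y + p * x, ?_⟩
    rw [pow_succ', hx, mul_assoc, ← mul_assoc b, comm1 h, pow_add, pow_succ' b]
    simp only [mul_assoc]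

/-- the action of the decomposition group on the roots of unity -/
theorem act (w : Pl) (h2 : w.p ≠ 2) (K : ℕ) (ζ : Om) (hζ : ζ ^ 2 ^ K = 1)
    (j : GQ → ZMod (2 ^ (K + K))) (hj : IsCh w.D j) (hI : ∀ g ∈ w.I, j g = 0)
    (hF : ∀ f φ, w.IsFrob f φ → j φ = f) : ∀ g ∈ w.D, g ζ = ζ ^ w.p ^ (j g).val := by
  intro g hg
  obtain ⟨f, φ, -, hφ, hf, h1, -, hd⟩ := a_FROB w w.D w.loc_D
  obtain rfl := h1 rfl
  obtain ⟨N, hN, e⟩ := hj.1
  obtain ⟨N', hN', e'⟩ := exists_ON_fix {ζ}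
  obtain ⟨m, i, hi, n, hn, rfl⟩ := hd _ (hN.inf hN') g hg
  have h3 : φ ζ = ζ ^ w.p := a_EC.2.2.1 φ K w.p ζ hζ (by
    rw [a_EC.2.2.2.2.2.1 w 1 φ h2 hf, pow_one, sub_self]
    exact dvd_zero _)
  have h4 : i ζ = ζ := (a_EC.2.2.1 i K 1 ζ hζ (by
    rw [a_EC.2.2.2.2.2.2.1 w h2 i hi.1]
    simp)).trans (pow_one ζ)
  have h5 : ∀ m : ℕ, (φ ^ m) ζ = ζ ^ w.p ^ m := fun m => by
    induction m with
    | zero => simp
    | succ m ih => rw [pow_succ', AlgEquiv.mul_apply, ih, map_pow, h3, ← pow_mul, ← pow_succ']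
  rw [e _ (mul_mem (pow_mem hφ m) hi.2) n hn.2 hn.1.1, hj.2 _ (pow_mem hφ m) i hi.2, hI i hi.1,
    add_zero, hj.pow hφ, hF 1 φ hf, Nat.cast_one, nsmul_one, ZMod.val_natCast,
    AlgEquiv.mul_apply, AlgEquiv.mul_apply, e' ζ (Finset.mem_singleton_self ζ) n hn.1.2, h4, h5,
    pow_eq_pow_mod _ hζ, pow_eq_pow_mod (w.p ^ (m % _)) hζ]
  congr 1
  have h6 : w.p ^ 2 ^ (K + K) ≡ 1 [MOD 2 ^ K] := by
    have hc : w.p.Coprime (2 ^ K) :=
      ((Nat.coprime_primes w.prime Nat.prime_two).2 h2).pow_right K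
    have hd : (2 ^ K).totient ∣ 2 ^ (K + K) := by
      rcases K with _ | K
      · simp
      · rw [Nat.totient_prime_pow_succ Nat.prime_two]
        simpa using pow_dvd_pow 2 (by omega)
    obtain ⟨c, hc'⟩ := hd
    rw [hc', pow_mul]
    simpa using (Nat.ModEq.pow_totient hc).pow c
  conv_lhs => rw [← Nat.div_add_mod m (2 ^ (K + K)), pow_add, pow_mul]
  have h7 := (h6.pow (m / 2 ^ (K + K))).mul_right (w.p ^ (m % 2 ^ (K + K)))
  rw [one_pow, one_mul] at h7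
  exact h7

end TLPR

open TLPR

theorem t_LPR : LPR := by
  intro w t φ Γ _ a b k h2 ht hφ ha hb hab
  have hN : 2 ^ (k + 1) ≠ 0 := by positivity
  replace ha : a ^ 2 ^ (k + 1) = 1 := by rw [pow_succ, pow_mul, ha, one_pow]
  replace hb : b ^ 2 ^ (k + 1) = 1 := by rw [pow_succ, pow_mul, hb, one_pow]
  have : NeZero (2 ^ (k + 1)) := ⟨hN⟩
  obtain ⟨ζ, hζ⟩ := HasEnoughRootsOfUnity.exists_primitiveRoot Om (2 ^ (k + 1))
  obtain ⟨β, hβ⟩ := IsAlgClosed.exists_pow_nat_eq (w.p : Om) (Nat.pos_of_ne_zero hN)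
  have hp : (w.p : Om) ≠ 0 := Nat.cast_ne_zero.2 w.prime.ne_zero
  have hβ0 : β ≠ 0 := fun h => hp (by rw [← hβ, h, zero_pow hN])
  obtain ⟨M, hM⟩ : ∃ M : Om → ℕ, ∀ g : GQ, g β = ζ ^ M (g β) * β :=
    ⟨fun x => Classical.epsilon fun i => x = ζ ^ i * β, fun g => by
      obtain ⟨i, -, hi⟩ := hζ.eq_pow_of_pow_eq_one (ξ := g β / β)
        (by rw [div_pow, ← map_pow, hβ, map_natCast, div_self hp])
      exact Classical.epsilon_spec (p := fun i => g β = ζ ^ i * β)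
        ⟨i, by rw [hi, div_mul_cancel₀ _ hβ0]⟩⟩
  obtain ⟨j, hj, hI, hF⟩ := (a_UCH w (k + 1 + (k + 1))).1
  have hact := act w h2 (k + 1) ζ hζ.pow_eq_one j hj hI hF
  have hodd : (M (t β)).Coprime 2 := by
    rw [Nat.coprime_two_right, ← Nat.not_even_iff_odd]
    rintro ⟨c, hc⟩
    have h3 := ht.2 (β ^ 2 ^ k) (by rw [← pow_mul, ← pow_succ, hβ])
    rw [map_pow, hM, hc, mul_pow, ← pow_mul, ← two_mul, mul_right_comm, ← pow_succ', pow_mul,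
      hζ.pow_eq_one, one_pow, one_mul] at h3
    exact pow_ne_zero _ hβ0 (self_eq_neg.1 h3)
  obtain ⟨r, hr⟩ := exists_pow_eq_self_of_coprime (x := a)
    ((hodd.pow_right (k + 1)).coprime_dvd_right (orderOf_dvd_of_pow_eq_one ha))
  have hA : (a ^ r) ^ 2 ^ (k + 1) = 1 := by rw [← pow_mul, mul_comm, pow_mul, ha, one_pow]
  have hbA : b * a ^ r * b⁻¹ = (a ^ r) ^ w.p := by
    rw [comm1 hab, mul_inv_cancel_right, ← pow_mul, mul_comm]
  obtain ⟨B, hB⟩ : ∃ B, B = (a ^ r) ^ ((2 ^ (k + 1) - 1) * M (φ β)) * b := ⟨_, rfl⟩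
  have hBA : B * a ^ r * B⁻¹ = (a ^ r) ^ w.p := by
    rw [hB, mul_inv_rev, ← mul_assoc, mul_assoc _ b, mul_assoc _ (b * _), hbA, ← pow_add, add_comm,
      pow_add, mul_inv_cancel_right]
  have hBN : B ^ 2 ^ (k + 1 + (k + 1)) = 1 := by
    obtain ⟨x, hx⟩ := form hbA ((2 ^ (k + 1) - 1) * M (φ β)) (2 ^ (k + 1))
    rw [pow_add, pow_mul, hB, hx, hb, mul_one, ← pow_mul, mul_comm, pow_mul, hA, one_pow]
  refine ⟨fun g => (a ^ r) ^ M (g β) * B ^ (j g).val,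
    ((sm_apply β).comp M).comp₂ hj.1 fun m x => (a ^ r) ^ m * B ^ x.val, fun g hg h hh => ?_, ?_, ?_,
    fun g => ?_⟩
  · have h3 : ζ ^ M ((g * h) β) = ζ ^ (M (g β) + w.p ^ (j g).val * M (h β)) := by
      apply mul_right_cancel₀ hβ0
      rw [← hM, AlgEquiv.mul_apply, pow_add ζ, pow_mul ζ, mul_right_comm, ← hM, ← hact g hg,
        ← map_pow, ← map_mul, mul_comm, ← hM]
    rw [(hζ.isOfFinOrder hN).pow_eq_pow_iff_modEq, ← hζ.eq_orderOf] at h3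
    simp only
    rw [hj.2 g hg h hh, ZMod.val_add, ← pow_eq_pow_mod _ hBN, pow_eq_pow_mod _ hA, h3,
      ← pow_eq_pow_mod _ hA, pow_add B, pow_add (a ^ r), mul_assoc, mul_assoc, ← mul_assoc (B ^ _),
      comm hBA, mul_assoc]
  · simp only
    rw [hI t ht.1, ZMod.val_zero, pow_zero, mul_one, ← pow_mul, mul_comm, pow_mul, hr]
  · simp only
    rw [hF 1 φ hφ, ZMod.val_natCast, ← pow_eq_pow_mod _ hBN, pow_one, hB, ← mul_assoc,
      ← pow_add (a ^ r), add_comm, ← Nat.succ_mul, Nat.succ_eq_add_one,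
      Nat.sub_add_cancel (Nat.pos_of_ne_zero hN), pow_mul, hA, one_pow, one_mul]
  · obtain ⟨x, hx⟩ := form hbA ((2 ^ (k + 1) - 1) * M (φ β)) (j g).val
    exact ⟨r * (M (g β) + x), (j g).val, by simp only; rw [hB, hx, pow_mul, pow_add (a ^ r), mul_assoc]⟩

end Pool.Agent.P.MP_9c97e9_nt.KT
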