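import Pool.Agent.P.MP_9c97e9_nt.KT.IfL

/-! The quadratic characters of the decomposition group at two. -/

namespace Pool.Agent.P.MP_9c97e9_nt.KT

open MP_8b7eba_nt.R2

theorem TLQ2.qz_pow {m : ℤ} (hm : m ≠ 0) (a : ℕ) (g : GQ) :
    qz (m ^ a) g = (a : ZMod 2) * qz m g := by
  induction a with
  | zero => simp [qz_one]
  | succ a ih =>
    rw [pow_succ, qz_mul (pow_ne_zero _ hm) hm, Pi.add_apply, ih]
    push_cast
    ring

theorem t_LQ2 : LQ2 := by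
  intro w χ hw h
  by_cases h0 : ∀ g ∈ w.D, χ g = 0
  · exact ⟨0, 0, 0, fun g hg => by simp [h0 g hg]⟩
  push Not at h0
  obtain ⟨t, ht, ht0⟩ := h0
  obtain ⟨U, hU, hk⟩ := h.exists_ker
  have h2 : U.relIndex w.D = 2 := by
    have e : χ '' w.D = Set.univ := Set.eq_univ_of_forall fun a => by
      rcases LA.cases a with rfl | rfl
      exacts [⟨1, one_mem _, h.one⟩, ⟨t, ht, (LA.cases _).resolve_left ht0⟩]
    rw [← Subgroup.inf_relIndex_left, hk.relIndex h, e, Set.ncard_univ, Nat.card_zmod]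
  obtain ⟨β, hb, hf, hm⟩ := (a_GAL w.D w.closed_D).2.2.2.1 U hU h2
  obtain ⟨a, b, c, x, hx, e⟩ := (a_SQ2 w).2.2.2.1 hw _ hf (pow_ne_zero 2 hb)
  have e1 : (x / β) ^ 2 = (((-1) ^ a * 2 ^ b * 5 ^ c : ℤ) : Om) := by
    rw [div_pow, ← e]
    push_cast
    field_simp
  have hx0 : x ≠ 0 := fun e0 => LA.ne e1 (by positivity) (by rw [e0, zero_div])
  refine ⟨a, b, c, fun g hg => ?_⟩
  rw [← TLQ2.qz_pow (by norm_num), ← TLQ2.qz_pow (by norm_num), ← TLQ2.qz_pow (by norm_num),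
    ← Pi.add_apply (qz _) (qz _), ← qz_mul (by positivity) (by positivity),
    ← Pi.add_apply (qz _) (qz _), ← qz_mul (by positivity) (by positivity)]
  refine LA.ext ?_
  rw [qz_eq_zero e1, map_div₀, hx g hg]
  have e4 : χ g = 0 ↔ g ∈ U := ⟨fun k => ((hk g).2 ⟨hg, k⟩).2, fun k => ((hk g).1 ⟨hg, k⟩).2⟩
  rw [e4]
  refine ⟨fun k => by rw [(hm g hg).1 k], fun k => by_contra fun k' => ?_⟩
  rw [(hm g hg).2 k', div_neg, neg_eq_self] at k
  exact div_ne_zero hx0 hb k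

end Pool.Agent.P.MP_9c97e9_nt.KT
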