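import Pool.Agent.P.MP_9c97e9_nt.KT.BasL

/-! The structure of the torsion points at three and five. -/

namespace Pool.Agent.P.MP_9c97e9_nt.KT

open scoped NNReal Matrix
open MP_8b7eba_nt.R2

namespace TLS35

theorem exf {e : V2} (he : ‖e‖ = 1) : ∃ f : V2, ‖f‖ ≤ 1 ∧ dt e f = 1 := by
  have h0 : ‖e 0‖ ≤ 1 := he ▸ norm_le_pi_norm e 0
  have h1 : ‖e 1‖ ≤ 1 := he ▸ norm_le_pi_norm e 1
  rcases h0.eq_or_lt with a | a
  · have n : e 0 ≠ 0 := fun z => by simp [z] at a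
    exact ⟨![0, (e 0)⁻¹], LC.pi (a := 0) (b := (e 0)⁻¹) (by simp) (by simp [a]) rfl rfl,
      by simp [dt, n]⟩
  rcases h1.eq_or_lt with b | b
  · have n : e 1 ≠ 0 := fun z => by simp [z] at b
    exact ⟨![-(e 1)⁻¹, 0], LC.pi (a := -(e 1)⁻¹) (b := 0) (by simp [b]) (by simp) rfl rfl,
      by simp [dt, n]⟩
  · exact absurd ((pi_norm_lt_iff one_pos).2 (Fin.forall_fin_two.2 ⟨a, b⟩)) (by simp [he])

theorem dec {e f : V2} (h : dt e f = 1) (v : V2) : v = dt v f • e + dt e v • f := by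
  rw [dt] at h
  funext i
  fin_cases i <;> simp [dt]
  · linear_combination (-v 0) * h
  · linear_combination (-v 1) * h

theorem d1 {e f : V2} (h : dt e f = 1) (x y : ℚ_[2]) : dt (x • e + y • f) f = x := by
  simp only [dt, Pi.add_apply, Pi.smul_apply, smul_eq_mul] at h ⊢
  linear_combination x * h

theorem d2 {e f : V2} (h : dt e f = 1) (x y : ℚ_[2]) : dt e (x • e + y • f) = y := by
  simp only [dt, Pi.add_apply, Pi.smul_apply, smul_eq_mul] at h ⊢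
  linear_combination y * h

theorem d3 (c : ℚ_[2]) (e v : V2) : dt (c • e) v = c * dt e v := by
  simp only [dt, Pi.smul_apply, smul_eq_mul]; ring

/-- the points on a line -/
noncomputable def ln (e : V2) : ℚ_[2] →+ EO :=
  T2.pt.comp (LinearMap.toSpanSingleton ℚ_[2] V2 e).toAddMonoidHom

theorem ln_eq (e : V2) (x : ℚ_[2]) : ln e x = T2.pt (x • e) := rfl

end TLS35

open TLS35

theorem t_LS35 (hF2X : F2X) : LS35 := by
  intro D w t φ hw ht hφ
  obtain ⟨e, he, -, -, hI, hT, -⟩ := a_UNIP w2 T2 w hw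
  obtain ⟨f, hf, hef⟩ := exf he
  obtain ⟨hd, hφe⟩ := (hF2X D).2.2.2.2.2.2 w hw
  have h2 : w.p ≠ 2 := fun z => by rw [z] at hw; omega
  have rd : ∀ g ∈ w.I, D.rd g = T2.rho g := fun g hg => by
    rw [Dat.rd, Tate.rd, sd_eq_one.2 (hd g hg)]; simp
  obtain ⟨s, hs⟩ := (hI t ht.1).2 f
  obtain ⟨⟨i, j, hij⟩, -⟩ := hT t ht.1 ht.2
  have c1 : cq t = 1 := by rw [cq, a_EC.2.2.2.2.2.2.1 w h2 t ht.1]; simp
  have b1 : ∀ i j, ‖(T2.rho t - 1) i j‖ ≤ 4⁻¹ := fun i j => by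
    have := T2.four t i j
    rwa [c1, ← Matrix.one_fin_two] at this
  have s1 : ‖s‖ ≤ 4⁻¹ := by
    have := LC.mv_le b1 f
    rw [Matrix.sub_mulVec, Matrix.one_mulVec, hs, norm_smul, he, mul_one] at this
    exact this.trans (mul_le_of_le_one_right (by norm_num) hf)
  have s2 : 4⁻¹ ≤ ‖s‖ := by
    have k : (T2.rho t - 1) *ᵥ Pi.single j 1 = (dt e (Pi.single j 1) * s) • e := by
      conv_lhs => rw [dec hef (Pi.single j 1)]
      rw [Matrix.mulVec_add, Matrix.mulVec_smul, Matrix.mulVec_smul, Matrix.sub_mulVec,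
        Matrix.sub_mulVec, Matrix.one_mulVec, Matrix.one_mulVec, (hI t ht.1).1, hs, sub_self,
        smul_zero, zero_add, smul_smul]
    have k2 := congrFun k i
    rw [Matrix.mulVec_single_one, Matrix.col_apply] at k2
    rw [← hij, k2, Pi.smul_apply, smul_eq_mul]
    refine LC.mul_r (LC.mul_l ((dt_norm _ _).trans ?_) le_rfl) (he ▸ norm_le_pi_norm e i)
    rw [he, Pi.norm_single]; simp
  have fe : D.rd φ *ᵥ e = (D.ep w.p * w.p : ℚ_[2]) • e := by
    rw [hφe e φ he (fun g hg => (hI g hg).1) hφ, Dat.ep]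
    split_ifs <;> simp
  have ee : (D.ep w.p : ℚ_[2]) * D.ep w.p = 1 := by
    rw [Dat.ep]; split_ifs <;> simp
  have p0 : (w.p : ℚ_[2]) ≠ 0 := Nat.cast_ne_zero.2 w.prime.ne_zero
  have c2 : cq φ = w.p := by rw [cq, a_EC.2.2.2.2.2.1 w 1 φ h2 hφ]; simp
  have fd : dt e (D.rd φ *ᵥ f) = D.ep w.p := by
    have := T2.dt_rd D.dl φ e f
    rw [hef, c2, show T2.rd D.dl φ = D.rd φ from rfl, fe, d3] at this
    apply mul_left_cancel₀ p0
    linear_combination (D.ep w.p : ℚ_[2]) * this - (w.p * dt e (D.rd φ *ᵥ f)) * ee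
  refine ⟨ln e, ln f, s / 4, dt (D.rd φ *ᵥ f) f, ?_, ?_, fun x y => ?_, fun P => ?_,
    fun g hg x => ?_, fun y => ?_, fun x => ?_, fun y => ?_⟩
  · rw [LC.four, le_antisymm s1 s2]; norm_num
  · exact (dt_norm _ _).trans
      (mul_le_one₀ ((T2.rd_norm D.dl φ f).1.trans hf) (norm_nonneg _) hf)
  · rw [ln_eq, ln_eq, ← map_add, T2.ker]
    refine ⟨fun h => ⟨?_, ?_⟩, fun h => SelA.add ?_ ?_⟩
    · rw [← d1 hef x y]
      exact (dt_norm _ _).trans (mul_le_one₀ h (norm_nonneg _) hf)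
    · rw [← d2 hef x y]
      exact (dt_norm _ _).trans (mul_le_one₀ he.le (norm_nonneg _) h)
    · rw [norm_smul]; exact mul_le_one₀ h.1 (norm_nonneg _) he.le
    · rw [norm_smul]; exact mul_le_one₀ h.2 (norm_nonneg _) hf
  · refine tp_iff.trans ⟨fun ⟨v, h⟩ => ⟨dt v f, dt e v, ?_⟩, fun ⟨x, y, h⟩ => ⟨x • e + y • f, ?_⟩⟩
    · rw [ln_eq, ln_eq, ← map_add, ← dec hef, h]
    · rw [h, map_add, ln_eq, ln_eq]
  · rw [ln_eq, D.tgal, rd g hg, Matrix.mulVec_smul, (hI g hg).1]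
  · rw [ln_eq, ln_eq, D.tgal, rd t ht.1, Matrix.mulVec_smul, ← map_add, eq_add_of_sub_eq' hs,
      smul_add, smul_smul, show 4 * (s / 4) * y = y * s by ring]
  · rw [ln_eq, ln_eq, D.tgal, Matrix.mulVec_smul, fe, smul_smul, mul_comm]
  · rw [ln_eq, ln_eq, ln_eq, D.tgal, Matrix.mulVec_smul, ← map_add]
    conv_lhs => rw [dec hef (D.rd φ *ᵥ f), fd]
    rw [smul_add, smul_smul, smul_smul, add_comm, mul_comm y, mul_comm y]

end Pool.Agent.P.MP_9c97e9_nt.KT
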