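import Pool.Agent.P.MP_9c97e9_nt.KT.BasL

/-! The model of the twist and its rational points. -/

namespace Pool.Agent.P.MP_9c97e9_nt.KT

open scoped NNReal Matrix
open MP_8b7eba_nt.R2
open Filter Topology Polynomial

namespace TLSF

attribute [local instance 10000] All.g3_dec

open Classical in
theorem iso (D : Dat) : ∃ ι, D.Eqv ι := by
  have hn : (D.n : Om) ≠ 0 := Nat.cast_ne_zero.2 D.n_pos.ne'
  have h0 : D.dl ≠ 0 := fun e => hn (by simpa [e] using D.hdl.symm)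
  have hs : Split (tw D.n) ((D.dl / 2) ^ 2 * 0 + 0) ((D.dl / 2) ^ 2 * -9 + 0)
      ((D.dl / 2) ^ 2 * 16 + (0 : Om)) := by
    convert split_tw D.n4 Om using 1
    · ring
    · linear_combination -9 / 4 * D.hdl
    · linear_combination 4 * D.hdl
  obtain ⟨ι, bij, hι⟩ := TSHA.exists_iso split15 hs (div_ne_zero h0 two_ne_zero)
  refine ⟨AddEquiv.ofBijective ι bij, fun g P => ?_⟩
  change pm (tw D.n) g (ι P) = ι (tac D.dl g P)
  rcases zero_or_is P with rfl | ⟨x, η, hP⟩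
  · simp
  have h1 := (hι _ _ _ hP).map (K := Om) g
  have h2 := sd_apply D.dl_fix g
  have h3 := is_ac g hP
  refine h1.unique hs ?_
  rw [tac_apply]
  rcases sd_cases D.dl g with e | e <;> rw [e] at h2 ⊢
  · convert hι _ _ _ h3 using 1 <;> simp [h2, map_ofNat]
  · rw [neg_smul, one_smul]
    convert hι _ _ _ h3.neg using 1
    · simp [h2, map_ofNat, neg_div]
    · simp [h2, map_ofNat]
      ring

theorem rat {n : ℕ} (h4 : n % 4 = 3) {P : Pt (tw n) Om}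
    (h : ∀ g : GQ, pm (tw n) (g : Om →+* Om) P = P) :
    ∃ Q : Pt (tw n) ℚ, pm (tw n) (algebraMap ℚ Om) Q = P := by
  rcases zero_or_is P with rfl | ⟨X, H, h1⟩
  · exact ⟨0, rfl⟩
  have h2 : ∀ g : GQ, g X = X ∧ g H = H := fun g => by
    have := h1.map (K := Om) g
    rw [h g] at this
    exact this.inj h1
  obtain ⟨a, rfl⟩ := of_fixed fun g => (h2 g).1
  obtain ⟨b, rfl⟩ := of_fixed fun g => (h2 g).2
  have hs := (split_tw h4 ℚ).map (algebraMap ℚ Om)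
  obtain ⟨Q, hQ⟩ := (split_tw h4 ℚ).exists_is (x := a) (η := b) ((algebraMap ℚ Om).injective (by
    rw [map_pow, h1.eq hs]
    simp only [map_mul, map_sub, map_ofNat]))
  exact ⟨Q, (hQ.map _).unique hs h1⟩

theorem fixed {n : ℕ} (Q : Pt (tw n) ℚ) (g : GQ) :
    pm (tw n) (g : Om →+* Om) (pm (tw n) (algebraMap ℚ Om) Q) = pm (tw n) (algebraMap ℚ Om) Q := by
  rw [pm_pm, Subsingleton.elim ((g : Om →+* Om).comp _) (algebraMap ℚ Om)]

theorem fin {n : ℕ} (h4 : n % 4 = 3)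
    (H : ∀ P : Pt (tw n) ℚ, ∃ T R, T + T = 0 ∧ P = T + (R + R)) : Finite (Pt (tw n) ℚ) := by
  refine All.g3_mpr h4 fun d₂ d₃ h2 _ hL => ?_
  have h := split_tw h4 ℚ
  rcases hL with ⟨s1, s2⟩ | ⟨x, w₁, w₂, w₃, e1, e2, e3⟩
  · exact ⟨.inl s2, .inl (All.g3_sq s1 s2 h2)⟩
  obtain ⟨P, hP⟩ := h.exists_is (x := x) (η := 2 * d₂ ^ 2 * d₃ * w₁ * w₂ * w₃) (by
    rw [e1, e2, e3]; ring)
  have s2 : IsSquare (d₂ * dl (9 * n / 4 : ℚ) 0 (-4 * n) P) := by
    by_cases hx : x = 9 * n / 4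
    · subst hx
      rw [hP.dl_eq, e1, e3]
      exact ⟨d₂ ^ 2 * d₃ * w₁ * w₃, by ring⟩
    · rw [hP.dl_ne (sub_ne_zero.2 hx), e2]
      exact ⟨d₂ * w₂, by ring⟩
  have s3 : IsSquare (d₃ * dl (-4 * n : ℚ) 0 (9 * n / 4) P) := by
    by_cases hx : x = -4 * n
    · subst hx
      rw [hP.dl_eq, e1, e2]
      exact ⟨d₂ * d₃ * w₁ * w₂, by ring⟩
    · rw [hP.dl_ne (sub_ne_zero.2 hx), e3]
      exact ⟨d₂ * d₃ * w₃, by ring⟩
  obtain ⟨T, R, hT, e⟩ := H P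
  have key : ∀ {a b c : ℚ}, Split (tw n) a b c → IsSquare (dl a b c T * dl a b c P) :=
    fun {a b c} hs => by
      have k1 := All.g3_sq (dl_add hs R R) (IsSquare.mul_self _)
        (mul_ne_zero (dl_ne_zero hs _) (dl_ne_zero hs _))
      have k2 := dl_add hs T (R + R)
      rw [← e, mul_comm (dl a b c T), mul_assoc] at k2
      exact All.g3_sq k2 k1 (dl_ne_zero hs _)
  exact All.g3_tor h4 hT (All.g3_sq' s2 (key h.swap) (dl_ne_zero h.swap P))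
    (All.g3_sq' s3 (key h.swap'.swap) (dl_ne_zero h.swap'.swap P))

theorem half (hF : F2X) (D : Dat) (h : D.SelN.Finite) {P : EO} (hP : ∀ g, tac D.dl g P = P) :
    ∃ R, (∀ g, tac D.dl g R = R) ∧ 2 • (P - 2 • R) = 0 := by
  have h1 : ∀ c : GQ → EO, ∃ i : ℕ, c ∈ D.SelN → ∀ g, 2 ^ i • c g = 0 := fun c => by
    by_cases hc : c ∈ D.SelN
    · exact hc.1.tor.imp fun i e _ => e
    · exact ⟨0, fun e => absurd e hc⟩
  choose f hf using h1
  obtain ⟨j, hj⟩ := (h.image f).bddAbove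
  obtain ⟨Q, rfl⟩ := exists_div P (j + 1)
  have h2 : ∀ g, 2 ^ (j + 1) • D.cb Q g = 0 := fun g => by
    rw [← D.cb_nsmul, Dat.cb, hP, sub_self]
  obtain ⟨T, hT⟩ := exists_two (D.cb Q D.z)
  have tT : Tp T := Tp.of_two (hT ▸ ⟨_, h2 _⟩)
  obtain ⟨l, hl⟩ := id tT
  have h3 : D.cb (Q + T) ∈ D.SelN :=
    ⟨⟨D.sm_cb _ _, D.cb_mul _, ⟨j + 1 + l, fun g => by
      rw [D.cb_add, smul_add, pow_add, mul_smul _ _ (D.cb T g), ← D.cb_nsmul _ T, hl, D.cb_zero,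
        mul_comm, mul_smul, h2]
      simp⟩, fun _ => ⟨_, fun _ _ => rfl⟩⟩,
    by rw [D.cb_add, D.cb_z hF tT, hT, add_neg_cancel], _, rfl⟩
  have h4 : ∀ g, tac D.dl g (2 ^ j • (Q + T)) = 2 ^ j • (Q + T) := fun g => by
    obtain ⟨m, hm⟩ := Nat.exists_eq_add_of_le' (hj ⟨_, h3, rfl⟩)
    rw [← sub_eq_zero, ← Dat.cb, D.cb_nsmul, hm, pow_add, mul_smul, hf _ h3, smul_zero]
  refine ⟨_, h4, ?_⟩
  have h5 : Tp (2 ^ (j + 1) • Q - 2 • 2 ^ j • (Q + T)) := by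
    rw [smul_smul, ← pow_succ', smul_add, sub_add_cancel_left]
    exact (tT.nsmul _).neg
  have h6 := D.tac_z hF h5
  rw [map_sub, hP, map_nsmul, h4] at h6
  rw [two_nsmul, ← eq_neg_iff_add_eq_zero]
  exact h6

end TLSF

attribute [local instance 10000] All.g3_dec

open TLSF Classical in
theorem t_LSF (hF2X : F2X) : LSF := by
  intro D
  obtain ⟨ι, hι⟩ := iso D
  have down : ∀ P : EO, (∀ g, tac D.dl g P = P) →
      ∃ Q : Pt (tw D.n) ℚ, pm (tw D.n) (algebraMap ℚ Om) Q = ι P := fun P hP =>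
    rat D.n4 fun g => by rw [hι, hP]
  refine ⟨⟨ι, hι⟩, fun h => fin D.n4 fun P₀ => ?_, fun hf c hc P hP => ?_⟩
  · obtain ⟨P, hP⟩ := ι.surjective (pm (tw D.n) (algebraMap ℚ Om) P₀)
    obtain ⟨R, h1, h2⟩ := half hF2X D h (P := P) fun g => ι.injective (by
      rw [← hι, hP, fixed])
    obtain ⟨R₀, hR⟩ := down R h1
    refine ⟨_, R₀, ?_, (sub_add_cancel _ _).symm⟩
    apply pm_injective (algebraMap ℚ Om)
    rw [map_add, map_sub, map_add, hR, ← hP, ← map_add, ← map_sub, ← map_add, ← two_nsmul,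
      ← two_nsmul, h2, map_zero, map_zero]
  · obtain ⟨i, hi⟩ := hc.1.tor
    obtain ⟨Q, hQ⟩ := down (2 ^ i • P) fun g => by
      rw [← sub_eq_zero, ← Dat.cb, D.cb_nsmul, ← hP, hi]
    have h1 : IsOfFinAddOrder P := by
      have h2 := (pm (tw D.n) (algebraMap ℚ Om)).isOfFinAddOrder
        (@isOfFinAddOrder_of_finite _ (_) hf Q)
      rw [hQ] at h2
      obtain ⟨m, hm, h3⟩ := h2.exists_nsmul_eq_zero
      exact isOfFinAddOrder_iff_nsmul_eq_zero.2 ⟨m * 2 ^ i, by positivity, ι.injective (by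
        rw [mul_smul, map_nsmul, h3, map_zero])⟩
    obtain ⟨P₁, P₂, k, m, hm, h2, h3, rfl⟩ := exists_split h1
    have h4 : ∀ g, D.cb P₂ g = 0 := fun g => by
      have a : m • D.cb P₂ g = 0 := by rw [← D.cb_nsmul, h3, D.cb_zero]
      have b : 2 ^ (i + k) • D.cb P₂ g = 0 := by
        rw [show D.cb P₂ g = c g - D.cb P₁ g by rw [hP, D.cb_add, add_sub_cancel_left], smul_sub,
          pow_add, mul_smul _ _ (D.cb P₁ g), ← D.cb_nsmul _ P₁, h2, D.cb_zero, mul_comm, mul_smul,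
          hi]
        simp
      exact AddMonoid.addOrderOf_eq_one_iff.1 (Nat.eq_one_of_dvd_coprimes
        (Nat.Coprime.pow_left _ (Nat.coprime_two_left.2 hm)) (addOrderOf_dvd_of_nsmul_eq_zero b)
        (addOrderOf_dvd_of_nsmul_eq_zero a))
    have h5 := hc.2.1
    rw [hP, D.cb_add, h4, add_zero, D.cb_z hF2X ⟨k, h2⟩, neg_eq_zero] at h5
    funext g
    rw [hP, D.cb_add, h4, D.cb_two h5, add_zero, Pi.zero_apply]

end Pool.Agent.P.MP_9c97e9_nt.KT
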