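import Pool.Agent.P.MP_9c97e9_nt.KT.BasL

/-! Existence of local cocycles with given values at the two generators. -/

namespace Pool.Agent.P.MP_9c97e9_nt.KT

open scoped NNReal Matrix
open MP_8b7eba_nt.R2
open Filter Topology

namespace TLTZ

/-- the points killed by `2 ^ i` -/
noncomputable def A (i : ℕ) : AddSubgroup EO := (nsmulAddMonoidHom (2 ^ i) : EO →+ EO).ker

variable {i : ℕ} {D : Dat} {g : GQ} {σ : Equiv.Perm (A i)}

theorem tA (D : Dat) (g : GQ) (P : A i) : tac D.dl g P ∈ A i := by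
  change 2 ^ i • tac D.dl g P = 0
  rw [← map_nsmul, show 2 ^ i • (P : EO) = 0 from P.2, map_zero]

/-- an affine permutation -/
noncomputable def af (D : Dat) (g : GQ) (e : A i) : Equiv.Perm (A i) where
  toFun x := ⟨tac D.dl g x, tA D g x⟩ + e
  invFun x := ⟨tac D.dl g⁻¹ (x - e : A i), tA D _ _⟩
  left_inv x := Subtype.ext (by simp [← D.tmul, tac_one])
  right_inv x := Subtype.ext (by simp [← D.tmul, tac_one])

/-- affine permutations with their linear parts -/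
noncomputable def S (D : Dat) (i : ℕ) : Subgroup (GQ × Equiv.Perm (A i)) where
  carrier := {q | ∀ x : A i, (q.2 x : EO) = tac D.dl q.1 x + q.2 0}
  one_mem' x := by simp [tac_one]
  mul_mem' := fun {p q} a b x => by
    simp only [Prod.snd_mul, Prod.fst_mul, Equiv.Perm.mul_apply]
    rw [a, b, a (q.2 0), D.tmul, map_add, add_assoc]
  inv_mem' := fun {q} a x => by
    have h1 := a (q.2⁻¹ x)
    have h2 := a (q.2⁻¹ 0)
    rw [← Equiv.Perm.mul_apply, mul_inv_cancel, Equiv.Perm.one_apply] at h1 h2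
    have h3 : (x : EO) = tac D.dl q.1 ((q.2⁻¹ x : A i) - (q.2⁻¹ 0 : A i)) := by
      rw [map_sub, h1, eq_neg_of_add_eq_zero_left h2.symm, sub_neg_eq_add]
    simp only [Prod.snd_inv, Prod.fst_inv]
    rw [h3, ← D.tmul, inv_mul_cancel, tac_one, sub_add_cancel]

theorem apS (h : (g, σ) ∈ S D i) (x : A i) : (σ x : EO) = tac D.dl g x + σ 0 := h x

theorem pw (h : (g, σ) ∈ S D i) (m : ℕ) : (g ^ m, σ ^ m) ∈ S D i := pow_mem h m

theorem af_zero (e : A i) : (af D g e 0 : EO) = e := by simp [af]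

theorem af_mem (e : A i) : (g, af D g e) ∈ S D i := fun x => by rw [af_zero]; rfl

/-- the elements which fix the points killed by `2 ^ i` -/
noncomputable def K (D : Dat) (i : ℕ) : Subgroup GQ := (S D i).comap (MonoidHom.inl _ _)

theorem mem_K : g ∈ K D i ↔ ∀ x : A i, tac D.dl g x = x :=
  forall_congr' fun x => by simp [eq_comm]

theorem pow0 (h : (g, σ) ∈ S D i) (m : ℕ) :
    ((σ ^ m) 0 : EO) = ∑ j ∈ Finset.range m, tac D.dl (g ^ j) (σ 0 : A i) := by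
  induction m with
  | zero => simp
  | succ m ih =>
    rw [pow_succ, Equiv.Perm.mul_apply, Finset.sum_range_succ, ← ih, add_comm]
    exact pow_mem h m (σ 0)

theorem ord (h : (g, σ) ∈ S D i) : ∃ k : ℕ, σ ^ 2 ^ k = 1 := by
  obtain ⟨k, hk⟩ := D.exists_pow g i
  have h1 : g ^ 2 ^ k ∈ K D i := mem_K.2 fun x => hk x x.2
  have h2 : (g ^ 2 ^ k, σ ^ 2 ^ k) ∈ S D i := pow_mem h _
  refine ⟨k + i, Equiv.ext fun x => Subtype.ext ?_⟩
  rw [pow_add, pow_mul]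
  refine (pow_mem h2 (2 ^ i) x).trans ?_
  simp only [Prod.pow_fst, Prod.pow_snd, pow0 h2, fun j => mem_K.1 (pow_mem h1 j),
    Finset.sum_const, Finset.card_range]
  exact (congrArg _ ((σ ^ 2 ^ k) 0).2).trans (add_zero _)

theorem odd_mem {G : Type} [Group G] (U : Subgroup G) {x : G} {r k : ℕ} (hr : Odd r)
    (h1 : x ^ r ∈ U) (h2 : x ^ 2 ^ k ∈ U) : x ∈ U := by
  obtain ⟨a, b, e⟩ := Nat.isCoprime_iff_coprime.2 ((Nat.coprime_two_right.2 hr).pow_right k)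
  have := mul_mem (zpow_mem h1 a) (zpow_mem h2 b)
  rwa [← zpow_natCast, ← zpow_natCast, ← zpow_mul, ← zpow_mul, ← zpow_add, mul_comm, mul_comm _ b,
    e, zpow_one] at this

theorem odd_K {r : ℕ} (hr : Odd r) (h : g ^ r ∈ K D i) : g ∈ K D i := by
  obtain ⟨k, hk⟩ := D.exists_pow g i
  exact odd_mem _ hr h (k := k) (mem_K.2 fun x => hk x x.2)

end TLTZ

open TLTZ

theorem t_LTZ (hLPR : LPR) (hLTU : LTU) : LTZ := by
  intro D w t φ h2 ht hφ a b ⟨i, hi⟩ ⟨j, hj⟩ e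
  have ha : a ∈ A (i + j) := by
    change 2 ^ (i + j) • a = 0
    rw [pow_add, mul_comm, mul_smul, hi, smul_zero]
  have hb : b ∈ A (i + j) := by
    change 2 ^ (i + j) • b = 0
    rw [pow_add, mul_smul, hj, smul_zero]
  have m1 := af_mem (D := D) (g := t) ⟨a, ha⟩
  have m2 := af_mem (D := D) (g := φ) ⟨b, hb⟩
  have z1 := af_zero (D := D) (g := t) ⟨a, ha⟩
  have z2 := af_zero (D := D) (g := φ) ⟨b, hb⟩
  generalize af D t ⟨a, ha⟩ = α at m1 z1
  generalize af D φ ⟨b, hb⟩ = β at m2 z2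
  obtain ⟨N₀, hN₀, f0⟩ := D.exists_ON (i + j)
  have f1 : N₀ ≤ K D (i + j) := fun g hg => mem_K.2 fun x => f0 g hg x x.2
  have tm := fun N hN => a_TAME2 w _ w.p t h2 w.loc_D
    (by rw [inf_eq_left.2 w.I_le_D]; exact (a_RES _ _ w.loc_D).2.2.2.2.1) ⟨ht.1, ht.1.1⟩ ht.2 N hN
  obtain ⟨k, hk⟩ := ord m1
  obtain ⟨k', hk'⟩ := ord m2
  obtain ⟨F, ⟨N₁, hN₁, sF⟩, mF, Ft, Fφ, Fg⟩ := hLPR w t φ _ α β (k + k') h2 ht hφ
    (by rw [pow_add, pow_mul, hk, one_pow]) (by rw [pow_add, mul_comm, pow_mul, hk', one_pow]) (by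
      obtain ⟨r, hr, h⟩ := (tm N₀ hN₀).2 1 φ hφ (map_natCast _ _)
        fun g hg => mul_mem (mul_mem hφ.1 hg) (inv_mem hφ.1)
      rw [pow_one] at h
      refine mul_inv_eq_iff_eq_mul.2 (Equiv.ext fun x => Subtype.ext ?_)
      have h3 : tac D.dl _ (tac D.dl _ _) = tac D.dl _ _ :=
        mem_K.1 (odd_K hr (f1 h)) ⟨_, tA D (t ^ w.p * φ) x⟩
      rw [← D.tmul, show φ * t * φ⁻¹ * (t ^ w.p)⁻¹ * (t ^ w.p * φ) = φ * t by group] at h3
      refine (mul_mem m2 m1 x).trans (Eq.trans ?_ (mul_mem (pow_mem m1 w.p) m2 x).symm)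
      simp only [Prod.fst_mul, Prod.snd_mul, Prod.pow_fst, Prod.pow_snd, Equiv.Perm.mul_apply]
      rw [apS m2 (α 0), apS (pw m1 w.p) (β 0), pow0 m1, z1, z2, h3, add_right_inj,
        sub_eq_iff_eq_add.1 e]
      abel)
  have F1 : F 1 = 1 := by simpa using mF 1 (one_mem _) 1 (one_mem _)
  have FN : ∀ g ∈ w.D, g ∈ N₁ → F g = 1 := fun g hg hn => by
    rw [← one_mul g, sF 1 (one_mem _) g hg hn, F1]
  have Fp : ∀ g ∈ w.D, ∀ m : ℕ, F (g ^ m) = F g ^ m := fun g hg m => by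
    induction m with
    | zero => simpa using F1
    | succ m ih => rw [pow_succ, mF _ (pow_mem hg m) g hg, ih, pow_succ]
  let U : Subgroup GQ :=
    { carrier := {g | g ∈ w.D ∧ (g, F g) ∈ S D (i + j)}
      one_mem' := ⟨one_mem _, by rw [F1]; exact one_mem _⟩
      mul_mem' := fun {g h} x y => ⟨mul_mem x.1 y.1, by rw [mF g x.1 h y.1]; exact mul_mem x.2 y.2⟩
      inv_mem' := fun {g} x => ⟨inv_mem x.1, by
        have := mF g x.1 _ (inv_mem x.1)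
        rw [mul_inv_cancel, F1] at this
        rw [← inv_eq_of_mul_eq_one_right this.symm]
        exact inv_mem x.2⟩ }
  have hU : ∀ g ∈ w.D, ∀ r : ℕ, Odd r → g ^ r ∈ N₀ ⊓ N₁ → g ∈ U := fun g hg r hr h => by
    obtain ⟨m, n, e1⟩ := Fg g
    obtain ⟨l, hl⟩ := ord (g := t ^ m * φ ^ n) (σ := F g)
      (by rw [e1]; exact mul_mem (pw m1 m) (pw m2 n))
    have : F g = 1 := odd_mem ⊥ hr (by rw [← Fp g hg]; exact FN _ (pow_mem hg r) h.2) hl
    exact ⟨hg, by rw [this]; exact odd_K hr (f1 h.1)⟩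
  have hD : w.D ≤ U := D_le (hN₀.inf hN₁) (fun g hg hn => hU g hg 1 odd_one (by rwa [pow_one]))
    (fun g hg => by
      obtain ⟨m, r, hr, h⟩ := (tm _ (hN₀.inf hN₁)).1 g ⟨hg, hg.1⟩
      simpa using mul_mem (hU _ (mul_mem hg.1 (inv_mem (pow_mem ht.1.1 m))) r hr h)
        (pow_mem (show t ∈ U from ⟨ht.1.1, Ft ▸ m1⟩) m)) hφ ⟨hφ.1, Fφ ▸ m2⟩
  refine ⟨rs w.D fun g => F g 0, rs_mem (Sm.comp ⟨N₁, hN₁, sF⟩ fun σ => (σ 0 : EO))
    (fun g hg h hh => ?_) ⟨i + j, fun g _ => (F g 0).2⟩, ?_, ?_⟩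
  · rw [mF g hg h hh]
    exact ((hD hg).2 (F h 0)).trans (add_comm _ _)
  · rw [rs_of_mem ht.1.1, Ft, z1]
  · rw [rs_of_mem hφ.1, Fφ, z2]

end Pool.Agent.P.MP_9c97e9_nt.KT
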