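import Pool.Agent.P.MP_9c97e9_nt.KT.TCASX
import Pool.Agent.P.MP_9c97e9_nt.KT.TSHAX
import Pool.Agent.P.MP_9c97e9_nt.KT.TDEC
import Pool.Agent.P.MP_9c97e9_nt.KT.TLABS
import Pool.Agent.P.MP_9c97e9_nt.KT.TLCY
import Pool.Agent.P.MP_9c97e9_nt.KT.TLPR
import Pool.Agent.P.MP_9c97e9_nt.KT.TLAP
import Pool.Agent.P.MP_9c97e9_nt.KT.TLAL
import Pool.Agent.P.MP_9c97e9_nt.KT.TLQ2
import Pool.Agent.P.MP_9c97e9_nt.KT.TLTU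
import Pool.Agent.P.MP_9c97e9_nt.KT.TLTZ
import Pool.Agent.P.MP_9c97e9_nt.KT.TLN
import Pool.Agent.P.MP_9c97e9_nt.KT.TLS35
import Pool.Agent.P.MP_9c97e9_nt.KT.TL35
import Pool.Agent.P.MP_9c97e9_nt.KT.TLK35
import Pool.Agent.P.MP_9c97e9_nt.KT.TLS2
import Pool.Agent.P.MP_9c97e9_nt.KT.TLO1
import Pool.Agent.P.MP_9c97e9_nt.KT.TLO2
import Pool.Agent.P.MP_9c97e9_nt.KT.TLK5
import Pool.Agent.P.MP_9c97e9_nt.KT.TLYY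
import Pool.Agent.P.MP_9c97e9_nt.KT.TLO3
import Pool.Agent.P.MP_9c97e9_nt.KT.TLD1
import Pool.Agent.P.MP_9c97e9_nt.KT.TLD2
import Pool.Agent.P.MP_9c97e9_nt.KT.TLCN
import Pool.Agent.P.MP_9c97e9_nt.KT.TLKE
import Pool.Agent.P.MP_9c97e9_nt.KT.TLSM
import Pool.Agent.P.MP_9c97e9_nt.KT.TLSF

/-! The chapter L of the project KT. -/

namespace Pool.Agent.P.MP_9c97e9_nt.KT

theorem a_CASX (_ : BAS) (hF : F2X) : CASX :=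
  t_CASX t_LABS t_LCY (t_LN t_LTU) (t_L35 t_LCY t_LTU (t_LTZ t_LPR t_LTU) (t_LS35 hF))
    (t_LK35 t_LTU (t_LS35 hF)) (t_LO2 hF (t_LS2 hF))
    (t_LO3 t_LCY (t_LS2 hF) t_LQ2 (t_LO1 hF (t_LS2 hF)) t_LK5 (t_LYY (t_LS2 hF))) t_LD1
    (t_LD2 hF t_LQ2) t_LCN t_LKE

theorem a_SHAX (_ : BAS) (hF : F2X) : SHAX :=
  t_SHAX t_LKE (t_LSM hF t_DEC t_LAP t_LAL) (t_LSF hF)

end Pool.Agent.P.MP_9c97e9_nt.KT
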