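import Pool.Agent.P.MP_9c97e9_nt.KT.Top

/-! Assembly of the chapters of the project KT. -/

namespace Pool.Agent.P.MP_9c97e9_nt.KT

open MP_8b7eba_nt.R2 Polynomial

namespace TMAIN

theorem norm_two : ‖(2 : ℚ_[2])‖ = 2⁻¹ := by
  have := Padic.norm_p (p := 2)
  simpa using this

theorem norm_add_two {a : ℚ_[2]} (h1 : ‖a‖ = 1) : ‖a + 2‖ = 1 := by
  rw [Padic.add_eq_max_of_ne (by rw [h1, norm_two]; norm_num), h1, norm_two]
  norm_num

theorem norm_sub {a : ℚ_[2]} (h1 : ‖a‖ = 1) (h2 : a ^ 2 + a + 2 = 0) : ‖1 - 1 / a‖ = 4⁻¹ := by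
  have ha : a ≠ 0 := fun h => by simp [h] at h1
  have h3 : (1 - 1 / a) * a * (a + 2) = -(2 * 2) := by
    field_simp
    linear_combination h2
  have h4 := congrArg norm h3
  rw [norm_mul, norm_mul, h1, norm_add_two h1, norm_neg, norm_mul, norm_two] at h4
  linarith

theorem norm_add {a : ℚ_[2]} (h1 : ‖a‖ = 1) (h2 : a ^ 2 + a + 2 = 0) : ‖1 - -1 / a‖ = 2⁻¹ := by
  have ha : a ≠ 0 := fun h => by simp [h] at h1
  have h3 : (1 - -1 / a) * a * a = -2 := by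
    field_simp
    linear_combination h2
  have h4 := congrArg norm h3
  rw [norm_mul, norm_mul, h1, norm_neg, norm_two] at h4
  linarith

theorem norm_eps {a : ℚ_[2]} (h1 : ‖a‖ = 1) (h2 : a ^ 2 + a + 2 = 0) {n : ℕ} (h4 : n % 4 = 3) :
    ‖(1 - jacobiSym 2 n / a) ^ 2‖ * (if n % 8 = 7 then 16 else 4) = 1 := by
  have ho : Odd n := Nat.odd_iff.2 (by omega)
  rw [jacobiSym.at_two ho, ZMod.χ₈_nat_eq_if_mod_eight, if_neg (by omega), norm_pow]
  by_cases h : n % 8 = 7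
  · rw [if_pos (.inr h), if_pos h, Int.cast_one, norm_sub h1 h2]
    norm_num
  · rw [if_neg (by omega), if_neg h, Int.cast_neg, Int.cast_one, norm_add h1 h2]
    norm_num

theorem norm_TP (n : ℕ) : ‖(All.TP n : ℚ_[2])‖ * All.TP n = 1 := by
  have h4 : ‖(4 : ℚ_[2])‖ = 4⁻¹ := by
    rw [show (4 : ℚ_[2]) = 2 * 2 by norm_num, norm_mul, norm_two]
    norm_num
  have h5 : ((4 : ℝ)⁻¹) ^ n.primeFactors.card * 4 ^ n.primeFactors.card = 1 := by
    rw [← mul_pow]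
    norm_num
  unfold All.TP
  split_ifs <;> push_cast <;>
    simp only [norm_mul, norm_pow, h4, norm_two, norm_one] <;> linarith

theorem norm_nat {m : ℕ} (hm : m ≠ 0) : ‖(m : ℚ_[2])‖ * 2 ^ padicValNat 2 m = 1 := by
  rw [Padic.norm_eq_zpow_neg_valuation (by exact_mod_cast hm), Padic.valuation_natCast,
    zpow_neg, zpow_natCast]
  push_cast
  field_simp

theorem norm_odd {t : ℕ} (ht : Odd t) : ‖(t : ℚ_[2])‖ = 1 := by
  have h := norm_nat ht.pos.ne'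
  rwa [padicValNat.eq_zero_of_not_dvd (by have := Nat.odd_iff.1 ht; omega), pow_zero, mul_one] at h

end TMAIN

open TMAIN in
theorem t_MAIN (hBAS : BAS) (hF2X : F2X) (hESX : ESX) (hUBX : UBX) (hIWX : IWX) (hCASX : CASX)
    (hSHAX : SHAX) (hANA : ANA) (hTOPX : TOPX) : MAIN := by
  intro n hn h4 h15
  obtain ⟨⟨ha1, ha2⟩, -, -, hD⟩ := hBAS
  obtain ⟨D, rfl⟩ := hD n hn h4 h15
  obtain ⟨z, hz1, hz2⟩ := hESX D
  obtain ⟨F, hF1, hF2, hF3, hF4⟩ := hIWX D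
  obtain ⟨hA1, hA2, hA3⟩ := hANA D
  obtain ⟨hT1, hT2⟩ := hTOPX D F _ _ (hUBX D z hz1 hz2) hF1 hF2 hF3 hA1 hA2 hA3
  obtain ⟨hS1, hS2⟩ := hF4 hT1
  obtain ⟨hC1, hC2⟩ := hCASX D
  obtain ⟨hH1, hH2⟩ := hSHAX D
  obtain ⟨h1, L, h2, h3⟩ := All.aL All.mLS D.n hn h4
  obtain ⟨v, hv, -⟩ := All.sV D.n hn h4
  obtain ⟨⟨hf, t, ht, hc⟩, -⟩ := All.aG3 D.n h4
  have h5 : L 1 = ((v.natAbs * t : ℕ) : ℂ) ^ 2 * (period (tw D.n) : ℂ) *
      ((∏ᶠ p, tamagawa (tw D.n) p : ℕ) : ℂ) /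
        (Nat.card (AddCommGroup.torsion (Pt (tw D.n) ℚ)) : ℂ) ^ 2 := by
    have h6 : (t : ℂ) ≠ 0 := by exact_mod_cast ht.pos.ne'
    have h7 : ((v.natAbs : ℕ) : ℂ) ^ 2 = v ^ 2 := by
      rw [Nat.cast_natAbs, ← Int.cast_pow, sq_abs, Int.cast_pow]
    have h8 : (8 : ℂ) * MP_8b7eba_nt.BSD15.lam D.n = v ^ 2 * All.TP D.n := by exact_mod_cast hv
    rw [h3, hc, All.aTam D.n hn h4, Nat.cast_mul, mul_pow, h7]
    push_cast
    field_simp
    linear_combination 2 * (period (tw D.n) : ℂ) * h8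
  have he := norm_eps ha1 ha2 h4
  have hP := norm_TP D.n
  have hm : ‖((v.natAbs * t : ℕ) : ℚ_[2])‖ = ‖(v : ℚ_[2])‖ := by
    rw [Nat.cast_mul, norm_mul, norm_odd ht, mul_one, Nat.cast_natAbs]
    rcases abs_choice v with h | h <;> simp [h]
  have hl : ‖(MP_8b7eba_nt.BSD15.lam D.n : ℚ_[2])‖ * All.TP D.n = 8 * ‖(v : ℚ_[2])‖ ^ 2 := by
    have h8 : (2 * 2 * 2 : ℚ_[2]) * MP_8b7eba_nt.BSD15.lam D.n = v ^ 2 * All.TP D.n := by
      have : ((8 * MP_8b7eba_nt.BSD15.lam D.n : ℤ) : ℚ_[2]) = (v ^ 2 * All.TP D.n : ℤ) := by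
        rw [hv]
      push_cast at this
      linear_combination this
    have h9 := congrArg norm h8
    simp only [norm_mul, norm_two, norm_pow] at h9
    linear_combination 8 * All.TP D.n * h9 + 8 * ‖(v : ℚ_[2])‖ ^ 2 * hP
  have hF : ‖F.eval 0‖ * (if D.n % 8 = 7 then 16 else 4) * All.TP D.n =
      16 * ‖(v : ℚ_[2])‖ ^ 2 := by
    rw [hT2, norm_div, norm_mul, norm_two]
    linear_combination 2 * hl + 2 * ‖(MP_8b7eba_nt.BSD15.lam D.n : ℚ_[2])‖ * All.TP D.n * he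
  have hTP : (All.TP D.n : ℝ) ≠ 0 := by exact_mod_cast All.TP_ne_zero D.n
  have hb : (if D.n % 8 = 7 then 16 else 4 : ℝ) ≠ 0 := by split_ifs <;> norm_num
  have key : v.natAbs * t ≠ 0 ↔ F.eval 0 ≠ 0 := by
    rw [← norm_ne_zero_iff (a := F.eval 0)]
    have h6 : v.natAbs * t ≠ 0 ↔ ‖(v : ℚ_[2])‖ ≠ 0 := by simp [ht.pos.ne']
    rw [h6]
    constructor
    · intro h h'
      rw [h', zero_mul, zero_mul] at hF
      exact h (by simpa using hF.symm)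
    · intro h h'
      rw [h'] at hF
      exact mul_ne_zero (mul_ne_zero h hb) hTP (by simpa using hF)
  refine ⟨h1, hf, L, h2, v.natAbs * t, h5, ?_, ?_, fun hm0 => ?_⟩
  · have h7 := (Nat.card_pos (α := AddCommGroup.torsion (Pt (tw D.n) ℚ))).ne'
    rw [h5, All.aTam D.n hn h4]
    simp [(All.period_pos h4).ne', All.TP_ne_zero D.n, h7]
  · rw [key, ← hS1, hC1, hH1]
  · have hF0 := key.1 hm0
    have hfin := hC1.1 (hS1.2 hF0)
    have e1 := hS2 hF0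
    have e2 : (4 : ℝ) * {c | D.SH ⊤ c}.ncard = D.SelN.ncard * (4 ^ D.n.primeFactors.card * 8 *
        (if D.n % 5 = 1 ∨ D.n % 5 = 4 then 16 else 4) * if D.n % 8 = 7 then 16 else 4) := by
      exact_mod_cast hC2 hfin
    have e3 := norm_nat hm0
    rw [hm] at e3
    rw [← hH2 hfin]
    have h3n : ¬3 ∣ D.n := fun h => by
      have := Nat.dvd_gcd h (show 3 ∣ 15 by norm_num)
      rw [h15] at this
      omega
    have h5n : ¬5 ∣ D.n := fun h => by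
      have := Nat.dvd_gcd h (show 5 ∣ 15 by norm_num)
      rw [h15] at this
      omega
    have e4 : (All.TP D.n : ℝ) * ((if D.n % 3 = 1 then 2 else 4) *
        if D.n % 5 = 1 ∨ D.n % 5 = 4 then 4 else 2) = 4 ^ D.n.primeFactors.card * 8 *
        (if D.n % 5 = 1 ∨ D.n % 5 = 4 then 16 else 4) := by
      unfold All.TP
      rw [if_neg h3n, if_neg h5n]
      split_ifs <;> first | omega | (push_cast; ring)
    have hw : (4 ^ D.n.primeFactors.card * 8 *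
        (if D.n % 5 = 1 ∨ D.n % 5 = 4 then 16 else 4) : ℝ) ≠ 0 := by
      split_ifs <;> positivity
    have e5 : (D.SelN.ncard : ℝ) * ‖(v : ℚ_[2])‖ ^ 2 = 1 := by
      apply mul_left_cancel₀ (mul_ne_zero hw hb)
      generalize (4 ^ D.n.primeFactors.card * 8 *
        (if D.n % 5 = 1 ∨ D.n % 5 = 4 then 16 else 4) : ℝ) = W at *
      generalize (if D.n % 8 = 7 then 16 else 4 : ℝ) = B at *
      linear_combination (-‖(v : ℚ_[2])‖ ^ 2) * e2 - ({c | D.SH ⊤ c}.ncard : ℝ) / 4 * hF +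
        B * All.TP D.n / 4 * e1 + B * e4
    have e6 : (D.SelN.ncard : ℝ) = (2 ^ padicValNat 2 (v.natAbs * t)) ^ 2 := by
      linear_combination (2 ^ padicValNat 2 (v.natAbs * t)) ^ 2 * e5 -
        (D.SelN.ncard : ℝ) * (‖(v : ℚ_[2])‖ * 2 ^ padicValNat 2 (v.natAbs * t) + 1) * e3
    exact_mod_cast e6

end Pool.Agent.P.MP_9c97e9_nt.KT
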