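import Pool.Agent.P.MP_9c97e9_nt.KT.Top

/-! Proof of TOPX. -/

namespace Pool.Agent.P.MP_9c97e9_nt.KT

open scoped NNReal Matrix
open MP_8b7eba_nt.R2
open Filter Topology Polynomial Module

namespace TTOPX

/-- the polynomial of an approximate measure -/
noncomputable def th (m : ℕ → ℕ → ℚ_[2]) (k : ℕ) : ℚ_[2][X] :=
  ∑ j ∈ Finset.range (2 ^ k), C (m k j) * (X + 1) ^ j

theorem th_coeff (m : ℕ → ℕ → ℚ_[2]) (k s : ℕ) :
    (th m k).coeff s = ∑ j ∈ Finset.range (2 ^ k), m k j * j.choose s := by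
  simp only [th, finsetSum_coeff, coeff_C_mul, coeff_X_add_one_pow]

theorem th_le {m : ℕ → ℕ → ℚ_[2]} (hm : ∀ k j, ‖m k j‖ ≤ 1) (k s : ℕ) :
    ‖(th m k).coeff s‖ ≤ 1 := by
  rw [th_coeff]
  refine IsUltrametricDist.norm_sum_le_of_forall_le_of_nonneg zero_le_one fun j _ => ?_
  rw [norm_mul]
  exact mul_le_one₀ (hm k j) (norm_nonneg _) (IsUltrametricDist.norm_natCast_le_one _ _)

section

variable {A : Type} [NormedCommRing A] [NormedAlgebra ℚ_[2] A] [IsUltrametricDist A]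
  [FiniteDimensional ℚ_[2] A] {ψ : ℤ_[2] → A} {m : ℕ → ℕ → ℚ_[2]}

omit [IsUltrametricDist A] [FiniteDimensional ℚ_[2] A] in
theorem th_aeval (h : IsPsi ψ) (k : ℕ) :
    ∑ j ∈ Finset.range (2 ^ k), m k j • ψ j = aeval (ψ 1 - 1) (th m k) := by
  simp only [th, map_sum, map_mul, aeval_C, ← TAFX.psi_aeval h, Algebra.smul_def]

theorem th_tendsto (h : IsPsi ψ) (hm : ∀ k j, ‖m k j‖ ≤ 1) :
    Tendsto (fun k => aeval (ψ 1 - 1) (th m k)) UF (𝓝 (thA m ψ)) := by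
  simp only [← th_aeval h]
  refine tendsto_ul (B := 1) (Eventually.of_forall fun k => ?_)
  refine IsUltrametricDist.norm_sum_le_of_forall_le_of_nonneg zero_le_one fun j _ => ?_
  rw [norm_smul]
  exact mul_le_one₀ (hm k j) (norm_nonneg _) (h.le _)

theorem th_map {A' : Type} [NormedCommRing A'] [NormedAlgebra ℚ_[2] A'] [IsUltrametricDist A']
    [FiniteDimensional ℚ_[2] A'] {ψ' : ℤ_[2] → A'} {G G' : ℚ_[2][X]} (h : IsAF ψ G)
    (h' : IsAF ψ' G') (hd : G' ∣ G) (hm : ∀ k j, ‖m k j‖ ≤ 1) {p : ℚ_[2][X]}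
    (hp : aeval (ψ 1 - 1) p = thA m ψ) : aeval (ψ' 1 - 1) p = thA m ψ' := by
  obtain ⟨μ, hμ, -⟩ := ((a_AFX.2.2.2.2.2.2 A ψ G h).2 A' ψ' G' 1 h').1 (by rwa [one_mul])
  simp only [one_mul] at hμ
  have h1 := (μ.continuous_of_finiteDimensional.tendsto _).comp (th_tendsto h.1 hm)
  rw [← hp, hμ] at h1
  simp only [Function.comp_def, hμ] at h1
  exact tendsto_nhds_unique h1 (th_tendsto h'.1 hm)

end

theorem dpow {q : ℚ_[2][X]} (hq : Dist q) (n : ℕ) : Dist (q ^ n) := by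
  induction n with
  | zero => rw [pow_zero]; exact a_AFX.2.2.2.2.1
  | succ n ih => rw [pow_succ]; exact a_AFX.2.1 _ _ ih hq

theorem div_le {F p : ℚ_[2][X]} (hF : Dist F) (hp : ∀ i, ‖p.coeff i‖ ≤ 1) (i : ℕ) :
    ‖(p /ₘ F).coeff i‖ ≤ 1 := by
  have hl : F ∈ lifts (algebraMap ℤ_[2] ℚ_[2]) :=
    (lifts_iff_coeff_lifts F).2 fun n => ⟨⟨F.coeff n, TAFX.coeff_le hF n⟩, rfl⟩
  obtain ⟨F0, rfl, -, hm⟩ := lifts_and_natDegree_eq_and_monic hl hF.1
  obtain ⟨p0, rfl⟩ := (mem_lifts p).1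
    ((lifts_iff_coeff_lifts p (f := algebraMap ℤ_[2] ℚ_[2])).2 fun n => ⟨⟨p.coeff n, hp n⟩, rfl⟩)
  rw [← map_divByMonic _ hm, coeff_map]
  exact ((p0 /ₘ F0).coeff i).2

theorem top {F Q : ℚ_[2][X]} (hF : Dist F) (hQ : ∀ i, ‖Q.coeff i‖ ≤ 1) {s : ℕ}
    (hs : s ≤ F.natDegree) (h : ¬ ‖(F * Q).coeff s‖ < 1) :
    F.natDegree = s ∧ ‖Q.coeff 0‖ = 1 := by
  rw [coeff_mul] at h
  by_contra hn
  refine h (TAFX.sum_lt fun x hx => ?_)
  rw [Finset.HasAntidiagonal.mem_antidiagonal] at hx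
  rw [norm_mul]
  by_cases h1 : x.1 < F.natDegree
  · exact mul_lt_one_of_nonneg_of_lt_one_left (norm_nonneg _) (hF.2 _ h1) (hQ _)
  · have h2 : x.2 = 0 := by omega
    refine mul_lt_one_of_nonneg_of_lt_one_right (TAFX.coeff_le hF _) (norm_nonneg _) ?_
    rw [h2]
    exact lt_of_le_of_ne (hQ 0) fun e => hn ⟨by omega, e⟩

end TTOPX

open TTOPX in
theorem t_TOPX : TOPX := by
  classical
  intro D F s t hUB hF hs hLB hm hc ht
  obtain ⟨A, _, _, _, _, ψ, hψ⟩ := a_AFX.1 F hF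
  obtain ⟨p, hp⟩ := hψ.2.1 (thA (mes D.n) ψ)
  have key : ∀ q : ℚ_[2][X], Irreducible q → q.Monic → ∀ k, q ^ k ∣ F → q ^ k ∣ p := by
    intro q hq hqm k hk
    rcases k with _ | k
    · simp
    have hqd : Dist q := a_AFX.2.2.1 _ _ hF hqm ((dvd_pow_self q k.succ_ne_zero).trans hk)
    obtain ⟨j, hj1, hj2⟩ : ∃ j, F.natDegree ≤ j ∧ k + 1 ≤ j := ⟨_, le_max_left _ _, le_max_right _ _⟩
    obtain ⟨A1, _, _, _, _, ψ1, h1⟩ := a_AFX.1 _ (dpow hqd (j + (k + 1)))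
    obtain ⟨A2, _, _, _, _, ψ2, h2⟩ := a_AFX.1 _ (dpow hqd j)
    obtain ⟨A3, _, _, _, _, ψ3, h3⟩ := a_AFX.1 _ (dpow hqd (k + 1))
    obtain ⟨p1, hp1⟩ := h1.2.1 (thA (mes D.n) ψ1)
    have h4 : aeval (ψ1 1 - 1) q ^ (j + (k + 1) - k - 1) * thA (mes D.n) ψ1 = 0 := by
      by_contra hne
      obtain ⟨M, hM, hS, hr⟩ := hLB q (k + 1) j hq hk hj1 A2 ψ2 h2
      have h5 := hUB q j (k + 1) k hq hqm k.lt_succ_self hj2 A1 ψ1 A2 ψ2 h1 h2 hne M hM hS
      have h6 := hq.natDegree_pos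
      nlinarith
    rw [show j + (k + 1) - k - 1 = j by omega, ← hp1, ← map_pow, ← map_mul, h1.2.2, pow_add,
      mul_dvd_mul_iff_left (pow_ne_zero _ hq.ne_zero)] at h4
    have h5 := th_map h1 h3 (pow_dvd_pow q (by omega)) hm hp1
    rw [← h3.2.2, th_map hψ h3 hk hm hp, ← h5, h3.2.2]
    exact h4
  have hFp : F ∣ p := by
    rw [UniqueFactorizationMonoid.dvd_iff_emultiplicity_le hF.1.ne_zero]
    intro q hq
    rw [emultiplicity_le_emultiplicity_iff]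
    intro k hk
    have ha : Associated (normalize q) q := normalize_associated q
    exact (ha.pow_pow (n := k)).dvd_iff_dvd_left.1 (key _ (ha.symm.irreducible hq.irreducible)
      (monic_normalize hq.ne_zero) k ((ha.pow_pow (n := k)).dvd_iff_dvd_left.2 hk))
  have h0 : thA (mes D.n) ψ = 0 := by rw [← hp, hψ.2.2]; exact hFp
  have hr : ∀ i, Tendsto (fun k => (th (mes D.n) k %ₘ F).coeff i) UF (𝓝 0) := fun i => by
    obtain ⟨μ, hμ⟩ := TAFX.factor (aeval (ψ 1 - 1) : ℚ_[2][X] →ₐ[ℚ_[2]] A).toLinearMap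
      ((lcoeff ℚ_[2] i).comp (modByMonicHom F)) fun v hv => by
        have : v %ₘ F = 0 := (modByMonic_eq_zero_iff_dvd hF.1).2 ((hψ.2.2 v).1 hv)
        simp [this]
    have h1 := (μ.continuous_of_finiteDimensional.tendsto _).comp (th_tendsto hψ.1 hm)
    rw [h0, map_zero] at h1
    exact h1.congr fun k => hμ _
  have he : ∀ k i, (th (mes D.n) k).coeff i =
      (th (mes D.n) k %ₘ F).coeff i + (F * (th (mes D.n) k /ₘ F)).coeff i := fun k i => by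
    rw [← coeff_add, modByMonic_add_div]
  have hev : ∀ᶠ k in (UF : Filter ℕ), F.natDegree = s ∧ ‖(th (mes D.n) k /ₘ F).coeff 0‖ = 1 := by
    filter_upwards [Nat.hyperfilter_le_atTop hc,
      (NormedAddGroup.tendsto_nhds_zero.1 (hr s)) 1 one_pos] with k h1 h2
    refine top hF (div_le hF (th_le hm k)) hs fun h3 => ?_
    rw [← th_coeff, he] at h1
    exact ((IsUltrametricDist.norm_add_le_max _ _).trans_lt (max_lt h2 h3)).ne h1
  refine ⟨hev.exists.choose_spec.1, ?_⟩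
  have h1 : Tendsto (fun k => ‖(th (mes D.n) k).coeff 0 - (th (mes D.n) k %ₘ F).coeff 0‖) UF
      (𝓝 ‖F.eval 0‖) := by
    refine tendsto_const_nhds.congr' (hev.mono fun k hk => ?_)
    simp only [he k 0, add_sub_cancel_left, mul_coeff_zero, norm_mul, hk.2, mul_one,
      coeff_zero_eq_eval_zero F]
  have h2 : ∀ k, ‖(th (mes D.n) k).coeff 0‖ = t := fun k => by
    rw [th_coeff, ← ht k]
    simp
  have h3 : Tendsto (fun k => ‖(th (mes D.n) k).coeff 0 - (th (mes D.n) k %ₘ F).coeff 0‖ - t) UF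
      (𝓝 0) := by
    refine squeeze_zero_norm (fun k => ?_) (by simpa using (hr 0).norm)
    rw [← h2 k]
    refine (abs_norm_sub_norm_le _ _).trans_eq ?_
    rw [sub_sub_cancel_left, norm_neg]
  exact sub_eq_zero.1 (tendsto_nhds_unique (h1.sub_const t) h3)

end Pool.Agent.P.MP_9c97e9_nt.KT
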