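import Pool.Agent.P.MP_9c97e9_nt.KT.AllJ
import Pool.Agent.P.MP_9c97e9_nt.KT.AllK
import Pool.Agent.P.MP_9c97e9_nt.KT.AllL
import Pool.Agent.P.MP_9c97e9_nt.KT.TANA
import Pool.Agent.P.MP_9c97e9_nt.KT.TTOPX
import Pool.Agent.P.MP_9c97e9_nt.KT.TMAIN
import Pool.Agent.P.MP_9c97e9_nt.KT.TBAS
import Pool.Agent.P.MP_9c97e9_nt.KT.TF2X

/-! The theorem, given the Euler system. -/

namespace Pool.Agent.P.MP_9c97e9_nt.KT

theorem main_of_ESX (h : ESX) : MAIN :=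
  t_MAIN t_BAS t_F2X h a_UBX a_IWX (a_CASX t_BAS t_F2X) (a_SHAX t_BAS t_F2X) (t_ANA t_BAS) t_TOPX

theorem esx_of (hG : ∀ (D : Dat) (l : ℕ), l.Prime → ¬ l ∣ 30 * D.n → ∃ z, D.ES z ∧ D.ERL z) :
    ESX := by
  intro D
  obtain ⟨l, h1, h2⟩ := Nat.exists_infinite_primes (30 * D.n + 1)
  exact hG D l h2 (Nat.not_dvd_of_pos_of_lt (by have := D.n4; omega) h1)

end Pool.Agent.P.MP_9c97e9_nt.KT
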