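import Pool.Agent.P.MP_9c97e9_nt.KT.BasZ

/-! Calculus in the field of meromorphic functions. -/

namespace Pool.Agent.P.MP_9c97e9_nt.KT

open scoped UpperHalfPlane Polynomial
open MP_8b7eba_nt MP_8b7eba_nt.R2
open MP_8b7eba_nt.Mod (M2 G0 UH xx yy)
open Filter Topology

noncomputable section

variable {G H : ℂ → ℂ} {A B : M2} {z : ℂ}

theorem hol_iff : (fun τ : ℍ => G τ) ∈ OH ↔ Hol G := by
  refine UpperHalfPlane.mdifferentiable_iff.trans (differentiableOn_congr fun z hz => ?_)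
  simp [UpperHalfPlane.ofComplex_apply_of_im_pos hz]

/-- a holomorphic function as an element of the ring -/
def oh (G : ℂ → ℂ) (h : Hol G) : OH := ⟨_, hol_iff.2 h⟩

/-- an element of the ring as a function -/
def fn (f : OH) (z : ℂ) : ℂ := f.1 (UpperHalfPlane.ofComplex z)

theorem hol_fn (f : OH) : Hol (fn f) := UpperHalfPlane.mdifferentiable_iff.1 f.2

theorem oh_fn (f : OH) : oh (fn f) (hol_fn f) = f :=
  Subtype.ext (funext fun τ => by simp [oh, fn])

theorem fn_oh (h : Hol G) (hz : 0 < z.im) : fn (oh G h) z = G z := by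
  simp [oh, fn, UpperHalfPlane.ofComplex_apply_of_im_pos hz]

theorem mf_eq (h : Hol G) : mf G = algebraMap OH MF (oh G h) := dif_pos (hol_iff.2 h)

theorem mf_fn (f : OH) : mf (fn f) = algebraMap OH MF f := by rw [mf_eq (hol_fn f), oh_fn]

theorem mf_congr (h : Set.EqOn G H UH) : mf G = mf H := by
  have : (fun τ : ℍ => G τ) = fun τ : ℍ => H τ := funext fun τ => h τ.im_pos
  unfold mf
  rw [this]

theorem mf_inj (hG : Hol G) (hH : Hol H) : mf G = mf H ↔ Set.EqOn G H UH := by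
  refine ⟨fun h z hz => ?_, mf_congr⟩
  rw [mf_eq hG, mf_eq hH] at h
  exact congrFun (congrArg Subtype.val (IsFractionRing.injective OH MF h)) ⟨z, hz⟩

/-- the constants -/
def cM : ℂ →+* MF := (algebraMap OH MF).comp (algebraMap ℂ OH)

theorem hol_const (c : ℂ) : Hol fun _ => c := differentiableOn_const c

theorem mf_const (c : ℂ) : mf (fun _ => c) = cM c := mf_eq (hol_const c)

theorem mf_zero : mf (fun _ => 0) = 0 := (mf_const 0).trans (map_zero _)

theorem mf_one : mf (fun _ => 1) = 1 := (mf_const 1).trans (map_one _)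

theorem mf_eq_zero (h : Hol G) : mf G = 0 ↔ ∀ z : ℂ, 0 < z.im → G z = 0 := by
  rw [← mf_zero, mf_inj h (hol_const 0)]; rfl

theorem mf_add (hG : Hol G) (hH : Hol H) : mf (fun z => G z + H z) = mf G + mf H := by
  rw [mf_eq hG, mf_eq hH, ← map_add, mf_eq (hG.fun_add hH)]; rfl

theorem mf_mul (hG : Hol G) (hH : Hol H) : mf (fun z => G z * H z) = mf G * mf H := by
  rw [mf_eq hG, mf_eq hH, ← map_mul, mf_eq (hG.fun_mul hH)]; rfl

theorem mf_neg (hG : Hol G) : mf (fun z => -G z) = -mf G := by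
  rw [mf_eq hG, ← map_neg, mf_eq hG.fun_neg]; rfl

theorem mf_sub (hG : Hol G) (hH : Hol H) : mf (fun z => G z - H z) = mf G - mf H := by
  rw [mf_eq hG, mf_eq hH, ← map_sub, mf_eq (hG.fun_sub hH)]; rfl

theorem mf_pow (hG : Hol G) (n : ℕ) : mf (fun z => G z ^ n) = mf G ^ n := by
  rw [mf_eq hG, ← map_pow, mf_eq (hG.fun_pow n)]; rfl

theorem mf_sum {ι : Type} (s : Finset ι) {F : ι → ℂ → ℂ} (h : ∀ i ∈ s, Hol (F i)) :
    mf (fun z => ∑ i ∈ s, F i z) = ∑ i ∈ s, mf (F i) := by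
  classical
  induction s using Finset.induction_on with
  | empty => simpa using mf_zero
  | insert a s ha ih =>
    have h' := fun i hi => h i (Finset.mem_insert_of_mem hi)
    simp only [Finset.sum_insert ha]
    rw [mf_add (h a (Finset.mem_insert_self _ _)) (DifferentiableOn.fun_sum h'), ih h']

theorem mf_prod {ι : Type} (s : Finset ι) {F : ι → ℂ → ℂ} (h : ∀ i ∈ s, Hol (F i)) :
    Hol (fun z => ∏ i ∈ s, F i z) ∧ mf (fun z => ∏ i ∈ s, F i z) = ∏ i ∈ s, mf (F i) := by
  classical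
  induction s using Finset.induction_on with
  | empty => exact ⟨hol_const 1, mf_one⟩
  | insert a s ha ih =>
    obtain ⟨h1, h2⟩ := ih fun i hi => h i (Finset.mem_insert_of_mem hi)
    have h3 := h a (Finset.mem_insert_self _ _)
    simp only [Finset.prod_insert ha]
    exact ⟨h3.fun_mul h1, by rw [mf_mul h3 h1, h2]⟩

theorem mf_mv {R J : Type} [CommRing R] (e : R →+* ℂ) {F : J → ℂ → ℂ} (h : ∀ j, Hol (F j))
    (P : MvPolynomial J R) : Hol (fun z => P.eval₂ e fun j => F j z) ∧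
      mf (fun z => P.eval₂ e fun j => F j z) = P.eval₂ (cM.comp e) fun j => mf (F j) := by
  induction P using MvPolynomial.induction_on with
  | C a =>
    simp only [MvPolynomial.eval₂_C]
    exact ⟨hol_const _, mf_const _⟩
  | add p q hp hq =>
    simp only [MvPolynomial.eval₂_add]
    exact ⟨hp.1.fun_add hq.1, by rw [mf_add hp.1 hq.1, hp.2, hq.2]⟩
  | mul_X p j hp =>
    simp only [MvPolynomial.eval₂_mul, MvPolynomial.eval₂_X]
    exact ⟨hp.1.fun_mul (h j), by rw [mf_mul hp.1 (h j), hp.2]⟩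

theorem mf_poly {R : Type} [CommRing R] (e : R →+* ℂ) (h : Hol G) (p : R[X]) :
    Hol (fun z => p.eval₂ e (G z)) ∧ mf (fun z => p.eval₂ e (G z)) = p.eval₂ (cM.comp e) (mf G) := by
  induction p using Polynomial.induction_on' with
  | add p q hp hq =>
    simp only [Polynomial.eval₂_add]
    exact ⟨hp.1.fun_add hq.1, by rw [mf_add hp.1 hq.1, hp.2, hq.2]⟩
  | monomial n a =>
    simp only [Polynomial.eval₂_monomial]
    exact ⟨(hol_const _).fun_mul (h.fun_pow n), by
      rw [mf_mul (hol_const _) (h.fun_pow n), mf_const, mf_pow h]; rfl⟩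

theorem exists_div (f : MF) : ∃ p q, Hol p ∧ Hol q ∧ mf q ≠ 0 ∧ f * mf q = mf p := by
  obtain ⟨p, q, hq, rfl⟩ := IsFractionRing.div_surjective OH f
  have h : mf (fn q) ≠ 0 := by
    rw [mf_fn]
    exact (map_ne_zero_iff _ (IsFractionRing.injective OH MF)).2 (nonZeroDivisors.ne_zero hq)
  exact ⟨fn p, fn q, hol_fn p, hol_fn q, h, by rw [mf_fn p, ← mf_fn q, div_mul_cancel₀ _ h]⟩

theorem hom_ext {F : Type} [Field F] {j j' : MF →+* F} (h : ∀ G, Hol G → j (mf G) = j' (mf G)) :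
    j = j' :=
  IsFractionRing.ringHom_ext (A := OH) fun f => by rw [← mf_fn]; exact h _ (hol_fn f)

instance : CharZero MF := charZero_of_injective_ringHom cM.injective

instance : CharZero K0 := K0.subtype.charZero

instance : CharZero LL := (LL.val : LL →+* MF).charZero

theorem hol_xx : Hol xx := Mod.diff_xx

theorem hol_yy : Hol yy := R1.Exp_hb_yy.hol

theorem curve (hz : 0 < z.im) : yy z ^ 2 = 4 * xx z ^ 3 - 7 * xx z ^ 2 - 36 * xx z :=
  sub_eq_zero.1 (Mod.RR_zero hz)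

theorem U8_eq (hz : 0 < z.im) : R1.U8 z = ((xx z ^ 2 + 2 * yy z + 9) * xx z) ^ 8 := by
  rw [R1.U8, R1.v1_sq hz]

theorem not_cusp (hz : 0 < z.im) : xx z ≠ 0 ∧ xx z ^ 2 + 2 * yy z + 9 ≠ 0 :=
  ⟨R1.xx_ne hz, R1.v1_sq hz ▸ pow_ne_zero 2 (R1.v1_ne hz)⟩

theorem Hol.an (h : Hol G) (hz : 0 < z.im) : AnalyticAt ℂ G z := h.analyticAt (Mod.UH_mem_nhds hz)

theorem ev_of_eqOn (h : Set.EqOn G H UH) (hz : 0 < z.im) : G =ᶠ[𝓝 z] H :=
  h.eventuallyEq_of_mem (Mod.UH_mem_nhds hz)

/-! ### The extension -/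

theorem coe_lf (h : InL G) : (lf G : MF) = mf G := by rw [lf, dif_pos h.2]

theorem lf_coe {f : LL} (h : mf G = f) : lf G = f :=
  Subtype.ext (by rw [lf, dif_pos (h ▸ f.2)]; exact h)

theorem inL_of {f : LL} (hG : Hol G) (h : mf G = f) : InL G := ⟨hG, h ▸ f.2⟩

theorem lf_congr (h : Set.EqOn G H UH) : lf G = lf H := by
  unfold lf
  rw [mf_congr h]

theorem InL.congr (h : InL G) (e : Set.EqOn H G UH) : InL H :=
  ⟨h.1.congr e, mf_congr e ▸ h.2⟩

theorem lf_inj (hG : InL G) (hH : InL H) : lf G = lf H ↔ Set.EqOn G H UH := by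
  rw [← mf_inj hG.1 hH.1, ← coe_lf hG, ← coe_lf hH, Subtype.ext_iff]

theorem xx_mem : mf xx ∈ K0 := Subfield.subset_closure (by simp)

theorem yy_mem : mf yy ∈ K0 := Subfield.subset_closure (by simp)

theorem K0_le {f : MF} (h : f ∈ K0) : f ∈ LL := LL.algebraMap_mem ⟨f, h⟩

theorem inL_xx : InL xx := ⟨hol_xx, K0_le xx_mem⟩

theorem inL_yy : InL yy := ⟨hol_yy, K0_le yy_mem⟩

theorem mem_GG {g : AL} : g ∈ GG ↔ g (lf xx) = lf xx ∧ g (lf yy) = lf yy := by
  simp [GG, mem_fixingSubgroup_iff, RingAut.smul_def]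

theorem mem_geo {g : AL} : g ∈ geo ↔ g ∈ GG ∧ ∀ a, g (cst a) = cst a := by
  simp [geo, mem_fixingSubgroup_iff, RingAut.smul_def]

theorem InL.add (hG : InL G) (hH : InL H) :
    InL (fun z => G z + H z) ∧ lf (fun z => G z + H z) = lf G + lf H := by
  have e : mf (fun z => G z + H z) = (lf G + lf H : LL) := by
    rw [mf_add hG.1 hH.1, ← coe_lf hG, ← coe_lf hH]; rfl
  exact ⟨inL_of (hG.1.fun_add hH.1) e, lf_coe e⟩

theorem InL.mul (hG : InL G) (hH : InL H) :
    InL (fun z => G z * H z) ∧ lf (fun z => G z * H z) = lf G * lf H := by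
  have e : mf (fun z => G z * H z) = (lf G * lf H : LL) := by
    rw [mf_mul hG.1 hH.1, ← coe_lf hG, ← coe_lf hH]; rfl
  exact ⟨inL_of (hG.1.fun_mul hH.1) e, lf_coe e⟩

theorem InL.neg (hG : InL G) : InL (fun z => -G z) ∧ lf (fun z => -G z) = -lf G := by
  have e : mf (fun z => -G z) = (-lf G : LL) := by rw [mf_neg hG.1, ← coe_lf hG]; rfl
  exact ⟨inL_of hG.1.fun_neg e, lf_coe e⟩

theorem InL.sub (hG : InL G) (hH : InL H) :
    InL (fun z => G z - H z) ∧ lf (fun z => G z - H z) = lf G - lf H := by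
  have e : mf (fun z => G z - H z) = (lf G - lf H : LL) := by
    rw [mf_sub hG.1 hH.1, ← coe_lf hG, ← coe_lf hH]; rfl
  exact ⟨inL_of (hG.1.fun_sub hH.1) e, lf_coe e⟩

theorem InL.pow (hG : InL G) (n : ℕ) :
    InL (fun z => G z ^ n) ∧ lf (fun z => G z ^ n) = lf G ^ n := by
  have e : mf (fun z => G z ^ n) = (lf G ^ n : LL) := by rw [mf_pow hG.1, ← coe_lf hG]; rfl
  exact ⟨inL_of (hG.1.fun_pow n) e, lf_coe e⟩

theorem inL_int (n : ℤ) : InL (fun _ => n) ∧ lf (fun _ => n) = n := by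
  have e : mf (fun _ => n) = (n : LL) := by rw [mf_const, map_intCast]; rfl
  exact ⟨inL_of (hol_const _) e, lf_coe e⟩

theorem InL.zpoly (hG : InL G) (p : ℤ[X]) : InL (fun z => Polynomial.aeval (G z) p) ∧
    lf (fun z => Polynomial.aeval (G z) p) = Polynomial.aeval (lf G) p := by
  induction p using Polynomial.induction_on' with
  | add p q hp hq =>
    simp only [map_add]
    exact ⟨(hp.1.add hq.1).1, by rw [(hp.1.add hq.1).2, hp.2, hq.2]⟩
  | monomial n a =>
    simp only [Polynomial.aeval_monomial, eq_intCast]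
    exact ⟨((inL_int a).1.mul (hG.pow n).1).1, by
      rw [((inL_int a).1.mul (hG.pow n).1).2, (inL_int a).2, (hG.pow n).2]⟩

/-! ### Substitutions -/

/-- the substitution on holomorphic functions -/
def sbH (A : M2) (h : 0 < A.det) : OH →+* OH where
  toFun f := oh (fun z => fn f (A.act z)) (Mod.diff_act h (hol_fn f))
  map_one' := rfl
  map_mul' _ _ := rfl
  map_zero' := rfl
  map_add' _ _ := rfl

theorem act_adj (h : 0 < A.det) (hz : 0 < z.im) : A.act (A.adj.act z) = z := by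
  have h0 : (A.det : ℂ) ≠ 0 := by exact_mod_cast h.ne'
  rw [← M2.act_mul h.ne' (by simpa using h) hz, M2.act_eq, div_eq_iff
    (M2.j_ne (by rw [M2.det_mul, M2.det_adj]; positivity) hz)]
  simp [M2.j]
  ring

theorem adj_act (h : 0 < A.det) (hz : 0 < z.im) : A.adj.act (A.act z) = z := by
  simpa using act_adj (A := A.adj) (by simpa using h) hz

theorem sbH_inj (h : 0 < A.det) : Function.Injective (sbH A h) := fun f g e => by
  refine Subtype.ext (funext fun τ => ?_)
  have := congrFun (congrArg Subtype.val e)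
    ⟨A.adj.act τ, M2.im_act_pos (by simpa using h) τ.im_pos⟩
  simpa [sbH, oh, fn, act_adj h τ.im_pos] using this

/-- the substitution by `A` on meromorphic functions -/
def sb (A : M2) : MF →+* MF :=
  if h : 0 < A.det then IsFractionRing.lift (g := (algebraMap OH MF).comp (sbH A h))
    ((IsFractionRing.injective OH MF).comp (sbH_inj h)) else RingHom.id _

theorem sb_mf (h : 0 < A.det) (hG : Hol G) : sb A (mf G) = mf fun z => G (A.act z) := by
  rw [sb, dif_pos h, mf_eq hG, IsFractionRing.lift_algebraMap,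
    ← mf_congr (G := fun z => fn (oh G hG) (A.act z)) fun z hz => fn_oh hG (M2.im_act_pos h hz),
    mf_eq (Mod.diff_act h (hol_fn _))]
  rfl

theorem sb_mul (hA : 0 < A.det) (hB : 0 < B.det) (f : MF) : sb (A * B) f = sb B (sb A f) := by
  refine DFunLike.congr_fun (hom_ext (j' := (sb B).comp (sb A)) fun G hG => ?_) f
  rw [RingHom.comp_apply, sb_mf hA hG, sb_mf hB (Mod.diff_act hA hG),
    sb_mf (by rw [M2.det_mul]; positivity) hG]
  exact mf_congr fun z hz => congrArg G (M2.act_mul hA.ne' hB hz)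

theorem sb_eq_self (hA : 0 < A.det) (h : ∀ z : ℂ, 0 < z.im → A.act z = z) (f : MF) :
    sb A f = f :=
  DFunLike.congr_fun (hom_ext (j' := RingHom.id _) fun G hG =>
    (sb_mf hA hG).trans (mf_congr fun z hz => congrArg G (h z hz))) f

theorem sb_adj (hA : 0 < A.det) (f : MF) : sb A.adj (sb A f) = f := by
  have h' : 0 < A.adj.det := by simpa using hA
  rw [← sb_mul hA h']
  exact sb_eq_self (by rw [M2.det_mul]; positivity)
    (fun z hz => by rw [M2.act_mul hA.ne' h' hz, act_adj hA hz]) f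

theorem sb_adj' (hA : 0 < A.det) (f : MF) : sb A (sb A.adj f) = f := by
  simpa using sb_adj (A := A.adj) (by simpa using hA) f

theorem sb_cM (hA : 0 < A.det) (c : ℂ) : sb A (cM c) = cM c := by
  rw [← mf_const, sb_mf hA (hol_const c)]

theorem sb_xx (h : G0 A) : sb A (mf xx) = mf xx :=
  (sb_mf h.det_pos hol_xx).trans (mf_congr fun z hz => Mod.xx_inv A h z hz)

theorem sb_yy (h : G0 A) : sb A (mf yy) = mf yy :=
  (sb_mf h.det_pos hol_yy).trans (mf_congr fun _ hz => Mod.yy_inv h hz)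

theorem Lm.of_G0 (h : G0 A) : Lm A := ⟨h.det_pos, h.1 ▸ isCoprime_one_left, h.2⟩

theorem Lm.adj (h : Lm A) : Lm A.adj := ⟨by simpa using h.1, by simpa using h.2.1, by simpa using h.2.2⟩

theorem Lm.mul (h : Lm A) (h' : Lm B) : Lm (A * B) :=
  ⟨by rw [M2.det_mul]; exact mul_pos h.1 h'.1, by rw [M2.det_mul]; exact h.2.1.mul_left h'.2.1,
    by rw [M2.mul_c]; exact dvd_add (h.2.2.mul_right _) (h'.2.2.mul_left _)⟩

end

end Pool.Agent.P.MP_9c97e9_nt.KT
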