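import Pool.Agent.P.MP_9c97e9_nt.KT.BasF

/-! Taylor expansions in the flat coordinate. -/

namespace Pool.Agent.P.MP_9c97e9_nt.KT

open scoped Real Nat
open MP_8b7eba_nt MP_8b7eba_nt.R2
open MP_8b7eba_nt.Mod (M2 G0 UH xx yy ff)
open MP_8b7eba_nt.R1 (Aut)
open Filter Topology PowerSeries

noncomputable section

/-- the invariant derivation -/
def DD (G : ℂ → ℂ) (z : ℂ) : ℂ := deriv G z / (2 * π * Complex.I * ff z)

/-- the Taylor series in the flat coordinate -/
def tay (τ : ℂ) (G : ℂ → ℂ) : ℂ⟦X⟧ := PowerSeries.mk fun n => DD^[n] G τ / n !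

/-- quotients of complex power series -/
abbrev FS : Type := FractionRing ℂ⟦X⟧

/-- a power series as an element of the field -/
abbrev fs : ℂ⟦X⟧ →+* FS := algebraMap _ _

variable {G H : ℂ → ℂ} {τ : ℂ} {γ : M2}

theorem fs_inj : Function.Injective fs := IsFractionRing.injective _ _

theorem dn_ne (hτ : 0 < τ.im) : 2 * π * Complex.I * ff τ ≠ 0 :=
  mul_ne_zero Mod.two_pi_I_ne (Mod.ff_ne hτ)

theorem an_DD (hτ : 0 < τ.im) (h : AnalyticAt ℂ G τ) : AnalyticAt ℂ (DD G) τ :=
  h.deriv.div (analyticAt_const.mul (Hol.an Mod.diff_ff hτ)) (dn_ne hτ)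

theorem hol_DD (h : Hol G) : Hol (DD G) :=
  fun _ hz => (an_DD hz (h.an hz)).differentiableAt.differentiableWithinAt

theorem DD_congr (h : G =ᶠ[𝓝 τ] H) : DD G =ᶠ[𝓝 τ] DD H :=
  h.deriv.mono fun z hz => by rw [DD, DD, hz]

theorem tay_congr (h : G =ᶠ[𝓝 τ] H) : tay τ G = tay τ H := by
  ext n
  simp only [tay, coeff_mk]
  congr 1
  induction n generalizing G H with
  | zero => exact h.eq_of_nhds
  | succ n ih => exact ih (DD_congr h)

@[simp] theorem tay_zero (τ : ℂ) (G : ℂ → ℂ) : constantCoeff (tay τ G) = G τ := by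
  simp [tay, ← coeff_zero_eq_constantCoeff_apply]

theorem d_tay (τ : ℂ) (G : ℂ → ℂ) : d⁄dX ℂ (tay τ G) = tay τ (DD G) := by
  ext n
  have : (n : ℂ) + 1 ≠ 0 := Nat.cast_add_one_ne_zero n
  have : (n ! : ℂ) ≠ 0 := by exact_mod_cast n.factorial_ne_zero
  simp only [tay, coeff_derivative, coeff_mk, Function.iterate_succ_apply, Nat.factorial_succ]
  push_cast
  field_simp

theorem coeff_succ {A B : ℂ⟦X⟧} {n : ℕ} (h : coeff n (d⁄dX ℂ A) = coeff n (d⁄dX ℂ B)) :
    coeff (n + 1) A = coeff (n + 1) B := by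
  rw [coeff_derivative, coeff_derivative] at h
  exact mul_right_cancel₀ (Nat.cast_add_one_ne_zero n) h

theorem DD_add (hG : AnalyticAt ℂ G τ) (hH : AnalyticAt ℂ H τ) :
    DD (fun z => G z + H z) =ᶠ[𝓝 τ] fun z => DD G z + DD H z := by
  filter_upwards [hG.eventually_analyticAt, hH.eventually_analyticAt] with z h1 h2
  rw [DD, DD, DD, deriv_fun_add h1.differentiableAt h2.differentiableAt, add_div]

theorem DD_mul (hG : AnalyticAt ℂ G τ) (hH : AnalyticAt ℂ H τ) :
    DD (fun z => G z * H z) =ᶠ[𝓝 τ] fun z => DD G z * H z + G z * DD H z := by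
  filter_upwards [hG.eventually_analyticAt, hH.eventually_analyticAt] with z h1 h2
  rw [DD, DD, DD, deriv_fun_mul h1.differentiableAt h2.differentiableAt]
  ring

theorem tay_add (hτ : 0 < τ.im) (hG : AnalyticAt ℂ G τ) (hH : AnalyticAt ℂ H τ) :
    tay τ (fun z => G z + H z) = tay τ G + tay τ H := by
  ext n
  induction n generalizing G H with
  | zero => simp
  | succ n ih =>
    refine coeff_succ ?_
    rw [map_add, d_tay, d_tay, d_tay, tay_congr (DD_add hG hH), ih (an_DD hτ hG) (an_DD hτ hH)]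

theorem tay_mul (hτ : 0 < τ.im) (hG : AnalyticAt ℂ G τ) (hH : AnalyticAt ℂ H τ) :
    tay τ (fun z => G z * H z) = tay τ G * tay τ H := by
  ext n
  induction n generalizing G H with
  | zero => simp
  | succ n ih =>
    refine coeff_succ ?_
    rw [Derivation.leibniz, d_tay, d_tay, d_tay, tay_congr (DD_mul hG hH),
      tay_add hτ ((an_DD hτ hG).fun_mul hH) (hG.fun_mul (an_DD hτ hH)), map_add, map_add,
      ih (an_DD hτ hG) hH, ih hG (an_DD hτ hH), smul_eq_mul, smul_eq_mul, add_comm,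
      mul_comm (tay τ H)]

theorem tay_const (τ c : ℂ) : tay τ (fun _ => c) = C c := by
  ext n
  induction n generalizing c with
  | zero => simp
  | succ n ih =>
    refine coeff_succ ?_
    rw [d_tay, show DD (fun _ => c) = fun _ => 0 from funext fun z => by simp [DD], ih]
    simp

theorem tay_pow (hτ : 0 < τ.im) (hG : AnalyticAt ℂ G τ) (n : ℕ) :
    tay τ (fun z => G z ^ n) = tay τ G ^ n := by
  induction n with
  | zero => simpa using tay_const τ 1
  | succ n ih => simp only [pow_succ]; rw [tay_mul hτ (hG.fun_pow n) hG, ih]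

theorem order_tay (hτ : 0 < τ.im) (hG : AnalyticAt ℂ G τ) :
    (tay τ G).order = analyticOrderAt G τ := by
  rcases eq_or_ne (analyticOrderAt G τ) ⊤ with h | h
  · rw [h, order_eq_top, tay_congr (H := fun _ => 0) (analyticOrderAt_eq_top.1 h), tay_const,
      map_zero]
  obtain ⟨n, hn⟩ := ENat.ne_top_iff_exists.1 h
  obtain ⟨g, h1, h2, h3⟩ := hG.analyticOrderAt_eq_natCast.1 hn.symm
  have a : AnalyticAt ℂ (fun z => z - τ) τ := analyticAt_id.sub analyticAt_const
  have e : (tay τ fun z => z - τ).order = (1 : ℕ) := by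
    refine order_eq_nat.2 ⟨?_, fun i hi => ?_⟩
    · simpa [tay, DD] using Mod.ff_ne hτ
    · simp [Nat.lt_one_iff.1 hi]
  rw [← hn, tay_congr (H := fun z => (z - τ) ^ n * g z) h3, tay_mul hτ (a.fun_pow n) h1,
    tay_pow hτ a, order_mul, order_pow, e,
    order_zero_of_unit (isUnit_iff_constantCoeff.2 (by simpa using h2))]
  simp

theorem tay_eq_zero (hτ : 0 < τ.im) (hG : Hol G) (h : tay τ G = 0) :
    ∀ z : ℂ, 0 < z.im → G z = 0 := by
  have h1 := order_tay hτ (hG.an hτ)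
  rw [h, order_zero, eq_comm, analyticOrderAt_eq_top] at h1
  exact (hG.analyticOnNhd Mod.isOpen_UH).eqOn_zero_of_preconnected_of_eventuallyEq_zero
    (convex_halfSpace_im_gt 0).isPreconnected hτ h1

/-- the Taylor series as a ring homomorphism -/
def tayH (τ : ℂ) (hτ : 0 < τ.im) : OH →+* ℂ⟦X⟧ where
  toFun f := tay τ (fn f)
  map_one' := (tay_const τ 1).trans (map_one _)
  map_mul' f g := tay_mul hτ ((hol_fn f).an hτ) ((hol_fn g).an hτ)
  map_zero' := (tay_const τ 0).trans (map_zero _)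
  map_add' f g := tay_add hτ ((hol_fn f).an hτ) ((hol_fn g).an hτ)

theorem tayH_inj (hτ : 0 < τ.im) : Function.Injective (fs.comp (tayH τ hτ)) := by
  refine (injective_iff_map_eq_zero _).2 fun f h => Subtype.ext (funext fun z => ?_)
  simpa [fn] using tay_eq_zero hτ (hol_fn f) (fs_inj (h.trans (map_zero _).symm)) z z.im_pos

/-- the Laurent expansion at a point -/
def jt (τ : ℂ) : MF →+* FS :=
  if h : 0 < τ.im then IsFractionRing.lift (tayH_inj h)
  else IsFractionRing.lift (tayH_inj (τ := Complex.I) (by simp))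

theorem jt_mf (hτ : 0 < τ.im) (hG : Hol G) : jt τ (mf G) = fs (tay τ G) := by
  rw [jt, dif_pos hτ, mf_eq hG, IsFractionRing.lift_algebraMap]
  exact congrArg fs (tay_congr (ev_of_eqOn (fun z hz => fn_oh hG hz) hτ))

theorem jt_lf (hτ : 0 < τ.im) (hG : InL G) : jt τ (lf G) = fs (tay τ G) := by
  rw [coe_lf hG, jt_mf hτ hG.1]

theorem jt_cM (hτ : 0 < τ.im) (c : ℂ) : jt τ (cM c) = fs (C c) := by
  rw [← mf_const, jt_mf hτ (hol_const c), tay_const]

theorem DD_act (hγ : G0 γ) (hG : Hol G) :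
    Set.EqOn (DD fun z => G (γ.act z)) (fun z => DD G (γ.act z)) UH := fun z hz => by
  have h := (Mod.ff_inv γ hγ).sl_eq hγ.1 hz
  have := M2.j_ne hγ.det_pos.ne' hz
  have := Mod.ff_ne (M2.im_act_pos hγ.det_pos hz)
  simp only [DD]
  rw [Mod.deriv_comp_act hG hγ.det_pos hz, ← h, Mod.sl, Mod.sl, hγ.1]
  field_simp

theorem tay_act (hγ : G0 γ) (hτ : 0 < τ.im) (hG : Hol G) :
    tay τ (fun z => G (γ.act z)) = tay (γ.act τ) G := by
  ext n
  induction n generalizing G with
  | zero => simp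
  | succ n ih =>
    refine coeff_succ ?_
    rw [d_tay, d_tay, tay_congr (ev_of_eqOn (DD_act hγ hG) hτ), ih (hol_DD hG)]

theorem jt_sb (hγ : G0 γ) (hτ : 0 < τ.im) (f : MF) : jt τ (sb γ f) = jt (γ.act τ) f := by
  refine DFunLike.congr_fun (hom_ext (j := (jt τ).comp (sb γ)) fun G hG => ?_) f
  rw [RingHom.comp_apply, sb_mf hγ.det_pos hG, jt_mf hτ (Mod.diff_act hγ.det_pos hG),
    tay_act hγ hτ hG, jt_mf (M2.im_act_pos hγ.det_pos hτ) hG]

/-- the action of an automorphism on the coefficients -/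
def sa (s : Aut) : FS →+* FS :=
  IsFractionRing.lift (g := fs.comp (PowerSeries.map (s : ℂ →+* ℂ)))
    fun _ _ h => PowerSeries.map_injective (s : ℂ →+* ℂ) s.injective (fs_inj h)

theorem sa_fs (s : Aut) (A : ℂ⟦X⟧) : sa s (fs A) = fs (PowerSeries.map (s : ℂ →+* ℂ) A) :=
  by rw [sa, IsFractionRing.lift_algebraMap]; rfl

theorem sa_mul (s t : Aut) (a : FS) : sa (s * t) a = sa s (sa t a) := by
  refine DFunLike.congr_fun (IsFractionRing.ringHom_ext (A := ℂ⟦X⟧)
    (f2 := (sa s).comp (sa t)) fun A => ?_) a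
  rw [RingHom.comp_apply, sa_fs, sa_fs, sa_fs]
  exact congrArg fs (PowerSeries.ext fun n => rfl)

theorem sa_one (a : FS) : sa 1 a = a := by
  refine DFunLike.congr_fun (IsFractionRing.ringHom_ext (A := ℂ⟦X⟧)
    (f2 := RingHom.id _) fun A => ?_) a
  rw [sa_fs]
  exact congrArg fs (PowerSeries.ext fun n => rfl)

theorem order_map (s : Aut) (A : ℂ⟦X⟧) : (PowerSeries.map (s : ℂ →+* ℂ) A).order = A.order := by
  refine order_eq.2 ⟨fun i hi => ?_, fun i hi => ?_⟩
  · simpa using (order_eq.1 rfl).1 i hi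
  · simpa using (order_eq.1 rfl).2 i hi

theorem DD_xx : DD xx = yy := rfl

theorem DD_yy : Set.EqOn (DD yy) (fun z => 6 * xx z ^ 2 - 7 * xx z - 18) UH := fun z hz => by
  obtain ⟨L, h2, h3⟩ := R1.exists_lattice
  obtain ⟨h4, h5⟩ := R1.unif_global L h2 h3 hz
  have d := ((R1.AddA.dQ h4).comp z (Mod.hasDerivAt_FI hz)).congr_of_eventuallyEq (f₁ := yy) (by
    filter_upwards [Mod.UH_mem_nhds hz] with w hw using (R1.unif_yy L h2 h3 hw).symm)
  rw [DD, d.deriv, mul_div_cancel_right₀ _ (dn_ne hz), h5, h2]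
  ring

end

end Pool.Agent.P.MP_9c97e9_nt.KT
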