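import Pool.Agent.P.MP_9c97e9_nt.KT.IfF1

/-! Algebraic integers as algebraic numbers. -/

namespace Pool.Agent.P.MP_9c97e9_nt.KT

open MP_8b7eba_nt.R2
open MP_8b7eba_nt.R1 (Zb)

noncomputable section

theorem io_inj : Function.Injective io := io.injective

theorem io_zo (a : Zb) : io (zo a) = a :=
  Classical.epsilon_spec (p := fun x => io x = a)
    (a_TAU.2.2.2.1 _ (IsIntegral.tower_top (A := ℚ) a.2).isAlgebraic)

/-- the inclusion of the algebraic integers -/
def zoH : Zb →+* Om where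
  toFun := zo
  map_one' := io_inj (by simp [io_zo])
  map_mul' a b := io_inj (by simp [io_zo])
  map_zero' := io_inj (by simp [io_zo])
  map_add' a b := io_inj (by simp [io_zo])

@[simp] theorem zoH_apply (a : Zb) : zoH a = zo a := rfl

theorem zo_inj : Function.Injective zo := fun a b h =>
  Subtype.ext (by rw [← io_zo, h, io_zo])

theorem zo_int (a : Zb) : IsIntegral ℤ (zo a) :=
  (isIntegral_algHom_iff io.toIntAlgHom io_inj).1 (by
    change IsIntegral ℤ (io (zo a))
    rw [io_zo]; exact a.2)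

theorem exists_zo {x : Om} (h : IsIntegral ℤ x) : ∃ a, zo a = x :=
  ⟨⟨io x, h.map io.toIntAlgHom⟩, io_inj (io_zo _)⟩

/-- the action on the algebraic integers -/
def sZ (σ : GQ) : Zb →+* Zb :=
  ((io.comp (σ : Om →+* Om)).comp zoH).codRestrict (integralClosure ℤ ℂ) fun a =>
    (zo_int a).map (io.comp (σ : Om →+* Om)).toIntAlgHom

theorem coe_sZ (σ : GQ) (a : Zb) : (sZ σ a : ℂ) = io (σ (zo a)) := rfl

theorem zo_sZ (σ : GQ) (a : Zb) : zo (sZ σ a) = σ (zo a) := io_inj (io_zo _)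

theorem Cj_iff {σ : GQ} {A B : PowerSeries Zb} : Cj σ A B ↔ B = PowerSeries.map (sZ σ) A := by
  refine ⟨fun h => PowerSeries.ext fun k => zo_inj ?_, fun h k => ?_⟩
  · rw [PowerSeries.coeff_map, zo_sZ, h k]
  · rw [h, PowerSeries.coeff_map, zo_sZ]

theorem Cj.symm {σ : GQ} {A B : PowerSeries Zb} (h : Cj σ A B) : Cj σ⁻¹ B A := fun k => by
  rw [← h k]; exact σ.symm_apply_apply _

theorem exists_den (x : Om) : ∃ (m : ℕ) (a : Zb), m ≠ 0 ∧ m * x = zo a := by
  have h : IsAlgebraic ℤ x :=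
    (IsFractionRing.isAlgebraic_iff ℤ ℚ Om).2 (Algebra.IsAlgebraic.isAlgebraic x)
  obtain ⟨m, h0, h1⟩ := h.exists_integral_multiple
  have h2 : IsIntegral ℤ ((m.natAbs : Om) * x) := by
    rw [zsmul_eq_mul] at h1
    rcases Int.natAbs_eq m with e | e
    · rwa [e, Int.cast_natCast] at h1
    · rw [e, Int.cast_neg, Int.cast_natCast, neg_mul] at h1
      simpa using h1.neg
  obtain ⟨a, ha⟩ := exists_zo h2
  exact ⟨_, a, Int.natAbs_ne_zero.2 h0, ha.symm⟩

end

end Pool.Agent.P.MP_9c97e9_nt.KT
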