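import Pool.Agent.P.MP_8b7eba_nt.R2.AllL
import Pool.Agent.P.MP_9c97e9_nt.All.Main

/-! Shared definitions for the project KT: the Galois side. -/

namespace Pool.Agent.P.MP_9c97e9_nt.KT

open scoped NNReal Matrix
open MP_8b7eba_nt.R2
open Filter Topology Polynomial

noncomputable section

/-! ### The place above two -/

/-- the embedding in the 2-adic complex numbers -/
def i2 : Om →+* ℂ_[2] := (algebraMap (PadicAlgCl 2) ℂ_[2]).comp (emb ℚ ℚ_[2])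

/-- the place attached to the embedding -/
def w2 : Pl := ⟨2, Nat.prime_two, (PadicAlgCl.valued 2).v.comap (emb ℚ ℚ_[2]), by
  rw [Valuation.comap_apply, map_natCast, ← one_div]
  exact PadicAlgCl.valuation_p 2⟩

/-- the Tate module -/
def T2 : Tate w2 := Classical.choice (a_TATE w2 rfl)

/-- the unit root of `X² + X + 2` -/
def al0 : ℚ_[2] := Classical.epsilon fun a => ‖a‖ = 1 ∧ a ^ 2 + a + 2 = 0

/-! ### Cyclotomic characters -/

open Classical in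
/-- a unit as an element of the group of units -/
def un {R : Type} [Monoid R] (a : R) : Rˣ := if h : IsUnit a then h.unit else 1

/-- the properties of the cyclotomic character modulo `M` -/
def IsCy (M : ℕ) (χ : GQ →* (ZMod M)ˣ) : Prop :=
  ∀ (g : GQ) (z : Om), z ^ M = 1 → g z = z ^ (χ g : ZMod M).val

/-- the cyclotomic character modulo `M` -/
def cy (M : ℕ) : GQ →* (ZMod M)ˣ := Classical.epsilon (IsCy M)

/-- the cyclotomic logarithm -/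
def la (g : GQ) : ℤ_[2] := lg (cyc g)

/-- the logarithm of an odd number modulo `2 ^ k` -/
def lz (k m : ℕ) : ℕ := (PadicInt.toZModPow k (lg (un (m : ℤ_[2])))).val

/-! ### The data -/

/-- the arithmetic data -/
structure Dat where
  n : ℕ
  dl : Om
  z : GQ
  wz : Pl
  f2 : GQ
  gm : GQ
  sq : Squarefree n
  n4 : n % 4 = 3
  cop : n.Coprime 15
  hdl : dl ^ 2 = -n
  zp : wz.p ∣ n
  zI : z ∈ wz.I
  zd : z dl = -dl
  fr : w2.IsFrob 1 f2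
  fc : cyc f2 = 1
  gI : gm ∈ w2.I
  gc : (cyc gm : ℤ_[2]) = 5

/-- the twisted representation -/
def Dat.rd (D : Dat) (g : GQ) : Mt := T2.rd D.dl g

/-- the number of primes above `n` in the tower -/
def Dat.sg (D : Dat) : ℕ := ∑ p ∈ D.n.primeFactors, 2 ^ (lg (un (p : ℤ_[2]))).valuation

section

variable {A : Type} [NormedCommRing A] [NormedAlgebra ℚ_[2] A]

/-- the representation with coefficients in `A` -/
def Dat.r (D : Dat) (ψ : ℤ_[2] → A) (g : GQ) : (Fin 2 → A) →ₗ[ℚ_[2]] Fin 2 → A :=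
  (ψ (la g) • mv (D.rd g)).restrictScalars ℚ_[2]

/-- the local normalisation -/
def Dat.ln (D : Dat) (ψ : ℤ_[2] → A) (x : GS → Fin 2 → A) (g : GS) : Fin 2 → A :=
  x g - (rS (D.r ψ) g (mv (D.rd D.f2 - 1)⁻¹ (x (cs D.f2))) - mv (D.rd D.f2 - 1)⁻¹ (x (cs D.f2)))

/-- the ordinary condition -/
def Dat.Ord (D : Dat) (ψ : ℤ_[2] → A) (x : GS → Fin 2 → A) : Prop :=
  ∀ g ∈ S1 w2.D, D.ln ψ x g 1 = 0

/-- the ordinary Selmer group, as a set of normalised cocycles -/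
structure Dat.Sel (D : Dat) (ψ : ℤ_[2] → A) (x : GS → Fin 2 → A) : Prop where
  pz : PZ (fun _ => ⊤) (D.r ψ) x
  nz : x (cs D.z) = 0
  unr : ∀ (w : ℕ → Pl) (g : GS), (∀ᶠ k in UF, g k ∈ (w k).I ∧ ¬ (w k).p ∣ 30 * D.n) → x g = 0
  bad : ∀ w : Pl, w.p ∣ 15 → Cob (S1 w.I) (D.r ψ) x
  ord : D.Ord ψ x

/-- the value at `ψ` of a family of approximate measures -/
def thA (m : ℕ → ℕ → ℚ_[2]) (ψ : ℤ_[2] → A) : A :=
  ul fun k => ∑ j ∈ Finset.range (2 ^ k), m k j • ψ j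

end

/-! ### The Euler system at finite level -/

/-- families of cochains indexed by the precision and the level -/
abbrev EA : Type := ℕ → (M : ℕ) → GQ → (ZMod M)ˣ → V2

/-- admissible levels -/
def Dat.Lv (D : Dat) (k M : ℕ) : Prop := M ≠ 0 ∧ 2 ^ (k + 2) ∣ M ∧ M.Coprime (15 * D.n)

open Classical in
/-- the sum over the fibres of the reduction map -/
def psh {X : Type} [AddCommMonoid X] (M l : ℕ) (f : (ZMod (M * l))ˣ → X) (ε : (ZMod M)ˣ) : X :=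
  ∑ᶠ δ, if ZMod.unitsMap (Nat.dvd_mul_right M l) δ = ε then f δ else 0

/-- the Euler system -/
structure Dat.ES (D : Dat) (z : EA) : Prop where
  int : ∀ k M g δ, ‖z k M g δ‖ ≤ 1
  sm : ∀ k M, D.Lv k M → Sm ⊤ (z k M)
  co : ∀ k M, D.Lv k M → ∀ g h δ,
    ‖z k M (g * h) δ - z k M g δ - D.rd g *ᵥ z k M h (δ * (cy M g)⁻¹)‖ ≤ (2 ^ k)⁻¹
  nz : ∀ k M, D.Lv k M → ∀ δ, ‖z k M D.z δ‖ ≤ (2 ^ k)⁻¹
  two : ∀ k M, D.Lv k M → ∀ g ε, ‖psh M 2 (z k (M * 2) g) ε - z k M g ε‖ ≤ (2 ^ k)⁻¹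
  hec : ∀ k M l, D.Lv k M → l.Prime → ¬ l ∣ 15 * D.n * M → ∀ g ε,
    ‖psh M l (z k (M * l) g) ε - (z k M g ε -
      ((jacobiSym l D.n * ap W15 l : ℤ) / l : ℚ_[2]) • z k M g (ε * (un (l : ZMod M))⁻¹) +
      (l : ℚ_[2])⁻¹ • z k M g (ε * (un (l : ZMod M))⁻¹ ^ 2))‖ ≤ (2 ^ k)⁻¹

/-- the modular symbols of level `n 2 ^ (k + 2)` -/
def msy (n k ν : ℕ) : ℚ_[2] :=
  jacobiSym ν n * (MP_8b7eba_nt.Mod.nM ν (n * 2 ^ (k + 2) : ℕ) -
    al0⁻¹ * MP_8b7eba_nt.Mod.nM (2 * ν : ℕ) (n * 2 ^ (k + 2) : ℕ)) / 4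

/-- the odd residues -/
def oddR (n k : ℕ) : Finset ℕ := (Finset.range (n * 2 ^ (k + 2))).filter Odd

/-- the approximate measures which define the 2-adic L-function -/
def mes (n k j : ℕ) : ℚ_[2] := ∑ ν ∈ (oddR n k).filter fun ν => lz k ν = j, msy n k ν

/-- local cocycles at two with values in the ordinary line -/
structure Dat.LY (D : Dat) (k : ℕ) (y : GQ → (ZMod (2 ^ (k + 2)))ˣ → V2) : Prop where
  int : ∀ g η, ‖y g η‖ ≤ 1
  ord : ∀ g η, ‖y g η 1‖ ≤ (2 ^ k)⁻¹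
  sm : Sm w2.D y
  co : ∀ g ∈ w2.D, ∀ h ∈ w2.D, ∀ η,
    ‖y (g * h) η - y g η - D.rd g *ᵥ y h (η * (cy _ g)⁻¹)‖ ≤ (2 ^ k)⁻¹

/-- the weighted cup product -/
def Dat.wcup (D : Dat) (k : ℕ) (x y : GQ → (ZMod (2 ^ (k + 2)))ˣ → V2)
    (W : (ZMod (2 ^ (k + 2)))ˣ → ℤ) (g h : GQ) : Om :=
  ec ((∑ δ, ∑ η, W (δ * η⁻¹) * dt (x g δ) (D.rd g *ᵥ y h (η * (cy _ g)⁻¹))) / 2 ^ k)

/-- the explicit reciprocity law at finite level -/
def Dat.ERL (D : Dat) (z : EA) : Prop :=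
  ∃ (c : ℚ_[2]) (e : ℕ) (B : ℝ) (k₀ : ℕ), c ≠ 0 ∧ e ≠ 0 ∧ ∀ k, k₀ ≤ k →
    ∃ (y : GQ → (ZMod (2 ^ (k + 2)))ˣ → V2) (u : (ZMod (2 ^ (k + 2)))ˣ) (a b : ℚ_[2]), D.LY k y ∧
      ‖a‖ = 1 ∧ ‖b‖ ≤ B ∧ ∀ W : (ZMod (2 ^ (k + 2)))ˣ → ℤ, (∀ δ, W (-δ) = W δ) →
        nv w2 w2.D (D.wcup k (z k (2 ^ (k + 2))) y W) ^ e =
          ec ((c * a * ∑ ν ∈ oddR D.n k, msy D.n k ν * W (u * (un (ν : ZMod (2 ^ (k + 2))))⁻¹) +
            b * ∑ δ, W δ) / 2 ^ k)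

/-! ### Classical cocycles -/

/-- the Galois group of the top of the cyclotomic tower -/
def KI : Subgroup GQ := ⨅ k, KP k

/-- normalised cocycles on `H` with values in the torsion points, unramified outside `30 n`, trivial
at the real places and ordinary on the inertia group of the tower -/
structure Dat.SH (D : Dat) (H : Subgroup GQ) (c : GQ → EO) : Prop where
  sm : Sm H c
  co : ∀ g ∈ H, ∀ h ∈ H, c (g * h) = c g + tac D.dl g (c h)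
  off : ∀ g, g ∉ H → c g = 0
  tor : ∃ i : ℕ, ∀ g, 2 ^ i • c g = 0
  nz : c D.z = 0
  ord : ∀ g ∈ w2.I ⊓ KI, E1 w2 (c g)
  unr : ∀ w : Pl, ¬ w.p ∣ 30 * D.n → ∀ g ∈ w.I ⊓ H, c g = 0
  re : ∀ s : GQ, ∃ P, c (s * tau * s⁻¹) = tac D.dl (s * tau * s⁻¹) P - P

/-- the classical Selmer group, as a set of normalised cocycles -/
def Dat.SelN (D : Dat) : Set (GQ → EO) :=
  {c | SelC D.dl c ∧ c D.z = 0 ∧ ∃ P, c tau = tac D.dl tau P - P}

end

end Pool.Agent.P.MP_9c97e9_nt.KT
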