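import Pool.Agent.P.MP_9c97e9_nt.KT.IfX
import Pool.Agent.P.MP_8b7eba_nt.BSD15.PairLam

/-! Eisenstein series of weight one and their products. -/

namespace Pool.Agent.P.MP_9c97e9_nt.KT.Cx

open MP_8b7eba_nt.Mod (qq)
open MP_8b7eba_nt.BSD15 (saw)
open MP_29cb78_nt.E (ee)
open PowerSeries Finset
open scoped Real

/-- the sawtooth function at `B / (15 M)` -/
def sw (M : ℕ) (B : ℤ) : ℚ := saw (B / (15 * M))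

/-- the crossing term -/
def Mn (M : ℕ) (ν k : ℤ) : ℤ :=
  ∑ m ∈ antidiagonal M, ∑ p ∈ (m.1 : ℤ).divisorsAntidiag, ∑ q ∈ (m.2 : ℤ).divisorsAntidiag,
    if Int.gcd p.1 15 = 1 ∧ 15 ∣ q.1 - k * p.1 ∧ (M : ℤ) ∣ p.2 + ν * q.1 ∧ (M : ℤ) ∣ q.2 - ν * p.1
    then p.1.sign * q.1.sign else 0

/-- the first end term -/
def En1 (M : ℕ) (ν k : ℤ) : ℚ :=
  ∑ B ∈ range (15 * M), ∑ q ∈ (M : ℤ).divisorsAntidiag,
    if B.Coprime 15 ∧ 15 ∣ q.1 - k * B ∧ (M : ℤ) ∣ ν * q.1 ∧ (M : ℤ) ∣ q.2 - ν * B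
    then -(q.1.sign : ℚ) * sw M B else 0

/-- the second end term -/
def En2 (M : ℕ) (ν k : ℤ) : ℚ :=
  ∑ B ∈ range (15 * M), ∑ p ∈ (M : ℤ).divisorsAntidiag,
    if Int.gcd p.1 15 = 1 ∧ 15 ∣ B - k * p.1 ∧ (M : ℤ) ∣ p.2 + ν * B ∧ (M : ℤ) ∣ ν * p.1
    then -(p.1.sign : ℚ) * sw M B else 0

/-- the point is not a lattice point -/
def NZ (x₁ x₂ : ℚ) : Prop := Int.fract x₁ ≠ 0 ∨ Int.fract x₂ ≠ 0

/-- functions of the classes of the indices -/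
def Per {A : Type} (M : ℕ) (Φ : ℤ → ℤ → ℤ → ℤ → ℤ → A) : Prop :=
  ∀ b b' i₁ i₁' i₂ i₂' j₁ j₁' j₂ j₂' : ℤ, IsCoprime b 15 → b ≡ b' [ZMOD 15] → i₁ ≡ i₁' [ZMOD M] →
    i₂ ≡ i₂' [ZMOD M] → j₁ ≡ j₁' [ZMOD M] → j₂ ≡ j₂' [ZMOD M] →
    Φ b i₁ i₂ j₁ j₂ = Φ b' i₁' i₂' j₁' j₂'

/-- the sum over the pairs of division points with ratio `k` and determinant `D` -/
def tri {A : Type} [AddCommMonoid A] (M : ℕ) (D k : ℤ) (f : ℤ → ℤ → ℤ → ℤ → A) : A :=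
  ∑ B₁ ∈ range (15 * M), ∑ B₂ ∈ range (15 * M), ∑ a₁ ∈ range M, ∑ a₂ ∈ range M,
    if B₁.Coprime 15 ∧ 15 ∣ B₂ - k * B₁ ∧ (M : ℤ) ∣ B₁ * a₂ - B₂ * a₁ - D then f B₁ B₂ a₁ a₂ else 0

noncomputable section

open Classical in
/-- the sum over the indices of determinant `δ` -/
def sI {A : Type} [AddCommMonoid A] (M : ℕ) (δ : (ZMod M)ˣ) (Φ : ℤ → ℤ → ℤ → ℤ → ℤ → A) : A :=
  ∑ i ∈ (Ix M).filter fun i => dI M i = δ, Φ i.1 i.2.1.1 i.2.1.2 i.2.2.1 i.2.2.2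

/-- roots of unity -/
def zc (M : ℕ) (a : ℤ) : ℂ := qq (a / M)

/-- Eisenstein series of weight one without the constant term -/
def eS (M : ℕ) (a B : ℤ) : ℂ⟦X⟧ :=
  PowerSeries.mk fun m => ∑ p ∈ (m : ℤ).divisorsAntidiag,
    if (15 * M : ℤ) ∣ p.1 - B then -(p.1.sign : ℂ) * zc M (a * p.2) else 0

/-- Eisenstein series of weight one -/
def eC (M : ℕ) (a B : ℤ) : ℂ⟦X⟧ := C (sw M B : ℂ) + eS M a B

/-- the series of a unit -/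
def eE (M : ℕ) (b i₁ i₂ : ℤ) : ℂ⟦X⟧ :=
  eC M i₂ (15 * i₁ + M * b) + eC M i₂ (15 * i₁ - M * b) - eC M i₂ (15 * i₁ + 4 * M * b) -
    eC M i₂ (15 * i₁ - 4 * M * b)

/-- the series of weight two -/
def gC (M : ℕ) (δ : (ZMod M)ˣ) : ℂ⟦X⟧ :=
  sI M δ fun b i₁ i₂ j₁ j₂ => eE M b i₁ i₂ * eE M (2 * b) j₁ j₂

/-- the part of ratio `k` -/
def hk (M : ℕ) (D k : ℤ) : ℂ⟦X⟧ := tri M D k fun B₁ B₂ a₁ a₂ => eC M a₁ B₁ * eC M a₂ B₂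

/-- a Lambert series -/
def lG (τ w : ℂ) : ℂ := ∑' n : ℕ, ee (n * τ + w) / (1 - ee (n * τ + w))

/-- the logarithmic derivative of the theta function -/
def ZZ (w τ : ℂ) : ℂ := logDeriv (fun u => vth u τ) w / (2 * π * Complex.I)

/-- the Eisenstein series of weight one of a division point -/
def Ew (x₁ x₂ : ℚ) (τ : ℂ) : ℂ := ZZ (x₁ * τ + x₂) τ + x₁

/-- the form of weight one of a unit -/
def Fc (M : ℕ) (b i₁ i₂ : ℤ) (z : ℂ) : ℂ :=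
  Ew ((15 * i₁ + M * b : ℤ) / (15 * M)) (i₂ / M) (15 * z) +
    Ew ((15 * i₁ - M * b : ℤ) / (15 * M)) (i₂ / M) (15 * z) -
    Ew ((15 * i₁ + 4 * M * b : ℤ) / (15 * M)) (i₂ / M) (15 * z) -
    Ew ((15 * i₁ - 4 * M * b : ℤ) / (15 * M)) (i₂ / M) (15 * z)

/-- the form of weight two -/
def Gc (M : ℕ) (δ : (ZMod M)ˣ) (z : ℂ) : ℂ :=
  sI M δ fun b i₁ i₂ j₁ j₂ => Fc M b i₁ i₂ z * Fc M (2 * b) j₁ j₂ z

/-- the modular symbol given by the intersection with four geodesics -/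
def psi (x : ℤ × ℤ) : ℚ :=
  MP_8b7eba_nt.BSD15.II x (1, 0) (1, 2) (0, 1) + MP_8b7eba_nt.BSD15.II x (1, 0) (1, -2) (0, 1) -
    MP_8b7eba_nt.BSD15.II x (1, 0) (1, 7) (0, 1) - MP_8b7eba_nt.BSD15.II x (1, 0) (1, -7) (0, 1)

end

end Pool.Agent.P.MP_9c97e9_nt.KT.Cx
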