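import Pool.Agent.P.MP_9c97e9_nt.KT.DefsF

/-! Local symbols at the place above two. -/

namespace Pool.Agent.P.MP_9c97e9_nt.KT

open scoped NNReal
open MP_8b7eba_nt.R2
open Filter Topology

noncomputable section

/-- an element of the decomposition field as a 2-adic number -/
def q2 (x : Om) : ℚ_[2] := Classical.epsilon fun a => algebraMap ℚ_[2] ℂ_[2] a = i2 x

/-- the trace to the 2-adic numbers -/
def trq (H : Subgroup GQ) (x : Om) : ℚ_[2] := q2 (csum w2.D H fun g => g x)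

/-- the property of the logarithm of five -/
def IsL5 (c : ℚ_[2]) : Prop :=
  ∀ u : ℤ_[2]ˣ, Tendsto (fun n : ℕ => (((u : ℤ_[2]) : ℚ_[2]) ^ 2 ^ n - 1) / 2 ^ n) atTop
    (𝓝 (c * lg u))

/-- the logarithm of five -/
def l5 : ℚ_[2] := Classical.epsilon IsL5

/-- the negative of the logarithm of the norm -/
def LNm (H : Subgroup GQ) (x : Om) : ℚ_[2] := l5 * lg (art w2 (nrm w2.D H x))

/-- the Kummer character -/
def km (k : ℕ) (u : Om) (g : GQ) : ZMod (2 ^ k) :=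
  dlo (ec (2 ^ k)⁻¹) (2 ^ k) (g (rtN (2 ^ k) u) / rtN (2 ^ k) u)

/-- the local symbol -/
def sy (H : Subgroup GQ) (k : ℕ) (u v : Om) : Om := nv w2 H (cup (km k u) v)

/-- local groups which fix the roots of unity of order `2 ^ K` -/
def LH (H : Subgroup GQ) (K : ℕ) : Prop := w2.Loc H ∧ Fix H (ec (2 ^ K)⁻¹)

/-- cocycles with values in the residues, for the trivial action -/
def Co0 (H : Subgroup GQ) {A : Type} [Add A] (φ : GQ → GQ → A) : Prop :=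
  Sm2 H φ ∧ ∀ g ∈ H, ∀ h ∈ H, ∀ l ∈ H, φ h l + φ g (h * l) = φ (g * h) l + φ g h

/-- the invariant of a cochain with values in the residues -/
def rv (H : Subgroup GQ) (k : ℕ) (φ : GQ → GQ → ZMod (2 ^ k)) : Om :=
  nv w2 H fun g h => ec ((φ g h).val / 2 ^ k)

/-- actions, with the stabilisers -/
structure Act (H : Subgroup GQ) {J : Type} (a : GQ → J → J) (S : J → Subgroup GQ) : Prop where
  one : ∀ j, a 1 j = j
  mul : ∀ g ∈ H, ∀ h ∈ H, ∀ j, a (g * h) j = a g (a h j)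
  sm : Sm H a
  st : ∀ j g, g ∈ S j ↔ g ∈ H ∧ a g j = j

/-- representatives of the orbits -/
def Reps (H : Subgroup GQ) {J : Type} (a : GQ → J → J) (R : Finset J) : Prop :=
  ∀ j, ∃! r, r ∈ R ∧ ∃ g ∈ H, a g r = j

/-- equivariant families -/
def Eqi (H : Subgroup GQ) {J : Type} (a : GQ → J → J) (x : J → Om) : Prop :=
  ∀ g ∈ H, ∀ j, x (a g j) = g (x j)

/-- the series `A / (1 - A)` for `A = ω ^ a X ^ c` -/
def ph (ω : Om) (a : ℤ) (c : ℕ) : PowerSeries Om :=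
  PowerSeries.mk fun m => if c ∣ m ∧ m ≠ 0 then ω ^ (a * (m / c : ℕ)) else 0

/-- the truncated integral of a series -/
def Iv (X : ℕ) (P : PowerSeries Om) (t : Om) : Om :=
  ∑ m ∈ Finset.Icc 1 X, PowerSeries.coeff m P * t ^ m / m

/-- the context for monomials `ω ^ a t ^ c` -/
structure Mo (H : Subgroup GQ) (k K X : ℕ) (ω : Om) (κ : ℤ) (t : Om) : Prop where
  lh : LH H K
  pos : 0 < k
  le : k + 2 ≤ K
  fo : Fix H ω
  odd : Odd κ
  ord : ∃ o : ℕ, Odd o ∧ ω ^ o = ec (κ / 2 ^ K) ^ o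
  ft : Fix H t
  ne : t ≠ 0
  lt : w2.v t < 1
  cut : ∀ m : ℕ, X < 2 * m → w2.v (t ^ m / m) ≤ (2 ^ (K + k))⁻¹

/-- `u` is close to a finite product, and `P` is the attached series up to the order `X` -/
def PF (k X : ℕ) (ω t u : Om) (a c J : ℤ) (P : PowerSeries Om) : Prop :=
  ∃ (ι : Type) (s : Finset ι) (A : ι → ℤ) (C : ι → ℕ) (e σ : ι → ℤ) (ε : Om) (A₀ C₀ : ℤ),
    (ε = 1 ∨ ε = -1) ∧ 2 ^ k ∣ A₀ - a * J ∧ 2 ^ k ∣ C₀ - c * J ∧
    (∀ i ∈ s, 0 < C i ∧ Odd (σ i) ∧ 2 ^ k ∣ A i - σ i * a ∧ 2 ^ k ∣ (C i : ℤ) - σ i * c) ∧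
    w2.v (u / (ε * ω ^ A₀ * t ^ C₀ * ∏ i ∈ s, (1 - ω ^ A i * t ^ C i) ^ e i) - 1) ≤
      (2 ^ (k + 2))⁻¹ ∧
    ∀ m ≤ X, PowerSeries.coeff m P =
      PowerSeries.coeff m ((J : PowerSeries Om) - ∑ i ∈ s, (e i * σ i) • ph ω (A i) (C i))

end

end Pool.Agent.P.MP_9c97e9_nt.KT
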