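import Pool.Agent.P.MP_9c97e9_nt.KT.IfE
import Pool.Agent.P.MP_9c97e9_nt.KT.IfX

/-! Definitions for the explicit reciprocity law. -/

namespace Pool.Agent.P.MP_9c97e9_nt.KT

open scoped NNReal Matrix
open MP_8b7eba_nt.R2
open Finset

noncomputable section

/-- the closure of the fixed field -/
def ClF (H : Subgroup GQ) : Set ℂ_[2] := closure (i2 '' {x | Fix H x})

/-- the trace on the closure of the fixed field -/
def trc (H : Subgroup GQ) (y : ℂ_[2]) : ℚ_[2] :=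
  Classical.epsilon fun s => ∀ x, Fix H x → ‖trq H x - s‖ ≤ ‖i2 x - y‖

/-- partial theta products at an algebraic point -/
def pO (M : ℕ) (a B : ℤ) (L : ℕ) (t : Om) : Om :=
  ∏ c ∈ range L, (if (15 * M : ℤ) ∣ c - B then 1 - zM M a * t ^ c else 1) *
    if (15 * M : ℤ) ∣ c + B then 1 - zM M (-a) * t ^ c else 1

/-- the partial products of the units -/
def piO (M : ℕ) (b i₁ i₂ e : ℤ) (L : ℕ) (t : Om) : Om :=
  (-1) ^ (JJ M b i₁).natAbs * zM M (i₂ * JJ M b i₁) * t ^ e *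
    (pO M i₂ (15 * i₁ + M * b) L t * pO M i₂ (15 * i₁ - M * b) L t) /
    (pO M i₂ (15 * i₁ + 4 * M * b) L t * pO M i₂ (15 * i₁ - 4 * M * b) L t)

/-- `U` lists the values of the units at the parameter `T` -/
def UV (M : ℕ) (T : ℂ_[2]) (U : ℤ → ℤ → ℤ → Om) : Prop :=
  ∀ b i₁ i₂ : ℤ, IsCoprime b 15 → V2a M (uf b (i₁ / M) (i₂ / M)) T (i2 (U b i₁ i₂))

/-- indices -/
abbrev IT : Type := ℕ × (ℕ × ℕ) × ℕ × ℕ

/-- the value of the first unit -/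
def uX (U : ℤ → ℤ → ℤ → Om) (i : IT) : Om := U i.1 i.2.1.1 i.2.1.2

/-- the value of the second unit -/
def vX (U : ℤ → ℤ → ℤ → Om) (i : IT) : Om := U (2 * i.1) i.2.2.1 i.2.2.2

/-- the product of the Eisenstein series -/
def EPr (M : ℕ) (i : IT) : PowerSeries Om :=
  EE M i.1 i.2.1.1 i.2.1.2 * EE M (2 * i.1) i.2.2.1 i.2.2.2

/-- the product of the constant terms -/
def JPr (M : ℕ) (i : IT) : ℤ := JJ M i.1 i.2.1.1 * JJ M (2 * i.1) i.2.2.1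

/-- the sum of the symbols of the values -/
def EU (M : ℕ) (U : ℤ → ℤ → ℤ → Om) : Sy Om M :=
  ∑ i ∈ Ix M, Finsupp.single (uX U i, vX U i, dI M i) 1

/-- the context for the evaluation of the symbols -/
structure Cv (H : Subgroup GQ) (k K n M : ℕ) (κ : ℤ) : Prop where
  lh : LH H K
  pos : 0 < k
  le : k + 2 ≤ K
  odd : Odd n
  cop : n.Coprime 15
  eq : M = 2 ^ K * n
  cy : ∀ g ∈ H, cy M g = 1
  ok : Odd κ
  ze : zM M 1 ^ n = ec (κ / 2 ^ K) ^ n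

/-- the cocycle of the cuspidal symbols at a point -/
def fv (τ : ℂ) (H : Subgroup GQ) (k l M : ℕ) (δ : (ZMod M)ˣ) (g h : GQ) : ZMod (2 ^ k) :=
  ((CO H k M).can (evE τ (Ep l M))).f g h δ

/-- approximate cocycles on the decomposition group -/
structure Dat.ZC (D : Dat) (k : ℕ) (x : GQ → (ZMod (2 ^ (k + 2)))ˣ → V2) : Prop where
  int : ∀ g η, ‖x g η‖ ≤ 1
  sm : ∃ N, ON N ∧ ∀ g ∈ w2.D, ∀ n ∈ w2.D, n ∈ N → ∀ η, ‖x (g * n) η - x g η‖ ≤ (2 ^ k)⁻¹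
  co : ∀ g ∈ w2.D, ∀ h ∈ w2.D, ∀ η,
    ‖x (g * h) η - x g η - D.rd g *ᵥ x h (η * (cy _ g)⁻¹)‖ ≤ (2 ^ k)⁻¹

/-- the cup product -/
def cpr (δ : Om) (k : ℕ) (a b : GQ → V2) (g h : GQ) : ZMod (2 ^ k) :=
  zq k (dt (a g) (T2.rd δ g *ᵥ b h))

/-- the local group of the cyclotomic field -/
def HC2 (k : ℕ) : Subgroup GQ := w2.D ⊓ (cy (2 ^ (k + 2))).ker

/-- the twisted zeta cocycle -/
def Dat.xG (D : Dat) (k : ℕ) (zt : GQ → (ZMod (2 ^ (k + 2) * D.n))ˣ → V2)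
    (m : (ZMod (2 ^ (k + 2)))ˣ → V2) (g : GQ) (ε : (ZMod (2 ^ (k + 2)))ˣ) : V2 :=
  (2 : ℚ_[2]) • psh (2 ^ (k + 2)) D.n (fun δ =>
    (jacobiSym (δ : ZMod (2 ^ (k + 2) * D.n)).val D.n : ℚ_[2]) • zt g δ) ε +
    (D.rd g *ᵥ m (ε * (cy _ g)⁻¹) - m ε)

/-- the twisted weights -/
def Dat.cW (D : Dat) (k : ℕ) (W : (ZMod (2 ^ (k + 2)))ˣ → ℤ) (δ : (ZMod (2 ^ (k + 2) * D.n))ˣ) : ℤ :=
  jacobiSym (δ : ZMod (2 ^ (k + 2) * D.n)).val D.n * W (ZMod.unitsMap (Nat.dvd_mul_right _ _) δ)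

/-- the two local points, as coordinates -/
structure Dat.Pts (D : Dat) (k : ℕ) (H : Subgroup GQ) (x y : ℤ → Om) : Prop where
  loc : w2.Loc H
  le : H ≤ HC2 k
  dl : Fix H D.dl
  eqv : ∀ σ ∈ HC2 k, ∀ s, σ (x s) = x (sd D.dl σ * s) ∧ σ (y s) = y (sd D.dl σ * s)
  big : ∀ s, s = 1 ∨ s = -1 → 1 < w2.v (x s)

end

end Pool.Agent.P.MP_9c97e9_nt.KT
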