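import Pool.Agent.P.MP_9c97e9_nt.KT.DefsG
import Pool.Agent.P.MP_8b7eba_nt.R1.Unif
import Pool.Agent.P.MP_8b7eba_nt.R1.QP
import Pool.Agent.P.MP_8b7eba_nt.R1.Int
import Pool.Agent.P.MP_29cb78_nt.E.ThAux1

/-! The field of algebraic functions on the upper half plane, modular units and their symbols. -/

namespace Pool.Agent.P.MP_9c97e9_nt.KT

open scoped NNReal Matrix UpperHalfPlane Manifold
open MP_8b7eba_nt.R2
open MP_8b7eba_nt.Mod (M2 G0 UH xx yy nP nM)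
open MP_8b7eba_nt.R1 (IntR IntM Zb QE y1)
open MP_29cb78_nt.E (ee th0)

noncomputable section

/-! ### The field -/

/-- holomorphic functions -/
def OH : Subalgebra ℂ (ℍ → ℂ) where
  carrier := {f | MDifferentiable 𝓘(ℂ) 𝓘(ℂ) f}
  mul_mem' := fun ha hb => ha.mul hb
  add_mem' := fun ha hb => ha.add hb
  algebraMap_mem' := fun _ => mdifferentiable_const

instance : NoZeroDivisors OH := ⟨fun {a b} h => by
  have := (UpperHalfPlane.mul_eq_zero_iff a.2 b.2).1 (congrArg Subtype.val h)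
  exact this.imp Subtype.ext Subtype.ext⟩

instance : IsDomain OH := NoZeroDivisors.to_isDomain _

/-- meromorphic functions -/
abbrev MF : Type := FractionRing OH

/-- holomorphic on the upper half plane -/
abbrev Hol (G : ℂ → ℂ) : Prop := DifferentiableOn ℂ G UH

open Classical in
/-- a holomorphic function as an element of the field -/
def mf (G : ℂ → ℂ) : MF :=
  if h : (fun τ : ℍ => G τ) ∈ OH then algebraMap OH MF ⟨_, h⟩ else 0

/-- the function field of the curve over the rationals -/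
def K0 : Subfield MF := Subfield.closure {mf xx, mf yy}

/-- the largest normal extension inside the meromorphic functions -/
def LL : IntermediateField K0 MF :=
  IntermediateField.adjoin K0 {f | IsIntegral K0 f ∧ ((minpoly K0 f).map (algebraMap K0 MF)).Splits}

/-- holomorphic functions which belong to the extension -/
def InL (G : ℂ → ℂ) : Prop := Hol G ∧ mf G ∈ LL

open Classical in
/-- a holomorphic function as an element of the extension -/
def lf (G : ℂ → ℂ) : LL := if h : mf G ∈ LL then ⟨_, h⟩ else 0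

/-- constants -/
def cst (a : Om) : LL := lf fun _ => io a

/-- all automorphisms -/
abbrev AL : Type := RingAut LL

/-- the arithmetic Galois group -/
def GG : Subgroup AL := fixingSubgroup AL {lf xx, lf yy}

/-- the geometric Galois group -/
def geo : Subgroup AL := GG ⊓ fixingSubgroup AL (Set.range cst)

/-- the action on the constants -/
def cg (g : AL) : GQ := Classical.epsilon fun σ => ∀ a, g (cst a) = cst (σ a)

/-- `t` is the substitution by the inverse of `A` -/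
def IsTr (A : M2) (t : AL) : Prop :=
  ∀ (f : LL) (p q : ℂ → ℂ), Hol p → Hol q → (f : MF) * mf q = mf p →
    (t f : MF) * mf (fun z => q (A.adj.act z)) = mf fun z => p (A.adj.act z)

/-- the substitution by the inverse of `A` -/
def tr (A : M2) : AL := Classical.epsilon (IsTr A)

/-- the substitution by `A` -/
def pb (A : M2) : AL := tr A.adj

/-- matrices of level 15 -/
def Lm (A : M2) : Prop := 0 < A.det ∧ IsCoprime A.det 15 ∧ 15 ∣ A.c

/-- holomorphic elements -/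
def HL : Set LL := {f | ∃ G, InL G ∧ f = lf G}

/-- units -/
def UL : Set LL := {f | ∃ G, InL G ∧ (∀ z : ℂ, 0 < z.im → G z ≠ 0) ∧ f = lf G}

/-- the value at a point -/
def ev (τ : ℂ) (f : LL) : Om := Classical.epsilon fun a => ∃ G, InL G ∧ f = lf G ∧ io a = G τ

/-- points with algebraic coordinates -/
def Alg (τ : ℂ) (x y : Om) : Prop := 0 < τ.im ∧ io x = xx τ ∧ io y = yy τ

/-- the section attached to a point -/
structure Sec (τ : ℂ) (H : Subgroup GQ) (s : GQ → AL) : Prop where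
  alg : ∃ x y, Alg τ x y ∧ Fix H x ∧ Fix H y
  mem : ∀ σ ∈ H, s σ ∈ GG ∧ cg (s σ) = σ
  mul : ∀ σ ∈ H, ∀ σ' ∈ H, s (σ * σ') = s σ * s σ'
  val : ∀ σ ∈ H, ∀ f ∈ HL, ev τ (s σ f) = σ (ev τ f)
  sm : ∀ S : Finset LL, ∃ N, ON N ∧ ∀ σ ∈ H, σ ∈ N → ∀ f ∈ S, s σ f = f

/-- at most exponential growth at all cusps -/
def MG (G : ℂ → ℂ) : Prop :=
  ∀ g : M2, g.det = 1 → ∃ t : ℝ, (fun z => G (g.act z)) =O[MP_8b7eba_nt.Mod.atI]
    MP_8b7eba_nt.Mod.ex t

/-- an algebraic integer as an algebraic number -/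
def zo (a : Zb) : Om := Classical.epsilon fun x => io x = a

/-- `B` is the conjugate of the series `A` -/
def Cj (σ : GQ) (A B : PowerSeries Zb) : Prop :=
  ∀ k, σ (zo (PowerSeries.coeff k A)) = zo (PowerSeries.coeff k B)

/-- the 2-adic value of an integral series -/
def ev2 (A : PowerSeries Zb) (t : ℂ_[2]) : ℂ_[2] := ∑' k, i2 (zo (PowerSeries.coeff k A)) * t ^ k

/-- `v` is the 2-adic value of `G` at the parameter `t = q ^ (1 / w)` -/
def V2a (w : ℕ) (G : ℂ → ℂ) (t v : ℂ_[2]) : Prop := ∃ N A, QE w N A G ∧ v * t ^ N = ev2 A t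

/-- the properties of the cocycle of the division points of the generic point -/
structure IsU (k : ℕ) (u : AL → V2) : Prop where
  int : ∀ g, ‖u g‖ ≤ 1
  sm : Sm1 LL GG u
  co : ∀ g ∈ GG, ∀ h ∈ GG, ‖u (g * h) - u g - T2.rho (cg g) *ᵥ u h‖ ≤ (2 ^ k)⁻¹
  lat : ∃ e₁ e₂ : V2, ‖e₁‖ ≤ 1 ∧ ‖e₂‖ ≤ 1 ∧ ‖dt e₁ e₂‖ = 1 ∧ ∀ γ, G0 γ →
    ‖u (tr γ) - ((nP γ.a γ.c / 4 : ℚ_[2]) • e₁ + (nM γ.a γ.c / 2 : ℚ_[2]) • e₂)‖ ≤ (2 ^ k)⁻¹
  sec : ∀ τ H s x y, Sec τ H s → Alg τ x y → ∃ R : EO, Is (2 ^ k • R) (4 * x) (8 * y) ∧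
    ∀ σ ∈ H, T2.pt ((2 ^ k : ℚ_[2])⁻¹ • u (s σ)) = ac σ R - R

/-- the cocycle of the division points of the generic point -/
def uN (k : ℕ) : AL → V2 := Classical.epsilon (IsU k)

/-! ### Modular units -/

/-- the modular units -/
def uf (b : ℤ) (r₁ r₂ : ℚ) (z : ℂ) : ℂ :=
  ee (-b ^ 2 * z) * (th0 (15 * r₁ * z + r₂ + b * z) (15 * z) *
    th0 (15 * r₁ * z + r₂ - b * z) (15 * z)) /
    (th0 (15 * r₁ * z + r₂ + 4 * b * z) (15 * z) * th0 (15 * r₁ * z + r₂ - 4 * b * z) (15 * z))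

/-- the index set of the symbols of level `M` -/
def Ix (M : ℕ) : Finset (ℕ × (ℕ × ℕ) × ℕ × ℕ) :=
  (Finset.range 15 ×ˢ (Finset.range M ×ˢ Finset.range M) ×ˢ Finset.range M ×ˢ Finset.range M).filter
    fun i => i.1.Coprime 15 ∧ IsCoprime ((i.2.1.1 : ℤ) * i.2.2.2 - i.2.1.2 * i.2.2.1) M

/-- the determinant of an index -/
def dI (M : ℕ) (i : ℕ × (ℕ × ℕ) × ℕ × ℕ) : (ZMod M)ˣ :=
  un ((i.2.1.1 : ZMod M) * i.2.2.2 - i.2.1.2 * i.2.2.1)

/-- the first unit of an index -/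
def uI (M : ℕ) (i : ℕ × (ℕ × ℕ) × ℕ × ℕ) : ℂ → ℂ := uf i.1 (i.2.1.1 / M) (i.2.1.2 / M)

/-- the second unit of an index -/
def vI (M : ℕ) (i : ℕ × (ℕ × ℕ) × ℕ × ℕ) : ℂ → ℂ := uf (2 * i.1) (i.2.2.1 / M) (i.2.2.2 / M)

/-- the symbols of level `M` -/
def E0 (M : ℕ) : Sy LL M := ∑ i ∈ Ix M, Finsupp.single (lf (uI M i), lf (vI M i), dI M i) 1

/-- Hecke correspondences -/
def Cor (m : ℕ) {M : ℕ} (E : Sy LL M) : Sy LL M :=
  ∑ t ∈ IntR m, E.mapDomain fun i => (pb (IntM t) i.1, pb (IntM t) i.2.1, i.2.2)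

/-- the cuspidal symbols -/
def Ep (l M : ℕ) : Sy LL M := Cor l (E0 M) - (l + 1) • E0 M

/-- the values at a point -/
def evE (τ : ℂ) {M : ℕ} (E : Sy LL M) : Sy Om M :=
  E.mapDomain fun i => (ev τ i.1, ev τ i.2.1, i.2.2)

/-- the context of the function field -/
abbrev CL (k M : ℕ) : Cx AL LL := ⟨GG, 2 ^ k, M, cst (ec (2 ^ k)⁻¹), fun g => cy M (cg g)⟩

/-- the context of the algebraic numbers -/
abbrev CO (H : Subgroup GQ) (k M : ℕ) : Cx GQ Om := ⟨H, 2 ^ k, M, ec (2 ^ k)⁻¹, cy M⟩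

open Classical in
/-- reduction of a 2-adic integer -/
def zq (k : ℕ) (x : ℚ_[2]) : ZMod (2 ^ k) :=
  if h : ‖x‖ ≤ 1 then PadicInt.toZModPow k ⟨x, h⟩ else 0

/-- the properties of the zeta cocycle -/
structure ZT (l k M : ℕ) (z : GQ → (ZMod M)ˣ → V2) : Prop where
  int : ∀ g d, ‖z g d‖ ≤ 1
  sm : Sm ⊤ z
  co : ∀ g h d, ‖z (g * h) d - z g d - T2.rho g *ᵥ z h (d * (cy M g)⁻¹)‖ ≤ (2 ^ k)⁻¹
  two : ∀ H τ τ' s s', Sec τ H s → Sec τ' H s' → (CO H k M).Inv (evE τ (Ep l M)) ∧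
    (CO H k M).Eqv
      (((CO H k M).can (evE τ' (Ep l M))).f - ((CO H k M).can (evE τ (Ep l M))).f)
      fun g h d => zq k (dt (z g d) (T2.rho g *ᵥ (uN k (s' h) - uN k (s h))))

end

end Pool.Agent.P.MP_9c97e9_nt.KT
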