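import Pool.Agent.P.MP_9c97e9_nt.KT.Top

/-! Cochains attached to invariant families of symbols, for a group acting on a field. -/

namespace Pool.Agent.P.MP_9c97e9_nt.KT

noncomputable section

variable {G Ω : Type} [Group G] [Field Ω] [MulSemiringAction G Ω]

variable (Ω) in
/-- invariant under the elements which fix a finite set -/
def Sm1 {X : Type} (H : Subgroup G) (c : G → X) : Prop :=
  ∃ S : Finset Ω, ∀ g ∈ H, ∀ n ∈ H, (∀ s ∈ S, n • s = s) → c (g * n) = c g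

variable (Ω) in
/-- the same in two variables -/
def Sm11 {X : Type} (H : Subgroup G) (f : G → G → X) : Prop :=
  ∃ S : Finset Ω, ∀ g ∈ H, ∀ h ∈ H, ∀ n ∈ H, (∀ s ∈ S, n • s = s) →
    f (g * n) h = f g h ∧ f g (h * n) = f g h

variable (Ω) in
/-- the orbits are finite -/
def FO (H : Subgroup G) : Prop := ∀ a : Ω, {b | ∃ g ∈ H, g • a = b}.Finite

/-- multiplicative 2-coboundaries -/
def TrivG (H : Subgroup G) (f : G → G → Ω) : Prop :=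
  ∃ b : G → Ω, Sm1 Ω H b ∧ (∀ g ∈ H, b g ≠ 0) ∧
    ∀ g ∈ H, ∀ h ∈ H, f g h * b (g * h) = b g * g • b h

/-- the discrete logarithm of a root of unity -/
def dlo (ζ : Ω) (N : ℕ) (x : Ω) : ZMod N := Classical.epsilon fun a => ζ ^ a.val = x

/-- a root -/
def rtN (N : ℕ) (u : Ω) : Ω := Classical.epsilon fun r => r ^ N = u

/-- reduction of a unit -/
def red (N : ℕ) {M : ℕ} (d : (ZMod M)ˣ) : ZMod N := ((d : ZMod M).val : ZMod N)

variable (G Ω) in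
/-- a group, a root of unity and a cyclotomic character -/
structure Cx where
  H : Subgroup G
  N : ℕ
  M : ℕ
  ze : Ω
  cy : G → (ZMod M)ˣ

structure Cx.Ok (C : Cx G Ω) : Prop where
  dvd : C.N ∣ C.M
  ne : C.M ≠ 0
  prim : IsPrimitiveRoot C.ze C.N
  mul : ∀ g ∈ C.H, ∀ h ∈ C.H, C.cy (g * h) = C.cy g * C.cy h
  gal : ∀ g ∈ C.H, g • C.ze = C.ze ^ (C.cy g : ZMod C.M).val
  sm : Sm1 Ω C.H C.cy
  fin : FO Ω C.H

/-- the coefficient module -/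
abbrev Cx.A (C : Cx G Ω) : Type := (ZMod C.M)ˣ → ZMod C.N

/-- the action on the coefficient module -/
def Cx.ac (C : Cx G Ω) (g : G) (F : C.A) : C.A := fun d => red C.N (C.cy g) * F (d * (C.cy g)⁻¹)

/-- the coboundary of a cochain -/
def Cx.d1 (C : Cx G Ω) (β : G → C.A) (g h : G) : C.A := C.ac g (β h) - β (g * h) + β g

/-- normalised 2-cocycles -/
structure Cx.Co (C : Cx G Ω) (f : G → G → C.A) : Prop where
  sm : Sm11 Ω C.H f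
  one : f 1 1 = 0
  co : ∀ g ∈ C.H, ∀ h ∈ C.H, ∀ l ∈ C.H, C.ac g (f h l) + f g (h * l) = f (g * h) l + f g h

/-- cohomologous cochains -/
def Cx.Eqv (C : Cx G Ω) (f f' : G → G → C.A) : Prop :=
  ∃ β, Sm1 Ω C.H β ∧ ∀ g ∈ C.H, ∀ h ∈ C.H, f g h - f' g h = C.d1 β g h

/-- the cocycle of the Hochschild-Serre spectral sequence -/
def Cx.kk (C : Cx G Ω) (f : G → G → C.A) (b : G → C.A) (g γ : G) : C.A :=
  f g (g⁻¹ * γ * g) - C.ac g (b (g⁻¹ * γ * g)) - f γ g + b γ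

/-- a family of symbols with chosen roots -/
structure Fam (C : Cx G Ω) (I : Type) where
  act : G → I → I
  m : I →₀ ℤ
  dt : I → (ZMod C.M)ˣ
  r : I → Ω
  r' : I → Ω

structure Fam.Ok {C : Cx G Ω} {I : Type} (F : Fam C I) : Prop where
  one : ∀ i, F.act 1 i = i
  mul : ∀ g ∈ C.H, ∀ h ∈ C.H, ∀ i, F.act (g * h) i = F.act g (F.act h i)
  inv : ∀ g ∈ C.H, ∀ i, F.m (F.act g i) = F.m i
  det : ∀ g ∈ C.H, ∀ i, F.dt (F.act g i) = F.dt i * C.cy g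
  ne : ∀ i, F.m i ≠ 0 → F.r i ≠ 0 ∧ F.r' i ≠ 0
  eq : ∀ g ∈ C.H, ∀ i, F.m i ≠ 0 →
    F.r (F.act g i) ^ C.N = g • F.r i ^ C.N ∧ F.r' (F.act g i) ^ C.N = g • F.r' i ^ C.N
  sm : ∃ S : Finset Ω, ∀ n ∈ C.H, (∀ s ∈ S, n • s = s) → ∀ i, F.m i ≠ 0 → F.act n i = i

/-- the Kummer cochain -/
def Fam.kc {C : Cx G Ω} {I : Type} (F : Fam C I) (ρ : I → Ω) (g : G) (i : I) : ZMod C.N :=
  dlo C.ze C.N (g • ρ (F.act g⁻¹ i) / ρ i)

open Classical in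
/-- the cup product cocycle of a family -/
def Fam.f {C : Cx G Ω} {I : Type} (F : Fam C I) (g h : G) : C.A := fun d =>
  F.m.sum fun i c => if F.dt i = d then
    c * (red C.N d⁻¹ * F.kc F.r g i) * (red C.N (C.cy g) * F.kc F.r' h (F.act g⁻¹ i)) else 0

/-- formal sums of symbols -/
abbrev Sy (Ω : Type) (M : ℕ) : Type := Ω × Ω × (ZMod M)ˣ →₀ ℤ

/-- the formal sum attached to a family -/
def Fam.im {C : Cx G Ω} {I : Type} (F : Fam C I) : Sy Ω C.M :=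
  F.m.mapDomain fun i => (F.r i ^ C.N, F.r' i ^ C.N, F.dt i)

/-- the family attached to a formal sum -/
def Cx.can (C : Cx G Ω) (E : Sy Ω C.M) : Fam C (Ω × Ω × (ZMod C.M)ˣ) where
  act g i := (g • i.1, g • i.2.1, i.2.2 * C.cy g)
  m := E
  dt i := i.2.2
  r i := rtN C.N i.1
  r' i := rtN C.N i.2.1

/-- invariant formal sums -/
def Cx.Inv (C : Cx G Ω) (E : Sy Ω C.M) : Prop :=
  (∀ g ∈ C.H, ∀ i, E ((C.can E).act g i) = E i) ∧
    ∀ i, E i ≠ 0 → (i.1 ≠ 0 ∧ ∃ r, r ^ C.N = i.1) ∧ i.2.1 ≠ 0 ∧ ∃ r, r ^ C.N = i.2.1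

end

/-- the cocycle of a family depends only on the formal sum -/
def GEN : Prop :=
  ∀ (G Ω : Type) [Group G] [Field Ω] [MulSemiringAction G Ω] (C : Cx G Ω), C.Ok →
    (∀ E, C.Inv E → (C.can E).Ok ∧ (C.can E).im = E) ∧
    ∀ (I : Type) (F : Fam C I), F.Ok → C.Co F.f ∧ C.Inv F.im ∧ C.Eqv F.f (C.can F.im).f

/-- Shapiro's lemma -/
def GRP : Prop :=
  ∀ (G Ω : Type) [Group G] [Field Ω] [MulSemiringAction G Ω] (H : Subgroup G) (J : Type) [Fintype J]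
    (a : G → J → J) (F : J → G → G → Ω), FO Ω H → (∀ j, a 1 j = j) →
    (∀ g ∈ H, ∀ h ∈ H, ∀ j, a (g * h) j = a g (a h j)) → Sm1 Ω H a →
    (∀ j, ∀ g ∈ H, ∀ h ∈ H, F j g h ≠ 0) → (∀ j, Sm11 Ω H (F j)) →
    (∀ j, ∀ g ∈ H, ∀ h ∈ H, ∀ l ∈ H,
      g • F (a g⁻¹ j) h l * F j g (h * l) = F j (g * h) l * F j g h) →
    (∀ j, ∃ (j₀ : J) (H₀ : Subgroup G), (∃ g ∈ H, a g j₀ = j) ∧
      (∀ g, g ∈ H₀ ↔ g ∈ H ∧ a g j₀ = j₀) ∧ TrivG H₀ (F j₀)) →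
    TrivG H fun g h => ∏ j, F j g h

/-- the two notions of local constancy agree for the algebraic numbers -/
def SMQ : Prop :=
  ∀ (X : Type) (H : Subgroup MP_8b7eba_nt.R2.GQ), FO MP_8b7eba_nt.R2.Om H ∧
    (∀ c : MP_8b7eba_nt.R2.GQ → X, Sm1 MP_8b7eba_nt.R2.Om H c ↔ MP_8b7eba_nt.R2.Sm H c) ∧
    ∀ f : MP_8b7eba_nt.R2.GQ → MP_8b7eba_nt.R2.GQ → X,
      Sm11 MP_8b7eba_nt.R2.Om H f ↔ MP_8b7eba_nt.R2.Sm2 H f

end Pool.Agent.P.MP_9c97e9_nt.KT
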