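import Pool.Agent.P.MP_9c97e9_nt.KT.Top

/-! Definitions for the Kolyvagin argument. -/

namespace Pool.Agent.P.MP_9c97e9_nt.KT

open scoped NNReal Matrix
open MP_8b7eba_nt.R2
open Filter Topology Polynomial

noncomputable section

/-! ### Measures -/

/-- weights -/
abbrev Wt : Type := GQ → ℚ_[2]

/-- integral weights of level `M` -/
def Wi (M : ℕ) (W : Wt) : Prop := (∀ σ, ‖W σ‖ ≤ 1) ∧ ∀ σ σ', cy M σ = cy M σ' → W σ = W σ'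

/-- translation -/
def tl (W : Wt) (g : GQ) : Wt := fun σ => W (σ * g)

/-- families of cochains with values in measures -/
abbrev MA : Type := ℕ → ℕ → GQ → Wt →ₗ[ℚ_[2]] V2

/-- the measures attached to a family of cochains -/
def mu (z : EA) : MA := fun k M g =>
  ∑ᶠ δ, (LinearMap.proj (Function.invFun (cy M) δ) : Wt →ₗ[ℚ_[2]] ℚ_[2]).smulRight (z k M g δ)

/-- the Euler system in terms of measures -/
structure Dat.MS (D : Dat) (μ : MA) : Prop where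
  le : ∀ k M g W (ε : ℝ), 0 ≤ ε → (∀ σ, ‖W σ‖ ≤ ε) → ‖μ k M g W‖ ≤ ε
  sm : ∀ k M, D.Lv k M → Sm ⊤ (μ k M)
  co : ∀ k M, D.Lv k M → ∀ g h W, Wi M W →
    ‖μ k M (g * h) W - μ k M g W - D.rd g *ᵥ μ k M h (tl W g)‖ ≤ (2 ^ k)⁻¹
  nz : ∀ k M, D.Lv k M → ∀ W, Wi M W → ‖μ k M D.z W‖ ≤ (2 ^ k)⁻¹
  two : ∀ k M, D.Lv k M → ∀ g W, Wi M W → ‖μ k (M * 2) g W - μ k M g W‖ ≤ (2 ^ k)⁻¹
  hec : ∀ k M (w : Pl) φ, D.Lv k M → ¬ w.p ∣ 15 * D.n * M → w.IsFrob 1 φ → ∀ g W, Wi M W →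
    ‖μ k (M * w.p) g W - (μ k M g W -
      ((jacobiSym w.p D.n * ap W15 w.p : ℤ) / w.p : ℚ_[2]) • μ k M g (tl W φ) +
      (w.p : ℚ_[2])⁻¹ • μ k M g (tl W (φ * φ)))‖ ≤ (2 ^ k)⁻¹

/-- the logarithm of a unit modulo `2 ^ (k + 2)` -/
def lu (k : ℕ) (δ : (ZMod (2 ^ (k + 2)))ˣ) : ℕ := lz k (δ : ZMod (2 ^ (k + 2))).val

/-- the characteristic function of a fibre of the logarithm -/
def ind (k j : ℕ) : Wt := fun σ => if (Ps k σ).val = j then 1 else 0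

/-! ### Kolyvagin primes -/

/-- the matrix of `v ↦ dt e v • e` -/
def nu (e : V2) : Mt := !![-(e 0 * e 1), e 0 ^ 2; -e 1 ^ 2, e 0 * e 1]

/-- generators of tame inertia at three and five -/
structure Dat.BadJ (D : Dat) (w : Pl) (t : GQ) (e : V2) (c : ℚ_[2]) : Prop where
  tI : t ∈ w.I
  mov : ∀ β : Om, β ^ 2 = w.p → t β = -β
  e1 : ‖e‖ = 1
  e3 : w.p = 3 → ‖e - ![0, 1]‖ < 1
  e5 : w.p = 5 → ‖e - ![1, 1]‖ < 1
  c0 : c ≠ 0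
  rt : D.rd t = 1 + c • nu e
  fix : ∀ g ∈ w.I, D.rd g *ᵥ e = e ∧ g D.dl = D.dl ∧ cyc g = 1
  fr : ∀ φ, w.IsFrob 1 φ → D.rd φ *ᵥ e = (w.p : ℚ_[2]) • e ∨ D.rd φ *ᵥ e = -(w.p : ℚ_[2]) • e

/-- patched Kolyvagin primes -/
structure Kp (D : Dat) where
  w : ℕ → Pl
  F : GS
  t : GS
  d : ℕ → Wt
  e : V2
  c : ℚ_[2]
  big : ∀ k, ¬ (w k).p ∣ 30 * D.n
  one : ∀ k, (w k).p ≡ 1 [MOD 2 ^ (k + 2)]
  fr : ∀ k, (w k).IsFrob 1 (F k)
  tI : ∀ k, t k ∈ (w k).I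
  mov : ∀ k (β : Om), β ^ 2 = (w k).p → t k β = -β
  dw : ∀ k, Wi (w k).p (d k)
  da : ∀ k σ g, ‖d k (σ * g) - d k σ - d k g‖ ≤ (2 ^ k)⁻¹
  d1 : ∀ k, d k (t k) = 1
  d0 : ∀ k, ‖d k (F k)‖ ≤ (2 ^ k)⁻¹
  tr : ∀ k, (D.rd (F k)).trace = (jacobiSym (w k).p D.n * ap W15 (w k).p : ℤ)
  t2 : ∀ k, ‖(D.rd (F k)).trace - 2‖ ≤ (2 ^ k)⁻¹
  e0 : e ≠ 0
  c0 : c ≠ 0
  lim : ∀ i j, Tendsto (fun k => D.rd (F k) i j) UF (𝓝 ((1 + c • nu e) i j))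

/-- sets of distinct Kolyvagin primes -/
def Ok {D : Dat} (s : Finset (Kp D)) : Prop :=
  ∀ l ∈ s, ∀ l' ∈ s, l ≠ l' → ∀ k, (l.w k).p ≠ (l'.w k).p

/-- the level -/
def ck {D : Dat} (s : Finset (Kp D)) (k : ℕ) : ℕ := 2 ^ (k + 2) * ∏ l ∈ s, (l.w k).p

/-- the weight of the derivative -/
def wt {D : Dat} (s : Finset (Kp D)) (k : ℕ) : Wt := ∏ l ∈ s, l.d k

/-- the derived cochains -/
def der {D : Dat} (μ : MA) (s : Finset (Kp D)) : KA := fun k g j =>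
  μ k (ck s k) g (wt s k * ind k j)

/-! ### Selmer groups -/

section

variable {A : Type} [NormedCommRing A] [NormedAlgebra ℚ_[2] A]

/-- the determinant with a fixed vector -/
def de (e : V2) : (Fin 2 → A) →ₗ[A] A where
  toFun v := e 0 • v 1 - e 1 • v 0
  map_add' v v' := by simp only [Pi.add_apply, smul_add]; abel
  map_smul' a v := by simp only [Pi.smul_apply, smul_eq_mul, RingHom.id_apply, mul_sub, mul_smul_comm]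

/-- the multiples of a fixed vector -/
def ve (e : V2) (a : A) : Fin 2 → A := fun i => e i • a

/-- the diagonal characters at the place above two -/
def Dat.th (D : Dat) (ψ : ℤ_[2] → A) (i : Fin 2) (g : GQ) : A →ₗ[ℚ_[2]] A :=
  LinearMap.mul ℚ_[2] A (D.rd g i i • ψ (la g))

/-- the strict condition -/
def Dat.Str (D : Dat) (ψ : ℤ_[2] → A) (x : GS → Fin 2 → A) : Prop :=
  ∀ g ∈ S1 w2.D, D.ln ψ x g = 0

/-- normalised cocycles, with no condition at two and at the primes of `s` -/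
structure Dat.Rel (D : Dat) (ψ : ℤ_[2] → A) (s : Finset (Kp D)) (x : GS → Fin 2 → A) : Prop where
  pz : PZ (fun _ => ⊤) (D.r ψ) x
  nz : x (cs D.z) = 0
  unr : ∀ (w : ℕ → Pl) (g : GS), (∀ᶠ k in UF, g k ∈ (w k).I ∧ ¬ (w k).p ∣ 30 * D.n ∧
    ∀ l ∈ s, (w k).p ≠ (l.w k).p) → x g = 0
  bad : ∀ w : Pl, w.p ∣ 15 → Cob (S1 w.I) (D.r ψ) x

/-- the dual Selmer group: trivial at two and at the primes of `s` -/
def Dat.DS (D : Dat) (ψ : ℤ_[2] → A) (s : Finset (Kp D)) (x : GS → Fin 2 → A) : Prop :=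
  D.Rel ψ ∅ x ∧ D.Str ψ x ∧ ∀ l ∈ s, de l.e (x l.F) = 0

end

/-- the properties of the Kolyvagin system -/
def Dat.Kol (D : Dat) (v : Finset (Kp D) → KA) : Prop :=
  ∀ s, Ok s → (∀ k g j, ‖v s k g j‖ ≤ 1) ∧
    ∀ (A : Type) [NormedCommRing A] [NormedAlgebra ℚ_[2] A] [IsUltrametricDist A]
      [FiniteDimensional ℚ_[2] A] (ψ : ℤ_[2] → A), IsPsi ψ → D.Rel ψ s (raw ψ (v s)) ∧
      ∀ l (h : l ∉ s), Ok (s.cons l h) →
        raw ψ (v (s.cons l h)) l.t = ve l.e (-l.c • de l.e (raw ψ (v s) l.F))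

end

end Pool.Agent.P.MP_9c97e9_nt.KT
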