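import Pool.Agent.P.MP_9c97e9_nt.KT.TF2X

/-! Definitions for the chapter on the cyclotomic tower. -/

namespace Pool.Agent.P.MP_9c97e9_nt.KT

open scoped NNReal Matrix
open MP_8b7eba_nt.R2
open Filter Topology Polynomial Module

noncomputable section

/-- the conjugates of complex conjugation -/
def ts (s : GQ) : GQ := s * tau * s⁻¹

/-- the Galois group of the cyclotomic field of conductor `2 ^ (k + 2)` -/
def KC (k : ℕ) : Subgroup GQ := KP k ⊓ MulAction.stabilizer GQ (rt (-1))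

/-- units away from two in the fixed field of `U` -/
def U2 (U : Subgroup GQ) (x : Om) : Prop := Fix U x ∧ x ≠ 0 ∧ ∀ w : Pl, w.p ≠ 2 → w.v x = 1

/-- `x` has odd order at `w` and is a unit at the other odd places -/
def Gen (U : Subgroup GQ) (w : Pl) (x : Om) : Prop :=
  Fix U x ∧ x ≠ 0 ∧ ¬ w.Ev (w.D ⊓ U) x ∧ ∀ w' : Pl, w'.p ≠ 2 → Out U {w} w' → w'.v x = 1

/-- characters which are unramified at the odd places -/
def Ch0 (k : ℕ) (χ : GQ → ZMod 2) : Prop :=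
  IsCh (KP k) χ ∧ ∀ w : Pl, w.p ≠ 2 → ∀ j ∈ w.I, χ j = 0

/-- the layers in which all the primes above `n` are visible -/
def Dat.Big (D : Dat) (k : ℕ) : Prop :=
  ∀ p ∈ D.n.primeFactors, (lg (un (p : ℤ_[2]))).valuation ≤ k

/-- approximate cocycles on a layer of the tower -/
structure Dat.Zp (D : Dat) (k i : ℕ) (c : GQ → V2) : Prop where
  sm : Sm (KP k) c
  int : ∀ g, ‖c g‖ ≤ 1
  co : ∀ g ∈ KP k, ∀ h ∈ KP k, ‖c (g * h) - c g - D.rd g *ᵥ c h‖ ≤ (2 ^ i)⁻¹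
  unr : ∀ w : Pl, ¬ w.p ∣ 30 * D.n → ∀ g ∈ w.I, ‖c g‖ ≤ (2 ^ i)⁻¹

/-- approximate cocycles with all the local conditions -/
structure Dat.Zm (D : Dat) (k i : ℕ) (c : GQ → V2) : Prop extends D.Zp k i c where
  nz : ‖c D.z‖ ≤ (2 ^ i)⁻¹
  ord : ∀ g ∈ w2.I ⊓ KP k, ‖c g 1‖ ≤ (2 ^ i)⁻¹
  re : ∀ s, ‖c (ts s) + D.rd (ts s) *ᵥ c (ts s)‖ ≤ (2 ^ (i + 1))⁻¹

/-- quadratic characters of `H` which are unramified outside `30 n` and kill `z`; for `i = 0` they
are trivial at the real places, for `i = 1` unramified at two -/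
structure Dat.Cq (D : Dat) (H : Subgroup GQ) (i : Fin 2) (χ : GQ → ZMod 2) : Prop where
  ch : IsCh H χ
  off : ∀ g, g ∉ H → χ g = 0
  nz : χ D.z = 0
  unr : ∀ w : Pl, ¬ w.p ∣ 30 * D.n → ∀ g ∈ w.I, χ g = 0
  re : i = 0 → ∀ s, χ (ts s) = 0
  ord : i = 1 → ∀ g ∈ w2.I, χ g = 0

/-- normalised cocycles at the top of the tower -/
structure Dat.XC (D : Dat) (c : GQ → V2) : Prop where
  uc : Uc KI c
  co : ∀ g ∈ KI, ∀ h ∈ KI, c (g * h) = c g + D.rd g *ᵥ c h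
  off : ∀ g, g ∉ KI → c g = 0
  nz : c D.z = 0
  ord : ∀ g ∈ w2.I, c g 1 = 0
  unr : ∀ w : Pl, ¬ w.p ∣ 30 * D.n → ∀ g ∈ w.I, c g = 0

/-- the space of the normalised cocycles -/
def Dat.XX (D : Dat) : Submodule ℚ_[2] (GQ → V2) where
  carrier := {c | D.XC c}
  zero_mem' := ⟨(Sm.const 0).uc, by simp, by simp, by simp, by simp, by simp⟩
  add_mem' := fun {c c'} h h' => ⟨h.uc.add h'.uc, fun g hg k hk => by
      simp only [Pi.add_apply, h.co g hg k hk, h'.co g hg k hk, Matrix.mulVec_add]; abel,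
    fun g hg => by simp [h.off g hg, h'.off g hg], by simp [h.nz, h'.nz],
    fun g hg => by simp [h.ord g hg, h'.ord g hg],
    fun w hw g hg => by simp [h.unr w hw g hg, h'.unr w hw g hg]⟩
  smul_mem' := fun a c h => ⟨h.uc.map (a • LinearMap.id), fun g hg k hk => by
      simp only [Pi.smul_apply, h.co g hg k hk, Matrix.mulVec_smul, smul_add],
    fun g hg => by simp [h.off g hg], by simp [h.nz], fun g hg => by simp [h.ord g hg],
    fun w hw g hg => by simp [h.unr w hw g hg]⟩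

/-- the lattice of the integral cocycles -/
def Dat.LL (D : Dat) : Submodule ℤ_[2] (GQ → V2) := TIW0.lat D.XX

open Classical in
/-- the action of the inverse of `s` on normalised cocycles -/
def Dat.cj (D : Dat) (s : GQ) : Module.End ℚ_[2] (GQ → V2) :=
  LinearMap.pi fun g => if g ∈ KI then
    Matrix.toLin' (D.rd s⁻¹) ∘ₗ LinearMap.proj (s * g * s⁻¹) +
      Matrix.toLin' ((2⁻¹ : ℚ_[2]) • (D.rd g - 1) * D.rd s⁻¹) ∘ₗ LinearMap.proj (s * D.z * s⁻¹)
    else 0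

theorem Dat.cj_pos (D : Dat) (s : GQ) (c : GQ → V2) {g : GQ} (hg : g ∈ KI) :
    D.cj s c g = D.rd s⁻¹ *ᵥ c (s * g * s⁻¹) + (2⁻¹ : ℚ_[2]) •
      (D.rd g *ᵥ D.rd s⁻¹ *ᵥ c (s * D.z * s⁻¹) - D.rd s⁻¹ *ᵥ c (s * D.z * s⁻¹)) := by
  rw [Dat.cj, LinearMap.pi_apply, if_pos hg]
  simp only [LinearMap.add_apply, LinearMap.comp_apply, LinearMap.proj_apply, Matrix.toLin'_apply,
    ← Matrix.mulVec_mulVec, Matrix.smul_mulVec, Matrix.sub_mulVec, Matrix.one_mulVec]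

theorem Dat.cj_neg (D : Dat) (s : GQ) (c : GQ → V2) {g : GQ} (hg : g ∉ KI) : D.cj s c g = 0 := by
  rw [Dat.cj, LinearMap.pi_apply, if_neg hg, LinearMap.zero_apply]

/-- the operator `γ⁻¹ - 1` -/
def Dat.Th (D : Dat) : Module.End ℚ_[2] (GQ → V2) := D.cj D.gm - 1

/-- the cochains which are coboundaries on inertia at the places above `p` -/
def Dat.Bad (D : Dat) (p : ℕ) : Submodule ℚ_[2] (GQ → V2) where
  carrier := {c | ∀ w : Pl, w.p = p → ∃ v, ∀ g ∈ w.I, c g = D.rd g *ᵥ v - v}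
  zero_mem' := fun w _ => ⟨0, fun g _ => by simp⟩
  add_mem' := fun {c c'} h h' w hw => by
    obtain ⟨v, hv⟩ := h w hw
    obtain ⟨v', hv'⟩ := h' w hw
    exact ⟨v + v', fun g hg => by rw [Pi.add_apply, hv g hg, hv' g hg, Matrix.mulVec_add]; abel⟩
  smul_mem' := fun a c h w hw => by
    obtain ⟨v, hv⟩ := h w hw
    exact ⟨a • v, fun g hg => by rw [Pi.smul_apply, hv g hg, Matrix.mulVec_smul, smul_sub]⟩

/-- the cocycles with the local conditions at three and five -/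
def Dat.XB (D : Dat) : Submodule ℚ_[2] (GQ → V2) := D.XX ⊓ (D.Bad 3 ⊓ D.Bad 5)

/-- the number of the invariant classes modulo the lattice -/
def Dat.h0 (D : Dat) : ℕ :=
  D.LL.toAddSubgroup.relIndex (D.XX.toAddSubgroup ⊓ D.LL.toAddSubgroup.comap D.Th.toAddMonoidHom)

end

end Pool.Agent.P.MP_9c97e9_nt.KT
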