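import Pool.Agent.P.MP_9c97e9_nt.KT.Top

/-! Definitions for the chapter L of the project KT: groups of local and global cocycles. -/

namespace Pool.Agent.P.MP_9c97e9_nt.KT

open scoped NNReal Matrix
open MP_8b7eba_nt.R2
open Filter Topology Polynomial

noncomputable section

/-! ### Quotients of abelian groups -/

section

variable {X : Type} [AddCommGroup X]

/-- `B / S` is cyclic of order `ν` -/
def Cyc (S B : AddSubgroup X) (ν : ℕ) : Prop :=
  S ≤ B ∧ ∃ y ∈ B, (∀ x ∈ B, ∃ m : ℤ, x - m • y ∈ S) ∧ ∀ m : ℤ, m • y ∈ S ↔ (ν : ℤ) ∣ m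

/-- `B / S` has order `N` and is generated by two elements -/
def Lq (S B : AddSubgroup X) (N : ℕ) : Prop :=
  S ≤ B ∧ S.relIndex B = N ∧ ∃ y ∈ B, ∃ y' ∈ B, ∀ x ∈ B, ∃ a b : ℤ, x - a • y - b • y' ∈ S

end

/-! ### Points -/

/-- points of 2-power order -/
def Tp (P : EO) : Prop := ∃ k : ℕ, 2 ^ k • P = 0

theorem Tp.add {P Q : EO} (h : Tp P) (h' : Tp Q) : Tp (P + Q) := by
  obtain ⟨i, hi⟩ := h
  obtain ⟨j, hj⟩ := h'
  refine ⟨i + j, ?_⟩
  rw [smul_add, pow_add, mul_smul _ _ Q, hj, mul_comm, mul_smul, hi]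
  simp

theorem Tp.neg {P : EO} (h : Tp P) : Tp (-P) := h.imp fun k e => by rw [smul_neg, e, neg_zero]

/-- the coboundary of a point -/
def Dat.cb (D : Dat) (P : EO) (g : GQ) : EO := tac D.dl g P - P

theorem Dat.cb_add (D : Dat) (P Q : EO) (g : GQ) : D.cb (P + Q) g = D.cb P g + D.cb Q g := by
  simp only [Dat.cb, map_add]; abel

theorem Dat.cb_neg (D : Dat) (P : EO) (g : GQ) : D.cb (-P) g = -D.cb P g := by
  simp only [Dat.cb, map_neg]; abel

theorem Dat.cb_zero (D : Dat) (g : GQ) : D.cb 0 g = 0 := by simp [Dat.cb]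

/-- the first line of the torsion points -/
def pE : ℚ_[2] →+ EO := T2.pt.comp (AddMonoidHom.single (fun _ : Fin 2 => ℚ_[2]) 0)

/-- the second line of the torsion points -/
def pF : ℚ_[2] →+ EO := T2.pt.comp (AddMonoidHom.single (fun _ : Fin 2 => ℚ_[2]) 1)

/-- the points of order dividing two -/
def s2 (a b : ZMod 2) : EO := a.val • pE 2⁻¹ + b.val • pF 2⁻¹

/-- the kernel of the reduction as a subgroup -/
def EG (w : Pl) : AddSubgroup EO where
  carrier := {P | E1 w P}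
  zero_mem' := (a_E1G w).1
  add_mem' := fun h h' => (a_E1G w).2.2.1 _ _ h h'
  neg_mem' := fun h => (a_E1G w).2.1 _ h

/-! ### Cocycles -/

open Classical in
/-- the restriction to a subgroup -/
def rs (H : Subgroup GQ) : (GQ → EO) →+ GQ → EO where
  toFun c g := if g ∈ H then c g else 0
  map_zero' := by ext g; simp
  map_add' c d := by ext g; by_cases h : g ∈ H <;> simp [h]

/-- cocycles on `H` with values in the torsion points -/
def Dat.ZH (D : Dat) (H : Subgroup GQ) : AddSubgroup (GQ → EO) where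
  carrier := {c | Sm H c ∧ (∀ g ∈ H, ∀ h ∈ H, c (g * h) = c g + tac D.dl g (c h)) ∧
    (∀ g, g ∉ H → c g = 0) ∧ ∃ i : ℕ, ∀ g, 2 ^ i • c g = 0}
  zero_mem' := ⟨Sm.const 0, by simp, by simp, 0, by simp⟩
  add_mem' := fun {c d} ⟨a1, a2, a3, i, a4⟩ ⟨b1, b2, b3, j, b4⟩ =>
    ⟨a1.comp₂ b1 (· + ·), fun g hg h hh => by
      simp only [Pi.add_apply, a2 g hg h hh, b2 g hg h hh, map_add]; abel,
    fun g hg => by simp [a3 g hg, b3 g hg], i + j, fun g => by
      rw [Pi.add_apply, smul_add, pow_add, mul_smul _ _ (d g), b4, mul_comm, mul_smul, a4]; simp⟩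
  neg_mem' := fun {c} ⟨a1, a2, a3, i, a4⟩ =>
    ⟨a1.comp Neg.neg, fun g hg h hh => by
      simp only [Pi.neg_apply, a2 g hg h hh, map_neg]; abel,
    fun g hg => by simp [a3 g hg], i, fun g => by simp [a4 g]⟩

/-- cocycles which come from points -/
def Dat.LH (D : Dat) (H : Subgroup GQ) : AddSubgroup (GQ → EO) where
  carrier := {c | c ∈ D.ZH H ∧ ∃ P, ∀ g ∈ H, c g = D.cb P g}
  zero_mem' := ⟨zero_mem _, 0, fun g _ => (D.cb_zero g).symm⟩
  add_mem' := fun ⟨a, P, hP⟩ ⟨b, Q, hQ⟩ => ⟨add_mem a b, P + Q, fun g hg => by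
    rw [Pi.add_apply, hP g hg, hQ g hg, D.cb_add]⟩
  neg_mem' := fun ⟨a, P, hP⟩ => ⟨neg_mem a, -P, fun g hg => by
    rw [Pi.neg_apply, hP g hg, D.cb_neg]⟩

/-- coboundaries of torsion points -/
def Dat.BH (D : Dat) (H : Subgroup GQ) : AddSubgroup (GQ → EO) where
  carrier := {c | c ∈ D.ZH H ∧ ∃ P, Tp P ∧ ∀ g ∈ H, c g = D.cb P g}
  zero_mem' := ⟨zero_mem _, 0, ⟨0, by simp⟩, fun g _ => (D.cb_zero g).symm⟩
  add_mem' := fun ⟨a, P, tP, hP⟩ ⟨b, Q, tQ, hQ⟩ => ⟨add_mem a b, P + Q, tP.add tQ, fun g hg => by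
    rw [Pi.add_apply, hP g hg, hQ g hg, D.cb_add]⟩
  neg_mem' := fun ⟨a, P, tP, hP⟩ => ⟨neg_mem a, -P, tP.neg, fun g hg => by
    rw [Pi.neg_apply, hP g hg, D.cb_neg]⟩

/-- local cocycles at two whose values on `S` lie in the kernel of the reduction -/
def Dat.ZE (D : Dat) (S : Subgroup GQ) : AddSubgroup (GQ → EO) where
  carrier := {c | c ∈ D.ZH w2.D ∧ ∀ g ∈ S, c g ∈ EG w2}
  zero_mem' := ⟨zero_mem _, fun _ _ => zero_mem _⟩
  add_mem' := fun a b => ⟨add_mem a.1 b.1, fun g hg => add_mem (a.2 g hg) (b.2 g hg)⟩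
  neg_mem' := fun a => ⟨neg_mem a.1, fun g hg => neg_mem (a.2 g hg)⟩

open Classical in
/-- the relaxed local conditions -/
def Dat.ZO (D : Dat) (w : Pl) : AddSubgroup (GQ → EO) :=
  if w = w2 then D.ZE (w2.I ⊓ KI) else D.ZH w.D

/-- the relaxed Selmer group -/
def Dat.SG (D : Dat) : AddSubgroup (GQ → EO) where
  carrier := {c | D.SH ⊤ c}
  zero_mem' := ⟨Sm.const 0, by simp, by simp, ⟨0, by simp⟩, rfl, fun _ _ => (EG w2).zero_mem,
    fun _ _ _ _ => rfl, fun _ => ⟨0, by simp⟩⟩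
  add_mem' := fun {c d} a b => by
    obtain ⟨h1, h2, h3, h4⟩ :=
      (D.ZH ⊤).add_mem ⟨a.sm, a.co, a.off, a.tor⟩ ⟨b.sm, b.co, b.off, b.tor⟩
    refine ⟨h1, h2, h3, h4, by simp [a.nz, b.nz],
      fun g hg => (EG w2).add_mem (a.ord g hg) (b.ord g hg),
      fun w hw g hg => by simp [a.unr w hw g hg, b.unr w hw g hg], fun s => ?_⟩
    obtain ⟨P, hP⟩ := a.re s
    obtain ⟨Q, hQ⟩ := b.re s
    exact ⟨P + Q, by rw [Pi.add_apply, hP, hQ]; exact (D.cb_add P Q _).symm⟩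
  neg_mem' := fun {c} a => by
    obtain ⟨h1, h2, h3, h4⟩ := (D.ZH ⊤).neg_mem ⟨a.sm, a.co, a.off, a.tor⟩
    refine ⟨h1, h2, h3, h4, by simp [a.nz], fun g hg => (EG w2).neg_mem (a.ord g hg),
      fun w hw g hg => by simp [a.unr w hw g hg], fun s => ?_⟩
    obtain ⟨P, hP⟩ := a.re s
    exact ⟨-P, by rw [Pi.neg_apply, hP]; exact (D.cb_neg P _).symm⟩

/-! ### Local data -/

/-- the order of the 2-part of the group of points modulo two -/
def Dat.nu (D : Dat) : ℕ := if D.n % 8 = 7 then 4 else 2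

/-- the sign which tells whether the multiplicative reduction is split -/
def Dat.ep (D : Dat) (p : ℕ) : ℤ :=
  if (p = 3 ∧ D.n % 3 = 1) ∨ (p = 5 ∧ (D.n % 5 = 1 ∨ D.n % 5 = 4)) then 1 else -1

/-- the local indices -/
def Dat.N (D : Dat) (p : ℕ) : ℕ :=
  if p = 2 then (if D.n % 8 = 7 then 16 else 4) else if p = 3 then 8 else
    if p = 5 then (if D.n % 5 = 1 ∨ D.n % 5 = 4 then 16 else 4) else 4

/-- a generator of the 2-part of tame inertia -/
def Gn (w : Pl) (t : GQ) : Prop := t ∈ w.I ∧ ∀ β : Om, β ^ 2 = w.p → t β = -β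

/-- the structure of the torsion points at three and five -/
structure Dat.S35 (D : Dat) (w : Pl) (t φ : GQ) (E F : ℚ_[2] →+ EO) (u a : ℚ_[2]) : Prop where
  hu : ‖u‖ = 1
  ha : ‖a‖ ≤ 1
  ker : ∀ x y, E x + F y = 0 ↔ ‖x‖ ≤ 1 ∧ ‖y‖ ≤ 1
  tp : ∀ P, Tp P ↔ ∃ x y, P = E x + F y
  IE : ∀ g ∈ w.I, ∀ x, tac D.dl g (E x) = E x
  tF : ∀ y, tac D.dl t (F y) = F y + E (4 * u * y)
  fE : ∀ x, tac D.dl φ (E x) = E (D.ep w.p * w.p * x)
  fF : ∀ y, tac D.dl φ (F y) = F (D.ep w.p * y) + E (a * y)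

/-- `ι` identifies the twisted action with the action on the twist -/
def Dat.Eqv (D : Dat) (ι : EO ≃+ Pt (tw D.n) Om) : Prop :=
  ∀ (g : GQ) (P : EO), pm (tw D.n) (g : Om →+* Om) (ι P) = ι (tac D.dl g P)

/-- elements of `K` are approximated by rational numbers modulo squares -/
def Apx (K : Type) [Field K] [CharZero K] : Prop :=
  ∀ (x : K) (s : Finset ℚ), (∀ e ∈ s, x ≠ e) →
    ∃ q : ℚ, ∀ e ∈ s, q ≠ e ∧ IsSquare (((q : K) - e) * (x - e))

end

end Pool.Agent.P.MP_9c97e9_nt.KT
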