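import Pool.Agent.P.MP_9c97e9_nt.KT.IfF

/-! Definitions for the chapters on modular units and on the cohomology of their symbols. -/

namespace Pool.Agent.P.MP_9c97e9_nt.KT

open scoped NNReal Matrix
open MP_8b7eba_nt.R2
open MP_8b7eba_nt.Mod (M2 G0 UH xx yy nP nM)
open MP_8b7eba_nt.R1 (IntR IntM Zb QE)
open MP_29cb78_nt.E (ee th0)

noncomputable section

/-! ### General cohomology -/

section

variable {G Ω : Type} [Group G] [Field Ω] [MulSemiringAction G Ω]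

/-- a normal subgroup which acts trivially on the coefficients -/
structure Cx.Nm (C : Cx G Ω) (K : Subgroup G) : Prop where
  le : K ≤ C.H
  nm : ∀ g ∈ C.H, ∀ γ ∈ K, g⁻¹ * γ * g ∈ K
  cy : ∀ γ ∈ K, C.cy γ = 1

/-- a cocycle with a splitting on the normal subgroup -/
structure Cx.Sp (C : Cx G Ω) (K : Subgroup G) (f : G → G → C.A) (b : G → C.A) : Prop where
  co : C.Co f
  sm : Sm1 Ω K b
  eq : ∀ g ∈ K, ∀ h ∈ K, f g h = C.d1 b g h

variable (Ω) in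
/-- locally constant homomorphisms -/
def SH1 {X : Type} [Add X] (K : Subgroup G) (ψ : G → X) : Prop :=
  Sm1 Ω K ψ ∧ ∀ g ∈ K, ∀ h ∈ K, ψ (g * h) = ψ g + ψ h

/-- a correspondence -/
structure Crs (G T : Type) where
  x : T → G
  a : G → T → T

/-- the transfer element -/
def Crs.h {T : Type} (R : Crs G T) (g : G) (t : T) : G := (R.x t)⁻¹ * g * R.x (R.a g⁻¹ t)

/-- the action on 1-cochains -/
def Crs.T1 {T X : Type} [Fintype T] [AddCommMonoid X] (R : Crs G T) (ψ : G → X) (g : G) : X :=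
  ∑ t, ψ (R.h g t)

/-- the action on 2-cochains -/
def Crs.T2 {T X : Type} [Fintype T] [AddCommMonoid X] (R : Crs G T) (f : G → G → X) (g h : G) :
    X :=
  ∑ t, f (R.h g t) (R.h h (R.a g⁻¹ t))

/-- the action on formal sums of symbols -/
def Crs.cor {T : Type} [Fintype T] (R : Crs G T) {M : ℕ} (E : Sy Ω M) : Sy Ω M :=
  ∑ t, E.mapDomain fun i => (R.x t • i.1, R.x t • i.2.1, i.2.2)

structure Crs.Ok {T : Type} (R : Crs G T) (C : Cx G Ω) (K : Subgroup G) : Prop where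
  one : ∀ t, R.a 1 t = t
  mul : ∀ g ∈ C.H, ∀ h ∈ C.H, ∀ t, R.a (g * h) t = R.a g (R.a h t)
  mem : ∀ g ∈ C.H, ∀ t, R.h g t * g⁻¹ ∈ K
  ze : ∀ t, R.x t • C.ze = C.ze
  sm : Sm1 Ω C.H R.a

/-- change of the labels -/
def lb {M M' : ℕ} (φ : (ZMod M')ˣ → (ZMod M)ˣ) (E : Sy Ω M') : Sy Ω M :=
  E.mapDomain fun i => (i.1, i.2.1, φ i.2.2)

end

open Classical in
/-- the sum over the fibres of the reduction map -/
def pz {X : Type} [AddCommMonoid X] (M : ℕ) {M' : ℕ} (f : (ZMod M')ˣ → X) (ε : (ZMod M)ˣ) : X :=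
  ∑ᶠ δ : (ZMod M')ˣ, if (ZMod.cast (δ : ZMod M') : ZMod M) = ε then f δ else 0

/-! ### Hecke operators on homomorphisms -/

/-- homomorphisms on the modular group -/
def AdG {X : Type} [AddCommGroup X] (ψ : M2 → X) : Prop :=
  (∀ γ δ, G0 γ → G0 δ → ψ (γ * δ) = ψ γ + ψ δ) ∧ ψ (-1) = 0

/-- the transfer matrix -/
def dm (m : ℕ) (γ : M2) (t : ℕ × ℕ × ℕ) : M2 :=
  Classical.epsilon fun δ => G0 δ ∧ ∃ t' ∈ IntR m, IntM t * γ = δ * IntM t'

/-- the Hecke operator -/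
def MT {X : Type} [AddCommGroup X] (m : ℕ) (ψ : M2 → X) (γ : M2) : X := ∑ t ∈ IntR m, ψ (dm m γ t)

/-- the parabolic generators -/
def par : List M2 := [⟨1, 1, 0, 1⟩, ⟨1, 0, -15, 1⟩, ⟨-14, 5, -45, 16⟩, ⟨-14, 3, -75, 16⟩]

/-- the Hecke correspondence on the function field -/
def HC (m : ℕ) : Crs AL (IntR m) where
  x t := pb (IntM t)
  a g t := @Classical.epsilon _ ⟨t⟩ fun t' => (pb (IntM t'))⁻¹ * g * pb (IntM t) ∈ GG

/-! ### Units -/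

/-- the theta quotient in lattice coordinates -/
def uF (s₁ s₂ r₁ r₂ τ : ℂ) : ℂ :=
  ee (-15 * s₁ * (s₁ * τ + s₂)) * (th0 (r₁ * τ + r₂ + (s₁ * τ + s₂)) τ *
    th0 (r₁ * τ + r₂ - (s₁ * τ + s₂)) τ) /
    (th0 (r₁ * τ + r₂ + 4 * (s₁ * τ + s₂)) τ * th0 (r₁ * τ + r₂ - 4 * (s₁ * τ + s₂)) τ)

/-- pairs of residues -/
abbrev VZ (M : ℕ) : Type := ZMod M × ZMod M

/-- the units indexed by residues, as functions -/
def ug (M : ℕ) (b : ZMod 15) (v : VZ M) : ℂ → ℂ := uf b.val (v.1.val / M) (v.2.val / M)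

/-- the units indexed by residues -/
def Uz (M : ℕ) (b : ZMod 15) (v : VZ M) : LL := lf (ug M b v)

/-- the determinant of two vectors, reduced modulo `M` -/
def dv (M : ℕ) {M' : ℕ} (v v' : VZ M') : ZMod M := ZMod.cast (v.1 * v'.2 - v.2 * v'.1)

open Classical in
/-- sums of symbols of level `M'` with labels modulo `M` -/
def ES0 (M M' : ℕ) [NeZero M'] (P : VZ M' → VZ M' → Prop) : Sy LL M :=
  ∑ b : (ZMod 15)ˣ, ∑ v : VZ M', ∑ v' : VZ M', if IsUnit (dv M v v') ∧ P v v' then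
    Finsupp.single (Uz M' b v, Uz M' (2 * b) v', un (dv M v v')) 1 else 0

/-- the line modulo `p` attached to a Hecke representative -/
def Ln (p : ℕ) (t : ℕ × ℕ × ℕ) {M' : ℕ} (v : VZ M') : Prop :=
  (t.2.2 : ZMod p) * ZMod.cast v.1 = 0 ∧
    (t.1 : ZMod p) * ZMod.cast v.2 = 15 * t.2.1 * ZMod.cast v.1

/-- admissible levels -/
def Lv0 (k M : ℕ) : Prop := M ≠ 0 ∧ 2 ^ k ∣ M ∧ M.Coprime 15

/-- invariant sums of symbols of units -/
def InvU (k M : ℕ) (E : Sy LL M) : Prop :=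
  (CL k M).Inv E ∧ ∀ i, E i ≠ 0 → i.1 ∈ UL ∧ i.2.1 ∈ UL

/-- the cocycle of a sum of symbols -/
def fE (k : ℕ) {M : ℕ} (E : Sy LL M) : AL → AL → (CL k M).A := ((CL k M).can E).f

/-- the translation of the labels -/
def tlU (k : ℕ) {M : ℕ} (c : (ZMod M)ˣ) (F : (CL k M).A) : (CL k M).A :=
  fun d => red (2 ^ k) c⁻¹ * F (d * c⁻¹)

/-- the pairing with the cocycle of the generic point -/
def pu (k : ℕ) (v : V2) (g : AL) : ZMod (2 ^ k) := zq k (dt v (uN k g))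

/-- the defining properties of the zeta cocycle -/
structure ZK (l k M : ℕ) (b : AL → (CL k M).A) (z : GQ → (ZMod M)ˣ → V2) : Prop where
  sp : (CL k M).Sp geo (fE k (E0 M)) b
  int : ∀ g d, ‖z g d‖ ≤ 1
  sm : Sm ⊤ z
  eq : ∀ g ∈ GG, ∀ γ ∈ geo, ∀ d, (HC l).T1 ((CL k M).kk (fE k (E0 M)) b g) γ d -
    (l + 1) * (CL k M).kk (fE k (E0 M)) b g γ d = pu k (z (cg g) d) γ

/-- the Euler factor -/
def eu (p : ℕ) {M : ℕ} (a : ℚ_[2]) (f : (ZMod M)ˣ → V2) (ε : (ZMod M)ˣ) : V2 :=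
  if p ∣ M then f ε else f ε - (a / p) • f (ε * (un (p : ZMod M))⁻¹) +
    (p : ℚ_[2])⁻¹ • f (ε * (un (p : ZMod M))⁻¹ ^ 2)

/-- the norm relation up to a coboundary -/
def NR (k p : ℕ) {M M' : ℕ} (z : GQ → (ZMod M)ˣ → V2) (z' : GQ → (ZMod M')ˣ → V2) : Prop :=
  ∃ m : (ZMod M)ˣ → V2, (∀ d, ‖m d‖ ≤ 1) ∧ ∀ g ε, ‖pz M (z' g) ε - eu p (ap W15 p) (z g) ε -
    (T2.rho g *ᵥ m (ε * (cy M g)⁻¹) - m ε)‖ ≤ (2 ^ k)⁻¹

end

end Pool.Agent.P.MP_9c97e9_nt.KT
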