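import Pool.Agent.P.MP_9c97e9_nt.KT.DefsC

/-! The steps of the computation of the products of Eisenstein series. -/

namespace Pool.Agent.P.MP_9c97e9_nt.KT

open MP_8b7eba_nt.R2 (io)
open MP_8b7eba_nt.Mod (M2 G0 nM an qq atI sl Inv)
open MP_8b7eba_nt.BSD15 (saw crossSum endT)
open MP_29cb78_nt.E (ee th0)
open PowerSeries Finset Filter Topology Cx

/-- the logarithmic derivative as a series -/
def CXZS : Prop :=
  ∀ τ w : ℂ, 0 < τ.im → th0 w τ ≠ 0 → ZZ w τ = -1 / 2 - lG τ w + lG τ (τ - w)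

/-- the first term and the limit of the Lambert series -/
def CXLL : Prop :=
  (∀ τ w : ℂ, 0 < τ.im → lG τ w = ee w / (1 - ee w) + lG τ (τ + w)) ∧
    ∀ x y : ℚ, 0 < x → Tendsto (fun τ => lG τ (x * τ + y)) atI (𝓝 0)

/-- periodicity in the division point -/
def CXEP : Prop :=
  ∀ (x₁ x₂ : ℚ) (τ : ℂ) (m n : ℤ), 0 < τ.im → NZ x₁ x₂ → Ew (x₁ + m) (x₂ + n) τ = Ew x₁ x₂ τ

/-- the transformation law -/
def CXEM : Prop :=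
  ∀ g : M2, g.det = 1 → ∀ (x₁ x₂ : ℚ) (τ : ℂ), 0 < τ.im → NZ x₁ x₂ →
    Ew x₁ x₂ (g.act τ) = g.j τ * Ew (x₁ * g.a + x₂ * g.c) (x₁ * g.b + x₂ * g.d) τ

/-- Lambert series as power series -/
def CXLA : Prop :=
  ∀ (t u : ℂ) (N B : ℕ), ‖t‖ < 1 → ‖u‖ ≤ 1 → 0 < B → B ≤ N →
    HasSum (fun m : ℕ => (∑ c ∈ m.divisors, if (N : ℤ) ∣ c - B then u ^ (m / c) else 0) * t ^ m)
      (∑' n : ℕ, u * t ^ (B + N * n) / (1 - u * t ^ (B + N * n)))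

/-- the expansion at infinity -/
def CXEX : Prop :=
  ∀ (M : ℕ) (a B : ℤ) (z : ℂ), 0 < M → ¬ (15 * M : ℤ) ∣ B → 0 < z.im →
    HasSum (fun n => coeff n (eC M a B) * qq (z / M) ^ n) (Ew (B / (15 * M)) (a / M) (15 * z))

/-- the value at infinity -/
def CXEL : Prop :=
  ∀ x₁ x₂ : ℚ, NZ x₁ x₂ →
    ∃ L, Tendsto (Ew x₁ x₂) atI (𝓝 L) ∧ (Int.fract x₁ ≠ 0 → L = (saw x₁ : ℚ))

/-- the values at the cusps -/
def CXEC : Prop :=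
  ∀ g : M2, g.det = 1 → ∀ x₁ x₂ : ℚ, NZ x₁ x₂ →
    ∃ L, Tendsto (fun z => Ew x₁ x₂ (15 * g.act z) / g.j z) atI (𝓝 L) ∧
      ∀ y : ℚ, y = (x₁ * (15 * g.a) + x₂ * g.c) / Int.gcd 15 g.c → Int.fract y ≠ 0 →
        L = (Int.gcd 15 g.c / 15 * saw y : ℚ)

/-- the forms of the units at the cusps other than infinity -/
def CXFC : Prop :=
  ∀ M : ℕ, 0 < M → M.Coprime 15 → ∀ g : M2, g.det = 1 → ¬ 15 ∣ g.c → ∀ b i₁ i₂ : ℤ,
    IsCoprime b 15 → ∃ L, Tendsto (fun z => Fc M b i₁ i₂ (g.act z) / g.j z) atI (𝓝 L) ∧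
      (L ≠ 0 → (M : ℤ) ∣ i₁ * (15 * g.a) + i₂ * g.c)

/-- periodicity and transformation of the forms of the units -/
def CXFM : Prop :=
  ∀ M : ℕ, 0 < M → M.Coprime 15 → ∀ (b i₁ i₂ : ℤ) (z : ℂ), IsCoprime b 15 → 0 < z.im →
    (∀ b' i₁' i₂' : ℤ, b ≡ b' [ZMOD 15] → i₁ ≡ i₁' [ZMOD M] → i₂ ≡ i₂' [ZMOD M] →
      Fc M b i₁ i₂ z = Fc M b' i₁' i₂' z) ∧
    ∀ (γ : M2) (c : ℤ), γ.det = 1 → γ.c = 15 * c → Fc M b i₁ i₂ (γ.act z) =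
      γ.j z * Fc M (b * γ.a) (i₁ * γ.a + i₂ * c) (i₁ * (15 * γ.b) + i₂ * γ.d) z

/-- permutations of the indices -/
def CXIP : Prop :=
  ∀ (M : ℕ) (δ : (ZMod M)ˣ) (Φ : ℤ → ℤ → ℤ → ℤ → ℤ → ℂ), 0 < M → Per M Φ →
    (∀ (u : ℤ) (g : M2), IsCoprime u 15 → g.det = 1 →
      (sI M δ fun b i₁ i₂ j₁ j₂ => Φ (b * u) (i₁ * g.a + i₂ * g.c) (i₁ * g.b + i₂ * g.d)
        (j₁ * g.a + j₂ * g.c) (j₁ * g.b + j₂ * g.d)) = sI M δ Φ) ∧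
    (sI M δ fun b i₁ i₂ j₁ j₂ => Φ b j₁ (-j₂) i₁ (-i₂)) = sI M δ Φ

/-- invariance -/
def CXGI : Prop :=
  ∀ (M : ℕ) (δ : (ZMod M)ˣ), 0 < M → M.Coprime 15 → ∀ γ, G0 γ → Inv 2 (Gc M δ) γ

/-- vanishing at the cusps other than infinity -/
def CXGC : Prop :=
  ∀ (M : ℕ) (δ : (ZMod M)ˣ), 1 < M → M.Coprime 15 → ∀ g : M2, g.det = 1 → ¬ 15 ∣ g.c →
    Tendsto (sl (Gc M δ) g) atI (𝓝 0)

/-- vanishing at infinity -/
def CXG0 : Prop := ∀ (M : ℕ) (δ : (ZMod M)ˣ), 0 < M → M.Coprime 15 → coeff 0 (gC M δ) = 0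

/-- the expansion of the form of weight two -/
def CXGE : Prop :=
  ∀ (M : ℕ) (δ : (ZMod M)ˣ) (z : ℂ), 0 < M → M.Coprime 15 → 0 < z.im →
    HasSum (fun n => coeff n (gC M δ) * qq (z / M) ^ n) (Gc M δ z)

/-- the coefficients of a cusp form -/
def CXFI : Prop :=
  ∀ (M : ℕ) (G : ℂ → ℂ) (c : ℕ → ℂ), 0 < M →
    (∀ z : ℂ, 0 < z.im → HasSum (fun n => c n * qq (z / M) ^ n) (G z)) → (∀ γ, G0 γ → Inv 2 G γ) →
    (∀ g : M2, g.det = 1 → ¬ 15 ∣ g.c → Tendsto (sl G g) atI (𝓝 0)) → c 0 = 0 →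
    ∀ j, c j = if M ∣ j then c M * an (j / M) else 0

/-- the series over the complex numbers -/
def CXTR : Prop :=
  ∀ (M : ℕ) (δ : (ZMod M)ˣ), 0 < M → M.Coprime 15 → PowerSeries.map io (gd M δ) = gC M δ ∧
    io (SSd M δ) = ∑ ν ∈ range M, zc M (ν * (15 * (δ : ZMod M).val)) * nM ν M

/-- the sum over the indices as a sum over pairs of division points -/
def CXRE : Prop :=
  ∀ (M : ℕ) (δ : (ZMod M)ˣ) (β β' k : ℤ), 0 < M → M.Coprime 15 → IsCoprime β 15 →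
    15 ∣ β' - k * β →
    (sI M δ fun b i₁ i₂ j₁ j₂ => eC M i₂ (15 * i₁ + β * M * b) * eC M j₂ (15 * j₁ + β' * M * b)) =
      hk M (15 * (δ : ZMod M).val) k

/-- the character sum -/
def CXCH : Prop :=
  ∀ (M : ℕ) (B₁ B₂ D i₁ i₂ : ℤ), 0 < M →
    (∑ a₁ ∈ range M, ∑ a₂ ∈ range M,
      if (M : ℤ) ∣ B₁ * a₂ - B₂ * a₁ - D then zc M (a₁ * i₁ + a₂ * i₂) else 0) =
    M * ∑ ν ∈ range M, if (M : ℤ) ∣ i₁ + ν * B₂ ∧ (M : ℤ) ∣ i₂ - ν * B₁ then zc M (ν * D) else 0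

/-- the main part of the coefficient -/
def CXCM : Prop :=
  ∀ (M : ℕ) (D k : ℤ), 0 < M →
    (tri M D k fun B₁ B₂ a₁ a₂ => coeff M (eS M a₁ B₁ * eS M a₂ B₂)) =
      M * ∑ ν ∈ range M, zc M (ν * D) * Mn M ν k

/-- the part of the first constant term -/
def CXC1 : Prop :=
  ∀ (M : ℕ) (D k : ℤ), 0 < M →
    (tri M D k fun B₁ B₂ _ a₂ => (sw M B₁ : ℂ) * coeff M (eS M a₂ B₂)) =
      M * ∑ ν ∈ range M, zc M (ν * D) * En1 M ν k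

/-- the part of the second constant term -/
def CXC2 : Prop :=
  ∀ (M : ℕ) (D k : ℤ), 0 < M →
    (tri M D k fun B₁ B₂ a₁ _ => coeff M (eS M a₁ B₁) * (sw M B₂ : ℂ)) =
      M * ∑ ν ∈ range M, zc M (ν * D) * En2 M ν k

/-- the crossing term -/
def CXCR : Prop :=
  ∀ (g M : ℕ) (ν k : ℤ), 0 < g → 0 < M →
    Mn (g * M) (g * ν) k = crossSum (ν, M) (1, 0) (1, k) (0, 1)

/-- the distribution relation -/
def CXSD : Prop :=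
  ∀ (g N : ℕ) (c : ℤ), 0 < g → 0 < N →
    (∑ B ∈ range (g * N), if (N : ℤ) ∣ B - c then saw (B / (g * N)) else 0) = saw (c / N)

/-- the first end term -/
def CXE1 : Prop :=
  ∀ (g M : ℕ) (ν k : ℤ), 0 < g → 0 < M → M.Coprime 15 → IsCoprime ν M → IsCoprime k 15 →
    En1 (g * M) (g * ν) k = -2 * endT (ν, M) (1, 0) (1, k) (0, 1)

/-- the second end term -/
def CXE2 : Prop :=
  ∀ (g M : ℕ) (ν k : ℤ), 0 < g → 0 < M → M.Coprime 15 → IsCoprime ν M → IsCoprime k 15 →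
    En2 (g * M) (g * ν) k = 2 * endT (ν, M) (1, 0) (0, 1) (1, k)

/-- the modular symbol is determined by three values -/
def CXMS : Prop :=
  psi (0, 1) = 0 → psi (1, 2) = 0 → psi (-1, 4) = -4 →
    ∀ a c : ℤ, IsCoprime a c → IsCoprime c 15 → psi (a, c) = 2 * nM a c

end Pool.Agent.P.MP_9c97e9_nt.KT
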