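import Pool.Agent.P.MP_9c97e9_nt.KT.DefsE

/-! Statements on the local symbols at the place above two. -/

namespace Pool.Agent.P.MP_9c97e9_nt.KT

open scoped NNReal
open MP_8b7eba_nt.R2
open Filter Topology

/-- the decomposition field inside the 2-adic numbers, and the trace -/
def TQX : Prop :=
  (∀ x, Fix w2.D x → algebraMap ℚ_[2] ℂ_[2] (q2 x) = i2 x ∧ ‖q2 x‖ = w2.v x) ∧
  (∀ x y, Fix w2.D x → Fix w2.D y → q2 (x + y) = q2 x + q2 y ∧ q2 (x * y) = q2 x * q2 y) ∧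
  (∀ r : ℚ, q2 r = r) ∧
  (∀ x, Fix w2.D x → w2.v x = 1 → ((art w2 x : ℤ_[2]) : ℚ_[2]) * q2 x = 1) ∧
  ∀ H, w2.Loc H → trq H 0 = 0 ∧ ∀ x, Fix H x → ‖trq H x‖ ≤ w2.v x ∧
    algebraMap ℚ_[2] ℂ_[2] (trq H x) = i2 (csum w2.D H fun g => g x) ∧
    (∀ y, Fix H y → trq H (x + y) = trq H x + trq H y ∧ trq H (x - y) = trq H x - trq H y) ∧
    (∀ r, Fix w2.D r → trq H (r * x) = q2 r * trq H x) ∧ (∀ r : ℚ, trq H (r * x) = r * trq H x) ∧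
    ∀ H', w2.Loc H' → H' ≤ H → trq H' x = H'.relIndex H * trq H x

/-- orbits -/
def ORBS : Prop :=
  ∀ H, w2.Loc H → ∀ (J : Type) [Fintype J] (a : GQ → J → J) (S : J → Subgroup GQ), Act H a S →
    (∀ j, w2.Loc (S j) ∧ S j ≤ H) ∧ (∃ R, Reps H a R) ∧ ∀ R, Reps H a R → ∀ x, Eqi H a x →
      (∀ j, Fix (S j) (x j)) ∧ Fix H (∑ j, x j) ∧ Fix H (∏ j, x j) ∧
      ∏ j, x j = ∏ r ∈ R, nrm H (S r) (x r) ∧ trq H (∑ j, x j) = ∑ r ∈ R, trq (S r) (x r) ∧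
      ((∀ j, x j ≠ 0) → LNm H (∏ j, x j) = ∑ r ∈ R, LNm (S r) (x r))

/-- the logarithm of 2-adic units -/
def PLOG : Prop :=
  IsL5 l5 ∧ ‖l5‖ = 4⁻¹ ∧ ∀ (u : ℤ_[2]ˣ) (m : ℕ), 2 ≤ m → 2 ^ m ∣ (u : ℤ_[2]) - 1 →
    ‖l5 * lg u - (((u : ℤ_[2]) : ℚ_[2]) - 1)‖ ≤ 2 * (4 ^ m)⁻¹

/-- the series of the logarithm -/
def LOG0 : Prop :=
  (∀ y : ℂ_[2], ‖y‖ < 1 → ∃ s, Tendsto (fun X : ℕ => ∑ m ∈ Finset.Icc 1 X, y ^ m / m) atTop (𝓝 s) ∧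
    Tendsto (fun n : ℕ => ((1 - y) ^ 2 ^ n - 1) / 2 ^ n) atTop (𝓝 (-s))) ∧
  (∀ (ι : Type) (s : Finset ι) (a L : ι → ℂ_[2]),
    (∀ i ∈ s, Tendsto (fun n : ℕ => (a i ^ 2 ^ n - 1) / 2 ^ n) atTop (𝓝 (L i))) →
    Tendsto (fun n : ℕ => ((∏ i ∈ s, a i) ^ 2 ^ n - 1) / 2 ^ n) atTop (𝓝 (∑ i ∈ s, L i))) ∧
  ∀ (ρ : ℝ≥0) (j : ℕ), ρ < 1 → ∃ X₀ : ℕ, ∀ t : Om, w2.v t ≤ ρ → ∀ m : ℕ, X₀ < 2 * m →
    w2.v (t ^ m / m) ≤ (2 ^ j)⁻¹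

/-- the logarithm of the norm -/
def LOG : Prop :=
  ∀ H, w2.Loc H → (∀ x y, Fix H x → Fix H y → x ≠ 0 → y ≠ 0 → LNm H (x * y) = LNm H x + LNm H y) ∧
    ∀ z, Fix H z → w2.v z < 1 → ∀ (X : ℕ) (ε : ℝ≥0), (∀ m : ℕ, X < m → w2.v (z ^ m / m) ≤ ε) →
      ‖LNm H (1 - z) - trq H (∑ m ∈ Finset.Icc 1 X, z ^ m / m)‖ ≤ ε

/-- restriction -/
def RESX : Prop :=
  ∀ H H' f, w2.Loc H → w2.Loc H' → H' ≤ H → Co2T H f → nv w2 H' f = nv w2 H f ^ H'.relIndex H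

/-- corestriction -/
def CORP : Prop :=
  ∀ H, w2.Loc H → ∀ (J : Type) [Fintype J] (a : GQ → J → J) (S : J → Subgroup GQ)
    (F : J → GQ → GQ → Om) (R : Finset J), Act H a S → Reps H a R →
    (∀ j, ∀ g ∈ H, ∀ h ∈ H, F j g h ≠ 0) → (∀ j, Sm2 H (F j)) →
    (∀ j, ∀ g ∈ H, ∀ h ∈ H, ∀ l ∈ H,
      g (F (a g⁻¹ j) h l) * F j g (h * l) = F j (g * h) l * F j g h) →
    (∀ r ∈ R, ∃ k : ℕ, Triv (S r) (F r ^ 2 ^ k)) →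
    (Co2T H fun g h => ∏ j, F j g h) ∧ (∀ r ∈ R, Co2T (S r) (F r)) ∧
      (nv w2 H fun g h => ∏ j, F j g h) = ∏ r ∈ R, nv w2 (S r) (F r)

/-- the invariant of cocycles with values in the residues -/
def RVX : Prop :=
  ∀ H k, LH H k → (∀ j ≤ k, LH H j) ∧ (∀ H', w2.Loc H' → H' ≤ H → LH H' k) ∧
    (∀ φ, Co0 H φ → (Co2T H fun g h => ec ((φ g h).val / 2 ^ k)) ∧ rv H k φ ^ 2 ^ k = 1 ∧
      (∀ φ', Co0 H φ' → Co0 H (φ + φ') ∧ rv H k (φ + φ') = rv H k φ * rv H k φ') ∧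
      (∀ c : ℤ, Co0 H (c • φ) ∧ rv H k (c • φ) = rv H k φ ^ c) ∧
      ∀ (φ' : GQ → GQ → ZMod (2 ^ k)) (β : GQ → ZMod (2 ^ k)), Sm H β →
        (∀ g ∈ H, ∀ h ∈ H, φ' g h - φ g h = β h - β (g * h) + β g) →
        Co0 H φ' ∧ rv H k φ' = rv H k φ) ∧
    (∀ (ι : Type) (s : Finset ι) (φ : ι → GQ → GQ → ZMod (2 ^ k)), (∀ i ∈ s, Co0 H (φ i)) →
      Co0 H (∑ i ∈ s, φ i) ∧ rv H k (∑ i ∈ s, φ i) = ∏ i ∈ s, rv H k (φ i)) ∧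
    ∀ M, M ≠ 0 → 2 ^ k ∣ M → (CO H k M).Ok ∧ ((∀ g ∈ H, cy M g = 1) → ∀ f, (CO H k M).Co f →
      (∀ δ, Co0 H fun g h => f g h δ) ∧ ∀ f', (CO H k M).Eqv f' f → ∀ δ,
        (Co0 H fun g h => f' g h δ) ∧ (rv H k fun g h => f' g h δ) = rv H k fun g h => f g h δ)

/-- the Kummer character and the bilinearity of the symbol -/
def SYA : Prop :=
  ∀ H k, LH H k → ∀ u, Fix H u → u ≠ 0 → IsCh H (km k u) ∧
    (∀ r, r ^ 2 ^ k = u → ∀ g ∈ H, g r / r = ec (((km k u g).val : ℚ_[2]) / 2 ^ k)) ∧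
    ∀ v, Fix H v → v ≠ 0 → Co2T H (cup (km k u) v) ∧ sy H k u v ^ 2 ^ k = 1 ∧
      sy H k u v * sy H k v u = 1 ∧ (Co0 H fun g h => km k u g * km k v h) ∧
      (rv H k fun g h => km k u g * km k v h) = sy H k u v ∧
      (∀ v', Fix H v' → v' ≠ 0 → sy H k u (v * v') = sy H k u v * sy H k u v' ∧
        sy H k (v * v') u = sy H k v u * sy H k v' u) ∧
      (∀ m : ℤ, sy H k u (v ^ m) = sy H k u v ^ m ∧ sy H k (v ^ m) u = sy H k v u ^ m) ∧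
      ((∃ r, Fix H r ∧ r ^ 2 ^ k = v) → sy H k u v = 1 ∧ sy H k v u = 1)

/-- powers -/
def POW : Prop :=
  ∀ (H : Subgroup GQ) (k : ℕ), H ≤ w2.D →
    (∀ x, Fix H x → w2.v (x - 1) ≤ (2 ^ (k + 2))⁻¹ → ∃ r, Fix H r ∧ r ^ 2 ^ k = x) ∧
    (∀ (x : Om) (o : ℕ), Odd o → x ^ o = 1 → ∃ j : ℕ, (x ^ j) ^ 2 ^ k = x) ∧
    (Fix H (ec (2 ^ (k + 1))⁻¹) → ∃ r, Fix H r ∧ r ^ 2 ^ k = -1)

/-- the projection formula and the Steinberg relation -/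
def SYB : Prop :=
  ∀ H k, LH H k →
    (∀ (J : Type) [Fintype J] (a : GQ → J → J) (S : J → Subgroup GQ) (R : Finset J) (u : Om)
      (v : J → Om), Act H a S → Reps H a R → Fix H u → u ≠ 0 → Eqi H a v → (∀ j, v j ≠ 0) →
      sy H k u (∏ j, v j) = ∏ r ∈ R, sy (S r) k u (v r)) ∧
    ∀ x, Fix H x → x ≠ 0 → (x ≠ 1 → sy H k x (1 - x) = 1) ∧ sy H k x (-x) = 1 ∧
      (LH H (k + 1) → sy H k x x = 1)

/-- the first formula of Artin and Hasse -/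
def AH1 : Prop :=
  ∀ H k K, k + 2 ≤ K → LH H K → ∀ η, Fix H η → η ≠ 0 → ‖LNm H η‖ ≤ (2 ^ K)⁻¹ ∧
    sy H k (ec (2 ^ K)⁻¹) η = ec (LNm H η / 2 ^ (K + k))

/-- the second formula of Artin and Hasse, odd exponent -/
def AH2O : Prop :=
  ∀ H k K, k + 2 ≤ K → LH H K → ∀ (ξ t : Om) (o c : ℕ) (a : ℤ), Fix H ξ → Odd o → ξ ^ o = 1 →
    Fix H t → t ≠ 0 → Odd c → ξ * ec (a / 2 ^ K) * t ^ c ≠ 1 →
    sy H k t (1 - ξ * ec (a / 2 ^ K) * t ^ c) =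
      ec (-a * (LNm H (1 - ξ * ec (a / 2 ^ K) * t ^ c) / c) / 2 ^ (K + k))

/-- the second formula of Artin and Hasse -/
def AH2 : Prop :=
  ∀ H k K, k + 2 ≤ K → LH H K → ∀ (ξ t : Om) (o c : ℕ) (a : ℤ), Fix H ξ → Odd o → ξ ^ o = 1 →
    Fix H t → t ≠ 0 → 0 < c → (Odd a ∨ Odd c) → ξ * ec (a / 2 ^ K) * t ^ c ≠ 1 →
    ‖LNm H (1 - ξ * ec (a / 2 ^ K) * t ^ c) / c‖ ≤ (2 ^ K)⁻¹ ∧
    sy H k t (1 - ξ * ec (a / 2 ^ K) * t ^ c) =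
      ec (-a * (LNm H (1 - ξ * ec (a / 2 ^ K) * t ^ c) / c) / 2 ^ (K + k))

/-- the symbol of a monomial and a binomial -/
def AH3 : Prop :=
  ∀ H k K X ω κ t, Mo H k K X ω κ t → ω ≠ 0 ∧ w2.v ω = 1 ∧
    sy H k ω t = ec (κ * LNm H t / 2 ^ (K + k)) ∧
    ∀ (a : ℤ) (c : ℕ), 0 < c → (Odd a ∨ Odd c) → Fix H (Iv X (ph ω a c) t) ∧
      ‖trq H (Iv X (ph ω a c) t)‖ ≤ (2 ^ K)⁻¹ ∧ ∀ a' c' : ℤ,
        sy H k (ω ^ a' * t ^ c') (1 - ω ^ a * t ^ c) =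
          ec (κ * (a' * c - a * c') * trq H (Iv X (ph ω a c) t) / 2 ^ (K + k))

/-- the symbol of two binomials -/
def SB : Prop :=
  ∀ H k K X ω κ t, Mo H k K X ω κ t → ∀ (a a' : ℤ) (c c' : ℕ), 0 < c → 0 < c' →
    Odd (a * c' - a' * c) → Fix H (Iv X (ph ω a c * ph ω a' c') t) ∧
    ‖trq H (Iv X (ph ω a c * ph ω a' c') t)‖ ≤ (2 ^ K)⁻¹ ∧
    sy H k (1 - ω ^ a * t ^ c) (1 - ω ^ a' * t ^ c') =
      ec (-κ * (a * c' - a' * c) * trq H (Iv X (ph ω a c * ph ω a' c') t) / 2 ^ (K + k))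

/-- the symbol of two products -/
def SYF : Prop :=
  ∀ H k K X ω κ t, Mo H k K X ω κ t → ∀ (u v : Om) (a c J a' c' J' Δ : ℤ) (P P' : PowerSeries Om),
    Fix H u → Fix H v → PF k X ω t u a c J P → PF k X ω t v a' c' J' P' → Odd Δ →
    2 ^ k ∣ Δ - (a * c' - a' * c) → u ≠ 0 ∧ v ≠ 0 ∧ Fix H (Iv X (P * P') t) ∧
    ‖trq H (Iv X (P * P') t)‖ ≤ (2 ^ K)⁻¹ ∧
    sy H k u v = ec (κ * Δ * (J * J' * LNm H t - trq H (Iv X (P * P') t)) / 2 ^ (K + k))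

open Classical in
/-- the invariant of the cocycle of a family of symbols -/
def FAMT : Prop :=
  ∀ H k M, LH H k → M ≠ 0 → 2 ^ k ∣ M → (∀ g ∈ H, cy M g = 1) →
    ∀ (J : Type) [Fintype J] (a : GQ → J → J) (S : J → Subgroup GQ) (u v x : J → Om)
      (d : J → (ZMod M)ˣ) (c : J → ℤ), Act H a S → Eqi H a u → Eqi H a v → Eqi H a x →
      (∀ g ∈ H, ∀ j, d (a g j) = d j ∧ c (a g j) = c j) → (∀ j, u j ≠ 0 ∧ v j ≠ 0) →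
      (CO H k M).Inv (∑ j, Finsupp.single (u j, v j, d j) (c j)) ∧ ∀ δ,
      (∀ j, d j = δ → sy (S j) k (u j) (v j) = ec (trq (S j) (x j))) →
      (rv H k fun g h => ((CO H k M).can (∑ j, Finsupp.single (u j, v j, d j) (c j))).f g h δ) =
        ec (trq H (∑ j with d j = δ, c j * x j)) ^ (red (2 ^ k) δ⁻¹).val

end Pool.Agent.P.MP_9c97e9_nt.KT
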