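import Pool.Agent.P.MP_9c97e9_nt.KT.DefsF

/-! The statements exported by the chapter on the function field. -/

namespace Pool.Agent.P.MP_9c97e9_nt.KT

open scoped NNReal Matrix
open MP_8b7eba_nt.R2
open MP_8b7eba_nt.Mod (M2 G0 UH xx yy nP nM)
open MP_8b7eba_nt.R1 (IntR IntM Zb QE y1 ze)

/-- a finite family of functions with integral expansions, stable under the group and under
conjugation -/
structure QF (w N : ℕ) {I : Type} (G : I → ℂ → ℂ) (A : I → PowerSeries Zb) : Prop where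
  ne : w ≠ 0
  fin : Finite I
  hol : ∀ i, Hol (G i)
  mg : ∀ i, MG (G i)
  qe : ∀ i, QE w N (A i) (G i)
  inv : ∀ γ, G0 γ → ∀ i, ∃ j, Set.EqOn (fun z => G i (γ.act z)) (G j) UH
  cj : ∀ σ i, ∃ j, Cj σ (A i) (A j)

/-- elementary properties of the field -/
def FB : Prop :=
  (∃ c : Om →+* LL, ∀ a, c a = cst a) ∧ InL xx ∧ InL yy ∧ (∀ a : Om, InL fun _ => io a) ∧
  (∀ G H, InL G → Set.EqOn H G UH → InL H) ∧
  (∀ G H, InL G → InL H → InL (G + H) ∧ InL (G * H) ∧ InL (-G) ∧ lf (G + H) = lf G + lf H ∧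
    lf (G * H) = lf G * lf H ∧ lf (-G) = -lf G ∧ (lf G = lf H ↔ Set.EqOn G H UH)) ∧
  (∀ g ∈ GG, ∀ a, g (cst a) = cst (cg g a)) ∧ FO LL GG ∧
  (∀ (x : LL) (N : ℕ), N ≠ 0 → x ^ N = 1 → ∃ a, x = cst a) ∧
  ∀ a : Zb, io (zo a) = a

/-- substitutions -/
def TR : Prop :=
  (∀ A, Lm A → IsTr A (tr A) ∧ (∀ a, tr A (cst a) = cst a) ∧
    (∀ B, Lm B → tr (A * B) = tr A * tr B) ∧
    ∀ G, InL G → InL (fun z => G (A.act z)) ∧ pb A (lf G) = lf fun z => G (A.act z)) ∧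
  (∀ m : ℤ, IsCoprime m 15 → tr ⟨m, 0, 0, m⟩ = 1) ∧ ∀ γ, G0 γ → tr γ ∈ geo

/-- the modular group is dense in the geometric Galois group -/
def DENSE : Prop := ∀ g ∈ geo, ∀ S : Finset LL, ∃ γ, G0 γ ∧ ∀ s ∈ S, g s = tr γ s

/-- the action on the Hecke representatives -/
def HEC : Prop :=
  ∀ m : ℕ, m ≠ 0 → m.Coprime 15 → ∀ g ∈ GG, ∀ t ∈ IntR m,
    ∃! t', t' ∈ IntR m ∧ (pb (IntM t'))⁻¹ * g * pb (IntM t) ∈ GG

/-- sections at algebraic points -/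
def SECX : Prop :=
  (∀ τ x y H, Alg τ x y → Fix H x → Fix H y → ∃ s, Sec τ H s) ∧
  ∃ τ x y, Alg τ x y ∧ Fix ⊤ x ∧ Fix ⊤ y

/-- holomorphic elements and units -/
def UNITS : Prop :=
  (∀ g ∈ GG, (∀ f ∈ HL, g f ∈ HL) ∧ ∀ f ∈ UL, g f ∈ UL) ∧
  (∀ u ∈ UL, ∀ N : ℕ, N ≠ 0 → ∃ r ∈ UL, r ^ N = u) ∧
  ∀ τ x y, Alg τ x y → ∀ G, InL G → io (ev τ (lf G)) = G τ

/-- the Galois action on expansions -/
def GALX : Prop :=
  ∀ (w N : ℕ) (I : Type) (G : I → ℂ → ℂ) (A : I → PowerSeries Zb), QF w N G A →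
    (∀ i, InL (G i)) ∧
    ∀ σ, ∃ g ∈ GG, cg g = σ ∧ ∀ i j, Cj σ (A i) (A j) → g (lf (G i)) = lf (G j)

/-- 2-adic values are values at a point of the upper half plane -/
def CONJ : Prop :=
  ∀ (w N : ℕ) (I : Type) (G : I → ℂ → ℂ) (A : I → PowerSeries Zb), QF w N G A →
    ∀ (t : ℂ_[2]) (x y : Om), t ≠ 0 → ‖t‖ < 1 → V2a w xx t (i2 x) → V2a w yy t (i2 y) →
      ∃ τ, Alg τ x y ∧ ∀ i, i2 (ev τ (lf (G i))) * t ^ N = ev2 (A i) t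

/-- the division points of the generic point -/
def PRX : Prop := ∀ k, IsU k (uN k)

/-- symbols of units are trivial on the geometric Galois group -/
def TRIV : Prop :=
  ∀ (k M : ℕ) (E : Sy LL M), M ≠ 0 → 2 ^ k ∣ M → (CL k M).Inv E →
    (∀ i, E i ≠ 0 → i.1 ∈ UL ∧ i.2.1 ∈ UL) → ∃ b, Sm1 LL geo b ∧
      ∀ g ∈ geo, ∀ h ∈ geo, ((CL k M).can E).f g h = (CL k M).d1 b g h

end Pool.Agent.P.MP_9c97e9_nt.KT
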