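import Pool.Agent.P.MP_9c97e9_nt.KT.DefsG

/-! Vanishing of the second cohomology for function fields of curves: the general part. -/

namespace Pool.Agent.P.MP_9c97e9_nt.KT

section

variable {G Ω : Type} [Group G] [Field Ω] [MulSemiringAction G Ω]

/-- `x` is fixed by `H` -/
def FxG (H : Subgroup G) (x : Ω) : Prop := ∀ g ∈ H, g • x = x

variable (Ω) in
/-- ternary quadratic forms over the fixed field are isotropic -/
def Iso (H : Subgroup G) : Prop :=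
  ∀ u a : Ω, FxG H u → FxG H a → ∃ X Y Z : Ω, FxG H X ∧ FxG H Y ∧ FxG H Z ∧
    (X ≠ 0 ∨ Y ≠ 0 ∨ Z ≠ 0) ∧ X ^ 2 = u * Y ^ 2 + a * Z ^ 2

/-- multiplicative 2-cocycles -/
structure Co2G (H : Subgroup G) (f : G → G → Ω) : Prop where
  ne : ∀ g ∈ H, ∀ h ∈ H, f g h ≠ 0
  sm : Sm11 Ω H f
  co : ∀ g ∈ H, ∀ h ∈ H, ∀ l ∈ H, g • f h l * f g (h * l) = f (g * h) l * f g h

/-- the elements of `H` which fix `S` -/
def NFx (H : Subgroup G) (S : Finset Ω) : Subgroup G := H ⊓ fixingSubgroup G (S : Set Ω)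

/-- `S` is stable under `H` -/
def Stb (H : Subgroup G) (S : Finset Ω) : Prop := ∀ g ∈ H, ∀ s ∈ S, g • s ∈ S

namespace BT

variable {H H' : Subgroup G} {S T : Finset Ω} {g n : G} {X Y Z : Type}

theorem mem_NF : n ∈ NFx H S ↔ n ∈ H ∧ ∀ s ∈ S, n • s = s :=
  and_congr Iff.rfl (mem_fixingSubgroup_iff G)

theorem NF_le : NFx H S ≤ H := inf_le_left

theorem NF_anti (h : S ⊆ T) : NFx H T ≤ NFx H S :=
  fun _ hn => mem_NF.2 ⟨hn.1, fun s hs => (mem_NF.1 hn).2 s (h hs)⟩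

theorem FO_mono (h : FO Ω H) (h' : H' ≤ H) : FO Ω H' :=
  fun a => (h a).subset fun _ ⟨g, hg, e⟩ => ⟨g, h' hg, e⟩

theorem exists_stb (h : FO Ω H) (S : Finset Ω) : ∃ T, S ⊆ T ∧ Stb H T := by
  classical
  refine ⟨S.biUnion fun a => (h a).toFinset, fun s hs => Finset.mem_biUnion.2
    ⟨s, hs, (h s).mem_toFinset.2 ⟨1, H.one_mem, one_smul _ _⟩⟩, fun g hg s hs => ?_⟩
  obtain ⟨a, ha, e⟩ := Finset.mem_biUnion.1 hs
  obtain ⟨k, hk, rfl⟩ := (h a).mem_toFinset.1 e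
  exact Finset.mem_biUnion.2 ⟨a, ha, (h a).mem_toFinset.2 ⟨g * k, H.mul_mem hg hk, mul_smul _ _ _⟩⟩

theorem stb_mono (h : Stb H S) (h' : H' ≤ H) : Stb H' S := fun g hg => h g (h' hg)

theorem fix_conj (h : Stb H S) (hg : g ∈ H) (hn : ∀ s ∈ S, n • s = s) :
    ∀ s ∈ S, (g⁻¹ * n * g) • s = s := fun s hs => by
  rw [mul_smul, mul_smul, hn _ (h g hg s hs), inv_smul_smul]

theorem conj_NF (h : Stb H S) (hg : g ∈ H) (hn : n ∈ NFx H S) : g⁻¹ * n * g ∈ NFx H S :=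
  mem_NF.2 ⟨H.mul_mem (H.mul_mem (H.inv_mem hg) hn.1) hg, fix_conj h hg (mem_NF.1 hn).2⟩

theorem normal_NF (h : Stb H S) : ((NFx H S).subgroupOf H).Normal :=
  ⟨fun n hn g => by
    have := conj_NF h (H.inv_mem g.2) (Subgroup.mem_subgroupOf.1 hn)
    rw [inv_inv] at this
    exact this⟩

theorem relIndex_NF (h : FO Ω H) (S : Finset Ω) : (NFx H S).relIndex H ≠ 0 := by
  have : ∀ s : S, Finite {b | ∃ g ∈ H, g • (s : Ω) = b} := fun s => (h s).to_subtype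
  let φ : H ⧸ (NFx H S).subgroupOf H → ∀ s : S, {b | ∃ g ∈ H, g • (s : Ω) = b} :=
    fun q s => ⟨(q.out : G) • (s : Ω), _, q.out.2, rfl⟩
  have : Finite (H ⧸ (NFx H S).subgroupOf H) := Finite.of_injective φ fun q q' e => by
    rw [← q.out_eq', ← q'.out_eq', QuotientGroup.eq]
    refine mem_NF.2 ⟨(q.out⁻¹ * q'.out).2, fun s hs => ?_⟩
    have : (q.out : G) • s = (q'.out : G) • s := congrArg Subtype.val (congrFun e ⟨s, hs⟩)
    show ((q.out : G)⁻¹ * q'.out) • s = s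
    rw [mul_smul, ← this, inv_smul_smul]
  exact Subgroup.index_ne_zero_of_finite

theorem sm1_iff {c : G → X} : Sm1 Ω H c ↔ ∃ S : Finset Ω, ∀ g ∈ H, ∀ n ∈ NFx H S, c (g * n) = c g :=
  exists_congr fun _ => forall₂_congr fun _ _ => forall_congr' fun _ =>
    ⟨fun h hn => h hn.1 (mem_NF.1 hn).2, fun h h1 h2 => h (mem_NF.2 ⟨h1, h2⟩)⟩

theorem sm1_const (x : X) : Sm1 Ω H fun _ => x := ⟨∅, fun _ _ _ _ _ => rfl⟩

theorem sm1_smul (x : Ω) : Sm1 Ω H fun g => g • x :=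
  ⟨{x}, fun g _ n _ h => by simp only [mul_smul, h x (Finset.mem_singleton_self x)]⟩

theorem sm1_mono {c : G → X} (h : Sm1 Ω H c) (h' : H' ≤ H) : Sm1 Ω H' c :=
  h.imp fun _ e g hg n hn => e g (h' hg) n (h' hn)

theorem sm1_congr {c c' : G → X} (h : Sm1 Ω H c) (e : ∀ g ∈ H, c' g = c g) : Sm1 Ω H c' :=
  h.imp fun _ e' g hg n hn hs => by rw [e _ (H.mul_mem hg hn), e g hg, e' g hg n hn hs]

theorem sm1_comp {c : G → X} (h : Sm1 Ω H c) (F : X → Y) : Sm1 Ω H fun g => F (c g) :=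
  h.imp fun _ e g hg n hn hs => congrArg F (e g hg n hn hs)

theorem sm1_comp₂ {c : G → X} {c' : G → Y} (h : Sm1 Ω H c) (h' : Sm1 Ω H c') (F : X → Y → Z) :
    Sm1 Ω H fun g => F (c g) (c' g) := by
  classical
  obtain ⟨S, e⟩ := h
  obtain ⟨T, e'⟩ := h'
  exact ⟨S ∪ T, fun g hg n hn hs => by
    beta_reduce
    rw [e g hg n hn fun s h => hs s (Finset.mem_union_left _ h),
      e' g hg n hn fun s h => hs s (Finset.mem_union_right _ h)]⟩

theorem sm1_pi {ι : Type} [Finite ι] {c : G → ι → X} (h : ∀ i, Sm1 Ω H fun g => c g i) :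
    Sm1 Ω H c := by
  classical
  have := Fintype.ofFinite ι
  choose S e using h
  exact ⟨Finset.univ.biUnion S, fun g hg n hn hs => funext fun i => e i g hg n hn fun s h =>
    hs s (Finset.mem_biUnion.2 ⟨i, Finset.mem_univ _, h⟩)⟩

/-- composition with a conjugation which maps `H'` to `H` -/
theorem sm1_conj {c : G → X} (h : Sm1 Ω H c) (u : G) (e : ∀ g ∈ H', u⁻¹ * g * u ∈ H) :
    Sm1 Ω H' fun g => c (u⁻¹ * g * u) := by
  classical
  obtain ⟨S, e'⟩ := h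
  refine ⟨S.image (u • ·), fun g hg n hn hs => ?_⟩
  beta_reduce
  rw [show u⁻¹ * (g * n) * u = u⁻¹ * g * u * (u⁻¹ * n * u) by group, e' _ (e g hg) _ (e n hn)
    fun s h => by rw [mul_smul, mul_smul, hs _ (Finset.mem_image_of_mem _ h), inv_smul_smul]]

theorem sm11_left {f : G → G → X} (h : Sm11 Ω H f) {u : G} (hu : u ∈ H) : Sm1 Ω H fun g => f g u :=
  h.imp fun _ e g hg n hn hs => (e g hg u hu n hn hs).1

theorem sm11_right {f : G → G → X} (h : Sm11 Ω H f) {u : G} (hu : u ∈ H) : Sm1 Ω H (f u) :=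
  h.imp fun _ e g hg n hn hs => (e u hu g hg n hn hs).2

theorem sm11_mono {f : G → G → X} (h : Sm11 Ω H f) (h' : H' ≤ H) : Sm11 Ω H' f :=
  h.imp fun _ e g hg k hk n hn => e g (h' hg) k (h' hk) n (h' hn)

theorem co_mono {f : G → G → Ω} (h : Co2G H f) (h' : H' ≤ H) : Co2G H' f :=
  ⟨fun g hg k hk => h.ne g (h' hg) k (h' hk), sm11_mono h.sm h',
    fun g hg k hk l hl => h.co g (h' hg) k (h' hk) l (h' hl)⟩

end BT

end

/-- systems of quadratic equations over an algebraically closed field -/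
def TS0 : Prop :=
  ∀ (k V E : Type) [Field k] [IsAlgClosed k] [AddCommGroup V] [Module k V] [FiniteDimensional k V]
    [AddCommGroup E] [Module k E] (B : V →ₗ[k] V →ₗ[k] E) (W : Submodule k E)
    [FiniteDimensional k W], Module.finrank k W < Module.finrank k V → (∀ v v', B v v' ∈ W) →
    ∃ v, v ≠ 0 ∧ B v v = 0

/-- the theorem of Tsen for ternary quadratic forms -/
def TS1 : Prop :=
  ∀ (k Ω : Type) [Field k] [IsAlgClosed k] [Field Ω] [Algebra k Ω] (x u a : Ω),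
    IsAlgebraic (Algebra.adjoin k {x}) u → IsAlgebraic (Algebra.adjoin k {x}) a →
    ∃ X ∈ Algebra.adjoin k {x, u, a}, ∃ Y ∈ Algebra.adjoin k {x, u, a},
      ∃ Z ∈ Algebra.adjoin k {x, u, a}, (X ≠ 0 ∨ Y ≠ 0 ∨ Z ≠ 0) ∧ X ^ 2 = u * Y ^ 2 + a * Z ^ 2

/-- Hilbert's theorem 90 -/
def H90G : Prop :=
  ∀ (G Ω : Type) [Group G] [Field Ω] [MulSemiringAction G Ω] (H : Subgroup G) (b : G → Ω),
    FO Ω H → Sm1 Ω H b → (∀ g ∈ H, b g ≠ 0) → (∀ g ∈ H, ∀ h ∈ H, b (g * h) = b g * g • b h) →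
    ∃ y : Ω, y ≠ 0 ∧ ∀ g ∈ H, g • y = b g * y

/-- the step of index two -/
def ST2 : Prop :=
  ∀ (G Ω : Type) [Group G] [Field Ω] [CharZero Ω] [MulSemiringAction G Ω] (H H' : Subgroup G)
    (S : Finset Ω) (f : G → G → Ω), FO Ω H → Iso Ω H → H' ≤ H → H'.relIndex H = 2 → NFx H S ≤ H' →
    Co2G H f → TrivG H' f → TrivG H f

/-- cocycles with values in the roots of unity of 2-power order split -/
def TRG : Prop :=
  ∀ (G Ω : Type) [Group G] [Field Ω] [CharZero Ω] [MulSemiringAction G Ω] (H : Subgroup G) (k : ℕ)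
    (f : G → G → Ω), FO Ω H → (∀ H' ≤ H, Iso Ω H') → Co2G H f → f 1 1 = 1 →
    (∀ g ∈ H, ∀ h ∈ H, f g h ^ 2 ^ k = 1) → TrivG H f

/-- square roots of holomorphic functions -/
def SQH : Prop :=
  ∀ F : ℂ → ℂ, DifferentiableOn ℂ F {z | 0 < z.im} →
    (∀ z : ℂ, 0 < z.im → Even (analyticOrderNatAt F z)) →
    ∃ R : ℂ → ℂ, DifferentiableOn ℂ R {z | 0 < z.im} ∧ ∀ z : ℂ, 0 < z.im → R z ^ 2 = F z

end Pool.Agent.P.MP_9c97e9_nt.KT
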