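import Pool.Agent.P.MP_9c97e9_nt.KT.IfF
import Pool.Agent.P.MP_9c97e9_nt.KT.IfT
import Pool.Agent.P.MP_8b7eba_nt.R1.V2
import Pool.Agent.P.MP_8b7eba_nt.R1.Aut

/-! Internal statements of the chapter on the function field: algebra and analysis. -/

namespace Pool.Agent.P.MP_9c97e9_nt.KT

open scoped NNReal Matrix Polynomial PowerSeries
open MP_8b7eba_nt.R2
open MP_8b7eba_nt.Mod (M2 G0 UH xx yy nP nM FI L0 om lv qq atI)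
open MP_8b7eba_nt.R1 (IntR IntM Zb QE HB U8 Aut)
open Filter Topology

noncomputable section

/-- invariant functions -/
def IvF (G : ℂ → ℂ) : Prop := ∀ γ, G0 γ → ∀ z : ℂ, 0 < z.im → G (γ.act z) = G z

/-- `G'` is conjugate to `G` -/
def Cq (w : ℕ) (σ : GQ) (G G' : ℂ → ℂ) : Prop := ∃ N A B, QE w N A G ∧ QE w N B G' ∧ Cj σ A B

/-- the complex uniformisation -/
structure Un (L : PeriodPair) (h : ℂ →+ Pt W15 ℂ) : Prop where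
  ker : ∀ w, h w = 0 ↔ w ∈ L.lattice
  is : ∀ w, w ∉ L.lattice → Is (h w) (4 * L.weierstrassP w + 7 / 3) (8 * L.derivWeierstrassP w)
  fi : ∀ z : ℂ, 0 < z.im → Is (h (FI z)) (4 * xx z) (8 * yy z)
  lat : ∀ a b : ℤ, h (a * L0 + b * om * Complex.I) = 0 ↔ 4 ∣ a ∧ 2 ∣ b
  per : ∀ γ, G0 γ → h (lv γ.a γ.c) = 0
  tor : ∀ (k : ℕ) T, 2 ^ k • T = 0 → ∃ w, h w = T

end

/-! ### Groups acting on fields -/

/-- avoiding finitely many hyperplanes -/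
def AVD : Prop :=
  ∀ (Ω I : Type) [Field Ω] [CharZero Ω] [Fintype I] (T : Set (I → Ω)), T.Finite → 0 ∉ T →
    ∃ c : I → ℕ, ∀ t ∈ T, ∑ i, (c i : Ω) * t i ≠ 0

/-- a subgroup with the same fixed field is dense -/
def DNS : Prop :=
  ∀ (G Ω : Type) [Group G] [Field Ω] [CharZero Ω] [MulSemiringAction G Ω] (H Γ : Subgroup G),
    FO Ω H → Γ ≤ H → (∀ x : Ω, FxG Γ x → FxG H x) →
    ∀ g ∈ H, ∀ S : Finset Ω, ∃ γ ∈ Γ, ∀ s ∈ S, g • s = γ • s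

/-! ### Complex numbers and power series -/

/-- descent of linear relations -/
def LDS : Prop :=
  ∀ (K I : Type) [Field K] [Fintype I] (e : K →+* ℂ) (s : ℕ → K) (t : I → ℕ → K) (c : I → ℂ),
    (∀ n, e (s n) = ∑ i, c i * e (t i n)) → ∃ c' : I → K, ∀ n, s n = ∑ i, c' i * t i n

/-- automorphisms of the complex numbers -/
def AUT : Prop :=
  (∀ σ : GQ, ∃ s : Aut, ∀ a, s (io a) = io (σ a)) ∧
  (∀ s : Aut, ∃ σ : GQ, ∀ a, s (io a) = io (σ a)) ∧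
  ∀ (c : ℂ) (x y : Om), {d | ∃ s : Aut, s (io x) = io x ∧ s (io y) = io y ∧ s c = d}.Finite →
    ∃ a, io a = c

/-! ### Holomorphic functions -/

/-- roots of functions without zeros -/
def ROOT0 : Prop :=
  ∀ (G : ℂ → ℂ) (N : ℕ), N ≠ 0 → Hol G → (∀ z : ℂ, 0 < z.im → G z ≠ 0) →
    ∃ R, Hol R ∧ ∀ z : ℂ, 0 < z.im → R z ^ N = G z

/-- the pigeonhole principle -/
def PIG : Prop :=
  ∀ (I : Type) [Countable I] (F F' : I → ℂ → ℂ), (∀ i, Hol (F i) ∧ Hol (F' i)) →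
    (∀ z : ℂ, 0 < z.im → ∃ i, F i z = 0 ∧ F' i z = 0) →
    ∃ i, ∀ z : ℂ, 0 < z.im → F i z = 0 ∧ F' i z = 0

/-- moderate growth -/
def MGB : Prop :=
  MG xx ∧ MG yy ∧ (∀ c : ℂ, MG fun _ => c) ∧
  (∀ G H, MG G → MG H → MG (G + H) ∧ MG (G * H)) ∧
  (∀ G H, MG G → Set.EqOn H G UH → MG H) ∧
  (∀ G (A : M2), 0 < A.det → MG G → MG fun z => G (A.act z)) ∧
  ∀ (G : ℂ → ℂ) (n : ℕ) (a : ℕ → ℂ → ℂ), (∀ i, MG (a i)) →
    (∀ z : ℂ, 0 < z.im → G z ^ n + ∑ i ∈ Finset.range n, a i z * G z ^ i = 0) → MG G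

/-- no function has only one simple pole -/
def NSP : Prop :=
  ∀ (G : ℂ → ℂ) (c : ℂ), HB G → IvF G → Tendsto (fun z => G z * qq z) atI (𝓝 c) → c = 0

/-- invariant functions are rational functions of the coordinates -/
def POLY : Prop :=
  ∀ G : ℂ → ℂ, Hol G → MG G → IvF G → ∃ (j : ℕ) (a b : ℂ[X]), ∀ z : ℂ, 0 < z.im →
    G z * U8 z ^ j = a.eval (xx z) + b.eval (xx z) * yy z

/-- the parametrisation is onto -/
def SURJ : Prop :=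
  ∀ x y : ℂ, y ^ 2 = 4 * x ^ 3 - 7 * x ^ 2 - 36 * x → x ≠ 0 → x ^ 2 + 2 * y + 9 ≠ 0 →
    ∃ τ : ℂ, 0 < τ.im ∧ xx τ = x ∧ yy τ = y

/-- the Hecke translates of the generic point are distinct -/
def DIST : Prop :=
  ∀ m : ℕ, m ≠ 0 → ∀ t ∈ IntR m, ∀ t' ∈ IntR m, (∀ z : ℂ, 0 < z.im →
    xx ((IntM t).act z) = xx ((IntM t').act z) ∧ yy ((IntM t).act z) = yy ((IntM t').act z)) →
    t = t'

/-- the family of the Hecke translates -/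
def QFH : Prop :=
  ∀ m : ℕ, m ≠ 0 → m.Coprime 15 → ∀ l : ℕ, ∃ N A, QF m N (I := {t // t ∈ IntR m})
    (fun t z => xx ((IntM t).act z) + l * yy ((IntM t).act z)) A

/-- conjugate functions satisfy conjugate relations -/
def KER : Prop :=
  ∀ (w : ℕ) (σ : GQ) (J : Type) (F F' : J → ℂ → ℂ), w ≠ 0 → (∀ j, Cq w σ (F j) (F' j)) →
    ∀ P : MvPolynomial J Om, (∀ z : ℂ, 0 < z.im → P.eval₂ io (fun j => F j z) = 0) →
      ∀ z : ℂ, 0 < z.im → P.eval₂ (io.comp (σ : Om →+* Om)) (fun j => F' j z) = 0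

/-- 2-adic values satisfy the algebraic relations -/
def EVP : Prop :=
  ∀ (w : ℕ) (t : ℂ_[2]) (J : Type) (F : J → ℂ → ℂ) (v : J → ℂ_[2]), w ≠ 0 → t ≠ 0 → ‖t‖ < 1 →
    (∀ j, V2a w (F j) t (v j)) → ∀ P : MvPolynomial J Om,
      (∀ z : ℂ, 0 < z.im → P.eval₂ io (fun j => F j z) = 0) → P.eval₂ i2 v = 0

/-- 2-adic points near infinity are not cusps -/
def NCU : Prop :=
  ∀ (w : ℕ) (t : ℂ_[2]) (x y : Om), w ≠ 0 → t ≠ 0 → ‖t‖ < 1 → V2a w xx t (i2 x) →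
    V2a w yy t (i2 y) → y ^ 2 = 4 * x ^ 3 - 7 * x ^ 2 - 36 * x ∧ x ≠ 0 ∧ x ^ 2 + 2 * y + 9 ≠ 0

/-! ### The lattice -/

/-- the uniformisation exists -/
def LATX : Prop := ∃ L h, Un L h

/-- comparison of the torsion points -/
def TORS : Prop :=
  ∀ L h, Un L h → ∀ k : ℕ,
    (∀ T : Pt W15 ℂ, 2 ^ k • T = 0 →
      ∃ v : V2, ‖v‖ ≤ 1 ∧ pm W15 io (T2.pt ((2 ^ k : ℚ_[2])⁻¹ • v)) = T) ∧
    ∃ e₁ e₂ : V2, ‖e₁‖ ≤ 1 ∧ ‖e₂‖ ≤ 1 ∧ ‖dt e₁ e₂‖ = 1 ∧ ∀ a b : ℤ,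
      pm W15 io (T2.pt ((2 ^ k : ℚ_[2])⁻¹ • ((a : ℚ_[2]) • e₁ + (b : ℚ_[2]) • e₂))) =
        h (-(((4 * a : ℤ) : ℂ) * L0 + ((2 * b : ℤ) : ℂ) * om * Complex.I) / 2 ^ k)

end Pool.Agent.P.MP_9c97e9_nt.KT
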