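import Pool.Agent.P.MP_9c97e9_nt.KT.DefsK

/-! Statements for the chapter on the cyclotomic tower. -/

namespace Pool.Agent.P.MP_9c97e9_nt.KT

open scoped NNReal Matrix
open MP_8b7eba_nt.R2
open Filter Topology Polynomial Module

/-! ### Arithmetic of the layers -/

/-- places of the layers -/
def LAYK : Prop :=
  (∀ k, nOrb (KP k) {w | w.p = 2} = 1 ∧ ∃ R : Set Pl, R.Finite ∧ nOrb (KP k) R = 1 ∧
    ∀ w, Out (KP k) R w ↔ w.p ≠ 2) ∧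
  (∀ w w' : Pl, w.p ∣ 30 → w'.p = w.p → ∃ u ∈ KI, u • w' = w) ∧
  ∀ (D : Dat) (k : ℕ), D.Big k → nOrb (KP k) {w | w.p ∣ 15 * D.n} = 2 + D.sg ∧
    ∀ w : Pl, w.p ∣ 30 * D.n → ¬ w.D ⊓ KP k ≤ KP (k + 1) ∧ ∀ u ∈ KP k, ∃ u' ∈ KI, u' • w = u • w

/-- the unit theorem for totally real fields -/
def SUNR : Prop :=
  ∀ (U : Subgroup GQ) (R : Set Pl), IsOpen (U : Set GQ) → (∀ s, ts s ∈ U) → R.Finite →
    sqI (SU U R) = 2 ^ (U.index + nOrb U R)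

/-- quadratic extensions of a layer which are unramified at the odd places -/
def VD : Prop :=
  ∀ (k : ℕ) (β : Om), β ≠ 0 → Fix (KP k) (β ^ 2) → (∀ w : Pl, w.p ≠ 2 → Fix w.I β) →
    (Fix (w2.I ⊓ KP k) β → Fix (KP k) β) ∧ ((∀ s, ts s β = β) → Fix (KP (k + 1)) β)

/-- units and square classes at two, and the class number is odd -/
def VR : Prop :=
  ∀ k : ℕ, (∀ y, Fix (w2.D ⊓ KP k) y → y ≠ 0 → ∃ x, U2 (KP k) x ∧ Sq (w2.I ⊓ KP k) (x * y)) ∧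
    (∀ x, Fix (KP k) x → x ≠ 0 → (∀ w : Pl, w.p ≠ 2 → w.Ev (w.D ⊓ KP k) x) →
      ∃ u, U2 (KP k) u ∧ Sq (KP k) (u * x)) ∧
    ∀ w : Pl, w.p ≠ 2 → ∃ x, Gen (KP k) w x

/-- units of all signatures -/
def VS : Prop :=
  ∀ (k : ℕ) (ε : GQ → ZMod 2), (∀ u ∈ KP k, ∀ s, ε (u * s) = ε s) →
    ∃ β, U2 (KP k) (β ^ 2) ∧ ∀ s, qc β (ts s) = ε s

/-- the next layer is generated by the square root of a norm -/
def PIK : Prop :=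
  ∀ (k : ℕ) (a : Om), Fix (KP k) a → Sq (KP (k + 1)) a →
    ∃ ξ, U2 (KC k) ξ ∧ Sq (KP k) (a * (ξ * tau ξ))

/-- the class number of the cyclotomic field is odd -/
def VL : Prop := ∀ (k : ℕ) (w : Pl), w.p ≠ 2 → ∃ x, Gen (KC k) w x

/-- the Hasse principle for the layers -/
def ABK : Prop :=
  ∀ (k : ℕ) (f : GQ → GQ → Om), Co2T (KP k) f → (∀ s, Triv (Subgroup.zpowers (ts s)) f) →
    (∀ w : Pl, Triv (w.D ⊓ KP k) f) → Triv (KP k) f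

/-- quadratic characters with prescribed local behaviour -/
def CH : Prop :=
  ∀ k : ℕ, (∀ (c : Pl → ZMod 2) (B : ℕ), (∀ u ∈ KP k, ∀ w, c (u • w) = c w) →
      (∀ w : Pl, B < w.p → c w = 0) →
      ∃ χ, IsCh (KP k) χ ∧ ∀ w : Pl, w.p ≠ 2 → ∀ j ∈ w.I, χ j = c w * qz w.p j) ∧
    (∀ β : GQ → ZMod 2, IsCh (w2.D ⊓ KP k) β → ∃ χ, Ch0 k χ ∧ ∀ j ∈ w2.I ⊓ KP k, χ j = β j) ∧
    (∀ ε : GQ → ZMod 2, (∀ u ∈ KP k, ∀ s, ε (u * s) = ε s) →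
      ∃ χ, Ch0 k χ ∧ ∀ s, χ (ts s) = ε s) ∧
    ∀ χ, Ch0 k χ → ((∀ j ∈ w2.I ⊓ KP k, χ j = 0) → ∀ g ∈ KP k, χ g = 0) ∧
      ((∀ s, χ (ts s) = 0) → ∀ g ∈ KP (k + 1), χ g = 0)

/-- central embedding problems are solved in the next layer -/
def GTK : Prop :=
  ∀ (D : Dat) (k : ℕ) (κ : GQ → GQ → ZMod 2), D.Big k → Co2 (KP k) (sgn κ) →
    (∀ w : Pl, ¬ w.p ∣ 30 * D.n → ∀ j ∈ w.I, ∀ g ∈ KP k, κ g j = 0 ∧ κ j g = 0) →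
    (∀ s, ∀ g ∈ Subgroup.zpowers (ts s), ∀ h ∈ Subgroup.zpowers (ts s), κ g h = 0) →
    ∃ θ, Bd (KP (k + 1)) κ θ ∧ ∀ w : Pl, ¬ w.p ∣ 30 * D.n → ∀ j ∈ w.I, θ j = 0

/-- the quadratic characters at the top of the tower -/
def ZI : Prop :=
  ∀ (D : Dat) (i : Fin 2), {χ | D.Cq KI i χ}.ncard = 2 ^ (1 + D.sg) ∧
    ∀ χ, D.Cq KI i χ → ∃ m₀, ∀ m, m₀ ≤ m → ∃ χ', D.Cq (KP m) i χ' ∧ ∀ g ∈ KI, χ' g = χ g

/-! ### The Iwasawa module -/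

/-- the obstruction to lifting vanishes in the next layer -/
def OB1 : Prop :=
  ∀ (D : Dat) (k i : ℕ) (c : GQ → V2), D.Big k → D.Zm k i c →
    ∃ c', D.Zp (k + 1) (i + 1) c' ∧ D.Zm (k + 1) i c' ∧ ∀ g, ‖c' g - c g‖ ≤ (2 ^ i)⁻¹

/-- the local conditions can be restored -/
def OB2 : Prop :=
  ∀ (D : Dat) (k i : ℕ) (c : GQ → V2), D.Zp k (i + 1) c → D.Zm k i c →
    ∃ c', D.Zm k (i + 1) c' ∧ ∀ g, ‖c' g - c g‖ ≤ (2 ^ i)⁻¹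

/-- the reduction of the lattice -/
def IW1 : Prop :=
  ∀ D : Dat, (∀ c ∈ D.LL, ∀ i, D.Cq KI i fun g => TIW0.rz (c g i)) ∧
    ∀ χ : Fin 2 → GQ → ZMod 2, (∀ i, D.Cq KI i (χ i)) →
      ∃ c ∈ D.LL, ∀ g i, TIW0.rz (c g i) = χ i g

/-- the action on normalised cocycles -/
def CJ : Prop :=
  ∀ D : Dat, (∀ (s : GQ) (c : GQ → V2) (r : ℝ), (∀ g, ‖c g‖ ≤ r) → ∀ g, ‖D.cj s c g‖ ≤ r) ∧
    ∀ c ∈ D.XX, (∀ s, D.cj s c ∈ D.XX) ∧ (∀ s p, p ≠ 2 → c ∈ D.Bad p → D.cj s c ∈ D.Bad p) ∧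
      (∀ s s', D.cj (s * s') c = D.cj s' (D.cj s c)) ∧ (∀ h ∈ KI, D.cj h c = c) ∧
      ∀ ε : ℝ, 0 < ε → ∃ m, ∀ s ∈ KP m, ∀ g, ‖D.cj s c g - c g‖ ≤ ε

/-- the structure of the module -/
def IWA : Prop :=
  ∀ D : Dat, (∃ e : Fin (2 + 2 * D.sg) → GQ → V2, LinearIndependent ℚ_[2] e ∧
      D.XX = Submodule.span ℚ_[2] (Set.range e) ∧
      ∀ c, c ∈ D.LL ↔ ∃ a : Fin (2 + 2 * D.sg) → ℤ_[2], ∑ i, (a i : ℚ_[2]) • e i = c) ∧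
    ∃ F, Dist F ∧ ∀ c ∈ D.XX, aeval D.Th F c = 0

/-- the linear forms at three and five -/
def BADP : Prop :=
  ∀ (D : Dat) (p : ℕ), p = 3 ∨ p = 5 → ∃ (l : (GQ → V2) →ₗ[ℚ_[2]] ℚ_[2]) (μ : ℚ_[2]),
    (∀ c ∈ D.XX, (l c = 0 ↔ c ∈ D.Bad p) ∧ l (D.Th c) = μ * l c) ∧
    ‖μ‖ = if (p = 3 ∧ D.n % 3 = 1) ∨ (p = 5 ∧ ¬ (D.n % 5 = 1 ∨ D.n % 5 = 4)) then 2⁻¹ else 4⁻¹

/-- the index of a lattice in its inverse image -/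
def LATD : Prop :=
  ∀ (V : Type) [AddCommGroup V] [Module ℚ_[2] V] (s : ℕ) (e : Fin s → V) (X : Submodule ℚ_[2] V)
    (L : AddSubgroup V) (T : Module.End ℚ_[2] V) (hT : ∀ x ∈ X, T x ∈ X),
    LinearIndependent ℚ_[2] e → X = Submodule.span ℚ_[2] (Set.range e) →
    (∀ x, x ∈ L ↔ ∃ a : Fin s → ℤ_[2], ∑ i, (a i : ℚ_[2]) • e i = x) → (∀ x ∈ L, T x ∈ L) →
    (L.relIndex (X.toAddSubgroup ⊓ L.comap T.toAddMonoidHom) ≠ 0 ↔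
      LinearMap.det (T.restrict hT) ≠ 0) ∧
    (LinearMap.det (T.restrict hT) ≠ 0 →
      (L.relIndex (X.toAddSubgroup ⊓ L.comap T.toAddMonoidHom) : ℝ) *
        ‖LinearMap.det (T.restrict hT)‖ = 1)

/-- the determinant on a subspace of codimension two -/
def DETQ : Prop :=
  ∀ (V : Type) [AddCommGroup V] [Module ℚ_[2] V] (X Y : Submodule ℚ_[2] V)
    [FiniteDimensional ℚ_[2] X] [FiniteDimensional ℚ_[2] Y] (T : Module.End ℚ_[2] V)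
    (hX : ∀ x ∈ X, T x ∈ X) (hY : ∀ x ∈ Y, T x ∈ Y) (l l' : V →ₗ[ℚ_[2]] ℚ_[2]) (μ μ' : ℚ_[2]),
    (∀ x, x ∈ Y ↔ x ∈ X ∧ l x = 0 ∧ l' x = 0) →
    (∀ x ∈ X, l (T x) = μ * l x ∧ l' (T x) = μ' * l' x) →
    finrank ℚ_[2] X ≤ finrank ℚ_[2] Y + 2 ∧ (finrank ℚ_[2] X = finrank ℚ_[2] Y + 2 →
      ‖LinearMap.det (T.restrict hX)‖ = ‖(T.restrict hY).charpoly.eval 0‖ * ‖μ‖ * ‖μ'‖)

/-- norms from the complex points lie in the connected component -/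
def RE : Prop :=
  ∀ (D : Dat) (s : GQ) (P : EO) (v : V2), ‖v‖ ≤ 2 → T2.pt v = tac D.dl (ts s) P - P → ‖v 0‖ ≤ 1

/-- the Selmer group at the top of the tower is divisible -/
def BR : Prop := ∀ (D : Dat) (c : GQ → EO), D.SH KI c ↔ ∃ x ∈ D.XX, ∀ g, c g = T2.pt (x g)

/-- invariant cocycles extend -/
def EXT : Prop :=
  ∀ (D : Dat) (c : GQ → EO) (v : EO) (i : ℕ), D.SH KI c → 2 ^ i • v = 0 →
    (∀ g ∈ KI, c (D.gm * g * D.gm⁻¹) =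
      tac D.dl D.gm (c g) + v - tac D.dl (D.gm * g * D.gm⁻¹) v) →
    ∃ c', D.SH ⊤ c' ∧ (∀ g ∈ KI, c' g = c g) ∧ c' D.gm = v

/-- the order of the Selmer group over the rationals -/
def EUL : Prop := ∀ D : Dat, D.SH ⊤ 0 ∧ {c | D.SH ⊤ c}.ncard = 4 * D.h0

/-- descent from the top of the tower -/
def DSC : Prop :=
  ∀ (D : Dat) (A : Type) [NormedCommRing A] [NormedAlgebra ℚ_[2] A] [IsUltrametricDist A]
    [FiniteDimensional ℚ_[2] A] (ψ : ℤ_[2] → A), IsPsi ψ →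
    ∀ M : Submodule A (GQ → Fin 2 → A), (∀ ξ ∈ M, ∀ t : A →ₗ[ℚ_[2]] ℚ_[2],
      (fun g i => t (ξ g i)) ∈ D.XB ∧
      D.cj D.gm (fun g i => t (ξ g i)) = fun g i => t (ψ 1 * ξ g i)) →
      ∃ L : M →ₗ[A] GS → Fin 2 → A, Function.Injective L ∧ ∀ ξ, D.Sel ψ (L ξ)

/-- the lower bound -/
def LBK : Prop :=
  ∀ (D : Dat) [FiniteDimensional ℚ_[2] D.XB] (h : ∀ c ∈ D.XB, D.Th c ∈ D.XB),
    D.LB (D.Th.restrict h).charpoly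

end Pool.Agent.P.MP_9c97e9_nt.KT
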