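import Pool.Agent.P.MP_9c97e9_nt.KT.DefsL

/-! The statements of the chapter L of the project KT. -/

namespace Pool.Agent.P.MP_9c97e9_nt.KT

open scoped NNReal Matrix
open MP_8b7eba_nt.R2
open Filter Topology Polynomial

/-! ### Abelian groups -/

/-- the abstract count -/
def LABS : Prop :=
  ∀ (X : Type) [AddCommGroup X] (ι : Type) [Fintype ι] (G : AddSubgroup X) (r : ι → X →+ X)
    (L Z : ι → AddSubgroup X) (N : ι → ℕ), (∀ i, Lq (L i) (Z i) (N i)) → (∀ i, N i ≠ 0) →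
    (∀ i, ∀ g ∈ G, r i g ∈ Z i) → (∀ i, ∀ x ∈ Z i, ∃ k : ℕ, 2 ^ k • x = 0) →
    (∀ g ∈ G, (∀ i, ∃ z ∈ Z i, r i g - 2 • z ∈ L i) → ∃ g' ∈ G, g = 2 • g') →
    (∃ s : Finset X, 4 ^ Fintype.card ι ≤ s.card ∧ ∀ g ∈ s, g ∈ G ∧ 2 • g = 0) →
    ((G : Set X).Finite ↔ {g | g ∈ G ∧ ∀ i, r i g ∈ L i}.Finite) ∧ ((G : Set X).Finite →
      (G : Set X).ncard = {g | g ∈ G ∧ ∀ i, r i g ∈ L i}.ncard * ∏ i, N i)

/-- cyclic quotients -/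
def LCY : Prop :=
  ∀ (X : Type) [AddCommGroup X] (S B : AddSubgroup X),
    (∀ (M : AddSubgroup X) (a b : ℕ), Cyc S M a → Cyc M B b → Lq S B (a * b)) ∧
    ∀ (s y : X) (j : ℕ), S ≤ B → (∀ x ∈ B, ∃ k : ℕ, 2 ^ k • x ∈ S) → y ∈ B →
      (∀ x ∈ B, 2 • x ∈ S → x ∈ S ∨ x - s ∈ S) → (∀ x ∈ B, y - 2 • x ∉ S) → 2 ^ j • y - s ∈ S →
      2 • s ∈ S → Cyc S B (2 ^ (j + 1))

/-! ### Odd places -/

/-- a local cocycle is determined by its values at the two generators -/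
def LTU : Prop :=
  ∀ (D : Dat) (w : Pl) (t : GQ), w.p ≠ 2 → Gn w t → ∀ c ∈ D.ZH w.D,
    (c t = 0 → ∀ g ∈ w.I, c g = 0) ∧ ∀ φ, w.IsFrob 1 φ → (c t = 0 → c φ = 0 → c = 0) ∧
      tac D.dl φ (c t) - ∑ i ∈ Finset.range w.p, tac D.dl (t ^ i) (c t) =
        tac D.dl (t ^ w.p) (c φ) - c φ

/-- the presentation of the 2-part of the tame Galois group -/
def LPR : Prop :=
  ∀ (w : Pl) (t φ : GQ) (Γ : Type) [Group Γ] (a b : Γ) (k : ℕ), w.p ≠ 2 → Gn w t →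
    w.IsFrob 1 φ → a ^ 2 ^ k = 1 → b ^ 2 ^ k = 1 → b * a * b⁻¹ = a ^ w.p →
    ∃ F : GQ → Γ, Sm w.D F ∧ (∀ g ∈ w.D, ∀ h ∈ w.D, F (g * h) = F g * F h) ∧ F t = a ∧ F φ = b ∧
      ∀ g, ∃ m j : ℕ, F g = a ^ m * b ^ j

/-- existence of local cocycles with given values at the two generators -/
def LTZ : Prop :=
  ∀ (D : Dat) (w : Pl) (t φ : GQ), w.p ≠ 2 → Gn w t → w.IsFrob 1 φ → ∀ a b : EO, Tp a → Tp b →
    tac D.dl φ a - ∑ i ∈ Finset.range w.p, tac D.dl (t ^ i) a = tac D.dl (t ^ w.p) b - b →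
    ∃ c ∈ D.ZH w.D, c t = a ∧ c φ = b

/-- the primes which divide `n` -/
def LN : Prop :=
  ∀ (D : Dat) (w : Pl), w.p ∣ D.n →
    Lq (D.LH w.D) (D.ZH w.D) 4 ∧ ∀ c ∈ D.ZH w.D, 2 • c ∈ D.LH w.D

/-- the structure of the torsion points at three and five -/
def LS35 : Prop :=
  ∀ (D : Dat) (w : Pl) (t φ : GQ), w.p ∣ 15 → Gn w t → w.IsFrob 1 φ →
    ∃ E F u a, D.S35 w t φ E F u a

/-- the local cohomology at three and five -/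
def L35 : Prop := ∀ (D : Dat) (w : Pl), w.p ∣ 15 → Lq (D.BH w.D) (D.ZH w.D) (D.N w.p)

/-- the Kummer image at three and five -/
def LK35 : Prop := ∀ (D : Dat) (w : Pl), w.p ∣ 15 → D.LH w.D = D.BH w.D

/-! ### The place above two -/

/-- the structure of the torsion points at two -/
def LS2 : Prop :=
  ∀ D : Dat, ∀ g ∈ w2.D, (∀ x, tac D.dl g (pE x) = pE (D.rd g 0 0 * x)) ∧
    (∀ y, tac D.dl g (pF y) = pF (D.rd g 1 1 * y) + pE (D.rd g 0 1 * y)) ∧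
    D.rd g 0 0 * D.rd g 1 1 = cq g ∧ ‖D.rd g 0 1‖ ≤ 4⁻¹ ∧
    ‖D.rd g 1 1 - (1 + D.nu * (qz 5 g).val)‖ ≤ (2 * D.nu : ℝ)⁻¹ ∧ (g ∈ w2.I → D.rd g 1 1 = 1) ∧
    qz 5 D.f2 = 1 ∧ tac D.dl g (pF (D.nu : ℚ_[2])⁻¹) = pF (D.nu : ℚ_[2])⁻¹

/-- the quadratic characters at two -/
def LQ2 : Prop :=
  ∀ (w : Pl) (χ : GQ → ZMod 2), w.p = 2 → IsCh w.D χ →
    ∃ a b c : ZMod 2, ∀ g ∈ w.D, χ g = a * qz (-1) g + b * qz 2 g + c * qz 5 g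

/-- cocycles which are ordinary on the inertia group -/
def LO1 : Prop :=
  ∀ D : Dat, (∀ c ∈ D.ZE w2.I, ∃ c' ∈ D.ZE ⊤, c - c' ∈ D.BH w2.D) ∧ D.LH w2.D ≤ D.ZE w2.I ∧
    ∀ c ∈ D.ZE ⊤, c ∈ D.BH w2.D → ∃ c' ∈ D.ZE ⊤, c = 2 • c'

/-- cocycles which become ordinary at the top of the tower -/
def LO2 : Prop := ∀ D : Dat, Cyc (D.ZE w2.I) (D.ZE (w2.I ⊓ KI)) D.nu

/-- a local point -/
def LK5 : Prop := ∀ D : Dat, ∃ P, ∀ g ∈ w2.D, D.cb P g = s2 (qz 5 g) 0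

/-- a cocycle which is not divisible by two -/
def LYY : Prop :=
  ∀ D : Dat, ∃ y ∈ D.ZE ⊤, (∀ g ∈ w2.D, (D.nu / 2) • y g = s2 (qz 2 g) 0) ∧
    ∀ z ∈ D.ZE ⊤, y ≠ 2 • z

/-- ordinary cocycles modulo the Kummer image -/
def LO3 : Prop := ∀ D : Dat, Cyc (D.LH w2.D) (D.ZE w2.I) D.nu

/-! ### Global cocycles -/

/-- global halving -/
def LD1 : Prop :=
  ∀ (D : Dat) (c : GQ → EO), D.SH ⊤ c → (∀ p : ℕ, p.Prime → p ∣ 30 * D.n → p ≠ D.wz.p →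
    ∃ w : Pl, w.p = p ∧ ∃ c' ∈ D.ZH w.D, ∀ g ∈ w.D, c g = 2 • c' g) →
    ∃ c' ∈ D.ZH ⊤, c = 2 • c' ∧ ∀ w : Pl, ¬ w.p ∣ 30 * D.n → ∀ g ∈ w.I, c' g = 0

/-- normalisation of the half -/
def LD2 : Prop :=
  ∀ (D : Dat) (c c' : GQ → EO), D.SH ⊤ c → c' ∈ D.ZH ⊤ → c = 2 • c' →
    (∀ w : Pl, ¬ w.p ∣ 30 * D.n → ∀ g ∈ w.I, c' g = 0) →
    (∃ z ∈ D.ZE (w2.I ⊓ KI), ∃ P, ∀ g ∈ w2.D, c g = 2 • z g + D.cb P g) →
    ∃ c'', D.SH ⊤ c'' ∧ c = 2 • c''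

/-- many classes of order two -/
def LCN : Prop :=
  ∀ D : Dat, ∃ s : Finset (GQ → EO), 4 ^ (D.n.primeFactors.card + 2) ≤ s.card ∧
    ∀ c ∈ s, D.SH ⊤ c ∧ 2 • c = 0

/-- the classical Selmer group inside the relaxed one -/
def LKE : Prop :=
  ∀ (D : Dat) (c : GQ → EO), c ∈ D.SelN ↔ D.SH ⊤ c ∧ ∀ p : ℕ, p.Prime → p ∣ 30 * D.n →
    ∃ w : Pl, w.p = p ∧ ∃ P, ∀ g ∈ w.D, c g = D.cb P g

/-! ### The Tate-Shafarevich group -/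

/-- the decomposition group is the image of the local Galois group -/
def DEC : Prop :=
  ∀ (p : ℕ) [Fact p.Prime] (w : Pl), w.v = (PadicAlgCl.valued p).v.comap (emb ℚ ℚ_[p]) →
    ∀ g ∈ w.D, ∃ σ : Gal ℚ_[p], ∀ x, emb ℚ ℚ_[p] (g x) = σ (emb ℚ ℚ_[p] x)

/-- approximation modulo squares -/
def LAP : Prop := Apx ℝ ∧ ∀ (p : ℕ) [Fact p.Prime], Apx ℚ_[p]

/-- a torsion cocycle which comes from a local point comes from an algebraic point -/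
def LAL : Prop :=
  ∀ (n : ℕ), n % 4 = 3 → ∀ (K : Type) [Field K] [CharZero K], Apx K →
    ∀ (c : GQ → Pt (tw n) Om) (i : ℕ), (∀ g, 2 ^ i • c g = 0) → LocTriv (tw n) K c →
      ∃ P : Pt (tw n) Om, ∀ (σ : Gal K) (τ : GQ), (∀ x, emb ℚ K (τ x) = σ (emb ℚ K x)) →
        c τ = pm (tw n) (τ : Om →+* Om) P - P

/-- Selmer cocycles define elements of the Tate-Shafarevich group, and all of them arise -/
def LSM : Prop :=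
  ∀ (D : Dat) (ι : EO ≃+ Pt (tw D.n) Om), D.Eqv ι →
    (∀ c ∈ D.SelN, (fun g => ι (c g)) ∈ shaCocycles (tw D.n)) ∧
    ∀ C ∈ shaCocycles (tw D.n), ∀ i : ℕ, 2 ^ i • C ∈ coboundaries (tw D.n) →
      ∃ c ∈ D.SelN, C - (fun g => ι (c g)) ∈ coboundaries (tw D.n)

/-- the model of the twist and its rational points -/
def LSF : Prop :=
  ∀ D : Dat, (∃ ι, D.Eqv ι) ∧ (D.SelN.Finite → Finite (Pt (tw D.n) ℚ)) ∧
    (Finite (Pt (tw D.n) ℚ) → ∀ c ∈ D.SelN, ∀ P, (∀ g, c g = D.cb P g) → c = 0)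

end Pool.Agent.P.MP_9c97e9_nt.KT
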