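import Pool.Agent.P.MP_9c97e9_nt.KT.IfT
import Pool.Agent.P.MP_9c97e9_nt.KT.IfF

/-! Vanishing of the second cohomology for function fields of curves: the modular curve. -/

namespace Pool.Agent.P.MP_9c97e9_nt.KT

open scoped UpperHalfPlane
open MP_8b7eba_nt.R2
open MP_8b7eba_nt.Mod (M2 G0 UH xx yy)

/-- invariant classes modulo `N`-th powers come from the fixed field -/
def PwG {G : Type} (Ω : Type) [Group G] [Field Ω] [MulSemiringAction G Ω] (H : Subgroup G)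
    (N : ℕ) : Prop :=
  ∀ c : Ω, c ≠ 0 → (∀ g ∈ H, ∃ B, g • c = B ^ N * c) → ∃ h ρ : Ω, h ≠ 0 ∧ FxG H h ∧ c * h = ρ ^ N

namespace BM

variable {G H : ℂ → ℂ}

theorem mem (h : Hol G) : (fun τ : ℍ => G τ) ∈ OH :=
  UpperHalfPlane.mdifferentiable_iff.2 (h.congr fun z hz => by
    simp only [Function.comp, UpperHalfPlane.ofComplex_apply_of_im_pos hz])

theorem mf_eq (h : Hol G) : mf G = algebraMap OH MF ⟨_, mem h⟩ := dif_pos _

theorem mf_add (h : Hol G) (h' : Hol H) : mf (G + H) = mf G + mf H := by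
  rw [mf_eq h, mf_eq h', mf_eq (h.add h'), ← map_add]; rfl

theorem mf_mul (h : Hol G) (h' : Hol H) : mf (G * H) = mf G * mf H := by
  rw [mf_eq h, mf_eq h', mf_eq (h.mul h'), ← map_mul]; rfl

theorem mf_neg (h : Hol G) : mf (-G) = -mf G := by
  rw [mf_eq h, mf_eq h.neg, ← map_neg]; rfl

theorem mf_sub (h : Hol G) (h' : Hol H) : mf (G - H) = mf G - mf H := by
  rw [mf_eq h, mf_eq h', mf_eq (h.sub h'), ← map_sub]; rfl

theorem mf_pow (h : Hol G) (n : ℕ) : mf (G ^ n) = mf G ^ n := by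
  rw [mf_eq h, mf_eq (h.pow n), ← map_pow]; rfl

theorem mf_zero : mf 0 = 0 := by
  rw [mf_eq (G := 0) (differentiableOn_const 0)]; exact map_zero (algebraMap OH MF)

theorem mf_one : mf 1 = 1 := by
  rw [mf_eq (G := 1) (differentiableOn_const 1)]; exact map_one (algebraMap OH MF)

theorem mf_inj (h : Hol G) (h' : Hol H) : mf G = mf H ↔ Set.EqOn G H UH := by
  rw [mf_eq h, mf_eq h', (IsFractionRing.injective OH MF).eq_iff, Subtype.mk.injEq]
  exact ⟨fun e z hz => congrFun e ⟨z, hz⟩, fun e => funext fun τ => e τ.2⟩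

theorem mf_eq_zero (h : Hol G) : mf G = 0 ↔ ∀ z : ℂ, 0 < z.im → G z = 0 := by
  rw [← mf_zero, mf_inj (H := 0) h (differentiableOn_const 0)]; rfl

theorem exists_frac (f : MF) : ∃ p q, Hol p ∧ Hol q ∧ mf q ≠ 0 ∧ f * mf q = mf p := by
  have k : ∀ a : OH, ∃ p, Hol p ∧ mf p = algebraMap OH MF a := fun a => by
    have h : Hol (a.1 ∘ UpperHalfPlane.ofComplex) := UpperHalfPlane.mdifferentiable_iff.1 a.2
    refine ⟨_, h, (mf_eq h).trans (congrArg _ (Subtype.ext (funext fun τ => ?_)))⟩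
    simp only [Function.comp, UpperHalfPlane.ofComplex_apply]
  obtain ⟨a, b, hb, rfl⟩ := IsFractionRing.div_surjective OH f
  obtain ⟨p, hp, e⟩ := k a
  obtain ⟨q, hq, e'⟩ := k b
  have : algebraMap OH MF b ≠ 0 := IsFractionRing.to_map_ne_zero_of_mem_nonZeroDivisors hb
  exact ⟨p, q, hp, hq, e' ▸ this, by rw [e, e', div_mul_cancel₀ _ this]⟩

theorem coe_lf (h : InL G) : (lf G : MF) = mf G := by rw [lf, dif_pos h.2]

end BM

/-- from coefficients in the field to coefficients in the roots of unity -/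
def KUM : Prop :=
  ∀ (G Ω : Type) [Group G] [Field Ω] [CharZero Ω] [MulSemiringAction G Ω] (C : Cx G Ω)
    (K : Subgroup G) (k : ℕ) (f : G → G → C.A), C.Ok → C.N = 2 ^ k → K ≤ C.H →
    (∀ g ∈ K, C.cy g = 1) → (∀ H ≤ K, Iso Ω H) → PwG Ω K C.N → C.Co f →
    ∃ b, Sm1 Ω K b ∧ ∀ g ∈ K, ∀ h ∈ K, f g h = C.d1 b g h

/-- from squares to powers of two -/
def PKX : Prop :=
  ∀ (G Ω : Type) [Group G] [Field Ω] [MulSemiringAction G Ω] (H : Subgroup G),
    (∀ k : ℕ, ∃ e : Ω, e ^ 2 ^ k = -1) → PwG Ω H 2 → ∀ k : ℕ, PwG Ω H (2 ^ k)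

/-- the parity of the order does not change by squares -/
def PAR : Prop :=
  ∀ (G G' : ℂ → ℂ) (B : MF), Hol G → Hol G' → mf G' ≠ 0 → mf G' = B ^ 2 * mf G →
    ∀ τ : ℂ, 0 < τ.im → (Even (analyticOrderNatAt G' τ) ↔ Even (analyticOrderNatAt G τ))

/-- the elements are algebraic over the polynomials in `x` -/
def ALX : Prop := ∀ f : LL, IsAlgebraic (Subring.closure {lf xx}) f

/-- zeros lie above finitely many algebraic points -/
def ALGP : Prop :=
  ∀ G, InL G → lf G ≠ 0 → ∃ Z : Finset (Om × Om), ∀ τ : ℂ, 0 < τ.im → G τ = 0 →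
    ∃ P ∈ Z, Alg τ P.1 P.2

/-- isotropy over the fixed fields -/
def ISO : Prop := ∀ H ≤ geo, Iso LL H

/-- tangent lines -/
def TAN : Prop :=
  ∀ τ₀ x y, Alg τ₀ x y → ∃ h, InL h ∧ lf h ≠ 0 ∧ FxG geo (lf h) ∧
    ∀ τ : ℂ, 0 < τ.im → (Odd (analyticOrderNatAt h τ) ↔ Alg τ x y)

/-- invariant classes modulo squares -/
def SQ1 : Prop := PwG LL geo 2

end Pool.Agent.P.MP_9c97e9_nt.KT
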