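import Pool.Agent.P.MP_9c97e9_nt.KT.IfJ
import Pool.Agent.P.MP_9c97e9_nt.KT.TBAS
import Pool.Agent.P.MP_9c97e9_nt.KT.TF2X

/-! Basic properties of the twisted representation, of weights and of measures. -/

namespace Pool.Agent.P.MP_9c97e9_nt.KT

open scoped NNReal Matrix
open MP_8b7eba_nt.R2
open Filter Topology

/-! ### The logarithm and the representation -/

theorem la_mul (g h : GQ) : la (g * h) = la g + la h := by
  rw [la, a_EC.2.1, a_LG.1.mul, la, la]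

theorem la_one : la 1 = 0 := by simpa using la_mul 1 1

theorem la_inv (g : GQ) : la g⁻¹ = -la g := by
  have := la_mul g g⁻¹
  rw [mul_inv_cancel, la_one] at this
  linear_combination -this

theorem la_pow (g : GQ) (m : ℕ) : la (g ^ m) = m * la g := by
  induction m with
  | zero => simp [la_one]
  | succ m ih => rw [pow_succ, la_mul, ih]; push_cast; ring

theorem cyc_one : cyc 1 = 1 := by simpa using a_EC.2.1 1 1

theorem la_of_cyc {g : GQ} (h : cyc g = 1) : la g = 0 := by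
  rw [la, h, ← cyc_one]; exact la_one

theorem la_I {w : Pl} (h : w.p ≠ 2) {g : GQ} (hg : g ∈ w.I) : la g = 0 :=
  la_of_cyc (a_EC.2.2.2.2.2.2.1 w h g hg)

theorem la_sm (k : ℕ) : ∃ N, ON N ∧ ∀ g ∈ N, 2 ^ k ∣ la g :=
  ⟨KP k, (a_LG.2.2.2.1 k).2.2.2.1, fun g hg => ((a_LG.2.2.2.1 k).2.2.2.2.1 g).1 hg⟩

theorem Ps_mul (k : ℕ) (g h : GQ) : Ps k (g * h) = Ps k g + Ps k h :=
  (a_LG.2.2.2.1 k).1.2 g trivial h trivial

theorem dvd_Ps (k : ℕ) (g : GQ) : 2 ^ k ∣ la g - (Ps k g).val := by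
  have h : PadicInt.toZModPow k (la g - ((Ps k g).val : ℤ_[2])) = 0 := by
    rw [map_sub, map_natCast, ZMod.natCast_zmod_val]
    exact sub_self _
  rwa [← RingHom.mem_ker, PadicInt.ker_toZModPow, Ideal.mem_span_singleton] at h

/-- the ultrametric inequality -/
theorem ua {E : Type} [NormedAddCommGroup E] [IsUltrametricDist E] {a b : E} {ε : ℝ}
    (ha : ‖a‖ ≤ ε) (hb : ‖b‖ ≤ ε) : ‖a + b‖ ≤ ε := SelA.add ha hb

theorem us {E : Type} [NormedAddCommGroup E] [IsUltrametricDist E] {a b : E} {ε : ℝ}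
    (ha : ‖a‖ ≤ ε) (hb : ‖b‖ ≤ ε) : ‖a - b‖ ≤ ε := by
  rw [sub_eq_add_neg]; exact ua ha (by rwa [norm_neg])

theorem mulVec_le {B : Mt} {ε : ℝ} (h : ∀ i j, ‖B i j‖ ≤ ε) (v : V2) : ‖B *ᵥ v‖ ≤ ε * ‖v‖ :=
  mv_rat B v ▸ SelA.mv_le h v

theorem dt_le (u v : V2) : ‖dt u v‖ ≤ ‖u‖ * ‖v‖ := by
  have h : ∀ i j, ‖u i * v j‖ ≤ ‖u‖ * ‖v‖ := fun i j => (norm_mul _ _).trans_le
    (mul_le_mul (norm_le_pi_norm u i) (norm_le_pi_norm v j) (norm_nonneg _) (norm_nonneg _))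
  exact us (h 0 1) (h 1 0)

theorem dt_mulVec (B : Mt) (u v : V2) : dt (B *ᵥ u) (B *ᵥ v) = B.det * dt u v := by
  simp only [dt, Matrix.mulVec, dotProduct, Fin.sum_univ_two, Matrix.det_fin_two]; ring

theorem nu_mulVec (e v : V2) : nu e *ᵥ v = dt e v • e := by
  funext i
  fin_cases i <;> simp [nu, dt, Matrix.mulVec, dotProduct, Fin.sum_univ_two] <;> ring

variable {D : Dat}

theorem Dat.fix_dl (D : Dat) : Fix ⊤ (D.dl ^ 2) := by rw [D.hdl]; exact (fix_nat _).neg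

theorem Dat.odd (D : Dat) : Odd D.n := Nat.odd_iff.2 (by have := D.n4; omega)

theorem Dat.rd_mul (D : Dat) (g h : GQ) : D.rd (g * h) = D.rd g * D.rd h := T2.rd_mul D.fix_dl g h

theorem Dat.rd_fix {g : GQ} (h : g D.dl = D.dl) : D.rd g = T2.rho g := SelA.rd_fix T2 h

theorem Dat.rd_one (D : Dat) : D.rd 1 = 1 := (Dat.rd_fix rfl).trans (map_one _)

theorem Dat.rd_pow (D : Dat) (g : GQ) (m : ℕ) : D.rd (g ^ m) = D.rd g ^ m := by
  induction m with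
  | zero => simp [D.rd_one]
  | succ m ih => rw [pow_succ, D.rd_mul, ih, pow_succ]

theorem Dat.rd_le (D : Dat) (g : GQ) (i j : Fin 2) : ‖D.rd g i j‖ ≤ 1 := SelA.rd_le T2 _ g i j

theorem Dat.rd_vec (D : Dat) (g : GQ) (v : V2) : ‖D.rd g *ᵥ v‖ ≤ ‖v‖ := by
  simpa using mulVec_le (D.rd_le g) v

theorem Dat.rd_det (D : Dat) (g : GQ) : (D.rd g).det = cq g := by
  rw [Dat.rd, Tate.rd, Matrix.det_smul, T2.det, Fintype.card_fin, pow_two, ← Int.cast_mul, sd_sq,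
    Int.cast_one, one_mul]

theorem Dat.rd_two (D : Dat) (g : GQ) (i j : Fin 2) : ‖(D.rd g - 1) i j‖ ≤ 2⁻¹ := by
  by_cases h : g D.dl = D.dl
  · rw [Dat.rd_fix h]; exact T2.two g i j
  have e : D.rd g - 1 = -(T2.rho g - 1) + (-2 : ℚ_[2]) • 1 := by
    rw [Dat.rd, Tate.rd, sd_eq_neg.2 h]; push_cast; module
  rw [e, Matrix.add_apply]
  refine ua (by simpa only [Matrix.neg_apply, norm_neg] using T2.two g i j) ?_
  rw [Matrix.smul_apply, norm_smul, norm_neg, SelA.two, Matrix.one_apply]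
  split_ifs <;> simp

theorem Dat.rd_sm (D : Dat) {ε : ℝ} (hε : 0 < ε) :
    ∃ N, ON N ∧ ∀ g ∈ N, ∀ i j, ‖(D.rd g - 1) i j‖ ≤ ε := SelA.rd_sm T2 D.dl hε

theorem Dat.rd_up (D : Dat) {g : GQ} (h : g ∈ w2.D) : D.rd g 1 0 = 0 := SelA.rd_up T2 _ h

theorem cq_frob {w : Pl} {φ : GQ} (h2 : w.p ≠ 2) (h : w.IsFrob 1 φ) : cq φ = w.p := by
  rw [cq, a_EC.2.2.2.2.2.1 w 1 φ h2 h, pow_one, PadicInt.coe_natCast]

/-- good reduction -/
theorem Dat.rd_I {w : Pl} (hw : ¬ w.p ∣ 30 * D.n) {g : GQ} (hg : g ∈ w.I) :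
    D.rd g = 1 ∧ g D.dl = D.dl ∧ cyc g = 1 := by
  have h30 : ¬ w.p ∣ 30 := fun h => hw (h.mul_right _)
  have h2 : w.p ≠ 2 := fun h => h30 (by rw [h]; norm_num)
  have hd := Pl.I_fix a_TAME a_RES h2 (m := -D.n) (by rw [D.hdl]; push_cast; rfl)
    (fun h => hw ((Int.natCast_dvd_natCast.1 (dvd_neg.1 h)).mul_left _)) hg
  exact ⟨(Dat.rd_fix hd).trans ((a_TR _ T2 w h30).1 g hg), hd, a_EC.2.2.2.2.2.2.1 w h2 g hg⟩

/-- the generators of tame inertia at three and five -/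
theorem Dat.bad (D : Dat) {w : Pl} (hw : w.p ∣ 15) : ∃ t e c, D.BadJ w t e c := by
  have h2 : w.p ≠ 2 := fun e => by rw [e] at hw; norm_num at hw
  obtain ⟨t, ht, hm⟩ := Pl.exists_gen a_TAME a_RES h2
  obtain ⟨e, h1, h3, h5, h6, h7, h8⟩ := a_UNIP _ T2 w hw
  have hd := ((t_F2X D).2.2.2.2.2.2 w hw).1
  obtain ⟨s0, a0⟩ := (h6 t ht).2 ![1, 0]
  obtain ⟨s1, a1⟩ := (h6 t ht).2 ![0, 1]
  have a2 := (h6 t ht).1
  have b := fun i => And.intro (congrFun a0 i) (And.intro (congrFun a1 i) (congrFun a2 i))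
  have b0 := b 0
  have b1 := b 1
  simp [Matrix.mulVec, dotProduct, Fin.sum_univ_two] at b0 b1
  have key : ∃ c : ℚ_[2], s0 = -(c * e 1) ∧ s1 = c * e 0 := by
    by_cases h0 : e 0 = 0
    · have h1' : e 1 ≠ 0 := fun h => by
        have : e = 0 := funext (Fin.forall_fin_two.2 ⟨h0, h⟩)
        simp [this] at h1
      refine ⟨-s0 / e 1, by field_simp, mul_right_cancel₀ (mul_ne_zero h1' h1') ?_⟩
      rw [h0]
      linear_combination b1.2.2 - e 1 * b1.2.1 - T2.rho t 1 0 * h0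
    · refine ⟨s1 / e 0, ?_, by field_simp⟩
      field_simp
      refine mul_right_cancel₀ h0 ?_
      linear_combination b0.2.2 - e 0 * b0.1 - e 1 * b0.2.1
  obtain ⟨c, rfl, rfl⟩ := key
  have hr : T2.rho t = 1 + c • nu e := by
    ext i j
    fin_cases i <;> fin_cases j <;> simp [nu]
    · linear_combination b0.1
    · linear_combination b0.2.1
    · linear_combination b1.1
    · linear_combination b1.2.1
  refine ⟨t, e, c, ht, hm, h1, h3, h5, fun h => ?_, (Dat.rd_fix (hd t ht)).trans hr,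
    fun g hg => ⟨by rw [Dat.rd_fix (hd g hg)]; exact (h6 g hg).1, hd g hg,
      a_EC.2.2.2.2.2.2.1 w h2 g hg⟩, fun φ hφ => ?_⟩
  · obtain ⟨i, j, hij⟩ := (h7 t ht hm).1
    rw [hr, h, zero_smul, add_zero, sub_self] at hij
    norm_num at hij
  · rw [Dat.rd, Tate.rd, Matrix.smul_mulVec]
    rcases sd_cases D.dl φ with a | a <;> rcases h8 φ hφ with b | b <;> simp [a, b]

theorem Kp.ne2 (l : Kp D) (k : ℕ) : (l.w k).p ≠ 2 := fun h =>
  l.big k (by rw [h]; exact Dvd.dvd.mul_right (by norm_num) _)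

theorem Kp.near (l : Kp D) (k : ℕ) : ‖((l.w k).p : ℚ_[2]) - 1‖ ≤ (2 ^ (k + 2))⁻¹ := by
  obtain ⟨c, hc⟩ := (Nat.modEq_iff_dvd' (l.w k).prime.one_le).1 (l.one k).symm
  have : ((l.w k).p : ℚ_[2]) - 1 = 2 ^ (k + 2) * c := by
    exact_mod_cast (Nat.cast_sub (R := ℚ_[2]) (l.w k).prime.one_le).symm.trans (congrArg _ hc)
  rw [this, norm_mul, norm_pow, SelA.two, inv_pow]
  exact mul_le_of_le_one_right (by positivity) (IsUltrametricDist.norm_natCast_le_one _ _)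

/-! ### Weights -/

variable {M N k : ℕ} {W W' : Wt}

theorem tl_tl (W : Wt) (g h : GQ) : tl (tl W g) h = tl W (h * g) :=
  funext fun σ => congrArg W (mul_assoc σ h g)

theorem tl_mul (W W' : Wt) (g : GQ) : tl (W * W') g = tl W g * tl W' g := rfl

theorem tl_one (W : Wt) : tl W 1 = W := funext fun σ => congrArg W (mul_one σ)

theorem Wi.tl (h : Wi M W) (g : GQ) : Wi M (tl W g) :=
  ⟨fun _ => h.1 _, fun σ σ' e => h.2 _ _ (by rw [map_mul, map_mul, e])⟩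

theorem Wi.tl_eq (h : Wi M W) {g : GQ} (e : cy M g = 1) : KT.tl W g = W :=
  funext fun σ => h.2 _ _ (by rw [map_mul, e, mul_one])

theorem Wi.mul (h : Wi M W) (h' : Wi M W') : Wi M (W * W') :=
  ⟨fun σ => (norm_mul _ _).trans_le (mul_le_one₀ (h.1 σ) (norm_nonneg _) (h'.1 σ)),
    fun σ σ' e => by rw [Pi.mul_apply, Pi.mul_apply, h.2 σ σ' e, h'.2 σ σ' e]⟩

theorem Wi.add (h : Wi M W) (h' : Wi M W') : Wi M (W + W') :=
  ⟨fun σ => ua (h.1 σ) (h'.1 σ),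
    fun σ σ' e => by rw [Pi.add_apply, Pi.add_apply, h.2 σ σ' e, h'.2 σ σ' e]⟩

theorem Wi.sub (h : Wi M W) (h' : Wi M W') : Wi M (W - W') :=
  ⟨fun σ => us (h.1 σ) (h'.1 σ),
    fun σ σ' e => by rw [Pi.sub_apply, Pi.sub_apply, h.2 σ σ' e, h'.2 σ σ' e]⟩

theorem wi_one : Wi M 1 := ⟨fun _ => norm_one.le, fun _ _ _ => rfl⟩

theorem Wi.mono (hC : CYB) (h : Wi M W) (hd : M ∣ N) (hN : N ≠ 0) : Wi N W :=
  ⟨h.1, fun σ σ' e => h.2 σ σ' (by
    have := (hC.1 M (ne_zero_of_dvd_ne_zero hN hd)).2.2.1 N hd hN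
    rw [← this, ← this, e])⟩

theorem Dat.Lv.two (h : D.Lv k M) : D.Lv k (M * 2) :=
  ⟨mul_ne_zero h.1 two_ne_zero, h.2.1.mul_right _, Nat.Coprime.mul_left h.2.2
    (Nat.Coprime.mul_right (by norm_num) (Nat.coprime_two_left.2 D.odd))⟩

theorem Dat.Lv.prime (h : D.Lv k M) {p : ℕ} (hp : p.Prime) (h' : ¬ p ∣ 15 * D.n) :
    D.Lv k (M * p) :=
  ⟨mul_ne_zero h.1 hp.ne_zero, h.2.1.mul_right _,
    Nat.Coprime.mul_left h.2.2 ((Nat.Prime.coprime_iff_not_dvd hp).2 h')⟩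

theorem Dat.lv (D : Dat) (k : ℕ) : D.Lv k (2 ^ (k + 2)) :=
  ⟨by positivity, dvd_rfl, Nat.Coprime.pow_left _
    (Nat.Coprime.mul_right (by norm_num) (Nat.coprime_two_left.2 D.odd))⟩

theorem ck_cons {s : Finset (Kp D)} {l : Kp D} (h : l ∉ s) (k : ℕ) :
    ck (s.cons l h) k = ck s k * (l.w k).p := by
  rw [ck, ck, Finset.prod_cons]; ring

theorem wt_cons {s : Finset (Kp D)} {l : Kp D} (h : l ∉ s) (k : ℕ) :
    wt (s.cons l h) k = l.d k * wt s k := Finset.prod_cons h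

theorem Ok.mono {s s' : Finset (Kp D)} (h : Ok s) (h' : s' ⊆ s) : Ok s' :=
  fun l hl l' hl' => h l (h' hl) l' (h' hl')

theorem ok_cons {s : Finset (Kp D)} {l : Kp D} (h : Ok s)
    (h' : ∀ l' ∈ s, ∀ k, (l.w k).p ≠ (l'.w k).p) : ∃ h0 : l ∉ s, Ok (s.cons l h0) := by
  refine ⟨fun e => h' l e 0 rfl, fun a ha b hb e k => ?_⟩
  rcases Finset.mem_cons.1 ha with a1 | a1 <;> rcases Finset.mem_cons.1 hb with b1 | b1
  · exact absurd (a1.trans b1.symm) e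
  · exact a1 ▸ h' b b1 k
  · exact b1 ▸ (h' a a1 k).symm
  · exact h a a1 b b1 e k

/-- a prime which is not among those of `s` does not divide the level -/
theorem not_dvd_ck {s : Finset (Kp D)} {p : ℕ} (hp : p.Prime) (h2 : p ≠ 2)
    (h : ∀ l ∈ s, p ≠ (l.w k).p) : ¬ p ∣ ck s k := fun e => by
  rcases (Nat.Prime.dvd_mul hp).1 e with e | e
  · exact h2 ((Nat.prime_dvd_prime_iff_eq hp Nat.prime_two).1 (hp.dvd_of_dvd_pow e))
  · obtain ⟨l, hl, e⟩ := (Prime.dvd_finsetProd_iff hp.prime _).1 e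
    exact h l hl ((Nat.prime_dvd_prime_iff_eq hp (l.w k).prime).1 e)

/-! ### Measures -/

variable {μ : MA}

theorem Dat.MS.near (h : D.MS μ) (k M : ℕ) (g : GQ) {ε : ℝ} (e : ∀ σ, ‖W σ - W' σ‖ ≤ ε) :
    ‖μ k M g W - μ k M g W'‖ ≤ ε := by
  rw [← map_sub]; exact h.le k M g _ ε ((norm_nonneg _).trans (e 1)) e

theorem Dat.MS.one (h : D.MS μ) (hM : D.Lv k M) (hW : Wi M W) : ‖μ k M 1 W‖ ≤ (2 ^ k)⁻¹ := by
  simpa [D.rd_one, tl_one] using h.co k M hM 1 1 W hW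

/-- a multiple by an odd number has the same norm -/
theorem odd_smul {r : ℕ} (hr : Odd r) (v : V2) : ‖(r : ℚ_[2]) • v‖ = ‖v‖ := by
  rw [norm_smul, Padic.norm_natCast_eq_one_iff.2 (Nat.coprime_two_left.2 hr), one_mul]

end Pool.Agent.P.MP_9c97e9_nt.KT
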