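import Pool.Agent.P.MP_9c97e9_nt.KT.BasL

/-! The comparison of the two Selmer groups. -/

namespace Pool.Agent.P.MP_9c97e9_nt.KT

open scoped NNReal Matrix
open MP_8b7eba_nt.R2
open Filter Topology Polynomial

namespace TCASX

theorem pf (D : Dat) : (30 * D.n).primeFactors = {2, 3, 5} ∪ D.n.primeFactors := by
  rw [Nat.primeFactors_mul (by norm_num) D.n_pos.ne']
  congr 1
  simp only [Nat.primeFactors, show Nat.primeFactorsList 30 = [2, 3, 5] by simp +ground]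
  rfl

theorem dj (D : Dat) : Disjoint ({2, 3, 5} : Finset ℕ) D.n.primeFactors :=
  Finset.disjoint_right.2 fun p hp h => by
    have := D.p_ne (Nat.prime_of_mem_primeFactors hp) (Nat.dvd_of_mem_primeFactors hp)
    simp only [Finset.mem_insert, Finset.mem_singleton] at h
    rcases h with rfl | rfl | rfl <;> norm_num at this

theorem N_four (D : Dat) {p : ℕ} (hp : p.Prime) (h : p ∣ D.n) : D.N p = 4 := by
  have := D.p_ne hp h
  rw [Dat.N, if_neg, if_neg, if_neg] <;> rintro rfl <;> norm_num at this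

theorem ZO_le (D : Dat) (w : Pl) : D.ZO w ≤ D.ZH w.D := by
  unfold Dat.ZO
  split_ifs with h
  · subst h
    exact fun _ hc => hc.1
  · exact le_rfl

theorem loc (hCY : LCY) (hN : LN) (h35 : L35) (hK : LK35) (hO2 : LO2) (hO3 : LO3) (D : Dat)
    (w : Pl) (h : w.p ∣ 30 * D.n) (h2 : w.p = 2 → w = w2) :
    Lq (D.LH w.D) (D.ZO w) (D.N w.p) := by
  by_cases e : w = w2
  · subst e
    have := (hCY _ _ _).1 _ _ _ (hO3 D) (hO2 D)
    rw [Dat.ZO, if_pos rfl]
    convert this using 1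
    change D.N 2 = _
    rw [Dat.N, if_pos rfl, Dat.nu]
    split_ifs <;> rfl
  rw [Dat.ZO, if_neg e]
  rcases (Nat.Prime.dvd_mul w.prime).1 h with h | h
  · rcases (Nat.Prime.dvd_mul w.prime).1 (show w.p ∣ 2 * 15 from h) with h | h
    · exact absurd (h2 ((Nat.prime_dvd_prime_iff_eq w.prime Nat.prime_two).1 h)) e
    · exact hK D w h ▸ h35 D w h
  · exact N_four D w.prime h ▸ (hN D w h).1

end TCASX

open TCASX in
theorem t_CASX (hABS : LABS) (hCY : LCY) (hN : LN) (h35 : L35) (hK : LK35) (hO2 : LO2)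
    (hO3 : LO3) (hD1 : LD1) (hD2 : LD2) (hCN : LCN) (hKE : LKE) : CASX := by
  intro D
  obtain ⟨W, hW, W2⟩ : ∃ W : ℕ → Pl, (∀ p, p.Prime → (W p).p = p) ∧ W 2 = w2 := by
    have : Nonempty Pl := ⟨w2⟩
    choose! W hW using a_PL.1
    refine ⟨fun p => if p = 2 then w2 else W p, fun p hp => ?_, if_pos rfl⟩
    beta_reduce
    split_ifs with h
    · exact h.symm
    · exact hW p hp
  have n0 : 30 * D.n ≠ 0 := by have := D.n_pos; omega
  have p0 : D.wz.p ∈ D.n.primeFactors := Nat.mem_primeFactors.2 ⟨D.wz.prime, D.zp, D.n_pos.ne'⟩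
  have p0' : D.wz.p ∈ (30 * D.n).primeFactors := pf D ▸ Finset.mem_union_right _ p0
  let s := (30 * D.n).primeFactors.erase D.wz.p
  have hs : ∀ {p}, p ∈ s ↔ p.Prime ∧ p ∣ 30 * D.n ∧ p ≠ D.wz.p := fun {p} => by
    simp only [s, Finset.mem_erase, Nat.mem_primeFactors]; tauto
  have s2' : 2 ∈ s := hs.2 ⟨Nat.prime_two, Dvd.dvd.mul_right (by norm_num) _, fun e =>
    D.p_ne D.wz.prime D.zp (e ▸ by norm_num)⟩
  have hc : Fintype.card s = D.n.primeFactors.card + 2 := by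
    rw [Fintype.card_coe, Finset.card_erase_of_mem p0', pf, Finset.card_union_of_disjoint (dj D)]
    simp
    omega
  have dv : ∀ c ∈ D.SG, (∀ i : s, ∃ z ∈ D.ZO (W i), rs (W i).D c - 2 • z ∈ D.LH (W i).D) →
      ∃ c' ∈ D.SG, c = 2 • c' := fun c h1 h => by
    obtain ⟨c', a, b, d⟩ := hD1 D c h1 fun p k1 k2 k3 => by
      obtain ⟨z, hz, ⟨-, -, -, i, hi⟩, P, hP⟩ := h ⟨p, hs.2 ⟨k1, k2, k3⟩⟩
      obtain ⟨Q, rfl⟩ := exists_two P
      refine ⟨W p, hW p k1, z + rs _ (D.cb Q), add_mem (ZO_le D _ hz)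
        (rs_cb_L ⟨i + 1, fun g hg => ?_⟩).1, fun g hg => ?_⟩
      · rw [pow_succ, mul_smul, ← D.cb_nsmul, ← hP g hg, hi]
      · rw [Pi.add_apply, rs_of_mem hg, smul_add, ← D.cb_nsmul, ← hP g hg, Pi.sub_apply,
          rs_of_mem hg]
        simp
    obtain ⟨z, hz, -, P, hP⟩ := h ⟨2, s2'⟩
    simp only [W2, Dat.ZO, if_pos] at hz hP
    refine hD2 D c c' h1 a b d ⟨z, hz, P, fun g hg => ?_⟩
    rw [← hP g hg, Pi.sub_apply, rs_of_mem hg]
    simp
  have key := hABS _ s D.SG (fun i => rs (W i).D) (fun i => D.LH (W i).D) (fun i => D.ZO (W i))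
    (fun i => D.N i) (fun i => ?_) (fun i => ?_) (fun i c h => ?_) (fun i c h => ?_) dv
    (hc ▸ hCN D)
  rotate_left
  · obtain ⟨k1, k2, -⟩ := hs.1 i.2
    have := loc hCY hN h35 hK hO2 hO3 D (W i) ((hW i k1).symm ▸ k2)
      fun e => by rw [← W2, ← e, hW i k1]
    rwa [hW i k1] at this
  · unfold Dat.N
    split_ifs <;> norm_num
  · have h1 := rs_mem_of_le (SH_mem_ZH h) (le_top (a := (W i).D))
    unfold Dat.ZO
    split_ifs with e
    · rw [e] at h1 ⊢
      exact ⟨h1, fun g hg => by rw [rs_of_mem hg.1.1]; exact Dat.SH.ord h g hg⟩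
    · exact h1
  · obtain ⟨k, hk⟩ := (ZO_le D _ h).2.2.2
    exact ⟨k, funext hk⟩
  have hK : {c | c ∈ D.SG ∧ ∀ i : s, rs (W i).D c ∈ D.LH (W i).D} = D.SelN := by
    ext c
    rw [hKE]
    refine and_congr_right fun h1 => ⟨fun h p k1 k2 => ⟨W p, hW p k1, ?_⟩, fun h i => ?_⟩
    · suffices e : rs (W p).D c ∈ D.LH (W p).D from
        e.2.imp fun P hP g hg => (rs_of_mem hg c).symm.trans (hP g hg)
      by_cases k3 : p = D.wz.p
      · obtain ⟨c', a, rfl⟩ := dv c h1 fun i => ⟨0, zero_mem _, by simpa using h i⟩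
        rw [map_nsmul]
        exact (hN D _ (by rw [hW p k1, k3]; exact D.zp)).2 _
          (rs_mem_of_le (SH_mem_ZH a) le_top)
      · exact h ⟨p, hs.2 ⟨k1, k2, k3⟩⟩
    · obtain ⟨k1, k2, -⟩ := hs.1 i.2
      obtain ⟨w, e, hP⟩ := h i k1 k2
      obtain ⟨P, hP⟩ := TLOC2.LT.of_eq (w := W i) a_CP D.dl_fix
        (fun g h => Dat.SH.co h1 g trivial h trivial) hP (e.trans (hW i k1).symm)
      exact ⟨rs_mem_of_le (SH_mem_ZH h1) le_top, P, fun g hg => (rs_of_mem hg c).trans (hP g hg)⟩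
  rw [hK] at key
  refine ⟨key.1, fun h => ?_⟩
  have h1 : ({c | D.SH ⊤ c} : Set (GQ → EO)).ncard = _ := key.2 (key.1.2 h)
  have h2 := Finset.mul_prod_erase _ D.N p0'
  rw [N_four D D.wz.prime D.zp, ← Finset.prod_coe_sort] at h2
  rw [h1, mul_left_comm, h2, pf, Finset.prod_union (dj D), Finset.prod_congr rfl fun p hp =>
    N_four D (Nat.prime_of_mem_primeFactors hp) (Nat.dvd_of_mem_primeFactors hp)]
  simp [Dat.N]
  split_ifs <;> ring

end Pool.Agent.P.MP_9c97e9_nt.KT
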