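import Pool.Agent.P.MP_9c97e9_nt.KT.BasC

/-! The products of Eisenstein series are multiples of the cusp form. -/

namespace Pool.Agent.P.MP_9c97e9_nt.KT

open MP_8b7eba_nt.R2 (io)
open MP_8b7eba_nt.Mod (nM an)
open MP_8b7eba_nt.BSD15 (endSum endT endT_of_not equiv_iff Prim)
open PowerSeries Finset Cx

namespace TCX

theorem pair (hCR : CXCR) (hE1 : CXE1) (hE2 : CXE2) {g M : ℕ} {ν k : ℤ} (hg : 0 < g) (hM : 0 < M)
    (h15 : M.Coprime 15) (hν : IsCoprime ν M) (hk : IsCoprime k 15) :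
    (Mn (g * M) (g * ν) k : ℚ) + En1 (g * M) (g * ν) k + En2 (g * M) (g * ν) k =
      2 * MP_8b7eba_nt.BSD15.II (ν, M) (1, 0) (1, k) (0, 1) := by
  have z : ∀ y y' : ℤ × ℤ, Prim y → IsCoprime y.2 15 → endT (1, 0) (ν, M) y y' = 0 :=
    fun y y' hy h => endT_of_not _ _ fun e => by
      have := (equiv_iff (x := (1, 0)) isCoprime_one_left hy).1 e
      rw [Int.isCoprime_iff_gcd_eq_one.1 h] at this
      simp at this
  rw [hCR g M ν k hg hM, hE1 g M ν k hg hM h15 hν hk, hE2 g M ν k hg hM h15 hν hk,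
    MP_8b7eba_nt.BSD15.II, endSum, z (1, k) _ isCoprime_one_left hk,
    z (0, 1) _ isCoprime_one_right isCoprime_one_left]
  ring

/-- the number attached to the fraction -/
def NN (M : ℕ) (ν : ℤ) : ℚ :=
  (Mn M ν 2 + En1 M ν 2 + En2 M ν 2) + (Mn M ν (-2) + En1 M ν (-2) + En2 M ν (-2)) -
    (Mn M ν 7 + En1 M ν 7 + En2 M ν 7) - (Mn M ν (-7) + En1 M ν (-7) + En2 M ν (-7))

theorem c2 : IsCoprime (2 : ℤ) 15 := ⟨8, -1, by norm_num⟩
theorem c4 : IsCoprime (4 : ℤ) 15 := ⟨4, -1, by norm_num⟩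
theorem c7 : IsCoprime (7 : ℤ) 15 := ⟨-2, 1, by norm_num⟩

theorem NN_psi (hCR : CXCR) (hE1 : CXE1) (hE2 : CXE2) {g M : ℕ} {ν : ℤ} (hg : 0 < g) (hM : 0 < M)
    (h15 : M.Coprime 15) (hν : IsCoprime ν M) : NN (g * M) (g * ν) = 2 * psi (ν, M) := by
  rw [NN, psi, pair hCR hE1 hE2 hg hM h15 hν c2, pair hCR hE1 hE2 hg hM h15 hν c2.neg_left,
    pair hCR hE1 hE2 hg hM h15 hν c7, pair hCR hE1 hE2 hg hM h15 hν c7.neg_left]
  ring

theorem NN_eq (hCR : CXCR) (hE1 : CXE1) (hE2 : CXE2) (hMS : CXMS) {M : ℕ} (hM : 0 < M)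
    (h15 : M.Coprime 15) (ν : ℕ) : NN M ν = 4 * nM ν M := by
  have v1 := NN_psi hCR hE1 hE2 (ν := 0) one_pos one_pos (by norm_num) isCoprime_one_right
  have v2 := NN_psi hCR hE1 hE2 (ν := 1) one_pos two_pos (by norm_num) isCoprime_one_left
  have v3 := NN_psi hCR hE1 hE2 (ν := -1) one_pos four_pos (by norm_num)
    isCoprime_one_left.neg_left
  rw [show NN (1 * 1) ((1 : ℕ) * 0) = 0 by decide +kernel] at v1
  rw [show NN (1 * 2) ((1 : ℕ) * 1) = 0 by decide +kernel] at v2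
  rw [show NN (1 * 4) ((1 : ℕ) * -1) = -8 by decide +kernel] at v3
  have h := hMS (by simpa using v1) (by simpa using v2)
    (by push_cast at v3; linear_combination (-1 / 2) * v3)
  obtain ⟨g, a, c, hg, hac, rfl, rfl⟩ : ∃ g a c : ℕ, 0 < g ∧ a.Coprime c ∧ ν = g * a ∧ M = g * c := by
    obtain ⟨a, c, h1, h2, h3⟩ := Nat.exists_coprime ν M
    exact ⟨_, a, c, Nat.gcd_pos_of_pos_right ν hM, h1, by rw [mul_comm]; exact h2,
      by rw [mul_comm]; exact h3⟩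
  have hc := Nat.Coprime.coprime_mul_left h15
  have e : nM (g * a : ℕ) (g * c : ℕ) = nM a c := by
    have := MP_8b7eba_nt.Mod.lv_mul (k := g) (by omega) a c
    rw [MP_8b7eba_nt.Mod.lv_eq, MP_8b7eba_nt.Mod.lv_eq] at this
    push_cast
    exact (MP_8b7eba_nt.Mod.coeff_eq this).2
  rw [e, Nat.cast_mul, NN_psi hCR hE1 hE2 hg (Nat.pos_of_mul_pos_left hM) hc
    (Nat.isCoprime_iff_coprime.2 hac), h a c (Nat.isCoprime_iff_coprime.2 hac)
    (Nat.isCoprime_iff_coprime.2 hc)]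
  ring

theorem coeff_hk (hCM : CXCM) (hC1 : CXC1) (hC2 : CXC2) {M : ℕ} (hM : 0 < M) (D k : ℤ) :
    coeff M (hk M D k) =
      M * ∑ ν ∈ range M, zc M (ν * D) * ((Mn M ν k + En1 M ν k + En2 M ν k : ℚ) : ℂ) := by
  push_cast
  simp only [mul_add, sum_add_distrib]
  rw [← hCM M D k hM, ← hC1 M D k hM, ← hC2 M D k hM]
  simp only [hk, tri, map_sum, ← sum_add_distrib]
  refine sum_congr rfl fun B₁ _ => sum_congr rfl fun B₂ _ => sum_congr rfl fun a₁ _ =>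
    sum_congr rfl fun a₂ _ => ?_
  split_ifs
  · simp only [eC, add_mul, mul_add, map_add, coeff_C_mul, coeff_mul_C, coeff_C, if_neg hM.ne']
    ring
  · simp

theorem gC_eq (hRE : CXRE) {M : ℕ} (hM : 0 < M) (h15 : M.Coprime 15) (δ : (ZMod M)ˣ) (D : ℤ)
    (hD : D = 15 * (δ : ZMod M).val) :
    gC M δ = 4 * (hk M D 2 + hk M D (-2) - hk M D 7 - hk M D (-7)) := by
  have e1 : ∀ b i₁ i₂ : ℤ, eE M b i₁ i₂ = eC M i₂ (15 * i₁ + 1 * M * b) +
      eC M i₂ (15 * i₁ + -1 * M * b) - eC M i₂ (15 * i₁ + 4 * M * b) -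
      eC M i₂ (15 * i₁ + -4 * M * b) := fun b i₁ i₂ => by
    simp only [eE, one_mul, neg_mul, sub_eq_add_neg]
  have e2 : ∀ b i₁ i₂ : ℤ, eE M (2 * b) i₁ i₂ = eC M i₂ (15 * i₁ + 2 * M * b) +
      eC M i₂ (15 * i₁ + -2 * M * b) - eC M i₂ (15 * i₁ + 8 * M * b) -
      eC M i₂ (15 * i₁ + -8 * M * b) := fun b i₁ i₂ => by
    rw [eE]
    congr 4 <;> ring
  have c1 : IsCoprime (1 : ℤ) 15 := isCoprime_one_left
  have r := fun β β' k => hRE M δ β β' k hM h15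
  have a1 := r 1 2 2 c1 (by norm_num)
  have a2 := r 1 (-2) (-2) c1 (by norm_num)
  have a3 := r 1 8 (-7) c1 (by norm_num)
  have a4 := r 1 (-8) 7 c1 (by norm_num)
  have b1 := r (-1) 2 (-2) c1.neg_left (by norm_num)
  have b2 := r (-1) (-2) 2 c1.neg_left (by norm_num)
  have b3 := r (-1) 8 7 c1.neg_left (by norm_num)
  have b4 := r (-1) (-8) (-7) c1.neg_left (by norm_num)
  have d1 := r 4 2 (-7) c4 (by norm_num)
  have d2 := r 4 (-2) 7 c4 (by norm_num)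
  have d3 := r 4 8 2 c4 (by norm_num)
  have d4 := r 4 (-8) (-2) c4 (by norm_num)
  have f1 := r (-4) 2 7 c4.neg_left (by norm_num)
  have f2 := r (-4) (-2) (-7) c4.neg_left (by norm_num)
  have f3 := r (-4) 8 (-2) c4.neg_left (by norm_num)
  have f4 := r (-4) (-8) 2 c4.neg_left (by norm_num)
  simp only [gC, e2]
  simp only [e1, sI, mul_add, add_mul, mul_sub, sub_mul, sum_add_distrib, sum_sub_distrib, hD]
    at a1 a2 a3 a4 b1 b2 b3 b4 d1 d2 d3 d4 f1 f2 f3 f4 ⊢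
  linear_combination a1 + a2 - a3 - a4 + b1 + b2 - b3 - b4 - d1 - d2 + d3 + d4 - f1 - f2 + f3 + f4

end TCX

open TCX in
theorem t_CX (hCXTR : CXTR) (hCXGE : CXGE) (hCXGI : CXGI) (hCXGC : CXGC) (hCXG0 : CXG0)
    (hCXFI : CXFI) (hCXRE : CXRE) (hCXCM : CXCM) (hCXC1 : CXC1) (hCXC2 : CXC2) (hCXCR : CXCR)
    (hCXE1 : CXE1) (hCXE2 : CXE2) (hCXMS : CXMS) : CX := by
  intro M δ j h1 h15
  have hM : 0 < M := by omega
  obtain ⟨t1, t2⟩ := hCXTR M δ hM h15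
  have h := hCXFI M _ _ hM (fun z hz => hCXGE M δ z hM h15 hz) (hCXGI M δ hM h15)
    (hCXGC M δ h1 h15) (hCXG0 M δ hM h15) j
  have e : coeff M (gC M δ) = 16 * M * io (SSd M δ) := by
    rw [gC_eq hCXRE hM h15 δ _ rfl, show (4 : ℂ⟦X⟧) = C 4 from rfl, coeff_C_mul, t2]
    simp only [map_add, map_sub, coeff_hk hCXCM hCXC1 hCXC2 hM, mul_sum, ← sum_add_distrib,
      ← sum_sub_distrib]
    refine sum_congr rfl fun ν _ => ?_
    have := congrArg (Rat.cast : ℚ → ℂ) (NN_eq hCXCR hCXE1 hCXE2 hCXMS hM h15 ν)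
    rw [NN] at this
    push_cast at this ⊢
    linear_combination 4 * M * zc M (ν * (15 * (δ : ZMod M).val)) * this
  apply io.injective
  rw [← coeff_map, t1, h, e]
  split_ifs <;> simp [map_ofNat]

end Pool.Agent.P.MP_9c97e9_nt.KT
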