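import Pool.Agent.P.MP_9c97e9_nt.KT.BasC

/-! The first end term. -/

namespace Pool.Agent.P.MP_9c97e9_nt.KT

open MP_8b7eba_nt.BSD15 (saw saw_neg endT endT_eq equiv_iff Gam dt width)
open Finset Cx

namespace TCXE1

theorem two (hSD : CXSD) {g M : ℕ} (hg : 0 < g) (hM : 0 < M) (c : ℤ) (P : ℕ → ℤ × ℤ → Prop)
    [∀ B p, Decidable (P B p)]
    (h0 : ∀ B p, P B p → (M : ℤ) ∣ p.1 ∧ (g : ℤ) ∣ p.2)
    (h1 : ∀ (B : ℕ) (s : ℤ), s * s = 1 → (P B (s * M, s * g) ↔ (15 * M : ℤ) ∣ B - s * c)) :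
    (∑ B ∈ range (15 * (g * M)), ∑ p ∈ ((g * M : ℕ) : ℤ).divisorsAntidiag,
      if P B p then -(p.1.sign : ℚ) * sw (g * M) B else 0) = -2 * saw (c / (15 * M)) := by
  have hgM : ((g * M : ℕ) : ℤ) ≠ 0 := by positivity
  have key : ∀ s : ℤ, s * s = 1 → (∑ B ∈ range (15 * (g * M)),
      if P B (s * M, s * g) then sw (g * M) B else 0) = saw ((s * c : ℤ) / (15 * M)) := by
    intro s hs
    have := hSD g (15 * M) (s * c) hg (by omega)
    rw [show g * (15 * M) = 15 * (g * M) by ring] at this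
    push_cast at this ⊢
    rw [← this]
    refine sum_congr rfl fun B _ => if_congr (h1 B s hs) ?_ rfl
    rw [sw]
    congr 1
    push_cast
    ring
  have k1 := key 1 rfl
  have k2 := key (-1) rfl
  simp only [one_mul, neg_mul, Int.cast_neg, neg_div, saw_neg] at k1 k2
  rw [sum_comm, ← sum_subset (s₁ := {((M : ℤ), (g : ℤ)), (-(M : ℤ), -(g : ℤ))}),
    sum_pair (by simp; omega)]
  · simp only [Int.sign_neg, Int.sign_natCast_of_ne_zero hM.ne', Int.cast_neg, Int.cast_one,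
      neg_neg, one_mul, neg_mul, k2]
    rw [two_mul, neg_add]
    congr 1
    rw [← k1, ← sum_neg_distrib]
    exact sum_congr rfl fun B _ => by split_ifs <;> simp
  · intro p hp
    rw [Int.mem_divisorsAntidiag]
    refine ⟨?_, hgM⟩
    rcases mem_insert.1 hp with rfl | hp
    · push_cast; ring
    · rw [mem_singleton.1 hp]; push_cast; ring
  · rintro ⟨x, y⟩ hp hn
    refine sum_eq_zero fun B _ => if_neg fun h => hn ?_
    obtain ⟨⟨u, rfl⟩, v, rfl⟩ : (M : ℤ) ∣ x ∧ (g : ℤ) ∣ y := h0 B _ h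
    have e := (Int.mem_divisorsAntidiag.1 hp).1
    have : u * v = 1 := mul_left_cancel₀ hgM (by push_cast at e ⊢; linear_combination e)
    rcases Int.eq_one_or_neg_one_of_mul_eq_one' this with ⟨rfl, rfl⟩ | ⟨rfl, rfl⟩ <;> simp

theorem dvd1 {g M : ℕ} (hg : 0 < g) {x : ℤ} : ((g * M : ℕ) : ℤ) ∣ g * x ↔ (M : ℤ) ∣ x := by
  rw [Nat.cast_mul, mul_dvd_mul_iff_left (by positivity)]

theorem val {M : ℕ} (h15 : M.Coprime 15) {ν : ℤ} (hν : IsCoprime ν M) {y y' : ℤ × ℤ}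
    {γ : Gam} (h : γ.act y = (ν, (M : ℤ))) :
    endT (ν, M) (1, 0) y y' = saw ((γ.act y').2 / dt (ν, M) (γ.act y') / (15 * M)) := by
  have e : width (ν, M) = 15 := by
    rw [width, show Int.gcd (ν, (M : ℤ)).2 15 = 1 from h15]
  rw [endT_eq (x := (ν, M)) _ _ hν γ h, e, MP_8b7eba_nt.BSD15.dl,
    show dt (γ.act y') (1, 0) = -(γ.act y').2 by simp [dt],
    show dt (ν, M) (1, 0) = -M by simp [dt]]
  congr 1
  push_cast
  ring

end TCXE1

open TCXE1 in
theorem t_CXE1 (hCXSD : CXSD) : CXE1 := by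
  intro g M ν k hg hM h15 hν hk
  have c15 : IsCoprime (M : ℤ) 15 := Nat.isCoprime_iff_coprime.2 h15
  obtain ⟨γ, hγ⟩ := (equiv_iff (x := (ν, M)) (y := (1, k)) hν isCoprime_one_left).2
    ((Int.isCoprime_iff_gcd_eq_one.1 c15).trans (Int.isCoprime_iff_gcd_eq_one.1 hk).symm)
  have e1 : γ.a * 1 + γ.b * k = ν := congrArg Prod.fst hγ
  have e2 : γ.c * 1 + γ.d * k = M := congrArg Prod.snd hγ
  have e3 : ν * γ.d - M * γ.b = 1 := by linear_combination γ.det_eq - γ.d * e1 + γ.b * e2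
  obtain ⟨t, ht⟩ := γ.dvd_c
  have hd : IsCoprime γ.d 15 := ⟨γ.a, -γ.b * t, by linear_combination γ.det_eq + γ.b * ht⟩
  rw [val h15 hν hγ, show dt (ν, M) (γ.act (0, 1)) = 1 by simpa [dt, Gam.act] using e3]
  simp only [Gam.act, mul_zero, mul_one, zero_add, Int.cast_one, div_one]
  refine two hCXSD hg hM γ.d _ (fun B p h => ⟨hν.symm.dvd_of_dvd_mul_left ?_, ?_⟩) fun B s hs => ?_
  · exact (dvd1 hg).1 (by rw [← mul_assoc]; exact h.2.2.1)
  · have := (Int.natCast_dvd_natCast.2 (dvd_mul_right g M)).trans h.2.2.2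
    rwa [mul_assoc, dvd_sub_left (dvd_mul_right _ _)] at this
  · rw [show s * g - g * ν * B = g * (s - ν * B) by ring, dvd1 hg, mul_assoc, dvd1 hg]
    constructor
    · rintro ⟨-, ⟨u, hu⟩, -, v, hv⟩
      refine c15.symm.mul_dvd (hk.symm.dvd_of_dvd_mul_left ⟨s * t - u, ?_⟩)
        (hν.symm.dvd_of_dvd_mul_left ⟨-v - s * γ.b, ?_⟩)
      · linear_combination -hu - s * e2 + s * ht
      · linear_combination -hv - s * e3
    · rintro ⟨u, hu⟩
      refine ⟨Nat.isCoprime_iff_coprime.1 ?_, ⟨s * t - k * M * u, ?_⟩, ⟨ν * s, by ring⟩,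
        -s * γ.b - ν * 15 * u, ?_⟩
      · rw [show (B : ℤ) = s * γ.d + 15 * (M * u) by linear_combination hu]
        exact (IsCoprime.mul_left ⟨s, 0, by linear_combination hs⟩ hd).add_mul_left_left _
      · linear_combination -s * e2 + s * ht - k * hu
      · linear_combination -s * e3 - ν * hu

end Pool.Agent.P.MP_9c97e9_nt.KT
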