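import Pool.Agent.P.MP_9c97e9_nt.KT.BasC

/-! The transformation law of the Eisenstein series of weight one. -/

namespace Pool.Agent.P.MP_9c97e9_nt.KT

open MP_8b7eba_nt.Mod (M2)
open MP_29cb78_nt.E (ee)
open Cx
open scoped Real

namespace TCXEM

theorem key {F G : ℂ → ℂ} (hF : Differentiable ℂ F) (hG : Differentiable ℂ G) {c j k w : ℂ}
    (hc : c ≠ 0) (hj : j ≠ 0) (hw : G w ≠ 0)
    (h : ∀ u, F (u / j) = c * ee (k * u ^ 2 / (2 * j)) * G u) :
    logDeriv F (w / j) = 2 * π * Complex.I * (k * w) + j * logDeriv G w := by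
  have h1 : HasDerivAt (fun u => F (u / j)) (deriv F (w / j) * (1 / j)) w :=
    (hF (w / j)).hasDerivAt.comp w ((hasDerivAt_id w).div_const j)
  have h2 : HasDerivAt (fun u : ℂ => k * u ^ 2 / (2 * j)) (k * w / j) w := by
    refine (((hasDerivAt_pow 2 w).const_mul k).div_const (2 * j)).congr_deriv ?_
    field_simp
    simp
  have h3 := ((((MP_29cb78_nt.E.Th.ee_hasDerivAt _).comp w h2).const_mul c).mul
    (hG w).hasDerivAt).congr_of_eventuallyEq (f₁ := fun u => F (u / j))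
    (.of_forall fun u => h u)
  have h4 := h1.unique h3
  have h5 := MP_29cb78_nt.E.Th.ee_ne (k * w ^ 2 / (2 * j))
  rw [logDeriv_apply, logDeriv_apply, h w]
  simp only [Function.comp_apply] at h4
  generalize ee (k * w ^ 2 / (2 * j)) = E at h4 h5
  field_simp
  field_simp at h4
  linear_combination h4

end TCXEM

theorem t_CXEM (hTHX : THX) : CXEM := by
  intro g hg x₁ x₂ τ hτ hx
  obtain ⟨c, hc, h⟩ := hTHX g hg τ hτ
  have hj := M2.j_ne (g := g) (by omega) hτ
  have hd : (g.a * g.d - g.b * g.c : ℂ) = 1 := by exact_mod_cast hg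
  have h1 := TCXEM.key (vth_diff (M2.im_act_pos (g := g) (by omega) hτ)) (vth_diff hτ) hc hj
    (vth_ne ((hx.act hg).th0_ne hτ)) h
  have h2 : (((x₁ * g.a + x₂ * g.c : ℚ) : ℂ) * τ + (x₁ * g.b + x₂ * g.d : ℚ)) / g.j τ =
      x₁ * g.act τ + x₂ := by
    rw [M2.act_eq]
    field_simp
    rw [M2.j]
    push_cast
    ring
  rw [Ew, Ew, ZZ, ZZ, ← h2, h1]
  have := Complex.two_pi_I_ne_zero
  field_simp
  rw [M2.j]
  push_cast
  linear_combination (-2 * π * Complex.I * x₁ : ℂ) * hd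

end Pool.Agent.P.MP_9c97e9_nt.KT
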