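import Pool.Agent.P.MP_9c97e9_nt.KT.BasC

/-! Permutations of the indices. -/

namespace Pool.Agent.P.MP_9c97e9_nt.KT

open MP_8b7eba_nt.Mod (M2)
open Finset Cx

namespace TCXIP

theorem cg {n : ℕ} [NeZero n] {x : ℤ} {y : ZMod n} (h : (x : ZMod n) = y) :
    x ≡ y.val [ZMOD n] :=
  (ZMod.intCast_eq_intCast_iff _ _ _).1 (by rw [h]; simp)

theorem cop {b : ZMod 15} (h : IsUnit b) : IsCoprime (b.val : ℤ) 15 :=
  Nat.isCoprime_iff_coprime.2 ((ZMod.isUnit_iff_coprime b.val 15).1 (by simpa using h))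

end TCXIP

open TCXIP in
theorem t_CXIP : CXIP := by
  intro M δ Φ hM hΦ
  have : NeZero M := ⟨hM.ne'⟩
  refine ⟨fun u g hu hg => ?_, ?_⟩
  · have hd : (g.a : ZMod M) * g.d - g.b * g.c = 1 := by
      have := congrArg (Int.cast : ℤ → ZMod M) (show g.a * g.d - g.b * g.c = 1 from hg)
      exact_mod_cast this
    have hu' : IsUnit (u : ZMod 15) := (ZMod.coe_int_isUnit_iff_isCoprime u 15).2 hu.symm
    rw [sI_eq, sI_eq]
    refine sum_bijective (fun p => (p.1 * u, (p.2.1.1 * g.a + p.2.1.2 * g.c,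
      p.2.1.1 * g.b + p.2.1.2 * g.d), p.2.2.1 * g.a + p.2.2.2 * g.c, p.2.2.1 * g.b + p.2.2.2 * g.d))
      (Finite.injective_iff_bijective.1 fun p q e => ?_) (fun p => ?_) fun p hp => ?_
    · simp only [Prod.mk.injEq] at e
      obtain ⟨e0, ⟨e1, e2⟩, e3, e4⟩ := e
      refine Prod.ext (hu'.mul_right_cancel e0) (Prod.ext (Prod.ext ?_ ?_) (Prod.ext ?_ ?_))
      · linear_combination g.d * e1 - g.c * e2 - (p.2.1.1 - q.2.1.1) * hd
      · linear_combination g.a * e2 - g.b * e1 - (p.2.1.2 - q.2.1.2) * hd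
      · linear_combination g.d * e3 - g.c * e4 - (p.2.2.1 - q.2.2.1) * hd
      · linear_combination g.a * e4 - g.b * e3 - (p.2.2.2 - q.2.2.2) * hd
    · simp only [mem_filter, mem_univ, true_and, IsUnit.mul_iff, hu', and_true]
      refine and_congr_right fun _ => Eq.congr_left ?_
      linear_combination (p.2.1.2 * p.2.2.1 - p.2.1.1 * p.2.2.2) * hd
    · exact hΦ _ _ _ _ _ _ _ _ _ _ ((cop (mem_filter.1 hp).2.1).mul_left hu)
        (TCXIP.cg (n := 15) (by simp)) (TCXIP.cg (by simp)) (TCXIP.cg (by simp)) (TCXIP.cg (by simp)) (TCXIP.cg (by simp))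
  · rw [sI_eq, sI_eq]
    refine sum_bijective (fun p => (p.1, (p.2.2.1, -p.2.2.2), p.2.1.1, -p.2.1.2))
      (Function.Involutive.bijective fun p => by simp) (fun p => ?_) fun p hp => ?_
    · simp only [mem_filter, mem_univ, true_and]
      refine and_congr_right fun _ => Eq.congr_left ?_
      ring
    · exact hΦ _ _ _ _ _ _ _ _ _ _ (cop (mem_filter.1 hp).2.1) rfl rfl (TCXIP.cg (by simp)) rfl
        (TCXIP.cg (by simp))

end Pool.Agent.P.MP_9c97e9_nt.KT
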