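import Pool.Agent.P.MP_9c97e9_nt.KT.IfU
import Pool.Agent.P.MP_9c97e9_nt.KT.TGEN

/-! Correspondences act on the cocycles of the Hochschild-Serre spectral sequence. -/

namespace Pool.Agent.P.MP_9c97e9_nt.KT

namespace TKCR

variable {G Ω : Type} [Group G] [Field Ω] [MulSemiringAction G Ω] {C : Cx G Ω} {K : Subgroup G}
  {T : Type} {R : Crs G T} {g g' : G}

theorem h_one (hR : R.Ok C K) (t : T) : R.h 1 t = 1 := by simp [Crs.h, hR.one]

theorem a_inv (hR : R.Ok C K) (hg : g ∈ C.H) (hg' : g' ∈ C.H) (t : T) :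
    R.a (g * g')⁻¹ t = R.a g'⁻¹ (R.a g⁻¹ t) := by
  rw [mul_inv_rev, hR.mul _ (inv_mem hg') _ (inv_mem hg)]

theorem h_mul (hR : R.Ok C K) (hg : g ∈ C.H) (hg' : g' ∈ C.H) (t : T) :
    R.h (g * g') t = R.h g t * R.h g' (R.a g⁻¹ t) := by
  simp only [Crs.h, a_inv hR hg hg', mul_assoc, mul_inv_cancel_left]

theorem h_H (hK : C.Nm K) (hR : R.Ok C K) (hg : g ∈ C.H) (t : T) : R.h g t ∈ C.H := by
  simpa using mul_mem (hK.le (hR.mem g hg t)) hg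

theorem h_K (hK : C.Nm K) (hR : R.Ok C K) (hg : g ∈ K) (t : T) : R.h g t ∈ K := by
  simpa using mul_mem (hR.mem g (hK.le hg) t) hg

theorem h_ac (hC : C.Ok) (hK : C.Nm K) (hR : R.Ok C K) (hg : g ∈ C.H) (t : T) (F : C.A) :
    C.ac (R.h g t) F = C.ac g F := by
  have := hC.mul _ (hK.le (hR.mem g hg t)) g hg
  rw [inv_mul_cancel_right, hK.cy _ (hR.mem g hg t), one_mul] at this
  funext d
  rw [Cx.ac, Cx.ac, this]

theorem sm (hR : R.Ok C K) [Fintype T] (S : Finset Ω) : ∃ S' : Finset Ω, ∀ n ∈ C.H,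
    (∀ s ∈ S', n • s = s) → (∀ t, R.a n⁻¹ t = t) ∧ ∀ t, ∀ s ∈ S, R.h n t • s = s := by
  classical
  obtain ⟨S0, h0⟩ := hR.sm
  refine ⟨S0 ∪ (Finset.univ ×ˢ S).image fun p => R.x p.1 • p.2, fun n hn e => ?_⟩
  have h1 : ∀ t, R.a n⁻¹ t = t := fun t => by
    have := h0 1 (one_mem _) n⁻¹ (inv_mem hn) fun s hs =>
      inv_smul_eq_iff.2 (e s (Finset.mem_union_left _ hs)).symm
    rw [one_mul] at this
    rw [this, hR.one]
  refine ⟨h1, fun t s hs => ?_⟩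
  rw [Crs.h, h1, mul_smul, mul_smul, e _ (Finset.mem_union_right _
    (Finset.mem_image.2 ⟨(t, s), by simpa using hs, rfl⟩)), inv_smul_smul]

theorem sum_a (hR : R.Ok C K) [Fintype T] (hg : g ∈ C.H) {X : Type} [AddCommMonoid X]
    (F : T → X) : ∑ t, F (R.a g⁻¹ t) = ∑ t, F t :=
  Equiv.sum_comp ⟨R.a g⁻¹, R.a g,
    fun t => by rw [← hR.mul _ hg _ (inv_mem hg), mul_inv_cancel, hR.one],
    fun t => by rw [← hR.mul _ (inv_mem hg) _ hg, inv_mul_cancel, hR.one]⟩ F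

omit [Field Ω] [MulSemiringAction G Ω] in
theorem ac_sum [Fintype T] (g : G) (F : T → C.A) : C.ac g (∑ t, F t) = ∑ t, C.ac g (F t) := by
  funext d
  simp only [Cx.ac, Finset.sum_apply, Finset.mul_sum]

omit [Field Ω] [MulSemiringAction G Ω] in
theorem ac_zero (g : G) : C.ac g 0 = 0 := funext fun _ => mul_zero _

theorem sm1 (hK : C.Nm K) (hR : R.Ok C K) [Fintype T] {X : Type} [AddCommMonoid X] {ψ : G → X}
    (h : Sm1 Ω K ψ) : Sm1 Ω K (R.T1 ψ) := by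
  obtain ⟨S, h⟩ := h
  obtain ⟨S', h'⟩ := sm hR S
  refine ⟨S', fun g hg n hn e => Finset.sum_congr rfl fun t _ => ?_⟩
  rw [h_mul hR (hK.le hg) (hK.le hn), h _ (h_K hK hR hg t) _ (h_K hK hR hn _)
    ((h' n (hK.le hn) e).2 _)]

end TKCR

open TKCR in
theorem t_KCR (hLING : LING) (hKC : KCU) : KCR := by
  intro G Ω _ _ _ C K T _ R hC hK hR
  refine ⟨fun X _ ψ h => ⟨sm1 hK hR h.1, fun g hg g' hg' => ?_⟩, fun f b h =>
    ⟨⟨⟨?_, ?_, fun g hg g' hg' l hl => ?_⟩, sm1 hK hR h.sm, fun g hg g' hg' => ?_⟩,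
      fun g hg γ hγ => ?_⟩⟩
  · rw [Crs.T1, Crs.T1, Crs.T1, ← sum_a hR (hK.le hg) fun t => ψ (R.h g' t),
      ← Finset.sum_add_distrib]
    exact Finset.sum_congr rfl fun t _ => by
      rw [h_mul hR (hK.le hg) (hK.le hg'), h.2 _ (h_K hK hR hg t) _ (h_K hK hR hg' _)]
  · obtain ⟨S, h1⟩ := h.co.sm
    obtain ⟨S', h'⟩ := sm hR S
    refine ⟨S', fun g hg g' hg' n hn e => ⟨Finset.sum_congr rfl fun t _ => ?_,
      Finset.sum_congr rfl fun t _ => ?_⟩⟩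
    · rw [h_mul hR hg hn, a_inv hR hg hn, (h' n hn e).1,
        (h1 _ (h_H hK hR hg t) _ (h_H hK hR hg' _) _ (h_H hK hR hn _) ((h' n hn e).2 _)).1]
    · rw [h_mul hR hg' hn,
        (h1 _ (h_H hK hR hg t) _ (h_H hK hR hg' _) _ (h_H hK hR hn _) ((h' n hn e).2 _)).2]
  · simp [Crs.T2, h_one hR, h.co.one]
  · rw [Crs.T2, Crs.T2, Crs.T2, Crs.T2,
      ← sum_a hR hg fun t => f (R.h g' t) (R.h l (R.a g'⁻¹ t)), ac_sum, ← Finset.sum_add_distrib,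
      ← Finset.sum_add_distrib]
    refine Finset.sum_congr rfl fun t _ => ?_
    rw [h_mul hR hg' hl, h_mul hR hg hg', a_inv hR hg hg', ← h_ac hC hK hR hg t]
    exact h.co.co _ (h_H hK hR hg t) _ (h_H hK hR hg' _) _ (h_H hK hR hl _)
  · rw [Cx.d1, Crs.T2, Crs.T1, Crs.T1, Crs.T1, ← sum_a hR (hK.le hg) fun t => b (R.h g' t), ac_sum,
      ← Finset.sum_sub_distrib, ← Finset.sum_add_distrib]
    refine Finset.sum_congr rfl fun t _ => ?_
    rw [h.eq _ (h_K hK hR hg t) _ (h_K hK hR hg' _), Cx.d1, h_mul hR (hK.le hg) (hK.le hg'),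
      h_ac hC hK hR (hK.le hg)]
  obtain ⟨k1, -, -, -, k5, -⟩ := hKC G Ω C K f b hC hK h
  have a1 : ∀ F, C.ac 1 F = F := fun F => funext fun d => by
    simp [Cx.ac, TGEN.cy_one hC, TGEN.red_one hC.dvd hC.ne]
  have f1 : ∀ x ∈ C.H, f x 1 = 0 := fun x hx => by
    simpa [h.co.one, ac_zero] using h.co.co x hx 1 (one_mem _) 1 (one_mem _)
  have f2 : ∀ x ∈ C.H, f 1 x = 0 := fun x hx => by
    simpa [h.co.one, a1] using h.co.co 1 (one_mem _) 1 (one_mem _) x hx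
  have m0 := hK.nm g hg γ hγ
  have key : ∀ t, f (R.h g t) (R.h (g⁻¹ * γ * g) (R.a g⁻¹ t)) -
      C.ac g (b (R.h (g⁻¹ * γ * g) (R.a g⁻¹ t))) - f (R.h γ t) (R.h g (R.a γ⁻¹ t)) + b (R.h γ t) =
      C.kk f b g (R.h γ t) + ((fun t => b (R.h g t * g⁻¹) - f (R.h g t * g⁻¹) g -
        C.kk f b g (R.h g t * g⁻¹)) t - (fun t => b (R.h g t * g⁻¹) - f (R.h g t * g⁻¹) g -
        C.kk f b g (R.h g t * g⁻¹)) (R.a γ⁻¹ t)) := fun t => by
    have e : R.h g t * R.h (g⁻¹ * γ * g) (R.a g⁻¹ t) = R.h γ t * R.h g (R.a γ⁻¹ t) := by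
      rw [← h_mul hR hg (hK.le m0), ← h_mul hR (hK.le hγ) hg]
      simp only [mul_assoc, mul_inv_cancel_left]
    have m1 := hR.mem g hg t
    have m2 := h_K hK hR m0 (R.a g⁻¹ t)
    have m3 := h_K hK hR hγ t
    have m4 := hR.mem g hg (R.a γ⁻¹ t)
    beta_reduce
    generalize R.h g t = h1, R.h (g⁻¹ * γ * g) (R.a g⁻¹ t) = h2, R.h γ t = h3,
      R.h g (R.a γ⁻¹ t) = h4 at *
    have e' : h1 * g⁻¹ * (g * h2 * g⁻¹) = h3 * (h4 * g⁻¹) := by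
      rw [← mul_assoc h3, ← e]
      simp only [mul_assoc, inv_mul_cancel_left]
    have p1 := k5 g hg 1 (one_mem _) _ m1 _ m2
    have p2 := k5 1 (one_mem _) g hg _ m3 _ m4
    have p3 := (k1 g hg).2 _ m1 _ (by simpa using hK.nm g⁻¹ (inv_mem hg) _ m2 : g * h2 * g⁻¹ ∈ K)
    rw [e', (k1 g hg).2 _ m3 _ m4] at p3
    rw [e', f1 _ hg, f1 _ (hK.le m2)] at p1
    simp only [Cx.kk, a1, inv_one, one_mul, mul_one, inv_mul_cancel_right, sub_zero, f2 _ hg,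
      f2 _ (hK.le m4), f1 _ (hK.le m4), f1 _ (hK.le m3)] at p2
    simp only [mul_one, inv_mul_cancel_right, sub_zero] at p1
    linear_combination p1 - p2 - p3
  rw [Cx.kk, Crs.T2, Crs.T2, Crs.T1, Crs.T1, Crs.T1,
    ← sum_a hR hg fun t => b (R.h (g⁻¹ * γ * g) t), ac_sum, ← Finset.sum_sub_distrib,
    ← Finset.sum_sub_distrib, ← Finset.sum_add_distrib, Finset.sum_congr rfl fun t _ => key t,
    Finset.sum_add_distrib, Finset.sum_sub_distrib, sum_a hR (hK.le hγ) fun t =>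
      b (R.h g t * g⁻¹) - f (R.h g t * g⁻¹) g - C.kk f b g (R.h g t * g⁻¹), sub_self, add_zero]

end Pool.Agent.P.MP_9c97e9_nt.KT
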