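import Pool.Agent.P.MP_9c97e9_nt.KT.IfT2
import Pool.Agent.P.MP_9c97e9_nt.KT.TGEN

/-! From coefficients in the field to coefficients in the roots of unity. -/

namespace Pool.Agent.P.MP_9c97e9_nt.KT

namespace TKUM

variable {G Ω : Type} [Group G] [Field Ω] [MulSemiringAction G Ω] {C : Cx G Ω} {K : Subgroup G}

theorem ac_id (hC : C.Ok) {g : G} (h : C.cy g = 1) (x : C.A) : C.ac g x = x :=
  funext fun d => by rw [Cx.ac, h, TGEN.red_one hC.dvd hC.ne, one_mul, inv_one, mul_one]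

theorem fix_zp (hC : C.Ok) {g : G} (hg : g ∈ C.H) (h : C.cy g = 1) (a : ZMod C.N) :
    g • TGEN.zp C a = TGEN.zp C a := by
  rw [TGEN.smul_zp hC hg, h, TGEN.red_one hC.dvd hC.ne, one_mul]

theorem one_co [CharZero Ω] (hTRG : TRG) (hH90G : H90G) {k : ℕ} (hC : C.Ok) (hN : C.N = 2 ^ k)
    (hK : K ≤ C.H) (hcy : ∀ g ∈ K, C.cy g = 1) (hI : ∀ H ≤ K, Iso Ω H) (hP : PwG Ω K C.N)
    {f : G → G → ZMod C.N} (hs : Sm11 Ω K f) (h1 : f 1 1 = 0)
    (hco : ∀ g ∈ K, ∀ h ∈ K, ∀ l ∈ K, f h l + f g (h * l) = f (g * h) l + f g h) :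
    ∃ b : G → ZMod C.N, Sm1 Ω K b ∧ ∀ g ∈ K, ∀ h ∈ K, f g h = b h - b (g * h) + b g := by
  have hF : FO Ω K := BT.FO_mono hC.fin hK
  have hz : ∀ a, TGEN.zp C a ≠ 0 := fun a e => by
    have := TGEN.zp_pow hC a
    rw [e, zero_pow (TGEN.N_ne hC)] at this
    exact zero_ne_one this
  obtain ⟨B, hB, hB0, hBe⟩ := hTRG G Ω K k (fun g h => TGEN.zp C (f g h)) hF hI
    ⟨fun g _ h _ => hz _, hs.imp fun S e g hg h hh n hn hS =>
        ⟨congrArg _ (e g hg h hh n hn hS).1, congrArg _ (e g hg h hh n hn hS).2⟩,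
      fun g hg h hh l hl => by
        rw [fix_zp hC (hK hg) (hcy g hg), ← TGEN.zp_add hC, ← TGEN.zp_add hC, hco g hg h hh l hl]⟩
    (by rw [h1, TGEN.zp_zero]) fun g _ h _ => by rw [← hN, TGEN.zp_pow hC]
  obtain ⟨c, hc0, hc⟩ := hH90G G Ω K (fun g => B g ^ C.N) hF (BT.sm1_comp hB (· ^ C.N))
    (fun g hg => pow_ne_zero _ (hB0 g hg)) fun g hg h hh => by
      have := congrArg (· ^ C.N) (hBe g hg h hh)
      simp only [mul_pow, TGEN.zp_pow hC, one_mul] at this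
      rw [this, smul_pow']
  obtain ⟨u, ρ, hu0, hu, e⟩ := hP c hc0 fun g hg => ⟨B g, hc g hg⟩
  have hρ : ρ ≠ 0 := fun h => by
    rw [h, zero_pow (TGEN.N_ne hC)] at e
    exact mul_ne_zero hc0 hu0 e
  have hw : ∀ g ∈ K, TGEN.zp C (dlo C.ze C.N (B g * ρ / g • ρ)) = B g * ρ / g • ρ :=
    fun g hg => TGEN.dlo_spec hC (by
      rw [div_pow, ← smul_pow', mul_pow, ← e, smul_mul', hc g hg, hu g hg, mul_assoc]
      exact div_self (mul_ne_zero (pow_ne_zero _ (hB0 g hg)) (mul_ne_zero hc0 hu0)))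
  refine ⟨fun g => dlo C.ze C.N (B g * ρ / g • ρ),
    BT.sm1_comp₂ hB (BT.sm1_smul ρ) fun x y => dlo C.ze C.N (x * ρ / y), fun g hg h hh => ?_⟩
  rw [sub_add_eq_add_sub, eq_sub_iff_add_eq]
  apply TGEN.zp_inj hC
  have h2 := TGEN.smul_ne (g := g) hρ
  have h3 := TGEN.smul_ne (g := g) (TGEN.smul_ne (g := h) hρ)
  rw [TGEN.zp_add hC, TGEN.zp_add hC, ← fix_zp hC (hK hg) (hcy g hg) (dlo _ _ (B h * ρ / h • ρ)),
    hw g hg, hw h hh, hw _ (K.mul_mem hg hh), smul_div₀', smul_mul', mul_smul, ← mul_div_assoc,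
    ← mul_assoc, hBe g hg h hh]
  field_simp

end TKUM

theorem t_KUM (hTRG : TRG) (hH90G : H90G) : KUM := by
  intro G Ω _ _ _ _ C K k f hC hN hK hcy hI hP hf
  have : NeZero C.M := ⟨hC.ne⟩
  have h := fun d => TKUM.one_co hTRG hH90G hC hN hK hcy hI hP (f := fun g h => f g h d)
    ((BT.sm11_mono hf.sm hK).imp fun S e g hg h hh n hn hS =>
      ⟨congrFun (e g hg h hh n hn hS).1 d, congrFun (e g hg h hh n hn hS).2 d⟩)
    (congrFun hf.one d) fun g hg h hh l hl => by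
      have := hf.co g (hK hg) h (hK hh) l (hK hl)
      rw [TKUM.ac_id hC (hcy g hg)] at this
      exact congrFun this d
  choose b hb e using h
  refine ⟨fun g d => b d g, BT.sm1_pi hb, fun g hg h hh => funext fun d => ?_⟩
  rw [Cx.d1, TKUM.ac_id hC (hcy g hg)]
  exact e d g hg h hh

end Pool.Agent.P.MP_9c97e9_nt.KT
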