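import Pool.Agent.P.MP_9c97e9_nt.KT.IfF2

/-! Invariant functions with rational expansions. -/

namespace Pool.Agent.P.MP_9c97e9_nt.KT

open MP_8b7eba_nt MP_8b7eba_nt.R2 Filter PowerSeries
open MP_8b7eba_nt.Mod (UH xx yy qq)
open MP_8b7eba_nt.R1 (Zb QE U8 zs y1)

namespace TPOLQ

variable {w : ℕ} {F H : ℂ → ℂ}

/-- functions with rational expansions -/
def RQ (w : ℕ) (F : ℂ → ℂ) : Prop := ∀ᶠ N in atTop, ∃ A, QE w N A F ∧ ∀ σ, map (sZ σ) A = A

theorem RQ.of {N : ℕ} {A : Zb⟦X⟧} (h : QE w N A F) (h' : ∀ σ, map (sZ σ) A = A) : RQ w F := by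
  filter_upwards [eventually_ge_atTop N] with M hM
  obtain ⟨k, rfl⟩ := Nat.exists_eq_add_of_le hM
  exact ⟨_, h.shift k, fun σ => by rw [map_mul, map_pow, map_X, h']⟩

theorem RQ.int (hw : w ≠ 0) {N : ℕ} {A : ℤ⟦X⟧} (h : QE 1 N (zs A) F) : RQ w F :=
  RQ.of (h.expand_one hw) fun σ => by
    ext1 n
    rw [coeff_map, coeff_expand]
    split_ifs <;> simp [zs]

theorem RQ.mul (hw : w ≠ 0) (h : RQ w F) (h' : RQ w H) : RQ w fun z => F z * H z := by
  obtain ⟨_, A, a, a'⟩ := h.exists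
  obtain ⟨_, B, b, b'⟩ := h'.exists
  exact RQ.of (a.mul (Nat.pos_of_ne_zero hw) b) fun σ => by rw [map_mul, a', b']

theorem RQ.pow (hw : w ≠ 0) (h : RQ w F) (k : ℕ) : RQ w fun z => F z ^ k := by
  obtain ⟨_, A, a, a'⟩ := h.exists
  exact RQ.of (a.pow (Nat.pos_of_ne_zero hw) k) fun σ => by rw [map_pow, a']

theorem rq_xx (hw : w ≠ 0) : RQ w xx := R1.exists_xx.elim fun _ h => RQ.int hw h.2

theorem rq_yy (hw : w ≠ 0) : RQ w yy := by
  filter_upwards [rq_xx hw, R1.exists_y1.elim (b := RQ w y1) fun _ h => RQ.int hw h.2] with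
    N ⟨A, a, a'⟩ ⟨B, b, b'⟩
  exact ⟨_, ((b.add b).add a).neg.congr fun z _ => by rw [y1]; ring,
    fun σ => by rw [map_neg, map_add, map_add, a', b']⟩

theorem rat {A : Zb⟦X⟧} (h : ∀ σ, map (sZ σ) A = A) :
    ∃ q : ℕ → ℚ, ∀ n, ((coeff n A : Zb) : ℂ) = q n := by
  refine (Classical.skolem (p := fun n (q : ℚ) => ((coeff n A : Zb) : ℂ) = q)).1 fun n => ?_
  obtain ⟨q, hq⟩ := Fix.rat (x := zo (coeff n A)) fun σ _ => by
    rw [← zo_sZ, ← coeff_map, h]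
  exact ⟨q, by rw [← io_zo, hq, map_ratCast]⟩

theorem key (hLDS : LDS) (hw : w ≠ 0) {I : Type} [Fintype I] {T : I → ℂ → ℂ} {c : I → ℂ}
    (h : RQ w F) (h' : ∀ i, RQ w (T i)) (e : ∀ z : ℂ, 0 < z.im → F z = ∑ i, c i * T i z) :
    ∃ c' : I → ℚ, ∀ z : ℂ, 0 < z.im → F z = ∑ i, c' i * T i z := by
  obtain ⟨N, ⟨A, a, a'⟩, hB⟩ := (h.and (eventually_all.2 h')).exists
  choose B b b' using hB
  obtain ⟨s, hs⟩ := rat a'
  choose t ht using fun i => rat (b' i)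
  have sum : ∀ (d : I → ℂ) (z : ℂ), 0 < z.im → HasSum
      (fun n => (s n - ∑ i, d i * t i n) * qq (z / w) ^ n)
      ((F z - ∑ i, d i * T i z) * qq (z / w) ^ N) := by
    intro d z hz
    have := (a z hz).sub (hasSum_sum (s := Finset.univ) fun i _ => (b i z hz).mul_left (d i))
    simpa only [hs, ht, sub_mul, Finset.sum_mul, mul_assoc] using this
  obtain ⟨c', hc⟩ := hLDS ℚ I (Rat.castHom ℂ) s t c fun n => sub_eq_zero.1
    (R1.QE_unique (Nat.pos_of_ne_zero hw) (c := fun n => s n - ∑ i, c i * t i n) (fun z hz => by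
      simpa only [← e z hz, sub_self, zero_mul] using sum c z hz) n)
  refine ⟨c', fun z hz => ?_⟩
  have := sum (fun i => c' i) z hz
  simp only [hc, Rat.cast_sum, Rat.cast_mul, sub_self, zero_mul] at this
  exact sub_eq_zero.1 ((mul_eq_zero.1 (this.unique hasSum_zero)).resolve_right
    (pow_ne_zero _ (Mod.qq_ne _)))

/-- holomorphic elements of the base field -/
def HK (F : ℂ → ℂ) : Prop := Hol F ∧ mf F ∈ K0

theorem HK.add (a : HK F) (b : HK H) : HK fun z => F z + H z :=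
  ⟨a.1.fun_add b.1, by rw [mf_add a.1 b.1]; exact add_mem a.2 b.2⟩

theorem HK.mul (a : HK F) (b : HK H) : HK fun z => F z * H z :=
  ⟨a.1.fun_mul b.1, by rw [mf_mul a.1 b.1]; exact mul_mem a.2 b.2⟩

theorem HK.pow (a : HK F) (k : ℕ) : HK fun z => F z ^ k :=
  ⟨a.1.fun_pow k, by rw [mf_pow a.1]; exact pow_mem a.2 k⟩

theorem hk_rat (q : ℚ) : HK fun _ => q :=
  ⟨hol_const _, by rw [mf_const, map_ratCast]; exact SubfieldClass.ratCast_mem _ q⟩

theorem hk_xx : HK xx := ⟨hol_xx, xx_mem⟩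

theorem hk_yy : HK yy := ⟨hol_yy, yy_mem⟩

theorem hk_U8 : HK U8 := by
  have h := (((((hk_xx.pow 2).add ((hk_rat 2).mul hk_yy)).add (hk_rat 9)).mul hk_xx).pow 8)
  have e : Set.EqOn U8 _ UH := fun z hz => (U8_eq hz).trans (by
    rw [← Rat.cast_ofNat (n := 2), ← Rat.cast_ofNat (n := 9)])
  exact ⟨h.1.congr e, mf_congr e ▸ h.2⟩

end TPOLQ

open TPOLQ in
theorem t_POLQ (hPOLY : POLY) (hLDS : LDS) : POLQ := by
  intro G w N A hw h1 h2 h3 h4 h5
  obtain ⟨j, a, b, e⟩ := hPOLY G h1 h2 h3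
  obtain ⟨n, ha, hb⟩ : ∃ n, a.natDegree < n ∧ b.natDegree < n :=
    ⟨a.natDegree + b.natDegree + 1, by omega, by omega⟩
  obtain ⟨c, hc⟩ := key hLDS hw (I := Fin n ⊕ Fin n)
    (T := Sum.elim (fun i z => xx z ^ (i : ℕ)) fun i z => xx z ^ (i : ℕ) * yy z)
    (c := Sum.elim (fun i => a.coeff i) fun i => b.coeff i)
    ((RQ.of h4 fun σ => (Cj_iff.1 (h5 σ)).symm).mul hw
      ((R1.exists_U8.elim (b := RQ w U8) fun _ h => RQ.int hw h).pow hw j))
    (by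
      rintro (i | i)
      · exact (rq_xx hw).pow hw i
      · exact ((rq_xx hw).pow hw i).mul hw (rq_yy hw))
    fun z hz => by
      rw [e z hz, Polynomial.eval_eq_sum_range' ha, Polynomial.eval_eq_sum_range' hb,
        Finset.sum_range, Finset.sum_range, Finset.sum_mul]
      simp [mul_assoc]
  have hT : ∀ i : Fin n ⊕ Fin n, HK fun z => c i *
      Sum.elim (fun (i : Fin n) z => xx z ^ (i : ℕ))
        (fun (i : Fin n) z => xx z ^ (i : ℕ) * yy z) i z := by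
    rintro (i | i)
    · exact (hk_rat _).mul (hk_xx.pow i)
    · exact (hk_rat _).mul ((hk_xx.pow i).mul hk_yy)
  have m := mf_congr (fun z hz => hc z hz)
  rw [mf_mul h1 (hk_U8.pow j).1, mf_sum _ fun i _ => (hT i).1] at m
  have n0 : mf (fun z => U8 z ^ j) ≠ 0 := fun h =>
    pow_ne_zero j (R1.U8_ne (z := Complex.I) (by simp)) ((mf_eq_zero (hk_U8.pow j).1).1 h _ (by simp))
  rw [eq_div_of_mul_eq n0 m]
  exact div_mem (sum_mem fun i _ => (hT i).2) (hk_U8.pow j).2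

end Pool.Agent.P.MP_9c97e9_nt.KT
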