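import Pool.Agent.P.MP_9c97e9_nt.KT.SelJ

/-! Comparison of the ordinary and of the strict Selmer group. -/

namespace Pool.Agent.P.MP_9c97e9_nt.KT

open scoped NNReal Matrix
open MP_8b7eba_nt.R2
open Filter Topology Polynomial Module

namespace TSBJ

variable {A : Type} [NormedCommRing A] [NormedAlgebra ℚ_[2] A] [IsUltrametricDist A]
  [FiniteDimensional ℚ_[2] A] {ψ : ℤ_[2] → A}

/-- normalised local cocycles -/
def Hp (D : Dat) (h : IsPsi ψ) (i : Fin 2) : Submodule ℚ_[2] (GS → A) where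
  carrier := {x | PZ (fun _ => w2.D) (D.th ψ i) x ∧ x (cs D.f2) = 0 ∧
    ∀ g, g ∉ S1 w2.D → x g = 0}
  add_mem' := fun hx hy => ⟨hx.1.add (D.rep_th h i) hy.1, by simp [hx.2.1, hy.2.1],
    fun g hg => by simp [hx.2.2 g hg, hy.2.2 g hg]⟩
  zero_mem' := ⟨pz_zero, rfl, fun _ _ => rfl⟩
  smul_mem' := fun a _ hx => ⟨hx.1.smul (D.rep_th h i) a, by simp [hx.2.1],
    fun g hg => by simp [hx.2.2 g hg]⟩

open Classical in
/-- localisation -/
noncomputable def lp (D : Dat) (h : IsPsi ψ) (i : Fin 2) : (GS → Fin 2 → A) →ₗ[A] GS → A where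
  toFun y g := if g ∈ S1 w2.D then D.ln ψ y g i else 0
  map_add' x y := funext fun g => by
    by_cases hg : g ∈ S1 w2.D <;> simp [hg, Dat.ln_add h]
  map_smul' a x := funext fun g => by
    by_cases hg : g ∈ S1 w2.D <;> simp [hg, Dat.ln_smul h]

theorem lp_in (D : Dat) (h : IsPsi ψ) (i : Fin 2) (y : GS → Fin 2 → A) {g : GS}
    (hg : g ∈ S1 w2.D) : lp D h i y g = D.ln ψ y g i := if_pos hg

theorem lp_mem (D : Dat) (h : IsPsi ψ) (i : Fin 2) {y : GS → Fin 2 → A}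
    (hy : PZ (fun _ => w2.D) (D.th ψ i) fun g => D.ln ψ y g i) : lp D h i y ∈ Hp D h i :=
  ⟨hy.congr fun _ hg => lp_in D h i y hg, by rw [lp_in D h i y D.f2_mem, Dat.ln_f2 h]; rfl,
    fun _ hg => if_neg hg⟩

end TSBJ

open TSBJ in
theorem t_SBJ (hD : DUALJ) : SBJ := by
  intro D A _ _ _ _ ψ π j e b R κ h hC hb hκ hS hB M hM hMs
  obtain ⟨t, ht⟩ := hC.exists_form
  obtain ⟨S, hSel⟩ := D.exists_str h
  set β := (LinearMap.mul ℚ_[2] A).compr₂ t with hβ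
  have hβa : ∀ x y, β x y = t (x * y) := fun _ _ => rfl
  have eq1 : ∀ g ∈ w2.D, ∀ x y, β (D.th (bar ψ) 1 g x) (D.th ψ 0 g y) = cq g * β x y :=
    fun g hg x y => by rw [hβa, hβa, D.th_equiv h hg, map_smul, smul_eq_mul]
  have K1 := (a_KLD A A β (D.th (bar ψ) 1) (D.th ψ 0) w2 D.f2 _ _ rfl (D.rep_th h.bar 1)
    (D.rep_th h 0) ht (fun y hy => ht y fun x => by rw [mul_comm]; exact hy x) eq1 D.fr.1
    (D.th_f2 h.bar 1) (D.th_f2 h 0) (D.f2_ne 1) (D.f2_ne 0)).1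
  have K2 := (a_KLD A A β (D.th ψ 0) (D.th (bar ψ) 1) w2 D.f2 _ _ rfl (D.rep_th h 0)
    (D.rep_th h.bar 1) ht (fun y hy => ht y fun x => by rw [mul_comm]; exact hy x)
    (fun g hg x y => by rw [hβa, hβa, mul_comm, mul_comm x]; exact eq1 g hg y x) D.fr.1
    (D.th_f2 h 0) (D.th_f2 h.bar 1) (D.f2_ne 0) (D.f2_ne 1)).2
  have hfin : FiniteDimensional ℚ_[2] (Hp D h 0) :=
    TSB.fin_of_bdd _ _ fun N hN hf => K2 N hf fun x hx => hN hx
  have hHp : finrank ℚ_[2] (Hp D h 0) ≤ e * j := hC.finrank ▸ K2 _ hfin fun x hx => hx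
  have hP := a_PIX (fun _ => w2) (fun _ => w2.D) fun _ => ⟨⊤, isOpen_univ, by simp⟩
  have hcup : ∀ {x y : GS → A}, PZ (fun _ => w2.D) (D.th (bar ψ) 1) x →
      PZ (fun _ => w2.D) (D.th ψ 0) y → PZ2 (fun _ => w2.D) (cupS β (D.th ψ 0) x y) :=
    fun hx hy => pz2_cup (D.rep_th h.bar 1) (D.rep_th h 0) (fun _ => le_rfl) eq1 hx hy
  let L : Hp D h.bar 1 →ₗ[ℚ_[2]] Dual ℚ_[2] (Hp D h 0) := LinearMap.mk₂ ℚ_[2]
    (fun x y => PI (fun _ => w2) (fun _ => w2.D) (cupS β (D.th ψ 0) x.1 y.1))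
    (fun x x' y => by
      rw [← (hP _ (hcup x.2.1 y.2.1)).2.2.2.1 _ (hcup x'.2.1 y.2.1)]
      refine congrArg _ (funext fun g => funext fun g' => ?_)
      simp [cupS])
    (fun c x y => by
      rw [smul_eq_mul, ← (hP _ (hcup x.2.1 y.2.1)).2.2.2.2.1]
      refine congrArg _ (funext fun g => funext fun g' => ?_)
      simp [cupS])
    (fun x y y' => by
      rw [← (hP _ (hcup x.2.1 y.2.1)).2.2.2.1 _ (hcup x.2.1 y'.2.1)]
      refine congrArg _ (funext fun g => funext fun g' => ?_)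
      simp [cupS, (D.rep_th h 0).rS_add])
    (fun c x y => by
      rw [smul_eq_mul, ← (hP _ (hcup x.2.1 y.2.1)).2.2.2.2.1]
      refine congrArg _ (funext fun g => funext fun g' => ?_)
      simp [cupS, (D.rep_th h 0).rS_smul])
  have c1 : ∀ x, L x = 0 → x = 0 := fun x hx => by
    classical
    have h1 := K1 x.1 x.2.1 x.2.2.1 fun y hy h0 => by
      have hy' : PZ (fun _ => w2.D) (D.th ψ 0) fun g => if g ∈ S1 w2.D then y g else 0 :=
        hy.congr fun g hg => if_pos hg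
      have e0 := LinearMap.congr_fun hx ⟨_, hy', by simp [h0], fun g hg => if_neg hg⟩
      refine ((hP _ (hcup x.2.1 hy')).2.2.1 _ fun g _ g' hg' => ?_).trans e0
      simp only [cupS, if_pos hg']
    exact Subtype.ext (funext fun g => (em (g ∈ S1 w2.D)).elim (h1 g) (x.2.2.2 g))
  obtain ⟨hV, i, -, hi, -, hVd⟩ := hC.finrank_span (lp D h.bar 1 κ)
  have hVm : ∀ v ∈ Submodule.span A {lp D h.bar 1 κ}, ∃ a : A, lp D h.bar 1 (a • κ) = v :=
    fun v hv => by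
      obtain ⟨a, rfl⟩ := Submodule.mem_span_singleton.1 hv
      exact ⟨a, map_smul _ _ _⟩
  have hij : j - b ≤ i := by
    by_contra hlt
    refine hS fun g hg => ?_
    have e0 : lp D h.bar 1 (π ^ (j - b - 1) • κ) = 0 := by
      obtain ⟨c, hc⟩ : ∃ c, j - b - 1 = c + i := ⟨j - b - 1 - i, by omega⟩
      rw [map_smul, hc, pow_add, mul_smul, hi, smul_zero]
    exact (lp_in D h.bar 1 _ hg).symm.trans (congrFun e0 g)
  have m1 : ∀ a : A, lp D h.bar 1 (a • κ) ∈ Hp D h.bar 1 := fun a => lp_mem D h.bar 1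
    (Dat.pz_snd h.bar (Dat.pz_ln h.bar ((hκ.smul h.bar a).pz.mono fun _ => le_top)))
  have m0 : ∀ x : M, lp D h 0 x.1 ∈ Hp D h 0 := fun x => lp_mem D h 0
    (Dat.pz_fst h (Dat.pz_ln h ((hMs _ x.2).pz.mono fun _ => le_top)) (hMs _ x.2).ord)
  have c2 : ∀ v ∈ Submodule.span A {lp D h.bar 1 κ}, v ∈ Hp D h.bar 1 := fun v hv => by
    obtain ⟨a, ha⟩ := hVm v hv
    exact ha ▸ m1 a
  let f : M →ₗ[ℚ_[2]] Hp D h 0 :=
    (((lp D h 0).domRestrict M).restrictScalars ℚ_[2]).codRestrict (Hp D h 0) m0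
  have d1 := LinearMap.finrank_range_add_finrank_ker f
  have d2 := TSB.dim2 (V := LinearMap.range f) (L ∘ₗ ((Submodule.span A {lp D h.bar 1 κ}).subtype.restrictScalars
    ℚ_[2]).codRestrict (Hp D h.bar 1) fun v => c2 v.1 v.2) (0 : PUnit →ₗ[ℚ_[2]] _)
    (fun v hv => ⟨0, Subtype.ext (congrArg (fun x : Hp D h.bar 1 => x.1) (c1 _ hv)).symm⟩)
    (LinearMap.range f).subtype (LinearMap.range f).injective_subtype (by
      rintro ⟨v, hv⟩ ⟨_, x, rfl⟩
      obtain ⟨a, rfl⟩ := hVm v hv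
      refine Eq.trans ?_ ((hD D A ψ h).2 x.1 _ (hMs _ x.2) (hκ.smul h.bar a) t)
      refine ((hP _ (hcup (m1 a).1 (m0 x).1)).2.2.1 _ fun g hg g' hg' => ?_).symm
      simp only [cupS, lp_in D h 0 _ hg', lp_in D h.bar 1 _ hg]
      rfl)
  have f0 : FiniteDimensional ℚ_[2] ↥(M ⊓ S) :=
    Module.Finite.of_injective ((Submodule.inclusion (inf_le_left : M ⊓ S ≤ M)).restrictScalars ℚ_[2])
      (Submodule.inclusion_injective inf_le_left)
  have d3 := hB _ f0 fun x hx => ⟨hMs x hx.1, (hSel x).1 hx.2⟩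
  have d4 : finrank ℚ_[2] (LinearMap.ker f) ≤ finrank ℚ_[2] ↥(M ⊓ S) :=
    (Submodule.finrank_mono (t := LinearMap.range
      ((Submodule.inclusion (inf_le_left : M ⊓ S ≤ M)).restrictScalars ℚ_[2])) fun x hx =>
        ⟨⟨x.1, x.2, (hSel _).2 fun g hg => funext (Fin.forall_fin_two.2
          ⟨(lp_in D h 0 _ hg).symm.trans (congrFun (congrArg Subtype.val hx) g),
            (hMs _ x.2).ord g hg⟩)⟩, rfl⟩).trans (LinearMap.finrank_range_le _)
  have d5 : e * j ≤ e * i + e * b := by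
    rw [← mul_add]; exact Nat.mul_le_mul_left _ (by omega)
  rw [hVd, finrank_zero_of_subsingleton (M := PUnit)] at d2
  omega

end Pool.Agent.P.MP_9c97e9_nt.KT
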