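import Pool.Agent.P.MP_9c97e9_nt.KT.IfE
import Pool.Agent.P.MP_8b7eba_nt.R2.TCUP

/-! Proof of SYB. -/

namespace Pool.Agent.P.MP_9c97e9_nt.KT

open scoped NNReal
open MP_8b7eba_nt.R2 Polynomial

namespace TSYB

theorem carry {m : ℕ} (hm : m ≠ 0) (x y z : ZMod m) :
    TCUP.d y z + TCUP.d x (y + z) = TCUP.d (x + y) z + TCUP.d x y := by
  refine mul_left_cancel₀ (Int.natCast_ne_zero.2 hm) ?_
  rw [mul_add, mul_add, TCUP.mul_d hm, TCUP.mul_d hm, TCUP.mul_d hm, TCUP.mul_d hm, add_assoc x]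
  ring

theorem proj (hORBS : ORBS) (hCORP : CORP) (hSYA : SYA) (hRVX : RVX) {H : Subgroup GQ} {k : ℕ}
    (hH : LH H k) (J : Type) [Fintype J] (a : GQ → J → J) (S : J → Subgroup GQ) (R : Finset J)
    (u : Om) (v : J → Om) (hA : Act H a S) (hR : Reps H a R) (hu : Fix H u) (u0 : u ≠ 0)
    (hv : Eqi H a v) (v0 : ∀ j, v j ≠ 0) :
    sy H k u (∏ j, v j) = ∏ r ∈ R, sy (S r) k u (v r) := by
  obtain ⟨hS, -, -⟩ := hORBS H hH.1 J a S hA
  have hχ := (hSYA H k hH u hu u0).1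
  have key := hCORP H hH.1 J a S (fun j => cup (km k u) (v j)) R hA hR
    (fun j g _ h _ => by rw [TCUP.cup_eq]; exact zpow_ne_zero _ (v0 j))
    (fun j => hχ.1.fst.comp₂ hχ.1.snd fun x y => if 2 ^ k ≤ x.val + y.val then v j else 1)
    (fun j g hg h hh l hl => by
      have e : g (v (a g⁻¹ j)) = v j := by
        rw [← hv g hg, ← hA.mul g hg _ (H.inv_mem hg), mul_inv_cancel, hA.one]
      simp only [TCUP.cup_eq]
      rw [map_zpow₀, e, ← zpow_add₀ (v0 j), ← zpow_add₀ (v0 j), hχ.2 g hg h hh, hχ.2 h hh l hl,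
        carry (by positivity)])
    fun r _ => ((hSYA (S r) k ((hRVX H k hH).2.1 _ (hS r).1 (hS r).2) u (hu.mono (hS r).2)
      u0).2.2 (v r) (fun g hg => by
        obtain ⟨h1, h2⟩ := (hA.st r g).1 hg
        rw [← hv g h1, h2]) (v0 r)).1.2
  have e : (fun g h => ∏ j, cup (km k u) (v j) g h) = cup (km k u) (∏ j, v j) := by
    funext g h
    unfold cup
    split_ifs <;> simp
  rw [e] at key
  exact key.2.2

theorem prod_roots {N : ℕ} (hN : 0 < N) {x : Om} (x0 : x ≠ 0) :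
    ∏ y ∈ nthRootsFinset N x, (1 - y) = 1 - x := by
  classical
  have h1 : (X ^ N - C x : Om[X]).Monic := monic_X_pow_sub_C x hN.ne'
  have h2 : (X ^ N - C x : Om[X]).roots.Nodup :=
    nodup_roots (separable_X_pow_sub_C x (Nat.cast_ne_zero.2 hN.ne') x0)
  have h3 := (IsAlgClosed.splits (X ^ N - C x : Om[X])).eval_eq_prod_roots_of_monic h1 1
  rw [nthRootsFinset_def, nthRoots, Finset.prod_eq_multiset_prod, Multiset.toFinset_val,
    Multiset.dedup_eq_self.2 h2, ← h3]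
  simp

theorem stein (hORBS : ORBS) (hCORP : CORP) (hSYA : SYA) (hRVX : RVX) {H : Subgroup GQ} {k : ℕ}
    (hH : LH H k) {x : Om} (hx : Fix H x) (x0 : x ≠ 0) (x1 : x ≠ 1) : sy H k x (1 - x) = 1 := by
  classical
  have hN : 0 < 2 ^ k := by positivity
  have mem : ∀ y : nthRootsFinset (2 ^ k) x, (y : Om) ^ 2 ^ k = x := fun y =>
    (mem_nthRootsFinset hN x).1 y.2
  let a : GQ → nthRootsFinset (2 ^ k) x → nthRootsFinset (2 ^ k) x := fun g y =>
    if h : g ∈ H then ⟨g y, (mem_nthRootsFinset hN x).2 (by rw [← map_pow, mem, hx g h])⟩ else y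
  have ha : ∀ g ∈ H, ∀ y, (a g y : Om) = g y := fun g hg y => by simp only [a, dif_pos hg]
  let S : nthRootsFinset (2 ^ k) x → Subgroup GQ := fun y => H ⊓ MulAction.stabilizer GQ (y : Om)
  have hA : Act H a S := by
    refine ⟨fun y => Subtype.ext (ha 1 H.one_mem y), fun g hg h hh y => Subtype.ext ?_,
      Sm.pi fun y => ?_, fun y g => and_congr_right fun hg => ?_⟩
    · rw [ha _ (H.mul_mem hg hh), ha g hg, ha h hh, AlgEquiv.mul_apply]
    · obtain ⟨N, h1, h2⟩ := sm_apply (H := H) (y : Om)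
      exact ⟨N, h1, fun g hg n hn m => Subtype.ext (by
        rw [ha _ (H.mul_mem hg hn), ha g hg]
        exact h2 g hg n hn m)⟩
    · rw [Subtype.ext_iff, ha g hg]
      exact Iff.rfl
  obtain ⟨hS, ⟨R, hR⟩, -⟩ := hORBS H hH.1 _ a S hA
  have v0 : ∀ y : nthRootsFinset (2 ^ k) x, 1 - (y : Om) ≠ 0 := fun y e => x1 (by
    rw [← mem y, ← sub_eq_zero.1 e, one_pow])
  have key := proj hORBS hCORP hSYA hRVX hH _ a S R x (fun y => 1 - y) hA hR hx x0
    (fun g hg y => by simp only [ha g hg, map_sub, map_one]) v0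
  rw [Finset.prod_coe_sort _ fun y => 1 - y, prod_roots hN x0] at key
  rw [key]
  refine Finset.prod_eq_one fun r _ => ?_
  have hr : Fix (S r) r := fun g hg => hg.2
  exact (((hSYA (S r) k ((hRVX H k hH).2.1 _ (hS r).1 (hS r).2) _ (fix_one.sub hr) (v0 r)).2.2 x
    (hx.mono (hS r).2) x0).2.2.2.2.2.2.2 ⟨r, hr, mem r⟩).2

end TSYB

theorem t_SYB (hORBS : ORBS) (hCORP : CORP) (hSYA : SYA) (hPOW : POW) (hRVX : RVX) : SYB := by
  intro H k hH
  refine ⟨TSYB.proj hORBS hCORP hSYA hRVX hH, fun x hx x0 => ?_⟩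
  have hs := (hSYA H k hH x hx x0).2.2
  have m1 : (-1 : Om) ≠ 0 := neg_ne_zero.2 one_ne_zero
  have h2 : sy H k x (-x) = 1 := by
    by_cases x1 : x = 1
    · subst x1
      exact (((hSYA H k hH _ fix_one.neg m1).2.2 1 fix_one one_ne_zero).2.2.2.2.2.2.2
        ⟨1, fix_one, one_pow _⟩).2
    have y1 : x⁻¹ ≠ 1 := fun e => x1 (inv_eq_one.1 e)
    have a0 : 1 - x ≠ 0 := sub_ne_zero.2 (Ne.symm x1)
    have b0 : 1 - x⁻¹ ≠ 0 := sub_ne_zero.2 (Ne.symm y1)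
    have fb : Fix H (1 - x⁻¹) := fix_one.sub hx.inv
    have e : -x = (1 - x) * (1 - x⁻¹) ^ (-1 : ℤ) := by
      rw [zpow_neg_one, eq_mul_inv_iff_mul_eq₀ b0, mul_sub, neg_mul, neg_mul, mul_inv_cancel₀ x0]
      ring
    have h3 := (((hSYA H k hH _ fb b0).2.2 x hx x0).2.2.2.2.2.2.1 (-1)).2
    rw [zpow_neg_one x, TSYB.stein hORBS hCORP hSYA hRVX hH hx.inv (inv_ne_zero x0) y1] at h3
    rw [e, ((hs _ (fix_one.sub hx) a0).2.2.2.2.2.1 _ (fb.zpow _) (zpow_ne_zero _ b0)).1,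
      TSYB.stein hORBS hCORP hSYA hRVX hH hx x0 x1, ((hs _ fb b0).2.2.2.2.2.2.1 (-1)).1, ← h3,
      one_mul]
  refine ⟨TSYB.stein hORBS hCORP hSYA hRVX hH hx x0, h2, fun h => ?_⟩
  have h3 := ((hs _ hx.neg (neg_ne_zero.2 x0)).2.2.2.2.2.1 _ fix_one.neg m1).1
  rw [h2, ((hs _ fix_one.neg m1).2.2.2.2.2.2.2 ((hPOW H k hH.1.le).2.2 h.2)).1] at h3
  simpa using h3

end Pool.Agent.P.MP_9c97e9_nt.KT
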