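import Pool.Agent.P.MP_9c97e9_nt.KT.IfP

/-! Proof of TAIL. -/

namespace Pool.Agent.P.MP_9c97e9_nt.KT

open scoped NNReal
open MP_8b7eba_nt.R2
open MP_8b7eba_nt.Mod (an)
open Polynomial Finset Filter Topology

namespace TTAIL

variable {r : ℝ} {q q' : ℂ_[2]}

lemma n_inv (hBAS : BAS) (m : ℕ) : ‖(m : ℂ_[2])‖⁻¹ ≤ m := by
  rw [← map_natCast i2, ← hBAS.2.2.1]
  suffices (w2.v m)⁻¹ ≤ m by exact_mod_cast this
  rcases eq_or_ne m 0 with rfl | hm
  · simp
  obtain ⟨a, b, hb, rfl⟩ := Nat.exists_eq_two_pow_mul_odd hm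
  have h1 : w2.v (b : ℤ) = 1 := Pl.v_int_eq_one.2 fun h =>
    (Nat.not_even_iff_odd.2 hb) (even_iff_two_dvd.2 (Int.natCast_dvd_natCast.1 h))
  rw [Int.cast_natCast] at h1
  have h2 : (1 : ℝ≥0) ≤ b := by exact_mod_cast hb.pos
  push_cast
  rw [map_mul, map_pow, h1, Pl.v_two' rfl, mul_one, inv_pow, inv_inv]
  exact le_mul_of_one_le_right zero_le h2

lemma cf (hBAS : BAS) (m : ℕ) : ‖(an m : ℂ_[2]) / m‖ ≤ m := by
  rw [norm_div, div_eq_mul_inv]
  exact (mul_le_of_le_one_left (by positivity)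
    (IsUltrametricDist.norm_intCast_le_one _ _)).trans (n_inv hBAS m)

lemma tm (hBAS : BAS) (hq : ‖q‖ ≤ r) (m : ℕ) : ‖(an m : ℂ_[2]) / m * q ^ m‖ ≤ m * r ^ m := by
  rw [norm_mul, norm_pow]
  gcongr
  exact cf hBAS m

lemma sm (h0 : 0 < r) (h1 : r < 1) : Summable fun m : ℕ => (m : ℝ) * r ^ m := by
  simpa using summable_pow_mul_geometric_of_norm_lt_one 1 (r := r)
    (by rwa [Real.norm_eq_abs, abs_of_pos h0])

lemma pw (h0 : 0 < r) (hq : ‖q‖ ≤ r) (hq' : ‖q'‖ ≤ r) (m : ℕ) :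
    ‖q ^ m - q' ^ m‖ * r ≤ r ^ m * ‖q - q'‖ := by
  induction m with
  | zero => simp
  | succ m ih =>
    rw [show q ^ (m + 1) - q' ^ (m + 1) = q * (q ^ m - q' ^ m) + q' ^ m * (q - q') by ring,
      pow_succ, mul_right_comm]
    refine mul_le_mul_of_nonneg_right
      ((IsUltrametricDist.norm_add_le_max _ _).trans (max_le ?_ ?_)) h0.le
    · rw [norm_mul, mul_comm]
      exact (mul_le_mul_of_nonneg_left hq (norm_nonneg _)).trans ih
    · rw [norm_mul, norm_pow]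
      gcongr

end TTAIL

open TTAIL in
theorem t_TAIL (hBAS : BAS) : TAIL := by
  intro r h0 h1
  have hs := sm h0 h1
  have hq : ∀ q : ℂ_[2], ‖q‖ ≤ r → Summable fun m : ℕ => (an m : ℂ_[2]) / m * q ^ m :=
    fun q hq => hs.of_norm_bounded (tm hBAS hq)
  have hS : 0 ≤ ∑' m : ℕ, (m : ℝ) * r ^ m := tsum_nonneg fun m => by positivity
  refine ⟨⟨(∑' m : ℕ, (m : ℝ) * r ^ m) / r + 1, by positivity, fun q q' h h' => ?_⟩,
    fun ε hε => ?_⟩
  · rw [lamf, lamf, ← (hq q h).tsum_sub (hq q' h')]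
    refine (tsum_of_norm_bounded ((hs.hasSum.div_const r).mul_right ‖q - q'‖) fun m => ?_).trans
      (by gcongr; linarith)
    rw [← mul_sub, norm_mul, div_mul_eq_mul_div, le_div_iff₀ h0, mul_assoc, mul_assoc]
    exact mul_le_mul (cf hBAS m) (pw h0 h h' m) (by positivity) (by positivity)
  · obtain ⟨T₀, hT⟩ := eventually_atTop.1
      (((tendsto_sum_nat_add fun m : ℕ => (m : ℝ) * r ^ m).eventually (ge_mem_nhds hε)).and
        ((tendsto_self_mul_const_pow_of_lt_one h0.le h1).eventually (ge_mem_nhds hε)))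
    refine ⟨T₀ + 1, fun T hT' x hx => ⟨?_, fun F hF hP => ?_⟩⟩
    · have e : i2 ((lT T).eval x) = ∑ m ∈ range T, (an m : ℂ_[2]) / m * i2 x ^ m := by
        simp [lT, eval_finsetSum]
      rw [e, lamf, ← (hq _ hx).sum_add_tsum_nat_add T, add_sub_cancel_left]
      exact (tsum_of_norm_bounded ((summable_nat_add_iff T).2 hs).hasSum
        fun m => tm hBAS hx (m + T)).trans (hT T (by omega)).1
    · rw [eval_eq_sum_range, map_sum]
      refine IsUltrametricDist.norm_sum_le_of_forall_le_of_nonneg hε.le fun m _ => ?_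
      rcases lt_or_ge m T with hm | hm
      · rw [X_pow_dvd_iff.1 hF m hm, zero_mul, map_zero, norm_zero]
        exact hε.le
      obtain ⟨j, rfl⟩ : ∃ j, m = j + 1 := ⟨m - 1, by omega⟩
      have h2 : ‖i2 ((derivative F).coeff j)‖ ≤ 1 := by
        rw [← hBAS.2.2.1]
        exact_mod_cast hP j
      rw [coeff_derivative, map_mul, ← Nat.cast_add_one, map_natCast, norm_mul] at h2
      have h3 : 0 < ‖((j + 1 : ℕ) : ℂ_[2])‖ := norm_pos_iff.2 (Nat.cast_ne_zero.2 j.succ_ne_zero)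
      refine le_trans ?_ (hT (j + 1) (by omega)).2
      rw [map_mul, map_pow, norm_mul, norm_pow]
      gcongr
      exact ((le_mul_inv_iff₀ h3).2 h2).trans (by rw [one_mul]; exact n_inv hBAS _)

end Pool.Agent.P.MP_9c97e9_nt.KT
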