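import Pool.Agent.P.MP_9c97e9_nt.KT.IfE
import Pool.Agent.P.MP_9c97e9_nt.KT.TBAS

/-! The decomposition field inside the 2-adic numbers, and the trace. -/

namespace Pool.Agent.P.MP_9c97e9_nt.KT

open scoped NNReal
open MP_8b7eba_nt.R2
open Filter Topology

namespace TTQX

variable {x y : Om} {H : Subgroup GQ}

theorem nv (x : Om) : (w2.v x : ℝ) = ‖i2 x‖ := t_BAS.2.2.1 x

theorem appr (hx : Fix w2.D x) (h : w2.v x ≤ 1) (n : ℕ) : ∃ m : ℕ, w2.v (x - m) ≤ (2 ^ n)⁻¹ :=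
  (a_RES _ _ w2.loc_D).2.2.2.2.2 x hx h n

theorem ex1 (hx : Fix w2.D x) (h : w2.v x ≤ 1) : i2 x ∈ Set.range (algebraMap ℚ_[2] ℂ_[2]) := by
  rw [← (algebraMap_isometry ℚ_[2] ℂ_[2]).isClosedEmbedding.isClosed_range.closure_eq,
    Metric.mem_closure_range_iff]
  intro ε hε
  obtain ⟨n, hn⟩ := exists_pow_lt_of_lt_one hε (two_inv_lt_one (α := ℝ))
  obtain ⟨m, hm⟩ := appr hx h n
  refine ⟨m, ?_⟩
  rw [dist_eq_norm, map_natCast, ← map_natCast i2, ← map_sub, ← nv]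
  exact lt_of_le_of_lt (by rw [inv_pow]; exact_mod_cast hm) hn

theorem q2_eq (hx : Fix w2.D x) : algebraMap ℚ_[2] ℂ_[2] (q2 x) = i2 x := by
  refine Classical.epsilon_spec (p := fun a => algebraMap ℚ_[2] ℂ_[2] a = i2 x) ?_
  obtain ⟨k, hk⟩ := pow_unbounded_of_one_lt ‖i2 x‖ (one_lt_two (α := ℝ))
  have h2 : ‖i2 2‖ = 2⁻¹ := by
    rw [map_ofNat, ← map_ofNat (algebraMap ℚ_[2] ℂ_[2]) 2, norm_algebraMap', Csum.norm_two]
  obtain ⟨a, ha⟩ := ex1 (((fix_ofNat 2).pow k).mul hx) (by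
    rw [← NNReal.coe_le_coe, nv, map_mul, norm_mul, map_pow, norm_pow, h2, inv_pow]
    exact (inv_mul_le_one₀ (by positivity)).2 hk.le)
  refine ⟨a / 2 ^ k, ?_⟩
  rw [map_div₀, ha, map_mul, map_pow, map_pow, map_ofNat, map_ofNat,
    mul_div_cancel_left₀ _ (pow_ne_zero _ two_ne_zero)]

theorem inj {a b : ℚ_[2]} (h : algebraMap ℚ_[2] ℂ_[2] a = algebraMap ℚ_[2] ℂ_[2] b) : a = b :=
  (algebraMap ℚ_[2] ℂ_[2]).injective h

theorem q2_norm (hx : Fix w2.D x) : ‖q2 x‖ = w2.v x := by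
  rw [nv, ← q2_eq hx, norm_algebraMap']

theorem q2_add (hx : Fix w2.D x) (hy : Fix w2.D y) : q2 (x + y) = q2 x + q2 y :=
  inj (by rw [map_add, q2_eq hx, q2_eq hy, q2_eq (hx.add hy), map_add])

theorem q2_sub (hx : Fix w2.D x) (hy : Fix w2.D y) : q2 (x - y) = q2 x - q2 y :=
  inj (by rw [map_sub, q2_eq hx, q2_eq hy, q2_eq (hx.sub hy), map_sub])

theorem q2_mul (hx : Fix w2.D x) (hy : Fix w2.D y) : q2 (x * y) = q2 x * q2 y :=
  inj (by rw [map_mul, q2_eq hx, q2_eq hy, q2_eq (hx.mul hy), map_mul])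

theorem q2_rat (r : ℚ) : q2 r = r := inj (by rw [q2_eq (fix_rat r), map_ratCast, map_ratCast])

theorem q2_nat (r : ℕ) : q2 r = r := by simpa using q2_rat r

theorem q2_art (hx : Fix w2.D x) (h : w2.v x = 1) :
    ((art w2 x : ℤ_[2]) : ℚ_[2]) * q2 x = 1 := by
  refine sub_eq_zero.1 (norm_le_zero_iff.1 (le_of_forall_pos_le_add fun ε hε => ?_))
  obtain ⟨n, hn⟩ := exists_pow_lt_of_lt_one hε (two_inv_lt_one (α := ℝ))
  obtain ⟨m, hm⟩ := appr hx h.le (n + 1)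
  have h0 : ((2 : ℝ) ^ (n + 1))⁻¹ ≤ 2⁻¹ ^ n ∧ ((2 : ℝ) ^ (n + 1))⁻¹ < 1 :=
    ⟨by rw [inv_pow]; gcongr <;> norm_num, inv_lt_one_of_one_lt₀ (one_lt_pow₀ one_lt_two (by simp))⟩
  have h1 : ‖q2 x - m‖ ≤ (2 ^ (n + 1))⁻¹ := by
    rw [← q2_nat, ← q2_sub hx (fix_nat m), q2_norm (hx.sub (fix_nat m))]
    exact_mod_cast hm
  have h2 : ‖(m : ℚ_[2])‖ = 1 := by
    have h3 : ‖q2 x‖ = 1 := by rw [q2_norm hx, h, NNReal.coe_one]
    rw [← h3, eq_comm]
    exact Padic.norm_eq_of_norm_sub_lt_left (h3 ▸ h1.trans_lt h0.2)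
  obtain ⟨c, hc⟩ := ((a_ART.1 w2).two rfl).2 x hx m (n + 1) (by
    exact_mod_cast Nat.coprime_two_left.1 (Padic.norm_natCast_eq_one_iff.1 h2))
    (by exact_mod_cast hm) n.succ_pos
  have h4 : ((art w2 x : ℤ_[2]) : ℚ_[2]) * q2 x - 1 =
      ((art w2 x : ℤ_[2]) : ℚ_[2]) * (q2 x - m) + 2 ^ (n + 1) * (c : ℚ_[2]) := by
    have := congrArg (fun z : ℤ_[2] => (z : ℚ_[2])) hc
    push_cast at this
    rw [show ((2 : ℤ_[2]) : ℚ_[2]) = 2 from rfl] at this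
    linear_combination this
  rw [h4, zero_add]
  refine (Csum.add_le ?_ ?_).trans (h0.1.trans hn.le)
  · rw [norm_mul]
    exact (mul_le_of_le_one_left (norm_nonneg _) (PadicInt.norm_le_one _)).trans h1
  · rw [norm_mul, norm_pow, Csum.norm_two, inv_pow]
    exact mul_le_of_le_one_right (by positivity) (PadicInt.norm_le_one c)

theorem ri {G : Subgroup GQ} (hx : Fix H x) : RI G H fun g => g x := fun s _ g _ hg =>
  congrArg s (hx g hg)

theorem fix_csum (h : w2.Loc H) (hx : Fix H x) : Fix w2.D (csum w2.D H fun g => g x) :=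
  fun g hg => (map_csum (h.relIndex_ne le_rfl) (g : Om →+ Om) _).trans (csum_left (ri hx) hg)

theorem csum_mul (h : w2.Loc H) {r : Om} (hr : Fix w2.D r) (x : Om) :
    (csum w2.D H fun g => g (r * x)) = r * csum w2.D H fun g => g x :=
  (csum_congr fun g hg => by rw [map_mul, hr g hg]; rfl).trans
    (map_csum (h.relIndex_ne le_rfl) (AddMonoidHom.mulLeft r) _).symm

end TTQX

open TTQX in
theorem t_TQX : TQX := by
  refine ⟨fun x hx => ⟨q2_eq hx, q2_norm hx⟩, fun x y hx hy => ⟨q2_add hx hy, q2_mul hx hy⟩, q2_rat,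
    fun x => q2_art, fun H h => ?_⟩
  have h0 := h.relIndex_ne le_rfl
  have hm : ∀ x, Fix H x → ∀ r, Fix w2.D r → trq H (r * x) = q2 r * trq H x := fun x hx r hr => by
    rw [trq, csum_mul h hr, q2_mul hr (fix_csum h hx), trq]
  have hz : q2 0 = 0 := by simpa using q2_nat 0
  refine ⟨by simpa only [hz, zero_mul] using hm 0 fix_zero 0 fix_zero,
    fun x hx => ⟨?_, q2_eq (fix_csum h hx), fun y hy => ⟨?_, ?_⟩, hm x hx,
      fun r => by rw [hm x hx r (fix_rat r), q2_rat], fun H' h' hle => ?_⟩⟩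
  · rw [trq, q2_norm (fix_csum h hx), NNReal.coe_le_coe]
    exact csum_mem (w2.v.leAddSubgroup (w2.v x)) fun g hg => (Pl.mem_D.1 hg x).le
  · simp only [trq, map_add]
    rw [csum_add h0, q2_add (fix_csum h hx) (fix_csum h hy)]
  · simp only [trq, map_sub]
    rw [csum_sub h0, q2_sub (fix_csum h hx) (fix_csum h hy)]
  · rw [← q2_nat, ← hm x hx _ (fix_nat _), trq, trq,
      csum_trans h.le hle (h'.relIndex_ne le_rfl) (ri (hx.mono hle))]
    refine congrArg q2 (csum_congr fun s _ => ?_)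
    rw [csum_congr (f := fun t => (s * t) x) (f' := fun _ => s x) fun t ht => congrArg s (hx t ht),
      csum_const (h'.relIndex_ne h.le), map_mul, map_natCast, nsmul_eq_mul]

end Pool.Agent.P.MP_9c97e9_nt.KT
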