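import Pool.Agent.P.MP_9c97e9_nt.KT.IfU
import Pool.Agent.P.MP_9c97e9_nt.KT.IfT2
import Pool.Agent.P.MP_9c97e9_nt.KT.TGEN

/-! Symbols are trivial on the geometric Galois group. -/

namespace Pool.Agent.P.MP_9c97e9_nt.KT

open MP_8b7eba_nt.R2

theorem t_TRIV (hFB : FB) (hCOK : COK) (hKUM : KUM) (hPKX : PKX) (hISO : ISO) (hSQ1 : SQ1) :
    TRIV := fun k M E hM hk hE _ => by
  obtain ⟨ok, nm, -⟩ := hCOK.2.2.1 k M hM hk
  obtain ⟨c, -⟩ := hFB.1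
  have : CharZero LL := charZero_of_injective_ringHom c.injective
  refine hKUM AL LL (CL k M) geo k _ ok rfl nm.le nm.cy hISO (hPKX AL LL geo (fun j => ?_) hSQ1 k)
    ((t_GEN AL LL _ ok).2 _ _ ((t_GEN AL LL _ ok).1 E hE).1).1
  obtain ⟨e, he⟩ := IsAlgClosed.exists_pow_nat_eq (-1 : Om) (Nat.two_pow_pos j)
  exact ⟨c e, by rw [← map_pow, he, map_neg, map_one]⟩

end Pool.Agent.P.MP_9c97e9_nt.KT
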