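import Pool.Agent.P.MP_9c97e9_nt.KT.Defs

/-! The statements of the chapters of the project KT. -/

namespace Pool.Agent.P.MP_9c97e9_nt.KT

open scoped NNReal Matrix
open MP_8b7eba_nt.R2
open Filter Topology Polynomial Module

/-- basic facts -/
def BAS : Prop :=
  (‖al0‖ = 1 ∧ al0 ^ 2 + al0 + 2 = 0) ∧ (∀ M, M ≠ 0 → IsCy M (cy M)) ∧
  (∀ x, (w2.v x : ℝ) = ‖i2 x‖) ∧
  ∀ n : ℕ, Squarefree n → n % 4 = 3 → n.Coprime 15 → ∃ D : Dat, D.n = n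

/-- the Frobenius eigenvalues at two, three and five -/
def F2X : Prop :=
  ∀ D : Dat, ‖D.rd D.f2 1 1 - 1‖ = (if D.n % 8 = 7 then 4⁻¹ else 2⁻¹) ∧
    D.rd D.f2 0 0 * D.rd D.f2 1 1 = 1 ∧ D.rd D.f2 1 0 = 0 ∧ D.rd D.z = -1 ∧ cyc D.z = 1 ∧
    (∀ g ∈ w2.I, g D.dl = D.dl) ∧
    ∀ w : Pl, w.p ∣ 15 → (∀ g ∈ w.I, g D.dl = D.dl) ∧ ∀ (e : V2) (φ : GQ), ‖e‖ = 1 →
      (∀ g ∈ w.I, T2.rho g *ᵥ e = e) → w.IsFrob 1 φ → D.rd φ *ᵥ e =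
        (if (w.p = 3 ∧ D.n % 3 = 1) ∨ (w.p = 5 ∧ (D.n % 5 = 1 ∨ D.n % 5 = 4)) then (w.p : ℚ_[2])
          else -w.p) • e

/-- the Euler system and the reciprocity law -/
def ESX : Prop := ∀ D : Dat, ∃ z, D.ES z ∧ D.ERL z

/-- the upper bound for the Selmer group -/
def Dat.UB (D : Dat) : Prop :=
  ∀ (q : ℚ_[2][X]) (j m i : ℕ), Irreducible q → q.Monic → i < m → m ≤ j →
    ∀ (A : Type) [NormedCommRing A] [NormedAlgebra ℚ_[2] A] [IsUltrametricDist A]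
      [FiniteDimensional ℚ_[2] A] (ψ : ℤ_[2] → A) (A' : Type) [NormedCommRing A']
      [NormedAlgebra ℚ_[2] A'] [IsUltrametricDist A'] [FiniteDimensional ℚ_[2] A'] (ψ' : ℤ_[2] → A'),
      IsAF ψ (q ^ (j + m)) → IsAF ψ' (q ^ j) →
      aeval (ψ 1 - 1) q ^ (j + m - i - 1) * thA (mes D.n) ψ ≠ 0 →
      ∀ M : Submodule A' (GS → Fin 2 → A'), FiniteDimensional ℚ_[2] M → (∀ x ∈ M, D.Sel ψ' x) →
        finrank ℚ_[2] M ≤ i * q.natDegree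

/-- the Kolyvagin argument -/
def UBX : Prop := ∀ (D : Dat) (z : EA), D.ES z → D.ERL z → D.UB

/-- the lower bound for the Selmer group -/
def Dat.LB (D : Dat) (F : ℚ_[2][X]) : Prop :=
  ∀ (q : ℚ_[2][X]) (k j : ℕ), Irreducible q → q ^ k ∣ F → F.natDegree ≤ j →
    ∀ (A : Type) [NormedCommRing A] [NormedAlgebra ℚ_[2] A] [IsUltrametricDist A]
      [FiniteDimensional ℚ_[2] A] (ψ : ℤ_[2] → A), IsAF ψ (q ^ j) →
      ∃ M : Submodule A (GS → Fin 2 → A), FiniteDimensional ℚ_[2] M ∧ (∀ x ∈ M, D.Sel ψ x) ∧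
        k * q.natDegree ≤ finrank ℚ_[2] M

/-- the Iwasawa module and its Euler characteristic -/
def IWX : Prop :=
  ∀ D : Dat, ∃ F, Dist F ∧ 2 * D.sg ≤ F.natDegree ∧ D.LB F ∧ (F.natDegree = 2 * D.sg →
    ({c | D.SH ⊤ c}.Finite ↔ F.eval 0 ≠ 0) ∧
    (F.eval 0 ≠ 0 → ({c | D.SH ⊤ c}.ncard : ℝ) * ‖F.eval 0‖ =
      4 * (if D.n % 3 = 1 then 2 else 4) * if D.n % 5 = 1 ∨ D.n % 5 = 4 then 4 else 2))

/-- comparison with the classical Selmer group -/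
def CASX : Prop :=
  ∀ D : Dat, ({c | D.SH ⊤ c}.Finite ↔ D.SelN.Finite) ∧ (D.SelN.Finite →
    4 * {c | D.SH ⊤ c}.ncard = D.SelN.ncard * (4 ^ D.n.primeFactors.card * 8 *
      (if D.n % 5 = 1 ∨ D.n % 5 = 4 then 16 else 4) * if D.n % 8 = 7 then 16 else 4))

open Classical in
/-- comparison with the Tate-Shafarevich group -/
def SHAX : Prop :=
  ∀ D : Dat, (D.SelN.Finite ↔
      Finite (Pt (tw D.n) ℚ) ∧ Finite (AddCommGroup.primaryComponent (Sha (tw D.n)) 2)) ∧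
    (D.SelN.Finite → D.SelN.ncard = Nat.card (AddCommGroup.primaryComponent (Sha (tw D.n)) 2))

/-- the invariants of the 2-adic L-function -/
def ANA : Prop :=
  ∀ D : Dat, (∀ k j, ‖mes D.n k j‖ ≤ 1) ∧
    (∀ᶠ k in atTop, ‖∑ j ∈ Finset.range (2 ^ k), mes D.n k j * j.choose (2 * D.sg)‖ = 1) ∧
    ∀ k, ‖∑ j ∈ Finset.range (2 ^ k), mes D.n k j‖ =
      ‖(1 - jacobiSym 2 D.n / al0) ^ 2 * MP_8b7eba_nt.BSD15.lam D.n / 2‖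

/-- comparison of the two sides -/
def TOPX : Prop :=
  ∀ (D : Dat) (F : ℚ_[2][X]) (s : ℕ) (t : ℝ), D.UB → Dist F → s ≤ F.natDegree → D.LB F →
    (∀ k j, ‖mes D.n k j‖ ≤ 1) →
    (∀ᶠ k in atTop, ‖∑ j ∈ Finset.range (2 ^ k), mes D.n k j * j.choose s‖ = 1) →
    (∀ k, ‖∑ j ∈ Finset.range (2 ^ k), mes D.n k j‖ = t) → F.natDegree = s ∧ ‖F.eval 0‖ = t

open Classical in
/-- the theorem -/
def MAIN : Prop :=
  ∀ n : ℕ, Squarefree n → n % 4 = 3 → n.Coprime 15 →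
    (∀ (p : ℕ) [Fact p.Prime], ((tw n).baseChange ℚ_[p]).IsMinimal ℤ_[p]) ∧
    Finite (AddCommGroup.torsion (Pt (tw n) ℚ)) ∧
    ∃ L : ℂ → ℂ, IsL (tw n) L ∧ ∃ m : ℕ,
      L 1 = (m : ℂ) ^ 2 * (period (tw n) : ℂ) * ((∏ᶠ p, tamagawa (tw n) p : ℕ) : ℂ) /
        (Nat.card (AddCommGroup.torsion (Pt (tw n) ℚ)) : ℂ) ^ 2 ∧
      (L 1 = 0 ↔ m = 0) ∧
      (m ≠ 0 ↔ Finite (Pt (tw n) ℚ) ∧ Finite (AddCommGroup.primaryComponent (Sha (tw n)) 2)) ∧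
      (m ≠ 0 → Nat.card (AddCommGroup.primaryComponent (Sha (tw n)) 2) =
        (2 ^ padicValNat 2 m) ^ 2)

end Pool.Agent.P.MP_9c97e9_nt.KT
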